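import Pool.Agent.FMZ.TJ

/-!
# FMZ-CONE: the cone lemma for g₊, g₋ and the bound of the complex powers
-/

open Complex MeasureTheory Set Filter Topology

namespace FMZ

namespace CONE_

/-- a combination `P e^(iβ) + N e^(-iβ)` with `P, N ≥ 0` stays in the cone `|arg| ≤ b` -/
lemma cone {P N β b : ℝ} (hP : 0 ≤ P) (hN : 0 ≤ N) (hPN : 0 < P + N) (hβ : |β| ≤ b)
    (hb : b < Real.pi / 2) {z : ℂ} (hre : z.re = (P + N) * Real.cos β)
    (him : z.im = (P - N) * Real.sin β) :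
    0 < z.re ∧ z ∈ slitPlane ∧ |z.arg| ≤ b ∧ Real.cos b * (P + N) ≤ ‖z‖ := by
  have hb0 : 0 ≤ b := (abs_nonneg β).trans hβ
  have hpi := Real.pi_pos
  have hcosb : 0 < Real.cos b := Real.cos_pos_of_mem_Ioo ⟨by linarith, hb⟩
  have hcos : Real.cos b ≤ Real.cos β := by
    rw [← Real.cos_abs β]
    exact Real.cos_le_cos_of_nonneg_of_le_pi (abs_nonneg β) (by linarith) hβ
  have hcosβ : 0 < Real.cos β := hcosb.trans_le hcos
  have hre0 : 0 < z.re := by
    rw [hre]
    exact mul_pos hPN hcosβ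
  have hnorm : Real.cos b * (P + N) ≤ ‖z‖ := by
    refine le_trans ?_ (Complex.re_le_norm z)
    rw [hre, mul_comm]
    exact mul_le_mul_of_nonneg_left hcos hPN.le
  have hz0 : 0 < ‖z‖ := hre0.trans_le (Complex.re_le_norm z)
  have hsinb : 0 ≤ Real.sin b := Real.sin_nonneg_of_nonneg_of_le_pi hb0 (by linarith)
  have hs1 : Real.sin β ^ 2 ≤ Real.sin b ^ 2 := by
    have h1 := Real.sin_sq_add_cos_sq β
    have h2 := Real.sin_sq_add_cos_sq b
    nlinarith
  have hc1 : Real.cos b ^ 2 ≤ Real.cos β ^ 2 := by nlinarith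
  have hkey : z.im ^ 2 ≤ (Real.sin b * ‖z‖) ^ 2 := by
    have h3 : ‖z‖ ^ 2 = z.re ^ 2 + z.im ^ 2 := by
      rw [Complex.sq_norm, Complex.normSq_apply]; ring
    have h4 : z.im ^ 2 * Real.cos b ^ 2 ≤ Real.sin b ^ 2 * z.re ^ 2 := by
      rw [hre, him]
      have h5 : (P - N) ^ 2 ≤ (P + N) ^ 2 := by nlinarith [mul_nonneg hP hN]
      calc ((P - N) * Real.sin β) ^ 2 * Real.cos b ^ 2
          = (P - N) ^ 2 * (Real.sin β ^ 2 * Real.cos b ^ 2) := by ring
        _ ≤ (P + N) ^ 2 * (Real.sin b ^ 2 * Real.cos β ^ 2) := by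
            gcongr
        _ = Real.sin b ^ 2 * ((P + N) * Real.cos β) ^ 2 := by ring
    have h6 := Real.sin_sq_add_cos_sq b
    rw [mul_pow, h3]
    nlinarith
  have habs : |z.im| ≤ Real.sin b * ‖z‖ := abs_le_of_sq_le_sq hkey (mul_nonneg hsinb hz0.le)
  have hquot : |z.im / ‖z‖| ≤ Real.sin b := by
    rw [abs_div, abs_of_pos hz0, div_le_iff₀ hz0]
    exact habs
  refine ⟨hre0, Complex.mem_slitPlane_iff.2 (Or.inl hre0), ?_, hnorm⟩
  rw [Complex.arg_of_re_nonneg hre0.le, abs_le]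
  have h7 := abs_le.1 hquot
  have h8 : Real.arcsin (Real.sin b) = b := Real.arcsin_sin (by linarith) (by linarith)
  constructor
  · have h9 : Real.arcsin (-Real.sin b) ≤ Real.arcsin (z.im / ‖z‖) := Real.monotone_arcsin h7.1
    rw [Real.arcsin_neg, h8] at h9
    exact h9
  · have h9 : Real.arcsin (z.im / ‖z‖) ≤ Real.arcsin (Real.sin b) := Real.monotone_arcsin h7.2
    rw [h8] at h9
    exact h9

lemma cosh_parts (d : ℂ) : (Complex.cosh d).re = Real.cosh d.re * Real.cos d.im ∧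
    (Complex.cosh d).im = Real.sinh d.re * Real.sin d.im := by
  have h : Complex.cosh d = ((Real.cosh d.re * Real.cos d.im : ℝ) : ℂ) +
      ((Real.sinh d.re * Real.sin d.im : ℝ) : ℂ) * I := by
    conv_lhs => rw [← Complex.re_add_im d]
    rw [Complex.cosh_add, Complex.cosh_mul_I, Complex.sinh_mul_I, ← Complex.ofReal_cosh,
      ← Complex.ofReal_cos, ← Complex.ofReal_sinh, ← Complex.ofReal_sin]
    push_cast
    ring
  rw [h]
  constructor
  · simp only [Complex.add_re, Complex.ofReal_re, Complex.mul_re, Complex.I_re, mul_zero,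
      Complex.ofReal_im, Complex.I_im, mul_one, sub_self, add_zero]
  · simp only [Complex.add_im, Complex.ofReal_im, Complex.mul_im, Complex.I_re, mul_zero,
      Complex.ofReal_re, Complex.I_im, mul_one, add_zero, zero_add]

lemma sinh_parts (d : ℂ) : (Complex.sinh d).re = Real.sinh d.re * Real.cos d.im ∧
    (Complex.sinh d).im = Real.cosh d.re * Real.sin d.im := by
  have h : Complex.sinh d = ((Real.sinh d.re * Real.cos d.im : ℝ) : ℂ) +
      ((Real.cosh d.re * Real.sin d.im : ℝ) : ℂ) * I := by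
    conv_lhs => rw [← Complex.re_add_im d]
    rw [Complex.sinh_add, Complex.cosh_mul_I, Complex.sinh_mul_I, ← Complex.ofReal_cosh,
      ← Complex.ofReal_cos, ← Complex.ofReal_sinh, ← Complex.ofReal_sin]
    push_cast
    ring
  rw [h]
  constructor
  · simp only [Complex.add_re, Complex.ofReal_re, Complex.mul_re, Complex.I_re, mul_zero,
      Complex.ofReal_im, Complex.I_im, mul_one, sub_self, add_zero]
  · simp only [Complex.add_im, Complex.ofReal_im, Complex.mul_im, Complex.I_re, mul_zero,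
      Complex.ofReal_re, Complex.I_im, mul_one, add_zero, zero_add]

lemma gp_parts (v : ℝ) (d : ℂ) :
    (gp v d).re = (Real.exp d.re * (Real.cosh v + 1) / 2 +
      Real.exp (-d.re) * (Real.cosh v - 1) / 2) * Real.cos d.im ∧
    (gp v d).im = (Real.exp d.re * (Real.cosh v + 1) / 2 -
      Real.exp (-d.re) * (Real.cosh v - 1) / 2) * Real.sin d.im := by
  obtain ⟨h1, h2⟩ := cosh_parts d
  obtain ⟨h3, h4⟩ := sinh_parts d
  constructor
  · rw [gp, Complex.add_re, Complex.re_mul_ofReal, h1, h3, Real.cosh_eq d.re, Real.sinh_eq d.re]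
    ring
  · rw [gp, Complex.add_im, Complex.im_mul_ofReal, h2, h4, Real.cosh_eq d.re, Real.sinh_eq d.re]
    ring

lemma gm_parts (v : ℝ) (d : ℂ) :
    (gm v d).re = (Real.exp d.re * (Real.cosh v - 1) / 2 +
      Real.exp (-d.re) * (Real.cosh v + 1) / 2) * Real.cos d.im ∧
    (gm v d).im = (Real.exp d.re * (Real.cosh v - 1) / 2 -
      Real.exp (-d.re) * (Real.cosh v + 1) / 2) * Real.sin d.im := by
  obtain ⟨h1, h2⟩ := cosh_parts d
  obtain ⟨h3, h4⟩ := sinh_parts d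
  constructor
  · rw [gm, Complex.sub_re, Complex.re_mul_ofReal, h1, h3, Real.cosh_eq d.re, Real.sinh_eq d.re]
    ring
  · rw [gm, Complex.sub_im, Complex.im_mul_ofReal, h2, h4, Real.cosh_eq d.re, Real.sinh_eq d.re]
    ring

lemma gp_cone {d : ℂ} (v : ℝ) {b : ℝ} (hd : |d.im| ≤ b) (hb : b < Real.pi / 2) :
    0 < (gp v d).re ∧ gp v d ∈ slitPlane ∧ |(gp v d).arg| ≤ b ∧
    Real.cos b * (Real.exp d.re * (Real.cosh v + 1) + Real.exp (-d.re) * (Real.cosh v - 1)) ≤
      ‖2 * gp v d‖ := by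
  have hv := Real.one_le_cosh v
  have hP : 0 < Real.exp d.re * (Real.cosh v + 1) / 2 := by positivity
  have hN : 0 ≤ Real.exp (-d.re) * (Real.cosh v - 1) / 2 := by
    have : 0 ≤ Real.cosh v - 1 := by linarith
    positivity
  obtain ⟨h1, h2, h3, h4⟩ := cone hP.le hN (by linarith) hd hb (gp_parts v d).1 (gp_parts v d).2
  refine ⟨h1, h2, h3, ?_⟩
  rw [norm_mul, Complex.norm_two]
  linarith

lemma gm_cone {d : ℂ} (v : ℝ) {b : ℝ} (hd : |d.im| ≤ b) (hb : b < Real.pi / 2) :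
    0 < (gm v d).re ∧ gm v d ∈ slitPlane ∧ |(gm v d).arg| ≤ b ∧
    Real.cos b * (Real.exp (-d.re) * (Real.cosh v + 1) + Real.exp d.re * (Real.cosh v - 1)) ≤
      ‖2 * gm v d‖ := by
  have hv := Real.one_le_cosh v
  have hN : 0 < Real.exp (-d.re) * (Real.cosh v + 1) / 2 := by positivity
  have hP : 0 ≤ Real.exp d.re * (Real.cosh v - 1) / 2 := by
    have : 0 ≤ Real.cosh v - 1 := by linarith
    positivity
  obtain ⟨h1, h2, h3, h4⟩ := cone hP hN.le (by linarith) hd hb (gm_parts v d).1 (gm_parts v d).2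
  refine ⟨h1, h2, h3, ?_⟩
  rw [norm_mul, Complex.norm_two]
  linarith

lemma norm_cpow_le {z s : ℂ} {b : ℝ} (hz : z ≠ 0) (harg : |z.arg| ≤ b) :
    ‖(2 * z) ^ (-s)‖ ≤ ‖2 * z‖ ^ (-s.re) * Real.exp (b * |s.im|) := by
  have h2 : (2 * z) ≠ 0 := mul_ne_zero two_ne_zero hz
  have h3 : (2 * z).arg = z.arg := by
    have := Complex.arg_real_mul z (r := 2) two_pos
    simpa using this
  rw [Complex.norm_cpow_of_ne_zero h2, h3, Complex.neg_re, Complex.neg_im, div_eq_mul_inv,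
    ← Real.exp_neg]
  refine mul_le_mul_of_nonneg_left (Real.exp_le_exp.2 ?_) (Real.rpow_nonneg (norm_nonneg _) _)
  have h4 : -(z.arg * -s.im) = z.arg * s.im := by ring
  rw [h4]
  calc z.arg * s.im ≤ |z.arg * s.im| := le_abs_self _
    _ = |z.arg| * |s.im| := abs_mul _ _
    _ ≤ b * |s.im| := mul_le_mul_of_nonneg_right harg (abs_nonneg _)

end CONE_

theorem pCONE : tCONE := by
  intro d v b hd hb
  obtain ⟨h1, h2, h3, h4⟩ := CONE_.gp_cone v hd hb
  obtain ⟨h5, h6, h7, h8⟩ := CONE_.gm_cone v hd hb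
  exact ⟨add_pos h1 h5, h2, h6, h3, h7, h4, h8⟩

theorem pPHB : tPHB := by
  intro s d v b hd hb
  obtain ⟨h1, h2, h3, h4⟩ := CONE_.gp_cone v hd hb
  obtain ⟨h5, h6, h7, h8⟩ := CONE_.gm_cone v hd hb
  exact ⟨CONE_.norm_cpow_le (Complex.slitPlane_ne_zero h2) h3,
    CONE_.norm_cpow_le (Complex.slitPlane_ne_zero h6) h7⟩

end FMZ
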