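import Pool.Agent.FMZ.TW

/-!
# FMZ-DDL: calculus of the radial operator
-/

open Complex MeasureTheory Set Filter Topology

namespace FMZ

namespace DDL_

lemma isOpen_S0 : IsOpen S0 := by
  have h : Continuous (fun d : ℂ => |d.im|) := continuous_im.abs
  exact isOpen_lt h continuous_const

lemma neg_mem {d : ℂ} (hd : d ∈ S0) : -d ∈ S0 := by
  have h : |d.im| < Real.pi / 2 := hd
  show |(-d).im| < Real.pi / 2
  rw [neg_im, abs_neg]
  exact h

lemma cosh_re' (d : ℂ) : (Complex.cosh d).re = Real.cosh d.re * Real.cos d.im := by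
  have h : Complex.cosh d = ((Real.cosh d.re * Real.cos d.im : ℝ) : ℂ) +
      ((Real.sinh d.re * Real.sin d.im : ℝ) : ℂ) * I := by
    conv_lhs => rw [← Complex.re_add_im d]
    rw [Complex.cosh_add, Complex.cosh_mul_I, Complex.sinh_mul_I, ← Complex.ofReal_cosh,
      ← Complex.ofReal_cos, ← Complex.ofReal_sinh, ← Complex.ofReal_sin]
    push_cast
    ring
  rw [h]
  simp only [Complex.add_re, Complex.ofReal_re, Complex.mul_re, Complex.I_re, mul_zero,
    Complex.ofReal_im, Complex.I_im, mul_one, sub_self, add_zero]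

lemma cosh_ne {d : ℂ} (hd : d ∈ S0) : Complex.cosh d ≠ 0 := by
  have h : |d.im| < Real.pi / 2 := hd
  intro h0
  have h1 : (Complex.cosh d).re = Real.cosh d.re * Real.cos d.im := cosh_re' d
  rw [h0, zero_re] at h1
  have h2 : 0 < Real.cos d.im := Real.cos_pos_of_mem_Ioo ⟨by linarith [(abs_lt.1 h).1], (abs_lt.1 h).2⟩
  have h3 := Real.cosh_pos d.re
  have h4 : 0 < Real.cosh d.re * Real.cos d.im := mul_pos h3 h2
  linarith

lemma tanh_diff : DifferentiableOn ℂ Complex.tanh S0 := by
  have h : Complex.tanh = fun d => Complex.sinh d / Complex.cosh d := by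
    funext d
    exact Complex.tanh_eq_sinh_div_cosh d
  rw [h]
  exact Complex.differentiable_sinh.differentiableOn.div
    Complex.differentiable_cosh.differentiableOn fun d hd => cosh_ne hd

lemma DD_diff {f : ℂ → ℂ} (hf : DifferentiableOn ℂ f S0) : DifferentiableOn ℂ (DD f) S0 := by
  have h1 := hf.deriv isOpen_S0
  have h2 := h1.deriv isOpen_S0
  exact (h2.add (tanh_diff.mul h1)).neg

lemma iter_diff (M : ℕ) : ∀ f : ℂ → ℂ, DifferentiableOn ℂ f S0 →
    DifferentiableOn ℂ (DD^[M] f) S0 := by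
  induction M with
  | zero => exact fun f hf => hf
  | succ M ih =>
    intro f hf
    rw [Function.iterate_succ_apply]
    exact ih _ (DD_diff hf)

lemma deriv_congr {f g : ℂ → ℂ} (h : ∀ d ∈ S0, f d = g d) : ∀ d ∈ S0, deriv f d = deriv g d := by
  intro d hd
  refine Filter.EventuallyEq.deriv_eq ?_
  exact Filter.eventually_of_mem (isOpen_S0.mem_nhds hd) h

lemma DD_congr {f g : ℂ → ℂ} (h : ∀ d ∈ S0, f d = g d) : ∀ d ∈ S0, DD f d = DD g d := by
  intro d hd
  have h1 := deriv_congr h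
  have h2 := deriv_congr h1
  rw [DD, DD, h1 d hd, h2 d hd]

lemma iter_congr (M : ℕ) : ∀ f g : ℂ → ℂ, (∀ d ∈ S0, f d = g d) →
    ∀ d ∈ S0, (DD^[M] f) d = (DD^[M] g) d := by
  induction M with
  | zero => exact fun f g h => h
  | succ M ih =>
    intro f g h
    rw [Function.iterate_succ_apply, Function.iterate_succ_apply]
    exact ih _ _ (DD_congr h)

lemma deriv_lin {f g : ℂ → ℂ} (hf : DifferentiableOn ℂ f S0) (hg : DifferentiableOn ℂ g S0)
    (a b : ℂ) : ∀ d ∈ S0, deriv (fun z => a * f z + b * g z) d = a * deriv f d + b * deriv g d := by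
  intro d hd
  have h1 := (hf.differentiableAt (isOpen_S0.mem_nhds hd)).hasDerivAt
  have h2 := (hg.differentiableAt (isOpen_S0.mem_nhds hd)).hasDerivAt
  exact ((h1.const_mul a).fun_add (h2.const_mul b)).deriv

lemma DD_lin {f g : ℂ → ℂ} (hf : DifferentiableOn ℂ f S0) (hg : DifferentiableOn ℂ g S0)
    (a b : ℂ) : ∀ d ∈ S0, DD (fun z => a * f z + b * g z) d = a * DD f d + b * DD g d := by
  intro d hd
  have h1 := deriv_lin hf hg a b
  have h2 : ∀ d ∈ S0, deriv (deriv (fun z => a * f z + b * g z)) d =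
      a * deriv (deriv f) d + b * deriv (deriv g) d := by
    intro d hd
    rw [deriv_congr h1 d hd]
    exact deriv_lin (hf.deriv isOpen_S0) (hg.deriv isOpen_S0) a b d hd
  rw [DD, DD, DD, h1 d hd, h2 d hd]
  ring

lemma iter_lin (M : ℕ) : ∀ f g : ℂ → ℂ, DifferentiableOn ℂ f S0 → DifferentiableOn ℂ g S0 →
    ∀ a b : ℂ, ∀ d ∈ S0, (DD^[M] (fun z => a * f z + b * g z)) d =
      a * (DD^[M] f) d + b * (DD^[M] g) d := by
  induction M with
  | zero => exact fun f g _ _ a b d _ => rfl
  | succ M ih =>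
    intro f g hf hg a b d hd
    rw [Function.iterate_succ_apply, Function.iterate_succ_apply, Function.iterate_succ_apply,
      iter_congr M _ (fun z => a * DD f z + b * DD g z) (DD_lin hf hg a b) d hd]
    exact ih _ _ (DD_diff hf) (DD_diff hg) a b d hd

lemma deriv_even {f : ℂ → ℂ} (h : ∀ d ∈ S0, f (-d) = f d) : ∀ d ∈ S0, deriv f (-d) = -deriv f d := by
  intro d hd
  have h1 : deriv (fun z => f (-z)) d = -deriv f (-d) := deriv_comp_neg f d
  have h2 := deriv_congr (f := fun z => f (-z)) (g := f) h d hd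
  rw [h1] at h2
  rw [← h2, neg_neg]

lemma deriv_odd {f : ℂ → ℂ} (h : ∀ d ∈ S0, f (-d) = -f d) : ∀ d ∈ S0, deriv f (-d) = deriv f d := by
  intro d hd
  have h1 : deriv (fun z => f (-z)) d = -deriv f (-d) := deriv_comp_neg f d
  have h2 := deriv_congr (f := fun z => f (-z)) (g := fun z => -f z) h d hd
  have h3 : deriv (fun z => -f z) d = -deriv f d := deriv.fun_neg
  rw [h1, h3] at h2
  exact neg_injective h2

lemma DD_even {f : ℂ → ℂ} (h : ∀ d ∈ S0, f (-d) = f d) : ∀ d ∈ S0, DD f (-d) = DD f d := by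
  intro d hd
  have h1 := deriv_even h
  have h2 := deriv_odd h1
  show -(deriv (deriv f) (-d) + Complex.tanh (-d) * deriv f (-d)) =
    -(deriv (deriv f) d + Complex.tanh d * deriv f d)
  rw [h1 d hd, h2 d hd, Complex.tanh_neg]
  ring

lemma iter_even (M : ℕ) : ∀ f : ℂ → ℂ, (∀ d ∈ S0, f (-d) = f d) →
    ∀ d ∈ S0, (DD^[M] f) (-d) = (DD^[M] f) d := by
  induction M with
  | zero => exact fun f h => h
  | succ M ih =>
    intro f h
    rw [Function.iterate_succ_apply]
    exact ih _ (DD_even h)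

end DDL_

theorem pDDL : tDDL :=
  ⟨fun f hf M => DDL_.iter_diff M f hf,
    fun f g hf hg a b M d hd => DDL_.iter_lin M f g hf hg a b d hd,
    fun f g h M d hd => DDL_.iter_congr M f g h d hd,
    fun f _ h M d hd => DDL_.iter_even M f h d hd⟩

end FMZ
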