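import Pool.Agent.FMZ.TW
import Pool.Agent.FMZ.DDL

/-!
# FMZ-DEC: powers of the radial operator kill polynomials (Cauchy estimates)
-/

open Complex MeasureTheory Set Filter Topology

namespace FMZ

namespace DEC_

/-- the ball lies in the strip, to the right of 1 -/
def Good (d : ℂ) (ρ : ℝ) : Prop := 0 < ρ ∧ ρ ≤ 1 ∧ ∀ z ∈ Metric.closedBall d ρ, z ∈ S0 ∧ 1 ≤ z.re

/-- 1 - tanh -/
noncomputable def u (d : ℂ) : ℂ := 1 - Complex.tanh d

lemma u_eq {d : ℂ} (hd : d ∈ S0) :
    u d = 2 * Complex.exp (-2 * d) / (1 + Complex.exp (-2 * d)) := by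
  have h0 := DDL_.cosh_ne hd
  have h1 : 1 + Complex.exp (-2 * d) = 2 * Complex.exp (-d) * Complex.cosh d := by
    rw [Complex.cosh]
    have e1 : Complex.exp (-d) * Complex.exp d = 1 := by
      rw [← Complex.exp_add]; simp
    have e2 : Complex.exp (-d) * Complex.exp (-d) = Complex.exp (-2 * d) := by
      rw [← Complex.exp_add]; ring_nf
    rw [← e2]
    linear_combination -e1
  have h2 : 1 + Complex.exp (-2 * d) ≠ 0 := by
    rw [h1]
    exact mul_ne_zero (mul_ne_zero two_ne_zero (Complex.exp_ne_zero _)) h0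
  have h3 : 2 * Complex.exp (-2 * d) = 2 * Complex.exp (-d) * (Complex.cosh d - Complex.sinh d) := by
    rw [Complex.cosh_sub_sinh]
    have e2 : Complex.exp (-d) * Complex.exp (-d) = Complex.exp (-2 * d) := by
      rw [← Complex.exp_add]; ring_nf
    rw [← e2]; ring
  unfold u
  rw [h3, h1, Complex.tanh_eq_sinh_div_cosh]
  have h4 : Complex.exp (-d) ≠ 0 := Complex.exp_ne_zero _
  field_simp

lemma u_bd {d : ℂ} (hd : d ∈ S0) (h1 : 1 ≤ d.re) : ‖u d‖ ≤ 4 * Real.exp (-2 * d.re) := by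
  rw [u_eq hd, norm_div, norm_mul, Complex.norm_exp]
  have e1 : (-2 * d).re = -2 * d.re := by simp
  rw [e1]
  have h2 : Real.exp (-2 * d.re) ≤ 1 / 2 := by
    have h3 : Real.exp (-2 * d.re) ≤ Real.exp (-1) := Real.exp_le_exp.mpr (by linarith)
    have h4 : Real.exp (-1) ≤ 1 / 2 := by
      rw [Real.exp_neg, inv_le_comm₀ (Real.exp_pos _) (by norm_num)]
      have := Real.add_one_le_exp (1 : ℝ)
      norm_num at this ⊢
      linarith
    linarith
  have h5 : 1 / 2 ≤ ‖1 + Complex.exp (-2 * d)‖ := by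
    have h6 : ‖(1 : ℂ)‖ ≤ ‖1 + Complex.exp (-2 * d)‖ + ‖Complex.exp (-2 * d)‖ := by
      have := norm_sub_le (1 + Complex.exp (-2 * d)) (Complex.exp (-2 * d))
      rwa [add_sub_cancel_right] at this
    rw [norm_one, Complex.norm_exp, e1] at h6
    linarith
  rw [div_le_iff₀ (by linarith)]
  have h7 := Real.exp_pos (-2 * d.re)
  have h8 : ‖(2 : ℂ)‖ = 2 := by simp
  rw [h8]
  nlinarith

lemma tanh_bd {d : ℂ} (hd : d ∈ S0) (h1 : 1 ≤ d.re) : ‖Complex.tanh d‖ ≤ 3 := by
  have h2 := u_bd hd h1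
  have h3 : Complex.tanh d = 1 - u d := by unfold u; ring
  rw [h3]
  refine (norm_sub_le _ _).trans ?_
  have h4 : Real.exp (-2 * d.re) ≤ 1 / 2 := by
    have h3 : Real.exp (-2 * d.re) ≤ Real.exp (-1) := Real.exp_le_exp.mpr (by linarith)
    have h4 : Real.exp (-1) ≤ 1 / 2 := by
      rw [Real.exp_neg, inv_le_comm₀ (Real.exp_pos _) (by norm_num)]
      have := Real.add_one_le_exp (1 : ℝ)
      norm_num at this ⊢
      linarith
    linarith
  rw [norm_one]
  linarith

lemma sub_ball {d z : ℂ} {ρ : ℝ} (hz : z ∈ Metric.closedBall d (ρ / 2)) :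
    Metric.closedBall z (ρ / 2) ⊆ Metric.closedBall d ρ := by
  refine Metric.closedBall_subset_closedBall' ?_
  rw [Metric.mem_closedBall] at hz
  linarith

lemma DD_bd {h : ℂ → ℂ} (hh : DifferentiableOn ℂ h S0) {d : ℂ} {ρ m : ℝ} (hg : Good d ρ)
    (hm : ∀ z ∈ Metric.closedBall d ρ, ‖h z‖ ≤ m) {z : ℂ}
    (hz : z ∈ Metric.closedBall d (ρ / 2)) : ‖DD h z‖ ≤ 14 * m / ρ ^ 2 := by
  obtain ⟨h0, h1, h2⟩ := hg
  have hsub := sub_ball hz
  have hr : 0 < ρ / 2 := by linarith
  have hzz : z ∈ Metric.closedBall d ρ := hsub (Metric.mem_closedBall_self hr.le)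
  have hm0 : 0 ≤ m := (norm_nonneg _).trans (hm z hzz)
  have hS : ∀ w ∈ Metric.closedBall z (ρ / 2), w ∈ S0 := fun w hw => (h2 w (hsub hw)).1
  have hdc : DiffContOnCl ℂ h (Metric.ball z (ρ / 2)) := by
    refine DifferentiableOn.diffContOnCl ?_
    rw [closure_ball z hr.ne']
    exact hh.mono hS
  have hd1 : ‖deriv h z‖ ≤ m / (ρ / 2) :=
    Complex.norm_deriv_le_of_forall_mem_sphere_norm_le hr hdc
      (fun w hw => hm w (hsub (Metric.sphere_subset_closedBall hw)))
  have hd2 : ‖deriv (deriv h) z‖ ≤ 2 * m / (ρ / 2) ^ 2 := by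
    have := Complex.norm_iteratedDeriv_le_of_forall_mem_sphere_norm_le 2 hr hdc
      (fun w hw => hm w (hsub (Metric.sphere_subset_closedBall hw)))
    rw [iteratedDeriv_succ, iteratedDeriv_one] at this
    simpa using this
  have ht := tanh_bd (h2 z hzz).1 (h2 z hzz).2
  unfold DD
  rw [norm_neg]
  refine (norm_add_le _ _).trans ?_
  rw [norm_mul]
  have e1 : 2 * m / (ρ / 2) ^ 2 = 8 * m / ρ ^ 2 := by field_simp; ring
  have e2 : m / (ρ / 2) = 2 * m / ρ := by field_simp
  rw [e1] at hd2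
  rw [e2] at hd1
  have h3 : ‖Complex.tanh z‖ * ‖deriv h z‖ ≤ 3 * (2 * m / ρ) :=
    mul_le_mul ht hd1 (norm_nonneg _) (by norm_num)
  have h4 : 3 * (2 * m / ρ) ≤ 6 * m / ρ ^ 2 := by
    rw [← mul_div_assoc, div_le_div_iff₀ h0 (by positivity)]
    have h5 : ρ ^ 2 ≤ ρ := by nlinarith
    have h6 : 0 ≤ 3 * (2 * m) := by positivity
    calc 3 * (2 * m) * ρ ^ 2 ≤ 3 * (2 * m) * ρ := mul_le_mul_of_nonneg_left h5 h6
      _ = 6 * m * ρ := by ring
  calc _ ≤ 8 * m / ρ ^ 2 + 6 * m / ρ ^ 2 := add_le_add hd2 (h3.trans h4)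
    _ = 14 * m / ρ ^ 2 := by ring

/-- iterated Cauchy estimate -/
lemma iter_bd (M : ℕ) : ∃ K : ℝ, 0 < K ∧ ∀ (h : ℂ → ℂ), DifferentiableOn ℂ h S0 →
    ∀ (d : ℂ) (ρ m : ℝ), Good d ρ → (∀ z ∈ Metric.closedBall d ρ, ‖h z‖ ≤ m) →
    ‖(DD^[M] h) d‖ ≤ K * m / ρ ^ (2 * M) := by
  induction M with
  | zero =>
    refine ⟨1, one_pos, fun h _ d ρ m hg hm => ?_⟩
    have := hm d (Metric.mem_closedBall_self hg.1.le)
    simpa using this
  | succ M ih =>
    obtain ⟨K, hK, ih⟩ := ih
    refine ⟨K * 14 * 4 ^ M, by positivity, fun h hh d ρ m hg hm => ?_⟩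
    rw [Function.iterate_succ_apply]
    obtain ⟨h0, h1, h2⟩ := hg
    have hg' : Good d (ρ / 2) := by
      refine ⟨by linarith, by linarith, fun z hz => h2 z ?_⟩
      exact Metric.closedBall_subset_closedBall (by linarith) hz
    have h3 := ih (DD h) (DDL_.DD_diff hh) d (ρ / 2) (14 * m / ρ ^ 2) hg'
      (fun z hz => DD_bd hh ⟨h0, h1, h2⟩ hm hz)
    refine h3.trans (le_of_eq ?_)
    have e : (ρ / 2) ^ (2 * M) = ρ ^ (2 * M) / 4 ^ M := by
      rw [div_pow, pow_mul 2 2 M]; norm_num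
    rw [e, show 2 * (M + 1) = 2 * M + 2 by ring, pow_add]
    field_simp

/-- growth of polynomials in the strip -/
lemma poly_bd (P : Polynomial ℂ) : ∃ C : ℝ, 0 ≤ C ∧ ∀ d ∈ S0, 1 ≤ d.re →
    ‖P.eval d‖ ≤ C * Real.exp (d.re / 2) := by
  induction P using Polynomial.induction_on' with
  | add p q hp hq =>
    obtain ⟨C1, h1, hp⟩ := hp
    obtain ⟨C2, h2, hq⟩ := hq
    refine ⟨C1 + C2, by positivity, fun d hd hd1 => ?_⟩
    rw [Polynomial.eval_add]
    refine (norm_add_le _ _).trans ?_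
    rw [add_mul]
    exact add_le_add (hp d hd hd1) (hq d hd hd1)
  | monomial n c =>
    refine ⟨‖c‖ * (2 ^ n * n.factorial * Real.exp 1), by positivity, fun d hd hd1 => ?_⟩
    rw [Polynomial.eval_monomial, norm_mul, norm_pow, mul_assoc]
    refine mul_le_mul_of_nonneg_left ?_ (norm_nonneg _)
    have h1 : ‖d‖ ≤ d.re + 2 := by
      have h2 : ‖d‖ ≤ |d.re| + |d.im| := Complex.norm_le_abs_re_add_abs_im d
      have h3 : |d.im| < Real.pi / 2 := hd
      have h4 := Real.pi_lt_four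
      rw [abs_of_nonneg (by linarith)] at h2
      linarith
    have h2 : ‖d‖ ^ n ≤ (d.re + 2) ^ n := pow_le_pow_left₀ (norm_nonneg _) h1 n
    have h3 : ((d.re + 2) / 2) ^ n / n.factorial ≤ Real.exp ((d.re + 2) / 2) :=
      Real.pow_div_factorial_le_exp _ (by linarith) n
    rw [div_le_iff₀ (by positivity)] at h3
    have h4 : (d.re + 2) ^ n = 2 ^ n * ((d.re + 2) / 2) ^ n := by
      rw [← mul_pow]; congr 1; ring
    have h5 : Real.exp ((d.re + 2) / 2) = Real.exp 1 * Real.exp (d.re / 2) := by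
      rw [← Real.exp_add]; congr 1; ring
    calc ‖d‖ ^ n ≤ (d.re + 2) ^ n := h2
      _ = 2 ^ n * ((d.re + 2) / 2) ^ n := h4
      _ ≤ 2 ^ n * (Real.exp ((d.re + 2) / 2) * n.factorial) :=
          mul_le_mul_of_nonneg_left h3 (by positivity)
      _ = 2 ^ n * n.factorial * Real.exp 1 * Real.exp (d.re / 2) := by rw [h5]; ring

lemma DD_poly (Q : Polynomial ℂ) (d : ℂ) :
    DD (fun z => Q.eval z) d =
      1 * (-(Polynomial.derivative (Polynomial.derivative Q) + Polynomial.derivative Q)).eval d +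
      1 * (u d * (Polynomial.derivative Q).eval d) := by
  have h1 : deriv (fun z => Q.eval z) = fun z => (Polynomial.derivative Q).eval z := by
    funext z
    exact Polynomial.deriv Q
  have h2 : deriv (fun z => (Polynomial.derivative Q).eval z) =
      fun z => (Polynomial.derivative (Polynomial.derivative Q)).eval z := by
    funext z
    exact Polynomial.deriv _
  unfold DD u
  rw [h1, h2]
  simp only [Polynomial.eval_neg, Polynomial.eval_add]
  ring

lemma poly_diff (Q : Polynomial ℂ) : DifferentiableOn ℂ (fun z => Q.eval z) S0 :=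
  Q.differentiable.differentiableOn

lemma u_diff : DifferentiableOn ℂ u S0 := by
  unfold u
  exact (differentiableOn_const _).sub DDL_.tanh_diff

lemma deg_lt (Q : Polynomial ℂ) (M : ℕ) (hQ : Q.degree < ((M + 1 : ℕ) : WithBot ℕ)) :
    (-(Polynomial.derivative (Polynomial.derivative Q) + Polynomial.derivative Q)).degree <
      (M : WithBot ℕ) := by
  have key : ∀ P : Polynomial ℂ, P.degree < ((M + 1 : ℕ) : WithBot ℕ) →
      (Polynomial.derivative P).degree < (M : WithBot ℕ) := by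
    intro P hP
    by_cases h0 : Polynomial.derivative P = 0
    · rw [h0, Polynomial.degree_zero]
      exact WithBot.bot_lt_coe _
    · have hP0 : P ≠ 0 := by
        rintro rfl
        simp at h0
      have h1 := Polynomial.degree_derivative_lt hP0
      rw [Polynomial.degree_eq_natDegree h0] at h1 ⊢
      rw [Polynomial.degree_eq_natDegree hP0] at h1 hP
      norm_cast at h1 hP ⊢
      omega
  rw [Polynomial.degree_neg]
  have h1 := key Q hQ
  have h2 : (Polynomial.derivative (Polynomial.derivative Q)).degree < (M : WithBot ℕ) := by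
    apply key
    refine h1.trans ?_
    exact_mod_cast Nat.lt_succ_self M
  exact lt_of_le_of_lt (Polynomial.degree_add_le _ _) (max_lt h2 h1)

lemma Good.exp_bd {d z : ℂ} {ρ : ℝ} (hg : Good d ρ) (hz : z ∈ Metric.closedBall d ρ) :
    d.re - 1 ≤ z.re := by
  have h1 : |z.re - d.re| ≤ ‖z - d‖ := by
    have := Complex.abs_re_le_norm (z - d)
    simpa using this
  rw [Metric.mem_closedBall, dist_eq_norm] at hz
  have h2 := (abs_le.mp h1).1
  have h3 := hg.2.1
  linarith

/-- the operator kills polynomials -/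
lemma poly_iter (hD : tDDL) (M : ℕ) : ∀ Q : Polynomial ℂ, Q.degree < (M : WithBot ℕ) →
    ∃ C : ℝ, 0 ≤ C ∧ ∀ (d : ℂ) (ρ : ℝ), Good d ρ →
    ‖(DD^[M] (fun z => Q.eval z)) d‖ ≤ C * Real.exp (-(d.re / 2)) / ρ ^ (2 * M) := by
  induction M with
  | zero =>
    intro Q hQ
    have h0 : Q = 0 := by
      rw [← Polynomial.degree_eq_bot]
      by_contra hne
      have h1 : Q ≠ 0 := fun h => hne (by rw [h]; exact Polynomial.degree_zero)
      rw [Polynomial.degree_eq_natDegree h1] at hQ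
      norm_cast at hQ
    refine ⟨0, le_rfl, fun d ρ _ => ?_⟩
    rw [h0]
    simp
  | succ M ih =>
    intro Q hQ
    obtain ⟨C1, hC1, h1⟩ := ih _ (deg_lt Q M hQ)
    obtain ⟨C2, hC2, h2⟩ := poly_bd (Polynomial.derivative Q)
    obtain ⟨K, hK, h3⟩ := iter_bd M
    refine ⟨C1 + K * (4 * C2 * Real.exp 2), by positivity, fun d ρ hg => ?_⟩
    have hd : d ∈ S0 := (hg.2.2 d (Metric.mem_closedBall_self hg.1.le)).1
    have hud : DifferentiableOn ℂ (fun z => u z * (Polynomial.derivative Q).eval z) S0 :=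
      u_diff.mul (poly_diff _)
    rw [Function.iterate_succ_apply]
    have e1 := hD.2.2.1 (DD (fun z => Q.eval z)) (fun z => 1 *
      (-(Polynomial.derivative (Polynomial.derivative Q) + Polynomial.derivative Q)).eval z +
      1 * (u z * (Polynomial.derivative Q).eval z)) (fun z _ => DD_poly Q z) M d hd
    have e2 := hD.2.1 (fun z =>
      (-(Polynomial.derivative (Polynomial.derivative Q) + Polynomial.derivative Q)).eval z)
      (fun z => u z * (Polynomial.derivative Q).eval z) (poly_diff _) hud 1 1 M d hd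
    rw [e1, e2, one_mul, one_mul]
    refine (norm_add_le _ _).trans ?_
    have b1 := h1 d ρ hg
    have b2 := h3 _ hud d ρ (4 * C2 * Real.exp 2 * Real.exp (-(d.re / 2))) hg (by
      intro z hz
      obtain ⟨z1, z2⟩ := hg.2.2 z hz
      rw [norm_mul]
      have c1 := u_bd z1 z2
      have c2 := h2 z z1 z2
      have c3 := Good.exp_bd hg hz
      calc ‖u z‖ * ‖(Polynomial.derivative Q).eval z‖ ≤
          (4 * Real.exp (-2 * z.re)) * (C2 * Real.exp (z.re / 2)) :=
            mul_le_mul c1 c2 (norm_nonneg _) (by positivity)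
        _ = 4 * C2 * (Real.exp (-2 * z.re) * Real.exp (z.re / 2)) := by ring
        _ = 4 * C2 * Real.exp (-2 * z.re + z.re / 2) := by rw [Real.exp_add]
        _ ≤ 4 * C2 * Real.exp (2 + -(d.re / 2)) := by
            refine mul_le_mul_of_nonneg_left (Real.exp_le_exp.mpr ?_) (by positivity)
            linarith
        _ = 4 * C2 * Real.exp 2 * Real.exp (-(d.re / 2)) := by rw [Real.exp_add]; ring)
    have hρ : 0 < ρ := hg.1
    have hp : ρ ^ (2 * (M + 1)) ≤ ρ ^ (2 * M) :=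
      pow_le_pow_of_le_one hρ.le hg.2.1 (by omega)
    have hpos : 0 < ρ ^ (2 * (M + 1)) := by positivity
    calc _ ≤ C1 * Real.exp (-(d.re / 2)) / ρ ^ (2 * M) +
          K * (4 * C2 * Real.exp 2 * Real.exp (-(d.re / 2))) / ρ ^ (2 * M) := add_le_add b1 b2
      _ = (C1 + K * (4 * C2 * Real.exp 2)) * Real.exp (-(d.re / 2)) / ρ ^ (2 * M) := by ring
      _ ≤ (C1 + K * (4 * C2 * Real.exp 2)) * Real.exp (-(d.re / 2)) / ρ ^ (2 * (M + 1)) :=
          div_le_div_of_nonneg_left (by positivity) hpos hp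

end DEC_

open DEC_ in
theorem pDEC (hD : tDDL) : DEC := by
  intro g Q C₀ hg hyp M hM
  obtain ⟨K, hK, hit⟩ := iter_bd M
  obtain ⟨C1, hC1, hpoly⟩ := poly_iter hD M Q
    (lt_of_le_of_lt Polynomial.degree_le_natDegree (by exact_mod_cast hM))
  refine ⟨4 ^ (2 * M) * (K * (|C₀| * Real.exp 1 * 2) + C1 * 2 + 1), by positivity, ?_⟩
  intro b hb0 hb
  set s : ℝ := Real.pi / 2 - b with hs
  have hs0 : 0 < s := by rw [hs]; linarith
  have hs2 : s < 2 := by
    have := Real.pi_lt_four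
    rw [hs]; linarith
  obtain ⟨A, hA⟩ := hyp (b + s / 2) (by linarith) (by rw [hs]; linarith)
  have es : Real.pi / 2 - (b + s / 2) = s / 2 := by rw [hs]; ring
  rw [es] at hA
  refine ⟨max A 1 + 1, fun d hd1 hd2 => ?_⟩
  have hmA : A ≤ max A 1 := le_max_left _ _
  have hm1 : 1 ≤ max A 1 := le_max_right _ _
  have hball : ∀ z ∈ Metric.closedBall d (s / 4), |z.im| ≤ b + s / 2 ∧ max A 1 ≤ z.re ∧
      d.re - 1 ≤ z.re := by
    intro z hz
    rw [Metric.mem_closedBall, dist_eq_norm] at hz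
    have h1 : |z.re - d.re| ≤ ‖z - d‖ := by
      have := Complex.abs_re_le_norm (z - d)
      simpa using this
    have h2 : |z.im - d.im| ≤ ‖z - d‖ := by
      have := Complex.abs_im_le_norm (z - d)
      simpa using this
    have h3 : |z.im| ≤ |z.im - d.im| + |d.im| := by
      have := abs_add_le (z.im - d.im) d.im
      rwa [sub_add_cancel] at this
    have h4 := (abs_le.mp h1).1
    refine ⟨by linarith, by linarith, by linarith⟩
  have hgood : Good d (s / 4) := by
    refine ⟨by linarith, by linarith, fun z hz => ?_⟩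
    obtain ⟨h1, h2, _⟩ := hball z hz
    refine ⟨?_, by linarith⟩
    show |z.im| < Real.pi / 2
    rw [hs] at h1
    linarith
  have hdS : d ∈ S0 := (hgood.2.2 d (Metric.mem_closedBall_self hgood.1.le)).1
  have he : DifferentiableOn ℂ (fun z => g z - Q.eval z) S0 := hg.sub (poly_diff Q)
  have e1 := hD.2.2.1 g (fun z => 1 * (g z - Q.eval z) + 1 * Q.eval z)
    (fun z _ => by ring) M d hdS
  have e2 := hD.2.1 (fun z => g z - Q.eval z) (fun z => Q.eval z) he (poly_diff Q) 1 1 M d hdS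
  rw [e1, e2, one_mul, one_mul]
  have hss : 0 < √s := Real.sqrt_pos.mpr hs0
  have b1 := hit _ he d (s / 4) (|C₀| * Real.exp 1 * 2 * Real.exp (-(d.re / 2)) / √s) hgood (by
    intro z hz
    obtain ⟨z1, z2, z3⟩ := hball z hz
    have h1 := hA z z1 (hmA.trans z2)
    refine h1.trans ?_
    have h2 : √s ≤ 2 * √(s / 2) := by
      rw [show (2 : ℝ) * √(s / 2) = √(4 * (s / 2)) by
        rw [Real.sqrt_mul (by norm_num), show (4 : ℝ) = 2 ^ 2 by norm_num,
          Real.sqrt_sq (by norm_num)]]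
      exact Real.sqrt_le_sqrt (by linarith)
    have h3 : 0 < √(s / 2) := Real.sqrt_pos.mpr (by linarith)
    have h4 : Real.exp (-(z.re / 2)) ≤ Real.exp 1 * Real.exp (-(d.re / 2)) := by
      rw [← Real.exp_add]
      exact Real.exp_le_exp.mpr (by linarith)
    rw [div_le_div_iff₀ h3 hss]
    calc C₀ * Real.exp (-(z.re / 2)) * √s ≤ |C₀| * Real.exp (-(z.re / 2)) * √s := by
          gcongr
          exact le_abs_self _
      _ ≤ |C₀| * (Real.exp 1 * Real.exp (-(d.re / 2))) * (2 * √(s / 2)) := by gcongr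
      _ = |C₀| * Real.exp 1 * 2 * Real.exp (-(d.re / 2)) * √(s / 2) := by ring)
  have b2 := hpoly d (s / 4) hgood
  refine (norm_add_le _ _).trans ((add_le_add b1 b2).trans ?_)
  have e4 : (s / 4) ^ (2 * M) = s ^ (2 * M) / 4 ^ (2 * M) := by rw [div_pow]
  have hs1 : √s ≤ 2 := by
    rw [show (2 : ℝ) = √(2 ^ 2) by rw [Real.sqrt_sq (by norm_num)]]
    exact Real.sqrt_le_sqrt (by linarith)
  have h5 : C1 * Real.exp (-(d.re / 2)) ≤ C1 * 2 * Real.exp (-(d.re / 2)) / √s := by
    rw [le_div_iff₀ hss]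
    have h6 : 0 ≤ C1 * Real.exp (-(d.re / 2)) := by positivity
    nlinarith
  rw [e4]
  have hsp : 0 < s ^ (2 * M) := by positivity
  have h7 : C1 * Real.exp (-(d.re / 2)) / (s ^ (2 * M) / 4 ^ (2 * M)) ≤
      (C1 * 2 * Real.exp (-(d.re / 2)) / √s) / (s ^ (2 * M) / 4 ^ (2 * M)) :=
    div_le_div_of_nonneg_right h5 (by positivity)
  calc _ ≤ K * (|C₀| * Real.exp 1 * 2 * Real.exp (-(d.re / 2)) / √s) /
        (s ^ (2 * M) / 4 ^ (2 * M)) + (C1 * 2 * Real.exp (-(d.re / 2)) / √s) /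
        (s ^ (2 * M) / 4 ^ (2 * M)) := add_le_add le_rfl h7
    _ = 4 ^ (2 * M) * (K * (|C₀| * Real.exp 1 * 2) + C1 * 2) * Real.exp (-(d.re / 2)) /
        (s ^ (2 * M) * √s) := by field_simp
    _ ≤ _ := by
      refine div_le_div_of_nonneg_right ?_ (by positivity)
      refine mul_le_mul_of_nonneg_right ?_ (Real.exp_pos _).le
      refine mul_le_mul_of_nonneg_left ?_ (by positivity)
      linarith

end FMZ
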