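import Mathlib

/-!
# FMZ: definitions (fourth moment of zeta, MP_bc82fd_nt)

Real coordinates: a point of the upper half plane is a pair (x, y) with y > 0.
`d` is the distance coordinate of a ray, in the strip |Im d| < pi/2.
-/

open Complex MeasureTheory Set Filter Topology

namespace FMZ

/-- The open strip |Im d| < π / 2. -/
def S0 : Set ℂ := {d : ℂ | |d.im| < Real.pi / 2}

/-- zeta on the critical line -/
noncomputable def zh (u : ℝ) : ℂ := riemannZeta (1 / 2 + u * I)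

/-- the fourth moment -/
noncomputable def M4 (T : ℝ) : ℝ := ∫ u in (0 : ℝ)..T, ‖zh u‖ ^ 4

/-- completed zeta, π^(-s/2) Γ(s/2) ζ(s) -/
noncomputable def xi (s : ℂ) : ℂ := completedRiemannZeta s

noncomputable def gp (v : ℝ) (d : ℂ) : ℂ := Complex.cosh d * Real.cosh v + Complex.sinh d

noncomputable def gm (v : ℝ) (d : ℂ) : ℂ := Complex.cosh d * Real.cosh v - Complex.sinh d

/-- (2 g₊)^(-s) + (2 g₋)^(-s) -/
noncomputable def ph (s : ℂ) (v : ℝ) (d : ℂ) : ℂ := (2 * gp v d) ^ (-s) + (2 * gm v d) ^ (-s)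

/-- 𝔍(s, w, d) = ∫ ((2 g₊)^(-s) + (2 g₋)^(-s)) e^(w v) dv, for |Re w| < Re s -/
noncomputable def JJ (s w d : ℂ) : ℂ := ∫ v : ℝ, ph s v d * Complex.exp (w * v)

/-- j(iu, d) = 𝔍(1/2, iu, d) -/
noncomputable def jf (u : ℝ) (d : ℂ) : ℂ := JJ (1 / 2) (u * I) d

/-- the even solution with spectral parameter κ -/
noncomputable def Jk (κ : ℝ) (d : ℂ) : ℂ := JJ (1 / 2 + κ * I) 0 d

/-- the radial operator g ↦ -(g'' + tanh d g') -/
noncomputable def DD (g : ℂ → ℂ) : ℂ → ℂ := fun d => -(deriv (deriv g) d + Complex.tanh d * deriv g d)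

/-- the same operator in the real variable t = sinh d -/
noncomputable def DX (X : ℝ → ℝ) : ℝ → ℝ := fun t => -deriv (fun x => (1 + x ^ 2) * deriv X x) t

/-- even test functions -/
structure Tst (X : ℝ → ℝ) : Prop where
  smooth : ContDiff ℝ (⊤ : ℕ∞) X
  cpt : HasCompactSupport X
  even : ∀ t, X (-t) = X t

/-- c0 = γ - log 4π -/
noncomputable def c0 : ℝ := Real.eulerMascheroniConstant - Real.log (4 * Real.pi)

/-- q(d) = (cosh d)^(-1/2) -/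
noncomputable def qf (d : ℂ) : ℂ := (Complex.cosh d) ^ (-(1 / 2) : ℂ)

/-- c'(d) = c0 - log cosh d -/
noncomputable def cpr (d : ℂ) : ℂ := c0 - Complex.log (Complex.cosh d)

/-- 𝔧_k(d) -/
noncomputable def jk (k : ℕ) (d : ℂ) : ℂ :=
  (1 / (k.factorial : ℂ)) *
    ((∫ v in Ioi (0 : ℝ), ph (1 / 2) v d * ((-v) ^ k * Real.exp (-(v / 2)) : ℝ)) +
     ∫ v in Ioi (0 : ℝ), (ph (1 / 2) v d - 2 * qf d * Real.exp (-(v / 2))) *
        (v ^ k * Real.exp (v / 2) : ℝ))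

/-- ε ζ(1+ε) ζ(-ε), equal to -1/2 at ε = 0 -/
noncomputable def lamf (ε : ℂ) : ℂ :=
  if ε = 0 then -1 / 2 else ε * riemannZeta (1 + ε) * riemannZeta (-ε)

/-- λ_k : lamf ε = -1/2 + λ_0 ε + λ_1 ε^2 + λ_2 ε^3 + ... -/
noncomputable def lam (k : ℕ) : ℂ := iteratedDeriv (k + 1) lamf 0 / ((k + 1).factorial : ℂ)

/-- J_0(d) -/
noncomputable def J0 (d : ℂ) : ℂ :=
  qf d * (-2 * qf d * (lam 2 + cpr d * lam 1) + (lam 1 + cpr d * lam 0) * jk 0 d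
    + (lam 0 - cpr d / 2) * jk 1 d - 1 / 2 * jk 2 d)

/-- Π_1(d) = (1/2π) ∫ |ζ(1/2+iu)|^4 j(iu,d)^2 du -/
noncomputable def P1 (d : ℂ) : ℂ :=
  (1 / (2 * Real.pi) : ℝ) * ∫ u : ℝ, (‖zh u‖ ^ 4 : ℝ) * jf u d ^ 2

/-- B_0(d) = Π_1(d) + 4 J_0(d) -/
noncomputable def B0 (d : ℂ) : ℂ := P1 d + 4 * J0 d

/-- b(s) = ξ(s)^4 / (ξ(2s-1) ξ(2s)) -/
noncomputable def bf (s : ℂ) : ℂ := xi s ^ 4 / (xi (2 * s - 1) * xi (2 * s))

/-- spectral density of the noncuspidal part -/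
noncomputable def Hf (t : ℝ) : ℂ :=
  (1 / (4 * Real.pi) : ℝ) * bf (1 / 2 + t * I) * (Real.pi : ℂ) ^ (-(1 / 2 + t * I) : ℂ) *
    Complex.Gamma (1 / 2 + t * I) * zh t ^ 2

/-- P_cont(d) -/
noncomputable def Pc (d : ℂ) : ℂ := ∫ t : ℝ, Hf t * Jk t d

/-- functions on the modular surface in real coordinates -/
structure Aut (F : ℝ → ℝ → ℂ) : Prop where
  cont : ContinuousOn (fun p : ℝ × ℝ => F p.1 p.2) {p | 0 < p.2}
  per : ∀ x y, 0 < y → F (x + 1) y = F x y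
  inv : ∀ x y, 0 < y → F (-x / (x ^ 2 + y ^ 2)) (y / (x ^ 2 + y ^ 2)) = F x y

/-- zero constant term -/
def Cusp (F : ℝ → ℝ → ℂ) : Prop := ∀ y, 0 < y → ∫ x in (0 : ℝ)..1, F x y = 0

/-- decay in the cusp -/
def Small (F : ℝ → ℝ → ℂ) : Prop :=
  ∃ C, ∀ x y, |x| ≤ 1 / 2 → √3 / 2 ≤ y → ‖F x y‖ ≤ C / y

/-- integral over the ray {x / y = t} -/
noncomputable def ray (F : ℝ → ℝ → ℂ) (t : ℝ) : ℂ :=
  ∫ τ : ℝ, F (Real.exp τ * t / √(1 + t ^ 2)) (Real.exp τ / √(1 + t ^ 2))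

/-- the hypothesis to be refuted -/
def Hyp (P : Polynomial ℝ) (C : ℝ) : Prop :=
  ∀ T, 1 ≤ T → |M4 T - T * P.eval (Real.log T)| ≤ C * √T

end FMZ
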