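import Pool.Agent.FMZ.TE
import Pool.Agent.SelTwo.GAM
import Pool.Agent.Lib.ZetaCrude

/-!
# FMZ-E11: bounds of Aq, bq
-/

open Complex MeasureTheory Set Filter Topology

namespace FMZ

namespace EAB_

theorem norm_beta_le {u v : ℂ} :
    ‖betaIntegral u v‖ ≤ ‖betaIntegral (u.re : ℂ) (v.re : ℂ)‖ := by
  set r : ℝ → ℝ := fun x => x ^ (u.re - 1) * (1 - x) ^ (v.re - 1) with hr
  have hne : ∀ᵐ x : ℝ, x ≠ 1 := by
    filter_upwards [compl_mem_ae_iff.2 (measure_singleton (1 : ℝ))] with x hx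
    simpa using hx
  have h1 : ∫ x in (0 : ℝ)..1, ‖(x : ℂ) ^ (u - 1) * (1 - (x : ℂ)) ^ (v - 1)‖ =
      ∫ x in (0 : ℝ)..1, r x := by
    refine intervalIntegral.integral_congr_ae ?_
    filter_upwards [hne] with x hx1 hx
    rw [uIoc_of_le zero_le_one] at hx
    have hx2 : 0 < 1 - x := by
      have := lt_of_le_of_ne hx.2 hx1
      linarith
    have e : (1 - (x : ℂ)) = ((1 - x : ℝ) : ℂ) := by push_cast; ring
    rw [norm_mul, e, norm_cpow_eq_rpow_re_of_pos hx.1, norm_cpow_eq_rpow_re_of_pos hx2]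
    simp [hr]
  have h2 : betaIntegral (u.re : ℂ) (v.re : ℂ) = ((∫ x in (0 : ℝ)..1, r x : ℝ) : ℂ) := by
    rw [← intervalIntegral.integral_ofReal, betaIntegral]
    refine intervalIntegral.integral_congr_ae ?_
    filter_upwards [hne] with x hx1 hx
    rw [uIoc_of_le zero_le_one] at hx
    have hx2 : 0 < 1 - x := by
      have := lt_of_le_of_ne hx.2 hx1
      linarith
    have e : (1 - (x : ℂ)) = ((1 - x : ℝ) : ℂ) := by push_cast; ring
    rw [e]
    simp only [hr]
    rw [Complex.ofReal_mul, Complex.ofReal_cpow hx.1.le, Complex.ofReal_cpow hx2.le]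
    push_cast
    rfl
  have h3 : 0 ≤ ∫ x in (0 : ℝ)..1, r x := by
    refine intervalIntegral.integral_nonneg zero_le_one fun x hx => ?_
    exact mul_nonneg (Real.rpow_nonneg hx.1 _) (Real.rpow_nonneg (by linarith [hx.2]) _)
  rw [h2, Complex.norm_real, Real.norm_of_nonneg h3, ← h1, betaIntegral]
  exact intervalIntegral.norm_integral_le_integral_norm zero_le_one

/-- the quotient Gamma(s/2)^2 / Gamma(s) -/
theorem gamma_quot {s : ℂ} (hs : 0 < s.re) :
    ‖Gamma (s / 2)‖ ^ 2 ≤ Real.Gamma (s.re / 2) ^ 2 / Real.Gamma s.re * ‖Gamma s‖ := by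
  have hre : (s / 2).re = s.re / 2 := by simp
  have h2 : 0 < (s / 2).re := by rw [hre]; positivity
  have e1 := Gamma_mul_Gamma_eq_betaIntegral h2 h2
  have hsum : s / 2 + s / 2 = s := by ring
  rw [hsum] at e1
  have h3 : (0 : ℝ) < (((s / 2).re : ℝ) : ℂ).re := by simpa using hs
  have e2 := Gamma_mul_Gamma_eq_betaIntegral h3 h3
  have hsum2 : (((s / 2).re : ℝ) : ℂ) + (((s / 2).re : ℝ) : ℂ) = ((s.re : ℝ) : ℂ) := by
    rw [hre]; push_cast; ring
  rw [hsum2] at e2
  have n1 : ‖Gamma (s / 2)‖ ^ 2 = ‖Gamma s‖ * ‖betaIntegral (s / 2) (s / 2)‖ := by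
    rw [sq, ← norm_mul, e1, norm_mul]
  have n2 : Real.Gamma (s.re / 2) ^ 2 = Real.Gamma s.re *
      ‖betaIntegral (((s / 2).re : ℝ) : ℂ) (((s / 2).re : ℝ) : ℂ)‖ := by
    have g1 : ‖Gamma (((s / 2).re : ℝ) : ℂ)‖ = Real.Gamma (s.re / 2) := by
      rw [Complex.Gamma_ofReal, Complex.norm_real, hre,
        Real.norm_of_nonneg (Real.Gamma_pos_of_pos (by positivity)).le]
    have g2 : ‖Gamma ((s.re : ℝ) : ℂ)‖ = Real.Gamma s.re := by
      rw [Complex.Gamma_ofReal, Complex.norm_real,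
        Real.norm_of_nonneg (Real.Gamma_pos_of_pos hs).le]
    rw [sq, ← g1, ← norm_mul, e2, norm_mul, g2]
  have hG : 0 < Real.Gamma s.re := Real.Gamma_pos_of_pos hs
  rw [n1, n2, mul_div_right_comm, div_self hG.ne', one_mul, mul_comm]
  exact mul_le_mul_of_nonneg_right norm_beta_le (norm_nonneg _)

theorem contOn_Gamma : ContinuousOn Real.Gamma (Ioi 0) := by
  intro x hx
  have hx' : 0 < x := hx
  refine (Real.differentiableAt_Gamma fun m => ?_).continuousAt.continuousWithinAt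
  have : (0 : ℝ) ≤ m := Nat.cast_nonneg m
  linarith

theorem exists_B0 : ∃ B : ℝ, 0 < B ∧ ∀ σ : ℝ, 1 / 2 ≤ σ → σ ≤ 3 →
    Real.Gamma (σ / 2) ^ 2 / Real.Gamma σ ≤ B := by
  have hc : ContinuousOn (fun σ : ℝ => Real.Gamma (σ / 2) ^ 2 / Real.Gamma σ)
      (Icc (1 / 2) 3) := by
    refine ContinuousOn.div ?_ ?_ ?_
    · refine ContinuousOn.pow ?_ 2
      refine contOn_Gamma.comp (by fun_prop) fun x hx => ?_
      have := hx.1
      show 0 < x / 2
      linarith
    · exact contOn_Gamma.mono fun x hx => by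
        have := hx.1
        show 0 < x
        linarith
    · intro x hx
      have := hx.1
      exact (Real.Gamma_pos_of_pos (by linarith)).ne'
  obtain ⟨B, hB⟩ := isCompact_Icc.exists_bound_of_continuousOn hc
  refine ⟨max B 1, by positivity, fun σ h1 h2 => ?_⟩
  have := hB σ ⟨h1, h2⟩
  rw [Real.norm_eq_abs] at this
  exact (le_abs_self _).trans (this.trans (le_max_left _ _))

theorem exists_G0 : ∃ G : ℝ, 0 < G ∧ ∀ s : ℂ, 1 / 2 ≤ s.re → s.re ≤ 3 →
    ‖Gamma (s / 2)‖ ^ 2 ≤ G * Real.exp (-(1.3 * |s.im|)) := by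
  have hpi : (1.3 : ℝ) < Real.pi / 2 := by linarith [Real.pi_gt_d2]
  have hcos : 0 < Real.cos 1.3 := Real.cos_pos_of_mem_Ioo ⟨by linarith, hpi⟩
  have hc : ContinuousOn (fun σ : ℝ => Real.Gamma (σ / 2) * Real.cos 1.3 ^ (-(σ / 2)))
      (Icc (1 / 2) 3) := by
    refine ContinuousOn.mul ?_ ?_
    · refine contOn_Gamma.comp (by fun_prop) fun x hx => ?_
      have := hx.1
      show 0 < x / 2
      linarith
    · refine ContinuousOn.rpow continuousOn_const (by fun_prop) fun x _ => Or.inl hcos.ne'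
  obtain ⟨B, hB⟩ := isCompact_Icc.exists_bound_of_continuousOn hc
  refine ⟨max B 1 ^ 2, by positivity, fun s h1 h2 => ?_⟩
  have hb := hB s.re ⟨h1, h2⟩
  rw [Real.norm_eq_abs] at hb
  have hb2 := (le_abs_self _).trans (hb.trans (le_max_left B 1))
  have hG := Pool.Agent.SelTwo.p_GAM Pool.Agent.SelTwo.p_MELX (s.re / 2) 1.3 (s.im / 2)
    (by linarith) (by norm_num) hpi
  have hvl : Pool.Agent.SelTwo.vl (s.re / 2) (s.im / 2) = s / 2 := by
    apply Complex.ext <;> simp [Pool.Agent.SelTwo.vl]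
  rw [hvl] at hG
  have h3 : ‖Gamma (s / 2)‖ ≤ max B 1 * Real.exp (-1.3 * |s.im / 2|) :=
    hG.trans (mul_le_mul_of_nonneg_right hb2 (Real.exp_pos _).le)
  calc ‖Gamma (s / 2)‖ ^ 2 ≤ (max B 1 * Real.exp (-1.3 * |s.im / 2|)) ^ 2 :=
        pow_le_pow_left₀ (norm_nonneg _) h3 2
    _ = max B 1 ^ 2 * Real.exp (-(1.3 * |s.im|)) := by
        rw [mul_pow, ← Real.exp_nat_mul, abs_div, abs_of_pos (by norm_num : (0 : ℝ) < 2)]
        congr 2
        push_cast
        ring

theorem norm_xi {w : ℂ} (h : xi w = (Real.pi : ℂ) ^ (-w / 2) * Gamma (w / 2) * riemannZeta w) :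
    ‖xi w‖ = Real.pi ^ (-w.re / 2) * ‖Gamma (w / 2)‖ * ‖riemannZeta w‖ := by
  rw [h, norm_mul, norm_mul, norm_cpow_eq_rpow_re_of_pos Real.pi_pos]
  congr 3
  simp [neg_div]

theorem norm_Gamma_conj (s : ℂ) : ‖Gamma (starRingEnd ℂ s)‖ = ‖Gamma s‖ := by
  rw [Complex.Gamma_conj, Complex.norm_conj]

theorem norm_zeta_conj (s : ℂ) : ‖riemannZeta (starRingEnd ℂ s)‖ = ‖riemannZeta s‖ := by
  rw [riemannZeta_conj, Complex.norm_conj]

theorem pow_exp {k : ℕ} : ∃ K : ℝ, 0 < K ∧ ∀ x : ℝ, 0 ≤ x →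
    x ^ k * Real.exp (-(1.3 * x)) ≤ K * Real.exp (-x) := by
  refine ⟨(k.factorial : ℝ) / 0.3 ^ k, by positivity, fun x hx => ?_⟩
  have h1 := Real.pow_div_factorial_le_exp (x := 0.3 * x) (by positivity) k
  rw [div_le_iff₀ (by positivity), mul_pow] at h1
  have h2 : x ^ k ≤ (k.factorial : ℝ) / 0.3 ^ k * Real.exp (0.3 * x) := by
    rw [div_mul_eq_mul_div, le_div_iff₀ (by positivity)]
    linarith
  calc x ^ k * Real.exp (-(1.3 * x))
      ≤ ((k.factorial : ℝ) / 0.3 ^ k * Real.exp (0.3 * x)) * Real.exp (-(1.3 * x)) :=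
        mul_le_mul_of_nonneg_right h2 (Real.exp_pos _).le
    _ = (k.factorial : ℝ) / 0.3 ^ k * Real.exp (-x) := by
        rw [mul_assoc, ← Real.exp_add]
        congr 2
        ring

theorem ne_of_im {s : ℂ} (h : 1 ≤ |s.im|) (x : ℝ) : s ≠ (x : ℂ) := by
  rintro rfl
  simp at h
  linarith

end EAB_

open EAB_

theorem pABQ (h1 : tX) (h2 : tZLOW) : tABQ := by
  obtain ⟨hXd, hXs, hX0, hX1, -, hxi, hre1, hre0, -, hform, hbf, hAB, hBA⟩ := h1
  obtain ⟨B₀, hB₀, hB⟩ := exists_B0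
  obtain ⟨G₀, hG₀, hG⟩ := exists_G0
  obtain ⟨Z, hZ1, hZ⟩ := Pool.Agent.Lib.ZetaCrude.norm_zeta_le_crude
  obtain ⟨c, hc, hlow⟩ := h2 1 one_pos
  -- bounds for |t| ≥ 1
  have hzeta : ∀ s : ℂ, 1 / 2 ≤ s.re → s.re ≤ 3 → 1 ≤ |s.im| →
      ‖riemannZeta s‖ ≤ 5 * Z * |s.im| := by
    intro s ha hb ht
    have e1 : 1 ≤ ‖s - 1‖ := by
      refine ht.trans ?_
      have := Complex.abs_im_le_norm (s - 1)
      simpa using this
    have e2 := hZ s (by linarith) e1
    have e3 : ‖s‖ ≤ 3 + |s.im| := by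
      refine (Complex.norm_le_abs_re_add_abs_im s).trans ?_
      have : |s.re| ≤ 3 := by rw [abs_le]; constructor <;> linarith
      linarith
    nlinarith
  have hlow2 : ∀ s : ℂ, 1 / 2 ≤ s.re → 1 ≤ |s.im| →
      c / (2 * |s.im|) ≤ ‖riemannZeta (2 * s)‖ := by
    intro s ha ht
    have e := hlow (2 * s.re) (2 * s.im) (by linarith) (by
      rw [abs_mul, abs_of_pos (by norm_num : (0 : ℝ) < 2)]; linarith)
    have e2 : (((2 * s.re : ℝ) : ℂ) + ((2 * s.im : ℝ) : ℂ) * I) = 2 * s := by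
      apply Complex.ext <;> simp
    rw [e2, Real.rpow_neg (abs_nonneg _), Real.rpow_one, abs_mul,
      abs_of_pos (by norm_num : (0 : ℝ) < 2)] at e
    rwa [div_eq_mul_inv]
  -- Aq as a quotient
  have hAq : ∀ s : ℂ, 1 / 2 ≤ s.re → 1 ≤ |s.im| → Aq s = xi s ^ 4 / xi (2 * s) := by
    intro s ha ht
    have n0 : s ≠ 0 := by simpa using ne_of_im ht 0
    have n1 : s ≠ 1 := by simpa using ne_of_im ht 1
    have n2 : s ≠ 1 / 2 := by simpa using ne_of_im ht (1 / 2)
    have m0 : 2 * s ≠ 0 := by simpa using n0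
    have m1 : 2 * s ≠ 1 := by
      intro h; apply n2; rw [eq_div_iff (by norm_num), mul_comm]; exact h
    have s1 : s - 1 ≠ 0 := sub_ne_zero.2 n1
    have t1 : 2 * s - 1 ≠ 0 := sub_ne_zero.2 m1
    have hX2 : X1 (2 * s) ≠ 0 := hre1 _ (by simp; linarith)
    rw [hxi s n0 n1, hxi (2 * s) m0 m1, Aq]
    field_simp
  -- lower bound for xi (2 s)
  have hxi2 : ∀ s : ℂ, 1 / 2 ≤ s.re → 1 ≤ |s.im| →
      Real.pi ^ (-s.re) * ‖Gamma s‖ * (c / (2 * |s.im|)) ≤ ‖xi (2 * s)‖ := by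
    intro s ha ht
    have n0 : s ≠ 0 := by simpa using ne_of_im ht 0
    have n2 : s ≠ 1 / 2 := by simpa using ne_of_im ht (1 / 2)
    have m0 : 2 * s ≠ 0 := by simpa using n0
    have m1 : 2 * s ≠ 1 := by
      intro h; apply n2; rw [eq_div_iff (by norm_num), mul_comm]; exact h
    rw [norm_xi (hform (2 * s) m0 m1 (by simp; linarith))]
    have e1 : -(2 * s).re / 2 = -s.re := by simp; ring
    have e2 : 2 * s / 2 = s := by ring
    rw [e1, e2]
    exact mul_le_mul_of_nonneg_left (hlow2 s ha ht) (by positivity)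
  -- upper bound for xi s
  have hxiu : ∀ s : ℂ, 1 / 2 ≤ s.re → s.re ≤ 3 → 1 ≤ |s.im| →
      ‖xi s‖ ≤ Real.pi ^ (-s.re / 2) * ‖Gamma (s / 2)‖ * (5 * Z * |s.im|) := by
    intro s ha hb ht
    have n0 : s ≠ 0 := by simpa using ne_of_im ht 0
    have n1 : s ≠ 1 := by simpa using ne_of_im ht 1
    rw [norm_xi (hform s n0 n1 (by linarith))]
    exact mul_le_mul_of_nonneg_left (hzeta s ha hb ht) (by positivity)
  have hpipow : ∀ σ : ℝ, (Real.pi ^ (-σ / 2)) ^ 4 = (Real.pi ^ (-σ)) * (Real.pi ^ (-σ)) := by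
    intro σ
    rw [← Real.rpow_natCast, ← Real.rpow_mul Real.pi_pos.le, ← Real.rpow_add Real.pi_pos]
    congr 1
    push_cast; ring
  have hGne : ∀ s : ℂ, 1 / 2 ≤ s.re → 0 < ‖Gamma s‖ := fun s ha =>
    norm_pos_iff.2 (Complex.Gamma_ne_zero_of_re_pos (by linarith))
  obtain ⟨K₅, hK₅, hpow⟩ := pow_exp (k := 5)
  -- (1)
  have hmain : ∃ C, 0 < C ∧ ∀ s : ℂ, 1 / 2 ≤ s.re → s.re ≤ 3 → 1 ≤ |s.im| →
      ‖Aq s‖ ≤ C * Real.exp (-|s.im|) := by
    refine ⟨B₀ * G₀ * (5 * Z) ^ 4 * (2 / c) * K₅, by positivity, fun s ha hb ht => ?_⟩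
    have hT : 0 < |s.im| := by linarith
    have hg := hGne s ha
    have hpi0 : 0 < Real.pi ^ (-s.re) := Real.rpow_pos_of_pos Real.pi_pos _
    have hpi1 : Real.pi ^ (-s.re) ≤ 1 :=
      Real.rpow_le_one_of_one_le_of_nonpos (by linarith [Real.pi_gt_three]) (by linarith)
    rw [hAq s ha ht, norm_div, norm_pow]
    have hden : 0 < Real.pi ^ (-s.re) * ‖Gamma s‖ * (c / (2 * |s.im|)) := by positivity
    have hnum : ‖xi s‖ ^ 4 ≤ (Real.pi ^ (-s.re) * Real.pi ^ (-s.re)) *
        ((B₀ * ‖Gamma s‖) * (G₀ * Real.exp (-(1.3 * |s.im|)))) * (5 * Z * |s.im|) ^ 4 := by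
      calc ‖xi s‖ ^ 4 ≤ (Real.pi ^ (-s.re / 2) * ‖Gamma (s / 2)‖ * (5 * Z * |s.im|)) ^ 4 :=
            pow_le_pow_left₀ (norm_nonneg _) (hxiu s ha hb ht) 4
        _ = (Real.pi ^ (-s.re) * Real.pi ^ (-s.re)) * (‖Gamma (s / 2)‖ ^ 2 *
              ‖Gamma (s / 2)‖ ^ 2) * (5 * Z * |s.im|) ^ 4 := by
            rw [mul_pow, mul_pow, hpipow]; ring
        _ ≤ _ := by
            refine mul_le_mul_of_nonneg_right (mul_le_mul_of_nonneg_left ?_ (by positivity))
              (by positivity)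
            refine mul_le_mul ?_ (hG s ha hb) (by positivity) (by positivity)
            exact (gamma_quot (by linarith)).trans
              (mul_le_mul_of_nonneg_right (hB s.re ha hb) (norm_nonneg _))
    calc ‖xi s‖ ^ 4 / ‖xi (2 * s)‖
        ≤ ((Real.pi ^ (-s.re) * Real.pi ^ (-s.re)) *
          ((B₀ * ‖Gamma s‖) * (G₀ * Real.exp (-(1.3 * |s.im|)))) * (5 * Z * |s.im|) ^ 4) /
          (Real.pi ^ (-s.re) * ‖Gamma s‖ * (c / (2 * |s.im|))) := by
          refine div_le_div₀ (by positivity) hnum hden (hxi2 s ha ht)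
      _ = Real.pi ^ (-s.re) * (B₀ * G₀ * (5 * Z) ^ 4 * (2 / c) *
            (|s.im| ^ 5 * Real.exp (-(1.3 * |s.im|)))) := by
          field_simp
      _ ≤ 1 * (B₀ * G₀ * (5 * Z) ^ 4 * (2 / c) *
            (|s.im| ^ 5 * Real.exp (-(1.3 * |s.im|)))) :=
          mul_le_mul_of_nonneg_right hpi1 (by positivity)
      _ ≤ B₀ * G₀ * (5 * Z) ^ 4 * (2 / c) * (K₅ * Real.exp (-|s.im|)) := by
          rw [one_mul]
          exact mul_le_mul_of_nonneg_left (hpow _ hT.le) (by positivity)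
      _ = _ := by ring
  -- differentiability
  have hdA : ∀ s : ℂ, 1 / 2 ≤ s.re → s ≠ 1 → DifferentiableAt ℂ Aq s := by
    intro s ha hs1
    have n0 : s ≠ 0 := by rintro rfl; simp at ha; linarith
    have hX2 : X1 (2 * s) ≠ 0 := hre1 _ (by simp; linarith)
    have hd1 : DifferentiableAt ℂ X1 s := hXd s
    have hd2 : DifferentiableAt ℂ (fun s => X1 (2 * s)) s :=
      (hXd (2 * s)).comp s (by fun_prop)
    unfold Aq
    refine DifferentiableAt.div (by fun_prop) (by fun_prop) ?_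
    exact mul_ne_zero (pow_ne_zero 4 (mul_ne_zero n0 (sub_ne_zero.2 hs1))) hX2
  have hcb : ∀ s : ℂ, s.re = 1 / 2 → ContinuousAt bq s := by
    intro s ha
    have n0 : s ≠ 0 := by rintro rfl; simp at ha
    have hs1 : s ≠ 1 := by rintro rfl; norm_num at ha
    have hX2 : X1 (2 * s) ≠ 0 := hre1 _ (by simp [ha])
    have hX3 : X1 (2 * s - 1) ≠ 0 := hre0 _ (by simp [ha])
    have hd1 : DifferentiableAt ℂ X1 s := hXd s
    have hd2 : DifferentiableAt ℂ (fun s => X1 (2 * s)) s :=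
      (hXd (2 * s)).comp s (by fun_prop)
    have hd3 : DifferentiableAt ℂ (fun s => X1 (2 * s - 1)) s :=
      DifferentiableAt.comp (g := X1) (f := fun s : ℂ => 2 * s - 1) s (hXd _) (by fun_prop)
    have : DifferentiableAt ℂ bq s := by
      unfold bq
      refine DifferentiableAt.div (by fun_prop) (by fun_prop) ?_
      exact mul_ne_zero (mul_ne_zero (pow_ne_zero 3 (mul_ne_zero n0 (sub_ne_zero.2 hs1))) hX3) hX2
    exact this.continuousAt
  -- (2)
  have hline : ∃ C, 0 < C ∧ ∀ t : ℝ, ‖Aq (1 / 2 + t * I)‖ ≤ C * Real.exp (-|t|) := by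
    obtain ⟨C, hC, hCb⟩ := hmain
    have hcont : Continuous fun t : ℝ => Aq (1 / 2 + t * I) := by
      rw [continuous_iff_continuousAt]
      intro t
      have h1 : ContinuousAt Aq (1 / 2 + t * I) := by
        refine (hdA _ (by simp) ?_).continuousAt
        intro h
        have := congrArg Complex.re h
        norm_num at this
      exact ContinuousAt.comp (f := fun t : ℝ => (1 / 2 + t * I : ℂ)) h1 (by fun_prop)
    obtain ⟨M, hM⟩ := (isCompact_Icc (a := (-1 : ℝ)) (b := 1)).exists_bound_of_continuousOn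
      hcont.continuousOn
    refine ⟨max C (max M 0 * Real.exp 1), by positivity, fun t => ?_⟩
    rcases le_total |t| 1 with ht | ht
    · have e1 := hM t (abs_le.1 ht)
      have e2 : (1 : ℝ) ≤ Real.exp 1 * Real.exp (-|t|) := by
        rw [← Real.exp_add]
        exact Real.one_le_exp (by linarith)
      calc ‖Aq (1 / 2 + t * I)‖ ≤ max M 0 := e1.trans (le_max_left _ _)
        _ ≤ max M 0 * (Real.exp 1 * Real.exp (-|t|)) :=
            le_mul_of_one_le_right (le_max_right _ _) e2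
        _ = (max M 0 * Real.exp 1) * Real.exp (-|t|) := by ring
        _ ≤ _ := mul_le_mul_of_nonneg_right (le_max_right _ _) (Real.exp_pos _).le
    · have e1 := hCb (1 / 2 + t * I) (by simp) (by norm_num) (by simpa using ht)
      have e2 : (1 / 2 + t * I : ℂ).im = t := by simp
      rw [e2] at e1
      exact e1.trans (mul_le_mul_of_nonneg_right (le_max_left _ _) (Real.exp_pos _).le)
  refine ⟨hmain, hline, ?_, ?_, hdA, hcb⟩
  · -- (3)
    have hcont : Continuous fun t : ℝ => bq (1 / 2 + t * I) := by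
      rw [continuous_iff_continuousAt]
      intro t
      have h1 : ContinuousAt bq (1 / 2 + t * I) := hcb _ (by simp)
      exact ContinuousAt.comp (f := fun t : ℝ => (1 / 2 + t * I : ℂ)) h1 (by fun_prop)
    obtain ⟨M, hM⟩ := (isCompact_Icc (a := (-1 : ℝ)) (b := 1)).exists_bound_of_continuousOn
      hcont.continuousOn
    refine ⟨max (max M 1) (B₀ ^ 2 * (5 * Z) ^ 4 * (2 / c) ^ 2), by positivity, fun t => ?_⟩
    have hb6 : (1 : ℝ) ≤ (1 + |t|) ^ 6 := one_le_pow₀ (by linarith [abs_nonneg t])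
    rcases le_total |t| 1 with ht | ht
    · have e1 := hM t (abs_le.1 ht)
      calc ‖bq (1 / 2 + t * I)‖ ≤ max M 1 := e1.trans (le_max_left _ _)
        _ ≤ max M 1 * (1 + |t|) ^ 6 := le_mul_of_one_le_right (by positivity) hb6
        _ ≤ _ := mul_le_mul_of_nonneg_right (le_max_left _ _) (by positivity)
    · set s : ℂ := 1 / 2 + t * I with hs
      have hsre : s.re = 1 / 2 := by simp [hs]
      have hsim : s.im = t := by simp [hs]
      have ht' : 1 ≤ |s.im| := by rwa [hsim]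
      have n0 : s ≠ 0 := by simpa using ne_of_im ht' 0
      have n1 : s ≠ 1 := by simpa using ne_of_im ht' 1
      have n2 : s ≠ 1 / 2 := by simpa using ne_of_im ht' (1 / 2)
      have m0 : 2 * s ≠ 0 := by simpa using n0
      have m1 : 2 * s ≠ 1 := by
        intro h; apply n2; rw [eq_div_iff (by norm_num), mul_comm]; exact h
      have hT : 0 < |t| := by linarith
      have hg := hGne s (by rw [hsre])
      have hbval : bq s = xi s ^ 4 / (xi (2 * s - 1) * xi (2 * s)) := by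
        rw [← hbf s n0 n1 n2]; rfl
      -- |xi (2 s - 1)| = |xi (2 s)|
      have hsym : ‖xi (2 * s - 1)‖ = ‖xi (2 * s)‖ := by
        have e1 : xi (2 * s - 1) = xi (starRingEnd ℂ (2 * s)) := by
          have e2 : starRingEnd ℂ (2 * s) = 1 - (2 * s - 1) := by
            apply Complex.ext
            · simp [hsre]
            · simp
          rw [e2]
          exact (completedRiemannZeta_one_sub _).symm
        have m0' : starRingEnd ℂ (2 * s) ≠ 0 := by simpa using n0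
        have m1' : starRingEnd ℂ (2 * s) ≠ 1 := by
          intro h
          apply m1
          have := congrArg (starRingEnd ℂ) h
          simpa using this
        rw [e1, norm_xi (hform _ m0' m1' (by simp [hsre])), norm_xi (hform _ m0 m1 (by simp [hsre])),
          norm_zeta_conj,
          Complex.conj_re]
        congr 2
        have e3 : starRingEnd ℂ (2 * s) / 2 = starRingEnd ℂ (2 * s / 2) := by
          rw [map_div₀]
          congr 1
          exact (Complex.conj_ofReal 2).symm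
        rw [e3, norm_Gamma_conj]
      have hpi0 : 0 < Real.pi ^ (-s.re) := Real.rpow_pos_of_pos Real.pi_pos _
      have hden : 0 < Real.pi ^ (-s.re) * ‖Gamma s‖ * (c / (2 * |s.im|)) := by positivity
      have hlow3 := hxi2 s (by rw [hsre]) ht'
      have hnum : ‖xi s‖ ^ 4 ≤ (Real.pi ^ (-s.re) * Real.pi ^ (-s.re)) *
          ((B₀ * ‖Gamma s‖) * (B₀ * ‖Gamma s‖)) * (5 * Z * |s.im|) ^ 4 := by
        have hgq : ‖Gamma (s / 2)‖ ^ 2 ≤ B₀ * ‖Gamma s‖ :=
          (gamma_quot (by rw [hsre]; norm_num)).trans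
            (mul_le_mul_of_nonneg_right (hB s.re (by rw [hsre]) (by rw [hsre]; norm_num))
              (norm_nonneg _))
        calc ‖xi s‖ ^ 4 ≤ (Real.pi ^ (-s.re / 2) * ‖Gamma (s / 2)‖ * (5 * Z * |s.im|)) ^ 4 :=
              pow_le_pow_left₀ (norm_nonneg _)
                (hxiu s (by rw [hsre]) (by rw [hsre]; norm_num) ht') 4
          _ = (Real.pi ^ (-s.re) * Real.pi ^ (-s.re)) * (‖Gamma (s / 2)‖ ^ 2 *
                ‖Gamma (s / 2)‖ ^ 2) * (5 * Z * |s.im|) ^ 4 := by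
              rw [mul_pow, mul_pow, hpipow]; ring
          _ ≤ _ := by
              refine mul_le_mul_of_nonneg_right (mul_le_mul_of_nonneg_left ?_ (by positivity))
                (by positivity)
              exact mul_le_mul hgq hgq (by positivity) (by positivity)
      rw [hbval, norm_div, norm_mul, norm_pow, hsym]
      calc ‖xi s‖ ^ 4 / (‖xi (2 * s)‖ * ‖xi (2 * s)‖)
          ≤ ((Real.pi ^ (-s.re) * Real.pi ^ (-s.re)) *
            ((B₀ * ‖Gamma s‖) * (B₀ * ‖Gamma s‖)) * (5 * Z * |s.im|) ^ 4) /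
            ((Real.pi ^ (-s.re) * ‖Gamma s‖ * (c / (2 * |s.im|))) *
              (Real.pi ^ (-s.re) * ‖Gamma s‖ * (c / (2 * |s.im|)))) := by
            refine div_le_div₀ (by positivity) hnum (by positivity) ?_
            exact mul_le_mul hlow3 hlow3 hden.le (norm_nonneg _)
        _ = B₀ ^ 2 * (5 * Z) ^ 4 * (2 / c) ^ 2 * |t| ^ 6 := by
            rw [hsim]
            field_simp
        _ ≤ B₀ ^ 2 * (5 * Z) ^ 4 * (2 / c) ^ 2 * (1 + |t|) ^ 6 := by
            refine mul_le_mul_of_nonneg_left ?_ (by positivity)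
            exact pow_le_pow_left₀ (abs_nonneg t) (by linarith) 6
        _ ≤ _ := mul_le_mul_of_nonneg_right (le_max_right _ _) (by positivity)
  · -- (4)
    obtain ⟨C, hC, hCb⟩ := hline
    refine ⟨C, hC, fun t ht => ?_⟩
    set s : ℂ := 1 / 2 + t * I with hs
    have hsre : s.re = 1 / 2 := by simp [hs]
    have hsim : s.im = t := by simp [hs]
    have n0 : s ≠ 0 := by
      intro h; rw [h] at hsre; norm_num at hsre
    have n1 : s ≠ 1 := by
      intro h; rw [h] at hsre; norm_num at hsre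
    have n2 : s ≠ 1 / 2 := by
      intro h; rw [h] at hsim; simp at hsim; exact ht hsim.symm
    rw [← (hAB s n0 n1 n2).2 (hre1 _ (by simp [hsre]))]
    have e1 : s = 1 - (1 - s) := by ring
    have e2 : 1 - s ≠ 0 := sub_ne_zero.2 n1.symm
    have e3 : 1 - s ≠ 1 := by
      intro h; apply n0; linear_combination -h
    rw [e1, hBA (1 - s) e2 e3]
    have e4 : 1 - s = 1 / 2 + ((-t : ℝ) : ℂ) * I := by
      rw [hs]; push_cast; ring
    rw [e4]
    have := hCb (-t)
    rwa [abs_neg] at this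

end FMZ
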