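import Pool.Agent.FMZ.TE

/-!
# FMZ: constant term of N², Mellin inversion
-/

open Complex MeasureTheory Set Filter Topology

namespace FMZ

namespace EASH_

/-! ### regrouping by the product -/

def fp (p : ℕ × ℕ) : ℕ := (p.1 + 1) * (p.2 + 1) - 1

theorem fp_succ (p : ℕ × ℕ) : fp p + 1 = (p.1 + 1) * (p.2 + 1) := by
  unfold fp
  have : 0 < (p.1 + 1) * (p.2 + 1) := by positivity
  omega

theorem fp_cast (p : ℕ × ℕ) : ((fp p : ℕ) : ℝ) + 1 = ((p.1 : ℝ) + 1) * ((p.2 : ℝ) + 1) := by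
  have := fp_succ p
  exact_mod_cast this

def fibEquiv (n : ℕ) : {p : ℕ × ℕ // fp p = n} ≃ (n + 1).divisorsAntidiagonal where
  toFun := fun p => ⟨(p.1.1 + 1, p.1.2 + 1), by
    rw [Nat.mem_divisorsAntidiagonal]
    refine ⟨?_, by omega⟩
    simp only
    rw [← fp_succ, p.2]⟩
  invFun := fun q => ⟨(q.1.1 - 1, q.1.2 - 1), by
    have h := q.2
    rw [Nat.mem_divisorsAntidiagonal] at h
    have h1 : 0 < q.1.1 := Nat.pos_of_ne_zero (by
      intro h0
      rw [h0, zero_mul] at h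
      omega)
    have h2 : 0 < q.1.2 := Nat.pos_of_ne_zero (by
      intro h0
      rw [h0, mul_zero] at h
      omega)
    unfold fp
    simp only
    rw [Nat.sub_add_cancel h1, Nat.sub_add_cancel h2, h.1]
    omega⟩
  left_inv := by
    rintro ⟨⟨a, b⟩, h⟩
    simp
  right_inv := by
    rintro ⟨⟨a, b⟩, h⟩
    have h' := h
    rw [Nat.mem_divisorsAntidiagonal] at h'
    simp only at h'
    have h1 : 0 < a := Nat.pos_of_ne_zero (by
      rintro rfl
      rw [zero_mul] at h'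
      omega)
    have h2 : 0 < b := Nat.pos_of_ne_zero (by
      rintro rfl
      rw [mul_zero] at h'
      omega)
    simp only [Subtype.mk.injEq, Prod.mk.injEq]
    omega

theorem card_da (n : ℕ) : n.divisorsAntidiagonal.card = n.divisors.card := by
  have h := Nat.sum_divisorsAntidiagonal (fun _ _ => (1 : ℕ)) (n := n)
  rw [Finset.card_eq_sum_ones, Finset.card_eq_sum_ones]
  exact h

/-- the number of divisors of n+1 -/
def dn (n : ℕ) : ℕ := (n + 1).divisors.card

theorem dn_pos (n : ℕ) : 0 < dn n := by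
  unfold dn
  exact Finset.card_pos.2 ⟨1, by simp⟩

theorem regroup (g : ℕ → ℝ) (hg : Summable (fun p : ℕ × ℕ => g (fp p))) :
    HasSum (fun n => (dn n : ℝ) * g n) (∑' p : ℕ × ℕ, g (fp p)) := by
  have h1 := hg.hasSum
  rw [← (Equiv.sigmaFiberEquiv fp).hasSum_iff] at h1
  refine h1.sigma (fun n => ?_)
  have h2 : ∀ c : {p : ℕ × ℕ // fp p = n},
      ((fun p : ℕ × ℕ => g (fp p)) ∘ (Equiv.sigmaFiberEquiv fp)) ⟨n, c⟩ = g n := by
    intro c
    simp only [Function.comp_apply, Equiv.sigmaFiberEquiv, Equiv.coe_fn_mk]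
    rw [c.2]
  simp only [h2]
  have : Fintype {p : ℕ × ℕ // fp p = n} := Fintype.ofEquiv _ (fibEquiv n).symm
  have h3 := hasSum_fintype (fun _ : {p : ℕ × ℕ // fp p = n} => g n)
  rw [Finset.sum_const, nsmul_eq_mul, Finset.card_univ, Fintype.card_congr (fibEquiv n),
    Fintype.card_coe, card_da] at h3
  exact h3

/-! ### orthogonality -/

theorem int_cos (k : ℤ) : ∫ x in (0 : ℝ)..1, Real.cos (2 * Real.pi * k * x) =
    if k = 0 then 1 else 0 := by
  split_ifs with h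
  · subst h
    simp
  · have hk : (2 * Real.pi * (k : ℝ)) ≠ 0 := by
      have h1 : (k : ℝ) ≠ 0 := by exact_mod_cast h
      have := Real.pi_ne_zero
      positivity
    rw [intervalIntegral.integral_comp_mul_left (fun x => Real.cos x) hk, integral_cos]
    rw [mul_zero, Real.sin_zero, mul_one, sub_zero]
    have : Real.sin (2 * Real.pi * k) = 0 := by
      have h2 := Real.sin_int_mul_pi (2 * k)
      rw [← h2]
      congr 1
      push_cast
      ring
    rw [this, smul_zero]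

theorem int_cos_cos (n m : ℕ) : ∫ x in (0 : ℝ)..1,
    Real.cos (2 * Real.pi * ((n : ℝ) + 1) * x) * Real.cos (2 * Real.pi * ((m : ℝ) + 1) * x) =
    if n = m then 1 / 2 else 0 := by
  have h1 : ∀ x : ℝ, Real.cos (2 * Real.pi * ((n : ℝ) + 1) * x) *
      Real.cos (2 * Real.pi * ((m : ℝ) + 1) * x) =
      1 / 2 * Real.cos (2 * Real.pi * (((n : ℤ) - m : ℤ) : ℝ) * x) +
      1 / 2 * Real.cos (2 * Real.pi * (((n : ℤ) + m + 2 : ℤ) : ℝ) * x) := by
    intro x
    push_cast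
    have e1 : 2 * Real.pi * ((n : ℝ) - m) * x =
        2 * Real.pi * ((n : ℝ) + 1) * x - 2 * Real.pi * ((m : ℝ) + 1) * x := by ring
    have e2 : 2 * Real.pi * ((n : ℝ) + m + 2) * x =
        2 * Real.pi * ((n : ℝ) + 1) * x + 2 * Real.pi * ((m : ℝ) + 1) * x := by ring
    rw [e1, e2, Real.cos_sub, Real.cos_add]
    ring
  simp only [h1]
  rw [intervalIntegral.integral_add (by
      apply Continuous.intervalIntegrable; fun_prop) (by
      apply Continuous.intervalIntegrable; fun_prop),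
    intervalIntegral.integral_const_mul, intervalIntegral.integral_const_mul, int_cos, int_cos]
  have h2 : ¬ ((n : ℤ) + m + 2 = 0) := by omega
  rw [if_neg h2]
  by_cases h : n = m
  · subst h
    simp
  · have h3 : ¬ ((n : ℤ) - m = 0) := by omega
    rw [if_neg h, if_neg h3]
    simp

theorem orth (c : ℕ → ℝ) (hc0 : ∀ n, 0 ≤ c n) (hc : Summable c) :
    Summable (fun n => c n ^ 2) ∧
    ∫ x in (0 : ℝ)..1, (∑' n, c n * Real.cos (2 * Real.pi * ((n : ℝ) + 1) * x)) ^ 2 =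
      1 / 2 * ∑' n, c n ^ 2 := by
  set S := ∑' n, c n with hS
  have hS0 : 0 ≤ S := tsum_nonneg hc0
  have hcS : ∀ n, c n ≤ S := fun n => hc.le_tsum n (fun j _ => hc0 j)
  have hsq : Summable (fun n => c n ^ 2) := by
    refine Summable.of_nonneg_of_le (fun n => sq_nonneg _) (fun n => ?_) (hc.mul_left S)
    have := hcS n
    have := hc0 n
    nlinarith
  refine ⟨hsq, ?_⟩
  -- the sum
  set g : ℝ → ℝ := fun x => ∑' n, c n * Real.cos (2 * Real.pi * ((n : ℝ) + 1) * x) with hg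
  have hbd : ∀ n x, ‖c n * Real.cos (2 * Real.pi * ((n : ℝ) + 1) * x)‖ ≤ c n := by
    intro n x
    rw [norm_mul, Real.norm_of_nonneg (hc0 n)]
    calc c n * ‖Real.cos (2 * Real.pi * ((n : ℝ) + 1) * x)‖ ≤ c n * 1 :=
          mul_le_mul_of_nonneg_left (Real.abs_cos_le_one _) (hc0 n)
      _ = c n := mul_one _
  have hsum : ∀ x, Summable (fun n => c n * Real.cos (2 * Real.pi * ((n : ℝ) + 1) * x)) :=
    fun x => Summable.of_norm_bounded hc (fun n => hbd n x)
  have hgc : Continuous g := continuous_tsum (fun n => by fun_prop) hc (fun n x => hbd n x)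
  have hgS : ∀ x, ‖g x‖ ≤ S := fun x => tsum_of_norm_bounded hc.hasSum (fun n => hbd n x)
  have hexch : ∀ h : ℝ → ℝ, Continuous h → (∀ x, ‖h x‖ ≤ S + 1) →
      ∑' n, (∫ x in (0 : ℝ)..1, (c n * Real.cos (2 * Real.pi * ((n : ℝ) + 1) * x)) * h x) =
      ∫ x in (0 : ℝ)..1, g x * h x := by
    intro h hh hhS
    simp only [intervalIntegral.integral_of_le zero_le_one]
    rw [integral_tsum_of_summable_integral_norm]
    · congr 1
      funext x
      rw [hg, tsum_mul_right]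
    · intro n
      have : Continuous (fun x => c n * Real.cos (2 * Real.pi * ((n : ℝ) + 1) * x) * h x) := by
        fun_prop
      exact (this.intervalIntegrable 0 1).1
    · refine Summable.of_nonneg_of_le (fun n => integral_nonneg fun x => norm_nonneg _)
        (fun n => ?_) (hc.mul_right (S + 1))
      have hle : ∀ x, ‖c n * Real.cos (2 * Real.pi * ((n : ℝ) + 1) * x) * h x‖ ≤
          c n * (S + 1) := by
        intro x
        rw [norm_mul]
        exact mul_le_mul (hbd n x) (hhS x) (norm_nonneg _) (hc0 n)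
      calc ∫ x in Ioc (0 : ℝ) 1, ‖c n * Real.cos (2 * Real.pi * ((n : ℝ) + 1) * x) * h x‖
          ≤ ∫ x in Ioc (0 : ℝ) 1, c n * (S + 1) := by
            apply integral_mono_of_nonneg (Eventually.of_forall fun x => norm_nonneg _) _
              (Eventually.of_forall hle)
            exact integrable_const _
        _ = c n * (S + 1) := by simp
  have h1 : ∀ n, ∫ x in (0 : ℝ)..1, (c n * Real.cos (2 * Real.pi * ((n : ℝ) + 1) * x)) * g x =
      1 / 2 * c n ^ 2 := by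
    intro n
    have h2 := hexch (fun x => Real.cos (2 * Real.pi * ((n : ℝ) + 1) * x)) (by fun_prop)
      (fun x => (Real.abs_cos_le_one _).trans (by linarith))
    have h3 : ∀ m, ∫ x in (0 : ℝ)..1, c m * Real.cos (2 * Real.pi * ((m : ℝ) + 1) * x) *
        Real.cos (2 * Real.pi * ((n : ℝ) + 1) * x) = if m = n then c n / 2 else 0 := by
      intro m
      simp only [mul_assoc (c m)]
      rw [intervalIntegral.integral_const_mul, int_cos_cos]
      split_ifs with h
      · rw [h]; ring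
      · rw [mul_zero]
    simp only [h3] at h2
    rw [tsum_ite_eq] at h2
    have h4 : ∫ x in (0 : ℝ)..1, (c n * Real.cos (2 * Real.pi * ((n : ℝ) + 1) * x)) * g x =
        c n * ∫ x in (0 : ℝ)..1, g x * Real.cos (2 * Real.pi * ((n : ℝ) + 1) * x) := by
      rw [← intervalIntegral.integral_const_mul]
      congr 1
      funext x
      ring
    rw [h4, ← h2]
    ring
  have h5 := hexch g hgc (fun x => (hgS x).trans (by linarith))
  simp only [h1] at h5
  rw [tsum_mul_left] at h5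
  rw [h5]
  congr 1
  funext x
  exact sq (g x)

/-! ### the expansion of N and of a♯ -/

/-- KB(0,·) as a real function -/
noncomputable def kk (x : ℝ) : ℝ := (KB 0 x).re

theorem KB_eq (h2 : tKB) (x : ℝ) : KB 0 x = (kk x : ℂ) := by
  apply Complex.ext
  · simp [kk]
  · simpa using (h2.2.2.2.2.1 x).1

theorem kk_nonneg (h2 : tKB) (x : ℝ) : 0 ≤ kk x := (h2.2.2.2.2.1 x).2

noncomputable def cn (y : ℝ) (n : ℕ) : ℝ := dn n * kk (2 * Real.pi * ((n : ℝ) + 1) * y)

theorem cn_nonneg (h2 : tKB) (y : ℝ) (n : ℕ) : 0 ≤ cn y n :=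
  mul_nonneg (Nat.cast_nonneg _) (kk_nonneg h2 _)

theorem Ntm_half (h2 : tKB) (x y : ℝ) (p : ℕ × ℕ) : Ntm x y (1 / 2) p =
    ((kk (2 * Real.pi * ((fp p : ℝ) + 1) * y) *
      Real.cos (2 * Real.pi * ((fp p : ℝ) + 1) * x) : ℝ) : ℂ) := by
  unfold Ntm
  rw [sub_self, Complex.cpow_zero, one_mul, fp_cast, KB_eq h2]
  push_cast
  ring

theorem summable_kk (h2 : tKB) (h4 : tN) {y : ℝ} (hy : 0 < y) :
    Summable (fun p : ℕ × ℕ => kk (2 * Real.pi * ((fp p : ℝ) + 1) * y)) := by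
  refine (h4.1 0 y (1 / 2) hy).congr (fun p => ?_)
  rw [Ntm_half h2, mul_zero, Real.cos_zero, mul_one, Complex.norm_real,
    Real.norm_of_nonneg (kk_nonneg h2 _)]

theorem summable_cn (h2 : tKB) (h4 : tN) {y : ℝ} (hy : 0 < y) : Summable (cn y) :=
  (regroup (fun n => kk (2 * Real.pi * ((n : ℝ) + 1) * y)) (summable_kk h2 h4 hy)).summable

theorem Nst_half (h2 : tKB) (h4 : tN) {y : ℝ} (hy : 0 < y) (x : ℝ) : Nst x y (1 / 2) =
    ((2 * √y * ∑' n, cn y n * Real.cos (2 * Real.pi * ((n : ℝ) + 1) * x) : ℝ) : ℂ) := by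
  unfold Nst
  simp only [Ntm_half h2]
  have hs : Summable (fun p : ℕ × ℕ => kk (2 * Real.pi * ((fp p : ℝ) + 1) * y) *
      Real.cos (2 * Real.pi * ((fp p : ℝ) + 1) * x)) := by
    refine Summable.of_norm_bounded (summable_kk h2 h4 hy) (fun p => ?_)
    rw [norm_mul, Real.norm_of_nonneg (kk_nonneg h2 _)]
    calc _ ≤ kk (2 * Real.pi * ((fp p : ℝ) + 1) * y) * 1 :=
          mul_le_mul_of_nonneg_left (Real.abs_cos_le_one _) (kk_nonneg h2 _)
      _ = _ := mul_one _
  have h := (regroup (fun n => kk (2 * Real.pi * ((n : ℝ) + 1) * y) *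
      Real.cos (2 * Real.pi * ((n : ℝ) + 1) * x)) hs).tsum_eq
  rw [← Complex.ofReal_tsum, ← h]
  push_cast
  congr 1
  apply tsum_congr
  intro n
  unfold cn
  push_cast
  ring

theorem ash_eq (h2 : tKB) (h4 : tN) {y : ℝ} (hy : 0 < y) :
    ash y = ((2 * y * ∑' n, cn y n ^ 2 : ℝ) : ℂ) := by
  unfold ash
  simp only [Nst_half h2 h4 hy]
  have h := (orth (cn y) (cn_nonneg h2 y) (summable_cn h2 h4 hy)).2
  have e1 : ∀ x : ℝ, (((2 * √y * ∑' n, cn y n * Real.cos (2 * Real.pi * ((n : ℝ) + 1) * x) : ℝ)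
      : ℂ)) ^ 2 = ((4 * y * (∑' n, cn y n * Real.cos (2 * Real.pi * ((n : ℝ) + 1) * x)) ^ 2 : ℝ)
      : ℂ) := by
    intro x
    rw [← Complex.ofReal_pow, mul_pow, mul_pow, Real.sq_sqrt hy.le]
    norm_num
  simp only [e1]
  rw [intervalIntegral.integral_ofReal, intervalIntegral.integral_const_mul, h]
  congr 1
  ring

theorem ash_cont (h4 : tN) : ContinuousOn ash (Ioi 0) := by
  intro y₀ hy₀
  have hy₀' : 0 < y₀ := hy₀
  apply ContinuousAt.continuousWithinAt
  have h1 : Continuous (fun y : ℝ => ∫ x in (0 : ℝ)..1, Nst x (max y (y₀ / 2)) (1 / 2) ^ 2) := by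
    apply intervalIntegral.continuous_parametric_intervalIntegral_of_continuous'
    have h2 : Continuous (fun q : ℝ × ℝ => Nst q.2 (max q.1 (y₀ / 2)) (1 / 2)) := by
      have h3 := h4.2.2.2.1
      have h5 : Continuous (fun q : ℝ × ℝ => (((q.2, max q.1 (y₀ / 2)), (1 / 2 : ℂ)) :
          (ℝ × ℝ) × ℂ)) := by fun_prop
      refine h3.comp_continuous h5 (fun q => ?_)
      have : 0 < y₀ / 2 := by linarith
      exact lt_of_lt_of_le this (le_max_right _ _)
    exact h2.pow 2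
  refine h1.continuousAt.congr ?_
  filter_upwards [lt_mem_nhds (show y₀ / 2 < y₀ by linarith)] with y hy
  unfold ash
  rw [max_eq_left hy.le]

/-! ### the Mellin transform -/

noncomputable def MM (s : ℂ) : ℂ := (2 : ℂ) ^ (s - 1) * Gamma (s / 2) ^ 4 / Gamma s

/-- the function a♯(y)/y -/
noncomputable def fi (y : ℝ) : ℂ := ash y / y

/-- its n-th term -/
noncomputable def ft (n : ℕ) (y : ℝ) : ℂ :=
  (2 * (dn n : ℂ) ^ 2) • (fun x : ℝ => ((kk x : ℂ) ^ 2)) (2 * Real.pi * ((n : ℝ) + 1) * y)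

theorem pos_a (n : ℕ) : 0 < 2 * Real.pi * ((n : ℝ) + 1) := by
  have := Real.pi_pos
  positivity

theorem ft_conv (h2 : tKB) (h3 : tKBM) (n : ℕ) {s : ℂ} (hs : 0 < s.re) :
    MellinConvergent (ft n) s ∧
    mellin (ft n) s = 2 * (dn n : ℂ) ^ 2 * ((2 * Real.pi * ((n : ℝ) + 1) : ℝ) : ℂ) ^ (-s) * MM s := by
  have h0 : MellinConvergent (fun x : ℝ => ((kk x : ℂ) ^ 2)) s := by
    refine (h3 s hs).1.congr_fun ?_ measurableSet_Ioi
    intro x _
    simp only [smul_eq_mul]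
    rw [KB_eq h2]
    ring
  have h1 : mellin (fun x : ℝ => ((kk x : ℂ) ^ 2)) s = MM s := by
    unfold mellin MM
    rw [← (h3 s hs).2]
    congr 1
    funext x
    simp only [smul_eq_mul]
    rw [KB_eq h2]
    ring
  have h5 := (MellinConvergent.comp_mul_left (f := fun x : ℝ => ((kk x : ℂ) ^ 2)) (s := s)
    (pos_a n)).2 h0
  constructor
  · exact h5.const_smul (2 * (dn n : ℂ) ^ 2)
  · have h6 := mellin_comp_mul_left (fun x : ℝ => ((kk x : ℂ) ^ 2)) s (pos_a n)
    have h7 := mellin_const_smul (fun t : ℝ => (fun x : ℝ => ((kk x : ℂ) ^ 2))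
      (2 * Real.pi * ((n : ℝ) + 1) * t)) s (2 * (dn n : ℂ) ^ 2)
    unfold ft
    rw [h7, h6, h1]
    simp only [smul_eq_mul]
    ring

theorem fi_eq (h2 : tKB) (h4 : tN) {y : ℝ} (hy : 0 < y) : fi y = ∑' n, ft n y := by
  unfold fi
  rw [ash_eq h2 h4 hy]
  have hy' : (y : ℂ) ≠ 0 := by exact_mod_cast hy.ne'
  push_cast
  rw [mul_div_right_comm, mul_div_assoc, div_self hy', mul_one, ← tsum_mul_left]
  apply tsum_congr
  intro n
  unfold ft cn
  simp only [smul_eq_mul]
  push_cast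
  ring

theorem fi_cont (h4 : tN) : ContinuousOn fi (Ioi 0) := by
  unfold fi
  refine (ash_cont h4).div (Complex.continuous_ofReal.continuousOn) (fun y hy => ?_)
  have : y ≠ 0 := (ne_of_gt hy)
  exact_mod_cast this

theorem norm_term (n : ℕ) (s : ℂ) {y : ℝ} (hy : 0 < y) :
    ((‖(y : ℂ) ^ (s - 1) • ft n y‖ : ℝ) : ℂ) = (y : ℂ) ^ (((s.re : ℝ) : ℂ) - 1) • ft n y := by
  have h1 : ft n y = ((2 * (dn n : ℝ) ^ 2 * kk (2 * Real.pi * ((n : ℝ) + 1) * y) ^ 2 : ℝ) : ℂ) := by
    unfold ft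
    simp only [smul_eq_mul]
    push_cast
    ring
  rw [h1, norm_smul, Complex.norm_real, Real.norm_of_nonneg (by positivity),
    Complex.norm_cpow_eq_rpow_re_of_pos hy, smul_eq_mul, Complex.sub_re, Complex.one_re,
    Complex.ofReal_mul, Complex.ofReal_cpow hy.le]
  push_cast
  ring

theorem int_norm (h2 : tKB) (h3 : tKBM) (n : ℕ) {s : ℂ} (hs : 0 < s.re) :
    ∫ y in Ioi (0 : ℝ), ‖(y : ℂ) ^ (s - 1) • ft n y‖ =
      2 * ‖MM s.re‖ * (2 * Real.pi) ^ (-s.re) * ((dn n : ℝ) ^ 2 * ((n : ℝ) + 1) ^ (-s.re)) := by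
  have h1 : ((∫ y in Ioi (0 : ℝ), ‖(y : ℂ) ^ (s - 1) • ft n y‖ : ℝ) : ℂ) =
      mellin (ft n) s.re := by
    rw [← integral_complex_ofReal]
    unfold mellin
    exact setIntegral_congr_fun measurableSet_Ioi (fun y hy => norm_term n s hy)
  have h0 : 0 ≤ ∫ y in Ioi (0 : ℝ), ‖(y : ℂ) ^ (s - 1) • ft n y‖ :=
    integral_nonneg fun y => norm_nonneg _
  have h5 : ∫ y in Ioi (0 : ℝ), ‖(y : ℂ) ^ (s - 1) • ft n y‖ = ‖mellin (ft n) s.re‖ := by
    rw [← h1, Complex.norm_real, Real.norm_of_nonneg h0]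
  rw [h5, (ft_conv h2 h3 n (s := (s.re : ℂ)) (by simpa using hs)).2, norm_mul, norm_mul, norm_mul,
    Complex.norm_ofNat, norm_pow, Complex.norm_natCast,
    Complex.norm_cpow_eq_rpow_re_of_pos (pos_a n), Complex.neg_re, Complex.ofReal_re,
    Real.mul_rpow (by positivity) (by positivity)]
  ring

theorem summable_d (h5 : tRAM) {σ : ℝ} (hσ : 1 < σ) :
    Summable (fun n : ℕ => (dn n : ℝ) ^ 2 * ((n : ℝ) + 1) ^ (-σ)) := by
  refine (h5 σ (by simpa using hσ)).1.congr (fun n => ?_)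
  have hn : (0 : ℝ) < ((n + 1 : ℕ) : ℝ) := by positivity
  rw [norm_div, norm_pow, Complex.norm_natCast, ← Complex.ofReal_natCast (n + 1),
    Complex.norm_cpow_eq_rpow_re_of_pos hn, Complex.ofReal_re, Real.rpow_neg (by positivity)]
  unfold dn
  push_cast
  rw [div_eq_mul_inv]

theorem hasSum_mellin (h2 : tKB) (h3 : tKBM) (h4 : tN) (h5 : tRAM) {s : ℂ} (hs : 1 < s.re) :
    HasSum (fun n => mellin (ft n) s) (mellin fi s) := by
  have hs0 : 0 < s.re := by linarith
  have h := hasSum_integral_of_summable_integral_norm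
    (μ := volume.restrict (Ioi (0 : ℝ))) (F := fun n y => (y : ℂ) ^ (s - 1) • ft n y)
    (fun n => (ft_conv h2 h3 n hs0).1) (by
      simp only [int_norm h2 h3 _ hs0]
      exact (summable_d h5 hs).mul_left _)
  have h6 : ∫ y in Ioi (0 : ℝ), ∑' n, (y : ℂ) ^ (s - 1) • ft n y = mellin fi s := by
    unfold mellin
    refine setIntegral_congr_fun measurableSet_Ioi (fun y hy => ?_)
    simp only [smul_eq_mul]
    rw [tsum_mul_left, fi_eq h2 h4 hy]
  rw [h6] at h
  exact h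

theorem MM_ne {σ : ℝ} (hσ : 0 < σ) : MM σ ≠ 0 := by
  unfold MM
  have h1 : 0 < ((σ : ℂ) / 2).re := by
    rw [Complex.div_ofNat_re, Complex.ofReal_re]
    linarith
  refine div_ne_zero (mul_ne_zero ?_ (pow_ne_zero 4 (Complex.Gamma_ne_zero_of_re_pos h1)))
    (Complex.Gamma_ne_zero_of_re_pos (by simpa using hσ))
  rw [Complex.cpow_def_of_ne_zero two_ne_zero]
  exact Complex.exp_ne_zero _

theorem conv_fi (h2 : tKB) (h3 : tKBM) (h4 : tN) (h5 : tRAM) {σ : ℝ} (hσ : 1 < σ) :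
    MellinConvergent fi σ := by
  by_contra hcon
  have hσ0 : 0 < σ := by linarith
  have h0 : mellin fi σ = 0 := integral_undef hcon
  have h1 := hasSum_mellin h2 h3 h4 h5 (s := (σ : ℂ)) (by simpa using hσ)
  rw [h0] at h1
  have h6 : ∀ n, mellin (ft n) σ =
      ((∫ y in Ioi (0 : ℝ), ‖(y : ℂ) ^ ((σ : ℂ) - 1) • ft n y‖ : ℝ) : ℂ) := by
    intro n
    rw [← integral_complex_ofReal]
    unfold mellin
    refine setIntegral_congr_fun measurableSet_Ioi (fun y hy => ?_)
    have := norm_term n (σ : ℂ) hy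
    simp only [Complex.ofReal_re] at this
    exact this.symm
  simp only [h6] at h1
  have h7 : HasSum (fun n => ∫ y in Ioi (0 : ℝ), ‖(y : ℂ) ^ ((σ : ℂ) - 1) • ft n y‖) 0 := by
    have := Complex.hasSum_re h1
    simpa using this
  have h8 : ∫ y in Ioi (0 : ℝ), ‖(y : ℂ) ^ ((σ : ℂ) - 1) • ft 0 y‖ ≤ 0 :=
    le_hasSum h7 0 (fun j _ => integral_nonneg fun y => norm_nonneg _)
  rw [int_norm h2 h3 0 (s := (σ : ℂ)) (by simpa using hσ0)] at h8
  have h9 : 0 < ‖MM ((σ : ℂ).re : ℂ)‖ := by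
    rw [Complex.ofReal_re]
    exact norm_pos_iff.2 (MM_ne hσ0)
  have h10 : (0 : ℝ) < dn 0 := by exact_mod_cast dn_pos 0
  have h11 : 0 < 2 * ‖MM ((σ : ℂ).re : ℂ)‖ * (2 * Real.pi) ^ (-(σ : ℂ).re) *
      ((dn 0 : ℝ) ^ 2 * (((0 : ℕ) : ℝ) + 1) ^ (-(σ : ℂ).re)) := by
    have := Real.pi_pos
    positivity
  linarith

theorem mellin_fi (h1 : tX) (h2 : tKB) (h3 : tKBM) (h4 : tN) (h5 : tRAM) {s : ℂ}
    (hs : 1 < s.re) : mellin fi s = Aq s := by
  have hs0 : 0 < s.re := by linarith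
  rw [← (hasSum_mellin h2 h3 h4 h5 hs).tsum_eq]
  have e1 : ∀ n, mellin (ft n) s = 2 * MM s * ((2 * Real.pi : ℝ) : ℂ) ^ (-s) *
      (((n + 1).divisors.card : ℂ) ^ 2 / ((n + 1 : ℕ) : ℂ) ^ s) := by
    intro n
    rw [(ft_conv h2 h3 n hs0).2, Complex.ofReal_mul,
      Complex.mul_cpow_ofReal_nonneg (by positivity) (by positivity), Complex.cpow_neg _ s,
      Complex.cpow_neg (((n : ℝ) + 1 : ℝ) : ℂ) s]
    unfold dn
    push_cast
    rw [div_eq_mul_inv]
    ring
  simp only [e1]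
  rw [tsum_mul_left]
  have hz := (h5 s hs).2
  have h2s : 1 < (2 * s).re := by
    simp only [mul_re, re_ofNat, im_ofNat, zero_mul, sub_zero]
    linarith
  have hz2 : riemannZeta (2 * s) ≠ 0 := riemannZeta_ne_zero_of_one_lt_re h2s
  have hz3 : ∑' n : ℕ, (((n + 1).divisors.card : ℂ) ^ 2 / ((n + 1 : ℕ) : ℂ) ^ s) =
      riemannZeta s ^ 4 / riemannZeta (2 * s) := by
    rw [eq_div_iff hz2]
    exact hz
  rw [hz3]
  -- facts on s
  have s0 : s ≠ 0 := by
    rintro rfl
    simp at hs0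
  have s1 : s ≠ 1 := by
    rintro rfl
    simp at hs
  have s20 : 2 * s ≠ 0 := mul_ne_zero two_ne_zero s0
  have s21 : 2 * s ≠ 1 := by
    intro h
    rw [h] at h2s
    simp at h2s
  obtain ⟨_, _, _, _, _, hxi, _, _, _, hxi2, _, _, _⟩ := h1
  have x1 := hxi s s0 s1
  have x2 := hxi (2 * s) s20 s21
  have g1 := hxi2 s s0 s1 (by linarith)
  have g2 := hxi2 (2 * s) s20 s21 (by linarith)
  have hG : Gamma s ≠ 0 := Complex.Gamma_ne_zero_of_re_pos hs0
  have hpi : (Real.pi : ℂ) ≠ 0 := by exact_mod_cast Real.pi_ne_zero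
  have hpp : (Real.pi : ℂ) ^ (-s / 2) ≠ 0 := by
    rw [Complex.cpow_def_of_ne_zero hpi]
    exact Complex.exp_ne_zero _
  have hps : (Real.pi : ℂ) ^ (-(2 * s) / 2) = ((Real.pi : ℂ) ^ (-s / 2)) ^ 2 := by
    rw [← Complex.cpow_nat_mul]
    congr 1
    push_cast
    ring
  have hX2 : X1 (2 * s) = 2 * s * (2 * s - 1) * xi (2 * s) := by
    rw [x2]
    have : (2 * s - 1) ≠ 0 := sub_ne_zero.2 s21
    field_simp
  have hX1 : X1 s = s * (s - 1) * xi s := by
    rw [x1]
    have : (s - 1) ≠ 0 := sub_ne_zero.2 s1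
    field_simp
  have hxi2ne : xi (2 * s) ≠ 0 := by
    rw [g2, hps, show 2 * s / 2 = s by ring]
    exact mul_ne_zero (mul_ne_zero (pow_ne_zero 2 hpp) hG) hz2
  have hA : Aq s = xi s ^ 4 / xi (2 * s) := by
    unfold Aq
    rw [hX1, hX2]
    have a1 : (s - 1) ≠ 0 := sub_ne_zero.2 s1
    have a2 : (2 * s - 1) ≠ 0 := sub_ne_zero.2 s21
    field_simp
  rw [hA, g1, g2, hps, show 2 * s / 2 = s by ring]
  unfold MM
  have hc : ((2 * Real.pi : ℝ) : ℂ) ^ (-s) = (2 : ℂ) ^ (-s) * ((Real.pi : ℂ) ^ (-s / 2)) ^ 2 := by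
    rw [Complex.ofReal_mul, Complex.mul_cpow_ofReal_nonneg (by norm_num) Real.pi_pos.le,
      ← Complex.cpow_nat_mul]
    push_cast
    congr 2
    ring
  have hc2 : (2 : ℂ) ^ (s - 1) * (2 : ℂ) ^ (-s) = 1 / 2 := by
    rw [← Complex.cpow_add _ _ two_ne_zero, show s - 1 + -s = -1 by ring, Complex.cpow_neg_one]
    norm_num
  rw [hc]
  have : 2 * ((2 : ℂ) ^ (s - 1) * Gamma (s / 2) ^ 4 / Gamma s) *
      ((2 : ℂ) ^ (-s) * ((Real.pi : ℂ) ^ (-s / 2)) ^ 2) =
      2 * ((2 : ℂ) ^ (s - 1) * (2 : ℂ) ^ (-s)) * (Gamma (s / 2) ^ 4 / Gamma s) *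
      ((Real.pi : ℂ) ^ (-s / 2)) ^ 2 := by ring
  rw [this, hc2]
  field_simp

theorem integrable_Aq (h6 : tABQ) {σ : ℝ} (hσ : 1 < σ) (hσ3 : σ ≤ 3) :
    Integrable (fun t : ℝ => Aq (σ + t * I)) := by
  obtain ⟨C, hC, hCle⟩ := h6.1
  have hcont : Continuous (fun t : ℝ => Aq (σ + t * I)) := by
    rw [continuous_iff_continuousAt]
    intro t
    have h1 : DifferentiableAt ℂ Aq (σ + t * I) := by
      apply h6.2.2.2.2.1
      · simp; linarith
      · intro h
        have := congrArg Complex.re h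
        simp at this
        linarith
    have h2 : ContinuousAt (fun t : ℝ => (σ : ℂ) + t * I) t := by fun_prop
    exact ContinuousAt.comp (f := fun t : ℝ => (σ : ℂ) + t * I) h1.continuousAt h2
  obtain ⟨K, hK⟩ := (isCompact_Icc (a := (-1 : ℝ)) (b := 1)).exists_bound_of_continuousOn
    hcont.continuousOn
  have hK0 : 0 ≤ K := (norm_nonneg _).trans (hK 0 (by simp))
  have hint : Integrable (fun t : ℝ => (C + K * Real.exp 1) * Real.exp (-1 * |t|)) := by
    have h1 : IntegrableOn (fun v : ℝ => Real.exp (-1 * |v|)) (Iic 0) := by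
      refine (integrableOn_exp_mul_Iic one_pos 0).congr_fun ?_ measurableSet_Iic
      intro v hv
      simp only [mem_Iic] at hv
      simp only
      rw [abs_of_nonpos hv]
      congr 1
      ring
    have h2 : IntegrableOn (fun v : ℝ => Real.exp (-1 * |v|)) (Ioi 0) := by
      refine (integrableOn_exp_mul_Ioi (neg_lt_zero.2 one_pos) 0).congr_fun ?_ measurableSet_Ioi
      intro v hv
      simp only [mem_Ioi] at hv
      simp only
      rw [abs_of_pos hv]
    have h3 := h1.union h2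
    rw [Iic_union_Ioi, integrableOn_univ] at h3
    exact h3.const_mul _
  refine hint.mono' hcont.aestronglyMeasurable (Eventually.of_forall fun t => ?_)
  by_cases ht : 1 ≤ |t|
  · have h1 := hCle (σ + t * I) (by simp; linarith) (by simpa using hσ3) (by simpa using ht)
    have h2 : ((σ : ℂ) + t * I).im = t := by simp
    rw [h2] at h1
    refine h1.trans ?_
    rw [neg_one_mul]
    apply mul_le_mul_of_nonneg_right _ (Real.exp_pos _).le
    have := Real.exp_pos 1
    nlinarith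
  · push Not at ht
    have h1 := hK t (by rw [abs_lt] at ht; exact ⟨ht.1.le, ht.2.le⟩)
    refine h1.trans ?_
    have h2 : 1 ≤ Real.exp 1 * Real.exp (-1 * |t|) := by
      rw [← Real.exp_add]
      apply Real.one_le_exp
      linarith
    have h3 := Real.exp_pos (-1 * |t|)
    calc K = K * 1 := (mul_one _).symm
      _ ≤ K * (Real.exp 1 * Real.exp (-1 * |t|)) := mul_le_mul_of_nonneg_left h2 hK0
      _ ≤ _ := by nlinarith

end EASH_

open EASH_

theorem pASH (h1 : tX) (h2 : tKB) (h3 : tKBM) (h4 : tN) (h5 : tRAM) (h6 : tABQ) : tASH := by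
  refine ⟨ash_cont h4, fun σ hσ hσ3 => ⟨integrable_Aq h6 hσ hσ3, fun y hy => ?_⟩⟩
  have hre : ∀ t : ℝ, 1 < ((σ : ℂ) + t * I).re := by
    intro t
    simpa using hσ
  have hv : VerticalIntegrable (mellin fi) σ := by
    refine (integrable_Aq h6 hσ hσ3).congr (Eventually.of_forall fun t => ?_)
    exact (mellin_fi h1 h2 h3 h4 h5 (hre t)).symm
  have h := mellinInv_mellin_eq σ fi hy (conv_fi h2 h3 h4 h5 hσ) hv
    ((fi_cont h4).continuousAt (Ioi_mem_nhds hy))
  have hy' : (y : ℂ) ≠ 0 := by exact_mod_cast hy.ne'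
  have h7 : ash y = y * fi y := by
    unfold fi
    field_simp
  rw [h7, ← h]
  unfold mellinInv
  rw [Complex.real_smul, mul_left_comm]
  congr 1
  rw [← integral_const_mul]
  congr 1
  funext t
  rw [mellin_fi h1 h2 h3 h4 h5 (hre t), smul_eq_mul, Complex.cpow_sub _ _ hy', Complex.cpow_one,
    Complex.cpow_neg]
  ring

end FMZ
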