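import Pool.Agent.FMZ.TE

/-!
# FMZ-E14: shift of the line of integration over a singular point
-/

open Complex MeasureTheory Set Filter Topology

namespace FMZ

namespace ECS_

/-- integral of f along a curve inside a ball where f has a primitive -/
lemma curve {f F : ℂ → ℂ} {z : ℂ} {ρ : ℝ} (hF : ∀ w ∈ Metric.ball z ρ, HasDerivAt F (f w) w)
    (hf : ContinuousOn f (Metric.ball z ρ)) {γ γ' : ℝ → ℂ} {a b : ℝ}
    (hγ : ∀ t, HasDerivAt γ (γ' t) t) (hγ' : Continuous γ')
    (hin : ∀ t ∈ uIcc a b, γ t ∈ Metric.ball z ρ) :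
    ∫ t in a..b, f (γ t) * γ' t = F (γ b) - F (γ a) := by
  apply intervalIntegral.integral_eq_sub_of_hasDerivAt (f := fun t => F (γ t))
  · intro t ht
    exact HasDerivAt.comp t (hF _ (hin t ht)) (hγ t)
  · apply ContinuousOn.intervalIntegrable
    apply ContinuousOn.mul _ hγ'.continuousOn
    apply hf.comp _ hin
    exact (continuous_iff_continuousAt.mpr fun t => (hγ t).continuousAt).continuousOn

lemma norm_exp_sub {θ : ℝ} (h : |θ| ≤ Real.pi / 4) : ‖Complex.exp (θ * I) - 1‖ < 1 := by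
  have h1 : ‖Complex.exp (θ * I) - 1‖ ^ 2 = 2 - 2 * Real.cos θ := by
    rw [Complex.exp_mul_I, ← Complex.ofReal_cos, ← Complex.ofReal_sin,
      ← Complex.normSq_eq_norm_sq]
    have : ((Real.cos θ : ℝ) : ℂ) + ((Real.sin θ : ℝ) : ℂ) * I - 1 =
        ((Real.cos θ - 1 : ℝ) : ℂ) + ((Real.sin θ : ℝ) : ℂ) * I := by push_cast; ring
    rw [this, Complex.normSq_add_mul_I]
    nlinarith [Real.sin_sq_add_cos_sq θ]
  have h2 : √2 / 2 ≤ Real.cos θ := by
    rw [← Real.cos_abs, ← Real.cos_pi_div_four]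
    apply Real.cos_le_cos_of_nonneg_of_le_pi (abs_nonneg _) _ h
    linarith [Real.pi_pos]
  have h3 : (1.4 : ℝ) < √2 := by
    apply Real.lt_sqrt_of_sq_lt; norm_num
  have h4 : 0 ≤ ‖Complex.exp (θ * I) - 1‖ := norm_nonneg _
  nlinarith

lemma quarter {f : ℂ → ℂ} {c : ℂ} {ρ : ℝ} (hρ : 0 < ρ)
    (hd : DifferentiableOn ℂ f (Metric.ball c (2 * ρ) \ {c})) (u : ℂ) (hu : ‖u‖ = 1) :
    ∫ θ in (-(Real.pi / 4))..(Real.pi / 4),
      f (c + ρ * u * Complex.exp (θ * I)) * (ρ * u * (Complex.exp (θ * I) * I)) =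
    ∫ y in (-(ρ / √2))..(ρ / √2), f (c + u * ((ρ / √2 : ℝ) + y * I)) * (u * I) := by
  have s2 : 0 < √2 := by positivity
  have ss : √2 ^ 2 = 2 := Real.sq_sqrt (by norm_num)
  set δ : ℝ := ρ / √2 with hδ
  have hδ0 : 0 < δ := by positivity
  have hρδ : ρ = δ * √2 := by rw [hδ]; field_simp
  have hball : Metric.ball (c + ρ * u) ρ ⊆ Metric.ball c (2 * ρ) \ {c} := by
    intro w hw
    rw [Metric.mem_ball, dist_eq_norm] at hw
    have hn : ‖(ρ : ℂ) * u‖ = ρ := by
      rw [norm_mul, hu, mul_one, Complex.norm_real, Real.norm_of_nonneg hρ.le]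
    constructor
    · rw [Metric.mem_ball, dist_eq_norm]
      calc ‖w - c‖ = ‖(w - (c + ρ * u)) + ρ * u‖ := by congr 1; ring
        _ ≤ ‖w - (c + ρ * u)‖ + ‖(ρ : ℂ) * u‖ := norm_add_le _ _
        _ < 2 * ρ := by rw [hn]; linarith
    · intro h
      rw [mem_singleton_iff] at h
      rw [h] at hw
      have : c - (c + ρ * u) = -((ρ : ℂ) * u) := by ring
      rw [this, norm_neg, hn] at hw
      exact lt_irrefl _ hw
  have hd' := hd.mono hball
  obtain ⟨F, hF⟩ := hd'.isExactOn_ball
  have e1 := curve (γ := fun θ : ℝ => c + ρ * u * Complex.exp (θ * I))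
    (γ' := fun θ : ℝ => ρ * u * (Complex.exp (θ * I) * I)) (a := -(Real.pi / 4))
    (b := Real.pi / 4) hF hd'.continuousOn ?_ (by fun_prop) ?_
  · have e2 := curve (γ := fun y : ℝ => c + u * ((δ : ℝ) + y * I))
      (γ' := fun y : ℝ => u * I) (a := -δ)
      (b := δ) hF hd'.continuousOn ?_ (by fun_prop) ?_
    · rw [e1, e2]
      have hexp : ∀ s : ℝ, (s = 1 ∨ s = -1) →
          (ρ : ℂ) * Complex.exp ((s * (Real.pi / 4) : ℝ) * I) = δ + ((s * δ : ℝ) : ℂ) * I := by
        intro s hs
        have hc : Real.cos (s * (Real.pi / 4)) = √2 / 2 := by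
          rcases hs with rfl | rfl
          · rw [one_mul, Real.cos_pi_div_four]
          · rw [neg_one_mul, Real.cos_neg, Real.cos_pi_div_four]
        have hsn : Real.sin (s * (Real.pi / 4)) = s * (√2 / 2) := by
          rcases hs with rfl | rfl
          · rw [one_mul, one_mul, Real.sin_pi_div_four]
          · rw [neg_one_mul, Real.sin_neg, Real.sin_pi_div_four]; ring
        rw [Complex.exp_mul_I, ← Complex.ofReal_cos, ← Complex.ofReal_sin, hc, hsn, hρδ]
        have ss' : ((√2 : ℝ) : ℂ) ^ 2 = 2 := by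
          rw [← Complex.ofReal_pow, ss]; simp
        push_cast
        linear_combination ((δ : ℂ) / 2 + s * δ / 2 * I) * ss'
      have h1 := hexp 1 (Or.inl rfl)
      have h2 := hexp (-1) (Or.inr rfl)
      simp only [one_mul, neg_one_mul] at h1 h2
      have g1 : (c + ρ * u * Complex.exp (((Real.pi / 4 : ℝ) : ℂ) * I)) =
          c + u * ((δ : ℝ) + (δ : ℝ) * I) := by
        linear_combination u * h1
      have g2 : (c + ρ * u * Complex.exp (((-(Real.pi / 4) : ℝ) : ℂ) * I)) =
          c + u * ((δ : ℝ) + ((-δ : ℝ) : ℂ) * I) := by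
        linear_combination u * h2
      rw [g1, g2]
    · intro y
      have h1 : HasDerivAt (fun y : ℝ => (y : ℂ)) 1 y := Complex.ofRealCLM.hasDerivAt
      have h2 := (((h1.mul_const I).const_add (δ : ℂ)).const_mul u).const_add c
      simpa using h2
    · intro y hy
      rw [uIcc_of_le (by linarith)] at hy
      rw [Metric.mem_ball, dist_eq_norm]
      have h1 : c + u * ((δ : ℝ) + y * I) - (c + ρ * u) =
          u * (((δ - ρ : ℝ) : ℂ) + y * I) := by push_cast; ring
      rw [h1, norm_mul, hu, one_mul]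
      have h2 : ‖((δ - ρ : ℝ) : ℂ) + y * I‖ ^ 2 = (δ - ρ) ^ 2 + y ^ 2 := by
        rw [← Complex.normSq_eq_norm_sq, Complex.normSq_add_mul_I]
      have h3 : y ^ 2 ≤ δ ^ 2 := by nlinarith [hy.1, hy.2]
      have h4 : (1.4 : ℝ) < √2 := by
        apply Real.lt_sqrt_of_sq_lt; norm_num
      have h5 : ‖((δ - ρ : ℝ) : ℂ) + y * I‖ ^ 2 < ρ ^ 2 := by
        rw [h2]
        have : (δ - ρ) ^ 2 + δ ^ 2 < ρ ^ 2 := by
          rw [hρδ]
          nlinarith [mul_pos hδ0 hδ0]
        linarith
      exact lt_of_pow_lt_pow_left₀ 2 hρ.le h5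
  · intro θ
    have h1 : HasDerivAt (fun y : ℝ => (y : ℂ)) 1 θ := Complex.ofRealCLM.hasDerivAt
    have h2 := (((h1.mul_const I).cexp).const_mul ((ρ : ℂ) * u)).const_add c
    simpa using h2
  · intro θ hθ
    have hpi := Real.pi_pos
    rw [uIcc_of_le (by linarith)] at hθ
    rw [Metric.mem_ball, dist_eq_norm]
    have h1 : c + ρ * u * Complex.exp (θ * I) - (c + ρ * u) =
        ρ * u * (Complex.exp (θ * I) - 1) := by ring
    rw [h1, norm_mul, norm_mul, hu, mul_one, Complex.norm_real, Real.norm_of_nonneg hρ.le]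
    have := norm_exp_sub (abs_le.mpr hθ)
    nlinarith

/-- the circle integral equals the integral over the inscribed square -/
lemma square {f : ℂ → ℂ} {c : ℂ} {ρ : ℝ} (hρ : 0 < ρ)
    (hd : DifferentiableOn ℂ f (Metric.ball c (2 * ρ) \ {c})) :
    (∮ z in C(c, ρ), f z) =
      I * (∫ y in (-(ρ / √2))..(ρ / √2), f (c + (ρ / √2 : ℝ) + y * I)) -
      (∫ x in (-(ρ / √2))..(ρ / √2), f (c + x + (ρ / √2 : ℝ) * I)) -
      I * (∫ y in (-(ρ / √2))..(ρ / √2), f (c - (ρ / √2 : ℝ) + y * I)) +
      ∫ x in (-(ρ / √2))..(ρ / √2), f (c + x - (ρ / √2 : ℝ) * I) := by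
  set δ : ℝ := ρ / √2 with hδ
  set g : ℝ → ℂ := fun θ => f (c + ρ * Complex.exp (θ * I)) * (ρ * (Complex.exp (θ * I) * I))
    with hg
  have hcirc : (∮ z in C(c, ρ), f z) = ∫ θ in (0 : ℝ)..2 * Real.pi, g θ := by
    rw [circleIntegral]
    apply intervalIntegral.integral_congr
    intro θ _
    simp only [hg, deriv_circleMap, circleMap, smul_eq_mul]
    ring
  have hper : Function.Periodic g (2 * Real.pi) := by
    intro θ
    have : Complex.exp (((θ + 2 * Real.pi : ℝ) : ℂ) * I) = Complex.exp (θ * I) := by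
      have h := Complex.exp_periodic (θ * I : ℂ)
      rw [← h]
      congr 1
      push_cast
      ring
    simp only [hg, this]
  have hgc : Continuous g := by
    have h1 : ContinuousOn f (Metric.ball c (2 * ρ) \ {c}) := hd.continuousOn
    have h2 : Continuous fun θ : ℝ => f (c + ρ * Complex.exp (θ * I)) := by
      apply h1.comp_continuous (by fun_prop)
      intro θ
      have hn : ‖(ρ : ℂ) * Complex.exp (θ * I)‖ = ρ := by
        rw [norm_mul, Complex.norm_exp_ofReal_mul_I, mul_one, Complex.norm_real,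
          Real.norm_of_nonneg hρ.le]
      constructor
      · rw [Metric.mem_ball, dist_eq_norm]
        simp only [add_sub_cancel_left]
        rw [hn]; linarith
      · intro h
        rw [mem_singleton_iff] at h
        have h3 : (ρ : ℂ) * Complex.exp (θ * I) = 0 := by linear_combination h
        rw [h3, norm_zero] at hn
        linarith
    exact h2.mul (by fun_prop)
  have hint : ∀ a b : ℝ, IntervalIntegrable g volume a b := fun a b => hgc.intervalIntegrable a b
  have hshift : ∫ θ in (0 : ℝ)..2 * Real.pi, g θ =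
      ∫ θ in (-(Real.pi / 4))..(-(Real.pi / 4) + 2 * Real.pi), g θ := by
    have := hper.intervalIntegral_add_eq 0 (-(Real.pi / 4))
    rwa [zero_add] at this
  -- the four arcs
  have harc : ∀ (k : ℝ) (u : ℂ), Complex.exp (k * I) = u → ‖u‖ = 1 →
      ∫ θ in (-(Real.pi / 4) + k)..(Real.pi / 4 + k), g θ =
      ∫ y in (-δ)..δ, f (c + u * ((δ : ℝ) + y * I)) * (u * I) := by
    intro k u hk hu
    rw [← quarter hρ hd u hu, ← intervalIntegral.integral_comp_add_right]
    apply intervalIntegral.integral_congr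
    intro θ _
    have h1 : Complex.exp (((θ + k : ℝ) : ℂ) * I) = u * Complex.exp (θ * I) := by
      rw [← hk, ← Complex.exp_add]; congr 1; push_cast; ring
    simp only [hg, h1]
    ring_nf
  have a0 := harc 0 1 (by simp) (by simp)
  have a1 := harc (Real.pi / 2) I (by push_cast; exact Complex.exp_pi_div_two_mul_I) (by simp)
  have a2 := harc Real.pi (-1) Complex.exp_pi_mul_I (by simp)
  have a3 := harc (3 * Real.pi / 2) (-I) (by
    have : (((3 * Real.pi / 2 : ℝ)) : ℂ) * I = Real.pi * I + Real.pi / 2 * I := by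
      push_cast; ring
    rw [this, Complex.exp_add, Complex.exp_pi_mul_I, Complex.exp_pi_div_two_mul_I]
    ring) (by simp)
  have split : ∫ θ in (-(Real.pi / 4))..(-(Real.pi / 4) + 2 * Real.pi), g θ =
      (∫ θ in (-(Real.pi / 4) + 0)..(Real.pi / 4 + 0), g θ) +
      (∫ θ in (-(Real.pi / 4) + Real.pi / 2)..(Real.pi / 4 + Real.pi / 2), g θ) +
      (∫ θ in (-(Real.pi / 4) + Real.pi)..(Real.pi / 4 + Real.pi), g θ) +
      (∫ θ in (-(Real.pi / 4) + 3 * Real.pi / 2)..(Real.pi / 4 + 3 * Real.pi / 2), g θ) := by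
    have e1 : -(Real.pi / 4) + Real.pi / 2 = Real.pi / 4 + 0 := by ring
    have e2 : -(Real.pi / 4) + Real.pi = Real.pi / 4 + Real.pi / 2 := by ring
    have e3 : -(Real.pi / 4) + 3 * Real.pi / 2 = Real.pi / 4 + Real.pi := by ring
    have e4 : -(Real.pi / 4) + 2 * Real.pi = Real.pi / 4 + 3 * Real.pi / 2 := by ring
    have e0 : -(Real.pi / 4) + 0 = -(Real.pi / 4) := by ring
    rw [e1, e2, e3, e4, e0, intervalIntegral.integral_add_adjacent_intervals (hint _ _) (hint _ _),
      intervalIntegral.integral_add_adjacent_intervals (hint _ _) (hint _ _),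
      intervalIntegral.integral_add_adjacent_intervals (hint _ _) (hint _ _)]
  rw [hcirc, hshift, split, a0, a1, a2, a3]
  have b0 : ∫ y in (-δ)..δ, f (c + 1 * ((δ : ℝ) + y * I)) * (1 * I) =
      I * (∫ y in (-δ)..δ, f (c + (δ : ℝ) + y * I)) := by
    rw [← intervalIntegral.integral_const_mul]
    apply intervalIntegral.integral_congr
    intro y _
    simp only
    rw [one_mul, one_mul, mul_comm, add_assoc]
  have b1 : ∫ y in (-δ)..δ, f (c + I * ((δ : ℝ) + y * I)) * (I * I) =
      -(∫ x in (-δ)..δ, f (c + x + (δ : ℝ) * I)) := by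
    have h := intervalIntegral.integral_comp_neg (a := -δ) (b := δ)
      (fun x : ℝ => f (c + x + (δ : ℝ) * I))
    rw [neg_neg] at h
    rw [← h, ← intervalIntegral.integral_neg]
    apply intervalIntegral.integral_congr
    intro y _
    simp only
    have : c + I * ((δ : ℝ) + y * I) = c + ((-y : ℝ) : ℂ) + (δ : ℝ) * I := by
      push_cast
      linear_combination (y : ℂ) * Complex.I_mul_I
    rw [this, Complex.I_mul_I]
    ring
  have b2 : ∫ y in (-δ)..δ, f (c + -1 * ((δ : ℝ) + y * I)) * (-1 * I) =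
      -(I * (∫ y in (-δ)..δ, f (c - (δ : ℝ) + y * I))) := by
    have h := intervalIntegral.integral_comp_neg (a := -δ) (b := δ)
      (fun y : ℝ => f (c - (δ : ℝ) + y * I))
    rw [neg_neg] at h
    rw [← h, ← intervalIntegral.integral_const_mul, ← intervalIntegral.integral_neg]
    apply intervalIntegral.integral_congr
    intro y _
    simp only
    have : c + -1 * ((δ : ℝ) + y * I) = c - (δ : ℝ) + ((-y : ℝ) : ℂ) * I := by
      push_cast
      ring
    rw [this]
    ring
  have b3 : ∫ y in (-δ)..δ, f (c + -I * ((δ : ℝ) + y * I)) * (-I * I) =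
      ∫ x in (-δ)..δ, f (c + x - (δ : ℝ) * I) := by
    apply intervalIntegral.integral_congr
    intro y _
    simp only
    have : c + -I * ((δ : ℝ) + y * I) = c + y - (δ : ℝ) * I := by
      linear_combination (-(y : ℂ)) * Complex.I_mul_I
    rw [this, neg_mul, Complex.I_mul_I]
    ring
  rw [b0, b1, b2, b3]
  ring

lemma rect {f : ℂ → ℂ} {σ₁ δ T : ℝ} (hδ : 0 < δ) (h1 : 1 / 2 < 1 - δ) (h2 : 1 + δ < σ₁)
    (hT : δ < T)
    (hd : ∀ s : ℂ, 1 / 2 ≤ s.re → s.re ≤ σ₁ → s ≠ 1 → DifferentiableAt ℂ f s) :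
    (∫ x in (1 / 2 : ℝ)..σ₁, f (x + (-T : ℝ) * I)) - (∫ x in (1 / 2 : ℝ)..σ₁, f (x + (T : ℝ) * I)) +
      I * (∫ y in (-T)..T, f ((σ₁ : ℝ) + y * I)) -
      I * (∫ y in (-T)..T, f ((1 / 2 : ℝ) + y * I)) =
    I * (∫ y in (-δ)..δ, f (1 + (δ : ℝ) + y * I)) -
      (∫ x in (-δ)..δ, f (1 + x + (δ : ℝ) * I)) -
      I * (∫ y in (-δ)..δ, f (1 - (δ : ℝ) + y * I)) +
      ∫ x in (-δ)..δ, f (1 + x - (δ : ℝ) * I) := by
  have hne : ∀ s : ℂ, (s.re ≠ 1 ∨ s.im ≠ 0) → s ≠ 1 := by
    rintro s hs rfl
    rcases hs with h | h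
    · exact h (by simp)
    · exact h (by simp)
  have hrect : ∀ z w : ℂ, z.re ≤ w.re → z.im ≤ w.im → 1 / 2 ≤ z.re → w.re ≤ σ₁ →
      (w.re < 1 ∨ 1 < z.re ∨ w.im < 0 ∨ 0 < z.im) →
      (∫ x : ℝ in z.re..w.re, f (x + z.im * I)) - (∫ x : ℝ in z.re..w.re, f (x + w.im * I)) +
      I • (∫ y : ℝ in z.im..w.im, f (re w + y * I)) -
      I • (∫ y : ℝ in z.im..w.im, f (re z + y * I)) = 0 := by
    intro z w hzw hzw' hz hw hcase
    apply integral_boundary_rect_eq_zero_of_differentiableOn
    intro s hs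
    rw [Complex.mem_reProdIm, uIcc_of_le hzw, uIcc_of_le hzw'] at hs
    obtain ⟨⟨a1, a2⟩, a3, a4⟩ := hs
    apply (hd s (by linarith) (by linarith) _).differentiableWithinAt
    apply hne
    rcases hcase with h | h | h | h
    · left; exact ne_of_lt (by linarith)
    · left; exact ne_of_gt (by linarith)
    · right; exact ne_of_lt (by linarith)
    · right; exact ne_of_gt (by linarith)
  have R1 := hrect ⟨1 / 2, -T⟩ ⟨1 - δ, T⟩ (by simp; linarith) (by simp; linarith) (by simp)
    (by simp; linarith) (Or.inl (by simp; linarith))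
  have R2 := hrect ⟨1 + δ, -T⟩ ⟨σ₁, T⟩ (by simp; linarith) (by simp; linarith)
    (by simp; linarith) (by simp) (Or.inr (Or.inl (by simp; linarith)))
  have R3 := hrect ⟨1 - δ, δ⟩ ⟨1 + δ, T⟩ (by simp; linarith) (by simp; linarith)
    (by simp; linarith) (by simp; linarith) (Or.inr (Or.inr (Or.inr (by simp; linarith))))
  have R4 := hrect ⟨1 - δ, -T⟩ ⟨1 + δ, -δ⟩ (by simp; linarith) (by simp; linarith)
    (by simp; linarith) (by simp; linarith) (Or.inr (Or.inr (Or.inl (by simp; linarith))))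
  simp only [smul_eq_mul] at R1 R2 R3 R4
  have hor : ∀ (τ a b : ℝ), τ ≠ 0 → 1 / 2 ≤ a → a ≤ b → b ≤ σ₁ →
      IntervalIntegrable (fun x : ℝ => f (x + (τ : ℝ) * I)) volume a b := by
    intro τ a b hτ ha hab hb
    apply ContinuousOn.intervalIntegrable
    rw [uIcc_of_le hab]
    intro x hx
    apply ContinuousAt.continuousWithinAt
    apply ContinuousAt.comp (f := fun x : ℝ => (x + (τ : ℝ) * I : ℂ)) (g := f)
    · apply (hd _ _ _ _).continuousAt
      · simp; linarith [hx.1]
      · simp; linarith [hx.2]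
      · apply hne; right; simpa using hτ
    · fun_prop
  have ver : ∀ (σ a b : ℝ), σ ≠ 1 → 1 / 2 ≤ σ → σ ≤ σ₁ →
      IntervalIntegrable (fun y : ℝ => f ((σ : ℝ) + y * I)) volume a b := by
    intro σ a b hσ ha hb
    apply Continuous.intervalIntegrable
    rw [continuous_iff_continuousAt]
    intro y
    apply ContinuousAt.comp (f := fun y : ℝ => ((σ : ℝ) + y * I : ℂ)) (g := f)
    · apply (hd _ _ _ _).continuousAt
      · simpa using ha
      · simpa using hb
      · apply hne; left; simpa using hσ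
    · fun_prop
  have hT0 : T ≠ 0 := ne_of_gt (by linarith)
  have hor' : ∀ τ : ℝ, τ ≠ 0 → ∫ x in (1 / 2 : ℝ)..σ₁, f (x + (τ : ℝ) * I) =
      (∫ x in (1 / 2 : ℝ)..(1 - δ), f (x + (τ : ℝ) * I)) +
      (∫ x in (1 - δ)..(1 + δ), f (x + (τ : ℝ) * I)) +
      (∫ x in (1 + δ)..σ₁, f (x + (τ : ℝ) * I)) := by
    intro τ hτ
    rw [intervalIntegral.integral_add_adjacent_intervals
      (hor τ _ _ hτ (by linarith) (by linarith) (by linarith))
      (hor τ _ _ hτ (by linarith) (by linarith) (by linarith)),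
      intervalIntegral.integral_add_adjacent_intervals
      (hor τ _ _ hτ (by linarith) (by linarith) (by linarith))
      (hor τ _ _ hτ (by linarith) (by linarith) (by linarith))]
  have ver' : ∀ σ : ℝ, σ ≠ 1 → 1 / 2 ≤ σ → σ ≤ σ₁ → ∫ y in (-T)..T, f ((σ : ℝ) + y * I) =
      (∫ y in (-T)..(-δ), f ((σ : ℝ) + y * I)) +
      (∫ y in (-δ)..δ, f ((σ : ℝ) + y * I)) +
      (∫ y in (δ)..T, f ((σ : ℝ) + y * I)) := by
    intro σ h3 h4 h5
    rw [intervalIntegral.integral_add_adjacent_intervals (ver σ _ _ h3 h4 h5)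
      (ver σ _ _ h3 h4 h5),
      intervalIntegral.integral_add_adjacent_intervals (ver σ _ _ h3 h4 h5)
      (ver σ _ _ h3 h4 h5)]
  have V1 := ver' (1 - δ) (ne_of_lt (by linarith)) (by linarith)
    (by linarith)
  have V2 := ver' (1 + δ) (ne_of_gt (by linarith)) (by linarith)
    (by linarith)
  have H1 := hor' T hT0
  have H2 := hor' (-T) (by simpa using hT0)
  have c1 : ∫ x in (-δ)..δ, f (1 + x + (δ : ℝ) * I) = ∫ x in (1 - δ)..(1 + δ),
      f (x + (δ : ℝ) * I) := by
    have h := intervalIntegral.integral_comp_add_left (a := -δ) (b := δ)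
      (fun x : ℝ => f (x + (δ : ℝ) * I)) 1
    rw [← sub_eq_add_neg] at h
    rw [← h]
    apply intervalIntegral.integral_congr
    intro x _
    simp
  have c2 : ∫ x in (-δ)..δ, f (1 + x - (δ : ℝ) * I) = ∫ x in (1 - δ)..(1 + δ),
      f (x + (-δ : ℝ) * I) := by
    have h := intervalIntegral.integral_comp_add_left (a := -δ) (b := δ)
      (fun x : ℝ => f (x + (-δ : ℝ) * I)) 1
    rw [← sub_eq_add_neg] at h
    rw [← h]
    apply intervalIntegral.integral_congr
    intro x _
    simp only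
    congr 1
    push_cast
    ring
  have c3 : ∫ y in (-δ)..δ, f (1 + (δ : ℝ) + y * I) = ∫ y in (-δ)..δ,
      f (((1 + δ : ℝ) : ℂ) + y * I) := by
    apply intervalIntegral.integral_congr
    intro x _
    simp
  have c4 : ∫ y in (-δ)..δ, f (1 - (δ : ℝ) + y * I) = ∫ y in (-δ)..δ,
      f (((1 - δ : ℝ) : ℂ) + y * I) := by
    apply intervalIntegral.integral_congr
    intro x _
    simp
  rw [c1, c2, c3, c4, H1, H2]
  linear_combination R1 + R2 + R3 + R4 - I * V1 + I * V2

end ECS_

theorem pCS : tCS := by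
  intro f σ₁ r C hσ hr hr2 hrσ hd hb
  have s2 : 0 < √2 := by positivity
  have s1 : 1 < √2 := by
    apply Real.lt_sqrt_of_sq_lt; norm_num
  set ρ : ℝ := r / 2 with hρ
  have hρ0 : 0 < ρ := by positivity
  set δ : ℝ := ρ / √2 with hδ
  have hδ0 : 0 < δ := by positivity
  have hδρ : δ < ρ := by
    rw [hδ, div_lt_iff₀ s2]
    nlinarith
  have hC0 : 0 ≤ C := by
    have h1 := hb (1 + I) (by norm_num) (by simp; linarith) (by simp)
    have h2 := (norm_nonneg _).trans h1
    simp at h2
    by_contra hneg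
    push Not at hneg
    have : C / (1 + 1) < 0 := div_neg_of_neg_of_pos hneg (by norm_num)
    linarith
  -- integrability on vertical lines
  have hline : ∀ σ : ℝ, σ ≠ 1 → 1 / 2 ≤ σ → σ ≤ σ₁ →
      Integrable (fun t : ℝ => f ((σ : ℝ) + t * I)) := by
    intro σ h1 h2 h3
    have hc : Continuous fun t : ℝ => f ((σ : ℝ) + t * I) := by
      rw [continuous_iff_continuousAt]
      intro y
      apply ContinuousAt.comp (f := fun y : ℝ => ((σ : ℝ) + y * I : ℂ)) (g := f)
      · apply (hd _ _ _ _).continuousAt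
        · simpa using h2
        · simpa using h3
        · intro h
          apply h1
          have := congrArg Complex.re h
          simpa using this
      · fun_prop
    obtain ⟨M, hM⟩ := (isCompact_Icc (a := (-1 : ℝ)) (b := 1)).exists_bound_of_continuousOn
      hc.continuousOn
    have hM0 : 0 ≤ M := (norm_nonneg _).trans (hM 0 (by constructor <;> norm_num))
    apply Integrable.mono' (integrable_inv_one_add_sq.const_mul (C + 2 * M)) hc.aestronglyMeasurable
    filter_upwards with t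
    have ht : 0 < 1 + t ^ 2 := by positivity
    rw [← div_eq_mul_inv, le_div_iff₀ ht]
    rcases le_or_gt 1 |t| with h | h
    · have h4 := hb ((σ : ℝ) + t * I) (by simpa using h2) (by simpa using h3) (by simpa using h)
      have h5 : ((σ : ℝ) + t * I : ℂ).im = t := by simp
      rw [h5, le_div_iff₀ ht] at h4
      linarith
    · have h4 := hM t (abs_le.mp h.le)
      have h5 : t ^ 2 ≤ 1 := by
        rw [← sq_abs]; nlinarith [abs_nonneg t]
      nlinarith [norm_nonneg (f ((σ : ℝ) + t * I))]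
  have I1 := hline σ₁ (ne_of_gt hσ) (by linarith) le_rfl
  have I2' := hline (1 / 2) (by norm_num) le_rfl (by linarith)
  have I2 : Integrable (fun t : ℝ => f (1 / 2 + t * I)) := by
    have : ((1 / 2 : ℝ) : ℂ) = 1 / 2 := by push_cast; rfl
    rwa [this] at I2'
  refine ⟨I1, I2, ?_⟩
  -- circle of radius r and circle of radius ρ
  have hcirc : (∮ s in C(1, r), f s) = ∮ s in C(1, ρ), f s := by
    apply circleIntegral_eq_of_differentiable_on_annulus_off_countable hρ0 (by rw [hρ]; linarith)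
      countable_empty
    · intro s hs
      apply ContinuousAt.continuousWithinAt
      have h1 : ‖s - 1‖ ≤ r := by
        have := hs.1
        rwa [Metric.mem_closedBall, dist_eq_norm] at this
      have h2 := (abs_le.mp ((Complex.abs_re_le_norm (s - 1)).trans h1))
      rw [Complex.sub_re, Complex.one_re] at h2
      apply (hd s (by linarith [h2.1]) (by linarith [h2.2]) _).continuousAt
      rintro rfl
      apply hs.2
      simpa using hρ0
    · intro s hs
      have h1 : ‖s - 1‖ < r := by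
        have := hs.1.1
        rwa [Metric.mem_ball, dist_eq_norm] at this
      have h2 := (abs_le.mp ((Complex.abs_re_le_norm (s - 1)).trans h1.le))
      rw [Complex.sub_re, Complex.one_re] at h2
      apply hd s (by linarith [h2.1]) (by linarith [h2.2])
      rintro rfl
      apply hs.1.2
      simpa using hρ0.le
  have hsq := ECS_.square (f := f) (c := 1) hρ0 (by
    intro s hs
    have h1 : ‖s - 1‖ < r := by
      have := hs.1
      rw [Metric.mem_ball, dist_eq_norm] at this
      rw [hρ] at this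
      linarith
    have h2 := (abs_le.mp ((Complex.abs_re_le_norm (s - 1)).trans h1.le))
    rw [Complex.sub_re, Complex.one_re] at h2
    apply (hd s (by linarith [h2.1]) (by linarith [h2.2]) _).differentiableWithinAt
    intro h
    exact hs.2 h)
  rw [← hδ] at hsq
  have hrect : ∀ T : ℝ, δ < T →
      (∫ x in (1 / 2 : ℝ)..σ₁, f (x + (-T : ℝ) * I)) -
      (∫ x in (1 / 2 : ℝ)..σ₁, f (x + (T : ℝ) * I)) +
      I * (∫ y in (-T)..T, f ((σ₁ : ℝ) + y * I)) -
      I * (∫ y in (-T)..T, f ((1 / 2 : ℝ) + y * I)) = ∮ s in C(1, r), f s := by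
    intro T hT
    rw [hcirc, hsq]
    exact ECS_.rect (f := f) (σ₁ := σ₁) hδ0 (by linarith) (by linarith) hT hd
  have hhor : ∀ e : ℝ, (e = 1 ∨ e = -1) →
      Tendsto (fun T : ℝ => ∫ x in (1 / 2 : ℝ)..σ₁, f (x + (e * T : ℝ) * I)) atTop (𝓝 0) := by
    intro e he
    have he2 : e ^ 2 = 1 := by rcases he with rfl | rfl <;> norm_num
    have heabs : |e| = 1 := by rcases he with rfl | rfl <;> norm_num
    apply squeeze_zero_norm' (a := fun T : ℝ => C / (1 + T ^ 2) * |σ₁ - 1 / 2|)
    · filter_upwards [eventually_ge_atTop (1 : ℝ)] with T hT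
      apply intervalIntegral.norm_integral_le_of_norm_le_const
      intro x hx
      rw [uIoc_of_le (by linarith)] at hx
      have h4 := hb (x + (e * T : ℝ) * I) (by simp; linarith [hx.1]) (by simp; linarith [hx.2])
        (by simp only [add_im, ofReal_im, mul_im, ofReal_re, I_im, mul_one, I_re, mul_zero,
              add_zero, zero_add]
            rw [abs_mul, heabs, one_mul]
            exact hT.trans (le_abs_self _))
      have h5 : (x + (e * T : ℝ) * I : ℂ).im = e * T := by simp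
      rwa [h5, mul_pow, he2, one_mul] at h4
    · have h6 : Tendsto (fun T : ℝ => C / (1 + T ^ 2)) atTop (𝓝 0) := by
        apply Tendsto.div_atTop tendsto_const_nhds
        apply tendsto_atTop_add_const_left
        exact tendsto_pow_atTop (by norm_num)
      simpa using h6.mul_const (|σ₁ - 1 / 2|)
  have hv1 := intervalIntegral_tendsto_integral I1 tendsto_neg_atTop_atBot tendsto_id
  have hv2 := intervalIntegral_tendsto_integral I2' tendsto_neg_atTop_atBot tendsto_id
  have hh1 := hhor (-1) (Or.inr rfl)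
  have hh2 := hhor 1 (Or.inl rfl)
  simp only [neg_one_mul, one_mul] at hh1 hh2
  have hlim := ((hh1.sub hh2).add (hv1.const_mul I)).sub (hv2.const_mul I)
  have hlim2 : Tendsto (fun _ : ℝ => ∮ s in C(1, r), f s) atTop (𝓝 (∮ s in C(1, r), f s)) :=
    tendsto_const_nhds
  have heq := tendsto_nhds_unique (hlim.congr' (by
    filter_upwards [eventually_gt_atTop δ] with T hT
    exact hrect T hT)) hlim2
  have hhalf : ((1 / 2 : ℝ) : ℂ) = 1 / 2 := by push_cast; rfl
  rw [hhalf] at heq
  rw [← heq]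
  have hpi : (Real.pi : ℂ) ≠ 0 := by exact_mod_cast Real.pi_pos.ne'
  push_cast
  field_simp
  ring_nf

end FMZ
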