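import Pool.Agent.FMZ.TE

/-!
# FMZ-E17: the constant term identity
-/

open Complex MeasureTheory Set Filter Topology

namespace FMZ

namespace ECT_

lemma exp_le (x : ℝ) : Real.exp (-|x|) ≤ 2 / (1 + x ^ 2) := by
  have h := Real.quadratic_le_exp_of_nonneg (abs_nonneg x)
  rw [sq_abs] at h
  rw [le_div_iff₀ (by positivity), Real.exp_neg]
  have h1 := abs_nonneg x
  have h2 : (Real.exp |x|)⁻¹ * (1 + x ^ 2) ≤ (Real.exp |x|)⁻¹ * (2 * Real.exp |x|) := by
    refine mul_le_mul_of_nonneg_left ?_ (by positivity)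
    nlinarith
  have h3 : (Real.exp |x|)⁻¹ * (2 * Real.exp |x|) = 2 := by
    field_simp
  linarith

lemma cpow_norm {y : ℝ} (hy : 0 < y) {s : ℂ} (h1 : 1 / 2 ≤ s.re) (h2 : s.re ≤ 2) :
    ‖(y : ℂ) ^ (1 - s)‖ ≤ y ^ (1 / 2 : ℝ) + y ^ (-1 : ℝ) := by
  rw [Complex.norm_cpow_eq_rpow_re_of_pos hy]
  have h3 : (1 - s).re = 1 - s.re := by simp
  rw [h3]
  rcases le_total 1 y with h | h
  · have := Real.rpow_le_rpow_of_exponent_le h (show 1 - s.re ≤ 1 / 2 by linarith)
    have h4 : 0 < y ^ (-1 : ℝ) := by positivity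
    linarith
  · have := Real.rpow_le_rpow_of_exponent_ge hy h (show -1 ≤ 1 - s.re by linarith)
    have h4 : 0 < y ^ (1 / 2 : ℝ) := by positivity
    linarith

/-- the shifted line integral -/
lemma shift (h2 : tABQ) (h3 : tCS) {r : ℝ} (hr : Rad r) {y : ℝ} (hy : 0 < y) :
    Integrable (fun t : ℝ => Aq (1 / 2 + t * I) * (y : ℂ) ^ (1 - (1 / 2 + t * I))) ∧
    (1 / (2 * Real.pi) : ℝ) * ∫ t : ℝ, Aq ((2 : ℝ) + t * I) * (y : ℂ) ^ (1 - ((2 : ℝ) + t * I)) =
    (1 / (2 * Real.pi) : ℝ) * (∫ t : ℝ, Aq (1 / 2 + t * I) * (y : ℂ) ^ (1 - (1 / 2 + t * I))) +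
      (1 / (2 * Real.pi * I)) * ∮ s in C(1, r), Aq s * (y : ℂ) ^ (1 - s) := by
  obtain ⟨C, hC, hb⟩ := h2.1
  have hd := h2.2.2.2.2.1
  have hy' : (y : ℂ) ≠ 0 := by exact_mod_cast hy.ne'
  have key := h3 (fun s => Aq s * (y : ℂ) ^ (1 - s)) 2 r
    (C * 2 * (y ^ (1 / 2 : ℝ) + y ^ (-1 : ℝ))) one_lt_two hr.1 (by linarith [hr.2.1])
    (by linarith [hr.2.1])
    (by
      intro s hs1 _ hs
      refine (hd s hs1 hs).mul ?_
      exact (DifferentiableAt.const_cpow (by fun_prop) (Or.inl hy')))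
    (by
      intro s hs1 hs2 hs3
      rw [norm_mul]
      have a1 := hb s hs1 (by linarith) hs3
      have a2 := cpow_norm hy hs1 hs2
      have a3 := exp_le s.im
      calc ‖Aq s‖ * ‖(y : ℂ) ^ (1 - s)‖
          ≤ (C * Real.exp (-|s.im|)) * (y ^ (1 / 2 : ℝ) + y ^ (-1 : ℝ)) := by gcongr
        _ ≤ (C * (2 / (1 + s.im ^ 2))) * (y ^ (1 / 2 : ℝ) + y ^ (-1 : ℝ)) := by gcongr
        _ = _ := by ring)
  exact ⟨key.2.1, key.2.2⟩

lemma sphere_ne {r : ℝ} (hr : Rad r) {s : ℂ} (hs : s ∈ Metric.sphere (1 : ℂ) r) :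
    s ≠ 0 ∧ s ≠ 1 ∧ s ≠ 1 / 2 ∧ 1 / 2 ≤ s.re ∧ X1 (2 * s - 1) ≠ 0 := by
  rw [mem_sphere_iff_norm] at hs
  have h0 := hr.1
  have h1 := hr.2.1
  have hre : 1 / 2 < s.re := by
    have := Complex.abs_re_le_norm (s - 1)
    rw [hs, sub_re, one_re] at this
    have := (abs_le.mp this).1
    linarith
  refine ⟨?_, ?_, ?_, hre.le, ?_⟩
  · rintro rfl; simp at hre; linarith
  · rintro rfl; simp at hs; linarith
  · rintro rfl; norm_num at hre
  · apply hr.2.2
    have : (2 * s - 1 - 1 : ℂ) = 2 * (s - 1) := by ring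
    rw [this, norm_mul, hs]; simp

end ECT_

open ECT_

theorem pCT (h1 : tX) (h2 : tABQ) (h3 : tCS) (h4 : tMSQ) (h5 : tASH) : tCT := by
  intro r hr y hy
  have hy' : (y : ℂ) ≠ 0 := by exact_mod_cast hy.ne'
  obtain ⟨hX, -, -, -, -, -, hXp, hXn, -, -, -, hAB, hBA⟩ := h1
  obtain ⟨hint, hsh⟩ := shift h2 h3 hr hy
  have hash := (h5.2 2 one_lt_two (by norm_num)).2 y hy
  have hmsq := h4 r hr y hy
  -- circle
  have hcirc : (∮ s in C(1, r),
      bq s * (xi (2 * s) * (y : ℂ) ^ s + xi (2 * s - 1) * (y : ℂ) ^ (1 - s))) =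
      (∮ s in C(1, r), Bq s * (y : ℂ) ^ s) + ∮ s in C(1, r), Aq s * (y : ℂ) ^ (1 - s) := by
    rw [← circleIntegral.integral_add]
    · refine circleIntegral.integral_congr hr.1.le fun s hs => ?_
      obtain ⟨a1, a2, a3, a4, a5⟩ := sphere_ne hr hs
      obtain ⟨e1, e2⟩ := hAB s a1 a2 a3
      have a6 : 1 ≤ (2 * s).re := by
        have : (2 * s).re = 2 * s.re := by simp
        rw [this]; linarith
      rw [e1 a5, e2 (hXp _ a6)]; ring
    · refine ContinuousOn.circleIntegrable hr.1.le fun s hs => ?_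
      obtain ⟨a1, a2, a3, -, a5⟩ := sphere_ne hr hs
      refine ContinuousAt.continuousWithinAt (ContinuousAt.mul ?_ ?_)
      · unfold Bq
        have c1 : Continuous X1 := hX.continuous
        refine ContinuousAt.div (by fun_prop) (by fun_prop) ?_
        have : s - 1 ≠ 0 := sub_ne_zero.mpr a2
        positivity
      · exact (DifferentiableAt.const_cpow (by fun_prop) (Or.inl hy')).continuousAt
    · refine ContinuousOn.circleIntegrable hr.1.le fun s hs => ?_
      obtain ⟨a1, a2, a3, a4, -⟩ := sphere_ne hr hs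
      refine ContinuousAt.continuousWithinAt (ContinuousAt.mul ?_ ?_)
      · exact (h2.2.2.2.2.1 s a4 a2).continuousAt
      · exact (DifferentiableAt.const_cpow (by fun_prop) (Or.inl hy')).continuousAt
  -- line
  have hline : (∫ t : ℝ, bq (1 / 2 + t * I) *
      (xi (2 * (1 / 2 + t * I)) * (y : ℂ) ^ (1 / 2 + t * I) +
       xi (2 * (1 / 2 + t * I) - 1) * (y : ℂ) ^ (1 - (1 / 2 + t * I)))) =
      2 * ∫ t : ℝ, Aq (1 / 2 + t * I) * (y : ℂ) ^ (1 - (1 / 2 + t * I)) := by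
    have e1 : (∫ t : ℝ, bq (1 / 2 + t * I) *
      (xi (2 * (1 / 2 + t * I)) * (y : ℂ) ^ (1 / 2 + t * I) +
       xi (2 * (1 / 2 + t * I) - 1) * (y : ℂ) ^ (1 - (1 / 2 + t * I)))) =
      ∫ t : ℝ, ((fun t : ℝ => Aq (1 / 2 + t * I) * (y : ℂ) ^ (1 - (1 / 2 + t * I))) (-t) +
        Aq (1 / 2 + t * I) * (y : ℂ) ^ (1 - (1 / 2 + t * I))) := by
      apply integral_congr_ae
      have : ∀ᵐ t : ℝ, t ≠ 0 := by
        rw [ae_iff]; simp
      filter_upwards [this] with t ht
      have ht' : (t : ℂ) ≠ 0 := by exact_mod_cast ht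
      have a1 : (1 / 2 + t * I : ℂ) ≠ 0 := by
        intro hc
        have := congrArg Complex.re hc
        simp at this
      have a2 : (1 / 2 + t * I : ℂ) ≠ 1 := by
        intro hc
        have := congrArg Complex.im hc
        simp at this
        exact ht this
      have a3 : (1 / 2 + t * I : ℂ) ≠ 1 / 2 := by
        intro hc
        have := congrArg Complex.im hc
        simp at this
        exact ht this
      obtain ⟨e1, e2⟩ := hAB _ a1 a2 a3
      have e3 : Bq (1 / 2 + t * I) = Aq (1 / 2 + ((-t : ℝ) : ℂ) * I) := by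
        have := hBA (1 / 2 + ((-t : ℝ) : ℂ) * I)
          (by
            intro hc
            have := congrArg Complex.re hc
            simp at this)
          (by
            intro hc
            have := congrArg Complex.im hc
            simp at this
            exact ht this)
        rw [← this]
        congr 1
        push_cast; ring
      have e4 : (1 - (1 / 2 + ((-t : ℝ) : ℂ) * I) : ℂ) = 1 / 2 + t * I := by
        push_cast; ring
      rw [e4, ← e3, mul_add, ← mul_assoc, ← mul_assoc, ← e1 (hXn _ (by simp)),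
        ← e2 (hXp _ (by simp))]
    rw [e1, integral_add (hint.comp_neg) hint,
      integral_neg_eq_self (fun t : ℝ => Aq (1 / 2 + t * I) * (y : ℂ) ^ (1 - (1 / 2 + t * I)))]
    ring
  rw [hcirc, hline, hash, hsh, mul_add, hmsq]
  push_cast
  ring

end FMZ
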