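import Pool.Agent.FMZ.TJ

/-!
# FMZ: targets of block E (Eisenstein series, cuspidal part of E², ray integrals)
-/

open Complex MeasureTheory Set Filter Topology

namespace FMZ

/-! ## entire completed zeta and the quotients -/

/-- X(w) = w (w-1) ξ(w), an entire function with X(0) = X(1) = 1 -/
noncomputable def X1 (w : ℂ) : ℂ := 1 + w * (w - 1) * completedRiemannZeta₀ w

/-- b(s) = ξ(s)^4/(ξ(2s-1)ξ(2s)) -/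
noncomputable def bq (s : ℂ) : ℂ :=
  4 * (2 * s - 1) ^ 2 * X1 s ^ 4 / ((s * (s - 1)) ^ 3 * X1 (2 * s - 1) * X1 (2 * s))

/-- A(s) = ξ(s)^4/ξ(2s) -/
noncomputable def Aq (s : ℂ) : ℂ :=
  2 * s * (2 * s - 1) * X1 s ^ 4 / ((s * (s - 1)) ^ 4 * X1 (2 * s))

/-- B(s) = ξ(s)^4/ξ(2s-1) -/
noncomputable def Bq (s : ℂ) : ℂ :=
  2 * (2 * s - 1) * X1 s ^ 4 / (s ^ 4 * (s - 1) ^ 3 * X1 (2 * s - 1))

/-- admissible radii -/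
def Rad (r : ℝ) : Prop := 0 < r ∧ r ≤ 1 / 8 ∧ ∀ w : ℂ, ‖w - 1‖ ≤ 2 * r → X1 w ≠ 0

/-- E10: facts on X, and the quotients -/
def tX : Prop :=
  Differentiable ℂ X1 ∧ (∀ w, X1 (1 - w) = X1 w) ∧ X1 0 = 1 ∧ X1 1 = 1 ∧
  deriv X1 1 = 1 + c0 / 2 ∧
  (∀ w : ℂ, w ≠ 0 → w ≠ 1 → xi w = X1 w / (w * (w - 1))) ∧
  (∀ w : ℂ, 1 ≤ w.re → X1 w ≠ 0) ∧ (∀ w : ℂ, w.re ≤ 0 → X1 w ≠ 0) ∧ (∃ r, Rad r) ∧
  (∀ w : ℂ, w ≠ 0 → w ≠ 1 → 0 ≤ w.re →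
    xi w = (Real.pi : ℂ) ^ (-w / 2) * Gamma (w / 2) * riemannZeta w) ∧
  (∀ s : ℂ, s ≠ 0 → s ≠ 1 → s ≠ 1 / 2 → bf s = bq s) ∧
  (∀ s : ℂ, s ≠ 0 → s ≠ 1 → s ≠ 1 / 2 → (X1 (2 * s - 1) ≠ 0 → Aq s = bq s * xi (2 * s - 1)) ∧
    (X1 (2 * s) ≠ 0 → Bq s = bq s * xi (2 * s))) ∧
  ∀ s : ℂ, s ≠ 0 → s ≠ 1 → Bq (1 - s) = Aq s

/-- E11: bounds of the quotients -/
def tABQ : Prop :=
  (∃ C, 0 < C ∧ ∀ s : ℂ, 1 / 2 ≤ s.re → s.re ≤ 3 → 1 ≤ |s.im| → ‖Aq s‖ ≤ C * Real.exp (-|s.im|)) ∧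
  (∃ C, 0 < C ∧ ∀ t : ℝ, ‖Aq (1 / 2 + t * I)‖ ≤ C * Real.exp (-|t|)) ∧
  (∃ C, 0 < C ∧ ∀ t : ℝ, ‖bq (1 / 2 + t * I)‖ ≤ C * (1 + |t|) ^ 6) ∧
  (∃ C, 0 < C ∧ ∀ t : ℝ, t ≠ 0 → ‖bq (1 / 2 + t * I) * xi (2 * (1 / 2 + t * I))‖ ≤
    C * Real.exp (-|t|)) ∧
  (∀ s : ℂ, 1 / 2 ≤ s.re → s ≠ 1 → DifferentiableAt ℂ Aq s) ∧
  (∀ s : ℂ, s.re = 1 / 2 → ContinuousAt bq s)

/-- E14: shift of the line of integration over the pole at s = 1 -/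
def tCS : Prop := ∀ (f : ℂ → ℂ) (σ₁ r C : ℝ), 1 < σ₁ → 0 < r → r < 1 / 2 → 1 + r < σ₁ →
  (∀ s : ℂ, 1 / 2 ≤ s.re → s.re ≤ σ₁ → s ≠ 1 → DifferentiableAt ℂ f s) →
  (∀ s : ℂ, 1 / 2 ≤ s.re → s.re ≤ σ₁ → 1 ≤ |s.im| → ‖f s‖ ≤ C / (1 + s.im ^ 2)) →
  Integrable (fun t : ℝ => f (σ₁ + t * I)) ∧ Integrable (fun t : ℝ => f (1 / 2 + t * I)) ∧
  (1 / (2 * Real.pi) : ℝ) * ∫ t : ℝ, f (σ₁ + t * I) =
    (1 / (2 * Real.pi) : ℝ) * (∫ t : ℝ, f (1 / 2 + t * I)) +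
      (1 / (2 * Real.pi * I)) * ∮ s in C(1, r), f s

/-- m(y) = √y (log y + c0) -/
noncomputable def mm (y : ℝ) : ℝ := √y * (Real.log y + c0)

/-- E15: the residue -/
def tMSQ : Prop := ∀ r : ℝ, Rad r → ∀ y : ℝ, 0 < y →
  (1 / (2 * Real.pi * I)) * ∮ s in C(1, r), Bq s * (y : ℂ) ^ s = (mm y ^ 2 : ℝ)

/-! ## Bessel functions and the nonconstant terms -/

/-- 2 K_ν(x) = ∫ exp(-x cosh u + ν u) du -/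
noncomputable def KB (ν : ℂ) (x : ℝ) : ℂ :=
  ∫ u : ℝ, Complex.exp (-((x * Real.cosh u : ℝ) : ℂ) + ν * u)

/-- E1: facts on KB -/
def tKB : Prop :=
  (∀ (ν : ℂ) (x : ℝ), 0 < x →
    Integrable (fun u : ℝ => Complex.exp (-((x * Real.cosh u : ℝ) : ℂ) + ν * u))) ∧
  (∀ x : ℝ, 0 < x → Differentiable ℂ (fun ν => KB ν x)) ∧
  ContinuousOn (fun p : ℂ × ℝ => KB p.1 p.2) {p | 0 < p.2} ∧
  (∀ (ν : ℂ) (x : ℝ), KB (-ν) x = KB ν x) ∧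
  (∀ x : ℝ, (KB 0 x).im = 0 ∧ 0 ≤ (KB 0 x).re) ∧
  ∀ A φ : ℝ, 0 < A → 0 ≤ φ → φ < Real.pi / 2 → ∃ C, 0 < C ∧ ∀ (ν : ℂ) (x : ℝ), |ν.re| ≤ A →
    0 < x → ‖KB ν x‖ ≤ C * Real.exp (-φ * |ν.im|) * (1 + x ^ (-(A + 1))) *
      Real.exp (-(Real.cos φ * x))

/-- E2: Mellin transform of KB(0,x)² -/
def tKBM : Prop := ∀ s : ℂ, 0 < s.re →
  IntegrableOn (fun x : ℝ => KB 0 x ^ 2 * (x : ℂ) ^ (s - 1)) (Ioi 0) ∧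
  ∫ x in Ioi (0 : ℝ), KB 0 x ^ 2 * (x : ℂ) ^ (s - 1) =
    (2 : ℂ) ^ (s - 1) * Gamma (s / 2) ^ 4 / Gamma s

/-- the term (m,k) of the nonconstant part -/
noncomputable def Ntm (x y : ℝ) (s : ℂ) (p : ℕ × ℕ) : ℂ :=
  ((((p.2 : ℝ) + 1) / ((p.1 : ℝ) + 1) : ℝ) : ℂ) ^ (s - 1 / 2) *
    KB (s - 1 / 2) (2 * Real.pi * ((p.1 + 1) * (p.2 + 1)) * y) *
    (Real.cos (2 * Real.pi * ((p.1 + 1) * (p.2 + 1)) * x) : ℝ)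

/-- nonconstant part N*(z,s) of the completed Eisenstein series -/
noncomputable def Nst (x y : ℝ) (s : ℂ) : ℂ := 2 * √y * ∑' p : ℕ × ℕ, Ntm x y s p

/-- E3: facts on N* -/
def tN : Prop :=
  (∀ (x y : ℝ) (s : ℂ), 0 < y → Summable (fun p => ‖Ntm x y s p‖)) ∧
  (∀ A φ y₀ : ℝ, 0 < A → 0 ≤ φ → φ < Real.pi / 2 → 0 < y₀ → ∃ C c, 0 < C ∧ 0 < c ∧
    ∀ (x y : ℝ) (s : ℂ), |s.re| ≤ A → y₀ ≤ y →
      ‖Nst x y s‖ ≤ C * Real.exp (-φ * |s.im|) * Real.exp (-(c * y))) ∧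
  (∀ x y : ℝ, 0 < y → Differentiable ℂ (fun s => Nst x y s)) ∧
  ContinuousOn (fun p : (ℝ × ℝ) × ℂ => Nst p.1.1 p.1.2 p.2) {p | 0 < p.1.2} ∧
  (∀ (x y : ℝ) (s : ℂ), Nst (x + 1) y s = Nst x y s ∧ Nst (-x) y s = Nst x y s) ∧
  (∀ (y : ℝ) (s : ℂ), 0 < y → ∫ x in (0 : ℝ)..1, Nst x y s = 0) ∧
  ∀ x y : ℝ, (Nst x y (1 / 2)).im = 0

/-- the completed Eisenstein series, s ≠ 0, 1/2, 1 -/
noncomputable def Est (x y : ℝ) (s : ℂ) : ℂ :=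
  xi (2 * s) * (y : ℂ) ^ s + xi (2 * s - 1) * (y : ℂ) ^ (1 - s) + Nst x y s

/-- its value at s = 1/2 -/
noncomputable def Ez (x y : ℝ) : ℂ := (mm y : ℝ) + Nst x y (1 / 2)

/-- the Epstein sum -/
noncomputable def Lat (x y : ℝ) (s : ℂ) : ℂ :=
  ∑' p : ℤ × ℤ, if p = 0 then 0 else
    ((y / ((p.1 * x + p.2) ^ 2 + (p.1 * y) ^ 2) : ℝ) : ℂ) ^ s

/-- E4: Fourier expansion of the Epstein sum -/
def tLAT : Prop := ∀ (x y : ℝ) (s : ℂ), 0 < y → 1 < s.re →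
  Summable (fun p : ℤ × ℤ => if p = 0 then (0 : ℂ) else
    ((y / ((p.1 * x + p.2) ^ 2 + (p.1 * y) ^ 2) : ℝ) : ℂ) ^ s) ∧
  Est x y s = 1 / 2 * (Real.pi : ℂ) ^ (-s) * Gamma s * Lat x y s

/-- E5: invariance under z ↦ -1/z -/
def tINV : Prop :=
  (∀ (x y : ℝ) (s : ℂ), 0 < y → s ≠ 0 → s ≠ 1 → s ≠ 1 / 2 →
    Est (-x / (x ^ 2 + y ^ 2)) (y / (x ^ 2 + y ^ 2)) s = Est x y s) ∧
  ∀ x y : ℝ, 0 < y → Ez (-x / (x ^ 2 + y ^ 2)) (y / (x ^ 2 + y ^ 2)) = Ez x y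

/-! ## rays -/

/-- N* at the point e^τ (tanh d + i sech d) of the ray -/
noncomputable def Nr (d τ : ℝ) (s : ℂ) : ℂ :=
  Nst (Real.exp τ * Real.tanh d) (Real.exp τ / Real.cosh d) s

/-- E6: the ray identity in the region of absolute convergence -/
def tSTAR1 : Prop := ∀ (d : ℝ) (s w : ℂ), 1 + |w.re| < s.re →
  2 * (∫ τ in Ioi (0 : ℝ), Nr d τ s * Complex.cosh (w * τ))
    - xi (2 * s) * (Real.cosh d : ℂ) ^ (-s) * (1 / (s - w) + 1 / (s + w))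
    - xi (2 * s - 1) * (Real.cosh d : ℂ) ^ (s - 1) * (1 / (1 - s + w) + 1 / (1 - s - w))
  = (Real.pi : ℂ) ^ (-s) * Gamma s * riemannZeta (s + w) * riemannZeta (s - w) * JJ s w d

/-- E7: the ray identity -/
def tSTAR : Prop := ∀ (d : ℝ) (s w : ℂ), |w.re| < s.re → s ≠ 1 / 2 → s ≠ 1 → s + w ≠ 1 →
  s - w ≠ 1 →
  2 * (∫ τ in Ioi (0 : ℝ), Nr d τ s * Complex.cosh (w * τ))
    - xi (2 * s) * (Real.cosh d : ℂ) ^ (-s) * (1 / (s - w) + 1 / (s + w))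
    - xi (2 * s - 1) * (Real.cosh d : ℂ) ^ (s - 1) * (1 / (1 - s + w) + 1 / (1 - s - w))
  = (Real.pi : ℂ) ^ (-s) * Gamma s * riemannZeta (s + w) * riemannZeta (s - w) * JJ s w d

/-- E7': the ray identity at s = 1/2 -/
def tSTARH : Prop := ∀ (d : ℝ) (w : ℂ), |w.re| < 1 / 2 →
  2 * (∫ τ in Ioi (0 : ℝ), Nr d τ (1 / 2) * Complex.cosh (w * τ))
    - qf d * (cpr d * (1 / (1 / 2 - w) + 1 / (1 / 2 + w))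
      - (1 / (1 / 2 - w) ^ 2 + 1 / (1 / 2 + w) ^ 2))
  = riemannZeta (1 / 2 + w) * riemannZeta (1 / 2 - w) * JJ (1 / 2) w d

/-- E8: Plancherel -/
def tPLAN : Prop := ∀ d : ℝ,
  2 * ∫ τ in Ioi (0 : ℝ), (Nr d τ (1 / 2) - (mm (Real.exp (-τ) / Real.cosh d) : ℝ)) ^ 2 = P1 d

/-- E9: the value of J_0 -/
def tJ0R : Prop := ∀ d : ℝ,
  ∫ τ in Ioi (0 : ℝ), (Nr d τ (1 / 2) *
      ((mm (Real.exp τ / Real.cosh d) + mm (Real.exp (-τ) / Real.cosh d) : ℝ) : ℂ)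
    - ((mm (Real.exp (-τ) / Real.cosh d)) ^ 2 : ℝ)) = J0 d

/-! ## the constant term of N² -/

/-- a♯(y) = ∫_0^1 N(z)² dx -/
noncomputable def ash (y : ℝ) : ℂ := ∫ x in (0 : ℝ)..1, Nst x y (1 / 2) ^ 2

/-- E12: the Dirichlet series of d(n)² -/
def tRAM : Prop := ∀ s : ℂ, 1 < s.re →
  Summable (fun n : ℕ => ‖((n + 1).divisors.card : ℂ) ^ 2 / ((n + 1 : ℕ) : ℂ) ^ s‖) ∧
  (∑' n : ℕ, ((n + 1).divisors.card : ℂ) ^ 2 / ((n + 1 : ℕ) : ℂ) ^ s) * riemannZeta (2 * s)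
    = riemannZeta s ^ 4

/-- E13: Mellin inversion for a♯ -/
def tASH : Prop := ContinuousOn ash (Ioi 0) ∧
  ∀ σ : ℝ, 1 < σ → σ ≤ 3 → Integrable (fun t : ℝ => Aq (σ + t * I)) ∧ ∀ y : ℝ, 0 < y →
    ash y = (1 / (2 * Real.pi) : ℝ) * ∫ t : ℝ, Aq (σ + t * I) * (y : ℂ) ^ (1 - (σ + t * I))

/-- E17: the constant term identity -/
def tCT : Prop := ∀ r : ℝ, Rad r → ∀ y : ℝ, 0 < y →
  ((mm y ^ 2 : ℝ) : ℂ) + ash y =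
    (1 / (2 * Real.pi * I)) * (∮ s in C(1, r),
      bq s * (xi (2 * s) * (y : ℂ) ^ s + xi (2 * s - 1) * (y : ℂ) ^ (1 - s))) +
    (1 / (4 * Real.pi) : ℝ) * ∫ t : ℝ, bq (1 / 2 + t * I) *
      (xi (2 * (1 / 2 + t * I)) * (y : ℂ) ^ (1 / 2 + t * I) +
       xi (2 * (1 / 2 + t * I) - 1) * (y : ℂ) ^ (1 - (1 / 2 + t * I)))

/-! ## the cuspidal function -/

/-- residual part -/
noncomputable def Rz (r x y : ℝ) : ℂ :=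
  (1 / (2 * Real.pi * I)) * ∮ s in C(1, r), bq s * Est x y s

/-- continuous part -/
noncomputable def Fz (x y : ℝ) : ℂ :=
  (1 / (4 * Real.pi) : ℝ) * ∫ t : ℝ, bq (1 / 2 + t * I) * Est x y (1 / 2 + t * I)

/-- the cuspidal part of E² -/
noncomputable def Fc (r x y : ℝ) : ℂ := Ez x y ^ 2 - Rz r x y - Fz x y

/-- its second expression -/
noncomputable def FcN (r x y : ℝ) : ℂ :=
  2 * (mm y : ℝ) * Nst x y (1 / 2) + Nst x y (1 / 2) ^ 2 - ash y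
    - (1 / (2 * Real.pi * I)) * (∮ s in C(1, r), bq s * Nst x y s)
    - (1 / (4 * Real.pi) : ℝ) * ∫ t : ℝ, bq (1 / 2 + t * I) * Nst x y (1 / 2 + t * I)

/-- the residual function of d -/
noncomputable def Rd (r : ℝ) (d : ℂ) : ℂ :=
  (1 / (2 * Real.pi * I)) * ∮ s in C(1, r),
    bq s * ((Real.pi : ℂ) ^ (-s) * Gamma s * riemannZeta s ^ 2 * JJ s 0 d)

/-- E16: the residual function is killed by 𝒟^5 -/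
def tRD : Prop := ∀ r : ℝ, Rad r → DifferentiableOn ℂ (Rd r) S0 ∧ ∀ d ∈ S0, (DD^[5] (Rd r)) d = 0

/-- E18: properties of the cuspidal part -/
def tFC : Prop := ∀ r : ℝ, Rad r → (∀ x y, 0 < y → Fc r x y = FcN r x y) ∧
  Aut (Fc r) ∧ Cusp (Fc r) ∧ Small (Fc r) ∧ ∀ x y, 0 < y → Fc r (-x) y = Fc r x y

/-- E19: the ray integrals of the cuspidal part -/
def tRAY : Prop := ∀ r : ℝ, Rad r → ∀ d : ℝ,
  2 * ∫ τ in Ioi (0 : ℝ), FcN r (Real.exp τ * Real.tanh d) (Real.exp τ / Real.cosh d)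
    = B0 d - Rd r d - Pc d

end FMZ
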