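import Mathlib
import Pool.Agent.FMZ.TE

set_option autoImplicit false

/-!
# FMZ-E18: properties of the cuspidal part
-/

open Complex MeasureTheory Set Filter Topology

namespace FMZ

namespace EFC_

/-! ### weights on a curve -/

/-- a weight `b` along a curve `γ` such that the integral of `b θ * Nst x y (γ θ)` is absolutely
convergent -/
structure Wt (μ : Measure ℝ) (γ b : ℝ → ℂ) : Prop where
  gam : Continuous γ
  re : ∀ θ, |(γ θ).re| ≤ 2
  meas : AEStronglyMeasurable b μ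
  int : Integrable (fun θ => ‖b θ‖ * Real.exp (-|(γ θ).im|)) μ

lemma N_bound (h3 : tN) {y₀ : ℝ} (hy₀ : 0 < y₀) : ∃ C c, 0 < C ∧ 0 < c ∧
    ∀ (x y : ℝ) (s : ℂ), |s.re| ≤ 2 → y₀ ≤ y →
      ‖Nst x y s‖ ≤ C * Real.exp (-|s.im|) * Real.exp (-(c * y)) := by
  have hpi := Real.pi_gt_three
  obtain ⟨C, c, hC, hc, h⟩ := h3.2.1 2 1 y₀ (by norm_num) (by norm_num) (by linarith) hy₀
  refine ⟨C, c, hC, hc, fun x y s hs hy => ?_⟩
  have := h x y s hs hy
  rwa [neg_one_mul] at this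

section gen

variable {μ : Measure ℝ} {γ b : ℝ → ℂ}

lemma N_curve_cont (h3 : tN) (w : Wt μ γ b) {x y : ℝ} (hy : 0 < y) :
    Continuous (fun θ => Nst x y (γ θ)) :=
  (h3.2.2.1 x y hy).continuous.comp w.gam

lemma gen_norm (_ : Wt μ γ b) {C c x y : ℝ} (θ : ℝ)
    (h : ‖Nst x y (γ θ)‖ ≤ C * Real.exp (-|(γ θ).im|) * Real.exp (-(c * y))) :
    ‖b θ * Nst x y (γ θ)‖ ≤
      C * Real.exp (-(c * y)) * (‖b θ‖ * Real.exp (-|(γ θ).im|)) := by
  rw [norm_mul]
  calc ‖b θ‖ * ‖Nst x y (γ θ)‖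
      ≤ ‖b θ‖ * (C * Real.exp (-|(γ θ).im|) * Real.exp (-(c * y))) := by gcongr
    _ = _ := by ring

lemma gen_int (h3 : tN) (w : Wt μ γ b) {x y : ℝ} (hy : 0 < y) :
    Integrable (fun θ => b θ * Nst x y (γ θ)) μ := by
  obtain ⟨C, c, hC, hc, h⟩ := N_bound h3 hy
  refine (w.int.const_mul (C * Real.exp (-(c * y)))).mono'
    (w.meas.mul (N_curve_cont h3 w hy).aestronglyMeasurable) (ae_of_all _ fun θ => ?_)
  exact gen_norm w θ (h x y (γ θ) (w.re θ) le_rfl)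

lemma gen_bound (h3 : tN) (w : Wt μ γ b) {y₀ : ℝ} (hy₀ : 0 < y₀) : ∃ C c, 0 < C ∧ 0 < c ∧
    ∀ x y : ℝ, y₀ ≤ y → ‖∫ θ, b θ * Nst x y (γ θ) ∂μ‖ ≤ C * Real.exp (-(c * y)) := by
  obtain ⟨C, c, hC, hc, h⟩ := N_bound h3 hy₀
  have hJ : 0 ≤ ∫ θ, ‖b θ‖ * Real.exp (-|(γ θ).im|) ∂μ :=
    integral_nonneg fun θ => by positivity
  refine ⟨C * (1 + ∫ θ, ‖b θ‖ * Real.exp (-|(γ θ).im|) ∂μ), c, by positivity, hc,
    fun x y hy => ?_⟩
  calc ‖∫ θ, b θ * Nst x y (γ θ) ∂μ‖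
      ≤ ∫ θ, C * Real.exp (-(c * y)) * (‖b θ‖ * Real.exp (-|(γ θ).im|)) ∂μ :=
        norm_integral_le_of_norm_le (w.int.const_mul _)
          (ae_of_all _ fun θ => gen_norm w θ (h x y (γ θ) (w.re θ) hy))
    _ = C * Real.exp (-(c * y)) * ∫ θ, ‖b θ‖ * Real.exp (-|(γ θ).im|) ∂μ :=
        integral_const_mul _ _
    _ ≤ C * Real.exp (-(c * y)) * (1 + ∫ θ, ‖b θ‖ * Real.exp (-|(γ θ).im|) ∂μ) := by
        gcongr; linarith
    _ = _ := by ring

lemma N_cont (h3 : tN) (s : ℂ) : ContinuousOn (fun p : ℝ × ℝ => Nst p.1 p.2 s) {p | 0 < p.2} := by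
  have h := h3.2.2.2.1
  refine h.comp (f := fun p : ℝ × ℝ => (p, s)) (by fun_prop) ?_
  intro p hp
  exact hp

lemma gen_cont (h3 : tN) (w : Wt μ γ b) :
    ContinuousOn (fun p : ℝ × ℝ => ∫ θ, b θ * Nst p.1 p.2 (γ θ) ∂μ) {p | 0 < p.2} := by
  have hopen : IsOpen {p : ℝ × ℝ | 0 < p.2} := isOpen_lt continuous_const continuous_snd
  intro p₀ hp₀
  have hp₀' : 0 < p₀.2 := hp₀
  obtain ⟨C, c, hC, hc, h⟩ := N_bound h3 (half_pos hp₀')
  have hev : ∀ᶠ p : ℝ × ℝ in 𝓝 p₀, p₀.2 / 2 ≤ p.2 := by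
    have : ∀ᶠ p : ℝ × ℝ in 𝓝 p₀, p₀.2 / 2 < p.2 :=
      (continuous_snd.tendsto p₀).eventually (lt_mem_nhds (by linarith))
    exact this.mono fun p hp => hp.le
  refine ContinuousAt.continuousWithinAt ?_
  refine continuousAt_of_dominated
    (bound := fun θ => C * (‖b θ‖ * Real.exp (-|(γ θ).im|))) ?_ ?_ (w.int.const_mul _) ?_
  · filter_upwards [hev] with p hp
    exact w.meas.mul (N_curve_cont h3 w (by linarith)).aestronglyMeasurable
  · filter_upwards [hev] with p hp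
    refine ae_of_all _ fun θ => ?_
    have h1 := gen_norm w θ (h p.1 p.2 (γ θ) (w.re θ) hp)
    refine h1.trans ?_
    have h2 : Real.exp (-(c * p.2)) ≤ 1 := by
      rw [Real.exp_le_one_iff]
      have : 0 < p.2 := by linarith
      have : 0 < c * p.2 := by positivity
      linarith
    have h3 : 0 ≤ ‖b θ‖ * Real.exp (-|(γ θ).im|) := by positivity
    calc C * Real.exp (-(c * p.2)) * (‖b θ‖ * Real.exp (-|(γ θ).im|))
        ≤ C * 1 * (‖b θ‖ * Real.exp (-|(γ θ).im|)) := by gcongr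
      _ = _ := by ring
  · refine ae_of_all _ fun θ => ?_
    exact continuousAt_const.mul ((N_cont h3 (γ θ)).continuousAt (hopen.mem_nhds hp₀))

lemma gen_zero [SFinite μ] (h3 : tN) (w : Wt μ γ b) {y : ℝ} (hy : 0 < y) :
    ∫ x in (0 : ℝ)..1, ∫ θ, b θ * Nst x y (γ θ) ∂μ = 0 := by
  obtain ⟨C, c, hC, hc, h⟩ := N_bound h3 hy
  have hfin : IsFiniteMeasure ((volume : Measure ℝ).restrict (Set.uIoc (0 : ℝ) 1)) := by
    rw [Set.uIoc_of_le zero_le_one]
    infer_instance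
  rw [intervalIntegral_integral_swap]
  · have : ∀ θ, ∫ x in (0 : ℝ)..1, b θ * Nst x y (γ θ) = 0 := by
      intro θ
      rw [intervalIntegral.integral_const_mul, h3.2.2.2.2.2.1 y (γ θ) hy, mul_zero]
    simp only [this, integral_zero]
  · have hb := ((integrable_const (1 : ℝ)).mul_prod (w.int.const_mul (C * Real.exp (-(c * y)))) :
      Integrable (fun z : ℝ × ℝ => (1 : ℝ) * (C * Real.exp (-(c * y)) *
        (‖b z.2‖ * Real.exp (-|(γ z.2).im|)))) ((volume.restrict (Set.uIoc (0 : ℝ) 1)).prod μ))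
    refine hb.mono' ?_ (ae_of_all _ fun z => ?_)
    · refine (w.meas.comp_snd).mul ?_
      refine Continuous.aestronglyMeasurable ?_
      have h' := h3.2.2.2.1
      refine h'.comp_continuous (f := fun z : ℝ × ℝ => ((z.1, y), γ z.2)) ?_ (fun z => hy)
      exact (continuous_fst.prodMk continuous_const).prodMk (w.gam.comp continuous_snd)
    · rw [one_mul]
      exact gen_norm w z.2 (h z.1 y (γ z.2) (w.re z.2) le_rfl)

end gen

/-! ### the two weights -/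

lemma eb (t : ℝ) : (1 + |t|) ^ 6 * Real.exp (-|t|) ≤ 40320 * Real.exp 1 * (1 + t ^ 2)⁻¹ := by
  have h1 : (1 + |t|) ^ 8 ≤ 40320 * Real.exp (1 + |t|) := by
    have := Real.pow_div_factorial_le_exp (1 + |t|) (by positivity) 8
    rw [div_le_iff₀ (by positivity)] at this
    norm_num [Nat.factorial] at this
    linarith
  have h2 : 1 + t ^ 2 ≤ (1 + |t|) ^ 2 := by nlinarith [abs_nonneg t, sq_abs t]
  rw [← div_eq_mul_inv, le_div_iff₀ (by positivity)]
  calc (1 + |t|) ^ 6 * Real.exp (-|t|) * (1 + t ^ 2)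
      ≤ (1 + |t|) ^ 6 * Real.exp (-|t|) * (1 + |t|) ^ 2 := by gcongr
    _ = (1 + |t|) ^ 8 * Real.exp (-|t|) := by ring
    _ ≤ 40320 * Real.exp (1 + |t|) * Real.exp (-|t|) := by gcongr
    _ = 40320 * Real.exp 1 := by
      rw [mul_assoc, ← Real.exp_add]
      congr 2
      ring

lemma int_e6 : Integrable (fun t : ℝ => (1 + |t|) ^ 6 * Real.exp (-|t|)) := by
  refine (integrable_inv_one_add_sq.const_mul (40320 * Real.exp 1)).mono'
    (Continuous.aestronglyMeasurable (by fun_prop)) (ae_of_all _ fun t => ?_)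
  rw [Real.norm_of_nonneg (by positivity)]
  exact eb t

lemma int_e0 : Integrable (fun t : ℝ => Real.exp (-|t|)) := by
  refine int_e6.mono' (Continuous.aestronglyMeasurable (by fun_prop)) (ae_of_all _ fun t => ?_)
  rw [Real.norm_of_nonneg (by positivity)]
  have : 1 ≤ (1 + |t|) ^ 6 := one_le_pow₀ (by linarith [abs_nonneg t])
  nlinarith [Real.exp_pos (-|t|)]

lemma bq_line_cont (h2 : tABQ) : Continuous (fun t : ℝ => bq (1 / 2 + t * I)) := by
  rw [continuous_iff_continuousAt]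
  intro t
  have h := h2.2.2.2.2.2 (1 / 2 + t * I) (by simp)
  exact h.comp (f := fun t : ℝ => (1 / 2 + t * I : ℂ)) (by fun_prop)

lemma wt_line (h2 : tABQ) :
    Wt volume (fun t : ℝ => 1 / 2 + t * I) (fun t : ℝ => bq (1 / 2 + t * I)) := by
  refine ⟨by fun_prop, fun t => ?_, (bq_line_cont h2).aestronglyMeasurable, ?_⟩
  · have : ((1 / 2 + t * I : ℂ)).re = 1 / 2 := by simp
    rw [this]
    norm_num
  · obtain ⟨C, hC, h⟩ := h2.2.2.1
    refine (int_e6.const_mul C).mono' (Continuous.aestronglyMeasurable ?_)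
      (ae_of_all _ fun t => ?_)
    · refine (bq_line_cont h2).norm.mul ?_
      fun_prop
    · rw [Real.norm_of_nonneg (by positivity)]
      have him : ((1 / 2 + t * I : ℂ)).im = t := by simp
      rw [him]
      calc ‖bq (1 / 2 + t * I)‖ * Real.exp (-|t|) ≤ C * (1 + |t|) ^ 6 * Real.exp (-|t|) := by
            gcongr
            exact h t
        _ = _ := by ring

lemma circ_facts (h1 : tX) {r : ℝ} (hr : Rad r) {s : ℂ} (hs : s ∈ Metric.sphere (1 : ℂ) r) :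
    s ≠ 0 ∧ s ≠ 1 ∧ s ≠ 1 / 2 ∧ 2 * s - 1 ≠ 0 ∧ 2 * s - 1 ≠ 1 ∧ 2 * s ≠ 0 ∧ 2 * s ≠ 1 ∧
      X1 (2 * s - 1) ≠ 0 ∧ X1 (2 * s) ≠ 0 ∧ |s.re| ≤ 2 := by
  obtain ⟨hr0, hr8, hX⟩ := hr
  have hs' : ‖s - 1‖ = r := by rwa [mem_sphere_iff_norm] at hs
  have hre : |s.re - 1| ≤ 1 / 8 := by
    have := Complex.abs_re_le_norm (s - 1)
    rw [hs'] at this
    simp only [Complex.sub_re, Complex.one_re] at this
    linarith
  obtain ⟨ha, hb⟩ := abs_le.mp hre
  have hs1 : s ≠ 1 := by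
    rintro rfl
    rw [sub_self, norm_zero] at hs'
    linarith
  refine ⟨?_, hs1, ?_, ?_, ?_, ?_, ?_, ?_, ?_, ?_⟩
  · rintro rfl
    simp only [Complex.zero_re] at ha hb
    linarith
  · rintro rfl
    norm_num at ha
  · intro h
    have := congrArg Complex.re h
    simp at this
    linarith
  · intro h
    apply hs1
    linear_combination h / 2
  · intro h
    have := congrArg Complex.re h
    simp at this
    rw [this] at ha
    norm_num at ha
  · intro h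
    have := congrArg Complex.re h
    simp at this
    linarith
  · apply hX
    rw [show 2 * s - 1 - 1 = 2 * (s - 1) by ring, norm_mul, hs']
    simp
  · apply h1.2.2.2.2.2.2.1
    simp
    linarith
  · rw [abs_le]
    constructor <;> linarith

lemma bq_circ_cont (h1 : tX) {r : ℝ} (hr : Rad r) : ContinuousOn bq (Metric.sphere (1 : ℂ) r) := by
  intro s hs
  obtain ⟨h0, h1', h12, -, -, -, -, hX1, hX2, -⟩ := circ_facts h1 hr hs
  have hc : Continuous X1 := h1.1.continuous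
  refine ContinuousAt.continuousWithinAt ?_
  unfold bq
  refine ContinuousAt.div (by fun_prop) (by fun_prop) ?_
  have : s - 1 ≠ 0 := sub_ne_zero.mpr h1'
  positivity

lemma wt_circ (h1 : tX) {r : ℝ} (hr : Rad r) :
    Wt (volume.restrict (Ioc 0 (2 * Real.pi))) (circleMap 1 r)
      (fun θ => deriv (circleMap 1 r) θ * bq (circleMap 1 r θ)) := by
  have hcb : Continuous (fun θ => deriv (circleMap 1 r) θ * bq (circleMap 1 r θ)) := by
    refine Continuous.mul ?_ ?_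
    · have : deriv (circleMap 1 r) = fun θ => circleMap 0 r θ * I := funext (deriv_circleMap 1 r)
      rw [this]
      fun_prop
    · exact (bq_circ_cont h1 hr).comp_continuous (continuous_circleMap 1 r)
        (fun θ => circleMap_mem_sphere 1 hr.1.le θ)
  refine ⟨continuous_circleMap 1 r, fun θ => ?_, hcb.aestronglyMeasurable, ?_⟩
  · exact (circ_facts h1 hr (circleMap_mem_sphere 1 hr.1.le θ)).2.2.2.2.2.2.2.2.2
  · refine Continuous.integrableOn_Ioc ?_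
    refine hcb.norm.mul ?_
    fun_prop

lemma circ_eq (r : ℝ) (f : ℂ → ℂ) :
    (∮ s in C(1, r), bq s * f s) = ∫ θ, deriv (circleMap 1 r) θ * bq (circleMap 1 r θ) *
      f (circleMap 1 r θ) ∂(volume.restrict (Ioc 0 (2 * Real.pi))) := by
  unfold circleIntegral
  rw [intervalIntegral.integral_of_le (by positivity)]
  simp only [smul_eq_mul, mul_assoc]

/-! ### the constant terms -/

/-- the constant term of the completed Eisenstein series -/
noncomputable def At (y : ℝ) (s : ℂ) : ℂ :=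
  xi (2 * s) * (y : ℂ) ^ s + xi (2 * s - 1) * (y : ℂ) ^ (1 - s)

lemma xi_cont {s : ℂ} (h0 : s ≠ 0) (h1 : s ≠ 1) : ContinuousAt xi s :=
  (differentiableAt_completedZeta h0 h1).continuousAt

lemma At_cont {y : ℝ} (hy : 0 < y) {s : ℂ} (h1 : 2 * s - 1 ≠ 0) (h2 : 2 * s - 1 ≠ 1)
    (h3 : 2 * s ≠ 0) (h4 : 2 * s ≠ 1) : ContinuousAt (At y) s := by
  have hy' : (y : ℂ) ≠ 0 := by exact_mod_cast hy.ne'
  unfold At
  refine ContinuousAt.add (ContinuousAt.mul ?_ ?_) (ContinuousAt.mul ?_ ?_)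
  · exact ContinuousAt.comp (f := fun s : ℂ => 2 * s) (xi_cont h3 h4) (by fun_prop)
  · exact (continuousAt_const_cpow hy').comp (f := fun s : ℂ => s) continuousAt_id
  · exact ContinuousAt.comp (f := fun s : ℂ => 2 * s - 1) (xi_cont h1 h2) (by fun_prop)
  · exact ContinuousAt.comp (f := fun s : ℂ => 1 - s) (continuousAt_const_cpow hy')
      (by fun_prop)

lemma line_facts {t : ℝ} (ht : t ≠ 0) : (1 / 2 + t * I : ℂ) ≠ 0 ∧ (1 / 2 + t * I : ℂ) ≠ 1 ∧
    (1 / 2 + t * I : ℂ) ≠ 1 / 2 ∧ 2 * (1 / 2 + t * I : ℂ) - 1 ≠ 0 ∧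
    2 * (1 / 2 + t * I : ℂ) - 1 ≠ 1 ∧ 2 * (1 / 2 + t * I : ℂ) ≠ 0 ∧
    2 * (1 / 2 + t * I : ℂ) ≠ 1 := by
  refine ⟨?_, ?_, ?_, ?_, ?_, ?_, ?_⟩ <;>
  · intro h
    have := congrArg Complex.im h
    simp at this
    exact ht this

lemma norm_cpow_line {y : ℝ} (hy : 0 < y) (t : ℝ) :
    ‖(y : ℂ) ^ (1 / 2 + t * I : ℂ)‖ = √y ∧ ‖(y : ℂ) ^ (1 - (1 / 2 + t * I : ℂ))‖ = √y := by
  constructor
  · rw [Complex.norm_cpow_eq_rpow_re_of_pos hy, Real.sqrt_eq_rpow]
    simp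
  · rw [Complex.norm_cpow_eq_rpow_re_of_pos hy, Real.sqrt_eq_rpow]
    congr 1
    simp
    norm_num

lemma ae_ne_zero : ∀ᵐ t : ℝ, t ≠ 0 := by
  have : ({0}ᶜ : Set ℝ) ∈ ae (volume : Measure ℝ) := compl_mem_ae_iff.mpr (measure_singleton 0)
  exact this

lemma line_int_A (h1 : tX) (h2 : tABQ) {y : ℝ} (hy : 0 < y) :
    Integrable (fun t : ℝ => bq (1 / 2 + t * I) * At y (1 / 2 + t * I)) := by
  obtain ⟨C₁, hC₁, hA⟩ := h2.2.1
  obtain ⟨C₂, hC₂, hB⟩ := h2.2.2.2.1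
  refine (int_e0.const_mul ((C₁ + C₂) * √y)).mono' ?_ ?_
  · have hcon : ContinuousOn (fun t : ℝ => bq (1 / 2 + t * I) * At y (1 / 2 + t * I))
        ({0}ᶜ : Set ℝ) := by
      intro t ht
      obtain ⟨-, -, -, a1, a2, a3, a4⟩ := line_facts (t := t) ht
      refine ContinuousAt.continuousWithinAt ?_
      refine (bq_line_cont h2).continuousAt.mul ?_
      exact ContinuousAt.comp (f := fun t : ℝ => (1 / 2 + t * I : ℂ)) (At_cont hy a1 a2 a3 a4)
        (by fun_prop)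
    have := hcon.aestronglyMeasurable (μ := (volume : Measure ℝ))
      (measurableSet_singleton (0 : ℝ)).compl
    have hres : (volume : Measure ℝ).restrict ({0}ᶜ : Set ℝ) = volume :=
      Measure.restrict_eq_self_of_ae_mem ae_ne_zero
    rwa [hres] at this
  · filter_upwards [ae_ne_zero] with t ht
    obtain ⟨a0, a1, a2, -, -, -, -⟩ := line_facts ht
    obtain ⟨e1, e2⟩ := norm_cpow_line hy t
    have hAq := (h1.2.2.2.2.2.2.2.2.2.2.2.1 _ a0 a1 a2).1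
      (h1.2.2.2.2.2.2.2.1 _ (by simp))
    have hsplit : bq (1 / 2 + t * I) * At y (1 / 2 + t * I) =
        bq (1 / 2 + t * I) * xi (2 * (1 / 2 + t * I)) * (y : ℂ) ^ (1 / 2 + t * I : ℂ) +
        Aq (1 / 2 + t * I) * (y : ℂ) ^ (1 - (1 / 2 + t * I : ℂ)) := by
      rw [hAq]
      unfold At
      ring
    rw [hsplit]
    refine (norm_add_le _ _).trans ?_
    have n1 : ‖bq (1 / 2 + t * I) * xi (2 * (1 / 2 + t * I)) * (y : ℂ) ^ (1 / 2 + t * I : ℂ)‖ =
        ‖bq (1 / 2 + t * I) * xi (2 * (1 / 2 + t * I))‖ * √y := by rw [norm_mul, e1]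
    have n2 : ‖Aq (1 / 2 + t * I) * (y : ℂ) ^ (1 - (1 / 2 + t * I : ℂ))‖ =
        ‖Aq (1 / 2 + t * I)‖ * √y := by rw [norm_mul, e2]
    rw [n1, n2]
    have b1 := hB t ht
    have b2 := hA t
    calc ‖bq (1 / 2 + t * I) * xi (2 * (1 / 2 + t * I))‖ * √y + ‖Aq (1 / 2 + t * I)‖ * √y
        ≤ C₂ * Real.exp (-|t|) * √y + C₁ * Real.exp (-|t|) * √y := by gcongr
      _ = _ := by ring

lemma Est_eq (x y : ℝ) (s : ℂ) : Est x y s = At y s + Nst x y s := rfl

lemma Rz_eq (h1 : tX) (h3 : tN) {r : ℝ} (hr : Rad r) {x y : ℝ} (hy : 0 < y) :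
    Rz r x y = (1 / (2 * Real.pi * I)) * (∮ s in C(1, r), bq s * At y s) +
      (1 / (2 * Real.pi * I)) * ∮ s in C(1, r), bq s * Nst x y s := by
  unfold Rz
  rw [← mul_add, ← circleIntegral.integral_add]
  · simp only [Est_eq, mul_add]
  · refine ContinuousOn.circleIntegrable hr.1.le ?_
    refine (bq_circ_cont h1 hr).mul ?_
    intro s hs
    obtain ⟨-, -, -, a1, a2, a3, a4, -, -, -⟩ := circ_facts h1 hr hs
    exact (At_cont hy a1 a2 a3 a4).continuousWithinAt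
  · refine ContinuousOn.circleIntegrable hr.1.le ?_
    exact (bq_circ_cont h1 hr).mul (h3.2.2.1 x y hy).continuous.continuousOn

lemma Fz_eq (h1 : tX) (h2 : tABQ) (h3 : tN) {x y : ℝ} (hy : 0 < y) :
    Fz x y = (1 / (4 * Real.pi) : ℝ) * (∫ t : ℝ, bq (1 / 2 + t * I) * At y (1 / 2 + t * I)) +
      (1 / (4 * Real.pi) : ℝ) * ∫ t : ℝ, bq (1 / 2 + t * I) * Nst x y (1 / 2 + t * I) := by
  unfold Fz
  rw [← mul_add, ← integral_add (line_int_A h1 h2 hy) (gen_int h3 (wt_line h2) hy)]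
  simp only [Est_eq, mul_add]

lemma Fc_eq (h1 : tX) (h2 : tABQ) (h3 : tN) (h6 : tCT) {r : ℝ} (hr : Rad r) {x y : ℝ}
    (hy : 0 < y) : Fc r x y = FcN r x y := by
  have hct := h6 r hr y hy
  unfold Fc FcN Ez
  rw [Rz_eq h1 h3 hr hy, Fz_eq h1 h2 h3 hy]
  have e1 : (∮ s in C(1, r), bq s * (xi (2 * s) * (y : ℂ) ^ s +
      xi (2 * s - 1) * (y : ℂ) ^ (1 - s))) = ∮ s in C(1, r), bq s * At y s := rfl
  have e2 : (∫ t : ℝ, bq (1 / 2 + t * I) *
      (xi (2 * (1 / 2 + t * I)) * (y : ℂ) ^ (1 / 2 + t * I) +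
       xi (2 * (1 / 2 + t * I) - 1) * (y : ℂ) ^ (1 - (1 / 2 + t * I)))) =
      ∫ t : ℝ, bq (1 / 2 + t * I) * At y (1 / 2 + t * I) := rfl
  rw [e1, e2] at hct
  push_cast at hct ⊢
  linear_combination hct

/-! ### continuity, constant term, decay -/

lemma mm_cont : ContinuousOn mm (Ioi 0) := by
  intro y hy
  have hy' : (0 : ℝ) < y := hy
  refine ContinuousAt.continuousWithinAt ?_
  unfold mm
  exact Real.continuous_sqrt.continuousAt.mul
    ((Real.continuousAt_log hy'.ne').add continuousAt_const)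

lemma circ_cont (h1 : tX) (h3 : tN) {r : ℝ} (hr : Rad r) :
    ContinuousOn (fun p : ℝ × ℝ => ∮ s in C(1, r), bq s * Nst p.1 p.2 s) {p | 0 < p.2} := by
  simp only [circ_eq]
  exact gen_cont h3 (wt_circ h1 hr)

lemma FcN_cont (h1 : tX) (h2 : tABQ) (h3 : tN) (h5 : tASH) {r : ℝ} (hr : Rad r) :
    ContinuousOn (fun p : ℝ × ℝ => FcN r p.1 p.2) {p | 0 < p.2} := by
  have hN := N_cont h3 (1 / 2)
  have hm : ContinuousOn (fun p : ℝ × ℝ => ((mm p.2 : ℝ) : ℂ)) {p | 0 < p.2} := by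
    refine Complex.continuous_ofReal.comp_continuousOn ?_
    exact mm_cont.comp continuousOn_snd (fun p hp => hp)
  have ha : ContinuousOn (fun p : ℝ × ℝ => ash p.2) {p | 0 < p.2} :=
    h5.1.comp continuousOn_snd (fun p hp => hp)
  unfold FcN
  refine ContinuousOn.sub (ContinuousOn.sub (ContinuousOn.sub (ContinuousOn.add
    ((continuousOn_const.mul hm).mul hN) (hN.pow 2)) ha)
    (continuousOn_const.mul (circ_cont h1 h3 hr))) (continuousOn_const.mul ?_)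
  exact gen_cont h3 (wt_line h2)

lemma fc_per (h3 : tN) (r x y : ℝ) : Fc r (x + 1) y = Fc r x y := by
  have h := fun s => (h3.2.2.2.2.1 x y s).1
  unfold Fc Ez Rz Fz Est
  simp only [h]

lemma fc_even (h3 : tN) (r x y : ℝ) : Fc r (-x) y = Fc r x y := by
  have h := fun s => (h3.2.2.2.2.1 x y s).2
  unfold Fc Ez Rz Fz Est
  simp only [h]

lemma fc_inv (h1 : tX) (h4 : tINV) {r : ℝ} (hr : Rad r) {x y : ℝ} (hy : 0 < y) :
    Fc r (-x / (x ^ 2 + y ^ 2)) (y / (x ^ 2 + y ^ 2)) = Fc r x y := by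
  unfold Fc
  rw [h4.2 x y hy]
  have e1 : Rz r (-x / (x ^ 2 + y ^ 2)) (y / (x ^ 2 + y ^ 2)) = Rz r x y := by
    unfold Rz
    congr 1
    refine circleIntegral.integral_congr hr.1.le fun s hs => ?_
    obtain ⟨a0, a1, a2, -⟩ := circ_facts h1 hr hs
    rw [h4.1 x y s hy a0 a1 a2]
  have e2 : Fz (-x / (x ^ 2 + y ^ 2)) (y / (x ^ 2 + y ^ 2)) = Fz x y := by
    unfold Fz
    congr 1
    refine integral_congr_ae ?_
    filter_upwards [ae_ne_zero] with t ht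
    obtain ⟨a0, a1, a2, -⟩ := line_facts ht
    rw [h4.1 x y _ hy a0 a1 a2]
  rw [e1, e2]

lemma slice_cont {f : ℝ × ℝ → ℂ} (hf : ContinuousOn f {p | 0 < p.2}) {y : ℝ} (hy : 0 < y) :
    Continuous (fun x : ℝ => f (x, y)) :=
  hf.comp_continuous (by fun_prop) (fun _ => hy)

lemma fc_cusp (h1 : tX) (h2 : tABQ) (h3 : tN) (h6 : tCT) {r : ℝ} (hr : Rad r) :
    Cusp (Fc r) := by
  intro y hy
  have e0 : ∫ x in (0 : ℝ)..1, Fc r x y = ∫ x in (0 : ℝ)..1, FcN r x y := by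
    refine intervalIntegral.integral_congr fun x _ => ?_
    exact Fc_eq h1 h2 h3 h6 hr hy
  have cN : Continuous (fun x : ℝ => Nst x y (1 / 2)) := slice_cont (N_cont h3 (1 / 2)) hy
  have cR : Continuous (fun x : ℝ => ∮ s in C(1, r), bq s * Nst x y s) :=
    slice_cont (circ_cont h1 h3 hr) hy
  have cL : Continuous (fun x : ℝ => ∫ t : ℝ, bq (1 / 2 + t * I) * Nst x y (1 / 2 + t * I)) :=
    slice_cont (gen_cont h3 (wt_line h2)) hy
  have zR : ∫ x in (0 : ℝ)..1, (∮ s in C(1, r), bq s * Nst x y s) = 0 := by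
    simp only [circ_eq]
    exact gen_zero h3 (wt_circ h1 hr) hy
  have zL : ∫ x in (0 : ℝ)..1, (∫ t : ℝ, bq (1 / 2 + t * I) * Nst x y (1 / 2 + t * I)) = 0 :=
    gen_zero h3 (wt_line h2) hy
  have zN := h3.2.2.2.2.2.1 y (1 / 2) hy
  rw [e0]
  unfold FcN
  rw [intervalIntegral.integral_sub, intervalIntegral.integral_sub, intervalIntegral.integral_sub,
    intervalIntegral.integral_add, intervalIntegral.integral_const_mul,
    intervalIntegral.integral_const_mul, intervalIntegral.integral_const_mul, zN, zR, zL]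
  · simp only [intervalIntegral.integral_const]
    unfold ash
    simp
  all_goals exact Continuous.intervalIntegrable (by fun_prop) _ _

lemma exp_dec {c : ℝ} (hc : 0 < c) {y : ℝ} (hy : 0 < y) : Real.exp (-(c * y)) ≤ 1 / c / y := by
  rw [Real.exp_neg, div_div, ← one_div]
  apply one_div_le_one_div_of_le (by positivity)
  linarith [Real.add_one_le_exp (c * y)]

lemma exp_dec3 {c : ℝ} (hc : 0 < c) {y : ℝ} (hy : 0 < y) :
    y ^ 2 * Real.exp (-(c * y)) ≤ 6 / c ^ 3 / y := by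
  have h := Real.pow_div_factorial_le_exp (c * y) (by positivity) 3
  rw [div_le_iff₀ (by positivity)] at h
  norm_num [Nat.factorial] at h
  rw [Real.exp_neg, div_div, le_div_iff₀ (by positivity), ← div_eq_mul_inv, div_mul_eq_mul_div,
    div_le_iff₀ (Real.exp_pos _)]
  calc y ^ 2 * (c ^ 3 * y) = (c * y) ^ 3 := by ring
    _ ≤ _ := by linarith

lemma mm_bound {y : ℝ} (hy : 1 / 2 ≤ y) : |mm y| ≤ 4 * (1 + |c0|) * y ^ 2 := by
  have hy0 : 0 < y := by linarith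
  unfold mm
  rw [abs_mul, abs_of_nonneg (Real.sqrt_nonneg y)]
  have h1 : √y ≤ 2 * y := by
    rw [Real.sqrt_le_left (by positivity)]
    nlinarith
  have h2 : |Real.log y| ≤ 2 * y := by
    rw [abs_le]
    constructor
    · have := Real.one_sub_inv_le_log_of_pos hy0
      have h3 : y⁻¹ ≤ 2 := by
        rw [inv_le_comm₀ hy0 (by norm_num)]
        linarith
      linarith
    · have := Real.log_le_sub_one_of_pos hy0
      linarith
  have h3 : |Real.log y + c0| ≤ 2 * (1 + |c0|) * y := by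
    refine (abs_add_le _ _).trans ?_
    have : |c0| ≤ 2 * |c0| * y := by nlinarith [abs_nonneg c0]
    nlinarith
  calc √y * |Real.log y + c0| ≤ (2 * y) * (2 * (1 + |c0|) * y) := by gcongr
    _ = _ := by ring

lemma fc_small (h1 : tX) (h2 : tABQ) (h3 : tN) (h6 : tCT) {r : ℝ} (hr : Rad r) :
    Small (Fc r) := by
  have hpi := Real.pi_gt_three
  obtain ⟨C₁, c₁, hC₁, hc₁, b₁⟩ := N_bound h3 (y₀ := 1 / 2) (by norm_num)
  obtain ⟨C₂, c₂, hC₂, hc₂, b₂⟩ := gen_bound h3 (wt_circ h1 hr) (y₀ := 1 / 2) (by norm_num)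
  obtain ⟨C₃, c₃, hC₃, hc₃, b₃⟩ := gen_bound h3 (wt_line h2) (y₀ := 1 / 2) (by norm_num)
  refine ⟨2 * C₁ * (4 * (1 + |c0|) * (6 / c₁ ^ 3)) + 2 * C₁ ^ 2 * (1 / c₁) + C₂ * (1 / c₂) +
    C₃ * (1 / c₃), fun x y _ hy' => ?_⟩
  have hy : 1 / 2 ≤ y := by
    have : (1 : ℝ) ≤ √3 := by
      rw [Real.one_le_sqrt]
      norm_num
    linarith
  have hy0 : 0 < y := by linarith
  rw [Fc_eq h1 h2 h3 h6 hr hy0]
  have hE : Real.exp (-(c₁ * y)) ≤ 1 := by
    rw [Real.exp_le_one_iff]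
    have : 0 < c₁ * y := by positivity
    linarith
  have hN : ∀ x : ℝ, ‖Nst x y (1 / 2)‖ ≤ C₁ * Real.exp (-(c₁ * y)) := by
    intro x
    have := b₁ x y (1 / 2) (by norm_num) hy
    simpa using this
  have hN2 : ∀ x : ℝ, ‖Nst x y (1 / 2) ^ 2‖ ≤ C₁ ^ 2 * Real.exp (-(c₁ * y)) := by
    intro x
    rw [norm_pow]
    calc ‖Nst x y (1 / 2)‖ ^ 2 ≤ (C₁ * Real.exp (-(c₁ * y))) ^ 2 := by
          gcongr
          exact hN x
      _ = C₁ ^ 2 * (Real.exp (-(c₁ * y)) * Real.exp (-(c₁ * y))) := by ring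
      _ ≤ C₁ ^ 2 * (Real.exp (-(c₁ * y)) * 1) := by gcongr
      _ = _ := by ring
  have hash : ‖ash y‖ ≤ C₁ ^ 2 * Real.exp (-(c₁ * y)) := by
    unfold ash
    have := intervalIntegral.norm_integral_le_of_norm_le_const (a := 0) (b := 1)
      (f := fun x : ℝ => Nst x y (1 / 2) ^ 2) (C := C₁ ^ 2 * Real.exp (-(c₁ * y)))
      (fun x _ => hN2 x)
    simpa using this
  have t1 : ‖2 * ((mm y : ℝ) : ℂ) * Nst x y (1 / 2)‖ ≤
      2 * C₁ * (4 * (1 + |c0|) * (6 / c₁ ^ 3)) / y := by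
    rw [norm_mul, norm_mul, Complex.norm_real, Real.norm_eq_abs, Complex.norm_ofNat]
    calc 2 * |mm y| * ‖Nst x y (1 / 2)‖
        ≤ 2 * (4 * (1 + |c0|) * y ^ 2) * (C₁ * Real.exp (-(c₁ * y))) := by
          gcongr
          · exact mm_bound hy
          · exact hN x
      _ = 2 * C₁ * (4 * (1 + |c0|)) * (y ^ 2 * Real.exp (-(c₁ * y))) := by ring
      _ ≤ 2 * C₁ * (4 * (1 + |c0|)) * (6 / c₁ ^ 3 / y) := by
          gcongr
          exact exp_dec3 hc₁ hy0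
      _ = _ := by ring
  have t2 : ‖Nst x y (1 / 2) ^ 2‖ ≤ C₁ ^ 2 * (1 / c₁) / y := by
    refine (hN2 x).trans ?_
    calc C₁ ^ 2 * Real.exp (-(c₁ * y)) ≤ C₁ ^ 2 * (1 / c₁ / y) := by
          gcongr
          exact exp_dec hc₁ hy0
      _ = _ := by ring
  have t3 : ‖ash y‖ ≤ C₁ ^ 2 * (1 / c₁) / y := by
    refine hash.trans ?_
    calc C₁ ^ 2 * Real.exp (-(c₁ * y)) ≤ C₁ ^ 2 * (1 / c₁ / y) := by
          gcongr
          exact exp_dec hc₁ hy0
      _ = _ := by ring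
  have t4 : ‖(1 / (2 * Real.pi * I)) * (∮ s in C(1, r), bq s * Nst x y s)‖ ≤
      C₂ * (1 / c₂) / y := by
    have hn : ‖(1 / (2 * Real.pi * I) : ℂ)‖ ≤ 1 := by
      rw [norm_div, norm_mul, norm_mul, Complex.norm_I, Complex.norm_real, norm_one,
        Real.norm_of_nonneg Real.pi_pos.le, Complex.norm_ofNat, div_le_one (by positivity)]
      linarith
    rw [norm_mul, circ_eq]
    calc _ ≤ 1 * (C₂ * Real.exp (-(c₂ * y))) := by
          gcongr
          exact b₂ x y hy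
      _ ≤ 1 * (C₂ * (1 / c₂ / y)) := by
          gcongr
          exact exp_dec hc₂ hy0
      _ = _ := by ring
  have t5 : ‖((1 / (4 * Real.pi) : ℝ) : ℂ) *
      ∫ t : ℝ, bq (1 / 2 + t * I) * Nst x y (1 / 2 + t * I)‖ ≤ C₃ * (1 / c₃) / y := by
    have hn : ‖((1 / (4 * Real.pi) : ℝ) : ℂ)‖ ≤ 1 := by
      rw [Complex.norm_real, Real.norm_of_nonneg (by positivity), div_le_one (by positivity)]
      linarith
    rw [norm_mul]
    calc _ ≤ 1 * (C₃ * Real.exp (-(c₃ * y))) := by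
          gcongr
          exact b₃ x y hy
      _ ≤ 1 * (C₃ * (1 / c₃ / y)) := by
          gcongr
          exact exp_dec hc₃ hy0
      _ = _ := by ring
  unfold FcN
  refine (norm_sub_le _ _).trans ?_
  have s1 := norm_sub_le (2 * ((mm y : ℝ) : ℂ) * Nst x y (1 / 2) + Nst x y (1 / 2) ^ 2 - ash y)
    ((1 / (2 * Real.pi * I)) * (∮ s in C(1, r), bq s * Nst x y s))
  have s2 := norm_sub_le (2 * ((mm y : ℝ) : ℂ) * Nst x y (1 / 2) + Nst x y (1 / 2) ^ 2) (ash y)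
  have s3 := norm_add_le (2 * ((mm y : ℝ) : ℂ) * Nst x y (1 / 2)) (Nst x y (1 / 2) ^ 2)
  have e : (2 * C₁ * (4 * (1 + |c0|) * (6 / c₁ ^ 3)) + 2 * C₁ ^ 2 * (1 / c₁) + C₂ * (1 / c₂) +
    C₃ * (1 / c₃)) / y = 2 * C₁ * (4 * (1 + |c0|) * (6 / c₁ ^ 3)) / y + C₁ ^ 2 * (1 / c₁) / y +
      C₁ ^ 2 * (1 / c₁) / y + C₂ * (1 / c₂) / y + C₃ * (1 / c₃) / y := by ring
  rw [e]
  linarith

end EFC_

/-- E18: properties of the cuspidal part -/
theorem pFC (h1 : tX) (h2 : tABQ) (h3 : tN) (h4 : tINV) (h5 : tASH) (h6 : tCT) : tFC := by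
  intro r hr
  refine ⟨fun x y hy => EFC_.Fc_eq h1 h2 h3 h6 hr hy, ⟨?_, fun x y _ => EFC_.fc_per h3 r x y,
    fun x y hy => EFC_.fc_inv h1 h4 hr hy⟩, EFC_.fc_cusp h1 h2 h3 h6 hr,
    EFC_.fc_small h1 h2 h3 h6 hr, fun x y _ => EFC_.fc_even h3 r x y⟩
  refine (EFC_.FcN_cont h1 h2 h3 h5 hr).congr fun p hp => ?_
  exact EFC_.Fc_eq h1 h2 h3 h6 hr hp

end FMZ
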