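import Pool.Agent.FMZ.TE

/-!
# FMZ-E5: invariance of the Eisenstein series under z ↦ -1/z
-/

open Complex MeasureTheory Set Filter Topology

namespace FMZ

namespace EINV_

/-- (m, n) ↦ (n, -m) -/
def rotE : (ℤ × ℤ) ≃ (ℤ × ℤ) where
  toFun p := (p.2, -p.1)
  invFun p := (-p.2, p.1)
  left_inv p := by simp
  right_inv p := by simp

lemma rad_pos {x y : ℝ} (hy : 0 < y) : 0 < x ^ 2 + y ^ 2 := by positivity

lemma term_eq {x y : ℝ} (hy : 0 < y) (p : ℤ × ℤ) :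
    (y / (x ^ 2 + y ^ 2)) / ((p.1 * (-x / (x ^ 2 + y ^ 2)) + p.2) ^ 2 +
      (p.1 * (y / (x ^ 2 + y ^ 2))) ^ 2) =
    y / ((((rotE p).1 : ℝ) * x + ((rotE p).2 : ℝ)) ^ 2 + (((rotE p).1 : ℝ) * y) ^ 2) := by
  have hr := rad_pos (x := x) hy
  have e1 : (p.1 * (-x / (x ^ 2 + y ^ 2)) + p.2) ^ 2 + (p.1 * (y / (x ^ 2 + y ^ 2))) ^ 2 =
      ((p.2 * x - p.1) ^ 2 + (p.2 * y) ^ 2) / (x ^ 2 + y ^ 2) := by
    field_simp
    ring
  have e2 : (((rotE p).1 : ℝ) * x + ((rotE p).2 : ℝ)) ^ 2 + (((rotE p).1 : ℝ) * y) ^ 2 =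
      (p.2 * x - p.1) ^ 2 + (p.2 * y) ^ 2 := by
    simp only [rotE, Equiv.coe_fn_mk]
    push_cast
    ring
  rw [e1, e2, div_div_div_cancel_right₀ hr.ne']

lemma lat_inv {x y : ℝ} (hy : 0 < y) (s : ℂ) :
    Lat (-x / (x ^ 2 + y ^ 2)) (y / (x ^ 2 + y ^ 2)) s = Lat x y s := by
  have h0 : ∀ p, rotE p = 0 ↔ p = 0 := by
    intro p
    simp only [rotE, Equiv.coe_fn_mk, Prod.ext_iff, Prod.fst_zero, Prod.snd_zero, neg_eq_zero]
    tauto
  rw [Lat, Lat]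
  refine Eq.symm ((Equiv.tsum_eq rotE _).symm.trans (tsum_congr fun p => ?_))
  by_cases hp : p = 0
  · rw [if_pos hp, if_pos ((h0 p).2 hp)]
  · rw [if_neg hp, if_neg (fun h => hp ((h0 p).1 h)), term_eq hy p]

/-- s (s-1) (2s-1) E*(z,s), entire in s -/
noncomputable def H (x y : ℝ) (s : ℂ) : ℂ :=
  1 / 2 * (s - 1) * X1 (2 * s) * (y : ℂ) ^ s + 1 / 2 * s * X1 (2 * s - 1) * (y : ℂ) ^ (1 - s) +
    s * (s - 1) * (2 * s - 1) * Nst x y s

lemma aux1 (A t s : ℂ) (hs : s ≠ 0) (ht : t ≠ 0) :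
    s * (s - 1) * t * (A / (2 * s * t)) = 1 / 2 * (s - 1) * A := by
  field_simp

lemma aux2 (A t s : ℂ) (hs : s - 1 ≠ 0) (ht : t ≠ 0) :
    s * (s - 1) * t * (A / (t * (2 * (s - 1)))) = 1 / 2 * s * A := by
  field_simp

lemma H_eq (h1 : tX) {x y : ℝ} {s : ℂ} (h0 : s ≠ 0) (h1' : s ≠ 1) (h2 : s ≠ 1 / 2) :
    H x y s = s * (s - 1) * (2 * s - 1) * Est x y s := by
  obtain ⟨_, _, _, _, _, hxi, _⟩ := h1
  have a1 : 2 * s ≠ 0 := mul_ne_zero two_ne_zero h0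
  have a2 : 2 * s ≠ 1 := fun h => h2 (by rw [← h]; ring)
  have a3 : 2 * s - 1 ≠ 0 := fun h => a2 (by linear_combination h)
  have a4 : 2 * s - 1 ≠ 1 := fun h => h1' (by linear_combination h / 2)
  have a5 : s - 1 ≠ 0 := sub_ne_zero.2 h1'
  have a6 : (2 * s - 1) - 1 ≠ 0 := sub_ne_zero.2 a4
  rw [H, Est, hxi (2 * s) a1 a2, hxi (2 * s - 1) a3 a4]
  have e1 : s * (s - 1) * (2 * s - 1) * (X1 (2 * s) / (2 * s * (2 * s - 1))) =
      1 / 2 * (s - 1) * X1 (2 * s) := aux1 _ _ _ h0 a3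
  have e2 : s * (s - 1) * (2 * s - 1) * (X1 (2 * s - 1) / ((2 * s - 1) * (2 * s - 1 - 1))) =
      1 / 2 * s * X1 (2 * s - 1) := by
    have a7 : 2 * s - 1 - 1 = 2 * (s - 1) := by ring
    rw [a7]
    exact aux2 _ _ _ a5 a3
  linear_combination (-(y : ℂ) ^ s) * e1 - ((y : ℂ) ^ (1 - s)) * e2

lemma cpow_diff {y : ℝ} (hy : 0 < y) (s : ℂ) :
    HasDerivAt (fun s : ℂ => (y : ℂ) ^ s) ((y : ℂ) ^ s * Real.log y) s := by
  have h := (hasDerivAt_id s).const_cpow (c := (y : ℂ)) (Or.inl (by exact_mod_cast hy.ne'))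
  rw [Complex.ofReal_log hy.le]
  simpa using h

lemma cpow_diff' {y : ℝ} (hy : 0 < y) (s : ℂ) :
    HasDerivAt (fun s : ℂ => (y : ℂ) ^ (1 - s)) (-((y : ℂ) ^ (1 - s) * Real.log y)) s := by
  have h := ((hasDerivAt_id s).const_sub 1).const_cpow (c := (y : ℂ))
    (Or.inl (by exact_mod_cast hy.ne'))
  rw [Complex.ofReal_log hy.le]
  simpa using h

lemma H_deriv (h1 : tX) (h2 : tN) {x y : ℝ} (hy : 0 < y) (s : ℂ) :
    HasDerivAt (H x y)
      ((1 / 2 * X1 (2 * s) + 1 / 2 * (s - 1) * (2 * deriv X1 (2 * s))) * (y : ℂ) ^ s +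
        1 / 2 * (s - 1) * X1 (2 * s) * ((y : ℂ) ^ s * Real.log y) +
      ((1 / 2 * X1 (2 * s - 1) + 1 / 2 * s * (2 * deriv X1 (2 * s - 1))) * (y : ℂ) ^ (1 - s) +
        1 / 2 * s * X1 (2 * s - 1) * (-((y : ℂ) ^ (1 - s) * Real.log y))) +
      (((1 * (s - 1) + s * 1) * (2 * s - 1) + s * (s - 1) * 2) * Nst x y s +
        s * (s - 1) * (2 * s - 1) * deriv (fun s => Nst x y s) s)) s := by
  have hX := h1.1
  have hN := h2.2.2.1 x y hy
  have id1 : HasDerivAt (fun s : ℂ => s) 1 s := hasDerivAt_id s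
  have a1 : HasDerivAt (fun s : ℂ => 2 * s) 2 s := by simpa using id1.const_mul 2
  have a2 : HasDerivAt (fun s : ℂ => 2 * s - 1) 2 s := a1.sub_const 1
  have b1 : HasDerivAt (fun s : ℂ => X1 (2 * s)) (2 * deriv X1 (2 * s)) s := by
    have := HasDerivAt.comp s (h₂ := X1) (hX (2 * s)).hasDerivAt a1
    refine this.congr_deriv ?_
    ring
  have b2 : HasDerivAt (fun s : ℂ => X1 (2 * s - 1)) (2 * deriv X1 (2 * s - 1)) s := by
    have := HasDerivAt.comp s (h₂ := X1) (hX (2 * s - 1)).hasDerivAt a2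
    refine this.congr_deriv ?_
    ring
  have c1 : HasDerivAt (fun s : ℂ => 1 / 2 * (s - 1)) (1 / 2) s := by
    simpa using (id1.sub_const 1).const_mul (1 / 2 : ℂ)
  have c2 : HasDerivAt (fun s : ℂ => 1 / 2 * s) (1 / 2) s := by
    simpa using id1.const_mul (1 / 2 : ℂ)
  have t1 := (c1.mul b1).mul (cpow_diff hy s)
  have t2 := (c2.mul b2).mul (cpow_diff' hy s)
  have t3 := ((id1.mul (id1.sub_const 1)).mul a2).mul (hN s).hasDerivAt
  exact (t1.add t2).add t3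

lemma H_differentiable (h1 : tX) (h2 : tN) {x y : ℝ} (hy : 0 < y) :
    Differentiable ℂ (H x y) := fun s => (H_deriv h1 h2 hy s).differentiableAt

lemma deriv_X1_zero (h1 : tX) : deriv X1 0 = -(1 + c0 / 2) := by
  obtain ⟨hd, hsym, _, _, hder, _⟩ := h1
  have h : HasDerivAt (fun w : ℂ => X1 (1 - w)) (deriv X1 (1 - 0) * (-1)) 0 := by
    have a : HasDerivAt (fun w : ℂ => 1 - w) (-1) 0 := by
      simpa using (hasDerivAt_id (0 : ℂ)).const_sub 1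
    exact HasDerivAt.comp (0 : ℂ) (h₂ := X1) (hd (1 - 0)).hasDerivAt a
  have e : (fun w : ℂ => X1 (1 - w)) = X1 := funext hsym
  rw [e] at h
  rw [h.deriv, sub_zero, hder]
  ring

lemma H_half (h1 : tX) (h2 : tN) {x y : ℝ} (hy : 0 < y) :
    deriv (H x y) (1 / 2) = -(1 / 2) * Ez x y := by
  have h := H_deriv h1 h2 (x := x) hy (1 / 2)
  rw [h.deriv]
  have d0 := deriv_X1_zero h1
  obtain ⟨_, _, hX0, hX1, hder, _⟩ := h1
  have e1 : 2 * (1 / 2 : ℂ) = 1 := by norm_num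
  have e2 : (1 : ℂ) - 1 / 2 = 1 / 2 := by norm_num
  have e3 : (y : ℂ) ^ (1 / 2 : ℂ) = (√y : ℝ) := by
    rw [Real.sqrt_eq_rpow, Complex.ofReal_cpow hy.le]
    push_cast
    rfl
  rw [e1, e2, sub_self, hX0, hX1, hder, d0, e3, Ez, mm]
  push_cast
  ring

lemma H_inv (h1 : tX) (h2 : tN) (h3 : tLAT) {x y : ℝ} (hy : 0 < y) :
    H (-x / (x ^ 2 + y ^ 2)) (y / (x ^ 2 + y ^ 2)) = H x y := by
  have hy' : 0 < y / (x ^ 2 + y ^ 2) := div_pos hy (rad_pos hy)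
  have hd1 := H_differentiable h1 h2 (x := -x / (x ^ 2 + y ^ 2)) hy'
  have hd2 := H_differentiable h1 h2 (x := x) hy
  have ha1 : AnalyticOnNhd ℂ (H (-x / (x ^ 2 + y ^ 2)) (y / (x ^ 2 + y ^ 2))) univ :=
    fun z _ => hd1.analyticAt z
  have ha2 : AnalyticOnNhd ℂ (H x y) univ := fun z _ => hd2.analyticAt z
  refine ha1.eq_of_eventuallyEq ha2 (z₀ := 2) ?_
  have hopen : IsOpen {s : ℂ | 1 < s.re} := isOpen_lt continuous_const continuous_re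
  have hmem : (2 : ℂ) ∈ {s : ℂ | 1 < s.re} := by
    show 1 < (2 : ℂ).re
    norm_num
  filter_upwards [hopen.mem_nhds hmem] with s hs
  have hs' : 1 < s.re := hs
  have n0 : s ≠ 0 := by
    rintro rfl
    norm_num at hs'
  have n1 : s ≠ 1 := by
    rintro rfl
    norm_num at hs'
  have n2 : s ≠ 1 / 2 := by
    rintro rfl
    norm_num at hs'
  rw [H_eq h1 n0 n1 n2, H_eq h1 n0 n1 n2, (h3 _ _ s hy' hs').2, (h3 _ _ s hy hs').2, lat_inv hy]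

end EINV_

open EINV_ in
theorem pINV (h1 : tX) (h2 : tN) (h3 : tLAT) : tINV := by
  refine ⟨?_, ?_⟩
  · intro x y s hy n0 n1 n2
    have h := congrFun (H_inv h1 h2 h3 (x := x) hy) s
    rw [H_eq h1 n0 n1 n2, H_eq h1 n0 n1 n2] at h
    have a3 : 2 * s - 1 ≠ 0 := fun h => n2 (by linear_combination h / 2)
    exact mul_left_cancel₀ (mul_ne_zero (mul_ne_zero n0 (sub_ne_zero.2 n1)) a3) h
  · intro x y hy
    have hy' : 0 < y / (x ^ 2 + y ^ 2) := div_pos hy (rad_pos hy)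
    have h := H_half h1 h2 (x := -x / (x ^ 2 + y ^ 2)) hy'
    rw [H_inv h1 h2 h3 (x := x) hy, H_half h1 h2 (x := x) hy] at h
    have h4 : (-(1 / 2) : ℂ) ≠ 0 := by norm_num
    exact (mul_left_cancel₀ h4 h).symm

end FMZ
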