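import Pool.Agent.FMZ.TE

/-!
# FMZ-E20: block E assembly
-/

open Complex MeasureTheory Set Filter Topology

namespace FMZ

namespace EISEN_

lemma int_even (f : ℝ → ℂ) (hf : ∀ x, f (-x) = f x) :
    ∫ x, f x = 2 * ∫ x in Ioi (0 : ℝ), f x := by
  by_cases hi : IntegrableOn f (Ioi 0)
  · have hIic : IntegrableOn f (Iic 0) := by
      rw [← Measure.map_neg_eq_self (volume : Measure ℝ)]
      let m : MeasurableEmbedding fun x : ℝ => -x := (Homeomorph.neg ℝ).measurableEmbedding
      rw [m.integrableOn_map_iff]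
      have e1 : (f ∘ fun x : ℝ => -x) = f := by
        funext x
        exact hf x
      rw [e1]
      simp_rw [neg_preimage, neg_Iic, neg_zero]
      exact Iff.mpr integrableOn_Ici_iff_integrableOn_Ioi hi
    have e2 : ∫ x in Iic (0 : ℝ), f x = ∫ x in Ioi (0 : ℝ), f x := by
      have := integral_comp_neg_Iic (0 : ℝ) f
      rw [neg_zero] at this
      rw [← this]
      exact setIntegral_congr_fun measurableSet_Iic fun x _ => (hf x).symm
    calc ∫ x, f x = (∫ x in Iic (0 : ℝ), f x) + ∫ x in Ioi (0 : ℝ), f x := by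
          rw [← setIntegral_union (Iic_disjoint_Ioi le_rfl) measurableSet_Ioi hIic hi,
            Iic_union_Ioi, Measure.restrict_univ]
      _ = 2 * ∫ x in Ioi (0 : ℝ), f x := by rw [e2, two_mul]
  · have : ¬ Integrable f := by
      contrapose hi
      exact hi.integrableOn
    rw [integral_undef hi, integral_undef this, mul_zero]

end EISEN_

/-- block E -/
theorem pEISEN (h1 : tX) (h2 : tRD) (h3 : tFC) (h4 : tRAY) : EISEN := by
  obtain ⟨-, -, -, -, -, -, -, -, ⟨r, hr⟩, -⟩ := h1
  obtain ⟨hF, hAut, hCusp, hSmall, hev⟩ := h3 r hr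
  obtain ⟨hR, hR5⟩ := h2 r hr
  refine ⟨Fc r, Rd r, hAut, hCusp, hSmall, hR, hR5, ?_⟩
  intro d
  rw [← h4 r hr d]
  have hL : 0 < Real.cosh d := Real.cosh_pos d
  have hsq : √(1 + Real.sinh d ^ 2) = Real.cosh d := by
    rw [show 1 + Real.sinh d ^ 2 = Real.cosh d ^ 2 by rw [Real.cosh_sq]; ring]
    exact Real.sqrt_sq hL.le
  set f : ℝ → ℂ := fun τ => Fc r (Real.exp τ * Real.tanh d) (Real.exp τ / Real.cosh d) with hf
  have hray : ray (Fc r) (Real.sinh d) = ∫ τ : ℝ, f τ := by
    rw [ray, hsq]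
    congr 1
    funext τ
    rw [hf]
    simp only
    rw [Real.tanh_eq_sinh_div_cosh, mul_div_assoc]
  have hinv : ∀ τ : ℝ, f (-τ) = f τ := by
    intro τ
    have hy : 0 < Real.exp τ / Real.cosh d := by positivity
    have e0 : (Real.exp τ * Real.tanh d) ^ 2 + (Real.exp τ / Real.cosh d) ^ 2 =
        Real.exp τ ^ 2 := by
      rw [Real.tanh_eq_sinh_div_cosh]
      have := Real.cosh_sq d
      field_simp
      rw [this]
    have e1 := hAut.inv (Real.exp τ * Real.tanh d) (Real.exp τ / Real.cosh d) hy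
    rw [e0] at e1
    have e2 : -(Real.exp τ * Real.tanh d) / Real.exp τ ^ 2 = -(Real.exp (-τ) * Real.tanh d) := by
      rw [Real.exp_neg]
      field_simp
    have e3 : Real.exp τ / Real.cosh d / Real.exp τ ^ 2 = Real.exp (-τ) / Real.cosh d := by
      rw [Real.exp_neg]
      field_simp
    rw [e2, e3, hev _ _ (by positivity)] at e1
    exact e1
  rw [hray, EISEN_.int_even f hinv]
  congr 1
  refine setIntegral_congr_fun measurableSet_Ioi ?_
  intro τ _
  exact hF _ _ (by positivity)

end FMZ
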