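import Pool.Agent.FMZ.TJ

/-!
# FMZ: targets of block Z (behaviour of B_0 at infinity and near iπ/2)
-/

open Complex MeasureTheory Set Filter Topology

namespace FMZ

/-- second derivative in v of ph (1/2) v d -/
noncomputable def ph2 (v : ℝ) (d : ℂ) : ℂ :=
  (3 / 4 * (2 * gp v d) ^ (-(5 / 2) : ℂ) * (2 * Complex.cosh d * Real.sinh v) ^ 2
    - 1 / 2 * (2 * gp v d) ^ (-(3 / 2) : ℂ) * (2 * Complex.cosh d * Real.cosh v)) +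
  (3 / 4 * (2 * gm v d) ^ (-(5 / 2) : ℂ) * (2 * Complex.cosh d * Real.sinh v) ^ 2
    - 1 / 2 * (2 * gm v d) ^ (-(3 / 2) : ℂ) * (2 * Complex.cosh d * Real.cosh v))

/-- two integrations by parts and their consequences -/
def tJU : Prop :=
  (∀ d ∈ S0, Integrable (fun v => ph2 v d) ∧ ∀ u : ℝ, u ≠ 0 →
    jf u d = -(1 / (u ^ 2 : ℝ)) * ∫ v : ℝ, ph2 v d * Complex.exp (u * I * v)) ∧
  (∀ (d : ℂ) (u : ℝ), jf (-u) d = jf u d) ∧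
  (∀ b A : ℝ, b < Real.pi / 2 → ∃ C, ∀ (d : ℂ) (u : ℝ), |d.im| ≤ b → |d.re| ≤ A →
    ‖jf u d‖ ≤ C / (1 + u ^ 2)) ∧
  (∃ C, ∀ ψ u : ℝ, Real.pi / 4 ≤ ψ → ψ < Real.pi / 2 →
    ‖jf u (ψ * I)‖ ≤ C * (1 - Real.log (Real.cos ψ)) / (1 + u ^ 2)) ∧
  (∀ d ∈ S0, Continuous (fun u => jf u d))

/-- the Bessel function K_0(z) = e^(-z) ∫_0^∞ e^(-ρ) ρ^(-1/2) (ρ+2z)^(-1/2) dρ, Re z > 0 -/
noncomputable def K0 (z : ℂ) : ℂ :=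
  Complex.exp (-z) * ∫ ρ in Ioi (0 : ℝ), ((Real.exp (-ρ) * ρ ^ (-(1 / 2) : ℝ) : ℝ) : ℂ) *
    (ρ + 2 * z) ^ (-(1 / 2) : ℂ)

/-- its derivative -/
noncomputable def K0d (z : ℂ) : ℂ :=
  -K0 z - Complex.exp (-z) * ∫ ρ in Ioi (0 : ℝ), ((Real.exp (-ρ) * ρ ^ (-(1 / 2) : ℝ) : ℝ) : ℂ) *
    (ρ + 2 * z) ^ (-(3 / 2) : ℂ)

/-- facts on K_0 -/
def tK0 : Prop :=
  (∀ z : ℂ, 0 < z.re → HasDerivAt K0 (K0d z) z) ∧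
  (∃ C, 0 < C ∧ ∀ z : ℂ, 0 < z.re → ‖K0 z‖ ≤ C * Real.exp (-z.re) * ‖z‖ ^ (-(1 / 2) : ℝ) ∧
    ‖K0 z‖ ≤ C * Real.exp (-z.re) * ‖z‖ ^ (-(1 / 16) : ℝ) ∧
    ‖K0d z‖ ≤ C * Real.exp (-z.re) * (‖z‖ ^ (-(1 / 2) : ℝ) + ‖z‖ ^ (-1 : ℝ))) ∧
  ∀ x : ℝ, 0 < x → K0 x = ∫ t in Ioi (0 : ℝ), Complex.exp (-(x * Real.cosh t : ℝ))

/-- the Fourier transform of v (v²+θ²)^(-3/2) -/
def tKFT : Prop := ∀ (θ : ℂ) (u : ℝ), 0 < θ.re → 0 < u →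
  Integrable (fun v : ℝ => v * ((v : ℂ) ^ 2 + θ ^ 2) ^ (-(3 / 2) : ℂ)) ∧
  ∫ v : ℝ, v * ((v : ℂ) ^ 2 + θ ^ 2) ^ (-(3 / 2) : ℂ) * Complex.exp (u * I * v)
    = 2 * I * u * K0 (u * θ)

/-- the model kernel 2 √θ K_0(u θ), θ = 2 e^(-d) -/
noncomputable def kf (u : ℝ) (d : ℂ) : ℂ :=
  2 * √2 * Complex.exp (-d / 2) * K0 (2 * u * Complex.exp (-d))

/-- derivative in u of kf² -/
noncomputable def kfd (u : ℝ) (d : ℂ) : ℂ :=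
  2 * kf u d * (2 * √2 * Complex.exp (-d / 2) * (2 * Complex.exp (-d)) *
    K0d (2 * u * Complex.exp (-d)))

/-- comparison of j with the model kernel -/
def tERR : Prop := ∀ b, 0 < b → b < Real.pi / 2 → ∃ C, 0 < C ∧ ∀ (d : ℂ), |d.im| ≤ b → 1 ≤ d.re →
  (∀ u : ℝ, 0 < u → u ≤ 1 →
    ‖jf u d - kf u d‖ ≤ C * Real.exp (-(7 / 16 * d.re)) * u ^ (-(1 / 16) : ℝ)) ∧
  ∀ u : ℝ, 1 ≤ u → ‖jf u d - kf u d‖ ≤ C * Real.exp (-(7 / 16 * d.re)) * u ^ (-2 : ℝ)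

/-- the main term is a polynomial -/
def tMAIN : Prop := ∀ R : Polynomial ℝ, ∃ Q : Polynomial ℂ, ∀ d ∈ S0,
  IntegrableOn (fun u : ℝ => ((R.eval (Real.log u) : ℝ) : ℂ) * kf u d ^ 2) (Ioi 0) ∧
  (1 / Real.pi : ℝ) * ∫ u in Ioi (0 : ℝ), ((R.eval (Real.log u) : ℝ) : ℂ) * kf u d ^ 2 = Q.eval d

/-- the error term -/
def tEST : Prop := (∀ d ∈ S0, ∀ u : ℝ, 0 < u → HasDerivAt (fun u => kf u d ^ 2) (kfd u d) u) ∧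
  ∃ C, 0 < C ∧ ∀ d ∈ S0, IntegrableOn (fun u : ℝ => √u * ‖kfd u d‖) (Ioi 0) ∧
    ∫ u in Ioi (0 : ℝ), √u * ‖kfd u d‖ ≤
      C * Real.exp (-(d.re / 2)) / √(Real.pi / 2 - |d.im|)

/-- 𝔧_k: integrability, analyticity, parity -/
def tJKAN : Prop := ∀ k : ℕ, DifferentiableOn ℂ (jk k) S0 ∧ (∀ d ∈ S0, jk k (-d) = jk k d) ∧
  ∀ d ∈ S0, IntegrableOn (fun v : ℝ => ph (1 / 2) v d *
      ((-v) ^ k * Real.exp (-(v / 2)) : ℝ)) (Ioi 0) ∧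
    IntegrableOn (fun v : ℝ => (ph (1 / 2) v d - 2 * qf d * Real.exp (-(v / 2))) *
        (v ^ k * Real.exp (v / 2) : ℝ)) (Ioi 0)

/-- 𝔧_k at infinity -/
def tJKINF : Prop := ∀ (k : ℕ) (b : ℝ), 0 < b → b < Real.pi / 2 → ∃ C, ∀ d : ℂ, |d.im| ≤ b →
  1 ≤ d.re → ‖jk k d‖ ≤ C * Real.exp (-(d.re / 4))

/-- 𝔧_k near iπ/2 -/
def tJKIM : Prop := ∀ k : ℕ, ∃ C, ∀ ψ : ℝ, Real.pi / 4 ≤ ψ → ψ < Real.pi / 2 →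
  ‖jk k (ψ * I) + (2 / ((k + 1).factorial : ℝ) * (Real.cos ψ) ^ (-(1 / 2) : ℝ) *
      (-Real.log (Real.cos ψ)) ^ (k + 1) : ℝ)‖ ≤
    C * (Real.cos ψ) ^ (-(1 / 2) : ℝ) * (1 - Real.log (Real.cos ψ)) ^ k

end FMZ
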