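import Pool.Agent.FMZ.TE
import Pool.Agent.FMZ.TZ

/-!
# FMZ-E9: the value of `J_0` (MP_bc82fd_nt)

Blueprint of helper61, formalised by helper92.
-/

open Complex MeasureTheory Set Filter Topology

namespace FMZ

namespace EJ0_

/-! ## the expansion of `lamf` -/

lemma lamf_analytic : AnalyticAt ℂ lamf 0 := by
  refine analyticAt_of_differentiable_on_punctured_nhds_of_continuousAt ?_ ?_
  · have h1 : ∀ᶠ z : ℂ in 𝓝 0, z ∈ Metric.ball (0 : ℂ) 1 := Metric.ball_mem_nhds _ one_pos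
    rw [eventually_nhdsWithin_iff]
    filter_upwards [h1] with z hz hz0
    have hz0' : z ≠ 0 := hz0
    have hz1 : ‖z‖ < 1 := by simpa using hz
    have h2 : lamf =ᶠ[𝓝 z] fun ε => ε * riemannZeta (1 + ε) * riemannZeta (-ε) := by
      filter_upwards [isOpen_ne.mem_nhds hz0'] with ε hε
      unfold lamf
      rw [if_neg hε]
    rw [h2.differentiableAt_iff]
    have h3 : DifferentiableAt ℂ riemannZeta (1 + z) :=
      differentiableAt_riemannZeta (by simpa using hz0')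
    have h4 : DifferentiableAt ℂ riemannZeta (-z) := by
      refine differentiableAt_riemannZeta ?_
      intro h
      rw [neg_eq_iff_eq_neg] at h
      rw [h] at hz1
      simp at hz1
    have h5 : DifferentiableAt ℂ (fun ε : ℂ => riemannZeta (1 + ε)) z :=
      DifferentiableAt.comp z h3 (by fun_prop)
    have h6 : DifferentiableAt ℂ (fun ε : ℂ => riemannZeta (-ε)) z :=
      DifferentiableAt.comp z h4 (by fun_prop)
    exact (differentiableAt_id.mul h5).mul h6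
  · rw [← continuousWithinAt_compl_self]
    have h1 : Tendsto (fun ε : ℂ => ε * riemannZeta (1 + ε)) (𝓝[≠] 0) (𝓝 1) := by
      have h2 : Tendsto (fun ε : ℂ => 1 + ε) (𝓝[≠] 0) (𝓝[≠] 1) := by
        refine tendsto_nhdsWithin_iff.2 ⟨?_, ?_⟩
        · have : Tendsto (fun ε : ℂ => 1 + ε) (𝓝 0) (𝓝 (1 + 0)) :=
            (continuous_const.add continuous_id).tendsto 0
          rw [add_zero] at this
          exact this.mono_left nhdsWithin_le_nhds
        · filter_upwards [self_mem_nhdsWithin] with ε hε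
          simpa using hε
      refine (riemannZeta_residue_one.comp h2).congr fun ε => ?_
      simp
    have h3 : Tendsto (fun ε : ℂ => riemannZeta (-ε)) (𝓝[≠] 0) (𝓝 (-1 / 2)) := by
      have h4 : ContinuousAt riemannZeta 0 :=
        (differentiableAt_riemannZeta (by norm_num)).continuousAt
      have h5 : Tendsto (fun ε : ℂ => -ε) (𝓝[≠] 0) (𝓝 0) := by
        have : Tendsto (fun ε : ℂ => -ε) (𝓝 0) (𝓝 (-0)) := continuous_neg.tendsto 0
        rw [neg_zero] at this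
        exact this.mono_left nhdsWithin_le_nhds
      have := h4.tendsto.comp h5
      rwa [riemannZeta_zero] at this
    have h6 := h1.mul h3
    have h7 : lamf 0 = 1 * (-1 / 2) := by simp [lamf]
    unfold ContinuousWithinAt
    rw [h7]
    refine h6.congr' ?_
    filter_upwards [self_mem_nhdsWithin] with ε hε
    have hε' : ε ≠ 0 := hε
    unfold lamf
    rw [if_neg hε']

lemma lamf_expand : ∃ K δ : ℝ, 0 < δ ∧ 0 ≤ K ∧ ∀ e : ℝ, -δ < e → e < 0 →
    ‖lamf e - (-1 / 2 + lam 0 * e + lam 1 * e ^ 2 + lam 2 * e ^ 3)‖ ≤ K * |e| ^ 4 := by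
  have h1 := lamf_analytic.hasFPowerSeriesAt.isBigO_sub_partialSum_pow 4
  obtain ⟨K, hK⟩ := h1.bound
  rw [Metric.eventually_nhds_iff] at hK
  obtain ⟨δ, hδ, hK⟩ := hK
  refine ⟨|K|, δ, hδ, abs_nonneg K, fun e he1 he2 => ?_⟩
  have h2 := hK (y := (e : ℂ)) (by
    rw [dist_zero_right, Complex.norm_real, Real.norm_eq_abs, abs_of_neg he2]
    linarith)
  have h3 : (FormalMultilinearSeries.ofScalars ℂ
      (fun n ↦ iteratedDeriv n lamf 0 / n.factorial)).partialSum 4 (e : ℂ) =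
      -1 / 2 + lam 0 * e + lam 1 * e ^ 2 + lam 2 * e ^ 3 := by
    unfold FormalMultilinearSeries.partialSum
    simp only [Finset.sum_range_succ, Finset.sum_range_zero,
      FormalMultilinearSeries.ofScalars_apply_eq]
    unfold lam
    simp [lamf]
  rw [h3, zero_add] at h2
  refine h2.trans ?_
  rw [Complex.norm_real, Real.norm_eq_abs, Real.norm_eq_abs, abs_pow, abs_abs]
  exact mul_le_mul_of_nonneg_right (le_abs_self K) (by positivity)

/-! ## exponentials -/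

lemma exp_bound2 (x : ℝ) : |Real.exp x - 1 - x| ≤ x ^ 2 * Real.exp |x| := by
  have h := Complex.norm_exp_sub_sum_le_norm_mul_exp (x : ℂ) 2
  simp only [Finset.sum_range_succ, Finset.sum_range_zero, Nat.factorial] at h
  rw [Complex.norm_real, Real.norm_eq_abs, sq_abs] at h
  refine le_trans (le_of_eq ?_) h
  rw [← Real.norm_eq_abs, ← Complex.norm_real]
  congr 1
  push_cast
  simp
  ring

lemma exp_bound3 (x : ℝ) : |Real.exp x - 1 - x - x ^ 2 / 2| ≤ |x| ^ 3 * Real.exp |x| := by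
  have h := Complex.norm_exp_sub_sum_le_norm_mul_exp (x : ℂ) 3
  simp only [Finset.sum_range_succ, Finset.sum_range_zero, Nat.factorial] at h
  rw [Complex.norm_real, Real.norm_eq_abs] at h
  refine le_trans (le_of_eq ?_) h
  rw [← Real.norm_eq_abs, ← Complex.norm_real]
  congr 1
  push_cast
  simp
  ring

lemma exp_bound3' (x : ℝ) (hx : x ≤ 0) : |Real.exp x - 1 - x - x ^ 2 / 2| ≤ 4 * |x| ^ 3 := by
  by_cases h1 : |x| ≤ 1
  · refine (exp_bound3 x).trans ?_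
    have h2 : Real.exp |x| ≤ 4 := by
      refine (Real.exp_le_exp.2 h1).trans ?_
      linarith [Real.exp_one_lt_d9]
    rw [mul_comm]
    exact mul_le_mul_of_nonneg_right h2 (by positivity)
  · have h1' : 1 < |x| := not_le.1 h1
    rw [abs_of_nonpos hx] at h1' ⊢
    have h2 : Real.exp x ≤ 1 := Real.exp_le_one_iff.2 hx
    have h3 := Real.exp_pos x
    rw [abs_le]
    have h4 : (-x) ^ 2 ≤ (-x) ^ 3 := by nlinarith [sq_nonneg x]
    have h5 : -x ≤ (-x) ^ 3 := by nlinarith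
    constructor <;> nlinarith

/-! ## bounds of ph for real d -/

lemma gp_real (v d : ℝ) : gp v d = ((Real.cosh d * Real.cosh v + Real.sinh d : ℝ) : ℂ) := by
  unfold gp
  push_cast
  rfl

lemma gm_real (v d : ℝ) : gm v d = ((Real.cosh d * Real.cosh v - Real.sinh d : ℝ) : ℂ) := by
  unfold gm
  push_cast
  rfl

lemma ph_neg (s : ℂ) (v : ℝ) (d : ℂ) : ph s (-v) d = ph s v d := by
  unfold ph gp gm
  rw [Real.cosh_neg]

lemma low (d v : ℝ) : Real.exp (-|d|) ≤ Real.cosh d * Real.cosh v + Real.sinh d ∧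
    Real.exp (-|d|) ≤ Real.cosh d * Real.cosh v - Real.sinh d := by
  have h1 := Real.one_le_cosh v
  have h2 := Real.cosh_pos d
  have h3 : Real.exp (-|d|) = Real.cosh d - |Real.sinh d| := by
    rw [Real.abs_sinh, ← Real.cosh_abs d, Real.cosh_sub_sinh]
  have h4 := abs_le.1 (le_refl |Real.sinh d|)
  rw [h3]
  constructor <;> nlinarith

lemma cpow_bound (x c : ℝ) (hc : 0 < c) (h : c ≤ x) :
    ‖((2 : ℂ) * (x : ℂ)) ^ (-(1 / 2) : ℂ)‖ ≤ c ^ (-(1 / 2) : ℝ) := by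
  have hx : 0 < 2 * x := by linarith
  rw [show (2 : ℂ) * (x : ℂ) = ((2 * x : ℝ) : ℂ) by push_cast; ring,
    show (-(1 / 2) : ℂ) = ((-(1 / 2) : ℝ) : ℂ) by push_cast; ring, ← ofReal_cpow hx.le,
    Complex.norm_real, Real.norm_of_nonneg (Real.rpow_nonneg hx.le _)]
  exact Real.rpow_le_rpow_of_nonpos hc (by linarith) (by norm_num)

lemma ph_bound (d : ℝ) : ∃ C : ℝ, 0 ≤ C ∧ ∀ v : ℝ, ‖ph (1 / 2) v d‖ ≤ C := by
  refine ⟨2 * Real.exp (-|d|) ^ (-(1 / 2) : ℝ), by positivity, fun v => ?_⟩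
  obtain ⟨h1, h2⟩ := low d v
  unfold ph
  rw [gp_real, gm_real, two_mul (Real.exp (-|d|) ^ (-(1 / 2) : ℝ))]
  exact (norm_add_le _ _).trans (add_le_add (cpow_bound _ _ (Real.exp_pos _) h1)
    (cpow_bound _ _ (Real.exp_pos _) h2))

/-! ## the functions `a`, `b` -/

/-- the first integrand -/
noncomputable def fa (d : ℝ) (v : ℝ) : ℂ := ph (1 / 2) v d * (Real.exp (-(v / 2)) : ℝ)

/-- the second integrand -/
noncomputable def fb (d : ℝ) (v : ℝ) : ℂ :=
  (ph (1 / 2) v d - 2 * qf d * Real.exp (-(v / 2))) * (Real.exp (v / 2) : ℝ)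

lemma mem_S0 (d : ℝ) : (d : ℂ) ∈ S0 := by
  show |(d : ℂ).im| < Real.pi / 2
  rw [ofReal_im, abs_zero]
  exact Real.pi_div_two_pos

lemma fa_pow_int (h3 : tJKAN) (d : ℝ) (k : ℕ) :
    IntegrableOn (fun v : ℝ => fa d v * ((-v) ^ k : ℝ)) (Ioi 0) := by
  have := ((h3 k).2.2 d (mem_S0 d)).1
  refine this.congr_fun (fun v _ => ?_) measurableSet_Ioi
  simp only [fa]
  push_cast
  ring

lemma fb_pow_int (h3 : tJKAN) (d : ℝ) (k : ℕ) :
    IntegrableOn (fun v : ℝ => fb d v * (v ^ k : ℝ)) (Ioi 0) := by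
  have := ((h3 k).2.2 d (mem_S0 d)).2
  refine this.congr_fun (fun v _ => ?_) measurableSet_Ioi
  simp only [fb]
  push_cast
  ring

lemma fa_int (h3 : tJKAN) (d : ℝ) : IntegrableOn (fa d) (Ioi 0) := by
  have := fa_pow_int h3 d 0
  simpa using this

lemma fb_int (h3 : tJKAN) (d : ℝ) : IntegrableOn (fb d) (Ioi 0) := by
  have := fb_pow_int h3 d 0
  simpa using this

lemma jk_eq (d : ℝ) (k : ℕ) : jk k d = (1 / (k.factorial : ℂ)) *
    ((∫ v in Ioi (0 : ℝ), fa d v * ((-v) ^ k : ℝ)) + ∫ v in Ioi (0 : ℝ), fb d v * (v ^ k : ℝ)) := by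
  unfold jk
  congr 2
  · refine integral_congr_ae (ae_of_all _ fun v => ?_)
    simp only [fa]
    push_cast
    ring
  · refine integral_congr_ae (ae_of_all _ fun v => ?_)
    simp only [fb]
    push_cast
    ring

lemma fa_bound (d : ℝ) : ∃ C : ℝ, 0 ≤ C ∧ ∀ v : ℝ, ‖fa d v‖ ≤ C * Real.exp (-(v / 2)) := by
  obtain ⟨C, hC, h⟩ := ph_bound d
  refine ⟨C, hC, fun v => ?_⟩
  unfold fa
  rw [norm_mul, Complex.norm_real, Real.norm_of_nonneg (Real.exp_pos _).le]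
  exact mul_le_mul_of_nonneg_right (h v) (Real.exp_pos _).le

/-- `v^3 e^(-v/4)` is integrable -/
lemma model_int : IntegrableOn (fun v : ℝ => v ^ 3 * Real.exp (-(v / 4))) (Ioi 0) := by
  have h := integrableOn_rpow_mul_exp_neg_mul_rpow (p := 1) (s := 3) (b := 1 / 4)
    (by norm_num) (by norm_num) (by norm_num)
  refine h.congr_fun (fun v hv => ?_) measurableSet_Ioi
  simp only [Real.rpow_one]
  rw [show (3 : ℝ) = ((3 : ℕ) : ℝ) by norm_num, Real.rpow_natCast]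
  congr 2
  ring

lemma exp_neg_int (c : ℝ) (hc : 0 < c) : IntegrableOn (fun v : ℝ => Real.exp (-(c * v))) (Ioi 0) := by
  have := exp_neg_integrableOn_Ioi 0 hc
  simpa only [neg_mul] using this

/-- `fa e^(-e v)` is integrable for `|e| ≤ 1/4` -/
lemma fa_exp_int (h3 : tJKAN) (d e : ℝ) (he : -(1 / 4) ≤ e) :
    IntegrableOn (fun v : ℝ => fa d v * (Real.exp (-(e * v)) : ℝ)) (Ioi 0) := by
  obtain ⟨C, hC, hb⟩ := fa_bound d
  have hint : IntegrableOn (fun v : ℝ => C * Real.exp (-(1 / 4 * v))) (Ioi 0) :=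
    (exp_neg_int (1 / 4) (by norm_num)).const_mul C
  refine Integrable.mono' hint ?_ ?_
  · exact (fa_int h3 d).aestronglyMeasurable.mul
      (by fun_prop : Continuous fun v : ℝ => ((Real.exp (-(e * v)) : ℝ) : ℂ)).aestronglyMeasurable
  · filter_upwards [ae_restrict_mem measurableSet_Ioi] with v hv
    have hv0 : 0 < v := hv
    rw [norm_mul, Complex.norm_real, Real.norm_of_nonneg (Real.exp_pos _).le]
    calc ‖fa d v‖ * Real.exp (-(e * v)) ≤ C * Real.exp (-(v / 2)) * Real.exp (-(e * v)) :=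
          mul_le_mul_of_nonneg_right (hb v) (Real.exp_pos _).le
      _ = C * Real.exp (-(v / 2) + -(e * v)) := by rw [mul_assoc, ← Real.exp_add]
      _ ≤ C * Real.exp (-(1 / 4 * v)) := by
          refine mul_le_mul_of_nonneg_left (Real.exp_le_exp.2 ?_) hC
          nlinarith

/-- `fb e^(e v)` is integrable for `e ≤ 0` -/
lemma fb_exp_int (h3 : tJKAN) (d e : ℝ) (he0 : e ≤ 0) :
    IntegrableOn (fun v : ℝ => fb d v * (Real.exp (e * v) : ℝ)) (Ioi 0) := by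
  refine Integrable.mono (fb_int h3 d) ?_ ?_
  · exact (fb_int h3 d).aestronglyMeasurable.mul
      (by fun_prop : Continuous fun v : ℝ => ((Real.exp (e * v) : ℝ) : ℂ)).aestronglyMeasurable
  · filter_upwards [ae_restrict_mem measurableSet_Ioi] with v hv
    have hv0 : 0 < v := hv
    rw [norm_mul, Complex.norm_real, Real.norm_of_nonneg (Real.exp_pos _).le]
    refine mul_le_of_le_one_right (norm_nonneg _) (Real.exp_le_one_iff.2 ?_)
    nlinarith

lemma comb {μ : Measure ℝ} {f0 f1 f2 f3 : ℝ → ℂ} (h0 : Integrable f0 μ) (h1 : Integrable f1 μ)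
    (h2 : Integrable f2 μ) (h3 : Integrable f3 μ) (c c' : ℂ) :
    ∫ v, (f0 v - f1 v - c * f2 v - c' * f3 v) ∂μ =
      (∫ v, f0 v ∂μ) - (∫ v, f1 v ∂μ) - c * (∫ v, f2 v ∂μ) - c' * (∫ v, f3 v ∂μ) := by
  have e1 : Integrable (fun v => f0 v - f1 v) μ := h0.sub h1
  have e2 : Integrable (fun v => f0 v - f1 v - c * f2 v) μ := e1.sub (h2.const_mul c)
  rw [integral_sub e2 (h3.const_mul c'), integral_sub e1 (h2.const_mul c), integral_sub h0 h1,
    integral_const_mul, integral_const_mul]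

/-- the function `j(e)` -/
noncomputable def je (d e : ℝ) : ℂ :=
  (∫ v in Ioi (0 : ℝ), fa d v * (Real.exp (-(e * v)) : ℝ)) +
    ∫ v in Ioi (0 : ℝ), fb d v * (Real.exp (e * v) : ℝ)

lemma je_expand (h3 : tJKAN) (d : ℝ) : ∃ K : ℝ, 0 ≤ K ∧ ∀ e : ℝ, -(1 / 4) ≤ e → e < 0 →
    ‖je d e - (jk 0 d + jk 1 d * e + jk 2 d * e ^ 2)‖ ≤ K * |e| ^ 3 := by
  obtain ⟨C, hC, hb⟩ := fa_bound d
  have hB := (fb_pow_int h3 d 3).norm
  refine ⟨(∫ v in Ioi (0 : ℝ), C * (v ^ 3 * Real.exp (-(v / 4)))) +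
    ∫ v in Ioi (0 : ℝ), 4 * ‖fb d v * (v ^ 3 : ℝ)‖, ?_, fun e he1 he2 => ?_⟩
  · refine add_nonneg (setIntegral_nonneg measurableSet_Ioi fun v hv => ?_)
      (setIntegral_nonneg measurableSet_Ioi fun v _ => by positivity)
    have : (0 : ℝ) < v := hv
    positivity
  have i0 := fa_exp_int h3 d e he1
  have i1 := fb_exp_int h3 d e he2.le
  have a0 := fa_pow_int h3 d 0
  have a1 := fa_pow_int h3 d 1
  have a2 := fa_pow_int h3 d 2
  have b0 := fb_pow_int h3 d 0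
  have b1 := fb_pow_int h3 d 1
  have b2 := fb_pow_int h3 d 2
  have hdiff : je d e - (jk 0 d + jk 1 d * e + jk 2 d * e ^ 2) =
      (∫ v in Ioi (0 : ℝ), fa d v *
        ((Real.exp (-(e * v)) - 1 - (-(e * v)) - (-(e * v)) ^ 2 / 2 : ℝ) : ℂ)) +
      ∫ v in Ioi (0 : ℝ), fb d v *
        ((Real.exp (e * v) - 1 - e * v - (e * v) ^ 2 / 2 : ℝ) : ℂ) := by
    have ha : ∫ v in Ioi (0 : ℝ), fa d v *
        ((Real.exp (-(e * v)) - 1 - (-(e * v)) - (-(e * v)) ^ 2 / 2 : ℝ) : ℂ) =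
        (∫ v in Ioi (0 : ℝ), fa d v * (Real.exp (-(e * v)) : ℝ)) -
        (∫ v in Ioi (0 : ℝ), fa d v * ((-v) ^ 0 : ℝ)) -
        (e : ℂ) * (∫ v in Ioi (0 : ℝ), fa d v * ((-v) ^ 1 : ℝ)) -
        ((e : ℂ) ^ 2 / 2) * (∫ v in Ioi (0 : ℝ), fa d v * ((-v) ^ 2 : ℝ)) := by
      rw [← comb i0 a0 a1 a2]
      refine integral_congr_ae (ae_of_all _ fun v => ?_)
      push_cast
      ring
    have hb : ∫ v in Ioi (0 : ℝ), fb d v *
        ((Real.exp (e * v) - 1 - e * v - (e * v) ^ 2 / 2 : ℝ) : ℂ) =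
        (∫ v in Ioi (0 : ℝ), fb d v * (Real.exp (e * v) : ℝ)) -
        (∫ v in Ioi (0 : ℝ), fb d v * (v ^ 0 : ℝ)) -
        (e : ℂ) * (∫ v in Ioi (0 : ℝ), fb d v * (v ^ 1 : ℝ)) -
        ((e : ℂ) ^ 2 / 2) * (∫ v in Ioi (0 : ℝ), fb d v * (v ^ 2 : ℝ)) := by
      rw [← comb i1 b0 b1 b2]
      refine integral_congr_ae (ae_of_all _ fun v => ?_)
      push_cast
      ring
    rw [ha, hb, jk_eq, jk_eq, jk_eq]
    unfold je
    simp only [Nat.factorial]
    push_cast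
    ring
  rw [hdiff, add_mul]
  refine (norm_add_le _ _).trans (add_le_add ?_ ?_)
  · rw [← integral_mul_const]
    refine norm_integral_le_of_norm_le ((model_int.const_mul C).mul_const _) ?_
    filter_upwards [ae_restrict_mem measurableSet_Ioi] with v hv
    have hv0 : 0 < v := hv
    rw [norm_mul, Complex.norm_real, Real.norm_eq_abs]
    have h4 := exp_bound3 (-(e * v))
    have h5 : |(-(e * v))| = |e| * v := by rw [abs_neg, abs_mul, abs_of_pos hv0]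
    rw [h5] at h4
    have h6 : |e| ≤ 1 / 4 := by rw [abs_of_neg he2]; linarith
    calc ‖fa d v‖ * |Real.exp (-(e * v)) - 1 - (-(e * v)) - (-(e * v)) ^ 2 / 2|
        ≤ (C * Real.exp (-(v / 2))) * ((|e| * v) ^ 3 * Real.exp (|e| * v)) :=
          mul_le_mul (hb v) h4 (abs_nonneg _) (by positivity)
      _ = C * (v ^ 3 * Real.exp (-(v / 2) + |e| * v)) * |e| ^ 3 := by
          rw [Real.exp_add]; ring
      _ ≤ C * (v ^ 3 * Real.exp (-(v / 4))) * |e| ^ 3 := by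
          refine mul_le_mul_of_nonneg_right (mul_le_mul_of_nonneg_left
            (mul_le_mul_of_nonneg_left (Real.exp_le_exp.2 ?_) (by positivity)) hC) (by positivity)
          nlinarith
  · rw [← integral_mul_const]
    refine norm_integral_le_of_norm_le ((hB.const_mul 4).mul_const _) ?_
    filter_upwards [ae_restrict_mem measurableSet_Ioi] with v hv
    have hv0 : 0 < v := hv
    rw [norm_mul, norm_mul, Complex.norm_real, Real.norm_eq_abs, Complex.norm_real,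
      Real.norm_of_nonneg (by positivity : (0 : ℝ) ≤ v ^ 3)]
    have h4 := exp_bound3' (e * v) (by nlinarith)
    have h5 : |e * v| = |e| * v := by rw [abs_mul, abs_of_pos hv0]
    rw [h5] at h4
    calc ‖fb d v‖ * |Real.exp (e * v) - 1 - e * v - (e * v) ^ 2 / 2|
        ≤ ‖fb d v‖ * (4 * (|e| * v) ^ 3) := mul_le_mul_of_nonneg_left h4 (norm_nonneg _)
      _ = 4 * (‖fb d v‖ * v ^ 3) * |e| ^ 3 := by ring

lemma JJ_split (h3 : tJKAN) (d e : ℝ) (he1 : -(1 / 4) ≤ e) (he2 : e < 0) :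
    JJ (1 / 2) ((1 / 2 + e : ℝ) : ℂ) d = -2 * qf d / e + je d e := by
  have i0 := fa_exp_int h3 d e he1
  have i1 := fb_exp_int h3 d e he2.le
  have i2 : IntegrableOn (fun v : ℝ => 2 * qf d * Complex.exp ((e : ℂ) * v)) (Ioi 0) :=
    (integrableOn_exp_mul_complex_Ioi (a := (e : ℂ)) (by simpa using he2) 0).const_mul _
  have hright : ∀ v : ℝ, ph (1 / 2) v d * Complex.exp (((1 / 2 + e : ℝ) : ℂ) * v) =
      fb d v * (Real.exp (e * v) : ℝ) + 2 * qf d * Complex.exp ((e : ℂ) * v) := by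
    intro v
    unfold fb
    have e1 : Complex.exp (((1 / 2 + e : ℝ) : ℂ) * v) =
        Complex.exp (v / 2) * Complex.exp (e * v) := by
      rw [← Complex.exp_add]
      congr 1
      push_cast
      ring
    have e2 : Complex.exp (-(v / 2 : ℂ)) * Complex.exp (v / 2) = 1 := by
      rw [← Complex.exp_add, neg_add_cancel, Complex.exp_zero]
    rw [e1]
    push_cast
    linear_combination (2 * qf d * Complex.exp (e * v)) * e2
  have hleft : ∀ v : ℝ, ph (1 / 2) (-v) d * Complex.exp (((1 / 2 + e : ℝ) : ℂ) * ((-v : ℝ) : ℂ)) =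
      fa d v * (Real.exp (-(e * v)) : ℝ) := by
    intro v
    unfold fa
    rw [ph_neg, mul_assoc]
    congr 1
    push_cast
    rw [← Complex.exp_add]
    congr 1
    ring
  have hI1 : IntegrableOn (fun v : ℝ => ph (1 / 2) v d *
      Complex.exp (((1 / 2 + e : ℝ) : ℂ) * v)) (Ioi 0) := by
    refine (i1.add i2).congr_fun (fun v _ => ?_) measurableSet_Ioi
    exact (hright v).symm
  have hI2 : IntegrableOn (fun v : ℝ => ph (1 / 2) v d *
      Complex.exp (((1 / 2 + e : ℝ) : ℂ) * v)) (Iic 0) := by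
    have h4 : IntegrableOn (fun v : ℝ => ph (1 / 2) (-v) d *
        Complex.exp (((1 / 2 + e : ℝ) : ℂ) * ((-v : ℝ) : ℂ))) (Ioi 0) :=
      i0.congr_fun (fun v _ => (hleft v).symm) measurableSet_Ioi
    have h5 := IntegrableOn.comp_neg_Iio (c := (0 : ℝ)) (f := fun v : ℝ => ph (1 / 2) (-v) d *
        Complex.exp (((1 / 2 + e : ℝ) : ℂ) * ((-v : ℝ) : ℂ))) (by rw [neg_zero]; exact h4)
    rw [integrableOn_Iic_iff_integrableOn_Iio]
    simpa only [neg_neg] using h5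
  unfold JJ
  rw [← intervalIntegral.integral_Iic_add_Ioi hI2 hI1]
  have e3 : ∫ v in Iic (0 : ℝ), ph (1 / 2) v d * Complex.exp (((1 / 2 + e : ℝ) : ℂ) * v) =
      ∫ v in Ioi (0 : ℝ), fa d v * (Real.exp (-(e * v)) : ℝ) := by
    have := integral_comp_neg_Ioi 0 (fun v : ℝ => ph (1 / 2) v d *
      Complex.exp (((1 / 2 + e : ℝ) : ℂ) * v))
    rw [neg_zero] at this
    rw [← this]
    exact integral_congr_ae (ae_of_all _ fun v => hleft v)
  have e4 : ∫ v in Ioi (0 : ℝ), ph (1 / 2) v d * Complex.exp (((1 / 2 + e : ℝ) : ℂ) * v) =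
      (∫ v in Ioi (0 : ℝ), fb d v * (Real.exp (e * v) : ℝ)) + -2 * qf d / e := by
    have e5 : ∫ v in Ioi (0 : ℝ), 2 * qf d * Complex.exp ((e : ℂ) * v) = -2 * qf d / e := by
      rw [integral_const_mul, integral_exp_mul_complex_Ioi (by simpa using he2)]
      simp
      ring
    rw [← e5, ← integral_add i1 i2]
    exact integral_congr_ae (ae_of_all _ fun v => hright v)
  rw [e3, e4]
  unfold je
  ring

/-! ## the function `N` -/

lemma N_cont (h1 : tN) (d : ℝ) : Continuous (fun τ : ℝ => Nr d τ (1 / 2)) := by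
  have h := h1.2.2.2.1
  have h2 : Continuous (fun τ : ℝ => (((Real.exp τ * Real.tanh d, Real.exp τ / Real.cosh d),
      (1 / 2 : ℂ)) : (ℝ × ℝ) × ℂ)) := by
    have : Real.cosh d ≠ 0 := (Real.cosh_pos d).ne'
    fun_prop (disch := assumption)
  exact h.comp_continuous h2 fun τ => div_pos (Real.exp_pos _) (Real.cosh_pos _)

lemma N_bound (h1 : tN) (d : ℝ) : ∃ C : ℝ, 0 ≤ C ∧ ∀ τ : ℝ, 0 ≤ τ →
    ‖Nr d τ (1 / 2)‖ ≤ C * Real.exp (-(4 * τ)) := by
  have hL := Real.cosh_pos d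
  obtain ⟨C, c, hC, hc, h⟩ := h1.2.1 1 0 (1 / Real.cosh d) one_pos le_rfl
    (by positivity) (by positivity)
  refine ⟨C * (24 * (Real.cosh d / c) ^ 4), by positivity, fun τ hτ => ?_⟩
  have h2 := h (Real.exp τ * Real.tanh d) (Real.exp τ / Real.cosh d) (1 / 2) (by norm_num) (by
    gcongr
    exact Real.one_le_exp hτ)
  unfold Nr
  refine h2.trans ?_
  rw [neg_zero, zero_mul, Real.exp_zero, mul_one, mul_assoc]
  refine mul_le_mul_of_nonneg_left ?_ hC.le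
  have hx : 0 < c * (Real.exp τ / Real.cosh d) := by positivity
  have h3 := Real.pow_div_factorial_le_exp (c * (Real.exp τ / Real.cosh d)) hx.le 4
  have h4 : Real.exp (-(c * (Real.exp τ / Real.cosh d))) ≤
      24 / (c * (Real.exp τ / Real.cosh d)) ^ 4 := by
    rw [Real.exp_neg, inv_le_comm₀ (Real.exp_pos _) (by positivity), inv_div]
    simpa [Nat.factorial] using h3
  refine h4.trans (le_of_eq ?_)
  have h5 : Real.exp (-(4 * τ)) = (Real.exp τ ^ 4)⁻¹ := by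
    rw [Real.exp_neg, ← Real.exp_nat_mul]
    norm_num
  rw [h5]
  field_simp

/-- integrability of `N` times a function of moderate growth -/
lemma N_int (h1 : tN) (d : ℝ) (g : ℝ → ℂ) (hg : Continuous g) (K : ℝ)
    (hb : ∀ τ : ℝ, 0 ≤ τ → ‖g τ‖ ≤ K * Real.exp (3 * τ)) :
    IntegrableOn (fun τ : ℝ => Nr d τ (1 / 2) * g τ) (Ioi 0) := by
  obtain ⟨C, hC, hN⟩ := N_bound h1 d
  have hint : IntegrableOn (fun v : ℝ => C * K * Real.exp (-(1 * v))) (Ioi 0) :=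
    (exp_neg_int 1 (by norm_num)).const_mul _
  refine Integrable.mono' hint ((N_cont h1 d).mul hg).aestronglyMeasurable ?_
  filter_upwards [ae_restrict_mem measurableSet_Ioi] with v hv
  have hv0 : (0 : ℝ) ≤ v := le_of_lt hv
  rw [norm_mul]
  calc ‖Nr d v (1 / 2)‖ * ‖g v‖ ≤ (C * Real.exp (-(4 * v))) * (K * Real.exp (3 * v)) :=
        mul_le_mul (hN v hv0) (hb v hv0) (norm_nonneg _) (by positivity)
    _ = C * K * (Real.exp (-(4 * v)) * Real.exp (3 * v)) := by ring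
    _ = C * K * Real.exp (-(1 * v)) := by rw [← Real.exp_add]; ring_nf

lemma cosh_bound (e τ : ℝ) (hτ : 0 ≤ τ) (he1 : -(1 / 4) ≤ e) (he2 : e < 0) :
    |Real.cosh ((1 / 2 + e) * τ) - Real.cosh (τ / 2) - e * (τ * Real.sinh (τ / 2))| ≤
      e ^ 2 * (τ ^ 2 * Real.exp τ) := by
  have h1 : Real.cosh ((1 / 2 + e) * τ) - Real.cosh (τ / 2) - e * (τ * Real.sinh (τ / 2)) =
      Real.exp (τ / 2) / 2 * (Real.exp (e * τ) - 1 - e * τ) +
      Real.exp (-(τ / 2)) / 2 * (Real.exp (-(e * τ)) - 1 - -(e * τ)) := by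
    have e1 : Real.exp ((1 / 2 + e) * τ) = Real.exp (τ / 2) * Real.exp (e * τ) := by
      rw [← Real.exp_add]; congr 1; ring
    have e2 : Real.exp (-((1 / 2 + e) * τ)) = Real.exp (-(τ / 2)) * Real.exp (-(e * τ)) := by
      rw [← Real.exp_add]; congr 1; ring
    rw [Real.cosh_eq, Real.cosh_eq, Real.sinh_eq, e1, e2]
    ring
  rw [h1]
  have h2 := exp_bound2 (e * τ)
  have h3 := exp_bound2 (-(e * τ))
  have h4 : |e * τ| ≤ τ / 4 := by
    rw [abs_mul, abs_of_neg he2, abs_of_nonneg hτ]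
    nlinarith
  have h5 : Real.exp |e * τ| ≤ Real.exp (τ / 4) := Real.exp_le_exp.2 h4
  rw [abs_neg, neg_sq] at h3
  have h6 : Real.exp (-(τ / 2)) ≤ Real.exp (τ / 2) := Real.exp_le_exp.2 (by linarith)
  have h7 : Real.exp (τ / 2) * Real.exp (τ / 4) ≤ Real.exp τ := by
    rw [← Real.exp_add]; exact Real.exp_le_exp.2 (by linarith)
  have h8 := Real.exp_pos (τ / 2)
  have h9 := Real.exp_pos (-(τ / 2))
  refine (abs_add_le _ _).trans ?_
  rw [abs_mul, abs_mul, abs_of_pos (by positivity : 0 < Real.exp (τ / 2) / 2),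
    abs_of_pos (by positivity : 0 < Real.exp (-(τ / 2)) / 2)]
  have h10 : |Real.exp (e * τ) - 1 - e * τ| ≤ (e * τ) ^ 2 * Real.exp (τ / 4) :=
    h2.trans (mul_le_mul_of_nonneg_left h5 (sq_nonneg _))
  have h11 : |Real.exp (-(e * τ)) - 1 - -(e * τ)| ≤ (e * τ) ^ 2 * Real.exp (τ / 4) :=
    h3.trans (mul_le_mul_of_nonneg_left h5 (sq_nonneg _))
  calc Real.exp (τ / 2) / 2 * |Real.exp (e * τ) - 1 - e * τ| +
        Real.exp (-(τ / 2)) / 2 * |Real.exp (-(e * τ)) - 1 - -(e * τ)|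
      ≤ Real.exp (τ / 2) / 2 * ((e * τ) ^ 2 * Real.exp (τ / 4)) +
        Real.exp (τ / 2) / 2 * ((e * τ) ^ 2 * Real.exp (τ / 4)) := by
        refine add_le_add (mul_le_mul_of_nonneg_left h10 (by positivity)) ?_
        exact mul_le_mul (by linarith) h11 (abs_nonneg _) (by positivity)
    _ = (e * τ) ^ 2 * (Real.exp (τ / 2) * Real.exp (τ / 4)) := by ring
    _ ≤ (e * τ) ^ 2 * Real.exp τ := mul_le_mul_of_nonneg_left h7 (sq_nonneg _)
    _ = e ^ 2 * (τ ^ 2 * Real.exp τ) := by ring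

/-- `∫ N cosh(τ/2)` -/
noncomputable def n0 (d : ℝ) : ℂ := ∫ τ in Ioi (0 : ℝ), Nr d τ (1 / 2) * (Real.cosh (τ / 2) : ℝ)

/-- `∫ N τ sinh(τ/2)` -/
noncomputable def n1 (d : ℝ) : ℂ :=
  ∫ τ in Ioi (0 : ℝ), Nr d τ (1 / 2) * (τ * Real.sinh (τ / 2) : ℝ)

/-- `∫ N cosh((1/2+e)τ)` -/
noncomputable def ne (d e : ℝ) : ℂ :=
  ∫ τ in Ioi (0 : ℝ), Nr d τ (1 / 2) * Complex.cosh (((1 / 2 + e : ℝ) : ℂ) * τ)

lemma cosh_le_exp (x : ℝ) (hx : 0 ≤ x) : Real.cosh x ≤ Real.exp x := by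
  rw [Real.cosh_eq]
  have : Real.exp (-x) ≤ Real.exp x := Real.exp_le_exp.2 (by linarith)
  linarith

lemma abs_sinh_le_exp (x : ℝ) (hx : 0 ≤ x) : |Real.sinh x| ≤ Real.exp x := by
  rw [abs_of_nonneg (Real.sinh_nonneg_iff.2 hx), Real.sinh_eq]
  have := Real.exp_pos (-x)
  have := Real.exp_pos x
  linarith

lemma n0_int (h1 : tN) (d : ℝ) :
    IntegrableOn (fun τ : ℝ => Nr d τ (1 / 2) * (Real.cosh (τ / 2) : ℝ)) (Ioi 0) := by
  refine N_int h1 d _ (by fun_prop) 1 fun τ hτ => ?_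
  rw [Complex.norm_real, Real.norm_of_nonneg (Real.cosh_pos _).le, one_mul]
  exact (cosh_le_exp _ (by linarith)).trans (Real.exp_le_exp.2 (by linarith))

lemma le_exp_self (x : ℝ) : x ≤ Real.exp x := by linarith [Real.add_one_le_exp x]

lemma n1_int (h1 : tN) (d : ℝ) :
    IntegrableOn (fun τ : ℝ => Nr d τ (1 / 2) * (τ * Real.sinh (τ / 2) : ℝ)) (Ioi 0) := by
  refine N_int h1 d _ (by fun_prop) 1 fun τ hτ => ?_
  rw [Complex.norm_real, Real.norm_eq_abs, one_mul, abs_mul, abs_of_nonneg hτ]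
  calc τ * |Real.sinh (τ / 2)| ≤ Real.exp τ * Real.exp (τ / 2) :=
        mul_le_mul (le_exp_self τ) (abs_sinh_le_exp _ (by linarith)) (abs_nonneg _) (Real.exp_pos _).le
    _ = Real.exp (τ + τ / 2) := (Real.exp_add _ _).symm
    _ ≤ Real.exp (3 * τ) := Real.exp_le_exp.2 (by linarith)

lemma ne_eq (d e : ℝ) : ne d e =
    ∫ τ in Ioi (0 : ℝ), Nr d τ (1 / 2) * (Real.cosh ((1 / 2 + e) * τ) : ℝ) := by
  unfold ne
  refine integral_congr_ae (ae_of_all _ fun τ => ?_)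
  push_cast
  rfl

lemma ne_int (h1 : tN) (d e : ℝ) (he1 : -(1 / 4) ≤ e) (he2 : e < 0) :
    IntegrableOn (fun τ : ℝ => Nr d τ (1 / 2) * (Real.cosh ((1 / 2 + e) * τ) : ℝ)) (Ioi 0) := by
  refine N_int h1 d _ (by fun_prop) 1 fun τ hτ => ?_
  rw [Complex.norm_real, Real.norm_of_nonneg (Real.cosh_pos _).le, one_mul]
  refine (cosh_le_exp _ (by nlinarith)).trans (Real.exp_le_exp.2 ?_)
  nlinarith

lemma ne_expand (h1 : tN) (d : ℝ) : ∃ K : ℝ, 0 ≤ K ∧ ∀ e : ℝ, -(1 / 4) ≤ e → e < 0 →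
    ‖ne d e - (n0 d + n1 d * e)‖ ≤ K * e ^ 2 := by
  have hI : IntegrableOn (fun τ : ℝ => Nr d τ (1 / 2) * ((τ ^ 2 * Real.exp τ : ℝ) : ℂ)) (Ioi 0) := by
    refine N_int h1 d _ (by fun_prop) 2 fun τ hτ => ?_
    rw [Complex.norm_real, Real.norm_eq_abs, abs_of_nonneg (by positivity)]
    have h2 : τ ^ 2 ≤ 2 * Real.exp τ := by
      have := Real.pow_div_factorial_le_exp τ hτ 2
      norm_num [Nat.factorial] at this
      linarith
    calc τ ^ 2 * Real.exp τ ≤ 2 * Real.exp τ * Real.exp τ :=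
          mul_le_mul_of_nonneg_right h2 (Real.exp_pos _).le
      _ = 2 * Real.exp (τ + τ) := by rw [Real.exp_add]; ring
      _ ≤ 2 * Real.exp (3 * τ) :=
          mul_le_mul_of_nonneg_left (Real.exp_le_exp.2 (by linarith)) (by norm_num)
  refine ⟨∫ τ in Ioi (0 : ℝ), ‖Nr d τ (1 / 2) * ((τ ^ 2 * Real.exp τ : ℝ) : ℂ)‖,
    integral_nonneg fun _ => norm_nonneg _, fun e he1 he2 => ?_⟩
  have i0 := ne_int h1 d e he1 he2
  have i1 := n0_int h1 d
  have i2 := n1_int h1 d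
  have hz : IntegrableOn (fun _ : ℝ => (0 : ℂ)) (Ioi (0 : ℝ)) := integrableOn_zero
  have hdiff : ne d e - (n0 d + n1 d * e) = ∫ τ in Ioi (0 : ℝ), Nr d τ (1 / 2) *
      ((Real.cosh ((1 / 2 + e) * τ) - Real.cosh (τ / 2) - e * (τ * Real.sinh (τ / 2)) : ℝ) : ℂ) := by
    have := comb i0 i1 i2 hz (e : ℂ) 0
    rw [ne_eq]
    unfold n0 n1
    simp only [zero_mul, sub_zero] at this
    rw [show ∀ a b c : ℂ, a - (b + c * e) = a - b - e * c by intros; ring, ← this]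
    refine integral_congr_ae (ae_of_all _ fun τ => ?_)
    push_cast
    ring
  rw [hdiff, ← integral_mul_const]
  refine norm_integral_le_of_norm_le (hI.norm.mul_const _) ?_
  filter_upwards [ae_restrict_mem measurableSet_Ioi] with τ hτ
  have hτ0 : (0 : ℝ) ≤ τ := le_of_lt hτ
  rw [norm_mul, norm_mul, Complex.norm_real, Real.norm_eq_abs, Complex.norm_real,
    Real.norm_of_nonneg (by positivity : 0 ≤ τ ^ 2 * Real.exp τ), mul_assoc]
  refine mul_le_mul_of_nonneg_left ?_ (norm_nonneg _)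
  rw [mul_comm _ (e ^ 2)]
  exact cosh_bound e τ hτ0 he1 he2

/-! ## comparison of polynomials -/

lemma coeff_step (a b : ℂ) (g : ℝ → ℂ) (n : ℕ) (hg : Tendsto g (𝓝[<] 0) (𝓝 b))
    (h : (fun e : ℝ => a + e * g e) =O[𝓝[<] 0] fun e : ℝ => e ^ (n + 1)) :
    a = 0 ∧ g =O[𝓝[<] 0] fun e : ℝ => e ^ n := by
  have h0 : Tendsto (fun e : ℝ => (e : ℂ)) (𝓝[<] 0) (𝓝 0) := by
    have : Tendsto (fun e : ℝ => (e : ℂ)) (𝓝 0) (𝓝 ((0 : ℝ) : ℂ)) :=
      (Complex.continuous_ofReal).tendsto 0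
    rw [ofReal_zero] at this
    exact this.mono_left nhdsWithin_le_nhds
  have h1 : Tendsto (fun e : ℝ => a + e * g e) (𝓝[<] 0) (𝓝 (a + 0 * b)) :=
    tendsto_const_nhds.add (h0.mul hg)
  have h2 : Tendsto (fun e : ℝ => a + e * g e) (𝓝[<] 0) (𝓝 0) := by
    refine h.trans_tendsto ?_
    have : Tendsto (fun e : ℝ => e ^ (n + 1)) (𝓝 0) (𝓝 (0 ^ (n + 1))) :=
      (continuous_pow (n + 1)).tendsto 0
    rw [zero_pow (Nat.succ_ne_zero n)] at this
    exact this.mono_left nhdsWithin_le_nhds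
  have ha : a = 0 := by
    have := tendsto_nhds_unique h1 h2
    simpa using this
  refine ⟨ha, ?_⟩
  subst ha
  obtain ⟨C, hC⟩ := h.bound
  refine Asymptotics.IsBigO.of_bound C ?_
  filter_upwards [hC, self_mem_nhdsWithin] with e he he0
  have he0' : (0 : ℝ) < |e| := abs_pos.2 (ne_of_lt he0)
  rw [zero_add, norm_mul, Complex.norm_real, Real.norm_eq_abs, Real.norm_eq_abs, abs_pow,
    pow_succ] at he
  rw [Real.norm_eq_abs, abs_pow]
  have : |e| * ‖g e‖ ≤ |e| * (C * |e| ^ n) := by linarith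
  exact le_of_mul_le_mul_left this he0'

lemma coeffs (p0 p1 p2 p3 : ℂ)
    (h : (fun e : ℝ => p0 + p1 * e + p2 * e ^ 2 + p3 * e ^ 3) =O[𝓝[<] 0] fun e : ℝ => e ^ 4) :
    p2 = 0 ∧ p3 = 0 := by
  have hc : ∀ g : ℝ → ℂ, Continuous g → Tendsto g (𝓝[<] 0) (𝓝 (g 0)) :=
    fun g hg => (hg.tendsto 0).mono_left nhdsWithin_le_nhds
  have s1 := coeff_step p0 _ (fun e => p1 + p2 * e + p3 * e ^ 2) 3 (hc _ (by fun_prop))
    (h.congr_left fun e => by ring)
  have s2 := coeff_step p1 _ (fun e => p2 + p3 * e) 2 (hc _ (by fun_prop))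
    (s1.2.congr_left fun e => by ring)
  have s3 := coeff_step p2 _ (fun e => p3) 1 (hc _ (by fun_prop))
    (s2.2.congr_left fun e => by ring)
  have s4 := coeff_step p3 _ (fun e => 0) 0 (hc _ (by fun_prop))
    (s3.2.congr_left fun e => by ring)
  exact ⟨s3.1, s4.1⟩

/-! ## the identity -/

lemma main_id (h2 : tSTARH) (h3 : tJKAN) (d e : ℝ) (he1 : -(1 / 4) ≤ e) (he2 : e < 0) :
    2 * (e : ℂ) ^ 2 * ne d e = qf d * (cpr d * (-e + e ^ 2 / (1 + e)) - 1 - e ^ 2 / (1 + e) ^ 2) +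
      lamf e * (-2 * qf d + e * je d e) := by
  have he0 : (e : ℂ) ≠ 0 := by exact_mod_cast he2.ne
  have he3 : (1 + e : ℂ) ≠ 0 := by
    have : (1 + e : ℝ) ≠ 0 := by linarith
    exact_mod_cast this
  have h := h2 d ((1 / 2 + e : ℝ) : ℂ) (by
    rw [ofReal_re, abs_lt]
    constructor <;> linarith)
  rw [JJ_split h3 d e he1 he2] at h
  have e1 : (1 / 2 : ℂ) - ((1 / 2 + e : ℝ) : ℂ) = -e := by push_cast; ring
  have e2 : (1 / 2 : ℂ) + ((1 / 2 + e : ℝ) : ℂ) = 1 + e := by push_cast; ring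
  rw [e1, e2] at h
  have h4 : lamf e = e * riemannZeta (1 + e) * riemannZeta (-e) := by
    unfold lamf
    rw [if_neg he0]
  have h5 : ne d e = ∫ τ in Ioi (0 : ℝ), Nr d τ (1 / 2) *
      Complex.cosh (((1 / 2 + e : ℝ) : ℂ) * τ) := rfl
  rw [← h5] at h
  have h6 : riemannZeta (1 + e) * riemannZeta (-e) = lamf e / e := by
    rw [h4]; field_simp
  rw [h6] at h
  have h7 : 2 * (e : ℂ) ^ 2 * ne d e = (e : ℂ) ^ 2 * (qf d * (cpr d * (1 / -e + 1 / (1 + e)) -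
      (1 / (-e) ^ 2 + 1 / (1 + e) ^ 2)) + lamf e / e * (-2 * qf d / e + je d e)) := by
    linear_combination (e : ℂ) ^ 2 * h
  rw [h7]
  field_simp
  ring

lemma bigO_const_pow (g : ℝ → ℂ) (hg : Continuous g) :
    (fun e : ℝ => (e : ℂ) ^ 4 * g e) =O[𝓝[<] 0] fun e : ℝ => e ^ 4 := by
  have h1 : (fun e : ℝ => (e : ℂ) ^ 4) =O[𝓝[<] 0] fun e : ℝ => e ^ 4 := by
    refine Asymptotics.IsBigO.of_bound 1 (Eventually.of_forall fun e => ?_)
    rw [norm_pow, Complex.norm_real, norm_pow, one_mul]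
  have h2 : g =O[𝓝[<] 0] fun _ => (1 : ℝ) :=
    ((hg.tendsto 0).mono_left nhdsWithin_le_nhds).isBigO_one ℝ
  simpa using h1.mul h2

lemma values (h1 : tN) (h2 : tSTARH) (h3 : tJKAN) (d : ℝ) :
    2 * n0 d = qf d * (cpr d - 1) + (-2 * qf d * lam 1 + lam 0 * jk 0 d - jk 1 d / 2) ∧
    2 * n1 d = qf d * (2 - cpr d) +
      (-2 * qf d * lam 2 + lam 1 * jk 0 d + lam 0 * jk 1 d - jk 2 d / 2) := by
  obtain ⟨K1, hK1, hr1⟩ := ne_expand h1 d
  obtain ⟨K2, δ, hδ, hK2, hr2⟩ := lamf_expand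
  obtain ⟨K3, hK3, hr3⟩ := je_expand h3 d
  set q := qf d with hq
  set c := cpr d with hc
  set j0 := jk 0 d
  set j1 := jk 1 d
  set j2 := jk 2 d
  set r1 : ℝ → ℂ := fun e => ne d e - (n0 d + n1 d * e) with hr1'
  set r2 : ℝ → ℂ := fun e => lamf e - (-1 / 2 + lam 0 * e + lam 1 * e ^ 2 + lam 2 * e ^ 3) with hr2'
  set r3 : ℝ → ℂ := fun e => je d e - (j0 + j1 * e + j2 * e ^ 2) with hr3'
  have hev : ∀ᶠ e : ℝ in 𝓝[<] 0, -(1 / 4) < e ∧ -δ < e ∧ e < 0 := by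
    have h4 : Ioo (-(min (1 / 4) δ)) (0 : ℝ) ∈ 𝓝[<] (0 : ℝ) :=
      Ioo_mem_nhdsLT (by simp only [neg_lt_zero]; positivity)
    filter_upwards [h4] with e he
    have h5 := min_le_left (1 / 4) δ
    have h6 := min_le_right (1 / 4) δ
    exact ⟨by linarith [he.1], by linarith [he.1], he.2⟩
  have O1 : r1 =O[𝓝[<] 0] fun e : ℝ => e ^ 2 := by
    refine Asymptotics.IsBigO.of_bound K1 ?_
    filter_upwards [hev] with e he
    rw [Real.norm_of_nonneg (sq_nonneg e)]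
    exact hr1 e he.1.le he.2.2
  have O2 : r2 =O[𝓝[<] 0] fun e : ℝ => e ^ 4 := by
    refine Asymptotics.IsBigO.of_bound K2 ?_
    filter_upwards [hev] with e he
    rw [Real.norm_eq_abs, abs_pow]
    exact hr2 e he.2.1 he.2.2
  have O3 : r3 =O[𝓝[<] 0] fun e : ℝ => e ^ 3 := by
    refine Asymptotics.IsBigO.of_bound K3 ?_
    filter_upwards [hev] with e he
    rw [Real.norm_eq_abs, abs_pow]
    exact hr3 e he.1.le he.2.2
  have Oid : ∀ k : ℕ, (fun e : ℝ => (e : ℂ) ^ k) =O[𝓝[<] 0] fun e : ℝ => e ^ k := by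
    intro k
    refine Asymptotics.IsBigO.of_bound 1 (Eventually.of_forall fun e => ?_)
    rw [norm_pow, Complex.norm_real, norm_pow, one_mul]
  have Oc : ∀ g : ℝ → ℂ, ContinuousAt g 0 → g =O[𝓝[<] 0] fun _ => (1 : ℝ) :=
    fun g hg => (hg.tendsto.mono_left nhdsWithin_le_nhds).isBigO_one ℝ
  have A1 : (fun e : ℝ => (-2 : ℂ) * ((e : ℂ) ^ 2 * r1 e)) =O[𝓝[<] 0] fun e : ℝ => e ^ 4 := by
    have := ((Oid 2).mul O1).const_mul_left (-2 : ℂ)
    refine this.congr_right fun e => by ring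
  have A2 : (fun e : ℝ => (e : ℂ) ^ 4 * (q * (c / (1 + e) - (3 + 2 * e) / (1 + e) ^ 2)))
      =O[𝓝[<] 0] fun e : ℝ => e ^ 4 := by
    have h4 : ContinuousAt (fun e : ℝ => q * (c / (1 + e) - (3 + 2 * e) / (1 + e) ^ 2)) 0 := by
      have h5 : ContinuousAt (fun e : ℝ => (1 + e : ℂ)) 0 := by fun_prop
      have h6 : (1 + ((0 : ℝ) : ℂ)) ≠ 0 := by simp
      refine continuousAt_const.mul ((continuousAt_const.div h5 h6).sub ?_)
      exact ContinuousAt.div (by fun_prop) (h5.pow 2) (pow_ne_zero 2 h6)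
    simpa using (Oid 4).mul (Oc _ h4)
  have A3 : (fun e : ℝ => (-1 / 2 + lam 0 * e + lam 1 * e ^ 2 + lam 2 * e ^ 3) *
      ((e : ℂ) ^ 1 * r3 e)) =O[𝓝[<] 0] fun e : ℝ => e ^ 4 := by
    have h4 := Oc (fun e : ℝ => (-1 / 2 + lam 0 * e + lam 1 * e ^ 2 + lam 2 * e ^ 3 : ℂ))
      (by fun_prop)
    have h5 := h4.mul ((Oid 1).mul O3)
    refine h5.congr_right fun e => by ring
  have O4 : (fun e : ℝ => -2 * q + e * je d e) =O[𝓝[<] 0] fun _ => (1 : ℝ) := by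
    have h4 : (fun e : ℝ => -2 * q + e * (j0 + j1 * e + j2 * e ^ 2)) =O[𝓝[<] 0] fun _ => (1 : ℝ) :=
      Oc _ (by fun_prop)
    have h5 : (fun e : ℝ => (e : ℂ) ^ 1 * r3 e) =O[𝓝[<] 0] fun _ => (1 : ℝ) := by
      have h6 := (Oid 1).mul O3
      refine h6.trans ?_
      have h7 : ContinuousAt (fun e : ℝ => e ^ 1 * e ^ 3) 0 := by fun_prop
      exact (h7.tendsto.mono_left nhdsWithin_le_nhds).isBigO_one ℝ
    refine (h4.add h5).congr_left fun e => ?_
    rw [hr3']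
    ring
  have A4 : (fun e : ℝ => r2 e * (-2 * q + e * je d e)) =O[𝓝[<] 0] fun e : ℝ => e ^ 4 := by
    simpa using O2.mul O4
  have A5 : (fun e : ℝ => (e : ℂ) ^ 4 * ((lam 0 * j2 + lam 1 * j1 + lam 2 * j0) +
      (lam 1 * j2 + lam 2 * j1) * e + lam 2 * j2 * e ^ 2)) =O[𝓝[<] 0] fun e : ℝ => e ^ 4 :=
    bigO_const_pow _ (by fun_prop)
  have hsum := (((A1.add A2).add A3).add A4).add A5
  have hP : (fun e : ℝ => (0 : ℂ) + (c * q - (-2 * q * lam 0 - j0 / 2)) * e +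
      (2 * n0 d - q * (c - 1) - (-2 * q * lam 1 + lam 0 * j0 - j1 / 2)) * e ^ 2 +
      (2 * n1 d - q * (2 - c) - (-2 * q * lam 2 + lam 1 * j0 + lam 0 * j1 - j2 / 2)) * e ^ 3)
      =O[𝓝[<] 0] fun e : ℝ => e ^ 4 := by
    refine hsum.congr' ?_ EventuallyEq.rfl
    filter_upwards [hev] with e he
    have h4 := main_id h2 h3 d e he.1.le he.2.2
    rw [← hq, ← hc] at h4
    have h5 : ne d e = r1 e + (n0 d + n1 d * e) := by rw [hr1']; ring
    have h6 : lamf e = r2 e + (-1 / 2 + lam 0 * e + lam 1 * e ^ 2 + lam 2 * e ^ 3) := by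
      rw [hr2']; ring
    have h7 : je d e = r3 e + (j0 + j1 * e + j2 * e ^ 2) := by rw [hr3']; ring
    have h8 : (1 + e : ℂ) ≠ 0 := by
      have : (1 + e : ℝ) ≠ 0 := by linarith [he.1]
      exact_mod_cast this
    have h9 : (e : ℂ) ^ 2 / (1 + e) = e ^ 2 - e ^ 3 + e ^ 4 / (1 + e) := by
      field_simp
      ring
    have h10 : (e : ℂ) ^ 2 / (1 + e) ^ 2 = e ^ 2 - 2 * e ^ 3 + e ^ 4 * ((3 + 2 * e) / (1 + e) ^ 2) := by
      field_simp
      ring
    rw [h9, h10, h5, h6, h7] at h4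
    rw [h7]
    linear_combination -h4
  obtain ⟨h4, h5⟩ := coeffs _ _ _ _ hP
  constructor
  · linear_combination h4
  · linear_combination h5

/-! ## the final computation -/

lemma qf_real (d : ℝ) : qf d = (((Real.cosh d) ^ (-(1 / 2) : ℝ) : ℝ) : ℂ) := by
  unfold qf
  rw [← ofReal_cosh, ofReal_cpow (Real.cosh_pos d).le]
  push_cast
  rfl

lemma cpr_real (d : ℝ) : cpr d = ((c0 - Real.log (Real.cosh d) : ℝ) : ℂ) := by
  unfold cpr
  rw [← ofReal_cosh, ← ofReal_log (Real.cosh_pos d).le]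
  push_cast
  rfl

lemma mm_eq (d τ : ℝ) : mm (Real.exp τ / Real.cosh d) =
    (Real.cosh d) ^ (-(1 / 2) : ℝ) * (Real.exp (τ / 2) * (τ + (c0 - Real.log (Real.cosh d)))) := by
  have hL := Real.cosh_pos d
  unfold mm
  rw [Real.log_div (Real.exp_pos _).ne' hL.ne', Real.log_exp, Real.sqrt_eq_rpow,
    Real.div_rpow (Real.exp_pos _).le hL.le, Real.rpow_neg hL.le, ← Real.exp_mul]
  rw [show τ * (1 / 2) = τ / 2 by ring]
  ring

lemma poly_exp_int (c : ℝ) : IntegrableOn (fun τ : ℝ => Real.exp (-τ) * (c - τ) ^ 2) (Ioi 0) ∧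
    ∫ τ in Ioi (0 : ℝ), Real.exp (-τ) * (c - τ) ^ 2 = c ^ 2 - 2 * c + 2 := by
  have hderiv : ∀ x ∈ Ici (0 : ℝ), HasDerivAt
      (fun τ : ℝ => -(Real.exp (-τ) * (τ ^ 2 + (2 - 2 * c) * τ + (c ^ 2 - 2 * c + 2))))
      (Real.exp (-x) * (c - x) ^ 2) x := by
    intro x _
    have h1 : HasDerivAt (fun τ : ℝ => Real.exp (-τ)) (Real.exp (-x) * (-1)) x :=
      (hasDerivAt_neg x).exp
    have h2 : HasDerivAt (fun τ : ℝ => τ ^ 2 + (2 - 2 * c) * τ + (c ^ 2 - 2 * c + 2))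
        (2 * x + (2 - 2 * c)) x := by
      have h3 := ((hasDerivAt_pow 2 x).add ((hasDerivAt_id x).const_mul (2 - 2 * c))).add_const
        (c ^ 2 - 2 * c + 2)
      convert! h3 using 1
      norm_num
    convert! (h1.mul h2).neg using 1
    ring
  have hlim : Tendsto (fun τ : ℝ => -(Real.exp (-τ) * (τ ^ 2 + (2 - 2 * c) * τ +
      (c ^ 2 - 2 * c + 2)))) atTop (𝓝 0) := by
    have h2 := Real.tendsto_pow_mul_exp_neg_atTop_nhds_zero 2
    have h1 := Real.tendsto_pow_mul_exp_neg_atTop_nhds_zero 1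
    have h0 := Real.tendsto_pow_mul_exp_neg_atTop_nhds_zero 0
    have h3 := ((h2.add (h1.const_mul (2 - 2 * c))).add (h0.const_mul (c ^ 2 - 2 * c + 2))).neg
    simp only [mul_zero, add_zero, neg_zero] at h3
    refine h3.congr fun τ => ?_
    ring
  have hint : IntegrableOn (fun τ : ℝ => Real.exp (-τ) * (c - τ) ^ 2) (Ioi 0) :=
    integrableOn_Ioi_deriv_of_nonneg' hderiv (fun x _ => by positivity) hlim
  refine ⟨hint, ?_⟩
  rw [integral_Ioi_of_hasDerivAt_of_tendsto' hderiv hint hlim]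
  simp

end EJ0_

open EJ0_ in
theorem pJ0R (h1 : tN) (h2 : tSTARH) (h3 : tJKAN) : tJ0R := by
  intro d
  obtain ⟨v0, v1⟩ := values h1 h2 h3 d
  set c : ℝ := c0 - Real.log (Real.cosh d) with hc
  set q : ℝ := (Real.cosh d) ^ (-(1 / 2) : ℝ) with hq
  have i0 := n0_int h1 d
  have i1 := n1_int h1 d
  obtain ⟨i2, hi2⟩ := poly_exp_int c
  have hq2 : (Real.cosh d) ^ (-(1 / 2) : ℝ) = q := rfl
  have hpt : ∀ τ : ℝ, Nr d τ (1 / 2) *
      ((mm (Real.exp τ / Real.cosh d) + mm (Real.exp (-τ) / Real.cosh d) : ℝ) : ℂ)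
      - ((mm (Real.exp (-τ) / Real.cosh d)) ^ 2 : ℝ) =
      (2 * q * c : ℝ) * (Nr d τ (1 / 2) * (Real.cosh (τ / 2) : ℝ)) +
      (2 * q : ℝ) * (Nr d τ (1 / 2) * (τ * Real.sinh (τ / 2) : ℝ)) -
      (q ^ 2 : ℝ) * ((Real.exp (-τ) * (c - τ) ^ 2 : ℝ) : ℂ) := by
    intro τ
    rw [mm_eq, mm_eq, hq2, ← hc, Real.cosh_eq, Real.sinh_eq]
    have e1 : Real.exp (-τ) = Real.exp (-(τ / 2)) * Real.exp (-(τ / 2)) := by
      rw [← Real.exp_add]; congr 1; ring
    rw [show -τ / 2 = -(τ / 2) by ring, e1]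
    push_cast
    ring
  rw [integral_congr_ae (ae_of_all _ hpt)]
  have i0' : Integrable (fun τ : ℝ => ((2 * q * c : ℝ) : ℂ) *
      (Nr d τ (1 / 2) * (Real.cosh (τ / 2) : ℝ))) (volume.restrict (Ioi 0)) := i0.const_mul _
  have i1' : Integrable (fun τ : ℝ => ((2 * q : ℝ) : ℂ) *
      (Nr d τ (1 / 2) * (τ * Real.sinh (τ / 2) : ℝ))) (volume.restrict (Ioi 0)) := i1.const_mul _
  have i2' : Integrable (fun τ : ℝ => ((q ^ 2 : ℝ) : ℂ) *
      ((Real.exp (-τ) * (c - τ) ^ 2 : ℝ) : ℂ)) (volume.restrict (Ioi 0)) :=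
    (Integrable.ofReal i2).const_mul _
  have i01' : Integrable (fun τ : ℝ => ((2 * q * c : ℝ) : ℂ) *
      (Nr d τ (1 / 2) * (Real.cosh (τ / 2) : ℝ)) + ((2 * q : ℝ) : ℂ) *
      (Nr d τ (1 / 2) * (τ * Real.sinh (τ / 2) : ℝ))) (volume.restrict (Ioi 0)) := i0'.add i1'
  rw [integral_sub i01' i2', integral_add i0' i1', integral_const_mul,
    integral_const_mul, integral_const_mul]
  have e2 : ∫ τ in Ioi (0 : ℝ), ((Real.exp (-τ) * (c - τ) ^ 2 : ℝ) : ℂ) =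
      ((c ^ 2 - 2 * c + 2 : ℝ) : ℂ) := by
    rw [← hi2]
    exact integral_ofReal
  rw [e2]
  have e0 : ∫ τ in Ioi (0 : ℝ), Nr d τ (1 / 2) * (Real.cosh (τ / 2) : ℝ) = n0 d := rfl
  have e1 : ∫ τ in Ioi (0 : ℝ), Nr d τ (1 / 2) * (τ * Real.sinh (τ / 2) : ℝ) = n1 d := rfl
  rw [e0, e1]
  rw [cpr_real, qf_real, hq2, ← hc] at v0 v1
  unfold J0
  rw [cpr_real, qf_real, hq2, ← hc]
  push_cast at v0 v1 ⊢
  linear_combination (q * c : ℂ) * v0 + (q : ℂ) * v1

end FMZ
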