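import Pool.Agent.FMZ.TE

/-!
# FMZ-E1: the Bessel function KB
-/

set_option autoImplicit false

open Complex MeasureTheory Set Filter Topology

namespace FMZ.EKB_

lemma pow_exp_bound (p b : ℝ) (hp : 0 ≤ p) (hb : 0 < b) :
    ∃ C, 0 < C ∧ ∀ y : ℝ, 0 < y → y ^ p * Real.exp (-(b * y)) ≤ C := by
  obtain ⟨n, hn⟩ := exists_nat_ge p
  refine ⟨1 + n.factorial / b ^ n, by positivity, fun y hy => ?_⟩
  have h1 : y ^ p ≤ 1 + y ^ n := by
    rcases le_total y 1 with h | h
    · have h1 := Real.rpow_le_one hy.le h hp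
      have h2 := pow_nonneg hy.le n
      linarith
    · have h2 : y ^ p ≤ y ^ (n : ℝ) := Real.rpow_le_rpow_of_exponent_le h hn
      rw [Real.rpow_natCast] at h2
      linarith
  have h3 : (b * y) ^ n / n.factorial ≤ Real.exp (b * y) :=
    Real.pow_div_factorial_le_exp (b * y) (by positivity) n
  have h4 : y ^ n ≤ n.factorial / b ^ n * Real.exp (b * y) := by
    have hb' : 0 < b ^ n := by positivity
    have hf : (0 : ℝ) < n.factorial := by positivity
    rw [mul_pow, div_le_iff₀ hf] at h3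
    rw [div_mul_eq_mul_div, le_div_iff₀ hb']
    linarith
  have h5 : 1 ≤ Real.exp (b * y) := Real.one_le_exp (by positivity)
  calc y ^ p * Real.exp (-(b * y))
      ≤ (Real.exp (b * y) + n.factorial / b ^ n * Real.exp (b * y)) * Real.exp (-(b * y)) := by
        gcongr
        linarith
    _ = 1 + n.factorial / b ^ n := by
        rw [Real.exp_neg]
        field_simp

lemma exp_abs_le_cosh (u : ℝ) : Real.exp |u| ≤ 2 * Real.cosh u := by
  rw [← Real.cosh_abs, Real.cosh_eq]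
  have := Real.exp_pos (-|u|)
  linarith

lemma cosh_le_exp_abs (u : ℝ) : Real.cosh u ≤ Real.exp |u| := by
  rw [← Real.cosh_abs, Real.cosh_eq]
  have : Real.exp (-|u|) ≤ Real.exp |u| := Real.exp_le_exp.2 (by linarith [abs_nonneg u])
  linarith

lemma exp_neg_abs_le (u : ℝ) : Real.exp (-|u|) ≤ 2 * (1 + u ^ 2)⁻¹ := by
  have h1 := Real.quadratic_le_exp_of_nonneg (abs_nonneg u)
  rw [sq_abs] at h1
  have h2 : (1 + u ^ 2) ≤ 2 * Real.exp |u| := by nlinarith [abs_nonneg u, Real.exp_pos |u|]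
  have h3 : 0 < 1 + u ^ 2 := by positivity
  rw [Real.exp_neg, ← div_eq_mul_inv, le_div_iff₀ h3, inv_mul_le_iff₀ (Real.exp_pos _)]
  linarith

lemma maj (c A : ℝ) (hc : 0 < c) (hA : 0 ≤ A) : ∃ C, 0 < C ∧ ∀ x u : ℝ, 0 < x →
    Real.exp (-(c * x * Real.cosh u) + A * |u|) ≤
      C * (1 + x ^ (-(A + 1))) * Real.exp (-(c * x)) * (1 + u ^ 2)⁻¹ := by
  obtain ⟨C₁, hC₁, hB⟩ := pow_exp_bound (A + 1) (c / 2) (by linarith) (by positivity)
  refine ⟨2 * Real.exp c * C₁, by positivity, fun x u hx => ?_⟩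
  set x' := min x 1 with hx'
  have hx'0 : 0 < x' := lt_min hx one_pos
  have hx'x : x' ≤ x := min_le_left _ _
  have hx'1 : x' ≤ 1 := min_le_right _ _
  have hcosh : 1 ≤ Real.cosh u := Real.one_le_cosh u
  have h1 : Real.exp (-(c * x * (Real.cosh u - 1))) ≤
      Real.exp c * Real.exp (-(c / 2 * (x' * Real.exp |u|))) := by
    rw [← Real.exp_add]
    apply Real.exp_le_exp.2
    have e1 : c * x' * (Real.cosh u - 1) ≤ c * x * (Real.cosh u - 1) := by
      have : 0 ≤ Real.cosh u - 1 := by linarith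
      gcongr
    have e2 : c * x' * Real.exp |u| ≤ c * x' * (2 * Real.cosh u) := by
      have := exp_abs_le_cosh u
      gcongr
    have e3 : c * x' ≤ c * 1 := by gcongr
    nlinarith
  have h2 : Real.exp ((A + 1) * |u|) * Real.exp (-(c / 2 * (x' * Real.exp |u|))) ≤
      C₁ * x' ^ (-(A + 1)) := by
    have hy : 0 < x' * Real.exp |u| := by positivity
    have h := hB _ hy
    rw [Real.mul_rpow hx'0.le (Real.exp_pos _).le, ← Real.exp_mul, mul_comm |u|] at h
    have hp : 0 < x' ^ (A + 1) := Real.rpow_pos_of_pos hx'0 _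
    rw [Real.rpow_neg hx'0.le, ← div_eq_mul_inv, le_div_iff₀ hp]
    calc _ = x' ^ (A + 1) * Real.exp ((A + 1) * |u|) *
          Real.exp (-(c / 2 * (x' * Real.exp |u|))) := by ring
      _ ≤ C₁ := h
  have h3 : x' ^ (-(A + 1)) ≤ 1 + x ^ (-(A + 1)) := by
    have p1 : 0 < x ^ (-(A + 1)) := Real.rpow_pos_of_pos hx _
    rcases le_total x 1 with h | h
    · rw [hx', min_eq_left h]; linarith
    · rw [hx', min_eq_right h, Real.one_rpow]; linarith
  have h4 := exp_neg_abs_le u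
  have e0 : Real.exp (-(c * x * Real.cosh u) + A * |u|) =
      Real.exp (-(c * x)) * (Real.exp (-(c * x * (Real.cosh u - 1))) *
        (Real.exp ((A + 1) * |u|) * Real.exp (-|u|))) := by
    rw [← Real.exp_add, ← Real.exp_add, ← Real.exp_add]
    congr 1
    ring
  rw [e0]
  have p2 : 0 < (1 + u ^ 2)⁻¹ := by positivity
  calc Real.exp (-(c * x)) * (Real.exp (-(c * x * (Real.cosh u - 1))) *
        (Real.exp ((A + 1) * |u|) * Real.exp (-|u|)))
      ≤ Real.exp (-(c * x)) * ((Real.exp c * Real.exp (-(c / 2 * (x' * Real.exp |u|)))) *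
        (Real.exp ((A + 1) * |u|) * (2 * (1 + u ^ 2)⁻¹))) := by gcongr
    _ = 2 * Real.exp c * (Real.exp ((A + 1) * |u|) *
          Real.exp (-(c / 2 * (x' * Real.exp |u|)))) * Real.exp (-(c * x)) * (1 + u ^ 2)⁻¹ := by
        ring
    _ ≤ 2 * Real.exp c * (C₁ * x' ^ (-(A + 1))) * Real.exp (-(c * x)) * (1 + u ^ 2)⁻¹ := by
        gcongr
    _ ≤ 2 * Real.exp c * (C₁ * (1 + x ^ (-(A + 1)))) * Real.exp (-(c * x)) * (1 + u ^ 2)⁻¹ := by
        gcongr
    _ = _ := by ring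

/-- the integrand as an analytic function -/
noncomputable def G (ν : ℂ) (x : ℝ) (z : ℂ) : ℂ := Complex.exp (-(x * Complex.cosh z) + ν * z)

/-- its derivative -/
noncomputable def G' (ν : ℂ) (x : ℝ) (z : ℂ) : ℂ := G ν x z * (-(x * Complex.sinh z) + ν)

lemma hasDerivAt_G (ν : ℂ) (x : ℝ) (z : ℂ) : HasDerivAt (G ν x) (G' ν x z) z := by
  have h1 : HasDerivAt (fun z : ℂ => -((x : ℂ) * Complex.cosh z) + ν * z)
      (-((x : ℂ) * Complex.sinh z) + ν) z := by
    have h := ((Complex.hasDerivAt_cosh z).const_mul (x : ℂ)).neg.add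
      ((hasDerivAt_id z).const_mul ν)
    rw [mul_one] at h
    exact h
  exact h1.cexp

lemma continuous_G : Continuous (fun p : (ℂ × ℝ) × ℂ => G p.1.1 p.1.2 p.2) := by
  unfold G
  have : Continuous Complex.cosh := Complex.continuous_cosh
  fun_prop

lemma continuous_G' : Continuous (fun p : (ℂ × ℝ) × ℂ => G' p.1.1 p.1.2 p.2) := by
  unfold G'
  have h1 := continuous_G
  have h2 : Continuous Complex.sinh := Complex.continuous_sinh
  fun_prop

lemma re_cosh (u φ : ℝ) : (Complex.cosh (u + φ * I)).re = Real.cosh u * Real.cos φ := by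
  rw [Complex.cosh_add, Complex.cosh_mul_I, Complex.sinh_mul_I, ← Complex.ofReal_cosh,
    ← Complex.ofReal_sinh, ← Complex.ofReal_cos, ← Complex.ofReal_sin]
  rw [Complex.add_re, ← Complex.ofReal_mul, Complex.ofReal_re, ← mul_assoc, ← Complex.ofReal_mul,
    Complex.re_ofReal_mul, Complex.I_re, mul_zero, add_zero]

lemma norm_G (ν : ℂ) (x φ u : ℝ) : ‖G ν x (u + φ * I)‖ =
    Real.exp (-(x * (Real.cosh u * Real.cos φ)) + (ν.re * u - ν.im * φ)) := by
  unfold G
  rw [Complex.norm_exp]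
  congr 1
  rw [Complex.add_re, Complex.neg_re, Complex.re_ofReal_mul, re_cosh]
  congr 1
  simp

lemma norm_sinh_le (u φ : ℝ) : ‖Complex.sinh (u + φ * I)‖ ≤ Real.exp |u| := by
  have h : Complex.sinh (u + φ * I) =
      (Complex.exp (u + φ * I) - Complex.exp (-(u + φ * I))) / 2 := rfl
  have h1 : ‖Complex.exp ((u : ℂ) + φ * I)‖ = Real.exp u := by
    rw [Complex.norm_exp]; simp
  have h2 : ‖Complex.exp (-((u : ℂ) + φ * I))‖ = Real.exp (-u) := by
    rw [Complex.norm_exp]; simp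
  have h3 : Real.exp u ≤ Real.exp |u| := Real.exp_le_exp.2 (le_abs_self u)
  have h4 : Real.exp (-u) ≤ Real.exp |u| := Real.exp_le_exp.2 (neg_le_abs u)
  rw [h, norm_div]
  have h5 := norm_sub_le (Complex.exp ((u : ℂ) + φ * I)) (Complex.exp (-((u : ℂ) + φ * I)))
  rw [h1, h2] at h5
  have h6 : ‖(2 : ℂ)‖ = 2 := by simp
  rw [h6, div_le_iff₀ (by norm_num)]
  linarith

lemma norm_G_le {ν : ℂ} {x c A φ : ℝ} (u : ℝ) (hx : 0 < x) (hA : |ν.re| ≤ A)
    (hcφ : c ≤ Real.cos φ) :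
    ‖G ν x (u + φ * I)‖ ≤ Real.exp (-(c * x * Real.cosh u) + A * |u|) *
      Real.exp (-(ν.im * φ)) := by
  rw [norm_G, ← Real.exp_add]
  apply Real.exp_le_exp.2
  have h1 : ν.re * u ≤ A * |u| := by
    calc ν.re * u ≤ |ν.re * u| := le_abs_self _
      _ = |ν.re| * |u| := abs_mul _ _
      _ ≤ A * |u| := by gcongr
  have h2 : c * x * Real.cosh u ≤ x * (Real.cosh u * Real.cos φ) := by
    have h3 : 0 < Real.cosh u := Real.cosh_pos u
    calc c * x * Real.cosh u = c * (x * Real.cosh u) := by ring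
      _ ≤ Real.cos φ * (x * Real.cosh u) := by gcongr
      _ = _ := by ring
  linarith

lemma norm_G'_le {ν : ℂ} {x c A φ : ℝ} (u : ℝ) (hx : 0 < x) (hA : |ν.re| ≤ A)
    (hcφ : c ≤ Real.cos φ) :
    ‖G' ν x (u + φ * I)‖ ≤ (x + ‖ν‖) * Real.exp (-(c * x * Real.cosh u) + (A + 1) * |u|) *
      Real.exp (-(ν.im * φ)) := by
  unfold G'
  rw [norm_mul]
  have h1 := norm_G_le (c := c) (φ := φ) u hx hA hcφ
  have h2 : ‖-((x : ℂ) * Complex.sinh (u + φ * I)) + ν‖ ≤ (x + ‖ν‖) * Real.exp |u| := by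
    calc _ ≤ ‖-((x : ℂ) * Complex.sinh (u + φ * I))‖ + ‖ν‖ := norm_add_le _ _
      _ = x * ‖Complex.sinh (u + φ * I)‖ + ‖ν‖ := by
          rw [norm_neg, norm_mul, Complex.norm_real, Real.norm_eq_abs, abs_of_pos hx]
      _ ≤ x * Real.exp |u| + ‖ν‖ * Real.exp |u| := by
          have h3 := norm_sinh_le u φ
          have h4 : 1 ≤ Real.exp |u| := Real.one_le_exp (abs_nonneg u)
          have h5 := norm_nonneg ν
          gcongr
          nlinarith
      _ = _ := by ring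
  have e : Real.exp (-(c * x * Real.cosh u) + (A + 1) * |u|) =
      Real.exp (-(c * x * Real.cosh u) + A * |u|) * Real.exp |u| := by
    rw [← Real.exp_add]; congr 1; ring
  rw [e]
  calc _ ≤ (Real.exp (-(c * x * Real.cosh u) + A * |u|) * Real.exp (-(ν.im * φ))) *
        ((x + ‖ν‖) * Real.exp |u|) := by gcongr
    _ = _ := by ring

/-- dominating function -/
lemma exists_dom (c A x : ℝ) (hc : 0 < c) (hA : 0 ≤ A) (hx : 0 < x) : ∃ K, 0 < K ∧ ∀ u : ℝ,
    Real.exp (-(c * x * Real.cosh u) + A * |u|) ≤ K * (1 + u ^ 2)⁻¹ := by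
  obtain ⟨C, hC, h⟩ := maj c A hc hA
  refine ⟨C * (1 + x ^ (-(A + 1))) * Real.exp (-(c * x)), ?_, fun u => h x u hx⟩
  have := Real.rpow_pos_of_pos hx (-(A + 1))
  positivity

lemma cont_line (ν : ℂ) (x φ : ℝ) : Continuous (fun u : ℝ => G ν x (u + φ * I)) := by
  have h := continuous_G
  exact h.comp (by fun_prop : Continuous (fun u : ℝ => (((ν, x), (u : ℂ) + φ * I) : (ℂ × ℝ) × ℂ)))

lemma cont_line' (ν : ℂ) (x φ : ℝ) : Continuous (fun u : ℝ => G' ν x (u + φ * I)) := by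
  have h := continuous_G'
  exact h.comp (by fun_prop : Continuous (fun u : ℝ => (((ν, x), (u : ℂ) + φ * I) : (ℂ × ℝ) × ℂ)))

lemma integrable_line (ν : ℂ) (x φ : ℝ) (hx : 0 < x) (hφ : 0 < Real.cos φ) :
    Integrable (fun u : ℝ => G ν x (u + φ * I)) := by
  obtain ⟨K, hK, h⟩ := exists_dom (Real.cos φ) |ν.re| x hφ (abs_nonneg _) hx
  refine Integrable.mono' ((integrable_inv_one_add_sq.const_mul K).mul_const
    (Real.exp (-(ν.im * φ)))) (cont_line ν x φ).aestronglyMeasurable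
    (Filter.Eventually.of_forall fun u => ?_)
  refine (norm_G_le u hx le_rfl le_rfl).trans ?_
  gcongr
  exact h u

lemma integrable_line' (ν : ℂ) (x φ : ℝ) (hx : 0 < x) (hφ : 0 < Real.cos φ) :
    Integrable (fun u : ℝ => G' ν x (u + φ * I)) := by
  obtain ⟨K, hK, h⟩ := exists_dom (Real.cos φ) (|ν.re| + 1) x hφ (by positivity) hx
  refine Integrable.mono' (((integrable_inv_one_add_sq.const_mul K).const_mul
    (x + ‖ν‖)).mul_const (Real.exp (-(ν.im * φ)))) (cont_line' ν x φ).aestronglyMeasurable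
    (Filter.Eventually.of_forall fun u => ?_)
  refine (norm_G'_le u hx le_rfl le_rfl).trans ?_
  gcongr
  exact h u

lemma integral_line'_eq_zero (ν : ℂ) (x φ : ℝ) (hx : 0 < x) (hφ : 0 < Real.cos φ) :
    ∫ u : ℝ, G' ν x (u + φ * I) = 0 := by
  refine integral_eq_zero_of_hasDerivAt_of_integrable (f := fun u : ℝ => G ν x (u + φ * I))
    (fun u => ?_) (integrable_line' ν x φ hx hφ) (integrable_line ν x φ hx hφ)
  have h1 : HasDerivAt (fun u : ℝ => (u : ℂ) + φ * I) 1 u := by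
    simpa using (Complex.ofRealCLM.hasDerivAt (x := u)).add_const (φ * I)
  have h2 := HasDerivAt.comp (h₂ := G ν x) u (hasDerivAt_G ν x ((u : ℂ) + φ * I)) h1
  rw [mul_one] at h2
  exact h2

lemma cos_ge {φ b : ℝ} (h : |φ| ≤ b) (hb : b < Real.pi / 2) : Real.cos b ≤ Real.cos φ := by
  rw [← Real.cos_abs φ]
  apply Real.cos_le_cos_of_nonneg_of_le_pi (abs_nonneg _) _ h
  linarith [Real.pi_pos]

lemma cos_pos' {φ : ℝ} (h : |φ| < Real.pi / 2) : 0 < Real.cos φ :=
  Real.cos_pos_of_mem_Ioo ⟨by linarith [(abs_lt.1 h).1], (abs_lt.1 h).2⟩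

lemma hasDerivAt_shift (ν : ℂ) (x φ : ℝ) (hx : 0 < x) (hφ : |φ| < Real.pi / 2) :
    HasDerivAt (fun φ : ℝ => ∫ u : ℝ, G ν x (u + φ * I)) 0 φ := by
  obtain ⟨b, hb1, hb2⟩ := exists_between hφ
  have hcb : 0 < Real.cos b := cos_pos' (by rwa [abs_of_pos (lt_of_le_of_lt (abs_nonneg _) hb1)])
  obtain ⟨K, hK, h⟩ := exists_dom (Real.cos b) (|ν.re| + 1) x hcb (by positivity) hx
  have hs : Ioo (-b) b ∈ 𝓝 φ := Ioo_mem_nhds (abs_lt.1 hb1).1 (abs_lt.1 hb1).2
  have hcφ := cos_pos' hφ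
  have key := hasDerivAt_integral_of_dominated_loc_of_deriv_le (μ := volume)
    (F := fun (φ : ℝ) (u : ℝ) => G ν x (u + φ * I))
    (F' := fun (φ : ℝ) (u : ℝ) => G' ν x (u + φ * I) * I) (x₀ := φ)
    (bound := fun u : ℝ => (x + ‖ν‖) * (K * (1 + u ^ 2)⁻¹) * Real.exp (|ν.im| * b)) hs
    (Filter.Eventually.of_forall fun t => (cont_line ν x t).aestronglyMeasurable)
    (integrable_line ν x φ hx hcφ)
    (((cont_line' ν x φ).mul continuous_const).aestronglyMeasurable)
    (Filter.Eventually.of_forall fun u t ht => ?_)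
    (((integrable_inv_one_add_sq.const_mul K).const_mul (x + ‖ν‖)).mul_const _)
    (Filter.Eventually.of_forall fun u t ht => ?_)
  · have h0 : ∫ u : ℝ, G' ν x (u + φ * I) * I = 0 := by
      rw [integral_mul_const, integral_line'_eq_zero ν x φ hx hcφ, zero_mul]
    rw [h0] at key
    exact key.2
  · have htb : |t| ≤ b := abs_le.2 ⟨ht.1.le, ht.2.le⟩
    rw [norm_mul, Complex.norm_I, mul_one]
    refine (norm_G'_le u hx le_rfl (cos_ge htb hb2)).trans ?_
    have h5 : Real.exp (-(ν.im * t)) ≤ Real.exp (|ν.im| * b) := by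
      apply Real.exp_le_exp.2
      calc -(ν.im * t) ≤ |ν.im * t| := neg_le_abs _
        _ = |ν.im| * |t| := abs_mul _ _
        _ ≤ _ := by gcongr
    have h6 := h u
    gcongr
  · have h1 : HasDerivAt (fun t : ℝ => (u : ℂ) + t * I) I t := by
      simpa using ((Complex.ofRealCLM.hasDerivAt (x := t)).mul_const I).const_add (u : ℂ)
    exact HasDerivAt.comp (h₂ := G ν x) t (hasDerivAt_G ν x ((u : ℂ) + t * I)) h1

lemma shift (ν : ℂ) (x φ : ℝ) (hx : 0 < x) (hφ : |φ| < Real.pi / 2) :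
    ∫ u : ℝ, G ν x (u + φ * I) = ∫ u : ℝ, G ν x u := by
  have hconv : Convex ℝ (Ioo (-(Real.pi / 2)) (Real.pi / 2)) := convex_Ioo _ _
  have h := hconv.norm_image_sub_le_of_norm_hasDerivWithin_le (C := 0)
    (f := fun φ : ℝ => ∫ u : ℝ, G ν x (u + φ * I)) (f' := fun _ => 0) (x := 0) (y := φ)
    (fun t ht => (hasDerivAt_shift ν x t hx (abs_lt.2 ⟨ht.1, ht.2⟩)).hasDerivWithinAt)
    (fun t _ => by simp) ⟨by linarith [Real.pi_pos], by linarith [Real.pi_pos]⟩
    ⟨(abs_lt.1 hφ).1, (abs_lt.1 hφ).2⟩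
  simp only [zero_mul, Complex.ofReal_zero, add_zero] at h
  exact sub_eq_zero.1 (norm_le_zero_iff.1 h)

lemma KB_eq (ν : ℂ) (x : ℝ) : KB ν x = ∫ u : ℝ, G ν x u := by
  unfold KB G
  congr 1
  funext u
  push_cast
  rfl

lemma integrand_eq (ν : ℂ) (x : ℝ) :
    (fun u : ℝ => Complex.exp (-((x * Real.cosh u : ℝ) : ℂ) + ν * u)) =
      fun u : ℝ => G ν x u := by
  unfold G
  funext u
  push_cast
  rfl

lemma integrable_G (ν : ℂ) (x : ℝ) (hx : 0 < x) : Integrable (fun u : ℝ => G ν x u) := by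
  have h := integrable_line ν x 0 hx (by rw [Real.cos_zero]; exact one_pos)
  simpa using h

lemma norm_G_le₀ {ν : ℂ} {x y A : ℝ} (u : ℝ) (hx : 0 < x) (hyx : y ≤ x) (hA : |ν.re| ≤ A) :
    ‖G ν x u‖ ≤ Real.exp (-(1 * y * Real.cosh u) + A * |u|) := by
  have h := norm_G_le (c := 1) (φ := 0) u hx hA (by rw [Real.cos_zero])
  simp only [Complex.ofReal_zero, zero_mul, add_zero, mul_zero, neg_zero, Real.exp_zero,
    mul_one] at h
  refine h.trans (Real.exp_le_exp.2 ?_)
  have : y * Real.cosh u ≤ x * Real.cosh u := by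
    have := Real.cosh_pos u
    gcongr
  linarith

lemma differentiable_KB (x : ℝ) (hx : 0 < x) : Differentiable ℂ (fun ν => KB ν x) := by
  intro ν₀
  obtain ⟨K, hK, h⟩ := exists_dom 1 (|ν₀.re| + 1 + 1) x one_pos (by positivity) hx
  have key := hasDerivAt_integral_of_dominated_loc_of_deriv_le (𝕜 := ℂ) (μ := volume)
    (F := fun (ν : ℂ) (u : ℝ) => G ν x u)
    (F' := fun (ν : ℂ) (u : ℝ) => G ν x u * u) (x₀ := ν₀)
    (bound := fun u : ℝ => K * (1 + u ^ 2)⁻¹) (Metric.ball_mem_nhds ν₀ one_pos)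
    (Filter.Eventually.of_forall fun ν => ?_)
    (integrable_G ν₀ x hx) ?_
    (Filter.Eventually.of_forall fun u ν hν => ?_)
    (integrable_inv_one_add_sq.const_mul K)
    (Filter.Eventually.of_forall fun u ν hν => ?_)
  · have : (fun ν => KB ν x) = fun ν => ∫ u : ℝ, G ν x u := funext fun ν => KB_eq ν x
    rw [this]
    exact key.2.differentiableAt
  · have := cont_line ν x 0
    simp only [Complex.ofReal_zero, zero_mul, add_zero] at this
    exact this.aestronglyMeasurable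
  · have := cont_line ν₀ x 0
    simp only [Complex.ofReal_zero, zero_mul, add_zero] at this
    exact (this.mul Complex.continuous_ofReal).aestronglyMeasurable
  · have h1 : |ν.re| ≤ |ν₀.re| + 1 := by
      have h2 : ‖ν - ν₀‖ < 1 := by rwa [← dist_eq_norm]
      have h3 := Complex.abs_re_le_norm (ν - ν₀)
      rw [Complex.sub_re] at h3
      have h4 := abs_sub_abs_le_abs_sub ν.re ν₀.re
      linarith
    rw [norm_mul, Complex.norm_real, Real.norm_eq_abs]
    refine le_trans ?_ (h u)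
    have h5 := norm_G_le₀ (y := x) u hx le_rfl h1
    have h6 : |u| ≤ Real.exp |u| := (lt_of_lt_of_le (lt_add_one _) (Real.add_one_le_exp _)).le
    calc _ ≤ Real.exp (-(1 * x * Real.cosh u) + (|ν₀.re| + 1) * |u|) * Real.exp |u| := by
          gcongr
      _ = _ := by rw [← Real.exp_add]; congr 1; ring
  · unfold G
    have h1 : HasDerivAt (fun ν : ℂ => -((x : ℂ) * Complex.cosh u) + ν * u) u ν := by
      simpa using ((hasDerivAt_id ν).mul_const (u : ℂ)).const_add (-((x : ℂ) * Complex.cosh u))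
    exact h1.cexp

lemma continuousOn_KB : ContinuousOn (fun p : ℂ × ℝ => KB p.1 p.2) {p | 0 < p.2} := by
  have e : (fun p : ℂ × ℝ => KB p.1 p.2) = fun p : ℂ × ℝ => ∫ u : ℝ, G p.1 p.2 u :=
    funext fun p => KB_eq p.1 p.2
  rw [e]
  intro p₀ hp₀
  have hx₀ : 0 < p₀.2 := hp₀
  apply ContinuousAt.continuousWithinAt
  obtain ⟨K, hK, h⟩ := exists_dom 1 (|p₀.1.re| + 1) (p₀.2 / 2) one_pos (by positivity)
    (by positivity)
  refine continuousAt_of_dominated (bound := fun u : ℝ => K * (1 + u ^ 2)⁻¹)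
    (Filter.Eventually.of_forall fun p => ?_) ?_ (integrable_inv_one_add_sq.const_mul K)
    (Filter.Eventually.of_forall fun u => ?_)
  · have := cont_line p.1 p.2 0
    simp only [Complex.ofReal_zero, zero_mul, add_zero] at this
    exact this.aestronglyMeasurable
  · have h1 : ∀ᶠ p : ℂ × ℝ in 𝓝 p₀, p₀.2 / 2 < p.2 :=
      (continuous_snd.tendsto p₀).eventually (lt_mem_nhds (by linarith))
    have h2 : ∀ᶠ p : ℂ × ℝ in 𝓝 p₀, |p.1.re| < |p₀.1.re| + 1 := by
      have hc : Continuous (fun p : ℂ × ℝ => |p.1.re|) := by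
        have := Complex.continuous_re
        fun_prop
      exact (hc.tendsto p₀).eventually (gt_mem_nhds (by linarith))
    filter_upwards [h1, h2] with p hp1 hp2
    refine Filter.Eventually.of_forall fun u => ?_
    exact (norm_G_le₀ (y := p₀.2 / 2) u (by linarith) hp1.le hp2.le).trans (h u)
  · have hc := continuous_G
    have : Continuous (fun p : ℂ × ℝ => G p.1 p.2 u) :=
      hc.comp (by fun_prop : Continuous (fun p : ℂ × ℝ => ((p, (u : ℂ)) : (ℂ × ℝ) × ℂ)))
    exact this.continuousAt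

lemma KB_neg (ν : ℂ) (x : ℝ) : KB (-ν) x = KB ν x := by
  unfold KB
  rw [← integral_neg_eq_self]
  congr 1
  funext u
  congr 1
  rw [Real.cosh_neg]
  push_cast
  ring

lemma KB_zero (x : ℝ) : (KB 0 x).im = 0 ∧ 0 ≤ (KB 0 x).re := by
  have h : KB 0 x = ((∫ u : ℝ, Real.exp (-(x * Real.cosh u)) : ℝ) : ℂ) := by
    unfold KB
    rw [← integral_complex_ofReal]
    congr 1
    funext u
    rw [zero_mul, add_zero, Complex.ofReal_exp]
    push_cast
    rfl
  rw [h]
  refine ⟨Complex.ofReal_im _, ?_⟩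
  rw [Complex.ofReal_re]
  exact integral_nonneg fun u => (Real.exp_pos _).le

lemma KB_bound (A φ : ℝ) (hA : 0 < A) (hφ0 : 0 ≤ φ) (hφ : φ < Real.pi / 2) :
    ∃ C, 0 < C ∧ ∀ (ν : ℂ) (x : ℝ), |ν.re| ≤ A →
    0 < x → ‖KB ν x‖ ≤ C * Real.exp (-φ * |ν.im|) * (1 + x ^ (-(A + 1))) *
      Real.exp (-(Real.cos φ * x)) := by
  have hφ' : |φ| < Real.pi / 2 := by rwa [abs_of_nonneg hφ0]
  have hc := cos_pos' hφ'
  obtain ⟨C, hC, hm⟩ := maj (Real.cos φ) A hc hA.le
  refine ⟨C * Real.pi, by positivity, fun ν x hν hx => ?_⟩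
  -- the shift
  obtain ⟨ψ, hψ1, hψ2, hψ3⟩ : ∃ ψ : ℝ, |ψ| < Real.pi / 2 ∧ Real.cos ψ = Real.cos φ ∧
      ν.im * ψ = φ * |ν.im| := by
    rcases le_total 0 ν.im with h | h
    · exact ⟨φ, hφ', rfl, by rw [abs_of_nonneg h]; ring⟩
    · exact ⟨-φ, by rwa [abs_neg], Real.cos_neg φ, by rw [abs_of_nonpos h]; ring⟩
  rw [KB_eq, ← shift ν x ψ hx hψ1]
  have hx1 : 0 < x ^ (-(A + 1)) := Real.rpow_pos_of_pos hx _
  calc ‖∫ u : ℝ, G ν x (u + ψ * I)‖
      ≤ ∫ u : ℝ, (C * (1 + x ^ (-(A + 1))) * Real.exp (-(Real.cos φ * x)) *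
          Real.exp (-φ * |ν.im|)) * (1 + u ^ 2)⁻¹ := by
        apply norm_integral_le_of_norm_le (integrable_inv_one_add_sq.const_mul _)
        refine Filter.Eventually.of_forall fun u => ?_
        refine (norm_G_le u hx hν hψ2.ge).trans ?_
        rw [hψ3, neg_mul φ]
        have := hm x u hx
        calc _ ≤ (C * (1 + x ^ (-(A + 1))) * Real.exp (-(Real.cos φ * x)) * (1 + u ^ 2)⁻¹) *
              Real.exp (-(φ * |ν.im|)) := by gcongr
          _ = _ := by ring
    _ = _ := by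
        rw [integral_const_mul, integral_univ_inv_one_add_sq]
        ring

end FMZ.EKB_

namespace FMZ

theorem pKB : tKB := by
  refine ⟨fun ν x hx => ?_, EKB_.differentiable_KB, EKB_.continuousOn_KB, EKB_.KB_neg,
    EKB_.KB_zero, EKB_.KB_bound⟩
  rw [EKB_.integrand_eq]
  exact EKB_.integrable_G ν x hx

end FMZ
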