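import Pool.Agent.FMZ.TJ

/-!
# FMZ: analyticity, equation and value at 0 of 𝔍
-/

open Complex MeasureTheory Set Filter Topology

namespace FMZ

namespace JAN_

/-! ### general lemmas -/

theorem integrable_exp_abs {δ : ℝ} (hδ : 0 < δ) : Integrable (fun v : ℝ => Real.exp (-δ * |v|)) := by
  have h1 : IntegrableOn (fun v : ℝ => Real.exp (-δ * |v|)) (Iic 0) := by
    refine (integrableOn_exp_mul_Iic hδ 0).congr_fun ?_ measurableSet_Iic
    intro v hv
    simp only [mem_Iic] at hv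
    simp only
    rw [abs_of_nonpos hv]
    congr 1
    ring
  have h2 : IntegrableOn (fun v : ℝ => Real.exp (-δ * |v|)) (Ioi 0) := by
    refine (integrableOn_exp_mul_Ioi (neg_lt_zero.2 hδ) 0).congr_fun ?_ measurableSet_Ioi
    intro v hv
    simp only [mem_Ioi] at hv
    simp only
    rw [abs_of_pos hv]
  have h3 := h1.union h2
  rwa [Iic_union_Ioi, integrableOn_univ] at h3

/-- holomorphic parameter integrals -/
theorem hol_int {U : Set ℂ} (F F' : ℂ → ℝ → ℂ)
    (hF : ∀ v, ∀ z ∈ U, HasDerivAt (fun z => F z v) (F' z v) z)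
    (hc : ∀ z ∈ U, Continuous (F z)) (hc' : ∀ z ∈ U, Continuous (F' z))
    (hb : ∀ z₀ ∈ U, ∃ ε > 0, Metric.ball z₀ ε ⊆ U ∧ ∃ bd : ℝ → ℝ, Integrable bd ∧
      ∀ v, ∀ z ∈ Metric.ball z₀ ε, ‖F z v‖ ≤ bd v) :
    (∀ z ∈ U, Integrable (F z) ∧ Integrable (F' z) ∧
      HasDerivAt (fun z => ∫ v, F z v) (∫ v, F' z v) z) ∧
    (∀ z₀ ∈ U, ∃ ε > 0, Metric.ball z₀ ε ⊆ U ∧ ∃ bd : ℝ → ℝ, Integrable bd ∧
      ∀ v, ∀ z ∈ Metric.ball z₀ ε, ‖F' z v‖ ≤ bd v) := by
  have hb' : (∀ z₀ ∈ U, ∃ ε > 0, Metric.ball z₀ ε ⊆ U ∧ ∃ bd : ℝ → ℝ, Integrable bd ∧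
      ∀ v, ∀ z ∈ Metric.ball z₀ ε, ‖F' z v‖ ≤ bd v) := by
    intro z₀ hz₀
    obtain ⟨ε, hε, hsub, bd, hbd, hle⟩ := hb z₀ hz₀
    refine ⟨ε / 2, by linarith, (Metric.ball_subset_ball (by linarith)).trans hsub,
      fun v => bd v / (ε / 4), hbd.div_const _, ?_⟩
    intro v z hz
    have hsub2 : Metric.closedBall z (ε / 4) ⊆ Metric.ball z₀ ε := by
      intro w hw
      rw [Metric.mem_closedBall] at hw
      rw [Metric.mem_ball] at hz ⊢
      have := dist_triangle w z z₀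
      linarith
    have hz' : z ∈ U := hsub (hsub2 (Metric.mem_closedBall_self (by linarith)))
    rw [← (hF v z hz').deriv]
    apply Complex.norm_deriv_le_of_forall_mem_sphere_norm_le (by linarith)
    · apply DifferentiableOn.diffContOnCl
      intro w hw
      rw [closure_ball _ (by linarith)] at hw
      exact (hF v w (hsub (hsub2 hw))).differentiableAt.differentiableWithinAt
    · intro w hw
      exact hle v w (hsub2 (Metric.sphere_subset_closedBall hw))
  refine ⟨?_, hb'⟩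
  intro z hz
  obtain ⟨ε, hε, hsub, bd, hbd, hle⟩ := hb z hz
  obtain ⟨ε', hε', hsub', bd', hbd', hle'⟩ := hb' z hz
  have hint : Integrable (F z) :=
    hbd.mono' (hc z hz).aestronglyMeasurable
      (Eventually.of_forall fun v => hle v z (Metric.mem_ball_self hε))
  have key := hasDerivAt_integral_of_dominated_loc_of_deriv_le (F := F) (F' := F')
    (bound := bd') (μ := volume) (Metric.ball_mem_nhds z hε')
    (by
      filter_upwards [Metric.ball_mem_nhds z hε'] with w hw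
      exact (hc w (hsub' hw)).aestronglyMeasurable)
    hint (hc' z hz).aestronglyMeasurable
    (Eventually.of_forall fun v w hw => hle' v w hw) hbd'
    (Eventually.of_forall fun v w hw => hF v w (hsub' hw))
  exact ⟨hint, key.1, key.2⟩

/-! ### the functions -/

theorem isOpen_S0 : IsOpen S0 := by
  unfold S0
  exact isOpen_lt (continuous_abs.comp Complex.continuous_im) continuous_const

theorem neg_mem_S0 {d : ℂ} (hd : d ∈ S0) : -d ∈ S0 := by
  unfold S0 at *
  simpa using hd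

theorem gm_eq (v : ℝ) (d : ℂ) : gm v d = gp v (-d) := by
  unfold gm gp
  rw [Complex.cosh_neg, Complex.sinh_neg]
  ring

theorem gp_mem (h : tCONE) {d : ℂ} (hd : d ∈ S0) (v : ℝ) : gp v d ∈ slitPlane :=
  (h d v |d.im| le_rfl hd).2.1

theorem two_mul_mem {z : ℂ} (hz : z ∈ slitPlane) : 2 * z ∈ slitPlane := by
  rw [mem_slitPlane_iff] at hz ⊢
  simp only [mul_re, mul_im, re_ofNat, im_ofNat, zero_mul, sub_zero, add_zero]
  rcases hz with h | h
  · left; linarith
  · right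
    intro h0
    apply h
    linarith

theorem gp2_mem (h : tCONE) {d : ℂ} (hd : d ∈ S0) (v : ℝ) : 2 * gp v d ∈ slitPlane :=
  two_mul_mem (gp_mem h hd v)

theorem gp2_ne (h : tCONE) {d : ℂ} (hd : d ∈ S0) (v : ℝ) : 2 * gp v d ≠ 0 :=
  slitPlane_ne_zero (gp2_mem h hd v)

/-- the integrand -/
noncomputable def G (s w d : ℂ) (v : ℝ) : ℂ := (2 * gp v d) ^ (-s) * Complex.exp (w * v)

noncomputable def gd (v : ℝ) (d : ℂ) : ℂ := Complex.sinh d * Real.cosh v + Complex.cosh d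

noncomputable def G1 (s w d : ℂ) (v : ℝ) : ℂ :=
  -s * (2 * gp v d) ^ (-s - 1) * (2 * gd v d) * Complex.exp (w * v)

noncomputable def G2 (s w d : ℂ) (v : ℝ) : ℂ :=
  (s * (s + 1) * (2 * gp v d) ^ (-s - 2) * (2 * gd v d) ^ 2 - s * (2 * gp v d) ^ (-s)) *
    Complex.exp (w * v)

noncomputable def Gs (s w d : ℂ) (v : ℝ) : ℂ :=
  -(Complex.log (2 * gp v d)) * (2 * gp v d) ^ (-s) * Complex.exp (w * v)

theorem cont_gp (d : ℂ) : Continuous (fun v : ℝ => gp v d) := by
  unfold gp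
  have : Continuous (fun v : ℝ => ((Real.cosh v : ℝ) : ℂ)) :=
    Complex.continuous_ofReal.comp Real.continuous_cosh
  fun_prop

theorem cont_gd (d : ℂ) : Continuous (fun v : ℝ => gd v d) := by
  unfold gd
  have : Continuous (fun v : ℝ => ((Real.cosh v : ℝ) : ℂ)) :=
    Complex.continuous_ofReal.comp Real.continuous_cosh
  fun_prop

theorem cont_exp (w : ℂ) : Continuous (fun v : ℝ => Complex.exp (w * v)) := by
  have : Continuous (fun v : ℝ => (v : ℂ)) := Complex.continuous_ofReal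
  fun_prop

theorem cont_pow (h : tCONE) {d : ℂ} (hd : d ∈ S0) (α : ℂ) :
    Continuous (fun v : ℝ => (2 * gp v d) ^ α) := by
  have h1 : Continuous (fun v : ℝ => 2 * gp v d) := continuous_const.mul (cont_gp d)
  exact h1.cpow continuous_const (fun v => gp2_mem h hd v)

theorem cont_G (h : tCONE) {d : ℂ} (hd : d ∈ S0) (s w : ℂ) : Continuous (G s w d) :=
  (cont_pow h hd _).mul (cont_exp w)

theorem cont_G1 (h : tCONE) {d : ℂ} (hd : d ∈ S0) (s w : ℂ) : Continuous (G1 s w d) :=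
  ((continuous_const.mul (cont_pow h hd _)).mul (continuous_const.mul (cont_gd d))).mul (cont_exp w)

theorem cont_G2 (h : tCONE) {d : ℂ} (hd : d ∈ S0) (s w : ℂ) : Continuous (G2 s w d) :=
  (((continuous_const.mul (cont_pow h hd _)).mul ((continuous_const.mul (cont_gd d)).pow 2)).sub
    (continuous_const.mul (cont_pow h hd _))).mul (cont_exp w)

theorem cont_Gs (h : tCONE) {d : ℂ} (hd : d ∈ S0) (s w : ℂ) : Continuous (Gs s w d) := by
  have h1 : Continuous (fun v : ℝ => 2 * gp v d) := continuous_const.mul (cont_gp d)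
  have h2 : Continuous (fun v : ℝ => Complex.log (2 * gp v d)) :=
    h1.clog (fun v => gp2_mem h hd v)
  exact (h2.neg.mul (cont_pow h hd _)).mul (cont_exp w)

theorem hasDerivAt_gp (v : ℝ) (d : ℂ) : HasDerivAt (fun d => gp v d) (gd v d) d := by
  unfold gp gd
  exact ((Complex.hasDerivAt_cosh d).mul_const _).add (Complex.hasDerivAt_sinh d)

theorem hasDerivAt_gd (v : ℝ) (d : ℂ) : HasDerivAt (fun d => gd v d) (gp v d) d := by
  unfold gp gd
  exact ((Complex.hasDerivAt_sinh d).mul_const _).add (Complex.hasDerivAt_cosh d)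

theorem hasDerivAt_pow (h : tCONE) {d : ℂ} (hd : d ∈ S0) (α : ℂ) (v : ℝ) :
    HasDerivAt (fun d => (2 * gp v d) ^ α) (α * (2 * gp v d) ^ (α - 1) * (2 * gd v d)) d :=
  ((hasDerivAt_gp v d).const_mul 2).cpow_const (gp2_mem h hd v)

theorem hasDerivAt_G (h : tCONE) {d : ℂ} (hd : d ∈ S0) (s w : ℂ) (v : ℝ) :
    HasDerivAt (fun d => G s w d v) (G1 s w d v) d :=
  (hasDerivAt_pow h hd (-s) v).mul_const _

theorem hasDerivAt_G1 (h : tCONE) {d : ℂ} (hd : d ∈ S0) (s w : ℂ) (v : ℝ) :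
    HasDerivAt (fun d => G1 s w d v) (G2 s w d v) d := by
  have h1 := (((hasDerivAt_pow h hd (-s - 1) v).const_mul (-s)).mul
    ((hasDerivAt_gd v d).const_mul 2)).mul_const (Complex.exp (w * v))
  have h2 : G2 s w d v = (-s * ((-s - 1) * (2 * gp v d) ^ (-s - 1 - 1) * (2 * gd v d)) *
      (2 * gd v d) + -s * (2 * gp v d) ^ (-s - 1) * (2 * gp v d)) * Complex.exp (w * v) := by
    unfold G2
    congr 1
    have e1 : (2 * gp v d) ^ (-s) = (2 * gp v d) ^ (-s - 1) * (2 * gp v d) := by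
      rw [Complex.cpow_sub _ _ (gp2_ne h hd v), Complex.cpow_one,
        div_mul_cancel₀ _ (gp2_ne h hd v)]
    rw [e1, show -s - 1 - 1 = -s - 2 by ring]
    ring
  rw [h2]
  exact h1

theorem hasDerivAt_Gs (h : tCONE) {d : ℂ} (hd : d ∈ S0) (s w : ℂ) (v : ℝ) :
    HasDerivAt (fun s => G s w d v) (Gs s w d v) s := by
  have h1 := ((hasDerivAt_id s).neg.const_cpow (c := 2 * gp v d)
    (Or.inl (gp2_ne h hd v))).mul_const (Complex.exp (w * v))
  have h2 : Gs s w d v = (2 * gp v d) ^ (-s) * Complex.log (2 * gp v d) * -1 *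
      Complex.exp (w * v) := by
    unfold Gs
    ring
  rw [h2]
  exact h1

/-- size of the integrand -/
theorem size (h : tCONE) (h' : tPHB) {b A : ℝ} (hb0 : 0 ≤ b) (hb : b < Real.pi / 2)
    (σ₀ σ₁ M ω : ℝ) (hσ : 0 < σ₀) :
    ∃ C : ℝ, 0 < C ∧ ∀ (s d w : ℂ) (v : ℝ), σ₀ ≤ s.re → s.re ≤ σ₁ → |s.im| ≤ M → |w.re| ≤ ω →
      |d.im| ≤ b → |d.re| ≤ A → ‖(2 * gp v d) ^ (-s)‖ ≤ C * Real.exp (-σ₀ * |v|) ∧
      ‖G s w d v‖ ≤ C * Real.exp (-(σ₀ - ω) * |v|) := by
  set c := min 1 (Real.cos b * Real.exp (-A)) with hc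
  have hcosb : 0 < Real.cos b := Real.cos_pos_of_mem_Ioo ⟨by linarith, hb⟩
  have hc0 : 0 < c := lt_min one_pos (mul_pos hcosb (Real.exp_pos _))
  have hc1 : c ≤ 1 := min_le_left _ _
  refine ⟨c ^ (-σ₁) * Real.exp (b * |M|), by positivity, ?_⟩
  intro s d w v hs0 hs1 hsM hw hdi hdr
  have hlow : c * Real.exp |v| ≤ ‖2 * gp v d‖ := by
    have h1 := (h d v b hdi hb).2.2.2.2.2.1
    refine le_trans ?_ h1
    have h2 : Real.exp |v| / 2 ≤ Real.cosh v := by
      rw [← Real.cosh_abs, Real.cosh_eq]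
      have := Real.exp_pos (-|v|)
      linarith
    have h3 : 1 ≤ Real.cosh v := Real.one_le_cosh v
    have h4 : Real.exp (-A) ≤ Real.exp d.re :=
      Real.exp_le_exp.2 (by linarith [(abs_le.1 hdr).1])
    have h5 : Real.exp (-A) ≤ Real.exp (-d.re) :=
      Real.exp_le_exp.2 (by linarith [(abs_le.1 hdr).2])
    have h6 : Real.exp (-A) * Real.exp |v| ≤
        Real.exp d.re * (Real.cosh v + 1) + Real.exp (-d.re) * (Real.cosh v - 1) := by
      have h7 := mul_le_mul_of_nonneg_right h4 (show 0 ≤ Real.cosh v + 1 by linarith)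
      have h8 := mul_le_mul_of_nonneg_right h5 (show 0 ≤ Real.cosh v - 1 by linarith)
      have h9 := Real.exp_pos (-A)
      nlinarith
    calc c * Real.exp |v| ≤ Real.cos b * Real.exp (-A) * Real.exp |v| :=
          mul_le_mul_of_nonneg_right (min_le_right _ _) (Real.exp_pos _).le
      _ = Real.cos b * (Real.exp (-A) * Real.exp |v|) := by ring
      _ ≤ _ := mul_le_mul_of_nonneg_left h6 hcosb.le
  have hpos : 0 < c * Real.exp |v| := mul_pos hc0 (Real.exp_pos _)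
  have hsre : 0 < s.re := lt_of_lt_of_le hσ hs0
  have h1 : ‖(2 * gp v d) ^ (-s)‖ ≤ c ^ (-σ₁) * Real.exp (b * |M|) * Real.exp (-σ₀ * |v|) := by
    refine ((h' s d v b hdi hb).1).trans ?_
    have e1 : ‖2 * gp v d‖ ^ (-s.re) ≤ (c * Real.exp |v|) ^ (-s.re) :=
      Real.rpow_le_rpow_of_nonpos hpos hlow (by linarith)
    have e2 : (c * Real.exp |v|) ^ (-s.re) = c ^ (-s.re) * Real.exp (-s.re * |v|) := by
      rw [Real.mul_rpow hc0.le (Real.exp_pos _).le, ← Real.exp_mul]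
      congr 2
      ring
    have e3 : c ^ (-s.re) ≤ c ^ (-σ₁) :=
      Real.rpow_le_rpow_of_exponent_ge hc0 hc1 (by linarith)
    have e4 : Real.exp (-s.re * |v|) ≤ Real.exp (-σ₀ * |v|) := by
      apply Real.exp_le_exp.2
      have := abs_nonneg v
      nlinarith
    have e5 : Real.exp (b * |s.im|) ≤ Real.exp (b * |M|) := by
      apply Real.exp_le_exp.2
      exact mul_le_mul_of_nonneg_left (hsM.trans (le_abs_self M)) hb0
    calc ‖2 * gp v d‖ ^ (-s.re) * Real.exp (b * |s.im|)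
        ≤ (c ^ (-σ₁) * Real.exp (-σ₀ * |v|)) * Real.exp (b * |M|) := by
          apply mul_le_mul _ e5 (Real.exp_pos _).le (by positivity)
          rw [e2] at e1
          exact e1.trans (mul_le_mul e3 e4 (Real.exp_pos _).le (by positivity))
      _ = _ := by ring
  refine ⟨h1, ?_⟩
  unfold G
  rw [norm_mul, Complex.norm_exp]
  have h2 : (w * (v : ℂ)).re = w.re * v := by simp
  rw [h2]
  have h3 : Real.exp (w.re * v) ≤ Real.exp (ω * |v|) := by
    apply Real.exp_le_exp.2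
    calc w.re * v ≤ |w.re * v| := le_abs_self _
      _ = |w.re| * |v| := abs_mul _ _
      _ ≤ ω * |v| := mul_le_mul_of_nonneg_right hw (abs_nonneg _)
  calc ‖(2 * gp v d) ^ (-s)‖ * Real.exp (w.re * v)
      ≤ (c ^ (-σ₁) * Real.exp (b * |M|) * Real.exp (-σ₀ * |v|)) * Real.exp (ω * |v|) :=
        mul_le_mul h1 h3 (Real.exp_pos _).le (by positivity)
    _ = c ^ (-σ₁) * Real.exp (b * |M|) * Real.exp (-(σ₀ - ω) * |v|) := by
        rw [mul_assoc, ← Real.exp_add]
        congr 2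
        ring

/-- a ball around a point of the strip -/
theorem exists_ball {d₀ : ℂ} (hd₀ : d₀ ∈ S0) : ∃ (ε b A : ℝ), 0 < ε ∧ 0 ≤ b ∧ b < Real.pi / 2 ∧
    Metric.ball d₀ ε ⊆ S0 ∧ ∀ d ∈ Metric.ball d₀ ε, |d.im| ≤ b ∧ |d.re| ≤ A := by
  have h0 : |d₀.im| < Real.pi / 2 := hd₀
  set ε := (Real.pi / 2 - |d₀.im|) / 2 with hε
  have hε0 : 0 < ε := by rw [hε]; linarith
  have key : ∀ d ∈ Metric.ball d₀ ε, |d.im| ≤ |d₀.im| + ε ∧ |d.re| ≤ |d₀.re| + ε := by
    intro d hd
    rw [Metric.mem_ball, dist_eq_norm] at hd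
    have h1 := (Complex.abs_im_le_norm (d - d₀)).trans hd.le
    have h2 := (Complex.abs_re_le_norm (d - d₀)).trans hd.le
    rw [sub_im] at h1
    rw [sub_re] at h2
    have h3 := abs_sub_abs_le_abs_sub d.im d₀.im
    have h4 := abs_sub_abs_le_abs_sub d.re d₀.re
    constructor <;> linarith
  have hlt : |d₀.im| + ε < Real.pi / 2 := by rw [hε]; linarith
  refine ⟨ε, |d₀.im| + ε, |d₀.re| + ε, hε0, by positivity, hlt, ?_, key⟩
  intro d hd
  exact lt_of_le_of_lt (key d hd).1 hlt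

/-- differentiation in d -/
theorem diff_d (h : tCONE) (h' : tPHB) {s w : ℂ} (hsw : |w.re| < s.re) :
    (∀ d ∈ S0, Integrable (G s w d) ∧ Integrable (G1 s w d) ∧
      HasDerivAt (fun d => ∫ v, G s w d v) (∫ v, G1 s w d v) d) ∧
    (∀ d ∈ S0, Integrable (G1 s w d) ∧ Integrable (G2 s w d) ∧
      HasDerivAt (fun d => ∫ v, G1 s w d v) (∫ v, G2 s w d v) d) := by
  have hs0 : 0 < s.re := lt_of_le_of_lt (abs_nonneg _) hsw
  have h1 := hol_int (U := S0) (G s w) (G1 s w) (fun v z hz => hasDerivAt_G h hz s w v)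
    (fun z hz => cont_G h hz s w) (fun z hz => cont_G1 h hz s w) (by
      intro d₀ hd₀
      obtain ⟨ε, b, A, hε, hb0, hb, hsub, hball⟩ := exists_ball hd₀
      obtain ⟨C, hC, hCle⟩ := size h h' (A := A) hb0 hb s.re s.re |s.im| |w.re| hs0
      refine ⟨ε, hε, hsub, fun v => C * Real.exp (-(s.re - |w.re|) * |v|),
        (integrable_exp_abs (by linarith)).const_mul C, ?_⟩
      intro v d hd
      exact (hCle s d w v le_rfl le_rfl le_rfl le_rfl (hball d hd).1 (hball d hd).2).2)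
  have h2 := hol_int (U := S0) (G1 s w) (G2 s w) (fun v z hz => hasDerivAt_G1 h hz s w v)
    (fun z hz => cont_G1 h hz s w) (fun z hz => cont_G2 h hz s w) h1.2
  exact ⟨h1.1, h2.1⟩

theorem JJ_eq (h : tCONE) (h' : tPHB) {s w d : ℂ} (hsw : |w.re| < s.re) (hd : d ∈ S0) :
    Integrable (fun v : ℝ => ph s v d * Complex.exp (w * v)) ∧
    JJ s w d = (∫ v, G s w d v) + ∫ v, G s w (-d) v := by
  have h1 := ((diff_d h h' hsw).1 d hd).1
  have h2 := ((diff_d h h' hsw).1 (-d) (neg_mem_S0 hd)).1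
  have h3 : (fun v : ℝ => ph s v d * Complex.exp (w * v)) = fun v => G s w d v + G s w (-d) v := by
    funext v
    unfold ph G
    rw [gm_eq]
    ring
  constructor
  · rw [h3]
    exact h1.add h2
  · unfold JJ
    rw [h3, integral_add h1 h2]

/-! ### the equation -/

noncomputable def Gv (s d : ℂ) (v : ℝ) : ℂ :=
  -s * (2 * gp v d) ^ (-(s + 1)) * (2 * (Complex.cosh d * Real.sinh v))

noncomputable def Gvv (s d : ℂ) (v : ℝ) : ℂ :=
  s * (s + 1) * (2 * gp v d) ^ (-(s + 2)) * (2 * (Complex.cosh d * Real.sinh v)) ^ 2 -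
    s * (2 * gp v d) ^ (-(s + 1)) * (2 * (Complex.cosh d * Real.cosh v))

theorem hasDerivAt_gpv (v : ℝ) (d : ℂ) :
    HasDerivAt (fun v : ℝ => gp v d) (Complex.cosh d * Real.sinh v) v := by
  unfold gp
  have h1 : HasDerivAt (fun v : ℝ => ((Real.cosh v : ℝ) : ℂ)) ((Real.sinh v : ℝ) : ℂ) v :=
    (Real.hasDerivAt_cosh v).ofReal_comp
  exact (h1.const_mul (Complex.cosh d)).add_const _

theorem hasDerivAt_powv (h : tCONE) {d : ℂ} (hd : d ∈ S0) (α : ℂ) (v : ℝ) :
    HasDerivAt (fun v : ℝ => (2 * gp v d) ^ α)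
      (α * (2 * gp v d) ^ (α - 1) * (2 * (Complex.cosh d * Real.sinh v))) v := by
  have h1 : HasDerivAt (fun v : ℝ => 2 * gp v d) (2 * (Complex.cosh d * Real.sinh v)) v :=
    (hasDerivAt_gpv v d).const_mul 2
  have h2 := (hasStrictDerivAt_cpow_const (c := α) (gp2_mem h hd v)).hasDerivAt
  have h3 := h2.comp v h1
  exact h3

theorem hasDerivAt_Gv (h : tCONE) {d : ℂ} (hd : d ∈ S0) (s : ℂ) (v : ℝ) :
    HasDerivAt (Gv s d) (Gvv s d v) v := by
  have h0 : HasDerivAt (fun v : ℝ => ((Real.sinh v : ℝ) : ℂ)) ((Real.cosh v : ℝ) : ℂ) v :=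
    (Real.hasDerivAt_sinh v).ofReal_comp
  have h1 := ((hasDerivAt_powv h hd (-(s + 1)) v).const_mul (-s)).mul
    ((h0.const_mul (Complex.cosh d)).const_mul 2)
  have h2 : Gvv s d v = -s * (-(s + 1) * (2 * gp v d) ^ (-(s + 1) - 1) *
      (2 * (Complex.cosh d * Real.sinh v))) * (2 * (Complex.cosh d * Real.sinh v)) +
      -s * (2 * gp v d) ^ (-(s + 1)) * (2 * (Complex.cosh d * Real.cosh v)) := by
    unfold Gvv
    rw [show -(s + 1) - 1 = -(s + 2) by ring]
    ring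
  rw [h2]
  exact h1

theorem abs_sinh_le (v : ℝ) : |Real.sinh v| ≤ Real.exp |v| := by
  rw [Real.abs_sinh, Real.sinh_eq]
  have h1 := Real.exp_pos |v|
  have h2 := Real.exp_pos (-|v|)
  linarith

theorem cosh_le (v : ℝ) : Real.cosh v ≤ Real.exp |v| := by
  rw [← Real.cosh_abs, Real.cosh_eq]
  have h1 : Real.exp (-|v|) ≤ Real.exp |v| := Real.exp_le_exp.2 (by linarith [abs_nonneg v])
  linarith

theorem integrable_pow (h : tCONE) (h' : tPHB) {d : ℂ} (hd : d ∈ S0) {s : ℂ} (hs : 0 < s.re)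
    (k : ℕ) (f : ℝ → ℂ) (hf : Continuous f) (C : ℝ)
    (hfb : ∀ v, ‖f v‖ ≤ C * Real.exp (k * |v|)) :
    Integrable (fun v : ℝ => (2 * gp v d) ^ (-(s + k)) * f v) := by
  obtain ⟨ε, b, A, hε, hb0, hb, hsub, hball⟩ := exists_ball hd
  have hsk : (s + k).re = s.re + k := by simp
  obtain ⟨C', hC', hCle⟩ := size h h' (A := A) hb0 hb (s.re + k) (s.re + k) |(s + k).im| 0
    (by positivity)
  have hC0 : 0 ≤ C := by
    have h1 := (norm_nonneg (f 0)).trans (hfb 0)
    simpa using h1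
  refine ((integrable_exp_abs hs).const_mul (C' * C)).mono'
    ((cont_pow h hd _).mul hf).aestronglyMeasurable (Eventually.of_forall fun v => ?_)
  have h1 := (hCle (s + k) d 0 v (by rw [hsk]) (by rw [hsk]) le_rfl (by simp)
    (hball d (Metric.mem_ball_self hε)).1 (hball d (Metric.mem_ball_self hε)).2).1
  rw [norm_mul]
  calc ‖(2 * gp v d) ^ (-(s + k))‖ * ‖f v‖
      ≤ (C' * Real.exp (-(s.re + k) * |v|)) * (C * Real.exp (k * |v|)) :=
        mul_le_mul h1 (hfb v) (norm_nonneg _) (by positivity)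
    _ = C' * C * (Real.exp (-(s.re + k) * |v|) * Real.exp (k * |v|)) := by ring
    _ = C' * C * Real.exp (-s.re * |v|) := by
        rw [← Real.exp_add]
        congr 2
        ring

theorem integral_Gvv (h : tCONE) (h' : tPHB) {d : ℂ} (hd : d ∈ S0) {s : ℂ} (hs : 0 < s.re) :
    Integrable (Gvv s d) ∧ ∫ v, Gvv s d v = 0 := by
  have hcs : Continuous (fun v : ℝ => ((Real.sinh v : ℝ) : ℂ)) :=
    Complex.continuous_ofReal.comp Real.continuous_sinh
  have hcc : Continuous (fun v : ℝ => ((Real.cosh v : ℝ) : ℂ)) :=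
    Complex.continuous_ofReal.comp Real.continuous_cosh
  have hns : ∀ v : ℝ, ‖((Real.sinh v : ℝ) : ℂ)‖ ≤ Real.exp |v| := by
    intro v
    rw [Complex.norm_real]
    exact abs_sinh_le v
  have hnc : ∀ v : ℝ, ‖((Real.cosh v : ℝ) : ℂ)‖ ≤ Real.exp |v| := by
    intro v
    rw [Complex.norm_real, Real.norm_of_nonneg (Real.cosh_pos v).le]
    exact cosh_le v
  have hi1 : Integrable (Gv s d) := by
    have h1 := integrable_pow h h' hd hs 1 (fun v : ℝ => -s * (2 * (Complex.cosh d * Real.sinh v)))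
      (by fun_prop) (‖s‖ * (2 * ‖Complex.cosh d‖)) (by
        intro v
        rw [norm_mul, norm_neg, norm_mul, norm_mul, Complex.norm_ofNat, Nat.cast_one, one_mul]
        have := hns v
        calc ‖s‖ * (2 * (‖Complex.cosh d‖ * ‖((Real.sinh v : ℝ) : ℂ)‖))
            ≤ ‖s‖ * (2 * (‖Complex.cosh d‖ * Real.exp |v|)) := by gcongr
          _ = _ := by ring)
    refine h1.congr (Eventually.of_forall fun v => ?_)
    simp only [Gv, Nat.cast_one]
    ring
  have hi2 : Integrable (Gvv s d) := by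
    have h1 := integrable_pow h h' hd hs 2
      (fun v : ℝ => s * (s + 1) * (2 * (Complex.cosh d * Real.sinh v)) ^ 2)
      (by fun_prop) (‖s * (s + 1)‖ * (2 * ‖Complex.cosh d‖) ^ 2) (by
        intro v
        rw [norm_mul, norm_pow, norm_mul 2, norm_mul (Complex.cosh d), Complex.norm_ofNat]
        have := hns v
        calc ‖s * (s + 1)‖ * (2 * (‖Complex.cosh d‖ * ‖((Real.sinh v : ℝ) : ℂ)‖)) ^ 2
            ≤ ‖s * (s + 1)‖ * (2 * (‖Complex.cosh d‖ * Real.exp |v|)) ^ 2 := by gcongr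
          _ = ‖s * (s + 1)‖ * (2 * ‖Complex.cosh d‖) ^ 2 * (Real.exp |v|) ^ 2 := by ring
          _ = _ := by
            rw [← Real.exp_nat_mul])
    have h2 := integrable_pow h h' hd hs 1
      (fun v : ℝ => s * (2 * (Complex.cosh d * Real.cosh v)))
      (by fun_prop) (‖s‖ * (2 * ‖Complex.cosh d‖)) (by
        intro v
        rw [norm_mul, norm_mul, norm_mul, Complex.norm_ofNat, Nat.cast_one, one_mul]
        have := hnc v
        calc ‖s‖ * (2 * (‖Complex.cosh d‖ * ‖((Real.cosh v : ℝ) : ℂ)‖))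
            ≤ ‖s‖ * (2 * (‖Complex.cosh d‖ * Real.exp |v|)) := by gcongr
          _ = _ := by ring)
    refine (h1.sub h2).congr (Eventually.of_forall fun v => ?_)
    simp only [Gvv, Nat.cast_one, Nat.cast_ofNat, Pi.sub_apply]
    ring
  exact ⟨hi2, integral_eq_zero_of_hasDerivAt_of_integrable (fun v => hasDerivAt_Gv h hd s v)
    hi2 hi1⟩

theorem cosh_ne {d : ℂ} (hd : d ∈ S0) : Complex.cosh d ≠ 0 := by
  have h0 : |d.im| < Real.pi / 2 := hd
  intro hz
  have h1 : (Complex.cosh d).re = Real.cosh d.re * Real.cos d.im := by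
    conv_lhs => rw [← Complex.re_add_im d]
    rw [Complex.cosh_add, Complex.cosh_mul_I, Complex.sinh_mul_I]
    simp [← Complex.ofReal_cosh, ← Complex.ofReal_cos, ← Complex.ofReal_sinh, ← Complex.ofReal_sin]
  rw [hz] at h1
  have h2 : 0 < Real.cos d.im := Real.cos_pos_of_mem_Ioo ⟨by linarith [(abs_lt.1 h0).1],
    (abs_lt.1 h0).2⟩
  have h3 := Real.cosh_pos d.re
  simp only [zero_re] at h1
  have h4 := mul_pos h3 h2
  linarith

/-- pointwise form of the equation -/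
theorem pde (h : tCONE) {d : ℂ} (hd : d ∈ S0) (s : ℂ) (v : ℝ) :
    G2 s 0 d v + Complex.tanh d * G1 s 0 d v + Gvv s d v / Complex.cosh d ^ 2 =
      -(s * (1 - s)) * G s 0 d v := by
  have hne := gp2_ne h hd v
  have hc := cosh_ne hd
  have e1 : (2 * gp v d) ^ (-s) = (2 * gp v d) ^ (-s - 2) * (2 * gp v d) ^ 2 := by
    rw [Complex.cpow_sub _ _ hne, Complex.cpow_ofNat, div_mul_cancel₀ _ (pow_ne_zero 2 hne)]
  have e2 : (2 * gp v d) ^ (-s - 1) = (2 * gp v d) ^ (-s - 2) * (2 * gp v d) := by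
    rw [show -s - 2 = (-s - 1) - 1 by ring, Complex.cpow_sub (-s - 1) 1 hne, Complex.cpow_one,
      div_mul_cancel₀ _ hne]
  unfold G2 G1 Gvv G
  rw [show -(s + 2) = -s - 2 by ring, show -(s + 1) = -s - 1 by ring, e1, e2, zero_mul,
    Complex.exp_zero, Complex.tanh_eq_sinh_div_cosh]
  set E := (2 * gp v d) ^ (-s - 2) with hE
  have hch : Complex.cosh d ^ 2 = 1 + Complex.sinh d ^ 2 := by
    have := Complex.cosh_sq d
    rw [this]; ring
  have hcv : ((Real.cosh v : ℝ) : ℂ) ^ 2 = 1 + ((Real.sinh v : ℝ) : ℂ) ^ 2 := by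
    have := Real.cosh_sq v
    rw [← Complex.ofReal_pow, this]
    push_cast
    ring
  have id1 : gd v d ^ 2 + ((Real.sinh v : ℝ) : ℂ) ^ 2 = gp v d ^ 2 := by
    unfold gd gp
    have : ((Real.sinh v : ℝ) : ℂ) ^ 2 = ((Real.cosh v : ℝ) : ℂ) ^ 2 - 1 := by rw [hcv]; ring
    rw [this]
    linear_combination ((1 : ℂ) - ((Real.cosh v : ℝ) : ℂ) ^ 2) * hch
  have id2 : Complex.sinh d * gd v d + ((Real.cosh v : ℝ) : ℂ) = gp v d * Complex.cosh d := by
    unfold gd gp
    linear_combination (-((Real.cosh v : ℝ) : ℂ)) * hch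
  field_simp
  linear_combination (s * (s + 1) * E * Complex.cosh d) * id1 - (s * E * gp v d) * id2

/-- the equation for one half -/
theorem ode_half (h : tCONE) (h' : tPHB) {d : ℂ} (hd : d ∈ S0) {s : ℂ} (hs : 0 < s.re) :
    (∫ v, G2 s 0 d v) + Complex.tanh d * ∫ v, G1 s 0 d v = -(s * (1 - s)) * ∫ v, G s 0 d v := by
  have hsw : |(0 : ℂ).re| < s.re := by simpa using hs
  obtain ⟨hA, hB⟩ := diff_d h h' hsw
  obtain ⟨i0, i1, _⟩ := hA d hd
  obtain ⟨_, i2, _⟩ := hB d hd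
  obtain ⟨i3, z3⟩ := integral_Gvv h h' hd hs
  have h1 : ∫ v, (G2 s 0 d v + Complex.tanh d * G1 s 0 d v + Gvv s d v / Complex.cosh d ^ 2) =
      ∫ v, -(s * (1 - s)) * G s 0 d v :=
    integral_congr_ae (Eventually.of_forall fun v => pde h hd s v)
  have ia : Integrable (fun v => G2 s 0 d v + Complex.tanh d * G1 s 0 d v) :=
    i2.add (i1.const_mul _)
  have ib : Integrable (fun v => Gvv s d v / Complex.cosh d ^ 2) := i3.div_const _
  have e1 := integral_add ia ib
  have e2 : ∫ v, (G2 s 0 d v + Complex.tanh d * G1 s 0 d v) =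
      (∫ v, G2 s 0 d v) + Complex.tanh d * ∫ v, G1 s 0 d v := by
    rw [← integral_const_mul]
    exact integral_add i2 (i1.const_mul (Complex.tanh d))
  rw [e1, e2, integral_div, z3, zero_div, add_zero, integral_const_mul] at h1
  exact h1

theorem hasDerivAt_JJ (h : tCONE) (h' : tPHB) {s w : ℂ} (hsw : |w.re| < s.re) {d : ℂ}
    (hd : d ∈ S0) :
    HasDerivAt (fun d => JJ s w d) ((∫ v, G1 s w d v) - ∫ v, G1 s w (-d) v) d := by
  have h1 := ((diff_d h h' hsw).1 d hd).2.2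
  have h2 := ((diff_d h h' hsw).1 (-d) (neg_mem_S0 hd)).2.2
  have h3 : HasDerivAt (fun d => ∫ v, G s w (-d) v) ((∫ v, G1 s w (-d) v) * (-1)) d :=
    h2.comp d (hasDerivAt_neg d)
  have h4 := h1.add h3
  rw [mul_neg_one, ← sub_eq_add_neg] at h4
  refine h4.congr_of_eventuallyEq ?_
  filter_upwards [isOpen_S0.mem_nhds hd] with z hz
  exact (JJ_eq h h' hsw hz).2

theorem hasDerivAt_JJ1 (h : tCONE) (h' : tPHB) {s w : ℂ} (hsw : |w.re| < s.re) {d : ℂ}
    (hd : d ∈ S0) :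
    HasDerivAt (deriv (fun d => JJ s w d)) ((∫ v, G2 s w d v) + ∫ v, G2 s w (-d) v) d := by
  have h1 := ((diff_d h h' hsw).2 d hd).2.2
  have h2 := ((diff_d h h' hsw).2 (-d) (neg_mem_S0 hd)).2.2
  have h3 : HasDerivAt (fun d => ∫ v, G1 s w (-d) v) ((∫ v, G2 s w (-d) v) * (-1)) d :=
    h2.comp d (hasDerivAt_neg d)
  have h4 := h1.sub h3
  rw [mul_neg_one, sub_neg_eq_add] at h4
  refine h4.congr_of_eventuallyEq ?_
  filter_upwards [isOpen_S0.mem_nhds hd] with z hz
  exact (hasDerivAt_JJ h h' hsw hz).deriv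

theorem ode (h : tCONE) (h' : tPHB) {d : ℂ} (hd : d ∈ S0) {s : ℂ} (hs : 0 < s.re) :
    DD (fun d => JJ s 0 d) d = s * (1 - s) * JJ s 0 d := by
  have hsw : |(0 : ℂ).re| < s.re := by simpa using hs
  unfold DD
  rw [(hasDerivAt_JJ1 h h' hsw hd).deriv, (hasDerivAt_JJ h h' hsw hd).deriv,
    (JJ_eq h h' hsw hd).2]
  have h1 := ode_half h h' hd hs
  have h2 := ode_half h h' (neg_mem_S0 hd) hs
  rw [Complex.tanh_neg] at h2
  linear_combination -h1 - h2

theorem JJ_neg (s w d : ℂ) : JJ s w (-d) = JJ s w d := by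
  unfold JJ
  congr 1
  funext v
  unfold ph
  rw [gm_eq, gm_eq, neg_neg]
  ring

/-! ### differentiation in s -/

theorem diff_s (h : tCONE) (h' : tPHB) {w d : ℂ} (hd : d ∈ S0) {s : ℂ} (hs : |w.re| < s.re) :
    DifferentiableAt ℂ (fun s => ∫ v, G s w d v) s := by
  have h1 := hol_int (U := {s : ℂ | |w.re| < s.re}) (fun s => G s w d) (fun s => Gs s w d)
    (fun v z _ => hasDerivAt_Gs h hd z w v)
    (fun z _ => cont_G h hd z w) (fun z _ => cont_Gs h hd z w) (by
      intro s₀ hs₀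
      simp only [mem_ofPred_eq] at hs₀
      obtain ⟨ε, b, A, hε, hb0, hb, hsub, hball⟩ := exists_ball hd
      set δ := (s₀.re - |w.re|) / 2 with hδ
      have hδ0 : 0 < δ := by rw [hδ]; linarith
      have hw0 := abs_nonneg w.re
      obtain ⟨C, hC, hCle⟩ := size h h' (A := A) hb0 hb (s₀.re - δ) (s₀.re + δ) (|s₀.im| + δ)
        |w.re| (by rw [hδ]; linarith)
      have key : ∀ z ∈ Metric.ball s₀ δ, s₀.re - δ ≤ z.re ∧ z.re ≤ s₀.re + δ ∧
          |z.im| ≤ |s₀.im| + δ := by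
        intro z hz
        rw [Metric.mem_ball, dist_eq_norm] at hz
        have h1 := (Complex.abs_im_le_norm (z - s₀)).trans hz.le
        have h2 := (Complex.abs_re_le_norm (z - s₀)).trans hz.le
        rw [sub_im] at h1
        rw [sub_re] at h2
        have h3 := abs_sub_abs_le_abs_sub z.im s₀.im
        rw [abs_le] at h2
        refine ⟨by linarith, by linarith, by linarith⟩
      refine ⟨δ, hδ0, ?_, fun v => C * Real.exp (-((s₀.re - δ) - |w.re|) * |v|),
        (integrable_exp_abs (by rw [hδ]; linarith)).const_mul C, ?_⟩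
      · intro z hz
        simp only [mem_ofPred_eq]
        have := (key z hz).1
        rw [hδ] at this
        linarith
      · intro v z hz
        obtain ⟨k1, k2, k3⟩ := key z hz
        exact (hCle z d w v k1 k2 k3 le_rfl (hball d (Metric.mem_ball_self hε)).1
          (hball d (Metric.mem_ball_self hε)).2).2)
  exact (h1.1 s hs).2.2.differentiableAt

/-! ### the value at 0 -/

theorem sig_prod (y : ℝ) :
    Real.sigmoid y * (1 - Real.sigmoid y) = (2 * Real.cosh (y / 2)) ^ (-2 : ℝ) := by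
  have h1 : 0 < 2 * Real.cosh (y / 2) := by
    have := Real.cosh_pos (y / 2)
    linarith
  rw [Real.rpow_neg h1.le, Real.rpow_two, ← Real.sigmoid_neg, Real.sigmoid_def, Real.sigmoid_def,
    ← mul_inv, neg_neg]
  congr 1
  rw [Real.cosh_eq]
  have e1 : Real.exp (-y) = Real.exp (-(y / 2)) ^ 2 := by
    rw [← Real.exp_nat_mul]; congr 1; push_cast; ring
  have e2 : Real.exp y = Real.exp (y / 2) ^ 2 := by
    rw [← Real.exp_nat_mul]; congr 1; push_cast; ring
  have e3 : Real.exp (y / 2) * Real.exp (-(y / 2)) = 1 := by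
    rw [← Real.exp_add]; simp
  rw [e1, e2]
  set p := Real.exp (y / 2)
  set q := Real.exp (-(y / 2))
  have e4 : p ^ 2 * q ^ 2 = 1 := by
    have : p ^ 2 * q ^ 2 = (p * q) ^ 2 := by ring
    rw [this, e3]; norm_num
  have : (1 + q ^ 2) * (1 + p ^ 2) = p ^ 2 * q ^ 2 + 1 + p ^ 2 + q ^ 2 := by ring
  rw [this, e4]
  have : (2 * ((p + q) / 2)) ^ 2 = p ^ 2 + q ^ 2 + 2 * (p * q) := by ring
  rw [this, e3]
  ring

theorem JJ_zero (s : ℂ) :
    JJ s 0 0 = ∫ y : ℝ, ((2 * Real.cosh (y / 2) : ℝ) : ℂ) ^ (-s) := by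
  have h1 : JJ s 0 0 = 2 * ∫ v : ℝ, ((2 * Real.cosh v : ℝ) : ℂ) ^ (-s) := by
    unfold JJ
    rw [← integral_const_mul]
    congr 1
    funext v
    unfold ph gp gm
    simp only [Complex.cosh_zero, Complex.sinh_zero, one_mul, add_zero, sub_zero, zero_mul,
      Complex.exp_zero, mul_one]
    push_cast
    ring
  rw [h1]
  have h2 := MeasureTheory.Measure.integral_comp_mul_left
    (fun v : ℝ => ((2 * Real.cosh v : ℝ) : ℂ) ^ (-s)) (1 / 2)
  have h3 : (fun y : ℝ => ((2 * Real.cosh (y / 2) : ℝ) : ℂ) ^ (-s)) =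
      fun y : ℝ => (fun v : ℝ => ((2 * Real.cosh v : ℝ) : ℂ) ^ (-s)) (1 / 2 * y) := by
    funext y
    simp only
    rw [show 1 / 2 * y = y / 2 by ring]
  rw [h3, h2]
  rw [show |((1 : ℝ) / 2)⁻¹| = 2 by norm_num]
  rw [Complex.real_smul]
  push_cast
  rfl

theorem value_zero {s : ℂ} (hs : 0 < s.re) : JJ s 0 0 = Gamma (s / 2) ^ 2 / Gamma s := by
  have hs2 : 0 < (s / 2).re := by
    rw [Complex.div_ofNat_re]
    linarith
  have h1 := Complex.Gamma_mul_Gamma_eq_betaIntegral hs2 hs2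
  rw [add_halves] at h1
  have hne : Gamma s ≠ 0 := Complex.Gamma_ne_zero_of_re_pos hs
  rw [sq, h1, mul_div_assoc, mul_comm, div_mul_cancel₀ _ hne]
  rw [JJ_zero]
  unfold Complex.betaIntegral
  rw [intervalIntegral.integral_of_le zero_le_one, integral_Ioc_eq_integral_Ioo]
  have h2 := MeasureTheory.integral_image_eq_integral_abs_deriv_smul (s := univ)
    (f := Real.sigmoid) (f' := fun y => Real.sigmoid y * (1 - Real.sigmoid y)) MeasurableSet.univ
    (fun y _ => (Real.hasDerivAt_sigmoid y).hasDerivWithinAt) Real.sigmoid_injective.injOn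
    (fun x : ℝ => (x : ℂ) ^ (s / 2 - 1) * (1 - (x : ℂ)) ^ (s / 2 - 1))
  rw [image_univ, Real.range_sigmoid, setIntegral_univ] at h2
  rw [h2]
  congr 1
  funext y
  have p1 : 0 < Real.sigmoid y := Real.sigmoid_pos y
  have p2 : 0 < 1 - Real.sigmoid y := by linarith [Real.sigmoid_lt_one y]
  have p3 : 0 < 2 * Real.cosh (y / 2) := by
    have := Real.cosh_pos (y / 2)
    linarith
  have e0 : (1 - ((Real.sigmoid y : ℝ) : ℂ)) = ((1 - Real.sigmoid y : ℝ) : ℂ) := by push_cast; ring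
  rw [e0, ← Complex.mul_cpow_ofReal_nonneg p1.le p2.le, ← Complex.ofReal_mul, sig_prod,
    abs_of_pos (by positivity), Complex.real_smul]
  have e1 : (((2 * Real.cosh (y / 2)) ^ (-2 : ℝ) : ℝ) : ℂ) =
      ((2 * Real.cosh (y / 2) : ℝ) : ℂ) ^ (-2 : ℂ) := by
    rw [Complex.ofReal_cpow p3.le]
    push_cast
    ring_nf
  have hz : ((2 * Real.cosh (y / 2) : ℝ) : ℂ) ≠ 0 := by
    exact_mod_cast p3.ne'
  rw [e1]
  have e2 : (((2 * Real.cosh (y / 2) : ℝ) : ℂ) ^ (-2 : ℂ)) ^ (s / 2 - 1) =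
      ((2 * Real.cosh (y / 2) : ℝ) : ℂ) ^ (-2 * (s / 2 - 1)) := by
    rw [← e1]
    rw [Complex.cpow_def_of_ne_zero (by
      rw [e1]
      exact (Complex.cpow_ne_zero_iff_of_exponent_ne_zero (by norm_num)).2 hz)]
    rw [Complex.cpow_def_of_ne_zero hz, ← Complex.ofReal_log (by positivity), Real.log_rpow p3,
      ← Complex.ofReal_log p3.le]
    push_cast
    ring_nf
  rw [e2, ← Complex.cpow_add _ _ hz]
  congr 1
  ring

end JAN_

open JAN_

theorem pJAN (h : tCONE) (h' : tPHB) : tJAN := by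
  refine ⟨?_, ?_, ?_, ?_⟩
  · intro s w hsw
    refine ⟨fun d hd => (hasDerivAt_JJ h h' hsw hd).differentiableAt.differentiableWithinAt, ?_⟩
    intro d hd
    exact ⟨JJ_neg s w d, (JJ_eq h h' hsw hd).1⟩
  · intro s hs d hd
    exact ode h h' hd hs
  · intro w d hd s hs
    simp only [mem_ofPred_eq] at hs
    apply DifferentiableAt.differentiableWithinAt
    have h1 := (diff_s h h' hd hs).add (diff_s h h' (neg_mem_S0 hd) hs)
    refine h1.congr_of_eventuallyEq ?_
    have hopen : IsOpen {s : ℂ | |w.re| < s.re} :=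
      isOpen_lt continuous_const Complex.continuous_re
    filter_upwards [hopen.mem_nhds hs] with z hz
    exact (JJ_eq h h' hz hd).2
  · intro s hs
    exact value_zero hs

theorem pANAJ (h : tJAN) : ANAJ := by
  intro κ
  have hre : ((1 / 2 : ℂ) + κ * I).re = 1 / 2 := by simp
  have hs : |(0 : ℂ).re| < ((1 / 2 : ℂ) + κ * I).re := by rw [hre]; norm_num
  have hs' : 0 < ((1 / 2 : ℂ) + κ * I).re := by rw [hre]; norm_num
  refine ⟨(h.1 _ 0 hs).1, fun d hd => ((h.1 _ 0 hs).2 d hd).1, ?_, ?_⟩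
  · intro d hd
    have h1 := h.2.1 _ hs' d hd
    change DD (fun d => JJ (1 / 2 + κ * I) 0 d) d = _
    rw [h1]
    unfold Jk
    congr 1
    push_cast
    linear_combination (-(κ : ℂ) ^ 2) * Complex.I_sq
  · unfold Jk
    rw [h.2.2.2 _ hs']
    have hs2 : 0 < (((1 / 2 : ℂ) + κ * I) / 2).re := by
      rw [Complex.div_ofNat_re, hre]
      norm_num
    exact div_ne_zero (pow_ne_zero 2 (Complex.Gamma_ne_zero_of_re_pos hs2))
      (Complex.Gamma_ne_zero_of_re_pos hs')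

end FMZ
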