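import Pool.Agent.FMZ.TE
import Pool.Agent.FMZ.JAN

/-!
# FMZ-E2: Mellin transform of KB(0,x)²
-/

open Complex MeasureTheory Set Filter Topology

namespace FMZ

namespace EKBM_

theorem cosh_pow_le {a : ℝ} (ha : 0 < a) (v : ℝ) :
    Real.cosh v ^ (-a) ≤ 2 ^ a * Real.exp (-a * |v|) := by
  have h1 : Real.exp |v| / 2 ≤ Real.cosh v := by
    rw [← Real.cosh_abs, Real.cosh_eq]
    have := Real.exp_pos (-|v|)
    linarith
  have h2 : (0 : ℝ) < Real.exp |v| / 2 := by positivity
  calc Real.cosh v ^ (-a) ≤ (Real.exp |v| / 2) ^ (-a) :=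
        Real.rpow_le_rpow_of_nonpos h2 h1 (by linarith)
    _ = 2 ^ a * Real.exp (-a * |v|) := by
        rw [Real.div_rpow (Real.exp_pos _).le (by norm_num), ← Real.exp_mul,
          Real.rpow_neg (by norm_num : (0 : ℝ) ≤ 2), div_inv_eq_mul]
        rw [mul_comm]
        congr 2
        ring

theorem cont_cosh_rpow (a : ℝ) : Continuous (fun v : ℝ => Real.cosh v ^ a) :=
  Real.continuous_cosh.rpow_const (fun v => Or.inl (Real.cosh_pos v).ne')

theorem int_cosh {a : ℝ} (ha : 0 < a) : Integrable (fun v : ℝ => Real.cosh v ^ (-a)) := by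
  refine ((JAN_.integrable_exp_abs ha).const_mul (2 ^ a)).mono'
    (cont_cosh_rpow _).aestronglyMeasurable ?_
  refine Filter.Eventually.of_forall fun v => ?_
  rw [Real.norm_of_nonneg (Real.rpow_nonneg (Real.cosh_pos v).le _)]
  exact cosh_pow_le ha v

/-- f(t) = (2 cosh t)^(-s) -/
noncomputable def f (s : ℂ) (t : ℝ) : ℂ := ((2 * Real.cosh t : ℝ) : ℂ) ^ (-s)

theorem two_cosh_pos (t : ℝ) : 0 < 2 * Real.cosh t := by
  have := Real.cosh_pos t
  linarith

theorem norm_f (s : ℂ) (t : ℝ) : ‖f s t‖ = (2 * Real.cosh t) ^ (-s.re) := by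
  unfold f
  rw [Complex.norm_cpow_eq_rpow_re_of_pos (two_cosh_pos t), Complex.neg_re]

theorem cont_f (s : ℂ) : Continuous (f s) := by
  unfold f
  refine Continuous.cpow ?_ continuous_const ?_
  · exact Complex.continuous_ofReal.comp (Real.continuous_cosh.const_mul 2)
  · intro t
    exact Complex.ofReal_mem_slitPlane.2 (two_cosh_pos t)

theorem int_f {s : ℂ} (hs : 0 < s.re) : Integrable (f s) := by
  refine ((int_cosh hs).const_mul (2 ^ (-s.re))).mono' (cont_f s).aestronglyMeasurable ?_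
  refine Filter.Eventually.of_forall fun v => ?_
  rw [norm_f, Real.mul_rpow (by norm_num) (Real.cosh_pos v).le]

theorem value_f {s : ℂ} (hs : 0 < s.re) :
    ∫ t : ℝ, f s t = 1 / 2 * (Gamma (s / 2) ^ 2 / Gamma s) := by
  rw [← JAN_.value_zero hs, JAN_.JJ_zero]
  have h2 := MeasureTheory.Measure.integral_comp_mul_left
    (fun v : ℝ => ((2 * Real.cosh v : ℝ) : ℂ) ^ (-s)) (1 / 2)
  have h3 : (fun y : ℝ => ((2 * Real.cosh (y / 2) : ℝ) : ℂ) ^ (-s)) =
      fun y : ℝ => (fun v : ℝ => ((2 * Real.cosh v : ℝ) : ℂ) ^ (-s)) (1 / 2 * y) := by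
    funext y
    simp only
    rw [show 1 / 2 * y = y / 2 by ring]
  rw [h3, h2]
  rw [show |((1 : ℝ) / 2)⁻¹| = 2 by norm_num]
  rw [Complex.real_smul]
  push_cast
  unfold f
  push_cast
  ring

theorem cosh_add_cosh (q u : ℝ) :
    Real.cosh u + Real.cosh (u - 2 * q) = 2 * Real.cosh q * Real.cosh (u - q) := by
  have key : ∀ p : ℝ, Real.cosh (q + p) + Real.cosh (p - q) = 2 * Real.cosh q * Real.cosh p := by
    intro p
    rw [Real.cosh_add, Real.cosh_sub]
    ring
  have h := key (u - q)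
  rwa [show q + (u - q) = u by ring, show u - q - q = u - 2 * q by ring] at h

theorem sum_pos (u v : ℝ) : 0 < Real.cosh u + Real.cosh v := by
  have := Real.cosh_pos u
  have := Real.cosh_pos v
  linarith

/-- the kernel (cosh u + cosh v)^(-s) -/
noncomputable def H (s : ℂ) (p : ℝ × ℝ) : ℂ := ((Real.cosh p.1 + Real.cosh p.2 : ℝ) : ℂ) ^ (-s)

theorem norm_H (s : ℂ) (p : ℝ × ℝ) : ‖H s p‖ = (Real.cosh p.1 + Real.cosh p.2) ^ (-s.re) := by
  unfold H
  rw [Complex.norm_cpow_eq_rpow_re_of_pos (sum_pos _ _), Complex.neg_re]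

theorem sum_pow_le {a : ℝ} (ha : 0 < a) (u v : ℝ) :
    (Real.cosh u + Real.cosh v) ^ (-a) ≤ Real.cosh u ^ (-(a / 2)) * Real.cosh v ^ (-(a / 2)) := by
  have hu := Real.cosh_pos u
  have hv := Real.cosh_pos v
  have h1 : Real.sqrt (Real.cosh u * Real.cosh v) ≤ Real.cosh u + Real.cosh v := by
    rw [Real.sqrt_le_left (by positivity)]
    nlinarith
  have h2 : 0 < Real.sqrt (Real.cosh u * Real.cosh v) := Real.sqrt_pos.2 (by positivity)
  calc (Real.cosh u + Real.cosh v) ^ (-a) ≤ (Real.sqrt (Real.cosh u * Real.cosh v)) ^ (-a) :=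
        Real.rpow_le_rpow_of_nonpos h2 h1 (by linarith)
    _ = Real.cosh u ^ (-(a / 2)) * Real.cosh v ^ (-(a / 2)) := by
        rw [Real.sqrt_eq_rpow, ← Real.rpow_mul (by positivity), Real.mul_rpow hu.le hv.le]
        congr 2 <;> ring

theorem cont_H (s : ℂ) : Continuous (H s) := by
  unfold H
  refine Continuous.cpow ?_ continuous_const ?_
  · have h1 : Continuous fun p : ℝ × ℝ => Real.cosh p.1 := Real.continuous_cosh.comp continuous_fst
    have h2 : Continuous fun p : ℝ × ℝ => Real.cosh p.2 := Real.continuous_cosh.comp continuous_snd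
    exact Complex.continuous_ofReal.comp (h1.add h2)
  · intro p
    exact Complex.ofReal_mem_slitPlane.2 (sum_pos _ _)

theorem int_bound {a : ℝ} (ha : 0 < a) :
    Integrable (fun p : ℝ × ℝ => Real.cosh p.1 ^ (-(a / 2)) * Real.cosh p.2 ^ (-(a / 2))) := by
  have h := int_cosh (show 0 < a / 2 by linarith)
  exact h.mul_prod h

theorem int_H {s : ℂ} (hs : 0 < s.re) : Integrable (H s) := by
  refine (int_bound hs).mono' (cont_H s).aestronglyMeasurable ?_
  refine Filter.Eventually.of_forall fun p => ?_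
  rw [norm_H]
  exact sum_pow_le hs _ _

theorem H_eq (s : ℂ) (q u : ℝ) : H s (u, u - 2 * q) = (2 : ℂ) ^ s * (f s q * f s (u - q)) := by
  unfold H f
  simp only
  rw [cosh_add_cosh]
  rw [← Complex.mul_cpow_ofReal_nonneg (two_cosh_pos _).le (two_cosh_pos _).le]
  have e1 : (2 : ℂ) ^ s = ((1 / 2 : ℝ) : ℂ) ^ (-s) := by
    have : ((1 / 2 : ℝ) : ℂ) = (2 : ℂ)⁻¹ := by push_cast; norm_num
    rw [this, Complex.inv_cpow, Complex.cpow_neg, inv_inv]
    rw [show (2 : ℂ) = ((2 : ℝ) : ℂ) by norm_num, Complex.arg_ofReal_of_nonneg (by norm_num)]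
    exact Real.pi_pos.ne
  rw [e1, ← Complex.ofReal_mul,
    ← Complex.mul_cpow_ofReal_nonneg (by norm_num) (by have := two_cosh_pos q; have := two_cosh_pos (u-q); positivity)]
  congr 1
  push_cast
  ring

theorem inner_H (s : ℂ) (u : ℝ) :
    ∫ v : ℝ, H s (u, v) = 2 * (2 : ℂ) ^ s * ∫ q : ℝ, f s q * f s (u - q) := by
  have h0 : ∫ v : ℝ, H s (u, v) = ∫ v : ℝ, H s (u, u - v) :=
    (integral_sub_left_eq_self (fun v => H s (u, v)) volume u).symm
  have h2 := MeasureTheory.Measure.integral_comp_mul_left (fun v : ℝ => H s (u, u - v)) 2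
  simp only [H_eq] at h2
  rw [h0, show (∫ v : ℝ, H s (u, u - v)) = 2 * ((|(2 : ℝ)⁻¹|) • ∫ v : ℝ, H s (u, u - v)) by
    rw [Complex.real_smul, abs_of_pos (by norm_num)]
    push_cast
    ring, ← h2, integral_const_mul]
  ring

theorem value_H {s : ℂ} (hs : 0 < s.re) :
    ∫ p : ℝ × ℝ, H s p = (2 : ℂ) ^ (s - 1) * (Gamma (s / 2) ^ 4 / Gamma s ^ 2) := by
  have h1 : ∫ p : ℝ × ℝ, H s p = ∫ u : ℝ, ∫ v : ℝ, H s (u, v) :=
    integral_prod (H s) (int_H hs)
  rw [h1]
  simp only [inner_H]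
  rw [integral_const_mul]
  have h2 := MeasureTheory.integral_convolution (μ := (volume : Measure ℝ)) (ν := volume)
    (ContinuousLinearMap.mul ℝ ℂ) (int_f hs) (int_f hs)
  unfold MeasureTheory.convolution at h2
  simp only [ContinuousLinearMap.mul_apply'] at h2
  rw [h2, value_f hs]
  have e1 : (2 : ℂ) ^ s = (2 : ℂ) ^ (s - 1) * 2 := by
    rw [Complex.cpow_sub _ _ (by norm_num), Complex.cpow_one]
    field_simp
  rw [e1]
  ring

/-- the integrand on (0,∞) × ℝ² -/
noncomputable def F (s : ℂ) (z : ℝ × (ℝ × ℝ)) : ℂ :=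
  (z.1 : ℂ) ^ (s - 1) * Complex.exp (-(((Real.cosh z.2.1 + Real.cosh z.2.2 : ℝ) : ℂ) * z.1))

theorem meas_F (s : ℂ) : Measurable (F s) := by
  unfold F
  have h1 : Measurable fun z : ℝ × (ℝ × ℝ) => ((z.1 : ℝ) : ℂ) ^ (s - 1) :=
    (Complex.measurable_ofReal.comp measurable_fst).pow_const _
  have h2 : Continuous fun z : ℝ × (ℝ × ℝ) =>
      Complex.exp (-(((Real.cosh z.2.1 + Real.cosh z.2.2 : ℝ) : ℂ) * z.1)) := by
    have a1 : Continuous fun z : ℝ × (ℝ × ℝ) => Real.cosh z.2.1 :=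
      Real.continuous_cosh.comp (continuous_fst.comp continuous_snd)
    have a2 : Continuous fun z : ℝ × (ℝ × ℝ) => Real.cosh z.2.2 :=
      Real.continuous_cosh.comp (continuous_snd.comp continuous_snd)
    have a3 := Complex.continuous_ofReal.comp (a1.add a2)
    have a4 : Continuous fun z : ℝ × (ℝ × ℝ) => ((z.1 : ℝ) : ℂ) :=
      Complex.continuous_ofReal.comp continuous_fst
    exact Complex.continuous_exp.comp (a3.mul a4).neg
  exact h1.mul h2.measurable

theorem norm_F (s : ℂ) {x : ℝ} (hx : 0 < x) (p : ℝ × ℝ) :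
    ‖F s (x, p)‖ = x ^ (s.re - 1) * Real.exp (-((Real.cosh p.1 + Real.cosh p.2) * x)) := by
  unfold F
  simp only
  rw [norm_mul, Complex.norm_cpow_eq_rpow_re_of_pos hx, Complex.norm_exp]
  congr 2
  rw [← Complex.ofReal_mul, ← Complex.ofReal_neg, Complex.ofReal_re]

theorem int_real {a r : ℝ} (ha : 0 < a) (hr : 0 < r) :
    IntegrableOn (fun x : ℝ => x ^ (a - 1) * Real.exp (-(r * x))) (Ioi 0) := by
  have h := integrableOn_rpow_mul_exp_neg_mul_rpow (p := 1) (s := a - 1) (b := r) (by linarith)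
    one_pos hr
  refine h.congr_fun (fun x _ => ?_) measurableSet_Ioi
  simp only [Real.rpow_one, neg_mul]

theorem int_F {s : ℂ} (hs : 0 < s.re) :
    Integrable (F s) ((volume.restrict (Ioi 0)).prod volume) := by
  rw [integrable_prod_iff' (meas_F s).aestronglyMeasurable]
  constructor
  · refine Filter.Eventually.of_forall fun p => ?_
    refine (int_real hs (sum_pos p.1 p.2)).mono' ?_ ?_
    · exact ((meas_F s).comp (measurable_id.prodMk measurable_const)).aestronglyMeasurable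
    · refine (ae_restrict_mem measurableSet_Ioi).mono fun x hx => ?_
      rw [norm_F s hx]
  · have h1 : (fun p : ℝ × ℝ => ∫ x in Ioi (0 : ℝ), ‖F s (x, p)‖) =
        fun p : ℝ × ℝ => (1 / (Real.cosh p.1 + Real.cosh p.2)) ^ s.re * Real.Gamma s.re := by
      funext p
      rw [← Real.integral_rpow_mul_exp_neg_mul_Ioi hs (sum_pos p.1 p.2)]
      exact setIntegral_congr_fun measurableSet_Ioi fun x hx => norm_F s hx p
    rw [h1]
    refine Integrable.mul_const ?_ _
    have h2 : (fun p : ℝ × ℝ => (1 / (Real.cosh p.1 + Real.cosh p.2)) ^ s.re) =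
        fun p => ‖H s p‖ := by
      funext p
      rw [norm_H, one_div, Real.inv_rpow (sum_pos _ _).le, Real.rpow_neg (sum_pos _ _).le]
    rw [h2]
    exact (int_H hs).norm

theorem inner_x {s : ℂ} (hs : 0 < s.re) (p : ℝ × ℝ) :
    ∫ x in Ioi (0 : ℝ), F s (x, p) = Gamma s * H s p := by
  unfold F H
  simp only
  rw [Complex.integral_cpow_mul_exp_neg_mul_Ioi hs (sum_pos _ _)]
  rw [one_div, Complex.inv_cpow, Complex.cpow_neg, mul_comm]
  rw [Complex.arg_ofReal_of_nonneg (sum_pos _ _).le]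
  exact Real.pi_pos.ne

theorem inner_p (s : ℂ) (x : ℝ) :
    ∫ p : ℝ × ℝ, F s (x, p) = KB 0 x ^ 2 * (x : ℂ) ^ (s - 1) := by
  unfold F KB
  simp only [zero_mul, add_zero]
  rw [integral_const_mul]
  have h : (fun p : ℝ × ℝ =>
      Complex.exp (-(((Real.cosh p.1 + Real.cosh p.2 : ℝ) : ℂ) * (x : ℂ)))) =
      fun p : ℝ × ℝ => (fun u : ℝ => Complex.exp (-((x * Real.cosh u : ℝ) : ℂ))) p.1 *
        (fun u : ℝ => Complex.exp (-((x * Real.cosh u : ℝ) : ℂ))) p.2 := by
    funext p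
    simp only
    rw [← Complex.exp_add]
    congr 1
    push_cast
    ring
  rw [h]
  have h3 := MeasureTheory.integral_prod_mul (μ := (volume : Measure ℝ)) (ν := (volume : Measure ℝ))
    (fun u : ℝ => Complex.exp (-((x * Real.cosh u : ℝ) : ℂ)))
    (fun u : ℝ => Complex.exp (-((x * Real.cosh u : ℝ) : ℂ)))
  rw [show (volume : Measure (ℝ × ℝ)) = (volume : Measure ℝ).prod volume from rfl, h3]
  ring

end EKBM_

open EKBM_

theorem pKBM (_h : tKB) : tKBM := by
  intro s hs
  have hF := int_F hs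
  constructor
  · have h1 := hF.integral_prod_left
    simp only [inner_p] at h1
    exact h1
  · have h2 := integral_integral_swap (f := fun (x : ℝ) (p : ℝ × ℝ) => F s (x, p))
      (μ := (volume : Measure ℝ).restrict (Ioi 0)) (ν := (volume : Measure (ℝ × ℝ))) hF
    simp only [inner_p, inner_x hs] at h2
    rw [h2, integral_const_mul, value_H hs]
    have hne : Gamma s ≠ 0 := Complex.Gamma_ne_zero_of_re_pos hs
    field_simp

end FMZ
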