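import Pool.Agent.FMZ.TE

/-!
# FMZ: E4, the Fourier expansion of the Epstein sum
-/

open Complex MeasureTheory Set Filter Topology

namespace FMZ

namespace ELAT_

/-! ### the Bessel integral -/

lemma image_exp (c : ℝ) (hc : 0 < c) : (fun u : ℝ => c * Real.exp u) '' univ = Ioi 0 := by
  ext t
  simp only [image_univ, mem_range, mem_Ioi]
  constructor
  · rintro ⟨u, rfl⟩; positivity
  · intro ht
    refine ⟨Real.log (t / c), ?_⟩
    rw [Real.exp_log (by positivity)]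
    field_simp

lemma inj_exp (c : ℝ) (hc : 0 < c) : InjOn (fun u : ℝ => c * Real.exp u) univ := by
  intro a _ b _ h
  exact Real.exp_injective (mul_left_cancel₀ hc.ne' h)

lemma deriv_exp (c : ℝ) : ∀ u ∈ (univ : Set ℝ),
    HasDerivWithinAt (fun u : ℝ => c * Real.exp u) (c * Real.exp u) univ u :=
  fun u _ => ((Real.hasDerivAt_exp u).const_mul c).hasDerivWithinAt

/-- the integrand -/
noncomputable def g (ν : ℂ) (y m k t : ℝ) : ℂ :=
  (t : ℂ) ^ (ν - 1) * (Real.exp (-(Real.pi * y * (m ^ 2 * t + k ^ 2 / t))) : ℝ)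

lemma g_sub (ν : ℂ) (y m k : ℝ) (hm : 0 < m) (hk : 0 < k) (u : ℝ) :
    |k / m * Real.exp u| • g ν y m k (k / m * Real.exp u) =
      ((k / m : ℝ) : ℂ) ^ ν *
        Complex.exp (-((2 * Real.pi * (m * k) * y * Real.cosh u : ℝ) : ℂ) + ν * u) := by
  have hc : 0 < k / m := by positivity
  have hE := Real.exp_pos u
  have hce : 0 < k / m * Real.exp u := by positivity
  rw [abs_of_pos hce, Complex.real_smul, g]
  have e1 : m ^ 2 * (k / m * Real.exp u) + k ^ 2 / (k / m * Real.exp u) =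
      2 * (m * k) * Real.cosh u := by
    rw [Real.cosh_eq, Real.exp_neg]
    field_simp
  rw [e1]
  have e2 : ((k / m * Real.exp u : ℝ) : ℂ) * ((k / m * Real.exp u : ℝ) : ℂ) ^ (ν - 1) =
      ((k / m : ℝ) : ℂ) ^ ν * Complex.exp (ν * u) := by
    have h0 : ((k / m * Real.exp u : ℝ) : ℂ) ≠ 0 := by exact_mod_cast hce.ne'
    rw [cpow_sub _ _ h0, cpow_one, mul_div_cancel₀ _ h0, Complex.ofReal_mul,
      Complex.mul_cpow_ofReal_nonneg hc.le hE.le, Complex.ofReal_exp, ← Complex.exp_log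
        (Complex.exp_ne_zero (u : ℂ)), ← Complex.ofReal_exp, ← Complex.ofReal_log hE.le,
      Real.log_exp, ← Complex.ofReal_exp]
    congr 1
    rw [Complex.cpow_def_of_ne_zero (by exact_mod_cast hE.ne'), ← Complex.ofReal_log hE.le,
      Real.log_exp, mul_comm]
  rw [← mul_assoc, e2, mul_assoc, Complex.ofReal_exp, ← Complex.exp_add]
  congr 2
  push_cast
  ring

lemma bessel (h1 : tKB) (ν : ℂ) (y m k : ℝ) (hy : 0 < y) (hm : 0 < m) (hk : 0 < k) :
    IntegrableOn (g ν y m k) (Ioi 0) ∧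
    ∫ t in Ioi (0 : ℝ), g ν y m k t =
      ((k / m : ℝ) : ℂ) ^ ν * KB ν (2 * Real.pi * (m * k) * y) := by
  have hc : 0 < k / m := by positivity
  have hx : 0 < 2 * Real.pi * (m * k) * y := by positivity
  rw [← image_exp (k / m) hc]
  constructor
  · rw [integrableOn_image_iff_integrableOn_abs_deriv_smul MeasurableSet.univ
      (deriv_exp (k / m)) (inj_exp (k / m) hc)]
    have e : (fun u : ℝ => |k / m * Real.exp u| • g ν y m k (k / m * Real.exp u)) =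
        fun u : ℝ => ((k / m : ℝ) : ℂ) ^ ν *
        Complex.exp (-((2 * Real.pi * (m * k) * y * Real.cosh u : ℝ) : ℂ) + ν * u) :=
      funext fun u => g_sub ν y m k hm hk u
    rw [e, integrableOn_univ]
    exact (h1.1 ν _ hx).const_mul _
  · rw [integral_image_eq_integral_abs_deriv_smul MeasurableSet.univ
      (deriv_exp (k / m)) (inj_exp (k / m) hc)]
    simp only [g_sub ν y m k hm hk]
    rw [setIntegral_univ, integral_const_mul]
    rfl

/-! ### the terms of the Epstein sum -/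

/-- the term `(m, n)` -/
noncomputable def T (x y : ℝ) (s : ℂ) (p : ℤ × ℤ) : ℂ :=
  if p = 0 then 0 else ((y / ((p.1 * x + p.2) ^ 2 + (p.1 * y) ^ 2) : ℝ) : ℂ) ^ s

lemma Q_pos (x y : ℝ) (hy : 0 < y) (p : ℤ × ℤ) (hp : p ≠ 0) :
    0 < (p.1 * x + p.2) ^ 2 + (p.1 * y) ^ 2 := by
  rcases eq_or_ne p.1 0 with h | h
  · have h2 : p.2 ≠ 0 := fun h2 => hp (Prod.ext h h2)
    rw [h]
    have h3 : (p.2 : ℝ) ≠ 0 := by exact_mod_cast h2
    simp only [Int.cast_zero, zero_mul, zero_add]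
    positivity
  · have h3 : (p.1 : ℝ) ≠ 0 := by exact_mod_cast h
    have : 0 < (p.1 * y) ^ 2 := by positivity
    positivity

lemma norm_T_le (x y : ℝ) (s : ℂ) (hy : 0 < y) (hs : 1 < s.re) (v : Fin 2 → ℤ) :
    ‖T x y s (v 0, v 1)‖ ≤ (y ^ s.re * EisensteinSeries.r (⟨⟨x, y⟩, hy⟩ : UpperHalfPlane) ^
      (-(2 * s.re))) * ‖v‖ ^ (-(2 * s.re)) := by
  have hr := EisensteinSeries.r_pos (⟨⟨x, y⟩, hy⟩ : UpperHalfPlane)
  by_cases h : ((v 0, v 1) : ℤ × ℤ) = 0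
  · rw [T, if_pos h, norm_zero]; positivity
  · have hQ := Q_pos x y hy (v 0, v 1) h
    rw [T, if_neg h]
    simp only at hQ ⊢
    have hyq : 0 < y / ((v 0 * x + v 1) ^ 2 + (v 0 * y) ^ 2) := by positivity
    rw [Complex.norm_cpow_eq_rpow_re_of_pos hyq]
    have hb := EisensteinSeries.summand_bound (⟨⟨x, y⟩, hy⟩ : UpperHalfPlane)
      (k := 2 * s.re) (by linarith) v
    have e1 : ‖(v 0 : ℂ) * ((⟨⟨x, y⟩, hy⟩ : UpperHalfPlane) : ℂ) + v 1‖ ^ (-(2 * s.re)) =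
        (((v 0 * x + v 1) ^ 2 + (v 0 * y) ^ 2 : ℝ)) ^ (-s.re) := by
      have e2 : ‖(v 0 : ℂ) * ((⟨⟨x, y⟩, hy⟩ : UpperHalfPlane) : ℂ) + v 1‖ ^ 2 =
          (v 0 * x + v 1) ^ 2 + (v 0 * y) ^ 2 := by
        rw [Complex.sq_norm, Complex.normSq_apply]
        simp
        ring
      rw [← e2, ← Real.rpow_natCast, ← Real.rpow_mul (norm_nonneg _)]
      congr 1
      push_cast
      ring
    rw [e1] at hb
    rw [Real.div_rpow hy.le hQ.le, div_eq_mul_inv, ← Real.rpow_neg hQ.le, mul_assoc]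
    exact mul_le_mul_of_nonneg_left hb (by positivity)

lemma summable_T (x y : ℝ) (s : ℂ) (hy : 0 < y) (hs : 1 < s.re) :
    Summable (fun p : ℤ × ℤ => ‖T x y s p‖) := by
  rw [← (finTwoArrowEquiv ℤ).summable_iff]
  have h := (EisensteinSeries.summable_one_div_norm_rpow (k := 2 * s.re)
    (by linarith)).mul_left (y ^ s.re *
      EisensteinSeries.r (⟨⟨x, y⟩, hy⟩ : UpperHalfPlane) ^ (-(2 * s.re)))
  refine Summable.of_nonneg_of_le (fun v => norm_nonneg _) (fun v => ?_) h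
  exact norm_T_le x y s hy hs v

lemma summable_T' (x y : ℝ) (s : ℂ) (hy : 0 < y) (hs : 1 < s.re) :
    Summable (T x y s) := (summable_T x y s hy hs).of_norm

/-! ### one row -/

/-- the theta series of the row `m + 1` -/
noncomputable def F (x y : ℝ) (m : ℕ) (t : ℝ) : ℂ :=
  ((Real.exp (-Real.pi * ((m + 1) ^ 2 * y) * t) *
    HurwitzZeta.evenKernel (((m + 1) * x : ℝ) : UnitAddCircle) (t / y) : ℝ) : ℂ)

lemma row1 (x y : ℝ) (s : ℂ) (hy : 0 < y) (hs : 1 < s.re) (m : ℕ) :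
    HasSum (fun n : ℤ => (Real.pi : ℂ) ^ (-s) * Gamma s * T x y s ((m : ℤ) + 1, n))
      (mellin (F x y m) s) := by
  set q : ℤ → ℝ := fun n => (((m + 1) * x + n) ^ 2 + ((m + 1) * y) ^ 2) / y with hq
  have hqpos : ∀ n, 0 < q n := by
    intro n
    have : 0 < ((m + 1) * y) ^ 2 := by positivity
    simp only [hq]
    positivity
  have hne : ∀ n : ℤ, (((m : ℤ) + 1, n) : ℤ × ℤ) ≠ 0 := by
    intro n h
    have := congrArg Prod.fst h
    simp only [Prod.fst_zero] at this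
    omega
  have hT : ∀ n : ℤ, T x y s ((m : ℤ) + 1, n) = 1 / (q n : ℂ) ^ s := by
    intro n
    rw [T, if_neg (hne n)]
    have e : (y / (((((m : ℤ) + 1 : ℤ) : ℝ) * x + n) ^ 2 + ((((m : ℤ) + 1 : ℤ) : ℝ) * y) ^ 2) : ℝ)
        = (q n)⁻¹ := by
      simp only [hq, inv_div]
      push_cast
      rfl
    simp only
    rw [e, Complex.ofReal_inv, Complex.inv_cpow, one_div]
    rw [Complex.arg_ofReal_of_nonneg (hqpos n).le]
    exact Real.pi_ne_zero.symm
  have hsum : Summable fun n : ℤ => ‖(1 : ℂ)‖ / (q n) ^ s.re := by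
    have h1 := (summable_T x y s hy hs).comp_injective
      (i := fun n : ℤ => (((m : ℤ) + 1, n) : ℤ × ℤ)) (fun a b h => (Prod.ext_iff.1 h).2)
    refine h1.congr (fun n => ?_)
    simp only [Function.comp]
    rw [hT, norm_div, Complex.norm_cpow_eq_rpow_re_of_pos (hqpos n)]
  have key := hasSum_mellin_pi_mul (a := fun _ : ℤ => (1 : ℂ)) (q := q) (F := F x y m) (s := s)
    (fun n => Or.inr (hqpos n)) (by linarith) ?_ hsum
  · refine key.congr_fun ?_
    intro n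
    rw [hT]
    ring
  · intro t ht
    have ht' : 0 < t / y := div_pos ht hy
    have h2 := (HurwitzZeta.hasSum_int_evenKernel ((m + 1) * x) ht').mul_left
      (Real.exp (-Real.pi * ((m + 1) ^ 2 * y) * t))
    have h3 := (Complex.hasSum_ofReal.2 h2)
    refine h3.congr_fun ?_
    intro n
    rw [one_mul]
    congr 1
    rw [← Real.exp_add]
    congr 1
    simp only [hq]
    field_simp
    ring

/-! ### the Mellin transform of the theta series -/

lemma norm_g (ν : ℂ) (y m k t : ℝ) (ht : 0 < t) :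
    g (ν.re : ℂ) y m k t = ((‖g ν y m k t‖ : ℝ) : ℂ) := by
  rw [g, g, norm_mul, Complex.norm_cpow_eq_rpow_re_of_pos ht, Complex.norm_real,
    Real.norm_of_nonneg (Real.exp_pos _).le, Complex.ofReal_mul, Complex.ofReal_cpow ht.le]
  congr 2
  simp

lemma int_norm_g (h1 : tKB) (ν : ℂ) (y m k : ℝ) (hy : 0 < y) (hm : 0 < m) (hk : 0 < k) :
    ∫ t in Ioi (0 : ℝ), ‖g ν y m k t‖ =
      ‖((k / m : ℝ) : ℂ) ^ (ν.re : ℂ) * KB (ν.re : ℂ) (2 * Real.pi * (m * k) * y)‖ := by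
  rw [← (bessel h1 (ν.re : ℂ) y m k hy hm hk).2]
  have e : ∫ t in Ioi (0 : ℝ), g (ν.re : ℂ) y m k t =
      ∫ t in Ioi (0 : ℝ), ((‖g ν y m k t‖ : ℝ) : ℂ) :=
    setIntegral_congr_fun measurableSet_Ioi (fun t ht => norm_g ν y m k t ht)
  rw [e, integral_complex_ofReal, Complex.norm_real, Real.norm_of_nonneg]
  exact integral_nonneg fun t => norm_nonneg _

/-- the terms with `k ≠ 0` -/
noncomputable def Fk (x y : ℝ) (ν : ℂ) (m k : ℕ) (t : ℝ) : ℂ :=
  ((2 * √y * Real.cos (2 * Real.pi * ((m + 1) * x) * (k + 1)) : ℝ) : ℂ) *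
    g ν y (m + 1) (k + 1) t

/-- the term with `k = 0` -/
noncomputable def F0 (y : ℝ) (ν : ℂ) (m : ℕ) (t : ℝ) : ℂ :=
  (√y : ℂ) * ((t : ℂ) ^ (ν - 1) * Complex.exp (-(((Real.pi * ((m + 1) ^ 2 * y) : ℝ) : ℂ) * t)))

lemma cpow_aux (y t : ℝ) (s : ℂ) (hy : 0 < y) (ht : 0 < t) :
    (t : ℂ) ^ (s - 1) * ((1 / (t / y) ^ (1 / 2 : ℝ) : ℝ) : ℂ) =
      (√y : ℂ) * (t : ℂ) ^ (s - 1 / 2 - 1) := by
  have e1 : (1 / (t / y) ^ (1 / 2 : ℝ) : ℝ) = √y * t ^ (-(1 / 2) : ℝ) := by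
    rw [Real.div_rpow ht.le hy.le, Real.sqrt_eq_rpow, Real.rpow_neg ht.le]
    field_simp
  rw [e1, Complex.ofReal_mul, Complex.ofReal_cpow ht.le]
  have e2 : (t : ℂ) ^ (s - 1 / 2 - 1) = (t : ℂ) ^ (s - 1) * (t : ℂ) ^ ((-(1 / 2) : ℝ) : ℂ) := by
    rw [← Complex.cpow_add _ _ (by exact_mod_cast ht.ne')]
    congr 1
    push_cast
    ring
  rw [e2]; ring

lemma hasSum_F (x y : ℝ) (s : ℂ) (hy : 0 < y) (m : ℕ) (t : ℝ) (ht : 0 < t) :
    HasSum (fun k : ℕ => Fk x y (s - 1 / 2) m k t)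
      ((t : ℂ) ^ (s - 1) • F x y m t - F0 y (s - 1 / 2) m t) := by
  have ht' : 0 < 1 / (t / y) := by positivity
  have h1 := HurwitzZeta.hasSum_nat_cosKernel₀ ((m + 1) * x) ht'
  have h2 := Complex.hasSum_ofReal.2 h1
  have h3 := h2.mul_left ((t : ℂ) ^ (s - 1) * ((1 / (t / y) ^ (1 / 2 : ℝ) : ℝ) : ℂ) *
    (Real.exp (-Real.pi * ((m + 1) ^ 2 * y) * t) : ℝ))
  have e0 : (t : ℂ) ^ (s - 1) • F x y m t - F0 y (s - 1 / 2) m t =
      (t : ℂ) ^ (s - 1) * ((1 / (t / y) ^ (1 / 2 : ℝ) : ℝ) : ℂ) *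
    (Real.exp (-Real.pi * ((m + 1) ^ 2 * y) * t) : ℝ) *
      ((HurwitzZeta.cosKernel (((m + 1) * x : ℝ) : UnitAddCircle) (1 / (t / y)) - 1 : ℝ) : ℂ) := by
    rw [F, F0, HurwitzZeta.evenKernel_functional_equation, smul_eq_mul]
    rw [← mul_assoc (√y : ℂ), ← cpow_aux y t s hy ht]
    have e3 : Complex.exp (-(((Real.pi * ((m + 1) ^ 2 * y) : ℝ) : ℂ) * t)) =
        ((Real.exp (-Real.pi * ((m + 1) ^ 2 * y) * t) : ℝ) : ℂ) := by
      rw [Complex.ofReal_exp]; congr 1; push_cast; ring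
    rw [e3]
    simp only [Complex.ofReal_mul, Complex.ofReal_sub, Complex.ofReal_one]
    ring
  rw [e0]
  refine h3.congr_fun ?_
  intro k
  rw [Fk, g, cpow_aux y t s hy ht]
  have e4 : Real.exp (-(Real.pi * y * ((m + 1 : ℝ) ^ 2 * t + (k + 1 : ℝ) ^ 2 / t))) =
      Real.exp (-Real.pi * ((m + 1) ^ 2 * y) * t) *
        Real.exp (-Real.pi * (k + 1) ^ 2 * (1 / (t / y))) := by
    rw [← Real.exp_add]; congr 1
    field_simp
    ring
  rw [e4]
  simp only [Complex.ofReal_mul]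
  ring

lemma int_F0 (y : ℝ) (ν : ℂ) (hy : 0 < y) (hν : 0 < ν.re) (m : ℕ) :
    IntegrableOn (F0 y ν m) (Ioi 0) ∧
    ∫ t in Ioi (0 : ℝ), F0 y ν m t =
      (√y : ℂ) * ((1 / ((Real.pi * ((m + 1) ^ 2 * y) : ℝ) : ℂ)) ^ ν * Gamma ν) := by
  have hc : 0 < Real.pi * ((m + 1 : ℝ) ^ 2 * y) := by positivity
  constructor
  · have h1 := integrableOn_rpow_mul_exp_neg_mul_rpow (p := 1) (s := ν.re - 1)
      (b := Real.pi * ((m + 1 : ℝ) ^ 2 * y)) (by linarith) one_pos hc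
    apply Integrable.const_mul
    refine Integrable.mono' h1 ?_ ?_
    · apply ContinuousOn.aestronglyMeasurable _ measurableSet_Ioi
      apply ContinuousOn.mul
      · intro t ht
        apply ContinuousAt.continuousWithinAt
        exact (Complex.continuousAt_ofReal_cpow_const t (ν - 1) (Or.inr (ne_of_gt ht)))
      · fun_prop
    · filter_upwards [ae_restrict_mem measurableSet_Ioi] with t ht
      rw [norm_mul, Complex.norm_cpow_eq_rpow_re_of_pos ht, Complex.norm_exp]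
      simp only [Complex.sub_re, Complex.one_re, Real.rpow_one]
      apply le_of_eq
      congr 2
      simp only [Complex.neg_re, Complex.mul_re, Complex.ofReal_re, Complex.ofReal_im, mul_zero,
        sub_zero]
      ring
  · unfold F0
    rw [integral_const_mul, Complex.integral_cpow_mul_exp_neg_mul_Ioi hν hc]

lemma Ntm_eq (x y : ℝ) (s : ℂ) (m k : ℕ) : Ntm x y s (m, k) =
    (((k + 1 : ℝ) / (m + 1 : ℝ) : ℝ) : ℂ) ^ (s - 1 / 2) *
    KB (s - 1 / 2) (2 * Real.pi * ((m + 1) * (k + 1)) * y) *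
    (Real.cos (2 * Real.pi * ((m + 1) * (k + 1)) * x) : ℝ) := rfl

lemma row2 (h1 : tKB) (h2 : tN) (x y : ℝ) (s : ℂ) (hy : 0 < y) (hs : 1 < s.re) (m : ℕ) :
    mellin (F x y m) s =
      (√y : ℂ) * ((1 / ((Real.pi * ((m + 1) ^ 2 * y) : ℝ) : ℂ)) ^ (s - 1 / 2) *
        Gamma (s - 1 / 2)) + 2 * (√y : ℂ) * ∑' k : ℕ, Ntm x y s (m, k) := by
  set ν := s - 1 / 2 with hν
  have hνre : ν.re = s.re - 1 / 2 := by simp [hν]
  obtain ⟨i0, i1⟩ := int_F0 y ν hy (by rw [hνre]; linarith) m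
  have hm : (0 : ℝ) < (m : ℝ) + 1 := by positivity
  have hk : ∀ k : ℕ, (0 : ℝ) < (k : ℝ) + 1 := fun k => by positivity
  -- integrability of the terms
  have iF : ∀ k : ℕ, Integrable (Fk x y ν m k) (volume.restrict (Ioi 0)) :=
    fun k => (bessel h1 ν y (m + 1) (k + 1) hy hm (hk k)).1.const_mul _
  have eF : ∀ k : ℕ, ∫ t in Ioi (0 : ℝ), Fk x y ν m k t = 2 * (√y : ℂ) * Ntm x y s (m, k) := by
    intro k
    unfold Fk
    rw [integral_const_mul, (bessel h1 ν y (m + 1) (k + 1) hy hm (hk k)).2, Ntm_eq, ← hν]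
    have e : 2 * Real.pi * ((m + 1) * x) * (k + 1) = 2 * Real.pi * ((m + 1) * (k + 1)) * x := by
      ring
    rw [e]
    push_cast
    ring
  have sF : Summable fun k : ℕ => ∫ t in Ioi (0 : ℝ), ‖Fk x y ν m k t‖ := by
    have h3 := (h2.1 0 y (s.re : ℂ) hy).comp_injective
      (i := fun k : ℕ => ((m, k) : ℕ × ℕ)) (fun a b h => (Prod.ext_iff.1 h).2)
    refine Summable.of_nonneg_of_le (fun k => integral_nonneg fun t => norm_nonneg _)
      (fun k => ?_) (h3.mul_left (2 * √y))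
    have e1 : ∫ t in Ioi (0 : ℝ), ‖Fk x y ν m k t‖ =
        |2 * √y * Real.cos (2 * Real.pi * ((m + 1) * x) * (k + 1))| *
          ∫ t in Ioi (0 : ℝ), ‖g ν y (m + 1) (k + 1) t‖ := by
      rw [← integral_const_mul]
      congr 1
      funext t
      rw [Fk, norm_mul, Complex.norm_real, Real.norm_eq_abs]
    rw [e1, int_norm_g h1 ν y (m + 1) (k + 1) hy hm (hk k)]
    have e2 : ‖((((k : ℝ) + 1) / ((m : ℝ) + 1) : ℝ) : ℂ) ^ (ν.re : ℂ) *
        KB (ν.re : ℂ) (2 * Real.pi * ((m + 1) * (k + 1)) * y)‖ =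
        ‖Ntm 0 y (s.re : ℂ) (m, k)‖ := by
      have e3 : ((ν.re : ℝ) : ℂ) = (s.re : ℂ) - 1 / 2 := by rw [hνre]; push_cast; ring
      rw [Ntm_eq, e3, mul_zero, Real.cos_zero, Complex.ofReal_one, mul_one]
    rw [e2]
    simp only [Function.comp]
    apply mul_le_mul_of_nonneg_right _ (norm_nonneg _)
    rw [abs_mul, abs_of_nonneg (by positivity : (0 : ℝ) ≤ 2 * √y)]
    exact mul_le_of_le_one_right (by positivity) (Real.abs_cos_le_one _)
  -- all terms together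
  set G : ℕ → ℝ → ℂ := fun j => Nat.casesOn j (F0 y ν m) (fun k => Fk x y ν m k) with hG
  have iG : ∀ j : ℕ, Integrable (G j) (volume.restrict (Ioi 0)) := by
    intro j
    cases j with
    | zero => exact i0
    | succ k => exact iF k
  have sG : Summable fun j : ℕ => ∫ t in Ioi (0 : ℝ), ‖G j t‖ := by
    rw [← summable_nat_add_iff 1]
    exact sF
  have key := hasSum_integral_of_summable_integral_norm iG sG
  have e5 : ∫ t in Ioi (0 : ℝ), ∑' j : ℕ, G j t = mellin (F x y m) s := by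
    rw [mellin]
    refine setIntegral_congr_fun measurableSet_Ioi (fun t ht => ?_)
    have h5 := hasSum_F x y s hy m t ht
    have h6 : HasSum (fun j : ℕ => G j t) ((t : ℂ) ^ (s - 1) • F x y m t) := by
      rw [← hasSum_nat_add_iff' 1, Finset.sum_range_one]
      exact h5
    exact h6.tsum_eq
  rw [← e5, ← key.tsum_eq, key.summable.tsum_eq_zero_add]
  congr 1
  rw [← tsum_mul_left]
  exact tsum_congr fun k => eF k

/-! ### assembly -/

/-- the sum `∑ (n+1)^(-w)` -/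
noncomputable def Z (w : ℂ) : ℂ := ∑' n : ℕ, 1 / ((n : ℂ) + 1) ^ w

lemma xi_eq (w : ℂ) (hw : 1 < w.re) :
    xi w = (Real.pi : ℂ) ^ (-w / 2) * Gamma (w / 2) * Z w := by
  rw [xi, completedZeta_eq_tsum_of_one_lt_re hw]
  congr 1
  have hw0 : w ≠ 0 := by
    intro h; rw [h] at hw; simp at hw; linarith
  rw [(Complex.summable_one_div_nat_cpow.2 hw).tsum_eq_zero_add]
  rw [Nat.cast_zero, zero_cpow hw0, div_zero, zero_add, Z]
  push_cast
  rfl

lemma summable_Z (w : ℂ) (hw : 1 < w.re) : Summable fun n : ℕ => 1 / ((n : ℂ) + 1) ^ w := by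
  have := (summable_nat_add_iff 1).2 (Complex.summable_one_div_nat_cpow.2 hw)
  push_cast at this
  exact this

lemma T_neg (x y : ℝ) (s : ℂ) (m n : ℤ) : T x y s (-m, -n) = T x y s (m, n) := by
  unfold T
  have h : ((-m, -n) : ℤ × ℤ) = 0 ↔ ((m, n) : ℤ × ℤ) = 0 := by
    rw [Prod.ext_iff, Prod.ext_iff]; simp
  by_cases h0 : ((m, n) : ℤ × ℤ) = 0
  · rw [if_pos h0, if_pos (h.2 h0)]
  · rw [if_neg h0, if_neg (fun h1 => h0 (h.1 h1))]
    congr 3
    push_cast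
    ring

/-- the row sums -/
noncomputable def R (x y : ℝ) (s : ℂ) (m : ℤ) : ℂ := ∑' n : ℤ, T x y s (m, n)

lemma R_neg (x y : ℝ) (s : ℂ) (m : ℤ) : R x y s (-m) = R x y s m := by
  unfold R
  rw [← (Equiv.neg ℤ).tsum_eq]
  exact tsum_congr fun n => T_neg x y s m n

lemma cpow_sq (y : ℝ) (s : ℂ) (hy : 0 < y) (n : ℕ) :
    ((y / ((n : ℝ) + 1) ^ 2 : ℝ) : ℂ) ^ s = (y : ℂ) ^ s * (1 / ((n : ℂ) + 1) ^ (2 * s)) := by
  have hn : (0 : ℝ) < (n : ℝ) + 1 := by positivity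
  rw [div_eq_mul_inv, Complex.ofReal_mul, Complex.mul_cpow_ofReal_nonneg hy.le (by positivity),
    Complex.ofReal_inv, Complex.inv_cpow, one_div]
  · congr 2
    rw [Complex.ofReal_pow, ← Complex.cpow_nat_mul']
    · push_cast; rfl
    · rw [Complex.arg_ofReal_of_nonneg hn.le, mul_zero]
      linarith [Real.pi_pos]
    · rw [Complex.arg_ofReal_of_nonneg hn.le, mul_zero]
      exact Real.pi_pos.le
  · rw [Complex.arg_ofReal_of_nonneg (by positivity)]
    exact Real.pi_ne_zero.symm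

lemma R_zero (x y : ℝ) (s : ℂ) (hy : 0 < y) (hs : 1 < s.re) :
    R x y s 0 = 2 * ((y : ℂ) ^ s * Z (2 * s)) := by
  have hs2 : 1 < (2 * s).re := by simp; linarith
  have hT : ∀ n : ℕ, T x y s (0, (n : ℤ) + 1) = (y : ℂ) ^ s * (1 / ((n : ℂ) + 1) ^ (2 * s)) := by
    intro n
    have hne : ((0, (n : ℤ) + 1) : ℤ × ℤ) ≠ 0 := by
      intro h
      have := congrArg Prod.snd h
      simp only [Prod.snd_zero] at this
      omega
    rw [T, if_neg hne, ← cpow_sq y s hy n]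
    congr 2
    push_cast
    ring
  have hT' : ∀ n : ℕ, T x y s (0, -((n : ℤ) + 1)) =
      (y : ℂ) ^ s * (1 / ((n : ℂ) + 1) ^ (2 * s)) := by
    intro n
    rw [← hT n, ← T_neg x y s 0 ((n : ℤ) + 1), neg_zero]
  have hT0 : T x y s (0, 0) = 0 := by
    rw [T]
    exact if_pos rfl
  have hsum := (summable_Z (2 * s) hs2).mul_left ((y : ℂ) ^ s)
  unfold R
  rw [tsum_of_add_one_of_neg_add_one (f := fun n : ℤ => T x y s (0, n))
    (hsum.congr fun n => (hT n).symm) (hsum.congr fun n => (hT' n).symm), hT0, tsum_congr hT, tsum_congr hT',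
    tsum_mul_left]
  unfold Z
  ring

lemma summable_R (x y : ℝ) (s : ℂ) (hy : 0 < y) (hs : 1 < s.re) : Summable (R x y s) :=
  (summable_T' x y s hy hs).prod

lemma Lat_eq (x y : ℝ) (s : ℂ) (hy : 0 < y) (hs : 1 < s.re) :
    Lat x y s = R x y s 0 + 2 * ∑' m : ℕ, R x y s ((m : ℤ) + 1) := by
  have e0 : Lat x y s = ∑' p : ℤ × ℤ, T x y s p := rfl
  rw [e0, (summable_T' x y s hy hs).tsum_prod]
  have hR := summable_R x y s hy hs
  have h1 : Summable fun m : ℕ => R x y s ((m : ℤ) + 1) :=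
    hR.comp_injective (i := fun m : ℕ => (m : ℤ) + 1) (fun a b h => by simpa using h)
  have h2 : Summable fun m : ℕ => R x y s (-((m : ℤ) + 1)) :=
    h1.congr fun m => (R_neg x y s _).symm
  have := tsum_of_add_one_of_neg_add_one (f := R x y s) h1 h2
  have e1 : ∑' (m : ℤ), ∑' (n : ℤ), T x y s (m, n) = ∑' m : ℤ, R x y s m := rfl
  rw [e1, this, tsum_congr (fun m : ℕ => R_neg x y s ((m : ℤ) + 1))]
  ring

lemma cpow_row (y : ℝ) (ν : ℂ) (hy : 0 < y) (m : ℕ) :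
    (1 / ((Real.pi * ((m + 1) ^ 2 * y) : ℝ) : ℂ)) ^ ν =
      (Real.pi : ℂ) ^ (-ν) * (y : ℂ) ^ (-ν) * (1 / ((m : ℂ) + 1) ^ (2 * ν)) := by
  have hm : (0 : ℝ) < (m : ℝ) + 1 := by positivity
  have e1 : (1 / ((Real.pi * ((m + 1) ^ 2 * y) : ℝ) : ℂ)) =
      ((Real.pi⁻¹ * (y⁻¹ / ((m : ℝ) + 1) ^ 2) : ℝ) : ℂ) := by
    push_cast
    field_simp
  rw [e1, Complex.ofReal_mul, Complex.mul_cpow_ofReal_nonneg (by positivity) (by positivity),
    cpow_sq y⁻¹ ν (by positivity) m]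
  have harg : ∀ r : ℝ, 0 < r → ((r : ℂ)).arg ≠ Real.pi := by
    intro r hr
    rw [Complex.arg_ofReal_of_nonneg hr.le]
    exact Real.pi_ne_zero.symm
  rw [Complex.ofReal_inv, Complex.ofReal_inv, Complex.inv_cpow _ _ (harg _ Real.pi_pos),
    Complex.inv_cpow _ _ (harg _ hy), Complex.cpow_neg, Complex.cpow_neg]
  ring

end ELAT_

open ELAT_ in
theorem pLAT (h1 : tKB) (h2 : tN) : tLAT := by
  intro x y s hy hs
  refine ⟨summable_T' x y s hy hs, ?_⟩
  have hs2 : 1 < (2 * s).re := by simp; linarith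
  have hs3 : 1 < (2 * s - 1).re := by simp; linarith
  set ν := s - 1 / 2 with hν
  -- the rows
  have hrow : ∀ m : ℕ, (Real.pi : ℂ) ^ (-s) * Gamma s * R x y s ((m : ℤ) + 1) =
      ((√y : ℂ) * ((Real.pi : ℂ) ^ (-ν) * (y : ℂ) ^ (-ν)) * Gamma ν) *
        (1 / ((m : ℂ) + 1) ^ (2 * s - 1)) + 2 * (√y : ℂ) * ∑' k : ℕ, Ntm x y s (m, k) := by
    intro m
    have e1 := (row1 x y s hy hs m).tsum_eq
    rw [tsum_mul_left] at e1
    have e2 : 2 * ν = 2 * s - 1 := by rw [hν]; ring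
    rw [R, e1, row2 h1 h2 x y s hy hs m, cpow_row y _ hy m, ← hν, e2]
    ring
  have hN : Summable (Ntm x y s) := (h2.1 x y s hy).of_norm
  have hsumN : Summable fun m : ℕ => ∑' k : ℕ, Ntm x y s (m, k) := hN.prod
  have hsumZ := summable_Z (2 * s - 1) hs3
  have e3 : (Real.pi : ℂ) ^ (-s) * Gamma s * ∑' m : ℕ, R x y s ((m : ℤ) + 1) =
      ((√y : ℂ) * ((Real.pi : ℂ) ^ (-ν) * (y : ℂ) ^ (-ν)) * Gamma ν) * Z (2 * s - 1) +
        2 * (√y : ℂ) * ∑' p : ℕ × ℕ, Ntm x y s p := by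
    rw [← tsum_mul_left, tsum_congr hrow, Summable.tsum_add (hsumZ.mul_left _)
      (hsumN.mul_left _), tsum_mul_left, tsum_mul_left, hN.tsum_prod]
    rfl
  have e4 : xi (2 * s - 1) * (y : ℂ) ^ (1 - s) =
      ((√y : ℂ) * ((Real.pi : ℂ) ^ (-ν) * (y : ℂ) ^ (-ν)) * Gamma ν) * Z (2 * s - 1) := by
    rw [xi_eq _ hs3]
    have a1 : -(2 * s - 1) / 2 = -ν := by rw [hν]; ring
    have a2 : (2 * s - 1) / 2 = ν := by rw [hν]; ring
    have a3 : (y : ℂ) ^ (1 - s) = (√y : ℂ) * (y : ℂ) ^ (-ν) := by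
      have : (√y : ℂ) = (y : ℂ) ^ (1 / 2 : ℂ) := by
        rw [Real.sqrt_eq_rpow, Complex.ofReal_cpow hy.le]
        norm_num
      rw [this, ← Complex.cpow_add _ _ (by exact_mod_cast hy.ne')]
      congr 1
      rw [hν]; ring
    rw [a1, a2, a3]
    ring
  have e5 : xi (2 * s) * (y : ℂ) ^ s = (Real.pi : ℂ) ^ (-s) * Gamma s *
      ((y : ℂ) ^ s * Z (2 * s)) := by
    rw [xi_eq _ hs2]
    have a1 : -(2 * s) / 2 = -s := by ring
    have a2 : (2 * s) / 2 = s := by ring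
    rw [a1, a2]
    ring
  have e6 : (1 : ℂ) / 2 * (Real.pi : ℂ) ^ (-s) * Gamma s *
      (R x y s 0 + 2 * ∑' m : ℕ, R x y s ((m : ℤ) + 1)) =
      (Real.pi : ℂ) ^ (-s) * Gamma s * ((y : ℂ) ^ s * Z (2 * s)) +
      (Real.pi : ℂ) ^ (-s) * Gamma s * ∑' m : ℕ, R x y s ((m : ℤ) + 1) := by
    rw [R_zero x y s hy hs]; ring
  rw [Lat_eq x y s hy hs, e6, e3, Est, e4, e5, Nst]
  ring

end FMZ
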