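import Pool.Agent.FMZ.TE

/-!
# FMZ-E15: the residue of B(s) y^s at s = 1 is m(y)^2
-/

open Complex MeasureTheory Set Filter Topology

namespace FMZ

namespace EMSQ_

/-- the numerator: B(s) y^s = hh y s / (s-1)^3 -/
noncomputable def hh (y : ℝ) (s : ℂ) : ℂ :=
  2 * (2 * s - 1) * X1 s ^ 4 * (y : ℂ) ^ s / (s ^ 4 * X1 (2 * s - 1))

/-- its logarithmic derivative -/
noncomputable def ll (y : ℝ) (s : ℂ) : ℂ :=
  2 / (2 * s - 1) + 4 * (deriv X1 s / X1 s) + (Real.log y : ℂ) - 4 / s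
    - 2 * (deriv X1 (2 * s - 1) / X1 (2 * s - 1))

lemma hasDerivAt_hh (hX : Differentiable ℂ X1) {y : ℝ} (hy : 0 < y) {s : ℂ} (h0 : s ≠ 0)
    (h1 : 2 * s - 1 ≠ 0) (h2 : X1 s ≠ 0) (h3 : X1 (2 * s - 1) ≠ 0) :
    HasDerivAt (hh y) (hh y s * ll y s) s := by
  have hyc : (y : ℂ) ≠ 0 := by exact_mod_cast hy.ne'
  have e1 : HasDerivAt (fun s : ℂ => 2 * s - 1) 2 s := by
    simpa using ((hasDerivAt_id s).const_mul (2 : ℂ)).sub_const (1 : ℂ)
  have e2 : HasDerivAt (fun s : ℂ => 2 * (2 * s - 1)) (2 * 2) s := e1.const_mul 2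
  have e3 : HasDerivAt (fun s : ℂ => X1 s ^ 4) ((4 : ℕ) * X1 s ^ (4 - 1) * deriv X1 s) s :=
    (hX s).hasDerivAt.pow 4
  have e4 : HasDerivAt (fun s : ℂ => (y : ℂ) ^ s) ((y : ℂ) ^ s * Complex.log y * 1) s :=
    (hasDerivAt_id s).const_cpow (Or.inl hyc)
  have e5 : HasDerivAt (fun s : ℂ => s ^ 4) ((4 : ℕ) * s ^ (4 - 1) * 1) s :=
    (hasDerivAt_id s).pow 4
  have e6 : HasDerivAt (fun s : ℂ => X1 (2 * s - 1)) (deriv X1 (2 * s - 1) * 2) s :=
    HasDerivAt.comp (h₂ := X1) (h := fun s : ℂ => 2 * s - 1) s (hX (2 * s - 1)).hasDerivAt e1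
  have hden : s ^ 4 * X1 (2 * s - 1) ≠ 0 := mul_ne_zero (pow_ne_zero 4 h0) h3
  have key := ((e2.mul e3).mul e4).div (e5.mul e6) hden
  have hlog : Complex.log (y : ℂ) = ((Real.log y : ℝ) : ℂ) := (Complex.ofReal_log hy.le).symm
  refine (key.congr_deriv ?_)
  rw [hlog]
  simp only [hh, ll, Pi.mul_apply]
  field_simp
  ring


lemma hasDerivAt_ll (hX : Differentiable ℂ X1) (h1 : X1 1 = 1) (y : ℝ) :
    HasDerivAt (ll y) 0 1 := by
  have hd2 : Differentiable ℂ (deriv X1) := by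
    intro s
    exact ((hX.analyticAt s).deriv).differentiableAt
  have e1 : HasDerivAt (fun s : ℂ => 2 * s - 1) 2 1 := by
    simpa using ((hasDerivAt_id (1 : ℂ)).const_mul (2 : ℂ)).sub_const (1 : ℂ)
  have hM : HasDerivAt (fun s : ℂ => deriv X1 s / X1 s)
      ((deriv (deriv X1) 1 * X1 1 - deriv X1 1 * deriv X1 1) / X1 1 ^ 2) 1 :=
    (hd2 1).hasDerivAt.div (hX 1).hasDerivAt (by rw [h1]; exact one_ne_zero)
  set D : ℂ := (deriv (deriv X1) 1 * X1 1 - deriv X1 1 * deriv X1 1) / X1 1 ^ 2 with hD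
  have hM2 : HasDerivAt (fun s : ℂ => deriv X1 (2 * s - 1) / X1 (2 * s - 1)) (D * 2) 1 := by
    have hM' : HasDerivAt (fun s : ℂ => deriv X1 s / X1 s) D (2 * 1 - 1) := by
      have : (2 * 1 - 1 : ℂ) = 1 := by norm_num
      rw [this]; exact hM
    exact HasDerivAt.comp (h₂ := fun s : ℂ => deriv X1 s / X1 s) (h := fun s : ℂ => 2 * s - 1)
      (1 : ℂ) hM' e1
  have f1 : HasDerivAt (fun s : ℂ => 2 / (2 * s - 1)) (-4) 1 := by
    have := (hasDerivAt_const (1 : ℂ) (2 : ℂ)).div e1 (by norm_num)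
    refine this.congr_deriv ?_
    norm_num
  have f2 : HasDerivAt (fun s : ℂ => 4 / s) (-4) 1 := by
    have := (hasDerivAt_const (1 : ℂ) (4 : ℂ)).div (hasDerivAt_id (1 : ℂ)) one_ne_zero
    refine this.congr_deriv ?_
    norm_num
  have key := (((f1.add (hM.const_mul 4)).add_const (Real.log y : ℂ)).sub f2).sub
    (hM2.const_mul 2)
  refine key.congr_deriv ?_
  ring

end EMSQ_

open EMSQ_ in
theorem pMSQ (h : tX) : tMSQ := by
  obtain ⟨hX, -, -, hX1, hdX, -⟩ := h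
  intro r hr y hy
  obtain ⟨hr0, hr8, hrad⟩ := hr
  have hyc : (y : ℂ) ≠ 0 := by exact_mod_cast hy.ne'
  -- nonvanishing on the closed disc
  have hn0 : ∀ s : ℂ, ‖s - 1‖ ≤ r → s ≠ 0 := by
    rintro s hs rfl
    simp at hs
    linarith
  have hn1 : ∀ s : ℂ, ‖s - 1‖ ≤ r → 2 * s - 1 ≠ 0 := by
    intro s hs h0
    have : s - 1 = -(1 / 2) := by linear_combination h0 / 2
    rw [this] at hs
    norm_num at hs
    linarith
  have hn2 : ∀ s : ℂ, ‖s - 1‖ ≤ r → X1 s ≠ 0 := fun s hs => hrad s (by linarith)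
  have hn3 : ∀ s : ℂ, ‖s - 1‖ ≤ r → X1 (2 * s - 1) ≠ 0 := by
    intro s hs
    apply hrad
    have : 2 * s - 1 - 1 = 2 * (s - 1) := by ring
    rw [this, norm_mul]
    simp only [Complex.norm_ofNat]
    linarith
  have hdiff : DifferentiableOn ℂ (hh y) (Metric.closedBall (1 : ℂ) r) := by
    intro s hs
    rw [mem_closedBall_iff_norm] at hs
    exact (hasDerivAt_hh hX hy (hn0 s hs) (hn1 s hs) (hn2 s hs)
      (hn3 s hs)).differentiableAt.differentiableWithinAt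
  have hcauchy := hdiff.circleIntegral_one_div_sub_center_pow_smul hr0 2
  -- the integrands agree
  have hint : (∮ s in C(1, r), Bq s * (y : ℂ) ^ s) =
      ∮ s in C(1, r), (1 / (s - 1) ^ (2 + 1)) • hh y s := by
    apply circleIntegral.integral_congr hr0.le
    intro s hs
    have hs' : ‖s - 1‖ ≤ r := by
      rw [mem_sphere_iff_norm] at hs
      exact hs.le
    have hs1 : s - 1 ≠ 0 := by
      rw [mem_sphere_iff_norm] at hs
      intro h0
      rw [h0, norm_zero] at hs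
      exact hr0.ne hs
    have a0 := hn0 s hs'
    have a3 := hn3 s hs'
    simp only [Bq, hh, smul_eq_mul]
    field_simp
    ring
  -- second derivative
  have hev : deriv (hh y) =ᶠ[𝓝 (1 : ℂ)] fun s => hh y s * ll y s := by
    filter_upwards [Metric.ball_mem_nhds (1 : ℂ) hr0] with s hs
    rw [mem_ball_iff_norm] at hs
    exact (hasDerivAt_hh hX hy (hn0 s hs.le) (hn1 s hs.le) (hn2 s hs.le) (hn3 s hs.le)).deriv
  have h11 : ‖(1 : ℂ) - 1‖ ≤ r := by simpa using hr0.le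
  have hd1 := hasDerivAt_hh hX hy (hn0 1 h11) (hn1 1 h11) (hn2 1 h11) (hn3 1 h11)
  have hd2 := hasDerivAt_ll hX hX1 y
  have hhv : hh y 1 = 2 * y := by
    have : (2 * 1 - 1 : ℂ) = 1 := by norm_num
    simp only [hh, this, hX1]
    simp
  have hlv : ll y 1 = (Real.log y : ℂ) + c0 := by
    have : (2 * 1 - 1 : ℂ) = 1 := by norm_num
    simp only [ll, this, hX1, hdX]
    ring
  have hit : iteratedDeriv 2 (hh y) 1 = 2 * y * ((Real.log y : ℂ) + c0) ^ 2 := by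
    have hd3 : deriv (fun s => hh y s * ll y s) 1 = hh y 1 * ll y 1 * ll y 1 + hh y 1 * 0 :=
      (hd1.mul hd2).deriv
    rw [iteratedDeriv_succ, iteratedDeriv_one, hev.deriv_eq, hd3, hhv, hlv]
    ring
  rw [hint, hcauchy, hit]
  have hpi : (2 * Real.pi * I : ℂ) ≠ 0 := two_pi_I_ne_zero
  have hm : ((mm y ^ 2 : ℝ) : ℂ) = y * ((Real.log y : ℂ) + c0) ^ 2 := by
    have : mm y ^ 2 = y * (Real.log y + c0) ^ 2 := by
      simp only [mm]
      rw [mul_pow, Real.sq_sqrt hy.le]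
    rw [this]
    push_cast
    ring
  rw [hm]
  simp only [smul_eq_mul, Nat.factorial]
  field_simp
  push_cast
  ring

end FMZ
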