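import Pool.Agent.FMZ.TE

/-!
# FMZ-E3: facts on the nonconstant part N*
-/

open Complex MeasureTheory Set Filter Topology

namespace FMZ

namespace EN_

/-- powers are dominated by exponentials, for `1 ≤ t` -/
lemma rpow_exp (A a : ℝ) (ha : 0 < a) : ∃ M : ℝ, 0 < M ∧ ∀ t : ℝ, 1 ≤ t →
    t ^ A ≤ M * Real.exp (a * t) := by
  obtain ⟨n, hn⟩ := exists_nat_ge A
  refine ⟨n.factorial * (1 / a) ^ n, by positivity, fun t ht => ?_⟩
  have h1 := Real.pow_div_factorial_le_exp (a * t) (by positivity) n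
  have hf : (0 : ℝ) < n.factorial := by exact_mod_cast n.factorial_pos
  rw [div_le_iff₀ hf] at h1
  calc t ^ A ≤ t ^ (n : ℝ) := Real.rpow_le_rpow_of_exponent_le ht hn
    _ = t ^ n := Real.rpow_natCast t n
    _ = (1 / a) ^ n * (a * t) ^ n := by
        rw [← mul_pow]
        congr 1
        field_simp
    _ ≤ (1 / a) ^ n * (Real.exp (a * t) * n.factorial) :=
        mul_le_mul_of_nonneg_left h1 (by positivity)
    _ = _ := by ring

noncomputable def km (p : ℕ × ℕ) : ℝ := ((p.1 : ℝ) + 1) * ((p.2 : ℝ) + 1)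

lemma one_le_km (p : ℕ × ℕ) : 1 ≤ km p := by
  unfold km
  have h1 : (0 : ℝ) ≤ p.1 := Nat.cast_nonneg _
  have h2 : (0 : ℝ) ≤ p.2 := Nat.cast_nonneg _
  nlinarith

lemma km_ge (p : ℕ × ℕ) : (p.1 : ℝ) / 2 + (p.2 : ℝ) / 2 ≤ km p := by
  unfold km
  have h1 : (0 : ℝ) ≤ p.1 := Nat.cast_nonneg _
  have h2 : (0 : ℝ) ≤ p.2 := Nat.cast_nonneg _
  nlinarith [mul_nonneg h1 h2]

lemma ratio_le (p : ℕ × ℕ) (r A : ℝ) (hr : |r| ≤ A) :
    (((p.2 : ℝ) + 1) / ((p.1 : ℝ) + 1)) ^ r ≤ km p ^ A := by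
  have h1 : (0 : ℝ) ≤ p.1 := Nat.cast_nonneg _
  have h2 : (0 : ℝ) ≤ p.2 := Nat.cast_nonneg _
  have hA : 0 ≤ A := (abs_nonneg r).trans hr
  have hk := one_le_km p
  rcases le_total 0 r with h0 | h0
  · rw [abs_of_nonneg h0] at hr
    have e1 : ((p.2 : ℝ) + 1) / ((p.1 : ℝ) + 1) ≤ km p := by
      rw [div_le_iff₀ (by positivity)]
      unfold km
      have : 0 ≤ (p.2 : ℝ) * ((p.1 : ℝ) * (p.1 + 2)) := by positivity
      nlinarith
    calc (((p.2 : ℝ) + 1) / ((p.1 : ℝ) + 1)) ^ r ≤ km p ^ r :=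
          Real.rpow_le_rpow (by positivity) e1 h0
      _ ≤ km p ^ A := Real.rpow_le_rpow_of_exponent_le hk hr
  · rw [abs_of_nonpos h0] at hr
    have e1 : ((p.1 : ℝ) + 1) / ((p.2 : ℝ) + 1) ≤ km p := by
      rw [div_le_iff₀ (by positivity)]
      unfold km
      have : 0 ≤ (p.1 : ℝ) * ((p.2 : ℝ) * (p.2 + 2)) := by positivity
      nlinarith
    have e2 : (((p.2 : ℝ) + 1) / ((p.1 : ℝ) + 1)) ^ r =
        (((p.1 : ℝ) + 1) / ((p.2 : ℝ) + 1)) ^ (-r) := by
      rw [Real.rpow_neg (by positivity), ← Real.inv_rpow (by positivity), inv_div]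
    rw [e2]
    calc (((p.1 : ℝ) + 1) / ((p.2 : ℝ) + 1)) ^ (-r) ≤ km p ^ (-r) :=
          Real.rpow_le_rpow (by positivity) e1 (by linarith)
      _ ≤ km p ^ A := Real.rpow_le_rpow_of_exponent_le hk hr

/-- the majorant -/
noncomputable def W (a : ℝ) (p : ℕ × ℕ) : ℝ :=
  Real.exp (-(a / 2)) ^ p.1 * Real.exp (-(a / 2)) ^ p.2

lemma W_summable {a : ℝ} (ha : 0 < a) : Summable (W a) := by
  have h1 : Real.exp (-(a / 2)) < 1 := by
    rw [← Real.exp_zero]
    exact Real.exp_lt_exp.2 (by linarith)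
  have h2 : Summable (fun n : ℕ => Real.exp (-(a / 2)) ^ n) :=
    summable_geometric_of_lt_one (Real.exp_pos _).le h1
  exact h2.mul_of_nonneg h2 (fun n => by positivity) (fun n => by positivity)

lemma W_nonneg (a : ℝ) (p : ℕ × ℕ) : 0 ≤ W a p := by
  unfold W
  positivity

lemma W_ge {a : ℝ} (ha : 0 < a) (p : ℕ × ℕ) : Real.exp (-(a * km p)) ≤ W a p := by
  unfold W
  rw [← Real.exp_nat_mul, ← Real.exp_nat_mul, ← Real.exp_add]
  refine Real.exp_le_exp.2 ?_
  have := mul_le_mul_of_nonneg_left (km_ge p) ha.le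
  linarith

lemma core (h : tKB) {A φ y₀ : ℝ} (hA : 0 < A) (hφ0 : 0 ≤ φ) (hφ : φ < Real.pi / 2)
    (hy₀ : 0 < y₀) : ∃ C c a : ℝ, 0 < C ∧ 0 < c ∧ 0 < a ∧ ∀ (x y : ℝ) (s : ℂ) (p : ℕ × ℕ),
      |s.re| ≤ A → y₀ ≤ y →
      ‖Ntm x y s p‖ ≤ C * Real.exp (-φ * |s.im|) * Real.exp (-(c * y)) * W a p := by
  obtain ⟨C, hC, hb⟩ := h.2.2.2.2.2 (A + 1 / 2) φ (by linarith) hφ0 hφ
  have hcos : 0 < Real.cos φ := Real.cos_pos_of_mem_Ioo ⟨by linarith [Real.pi_pos], hφ⟩
  set c₁ := 2 * Real.pi * Real.cos φ with hc₁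
  have hc₁0 : 0 < c₁ := by have := Real.pi_pos; positivity
  set a := c₁ / 4 * y₀ with ha
  have ha0 : 0 < a := by positivity
  obtain ⟨M, hM, hMt⟩ := rpow_exp (A + 1 / 2) a ha0
  set B := 1 + (2 * Real.pi * y₀) ^ (-(A + 1 / 2 + 1)) with hB
  have hpy : 0 < 2 * Real.pi * y₀ := by have := Real.pi_pos; positivity
  have hB0 : 0 < B := by
    have := Real.rpow_pos_of_pos hpy (-(A + 1 / 2 + 1))
    linarith
  refine ⟨C * B * M, c₁ / 2, a, by positivity, by positivity, ha0, ?_⟩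
  intro x y s p hs hy
  have hk := one_le_km p
  have hk0 : 0 < km p := by linarith
  have hy0 : 0 < y := lt_of_lt_of_le hy₀ hy
  set X := 2 * Real.pi * ((p.1 + 1) * (p.2 + 1)) * y with hX
  have hXk : X = 2 * Real.pi * km p * y := rfl
  have hX0 : 0 < X := by
    rw [hXk]
    have := Real.pi_pos
    positivity
  have hν : |(s - 1 / 2 : ℂ).re| ≤ A + 1 / 2 := by
    have e : (s - 1 / 2 : ℂ).re = s.re - 1 / 2 := by simp
    rw [e]
    have h1 := abs_le.1 hs
    exact abs_le.2 ⟨by linarith, by linarith⟩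
  have him : (s - 1 / 2 : ℂ).im = s.im := by simp
  have h1 := hb (s - 1 / 2) X hν hX0
  rw [him] at h1
  -- factor 1
  have hr : (0 : ℝ) < ((p.2 : ℝ) + 1) / ((p.1 : ℝ) + 1) := by positivity
  have f1 : ‖((((p.2 : ℝ) + 1) / ((p.1 : ℝ) + 1) : ℝ) : ℂ) ^ (s - 1 / 2)‖ ≤
      km p ^ (A + 1 / 2) := by
    rw [Complex.norm_cpow_eq_rpow_re_of_pos hr]
    exact ratio_le p _ _ hν
  have f3 : ‖((Real.cos (2 * Real.pi * ((p.1 + 1) * (p.2 + 1)) * x) : ℝ) : ℂ)‖ ≤ 1 := by
    rw [Complex.norm_real]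
    exact Real.abs_cos_le_one _
  -- factor 2
  have g1 : 1 + X ^ (-(A + 1 / 2 + 1)) ≤ B := by
    rw [hB]
    have : X ^ (-(A + 1 / 2 + 1)) ≤ (2 * Real.pi * y₀) ^ (-(A + 1 / 2 + 1)) := by
      refine Real.rpow_le_rpow_of_nonpos hpy ?_ (by linarith)
      rw [hXk]
      have hp := Real.pi_pos
      calc 2 * Real.pi * y₀ = 2 * Real.pi * (1 * y₀) := by ring
        _ ≤ 2 * Real.pi * (km p * y) := by
            refine mul_le_mul_of_nonneg_left ?_ (by positivity)
            exact mul_le_mul hk hy hy₀.le hk0.le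
        _ = _ := by ring
    linarith
  have g2 : Real.exp (-(Real.cos φ * X)) ≤
      Real.exp (-(c₁ / 2 * y)) * Real.exp (-(a * km p)) * Real.exp (-(a * km p)) := by
    rw [← Real.exp_add, ← Real.exp_add]
    refine Real.exp_le_exp.2 ?_
    have e1 : Real.cos φ * X = c₁ * (km p * y) := by rw [hXk, hc₁]; ring
    rw [e1]
    have e2 : y ≤ km p * y := by nlinarith
    have e3 : km p * y₀ ≤ km p * y := mul_le_mul_of_nonneg_left hy hk0.le
    have e4 : c₁ * y ≤ c₁ * (km p * y) := mul_le_mul_of_nonneg_left e2 hc₁0.le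
    have e5 : c₁ * (km p * y₀) ≤ c₁ * (km p * y) := mul_le_mul_of_nonneg_left e3 hc₁0.le
    have e6 : a * km p = c₁ * (km p * y₀) / 4 := by rw [ha]; ring
    rw [e6]
    linarith
  have f2 : ‖KB (s - 1 / 2) X‖ ≤ C * Real.exp (-φ * |s.im|) * B *
      (Real.exp (-(c₁ / 2 * y)) * Real.exp (-(a * km p)) * Real.exp (-(a * km p))) := by
    refine h1.trans ?_
    refine mul_le_mul (mul_le_mul_of_nonneg_left g1 (by positivity)) g2 (Real.exp_pos _).le
      (by positivity)
  have f4 : km p ^ (A + 1 / 2) * Real.exp (-(a * km p)) ≤ M := by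
    calc km p ^ (A + 1 / 2) * Real.exp (-(a * km p)) ≤
          (M * Real.exp (a * km p)) * Real.exp (-(a * km p)) :=
          mul_le_mul_of_nonneg_right (hMt _ hk) (Real.exp_pos _).le
      _ = M := by rw [mul_assoc, ← Real.exp_add]; simp
  unfold Ntm
  rw [norm_mul, norm_mul]
  have hkp : 0 ≤ km p ^ (A + 1 / 2) := Real.rpow_nonneg hk0.le _
  calc _ ≤ (km p ^ (A + 1 / 2) * (C * Real.exp (-φ * |s.im|) * B *
      (Real.exp (-(c₁ / 2 * y)) * Real.exp (-(a * km p)) * Real.exp (-(a * km p))))) * 1 := by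
        refine mul_le_mul (mul_le_mul f1 f2 (norm_nonneg _) hkp) f3 (norm_nonneg _) (by positivity)
    _ = C * B * Real.exp (-φ * |s.im|) * Real.exp (-(c₁ / 2 * y)) *
        (km p ^ (A + 1 / 2) * Real.exp (-(a * km p))) * Real.exp (-(a * km p)) := by ring
    _ ≤ C * B * Real.exp (-φ * |s.im|) * Real.exp (-(c₁ / 2 * y)) * M * W a p := by
        refine mul_le_mul (mul_le_mul_of_nonneg_left f4 (by positivity)) (W_ge ha0 p)
          (Real.exp_pos _).le (by positivity)
    _ = _ := by ring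

lemma core' (h : tKB) {A y₀ : ℝ} (hA : 0 < A) (hy₀ : 0 < y₀) :
    ∃ u : ℕ × ℕ → ℝ, Summable u ∧ ∀ (x y : ℝ) (s : ℂ) (p : ℕ × ℕ),
      |s.re| ≤ A → y₀ ≤ y → ‖Ntm x y s p‖ ≤ u p := by
  obtain ⟨C, c, a, hC, hc, ha, hb⟩ := core h hA (le_refl (0 : ℝ)) (by positivity) hy₀
  refine ⟨fun p => C * W a p, (W_summable ha).mul_left C, ?_⟩
  intro x y s p hs hy
  refine (hb x y s p hs hy).trans ?_
  refine mul_le_mul_of_nonneg_right ?_ (W_nonneg a p)
  have e1 : Real.exp (-(c * y)) ≤ 1 := Real.exp_le_one_iff.2 (by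
    have : 0 < y := lt_of_lt_of_le hy₀ hy
    have : 0 < c * y := by positivity
    linarith)
  calc C * Real.exp (-0 * |s.im|) * Real.exp (-(c * y)) ≤ C * Real.exp (-0 * |s.im|) * 1 :=
        mul_le_mul_of_nonneg_left e1 (by positivity)
    _ = C := by simp

lemma summ (h : tKB) (x y : ℝ) (s : ℂ) (hy : 0 < y) : Summable (fun p => ‖Ntm x y s p‖) := by
  obtain ⟨u, hu, hb⟩ := core' h (A := |s.re| + 1) (y₀ := y) (by positivity) hy
  exact hu.of_nonneg_of_le (fun p => norm_nonneg _) (fun p => hb x y s p (by linarith) le_rfl)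

lemma sqrt_le {c y : ℝ} (hc : 0 < c) (hy : 0 < y) : √y ≤ (1 + 1 / c) * Real.exp (c * y) := by
  have h1 : √y ≤ 1 + y := by
    rw [Real.sqrt_le_left (by linarith)]
    nlinarith
  have h2 : c * y + 1 ≤ Real.exp (c * y) := Real.add_one_le_exp _
  have h3 : 0 < c * y := by positivity
  have h4 : y ≤ 1 / c * Real.exp (c * y) := by
    rw [div_mul_eq_mul_div, le_div_iff₀ hc]
    linarith
  linarith

lemma term_diff (h : tKB) (x y : ℝ) (hy : 0 < y) (p : ℕ × ℕ) :
    Differentiable ℂ (fun s => Ntm x y s p) := by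
  unfold Ntm
  have hr : (0 : ℝ) < ((p.2 : ℝ) + 1) / ((p.1 : ℝ) + 1) := by positivity
  have hX : 0 < 2 * Real.pi * (((p.1 : ℝ) + 1) * (p.2 + 1)) * y := by
    have := Real.pi_pos
    positivity
  have h1 : Differentiable ℂ (fun s : ℂ => s - 1 / 2) := differentiable_id.sub_const _
  have h2 := (h.2.1 _ hX).comp h1
  refine (((h1.const_cpow (Or.inl ?_))).mul h2).mul_const _
  exact_mod_cast hr.ne'

lemma term_cont (h : tKB) (p : ℕ × ℕ) :
    ContinuousOn (fun q : (ℝ × ℝ) × ℂ => Ntm q.1.1 q.1.2 q.2 p) {q | 0 < q.1.2} := by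
  unfold Ntm
  have hr : (0 : ℝ) < ((p.2 : ℝ) + 1) / ((p.1 : ℝ) + 1) := by positivity
  refine ContinuousOn.mul (ContinuousOn.mul ?_ ?_) ?_
  · refine Continuous.continuousOn ?_
    refine Continuous.const_cpow (by fun_prop) (Or.inl ?_)
    exact_mod_cast hr.ne'
  · have h1 : Continuous (fun q : (ℝ × ℝ) × ℂ =>
        ((q.2 - 1 / 2, 2 * Real.pi * (((p.1 : ℝ) + 1) * (p.2 + 1)) * q.1.2) : ℂ × ℝ)) := by
      fun_prop
    refine h.2.2.1.comp h1.continuousOn ?_
    intro q hq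
    have hq' : 0 < q.1.2 := hq
    have := Real.pi_pos
    show 0 < 2 * Real.pi * (((p.1 : ℝ) + 1) * (p.2 + 1)) * q.1.2
    positivity
  · refine Continuous.continuousOn ?_
    fun_prop

lemma int_term (y : ℝ) (s : ℂ) (p : ℕ × ℕ) : ∫ x in (0 : ℝ)..1, Ntm x y s p = 0 := by
  unfold Ntm
  rw [intervalIntegral.integral_const_mul]
  have hc : (2 * Real.pi * (((p.1 : ℝ) + 1) * (p.2 + 1))) ≠ 0 := by
    have := Real.pi_pos
    positivity
  have h1 : ∫ x in (0 : ℝ)..1, ((Real.cos (2 * Real.pi * (((p.1 : ℝ) + 1) * (p.2 + 1)) * x) : ℝ) : ℂ)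
      = 0 := by
    rw [intervalIntegral.integral_ofReal]
    have h2 := intervalIntegral.integral_comp_mul_left (a := 0) (b := 1) Real.cos hc
    rw [h2, integral_cos]
    have h3 : 2 * Real.pi * (((p.1 : ℝ) + 1) * (p.2 + 1)) * 1 =
        ((2 * ((p.1 + 1) * (p.2 + 1)) : ℕ) : ℝ) * Real.pi := by
      push_cast
      ring
    rw [h3, Real.sin_nat_mul_pi]
    simp
  rw [h1, mul_zero]

end EN_

open EN_ in
theorem pN (h : tKB) : tN := by
  refine ⟨fun x y s hy => summ h x y s hy, ?_, ?_, ?_, ?_, ?_, ?_⟩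
  · intro A φ y₀ hA hφ0 hφ hy₀
    obtain ⟨C, c, a, hC, hc, ha, hb⟩ := core h hA hφ0 hφ hy₀
    set S := ∑' p, W a p with hS
    have hS0 : 0 ≤ S := tsum_nonneg (W_nonneg a)
    refine ⟨2 * (1 + 1 / (c / 2)) * C * (S + 1), c / 2, by positivity, by positivity, ?_⟩
    intro x y s hs hy
    have hy0 : 0 < y := lt_of_lt_of_le hy₀ hy
    have h1 : ‖∑' p, Ntm x y s p‖ ≤ C * Real.exp (-φ * |s.im|) * Real.exp (-(c * y)) * S :=
      tsum_of_norm_bounded ((W_summable ha).hasSum.mul_left _) (fun p => hb x y s p hs hy)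
    unfold Nst
    rw [norm_mul]
    have h2 : ‖(2 * √y : ℂ)‖ = 2 * √y := by
      rw [norm_mul, Complex.norm_real, Real.norm_of_nonneg (Real.sqrt_nonneg y)]
      norm_num
    rw [h2]
    have h3 := sqrt_le (c := c / 2) (by positivity) hy0
    calc 2 * √y * ‖∑' p, Ntm x y s p‖
        ≤ 2 * ((1 + 1 / (c / 2)) * Real.exp (c / 2 * y)) *
          (C * Real.exp (-φ * |s.im|) * Real.exp (-(c * y)) * (S + 1)) := by
          refine mul_le_mul (by linarith) (h1.trans ?_) (norm_nonneg _) (by positivity)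
          exact mul_le_mul_of_nonneg_left (by linarith) (by positivity)
      _ = 2 * (1 + 1 / (c / 2)) * C * (S + 1) * Real.exp (-φ * |s.im|) *
          (Real.exp (c / 2 * y) * Real.exp (-(c * y))) := by ring
      _ = _ := by
          rw [← Real.exp_add]
          congr 2
          ring
  · intro x y hy
    unfold Nst
    refine Differentiable.const_mul ?_ _
    intro s
    obtain ⟨u, hu, hb⟩ := core' h (A := |s.re| + 1) (y₀ := y) (by positivity) hy
    have hU : IsOpen {z : ℂ | |z.re| < |s.re| + 1} :=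
      isOpen_lt (continuous_abs.comp Complex.continuous_re) continuous_const
    have h1 := Complex.differentiableOn_tsum_of_summable_norm hu
      (fun p => (term_diff h x y hy p).differentiableOn) hU
      (fun p w hw => hb x y w p (le_of_lt hw) le_rfl)
    exact h1.differentiableAt (hU.mem_nhds (by simp))
  · intro q hq
    have hq' : 0 < q.1.2 := hq
    obtain ⟨u, hu, hb⟩ := core' h (A := |q.2.re| + 1) (y₀ := q.1.2 / 2) (by positivity)
      (by positivity)
    set U : Set ((ℝ × ℝ) × ℂ) := {z | q.1.2 / 2 < z.1.2 ∧ |z.2.re| < |q.2.re| + 1} with hU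
    have hUo : IsOpen U := by
      refine IsOpen.inter ?_ ?_
      · exact isOpen_lt continuous_const (continuous_snd.comp continuous_fst)
      · exact isOpen_lt (continuous_abs.comp (Complex.continuous_re.comp continuous_snd))
          continuous_const
    have h1 : ContinuousOn (fun z : (ℝ × ℝ) × ℂ => ∑' p, Ntm z.1.1 z.1.2 z.2 p) U := by
      refine continuousOn_tsum (fun p => (term_cont h p).mono ?_) hu ?_
      · intro z hz
        have := hz.1
        show 0 < z.1.2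
        linarith
      · intro p z hz
        exact hb _ _ _ _ hz.2.le hz.1.le
    have hmem : q ∈ U := ⟨by linarith, by simp⟩
    have h2 : ContinuousAt (fun z : (ℝ × ℝ) × ℂ => Nst z.1.1 z.1.2 z.2) q := by
      unfold Nst
      refine ContinuousAt.mul ?_ (h1.continuousAt (hUo.mem_nhds hmem))
      refine Continuous.continuousAt ?_
      fun_prop
    exact h2.continuousWithinAt
  · intro x y s
    have hcos : ∀ (p : ℕ × ℕ) (x : ℝ), Real.cos (2 * Real.pi * (((p.1 : ℝ) + 1) * (p.2 + 1)) * (x + 1))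
        = Real.cos (2 * Real.pi * (((p.1 : ℝ) + 1) * (p.2 + 1)) * x) := by
      intro p x
      have e : 2 * Real.pi * (((p.1 : ℝ) + 1) * (p.2 + 1)) * (x + 1) =
          2 * Real.pi * (((p.1 : ℝ) + 1) * (p.2 + 1)) * x +
            (((p.1 + 1) * (p.2 + 1) : ℕ) : ℝ) * (2 * Real.pi) := by
        push_cast
        ring
      rw [e, Real.cos_add_nat_mul_two_pi]
    constructor
    · unfold Nst Ntm
      simp only [hcos]
    · unfold Nst Ntm
      simp only [mul_neg, Real.cos_neg]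
  · intro y s hy
    unfold Nst
    rw [intervalIntegral.integral_const_mul]
    obtain ⟨u, hu, hb⟩ := core' h (A := |s.re| + 1) (y₀ := y) (by positivity) hy
    have h1 := intervalIntegral.hasSum_integral_of_dominated_convergence (a := 0) (b := 1)
      (μ := volume) (F := fun p x => Ntm x y s p) (f := fun x => ∑' p, Ntm x y s p)
      (fun p _ => u p)
      (fun p => by
        refine Continuous.aestronglyMeasurable ?_
        unfold Ntm
        fun_prop)
      (fun p => Eventually.of_forall fun t _ => hb t y s p (by linarith) le_rfl)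
      (Eventually.of_forall fun t _ => hu)
      (intervalIntegrable_const)
      (Eventually.of_forall fun t _ => (summ h t y s hy).of_norm.hasSum)
    simp only [int_term] at h1
    have h2 := h1.unique hasSum_zero
    rw [h2, mul_zero]
  · intro x y
    rcases le_or_gt y 0 with hy | hy
    · unfold Nst
      rw [Real.sqrt_eq_zero_of_nonpos hy]
      simp
    · have h1 : ∀ p, Ntm x y (1 / 2) p =
          (((KB 0 (2 * Real.pi * (((p.1 : ℝ) + 1) * (p.2 + 1)) * y)).re *
            Real.cos (2 * Real.pi * (((p.1 : ℝ) + 1) * (p.2 + 1)) * x) : ℝ) : ℂ) := by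
        intro p
        have hX : 0 < 2 * Real.pi * (((p.1 : ℝ) + 1) * (p.2 + 1)) * y := by
          have := Real.pi_pos
          positivity
        have h2 : KB 0 (2 * Real.pi * (((p.1 : ℝ) + 1) * (p.2 + 1)) * y) =
            ((KB 0 (2 * Real.pi * (((p.1 : ℝ) + 1) * (p.2 + 1)) * y)).re : ℂ) := by
          apply Complex.ext
          · simp
          · simp [(h.2.2.2.2.1 _).1]
        unfold Ntm
        rw [sub_self, Complex.cpow_zero, one_mul]
        rw [h2]
        push_cast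
        simp
      unfold Nst
      simp only [h1]
      rw [← Complex.ofReal_tsum]
      have h3 : ∀ r : ℝ, (2 * (√y : ℂ) * (r : ℂ)).im = 0 := by
        intro r
        rw [show (2 * (√y : ℂ) * (r : ℂ)) = ((2 * √y * r : ℝ) : ℂ) by push_cast; ring]
        exact Complex.ofReal_im _
      exact h3 _

end FMZ
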