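import Pool.Agent.FMZ.TE
import Pool.Agent.FMZ.TZ
import Pool.Agent.H25.Plancherel

/-!
# FMZ-E8: Plancherel
-/

open Complex MeasureTheory Set Filter Topology FourierTransform

namespace FMZ

namespace EPLAN_

/-- the function on the half line -/
noncomputable def g (d τ : ℝ) : ℂ :=
  Nr d τ (1 / 2) - (mm (Real.exp (-τ) / Real.cosh d) : ℝ)

lemma mm_eq (d τ : ℝ) : mm (Real.exp (-τ) / Real.cosh d) =
    (√(Real.cosh d))⁻¹ * Real.exp (-(τ / 2)) * (c0 - Real.log (Real.cosh d) - τ) := by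
  have hL : 0 < Real.cosh d := Real.cosh_pos d
  unfold mm
  rw [Real.sqrt_div (Real.exp_pos _).le, Real.log_div (Real.exp_pos _).ne' hL.ne', Real.log_exp,
    ← Real.exp_half]
  have : -τ / 2 = -(τ / 2) := by ring
  rw [this]
  ring

lemma cont_mm (d : ℝ) : Continuous (fun τ => mm (Real.exp (-τ) / Real.cosh d)) := by
  simp_rw [mm_eq]
  fun_prop

lemma mm_bound (d : ℝ) : ∃ C, 0 < C ∧ ∀ τ : ℝ, 0 ≤ τ →
    |mm (Real.exp (-τ) / Real.cosh d)| ≤ C * Real.exp (-(τ / 4)) := by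
  set K := |c0 - Real.log (Real.cosh d)| with hK
  refine ⟨K + 4, by positivity, fun τ hτ => ?_⟩
  rw [mm_eq, abs_mul, abs_mul, abs_of_nonneg (a := (√(Real.cosh d))⁻¹) (by positivity),
    abs_of_nonneg (Real.exp_pos _).le]
  have h1 : (√(Real.cosh d))⁻¹ ≤ 1 := by
    apply inv_le_one_of_one_le₀
    rw [Real.one_le_sqrt]
    exact Real.one_le_cosh d
  have h2 : |c0 - Real.log (Real.cosh d) - τ| ≤ K + τ := by
    refine (abs_sub _ _).trans ?_
    rw [abs_of_nonneg hτ]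
  have h3 : Real.exp (-(τ / 2)) = Real.exp (-(τ / 4)) * Real.exp (-(τ / 4)) := by
    rw [← Real.exp_add]; ring_nf
  have h4 : τ * Real.exp (-(τ / 4)) ≤ 4 := by
    have h5 : τ / 4 ≤ Real.exp (τ / 4) := by linarith [Real.add_one_le_exp (τ / 4)]
    rw [Real.exp_neg, ← div_eq_mul_inv, div_le_iff₀ (Real.exp_pos _)]
    linarith
  have h5 : Real.exp (-(τ / 4)) ≤ 1 := Real.exp_le_one_iff.2 (by linarith)
  have hE : 0 < Real.exp (-(τ / 4)) := Real.exp_pos _
  have hK0 : 0 ≤ K := abs_nonneg _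
  calc (√(Real.cosh d))⁻¹ * Real.exp (-(τ / 2)) * |c0 - Real.log (Real.cosh d) - τ|
      ≤ 1 * Real.exp (-(τ / 2)) * (K + τ) := by
        apply mul_le_mul (mul_le_mul_of_nonneg_right h1 (Real.exp_pos _).le) h2 (abs_nonneg _)
        positivity
    _ = Real.exp (-(τ / 4)) * (K * Real.exp (-(τ / 4)) + τ * Real.exp (-(τ / 4))) := by
        rw [h3]; ring
    _ ≤ Real.exp (-(τ / 4)) * (K + 4) := by
        apply mul_le_mul_of_nonneg_left _ hE.le
        nlinarith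
    _ = _ := by ring

lemma cont_Nr (h1 : tN) (d : ℝ) : Continuous (fun τ => Nr d τ (1 / 2)) := by
  have h := h1.2.2.2.1
  have hL : ∀ x : ℝ, Real.cosh d ≠ 0 := fun _ => (Real.cosh_pos d).ne'
  have hc : Continuous (fun τ : ℝ =>
      (((Real.exp τ * Real.tanh d, Real.exp τ / Real.cosh d), (1 / 2 : ℂ)) : (ℝ × ℝ) × ℂ)) := by
    refine Continuous.prodMk (Continuous.prodMk (by fun_prop) ?_) continuous_const
    exact Continuous.div (by fun_prop) continuous_const hL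
  exact h.comp_continuous hc (fun τ => div_pos (Real.exp_pos _) (Real.cosh_pos d))

lemma Nr_bound (h1 : tN) (d : ℝ) : ∃ C, 0 < C ∧ ∀ τ : ℝ, 0 ≤ τ →
    ‖Nr d τ (1 / 2)‖ ≤ C * Real.exp (-(τ / 4)) := by
  have hL : 0 < Real.cosh d := Real.cosh_pos d
  obtain ⟨C, c, hC, hc, hb⟩ := h1.2.1 1 0 (1 / Real.cosh d) one_pos le_rfl
    (by positivity) (by positivity)
  refine ⟨C * (Real.cosh d / c), by positivity, fun τ hτ => ?_⟩
  have h2 := hb (Real.exp τ * Real.tanh d) (Real.exp τ / Real.cosh d) (1 / 2)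
    (by norm_num [abs_le]) (div_le_div_of_nonneg_right (Real.one_le_exp hτ) hL.le)
  have h3 : ‖Nr d τ (1 / 2)‖ ≤ C * Real.exp (-(c * (Real.exp τ / Real.cosh d))) := by
    simpa [Nr] using h2
  refine h3.trans ?_
  rw [mul_assoc]
  refine mul_le_mul_of_nonneg_left ?_ hC.le
  set x := c * (Real.exp τ / Real.cosh d) with hx
  have hxp : 0 < x := by positivity
  have h4 : Real.exp (-x) ≤ x⁻¹ := by
    rw [Real.exp_neg]
    apply inv_anti₀ hxp
    linarith [Real.add_one_le_exp x]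
  have h5 : x⁻¹ = Real.cosh d / c * Real.exp (-τ) := by
    rw [hx, Real.exp_neg]
    field_simp
  rw [h5] at h4
  refine h4.trans (mul_le_mul_of_nonneg_left ?_ (by positivity))
  exact Real.exp_le_exp.2 (by linarith)

lemma integrableOn_of_bound {F : ℝ → ℂ} (hF : Continuous F) {C : ℝ}
    (hb : ∀ τ, 0 ≤ τ → ‖F τ‖ ≤ C * Real.exp (-(τ / 4))) : IntegrableOn F (Ioi 0) := by
  have h1 : IntegrableOn (fun τ : ℝ => C * Real.exp (-(τ / 4))) (Ioi 0) := by
    have := (exp_neg_integrableOn_Ioi (0 : ℝ) (b := 1 / 4) (by norm_num)).const_mul C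
    refine this.congr (Eventually.of_forall fun τ => ?_)
    simp only
    congr 2
    ring
  refine Integrable.mono' h1 hF.aestronglyMeasurable ?_
  rw [ae_restrict_iff' measurableSet_Ioi]
  exact Eventually.of_forall fun τ hτ => hb τ (le_of_lt hτ)

lemma norm_cosh_le (u τ : ℝ) : ‖Complex.cosh ((u * I) * τ)‖ ≤ 1 := by
  have : Complex.cosh ((u * I) * τ) = ((Real.cos (u * τ) : ℝ) : ℂ) := by
    have e : (u * I) * (τ : ℂ) = ((u * τ : ℝ) : ℂ) * I := by push_cast; ring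
    rw [e, Complex.cosh_mul_I, ← Complex.ofReal_cos]
  rw [this, Complex.norm_real, Real.norm_eq_abs]
  exact Real.abs_cos_le_one _

lemma lap1 {a : ℂ} (ha : 0 < a.re) :
    IntegrableOn (fun τ : ℝ => Complex.exp (-(a * τ))) (Ioi 0) ∧
    ∫ τ in Ioi (0 : ℝ), Complex.exp (-(a * τ)) = 1 / a := by
  have h1 := integrableOn_exp_mul_complex_Ioi (a := -a) (by simpa using ha) 0
  have h2 := integral_exp_mul_complex_Ioi (a := -a) (by simpa using ha) 0
  have e : ∀ τ : ℝ, -a * (τ : ℂ) = -(a * τ) := fun τ => by ring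
  simp_rw [e] at h1 h2
  refine ⟨h1, ?_⟩
  rw [h2]
  simp

lemma lap2 {a : ℂ} (ha : 0 < a.re) :
    IntegrableOn (fun τ : ℝ => (τ : ℂ) * Complex.exp (-(a * τ))) (Ioi 0) ∧
    ∫ τ in Ioi (0 : ℝ), (τ : ℂ) * Complex.exp (-(a * τ)) = 1 / a ^ 2 := by
  have ha0 : a ≠ 0 := fun h => by simp [h] at ha
  have hint : IntegrableOn (fun τ : ℝ => (τ : ℂ) * Complex.exp (-(a * τ))) (Ioi 0) := by
    have h1 : IntegrableOn (fun x : ℝ => x ^ (1 : ℝ) * Real.exp (-a.re * x ^ (1 : ℝ))) (Ioi 0) :=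
      integrableOn_rpow_mul_exp_neg_mul_rpow (by norm_num) one_pos ha
    refine Integrable.mono' h1 (by fun_prop) ?_
    rw [ae_restrict_iff' measurableSet_Ioi]
    refine Eventually.of_forall fun τ hτ => ?_
    rw [norm_mul, Complex.norm_real, Real.norm_eq_abs, abs_of_pos hτ, Complex.norm_exp,
      Real.rpow_one]
    simp
  refine ⟨hint, ?_⟩
  obtain ⟨i1, -⟩ := lap1 ha
  set F : ℝ → ℂ := fun τ => -(1 / a) * ((τ : ℂ) * Complex.exp (-(a * τ))) -
    1 / a ^ 2 * Complex.exp (-(a * τ)) with hF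
  have hd : ∀ x : ℝ, HasDerivAt F ((x : ℂ) * Complex.exp (-(a * x))) x := by
    intro x
    have e0 : HasDerivAt (fun τ : ℝ => (τ : ℂ)) 1 x := Complex.ofRealCLM.hasDerivAt
    have e1 : HasDerivAt (fun τ : ℝ => Complex.exp (-(a * τ)))
        (Complex.exp (-(a * x)) * (-(a * 1))) x := ((e0.const_mul a).neg).cexp
    have e2 := ((e0.mul e1).const_mul (-(1 / a))).sub (e1.const_mul (1 / a ^ 2))
    refine e2.congr_deriv ?_
    field_simp
    ring
  have hFi : IntegrableOn F (Ioi 0) := (hint.const_mul _).sub (i1.const_mul _)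
  have hlim : Tendsto F atTop (𝓝 0) :=
    tendsto_zero_of_hasDerivAt_of_integrableOn_Ioi (a := 0) (fun x _ => hd x) hint hFi
  rw [integral_Ioi_of_hasDerivAt_of_tendsto' (fun x _ => hd x) hint hlim, hF]
  simp

lemma qf_real (d : ℝ) : qf d = (((√(Real.cosh d))⁻¹ : ℝ) : ℂ) := by
  unfold qf
  have hL : 0 < Real.cosh d := Real.cosh_pos d
  rw [← Complex.ofReal_cosh, show (-(1 / 2) : ℂ) = ((-(1 / 2) : ℝ) : ℂ) by push_cast; ring,
    ← Complex.ofReal_cpow hL.le]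
  congr 1
  rw [Real.rpow_neg hL.le, ← Real.sqrt_eq_rpow]

lemma cpr_real (d : ℝ) : cpr d = ((c0 - Real.log (Real.cosh d) : ℝ) : ℂ) := by
  unfold cpr
  rw [← Complex.ofReal_cosh, ← Complex.ofReal_log (Real.cosh_pos d).le]
  push_cast
  ring

/-- the transform of the constant term -/
lemma mm_transform (d u : ℝ) :
    2 * ∫ τ in Ioi (0 : ℝ), ((mm (Real.exp (-τ) / Real.cosh d) : ℝ) : ℂ) *
      Complex.cosh ((u * I) * τ) =
    qf d * (cpr d * (1 / (1 / 2 - u * I) + 1 / (1 / 2 + u * I))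
      - (1 / (1 / 2 - u * I) ^ 2 + 1 / (1 / 2 + u * I) ^ 2)) := by
  have ha : 0 < (1 / 2 - u * I : ℂ).re := by norm_num
  have hb : 0 < (1 / 2 + u * I : ℂ).re := by norm_num
  obtain ⟨i1, e1⟩ := lap1 ha
  obtain ⟨i2, e2⟩ := lap1 hb
  obtain ⟨i3, e3⟩ := lap2 ha
  obtain ⟨i4, e4⟩ := lap2 hb
  have j1 : IntegrableOn (fun τ : ℝ => cpr d * (Complex.exp (-((1 / 2 - u * I) * τ)) +
      Complex.exp (-((1 / 2 + u * I) * τ)))) (Ioi 0) := (i1.add i2).const_mul _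
  have j2 : IntegrableOn (fun τ : ℝ => (τ : ℂ) * Complex.exp (-((1 / 2 - u * I) * τ)) +
      (τ : ℂ) * Complex.exp (-((1 / 2 + u * I) * τ))) (Ioi 0) := i3.add i4
  rw [← e1, ← e2, ← e3, ← e4, ← integral_add i1 i2, ← integral_add i3 i4,
    ← integral_const_mul (cpr d), ← integral_sub j1 j2,
    ← integral_const_mul, ← integral_const_mul]
  refine setIntegral_congr_fun measurableSet_Ioi fun τ _ => ?_
  rw [mm_eq, qf_real, cpr_real, Complex.cosh]
  have k1 : Complex.exp (-((1 / 2 - u * I) * τ)) =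
      Complex.exp (-(τ / 2)) * Complex.exp ((u * I) * τ) := by
    rw [← Complex.exp_add]; ring_nf
  have k2 : Complex.exp (-((1 / 2 + u * I) * τ)) =
      Complex.exp (-(τ / 2)) * Complex.exp (-((u * I) * τ)) := by
    rw [← Complex.exp_add]; ring_nf
  rw [k1, k2]
  push_cast
  ring

lemma zeta_pair (u : ℝ) : riemannZeta (1 / 2 + u * I) * riemannZeta (1 / 2 - u * I) =
    ((‖zh u‖ ^ 2 : ℝ) : ℂ) := by
  have h1 : (1 / 2 - u * I : ℂ) = (starRingEnd ℂ) (1 / 2 + u * I) := by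
    apply Complex.ext <;> simp
  rw [h1, riemannZeta_conj, Complex.mul_conj, Complex.normSq_eq_norm_sq]
  rfl

/-- the transform of `g` -/
lemma g_transform (h1 : tN) (h2 : tSTARH) (d u : ℝ) :
    2 * ∫ τ in Ioi (0 : ℝ), g d τ * Complex.cosh ((u * I) * τ) =
      ((‖zh u‖ ^ 2 : ℝ) : ℂ) * jf u d := by
  have hs := h2 d (u * I) (by simp)
  obtain ⟨C1, hC1, hb1⟩ := Nr_bound h1 d
  obtain ⟨C2, hC2, hb2⟩ := mm_bound d
  have i1 : IntegrableOn (fun τ : ℝ => Nr d τ (1 / 2) * Complex.cosh ((u * I) * τ)) (Ioi 0) := by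
    refine integrableOn_of_bound (C := C1) ((cont_Nr h1 d).mul (by fun_prop)) fun τ hτ => ?_
    rw [norm_mul]
    calc ‖Nr d τ (1 / 2)‖ * ‖Complex.cosh ((u * I) * τ)‖ ≤ ‖Nr d τ (1 / 2)‖ * 1 :=
          mul_le_mul_of_nonneg_left (norm_cosh_le u τ) (norm_nonneg _)
      _ ≤ _ := by rw [mul_one]; exact hb1 τ hτ
  have i2 : IntegrableOn (fun τ : ℝ => ((mm (Real.exp (-τ) / Real.cosh d) : ℝ) : ℂ) *
      Complex.cosh ((u * I) * τ)) (Ioi 0) := by
    refine integrableOn_of_bound (C := C2)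
      ((Complex.continuous_ofReal.comp (cont_mm d)).mul (by fun_prop)) fun τ hτ => ?_
    rw [norm_mul, Complex.norm_real, Real.norm_eq_abs]
    calc |mm (Real.exp (-τ) / Real.cosh d)| * ‖Complex.cosh ((u * I) * τ)‖
          ≤ |mm (Real.exp (-τ) / Real.cosh d)| * 1 :=
          mul_le_mul_of_nonneg_left (norm_cosh_le u τ) (abs_nonneg _)
      _ ≤ _ := by rw [mul_one]; exact hb2 τ hτ
  rw [← mm_transform d u, zeta_pair] at hs
  unfold jf
  rw [← hs, ← mul_sub, ← integral_sub i1 i2]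
  congr 1
  refine setIntegral_congr_fun measurableSet_Ioi fun τ _ => ?_
  simp only [g]
  ring

lemma g_im (h1 : tN) (d τ : ℝ) : (g d τ).im = 0 := by
  unfold g Nr
  rw [Complex.sub_im, h1.2.2.2.2.2.2, Complex.ofReal_im, sub_zero]

lemma g_sq (h1 : tN) (d τ : ℝ) : g d τ ^ 2 = ((‖g d τ‖ ^ 2 : ℝ) : ℂ) := by
  have h := g_im h1 d τ
  have h2 : g d τ = ((g d τ).re : ℂ) := Complex.ext (by simp) (by simp [h])
  rw [h2, Complex.norm_real, Real.norm_eq_abs, sq_abs]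
  push_cast
  rfl

lemma phi_sq (h1 : tN) (h2 : tSTARH) (d u : ℝ) :
    (((‖zh u‖ ^ 2 : ℝ) : ℂ) * jf u d) ^ 2 = ((‖((‖zh u‖ ^ 2 : ℝ) : ℂ) * jf u d‖ ^ 2 : ℝ) : ℂ) := by
  have h : (2 * ∫ τ in Ioi (0 : ℝ), g d τ * Complex.cosh ((u * I) * τ)) =
      ((2 * ∫ τ in Ioi (0 : ℝ), (g d τ).re * Real.cos (u * τ) : ℝ) : ℂ) := by
    push_cast
    congr 1
    rw [← integral_complex_ofReal]
    refine setIntegral_congr_fun measurableSet_Ioi fun τ _ => ?_
    have e : (u * I) * (τ : ℂ) = ((u * τ : ℝ) : ℂ) * I := by push_cast; ring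
    rw [e, Complex.cosh_mul_I]
    have h2 : g d τ = ((g d τ).re : ℂ) := Complex.ext (by simp) (by simp [g_im h1 d τ])
    conv_lhs => rw [h2]
    push_cast
    rfl
  rw [← g_transform h1 h2 d u, h, Complex.norm_real, Real.norm_eq_abs, sq_abs]
  push_cast
  rfl

/-- even integrals -/
lemma integral_even {F : ℝ → ℂ} (hF : Integrable F) :
    ∫ x, F x = ∫ x in Ioi (0 : ℝ), (F x + F (-x)) := by
  have h1 := intervalIntegral.integral_Iic_add_Ioi (b := (0 : ℝ)) hF.integrableOn hF.integrableOn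
  have h2 := integral_comp_neg_Ioi (0 : ℝ) F
  rw [neg_zero] at h2
  rw [← h1, ← h2, add_comm, integral_add hF.integrableOn (hF.comp_neg).integrableOn]

lemma integrable_abs {F : ℝ → ℂ} (hF : Continuous F) {C : ℝ}
    (hb : ∀ τ, 0 ≤ τ → ‖F τ‖ ≤ C * Real.exp (-(τ / 4))) : Integrable (fun x => F |x|) := by
  have h1 := integrableOn_of_bound hF hb
  have h2 : IntegrableOn (fun x => F |x|) (Ioi 0) := by
    refine h1.congr_fun (fun x hx => ?_) measurableSet_Ioi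
    rw [abs_of_pos hx]
  have h3 : IntegrableOn (fun x => F |x|) (Iic 0) := by
    rw [← Measure.map_neg_eq_self (volume : Measure ℝ)]
    let m : MeasurableEmbedding fun x : ℝ => -x := (Homeomorph.neg ℝ).measurableEmbedding
    rw [m.integrableOn_map_iff]
    simp_rw [Function.comp_def, abs_neg, neg_preimage, neg_Iic, neg_zero]
    exact Iff.mpr integrableOn_Ici_iff_integrableOn_Ioi h2
  rw [← integrableOn_univ, ← Iic_union_Ioi (a := (0 : ℝ))]
  exact h3.union h2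

lemma g_cont (h1 : tN) (d : ℝ) : Continuous (g d) :=
  (cont_Nr h1 d).sub (Complex.continuous_ofReal.comp (cont_mm d))

lemma g_bound (h1 : tN) (d : ℝ) : ∃ C, 0 < C ∧ ∀ τ : ℝ, 0 ≤ τ →
    ‖g d τ‖ ≤ C * Real.exp (-(τ / 4)) := by
  obtain ⟨C1, hC1, hb1⟩ := Nr_bound h1 d
  obtain ⟨C2, hC2, hb2⟩ := mm_bound d
  refine ⟨C1 + C2, by positivity, fun τ hτ => ?_⟩
  unfold g
  refine (norm_sub_le _ _).trans ?_
  rw [Complex.norm_real, Real.norm_eq_abs, add_mul]
  exact add_le_add (hb1 τ hτ) (hb2 τ hτ)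

/-- the Fourier transform -/
lemma fourier_g (h1 : tN) (h2 : tSTARH) (d ξ : ℝ) : 𝓕 (fun x : ℝ => g d |x|) ξ =
    ((‖zh (2 * Real.pi * ξ)‖ ^ 2 : ℝ) : ℂ) * jf (2 * Real.pi * ξ) d := by
  obtain ⟨C, hC, hb⟩ := g_bound h1 d
  have hf1 : Integrable (fun x : ℝ => g d |x|) := integrable_abs (g_cont h1 d) hb
  rw [Real.fourier_real_eq_integral_exp_smul, ← g_transform h1 h2 d (2 * Real.pi * ξ)]
  have hFi : Integrable (fun v : ℝ => Complex.exp (↑(-2 * Real.pi * v * ξ) * I) • g d |v|) := by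
    refine hf1.norm.mono' ?_ ?_
    · refine Continuous.aestronglyMeasurable ?_
      have := g_cont h1 d
      fun_prop
    · refine Eventually.of_forall fun v => ?_
      rw [norm_smul, Complex.norm_exp_ofReal_mul_I, one_mul]
  rw [integral_even hFi, ← integral_const_mul]
  refine setIntegral_congr_fun measurableSet_Ioi fun τ hτ => ?_
  have hτ' : |τ| = τ := abs_of_pos hτ
  simp only [smul_eq_mul, abs_neg, hτ']
  rw [Complex.cosh]
  have k1 : (↑(-2 * Real.pi * τ * ξ) * I : ℂ) = -(↑(2 * Real.pi * ξ) * I * τ) := by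
    push_cast; ring
  have k2 : (↑(-2 * Real.pi * -τ * ξ) * I : ℂ) = ↑(2 * Real.pi * ξ) * I * τ := by
    push_cast; ring
  rw [k1, k2]
  ring

lemma plan_sq {f : ℝ → ℂ} (h1 : Integrable f) (h2 : MemLp f 2) :
    ∫ ξ, ‖𝓕 f ξ‖ ^ 2 = ∫ x, ‖f x‖ ^ 2 := by
  have h := Pool.Agent.H25.Plancherel.eLpNorm_fourier_eq h1 h2
  rw [eLpNorm_eq_lintegral_rpow_enorm_toReal (by norm_num) (by norm_num),
    eLpNorm_eq_lintegral_rpow_enorm_toReal (by norm_num) (by norm_num)] at h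
  simp only [ENNReal.toReal_ofNat, ENNReal.rpow_ofNat] at h
  have h3 : ∫⁻ ξ, ‖𝓕 f ξ‖ₑ ^ 2 = ∫⁻ x, ‖f x‖ₑ ^ 2 :=
    ENNReal.rpow_left_injective (by norm_num) h
  have e1 : ∀ z : ℂ, ‖z‖ₑ ^ 2 = ENNReal.ofReal (‖z‖ ^ 2) := by
    intro z
    rw [← ofReal_norm, ENNReal.ofReal_pow (norm_nonneg _)]
  simp_rw [e1] at h3
  have hcont : Continuous (𝓕 f) := VectorFourier.fourierIntegral_continuous (V := ℝ) (W := ℝ)
    Real.continuous_fourierChar (L := innerₗ ℝ) continuous_inner h1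
  have k1 : AEStronglyMeasurable (fun ξ => ‖𝓕 f ξ‖ ^ 2) volume :=
    (hcont.norm.pow 2).aestronglyMeasurable
  have k2 : AEStronglyMeasurable (fun x => ‖f x‖ ^ 2) volume := h1.aestronglyMeasurable.norm.pow 2
  rw [integral_eq_lintegral_of_nonneg_ae (Eventually.of_forall fun _ => by positivity) k1,
    integral_eq_lintegral_of_nonneg_ae (Eventually.of_forall fun _ => by positivity) k2, h3]

end EPLAN_

open EPLAN_ in
theorem pPLAN (h1 : tN) (h2 : tSTARH) (_h3 : tJU) : tPLAN := by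
  intro d
  obtain ⟨C, hC, hb⟩ := g_bound h1 d
  have hf1 : Integrable (fun x : ℝ => g d |x|) := integrable_abs (g_cont h1 d) hb
  have hf2 : MemLp (fun x : ℝ => g d |x|) 2 := by
    rw [memLp_two_iff_integrable_sq_norm hf1.aestronglyMeasurable]
    refine Integrable.mono' (hf1.norm.const_mul C) (hf1.aestronglyMeasurable.norm.pow 2)
      (Eventually.of_forall fun x => ?_)
    rw [Real.norm_of_nonneg (by positivity), sq]
    refine mul_le_mul_of_nonneg_right ?_ (norm_nonneg _)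
    refine (hb |x| (abs_nonneg x)).trans ?_
    have : Real.exp (-(|x| / 4)) ≤ 1 := Real.exp_le_one_iff.2 (by linarith [abs_nonneg x])
    nlinarith
  set Φ : ℝ → ℂ := fun u => ((‖zh u‖ ^ 2 : ℝ) : ℂ) * jf u d with hΦ
  have hP := plan_sq hf1 hf2
  have hl : ∫ ξ, ‖𝓕 (fun x : ℝ => g d |x|) ξ‖ ^ 2 = (1 / (2 * Real.pi)) * ∫ u, ‖Φ u‖ ^ 2 := by
    have e : ∀ ξ, 𝓕 (fun x : ℝ => g d |x|) ξ = Φ (2 * Real.pi * ξ) := fourier_g h1 h2 d
    simp_rw [e]
    rw [Measure.integral_comp_mul_left (fun u => ‖Φ u‖ ^ 2) (2 * Real.pi),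
      abs_of_pos (inv_pos.2 (by positivity)), smul_eq_mul, one_div]
  have hr : ∫ x : ℝ, ‖g d |x|‖ ^ 2 = 2 * ∫ τ in Ioi (0 : ℝ), ‖g d τ‖ ^ 2 :=
    integral_comp_abs (f := fun x => ‖g d x‖ ^ 2)
  rw [hl, hr] at hP
  have hPc := congrArg (fun x : ℝ => (x : ℂ)) hP
  simp only [Complex.ofReal_mul] at hPc
  rw [← integral_complex_ofReal, ← integral_complex_ofReal] at hPc
  have e1 : ∫ τ in Ioi (0 : ℝ), (Nr d τ (1 / 2) -
      (mm (Real.exp (-τ) / Real.cosh d) : ℝ)) ^ 2 =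
      ∫ τ in Ioi (0 : ℝ), ((‖g d τ‖ ^ 2 : ℝ) : ℂ) := by
    refine setIntegral_congr_fun measurableSet_Ioi fun τ _ => ?_
    exact g_sq h1 d τ
  have e2 : P1 d = ((1 / (2 * Real.pi) : ℝ) : ℂ) * ∫ u, ((‖Φ u‖ ^ 2 : ℝ) : ℂ) := by
    unfold P1
    congr 1
    refine integral_congr_ae (Eventually.of_forall fun u => ?_)
    simp only [hΦ]
    rw [← phi_sq h1 h2 d u, mul_pow, ← Complex.ofReal_pow, ← pow_mul]
  rw [e1, e2, hPc]
  norm_num

end FMZ
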