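import Pool.Agent.FMZ.TE

/-!
# FMZ: the Dirichlet series of d(n)^2 (job FMZ-E12)
-/

set_option autoImplicit false

open Complex Finset ArithmeticFunction
open scoped ArithmeticFunction.sigma ArithmeticFunction.zeta

namespace FMZ.ERAM_

/-- the indicator function of the squares -/
noncomputable def sq : ArithmeticFunction ℕ := by
  classical
  exact ⟨fun n => if n ≠ 0 ∧ IsSquare n then 1 else 0, by simp⟩

open Classical in
theorem sq_apply (n : ℕ) : sq n = if n ≠ 0 ∧ IsSquare n then 1 else 0 := rfl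

theorem isSquare_mul_iff {m n : ℕ} (h : m.Coprime n) :
    IsSquare (m * n) ↔ IsSquare m ∧ IsSquare n := by
  constructor
  · rintro ⟨c, hc⟩
    rw [← pow_two] at hc
    have h1 : IsUnit (gcd m n) := by
      have : gcd m n = 1 := h
      rw [this]
      exact isUnit_one
    have h2 : IsUnit (gcd n m) := by
      have : gcd n m = 1 := h.symm
      rw [this]
      exact isUnit_one
    obtain ⟨d, hd⟩ := exists_eq_pow_of_mul_eq_pow h1 hc
    obtain ⟨e, he⟩ := exists_eq_pow_of_mul_eq_pow h2 (by rw [mul_comm]; exact hc)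
    exact ⟨⟨d, by rw [hd, pow_two]⟩, ⟨e, by rw [he, pow_two]⟩⟩
  · rintro ⟨h1, h2⟩
    exact h1.mul h2

theorem isMul_sq : sq.IsMultiplicative := by
  classical
  rw [IsMultiplicative.iff_ne_zero]
  refine ⟨?_, ?_⟩
  · rw [sq_apply, if_pos ⟨one_ne_zero, ⟨1, rfl⟩⟩]
  · intro m n hm hn h
    rw [sq_apply, sq_apply, sq_apply]
    have h3 := isSquare_mul_iff h
    by_cases h1 : IsSquare m
    · by_cases h2 : IsSquare n
      · simp [h1, h2, hm, hn, h3]
      · simp [h1, h2, h3]
    · simp [h1, h3]

theorem isSquare_prime_pow {p : ℕ} (hp : p.Prime) (i : ℕ) : IsSquare (p ^ i) ↔ Even i := by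
  constructor
  · rintro ⟨c, hc⟩
    have h1 : c ∣ p ^ i := ⟨c, hc⟩
    obtain ⟨j, -, rfl⟩ := (Nat.dvd_prime_pow hp).mp h1
    rw [← pow_add] at hc
    exact ⟨j, Nat.pow_right_injective hp.two_le hc⟩
  · rintro ⟨j, rfl⟩
    exact ⟨p ^ j, by rw [pow_add]⟩

theorem sq_prime_pow {p : ℕ} (hp : p.Prime) (i : ℕ) : sq (p ^ i) = if Even i then 1 else 0 := by
  classical
  rw [sq_apply]
  have h0 : p ^ i ≠ 0 := pow_ne_zero _ hp.ne_zero
  by_cases h : Even i
  · rw [if_pos h, if_pos ⟨h0, (isSquare_prime_pow hp i).mpr h⟩]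
  · rw [if_neg h, if_neg (fun hh => h ((isSquare_prime_pow hp i).mp hh.2))]

theorem mul_prime_pow (f g : ArithmeticFunction ℕ) {p : ℕ} (hp : p.Prime) (k : ℕ) :
    (f * g) (p ^ k) = ∑ i ∈ Finset.range (k + 1), f (p ^ (k - i)) * g (p ^ i) := by
  rw [ArithmeticFunction.mul_apply, Nat.sum_divisorsAntidiagonal' (fun a b => f a * g b),
    Nat.divisors_prime_pow hp, Finset.sum_map]
  refine Finset.sum_congr rfl (fun i hi => ?_)
  simp only [Function.Embedding.coeFn_mk]
  rw [Finset.mem_range] at hi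
  rw [Nat.pow_div (by omega) hp.pos]

theorem comb (k : ℕ) : ∑ i ∈ Finset.range (k + 1), (k - i + 1) ^ 2 * (if Even i then 1 else 0) =
    ∑ i ∈ Finset.range (k + 1), (k - i + 1) * (i + 1) := by
  have step : ∀ k : ℕ, ∑ i ∈ Finset.range (k + 3), (k + 2 - i + 1) ^ 2 *
      (if Even i then 1 else 0) = ∑ i ∈ Finset.range (k + 1), (k - i + 1) ^ 2 *
      (if Even i then 1 else 0) + (k + 3) ^ 2 := by
    intro k
    rw [Finset.sum_range_succ', Finset.sum_range_succ']
    have e : ∀ i, (k + 2 - (i + 1 + 1) + 1) ^ 2 * (if Even (i + 1 + 1) then 1 else 0) =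
        (k - i + 1) ^ 2 * (if Even i then 1 else 0) := by
      intro i
      have h1 : k + 2 - (i + 1 + 1) = k - i := by omega
      have h2 : Even (i + 1 + 1) ↔ Even i := by
        rw [Nat.even_add_one, Nat.even_add_one, not_not]
      rw [h1]
      simp only [h2]
    simp only [e]
    simp
  have tri : ∀ k : ℕ, 6 * ∑ i ∈ Finset.range (k + 1), (k - i + 1) * (i + 1) =
      (k + 1) * (k + 2) * (k + 3) := by
    intro k
    induction k with
    | zero => simp
    | succ k ih =>
      have e : ∑ i ∈ Finset.range (k + 2), (k + 1 - i + 1) * (i + 1) =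
          ∑ i ∈ Finset.range (k + 1), (k - i + 1) * (i + 1) + ∑ i ∈ Finset.range (k + 2), (i + 1) := by
        rw [Finset.sum_range_succ, Finset.sum_range_succ (fun i => i + 1), ← add_assoc,
          ← Finset.sum_add_distrib]
        congr 1
        · refine Finset.sum_congr rfl (fun i hi => ?_)
          rw [Finset.mem_range] at hi
          have : k + 1 - i + 1 = (k - i + 1) + 1 := by omega
          rw [this]
          ring
        · simp
      have g : 2 * ∑ i ∈ Finset.range (k + 2), (i + 1) = (k + 2) * (k + 3) := by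
        rw [Finset.sum_add_distrib, mul_add, mul_comm 2 (∑ i ∈ Finset.range (k + 2), i),
          Finset.sum_range_id_mul_two]
        simp
        ring
      rw [show k + 1 + 1 = k + 2 from rfl, e, mul_add, ih]
      have : 6 * ∑ i ∈ Finset.range (k + 2), (i + 1) = 3 * ((k + 2) * (k + 3)) := by
        rw [← g]
        ring
      rw [this]
      ring
  have main : ∀ k : ℕ, 6 * ∑ i ∈ Finset.range (k + 1), (k - i + 1) ^ 2 *
      (if Even i then 1 else 0) = (k + 1) * (k + 2) * (k + 3) := by
    intro k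
    induction k using Nat.twoStepInduction with
    | zero => decide
    | one => decide
    | more k ih _ =>
      rw [show k + 2 + 1 = k + 3 from rfl, step k, mul_add, ih]
      ring
  have h1 := main k
  have h2 := tri k
  omega

/-- Ramanujan's identity -/
theorem ram : (pmul (σ 0) (σ 0)) * sq = (σ 0) * (σ 0) := by
  rw [((isMultiplicative_sigma.pmul isMultiplicative_sigma).mul isMul_sq).eq_iff_eq_on_prime_powers _
    _ (isMultiplicative_sigma.mul isMultiplicative_sigma)]
  intro p k hp
  rw [mul_prime_pow _ _ hp, mul_prime_pow _ _ hp]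
  simp only [pmul_apply, sigma_zero_apply_prime_pow hp, sq_prime_pow hp]
  rw [← comb k]
  refine Finset.sum_congr rfl (fun i _ => ?_)
  ring

theorem ramC : (((pmul (σ 0) (σ 0) : ArithmeticFunction ℕ) : ArithmeticFunction ℂ)) *
    ((sq : ArithmeticFunction ℕ) : ArithmeticFunction ℂ) =
    ((ζ : ArithmeticFunction ℂ) * (ζ : ArithmeticFunction ℂ)) *
      ((ζ : ArithmeticFunction ℂ) * (ζ : ArithmeticFunction ℂ)) := by
  have h := ram
  have h2 : (σ 0 : ArithmeticFunction ℕ) = ζ * ζ := by
    rw [← zeta_mul_pow_eq_sigma, pow_zero_eq_zeta]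
  have h3 : (((pmul (σ 0) (σ 0)) * sq : ArithmeticFunction ℕ) : ArithmeticFunction ℂ) =
      (((ζ * ζ) * (ζ * ζ) : ArithmeticFunction ℕ) : ArithmeticFunction ℂ) := by
    rw [h, h2]
  rw [natCoe_mul, natCoe_mul, natCoe_mul] at h3
  exact h3

theorem sumz {s : ℂ} (hs : 1 < s.re) :
    LSeriesSummable (fun n => (ζ : ArithmeticFunction ℂ) n) s := by
  have := LSeriesSummable_zeta_iff.mpr hs
  simpa using this

theorem lz {s : ℂ} (hs : 1 < s.re) :
    LSeries (fun n => (ζ : ArithmeticFunction ℂ) n) s = riemannZeta s := by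
  have := LSeries_zeta_eq_riemannZeta hs
  simpa using this

theorem sum_sq {s : ℂ} (hs : 1 < s.re) :
    LSeriesSummable (fun n => ((sq : ArithmeticFunction ℕ) : ArithmeticFunction ℂ) n) s := by
  classical
  refine Summable.of_norm_bounded (sumz hs).norm (fun n => ?_)
  refine LSeries.norm_term_le s ?_
  rcases eq_or_ne n 0 with rfl | hn
  · simp
  · rw [natCoe_apply, natCoe_apply, zeta_apply_ne hn, sq_apply]
    split_ifs
    · simp
    · simp

theorem sum_t {s : ℂ} (hs : 1 < s.re) :
    LSeriesSummable (fun n => ((pmul (σ 0) (σ 0) : ArithmeticFunction ℕ) :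
      ArithmeticFunction ℂ) n) s := by
  classical
  have h1 := LSeriesSummable_mul (LSeriesSummable_mul (sumz hs) (sumz hs))
    (LSeriesSummable_mul (sumz hs) (sumz hs))
  rw [← ramC, ← natCoe_mul] at h1
  refine Summable.of_norm_bounded h1.norm (fun n => ?_)
  refine LSeries.norm_term_le s ?_
  rcases eq_or_ne n 0 with rfl | hn
  · simp
  · rw [natCoe_apply, natCoe_apply, Complex.norm_natCast, Complex.norm_natCast]
    have h2 : (pmul (σ 0) (σ 0) : ArithmeticFunction ℕ) n ≤
        ((pmul (σ 0) (σ 0)) * sq : ArithmeticFunction ℕ) n := by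
      rw [ArithmeticFunction.mul_apply]
      refine le_trans (le_of_eq ?_) (Finset.single_le_sum (f := fun x : ℕ × ℕ =>
        (pmul (σ 0) (σ 0) : ArithmeticFunction ℕ) x.1 * sq x.2) (fun _ _ => Nat.zero_le _)
        (show (n, 1) ∈ n.divisorsAntidiagonal by simp [hn]))
      have : sq 1 = 1 := isMul_sq.map_one
      simp only [this, mul_one]
    exact_mod_cast h2

theorem lsq {s : ℂ} (hs : 1 < s.re) :
    LSeries (fun n => ((sq : ArithmeticFunction ℕ) : ArithmeticFunction ℂ) n) s =
      riemannZeta (2 * s) := by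
  classical
  have hs2 : 1 < (2 * s).re := by
    simp only [Complex.mul_re, Complex.re_ofNat, Complex.im_ofNat, zero_mul, sub_zero]
    linarith
  rw [← lz hs2]
  unfold LSeries
  have hinj : Function.Injective (fun n : ℕ => n ^ 2) := fun a b h => by
    exact Nat.pow_left_injective (two_ne_zero) h
  rw [← hinj.tsum_eq]
  · refine tsum_congr (fun n => ?_)
    rcases eq_or_ne n 0 with rfl | hn
    · simp
    · have hn2 : n ^ 2 ≠ 0 := pow_ne_zero 2 hn
      rw [LSeries.term_of_ne_zero hn2, LSeries.term_of_ne_zero hn]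
      have e1 : ((sq : ArithmeticFunction ℕ) : ArithmeticFunction ℂ) (n ^ 2) = 1 := by
        rw [natCoe_apply, sq_apply, if_pos ⟨hn2, ⟨n, pow_two n⟩⟩]
        simp
      have e2 : (ζ : ArithmeticFunction ℂ) n = 1 := by
        rw [natCoe_apply, zeta_apply_ne hn]
        simp
      have e3 : ((n ^ 2 : ℕ) : ℂ) ^ s = (n : ℂ) ^ (2 * s) := by
        have hn0 : (n : ℂ) ≠ 0 := by exact_mod_cast hn
        rw [pow_two, Nat.cast_mul, Complex.natCast_mul_natCast_cpow, two_mul, Complex.cpow_add _ _ hn0]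
      rw [e1, e2, e3]
  · intro n hn
    rw [Function.mem_support] at hn
    by_contra hcon
    apply hn
    rcases eq_or_ne n 0 with rfl | hn0
    · simp
    · rw [LSeries.term_of_ne_zero hn0]
      have e1 : ((sq : ArithmeticFunction ℕ) : ArithmeticFunction ℂ) n = 0 := by
        rw [natCoe_apply, sq_apply, if_neg]
        · simp
        · rintro ⟨-, ⟨r, hr⟩⟩
          exact hcon ⟨r, by simp only [pow_two]; exact hr.symm⟩
      rw [e1, zero_div]

theorem main : tRAM := by
  intro s hs
  have h1 := sum_t hs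
  have hterm : ∀ n : ℕ, ((n + 1).divisors.card : ℂ) ^ 2 / ((n + 1 : ℕ) : ℂ) ^ s =
      LSeries.term (fun n => ((pmul (σ 0) (σ 0) : ArithmeticFunction ℕ) :
        ArithmeticFunction ℂ) n) s (n + 1) := by
    intro n
    rw [LSeries.term_of_ne_zero (Nat.succ_ne_zero n), natCoe_apply, pmul_apply, sigma_zero_apply]
    push_cast
    ring
  have h2 : Summable (fun n : ℕ => LSeries.term (fun n => ((pmul (σ 0) (σ 0) :
      ArithmeticFunction ℕ) : ArithmeticFunction ℂ) n) s (n + 1)) :=
    (summable_nat_add_iff 1).mpr h1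
  constructor
  · simp only [hterm]
    exact h2.norm
  · simp only [hterm]
    have h3 : ∑' n : ℕ, LSeries.term (fun n => ((pmul (σ 0) (σ 0) :
      ArithmeticFunction ℕ) : ArithmeticFunction ℂ) n) s (n + 1) =
        LSeries (fun n => ((pmul (σ 0) (σ 0) : ArithmeticFunction ℕ) : ArithmeticFunction ℂ) n) s := by
      unfold LSeries
      rw [h1.tsum_eq_zero_add]
      simp
    rw [h3, ← lsq hs, ← LSeries_mul' h1 (sum_sq hs), ramC,
      LSeries_mul' (LSeriesSummable_mul (sumz hs) (sumz hs))
        (LSeriesSummable_mul (sumz hs) (sumz hs)),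
      LSeries_mul' (sumz hs) (sumz hs), lz hs]
    ring

end FMZ.ERAM_

namespace FMZ

/-- job FMZ-E12 -/
theorem pRAM : tRAM := ERAM_.main

end FMZ
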