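import Pool.Agent.FMZ.TE

/-!
# FMZ-E19: ray integrals of the cuspidal part
-/

open Complex MeasureTheory Set Filter Topology

namespace FMZ

namespace ERAY_

/-! ## Fubini -/

lemma fubini {ν : Measure ℝ} [SFinite ν] {F : ℝ → ℝ → ℂ} {g h : ℝ → ℝ}
    (hc : Continuous (fun p : ℝ × ℝ => F p.1 p.2)) (hg : IntegrableOn g (Ioi 0))
    (hh : Integrable h ν) (hb : ∀ τ : ℝ, 0 < τ → ∀ t, ‖F τ t‖ ≤ g τ * h t) :
    IntegrableOn (fun τ => ∫ t, F τ t ∂ν) (Ioi 0) ∧
    Integrable (fun t => ∫ τ in Ioi (0 : ℝ), F τ t) ν ∧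
    ∫ τ in Ioi (0 : ℝ), ∫ t, F τ t ∂ν = ∫ t, (∫ τ in Ioi (0 : ℝ), F τ t) ∂ν := by
  have hI : Integrable (Function.uncurry F) ((volume.restrict (Ioi (0 : ℝ))).prod ν) := by
    refine Integrable.mono' (Integrable.mul_prod hg hh) hc.aestronglyMeasurable ?_
    have h1 : ∀ᵐ τ ∂(volume.restrict (Ioi (0 : ℝ))), 0 < τ := ae_restrict_mem measurableSet_Ioi
    have h2 := (Measure.quasiMeasurePreserving_fst (μ := volume.restrict (Ioi (0 : ℝ)))
      (ν := ν)).ae h1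
    filter_upwards [h2] with z hz
    exact hb z.1 hz z.2
  exact ⟨hI.integral_prod_left, hI.integral_prod_right, integral_integral_swap hI⟩

lemma circ_fubini {r : ℝ} {G : ℝ → ℂ → ℂ} {g : ℝ → ℝ} (hr : 0 ≤ r)
    (hc : Continuous (fun p : ℝ × ℝ => G p.1 (circleMap 1 r p.2))) (hg : IntegrableOn g (Ioi 0))
    (hb : ∀ τ : ℝ, 0 < τ → ∀ s ∈ Metric.sphere (1 : ℂ) r, ‖G τ s‖ ≤ g τ) :
    IntegrableOn (fun τ => ∮ s in C(1, r), G τ s) (Ioi 0) ∧
    CircleIntegrable (fun s => ∫ τ in Ioi (0 : ℝ), G τ s) 1 r ∧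
    ∫ τ in Ioi (0 : ℝ), (∮ s in C(1, r), G τ s) = ∮ s in C(1, r), ∫ τ in Ioi (0 : ℝ), G τ s := by
  have hpi : (0 : ℝ) ≤ 2 * Real.pi := by positivity
  have hone : Integrable (fun _ : ℝ => (1 : ℝ)) (volume.restrict (Ioc 0 (2 * Real.pi))) :=
    integrable_const _
  have hrr : Integrable (fun _ : ℝ => r) (volume.restrict (Ioc 0 (2 * Real.pi))) :=
    integrable_const _
  have h1 := fubini (ν := volume.restrict (Ioc 0 (2 * Real.pi)))
    (F := fun τ θ => G τ (circleMap 1 r θ)) (g := g) (h := fun _ => 1) hc hg hone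
    (fun τ hτ θ => by
      rw [mul_one]
      exact hb τ hτ _ (circleMap_mem_sphere 1 hr θ))
  have hcd : Continuous (fun θ : ℝ => deriv (circleMap 1 r) θ) := by
    have : (fun θ : ℝ => deriv (circleMap 1 r) θ) = fun θ => circleMap 0 r θ * I := by
      funext θ
      exact deriv_circleMap 1 r θ
    rw [this]
    exact (continuous_circleMap 0 r).mul continuous_const
  have h2 := fubini (ν := volume.restrict (Ioc 0 (2 * Real.pi)))
    (F := fun τ θ => deriv (circleMap 1 r) θ • G τ (circleMap 1 r θ)) (g := g) (h := fun _ => r)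
    ((hcd.comp continuous_snd).smul hc) hg hrr
    (fun τ hτ θ => by
      rw [norm_smul, deriv_circleMap]
      have h3 : ‖circleMap 0 r θ * I‖ = r := by
        rw [norm_mul, Complex.norm_I, mul_one, norm_circleMap_zero, abs_of_nonneg hr]
      rw [h3, mul_comm]
      exact mul_le_mul_of_nonneg_right (hb τ hτ _ (circleMap_mem_sphere 1 hr θ)) hr)
  refine ⟨?_, ?_, ?_⟩
  · refine h2.1.congr_fun (fun τ _ => ?_) measurableSet_Ioi
    rw [circleIntegral, intervalIntegral.integral_of_le hpi]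
  · show IntervalIntegrable _ _ _ _
    rw [intervalIntegrable_iff_integrableOn_Ioc_of_le hpi]
    exact h1.2.1
  · have h3 : ∫ τ in Ioi (0 : ℝ), (∮ s in C(1, r), G τ s) = ∫ τ in Ioi (0 : ℝ),
        ∫ θ in Ioc 0 (2 * Real.pi), deriv (circleMap 1 r) θ • G τ (circleMap 1 r θ) := by
      refine setIntegral_congr_fun measurableSet_Ioi fun τ _ => ?_
      rw [circleIntegral, intervalIntegral.integral_of_le hpi]
    rw [h3, h2.2.2, circleIntegral, intervalIntegral.integral_of_le hpi]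
    refine setIntegral_congr_fun measurableSet_Ioc fun θ _ => ?_
    exact integral_smul _ _

/-! ## powers of the height -/

lemma cosh_one_le (d : ℝ) : 1 ≤ Real.cosh d := Real.one_le_cosh d

lemma height_exp (d τ : ℝ) : Real.exp τ / Real.cosh d = Real.exp (τ - Real.log (Real.cosh d)) := by
  rw [Real.exp_sub, Real.exp_log (Real.cosh_pos d)]

lemma cpow_exp (a : ℝ) (s : ℂ) : ((Real.exp a : ℝ) : ℂ) ^ s = Complex.exp (a * s) := by
  rw [Complex.cpow_def_of_ne_zero (by exact_mod_cast (Real.exp_pos a).ne'),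
    ← Complex.ofReal_log (Real.exp_pos a).le, Real.log_exp]

lemma cosh_cpow (d : ℝ) (s : ℂ) : (Real.cosh d : ℂ) ^ s =
    Complex.exp (Real.log (Real.cosh d) * s) := by
  rw [← cpow_exp, Real.exp_log (Real.cosh_pos d)]

lemma height_cpow (d τ : ℝ) (s : ℂ) : ((Real.exp τ / Real.cosh d : ℝ) : ℂ) ^ s =
    Complex.exp (τ * s) * (Real.cosh d : ℂ) ^ (-s) := by
  rw [height_exp, cpow_exp, cosh_cpow, ← Complex.exp_add]
  congr 1
  push_cast
  ring

lemma int_height_neg (d : ℝ) {s : ℂ} (hs : 0 < s.re) :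
    ∫ τ in Ioi (0 : ℝ), ((Real.exp (-τ) / Real.cosh d : ℝ) : ℂ) ^ s =
      (Real.cosh d : ℂ) ^ (-s) / s := by
  have h0 : s ≠ 0 := by
    intro h
    rw [h] at hs
    simp at hs
  have h1 : ∀ τ : ℝ, ((Real.exp (-τ) / Real.cosh d : ℝ) : ℂ) ^ s =
      (Real.cosh d : ℂ) ^ (-s) * Complex.exp (-s * τ) := by
    intro τ
    rw [height_cpow, mul_comm]
    congr 2
    push_cast
    ring
  simp_rw [h1]
  rw [integral_const_mul, integral_exp_mul_complex_Ioi (by simpa using hs)]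
  simp only [Complex.ofReal_zero, mul_zero, Complex.exp_zero]
  field_simp

lemma int_height_pos (d : ℝ) {s : ℂ} (hs : 1 < s.re) :
    ∫ τ in Ioi (0 : ℝ), ((Real.exp τ / Real.cosh d : ℝ) : ℂ) ^ (1 - s) =
      (Real.cosh d : ℂ) ^ (s - 1) / (s - 1) := by
  have h0 : s - 1 ≠ 0 := by
    intro h
    rw [sub_eq_zero] at h
    rw [h] at hs
    simp at hs
  have h1 : ∀ τ : ℝ, ((Real.exp τ / Real.cosh d : ℝ) : ℂ) ^ (1 - s) =
      (Real.cosh d : ℂ) ^ (s - 1) * Complex.exp ((1 - s) * τ) := by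
    intro τ
    rw [height_cpow, mul_comm, mul_comm (τ : ℂ)]
    congr 2
    ring
  have h2 : (1 - s).re < 0 := by
    rw [Complex.sub_re, Complex.one_re]
    linarith
  have h3 : (1 : ℂ) - s ≠ 0 := by
    intro h
    apply h0
    rw [← neg_sub, h, neg_zero]
  simp_rw [h1]
  rw [integral_const_mul, integral_exp_mul_complex_Ioi h2]
  simp only [Complex.ofReal_zero, mul_zero, Complex.exp_zero]
  rw [show -1 / (1 - s) = 1 / (s - 1) by rw [div_eq_div_iff h3 h0]; ring]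
  rw [mul_one_div]

lemma norm_cosh_cpow (d : ℝ) (s : ℂ) : ‖(Real.cosh d : ℂ) ^ s‖ = (Real.cosh d) ^ s.re :=
  Complex.norm_cpow_eq_rpow_re_of_pos (Real.cosh_pos d) s

lemma cosh_cpow_diff (d : ℝ) : Differentiable ℂ (fun s : ℂ => (Real.cosh d : ℂ) ^ s) := by
  have : (fun s : ℂ => (Real.cosh d : ℂ) ^ s) =
      fun s : ℂ => Complex.exp (Real.log (Real.cosh d) * s) := by
    funext s
    exact cosh_cpow d s
  rw [this]
  fun_prop

lemma height_cont (d : ℝ) : Continuous (fun p : ℝ × ℂ =>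
    ((Real.exp p.1 / Real.cosh d : ℝ) : ℂ) ^ p.2) := by
  have : (fun p : ℝ × ℂ => ((Real.exp p.1 / Real.cosh d : ℝ) : ℂ) ^ p.2) =
      fun p : ℝ × ℂ => Complex.exp (p.1 * p.2) *
        Complex.exp (Real.log (Real.cosh d) * (-p.2)) := by
    funext p
    rw [height_cpow, cosh_cpow]
  rw [this]
  fun_prop

/-! ## bounds of N and m -/

lemma exp_bound {c L : ℝ} (hc : 0 < c) (hL : 0 < L) (τ : ℝ) :
    Real.exp (-(c * (Real.exp τ / L))) ≤ 2 * (L / c) ^ 2 * Real.exp (-(2 * τ)) := by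
  set x := c * (Real.exp τ / L) with hx
  have hxp : 0 < x := by positivity
  have h1 := Real.pow_div_factorial_le_exp x hxp.le 2
  have h2 : x ^ 2 / 2 ≤ Real.exp x := by simpa using h1
  have h3 : Real.exp (-x) ≤ 2 / x ^ 2 := by
    rw [Real.exp_neg, inv_eq_one_div, div_le_div_iff₀ (Real.exp_pos x) (by positivity)]
    linarith
  refine h3.trans (le_of_eq ?_)
  rw [hx, Real.exp_neg, show Real.exp (2 * τ) = Real.exp τ ^ 2 by
    rw [← Real.exp_nat_mul]; norm_num]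
  field_simp

lemma Nr_bound (h6 : tN) (d : ℝ) : ∃ K, 0 < K ∧ ∀ τ : ℝ, 0 < τ → ∀ s : ℂ, |s.re| ≤ 2 →
    ‖Nr d τ s‖ ≤ K * Real.exp (-|s.im|) * Real.exp (-(2 * τ)) := by
  have hL := Real.cosh_pos d
  obtain ⟨C, c, hC, hc, hb⟩ := h6.2.1 2 1 (1 / Real.cosh d) two_pos zero_le_one
    (by linarith [Real.pi_gt_three]) (by positivity)
  refine ⟨C * (2 * (Real.cosh d / c) ^ 2), by positivity, fun τ hτ s hs => ?_⟩
  have h1 := hb (Real.exp τ * Real.tanh d) (Real.exp τ / Real.cosh d) s hs (by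
    have : (1 : ℝ) ≤ Real.exp τ := Real.one_le_exp hτ.le
    gcongr)
  have h2 := exp_bound hc hL τ
  unfold Nr
  calc _ ≤ C * Real.exp (-1 * |s.im|) * Real.exp (-(c * (Real.exp τ / Real.cosh d))) := h1
    _ ≤ C * Real.exp (-1 * |s.im|) * (2 * (Real.cosh d / c) ^ 2 * Real.exp (-(2 * τ))) := by
        gcongr
    _ = _ := by rw [neg_one_mul]; ring

lemma Nr_cont (h6 : tN) (d : ℝ) : Continuous (fun p : ℝ × ℂ => Nr d p.1 p.2) := by
  have h1 := h6.2.2.2.1
  unfold Nr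
  refine h1.comp_continuous (f := fun p : ℝ × ℂ =>
    ((Real.exp p.1 * Real.tanh d, Real.exp p.1 / Real.cosh d), p.2)) (by fun_prop)
    (fun p => ?_)
  exact div_pos (Real.exp_pos _) (Real.cosh_pos d)

lemma log_height (d τ : ℝ) : Real.log (Real.exp τ / Real.cosh d) =
    τ - Real.log (Real.cosh d) := by
  rw [height_exp, Real.log_exp]

lemma mm_cont (d : ℝ) : Continuous (fun τ : ℝ => mm (Real.exp τ / Real.cosh d)) := by
  unfold mm
  simp_rw [log_height]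
  fun_prop

lemma mm_bound (d : ℝ) : ∃ K, 0 < K ∧ ∀ σ τ : ℝ, 0 < τ → |σ| ≤ τ →
    |mm (Real.exp σ / Real.cosh d)| ≤ K * Real.exp τ := by
  have hl : 0 ≤ Real.log (Real.cosh d) := Real.log_nonneg (cosh_one_le d)
  refine ⟨2 + Real.log (Real.cosh d) + |c0|, by positivity, fun σ τ hτ hσ => ?_⟩
  unfold mm
  rw [log_height, abs_mul, abs_of_nonneg (Real.sqrt_nonneg _)]
  have h1 : √(Real.exp σ / Real.cosh d) ≤ Real.exp (τ / 2) := by
    have h2 : Real.exp (τ / 2) = √(Real.exp τ) := by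
      rw [Real.sqrt_eq_rpow, ← Real.exp_mul]
      ring_nf
    rw [h2]
    refine Real.sqrt_le_sqrt ?_
    calc Real.exp σ / Real.cosh d ≤ Real.exp σ := div_le_self (Real.exp_pos _).le (cosh_one_le d)
      _ ≤ Real.exp τ := Real.exp_le_exp.mpr ((le_abs_self _).trans hσ)
  have h3 : |σ - Real.log (Real.cosh d) + c0| ≤
      (2 + Real.log (Real.cosh d) + |c0|) * Real.exp (τ / 2) := by
    have h4 : |σ - Real.log (Real.cosh d) + c0| ≤ τ + Real.log (Real.cosh d) + |c0| := by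
      calc |σ - Real.log (Real.cosh d) + c0| ≤ |σ - Real.log (Real.cosh d)| + |c0| := abs_add_le _ _
        _ ≤ (|σ| + |Real.log (Real.cosh d)|) + |c0| := by gcongr; exact abs_sub _ _
        _ ≤ _ := by rw [abs_of_nonneg hl]; linarith
    have h5 : τ ≤ 2 * Real.exp (τ / 2) := by
      have := Real.add_one_le_exp (τ / 2)
      linarith
    have h6 : 1 ≤ Real.exp (τ / 2) := Real.one_le_exp (by linarith)
    have h7 : 0 ≤ |c0| := abs_nonneg _
    nlinarith
  calc √(Real.exp σ / Real.cosh d) * |σ - Real.log (Real.cosh d) + c0|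
      ≤ Real.exp (τ / 2) * ((2 + Real.log (Real.cosh d) + |c0|) * Real.exp (τ / 2)) :=
        mul_le_mul h1 h3 (abs_nonneg _) (Real.exp_pos _).le
    _ = (2 + Real.log (Real.cosh d) + |c0|) * (Real.exp (τ / 2) * Real.exp (τ / 2)) := by ring
    _ = _ := by rw [← Real.exp_add]; ring_nf

lemma int_of_bound {F : ℝ → ℂ} (hF : Continuous F) {K a : ℝ} (ha : 0 < a)
    (hb : ∀ τ : ℝ, 0 < τ → ‖F τ‖ ≤ K * Real.exp (-(a * τ))) : IntegrableOn F (Ioi 0) := by
  have h1 : IntegrableOn (fun τ : ℝ => K * Real.exp (-a * τ)) (Ioi 0) :=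
    (exp_neg_integrableOn_Ioi 0 ha).const_mul K
  refine Integrable.mono' h1 hF.aestronglyMeasurable ?_
  refine (ae_restrict_iff' measurableSet_Ioi).mpr (Eventually.of_forall fun τ hτ => ?_)
  rw [neg_mul]
  exact hb τ hτ

/-! ## part I -/

lemma partI (h6 : tN) (h8 : tPLAN) (h9 : tJ0R) (d : ℝ)
    (hm : IntegrableOn (fun τ : ℝ => ((mm (Real.exp (-τ) / Real.cosh d) ^ 2 : ℝ) : ℂ)) (Ioi 0)) :
    IntegrableOn (fun τ : ℝ => 2 * ((mm (Real.exp τ / Real.cosh d) : ℝ) : ℂ) * Nr d τ (1 / 2) +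
      Nr d τ (1 / 2) ^ 2) (Ioi 0) ∧
    2 * ∫ τ in Ioi (0 : ℝ), (2 * ((mm (Real.exp τ / Real.cosh d) : ℝ) : ℂ) * Nr d τ (1 / 2) +
      Nr d τ (1 / 2) ^ 2) =
      B0 d + 2 * ∫ τ in Ioi (0 : ℝ), ((mm (Real.exp (-τ) / Real.cosh d) ^ 2 : ℝ) : ℂ) := by
  obtain ⟨K, hK, hN⟩ := Nr_bound h6 d
  obtain ⟨K', hK', hM⟩ := mm_bound d
  have hN' : ∀ τ : ℝ, 0 < τ → ‖Nr d τ (1 / 2)‖ ≤ K * Real.exp (-(2 * τ)) := by
    intro τ hτ
    have := hN τ hτ (1 / 2) (by norm_num)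
    simpa using this
  have hNc : Continuous (fun τ : ℝ => Nr d τ (1 / 2)) :=
    (Nr_cont h6 d).comp (by fun_prop : Continuous fun τ : ℝ => (τ, (1 / 2 : ℂ)))
  have hmc : Continuous (fun τ : ℝ => ((mm (Real.exp τ / Real.cosh d) : ℝ) : ℂ)) :=
    Complex.continuous_ofReal.comp (mm_cont d)
  have hmc' : Continuous (fun τ : ℝ => ((mm (Real.exp (-τ) / Real.cosh d) : ℝ) : ℂ)) :=
    hmc.comp continuous_neg
  have hexp : ∀ τ : ℝ, Real.exp (-(2 * τ)) * Real.exp τ = Real.exp (-(1 * τ)) := by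
    intro τ
    rw [← Real.exp_add]
    ring_nf
  have i1 : IntegrableOn (fun τ : ℝ => Nr d τ (1 / 2) ^ 2) (Ioi 0) := by
    refine int_of_bound (hNc.pow 2) (K := K ^ 2) (a := 4) (by norm_num) (fun τ hτ => ?_)
    rw [norm_pow]
    calc ‖Nr d τ (1 / 2)‖ ^ 2 ≤ (K * Real.exp (-(2 * τ))) ^ 2 :=
          pow_le_pow_left₀ (norm_nonneg _) (hN' τ hτ) 2
      _ = K ^ 2 * Real.exp (-(4 * τ)) := by
          rw [mul_pow, ← Real.exp_nat_mul]
          congr 2
          push_cast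
          ring
  have i2 : IntegrableOn (fun τ : ℝ => Nr d τ (1 / 2) *
      ((mm (Real.exp τ / Real.cosh d) : ℝ) : ℂ)) (Ioi 0) := by
    refine int_of_bound (hNc.mul hmc) (K := K * K') (a := 1) one_pos (fun τ hτ => ?_)
    rw [norm_mul, Complex.norm_real, Real.norm_eq_abs]
    calc _ ≤ (K * Real.exp (-(2 * τ))) * (K' * Real.exp τ) :=
          mul_le_mul (hN' τ hτ) (hM τ τ hτ (abs_of_pos hτ).le) (abs_nonneg _) (by positivity)
      _ = K * K' * (Real.exp (-(2 * τ)) * Real.exp τ) := by ring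
      _ = _ := by rw [hexp]
  have i3 : IntegrableOn (fun τ : ℝ => Nr d τ (1 / 2) *
      ((mm (Real.exp (-τ) / Real.cosh d) : ℝ) : ℂ)) (Ioi 0) := by
    refine int_of_bound (hNc.mul hmc') (K := K * K') (a := 1) one_pos (fun τ hτ => ?_)
    rw [norm_mul, Complex.norm_real, Real.norm_eq_abs]
    calc _ ≤ (K * Real.exp (-(2 * τ))) * (K' * Real.exp τ) :=
          mul_le_mul (hN' τ hτ) (hM (-τ) τ hτ (by rw [abs_neg, abs_of_pos hτ])) (abs_nonneg _)
            (by positivity)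
      _ = K * K' * (Real.exp (-(2 * τ)) * Real.exp τ) := by ring
      _ = _ := by rw [hexp]
  have hP := h8 d
  have hJ := h9 d
  have e1 : ∫ τ in Ioi (0 : ℝ), (Nr d τ (1 / 2) -
      ((mm (Real.exp (-τ) / Real.cosh d) : ℝ) : ℂ)) ^ 2 =
      (∫ τ in Ioi (0 : ℝ), Nr d τ (1 / 2) ^ 2) - 2 * (∫ τ in Ioi (0 : ℝ), Nr d τ (1 / 2) *
        ((mm (Real.exp (-τ) / Real.cosh d) : ℝ) : ℂ)) +
        ∫ τ in Ioi (0 : ℝ), ((mm (Real.exp (-τ) / Real.cosh d) ^ 2 : ℝ) : ℂ) := by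
    have k1 : IntegrableOn (fun τ : ℝ => Nr d τ (1 / 2) ^ 2 - 2 * (Nr d τ (1 / 2) *
        ((mm (Real.exp (-τ) / Real.cosh d) : ℝ) : ℂ))) (Ioi 0) := i1.sub (i3.const_mul 2)
    rw [← integral_const_mul, ← integral_sub i1 (i3.const_mul 2), ← integral_add k1 hm]
    refine integral_congr_ae (Eventually.of_forall fun τ => ?_)
    simp only
    push_cast
    ring
  have e2 : ∫ τ in Ioi (0 : ℝ), (Nr d τ (1 / 2) *
      ((mm (Real.exp τ / Real.cosh d) + mm (Real.exp (-τ) / Real.cosh d) : ℝ) : ℂ)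
      - ((mm (Real.exp (-τ) / Real.cosh d)) ^ 2 : ℝ)) =
      (∫ τ in Ioi (0 : ℝ), Nr d τ (1 / 2) * ((mm (Real.exp τ / Real.cosh d) : ℝ) : ℂ)) +
      (∫ τ in Ioi (0 : ℝ), Nr d τ (1 / 2) * ((mm (Real.exp (-τ) / Real.cosh d) : ℝ) : ℂ)) -
        ∫ τ in Ioi (0 : ℝ), ((mm (Real.exp (-τ) / Real.cosh d) ^ 2 : ℝ) : ℂ) := by
    have k1 : IntegrableOn (fun τ : ℝ => Nr d τ (1 / 2) *
        ((mm (Real.exp τ / Real.cosh d) : ℝ) : ℂ) + Nr d τ (1 / 2) *
        ((mm (Real.exp (-τ) / Real.cosh d) : ℝ) : ℂ)) (Ioi 0) := i2.add i3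
    rw [← integral_add i2 i3, ← integral_sub k1 hm]
    refine integral_congr_ae (Eventually.of_forall fun τ => ?_)
    simp only
    push_cast
    ring
  have e3 : ∫ τ in Ioi (0 : ℝ), (2 * ((mm (Real.exp τ / Real.cosh d) : ℝ) : ℂ) *
      Nr d τ (1 / 2) + Nr d τ (1 / 2) ^ 2) =
      2 * (∫ τ in Ioi (0 : ℝ), Nr d τ (1 / 2) * ((mm (Real.exp τ / Real.cosh d) : ℝ) : ℂ)) +
      ∫ τ in Ioi (0 : ℝ), Nr d τ (1 / 2) ^ 2 := by
    rw [← integral_const_mul, ← integral_add (i2.const_mul 2) i1]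
    refine integral_congr_ae (Eventually.of_forall fun τ => ?_)
    simp only
    ring
  refine ⟨?_, ?_⟩
  · refine IntegrableOn.congr_fun ((i2.const_mul 2).add i1) (fun τ _ => ?_) measurableSet_Ioi
    simp only [Pi.add_apply]
    ring
  · rw [e3]
    unfold B0
    rw [← hP, ← hJ, e1, e2]
    ring

/-! ## the quotients on the circle and on the line -/

lemma sphere_facts {r : ℝ} (hr : Rad r) {s : ℂ} (hs : s ∈ Metric.sphere (1 : ℂ) r) :
    7 / 8 ≤ s.re ∧ s.re ≤ 9 / 8 ∧ s ≠ 0 ∧ s ≠ 1 ∧ s ≠ 1 / 2 ∧ ‖s - 1‖ = r := by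
  have h1 : ‖s - 1‖ = r := by rwa [Metric.mem_sphere, dist_eq_norm] at hs
  have h2 : |(s - 1).re| ≤ r := h1 ▸ Complex.abs_re_le_norm _
  rw [Complex.sub_re, Complex.one_re, abs_le] at h2
  have h3 := hr.2.1
  have h4 := hr.1
  refine ⟨by linarith, by linarith, ?_, ?_, ?_, h1⟩
  · intro h
    rw [h, Complex.zero_re] at h2
    linarith
  · intro h
    rw [h, sub_self, norm_zero] at h1
    linarith
  · intro h
    rw [h] at h2
    norm_num at h2
    linarith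

lemma X1_ne {r : ℝ} (h1 : tX) (hr : Rad r) {s : ℂ} (hs : s ∈ Metric.sphere (1 : ℂ) r) :
    X1 (2 * s - 1) ≠ 0 ∧ X1 (2 * s) ≠ 0 := by
  obtain ⟨a, b, -, -, -, e⟩ := sphere_facts hr hs
  constructor
  · apply hr.2.2
    rw [show 2 * s - 1 - 1 = 2 * (s - 1) by ring, norm_mul, e]
    simp
  · apply h1.2.2.2.2.2.2.1
    rw [Complex.mul_re]
    simp
    linarith

lemma bq_cont {r : ℝ} (h1 : tX) (hr : Rad r) : ContinuousOn bq (Metric.sphere (1 : ℂ) r) := by
  intro s hs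
  obtain ⟨-, -, n0, n1, -, -⟩ := sphere_facts hr hs
  obtain ⟨x1, x2⟩ := X1_ne h1 hr hs
  have hX : Continuous X1 := h1.1.continuous
  refine ContinuousAt.continuousWithinAt ?_
  unfold bq
  refine ContinuousAt.div (by fun_prop) (by fun_prop) ?_
  refine mul_ne_zero (mul_ne_zero (pow_ne_zero _ (mul_ne_zero n0 (sub_ne_zero.mpr n1))) x1) x2

lemma Bq_cont {r : ℝ} (h1 : tX) (hr : Rad r) : ContinuousOn Bq (Metric.sphere (1 : ℂ) r) := by
  intro s hs
  obtain ⟨-, -, n0, n1, -, -⟩ := sphere_facts hr hs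
  obtain ⟨x1, -⟩ := X1_ne h1 hr hs
  have hX : Continuous X1 := h1.1.continuous
  refine ContinuousAt.continuousWithinAt ?_
  unfold Bq
  refine ContinuousAt.div (by fun_prop) (by fun_prop) ?_
  exact mul_ne_zero (mul_ne_zero (pow_ne_zero _ n0) (pow_ne_zero _ (sub_ne_zero.mpr n1))) x1

/-- the function of the contour shift -/
noncomputable def ff (d : ℝ) (s : ℂ) : ℂ := Aq s * ((Real.cosh d : ℂ) ^ (s - 1) / (1 - s))

/-- the function of the second kind -/
noncomputable def gg (d : ℝ) (s : ℂ) : ℂ := Bq s * ((Real.cosh d : ℂ) ^ (-s) / s)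

lemma ff_diff (h2 : tABQ) (d : ℝ) {s : ℂ} (hs : 1 / 2 ≤ s.re) (hs1 : s ≠ 1) :
    DifferentiableAt ℂ (ff d) s := by
  unfold ff
  refine (h2.2.2.2.2.1 s hs hs1).mul (DifferentiableAt.div ?_ (by fun_prop) ?_)
  · exact ((cosh_cpow_diff d).comp (by fun_prop : Differentiable ℂ fun s : ℂ => s - 1)) s
  · exact sub_ne_zero.mpr hs1.symm

lemma ff_cont {r : ℝ} (h2 : tABQ) (hr : Rad r) (d : ℝ) :
    ContinuousOn (ff d) (Metric.sphere (1 : ℂ) r) := by
  intro s hs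
  obtain ⟨a, -, -, n1, -, -⟩ := sphere_facts hr hs
  exact (ff_diff h2 d (by linarith) n1).continuousAt.continuousWithinAt

lemma gg_cont {r : ℝ} (h1 : tX) (hr : Rad r) (d : ℝ) :
    ContinuousOn (gg d) (Metric.sphere (1 : ℂ) r) := by
  unfold gg
  refine (Bq_cont h1 hr).mul (ContinuousOn.div ?_ continuousOn_id ?_)
  · exact ((cosh_cpow_diff d).continuous.comp continuous_neg).continuousOn
  · intro s hs
    exact (sphere_facts hr hs).2.2.1

lemma ff_shift (h2 : tABQ) (h3 : tCS) {r : ℝ} (hr : Rad r) (d : ℝ) :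
    Integrable (fun t : ℝ => ff d (((2 : ℝ) : ℂ) + t * I)) ∧
    Integrable (fun t : ℝ => ff d (1 / 2 + t * I)) ∧
    (1 / (2 * Real.pi) : ℝ) * ∫ t : ℝ, ff d (((2 : ℝ) : ℂ) + t * I) =
    (1 / (2 * Real.pi) : ℝ) * (∫ t : ℝ, ff d (1 / 2 + t * I)) +
      (1 / (2 * Real.pi * I)) * ∮ s in C(1, r), ff d s := by
  obtain ⟨C, hC, hA⟩ := h2.1
  refine h3 (ff d) 2 r (C * Real.cosh d * 2) one_lt_two hr.1 (by linarith [hr.2.1])
    (by linarith [hr.2.1]) (fun s hs _ hs1 => ff_diff h2 d hs hs1) (fun s hs hs2 him => ?_)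
  unfold ff
  rw [norm_mul, norm_div, norm_cosh_cpow]
  have h4 := hA s hs (by linarith) him
  have h5 : Real.cosh d ^ (s - 1).re ≤ Real.cosh d := by
    nth_rewrite 2 [← Real.rpow_one (Real.cosh d)]
    refine Real.rpow_le_rpow_of_exponent_le (cosh_one_le d) ?_
    rw [Complex.sub_re, Complex.one_re]
    linarith
  have h6 : 1 ≤ ‖1 - s‖ := by
    calc (1 : ℝ) ≤ |s.im| := him
      _ = |(1 - s).im| := by rw [Complex.sub_im, Complex.one_im, zero_sub, abs_neg]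
      _ ≤ ‖1 - s‖ := Complex.abs_im_le_norm _
  have h7 : Real.exp (-|s.im|) ≤ 2 / (1 + s.im ^ 2) := by
    have h8 := Real.pow_div_factorial_le_exp |s.im| (abs_nonneg _) 2
    have h9 : |s.im| ^ 2 / 2 ≤ Real.exp |s.im| := by simpa using h8
    have h10 : 1 ≤ Real.exp |s.im| := Real.one_le_exp (abs_nonneg _)
    rw [sq_abs] at h9
    have h11 : (1 + s.im ^ 2) / 2 ≤ Real.exp |s.im| := by
      have := Real.quadratic_le_exp_of_nonneg (abs_nonneg s.im)
      rw [sq_abs] at this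
      have := abs_nonneg s.im
      linarith
    rw [Real.exp_neg, inv_eq_one_div, div_le_div_iff₀ (Real.exp_pos _) (by positivity)]
    linarith
  have h8 : Real.cosh d ^ (s - 1).re / ‖1 - s‖ ≤ Real.cosh d := by
    calc _ ≤ Real.cosh d ^ (s - 1).re :=
          div_le_self (Real.rpow_nonneg (Real.cosh_pos d).le _) h6
      _ ≤ _ := h5
  calc ‖Aq s‖ * (Real.cosh d ^ (s - 1).re / ‖1 - s‖) ≤ (C * Real.exp (-|s.im|)) * Real.cosh d :=
        mul_le_mul h4 h8 (by positivity) (by positivity)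
    _ ≤ (C * (2 / (1 + s.im ^ 2))) * Real.cosh d := by
        have := (Real.cosh_pos d).le
        gcongr
    _ = C * Real.cosh d * 2 / (1 + s.im ^ 2) := by ring

/-! ## part II -/

lemma partII (h1 : tX) (h4 : tMSQ) {r : ℝ} (hr : Rad r) (d : ℝ) :
    IntegrableOn (fun τ : ℝ => ((mm (Real.exp (-τ) / Real.cosh d) ^ 2 : ℝ) : ℂ)) (Ioi 0) ∧
    ∫ τ in Ioi (0 : ℝ), ((mm (Real.exp (-τ) / Real.cosh d) ^ 2 : ℝ) : ℂ) =
      (1 / (2 * Real.pi * I)) * ∮ s in C(1, r), gg d s := by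
  obtain ⟨M, hM⟩ := (isCompact_sphere (1 : ℂ) r).exists_bound_of_continuousOn (Bq_cont h1 hr)
  have hM0 : 0 ≤ M := by
    have : (1 + r : ℂ) ∈ Metric.sphere (1 : ℂ) r := by
      rw [Metric.mem_sphere, dist_eq_norm, add_sub_cancel_left, Complex.norm_real,
        Real.norm_eq_abs, abs_of_pos hr.1]
    exact (norm_nonneg _).trans (hM _ this)
  have hcont : Continuous (fun p : ℝ × ℝ => Bq (circleMap 1 r p.2) *
      ((Real.exp (-p.1) / Real.cosh d : ℝ) : ℂ) ^ (circleMap 1 r p.2)) := by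
    refine Continuous.mul ?_ ?_
    · exact (Bq_cont h1 hr).comp_continuous ((continuous_circleMap 1 r).comp continuous_snd)
        (fun p => circleMap_mem_sphere 1 hr.1.le p.2)
    · exact (height_cont d).comp ((continuous_neg.comp continuous_fst).prodMk
        ((continuous_circleMap 1 r).comp continuous_snd))
  have hg : IntegrableOn (fun τ : ℝ => M * Real.exp (-(7 / 8) * τ)) (Ioi 0) :=
    (exp_neg_integrableOn_Ioi 0 (by norm_num)).const_mul M
  have hf := circ_fubini (G := fun τ s => Bq s * ((Real.exp (-τ) / Real.cosh d : ℝ) : ℂ) ^ s)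
    hr.1.le hcont hg (fun τ hτ s hs => by
      rw [norm_mul, height_cpow, norm_mul, norm_cosh_cpow, Complex.norm_exp]
      obtain ⟨a, -⟩ := sphere_facts hr hs
      have e1 : Real.exp (((-τ : ℝ) : ℂ) * s).re ≤ Real.exp (-(7 / 8) * τ) := by
        rw [Complex.re_ofReal_mul]
        refine Real.exp_le_exp.mpr ?_
        nlinarith
      have e2 : Real.cosh d ^ (-s).re ≤ 1 := by
        refine Real.rpow_le_one_of_one_le_of_nonpos (cosh_one_le d) ?_
        rw [Complex.neg_re]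
        linarith
      calc _ ≤ M * (Real.exp (-(7 / 8) * τ) * 1) := by
            refine mul_le_mul (hM s hs) (mul_le_mul e1 e2 ?_ ?_) ?_ hM0
            · exact Real.rpow_nonneg (Real.cosh_pos d).le _
            · exact (Real.exp_pos _).le
            · exact mul_nonneg (Real.exp_pos _).le (Real.rpow_nonneg (Real.cosh_pos d).le _)
        _ = _ := by rw [mul_one])
  have hsq : ∀ τ : ℝ, ((mm (Real.exp (-τ) / Real.cosh d) ^ 2 : ℝ) : ℂ) =
      (1 / (2 * Real.pi * I)) * ∮ s in C(1, r),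
        Bq s * ((Real.exp (-τ) / Real.cosh d : ℝ) : ℂ) ^ s := fun τ =>
    (h4 r hr _ (div_pos (Real.exp_pos _) (Real.cosh_pos d))).symm
  constructor
  · refine IntegrableOn.congr_fun (hf.1.const_mul (1 / (2 * Real.pi * I))) (fun τ _ => ?_)
      measurableSet_Ioi
    exact (hsq τ).symm
  · simp_rw [hsq]
    rw [integral_const_mul, hf.2.2]
    congr 1
    refine circleIntegral.integral_congr hr.1.le fun s hs => ?_
    show ∫ τ in Ioi (0 : ℝ), Bq s * ((Real.exp (-τ) / Real.cosh d : ℝ) : ℂ) ^ s = gg d s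
    rw [integral_const_mul, int_height_neg d (by linarith [(sphere_facts hr hs).1])]
    rfl

/-! ## part III -/

lemma line_re (σ t : ℝ) : ((σ : ℂ) + t * I).re = σ ∧ ((σ : ℂ) + t * I).im = t := by
  constructor <;> simp

lemma partIII (h2 : tABQ) (h5 : tASH) (d : ℝ) :
    IntegrableOn (fun τ : ℝ => ash (Real.exp τ / Real.cosh d)) (Ioi 0) ∧
    ∫ τ in Ioi (0 : ℝ), ash (Real.exp τ / Real.cosh d) =
      -((1 / (2 * Real.pi) : ℝ) * ∫ t : ℝ, ff d (((2 : ℝ) : ℂ) + t * I)) := by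
  obtain ⟨hAi, hash⟩ := h5.2 2 one_lt_two (by norm_num)
  have hAc : Continuous (fun t : ℝ => Aq (((2 : ℝ) : ℂ) + t * I)) := by
    rw [continuous_iff_continuousAt]
    intro t
    have e := line_re 2 t
    have h6 : ContinuousAt Aq (((2 : ℝ) : ℂ) + t * I) := by
      refine (h2.2.2.2.2.1 _ (by rw [e.1]; norm_num) ?_).continuousAt
      intro h
      have := congrArg Complex.re h
      rw [e.1, Complex.one_re] at this
      norm_num at this
    exact ContinuousAt.comp (f := fun t : ℝ => ((2 : ℝ) : ℂ) + t * I) h6 (by fun_prop)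
  have hcont : Continuous (fun p : ℝ × ℝ => Aq (((2 : ℝ) : ℂ) + p.2 * I) *
      ((Real.exp p.1 / Real.cosh d : ℝ) : ℂ) ^ (1 - (((2 : ℝ) : ℂ) + p.2 * I))) := by
    refine (hAc.comp continuous_snd).mul ?_
    exact (height_cont d).comp (continuous_fst.prodMk (by fun_prop))
  have hg : IntegrableOn (fun τ : ℝ => Real.cosh d * Real.exp (-1 * τ)) (Ioi 0) :=
    (exp_neg_integrableOn_Ioi 0 one_pos).const_mul _
  have hf := fubini (ν := volume) (F := fun τ t => Aq (((2 : ℝ) : ℂ) + t * I) *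
      ((Real.exp τ / Real.cosh d : ℝ) : ℂ) ^ (1 - (((2 : ℝ) : ℂ) + t * I))) hcont hg hAi.norm
    (fun τ hτ t => by
      rw [norm_mul, height_cpow, norm_mul, norm_cosh_cpow, Complex.norm_exp, mul_comm]
      have e := line_re 2 t
      have e1 : ((τ : ℂ) * (1 - (((2 : ℝ) : ℂ) + t * I))).re = -1 * τ := by
        rw [Complex.re_ofReal_mul, Complex.sub_re, e.1, Complex.one_re]
        ring
      have e2 : (-(1 - (((2 : ℝ) : ℂ) + t * I))).re = 1 := by
        rw [Complex.neg_re, Complex.sub_re, e.1, Complex.one_re]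
        ring
      rw [e1, e2, Real.rpow_one]
      refine le_of_eq ?_
      ring)
  have hsq : ∀ τ : ℝ, ash (Real.exp τ / Real.cosh d) = ((1 / (2 * Real.pi) : ℝ) : ℂ) *
      ∫ t : ℝ, Aq (((2 : ℝ) : ℂ) + t * I) *
        ((Real.exp τ / Real.cosh d : ℝ) : ℂ) ^ (1 - (((2 : ℝ) : ℂ) + t * I)) := fun τ =>
    hash _ (div_pos (Real.exp_pos _) (Real.cosh_pos d))
  constructor
  · refine IntegrableOn.congr_fun (hf.1.const_mul ((1 / (2 * Real.pi) : ℝ) : ℂ)) (fun τ _ => ?_)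
      measurableSet_Ioi
    exact (hsq τ).symm
  · simp_rw [hsq]
    rw [integral_const_mul, hf.2.2, ← mul_neg, ← integral_neg]
    congr 1
    refine integral_congr_ae (Eventually.of_forall fun t => ?_)
    simp only
    have e := line_re 2 t
    rw [integral_const_mul, int_height_pos d (by rw [e.1]; norm_num)]
    unfold ff
    rw [← mul_neg, ← div_neg, neg_sub]

/-! ## part IV: the residual part -/

lemma star0 (h7 : tSTAR) (d : ℝ) {s : ℂ} (hs : 0 < s.re) (n2 : s ≠ 1 / 2) (n1 : s ≠ 1) :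
    2 * ∫ τ in Ioi (0 : ℝ), Nr d τ s =
      (Real.pi : ℂ) ^ (-s) * Gamma s * riemannZeta s ^ 2 * JJ s 0 d +
      2 * xi (2 * s) * ((Real.cosh d : ℂ) ^ (-s) / s) +
      2 * xi (2 * s - 1) * ((Real.cosh d : ℂ) ^ (s - 1) / (1 - s)) := by
  have h := h7 d s 0 (by simpa using hs) n2 n1 (by simpa using n1) (by simpa using n1)
  simp only [zero_mul, Complex.cosh_zero, mul_one, sub_zero, add_zero] at h
  rw [sub_sub, sub_eq_iff_eq_add] at h
  rw [h]
  ring

lemma partIV (h1 : tX) (h2 : tABQ) (h6 : tN) (h7 : tSTAR) {r : ℝ} (hr : Rad r) (d : ℝ) :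
    IntegrableOn (fun τ : ℝ => ∮ s in C(1, r), bq s * Nr d τ s) (Ioi 0) ∧
    2 * ((1 / (2 * Real.pi * I)) * ∫ τ in Ioi (0 : ℝ), ∮ s in C(1, r), bq s * Nr d τ s) =
      Rd r d + (1 / (2 * Real.pi * I)) * (2 * (∮ s in C(1, r), gg d s) +
        2 * ∮ s in C(1, r), ff d s) := by
  obtain ⟨M, hM⟩ := (isCompact_sphere (1 : ℂ) r).exists_bound_of_continuousOn (bq_cont h1 hr)
  obtain ⟨K, hK, hN⟩ := Nr_bound h6 d
  have hM0 : 0 ≤ M := by
    have : (1 + r : ℂ) ∈ Metric.sphere (1 : ℂ) r := by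
      rw [Metric.mem_sphere, dist_eq_norm, add_sub_cancel_left, Complex.norm_real,
        Real.norm_eq_abs, abs_of_pos hr.1]
    exact (norm_nonneg _).trans (hM _ this)
  have hcont : Continuous (fun p : ℝ × ℝ => bq (circleMap 1 r p.2) *
      Nr d p.1 (circleMap 1 r p.2)) := by
    refine Continuous.mul ?_ ?_
    · exact (bq_cont h1 hr).comp_continuous ((continuous_circleMap 1 r).comp continuous_snd)
        (fun p => circleMap_mem_sphere 1 hr.1.le p.2)
    · exact (Nr_cont h6 d).comp (continuous_fst.prodMk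
        ((continuous_circleMap 1 r).comp continuous_snd))
  have hg : IntegrableOn (fun τ : ℝ => M * K * Real.exp (-2 * τ)) (Ioi 0) :=
    (exp_neg_integrableOn_Ioi 0 two_pos).const_mul _
  have hf := circ_fubini (G := fun τ s => bq s * Nr d τ s) hr.1.le hcont hg
    (fun τ hτ s hs => by
      rw [norm_mul]
      obtain ⟨a, b, -⟩ := sphere_facts hr hs
      have e1 := hN τ hτ s (by rw [abs_le]; constructor <;> linarith)
      have e2 : Real.exp (-|s.im|) ≤ 1 := Real.exp_le_one_iff.mpr (by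
        have := abs_nonneg s.im
        linarith)
      have e3 : ‖Nr d τ s‖ ≤ K * Real.exp (-2 * τ) := by
        refine e1.trans ?_
        rw [neg_mul]
        calc K * Real.exp (-|s.im|) * Real.exp (-(2 * τ)) ≤ K * 1 * Real.exp (-(2 * τ)) := by
              gcongr
          _ = _ := by rw [mul_one]
      calc ‖bq s‖ * ‖Nr d τ s‖ ≤ M * (K * Real.exp (-2 * τ)) :=
            mul_le_mul (hM s hs) e3 (norm_nonneg _) hM0
        _ = _ := by ring)
  refine ⟨hf.1, ?_⟩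
  have hgi : CircleIntegrable (gg d) 1 r := (gg_cont h1 hr d).circleIntegrable hr.1.le
  have hfi : CircleIntegrable (ff d) 1 r := (ff_cont h2 hr d).circleIntegrable hr.1.le
  have hRd : ∮ s in C(1, r), bq s * ((Real.pi : ℂ) ^ (-s) * Gamma s * riemannZeta s ^ 2 *
      JJ s 0 d) = 2 * (∮ s in C(1, r), ∫ τ in Ioi (0 : ℝ), bq s * Nr d τ s) -
        2 * (∮ s in C(1, r), gg d s) - 2 * ∮ s in C(1, r), ff d s := by
    rw [← circleIntegral.integral_const_mul, ← circleIntegral.integral_const_mul,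
      ← circleIntegral.integral_const_mul, ← circleIntegral.integral_sub,
      ← circleIntegral.integral_sub]
    · refine circleIntegral.integral_congr hr.1.le fun s hs => ?_
      obtain ⟨a, b, n0, n1, n2, -⟩ := sphere_facts hr hs
      have e := star0 h7 d (by linarith : 0 < s.re) n2 n1
      obtain ⟨x1, x2⟩ := X1_ne h1 hr hs
      obtain ⟨eA, eB⟩ := h1.2.2.2.2.2.2.2.2.2.2.2.1 s n0 n1 n2
      replace eA := eA x1
      replace eB := eB x2
      rw [integral_const_mul]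
      unfold gg ff
      rw [eA, eB]
      have e' : 2 * (bq s * ∫ τ in Ioi (0 : ℝ), Nr d τ s) =
          bq s * (2 * ∫ τ in Ioi (0 : ℝ), Nr d τ s) := by ring
      rw [e', e]
      ring
    · exact (hf.2.1.const_mul 2).sub (hgi.const_mul 2)
    · exact hfi.const_mul 2
    · exact hf.2.1.const_mul 2
    · exact hgi.const_mul 2
  unfold Rd
  rw [hRd, hf.2.2]
  ring

/-! ## part V: the continuous part -/

lemma poly_exp (t : ℝ) : (1 + |t|) ^ 6 * Real.exp (-|t|) ≤ 40320 * Real.exp 1 * (1 + t ^ 2)⁻¹ := by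
  have h0 := abs_nonneg t
  have h1 := Real.pow_div_factorial_le_exp (1 + |t|) (by positivity) 8
  have h2 : (1 + |t|) ^ 8 ≤ 40320 * (Real.exp 1 * Real.exp |t|) := by
    rw [div_le_iff₀ (by positivity), Real.exp_add] at h1
    have : ((Nat.factorial 8 : ℕ) : ℝ) = 40320 := by norm_num [Nat.factorial]
    rw [this] at h1
    linarith
  have h3 : (1 + |t|) ^ 6 * (1 + t ^ 2) ≤ (1 + |t|) ^ 8 := by
    have : 1 + t ^ 2 ≤ (1 + |t|) ^ 2 := by
      rw [← sq_abs t]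
      nlinarith
    calc (1 + |t|) ^ 6 * (1 + t ^ 2) ≤ (1 + |t|) ^ 6 * (1 + |t|) ^ 2 := by gcongr
      _ = _ := by ring
  rw [Real.exp_neg, ← div_eq_mul_inv, ← div_eq_mul_inv, div_le_div_iff₀ (Real.exp_pos _)
    (by positivity)]
  calc (1 + |t|) ^ 6 * (1 + t ^ 2) ≤ (1 + |t|) ^ 8 := h3
    _ ≤ 40320 * (Real.exp 1 * Real.exp |t|) := h2
    _ = _ := by ring

lemma half_re (t : ℝ) : ((1 / 2 : ℂ) + t * I).re = 1 / 2 ∧ ((1 / 2 : ℂ) + t * I).im = t := by
  constructor <;> simp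

lemma half_facts {t : ℝ} (ht : t ≠ 0) : ((1 / 2 : ℂ) + t * I) ≠ 0 ∧
    ((1 / 2 : ℂ) + t * I) ≠ 1 ∧ ((1 / 2 : ℂ) + t * I) ≠ 1 / 2 := by
  have e := half_re t
  refine ⟨?_, ?_, ?_⟩
  · intro h
    rw [h] at e
    exact ht (by simpa using e.2.symm)
  · intro h
    rw [h] at e
    exact ht (by simpa using e.2.symm)
  · intro h
    rw [h] at e
    exact ht (by simpa using e.2.symm)

lemma gg_neg (h1 : tX) (d t : ℝ) :
    gg d (1 / 2 + ((-t : ℝ) : ℂ) * I) = ff d (1 / 2 + (t : ℂ) * I) := by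
  have e := half_re t
  have n0 : ((1 / 2 : ℂ) + t * I) ≠ 0 := by
    intro h
    have := e.1
    rw [h] at this
    norm_num at this
  have n1 : ((1 / 2 : ℂ) + t * I) ≠ 1 := by
    intro h
    have := e.1
    rw [h] at this
    norm_num at this
  have hs : (1 / 2 : ℂ) + ((-t : ℝ) : ℂ) * I = 1 - (1 / 2 + (t : ℂ) * I) := by
    push_cast
    ring
  unfold gg ff
  rw [hs, h1.2.2.2.2.2.2.2.2.2.2.2.2 _ n0 n1, neg_sub]

lemma partV (h1 : tX) (h2 : tABQ) (h3 : tCS) (h6 : tN) (h7 : tSTAR) {r : ℝ} (hr : Rad r)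
    (d : ℝ) :
    IntegrableOn (fun τ : ℝ => ∫ t : ℝ, bq (1 / 2 + t * I) * Nr d τ (1 / 2 + t * I)) (Ioi 0) ∧
    2 * (((1 / (4 * Real.pi) : ℝ) : ℂ) * ∫ τ in Ioi (0 : ℝ), ∫ t : ℝ, bq (1 / 2 + t * I) *
      Nr d τ (1 / 2 + t * I)) =
      Pc d + 2 * (((1 / (2 * Real.pi) : ℝ) : ℂ) * ∫ t : ℝ, ff d (1 / 2 + t * I)) := by
  obtain ⟨K, hK, hN⟩ := Nr_bound h6 d
  obtain ⟨C, hC, hbq⟩ := h2.2.2.1
  have hbc : Continuous (fun t : ℝ => bq (1 / 2 + t * I)) := by
    rw [continuous_iff_continuousAt]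
    intro t
    have h6 : ContinuousAt bq ((1 / 2 : ℂ) + t * I) := h2.2.2.2.2.2 _ (half_re t).1
    exact ContinuousAt.comp (f := fun t : ℝ => (1 / 2 : ℂ) + t * I) h6 (by fun_prop)
  have hcont : Continuous (fun p : ℝ × ℝ => bq (1 / 2 + p.2 * I) *
      Nr d p.1 (1 / 2 + p.2 * I)) := by
    refine (hbc.comp continuous_snd).mul ?_
    exact (Nr_cont h6 d).comp (continuous_fst.prodMk (by fun_prop))
  have hg : IntegrableOn (fun τ : ℝ => K * Real.exp (-2 * τ)) (Ioi 0) :=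
    (exp_neg_integrableOn_Ioi 0 two_pos).const_mul _
  have hh : Integrable (fun t : ℝ => C * (40320 * Real.exp 1 * (1 + t ^ 2)⁻¹)) volume :=
    (integrable_inv_one_add_sq.const_mul _).const_mul C
  have hf := fubini (ν := volume) (F := fun τ t => bq (1 / 2 + t * I) *
      Nr d τ (1 / 2 + t * I)) hcont hg hh (fun τ hτ t => by
      rw [norm_mul]
      have e1 := hN τ hτ (1 / 2 + t * I) (by rw [(half_re t).1]; norm_num)
      rw [(half_re t).2] at e1
      have e2 := poly_exp t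
      calc ‖bq (1 / 2 + t * I)‖ * ‖Nr d τ (1 / 2 + t * I)‖
          ≤ (C * (1 + |t|) ^ 6) * (K * Real.exp (-|t|) * Real.exp (-(2 * τ))) :=
            mul_le_mul (hbq t) e1 (norm_nonneg _) (by positivity)
        _ = K * Real.exp (-2 * τ) * (C * ((1 + |t|) ^ 6 * Real.exp (-|t|))) := by
            rw [neg_mul]
            ring
        _ ≤ _ := by gcongr)
  refine ⟨hf.1, ?_⟩
  obtain ⟨-, hfi, -⟩ := ff_shift h2 h3 hr d
  have hgi : Integrable (fun t : ℝ => gg d (1 / 2 + t * I)) := by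
    have e := hfi.comp_neg
    refine e.congr (Eventually.of_forall fun t => ?_)
    simp only
    rw [← gg_neg h1, neg_neg]
  have hgf : ∫ t : ℝ, gg d (1 / 2 + t * I) = ∫ t : ℝ, ff d (1 / 2 + t * I) := by
    rw [← integral_neg_eq_self (fun t : ℝ => gg d (1 / 2 + t * I))]
    refine integral_congr_ae (Eventually.of_forall fun t => ?_)
    exact gg_neg h1 d t
  have hPc : Pc d = ((1 / (4 * Real.pi) : ℝ) : ℂ) *
      (2 * (∫ t : ℝ, ∫ τ in Ioi (0 : ℝ), bq (1 / 2 + t * I) * Nr d τ (1 / 2 + t * I)) -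
        2 * (∫ t : ℝ, gg d (1 / 2 + t * I)) - 2 * ∫ t : ℝ, ff d (1 / 2 + t * I)) := by
    have k1 : Integrable (fun t : ℝ => 2 * (∫ τ in Ioi (0 : ℝ), bq (1 / 2 + t * I) *
        Nr d τ (1 / 2 + t * I)) - 2 * gg d (1 / 2 + t * I)) :=
      (hf.2.1.const_mul 2).sub (hgi.const_mul 2)
    rw [← integral_const_mul, ← integral_const_mul, ← integral_const_mul,
      ← integral_sub (hf.2.1.const_mul 2) (hgi.const_mul 2),
      ← integral_sub k1 (hfi.const_mul 2), ← integral_const_mul]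
    unfold Pc
    refine integral_congr_ae ?_
    have hne : ∀ᵐ t : ℝ, t ≠ 0 := by
      have : (volume : Measure ℝ) {(0 : ℝ)} = 0 := Real.volume_singleton
      exact compl_mem_ae_iff.mpr this
    filter_upwards [hne] with t ht
    obtain ⟨n0, n1, n2⟩ := half_facts ht
    have e := star0 h7 d (s := 1 / 2 + t * I) (by rw [(half_re t).1]; norm_num) n2 n1
    obtain ⟨eA, eB⟩ := h1.2.2.2.2.2.2.2.2.2.2.2.1 _ n0 n1 n2
    replace eA := eA (h1.2.2.2.2.2.2.2.1 _ (by simp))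
    replace eB := eB (h1.2.2.2.2.2.2.1 _ (by simp))
    have eb := h1.2.2.2.2.2.2.2.2.2.2.1 _ n0 n1 n2
    rw [integral_const_mul]
    unfold Hf Jk zh gg ff
    rw [eA, eB, eb]
    have e' : 2 * (bq (1 / 2 + t * I) * ∫ τ in Ioi (0 : ℝ), Nr d τ (1 / 2 + t * I)) =
        bq (1 / 2 + t * I) * (2 * ∫ τ in Ioi (0 : ℝ), Nr d τ (1 / 2 + t * I)) := by ring
    rw [e', e]
    ring
  rw [hPc, hf.2.2, hgf]
  push_cast
  ring

end ERAY_

open ERAY_ in
theorem pRAY (h1 : tX) (h2 : tABQ) (h3 : tCS) (h4 : tMSQ) (h5 : tASH) (h6 : tN) (h7 : tSTAR)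
    (h8 : tPLAN) (h9 : tJ0R) (_h10 : HINT) (_h11 : BNDJ) (_h12 : tJBD) : tRAY := by
  intro r hr d
  obtain ⟨mi, me⟩ := partII h1 h4 hr d
  obtain ⟨ai, ae⟩ := partIII h2 h5 d
  obtain ⟨ni, ne⟩ := partI h6 h8 h9 d mi
  obtain ⟨ci, ce⟩ := partIV h1 h2 h6 h7 hr d
  obtain ⟨li, le⟩ := partV h1 h2 h3 h6 h7 hr d
  obtain ⟨-, -, se⟩ := ff_shift h2 h3 hr d
  have hF : ∫ τ in Ioi (0 : ℝ), FcN r (Real.exp τ * Real.tanh d) (Real.exp τ / Real.cosh d) =
      (∫ τ in Ioi (0 : ℝ), (2 * ((mm (Real.exp τ / Real.cosh d) : ℝ) : ℂ) * Nr d τ (1 / 2) +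
        Nr d τ (1 / 2) ^ 2)) - (∫ τ in Ioi (0 : ℝ), ash (Real.exp τ / Real.cosh d)) -
      ((1 / (2 * Real.pi * I)) * ∫ τ in Ioi (0 : ℝ), ∮ s in C(1, r), bq s * Nr d τ s) -
      ((1 / (4 * Real.pi) : ℝ) : ℂ) * ∫ τ in Ioi (0 : ℝ), ∫ t : ℝ, bq (1 / 2 + t * I) *
        Nr d τ (1 / 2 + t * I) := by
    have k1 : IntegrableOn (fun τ : ℝ => (2 * ((mm (Real.exp τ / Real.cosh d) : ℝ) : ℂ) *
        Nr d τ (1 / 2) + Nr d τ (1 / 2) ^ 2) - ash (Real.exp τ / Real.cosh d)) (Ioi 0) :=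
      ni.sub ai
    have k2 : IntegrableOn (fun τ : ℝ => (1 / (2 * Real.pi * I)) *
        ∮ s in C(1, r), bq s * Nr d τ s) (Ioi 0) := ci.const_mul _
    have k3 : IntegrableOn (fun τ : ℝ => (2 * ((mm (Real.exp τ / Real.cosh d) : ℝ) : ℂ) *
        Nr d τ (1 / 2) + Nr d τ (1 / 2) ^ 2) - ash (Real.exp τ / Real.cosh d) -
        (1 / (2 * Real.pi * I)) * ∮ s in C(1, r), bq s * Nr d τ s) (Ioi 0) := k1.sub k2
    have k4 : IntegrableOn (fun τ : ℝ => ((1 / (4 * Real.pi) : ℝ) : ℂ) *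
        ∫ t : ℝ, bq (1 / 2 + t * I) * Nr d τ (1 / 2 + t * I)) (Ioi 0) := li.const_mul _
    rw [← integral_sub ni ai, ← integral_const_mul, ← integral_const_mul,
      ← integral_sub k1 k2, ← integral_sub k3 k4]
    rfl
  rw [hF]
  have e : ∀ a b c e : ℂ, 2 * (a - b - c - e) = 2 * a - 2 * b - 2 * c - 2 * e := by
    intros
    ring
  rw [e, ne, ce, le, ae, me]
  linear_combination 2 * se

end FMZ
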