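import Pool.Agent.FMZ.Spec

/-!
# FMZ: targets of block W (wave argument) and of the operator calculus
-/

open Complex MeasureTheory Set Filter Topology

namespace FMZ

/-- calculus of 𝒟 on functions analytic in the strip -/
def tDDL : Prop :=
  (∀ f : ℂ → ℂ, DifferentiableOn ℂ f S0 → ∀ M : ℕ, DifferentiableOn ℂ (DD^[M] f) S0) ∧
  (∀ f g : ℂ → ℂ, DifferentiableOn ℂ f S0 → DifferentiableOn ℂ g S0 → ∀ (a b : ℂ) (M : ℕ),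
    ∀ d ∈ S0, (DD^[M] (fun z => a * f z + b * g z)) d = a * (DD^[M] f) d + b * (DD^[M] g) d) ∧
  (∀ f g : ℂ → ℂ, (∀ d ∈ S0, f d = g d) → ∀ M : ℕ, ∀ d ∈ S0, (DD^[M] f) d = (DD^[M] g) d) ∧
  (∀ f : ℂ → ℂ, DifferentiableOn ℂ f S0 → (∀ d ∈ S0, f (-d) = f d) → ∀ M : ℕ, ∀ d ∈ S0,
    (DD^[M] f) (-d) = (DD^[M] f) d)

/-- the Legendre function P_{-1/2}(1 + w) -/
noncomputable def Le (w : ℂ) : ℂ :=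
  (2 / Real.pi : ℝ) * ∫ φ in (0 : ℝ)..(Real.pi / 2),
    (1 + w / 2 * (Real.sin φ ^ 2 : ℝ)) ^ (-(1 / 2) : ℂ)

/-- its derivative -/
noncomputable def Le1 (w : ℂ) : ℂ :=
  -(1 / (2 * Real.pi) : ℝ) * ∫ φ in (0 : ℝ)..(Real.pi / 2),
    (Real.sin φ ^ 2 : ℝ) * (1 + w / 2 * (Real.sin φ ^ 2 : ℝ)) ^ (-(3 / 2) : ℂ)

/-- the argument of the Riemann function -/
noncomputable def wk (D : ℂ) (h x : ℝ) : ℂ :=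
  ((Real.cosh h - Real.cosh x : ℝ) : ℂ) / (Complex.cosh D * Complex.cosh (D + x))

/-- the kernel -/
noncomputable def Kk (D : ℂ) (h x : ℝ) : ℂ :=
  Le1 (wk D h x) * ((Real.sinh h : ℂ) / (Complex.cosh D * Complex.cosh (D + x)))

/-- the wave operator at time h -/
noncomputable def Wo (G : ℂ → ℂ) (h : ℝ) (D : ℂ) : ℂ :=
  1 / 2 * (G (D + h) + G (D - h)) + 1 / 2 * ∫ x in (-h)..h, Kk D h x * G (D + x)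

/-- the wave operator on real test functions -/
noncomputable def WoR (Y : ℝ → ℝ) (h : ℝ) (D : ℝ) : ℝ :=
  1 / 2 * (Y (D + h) + Y (D - h)) + 1 / 2 * ∫ x in (-h)..h, (Kk D h x).re * Y (D + x)

/-- q_κ(d) = √cosh d · J(κ,d) -/
noncomputable def qk (κ : ℝ) (d : ℂ) : ℂ := (Complex.cosh d) ^ (1 / 2 : ℂ) * Jk κ d

/-- W1: facts on the Legendre function -/
def tLE : Prop :=
  (∀ w : ℂ, 1 + w / 2 ∈ slitPlane → AnalyticAt ℂ Le w ∧ HasDerivAt Le (Le1 w) w) ∧ Le 0 = 1 ∧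
  (∀ w : ℂ, 1 + w / 2 ∈ slitPlane →
    (w ^ 2 + 2 * w) * deriv Le1 w + 2 * (1 + w) * Le1 w + 1 / 4 * Le w = 0) ∧
  ∀ δ : ℝ, 0 < δ → ∃ C : ℝ, 0 < C ∧ ∀ w : ℂ, 1 + w / 2 ∈ slitPlane →
    (∀ x ∈ Icc (0 : ℝ) 1, δ * (1 + ‖w‖ * x) ≤ ‖1 + w / 2 * x‖) →
    ‖Le1 w‖ ≤ C * (1 + ‖w‖) ^ (-(5 / 4) : ℝ)

/-- W2: geometry of the argument -/
def tGEO : Prop :=
  (∀ D : ℂ, |D.im| < Real.pi / 2 → 0 < (Complex.cosh D).re) ∧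
  (∀ (D : ℂ) (h x : ℝ), |D.im| < Real.pi / 2 → |x| ≤ |h| → 1 + wk D h x / 2 ∈ slitPlane ∧
    ∀ y ∈ Icc (0 : ℝ) 1, Real.cos D.im / 2 * (1 + ‖wk D h x‖ * y) ≤ ‖1 + wk D h x / 2 * y‖) ∧
  (∀ b h x : ℝ, |b| < Real.pi / 2 → |x| ≤ |h| → ∀ y ∈ Icc (0 : ℝ) 1,
    1 / 3 * (1 + ‖wk (b * I) h x‖ * y) ≤ ‖1 + wk (b * I) h x / 2 * y‖)

/-- W3: the product formula -/
def tPROD : Prop := ∀ (κ : ℝ) (q : ℂ → ℂ), DifferentiableOn ℂ q S0 →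
  (∀ d ∈ S0, deriv (deriv q) d = -((κ ^ 2 : ℝ) - 1 / 4 / Complex.cosh d ^ 2) * q d) →
  ∀ D ∈ S0, ∀ h : ℝ, 0 ≤ h → Wo q h D = Real.cos (κ * h) * q D

/-- W4: kernel bounds, uniform on the imaginary axis -/
def tK1 : Prop :=
  (∃ C : ℝ, 0 < C ∧ ∀ b : ℝ, |b| < Real.pi / 2 → ∀ h : ℝ, 0 ≤ h →
    ∫ x in (-h)..h, ‖Kk (b * I) h x‖ ≤ C) ∧
  ∀ b : ℝ, |b| < Real.pi / 2 → ∀ A ε : ℝ, 0 < ε → ∃ h₀, ∀ h, h₀ ≤ h → ∀ x, |x| ≤ A →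
    ‖Kk (b * I) h x‖ ≤ ε

/-- W5: kernel bounds on discs -/
def tK2 : Prop :=
  (∀ D ∈ S0, ∀ h : ℝ, 0 ≤ h → ContinuousOn (Kk D h) (Icc (-h) h)) ∧
  ∀ R : ℝ, 0 < R → R < Real.pi / 2 → ∃ C : ℝ, 0 < C ∧ ∀ D : ℂ, ‖D‖ ≤ R → ∀ h : ℝ, 0 ≤ h →
    ∫ x in (-h)..h, ‖Kk D h x‖ ≤ C

/-- W6: the wave operator preserves analyticity -/
def tWAN : Prop := ∀ G : ℂ → ℂ, DifferentiableOn ℂ G S0 → ∀ h : ℝ, 0 ≤ h →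
  DifferentiableOn ℂ (Wo G h) S0

/-- W7: transposition -/
def tWT : Prop := ∀ (G : ℂ → ℂ) (Y : ℝ → ℝ) (h : ℝ), DifferentiableOn ℂ G S0 → Tst Y → 0 ≤ h →
  Tst (WoR Y h) ∧ ∫ D : ℝ, Wo G h D * Y D = ∫ D : ℝ, G D * WoR Y h D

/-- W8: simultaneous recurrence -/
def tDIR : Prop := ∀ κ : ℕ → ℝ, ∃ h : ℕ → ℝ, (∀ n : ℕ, (n : ℝ) ≤ h n) ∧
  ∀ j, Tendsto (fun n => Real.cos (κ j * h n)) atTop (𝓝 1)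

/-- W9: weak convergence on the real line implies convergence in the disc -/
def tVIT : Prop := ∀ (R M : ℝ) (f : ℕ → ℂ → ℂ) (F : ℂ → ℂ), 0 < R →
  (∀ n, DifferentiableOn ℂ (f n) (Metric.ball 0 R)) → DifferentiableOn ℂ F (Metric.ball 0 R) →
  (∀ n, ∀ z ∈ Metric.ball (0 : ℂ) R, ‖f n z‖ ≤ M ∧ f n (-z) = f n z) →
  (∀ z ∈ Metric.ball (0 : ℂ) R, F (-z) = F z) →
  (∀ Y : ℝ → ℝ, Tst Y → (∀ t, R / 2 ≤ |t| → Y t = 0) →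
    Tendsto (fun n => ∫ D : ℝ, f n D * Y D) atTop (𝓝 (∫ D : ℝ, F D * Y D))) →
  ∀ z ∈ Metric.ball (0 : ℂ) R, Tendsto (fun n => f n z) atTop (𝓝 (F z))

/-- W10: the noncuspidal part disperses -/
def tDISP : Prop := ∀ H : ℝ → ℂ, AEStronglyMeasurable H volume →
  (∀ b' < Real.pi / 2, Integrable (fun t => ‖H t‖ * Real.exp (b' * |t|))) →
  DifferentiableOn ℂ (fun d => ∫ t : ℝ, H t * Jk t d) S0 ∧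
  (∀ b, 0 < b → b < Real.pi / 2 → ∃ C, ∀ d : ℂ, |d.im| ≤ b → ∀ h : ℝ, 0 ≤ h → ‖d.re‖ ≤ 2 →
    ‖Wo (fun d => (Complex.cosh d) ^ (1 / 2 : ℂ) * ∫ t : ℝ, H t * Jk t d) h d‖ ≤ C) ∧
  ∀ D ∈ S0, Tendsto (fun h : ℝ =>
    Wo (fun d => (Complex.cosh d) ^ (1 / 2 : ℂ) * ∫ t : ℝ, H t * Jk t d) h D) atTop (𝓝 0)

/-- the equation of q_κ -/
def tQK : Prop := ∀ κ : ℝ, DifferentiableOn ℂ (qk κ) S0 ∧ (∀ d ∈ S0, qk κ (-d) = qk κ d) ∧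
  ∀ d ∈ S0, deriv (deriv (qk κ)) d = -((κ ^ 2 : ℝ) - 1 / 4 / Complex.cosh d ^ 2) * qk κ d

end FMZ
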