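import Pool.Agent.FMZ.TE
import Pool.Agent.FMZ.TW

/-!
# FMZ-E16: the residual function is killed by 𝒟^5
-/

open Complex MeasureTheory Set Filter Topology

namespace FMZ

namespace ERD_

theorem isOpen_S0 : IsOpen S0 := by
  have h : Continuous (fun d : ℂ => |d.im|) := continuous_im.abs
  exact isOpen_lt h continuous_const

/-- a family of analytic functions on the strip, locally uniformly bounded -/
structure LFam (μ : Measure ℝ) (K : ℝ → ℂ → ℂ) : Prop where
  diff : ∀ t, DifferentiableOn ℂ (K t) S0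
  meas : ∀ d ∈ S0, AEStronglyMeasurable (fun t => K t d) μ
  bnd : ∀ b A, 0 < b → b < Real.pi / 2 → 0 < A → ∃ C : ℝ, 0 ≤ C ∧
    ∀ (t : ℝ) (d : ℂ), |d.im| ≤ b → |d.re| ≤ A → ‖K t d‖ ≤ C

theorem sub_im_le (z d : ℂ) : |z.im| ≤ |d.im| + ‖z - d‖ := by
  have h1 : |(z - d).im| ≤ ‖z - d‖ := Complex.abs_im_le_norm _
  have h2 : z.im = d.im + (z - d).im := by rw [Complex.sub_im]; ring
  rw [h2]
  exact (abs_add_le _ _).trans (by linarith)

theorem sub_re_le (z d : ℂ) : |z.re| ≤ |d.re| + ‖z - d‖ := by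
  have h1 : |(z - d).re| ≤ ‖z - d‖ := Complex.abs_re_le_norm _
  have h2 : z.re = d.re + (z - d).re := by rw [Complex.sub_re]; ring
  rw [h2]
  exact (abs_add_le _ _).trans (by linarith)

variable {μ : Measure ℝ}

theorem LFam.der {K : ℝ → ℂ → ℂ} (h : LFam μ K) : LFam μ (fun t => deriv (K t)) := by
  refine ⟨fun t => (h.diff t).deriv isOpen_S0, ?_, ?_⟩
  · intro d hd
    have hu : Tendsto (fun n : ℕ => (((1 / ((n : ℝ) + 1) : ℝ)) : ℂ)) atTop (𝓝[≠] 0) := by
      rw [tendsto_nhdsWithin_iff]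
      constructor
      · have h1 := tendsto_one_div_add_atTop_nhds_zero_nat (𝕜 := ℝ)
        have h2 := (Complex.continuous_ofReal.tendsto 0).comp h1
        rw [Complex.ofReal_zero] at h2
        exact h2
      · refine Eventually.of_forall fun n => ?_
        have : (0 : ℝ) < 1 / ((n : ℝ) + 1) := by positivity
        simp only [mem_compl_iff, mem_singleton_iff]
        exact_mod_cast this.ne'
    refine aestronglyMeasurable_of_tendsto_ae atTop
      (f := fun (n : ℕ) (t : ℝ) => (((1 / ((n : ℝ) + 1) : ℝ)) : ℂ)⁻¹ •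
        (K t (d + (((1 / ((n : ℝ) + 1) : ℝ)) : ℂ)) - K t d)) ?_ ?_
    · intro n
      have hm : d + (((1 / ((n : ℝ) + 1) : ℝ)) : ℂ) ∈ S0 := by
        have hd' : |d.im| < Real.pi / 2 := hd
        show |(d + (((1 / ((n : ℝ) + 1) : ℝ)) : ℂ)).im| < Real.pi / 2
        rw [Complex.add_im, Complex.ofReal_im, add_zero]
        exact hd'
      exact ((h.meas _ hm).sub (h.meas d hd)).const_smul (((1 / ((n : ℝ) + 1) : ℝ)) : ℂ)⁻¹
    · refine Eventually.of_forall fun t => ?_
      have hdv : HasDerivAt (K t) (deriv (K t) d) d :=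
        ((h.diff t).differentiableAt (isOpen_S0.mem_nhds hd)).hasDerivAt
      rw [hasDerivAt_iff_tendsto_slope_zero] at hdv
      exact hdv.comp hu
  · intro b A hb hb2 hA
    set b1 : ℝ := (b + Real.pi / 2) / 2 with hb1
    have h1 : b < b1 := by rw [hb1]; linarith
    have h2 : b1 < Real.pi / 2 := by rw [hb1]; linarith
    have hr : 0 < b1 - b := by linarith
    obtain ⟨C, hC, hK⟩ := h.bnd b1 (A + (b1 - b)) (by linarith) h2 (by linarith)
    refine ⟨C / (b1 - b), by positivity, ?_⟩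
    intro t d hd hd'
    have hball : ∀ z : ℂ, ‖z - d‖ ≤ b1 - b → |z.im| ≤ b1 ∧ |z.re| ≤ A + (b1 - b) := fun z hz => by
      have := sub_im_le z d
      have := sub_re_le z d
      constructor <;> linarith
    have hdc : DiffContOnCl ℂ (K t) (Metric.ball d (b1 - b)) := by
      apply DifferentiableOn.diffContOnCl
      rw [closure_ball d hr.ne']
      apply (h.diff t).mono
      intro z hz
      rw [Metric.mem_closedBall, dist_eq_norm] at hz
      exact lt_of_le_of_lt (hball z hz).1 h2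
    exact Complex.norm_deriv_le_of_forall_mem_sphere_norm_le (F := ℂ) hr hdc
      (C := C) (fun z hz => by
        rw [mem_sphere_iff_norm] at hz
        exact hK t z (hball z hz.le).1 (hball z hz.le).2)

theorem LFam.int {K : ℝ → ℂ → ℂ} (h : LFam μ K) {H : ℝ → ℂ} (hi : Integrable H μ)
    {d : ℂ} (hd : d ∈ S0) : Integrable (fun t => H t * K t d) μ := by
  have hd' : |d.im| < Real.pi / 2 := hd
  have hpi := Real.pi_pos
  obtain ⟨C, hC, hK⟩ := h.bnd ((|d.im| + Real.pi / 2) / 2) (|d.re| + 1)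
    (by have := abs_nonneg d.im; linarith) (by linarith) (by positivity)
  refine Integrable.mono' (hi.norm.const_mul C) (hi.aestronglyMeasurable.mul (h.meas d hd)) ?_
  refine Eventually.of_forall fun t => ?_
  rw [norm_mul]
  have h1 := hK t d (by linarith) (by linarith)
  calc ‖H t‖ * ‖K t d‖ ≤ ‖H t‖ * C :=
        mul_le_mul_of_nonneg_left h1 (norm_nonneg _)
    _ = C * ‖H t‖ := by ring

theorem LFam.hasDeriv {K : ℝ → ℂ → ℂ} (h : LFam μ K) {H : ℝ → ℂ} (hi : Integrable H μ)
    {d : ℂ} (hd : d ∈ S0) :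
    HasDerivAt (fun z => ∫ t, H t * K t z ∂μ) (∫ t, H t * deriv (K t) d ∂μ) d := by
  have hd' : |d.im| < Real.pi / 2 := hd
  have hpi := Real.pi_pos
  set b : ℝ := (|d.im| + Real.pi / 2) / 2 with hb
  have hb0 : 0 < b := by have := abs_nonneg d.im; linarith
  have hb1 : |d.im| < b := by linarith
  have hb2 : b < Real.pi / 2 := by linarith
  obtain ⟨C, hC, hK⟩ := h.der.bnd b (|d.re| + 1) hb0 hb2 (by positivity)
  have hopen : IsOpen {z : ℂ | |z.im| < b ∧ |z.re| < |d.re| + 1} :=
    (isOpen_lt (continuous_im.abs) continuous_const).inter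
      (isOpen_lt (continuous_re.abs) continuous_const)
  refine (hasDerivAt_integral_of_dominated_loc_of_deriv_le
    (F := fun z t => H t * K t z) (F' := fun z t => H t * deriv (K t) z)
    (s := {z : ℂ | |z.im| < b ∧ |z.re| < |d.re| + 1}) (bound := fun t => C * ‖H t‖)
    (hopen.mem_nhds ⟨hb1, by linarith⟩) ?_ (h.int hi hd) ?_ ?_ (hi.norm.const_mul C) ?_).2
  · filter_upwards [isOpen_S0.mem_nhds hd] with z hz
    exact hi.aestronglyMeasurable.mul (h.meas z hz)
  · exact hi.aestronglyMeasurable.mul (h.der.meas d hd)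
  · refine Eventually.of_forall fun t z hz => ?_
    have hz' : |z.im| < b ∧ |z.re| < |d.re| + 1 := hz
    rw [norm_mul]
    calc ‖H t‖ * ‖deriv (K t) z‖ ≤ ‖H t‖ * C :=
          mul_le_mul_of_nonneg_left (hK t z hz'.1.le hz'.2.le) (norm_nonneg _)
      _ = C * ‖H t‖ := by ring
  · refine Eventually.of_forall fun t z hz => ?_
    have hz' : |z.im| < b ∧ |z.re| < |d.re| + 1 := hz
    have hzS : z ∈ S0 := lt_trans hz'.1 hb2
    exact (((h.diff t).differentiableAt (isOpen_S0.mem_nhds hzS)).hasDerivAt).const_mul _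

/-- the radial operator under the integral sign -/
theorem LFam.DD_int {K : ℝ → ℂ → ℂ} (h : LFam μ K) {H : ℝ → ℂ} (hi : Integrable H μ)
    {d : ℂ} (hd : d ∈ S0) :
    DD (fun z => ∫ t, H t * K t z ∂μ) d = ∫ t, H t * DD (K t) d ∂μ := by
  have h1 : deriv (fun z => ∫ t, H t * K t z ∂μ) d = ∫ t, H t * deriv (K t) d ∂μ :=
    (h.hasDeriv hi hd).deriv
  have h2 : deriv (deriv (fun z => ∫ t, H t * K t z ∂μ)) d =
      ∫ t, H t * deriv (deriv (K t)) d ∂μ := by
    have he : deriv (fun z => ∫ t, H t * K t z ∂μ) =ᶠ[𝓝 d]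
        fun z => ∫ t, H t * deriv (K t) z ∂μ := by
      filter_upwards [isOpen_S0.mem_nhds hd] with z hz
      exact (h.hasDeriv hi hz).deriv
    rw [he.deriv_eq]
    exact (h.der.hasDeriv hi hd).deriv
  show -(deriv (deriv (fun z => ∫ t, H t * K t z ∂μ)) d +
    Complex.tanh d * deriv (fun z => ∫ t, H t * K t z ∂μ) d) = _
  rw [h1, h2, ← integral_const_mul, ← integral_add (h.der.der.int hi hd)
    ((h.der.int hi hd).const_mul _), ← integral_neg]
  apply integral_congr_ae
  refine Eventually.of_forall fun t => ?_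
  show -(H t * deriv (deriv (K t)) d + Complex.tanh d * (H t * deriv (K t) d)) =
    H t * -(deriv (deriv (K t)) d + Complex.tanh d * deriv (K t) d)
  ring

/-- iterates of the radial operator, for families of eigenfunctions -/
theorem LFam.iter {K : ℝ → ℂ → ℂ} (h : LFam μ K) (h3 : tDDL) {ev : ℝ → ℂ}
    (hev : Continuous ev) (hb : ∃ C : ℝ, ∀ t, ‖ev t‖ ≤ C)
    (hK : ∀ t, ∀ d ∈ S0, DD (K t) d = ev t * K t d) (M : ℕ) :
    ∀ H : ℝ → ℂ, Integrable H μ → ∀ d ∈ S0,
      (DD^[M] (fun z => ∫ t, H t * K t z ∂μ)) d = ∫ t, (H t * ev t ^ M) * K t d ∂μ := by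
  induction M with
  | zero => intro H _ d _; simp
  | succ M ih =>
    intro H hi d hd
    rw [Function.iterate_succ_apply]
    have hstep : ∀ z ∈ S0, DD (fun z => ∫ t, H t * K t z ∂μ) z =
        ∫ t, (H t * ev t) * K t z ∂μ := by
      intro z hz
      rw [h.DD_int hi hz]
      apply integral_congr_ae
      refine Eventually.of_forall fun t => ?_
      show H t * DD (K t) z = H t * ev t * K t z
      rw [hK t z hz]
      ring
    have hi' : Integrable (fun t => H t * ev t) μ := by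
      obtain ⟨C, hC⟩ := hb
      exact hi.mul_bdd hev.aestronglyMeasurable (Eventually.of_forall hC)
    rw [h3.2.2.1 _ _ hstep M d hd, ih _ hi' d hd]
    apply integral_congr_ae
    refine Eventually.of_forall fun t => ?_
    show H t * ev t * ev t ^ M * K t d = H t * ev t ^ (M + 1) * K t d
    ring

theorem re_pos {r : ℝ} (hr : r ≤ 1 / 8) {s : ℂ} (hs : ‖s - 1‖ ≤ r) : 7 / 8 ≤ s.re := by
  have h1 := Complex.abs_re_le_norm (s - 1)
  rw [Complex.sub_re, Complex.one_re] at h1
  have h2 := abs_le.1 (h1.trans hs)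
  linarith [h2.1]

/-- analyticity of the coefficient -/
theorem bq_diff (h1 : tX) {r : ℝ} (hr : Rad r) {s : ℂ} (hs : ‖s - 1‖ ≤ r) (hs1 : s ≠ 1) :
    DifferentiableAt ℂ bq s := by
  have hre := re_pos hr.2.1 hs
  have hs0 : s ≠ 0 := by
    rintro rfl
    rw [Complex.zero_re] at hre
    linarith
  have hX : Differentiable ℂ X1 := h1.1
  have hA : X1 (2 * s - 1) ≠ 0 := by
    apply hr.2.2
    have : (2 * s - 1 - 1 : ℂ) = 2 * (s - 1) := by ring
    rw [this, norm_mul]
    simp only [Complex.norm_ofNat]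
    linarith
  have hB : X1 (2 * s) ≠ 0 := by
    apply h1.2.2.2.2.2.2.1
    have : (2 * s : ℂ).re = 2 * s.re := by simp
    rw [this]
    linarith
  have hd : (s * (s - 1)) ^ 3 * X1 (2 * s - 1) * X1 (2 * s) ≠ 0 := by
    refine mul_ne_zero (mul_ne_zero (pow_ne_zero _ (mul_ne_zero hs0 (sub_ne_zero.2 hs1))) hA) hB
  unfold bq
  have e1 : DifferentiableAt ℂ (fun s : ℂ => X1 (2 * s - 1)) s :=
    (hX _).comp s (by fun_prop)
  have e2 : DifferentiableAt ℂ (fun s : ℂ => X1 (2 * s)) s :=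
    (hX _).comp s (by fun_prop)
  have e3 : DifferentiableAt ℂ X1 s := hX s
  refine DifferentiableAt.div ?_ ?_ hd
  · fun_prop
  · fun_prop

/-- the coefficient on the circle -/
noncomputable def cf (s : ℂ) : ℂ := bq s * ((Real.pi : ℂ) ^ (-s) * Gamma s * riemannZeta s ^ 2)

theorem cf_diff (h1 : tX) {r : ℝ} (hr : Rad r) {s : ℂ} (hs : ‖s - 1‖ ≤ r) (hs1 : s ≠ 1) :
    DifferentiableAt ℂ cf s := by
  have hre := re_pos hr.2.1 hs
  unfold cf
  refine (bq_diff h1 hr hs hs1).mul ((DifferentiableAt.mul ?_ ?_).mul ?_)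
  · refine DifferentiableAt.const_cpow (by fun_prop) (Or.inl ?_)
    exact_mod_cast Real.pi_ne_zero
  · apply Complex.differentiableAt_Gamma
    intro m hm
    rw [hm, Complex.neg_re, Complex.natCast_re] at hre
    have : (0 : ℝ) ≤ m := Nat.cast_nonneg m
    linarith
  · exact (differentiableAt_riemannZeta hs1).pow 2

/-- the analytic extension of the integrand -/
noncomputable def ext (d s : ℂ) : ℂ :=
  -(4 * (2 * s - 1) ^ 2 * X1 s ^ 6 * Gamma s * ((Gamma (s / 2))⁻¹) ^ 2 * JJ s 0 d /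
    (X1 (2 * s - 1) * X1 (2 * s)))

theorem ext_diff (h1 : tX) (h2 : tJAN) {r : ℝ} (hr : Rad r) {d : ℂ} (hd : d ∈ S0) {s : ℂ}
    (hs : ‖s - 1‖ ≤ r) : DifferentiableAt ℂ (ext d) s := by
  have hre := re_pos hr.2.1 hs
  have hX : Differentiable ℂ X1 := h1.1
  have hA : X1 (2 * s - 1) ≠ 0 := by
    apply hr.2.2
    have : (2 * s - 1 - 1 : ℂ) = 2 * (s - 1) := by ring
    rw [this, norm_mul]
    simp only [Complex.norm_ofNat]
    linarith
  have hB : X1 (2 * s) ≠ 0 := by
    apply h1.2.2.2.2.2.2.1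
    have : (2 * s : ℂ).re = 2 * s.re := by simp
    rw [this]
    linarith
  have e1 : DifferentiableAt ℂ (fun s : ℂ => X1 (2 * s - 1)) s :=
    (hX _).comp s (by fun_prop)
  have e2 : DifferentiableAt ℂ (fun s : ℂ => X1 (2 * s)) s :=
    (hX _).comp s (by fun_prop)
  have e3 : DifferentiableAt ℂ X1 s := hX s
  have e4 : DifferentiableAt ℂ Gamma s := by
    apply Complex.differentiableAt_Gamma
    intro m hm
    rw [hm, Complex.neg_re, Complex.natCast_re] at hre
    have : (0 : ℝ) ≤ m := Nat.cast_nonneg m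
    linarith
  have e5 : DifferentiableAt ℂ (fun s : ℂ => (Gamma (s / 2))⁻¹) s :=
    (Complex.differentiable_one_div_Gamma _).comp s (by fun_prop)
  have e6 : DifferentiableAt ℂ (fun s : ℂ => JJ s 0 d) s := by
    refine (h2.2.2.1 0 d hd).differentiableAt ?_
    have : IsOpen {s : ℂ | |(0 : ℂ).re| < s.re} := isOpen_lt continuous_const continuous_re
    refine this.mem_nhds ?_
    show |(0 : ℂ).re| < s.re
    rw [Complex.zero_re, abs_zero]
    linarith
  unfold ext
  refine DifferentiableAt.neg (DifferentiableAt.div ?_ (e1.mul e2) (mul_ne_zero hA hB))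
  refine (((((?_ : DifferentiableAt ℂ (fun s : ℂ => 4 * (2 * s - 1) ^ 2) s).mul
    (e3.pow 6)).mul e4).mul (e5.pow 2)).mul e6)
  fun_prop

theorem ext_eq (h1 : tX) {r : ℝ} (hr : Rad r) {d s : ℂ}
    (hs : ‖s - 1‖ ≤ r) (hs1 : s ≠ 1) : cf s * (s * (1 - s)) ^ 5 * JJ s 0 d = ext d s := by
  have hre := re_pos hr.2.1 hs
  have hs0 : s ≠ 0 := by
    rintro rfl
    rw [Complex.zero_re] at hre
    linarith
  have hA : X1 (2 * s - 1) ≠ 0 := by
    apply hr.2.2
    have : (2 * s - 1 - 1 : ℂ) = 2 * (s - 1) := by ring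
    rw [this, norm_mul]
    simp only [Complex.norm_ofNat]
    linarith
  have hB : X1 (2 * s) ≠ 0 := by
    apply h1.2.2.2.2.2.2.1
    have : (2 * s : ℂ).re = 2 * s.re := by simp
    rw [this]
    linarith
  have hx : xi s = X1 s / (s * (s - 1)) := h1.2.2.2.2.2.1 s hs0 hs1
  have hz : xi s = (Real.pi : ℂ) ^ (-s / 2) * Gamma (s / 2) * riemannZeta s :=
    h1.2.2.2.2.2.2.2.2.2.1 s hs0 hs1 (by linarith)
  have hG : Gamma (s / 2) ≠ 0 := by
    apply Complex.Gamma_ne_zero_of_re_pos
    have : (s / 2 : ℂ).re = s.re / 2 := by simp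
    rw [this]
    linarith
  have hpi : (Real.pi : ℂ) ≠ 0 := by exact_mod_cast Real.pi_ne_zero
  have hP : (Real.pi : ℂ) ^ (-s / 2) ≠ 0 := by
    rw [Complex.cpow_ne_zero_iff]
    exact Or.inl hpi
  have hPP : (Real.pi : ℂ) ^ (-s) = (Real.pi : ℂ) ^ (-s / 2) * (Real.pi : ℂ) ^ (-s / 2) := by
    rw [← Complex.cpow_add _ _ hpi]
    congr 1
    ring
  have hs1' : s - 1 ≠ 0 := sub_ne_zero.2 hs1
  have key : (Real.pi : ℂ) ^ (-s) * riemannZeta s ^ 2 * (s * (s - 1)) ^ 2 =
      X1 s ^ 2 * ((Gamma (s / 2))⁻¹) ^ 2 := by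
    have e : X1 s = (Real.pi : ℂ) ^ (-s / 2) * Gamma (s / 2) * riemannZeta s * (s * (s - 1)) := by
      rw [← hz, hx]
      field_simp
    rw [e, hPP]
    field_simp
  unfold cf ext bq
  have e2 : (s * (1 - s)) ^ 5 = -((s * (s - 1)) ^ 3 * (s * (s - 1)) ^ 2) := by ring
  rw [e2]
  have h3 : (s * (s - 1)) ^ 3 ≠ 0 := pow_ne_zero _ (mul_ne_zero hs0 hs1')
  calc 4 * (2 * s - 1) ^ 2 * X1 s ^ 4 / ((s * (s - 1)) ^ 3 * X1 (2 * s - 1) * X1 (2 * s)) *
        ((Real.pi : ℂ) ^ (-s) * Gamma s * riemannZeta s ^ 2) *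
        -((s * (s - 1)) ^ 3 * (s * (s - 1)) ^ 2) * JJ s 0 d
      = -(4 * (2 * s - 1) ^ 2 * X1 s ^ 4 * Gamma s *
          ((Real.pi : ℂ) ^ (-s) * riemannZeta s ^ 2 * (s * (s - 1)) ^ 2) * JJ s 0 d /
          (X1 (2 * s - 1) * X1 (2 * s))) := by
        field_simp
    _ = _ := by
        rw [key]
        ring

theorem circle_eq (f : ℂ → ℂ) (r : ℝ) : (1 / (2 * Real.pi * I)) * ∮ s in C(1, r), f s =
    ∫ θ in uIoc 0 (2 * Real.pi), (1 / (2 * Real.pi * I) * deriv (circleMap 1 r) θ) *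
      f (circleMap 1 r θ) := by
  unfold circleIntegral
  rw [intervalIntegral.integral_of_le (by positivity), ← integral_const_mul,
    uIoc_of_le (by positivity)]
  apply integral_congr_ae
  refine Eventually.of_forall fun θ => ?_
  show 1 / (2 * Real.pi * I) * (deriv (circleMap 1 r) θ • f (circleMap 1 r θ)) = _
  rw [smul_eq_mul]
  ring

theorem on_circle {r : ℝ} (hr : 0 < r) (θ : ℝ) :
    ‖circleMap 1 r θ - 1‖ ≤ r ∧ circleMap 1 r θ ≠ 1 := by
  have h : ‖circleMap 1 r θ - 1‖ = r := by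
    rw [circleMap_sub_center, circleMap]
    simp [abs_of_pos hr]
  refine ⟨h.le, ?_⟩
  intro h0
  rw [h0, sub_self, norm_zero] at h
  linarith

end ERD_

open ERD_ in
theorem pRD (h1 : tX) (h2 : tJAN) (h3 : tJBD) (h4 : tDDL) : tRD := by
  intro r hr
  set μ : Measure ℝ := volume.restrict (uIoc 0 (2 * Real.pi)) with hμ
  set K : ℝ → ℂ → ℂ := fun θ d => JJ (circleMap 1 r θ) 0 d with hK
  set H : ℝ → ℂ := fun θ => (1 / (2 * Real.pi * I) * deriv (circleMap 1 r) θ) *
    cf (circleMap 1 r θ) with hH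
  set ev : ℝ → ℂ := fun θ => circleMap 1 r θ * (1 - circleMap 1 r θ) with hev
  have hcirc := fun θ => on_circle hr.1 θ
  have hre := fun θ => re_pos hr.2.1 (hcirc θ).1
  have hfam : LFam μ K := by
    refine ⟨?_, ?_, ?_⟩
    · intro θ
      refine (h2.1 _ 0 ?_).1
      rw [Complex.zero_re, abs_zero]
      linarith [hre θ]
    · intro d hd
      apply Continuous.aestronglyMeasurable
      have hc : ContinuousOn (fun s => JJ s 0 d) {s : ℂ | |(0 : ℂ).re| < s.re} :=
        (h2.2.2.1 0 d hd).continuousOn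
      refine hc.comp_continuous (continuous_circleMap 1 r) ?_
      intro θ
      show |(0 : ℂ).re| < (circleMap 1 r θ).re
      rw [Complex.zero_re, abs_zero]
      linarith [hre θ]
    · intro b A hb hb2 hA
      obtain ⟨C, hC⟩ := h3 (7 / 8) 2 b A (by norm_num) hb2
      refine ⟨|C| * Real.exp b, by positivity, ?_⟩
      intro θ d hd hd'
      have hn := (hcirc θ).1
      have hr8 := hr.2.1
      have e1 : (circleMap 1 r θ).re ≤ 2 := by
        have h1 := Complex.abs_re_le_norm (circleMap 1 r θ - 1)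
        rw [Complex.sub_re, Complex.one_re] at h1
        have h2 := abs_le.1 (h1.trans hn)
        linarith [h2.2]
      have e2 : |(circleMap 1 r θ).im| ≤ 1 := by
        have h1 := Complex.abs_im_le_norm (circleMap 1 r θ - 1)
        rw [Complex.sub_im, Complex.one_im, sub_zero] at h1
        linarith
      calc ‖JJ (circleMap 1 r θ) 0 d‖ ≤ C * Real.exp (b * |(circleMap 1 r θ).im|) :=
            hC _ d (hre θ) e1 hd hd'
        _ ≤ |C| * Real.exp (b * |(circleMap 1 r θ).im|) :=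
            mul_le_mul_of_nonneg_right (le_abs_self C) (Real.exp_pos _).le
        _ ≤ |C| * Real.exp b := by
            apply mul_le_mul_of_nonneg_left _ (abs_nonneg C)
            apply Real.exp_le_exp.2
            nlinarith
  have hcfc : Continuous (fun θ : ℝ => cf (circleMap 1 r θ)) := by
    rw [continuous_iff_continuousAt]
    intro θ
    exact ContinuousAt.comp (g := cf) (cf_diff h1 hr (hcirc θ).1 (hcirc θ).2).continuousAt
      (continuous_circleMap 1 r).continuousAt
  have hHc : Continuous H := by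
    rw [hH]
    refine Continuous.mul (continuous_const.mul ?_) hcfc
    have : deriv (circleMap (1 : ℂ) r) = fun θ => circleMap 0 r θ * I := by
      funext θ
      exact deriv_circleMap 1 r θ
    rw [this]
    exact (continuous_circleMap 0 r).mul continuous_const
  have hHi : Integrable H μ := by
    rw [hμ, uIoc_of_le (by positivity)]
    exact (hHc.integrableOn_Icc).mono_set Ioc_subset_Icc_self
  have hRd : ∀ d, Rd r d = ∫ θ, H θ * K θ d ∂μ := by
    intro d
    unfold Rd
    have := circle_eq (fun s => bq s * ((Real.pi : ℂ) ^ (-s) * Gamma s * riemannZeta s ^ 2 *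
      JJ s 0 d)) r
    rw [this]
    apply integral_congr_ae
    refine Eventually.of_forall fun θ => ?_
    simp only [hH, hK, cf]
    ring
  have hRdf : Rd r = fun d => ∫ θ, H θ * K θ d ∂μ := funext hRd
  have hevc : Continuous ev := by
    have := continuous_circleMap (1 : ℂ) r
    exact this.mul (continuous_const.sub this)
  have hevb : ∃ C : ℝ, ∀ t, ‖ev t‖ ≤ C := by
    refine ⟨2 * 1, fun θ => ?_⟩
    have hn := (hcirc θ).1
    have hr8 := hr.2.1
    have e1 : ‖circleMap 1 r θ‖ ≤ 2 := by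
      calc ‖circleMap 1 r θ‖ = ‖(circleMap 1 r θ - 1) + 1‖ := by ring_nf
        _ ≤ ‖circleMap 1 r θ - 1‖ + ‖(1 : ℂ)‖ := norm_add_le _ _
        _ ≤ 2 := by rw [norm_one]; linarith
    have e2 : ‖1 - circleMap 1 r θ‖ ≤ 1 := by
      rw [norm_sub_rev]
      linarith
    show ‖circleMap 1 r θ * (1 - circleMap 1 r θ)‖ ≤ 2 * 1
    rw [norm_mul]
    exact mul_le_mul e1 e2 (norm_nonneg _) (by norm_num)
  have hKe : ∀ θ, ∀ d ∈ S0, DD (K θ) d = ev θ * K θ d := by
    intro θ d hd
    exact h2.2.1 _ (by linarith [hre θ]) d hd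
  refine ⟨?_, ?_⟩
  · rw [hRdf]
    intro d hd
    exact (hfam.hasDeriv hHi hd).differentiableAt.differentiableWithinAt
  · intro d hd
    rw [hRdf, hfam.iter h4 hevc hevb hKe 5 H hHi d hd]
    have e1 : ∫ θ, (H θ * ev θ ^ 5) * K θ d ∂μ =
        (1 / (2 * Real.pi * I)) * ∮ s in C(1, r), ext d s := by
      rw [circle_eq (ext d) r]
      apply integral_congr_ae
      refine Eventually.of_forall fun θ => ?_
      show (1 / (2 * Real.pi * I) * deriv (circleMap 1 r) θ) * cf (circleMap 1 r θ) *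
        (circleMap 1 r θ * (1 - circleMap 1 r θ)) ^ 5 * JJ (circleMap 1 r θ) 0 d =
        1 / (2 * Real.pi * I) * deriv (circleMap 1 r) θ * ext d (circleMap 1 r θ)
      rw [← ext_eq h1 hr (hcirc θ).1 (hcirc θ).2]
      ring
    rw [e1]
    have e2 : (∮ s in C(1, r), ext d s) = 0 := by
      refine Complex.circleIntegral_eq_zero_of_differentiable_on_off_countable hr.1.le
        (s := ∅) countable_empty ?_ ?_
      · intro s hs
        rw [Metric.mem_closedBall, dist_eq_norm] at hs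
        exact (ext_diff h1 h2 hr hd hs).continuousAt.continuousWithinAt
      · intro s hs
        have hs' := hs.1
        rw [Metric.mem_ball, dist_eq_norm] at hs'
        exact ext_diff h1 h2 hr hd hs'.le
    rw [e2, mul_zero]

end FMZ
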