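import Pool.Agent.FMZ.Defs

/-!
# FMZ: block interfaces
-/

open Complex MeasureTheory Set Filter Topology

namespace FMZ

/-- block S: weak spectral expansion of the ray integrals of a cuspidal function -/
def SPEC : Prop := ∀ F : ℝ → ℝ → ℂ, Aut F → Cusp F → Small F →
  ∃ (κ : ℕ → ℝ) (c : ℕ → ℂ), ∀ X : ℝ → ℝ, Tst X →
    Summable (fun j => ‖c j * ∫ t : ℝ, Jk (κ j) (Real.arsinh t : ℝ) * X t‖) ∧
    ∑' j, c j * ∫ t : ℝ, Jk (κ j) (Real.arsinh t : ℝ) * X t = ∫ t : ℝ, ray F t * X t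

/-- block E: the cuspidal part of E(z,1/2)^2 and its ray integrals -/
def EISEN : Prop := ∃ (F : ℝ → ℝ → ℂ) (R : ℂ → ℂ), Aut F ∧ Cusp F ∧ Small F ∧
  DifferentiableOn ℂ R S0 ∧ (∀ d ∈ S0, (DD^[5] R) d = 0) ∧
  ∀ d : ℝ, ray F (Real.sinh d) = B0 d - R d - Pc d

/-- block Z1: behaviour at infinity under the hypothesis -/
def ZINF : Prop := ∀ (P : Polynomial ℝ) (C : ℝ), Hyp P C →
  ∃ (Q : Polynomial ℂ) (C₀ : ℝ), ∀ b, 0 < b → b < Real.pi / 2 → ∃ A, ∀ d : ℂ, |d.im| ≤ b →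
    A ≤ d.re → ‖B0 d - Q.eval d‖ ≤ C₀ * Real.exp (-(d.re / 2)) / √(Real.pi / 2 - b)

/-- block Z2: behaviour near iπ/2 -/
def ZIM : Prop := ∃ C ψ₀ : ℝ, ψ₀ < Real.pi / 2 ∧ ∀ ψ, ψ₀ < ψ → ψ < Real.pi / 2 →
  ‖B0 (ψ * I) - (8 / 3 : ℝ) * ((-Real.log (Real.cos ψ)) ^ 3 / Real.cos ψ : ℝ)‖ ≤
    C * (-Real.log (Real.cos ψ)) ^ 2 / Real.cos ψ

/-- block Z3: the noncuspidal part near iπ/2, under the hypothesis -/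
def PIM : Prop := ∀ (P : Polynomial ℝ) (C : ℝ), Hyp P C →
  ∃ C' ψ₀ : ℝ, ψ₀ < Real.pi / 2 ∧ ∀ ψ, ψ₀ < ψ → ψ < Real.pi / 2 →
    ‖Pc (ψ * I)‖ ≤ C' / Real.cos ψ

/-- block A: analyticity and evenness of B_0 -/
def ANAB : Prop := DifferentiableOn ℂ B0 S0 ∧ ∀ d ∈ S0, B0 (-d) = B0 d

/-- analyticity of the spectral solutions, their equation and parity -/
def ANAJ : Prop := ∀ κ : ℝ, DifferentiableOn ℂ (Jk κ) S0 ∧ (∀ d ∈ S0, Jk κ (-d) = Jk κ d) ∧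
  (∀ d ∈ S0, DD (Jk κ) d = (1 / 4 + κ ^ 2 : ℝ) * Jk κ d) ∧ Jk κ 0 ≠ 0

/-- bounds of the spectral solutions on substrips -/
def BNDJ : Prop := ∀ b, 0 < b → b < Real.pi / 2 → ∃ C, ∀ (κ : ℝ) (d : ℂ), |d.im| ≤ b →
  ‖Jk κ d‖ ≤ C * Real.exp (b * |κ|)

/-- the density Hf is exponentially small -/
def HINT : Prop := AEStronglyMeasurable Hf volume ∧
  ∀ b, b < Real.pi / 2 → Integrable (fun t => ‖Hf t‖ * Real.exp (b * |t|))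

/-- P_cont is analytic and 𝒟 acts under the integral sign -/
def ANAP : Prop := DifferentiableOn ℂ Pc S0 ∧ ∀ (M : ℕ), ∀ d ∈ S0,
  (DD^[M] Pc) d = ∫ t : ℝ, (Hf t * ((1 / 4 + t ^ 2) ^ M : ℝ)) * Jk t d

/-- block W: the wave argument -/
def WAVE : Prop := ∃ C₁ : ℝ, 0 < C₁ ∧
  ∀ (g gc : ℂ → ℂ) (H : ℝ → ℂ) (κ : ℕ → ℝ) (c : ℕ → ℂ) (B b : ℝ), 0 < b → b < Real.pi / 2 →
    DifferentiableOn ℂ g S0 → (∀ d ∈ S0, g (-d) = g d) →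
    (∀ b' < Real.pi / 2, ∃ M, ∀ d : ℂ, |d.im| ≤ b' → ‖g d‖ ≤ M * Real.exp (-(|d.re| / 2))) →
    AEStronglyMeasurable H volume →
    (∀ b' < Real.pi / 2, Integrable (fun t => ‖H t‖ * Real.exp (b' * |t|))) →
    (∀ d ∈ S0, gc d = g d - ∫ t : ℝ, H t * Jk t d) →
    (∀ X : ℝ → ℝ, Tst X →
      Summable (fun j => ‖c j * ∫ t : ℝ, Jk (κ j) (Real.arsinh t : ℝ) * X t‖) ∧
      ∑' j, c j * ∫ t : ℝ, Jk (κ j) (Real.arsinh t : ℝ) * X t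
        = ∫ t : ℝ, gc (Real.arsinh t : ℝ) * X t) →
    (∃ A, ∀ a : ℝ, A ≤ a → ‖g (a + b * I)‖ ≤ B * Real.exp (-(a / 2)) ∧
      ‖g (a - b * I)‖ ≤ B * Real.exp (-(a / 2))) →
    √(Real.cos b) * ‖gc (b * I)‖ ≤ C₁ * B

/-- 𝒟^M kills polynomials up to exponentially small terms (Cauchy estimates) -/
def DEC : Prop := ∀ (g : ℂ → ℂ) (Q : Polynomial ℂ) (C₀ : ℝ), DifferentiableOn ℂ g S0 →
  (∀ b, 0 < b → b < Real.pi / 2 → ∃ A, ∀ d : ℂ, |d.im| ≤ b → A ≤ d.re →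
    ‖g d - Q.eval d‖ ≤ C₀ * Real.exp (-(d.re / 2)) / √(Real.pi / 2 - b)) →
  ∀ M : ℕ, Q.natDegree < M → ∃ C, 0 < C ∧ ∀ b, 0 < b → b < Real.pi / 2 → ∃ A, ∀ d : ℂ,
    |d.im| ≤ b → A ≤ d.re →
    ‖(DD^[M] g) d‖ ≤ C * Real.exp (-(d.re / 2)) / ((Real.pi / 2 - b) ^ (2 * M) * √(Real.pi / 2 - b))

/-- integration of the radial operator along the imaginary axis -/
def INT : Prop := ∀ (f : ℂ → ℂ) (M : ℕ) (C ψ₀ : ℝ), 0 < ψ₀ → ψ₀ < Real.pi / 2 →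
  DifferentiableOn ℂ f S0 →
  (∀ ψ, ψ₀ < ψ → ψ < Real.pi / 2 →
    ‖(DD^[M] f) (ψ * I)‖ ≤ C / (Real.pi / 2 - ψ) ^ (2 * M + 1)) →
  ∃ C', ∀ ψ, ψ₀ < ψ → ψ < Real.pi / 2 → ‖f (ψ * I)‖ ≤ C' / (Real.pi / 2 - ψ)

/-- symmetry of 𝒟 on the real line -/
def TRSP : Prop := ∀ (f : ℂ → ℂ) (M : ℕ) (X : ℝ → ℝ), DifferentiableOn ℂ f S0 → Tst X →
  Tst (DX^[M] X) ∧
  ∫ t : ℝ, (DD^[M] f) (Real.arsinh t : ℝ) * X t = ∫ t : ℝ, f (Real.arsinh t : ℝ) * (DX^[M] X) t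

/-- the goal: the hypothesis is contradictory -/
def GOAL : Prop := ∀ (P : Polynomial ℝ) (C : ℝ), ¬ Hyp P C

end FMZ
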