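import Pool.Agent.FMZ.TZ
import Pool.Agent.FMZ.Spec

/-!
# FMZ-Z10: analyticity and parity of B_0
-/

open Complex MeasureTheory Set Filter Topology

namespace FMZ

namespace ZANA_

/-- an integral of holomorphic functions with a locally uniform integrable bound is holomorphic -/
theorem diff_integral {F : ℂ → ℝ → ℂ} {U : Set ℂ} (hU : IsOpen U)
    (hmeas : ∀ d ∈ U, AEStronglyMeasurable (F d) volume)
    (hdiff : ∀ u, DifferentiableOn ℂ (fun d => F d u) U)
    (hdom : ∀ d₀ ∈ U, ∃ r > 0, Metric.closedBall d₀ r ⊆ U ∧ ∃ g : ℝ → ℝ, Integrable g ∧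
      ∀ d ∈ Metric.closedBall d₀ r, ∀ u, ‖F d u‖ ≤ g u) :
    DifferentiableOn ℂ (fun d => ∫ u, F d u) U := by
  intro d₀ hd₀
  obtain ⟨r, hr, hball, g, hg, hb⟩ := hdom d₀ hd₀
  have hdat : ∀ u, ∀ d ∈ Metric.closedBall d₀ r, DifferentiableAt ℂ (fun d => F d u) d :=
    fun u d hd => (hdiff u).differentiableAt (hU.mem_nhds (hball hd))
  have hd₀' : d₀ ∈ Metric.closedBall d₀ r := Metric.mem_closedBall_self hr.le
  -- measurability of the derivative
  have hmd : AEStronglyMeasurable (fun u => deriv (fun d => F d u) d₀) volume := by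
    set h : ℕ → ℂ := fun n => ((r / (n + 1) : ℝ) : ℂ) with hh
    have hne : ∀ n, h n ≠ 0 := by
      intro n
      rw [hh]
      simp only [ne_eq, ofReal_eq_zero]
      positivity
    have hlim : Tendsto h atTop (𝓝[≠] 0) := by
      rw [tendsto_nhdsWithin_iff]
      refine ⟨?_, Eventually.of_forall hne⟩
      have : Tendsto (fun n : ℕ => r / ((n : ℝ) + 1)) atTop (𝓝 0) :=
        tendsto_const_div_atTop_nhds_zero_nat r |>.comp (tendsto_add_atTop_nat 1) |>.congr
          (fun n => by simp)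
      have h2 := (continuous_ofReal.tendsto (0 : ℝ)).comp this
      simpa [hh, Function.comp_def] using h2
    refine aestronglyMeasurable_of_tendsto_ae (u := atTop)
      (f := fun (n : ℕ) (u : ℝ) => (h n)⁻¹ • (F (d₀ + h n) u - F d₀ u)) ?_ ?_
    · intro n
      have hmem : d₀ + h n ∈ Metric.closedBall d₀ r := ?_
      · have hm1 : AEStronglyMeasurable (fun u => F (d₀ + h n) u - F d₀ u) volume :=
          (hmeas _ (hball hmem)).sub (hmeas _ hd₀)
        exact hm1.const_smul ((h n)⁻¹)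
      rw [Metric.mem_closedBall, dist_eq_norm, add_sub_cancel_left, hh]
      simp only [norm_real, Real.norm_eq_abs]
      rw [abs_of_pos (by positivity)]
      apply div_le_self hr.le
      have : (0 : ℝ) ≤ n := by positivity
      linarith
    · refine Eventually.of_forall fun u => ?_
      have h1 := (hdat u d₀ hd₀').hasDerivAt
      rw [hasDerivAt_iff_tendsto_slope_zero] at h1
      exact h1.comp hlim
  have hr2 : 0 < r / 2 := by positivity
  have key := hasDerivAt_integral_of_dominated_loc_of_deriv_le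
    (μ := (volume : Measure ℝ)) (F := F) (F' := fun d u => deriv (fun d => F d u) d)
    (x₀ := d₀) (s := Metric.ball d₀ (r / 2)) (bound := fun u => g u / (r / 2))
    (Metric.ball_mem_nhds d₀ hr2)
    (by
      filter_upwards [Metric.ball_mem_nhds d₀ hr] with d hd
      exact hmeas d (hball (Metric.ball_subset_closedBall hd)))
    (Integrable.mono' hg (hmeas d₀ hd₀) (Eventually.of_forall fun u => hb d₀ hd₀' u))
    hmd
    (by
      refine Eventually.of_forall fun u d hd => ?_
      have hsub : Metric.closedBall d (r / 2) ⊆ Metric.closedBall d₀ r := by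
        apply Metric.closedBall_subset_closedBall'
        rw [Metric.mem_ball] at hd
        linarith
      refine Complex.norm_deriv_le_of_forall_mem_sphere_norm_le hr2 ?_ ?_
      · refine DifferentiableOn.diffContOnCl ?_
        rw [closure_ball _ hr2.ne']
        exact fun z hz => (hdat u z (hsub hz)).differentiableWithinAt
      · intro z hz
        exact hb z (hsub (Metric.sphere_subset_closedBall hz)) u)
    (hg.div_const _)
    (by
      refine Eventually.of_forall fun u d hd => ?_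
      exact (hdat u d (Metric.ball_subset_closedBall
        (Metric.ball_subset_ball (by linarith) hd))).hasDerivAt)
  exact key.2.differentiableAt.differentiableWithinAt

theorem isOpen_S0 : IsOpen S0 := by
  have : Continuous fun d : ℂ => |d.im| := by fun_prop
  exact isOpen_lt this continuous_const

theorem cosh_re_pos {d : ℂ} (hd : d ∈ S0) : 0 < (Complex.cosh d).re := by
  have h1 : (Complex.cosh d).re = Real.cosh d.re * Real.cos d.im := by
    conv_lhs => rw [← Complex.re_add_im d, Complex.cosh_add, Complex.cosh_mul_I,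
      Complex.sinh_mul_I]
    rw [← Complex.ofReal_cosh, ← Complex.ofReal_sinh, ← Complex.ofReal_cos, ← Complex.ofReal_sin]
    simp [Complex.cos_ofReal_re]
  rw [h1]
  have h2 : |d.im| < Real.pi / 2 := hd
  rw [abs_lt] at h2
  exact mul_pos (Real.cosh_pos _) (Real.cos_pos_of_mem_Ioo ⟨h2.1, h2.2⟩)

theorem cosh_slit {d : ℂ} (hd : d ∈ S0) : Complex.cosh d ∈ slitPlane :=
  Or.inl (cosh_re_pos hd)

theorem diff_qf : DifferentiableOn ℂ qf S0 := by
  intro d hd
  unfold qf
  exact ((Complex.differentiable_cosh d).cpow (differentiableAt_const _)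
    (cosh_slit hd)).differentiableWithinAt

theorem diff_cpr : DifferentiableOn ℂ cpr S0 := by
  intro d hd
  unfold cpr
  exact ((differentiableAt_const _).sub
    ((Complex.differentiable_cosh d).clog (cosh_slit hd))).differentiableWithinAt

theorem qf_neg (d : ℂ) : qf (-d) = qf d := by
  unfold qf; rw [Complex.cosh_neg]

theorem cpr_neg (d : ℂ) : cpr (-d) = cpr d := by
  unfold cpr; rw [Complex.cosh_neg]

theorem diff_J0 (h : tJKAN) : DifferentiableOn ℂ J0 S0 := by
  have h0 := (h 0).1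
  have h1 := (h 1).1
  have h2 := (h 2).1
  have e : J0 = fun d => qf d * (-2 * qf d * (lam 2 + cpr d * lam 1)
    + (lam 1 + cpr d * lam 0) * jk 0 d + (lam 0 - cpr d / 2) * jk 1 d - 1 / 2 * jk 2 d) := rfl
  rw [e]
  have hq := diff_qf
  have hc := diff_cpr
  exact hq.mul ((((((differentiableOn_const _).mul hq).mul
    ((differentiableOn_const _).add (hc.mul (differentiableOn_const _)))).add
    (((differentiableOn_const _).add (hc.mul (differentiableOn_const _))).mul h0)).add
    (((differentiableOn_const _).sub (hc.div_const _)).mul h1)).sub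
    ((differentiableOn_const _).mul h2))

theorem J0_neg (h : tJKAN) {d : ℂ} (hd : d ∈ S0) : J0 (-d) = J0 d := by
  unfold J0
  rw [qf_neg, cpr_neg, (h 0).2.1 d hd, (h 1).2.1 d hd, (h 2).2.1 d hd]

theorem zh_cont : Continuous zh := by
  rw [continuous_iff_continuousAt]
  intro u
  have h1 : (1 / 2 + (u : ℂ) * I) ≠ 1 := by
    intro h
    have := congrArg Complex.re h
    norm_num at this
  have h2 : ContinuousAt riemannZeta (1 / 2 + (u : ℂ) * I) :=
    (differentiableAt_riemannZeta h1).continuousAt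
  have h3 : ContinuousAt (fun u : ℝ => (1 / 2 + (u : ℂ) * I)) u := by fun_prop
  exact ContinuousAt.comp (f := fun u : ℝ => (1 / 2 + (u : ℂ) * I)) h2 h3

theorem pow_bound (u : ℝ) : ((1 + |u|) ^ (2 / 5 : ℝ)) ^ 4 ≤ 2 * (1 + u ^ 2) := by
  have h0 : (1 : ℝ) ≤ 1 + |u| := by linarith [abs_nonneg u]
  have h1 : ((1 + |u|) ^ (2 / 5 : ℝ)) ^ 4 ≤ (1 + |u|) ^ 2 := by
    rw [← Real.rpow_natCast ((1 + |u|) ^ (2 / 5 : ℝ)) 4, ← Real.rpow_mul (by linarith),
      ← Real.rpow_natCast (1 + |u|) 2]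
    apply Real.rpow_le_rpow_of_exponent_le h0
    norm_num
  refine h1.trans ?_
  have h2 : |u| ^ 2 = u ^ 2 := sq_abs u
  nlinarith [sq_nonneg (|u| - 1)]

theorem diff_P1 (h1 : tJAN) (h2 : tJU) (h3 : tZLB) : DifferentiableOn ℂ P1 S0 := by
  have e : P1 = fun d => ((1 / (2 * Real.pi) : ℝ) : ℂ) *
      ∫ u : ℝ, ((‖zh u‖ ^ 4 : ℝ) : ℂ) * jf u d ^ 2 := rfl
  rw [e]
  refine (differentiableOn_const _).mul ?_
  refine diff_integral (F := fun d u => ((‖zh u‖ ^ 4 : ℝ) : ℂ) * jf u d ^ 2) isOpen_S0 ?_ ?_ ?_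
  · intro d hd
    have hc := h2.2.2.2.2 d hd
    have : Continuous fun u : ℝ => ((‖zh u‖ ^ 4 : ℝ) : ℂ) * jf u d ^ 2 := by
      have := zh_cont
      fun_prop
    exact this.aestronglyMeasurable
  · intro u
    have hw : |((u : ℂ) * I).re| < ((1 / 2 : ℂ)).re := by
      simp
    have := (h1.1 (1 / 2) (u * I) hw).1
    exact (differentiableOn_const _).mul (this.pow 2)
  · intro d₀ hd₀
    obtain ⟨r, hr, hball⟩ := Metric.nhds_basis_closedBall.mem_iff.1 (isOpen_S0.mem_nhds hd₀)
    obtain ⟨b, hb1, hb2⟩ : ∃ b, b < Real.pi / 2 ∧ ∀ d ∈ Metric.closedBall d₀ r, |d.im| ≤ b := by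
      have hcomp : IsCompact (Metric.closedBall d₀ r) := isCompact_closedBall _ _
      have hne : (Metric.closedBall d₀ r).Nonempty := ⟨d₀, Metric.mem_closedBall_self hr.le⟩
      have hcont : ContinuousOn (fun d : ℂ => |d.im|) (Metric.closedBall d₀ r) := by
        fun_prop
      obtain ⟨d₁, hd₁, hmax⟩ := hcomp.exists_isMaxOn hne hcont
      exact ⟨|d₁.im|, hball hd₁, fun d hd => hmax hd⟩
    obtain ⟨C, hC⟩ := h2.2.2.1 b (‖d₀‖ + r) hb1
    obtain ⟨C', hC'0, hC'⟩ := h3
    refine ⟨r, hr, hball, fun u => 2 * C' ^ 4 * C ^ 2 * (1 + u ^ 2)⁻¹, ?_, ?_⟩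
    · exact integrable_inv_one_add_sq.const_mul _
    · intro d hd u
      have hre : |d.re| ≤ ‖d₀‖ + r := by
        have h4 : ‖d‖ ≤ ‖d₀‖ + r := by
          have h5 : ‖d - d₀‖ ≤ r := by
            rw [← dist_eq_norm]; exact hd
          calc ‖d‖ = ‖d₀ + (d - d₀)‖ := by ring_nf
            _ ≤ ‖d₀‖ + ‖d - d₀‖ := norm_add_le _ _
            _ ≤ _ := by linarith
        exact (Complex.abs_re_le_norm d).trans h4
      have hj := hC d u (hb2 d hd) hre
      have hz := hC' u
      have hpos : (0 : ℝ) < 1 + u ^ 2 := by positivity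
      have hz4 : ‖zh u‖ ^ 4 ≤ C' ^ 4 * (2 * (1 + u ^ 2)) := by
        calc ‖zh u‖ ^ 4 ≤ (C' * (1 + |u|) ^ (2 / 5 : ℝ)) ^ 4 := by gcongr
          _ = C' ^ 4 * ((1 + |u|) ^ (2 / 5 : ℝ)) ^ 4 := by ring
          _ ≤ _ := by gcongr; exact pow_bound u
      have hj2 : ‖jf u d‖ ^ 2 ≤ (C / (1 + u ^ 2)) ^ 2 := by gcongr
      have : ‖((‖zh u‖ ^ 4 : ℝ) : ℂ) * jf u d ^ 2‖ = ‖zh u‖ ^ 4 * ‖jf u d‖ ^ 2 := by
        rw [norm_mul, norm_pow, norm_real, Real.norm_eq_abs, abs_of_nonneg (by positivity)]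
      rw [this]
      calc ‖zh u‖ ^ 4 * ‖jf u d‖ ^ 2 ≤ C' ^ 4 * (2 * (1 + u ^ 2)) * (C / (1 + u ^ 2)) ^ 2 := by
            gcongr
        _ = 2 * C' ^ 4 * C ^ 2 * (1 + u ^ 2)⁻¹ := by
            field_simp

theorem P1_neg (h1 : tJAN) {d : ℂ} (hd : d ∈ S0) : P1 (-d) = P1 d := by
  unfold P1
  congr 1
  refine integral_congr_ae (Eventually.of_forall fun u => ?_)
  have hw : |((u : ℂ) * I).re| < ((1 / 2 : ℂ)).re := by
    simp
  have h := ((h1.1 (1 / 2) (u * I) hw).2 d hd).1
  simp only [jf]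
  rw [h]

end ZANA_

open ZANA_ in
theorem pANAB (h1 : tJAN) (h2 : tJU) (h3 : tZLB) (h4 : tJKAN) : ANAB := by
  refine ⟨?_, ?_⟩
  · have e : B0 = fun d => P1 d + 4 * J0 d := rfl
    rw [e]
    exact (diff_P1 h1 h2 h3).add ((differentiableOn_const _).mul (diff_J0 h4))
  · intro d hd
    unfold B0
    rw [P1_neg h1 hd, J0_neg h4 hd]

end FMZ
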