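import Pool.Agent.FMZ.TE
import Pool.Agent.FMZ.ZANA

/-!
# FMZ-E7: the ray identity by analytic continuation
-/

open Complex MeasureTheory Set Filter Topology

namespace FMZ

namespace ESTAR_

/-- an integral of holomorphic functions with a locally uniform integrable bound is holomorphic -/
theorem diff_integral {F : ℂ → ℝ → ℂ} {U : Set ℂ} {μ : Measure ℝ} (hU : IsOpen U)
    (hmeas : ∀ d ∈ U, AEStronglyMeasurable (F d) μ)
    (hdiff : ∀ᵐ u ∂μ, DifferentiableOn ℂ (fun d => F d u) U)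
    (hdom : ∀ d₀ ∈ U, ∃ r > 0, Metric.closedBall d₀ r ⊆ U ∧ ∃ g : ℝ → ℝ, Integrable g μ ∧
      ∀ᵐ u ∂μ, ∀ d ∈ Metric.closedBall d₀ r, ‖F d u‖ ≤ g u) :
    DifferentiableOn ℂ (fun d => ∫ u, F d u ∂μ) U := by
  intro d₀ hd₀
  obtain ⟨r, hr, hball, g, hg, hb⟩ := hdom d₀ hd₀
  have hdat : ∀ᵐ u ∂μ, ∀ d ∈ Metric.closedBall d₀ r, DifferentiableAt ℂ (fun d => F d u) d := by
    filter_upwards [hdiff] with u hu d hd
    exact hu.differentiableAt (hU.mem_nhds (hball hd))
  have hd₀' : d₀ ∈ Metric.closedBall d₀ r := Metric.mem_closedBall_self hr.le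
  -- measurability of the derivative
  have hmd : AEStronglyMeasurable (fun u => deriv (fun d => F d u) d₀) μ := by
    set h : ℕ → ℂ := fun n => ((r / (n + 1) : ℝ) : ℂ) with hh
    have hne : ∀ n, h n ≠ 0 := by
      intro n
      rw [hh]
      simp only [ne_eq, ofReal_eq_zero]
      positivity
    have hlim : Tendsto h atTop (𝓝[≠] 0) := by
      rw [tendsto_nhdsWithin_iff]
      refine ⟨?_, Eventually.of_forall hne⟩
      have : Tendsto (fun n : ℕ => r / ((n : ℝ) + 1)) atTop (𝓝 0) :=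
        tendsto_const_div_atTop_nhds_zero_nat r |>.comp (tendsto_add_atTop_nat 1) |>.congr
          (fun n => by simp)
      have h2 := (continuous_ofReal.tendsto (0 : ℝ)).comp this
      simpa [hh, Function.comp_def] using h2
    refine aestronglyMeasurable_of_tendsto_ae (u := atTop)
      (f := fun (n : ℕ) (u : ℝ) => (h n)⁻¹ • (F (d₀ + h n) u - F d₀ u)) ?_ ?_
    · intro n
      have hmem : d₀ + h n ∈ Metric.closedBall d₀ r := by
        rw [Metric.mem_closedBall, dist_eq_norm, add_sub_cancel_left, hh]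
        simp only [norm_real, Real.norm_eq_abs]
        rw [abs_of_pos (by positivity)]
        apply div_le_self hr.le
        have : (0 : ℝ) ≤ n := by positivity
        linarith
      have hm1 : AEStronglyMeasurable (fun u => F (d₀ + h n) u - F d₀ u) μ :=
          (hmeas _ (hball hmem)).sub (hmeas _ hd₀)
      exact hm1.const_smul ((h n)⁻¹)
    · filter_upwards [hdat] with u hu
      have h1 := (hu d₀ hd₀').hasDerivAt
      rw [hasDerivAt_iff_tendsto_slope_zero] at h1
      exact h1.comp hlim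
  have hr2 : 0 < r / 2 := by positivity
  have key := hasDerivAt_integral_of_dominated_loc_of_deriv_le
    (μ := μ) (F := F) (F' := fun d u => deriv (fun d => F d u) d)
    (x₀ := d₀) (s := Metric.ball d₀ (r / 2)) (bound := fun u => g u / (r / 2))
    (Metric.ball_mem_nhds d₀ hr2)
    (by
      filter_upwards [Metric.ball_mem_nhds d₀ hr] with d hd
      exact hmeas d (hball (Metric.ball_subset_closedBall hd)))
    (Integrable.mono' hg (hmeas d₀ hd₀) (hb.mono fun u hu => hu d₀ hd₀'))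
    hmd
    (by
      filter_upwards [hdat, hb] with u hu hbu d hd
      have hsub : Metric.closedBall d (r / 2) ⊆ Metric.closedBall d₀ r := by
        apply Metric.closedBall_subset_closedBall'
        rw [Metric.mem_ball] at hd
        linarith
      refine Complex.norm_deriv_le_of_forall_mem_sphere_norm_le hr2 ?_ ?_
      · refine DifferentiableOn.diffContOnCl ?_
        rw [closure_ball _ hr2.ne']
        exact fun z hz => (hu z (hsub hz)).differentiableWithinAt
      · intro z hz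
        exact hbu z (hsub (Metric.sphere_subset_closedBall hz)))
    (hg.div_const _)
    (by
      filter_upwards [hdat] with u hu d hd
      exact (hu d (Metric.ball_subset_closedBall
        (Metric.ball_subset_ball (by linarith) hd))).hasDerivAt)
  exact key.2.differentiableAt.differentiableWithinAt

/-- the left integral -/
noncomputable def II (d : ℝ) (w s : ℂ) : ℂ :=
  ∫ τ in Ioi (0 : ℝ), Nr d τ s * Complex.cosh (w * τ)

theorem norm_cosh_le (z : ℂ) : ‖Complex.cosh z‖ ≤ Real.exp ‖z‖ := by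
  unfold Complex.cosh
  have h1 : ‖Complex.exp z‖ ≤ Real.exp ‖z‖ := Complex.norm_exp_le_exp_norm z
  have h2 : ‖Complex.exp (-z)‖ ≤ Real.exp ‖z‖ := by
    have := Complex.norm_exp_le_exp_norm (-z)
    rwa [norm_neg] at this
  rw [norm_div, Complex.norm_ofNat]
  have h3 := norm_add_le (Complex.exp z) (Complex.exp (-z))
  linarith

theorem exp_bound {a c τ : ℝ} (hc : 0 < c) (hτ : 0 < τ) :
    Real.exp (-(c * Real.exp τ)) * Real.exp (a * τ) ≤
      Real.exp ((a + 1) ^ 2 / (2 * c)) * Real.exp (-τ) := by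
  rw [← Real.exp_add, ← Real.exp_add, Real.exp_le_exp]
  have h1 := Real.quadratic_le_exp_of_nonneg hτ.le
  have h2 : c * (τ ^ 2 / 2) ≤ c * Real.exp τ := by
    apply mul_le_mul_of_nonneg_left _ hc.le
    linarith
  have h3 : (a + 1) * τ ≤ (a + 1) ^ 2 / (2 * c) + c * (τ ^ 2 / 2) := by
    have h4 : (a + 1) ^ 2 / (2 * c) + c * (τ ^ 2 / 2) - (a + 1) * τ =
        (c * τ - (a + 1)) ^ 2 / (2 * c) := by
      field_simp
      ring
    have h5 : 0 ≤ (c * τ - (a + 1)) ^ 2 / (2 * c) := by positivity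
    linarith
  linarith

theorem diff_II (h2 : tN) (d : ℝ) (w : ℂ) : Differentiable ℂ (II d w) := by
  have hpos : ∀ τ : ℝ, 0 < Real.exp τ / Real.cosh d := fun τ =>
    div_pos (Real.exp_pos _) (Real.cosh_pos _)
  rw [← differentiableOn_univ]
  refine diff_integral (F := fun s τ => Nr d τ s * Complex.cosh (w * τ))
    (μ := volume.restrict (Ioi 0)) isOpen_univ ?_ ?_ ?_
  · intro s _
    have hc : Continuous fun τ : ℝ => Nr d τ s := by
      have h4 := h2.2.2.2.1
      have h5 : Continuous fun τ : ℝ =>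
          (((Real.exp τ * Real.tanh d, Real.exp τ / Real.cosh d), s) : (ℝ × ℝ) × ℂ) := by
        fun_prop
      exact h4.comp_continuous h5 fun τ => hpos τ
    have : Continuous fun τ : ℝ => Nr d τ s * Complex.cosh (w * τ) := by fun_prop
    exact this.aestronglyMeasurable
  · refine Eventually.of_forall fun τ => ?_
    have := h2.2.2.1 (Real.exp τ * Real.tanh d) (Real.exp τ / Real.cosh d) (hpos τ)
    exact (this.mul_const _).differentiableOn
  · intro s₀ _
    obtain ⟨C, c, hC, hc, hb⟩ := h2.2.1 (‖s₀‖ + 1) 0 (1 / Real.cosh d) (by positivity) le_rfl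
      (by positivity) (one_div_pos.2 (Real.cosh_pos _))
    set c' := c / Real.cosh d with hc'
    have hc'0 : 0 < c' := div_pos hc (Real.cosh_pos _)
    refine ⟨1, one_pos, subset_univ _,
      fun τ => C * Real.exp ((‖w‖ + 1) ^ 2 / (2 * c')) * Real.exp (-τ), ?_, ?_⟩
    · exact (integrableOn_exp_neg_Ioi 0).const_mul _
    · rw [ae_restrict_iff' measurableSet_Ioi]
      refine Eventually.of_forall fun τ hτ s hs => ?_
      have hτ' : 0 < τ := hτ
      have hre : |s.re| ≤ ‖s₀‖ + 1 := by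
        have h5 : ‖s - s₀‖ ≤ 1 := by
          rw [← dist_eq_norm]; exact hs
        calc |s.re| ≤ ‖s‖ := Complex.abs_re_le_norm s
          _ = ‖s₀ + (s - s₀)‖ := by ring_nf
          _ ≤ ‖s₀‖ + ‖s - s₀‖ := norm_add_le _ _
          _ ≤ _ := by linarith
      have hy : 1 / Real.cosh d ≤ Real.exp τ / Real.cosh d := by
        apply div_le_div_of_nonneg_right _ (Real.cosh_pos _).le
        exact Real.one_le_exp hτ'.le
      have h6 := hb (Real.exp τ * Real.tanh d) (Real.exp τ / Real.cosh d) s hre hy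
      have h7 : ‖Nr d τ s‖ ≤ C * Real.exp (-(c' * Real.exp τ)) := by
        refine h6.trans (le_of_eq ?_)
        rw [neg_zero, zero_mul, Real.exp_zero, mul_one, hc']
        congr 2
        ring
      have h8 : ‖Complex.cosh (w * τ)‖ ≤ Real.exp (‖w‖ * τ) := by
        refine (norm_cosh_le _).trans (le_of_eq ?_)
        rw [norm_mul, norm_real, Real.norm_eq_abs, abs_of_pos hτ']
      calc ‖Nr d τ s * Complex.cosh (w * τ)‖ = ‖Nr d τ s‖ * ‖Complex.cosh (w * τ)‖ := norm_mul _ _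
        _ ≤ C * Real.exp (-(c' * Real.exp τ)) * Real.exp (‖w‖ * τ) := by gcongr
        _ = C * (Real.exp (-(c' * Real.exp τ)) * Real.exp (‖w‖ * τ)) := by ring
        _ ≤ C * (Real.exp ((‖w‖ + 1) ^ 2 / (2 * c')) * Real.exp (-τ)) :=
          mul_le_mul_of_nonneg_left (exp_bound hc'0 hτ') hC.le
        _ = _ := by ring

/-- (u - 1) ζ(u), entire -/
noncomputable def Z1 (u : ℂ) : ℂ := X1 u * (Real.pi : ℂ) ^ (u / 2) * (Gamma (u / 2 + 1))⁻¹ / 2

theorem pi_ne : (Real.pi : ℂ) ≠ 0 := by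
  exact_mod_cast Real.pi_ne_zero

theorem zeta_eq (h : tX) {u : ℂ} (h0 : 0 < u.re) (h1 : u ≠ 1) :
    (u - 1) * riemannZeta u = Z1 u := by
  have hu : u ≠ 0 := by
    rintro rfl
    simp at h0
  have hG : Gamma (u / 2) ≠ 0 := by
    apply Complex.Gamma_ne_zero_of_re_pos
    simp
    exact h0
  have e1 := h.2.2.2.2.2.1 u hu h1
  have e2 := h.2.2.2.2.2.2.2.2.2.1 u hu h1 h0.le
  have e3 : Gamma (u / 2 + 1) = u / 2 * Gamma (u / 2) :=
    Complex.Gamma_add_one _ (div_ne_zero hu two_ne_zero)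
  have e4 : (Real.pi : ℂ) ^ (-u / 2) = ((Real.pi : ℂ) ^ (u / 2))⁻¹ := by
    rw [← Complex.cpow_neg]
    congr 1
    ring
  have hp : (Real.pi : ℂ) ^ (u / 2) ≠ 0 := by
    rw [Ne, Complex.cpow_eq_zero_iff]
    exact fun h => pi_ne h.1
  have hu1 : u - 1 ≠ 0 := sub_ne_zero.2 h1
  unfold Z1
  rw [e3]
  rw [e1, e4] at e2
  have e5 : X1 u = u * (u - 1) * (((Real.pi : ℂ) ^ (u / 2))⁻¹ * Gamma (u / 2) * riemannZeta u) := by
    rw [← e2]
    field_simp
  rw [e5]
  field_simp

theorem diff_Z1 (h : tX) : Differentiable ℂ Z1 := by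
  unfold Z1
  have h1 : Differentiable ℂ fun u : ℂ => (Gamma (u / 2 + 1))⁻¹ := by
    have := Complex.differentiable_one_div_Gamma
    have h3 : Differentiable ℂ fun u : ℂ => u / 2 + 1 := by fun_prop
    exact this.comp h3
  have h2 : Differentiable ℂ fun u : ℂ => (Real.pi : ℂ) ^ (u / 2) := by
    intro u
    refine DifferentiableAt.const_cpow (by fun_prop) (Or.inl pi_ne)
  exact ((h.1.mul h2).mul h1).div_const _

/-- the left side minus the right side -/
noncomputable def DI (d : ℝ) (w s : ℂ) : ℂ :=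
  (2 * II d w s
    - xi (2 * s) * (Real.cosh d : ℂ) ^ (-s) * (1 / (s - w) + 1 / (s + w))
    - xi (2 * s - 1) * (Real.cosh d : ℂ) ^ (s - 1) * (1 / (1 - s + w) + 1 / (1 - s - w))) -
  (Real.pi : ℂ) ^ (-s) * Gamma s * riemannZeta (s + w) * riemannZeta (s - w) * JJ s w d

/-- its analytic multiple -/
noncomputable def GG (d : ℝ) (w s : ℂ) : ℂ :=
  (2 * s - 1) * (s - 1) * (s - 1 + w) * (s - 1 - w) * (2 * II d w s)
    - X1 (2 * s) / (2 * s) * ((s - 1) * (s - 1 + w) * (s - 1 - w)) * (Real.cosh d : ℂ) ^ (-s) *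
      (1 / (s - w) + 1 / (s + w))
    + X1 (2 * s - 1) * (s - 1) * (Real.cosh d : ℂ) ^ (s - 1)
    - (2 * s - 1) * (s - 1) * ((Real.pi : ℂ) ^ (-s) * Gamma s * Z1 (s + w) * Z1 (s - w) * JJ s w d)

theorem cosh_ne (d : ℝ) : (Real.cosh d : ℂ) ≠ 0 := by
  exact_mod_cast (Real.cosh_pos d).ne'

theorem U_facts {w s : ℂ} (hs : |w.re| < s.re) : s ≠ 0 ∧ s - w ≠ 0 ∧ s + w ≠ 0 ∧
    0 < (s + w).re ∧ 0 < (s - w).re ∧ 0 < s.re := by
  have h1 := abs_lt.1 hs
  have h0 : 0 < s.re := lt_of_le_of_lt (abs_nonneg _) hs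
  have ha : 0 < (s + w).re := by rw [Complex.add_re]; linarith
  have hb : 0 < (s - w).re := by rw [Complex.sub_re]; linarith
  refine ⟨?_, ?_, ?_, ha, hb, h0⟩
  · rintro rfl; simp at h0
  · intro h; rw [h] at hb; simp at hb
  · intro h; rw [h] at ha; simp at ha

theorem GG_eq (h : tX) {d : ℝ} {w s : ℂ} (hs : |w.re| < s.re) (h1 : s ≠ 1 / 2) (h2 : s ≠ 1)
    (h3 : s + w ≠ 1) (h4 : s - w ≠ 1) :
    GG d w s = (2 * s - 1) * (s - 1) * (s - 1 + w) * (s - 1 - w) * DI d w s := by
  obtain ⟨hs0, hsw, hsw', hre1, hre2, hre0⟩ := U_facts hs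
  have g1 : (2 * s - 1) ≠ 0 := by
    intro h0; apply h1; linear_combination h0 / 2
  have g2 : s - 1 ≠ 0 := sub_ne_zero.2 h2
  have g3 : s - 1 + w ≠ 0 := by
    intro h0; apply h3; linear_combination h0
  have g4 : s - 1 - w ≠ 0 := by
    intro h0; apply h4; linear_combination h0
  have e1 : xi (2 * s) = X1 (2 * s) / (2 * s * (2 * s - 1)) :=
    h.2.2.2.2.2.1 _ (mul_ne_zero two_ne_zero hs0) (by
      intro h0; apply g1; linear_combination h0)
  have e2 : xi (2 * s - 1) = X1 (2 * s - 1) / ((2 * s - 1) * (2 * s - 1 - 1)) :=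
    h.2.2.2.2.2.1 _ g1 (by
      intro h0; apply g2; linear_combination h0 / 2)
  have e3 := zeta_eq h hre1 h3
  have e4 := zeta_eq h hre2 h4
  have g5 : 2 * s - 1 - 1 ≠ 0 := by
    intro h0; apply g2; linear_combination h0 / 2
  have g6 : 1 - s + w ≠ 0 := by
    intro h0; apply g4; linear_combination -h0
  have g7 : 1 - s - w ≠ 0 := by
    intro h0; apply g3; linear_combination -h0
  unfold GG DI
  rw [e1, e2, ← e3, ← e4]
  have k1 : (1 / (1 - s + w) + 1 / (1 - s - w)) =
      -(1 / (s - 1 - w) + 1 / (s - 1 + w)) := by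
    have a1 : 1 - s + w = -(s - 1 - w) := by ring
    have a2 : 1 - s - w = -(s - 1 + w) := by ring
    rw [a1, a2, one_div_neg_eq_neg_one_div, one_div_neg_eq_neg_one_div]
    ring
  rw [k1]
  have k2 : 2 * s - 1 - 1 = 2 * (s - 1) := by ring
  rw [k2]
  generalize (Real.cosh d : ℂ) ^ (-s) = A
  generalize (Real.cosh d : ℂ) ^ (s - 1) = B
  generalize (Real.pi : ℂ) ^ (-s) = P
  generalize X1 (2 * s) = X
  generalize X1 (2 * s - 1) = Y
  field_simp
  ring

theorem diff_GG (h1 : tX) (h2 : tN) (h3 : tJAN) (d : ℝ) (w : ℂ) :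
    DifferentiableOn ℂ (GG d w) {s : ℂ | |w.re| < s.re} := by
  intro s hs
  have hs' : |w.re| < s.re := hs
  obtain ⟨hs0, hsw, hsw', hre1, hre2, hre0⟩ := U_facts hs'
  apply DifferentiableAt.differentiableWithinAt
  have hd0 : (d : ℂ) ∈ S0 := by
    show |(d : ℂ).im| < Real.pi / 2
    simp [Real.pi_pos]
  have hII := diff_II h2 d w s
  have hJJ : DifferentiableAt ℂ (fun s => JJ s w d) s := by
    refine (h3.2.2.1 w d hd0).differentiableAt (IsOpen.mem_nhds ?_ hs')
    exact isOpen_lt continuous_const Complex.continuous_re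
  have hX1 : DifferentiableAt ℂ (fun s => X1 (2 * s)) s :=
    (h1.1 _).comp s (by fun_prop)
  have hX2 : DifferentiableAt ℂ (fun s => X1 (2 * s - 1)) s :=
    (h1.1 _).comp s (by fun_prop)
  have hL1 : DifferentiableAt ℂ (fun s : ℂ => (Real.cosh d : ℂ) ^ (-s)) s :=
    DifferentiableAt.const_cpow (by fun_prop) (Or.inl (cosh_ne d))
  have hL2 : DifferentiableAt ℂ (fun s : ℂ => (Real.cosh d : ℂ) ^ (s - 1)) s :=
    DifferentiableAt.const_cpow (by fun_prop) (Or.inl (cosh_ne d))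
  have hP : DifferentiableAt ℂ (fun s : ℂ => (Real.pi : ℂ) ^ (-s)) s :=
    DifferentiableAt.const_cpow (by fun_prop) (Or.inl pi_ne)
  have hG : DifferentiableAt ℂ Gamma s := by
    apply Complex.differentiableAt_Gamma
    intro m hm
    rw [hm] at hre0
    simp at hre0
    have : (0 : ℝ) ≤ m := by positivity
    linarith
  have hZ1 : DifferentiableAt ℂ (fun s => Z1 (s + w)) s :=
    (diff_Z1 h1 _).comp s (by fun_prop)
  have hZ2 : DifferentiableAt ℂ (fun s => Z1 (s - w)) s :=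
    (diff_Z1 h1 _).comp s (by fun_prop)
  have hq1 : DifferentiableAt ℂ (fun s : ℂ => 1 / (s - w)) s :=
    (differentiableAt_const _).div (by fun_prop) hsw
  have hq2 : DifferentiableAt ℂ (fun s : ℂ => 1 / (s + w)) s :=
    (differentiableAt_const _).div (by fun_prop) hsw'
  have hq3 : DifferentiableAt ℂ (fun s : ℂ => X1 (2 * s) / (2 * s)) s :=
    hX1.div (by fun_prop) (mul_ne_zero two_ne_zero hs0)
  have hpol1 : DifferentiableAt ℂ
      (fun s : ℂ => (2 * s - 1) * (s - 1) * (s - 1 + w) * (s - 1 - w)) s := by fun_prop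
  have hpol2 : DifferentiableAt ℂ
      (fun s : ℂ => (s - 1) * (s - 1 + w) * (s - 1 - w)) s := by fun_prop
  have hpol3 : DifferentiableAt ℂ (fun s : ℂ => (s - 1)) s := by fun_prop
  have hpol4 : DifferentiableAt ℂ (fun s : ℂ => (2 * s - 1) * (s - 1)) s := by fun_prop
  exact ((((hpol1.mul (hII.const_mul 2)).sub
    (((hq3.mul hpol2).mul hL1).mul (hq1.add hq2))).add ((hX2.mul hpol3).mul hL2)).sub
    (hpol4.mul ((((hP.mul hG).mul hZ1).mul hZ2).mul hJJ)))

theorem GG_zero (h1 : tX) (h2 : tN) (h3 : tJAN) (h4 : tSTAR1) (d : ℝ) (w : ℂ) {s : ℂ}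
    (hs : |w.re| < s.re) : GG d w s = 0 := by
  have hopen : IsOpen {s : ℂ | |w.re| < s.re} := isOpen_lt continuous_const Complex.continuous_re
  have han := (diff_GG h1 h2 h3 d w).analyticOnNhd hopen
  have hpre : IsPreconnected {s : ℂ | |w.re| < s.re} :=
    (convex_halfSpace_re_gt |w.re|).isPreconnected
  have hz : ((2 + |w.re| : ℝ) : ℂ) ∈ {s : ℂ | |w.re| < s.re} := by
    show |w.re| < (((2 + |w.re| : ℝ) : ℂ)).re
    rw [Complex.ofReal_re]
    linarith
  refine han.eqOn_zero_of_preconnected_of_eventuallyEq_zero hpre hz ?_ hs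
  have hev : ∀ᶠ z : ℂ in 𝓝 ((2 + |w.re| : ℝ) : ℂ), 1 + |w.re| < z.re := by
    refine (isOpen_lt continuous_const Complex.continuous_re).mem_nhds ?_
    show 1 + |w.re| < (((2 + |w.re| : ℝ) : ℂ)).re
    rw [Complex.ofReal_re]
    linarith
  filter_upwards [hev] with z hz'
  have hw := abs_nonneg w.re
  have hw1 := neg_abs_le w.re
  have hw2 := le_abs_self w.re
  have e := h4 d z w hz'
  have e0 : DI d w z = 0 := by
    unfold DI II
    rw [e, sub_self]
  rw [GG_eq h1 (by linarith) ?_ ?_ ?_ ?_, e0, mul_zero]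
  · rfl
  · intro h
    rw [h] at hz'
    norm_num at hz'
    linarith
  · intro h
    rw [h] at hz'
    norm_num at hz'
    linarith
  · intro h
    have := congrArg Complex.re h
    rw [Complex.add_re, Complex.one_re] at this
    linarith
  · intro h
    have := congrArg Complex.re h
    rw [Complex.sub_re, Complex.one_re] at this
    linarith

end ESTAR_

open ESTAR_ in
theorem pSTAR (h1 : tX) (h2 : tN) (h3 : tJAN) (h4 : tSTAR1) : tSTAR := by
  intro d s w hs hs1 hs2 hs3 hs4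
  have h0 := GG_zero h1 h2 h3 h4 d w hs
  rw [GG_eq h1 hs hs1 hs2 hs3 hs4] at h0
  have g1 : (2 * s - 1) ≠ 0 := by
    intro h0; apply hs1; linear_combination h0 / 2
  have g2 : s - 1 ≠ 0 := sub_ne_zero.2 hs2
  have g3 : s - 1 + w ≠ 0 := by
    intro h0; apply hs3; linear_combination h0
  have g4 : s - 1 - w ≠ 0 := by
    intro h0; apply hs4; linear_combination h0
  have h5 : DI d w s = 0 := by
    rcases mul_eq_zero.1 h0 with h | h
    · exact absurd h (mul_ne_zero (mul_ne_zero (mul_ne_zero g1 g2) g3) g4)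
    · exact h
  unfold DI II at h5
  exact sub_eq_zero.1 h5

namespace ESTAR_

/-- p(s) -/
noncomputable def pp (d : ℝ) (w s : ℂ) : ℂ :=
  (Real.cosh d : ℂ) ^ (-s) * (1 / (s - w) + 1 / (s + w))

/-- φ(s) -/
noncomputable def phi (d : ℝ) (w s : ℂ) : ℂ := X1 (2 * s) / (2 * s) * pp d w s

theorem half_facts {w : ℂ} (hw : |w.re| < 1 / 2) : (1 / 2 : ℂ) - w ≠ 0 ∧ (1 / 2 : ℂ) + w ≠ 0 ∧
    (1 / 2 : ℂ) + w ≠ 1 ∧ (1 / 2 : ℂ) - w ≠ 1 := by
  have h1 := abs_lt.1 hw
  refine ⟨?_, ?_, ?_, ?_⟩ <;>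
  · intro h
    have := congrArg Complex.re h
    simp at this
    norm_num at this
    linarith [h1.1, h1.2]

theorem hasDeriv_phi (h : tX) (d : ℝ) {w : ℂ} (hw : |w.re| < 1 / 2) :
    HasDerivAt (phi d w) (qf d * (cpr d * (1 / (1 / 2 - w) + 1 / (1 / 2 + w))
      - (1 / (1 / 2 - w) ^ 2 + 1 / (1 / 2 + w) ^ 2))) (1 / 2) := by
  obtain ⟨k1, k2, -, -⟩ := half_facts hw
  have hX : HasDerivAt X1 (1 + c0 / 2 : ℂ) 1 := by
    have := (h.1 1).hasDerivAt
    rw [h.2.2.2.2.1] at this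
    exact this
  have hX1 : X1 1 = 1 := h.2.2.2.1
  have a1 : HasDerivAt (fun s : ℂ => 2 * s) 2 (1 / 2) := by
    simpa using (hasDerivAt_id (1 / 2 : ℂ)).const_mul 2
  have a2 : HasDerivAt (fun s : ℂ => X1 (2 * s)) ((1 + c0 / 2 : ℂ) * 2) (1 / 2) := by
    have e : (2 : ℂ) * (1 / 2) = 1 := by norm_num
    have hX' : HasDerivAt X1 (1 + c0 / 2 : ℂ) (2 * (1 / 2)) := by rw [e]; exact hX
    exact hX'.comp (1 / 2) a1
  have a3 : HasDerivAt (fun s : ℂ => X1 (2 * s) / (2 * s)) (c0 : ℂ) (1 / 2) := by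
    have e : (2 : ℂ) * (1 / 2) = 1 := by norm_num
    have := a2.div a1 (by rw [e]; exact one_ne_zero)
    refine this.congr_deriv ?_
    simp only [e, hX1]
    ring
  have b0 : HasDerivAt (fun s : ℂ => -s) (-1) (1 / 2) := hasDerivAt_neg _
  have b1 : HasDerivAt (fun s : ℂ => (Real.cosh d : ℂ) ^ (-s))
      ((Real.cosh d : ℂ) ^ (-(1 / 2) : ℂ) * Complex.log (Real.cosh d : ℂ) * (-1)) (1 / 2) :=
    HasDerivAt.const_cpow b0 (Or.inl (cosh_ne d))
  have b2 : HasDerivAt (fun s : ℂ => 1 / (s - w)) (-(1 / (1 / 2 - w) ^ 2)) (1 / 2) := by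
    have h0 : HasDerivAt (fun s : ℂ => s - w) 1 (1 / 2) := (hasDerivAt_id _).sub_const _
    have := h0.inv k1
    simp only [one_div] at this ⊢
    refine this.congr_deriv ?_
    field_simp
  have b3 : HasDerivAt (fun s : ℂ => 1 / (s + w)) (-(1 / (1 / 2 + w) ^ 2)) (1 / 2) := by
    have h0 : HasDerivAt (fun s : ℂ => s + w) 1 (1 / 2) := (hasDerivAt_id _).add_const _
    have := h0.inv k2
    simp only [one_div] at this ⊢
    refine this.congr_deriv ?_
    field_simp
  have b4 := b1.mul (b2.add b3)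
  have b5 := a3.mul b4
  unfold phi pp
  refine b5.congr_deriv ?_
  have e : (2 : ℂ) * (1 / 2) = 1 := by norm_num
  simp only [Pi.mul_apply, Pi.add_apply, e, hX1]
  unfold qf cpr
  rw [← Complex.ofReal_cosh]
  ring

theorem tend_phi {f : ℂ → ℂ} {f' : ℂ} (hf : HasDerivAt f f' (1 / 2)) :
    Tendsto (fun s : ℂ => (f s - f (1 - s)) / (2 * s - 1)) (𝓝[≠] (1 / 2)) (𝓝 f') := by
  have h1 : HasDerivAt (fun s : ℂ => f (1 - s)) (-f') (1 / 2) := by
    have h0 : HasDerivAt (fun s : ℂ => 1 - s) (-1) (1 / 2) := by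
      simpa using (hasDerivAt_id (1 / 2 : ℂ)).const_sub 1
    have e : (1 : ℂ) - 1 / 2 = 1 / 2 := by norm_num
    have hf' : HasDerivAt f f' (1 - 1 / 2) := by rw [e]; exact hf
    have := hf'.comp (1 / 2) h0
    rw [mul_neg_one] at this
    exact this
  have h2 : HasDerivAt (fun s : ℂ => f s - f (1 - s)) (f' + f') (1 / 2) := by
    have := hf.sub h1
    rw [sub_neg_eq_add] at this
    exact this
  have h3 := h2.tendsto_slope
  have h4 := h3.const_mul (1 / 2)
  have e : (1 / 2 : ℂ) * (f' + f') = f' := by ring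
  rw [e] at h4
  refine h4.congr' ?_
  filter_upwards [self_mem_nhdsWithin] with s hs
  have hs' : s ≠ 1 / 2 := hs
  have hs1 : s - 1 / 2 ≠ 0 := sub_ne_zero.2 hs'
  have hs2 : 2 * s - 1 ≠ 0 := by
    intro h0; apply hs'; linear_combination h0 / 2
  rw [slope_def_field]
  have e2 : (1 : ℂ) - 1 / 2 = 1 / 2 := by norm_num
  rw [e2, sub_self, sub_zero]
  field_simp

end ESTAR_

open ESTAR_ in
theorem pSTARH (h1 : tX) (h2 : tN) (h3 : tJAN) (h4 : tSTAR1) : tSTARH := by
  intro d w hw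
  have hstar := pSTAR h1 h2 h3 h4
  obtain ⟨k1, k2, k3, k4⟩ := half_facts hw
  have hd0 : (d : ℂ) ∈ S0 := by
    show |(d : ℂ).im| < Real.pi / 2
    simp [Real.pi_pos]
  set R : ℂ → ℂ := fun s => (Real.pi : ℂ) ^ (-s) * Gamma s * riemannZeta (s + w) *
    riemannZeta (s - w) * JJ s w d with hR
  -- continuity of the right side
  have hhalf : |w.re| < ((1 / 2 : ℂ)).re := by
    have : ((1 / 2 : ℂ)).re = 1 / 2 := by norm_num
    rw [this]; exact hw
  have cR : ContinuousAt R (1 / 2) := by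
    have hP : ContinuousAt (fun s : ℂ => (Real.pi : ℂ) ^ (-s)) (1 / 2) :=
      (DifferentiableAt.const_cpow (by fun_prop) (Or.inl pi_ne)).continuousAt
    have hG : ContinuousAt Gamma (1 / 2) := by
      apply DifferentiableAt.continuousAt (𝕜 := ℂ)
      apply Complex.differentiableAt_Gamma
      intro m hm
      have := congrArg Complex.re hm
      have e : ((1 / 2 : ℂ)).re = 1 / 2 := by norm_num
      rw [e] at this
      simp at this
      have h0 : (0 : ℝ) ≤ m := by positivity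
      linarith
    have hz1 : ContinuousAt (fun s : ℂ => riemannZeta (s + w)) (1 / 2) := by
      have a := (differentiableAt_riemannZeta k3).continuousAt
      exact ContinuousAt.comp (f := fun s : ℂ => s + w) a (by fun_prop)
    have hz2 : ContinuousAt (fun s : ℂ => riemannZeta (s - w)) (1 / 2) := by
      have a := (differentiableAt_riemannZeta k4).continuousAt
      exact ContinuousAt.comp (f := fun s : ℂ => s - w) a (by fun_prop)
    have hJJ : ContinuousAt (fun s => JJ s w d) (1 / 2) := by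
      refine ((h3.2.2.1 w d hd0).differentiableAt (IsOpen.mem_nhds ?_ hhalf)).continuousAt
      exact isOpen_lt continuous_const Complex.continuous_re
    exact (((hP.mul hG).mul hz1).mul hz2).mul hJJ
  have cI : ContinuousAt (fun s => 2 * II d w s) (1 / 2) :=
    ((diff_II h2 d w (1 / 2)).continuousAt).const_mul 2
  -- the limit of the left side
  have hl := tend_phi (hasDeriv_phi h1 d hw)
  have hL : Tendsto (fun s : ℂ => 2 * II d w s - (phi d w s - phi d w (1 - s)) / (2 * s - 1))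
      (𝓝[≠] (1 / 2)) (𝓝 (2 * II d w (1 / 2) -
        qf d * (cpr d * (1 / (1 / 2 - w) + 1 / (1 / 2 + w))
      - (1 / (1 / 2 - w) ^ 2 + 1 / (1 / 2 + w) ^ 2)))) :=
    (cI.tendsto.mono_left nhdsWithin_le_nhds).sub hl
  have hRl : Tendsto R (𝓝[≠] (1 / 2)) (𝓝 (R (1 / 2))) := cR.tendsto.mono_left nhdsWithin_le_nhds
  -- they agree
  have hev : ∀ᶠ s in 𝓝[≠] (1 / 2 : ℂ),
      2 * II d w s - (phi d w s - phi d w (1 - s)) / (2 * s - 1) = R s := by
    have v1 : ∀ᶠ s in 𝓝[≠] (1 / 2 : ℂ), |w.re| < s.re :=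
      nhdsWithin_le_nhds ((isOpen_lt continuous_const Complex.continuous_re).mem_nhds hhalf)
    have v2 : ∀ᶠ s in 𝓝[≠] (1 / 2 : ℂ), s ≠ 1 :=
      nhdsWithin_le_nhds (isOpen_ne.mem_nhds (by norm_num))
    have v3 : ∀ᶠ s in 𝓝[≠] (1 / 2 : ℂ), s + w ≠ 1 := by
      refine nhdsWithin_le_nhds ?_
      have : ContinuousAt (fun s : ℂ => s + w) (1 / 2) := by fun_prop
      exact this.eventually (isOpen_ne.mem_nhds k3)
    have v4 : ∀ᶠ s in 𝓝[≠] (1 / 2 : ℂ), s - w ≠ 1 := by
      refine nhdsWithin_le_nhds ?_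
      have : ContinuousAt (fun s : ℂ => s - w) (1 / 2) := by fun_prop
      exact this.eventually (isOpen_ne.mem_nhds k4)
    filter_upwards [v1, v2, v3, v4, self_mem_nhdsWithin] with s u1 u2 u3 u4 u5
    have u5' : s ≠ 1 / 2 := u5
    have key := hstar d s w u1 u5' u2 u3 u4
    obtain ⟨hs0, hsw, hsw', hre1, hre2, hre0⟩ := U_facts u1
    have g1 : (2 * s - 1) ≠ 0 := by
      intro h0; apply u5'; linear_combination h0 / 2
    have g2 : s - 1 ≠ 0 := sub_ne_zero.2 u2
    have g2' : 1 - s ≠ 0 := sub_ne_zero.2 u2.symm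
    have e1 : xi (2 * s) = X1 (2 * s) / (2 * s * (2 * s - 1)) :=
      h1.2.2.2.2.2.1 _ (mul_ne_zero two_ne_zero hs0) (by
        intro h0; apply g1; linear_combination h0)
    have e2 : xi (2 * s - 1) = X1 (2 * s - 1) / ((2 * s - 1) * (2 * s - 1 - 1)) :=
      h1.2.2.2.2.2.1 _ g1 (by
        intro h0; apply g2; linear_combination h0 / 2)
    have e3 : X1 (2 * s - 1) = X1 (2 * (1 - s)) := by
      rw [← h1.2.1 (2 * s - 1)]
      congr 1
      ring
    show 2 * II d w s - (phi d w s - phi d w (1 - s)) / (2 * s - 1) = R s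
    rw [hR]
    simp only
    rw [← key]
    unfold II phi pp
    rw [e1, e2, e3]
    have e4 : -(1 - s) = s - 1 := by ring
    have e5 : 2 * s - 1 - 1 = -(2 * (1 - s)) := by ring
    have e6 : 1 - s + w = 1 - s + w := rfl
    rw [e4, e5]
    generalize (Real.cosh d : ℂ) ^ (-s) = A
    generalize (Real.cosh d : ℂ) ^ (s - 1) = B
    generalize 1 / (s - w) + 1 / (s + w) = Q1
    have e7 : (1 / (1 - s + w) + 1 / (1 - s - w)) = (1 / (1 - s - w) + 1 / (1 - s + w)) :=
      add_comm _ _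
    rw [e7]
    generalize 1 / (1 - s - w) + 1 / (1 - s + w) = Q2
    field_simp
    ring
  have hfin := tendsto_nhds_unique (hL.congr' hev) hRl
  have e8 : R (1 / 2) = riemannZeta (1 / 2 + w) * riemannZeta (1 / 2 - w) * JJ (1 / 2) w d := by
    rw [hR]
    simp only
    rw [Complex.Gamma_one_half_eq, ← Complex.cpow_add _ _ pi_ne]
    have : (-(1 / 2) + 1 / 2 : ℂ) = 0 := by ring
    rw [this, Complex.cpow_zero, one_mul]
  rw [e8] at hfin
  exact hfin

end FMZ
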