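import Pool.Agent.FMZ.TE

/-!
# FMZ-E6: the ray identity in the region of absolute convergence
-/

open Complex MeasureTheory Set Filter Topology
open scoped ENNReal

namespace FMZ

namespace ESTAR1_

/-- sums over the lattice of an even function vanishing at zero -/
theorem lat_split (F : ℤ × ℤ → ℂ) (hF : Summable F) (h0 : F 0 = 0) (hneg : ∀ p, F (-p) = F p) :
    Summable (fun p : ℕ × ℕ =>
      F ((p.1 : ℤ) + 1, (p.2 : ℤ) + 1) + F ((p.1 : ℤ) + 1, -((p.2 : ℤ) + 1))) ∧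
    ∑' p, F p = 2 * (∑' b : ℕ, F (0, (b : ℤ) + 1)) + 2 * (∑' a : ℕ, F ((a : ℤ) + 1, 0)) +
      2 * ∑' p : ℕ × ℕ,
        (F ((p.1 : ℤ) + 1, (p.2 : ℤ) + 1) + F ((p.1 : ℤ) + 1, -((p.2 : ℤ) + 1))) := by
  have hpp : Summable (fun p : ℕ × ℕ => F ((p.1 : ℤ) + 1, (p.2 : ℤ) + 1)) := by
    apply hF.comp_injective (i := fun p : ℕ × ℕ => ((p.1 : ℤ) + 1, (p.2 : ℤ) + 1))
    intro p q h
    simp only [Prod.mk.injEq] at h
    ext <;> omega
  have hpm : Summable (fun p : ℕ × ℕ => F ((p.1 : ℤ) + 1, -((p.2 : ℤ) + 1))) := by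
    apply hF.comp_injective (i := fun p : ℕ × ℕ => ((p.1 : ℤ) + 1, -((p.2 : ℤ) + 1)))
    intro p q h
    simp only [Prod.mk.injEq] at h
    ext <;> omega
  have ha0 : Summable (fun a : ℕ => F ((a : ℤ) + 1, 0)) := by
    apply hF.comp_injective (i := fun a : ℕ => ((a : ℤ) + 1, (0 : ℤ)))
    intro p q h
    simp only [Prod.mk.injEq] at h
    omega
  refine ⟨hpp.add hpm, ?_⟩
  have hrow : ∀ m : ℤ, Summable (fun n : ℤ => F (m, n)) := fun m => hF.prod_factor m
  have hS : Summable (fun m : ℤ => ∑' n : ℤ, F (m, n)) := hF.prod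
  have hSneg : ∀ m : ℤ, ∑' n : ℤ, F (-m, n) = ∑' n : ℤ, F (m, n) := by
    intro m
    rw [← (Equiv.neg ℤ).tsum_eq (fun n => F (-m, n))]
    exact tsum_congr fun n => hneg (m, n)
  have hi1 : Function.Injective (fun b : ℕ => ((b : ℤ) + 1)) := fun p q h => by
    simp only at h; omega
  have hi2 : Function.Injective (fun b : ℕ => (-((b : ℤ) + 1))) := fun p q h => by
    simp only at h; omega
  have hsplit : ∀ m : ℤ, ∑' n : ℤ, F (m, n) =
      ∑' b : ℕ, F (m, (b : ℤ) + 1) + F (m, 0) + ∑' b : ℕ, F (m, -((b : ℤ) + 1)) := by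
    intro m
    exact tsum_of_add_one_of_neg_add_one (f := fun n : ℤ => F (m, n))
      ((hrow m).comp_injective hi1) ((hrow m).comp_injective hi2)
  have h1 : ∑' p, F p = ∑' m : ℤ, ∑' n : ℤ, F (m, n) := hF.tsum_prod
  have h2 : ∑' m : ℤ, ∑' n : ℤ, F (m, n) = ∑' a : ℕ, ∑' n : ℤ, F ((a : ℤ) + 1, n) +
      ∑' n : ℤ, F (0, n) + ∑' a : ℕ, ∑' n : ℤ, F (-((a : ℤ) + 1), n) :=
    tsum_of_add_one_of_neg_add_one (f := fun m : ℤ => ∑' n : ℤ, F (m, n))
      (hS.comp_injective hi1) (hS.comp_injective hi2)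
  have h3 : ∑' n : ℤ, F (0, n) = 2 * (∑' b : ℕ, F (0, (b : ℤ) + 1)) := by
    rw [hsplit 0]
    have e1 : F (0, 0) = 0 := h0
    have e2 : ∑' b : ℕ, F (0, -((b : ℤ) + 1)) = ∑' b : ℕ, F (0, (b : ℤ) + 1) := by
      apply tsum_congr
      intro b
      have := hneg (0, (b : ℤ) + 1)
      rw [Prod.neg_mk, neg_zero] at this
      exact this
    rw [e1, e2]
    ring
  have h4 : ∑' a : ℕ, ∑' n : ℤ, F ((a : ℤ) + 1, n) = (∑' a : ℕ, F ((a : ℤ) + 1, 0)) +
      ∑' p : ℕ × ℕ,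
        (F ((p.1 : ℤ) + 1, (p.2 : ℤ) + 1) + F ((p.1 : ℤ) + 1, -((p.2 : ℤ) + 1))) := by
    rw [(hpp.add hpm).tsum_prod, ← ha0.tsum_add (hpp.add hpm).prod]
    apply tsum_congr
    intro a
    rw [hsplit, Summable.tsum_add (hpp.prod_factor a) (hpm.prod_factor a)]
    ring
  have h5 : ∑' a : ℕ, ∑' n : ℤ, F (-((a : ℤ) + 1), n) = ∑' a : ℕ, ∑' n : ℤ, F ((a : ℤ) + 1, n) :=
    tsum_congr fun a => hSneg _
  rw [h1, h2, h5, h3, h4]
  ring

theorem cp (r : ℝ) (hr : 0 < r) (z : ℂ) : (r : ℂ) ^ z = Complex.exp ((Real.log r : ℂ) * z) := by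
  rw [Complex.cpow_def_of_ne_zero (by exact_mod_cast hr.ne'), Complex.ofReal_log hr.le]

theorem inv_cpow_pos (r : ℝ) (hr : 0 < r) (s : ℂ) : (((r⁻¹ : ℝ)) : ℂ) ^ s = (r : ℂ) ^ (-s) := by
  rw [cp _ (inv_pos.2 hr), cp _ hr, Real.log_inv]
  push_cast
  ring_nf

theorem mul_cpow_pos (r t : ℝ) (hr : 0 < r) (ht : 0 < t) (s : ℂ) :
    ((r * t : ℝ) : ℂ) ^ s = (r : ℂ) ^ s * (t : ℂ) ^ s := by
  rw [cp _ (mul_pos hr ht), cp _ hr, cp _ ht, Real.log_mul hr.ne' ht.ne', ← Complex.exp_add]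
  push_cast
  ring_nf

/-- 2 g₊ at a real point -/
noncomputable def Gp (d v : ℝ) : ℝ := 2 * (Real.cosh d * Real.cosh v + Real.sinh d)

/-- 2 g₋ at a real point -/
noncomputable def Gm (d v : ℝ) : ℝ := 2 * (Real.cosh d * Real.cosh v - Real.sinh d)

theorem Gp_pos (d v : ℝ) : 0 < Gp d v := by
  have h1 := Real.one_le_cosh v
  have h2 := Real.cosh_pos d
  have h3 := Real.exp_pos d
  rw [← Real.cosh_add_sinh] at h3
  unfold Gp
  nlinarith

theorem Gm_pos (d v : ℝ) : 0 < Gm d v := by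
  have h1 := Real.one_le_cosh v
  have h2 := Real.cosh_pos d
  have h3 := Real.exp_pos (-d)
  rw [← Real.cosh_sub_sinh] at h3
  unfold Gm
  nlinarith

theorem gp_cast (d v : ℝ) : 2 * gp v d = (Gp d v : ℂ) := by
  unfold gp Gp
  push_cast
  ring

theorem gm_cast (d v : ℝ) : 2 * gm v d = (Gm d v : ℂ) := by
  unfold gm Gm
  push_cast
  ring

theorem ph_real (s : ℂ) (d v : ℝ) : ph s v d = (Gp d v : ℂ) ^ (-s) + (Gm d v : ℂ) ^ (-s) := by
  unfold ph
  rw [gp_cast, gm_cast]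

/-- terms of the double series -/
noncomputable def u (s : ℂ) (d : ℝ) (p : ℕ × ℕ) (τ : ℝ) : ℂ :=
  (((((p.1 : ℝ) + 1) * ((p.2 : ℝ) + 1) : ℝ)) : ℂ) ^ (-s) *
    ph s (τ - Real.log (((p.2 : ℝ) + 1) / ((p.1 : ℝ) + 1))) d

theorem cosh_sub_log (τ A B : ℝ) (hA : 0 < A) (hB : 0 < B) :
    Real.cosh (τ - Real.log (B / A)) =
      (Real.exp τ * A / B + B / (A * Real.exp τ)) / 2 := by
  have hE := Real.exp_pos τ
  rw [Real.cosh_eq, neg_sub, Real.exp_sub, Real.exp_sub, Real.exp_log (by positivity)]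
  field_simp

theorem ray_p (d τ A B : ℝ) (hA : 0 < A) (hB : 0 < B) :
    Real.exp τ / Real.cosh d / ((A * (Real.exp τ * Real.tanh d) + B) ^ 2 +
      (A * (Real.exp τ / Real.cosh d)) ^ 2) =
      (A * B)⁻¹ * (Gp d (τ - Real.log (B / A)))⁻¹ := by
  have hE := Real.exp_pos τ
  have hc := Real.cosh_pos d
  have hG := Gp_pos d (τ - Real.log (B / A))
  have hcs := Real.cosh_sq d
  have hD : 0 < (A * (Real.exp τ * Real.tanh d) + B) ^ 2 +
      (A * (Real.exp τ / Real.cosh d)) ^ 2 := by positivity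
  rw [← mul_inv, eq_comm, inv_eq_iff_eq_inv, inv_div, eq_div_iff (by positivity)]
  unfold Gp
  rw [cosh_sub_log τ A B hA hB, Real.tanh_eq_sinh_div_cosh]
  field_simp
  linear_combination (A ^ 2 * Real.exp τ ^ 2) * hcs

theorem ray_m (d τ A B : ℝ) (hA : 0 < A) (hB : 0 < B) :
    Real.exp τ / Real.cosh d / ((A * (Real.exp τ * Real.tanh d) + -B) ^ 2 +
      (A * (Real.exp τ / Real.cosh d)) ^ 2) =
      (A * B)⁻¹ * (Gm d (τ - Real.log (B / A)))⁻¹ := by
  have hE := Real.exp_pos τ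
  have hc := Real.cosh_pos d
  have hG := Gm_pos d (τ - Real.log (B / A))
  have hcs := Real.cosh_sq d
  have hD : 0 < (A * (Real.exp τ * Real.tanh d) + -B) ^ 2 +
      (A * (Real.exp τ / Real.cosh d)) ^ 2 := by positivity
  rw [← mul_inv, eq_comm, inv_eq_iff_eq_inv, inv_div, eq_div_iff (by positivity)]
  unfold Gm
  rw [cosh_sub_log τ A B hA hB, Real.tanh_eq_sinh_div_cosh]
  field_simp
  linear_combination (A ^ 2 * Real.exp τ ^ 2) * hcs

theorem ray_0 (d τ A : ℝ) (hA : 0 < A) :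
    Real.exp τ / Real.cosh d / ((A * (Real.exp τ * Real.tanh d) + 0) ^ 2 +
      (A * (Real.exp τ / Real.cosh d)) ^ 2) = (Real.exp (-τ) / Real.cosh d) * (A * A)⁻¹ := by
  have hE := Real.exp_pos τ
  have hc := Real.cosh_pos d
  have hcs := Real.cosh_sq d
  rw [Real.tanh_eq_sinh_div_cosh, Real.exp_neg]
  have hD : (A * (Real.exp τ * (Real.sinh d / Real.cosh d)) + 0) ^ 2 +
      (A * (Real.exp τ / Real.cosh d)) ^ 2 = (A * A) * (Real.exp τ * Real.exp τ) := by
    field_simp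
    rw [hcs]
    ring
  rw [hD]
  field_simp

theorem ray_est (h3 : tLAT) (d τ : ℝ) (s : ℂ) (hs : 1 < s.re) :
    Summable (fun p => u s d p τ) ∧
    Est (Real.exp τ * Real.tanh d) (Real.exp τ / Real.cosh d) s = (Real.pi : ℂ) ^ (-s) * Gamma s *
      (((Real.exp τ / Real.cosh d : ℝ) : ℂ) ^ s * riemannZeta (2 * s) +
       ((Real.exp (-τ) / Real.cosh d : ℝ) : ℂ) ^ s * riemannZeta (2 * s) + ∑' p, u s d p τ) := by
  have hE := Real.exp_pos τ
  have hE2 := Real.exp_pos (-τ)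
  have hc := Real.cosh_pos d
  have hy : 0 < Real.exp τ / Real.cosh d := by positivity
  obtain ⟨hsum, hEst⟩ := h3 (Real.exp τ * Real.tanh d) (Real.exp τ / Real.cosh d) s hy hs
  unfold Lat at hEst
  set F : ℤ × ℤ → ℂ := fun p : ℤ × ℤ => if p = 0 then (0 : ℂ) else
    ((Real.exp τ / Real.cosh d / ((p.1 * (Real.exp τ * Real.tanh d) + p.2) ^ 2 +
      (p.1 * (Real.exp τ / Real.cosh d)) ^ 2) : ℝ) : ℂ) ^ s with hF
  have hF0 : F 0 = 0 := by rw [hF]; simp
  have hneg : ∀ p, F (-p) = F p := by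
    intro p
    rw [hF]
    simp only [neg_eq_zero, Prod.fst_neg, Prod.snd_neg, Int.cast_neg]
    congr 5
    · ring
    · ring
  have hval : ∀ m n : ℤ, (m, n) ≠ (0 : ℤ × ℤ) → F (m, n) =
      ((Real.exp τ / Real.cosh d / (((m : ℝ) * (Real.exp τ * Real.tanh d) + (n : ℝ)) ^ 2 +
      ((m : ℝ) * (Real.exp τ / Real.cosh d)) ^ 2) : ℝ) : ℂ) ^ s := by
    intro m n h
    rw [hF]
    exact if_neg h
  obtain ⟨hs1, hs2⟩ := lat_split F hsum hF0 hneg
  have hu : ∀ p : ℕ × ℕ, F ((p.1 : ℤ) + 1, (p.2 : ℤ) + 1) + F ((p.1 : ℤ) + 1, -((p.2 : ℤ) + 1)) =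
      u s d p τ := by
    intro p
    have hA : (0 : ℝ) < (p.1 : ℝ) + 1 := by positivity
    have hB : (0 : ℝ) < (p.2 : ℝ) + 1 := by positivity
    rw [hval _ _ (by
        intro h
        have := congrArg Prod.fst h
        simp only [Prod.fst_zero] at this
        omega),
      hval _ _ (by
        intro h
        have := congrArg Prod.fst h
        simp only [Prod.fst_zero] at this
        omega)]
    push_cast [-Complex.ofReal_div, -Complex.ofReal_mul, -Complex.ofReal_add, -Complex.ofReal_pow]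
    rw [ray_p d τ _ _ hA hB, ray_m d τ _ _ hA hB,
      mul_cpow_pos _ _ (by positivity) (inv_pos.2 (Gp_pos _ _)),
      mul_cpow_pos _ _ (by positivity) (inv_pos.2 (Gm_pos _ _)),
      inv_cpow_pos _ (by positivity), inv_cpow_pos _ (Gp_pos _ _), inv_cpow_pos _ (Gm_pos _ _)]
    unfold u
    rw [ph_real]
    ring
  have h2s : 1 < (2 * s).re := by
    rw [Complex.mul_re]
    simp
    linarith
  have hz := zeta_eq_tsum_one_div_nat_add_one_cpow h2s
  have hb : ∑' b : ℕ, F (0, (b : ℤ) + 1) =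
      ((Real.exp τ / Real.cosh d : ℝ) : ℂ) ^ s * riemannZeta (2 * s) := by
    rw [hz, ← tsum_mul_left]
    apply tsum_congr
    intro b
    have hB : (0 : ℝ) < (b : ℝ) + 1 := by positivity
    rw [hval _ _ (by
        intro h
        have := congrArg Prod.snd h
        simp only [Prod.snd_zero] at this
        omega)]
    have e1 : Real.exp τ / Real.cosh d / ((((0 : ℤ) : ℝ) * (Real.exp τ * Real.tanh d) +
        (((b : ℤ) + 1 : ℤ) : ℝ)) ^ 2 + (((0 : ℤ) : ℝ) * (Real.exp τ / Real.cosh d)) ^ 2) =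
        (Real.exp τ / Real.cosh d) * (((b : ℝ) + 1) * ((b : ℝ) + 1))⁻¹ := by
      push_cast
      rw [zero_mul, zero_mul, zero_add, div_eq_mul_inv]
      congr 2
      ring
    rw [e1, mul_cpow_pos _ _ hy (by positivity), inv_cpow_pos _ (by positivity)]
    congr 1
    rw [mul_cpow_pos _ _ hB hB, cp _ hB]
    have e2 : ((b : ℂ) + 1) = (((b : ℝ) + 1 : ℝ) : ℂ) := by push_cast; rfl
    rw [e2, cp _ hB, ← Complex.exp_add, one_div, ← Complex.exp_neg]
    ring_nf
  have ha : ∑' a : ℕ, F ((a : ℤ) + 1, 0) =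
      ((Real.exp (-τ) / Real.cosh d : ℝ) : ℂ) ^ s * riemannZeta (2 * s) := by
    rw [hz, ← tsum_mul_left]
    apply tsum_congr
    intro b
    have hB : (0 : ℝ) < (b : ℝ) + 1 := by positivity
    rw [hval _ _ (by
        intro h
        have := congrArg Prod.fst h
        simp only [Prod.fst_zero] at this
        omega)]
    have e1 := ray_0 d τ _ hB
    have e0 : (((b : ℤ) + 1 : ℤ) : ℝ) = (b : ℝ) + 1 := by push_cast; rfl
    rw [e0, Int.cast_zero, e1, mul_cpow_pos _ _ (by positivity) (by positivity),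
      inv_cpow_pos _ (by positivity)]
    congr 1
    rw [mul_cpow_pos _ _ hB hB, cp _ hB]
    have e2 : ((b : ℂ) + 1) = (((b : ℝ) + 1 : ℝ) : ℂ) := by push_cast; rfl
    rw [e2, cp _ hB, ← Complex.exp_add, one_div, ← Complex.exp_neg]
    ring_nf
  refine ⟨hs1.congr fun p => ?_, ?_⟩
  · exact hu p
  · rw [hEst, hs2, hb, ha, tsum_congr hu]
    ring

/-- a series of integrable functions with summable norms -/
theorem integrable_series {μ : Measure ℝ} {F : ℕ × ℕ → ℝ → ℂ} (hF : ∀ i, Integrable (F i) μ)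
    (hsum : Summable fun i => ∫ a, ‖F i a‖ ∂μ) (hp : ∀ a, Summable (fun i => F i a)) :
    Integrable (fun a => ∑' i, F i a) μ := by
  refine ⟨?_, ?_⟩
  · refine aestronglyMeasurable_of_tendsto_ae (atTop : Filter (Finset (ℕ × ℕ)))
      (f := fun (s : Finset (ℕ × ℕ)) (a : ℝ) => ∑ i ∈ s, F i a) ?_ ?_
    · intro s
      exact Finset.aestronglyMeasurable_fun_sum s fun i _ => (hF i).1
    · exact Eventually.of_forall fun a => (hp a).hasSum
  · have h1 : ∫⁻ a, ‖∑' i, F i a‖ₑ ∂μ ≤ ∑' i, ∫⁻ a, ‖F i a‖ₑ ∂μ := by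
      rw [← lintegral_tsum (fun i => (hF i).1.enorm)]
      exact lintegral_mono fun a => enorm_tsum_le_tsum_enorm
    have h2 : ∀ i, ∫⁻ a, ‖F i a‖ₑ ∂μ = ENNReal.ofReal (∫ a, ‖F i a‖ ∂μ) := by
      intro i
      rw [ofReal_integral_norm_eq_lintegral_enorm (hF i)]
    have h3 : ∑' i, ∫⁻ a, ‖F i a‖ₑ ∂μ < ∞ := by
      simp_rw [h2]
      rw [← ENNReal.ofReal_tsum_of_nonneg (fun i => integral_nonneg fun a => norm_nonneg _) hsum]
      exact ENNReal.ofReal_lt_top
    exact lt_of_le_of_lt h1 h3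

theorem exp_cosh (a w : ℂ) (ha : |w.re| < a.re) :
    IntegrableOn (fun τ : ℝ => Complex.exp (-a * τ) * Complex.cosh (w * τ)) (Ioi 0) ∧
    2 * ∫ τ in Ioi (0 : ℝ), Complex.exp (-a * τ) * Complex.cosh (w * τ) =
      1 / (a - w) + 1 / (a + w) := by
  have hw := abs_lt.1 ha
  have h1 : (-a + w).re < 0 := by rw [Complex.add_re, Complex.neg_re]; linarith
  have h2 : (-a - w).re < 0 := by rw [Complex.sub_re, Complex.neg_re]; linarith
  have i1 := integrableOn_exp_mul_complex_Ioi h1 0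
  have i2 := integrableOn_exp_mul_complex_Ioi h2 0
  have e1 := integral_exp_mul_complex_Ioi h1 0
  have e2 := integral_exp_mul_complex_Ioi h2 0
  have he : ∀ τ : ℝ, Complex.exp (-a * τ) * Complex.cosh (w * τ) =
      1 / 2 * (Complex.exp ((-a + w) * τ) + Complex.exp ((-a - w) * τ)) := by
    intro τ
    rw [Complex.cosh, add_mul, sub_mul, Complex.exp_add, Complex.exp_sub, Complex.exp_neg]
    field_simp
  refine ⟨?_, ?_⟩
  · refine IntegrableOn.congr_fun ((i1.add i2).const_mul (1 / 2)) (fun τ _ => ?_)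
      measurableSet_Ioi
    exact (he τ).symm
  · have hne1 : a - w ≠ 0 := by
      intro h
      have := congrArg Complex.re h
      rw [Complex.sub_re, Complex.zero_re] at this
      linarith
    have hne2 : a + w ≠ 0 := by
      intro h
      have := congrArg Complex.re h
      rw [Complex.add_re, Complex.zero_re] at this
      linarith
    have hne3 : -a + w ≠ 0 := by
      intro h; apply hne1; linear_combination -h
    have hne4 : -a - w ≠ 0 := by
      intro h; apply hne2; linear_combination -h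
    rw [setIntegral_congr_fun measurableSet_Ioi (fun τ _ => he τ), integral_const_mul,
      integral_add i1 i2, e1, e2]
    simp only [Complex.ofReal_zero, mul_zero, Complex.exp_zero]
    field_simp
    ring

theorem summable_inv_pow {z : ℂ} (hz : 1 < z.re) :
    Summable (fun n : ℕ => ‖(1 : ℂ) / ((n : ℂ) + 1) ^ z‖) := by
  have h1 := (Complex.summable_one_div_nat_cpow (p := z)).2 hz
  have h2 := ((summable_nat_add_iff 1).2 h1).norm
  refine h2.congr fun n => ?_
  push_cast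
  rfl

theorem ph_even (s : ℂ) (v d : ℝ) : ph s (-v) d = ph s v d := by
  unfold ph gp gm
  rw [Real.cosh_neg]

theorem u_neg (s : ℂ) (d : ℝ) (p : ℕ × ℕ) (τ : ℝ) : u s d p (-τ) = u s d p.swap τ := by
  have hA : (0 : ℝ) < (p.1 : ℝ) + 1 := by positivity
  have hB : (0 : ℝ) < (p.2 : ℝ) + 1 := by positivity
  unfold u
  have e : -τ - Real.log (((p.2 : ℝ) + 1) / ((p.1 : ℝ) + 1)) =
      -(τ - Real.log (((p.swap.2 : ℝ) + 1) / ((p.swap.1 : ℝ) + 1))) := by
    simp only [Prod.snd_swap, Prod.fst_swap]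
    rw [Real.log_div hB.ne' hA.ne', Real.log_div hA.ne' hB.ne']
    ring
  rw [e, ph_even]
  simp only [Prod.snd_swap, Prod.fst_swap]
  rw [mul_comm ((p.2 : ℝ) + 1)]

/-- the coefficient of the term `p` after translation -/
noncomputable def Kc (s w : ℂ) (p : ℕ × ℕ) : ℂ :=
  (1 / ((p.1 : ℂ) + 1) ^ (s + w)) * (1 / ((p.2 : ℂ) + 1) ^ (s - w))

theorem u_exp (s w : ℂ) (d : ℝ) (p : ℕ × ℕ) (τ : ℝ) :
    u s d p τ * Complex.exp (w * τ) = Kc s w p *
      (ph s (τ - Real.log (((p.2 : ℝ) + 1) / ((p.1 : ℝ) + 1))) d *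
        Complex.exp (w * ((τ - Real.log (((p.2 : ℝ) + 1) / ((p.1 : ℝ) + 1)) : ℝ) : ℂ))) := by
  have hA : (0 : ℝ) < (p.1 : ℝ) + 1 := by positivity
  have hB : (0 : ℝ) < (p.2 : ℝ) + 1 := by positivity
  have e1 : ((p.1 : ℂ) + 1) = (((p.1 : ℝ) + 1 : ℝ) : ℂ) := by push_cast; rfl
  have e2 : ((p.2 : ℂ) + 1) = (((p.2 : ℝ) + 1 : ℝ) : ℂ) := by push_cast; rfl
  unfold u Kc
  rw [e1, e2, cp _ hA, cp _ hB, cp _ (mul_pos hA hB), Real.log_mul hA.ne' hB.ne',
    Real.log_div hB.ne' hA.ne', one_div, one_div, ← Complex.exp_neg, ← Complex.exp_neg]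
  set φ := ph s (τ - (Real.log ((p.2 : ℝ) + 1) - Real.log ((p.1 : ℝ) + 1))) d
  have e3 : Complex.exp (((Real.log ((p.1 : ℝ) + 1) + Real.log ((p.2 : ℝ) + 1) : ℝ) : ℂ) * -s) *
      Complex.exp (w * τ) =
      Complex.exp (-(((Real.log ((p.1 : ℝ) + 1) : ℝ) : ℂ) * (s + w))) *
        Complex.exp (-(((Real.log ((p.2 : ℝ) + 1) : ℝ) : ℂ) * (s - w))) *
        Complex.exp (w * ((τ - (Real.log ((p.2 : ℝ) + 1) - Real.log ((p.1 : ℝ) + 1)) : ℝ) : ℂ)) := by
    rw [← Complex.exp_add, ← Complex.exp_add, ← Complex.exp_add]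
    push_cast
    ring_nf
  linear_combination φ * e3

theorem int_part (h4 : tJAN) (d : ℝ) (s w : ℂ) (hsw : 1 + |w.re| < s.re)
    (hsum : ∀ τ, Summable (fun p => u s d p τ)) :
    IntegrableOn (fun τ : ℝ => (∑' p, u s d p τ) * Complex.cosh (w * τ)) (Ioi 0) ∧
    2 * ∫ τ in Ioi (0 : ℝ), (∑' p, u s d p τ) * Complex.cosh (w * τ) =
      riemannZeta (s + w) * riemannZeta (s - w) * JJ s w d := by
  have hpi := Real.pi_pos
  have hwr := abs_lt.1 (lt_of_lt_of_le (lt_add_one _) (by linarith : |w.re| + 1 ≤ |w.re| + 1))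
  have hw1 := neg_abs_le w.re
  have hw2 := le_abs_self w.re
  have hdS : (d : ℂ) ∈ S0 := by
    show |(d : ℂ).im| < Real.pi / 2
    rw [Complex.ofReal_im, abs_zero]
    linarith
  have hφ := ((h4.1 s w (by linarith)).2 d hdS).2
  set φ : ℝ → ℂ := fun v : ℝ => ph s v d * Complex.exp (w * v) with hφd
  have hJ : JJ s w d = ∫ v, φ v := rfl
  -- the terms
  set ψ : ℕ × ℕ → ℝ → ℂ := fun p τ => u s d p τ * Complex.exp (w * τ) with hψd
  have hψ : ∀ p, ψ p = fun τ => Kc s w p *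
      φ (τ - Real.log (((p.2 : ℝ) + 1) / ((p.1 : ℝ) + 1))) := by
    intro p
    funext τ
    exact u_exp s w d p τ
  have hψi : ∀ p, Integrable (ψ p) := by
    intro p
    rw [hψ p]
    exact (hφ.comp_sub_right _).const_mul _
  have hψI : ∀ p, ∫ τ, ψ p τ = Kc s w p * JJ s w d := by
    intro p
    rw [hψ p, integral_const_mul, hJ]
    congr 1
    exact integral_sub_right_eq_self φ _
  have hψN : ∀ p, ∫ τ, ‖ψ p τ‖ = ‖Kc s w p‖ * ∫ v, ‖φ v‖ := by
    intro p
    rw [hψ p]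
    simp only [norm_mul]
    rw [integral_const_mul]
    congr 1
    exact integral_sub_right_eq_self (fun v => ‖φ v‖) _
  have hψneg : ∀ p τ, ψ p (-τ) = u s d p.swap τ * Complex.exp (-(w * τ)) := by
    intro p τ
    rw [hψd]
    simp only
    rw [u_neg]
    push_cast
    rw [mul_neg]
  -- summability of the coefficients
  have z1 : 1 < (s + w).re := by rw [Complex.add_re]; linarith
  have z2 : 1 < (s - w).re := by rw [Complex.sub_re]; linarith
  have hK1 := summable_inv_pow z1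
  have hK2 := summable_inv_pow z2
  have hKs : Summable (fun p : ℕ × ℕ => ‖Kc s w p‖) := by
    have := Summable.mul_of_nonneg hK1 hK2 (fun n => norm_nonneg _) (fun n => norm_nonneg _)
    refine this.congr fun p => ?_
    unfold Kc
    rw [norm_mul]
  have hKsum : ∑' p, Kc s w p = riemannZeta (s + w) * riemannZeta (s - w) := by
    rw [zeta_eq_tsum_one_div_nat_add_one_cpow z1, zeta_eq_tsum_one_div_nat_add_one_cpow z2,
      tsum_mul_tsum_of_summable_norm hK1 hK2]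
    rfl
  -- the symmetrised terms on the half line
  have hneg : ∀ p, Integrable (fun τ => ψ p (-τ)) := fun p => (hψi p).comp_neg
  have hGi : ∀ p, Integrable (fun τ => ψ p τ + ψ p (-τ)) (volume.restrict (Ioi 0)) :=
    fun p => ((hψi p).add (hneg p)).integrableOn
  have hGI : ∀ p, ∫ τ in Ioi (0 : ℝ), (ψ p τ + ψ p (-τ)) = Kc s w p * JJ s w d := by
    intro p
    rw [integral_add (hψi p).integrableOn (hneg p).integrableOn, integral_comp_neg_Ioi, neg_zero,
      add_comm, intervalIntegral.integral_Iic_add_Ioi (hψi p).integrableOn (hψi p).integrableOn,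
      hψI]
  have hGN : ∀ p, ∫ τ in Ioi (0 : ℝ), ‖ψ p τ + ψ p (-τ)‖ ≤ ‖Kc s w p‖ * ∫ v, ‖φ v‖ := by
    intro p
    calc ∫ τ in Ioi (0 : ℝ), ‖ψ p τ + ψ p (-τ)‖
        ≤ ∫ τ in Ioi (0 : ℝ), (‖ψ p τ‖ + ‖ψ p (-τ)‖) :=
          integral_mono (hGi p).norm
            (((hψi p).norm.add (hneg p).norm).integrableOn) (fun τ => norm_add_le _ _)
      _ = ∫ τ, ‖ψ p τ‖ := by
          rw [integral_add (hψi p).norm.integrableOn (hneg p).norm.integrableOn,
            integral_comp_neg_Ioi 0 (fun τ => ‖ψ p τ‖), neg_zero, add_comm,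
            intervalIntegral.integral_Iic_add_Ioi (hψi p).norm.integrableOn
              (hψi p).norm.integrableOn]
      _ = _ := hψN p
  have hGs : Summable (fun p => ∫ τ in Ioi (0 : ℝ), ‖ψ p τ + ψ p (-τ)‖) :=
    Summable.of_nonneg_of_le (fun p => integral_nonneg fun τ => norm_nonneg _) hGN
      (hKs.mul_right _)
  have hswap : ∀ τ, HasSum (fun p : ℕ × ℕ => u s d p.swap τ) (∑' p, u s d p τ) := by
    intro τ
    have := (Equiv.prodComm ℕ ℕ).hasSum_iff (f := fun p => u s d p τ) (a := ∑' p, u s d p τ)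
    exact this.2 (hsum τ).hasSum
  have hGsum : ∀ τ, HasSum (fun p => ψ p τ + ψ p (-τ))
      (2 * ((∑' p, u s d p τ) * Complex.cosh (w * τ))) := by
    intro τ
    have h1 : HasSum (fun p => ψ p τ) ((∑' p, u s d p τ) * Complex.exp (w * τ)) :=
      (hsum τ).hasSum.mul_right _
    have h2 : HasSum (fun p => ψ p (-τ)) ((∑' p, u s d p τ) * Complex.exp (-(w * τ))) := by
      have := (hswap τ).mul_right (Complex.exp (-(w * τ)))
      rw [show (fun p => ψ p (-τ)) = fun p : ℕ × ℕ => u s d p.swap τ * Complex.exp (-(w * τ)) from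
        funext fun p => hψneg p τ]
      exact this
    have h3 := h1.add h2
    have e : (∑' p, u s d p τ) * Complex.exp (w * τ) +
        (∑' p, u s d p τ) * Complex.exp (-(w * τ)) =
        2 * ((∑' p, u s d p τ) * Complex.cosh (w * τ)) := by
      rw [Complex.cosh]
      ring
    rw [e] at h3
    exact h3
  have hint := integrable_series hGi hGs (fun τ => (hGsum τ).summable)
  have hfun : (fun τ : ℝ => ∑' p, (ψ p τ + ψ p (-τ))) =
      fun τ : ℝ => 2 * ((∑' p, u s d p τ) * Complex.cosh (w * τ)) := by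
    funext τ
    exact (hGsum τ).tsum_eq
  have hsumI := hasSum_integral_of_summable_integral_norm hGi hGs
  rw [hfun] at hint
  have hval := hsumI.tsum_eq
  rw [hfun] at hval
  simp_rw [hGI] at hval
  rw [tsum_mul_right, hKsum, integral_const_mul] at hval
  refine ⟨?_, hval.symm⟩
  have := hint.const_mul (1 / 2)
  refine this.congr (Eventually.of_forall fun τ => ?_)
  show 1 / 2 * (2 * ((∑' p, u s d p τ) * Complex.cosh (w * τ))) =
    (∑' p, u s d p τ) * Complex.cosh (w * τ)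
  ring

end ESTAR1_

open ESTAR1_ in
theorem pSTAR1 (h1 : tX) (_h2 : tN) (h3 : tLAT) (h4 : tJAN) (_h5 : tCONE) (_h6 : tPHB) :
    tSTAR1 := by
  intro d s w hsw
  have habs := abs_nonneg w.re
  have hs1 : 1 < s.re := by linarith
  have hc := Real.cosh_pos d
  have hR := fun τ => ray_est h3 d τ s hs1
  obtain ⟨hUi, hUI⟩ := int_part h4 d s w hsw (fun τ => (hR τ).1)
  have h2s0 : 2 * s ≠ 0 := by
    intro h
    have := congrArg Complex.re h
    simp at this
    linarith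
  have h2s1 : 2 * s ≠ 1 := by
    intro h
    have := congrArg Complex.re h
    simp at this
    linarith
  have hxi : xi (2 * s) = (Real.pi : ℂ) ^ (-s) * Gamma s * riemannZeta (2 * s) := by
    have := h1.2.2.2.2.2.2.2.2.2.1 (2 * s) h2s0 h2s1 (by
      have : (2 * s).re = 2 * s.re := by simp
      rw [this]; linarith)
    rw [this]
    congr 3
    · ring
    · ring
  have hN : ∀ τ : ℝ, Nr d τ s = (Real.pi : ℂ) ^ (-s) * Gamma s * (∑' p, u s d p τ) +
      xi (2 * s) * (Real.cosh d : ℂ) ^ (-s) * Complex.exp (-s * τ) -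
      xi (2 * s - 1) * (Real.cosh d : ℂ) ^ (s - 1) * Complex.exp (-(s - 1) * τ) := by
    intro τ
    have hE := (hR τ).2
    unfold Est at hE
    have hy1 : ((Real.exp τ / Real.cosh d : ℝ) : ℂ) ^ (1 - s) =
        (Real.cosh d : ℂ) ^ (s - 1) * Complex.exp (-(s - 1) * τ) := by
      rw [cp _ (by positivity), cp _ hc, Real.log_div (Real.exp_pos τ).ne' hc.ne', Real.log_exp,
        ← Complex.exp_add]
      push_cast
      ring_nf
    have hy2 : ((Real.exp (-τ) / Real.cosh d : ℝ) : ℂ) ^ s =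
        (Real.cosh d : ℂ) ^ (-s) * Complex.exp (-s * τ) := by
      rw [cp _ (by positivity), cp _ hc, Real.log_div (Real.exp_pos (-τ)).ne' hc.ne',
        Real.log_exp, ← Complex.exp_add]
      push_cast
      ring_nf
    unfold Nr
    rw [hy1, hy2] at hE
    rw [hxi] at hE ⊢
    linear_combination hE
  obtain ⟨ia, ea⟩ := exp_cosh s w (by linarith)
  obtain ⟨ib, eb⟩ := exp_cosh (s - 1) w (by rw [Complex.sub_re, Complex.one_re]; linarith)
  have hfun : ∀ τ : ℝ, Nr d τ s * Complex.cosh (w * τ) =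
      ((Real.pi : ℂ) ^ (-s) * Gamma s) * ((∑' p, u s d p τ) * Complex.cosh (w * τ)) +
      (xi (2 * s) * (Real.cosh d : ℂ) ^ (-s)) * (Complex.exp (-s * τ) * Complex.cosh (w * τ)) -
      (xi (2 * s - 1) * (Real.cosh d : ℂ) ^ (s - 1)) *
        (Complex.exp (-(s - 1) * τ) * Complex.cosh (w * τ)) := by
    intro τ
    rw [hN τ]
    ring
  have hI : ∫ τ in Ioi (0 : ℝ), Nr d τ s * Complex.cosh (w * τ) =
      ((Real.pi : ℂ) ^ (-s) * Gamma s) *
        (∫ τ in Ioi (0 : ℝ), (∑' p, u s d p τ) * Complex.cosh (w * τ)) +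
      (xi (2 * s) * (Real.cosh d : ℂ) ^ (-s)) *
        (∫ τ in Ioi (0 : ℝ), Complex.exp (-s * τ) * Complex.cosh (w * τ)) -
      (xi (2 * s - 1) * (Real.cosh d : ℂ) ^ (s - 1)) *
        (∫ τ in Ioi (0 : ℝ), Complex.exp (-(s - 1) * τ) * Complex.cosh (w * τ)) := by
    have i1 : Integrable (fun τ : ℝ => ((Real.pi : ℂ) ^ (-s) * Gamma s) *
        ((∑' p, u s d p τ) * Complex.cosh (w * τ))) (volume.restrict (Ioi 0)) := hUi.const_mul _
    have i2 : Integrable (fun τ : ℝ => (xi (2 * s) * (Real.cosh d : ℂ) ^ (-s)) *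
        (Complex.exp (-s * τ) * Complex.cosh (w * τ))) (volume.restrict (Ioi 0)) := ia.const_mul _
    have i3 : Integrable (fun τ : ℝ => (xi (2 * s - 1) * (Real.cosh d : ℂ) ^ (s - 1)) *
        (Complex.exp (-(s - 1) * τ) * Complex.cosh (w * τ))) (volume.restrict (Ioi 0)) :=
      ib.const_mul _
    have i12 : Integrable (fun τ : ℝ => ((Real.pi : ℂ) ^ (-s) * Gamma s) *
        ((∑' p, u s d p τ) * Complex.cosh (w * τ)) + (xi (2 * s) * (Real.cosh d : ℂ) ^ (-s)) *
        (Complex.exp (-s * τ) * Complex.cosh (w * τ))) (volume.restrict (Ioi 0)) := i1.add i2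
    rw [setIntegral_congr_fun measurableSet_Ioi (fun τ _ => hfun τ),
      integral_sub i12 i3, integral_add i1 i2, integral_const_mul, integral_const_mul,
      integral_const_mul]
  have e1 : (1 : ℂ) / (1 - s + w) = -(1 / (s - 1 - w)) := by
    rw [← neg_sub_neg, ← one_div_neg_eq_neg_one_div]
    congr 1
    ring
  have e2 : (1 : ℂ) / (1 - s - w) = -(1 / (s - 1 + w)) := by
    rw [← one_div_neg_eq_neg_one_div]
    congr 1
    ring
  rw [hI, e1, e2]
  linear_combination ((Real.pi : ℂ) ^ (-s) * Gamma s) * hUI +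
    (xi (2 * s) * (Real.cosh d : ℂ) ^ (-s)) * ea -
    (xi (2 * s - 1) * (Real.cosh d : ℂ) ^ (s - 1)) * eb

end FMZ
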