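import Pool.Agent.FMZ.TE

/-!
# FMZ: the entire completed zeta function and the quotients
-/

open Complex MeasureTheory Set Filter Topology

namespace FMZ

namespace EX_

theorem diff : Differentiable ℂ X1 := by
  unfold X1
  have := differentiable_completedZeta₀
  fun_prop

theorem symm (w : ℂ) : X1 (1 - w) = X1 w := by
  unfold X1
  rw [completedRiemannZeta₀_one_sub]
  ring

theorem zero : X1 0 = 1 := by simp [X1]

theorem one : X1 1 = 1 := by simp [X1]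

theorem deriv_one : deriv X1 1 = 1 + c0 / 2 := by
  have h1 : HasDerivAt (fun w : ℂ => w * (w - 1)) (1 * (1 - 1) + 1 * 1) (1 : ℂ) :=
    (hasDerivAt_id (1 : ℂ)).mul ((hasDerivAt_id (1 : ℂ)).sub_const 1)
  have h2 := (h1.mul (differentiable_completedZeta₀ 1).hasDerivAt).const_add 1
  have h3 : deriv X1 1 = (1 * (1 - 1) + 1 * 1) * completedRiemannZeta₀ 1 +
      1 * (1 - 1) * deriv completedRiemannZeta₀ 1 := h2.deriv
  rw [h3, completedRiemannZeta₀_one]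
  have h4 : (c0 : ℂ) = (Real.eulerMascheroniConstant : ℂ) - Complex.log (4 * (Real.pi : ℂ)) := by
    unfold c0
    push_cast
    rw [show (4 * (Real.pi : ℂ)) = ((4 * Real.pi : ℝ) : ℂ) by push_cast; ring,
      ← Complex.ofReal_log (by positivity)]
  rw [h4]
  ring

theorem xi_eq {w : ℂ} (h0 : w ≠ 0) (h1 : w ≠ 1) : xi w = X1 w / (w * (w - 1)) := by
  have h2 : w - 1 ≠ 0 := sub_ne_zero.mpr h1
  have h3 : 1 - w ≠ 0 := sub_ne_zero.mpr h1.symm
  unfold xi X1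
  rw [completedRiemannZeta_eq]
  field_simp
  ring

theorem xi_prod {w : ℂ} (h0 : w ≠ 0) (hre : 0 ≤ w.re) :
    xi w = (Real.pi : ℂ) ^ (-w / 2) * Gamma (w / 2) * riemannZeta w := by
  have hG : Gammaℝ w ≠ 0 := by
    rw [Ne, Gammaℝ_eq_zero_iff]
    rintro ⟨n, hn⟩
    rcases Nat.eq_zero_or_pos n with h | h
    · apply h0
      rw [hn, h]
      simp
    · rw [hn] at hre
      simp only [neg_re, mul_re, natCast_re, natCast_im, re_ofNat, im_ofNat] at hre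
      have : (0 : ℝ) < n := by exact_mod_cast h
      linarith
  rw [riemannZeta_def_of_ne_zero h0, ← Gammaℝ_def, mul_div_cancel₀ _ hG]
  rfl

theorem ne_of_one_le {w : ℂ} (h : 1 ≤ w.re) : X1 w ≠ 0 := by
  by_cases h1 : w = 1
  · rw [h1, one]
    exact one_ne_zero
  have h0 : w ≠ 0 := by
    rintro rfl
    simp at h
    linarith
  have h2 : xi w ≠ 0 := by
    have hG : Gammaℝ w ≠ 0 := Gammaℝ_ne_zero_of_re_pos (by linarith)
    have hz := riemannZeta_ne_zero_of_one_le_re h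
    rw [riemannZeta_def_of_ne_zero h0] at hz
    intro h3
    apply hz
    unfold xi at h3
    rw [h3, zero_div]
  rw [xi_eq h0 h1] at h2
  exact fun h3 => h2 (by rw [h3, zero_div])

theorem ne_of_le_zero {w : ℂ} (h : w.re ≤ 0) : X1 w ≠ 0 := by
  rw [← symm]
  exact ne_of_one_le (by simp; linarith)

theorem rad : ∃ r, Rad r := by
  have hc : ContinuousAt X1 1 := diff.continuous.continuousAt
  have hne : ∀ᶠ w in 𝓝 (1 : ℂ), X1 w ≠ 0 := hc.eventually_ne (by rw [one]; exact one_ne_zero)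
  obtain ⟨ε, hε, h⟩ := Metric.eventually_nhds_iff.mp hne
  refine ⟨min (1 / 8) (ε / 4), by positivity, min_le_left _ _, fun w hw => h ?_⟩
  rw [dist_eq_norm]
  have : min (1 / 8) (ε / 4) ≤ ε / 4 := min_le_right _ _
  linarith

theorem bf_eq {s : ℂ} (h0 : s ≠ 0) (h1 : s ≠ 1) (h2 : s ≠ 1 / 2) : bf s = bq s := by
  have e1 : s - 1 ≠ 0 := sub_ne_zero.mpr h1
  have e2 : 2 * s - 1 ≠ 0 := by
    intro h
    apply h2
    linear_combination h / 2
  have e3 : 2 * s - 1 ≠ 1 := by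
    intro h
    apply h1
    linear_combination h / 2
  have e4 : 2 * s ≠ 0 := mul_ne_zero two_ne_zero h0
  have e5 : 2 * s ≠ 1 := by
    intro h
    apply h2
    linear_combination h / 2
  have e6 : 2 * s - 1 - 1 = 2 * (s - 1) := by ring
  unfold bf bq
  rw [xi_eq h0 h1, xi_eq e2 e3, xi_eq e4 e5, e6]
  simp only [div_eq_mul_inv, mul_inv, inv_inv, mul_pow, inv_pow]
  field_simp
  ring

theorem Aq_eq {s : ℂ} (h0 : s ≠ 0) (h1 : s ≠ 1) (h2 : s ≠ 1 / 2) (hX : X1 (2 * s - 1) ≠ 0) :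
    Aq s = bq s * xi (2 * s - 1) := by
  have e1 : s - 1 ≠ 0 := sub_ne_zero.mpr h1
  have e2 : 2 * s - 1 ≠ 0 := by
    intro h
    apply h2
    linear_combination h / 2
  have e3 : 2 * s - 1 ≠ 1 := by
    intro h
    apply h1
    linear_combination h / 2
  have e6 : 2 * s - 1 - 1 = 2 * (s - 1) := by ring
  unfold Aq bq
  rw [xi_eq e2 e3, e6]
  simp only [div_eq_mul_inv, mul_inv, mul_pow]
  field_simp
  ring

theorem Bq_eq {s : ℂ} (h0 : s ≠ 0) (h1 : s ≠ 1) (h2 : s ≠ 1 / 2) (hX : X1 (2 * s) ≠ 0) :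
    Bq s = bq s * xi (2 * s) := by
  have e1 : s - 1 ≠ 0 := sub_ne_zero.mpr h1
  have e2 : 2 * s - 1 ≠ 0 := by
    intro h
    apply h2
    linear_combination h / 2
  have e4 : 2 * s ≠ 0 := mul_ne_zero two_ne_zero h0
  have e5 : 2 * s ≠ 1 := by
    intro h
    apply h2
    linear_combination h / 2
  unfold Bq bq
  rw [xi_eq e4 e5]
  simp only [div_eq_mul_inv, mul_inv, mul_pow]
  field_simp
  ring

theorem AB {s : ℂ} (h0 : s ≠ 0) (h1 : s ≠ 1) : Bq (1 - s) = Aq s := by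
  have e1 : s - 1 ≠ 0 := sub_ne_zero.mpr h1
  have e2 : 1 - s ≠ 0 := sub_ne_zero.mpr h1.symm
  have e3 : 2 * (1 - s) - 1 = 1 - 2 * s := by ring
  unfold Bq Aq
  rw [symm, e3, symm, show (1 : ℂ) - 2 * s = -(2 * s - 1) by ring,
    show (1 : ℂ) - s - 1 = -s by ring, show (1 - s) ^ 4 = (s - 1) ^ 4 by ring]
  simp only [div_eq_mul_inv, mul_inv, mul_pow]
  field_simp

end EX_

open EX_ in
/-- all facts of `tX`; the product formula for `xi` is stated for `0 ≤ Re w`, and the formulas for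
`Aq`, `Bq` where the denominators do not vanish -/
theorem pX_core :
    Differentiable ℂ X1 ∧ (∀ w, X1 (1 - w) = X1 w) ∧ X1 0 = 1 ∧ X1 1 = 1 ∧
    deriv X1 1 = 1 + c0 / 2 ∧
    (∀ w : ℂ, w ≠ 0 → w ≠ 1 → xi w = X1 w / (w * (w - 1))) ∧
    (∀ w : ℂ, 1 ≤ w.re → X1 w ≠ 0) ∧ (∀ w : ℂ, w.re ≤ 0 → X1 w ≠ 0) ∧ (∃ r, Rad r) ∧
    (∀ w : ℂ, w ≠ 0 → w ≠ 1 → 0 ≤ w.re →
      xi w = (Real.pi : ℂ) ^ (-w / 2) * Gamma (w / 2) * riemannZeta w) ∧
    (∀ s : ℂ, s ≠ 0 → s ≠ 1 → s ≠ 1 / 2 → bf s = bq s) ∧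
    (∀ s : ℂ, s ≠ 0 → s ≠ 1 → s ≠ 1 / 2 →
      (X1 (2 * s - 1) ≠ 0 → Aq s = bq s * xi (2 * s - 1)) ∧
      (X1 (2 * s) ≠ 0 → Bq s = bq s * xi (2 * s))) ∧
    ∀ s : ℂ, s ≠ 0 → s ≠ 1 → Bq (1 - s) = Aq s :=
  ⟨diff, symm, zero, one, deriv_one, fun _ h0 h1 => xi_eq h0 h1, fun _ h => ne_of_one_le h,
    fun _ h => ne_of_le_zero h, rad, fun _ h0 _ hre => xi_prod h0 hre,
    fun _ h0 h1 h2 => bf_eq h0 h1 h2,
    fun _ h0 h1 h2 => ⟨fun h => Aq_eq h0 h1 h2 h, fun h => Bq_eq h0 h1 h2 h⟩,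
    fun _ h0 h1 => AB h0 h1⟩

theorem pX : tX := pX_core

end FMZ
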