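import Pool.Agent.FMZ.Spec
import Pool.Agent.FMZ.TW

/-!
# FMZ: final assembly
-/

open Complex MeasureTheory Set Filter Topology

namespace FMZ

namespace FIN_

theorem real_mem (x : ℝ) : (x : ℂ) ∈ S0 := by
  show |(x : ℂ).im| < Real.pi / 2
  rw [ofReal_im, abs_zero]
  positivity

theorem strip_mem {d : ℂ} {b : ℝ} (h : |d.im| ≤ b) (hb : b < Real.pi / 2) : d ∈ S0 :=
  lt_of_le_of_lt h hb

theorem imag_mem {b : ℝ} (h0 : 0 < b) (hb : b < Real.pi / 2) : (b * I : ℂ) ∈ S0 := by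
  refine strip_mem (b := b) ?_ hb
  simp [abs_of_pos h0]

theorem strip_bound {g : ℂ → ℂ} (hg : DifferentiableOn ℂ g S0) (he : ∀ d ∈ S0, g (-d) = g d)
    {C : ℝ} {K : ℝ → ℝ}
    (hdec : ∀ b, 0 < b → b < Real.pi / 2 → ∃ A, ∀ d : ℂ, |d.im| ≤ b → A ≤ d.re →
      ‖g d‖ ≤ C * Real.exp (-(d.re / 2)) / K b) :
    ∀ b' < Real.pi / 2, ∃ M, ∀ d : ℂ, |d.im| ≤ b' → ‖g d‖ ≤ M * Real.exp (-(|d.re| / 2)) := by
  intro b' hb'
  set b := max b' (Real.pi / 4) with hb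
  have hpi := Real.pi_pos
  have hb0 : 0 < b := lt_of_lt_of_le (by positivity) (le_max_right _ _)
  have hb1 : b < Real.pi / 2 := max_lt hb' (by linarith)
  obtain ⟨A, hA⟩ := hdec b hb0 hb1
  set A' := max A 0 with hA'
  have hcomp : IsCompact (Icc (-A') A' ×ℂ Icc (-b) b) := isCompact_Icc.reProdIm isCompact_Icc
  have hsub : (Icc (-A') A' ×ℂ Icc (-b) b) ⊆ S0 := by
    intro d hd
    rw [mem_reProdIm] at hd
    exact strip_mem (abs_le.mpr hd.2) hb1
  obtain ⟨M0, hM0⟩ := hcomp.exists_bound_of_continuousOn (hg.continuousOn.mono hsub)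
  refine ⟨max (C / K b) (|M0| * Real.exp (A' / 2)), fun d hd => ?_⟩
  have hdb : |d.im| ≤ b := hd.trans (le_max_left _ _)
  have hpos : ∀ d : ℂ, |d.im| ≤ b → A' ≤ d.re →
      ‖g d‖ ≤ max (C / K b) (|M0| * Real.exp (A' / 2)) * Real.exp (-(|d.re| / 2)) := by
    intro d hd h
    have h1 := hA d hd ((le_max_left _ _).trans h)
    have h2 : 0 ≤ d.re := (le_max_right _ _).trans h
    rw [abs_of_nonneg h2]
    calc ‖g d‖ ≤ C * Real.exp (-(d.re / 2)) / K b := h1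
      _ = C / K b * Real.exp (-(d.re / 2)) := by ring
      _ ≤ _ := mul_le_mul_of_nonneg_right (le_max_left _ _) (Real.exp_pos _).le
  rcases le_or_gt A' d.re with h | h
  · exact hpos d hdb h
  rcases le_or_gt A' (-d.re) with h' | h'
  · have h3 := hpos (-d) (by simpa using hdb) (by simpa using h')
    rw [he d (strip_mem hdb hb1)] at h3
    simpa using h3
  · have h4 : ‖g d‖ ≤ M0 := hM0 d (by
      rw [mem_reProdIm]
      exact ⟨⟨by linarith, h.le⟩, abs_le.mp hdb⟩)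
    have h5 : |d.re| ≤ A' := abs_le.mpr ⟨by linarith, h.le⟩
    calc ‖g d‖ ≤ |M0| * 1 := by rw [mul_one]; exact h4.trans (le_abs_self _)
      _ ≤ |M0| * (Real.exp (A' / 2) * Real.exp (-(|d.re| / 2))) := by
          refine mul_le_mul_of_nonneg_left ?_ (abs_nonneg _)
          rw [← Real.exp_add]
          exact Real.one_le_exp (by linarith)
      _ = |M0| * Real.exp (A' / 2) * Real.exp (-(|d.re| / 2)) := by ring
      _ ≤ _ := mul_le_mul_of_nonneg_right (le_max_right _ _) (Real.exp_pos _).le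

theorem pow_bound (M : ℕ) {δ : ℝ} (hδ : 0 < δ) :
    ∃ K : ℝ, ∀ t : ℝ, (1 / 4 + t ^ 2) ^ M ≤ K * Real.exp (δ * |t|) := by
  set ε : ℝ := δ / (M + 1) with hε
  have hε0 : 0 < ε := by positivity
  refine ⟨(1 / 4 + 2 / ε ^ 2) ^ M, fun t => ?_⟩
  have h1 : 1 / 4 + t ^ 2 ≤ (1 / 4 + 2 / ε ^ 2) * Real.exp (ε * |t|) := by
    have h2 := Real.quadratic_le_exp_of_nonneg (show 0 ≤ ε * |t| by positivity)
    have h3 : 1 ≤ Real.exp (ε * |t|) := Real.one_le_exp (by positivity)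
    have h4 : (ε * |t|) ^ 2 / 2 ≤ Real.exp (ε * |t|) := by
      have : 0 ≤ ε * |t| := by positivity
      linarith
    have h5 : t ^ 2 ≤ 2 / ε ^ 2 * Real.exp (ε * |t|) := by
      calc t ^ 2 = 2 / ε ^ 2 * ((ε * |t|) ^ 2 / 2) := by
            rw [mul_pow, sq_abs]; field_simp
        _ ≤ _ := mul_le_mul_of_nonneg_left h4 (by positivity)
    linarith
  calc (1 / 4 + t ^ 2) ^ M ≤ ((1 / 4 + 2 / ε ^ 2) * Real.exp (ε * |t|)) ^ M :=
        pow_le_pow_left₀ (by positivity) h1 M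
    _ = (1 / 4 + 2 / ε ^ 2) ^ M * Real.exp (M * (ε * |t|)) := by
        rw [mul_pow, ← Real.exp_nat_mul]
    _ ≤ (1 / 4 + 2 / ε ^ 2) ^ M * Real.exp (δ * |t|) := by
        refine mul_le_mul_of_nonneg_left (Real.exp_le_exp.mpr ?_) (by positivity)
        rw [← mul_assoc]
        refine mul_le_mul_of_nonneg_right ?_ (abs_nonneg _)
        rw [hε, mul_div_assoc', div_le_iff₀ (by positivity)]
        nlinarith

theorem int_H (h8 : HINT) (M : ℕ) :
    AEStronglyMeasurable (fun t : ℝ => Hf t * ((1 / 4 + t ^ 2) ^ M : ℝ)) volume ∧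
    ∀ b' < Real.pi / 2, Integrable
      (fun t : ℝ => ‖Hf t * ((1 / 4 + t ^ 2) ^ M : ℝ)‖ * Real.exp (b' * |t|)) := by
  have hm : AEStronglyMeasurable (fun t : ℝ => Hf t * ((1 / 4 + t ^ 2) ^ M : ℝ)) volume := by
    refine h8.1.mul (Continuous.aestronglyMeasurable ?_)
    exact continuous_ofReal.comp (by fun_prop)
  refine ⟨hm, fun b' hb' => ?_⟩
  set b'' : ℝ := (b' + Real.pi / 2) / 2 with hb''
  obtain ⟨K, hK⟩ := pow_bound M (show 0 < b'' - b' by rw [hb'']; linarith)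
  have hint := (h8.2 b'' (by rw [hb'']; linarith)).const_mul K
  refine hint.mono ?_ (ae_of_all _ fun t => ?_)
  · exact hm.norm.mul (Continuous.aestronglyMeasurable (by fun_prop))
  · have h1 : 0 ≤ (1 / 4 + t ^ 2) ^ M := by positivity
    rw [norm_mul, norm_norm, norm_mul, norm_real, Real.norm_eq_abs, Real.norm_eq_abs,
      abs_of_nonneg h1, Real.abs_exp]
    refine le_trans ?_ (le_abs_self _)
    calc ‖Hf t‖ * (1 / 4 + t ^ 2) ^ M * Real.exp (b' * |t|)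
        ≤ ‖Hf t‖ * (K * Real.exp ((b'' - b') * |t|)) * Real.exp (b' * |t|) := by
          gcongr
          exact hK t
      _ = K * (‖Hf t‖ * Real.exp (b'' * |t|)) := by
          rw [show b'' * |t| = (b'' - b') * |t| + b' * |t| by ring, Real.exp_add]
          ring

/-- the iterated operator kills a function that it kills after fewer steps -/
theorem kill (h14 : tDDL) {R : ℂ → ℂ} (hR : DifferentiableOn ℂ R S0) {k M : ℕ}
    (hk : ∀ d ∈ S0, (DD^[k] R) d = 0) (hM : k ≤ M) : ∀ d ∈ S0, (DD^[M] R) d = 0 := by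
  intro d hd
  obtain ⟨m, rfl⟩ := Nat.exists_eq_add_of_le' hM
  rw [Function.iterate_add_apply,
    h14.2.2.1 (DD^[k] R) (fun z => 0 * R z + 0 * R z) (fun z hz => by rw [hk z hz]; ring) m d hd,
    h14.2.1 R R hR hR 0 0 m d hd]
  ring

/-- the iterated operator on a spectral solution -/
theorem eig (h14 : tDDL) {J : ℂ → ℂ} (hJ : DifferentiableOn ℂ J S0) {l : ℂ}
    (h : ∀ d ∈ S0, DD J d = l * J d) (M : ℕ) : ∀ d ∈ S0, (DD^[M] J) d = l ^ M * J d := by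
  induction M with
  | zero => intro d _; simp
  | succ m ih =>
    intro d hd
    rw [Function.iterate_succ_apply,
      h14.2.2.1 (DD J) (fun z => l * J z + 0 * J z) (fun z hz => by rw [h z hz]; ring) m d hd,
      h14.2.1 J J hJ hJ l 0 m d hd, ih d hd, pow_succ]
    ring

theorem sub3 (h14 : tDDL) {B R P : ℂ → ℂ} (hB : DifferentiableOn ℂ B S0)
    (hR : DifferentiableOn ℂ R S0) (hP : DifferentiableOn ℂ P S0) (M : ℕ) (d : ℂ) (hd : d ∈ S0) :
    (DD^[M] (fun z => B z - R z - P z)) d = (DD^[M] B) d - (DD^[M] R) d - (DD^[M] P) d := by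
  have h1 : (fun z => B z - R z - P z) =
      fun z => 1 * (fun z => 1 * B z + (-1) * R z) z + (-1) * P z := by
    funext z; ring
  have h2 : DifferentiableOn ℂ (fun z => 1 * B z + (-1) * R z) S0 :=
    (hB.const_mul 1).add (hR.const_mul (-1))
  rw [h1, h14.2.1 _ _ h2 hP 1 (-1) M d hd, h14.2.1 _ _ hB hR 1 (-1) M d hd]
  ring

theorem sub2 (h14 : tDDL) {B P : ℂ → ℂ} (hB : DifferentiableOn ℂ B S0)
    (hP : DifferentiableOn ℂ P S0) (M : ℕ) (d : ℂ) (hd : d ∈ S0) :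
    (DD^[M] (fun z => B z - P z)) d = (DD^[M] B) d - (DD^[M] P) d := by
  have h1 : (fun z => B z - P z) = fun z => 1 * B z + (-1) * P z := by
    funext z; ring
  rw [h1, h14.2.1 _ _ hB hP 1 (-1) M d hd]
  ring

theorem cos_ge {b : ℝ} (h0 : 0 < b) (hb : b < Real.pi / 2) :
    2 / Real.pi * (Real.pi / 2 - b) ≤ Real.cos b := by
  rw [← Real.sin_pi_div_two_sub]
  exact Real.mul_le_sin (by linarith) (by linarith)

/-- the last step: the two growth rates at `iπ/2` are not compatible -/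
theorem contra {C K ψ₀ : ℝ} (hψ : ψ₀ < Real.pi / 2) (h0 : 0 ≤ ψ₀)
    (h : ∀ ψ, ψ₀ < ψ → ψ < Real.pi / 2 →
      8 / 3 * (-Real.log (Real.cos ψ)) ^ 3 ≤ K + C * (-Real.log (Real.cos ψ)) ^ 2) : False := by
  set L0 : ℝ := 1 + |K| + |C| with hL0
  set x : ℝ := min (Real.exp (-L0)) ((Real.pi / 2 - ψ₀) / 2) with hx
  have hx0 : 0 < x := lt_min (Real.exp_pos _) (by linarith)
  have hx1 : x ≤ (Real.pi / 2 - ψ₀) / 2 := min_le_right _ _
  have hx2 : x ≤ Real.exp (-L0) := min_le_left _ _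
  have hcos : Real.cos (Real.pi / 2 - x) = Real.sin x := Real.cos_pi_div_two_sub x
  have hs0 : 0 < Real.sin x := Real.sin_pos_of_pos_of_lt_pi hx0 (by linarith [Real.pi_pos])
  have hs1 : Real.sin x ≤ Real.exp (-L0) := (Real.sin_le hx0.le).trans hx2
  have hlog : Real.log (Real.sin x) ≤ -L0 := by
    rw [Real.log_le_iff_le_exp hs0]
    exact hs1
  have h1 := h (Real.pi / 2 - x) (by linarith) (by linarith)
  rw [hcos] at h1
  set L := -Real.log (Real.sin x) with hL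
  have hLL : L0 ≤ L := by linarith
  have hK := le_abs_self K
  have hC := le_abs_self C
  have hK0 := abs_nonneg K
  have hC0 := abs_nonneg C
  have hL1 : 1 ≤ L := by linarith
  have h2 : K ≤ |K| * L ^ 2 := by nlinarith
  have h3 : C * L ^ 2 ≤ |C| * L ^ 2 := by nlinarith [sq_nonneg L]
  have h4 : L0 * L ^ 2 ≤ L ^ 3 := by
    have : 0 ≤ L ^ 2 := sq_nonneg L
    nlinarith
  have h5 : 1 ≤ L ^ 2 := by nlinarith
  have h6 : 1 ≤ L ^ 3 := by nlinarith
  nlinarith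

end FIN_

open FIN_ in
theorem pFIN (h1 : SPEC) (h2 : EISEN) (h3 : ZINF) (h4 : ZIM) (h5 : PIM)
    (h6 : ANAB) (h7 : ANAJ) (h8 : HINT) (h9 : ANAP) (h10 : WAVE) (h11 : DEC) (h12 : INT)
    (h13 : TRSP) (h14 : tDDL) : GOAL := by
  intro P C hyp
  obtain ⟨Q, C₀, hQ⟩ := h3 P C hyp
  obtain ⟨F, R, hAut, hCusp, hSmall, hR, hR5, hray⟩ := h2
  obtain ⟨κ, c, hsp⟩ := h1 F hAut hCusp hSmall
  obtain ⟨hB, hBe⟩ := h6
  obtain ⟨hP, hPM⟩ := h9
  obtain ⟨C₁, hC₁, hW⟩ := h10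
  set M : ℕ := max 5 (Q.natDegree + 1) with hM
  have hM5 : 5 ≤ M := le_max_left _ _
  have hMQ : Q.natDegree < M := lt_of_lt_of_le (Nat.lt_succ_self _) (le_max_right _ _)
  obtain ⟨C1, hC1, hdec⟩ := h11 B0 Q C₀ hB hQ M hMQ
  have gan := h14.1 _ hB M
  have geven := h14.2.2.2 _ hB hBe M
  have hstrip := strip_bound gan geven hdec
  obtain ⟨hHm, hHi⟩ := int_H h8 M
  have hf : DifferentiableOn ℂ (fun z => B0 z - R z - Pc z) S0 := (hB.sub hR).sub hP
  have hRM := kill h14 hR hR5 hM5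
  have hgc : ∀ d ∈ S0, (DD^[M] (fun z => B0 z - R z - Pc z)) d =
      (DD^[M] B0) d - ∫ t : ℝ, (Hf t * ((1 / 4 + t ^ 2) ^ M : ℝ)) * Jk t d := by
    intro d hd
    rw [sub3 h14 hB hR hP M d hd, hRM d hd, hPM M d hd, sub_zero]
  have hspec : ∀ X : ℝ → ℝ, Tst X →
      Summable (fun j => ‖(c j * ((1 / 4 + κ j ^ 2 : ℝ) : ℂ) ^ M) *
        ∫ t : ℝ, Jk (κ j) (Real.arsinh t : ℝ) * X t‖) ∧
      ∑' j, (c j * ((1 / 4 + κ j ^ 2 : ℝ) : ℂ) ^ M) *
        ∫ t : ℝ, Jk (κ j) (Real.arsinh t : ℝ) * X t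
        = ∫ t : ℝ, (DD^[M] (fun z => B0 z - R z - Pc z)) (Real.arsinh t : ℝ) * X t := by
    intro X hX
    obtain ⟨hX', hXi⟩ := h13 _ M X hf hX
    obtain ⟨hs1, hs2⟩ := hsp _ hX'
    have hj : ∀ j, c j * ∫ t : ℝ, Jk (κ j) (Real.arsinh t : ℝ) * (DX^[M] X) t =
        (c j * ((1 / 4 + κ j ^ 2 : ℝ) : ℂ) ^ M) *
          ∫ t : ℝ, Jk (κ j) (Real.arsinh t : ℝ) * X t := by
      intro j
      obtain ⟨ha1, -, ha3, -⟩ := h7 (κ j)
      rw [← (h13 _ M X ha1 hX).2, mul_assoc]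
      congr 1
      rw [← integral_const_mul (((1 / 4 + κ j ^ 2 : ℝ) : ℂ) ^ M)]
      refine integral_congr_ae (ae_of_all _ fun t => ?_)
      simp only
      rw [eig h14 ha1 ha3 M _ (real_mem _)]
      ring
    simp_rw [hj] at hs1 hs2
    refine ⟨hs1, ?_⟩
    rw [hs2, hXi]
    refine integral_congr_ae (ae_of_all _ fun t => ?_)
    simp only
    rw [← hray (Real.arsinh t), Real.sinh_arsinh]
  have hkey : ∀ b, 0 < b → b < Real.pi / 2 →
      ‖(DD^[M] (fun z => B0 z - Pc z)) (b * I)‖ ≤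
        (C₁ * C1 / √(2 / Real.pi)) / (Real.pi / 2 - b) ^ (2 * M + 1) := by
    intro b hb0 hb1
    have hs : 0 < Real.pi / 2 - b := by linarith
    have hw := hW (DD^[M] B0) (DD^[M] (fun z => B0 z - R z - Pc z))
      (fun t => Hf t * ((1 / 4 + t ^ 2) ^ M : ℝ)) κ
      (fun j => c j * ((1 / 4 + κ j ^ 2 : ℝ) : ℂ) ^ M)
      (C1 / ((Real.pi / 2 - b) ^ (2 * M) * √(Real.pi / 2 - b))) b hb0 hb1 gan geven hstrip
      hHm hHi hgc hspec (by
        obtain ⟨A, hA⟩ := hdec b hb0 hb1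
        refine ⟨A, fun a ha => ⟨?_, ?_⟩⟩
        · have h := hA (a + b * I) (by simp [abs_of_pos hb0]) (by simpa using ha)
          have hre : (a + b * I : ℂ).re = a := by simp
          rw [hre] at h
          refine h.trans (le_of_eq ?_)
          ring
        · have h := hA (a - b * I) (by simp [abs_of_pos hb0]) (by simpa using ha)
          have hre : (a - b * I : ℂ).re = a := by simp
          rw [hre] at h
          refine h.trans (le_of_eq ?_)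
          ring)
    have heq : (DD^[M] (fun z => B0 z - R z - Pc z)) (b * I) =
        (DD^[M] (fun z => B0 z - Pc z)) (b * I) := by
      have hd := imag_mem hb0 hb1
      rw [sub3 h14 hB hR hP M _ hd, sub2 h14 hB hP M _ hd, hRM _ hd, sub_zero]
    rw [heq] at hw
    have hcos := cos_ge hb0 hb1
    have hsq : √(2 / Real.pi) * √(Real.pi / 2 - b) ≤ √(Real.cos b) := by
      rw [← Real.sqrt_mul (by positivity)]
      exact Real.sqrt_le_sqrt hcos
    have hq1 : 0 < √(2 / Real.pi) := Real.sqrt_pos.mpr (by positivity)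
    have hq2 : 0 < √(Real.pi / 2 - b) := Real.sqrt_pos.mpr hs
    have hn := norm_nonneg ((DD^[M] (fun z => B0 z - Pc z)) (b * I))
    set N := ‖(DD^[M] (fun z => B0 z - Pc z)) (b * I)‖ with hN
    have h1 : √(2 / Real.pi) * √(Real.pi / 2 - b) * N ≤
        C₁ * (C1 / ((Real.pi / 2 - b) ^ (2 * M) * √(Real.pi / 2 - b))) :=
      (mul_le_mul_of_nonneg_right hsq hn).trans hw
    have h2 : √(Real.pi / 2 - b) * √(Real.pi / 2 - b) = Real.pi / 2 - b :=
      Real.mul_self_sqrt hs.le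
    rw [le_div_iff₀ (by positivity), le_div_iff₀ hq1]
    have h3 : C₁ * (C1 / ((Real.pi / 2 - b) ^ (2 * M) * √(Real.pi / 2 - b))) *
        ((Real.pi / 2 - b) ^ (2 * M) * √(Real.pi / 2 - b)) = C₁ * C1 := by
      have hne : (Real.pi / 2 - b) ^ (2 * M) * √(Real.pi / 2 - b) ≠ 0 := by positivity
      rw [mul_assoc, div_mul_cancel₀ _ hne]
    calc N * (Real.pi / 2 - b) ^ (2 * M + 1) * √(2 / Real.pi)
        = √(2 / Real.pi) * √(Real.pi / 2 - b) * N *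
            ((Real.pi / 2 - b) ^ (2 * M) * √(Real.pi / 2 - b)) := by
          rw [pow_succ]
          linear_combination (-(N * (Real.pi / 2 - b) ^ (2 * M) * √(2 / Real.pi))) * h2
      _ ≤ C₁ * (C1 / ((Real.pi / 2 - b) ^ (2 * M) * √(Real.pi / 2 - b))) *
            ((Real.pi / 2 - b) ^ (2 * M) * √(Real.pi / 2 - b)) :=
          mul_le_mul_of_nonneg_right h1 (by positivity)
      _ = C₁ * C1 := h3
  have hpi := Real.pi_pos
  obtain ⟨C', hC'⟩ := h12 (fun z => B0 z - Pc z) M (C₁ * C1 / √(2 / Real.pi)) (Real.pi / 4)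
    (by positivity) (by linarith) (hB.sub hP)
    (fun ψ hψ1 hψ2 => hkey ψ (lt_trans (by positivity) hψ1) hψ2)
  obtain ⟨C2, ψ2, hψ2, hZ⟩ := h4
  obtain ⟨C3, ψ3, hψ3, hPI⟩ := h5 P C hyp
  refine contra (C := C2) (K := |C'| + C3) (ψ₀ := max (Real.pi / 4) (max ψ2 ψ3))
    (max_lt (by linarith) (max_lt hψ2 hψ3)) (le_trans (by positivity) (le_max_left _ _)) ?_
  intro ψ ha hb
  have ha1 : Real.pi / 4 < ψ := lt_of_le_of_lt (le_max_left _ _) ha
  have ha2 : ψ2 < ψ := lt_of_le_of_lt ((le_max_left _ _).trans (le_max_right _ _)) ha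
  have ha3 : ψ3 < ψ := lt_of_le_of_lt ((le_max_right _ _).trans (le_max_right _ _)) ha
  have hcos : 0 < Real.cos ψ := Real.cos_pos_of_mem_Ioo ⟨by linarith, hb⟩
  have hcos2 : Real.cos ψ ≤ Real.pi / 2 - ψ := by
    rw [← Real.sin_pi_div_two_sub]
    exact Real.sin_le (by linarith)
  have e1 := hC' ψ ha1 hb
  have e2 := hZ ψ ha2 hb
  have e3 := hPI ψ ha3 hb
  have e4 : C' / (Real.pi / 2 - ψ) ≤ |C'| / Real.cos ψ := by
    have hs : 0 < Real.pi / 2 - ψ := by linarith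
    calc C' / (Real.pi / 2 - ψ) ≤ |C'| / (Real.pi / 2 - ψ) := by
          gcongr; exact le_abs_self _
      _ ≤ |C'| / Real.cos ψ := by gcongr
  set L := -Real.log (Real.cos ψ) with hL
  have hL0 : 0 ≤ L := by
    rw [hL]
    have := Real.log_nonpos hcos.le (Real.cos_le_one ψ)
    linarith
  have e5 : ‖((8 / 3 : ℝ) : ℂ) * ((L ^ 3 / Real.cos ψ : ℝ) : ℂ)‖ ≤
      ‖B0 (ψ * I) - Pc (ψ * I)‖ + ‖Pc (ψ * I)‖ +
        ‖B0 (ψ * I) - ((8 / 3 : ℝ) : ℂ) * ((L ^ 3 / Real.cos ψ : ℝ) : ℂ)‖ := by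
    have e6 : ((8 / 3 : ℝ) : ℂ) * ((L ^ 3 / Real.cos ψ : ℝ) : ℂ) =
        (B0 (ψ * I) - Pc (ψ * I)) + Pc (ψ * I) -
          (B0 (ψ * I) - ((8 / 3 : ℝ) : ℂ) * ((L ^ 3 / Real.cos ψ : ℝ) : ℂ)) := by ring
    calc ‖((8 / 3 : ℝ) : ℂ) * ((L ^ 3 / Real.cos ψ : ℝ) : ℂ)‖
        = ‖(B0 (ψ * I) - Pc (ψ * I)) + Pc (ψ * I) -
          (B0 (ψ * I) - ((8 / 3 : ℝ) : ℂ) * ((L ^ 3 / Real.cos ψ : ℝ) : ℂ))‖ := by
            rw [← e6]
      _ ≤ ‖(B0 (ψ * I) - Pc (ψ * I)) + Pc (ψ * I)‖ +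
          ‖B0 (ψ * I) - ((8 / 3 : ℝ) : ℂ) * ((L ^ 3 / Real.cos ψ : ℝ) : ℂ)‖ := norm_sub_le _ _
      _ ≤ _ := by gcongr; exact norm_add_le _ _
  have e7 : ‖((8 / 3 : ℝ) : ℂ) * ((L ^ 3 / Real.cos ψ : ℝ) : ℂ)‖ =
      8 / 3 * L ^ 3 / Real.cos ψ := by
    rw [norm_mul, norm_real, norm_real, Real.norm_eq_abs, Real.norm_eq_abs,
      abs_of_pos (by norm_num), abs_of_nonneg (by positivity)]
    ring
  rw [e7] at e5
  have e8 : 8 / 3 * L ^ 3 / Real.cos ψ ≤ (|C'| + C3 + C2 * L ^ 2) / Real.cos ψ := by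
    calc 8 / 3 * L ^ 3 / Real.cos ψ ≤ _ := e5
      _ ≤ |C'| / Real.cos ψ + C3 / Real.cos ψ + C2 * L ^ 2 / Real.cos ψ :=
          add_le_add (add_le_add (e1.trans e4) e3) e2
      _ = _ := by ring
  rwa [div_le_div_iff_of_pos_right hcos] at e8

end FMZ
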