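import Pool.Agent.FMZ.TJ
import Pool.Agent.FMZ.TW

/-!
# FMZ-GEN: superpositions of the spectral solutions
-/

open Complex MeasureTheory Set Filter Topology

namespace FMZ

namespace GEN_

theorem isOpen_S0 : IsOpen S0 := by
  have h : Continuous (fun d : ℂ => |d.im|) := continuous_im.abs
  exact isOpen_lt h continuous_const

/-- a family of analytic functions on the strip with exponential bounds on substrips -/
structure Fam (K : ℝ → ℂ → ℂ) : Prop where
  diff : ∀ t, DifferentiableOn ℂ (K t) S0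
  meas : ∀ d ∈ S0, AEStronglyMeasurable (fun t => K t d) volume
  bnd : ∀ b, 0 < b → b < Real.pi / 2 → ∃ C b' : ℝ, 0 ≤ C ∧ b' < Real.pi / 2 ∧
    ∀ (t : ℝ) (d : ℂ), |d.im| ≤ b → ‖K t d‖ ≤ C * Real.exp (b' * |t|)

theorem sub_im_le (z d : ℂ) : |z.im| ≤ |d.im| + ‖z - d‖ := by
  have h1 : |(z - d).im| ≤ ‖z - d‖ := Complex.abs_im_le_norm _
  have h2 : z.im = d.im + (z - d).im := by rw [Complex.sub_im]; ring
  rw [h2]
  exact (abs_add_le _ _).trans (by linarith)

theorem Fam.der {K : ℝ → ℂ → ℂ} (h : Fam K) : Fam (fun t => deriv (K t)) := by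
  refine ⟨fun t => (h.diff t).deriv isOpen_S0, ?_, ?_⟩
  · intro d hd
    have hu : Tendsto (fun n : ℕ => (((1 / ((n : ℝ) + 1) : ℝ)) : ℂ)) atTop (𝓝[≠] 0) := by
      rw [tendsto_nhdsWithin_iff]
      constructor
      · have h1 := tendsto_one_div_add_atTop_nhds_zero_nat (𝕜 := ℝ)
        have h2 := (Complex.continuous_ofReal.tendsto 0).comp h1
        rw [Complex.ofReal_zero] at h2
        exact h2
      · refine Eventually.of_forall fun n => ?_
        have : (0 : ℝ) < 1 / ((n : ℝ) + 1) := by positivity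
        simp only [mem_compl_iff, mem_singleton_iff]
        exact_mod_cast this.ne'
    refine aestronglyMeasurable_of_tendsto_ae atTop
      (f := fun (n : ℕ) (t : ℝ) => (((1 / ((n : ℝ) + 1) : ℝ)) : ℂ)⁻¹ •
        (K t (d + (((1 / ((n : ℝ) + 1) : ℝ)) : ℂ)) - K t d)) ?_ ?_
    · intro n
      have hm : d + (((1 / ((n : ℝ) + 1) : ℝ)) : ℂ) ∈ S0 := by
        have hd' : |d.im| < Real.pi / 2 := hd
        show |(d + (((1 / ((n : ℝ) + 1) : ℝ)) : ℂ)).im| < Real.pi / 2
        rw [Complex.add_im, Complex.ofReal_im, add_zero]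
        exact hd'
      exact ((h.meas _ hm).sub (h.meas d hd)).const_smul (((1 / ((n : ℝ) + 1) : ℝ)) : ℂ)⁻¹
    · refine Eventually.of_forall fun t => ?_
      have hdv : HasDerivAt (K t) (deriv (K t) d) d :=
        ((h.diff t).differentiableAt (isOpen_S0.mem_nhds hd)).hasDerivAt
      rw [hasDerivAt_iff_tendsto_slope_zero] at hdv
      exact hdv.comp hu
  · intro b hb hb2
    set b1 : ℝ := (b + Real.pi / 2) / 2 with hb1
    have h1 : b < b1 := by rw [hb1]; linarith
    have h2 : b1 < Real.pi / 2 := by rw [hb1]; linarith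
    obtain ⟨C, b', hC, hb', hK⟩ := h.bnd b1 (by linarith) h2
    have hr : 0 < b1 - b := by linarith
    refine ⟨C / (b1 - b), b', by positivity, hb', ?_⟩
    intro t d hd
    have hball : ∀ z : ℂ, ‖z - d‖ ≤ b1 - b → |z.im| ≤ b1 := fun z hz => by
      have := sub_im_le z d
      linarith
    have hdc : DiffContOnCl ℂ (K t) (Metric.ball d (b1 - b)) := by
      apply DifferentiableOn.diffContOnCl
      rw [closure_ball d hr.ne']
      apply (h.diff t).mono
      intro z hz
      rw [Metric.mem_closedBall, dist_eq_norm] at hz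
      exact lt_of_le_of_lt (hball z hz) h2
    have h3 := Complex.norm_deriv_le_of_forall_mem_sphere_norm_le (F := ℂ) hr hdc
      (C := C * Real.exp (b' * |t|)) (fun z hz => by
        rw [mem_sphere_iff_norm] at hz
        exact hK t z (hball z hz.le))
    calc ‖deriv (K t) d‖ ≤ C * Real.exp (b' * |t|) / (b1 - b) := h3
      _ = C / (b1 - b) * Real.exp (b' * |t|) := by ring

theorem Fam.int {K : ℝ → ℂ → ℂ} (h : Fam K) {H : ℝ → ℂ} (hm : AEStronglyMeasurable H volume)
    (hi : ∀ b' < Real.pi / 2, Integrable (fun t => ‖H t‖ * Real.exp (b' * |t|)))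
    {d : ℂ} (hd : d ∈ S0) : Integrable (fun t => H t * K t d) := by
  have hd' : |d.im| < Real.pi / 2 := hd
  have hpi := Real.pi_pos
  obtain ⟨C, b', hC, hb', hK⟩ := h.bnd ((|d.im| + Real.pi / 2) / 2)
    (by have := abs_nonneg d.im; linarith) (by linarith)
  refine Integrable.mono' ((hi b' hb').const_mul C) (hm.mul (h.meas d hd)) ?_
  refine Eventually.of_forall fun t => ?_
  rw [norm_mul]
  have h1 := hK t d (by linarith)
  calc ‖H t‖ * ‖K t d‖ ≤ ‖H t‖ * (C * Real.exp (b' * |t|)) :=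
        mul_le_mul_of_nonneg_left h1 (norm_nonneg _)
    _ = C * (‖H t‖ * Real.exp (b' * |t|)) := by ring

theorem Fam.hasDeriv {K : ℝ → ℂ → ℂ} (h : Fam K) {H : ℝ → ℂ}
    (hm : AEStronglyMeasurable H volume)
    (hi : ∀ b' < Real.pi / 2, Integrable (fun t => ‖H t‖ * Real.exp (b' * |t|)))
    {d : ℂ} (hd : d ∈ S0) :
    HasDerivAt (fun z => ∫ t : ℝ, H t * K t z) (∫ t : ℝ, H t * deriv (K t) d) d := by
  have hd' : |d.im| < Real.pi / 2 := hd
  have hpi := Real.pi_pos
  set b : ℝ := (|d.im| + Real.pi / 2) / 2 with hb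
  have hb0 : 0 < b := by have := abs_nonneg d.im; linarith
  have hb1 : |d.im| < b := by linarith
  have hb2 : b < Real.pi / 2 := by linarith
  obtain ⟨C, b', hC, hb', hK⟩ := h.der.bnd b hb0 hb2
  have hopen : IsOpen {z : ℂ | |z.im| < b} :=
    isOpen_lt (continuous_im.abs) continuous_const
  refine (hasDerivAt_integral_of_dominated_loc_of_deriv_le
    (F := fun z t => H t * K t z) (F' := fun z t => H t * deriv (K t) z)
    (s := {z : ℂ | |z.im| < b}) (bound := fun t => C * (‖H t‖ * Real.exp (b' * |t|)))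
    (hopen.mem_nhds hb1) ?_ (h.int hm hi hd) ?_ ?_ ((hi b' hb').const_mul C) ?_).2
  · filter_upwards [isOpen_S0.mem_nhds hd] with z hz
    exact hm.mul (h.meas z hz)
  · exact hm.mul (h.der.meas d hd)
  · refine Eventually.of_forall fun t z hz => ?_
    have hz' : |z.im| < b := hz
    rw [norm_mul]
    calc ‖H t‖ * ‖deriv (K t) z‖ ≤ ‖H t‖ * (C * Real.exp (b' * |t|)) :=
          mul_le_mul_of_nonneg_left (hK t z hz'.le) (norm_nonneg _)
      _ = C * (‖H t‖ * Real.exp (b' * |t|)) := by ring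
  · refine Eventually.of_forall fun t z hz => ?_
    have hz' : |z.im| < b := hz
    have hzS : z ∈ S0 := lt_trans hz' hb2
    exact (((h.diff t).differentiableAt (isOpen_S0.mem_nhds hzS)).hasDerivAt).const_mul _

/-- the radial operator under the integral sign -/
theorem Fam.DD_int {K : ℝ → ℂ → ℂ} (h : Fam K) {H : ℝ → ℂ}
    (hm : AEStronglyMeasurable H volume)
    (hi : ∀ b' < Real.pi / 2, Integrable (fun t => ‖H t‖ * Real.exp (b' * |t|)))
    {d : ℂ} (hd : d ∈ S0) :
    DD (fun z => ∫ t : ℝ, H t * K t z) d = ∫ t : ℝ, H t * DD (K t) d := by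
  have h1 : deriv (fun z => ∫ t : ℝ, H t * K t z) d = ∫ t : ℝ, H t * deriv (K t) d :=
    (h.hasDeriv hm hi hd).deriv
  have h2 : deriv (deriv (fun z => ∫ t : ℝ, H t * K t z)) d =
      ∫ t : ℝ, H t * deriv (deriv (K t)) d := by
    have he : deriv (fun z => ∫ t : ℝ, H t * K t z) =ᶠ[𝓝 d]
        fun z => ∫ t : ℝ, H t * deriv (K t) z := by
      filter_upwards [isOpen_S0.mem_nhds hd] with z hz
      exact (h.hasDeriv hm hi hz).deriv
    rw [he.deriv_eq]
    exact (h.der.hasDeriv hm hi hd).deriv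
  show -(deriv (deriv (fun z => ∫ t : ℝ, H t * K t z)) d +
    Complex.tanh d * deriv (fun z => ∫ t : ℝ, H t * K t z) d) = _
  rw [h1, h2, ← integral_const_mul, ← integral_add (h.der.der.int hm hi hd)
    ((h.der.int hm hi hd).const_mul _), ← integral_neg]
  apply integral_congr_ae
  refine Eventually.of_forall fun t => ?_
  show -(H t * deriv (deriv (K t)) d + Complex.tanh d * (H t * deriv (K t) d)) =
    H t * -(deriv (deriv (K t)) d + Complex.tanh d * deriv (K t) d)
  ring

/-- measurability in the spectral parameter -/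
theorem meas_Jk (d : ℂ) : AEStronglyMeasurable (fun t : ℝ => Jk t d) volume := by
  have h : StronglyMeasurable (fun p : ℝ × ℝ =>
      ph (1 / 2 + (p.1 : ℂ) * I) p.2 d * Complex.exp (0 * p.2)) := by
    apply Measurable.stronglyMeasurable
    unfold ph gp gm
    fun_prop
  exact (h.integral_prod_right).aestronglyMeasurable

theorem fam_Jk (h1 : ANAJ) (h2 : BNDJ) : Fam (fun t : ℝ => Jk t) := by
  refine ⟨fun t => (h1 t).1, fun d _ => meas_Jk d, ?_⟩
  intro b hb hb2
  obtain ⟨C, hC⟩ := h2 b hb hb2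
  refine ⟨max C 0, b, le_max_right _ _, hb2, ?_⟩
  intro t d hd
  exact (hC t d hd).trans (mul_le_mul_of_nonneg_right (le_max_left _ _) (Real.exp_pos _).le)

theorem pow_exp (M : ℕ) {η : ℝ} (hη : 0 < η) : ∃ C : ℝ, 0 ≤ C ∧ ∀ t : ℝ,
    (1 / 4 + t ^ 2) ^ M ≤ C * Real.exp (η * |t|) := by
  set δ : ℝ := η / (2 * M + 1) with hδ
  have hδ0 : 0 < δ := by positivity
  refine ⟨(1 + 1 / δ) ^ (2 * M), by positivity, ?_⟩
  intro t
  have ht := abs_nonneg t
  have h1 : 1 / 4 + t ^ 2 ≤ (1 + |t|) ^ 2 := by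
    have : t ^ 2 = |t| ^ 2 := (sq_abs t).symm
    nlinarith
  have h2 : 1 + |t| ≤ (1 + 1 / δ) * Real.exp (δ * |t|) := by
    have h3 : 1 + δ * |t| ≤ Real.exp (δ * |t|) := by linarith [Real.add_one_le_exp (δ * |t|)]
    have h4 : (1 + 1 / δ) * (1 + δ * |t|) = 1 + δ * |t| + 1 / δ + |t| := by
      field_simp
      ring
    have h5 : (0 : ℝ) < 1 / δ := by positivity
    have h6 : 0 ≤ δ * |t| := by positivity
    calc 1 + |t| ≤ (1 + 1 / δ) * (1 + δ * |t|) := by rw [h4]; linarith
      _ ≤ _ := mul_le_mul_of_nonneg_left h3 (by positivity)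
  calc (1 / 4 + t ^ 2) ^ M ≤ ((1 + |t|) ^ 2) ^ M := pow_le_pow_left₀ (by positivity) h1 _
    _ = (1 + |t|) ^ (2 * M) := by rw [← pow_mul]
    _ ≤ ((1 + 1 / δ) * Real.exp (δ * |t|)) ^ (2 * M) := pow_le_pow_left₀ (by positivity) h2 _
    _ = (1 + 1 / δ) ^ (2 * M) * Real.exp (((2 * M : ℕ) : ℝ) * (δ * |t|)) := by
        rw [mul_pow, ← Real.exp_nat_mul]
    _ ≤ (1 + 1 / δ) ^ (2 * M) * Real.exp (η * |t|) := by
        apply mul_le_mul_of_nonneg_left _ (by positivity)
        apply Real.exp_le_exp.2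
        have h7 : ((2 * M : ℕ) : ℝ) * δ ≤ η := by
          rw [hδ]
          push_cast
          rw [mul_div_assoc', div_le_iff₀ (by positivity)]
          nlinarith
        calc ((2 * M : ℕ) : ℝ) * (δ * |t|) = (((2 * M : ℕ) : ℝ) * δ) * |t| := by ring
          _ ≤ η * |t| := mul_le_mul_of_nonneg_right h7 ht

theorem int_mul {H : ℝ → ℂ}
    (hm : AEStronglyMeasurable H volume)
    (hi : ∀ b' < Real.pi / 2, Integrable (fun t => ‖H t‖ * Real.exp (b' * |t|))) (M : ℕ) :
    AEStronglyMeasurable (fun t => H t * (((1 / 4 + t ^ 2) ^ M : ℝ) : ℂ)) volume ∧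
    ∀ b' < Real.pi / 2, Integrable
      (fun t => ‖H t * (((1 / 4 + t ^ 2) ^ M : ℝ) : ℂ)‖ * Real.exp (b' * |t|)) := by
  have hm2 : AEStronglyMeasurable (fun t => H t * (((1 / 4 + t ^ 2) ^ M : ℝ) : ℂ)) volume := by
    apply hm.mul
    apply Continuous.aestronglyMeasurable
    fun_prop
  refine ⟨hm2, ?_⟩
  intro b' hb'
  set η : ℝ := (Real.pi / 2 - b') / 2 with hη
  have hη0 : 0 < η := by rw [hη]; linarith
  obtain ⟨C, hC, hCb⟩ := pow_exp M hη0
  refine Integrable.mono' ((hi (b' + η) (by rw [hη]; linarith)).const_mul C) ?_ ?_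
  · apply hm2.norm.mul
    apply Continuous.aestronglyMeasurable
    fun_prop
  · refine Eventually.of_forall fun t => ?_
    have h0 : (0 : ℝ) ≤ (1 / 4 + t ^ 2) ^ M := by positivity
    rw [norm_mul, norm_norm, norm_mul, Complex.norm_real, Real.norm_of_nonneg h0,
      Real.norm_of_nonneg (Real.exp_pos _).le]
    have e : Real.exp ((b' + η) * |t|) = Real.exp (η * |t|) * Real.exp (b' * |t|) := by
      rw [← Real.exp_add]; ring_nf
    rw [e]
    calc ‖H t‖ * (1 / 4 + t ^ 2) ^ M * Real.exp (b' * |t|)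
        ≤ ‖H t‖ * (C * Real.exp (η * |t|)) * Real.exp (b' * |t|) := by
          apply mul_le_mul_of_nonneg_right _ (Real.exp_pos _).le
          exact mul_le_mul_of_nonneg_left (hCb t) (norm_nonneg _)
      _ = C * (‖H t‖ * (Real.exp (η * |t|) * Real.exp (b' * |t|))) := by ring

end GEN_

open GEN_ in
theorem pGEN (h1 : ANAJ) (h2 : BNDJ) (h3 : tDDL) (_h4 : tCONE) (_h5 : tPHB) : tGEN := by
  have hF := fam_Jk h1 h2
  intro H hm hi
  refine ⟨?_, fun d hd => hF.int hm hi hd, ?_⟩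
  · intro d hd
    exact (hF.hasDeriv hm hi hd).differentiableAt.differentiableWithinAt
  · intro M
    induction M generalizing H with
    | zero =>
      intro d _
      simp
    | succ M ih =>
      intro d hd
      rw [Function.iterate_succ_apply]
      have hstep : ∀ z ∈ S0, DD (fun d => ∫ t : ℝ, H t * Jk t d) z =
          ∫ t : ℝ, (H t * (((1 / 4 + t ^ 2) ^ 1 : ℝ) : ℂ)) * Jk t z := by
        intro z hz
        have e := hF.DD_int hm hi hz
        rw [e]
        apply integral_congr_ae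
        refine Eventually.of_forall fun t => ?_
        show H t * DD (Jk t) z = H t * (((1 / 4 + t ^ 2) ^ 1 : ℝ) : ℂ) * Jk t z
        rw [(h1 t).2.2.1 z hz, pow_one]
        ring
      rw [h3.2.2.1 _ _ hstep M d hd]
      obtain ⟨hm', hi'⟩ := int_mul hm hi 1
      rw [ih _ hm' hi' d hd]
      apply integral_congr_ae
      refine Eventually.of_forall fun t => ?_
      show H t * (((1 / 4 + t ^ 2) ^ 1 : ℝ) : ℂ) * (((1 / 4 + t ^ 2) ^ M : ℝ) : ℂ) * Jk t d =
        H t * (((1 / 4 + t ^ 2) ^ (M + 1) : ℝ) : ℂ) * Jk t d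
      push_cast
      ring

theorem pANAP (h : tGEN) (h' : HINT) : ANAP := by
  obtain ⟨a, _, c⟩ := h Hf h'.1 h'.2
  exact ⟨a, c⟩

end FMZ
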