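import Pool.Agent.FMZ.TJ
import Pool.Agent.Lib.ChiBound

/-!
# FMZ-HB: bounds of the spectral density Hf
-/

open Complex MeasureTheory Set Filter Topology

namespace FMZ

namespace HB_

open Pool.Agent.Lib.ChiBound (norm_Gammaℝ norm_Gammaℝ_conj gamma_ratio)

lemma xi_eq {s : ℂ} (hs : 0 < s.re) : xi s = Gammaℝ s * riemannZeta s := by
  have h0 : s ≠ 0 := by rintro rfl; simp at hs
  rw [riemannZeta_def_of_ne_zero h0, xi, mul_div_cancel₀ _ (Gammaℝ_ne_zero_of_re_pos hs)]

lemma norm_xi_half (t : ℝ) : ‖xi (1 / 2 + t * I)‖ =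
    Real.pi ^ (-(1 / 4) : ℝ) * ‖Gamma ((1 / 4 : ℝ) + (t / 2 : ℝ) * I)‖ * ‖zh t‖ := by
  rw [xi_eq (by simp), norm_mul, zh]
  congr 1
  have h := norm_Gammaℝ (1 / 2) t
  have e : ((1 / 2 : ℝ) : ℂ) = 1 / 2 := by push_cast; rfl
  rw [e] at h
  rw [h]
  norm_num

lemma norm_xi_one (t : ℝ) : ‖xi (1 + 2 * t * I)‖ =
    Real.pi ^ (-(1 / 2) : ℝ) * ‖Gamma ((1 / 2 : ℝ) + (t : ℝ) * I)‖ *
      ‖riemannZeta (1 + 2 * t * I)‖ := by
  rw [xi_eq (by simp), norm_mul]
  congr 1
  have h := norm_Gammaℝ 1 (2 * t)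
  have e : ((1 : ℝ) : ℂ) + ((2 * t : ℝ) : ℂ) * I = 1 + 2 * t * I := by push_cast; ring
  rw [e] at h
  rw [h]
  have e2 : (2 * t / 2 : ℝ) = t := by ring
  rw [e2]
  norm_num

lemma norm_xi_zero (t : ℝ) : ‖xi (2 * t * I)‖ =
    Real.pi ^ (-(1 / 2) : ℝ) * ‖Gamma ((1 / 2 : ℝ) + (t : ℝ) * I)‖ *
      ‖riemannZeta (1 + 2 * t * I)‖ := by
  have h1 : xi (2 * t * I) = xi ((starRingEnd ℂ) (1 + 2 * t * I)) := by
    unfold xi
    rw [← completedRiemannZeta_one_sub]
    congr 1
    apply Complex.ext <;> simp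
  have hre : 0 < ((starRingEnd ℂ) (1 + 2 * t * I : ℂ)).re := by simp
  rw [← norm_xi_one, h1, xi_eq hre, norm_mul, norm_Gammaℝ_conj, riemannZeta_conj,
    Complex.norm_conj, ← norm_mul, ← xi_eq (by simp)]

lemma norm_Hf (t : ℝ) : ‖Hf t‖ = 1 / (4 * Real.pi) * Real.pi ^ (-(1 / 2) : ℝ) *
    (‖Gamma ((1 / 4 : ℝ) + (t / 2 : ℝ) * I)‖ ^ 4 / ‖Gamma ((1 / 2 : ℝ) + (t : ℝ) * I)‖) *
    (‖zh t‖ ^ 6 / ‖riemannZeta (1 + 2 * t * I)‖ ^ 2) := by
  have hpi := Real.pi_pos
  have hG : 0 < ‖Gamma ((1 / 2 : ℝ) + (t : ℝ) * I)‖ := by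
    rw [norm_pos_iff]
    apply Gamma_ne_zero_of_re_pos
    simp
  have hL : 0 < ‖riemannZeta (1 + 2 * t * I)‖ := by
    rw [norm_pos_iff]
    apply riemannZeta_ne_zero_of_one_le_re
    simp
  unfold Hf bf
  have e1 : (2 * (1 / 2 + t * I) - 1 : ℂ) = 2 * t * I := by ring
  have e2 : (2 * (1 / 2 + t * I) : ℂ) = 1 + 2 * t * I := by ring
  rw [e1, e2]
  rw [norm_mul, norm_mul, norm_mul, norm_mul, norm_div, norm_mul, norm_pow, norm_pow,
    norm_xi_half, norm_xi_one, norm_xi_zero, Complex.norm_cpow_eq_rpow_re_of_pos hpi]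
  have e3 : (-(1 / 2 + t * I) : ℂ).re = -(1 / 2) := by simp
  have e4 : ((1 / 2 : ℝ) : ℂ) = 1 / 2 := by push_cast; rfl
  rw [e3]
  rw [e4] at hG ⊢
  have e5 : ‖(((1 / (4 * Real.pi) : ℝ)) : ℂ)‖ = 1 / (4 * Real.pi) := by
    rw [Complex.norm_real, Real.norm_of_nonneg (by positivity)]
  rw [e5]
  have e6 : Real.pi ^ (-(1 / 2) : ℝ) = Real.pi ^ (-(1 / 4) : ℝ) * Real.pi ^ (-(1 / 4) : ℝ) := by
    rw [← Real.rpow_add hpi]; norm_num
  rw [e6]
  have hq : 0 < Real.pi ^ (-(1 / 4) : ℝ) := Real.rpow_pos_of_pos hpi _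
  field_simp

lemma Gamma_abs (a y : ℝ) : ‖Gamma ((a : ℝ) + (y : ℝ) * I)‖ =
    ‖Gamma ((a : ℝ) + (|y| : ℝ) * I)‖ := by
  rcases abs_cases y with ⟨h, -⟩ | ⟨h, -⟩
  · rw [h]
  · rw [h, ← Complex.norm_conj, ← Complex.Gamma_conj]
    congr 2
    apply Complex.ext <;> simp

lemma cosh_ge (x : ℝ) : Real.exp |x| / 2 ≤ Real.cosh x := by
  rw [← Real.cosh_abs, Real.cosh_eq]
  have := Real.exp_pos (-|x|)
  linarith

lemma cosh_le (x : ℝ) : Real.cosh x ≤ Real.exp |x| := by
  rw [← Real.cosh_abs, Real.cosh_eq]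
  have h1 : Real.exp (-|x|) ≤ Real.exp |x| := by
    apply Real.exp_le_exp.mpr
    have := abs_nonneg x
    linarith
  linarith

lemma Gamma_half (t : ℝ) : ‖Gamma ((1 / 2 : ℝ) + (t : ℝ) * I)‖ ^ 2 =
    Real.pi / Real.cosh (Real.pi * t) := by
  have h := Complex.Gamma_mul_Gamma_one_sub ((1 / 2 : ℝ) + (t : ℝ) * I)
  have e1 : (1 - ((1 / 2 : ℝ) + (t : ℝ) * I) : ℂ) =
      (starRingEnd ℂ) ((1 / 2 : ℝ) + (t : ℝ) * I) := by
    apply Complex.ext
    · simp; norm_num
    · simp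
  have e2 : Complex.sin (Real.pi * ((1 / 2 : ℝ) + (t : ℝ) * I)) =
      ((Real.cosh (Real.pi * t) : ℝ) : ℂ) := by
    have : (Real.pi * ((1 / 2 : ℝ) + (t : ℝ) * I) : ℂ) =
        ((Real.pi * t : ℝ) : ℂ) * I + Real.pi / 2 := by push_cast; ring
    rw [this, Complex.sin_add_pi_div_two, Complex.cos_mul_I, Complex.ofReal_cosh]
  rw [e1, Gamma_conj, e2] at h
  have h2 := congrArg norm h
  rw [norm_mul, Complex.norm_conj, norm_div, Complex.norm_real, Complex.norm_real,
    Real.norm_of_nonneg Real.pi_pos.le, Real.norm_of_nonneg (Real.cosh_pos _).le] at h2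
  rw [sq]
  exact h2

lemma Gamma_quarter (y : ℝ) : ‖Gamma ((1 / 4 : ℝ) + (y : ℝ) * I)‖ ^ 2 *
    ‖Gamma ((3 / 4 : ℝ) + (y : ℝ) * I)‖ ^ 2 =
    2 * Real.pi ^ 2 / Real.cosh (2 * (Real.pi * y)) := by
  have h := Complex.Gamma_mul_Gamma_one_sub ((1 / 4 : ℝ) + (y : ℝ) * I)
  have e1 : (1 - ((1 / 4 : ℝ) + (y : ℝ) * I) : ℂ) =
      (starRingEnd ℂ) ((3 / 4 : ℝ) + (y : ℝ) * I) := by
    rw [map_add, map_mul, conj_I, conj_ofReal, conj_ofReal]
    push_cast
    ring
  have e2 : Complex.sin (Real.pi * ((1 / 4 : ℝ) + (y : ℝ) * I)) =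
      ((√2 / 2 * Real.cosh (Real.pi * y) : ℝ) : ℂ) +
      ((√2 / 2 * Real.sinh (Real.pi * y) : ℝ) : ℂ) * I := by
    have : (Real.pi * ((1 / 4 : ℝ) + (y : ℝ) * I) : ℂ) =
        ((Real.pi / 4 : ℝ) : ℂ) + ((Real.pi * y : ℝ) : ℂ) * I := by push_cast; ring
    rw [this, Complex.sin_add_mul_I, ← Complex.ofReal_cosh, ← Complex.ofReal_sinh,
      ← Complex.ofReal_sin, ← Complex.ofReal_cos, Real.sin_pi_div_four, Real.cos_pi_div_four]
    push_cast
    ring
  have e3 : ‖Complex.sin (Real.pi * ((1 / 4 : ℝ) + (y : ℝ) * I))‖ ^ 2 =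
      Real.cosh (2 * (Real.pi * y)) / 2 := by
    rw [e2, ← Complex.normSq_eq_norm_sq, Complex.normSq_add_mul_I, Real.cosh_two_mul]
    have : (√2 : ℝ) ^ 2 = 2 := Real.sq_sqrt (by norm_num)
    nlinarith [this]
  rw [e1, Gamma_conj] at h
  have h2 := congrArg norm h
  rw [norm_mul, Complex.norm_conj, norm_div, Complex.norm_real,
    Real.norm_of_nonneg Real.pi_pos.le] at h2
  rw [← mul_pow, h2, div_pow, e3]
  field_simp

lemma gamma_cont (a : ℝ) (ha : 0 < a) : Continuous fun y : ℝ => ‖Gamma ((a : ℝ) + (y : ℝ) * I)‖ := by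
  rw [continuous_iff_continuousAt]
  intro y
  apply ContinuousAt.norm
  have h1 : ContinuousAt Gamma ((a : ℝ) + (y : ℝ) * I : ℂ) := by
    apply (Complex.differentiableAt_Gamma _ _).continuousAt
    intro m hm
    have := congrArg Complex.re hm
    simp at this
    have hm0 : (0 : ℝ) ≤ m := Nat.cast_nonneg m
    linarith
  exact ContinuousAt.comp (f := fun y : ℝ => ((a : ℝ) + (y : ℝ) * I : ℂ)) h1
    (by fun_prop)

lemma gq_cont : Continuous fun t : ℝ => ‖Gamma ((1 / 4 : ℝ) + (t / 2 : ℝ) * I)‖ ^ 4 /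
    ‖Gamma ((1 / 2 : ℝ) + (t : ℝ) * I)‖ := by
  apply Continuous.div
  · exact ((gamma_cont (1 / 4) (by norm_num)).comp (by fun_prop : Continuous fun t : ℝ => t / 2)).pow 4
  · exact gamma_cont (1 / 2) (by norm_num)
  · intro t
    rw [norm_ne_zero_iff]
    apply Gamma_ne_zero_of_re_pos
    simp

lemma gq_large (t : ℝ) (ht : 20 ≤ |t|) : ‖Gamma ((1 / 4 : ℝ) + (t / 2 : ℝ) * I)‖ ^ 4 /
    ‖Gamma ((1 / 2 : ℝ) + (t : ℝ) * I)‖ * (|t| * Real.exp (Real.pi * |t| / 2)) ≤
    200 := by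
  have hpi := Real.pi_pos
  set y : ℝ := |t| / 2 with hy_def
  have hy : 10 ≤ y := by rw [hy_def]; linarith
  have hy0 : 0 < y := by linarith
  have habs : |t / 2| = y := by rw [abs_div, abs_two]
  rw [Gamma_abs (1 / 4) (t / 2), habs]
  set A := ‖Gamma ((1 / 4 : ℝ) + (y : ℝ) * I)‖ with hA
  set B := ‖Gamma ((3 / 4 : ℝ) + (y : ℝ) * I)‖ with hB
  set G := ‖Gamma ((1 / 2 : ℝ) + (t : ℝ) * I)‖ with hG
  have hA0 : 0 ≤ A := norm_nonneg _
  have e1 := gamma_ratio (a := 1 / 4) (h := 1 / 2) (y := y) (by linarith) (by linarith)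
    (by linarith) (by linarith) hy
  have e2 : ((1 / 4 : ℝ) + 1 / 2) = 3 / 4 := by norm_num
  rw [e2, ← hA, ← hB, ← Real.sqrt_eq_rpow, Real.sqrt_div (by positivity), Real.sqrt_sq hy0.le] at e1
  have e3 := Gamma_quarter y
  rw [← hA, ← hB] at e3
  have e4 : 2 * (Real.pi * y) = Real.pi * |t| := by rw [hy_def]; ring
  rw [e4] at e3
  have e5 := Gamma_half t
  rw [← hG] at e5
  have hcosh : Real.cosh (Real.pi * t) = Real.cosh (Real.pi * |t|) := by
    rw [← Real.cosh_abs (Real.pi * t), abs_mul, abs_of_pos hpi]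
  rw [hcosh] at e5
  set E := Real.exp (Real.pi * |t|) with hE
  have hE0 : 0 < E := Real.exp_pos _
  set c := Real.cosh (Real.pi * |t|) with hc
  have hc0 : 0 < c := Real.cosh_pos _
  have hpt : abs (Real.pi * abs t) = Real.pi * abs t := abs_of_nonneg (by positivity)
  have hc1 : E / 2 ≤ c := by
    have := cosh_ge (Real.pi * |t|)
    rwa [hpt] at this
  have hc2 : c ≤ E := by
    have := cosh_le (Real.pi * |t|)
    rwa [hpt] at this
  -- G bounds
  have hG0 : 0 < G := by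
    rw [hG, norm_pos_iff]
    apply Gamma_ne_zero_of_re_pos
    simp
  have hEh : Real.exp (Real.pi * |t| / 2) ^ 2 = E := by
    rw [hE, ← Real.exp_nat_mul]; congr 1; push_cast; ring
  set e := Real.exp (Real.pi * |t| / 2) with he
  have he0 : 0 < e := Real.exp_pos _
  -- A^4 * (y/√2) ≤ 2π²/c
  have s2 : 0 < √2 := by positivity
  have f1 : A ^ 4 * (y / √2) ≤ 2 * Real.pi ^ 2 / c := by
    rw [← e3]
    calc A ^ 4 * (y / √2) = A ^ 2 * (A ^ 2 * (y / √2)) := by ring
      _ ≤ A ^ 2 * B ^ 2 := by gcongr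
  -- 1 ≤ G e
  have f2 : 1 ≤ G * e := by
    have h1 : 1 ≤ (G * e) ^ 2 := by
      rw [mul_pow, e5, hEh, div_mul_eq_mul_div, le_div_iff₀ hc0]
      have : (1 : ℝ) ≤ Real.pi := by linarith [Real.pi_gt_three]
      nlinarith
    have h2 : 0 ≤ G * e := by positivity
    by_contra hcon
    push Not at hcon
    have : (G * e) ^ 2 < 1 := by nlinarith
    linarith
  have hs : √2 < 1.4143 := by
    rw [Real.sqrt_lt' (by norm_num)]; norm_num
  have hp : Real.pi < 3.15 := Real.pi_lt_d2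
  -- combine
  have ht2 : |t| = 2 * y := by rw [hy_def]; ring
  have f3 : A ^ 4 * y ≤ 4 * √2 * Real.pi ^ 2 / E := by
    have h1 : 2 * Real.pi ^ 2 / c ≤ 4 * Real.pi ^ 2 / E := by
      rw [div_le_div_iff₀ hc0 hE0]
      nlinarith [sq_nonneg Real.pi]
    have h2 : A ^ 4 * (y / √2) ≤ 4 * Real.pi ^ 2 / E := f1.trans h1
    calc A ^ 4 * y = (A ^ 4 * (y / √2)) * √2 := by field_simp
      _ ≤ 4 * Real.pi ^ 2 / E * √2 := by gcongr
      _ = _ := by ring
  calc A ^ 4 / G * (|t| * e) = 2 * (A ^ 4 * y) * (e / G) := by rw [ht2]; field_simp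
    _ ≤ 2 * (4 * √2 * Real.pi ^ 2 / E) * (e * e) := by
        gcongr
        rw [div_le_iff₀ hG0]
        nlinarith
    _ = 8 * √2 * Real.pi ^ 2 := by
        rw [← hEh]; field_simp; ring
    _ ≤ 200 := by
        have : Real.pi ^ 2 ≤ 3.15 ^ 2 := by gcongr
        nlinarith

lemma gq_bound : ∃ C : ℝ, 0 < C ∧ ∀ t : ℝ, ‖Gamma ((1 / 4 : ℝ) + (t / 2 : ℝ) * I)‖ ^ 4 /
    ‖Gamma ((1 / 2 : ℝ) + (t : ℝ) * I)‖ * (|t| * Real.exp (Real.pi * |t| / 2)) ≤ C := by
  have hcont : Continuous fun t : ℝ => ‖Gamma ((1 / 4 : ℝ) + (t / 2 : ℝ) * I)‖ ^ 4 /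
      ‖Gamma ((1 / 2 : ℝ) + (t : ℝ) * I)‖ * (|t| * Real.exp (Real.pi * |t| / 2)) := by
    apply gq_cont.mul
    fun_prop
  obtain ⟨C, hC⟩ := (isCompact_Icc (a := (-20 : ℝ)) (b := 20)).exists_bound_of_continuousOn
    hcont.continuousOn
  refine ⟨max C 200, lt_of_lt_of_le (by norm_num) (le_max_right _ _), fun t => ?_⟩
  rcases le_or_gt 20 |t| with h | h
  · exact (gq_large t h).trans (le_max_right _ _)
  · have h1 := hC t (abs_le.mp h.le)
    exact ((le_abs_self _).trans h1).trans (le_max_left _ _)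

lemma zeta_inv_bound : ∃ C : ℝ, 0 < C ∧ ∀ t : ℝ, |t| ≤ 1 → t ≠ 0 →
    ‖(riemannZeta (1 + 2 * t * I))⁻¹‖ ≤ C := by
  set f : ℝ → ℂ := Function.update (fun t : ℝ => (riemannZeta (1 + 2 * t * I))⁻¹) 0 0 with hf
  have hcont : Continuous f := by
    rw [continuous_iff_continuousAt]
    intro t
    rcases eq_or_ne t 0 with rfl | ht
    · rw [hf, continuousAt_update_same]
      have hmap : Tendsto (fun t : ℝ => (1 + 2 * t * I : ℂ)) (𝓝[≠] 0) (𝓝[≠] 1) := by
        apply tendsto_nhdsWithin_of_tendsto_nhds_of_eventually_within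
        · have : ContinuousAt (fun t : ℝ => (1 + 2 * t * I : ℂ)) 0 := by fun_prop
          have h2 := this.tendsto
          simp only [ofReal_zero, mul_zero, zero_mul, add_zero] at h2
          exact h2.mono_left nhdsWithin_le_nhds
        · filter_upwards [self_mem_nhdsWithin] with t ht
          intro h
          have := congrArg Complex.im h
          simp at this
          exact ht this
      have hres : Tendsto (fun s : ℂ => (riemannZeta s)⁻¹) (𝓝[≠] 1) (𝓝 0) := by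
        have h1 : Tendsto (fun s : ℂ => (s - 1) * ((s - 1) * riemannZeta s)⁻¹) (𝓝[≠] 1)
            (𝓝 (0 * 1⁻¹)) := by
          apply Tendsto.mul
          · have : ContinuousAt (fun s : ℂ => s - 1) 1 := by fun_prop
            have h2 := this.tendsto
            simp only [sub_self] at h2
            exact h2.mono_left nhdsWithin_le_nhds
          · exact riemannZeta_residue_one.inv₀ one_ne_zero
        rw [zero_mul] at h1
        refine h1.congr' ?_
        filter_upwards [self_mem_nhdsWithin] with s hs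
        have hs1 : s - 1 ≠ 0 := sub_ne_zero.mpr hs
        rw [mul_inv, ← mul_assoc, mul_inv_cancel₀ hs1, one_mul]
      exact hres.comp hmap
    · rw [hf, continuousAt_update_of_ne ht]
      apply ContinuousAt.inv₀
      · apply ContinuousAt.comp (f := fun t : ℝ => (1 + 2 * t * I : ℂ)) (g := riemannZeta)
        · apply (differentiableAt_riemannZeta _).continuousAt
          intro h
          have := congrArg Complex.im h
          simp at this
          exact ht this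
        · fun_prop
      · apply riemannZeta_ne_zero_of_one_le_re
        simp
  obtain ⟨C, hC⟩ := (isCompact_Icc (a := (-1 : ℝ)) (b := 1)).exists_bound_of_continuousOn
    hcont.continuousOn
  refine ⟨max C 1, lt_of_lt_of_le (by norm_num) (le_max_right _ _), fun t ht ht0 => ?_⟩
  have h1 := hC t (abs_le.mp ht)
  rw [hf, Function.update_of_ne ht0] at h1
  exact h1.trans (le_max_left _ _)

lemma zh_cont : Continuous zh := by
  rw [continuous_iff_continuousAt]
  intro t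
  unfold zh
  apply ContinuousAt.comp (f := fun t : ℝ => (1 / 2 + t * I : ℂ)) (g := riemannZeta)
  · apply (differentiableAt_riemannZeta _).continuousAt
    intro h
    have := congrArg Complex.re h
    norm_num at this
  · fun_prop

lemma xi_contAt {s : ℂ} (h0 : s ≠ 0) (h1 : s ≠ 1) : ContinuousAt xi s :=
  (differentiableAt_completedZeta h0 h1).continuousAt

lemma Hf_cont : ContinuousOn Hf {0}ᶜ := by
  intro t ht
  have ht0 : t ≠ 0 := ht
  apply ContinuousAt.continuousWithinAt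
  have e1 : (2 * (1 / 2 + t * I) - 1 : ℂ) = 2 * t * I := by ring
  have e2 : (2 * (1 / 2 + t * I) : ℂ) = 1 + 2 * t * I := by ring
  have hn : ∀ r : ℝ, 0 < ‖Gamma ((1 / 2 : ℝ) + (r : ℝ) * I)‖ := by
    intro r
    rw [norm_pos_iff]
    apply Gamma_ne_zero_of_re_pos
    simp
  have hL : 0 < ‖riemannZeta (1 + 2 * t * I)‖ := by
    rw [norm_pos_iff]
    apply riemannZeta_ne_zero_of_one_le_re
    simp
  have hpi : 0 < Real.pi ^ (-(1 / 2) : ℝ) := Real.rpow_pos_of_pos Real.pi_pos _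
  have hb : ContinuousAt (fun t : ℝ => bf (1 / 2 + t * I)) t := by
    unfold bf
    apply ContinuousAt.div
    · apply ContinuousAt.pow
      apply ContinuousAt.comp (f := fun t : ℝ => (1 / 2 + t * I : ℂ)) (g := xi)
      · apply xi_contAt
        · intro h
          have := congrArg Complex.re h
          norm_num at this
        · intro h
          have := congrArg Complex.re h
          norm_num at this
      · fun_prop
    · apply ContinuousAt.mul
      · apply ContinuousAt.comp (f := fun t : ℝ => (2 * (1 / 2 + t * I) - 1 : ℂ)) (g := xi)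
        · apply xi_contAt
          · intro h
            have := congrArg Complex.im h
            simp at this
            exact ht0 this
          · intro h
            have := congrArg Complex.im h
            simp at this
            exact ht0 this
        · fun_prop
      · apply ContinuousAt.comp (f := fun t : ℝ => (2 * (1 / 2 + t * I) : ℂ)) (g := xi)
        · apply xi_contAt
          · intro h
            have := congrArg Complex.im h
            simp at this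
            exact ht0 this
          · intro h
            have := congrArg Complex.im h
            simp at this
            exact ht0 this
        · fun_prop
    · rw [← norm_pos_iff, norm_mul, e1, e2, norm_xi_one, norm_xi_zero]
      have := hn t
      positivity
  have hp : ContinuousAt (fun t : ℝ => (Real.pi : ℂ) ^ (-(1 / 2 + t * I) : ℂ)) t := by
    apply ContinuousAt.const_cpow (by fun_prop)
    left
    exact_mod_cast Real.pi_pos.ne'
  have hG : ContinuousAt (fun t : ℝ => Gamma (1 / 2 + t * I)) t := by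
    apply ContinuousAt.comp (f := fun t : ℝ => (1 / 2 + t * I : ℂ)) (g := Gamma)
    · apply (Complex.differentiableAt_Gamma _ _).continuousAt
      intro m hm
      have := congrArg Complex.re hm
      simp at this
      have hm0 : (0 : ℝ) ≤ m := Nat.cast_nonneg m
      linarith
    · fun_prop
  exact (((continuousAt_const.mul hb).mul hp).mul hG).mul ((zh_cont.continuousAt).pow 2)

end HB_

theorem pHB : tHB := by
  refine ⟨measurable_of_continuousOn_compl_singleton 0 HB_.Hf_cont, ?_, ?_⟩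
  · obtain ⟨C1, hC1, hz⟩ := HB_.zeta_inv_bound
    obtain ⟨C2, hC2⟩ := (isCompact_Icc (a := (-1 : ℝ)) (b := 1)).exists_bound_of_continuousOn
      (HB_.gq_cont.mul (HB_.zh_cont.norm.pow 6)).continuousOn
    have hpi := Real.pi_pos
    have hq : 0 < Real.pi ^ (-(1 / 2) : ℝ) := Real.rpow_pos_of_pos hpi _
    refine ⟨max (1 / (4 * Real.pi) * Real.pi ^ (-(1 / 2) : ℝ) * (C2 * C1 ^ 2)) (max ‖Hf 0‖ 1),
      lt_of_lt_of_le (by norm_num) ((le_max_right _ _).trans (le_max_right _ _)), fun t ht => ?_⟩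
    rcases eq_or_ne t 0 with rfl | ht0
    · exact (le_max_left _ _).trans (le_max_right _ _)
    · apply le_trans _ (le_max_left _ _)
      have h1 := hz t ht ht0
      have h2 := (le_abs_self _).trans (hC2 t (abs_le.mp ht))
      rw [norm_inv] at h1
      rw [HB_.norm_Hf, mul_assoc]
      apply mul_le_mul_of_nonneg_left _ (by positivity)
      set L := ‖riemannZeta (1 + 2 * t * I)‖ with hL
      set Q := ‖Gamma ((1 / 4 : ℝ) + (t / 2 : ℝ) * I)‖ ^ 4 /
        ‖Gamma ((1 / 2 : ℝ) + (t : ℝ) * I)‖ with hQ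
      have hL0 : 0 ≤ L⁻¹ := by positivity
      calc Q * (‖zh t‖ ^ 6 / L ^ 2) = (Q * ‖zh t‖ ^ 6) * (L⁻¹) ^ 2 := by
            rw [inv_pow]; ring
        _ ≤ C2 * C1 ^ 2 := by
            apply mul_le_mul h2 (by gcongr) (by positivity)
            have hQ0 : 0 ≤ Q := by rw [hQ]; positivity
            exact le_trans (mul_nonneg hQ0 (pow_nonneg (norm_nonneg _) _)) h2
  · obtain ⟨C, hC, hb⟩ := HB_.gq_bound
    have hpi := Real.pi_pos
    have hq : 0 < Real.pi ^ (-(1 / 2) : ℝ) := Real.rpow_pos_of_pos hpi _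
    refine ⟨1 / (4 * Real.pi) * Real.pi ^ (-(1 / 2) : ℝ) * C, by positivity, fun t ht => ?_⟩
    have h1 := hb t
    rw [HB_.norm_Hf]
    set L := ‖riemannZeta (1 + 2 * t * I)‖ with hL
    set Q := ‖Gamma ((1 / 4 : ℝ) + (t / 2 : ℝ) * I)‖ ^ 4 /
      ‖Gamma ((1 / 2 : ℝ) + (t : ℝ) * I)‖ with hQ
    have ht0 : 0 < |t| := by linarith
    have hE : 0 < Real.exp (Real.pi * |t| / 2) := Real.exp_pos _
    have h2 : Q ≤ C / |t| * Real.exp (-(Real.pi * |t| / 2)) := by
      rw [Real.exp_neg, ← div_eq_mul_inv, div_div, le_div_iff₀ (by positivity)]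
      exact h1
    calc 1 / (4 * Real.pi) * Real.pi ^ (-(1 / 2) : ℝ) * Q * (‖zh t‖ ^ 6 / L ^ 2)
        ≤ 1 / (4 * Real.pi) * Real.pi ^ (-(1 / 2) : ℝ) *
          (C / |t| * Real.exp (-(Real.pi * |t| / 2))) * (‖zh t‖ ^ 6 / L ^ 2) := by
          gcongr
      _ = _ := by
          rw [div_mul_eq_div_div]
          ring

end FMZ
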