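import Pool.Agent.FMZ.TJ

/-!
# FMZ: integrability of the spectral density
-/

open Complex MeasureTheory Set Filter Topology

namespace FMZ

namespace HINT_

theorem one_add_pow_le {δ : ℝ} (hδ : 0 < δ) (x : ℝ) (hx : 0 ≤ x) :
    (1 + x) ^ 6 ≤ (1 + 6 / δ) ^ 6 * Real.exp (δ * x) := by
  have h1 : 1 + x ≤ (1 + 6 / δ) * Real.exp (δ / 6 * x) := by
    have h2 : δ / 6 * x + 1 ≤ Real.exp (δ / 6 * x) := Real.add_one_le_exp _
    have h3 : 1 ≤ Real.exp (δ / 6 * x) := Real.one_le_exp (by positivity)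
    have h4 : x = 6 / δ * (δ / 6 * x) := by field_simp
    have h5 : 6 / δ * (δ / 6 * x) ≤ 6 / δ * Real.exp (δ / 6 * x) :=
      mul_le_mul_of_nonneg_left (by linarith) (by positivity)
    linarith
  calc (1 + x) ^ 6 ≤ ((1 + 6 / δ) * Real.exp (δ / 6 * x)) ^ 6 :=
        pow_le_pow_left₀ (by positivity) h1 6
    _ = (1 + 6 / δ) ^ 6 * Real.exp (δ * x) := by
        rw [mul_pow, ← Real.exp_nat_mul]
        congr 2
        push_cast
        ring

theorem bound (h1 : tHB) (h2 : tZLB) (h3 : tZLOW) :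
    ∃ K : ℝ, 0 < K ∧ ∀ t : ℝ, ‖Hf t‖ ≤ K * (1 + |t|) ^ 4 * Real.exp (-(Real.pi / 2 * |t|)) := by
  obtain ⟨-, ⟨C0, hC0, hb0⟩, ⟨C1, hC1, hb1⟩⟩ := h1
  obtain ⟨C2, hC2, hz⟩ := h2
  obtain ⟨c, hc, hl⟩ := h3 1 one_pos
  set K1 : ℝ := C1 * C2 ^ 6 * (4 / c ^ 2) with hK1
  refine ⟨max (C0 * Real.exp (Real.pi / 2)) K1, lt_max_of_lt_left (by positivity),
    fun t => ?_⟩
  have hpi := Real.pi_pos
  have ht0 := abs_nonneg t
  rcases le_total |t| 1 with h | h
  · have e1 : (1 : ℝ) ≤ (1 + |t|) ^ 4 := one_le_pow₀ (by linarith)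
    have e2 : 1 ≤ Real.exp (Real.pi / 2) * Real.exp (-(Real.pi / 2 * |t|)) := by
      rw [← Real.exp_add]
      refine Real.one_le_exp ?_
      nlinarith
    calc ‖Hf t‖ ≤ C0 := hb0 t h
      _ = C0 * 1 * 1 := by ring
      _ ≤ C0 * (1 + |t|) ^ 4 * (Real.exp (Real.pi / 2) * Real.exp (-(Real.pi / 2 * |t|))) := by
          gcongr
      _ = (C0 * Real.exp (Real.pi / 2)) * (1 + |t|) ^ 4 *
            Real.exp (-(Real.pi / 2 * |t|)) := by ring
      _ ≤ _ := by gcongr; exact le_max_left _ _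
  · have ht : 0 < |t| := by linarith
    have e1 : ‖zh t‖ ^ 6 ≤ C2 ^ 6 * (1 + |t|) ^ 3 := by
      calc ‖zh t‖ ^ 6 ≤ (C2 * (1 + |t|) ^ (2 / 5 : ℝ)) ^ 6 :=
            pow_le_pow_left₀ (norm_nonneg _) (hz t) 6
        _ = C2 ^ 6 * (1 + |t|) ^ (12 / 5 : ℝ) := by
            rw [mul_pow, ← Real.rpow_natCast ((1 + |t|) ^ (2 / 5 : ℝ)) 6,
              ← Real.rpow_mul (by positivity)]
            norm_num
        _ ≤ C2 ^ 6 * (1 + |t|) ^ (3 : ℝ) := by
            refine mul_le_mul_of_nonneg_left ?_ (by positivity)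
            exact Real.rpow_le_rpow_of_exponent_le (by linarith) (by norm_num)
        _ = C2 ^ 6 * (1 + |t|) ^ 3 := by
            rw [show (3 : ℝ) = ((3 : ℕ) : ℝ) by norm_num, Real.rpow_natCast]
    have e2 : c / (2 * |t|) ≤ ‖riemannZeta (1 + 2 * t * I)‖ := by
      have h2t : |2 * t| = 2 * |t| := by rw [abs_mul, abs_of_pos (by norm_num)]
      have := hl 1 (2 * t) le_rfl (by rw [h2t]; linarith)
      rw [h2t, Real.rpow_neg (by positivity), Real.rpow_one] at this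
      push_cast at this
      rw [div_eq_mul_inv]
      exact this
    have e3 : |t| * (c / (2 * |t|)) ^ 2 ≤ |t| * ‖riemannZeta (1 + 2 * t * I)‖ ^ 2 :=
      mul_le_mul_of_nonneg_left (pow_le_pow_left₀ (by positivity) e2 2) ht0
    have e4 : |t| * (c / (2 * |t|)) ^ 2 = c ^ 2 / (4 * |t|) := by
      field_simp
      norm_num
    rw [e4] at e3
    have e5 : ‖Hf t‖ ≤ C1 * (C2 ^ 6 * (1 + |t|) ^ 3) / (c ^ 2 / (4 * |t|)) *
        Real.exp (-(Real.pi * |t| / 2)) := by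
      refine (hb1 t h).trans ?_
      gcongr
    calc ‖Hf t‖ ≤ C1 * (C2 ^ 6 * (1 + |t|) ^ 3) / (c ^ 2 / (4 * |t|)) *
        Real.exp (-(Real.pi * |t| / 2)) := e5
      _ = K1 * ((1 + |t|) ^ 3 * |t|) * Real.exp (-(Real.pi / 2 * |t|)) := by
          rw [hK1, show Real.pi * |t| / 2 = Real.pi / 2 * |t| by ring]
          field_simp
      _ ≤ K1 * (1 + |t|) ^ 4 * Real.exp (-(Real.pi / 2 * |t|)) := by
          have hK1p : 0 < K1 := by positivity
          gcongr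
          rw [pow_succ (1 + |t|) 3]
          gcongr
          linarith
      _ ≤ _ := by gcongr; exact le_max_right _ _

end HINT_

open HINT_ in
theorem pHINT (h1 : tHB) (h2 : tZLB) (h3 : tZLOW) : HINT := by
  have hm : Measurable Hf := h1.1
  refine ⟨hm.aestronglyMeasurable, fun b hb => ?_⟩
  obtain ⟨K, hK, hbd⟩ := bound h1 h2 h3
  have hδ : 0 < Real.pi / 2 - b := by linarith
  set δ := Real.pi / 2 - b with hδd
  have hint : Integrable (fun t : ℝ => K * (1 + 6 / δ) ^ 6 * (1 + t ^ 2)⁻¹) :=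
    integrable_inv_one_add_sq.const_mul _
  refine hint.mono ?_ (ae_of_all _ fun t => ?_)
  · exact (hm.norm.mul (by fun_prop)).aestronglyMeasurable
  · have ht0 := abs_nonneg t
    have e1 := one_add_pow_le hδ |t| ht0
    have e2 : (1 + |t|) ^ 4 * (1 + t ^ 2) ≤ (1 + |t|) ^ 6 := by
      have : 1 + t ^ 2 ≤ (1 + |t|) ^ 2 := by
        rw [← sq_abs t]
        nlinarith
      calc (1 + |t|) ^ 4 * (1 + t ^ 2) ≤ (1 + |t|) ^ 4 * (1 + |t|) ^ 2 := by gcongr
        _ = (1 + |t|) ^ 6 := by ring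
    have hpos : 0 < 1 + t ^ 2 := by positivity
    rw [norm_mul, norm_norm, Real.norm_eq_abs, Real.abs_exp, Real.norm_eq_abs]
    refine le_trans ?_ (le_abs_self _)
    rw [← div_eq_mul_inv, le_div_iff₀ hpos]
    calc ‖Hf t‖ * Real.exp (b * |t|) * (1 + t ^ 2)
        ≤ (K * (1 + |t|) ^ 4 * Real.exp (-(Real.pi / 2 * |t|))) * Real.exp (b * |t|) *
            (1 + t ^ 2) := by
          gcongr
          exact hbd t
      _ = K * ((1 + |t|) ^ 4 * (1 + t ^ 2)) * Real.exp (-(δ * |t|)) := by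
          rw [show -(δ * |t|) = -(Real.pi / 2 * |t|) + b * |t| by rw [hδd]; ring, Real.exp_add]
          ring
      _ ≤ K * ((1 + 6 / δ) ^ 6 * Real.exp (δ * |t|)) * Real.exp (-(δ * |t|)) :=
          mul_le_mul_of_nonneg_right (mul_le_mul_of_nonneg_left (e2.trans e1) hK.le)
            (Real.exp_pos _).le
      _ = K * (1 + 6 / δ) ^ 6 := by
          rw [mul_assoc, mul_assoc ((1 + 6 / δ) ^ 6), ← Real.exp_add, add_neg_cancel,
            Real.exp_zero]
          ring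

end FMZ
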