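import Pool.Agent.FMZ.DDL

/-!
# FMZ-INT: integration of the radial operator along the imaginary axis
-/

open Complex MeasureTheory Set Filter Topology

namespace FMZ

namespace INT_

lemma mem_S0 {ψ₀ ψ : ℝ} (h0 : 0 < ψ₀) (h1 : ψ₀ ≤ ψ) (h2 : ψ < Real.pi / 2) :
    ((ψ : ℂ) * I) ∈ S0 := by
  show |((ψ : ℂ) * I).im| < Real.pi / 2
  have h : ((ψ : ℂ) * I).im = ψ := by simp
  rw [h, abs_lt]
  constructor <;> linarith

/-- a mean value bound with a power singularity at the right end -/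
lemma mv (F F' : ℝ → ℂ) (A ψ₀ : ℝ) (m : ℕ) (hψ : ψ₀ < Real.pi / 2)
    (hF : ∀ ψ, ψ₀ ≤ ψ → ψ < Real.pi / 2 → HasDerivAt F (F' ψ) ψ)
    (hb : ∀ ψ, ψ₀ ≤ ψ → ψ < Real.pi / 2 → ‖F' ψ‖ ≤ A / (Real.pi / 2 - ψ) ^ (m + 2)) :
    ∃ A', ∀ ψ, ψ₀ ≤ ψ → ψ < Real.pi / 2 → ‖F ψ‖ ≤ A' / (Real.pi / 2 - ψ) ^ (m + 1) := by
  have hu0 : 0 < Real.pi / 2 - ψ₀ := by linarith
  refine ⟨‖F ψ₀‖ * (Real.pi / 2 - ψ₀) ^ (m + 1) + |A|, ?_⟩
  intro ψ h1 h2
  set K : ℝ := ‖F ψ₀‖ * (Real.pi / 2 - ψ₀) ^ (m + 1) + |A| with hK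
  have hKA : |A| ≤ K := by
    have : 0 ≤ ‖F ψ₀‖ * (Real.pi / 2 - ψ₀) ^ (m + 1) := by positivity
    linarith
  have hK0 : 0 ≤ K := (abs_nonneg A).trans hKA
  have hBd : ∀ x : ℝ, x < Real.pi / 2 →
      HasDerivAt (fun y : ℝ => K / (Real.pi / 2 - y) ^ (m + 1))
        (K * (m + 1 : ℕ) / (Real.pi / 2 - x) ^ (m + 2)) x := by
    intro x hx
    have hx0 : Real.pi / 2 - x ≠ 0 := by linarith
    have e1 : HasDerivAt (fun y : ℝ => Real.pi / 2 - y) (-1) x := by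
      simpa using (hasDerivAt_id x).const_sub (Real.pi / 2)
    have e2 := e1.fun_pow (m + 1)
    have e3 := (e2.fun_inv (pow_ne_zero _ hx0)).const_mul K
    have e4 : (fun y : ℝ => K / (Real.pi / 2 - y) ^ (m + 1)) =
        fun y : ℝ => K * ((Real.pi / 2 - y) ^ (m + 1))⁻¹ := by
      funext y
      rw [div_eq_mul_inv]
    rw [e4]
    refine e3.congr_deriv ?_
    rw [Nat.add_sub_cancel]
    generalize Real.pi / 2 - x = u at hx0 ⊢
    field_simp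
    try ring
  have hsub : ∀ x, x ∈ Icc ψ₀ ψ → ψ₀ ≤ x ∧ x < Real.pi / 2 := fun x hx =>
    ⟨hx.1, lt_of_le_of_lt hx.2 h2⟩
  have key := image_norm_le_of_norm_deriv_right_le_deriv_boundary' (f := F) (f' := F')
    (a := ψ₀) (b := ψ) (B := fun y : ℝ => K / (Real.pi / 2 - y) ^ (m + 1))
    (B' := fun x => K * (m + 1 : ℕ) / (Real.pi / 2 - x) ^ (m + 2))
    (fun x hx => (hF x (hsub x hx).1 (hsub x hx).2).continuousAt.continuousWithinAt)
    (fun x hx => (hF x hx.1 (lt_of_lt_of_le hx.2 h2.le)).hasDerivWithinAt)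
    (by
      show ‖F ψ₀‖ ≤ K / (Real.pi / 2 - ψ₀) ^ (m + 1)
      rw [le_div_iff₀ (by positivity)]
      have := abs_nonneg A
      linarith)
    (fun x hx => (hBd x (hsub x hx).2).continuousAt.continuousWithinAt)
    (fun x hx => (hBd x (lt_of_lt_of_le hx.2 h2.le)).hasDerivWithinAt)
    (by
      intro x hx
      have hx2 : x < Real.pi / 2 := lt_of_lt_of_le hx.2 h2.le
      have hpos : 0 < (Real.pi / 2 - x) ^ (m + 2) := by
        have : 0 < Real.pi / 2 - x := by linarith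
        positivity
      refine (hb x hx.1 hx2).trans ?_
      refine div_le_div_of_nonneg_right ?_ hpos.le
      have h3 : (1 : ℝ) ≤ ((m + 1 : ℕ) : ℝ) := by
        push_cast
        have : (0 : ℝ) ≤ m := Nat.cast_nonneg m
        linarith
      calc A ≤ |A| := le_abs_self A
        _ ≤ K := hKA
        _ = K * 1 := (mul_one K).symm
        _ ≤ K * (m + 1 : ℕ) := mul_le_mul_of_nonneg_left h3 hK0)
  exact key ⟨h1, le_refl ψ⟩

/-- one step -/
lemma step (k : ℂ → ℂ) (C ψ₀ : ℝ) (m : ℕ) (h0 : 0 < ψ₀) (hψ : ψ₀ < Real.pi / 2)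
    (hk : DifferentiableOn ℂ k S0)
    (hb : ∀ ψ, ψ₀ ≤ ψ → ψ < Real.pi / 2 →
      ‖DD k (ψ * I)‖ ≤ C / (Real.pi / 2 - ψ) ^ (m + 3)) :
    ∃ C', ∀ ψ, ψ₀ ≤ ψ → ψ < Real.pi / 2 → ‖k (ψ * I)‖ ≤ C' / (Real.pi / 2 - ψ) ^ (m + 1) := by
  have hline : ∀ ψ : ℝ, HasDerivAt (fun y : ℝ => (y : ℂ) * I) I ψ := by
    intro ψ
    simpa using (Complex.ofRealCLM.hasDerivAt (x := ψ)).mul_const I
  have hcomp : ∀ g : ℂ → ℂ, DifferentiableOn ℂ g S0 → ∀ ψ, ψ₀ ≤ ψ → ψ < Real.pi / 2 →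
      HasDerivAt (fun y : ℝ => g ((y : ℂ) * I)) (deriv g (ψ * I) * I) ψ := by
    intro g hg ψ h1 h2
    have hd : HasDerivAt g (deriv g ((ψ : ℂ) * I)) ((ψ : ℂ) * I) :=
      (hg.differentiableAt (DDL_.isOpen_S0.mem_nhds (mem_S0 h0 h1 h2))).hasDerivAt
    exact hd.comp ψ (hline ψ)
  have hcos : ∀ ψ : ℝ, ψ₀ ≤ ψ → ψ < Real.pi / 2 → Real.cos ψ ≤ Real.pi / 2 - ψ := by
    intro ψ h1 h2
    rw [← Real.sin_pi_div_two_sub]
    exact Real.sin_le (by linarith)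
  have hcos2 : ∀ ψ : ℝ, ψ₀ ≤ ψ → ψ < Real.pi / 2 →
      2 / Real.pi * (Real.pi / 2 - ψ) ≤ Real.cos ψ := by
    intro ψ h1 h2
    rw [← Real.sin_pi_div_two_sub]
    exact Real.mul_le_sin (by linarith) (by linarith)
  -- first integration
  obtain ⟨A, hA⟩ := mv (fun y : ℝ => (Real.cos y : ℂ) * deriv k ((y : ℂ) * I))
    (fun ψ : ℝ => -I * (Real.cos ψ : ℂ) * DD k (ψ * I)) C ψ₀ m hψ
    (by
      intro ψ h1 h2
      have e1 : HasDerivAt (fun y : ℝ => (Real.cos y : ℂ)) ((-Real.sin ψ : ℝ) : ℂ) ψ :=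
        (Real.hasDerivAt_cos ψ).ofReal_comp
      have e2 := e1.mul (hcomp (deriv k) (hk.deriv DDL_.isOpen_S0) ψ h1 h2)
      refine e2.congr_deriv ?_
      have hcp : 0 < Real.cos ψ := Real.cos_pos_of_mem_Ioo ⟨by linarith, h2⟩
      have hcn : (Complex.cos (ψ : ℂ)) ≠ 0 := by
        rw [← Complex.ofReal_cos]
        exact_mod_cast hcp.ne'
      simp only [DD]
      rw [Complex.tanh_mul_I, Complex.tan_eq_sin_div_cos]
      push_cast
      field_simp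
      ring_nf
      rw [Complex.I_sq]
      ring)
    (by
      intro ψ h1 h2
      have hu : 0 < Real.pi / 2 - ψ := by linarith
      have hcp : 0 < Real.cos ψ := Real.cos_pos_of_mem_Ioo ⟨by linarith, h2⟩
      have hb' := hb ψ h1 h2
      rw [norm_mul, norm_mul, norm_neg, Complex.norm_I, one_mul, Complex.norm_real,
        Real.norm_of_nonneg hcp.le]
      calc Real.cos ψ * ‖DD k (ψ * I)‖
          ≤ (Real.pi / 2 - ψ) * (C / (Real.pi / 2 - ψ) ^ (m + 3)) :=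
            mul_le_mul (hcos ψ h1 h2) hb' (norm_nonneg _) hu.le
        _ = C / (Real.pi / 2 - ψ) ^ (m + 2) := by
            generalize Real.pi / 2 - ψ = u at hu ⊢
            rw [pow_succ _ (m + 2)]
            field_simp)
  -- second integration
  obtain ⟨A', hA'⟩ := mv (fun y : ℝ => k ((y : ℂ) * I))
    (fun ψ : ℝ => deriv k (ψ * I) * I) (Real.pi / 2 * A) ψ₀ m hψ
    (fun ψ h1 h2 => hcomp k hk ψ h1 h2)
    (by
      intro ψ h1 h2
      have hu : 0 < Real.pi / 2 - ψ := by linarith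
      have hcp : 0 < Real.cos ψ := Real.cos_pos_of_mem_Ioo ⟨by linarith, h2⟩
      have hb' := hA ψ h1 h2
      rw [norm_mul, Complex.norm_real, Real.norm_of_nonneg hcp.le] at hb'
      rw [norm_mul, Complex.norm_I, mul_one]
      have h3 := hcos2 ψ h1 h2
      have h4 : 2 / Real.pi * (Real.pi / 2 - ψ) * ‖deriv k (ψ * I)‖ ≤
          A / (Real.pi / 2 - ψ) ^ (m + 1) :=
        (mul_le_mul_of_nonneg_right h3 (norm_nonneg _)).trans hb'
      have hpi := Real.pi_pos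
      calc ‖deriv k (ψ * I)‖ =
          (Real.pi / 2 / (Real.pi / 2 - ψ)) *
            (2 / Real.pi * (Real.pi / 2 - ψ) * ‖deriv k (ψ * I)‖) := by
            generalize Real.pi / 2 - ψ = u at hu ⊢
            field_simp
        _ ≤ (Real.pi / 2 / (Real.pi / 2 - ψ)) * (A / (Real.pi / 2 - ψ) ^ (m + 1)) :=
            mul_le_mul_of_nonneg_left h4 (by positivity)
        _ = Real.pi / 2 * A / (Real.pi / 2 - ψ) ^ (m + 2) := by
            generalize Real.pi / 2 - ψ = u at hu ⊢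
            rw [pow_succ _ (m + 1)]
            field_simp)
  exact ⟨A', hA'⟩

lemma main (M : ℕ) : ∀ (f : ℂ → ℂ) (C ψ₀ : ℝ), 0 < ψ₀ → ψ₀ < Real.pi / 2 →
    DifferentiableOn ℂ f S0 →
    (∀ ψ, ψ₀ ≤ ψ → ψ < Real.pi / 2 →
      ‖(DD^[M] f) (ψ * I)‖ ≤ C / (Real.pi / 2 - ψ) ^ (2 * M + 1)) →
    ∃ C', ∀ ψ, ψ₀ ≤ ψ → ψ < Real.pi / 2 → ‖f (ψ * I)‖ ≤ C' / (Real.pi / 2 - ψ) := by
  induction M with
  | zero =>
    intro f C ψ₀ h0 h1 hf hb
    refine ⟨C, fun ψ h2 h3 => ?_⟩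
    have := hb ψ h2 h3
    simpa using this
  | succ M ih =>
    intro f C ψ₀ h0 h1 hf hb
    have hk := DDL_.iter_diff M f hf
    obtain ⟨C', hC'⟩ := step (DD^[M] f) C ψ₀ (2 * M) h0 h1 hk (by
      intro ψ h2 h3
      have := hb ψ h2 h3
      rw [Function.iterate_succ_apply'] at this
      exact this)
    exact ih f C' ψ₀ h0 h1 hf hC'

end INT_

/-- integration of the radial operator along the imaginary axis -/
theorem pINT (_h : tDDL) : INT := by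
  intro f M C ψ₀ h0 h1 hf hb
  -- the bound at the left end, by continuity
  have hk := DDL_.iter_diff M f hf
  have hcl : ∀ ψ, ψ₀ ≤ ψ → ψ < Real.pi / 2 →
      ‖(DD^[M] f) (ψ * I)‖ ≤ C / (Real.pi / 2 - ψ) ^ (2 * M + 1) := by
    intro ψ h2 h3
    rcases h2.eq_or_lt with h2 | h2
    · subst h2
      have hc1 : ContinuousAt (fun y : ℝ => ‖(DD^[M] f) ((y : ℂ) * I)‖) ψ₀ := by
        have e1 : ContinuousAt (DD^[M] f) ((ψ₀ : ℂ) * I) :=
          (hk.differentiableAt (DDL_.isOpen_S0.mem_nhds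
            (INT_.mem_S0 h0 (le_refl ψ₀) h1))).continuousAt
        have e2 : ContinuousAt (fun y : ℝ => (y : ℂ) * I) ψ₀ := by fun_prop
        exact (ContinuousAt.comp (f := fun y : ℝ => (y : ℂ) * I) (g := DD^[M] f) e1 e2).norm
      have hc2 : ContinuousAt (fun y : ℝ => C / (Real.pi / 2 - y) ^ (2 * M + 1)) ψ₀ := by
        refine ContinuousAt.div continuousAt_const (by fun_prop) ?_
        have : 0 < Real.pi / 2 - ψ₀ := by linarith
        positivity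
      have t1 : Tendsto (fun y : ℝ => ‖(DD^[M] f) ((y : ℂ) * I)‖) (𝓝[>] ψ₀)
          (𝓝 ‖(DD^[M] f) ((ψ₀ : ℂ) * I)‖) := hc1.tendsto.mono_left nhdsWithin_le_nhds
      have t2 : Tendsto (fun y : ℝ => C / (Real.pi / 2 - y) ^ (2 * M + 1)) (𝓝[>] ψ₀)
          (𝓝 (C / (Real.pi / 2 - ψ₀) ^ (2 * M + 1))) := hc2.tendsto.mono_left nhdsWithin_le_nhds
      refine le_of_tendsto_of_tendsto t1 t2 ?_
      filter_upwards [Ioo_mem_nhdsGT h1] with y hy
      exact hb y hy.1 hy.2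
    · exact hb ψ h2 h3
  obtain ⟨C', hC'⟩ := INT_.main M f C ψ₀ h0 h1 hf hcl
  exact ⟨C', fun ψ h2 h3 => hC' ψ h2.le h3⟩

end FMZ
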