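import Pool.Agent.FMZ.TJ

/-!
# FMZ-JBD: bounds of J
-/

open Complex MeasureTheory Set Filter Topology

namespace FMZ

namespace JBD_

theorem integrable_even {f : ℝ → ℝ} (h : IntegrableOn f (Ioi 0)) :
    Integrable (fun x => f |x|) := by
  have hf : IntegrableOn (fun x => f |x|) (Ioi 0) := by
    refine (integrableOn_congr_fun (fun x hx => ?_) measurableSet_Ioi).1 h
    show f x = f |x|
    rw [abs_of_pos hx]
  have int_Iic : IntegrableOn (fun x ↦ f |x|) (Iic 0) := by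
    rw [← Measure.map_neg_eq_self (volume : Measure ℝ)]
    let m : MeasurableEmbedding fun x : ℝ => -x := (Homeomorph.neg ℝ).measurableEmbedding
    rw [m.integrableOn_map_iff]
    simp_rw [Function.comp_def, abs_neg, neg_preimage, neg_Iic, neg_zero]
    exact Iff.mpr integrableOn_Ici_iff_integrableOn_Ioi hf
  have h2 := int_Iic.union hf
  rwa [Iic_union_Ioi, integrableOn_univ] at h2

/-- The bound of JJ s 0 d from an integrable bound of the two norms. -/
theorem norm_JJ_le {s d : ℂ} {B : ℝ} {G : ℝ → ℝ} (hG : Integrable G)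
    (h1 : ∀ᵐ v : ℝ, ‖(2 * gp v d) ^ (-s)‖ ≤ G v * B)
    (h2 : ∀ᵐ v : ℝ, ‖(2 * gm v d) ^ (-s)‖ ≤ G v * B) :
    ‖JJ s 0 d‖ ≤ (2 * ∫ v, G v) * B := by
  have h3 : ∀ᵐ v : ℝ, ‖ph s v d * Complex.exp (0 * v)‖ ≤ G v * (2 * B) := by
    filter_upwards [h1, h2] with v e1 e2
    rw [zero_mul, Complex.exp_zero, mul_one, ph]
    refine (norm_add_le _ _).trans ?_
    linarith
  have h4 := norm_integral_le_of_norm_le (hG.mul_const (2 * B)) h3
  unfold JJ
  refine h4.trans (le_of_eq ?_)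
  rw [integral_mul_const]
  ring

theorem sinh_ge {v : ℝ} (hv : 0 < v) : v * Real.exp (v / 2) / 2 ≤ Real.sinh v := by
  have h1 : Real.sinh v = 2 * Real.sinh (v / 2) * Real.cosh (v / 2) := by
    rw [← Real.sinh_two_mul]; ring_nf
  have h2 : v / 2 ≤ Real.sinh (v / 2) := Real.self_le_sinh_iff.2 (by linarith)
  have h3 : Real.exp (v / 2) / 2 ≤ Real.cosh (v / 2) := by
    rw [Real.cosh_eq]
    have := Real.exp_pos (-(v / 2))
    linarith
  rw [h1]
  have h4 : 0 < Real.exp (v / 2) := Real.exp_pos _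
  nlinarith [mul_le_mul h2 h3 (by positivity) (by linarith : (0 : ℝ) ≤ Real.sinh (v / 2))]

/-- the majorant for BNDJ -/
theorem intG1 : Integrable (fun v : ℝ => |v| ^ (-(1 / 2) : ℝ) * Real.exp (-(1 / 4) * |v| ^ (1 : ℝ))) :=
  integrable_even (f := fun v : ℝ => v ^ (-(1 / 2) : ℝ) * Real.exp (-(1 / 4) * v ^ (1 : ℝ)))
    (integrableOn_rpow_mul_exp_neg_mul_rpow (by norm_num) (by norm_num) (by norm_num))

theorem intG2 {c : ℝ} (hc : 0 < c) : Integrable (fun v : ℝ => Real.exp (-c * |v|)) :=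
  integrable_even (f := fun v : ℝ => Real.exp (-c * v)) (integrableOn_exp_mul_Ioi (by linarith) 0)

/-- AM-GM lower bound -/
theorem amgm (a v b : ℝ) (hb : 0 < Real.cos b) :
    2 * Real.cos b * Real.sinh |v| ≤
      Real.cos b * (Real.exp a * (Real.cosh v + 1) + Real.exp (-a) * (Real.cosh v - 1)) := by
  have h1 := Real.one_le_cosh v
  have h2 : (Real.exp a * (Real.cosh v + 1)) * (Real.exp (-a) * (Real.cosh v - 1)) =
      Real.sinh |v| ^ 2 := by
    have e : Real.exp a * Real.exp (-a) = 1 := by rw [← Real.exp_add]; simp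
    have e2 : Real.sinh |v| ^ 2 = Real.cosh v ^ 2 - 1 := by
      rw [← Real.cosh_abs v, Real.cosh_sq]; ring
    rw [e2]
    linear_combination (Real.cosh v ^ 2 - 1) * e
  have h3 : 0 ≤ Real.sinh |v| := Real.sinh_nonneg_iff.2 (abs_nonneg v)
  have h4 : 0 ≤ Real.exp a * (Real.cosh v + 1) := by positivity
  have h5 : 0 ≤ Real.exp (-a) * (Real.cosh v - 1) :=
    mul_nonneg (Real.exp_pos _).le (by linarith)
  have h6 : 2 * Real.sinh |v| ≤
      Real.exp a * (Real.cosh v + 1) + Real.exp (-a) * (Real.cosh v - 1) := by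
    refine le_of_sq_le_sq ?_ (by linarith)
    nlinarith [sq_nonneg (Real.exp a * (Real.cosh v + 1) - Real.exp (-a) * (Real.cosh v - 1))]
  nlinarith

theorem rpow_bound {b v X : ℝ} (hb : 0 < Real.cos b) (hv : v ≠ 0)
    (hX : 2 * Real.cos b * Real.sinh |v| ≤ X) :
    X ^ (-(1 / 2) : ℝ) ≤ Real.cos b ^ (-(1 / 2) : ℝ) *
      (|v| ^ (-(1 / 2) : ℝ) * Real.exp (-(1 / 4) * |v| ^ (1 : ℝ))) := by
  have hv' : 0 < |v| := abs_pos.2 hv
  have h1 : Real.cos b * (|v| * Real.exp (|v| / 2)) ≤ X := by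
    refine le_trans ?_ hX
    have := sinh_ge hv'
    nlinarith
  have h2 : 0 < Real.cos b * (|v| * Real.exp (|v| / 2)) := by positivity
  refine (Real.rpow_le_rpow_of_nonpos h2 h1 (by norm_num)).trans (le_of_eq ?_)
  rw [Real.mul_rpow hb.le (by positivity), Real.mul_rpow hv'.le (Real.exp_pos _).le,
    ← Real.exp_mul, Real.rpow_one]
  congr 3
  ring

end JBD_

open JBD_

theorem pBNDJ (h : tCONE) (h' : tPHB) : BNDJ := by
  intro b hb0 hb
  have hcos : 0 < Real.cos b := Real.cos_pos_of_mem_Ioo ⟨by linarith, hb⟩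
  refine ⟨2 * ∫ v : ℝ, Real.cos b ^ (-(1 / 2) : ℝ) *
      (|v| ^ (-(1 / 2) : ℝ) * Real.exp (-(1 / 4) * |v| ^ (1 : ℝ))), fun κ d hd => ?_⟩
  have hre : (-(1 / 2 + κ * I : ℂ).re) = -(1 / 2) := by simp
  have him : |(1 / 2 + κ * I : ℂ).im| = |κ| := by simp
  refine norm_JJ_le (intG1.const_mul _) ?_ ?_
  · filter_upwards [compl_mem_ae_iff.2 (measure_singleton (0 : ℝ))] with v hv
    have hv0 : v ≠ 0 := by simpa using hv
    obtain ⟨-, -, -, -, -, hc, -⟩ := h d v b hd hb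
    obtain ⟨hp, -⟩ := h' (1 / 2 + κ * I) d v b hd hb
    rw [hre, him] at hp
    refine hp.trans (mul_le_mul_of_nonneg_right ?_ (Real.exp_pos _).le)
    exact rpow_bound hcos hv0 ((amgm d.re v b hcos).trans hc)
  · filter_upwards [compl_mem_ae_iff.2 (measure_singleton (0 : ℝ))] with v hv
    have hv0 : v ≠ 0 := by simpa using hv
    obtain ⟨-, -, -, -, -, -, hc⟩ := h d v b hd hb
    obtain ⟨-, hp⟩ := h' (1 / 2 + κ * I) d v b hd hb
    rw [hre, him] at hp
    refine hp.trans (mul_le_mul_of_nonneg_right ?_ (Real.exp_pos _).le)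
    refine rpow_bound hcos hv0 (le_trans ?_ hc)
    have := amgm (-d.re) v b hcos
    rwa [neg_neg] at this

namespace JBD_

theorem lower2 {a v b A : ℝ} (hb : 0 < Real.cos b) (ha : |a| ≤ A) :
    2 * Real.cos b * Real.exp (-A) * Real.cosh v ≤
      Real.cos b * (Real.exp a * (Real.cosh v + 1) + Real.exp (-a) * (Real.cosh v - 1)) := by
  have h1 := Real.one_le_cosh v
  have h2 : Real.exp (-A) ≤ Real.exp a := Real.exp_le_exp.2 (abs_le.1 ha).1
  have h3 : Real.exp (-A) ≤ Real.exp (-a) := Real.exp_le_exp.2 (by linarith [(abs_le.1 ha).2])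
  have h4 : Real.exp (-A) * (Real.cosh v + 1) ≤ Real.exp a * (Real.cosh v + 1) :=
    mul_le_mul_of_nonneg_right h2 (by linarith)
  have h5 : Real.exp (-A) * (Real.cosh v - 1) ≤ Real.exp (-a) * (Real.cosh v - 1) :=
    mul_le_mul_of_nonneg_right h3 (by linarith)
  nlinarith

theorem rpow_bound2 {m v X σ₀ σ₁ σ : ℝ} (hm : 0 < m) (h0 : 0 < σ₀) (h1 : σ₀ ≤ σ) (h2 : σ ≤ σ₁)
    (hX : m * Real.cosh v ≤ X) :
    X ^ (-σ) ≤ ((m ^ (-σ₀) + m ^ (-σ₁)) * 2 ^ σ₀) * Real.exp (-σ₀ * |v|) := by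
  have hc := Real.one_le_cosh v
  have hc0 : 0 < Real.cosh v := by linarith
  have e1 : X ^ (-σ) ≤ (m * Real.cosh v) ^ (-σ) :=
    Real.rpow_le_rpow_of_nonpos (by positivity) hX (by linarith)
  have e2 : m ^ (-σ) ≤ m ^ (-σ₀) + m ^ (-σ₁) := by
    have p0 : 0 < m ^ (-σ₀) := Real.rpow_pos_of_pos hm _
    have p1 : 0 < m ^ (-σ₁) := Real.rpow_pos_of_pos hm _
    rcases le_total 1 m with h | h
    · have := Real.rpow_le_rpow_of_exponent_le h (by linarith : -σ ≤ -σ₀)
      linarith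
    · have := Real.rpow_le_rpow_of_exponent_ge hm h (by linarith : -σ₁ ≤ -σ)
      linarith
  have e3 : Real.cosh v ^ (-σ) ≤ 2 ^ σ₀ * Real.exp (-σ₀ * |v|) := by
    have f1 : Real.cosh v ^ (-σ) ≤ Real.cosh v ^ (-σ₀) :=
      Real.rpow_le_rpow_of_exponent_le hc (by linarith)
    have f2 : Real.exp |v| / 2 ≤ Real.cosh v := by
      rw [← Real.cosh_abs, Real.cosh_eq]
      have := Real.exp_pos (-|v|)
      linarith
    have f3 : Real.cosh v ^ (-σ₀) ≤ (Real.exp |v| / 2) ^ (-σ₀) :=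
      Real.rpow_le_rpow_of_nonpos (by positivity) f2 (by linarith)
    refine f1.trans (f3.trans (le_of_eq ?_))
    rw [Real.div_rpow (Real.exp_pos _).le (by norm_num), ← Real.exp_mul,
      Real.rpow_neg (by norm_num : (0 : ℝ) ≤ 2), div_inv_eq_mul, mul_comm (2 ^ σ₀ : ℝ)]
    congr 2
    ring
  rw [Real.mul_rpow hm.le hc0.le] at e1
  refine e1.trans ((mul_le_mul e2 e3 (by positivity) (by positivity)).trans (le_of_eq ?_))
  ring

end JBD_

theorem pJBD (h : tCONE) (h' : tPHB) : tJBD := by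
  intro σ₀ σ₁ b A h0 hb
  rcases lt_or_ge b 0 with hb0 | hb0
  · refine ⟨0, fun s d _ _ hd _ => ?_⟩
    have := (abs_nonneg _).trans hd
    linarith
  have hcos : 0 < Real.cos b := Real.cos_pos_of_mem_Ioo ⟨by linarith [Real.pi_pos], hb⟩
  set m : ℝ := 2 * Real.cos b * Real.exp (-A) with hm
  have hm0 : 0 < m := by positivity
  refine ⟨2 * ∫ v : ℝ, ((m ^ (-σ₀) + m ^ (-σ₁)) * 2 ^ σ₀) * Real.exp (-σ₀ * |v|),
    fun s d hs0 hs1 hd hA => ?_⟩
  refine norm_JJ_le ((intG2 h0).const_mul _) ?_ ?_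
  · refine Eventually.of_forall fun v => ?_
    obtain ⟨-, -, -, -, -, hc, -⟩ := h d v b hd hb
    obtain ⟨hp, -⟩ := h' s d v b hd hb
    refine hp.trans (mul_le_mul_of_nonneg_right ?_ (Real.exp_pos _).le)
    exact rpow_bound2 hm0 h0 hs0 hs1 ((lower2 hcos hA).trans hc)
  · refine Eventually.of_forall fun v => ?_
    obtain ⟨-, -, -, -, -, -, hc⟩ := h d v b hd hb
    obtain ⟨-, hp⟩ := h' s d v b hd hb
    refine hp.trans (mul_le_mul_of_nonneg_right ?_ (Real.exp_pos _).le)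
    refine rpow_bound2 hm0 h0 hs0 hs1 (le_trans ?_ hc)
    have := lower2 (a := -d.re) (v := v) (A := A) hcos (by rwa [abs_neg])
    rwa [neg_neg] at this

namespace JBD_

/-- Norm bound on the imaginary axis: `z = 2 (cos ψ cosh v + i y)`, `|y| = sin ψ`. -/
theorem axis {ψ v y : ℝ} (h1 : Real.pi / 4 ≤ ψ) (h2 : ψ < Real.pi / 2) (hy : |y| = Real.sin ψ)
    {z : ℂ} (hz : z = 2 * ((Real.cos ψ * Real.cosh v : ℝ) + y * I)) (κ : ℝ) :
    ‖z ^ (-(1 / 2 + κ * I) : ℂ)‖ ≤
      min 1 (Real.exp (-(1 / 2) * (|v| + Real.log (Real.cos ψ)))) * Real.exp (ψ * |κ|) := by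
  have hc : 0 < Real.cos ψ := Real.cos_pos_of_mem_Ioo ⟨by linarith [Real.pi_pos], h2⟩
  have hs : 0 < Real.sin ψ := Real.sin_pos_of_pos_of_lt_pi (by linarith [Real.pi_pos])
    (by linarith [Real.pi_pos])
  have hch := Real.one_le_cosh v
  set x : ℝ := Real.cos ψ * Real.cosh v with hx
  have hx0 : 0 < x := by positivity
  have hxc : Real.cos ψ ≤ x := by nlinarith
  have hre : z.re = 2 * x := by rw [hz]; simp
  have him : z.im = 2 * y := by rw [hz]; simp
  have hn2 : ‖z‖ ^ 2 = 4 * (x ^ 2 + Real.sin ψ ^ 2) := by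
    rw [Complex.sq_norm, Complex.normSq_apply, hre, him, ← hy, sq_abs]
    ring
  have hsc := Real.sin_sq_add_cos_sq ψ
  have hn0 := norm_nonneg z
  -- norm is at least 2, hence at least 1
  have hn2' : 2 ≤ ‖z‖ := by nlinarith
  have hnx : 2 * x ≤ ‖z‖ := by
    refine le_of_sq_le_sq ?_ hn0
    rw [hn2]; nlinarith [sq_nonneg (Real.sin ψ)]
  have hnpos : 0 < ‖z‖ := by linarith
  have hz0 : z ≠ 0 := norm_pos_iff.1 hnpos
  -- the argument
  have harg : |z.arg| ≤ ψ := by
    rw [Complex.arg_of_re_nonneg (by rw [hre]; positivity), him]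
    have hq : |2 * y / ‖z‖| ≤ Real.sin ψ := by
      rw [abs_div, abs_mul, hy, abs_of_pos (by norm_num : (0 : ℝ) < 2), abs_of_pos hnpos,
        div_le_iff₀ hnpos]
      nlinarith
    have hq2 := abs_le.1 hq
    rw [abs_le]
    constructor
    · have e := Real.monotone_arcsin hq2.1
      rwa [Real.arcsin_neg, Real.arcsin_sin (by linarith [Real.pi_pos]) h2.le] at e
    · have e := Real.monotone_arcsin hq2.2
      rwa [Real.arcsin_sin (by linarith [Real.pi_pos]) h2.le] at e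
  rw [Complex.norm_cpow_of_ne_zero hz0]
  have hre' : (-(1 / 2 + κ * I) : ℂ).re = -(1 / 2) := by simp
  have him' : (-(1 / 2 + κ * I) : ℂ).im = -κ := by simp
  rw [hre', him', div_eq_mul_inv, ← Real.exp_neg]
  refine mul_le_mul ?_ ?_ (Real.exp_pos _).le (le_min zero_le_one (Real.exp_pos _).le)
  · refine le_min ?_ ?_
    · exact Real.rpow_le_one_of_one_le_of_nonpos (by linarith) (by norm_num)
    · have hge : Real.cos ψ * Real.exp |v| ≤ ‖z‖ := by
        refine le_trans ?_ hnx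
        have f2 : Real.exp |v| ≤ 2 * Real.cosh v := by
          rw [← Real.cosh_abs, Real.cosh_eq]
          have := Real.exp_pos (-|v|)
          linarith
        rw [hx]
        nlinarith
      refine (Real.rpow_le_rpow_of_nonpos (by positivity) hge (by norm_num)).trans (le_of_eq ?_)
      rw [Real.rpow_def_of_pos (by positivity), Real.log_mul hc.ne' (Real.exp_pos _).ne',
        Real.log_exp]
      congr 1
      ring
  · refine Real.exp_le_exp.2 ?_
    have : z.arg * κ ≤ |z.arg| * |κ| := by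
      rw [← abs_mul]; exact le_abs_self _
    have h6 : |z.arg| * |κ| ≤ ψ * |κ| := mul_le_mul_of_nonneg_right harg (abs_nonneg _)
    linarith

/-- the majorant min(1, e^{-(|v| - T)/2}) -/
theorem intG3 {T : ℝ} (hT : 0 ≤ T) :
    Integrable (fun v : ℝ => min 1 (Real.exp (-(1 / 2) * (|v| - T)))) ∧
      ∫ v : ℝ, min 1 (Real.exp (-(1 / 2) * (|v| - T))) ≤ 2 * T + 4 := by
  have hI : IntegrableOn (fun v : ℝ => Real.exp (-(1 / 2) * v) * Real.exp (1 / 2 * T)) (Ioi T) :=
    (integrableOn_exp_mul_Ioi (by norm_num) T).mul_const _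
  have hval : ∫ v in Ioi T, Real.exp (-(1 / 2) * v) * Real.exp (1 / 2 * T) = 2 := by
    rw [integral_mul_const, integral_exp_mul_Ioi (by norm_num)]
    have : Real.exp (-(1 / 2) * T) * Real.exp (1 / 2 * T) = 1 := by
      rw [← Real.exp_add]; simp
    linear_combination 2 * this
  have hcongr : ∀ v ∈ Ioi T, min 1 (Real.exp (-(1 / 2) * (v - T))) =
      Real.exp (-(1 / 2) * v) * Real.exp (1 / 2 * T) := by
    intro v hv
    have hv' : T < v := hv
    rw [min_eq_right (Real.exp_le_one_iff.2 (by nlinarith)), ← Real.exp_add]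
    congr 1; ring
  have h1 : IntegrableOn (fun v : ℝ => min 1 (Real.exp (-(1 / 2) * (v - T)))) (Ioi T) :=
    hI.congr_fun (fun v hv => (hcongr v hv).symm) measurableSet_Ioi
  have h2 : IntegrableOn (fun v : ℝ => min 1 (Real.exp (-(1 / 2) * (v - T)))) (Ioc 0 T) := by
    refine Continuous.integrableOn_Ioc ?_
    fun_prop
  have h3 : IntegrableOn (fun v : ℝ => min 1 (Real.exp (-(1 / 2) * (v - T)))) (Ioi 0) := by
    rw [← Ioc_union_Ioi_eq_Ioi hT]
    exact h2.union h1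
  refine ⟨integrable_even (f := fun v : ℝ => min 1 (Real.exp (-(1 / 2) * (v - T)))) h3, ?_⟩
  have h4 : ∫ v : ℝ, min 1 (Real.exp (-(1 / 2) * (|v| - T))) =
      2 * ∫ v in Ioi (0 : ℝ), min 1 (Real.exp (-(1 / 2) * (v - T))) :=
    integral_comp_abs (f := fun v : ℝ => min 1 (Real.exp (-(1 / 2) * (v - T))))
  rw [h4, ← Ioc_union_Ioi_eq_Ioi hT,
    setIntegral_union (Ioc_disjoint_Ioi le_rfl) measurableSet_Ioi h2 h1]
  have h5 : ∫ v in Ioi T, min 1 (Real.exp (-(1 / 2) * (v - T))) = 2 :=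
    (setIntegral_congr_fun measurableSet_Ioi hcongr).trans hval
  have h6 : ∫ v in Ioc 0 T, min 1 (Real.exp (-(1 / 2) * (v - T))) ≤ T := by
    have e : ∫ v in Ioc (0 : ℝ) T, (1 : ℝ) = T := by
      simp [hT]
    calc _ ≤ ∫ v in Ioc (0 : ℝ) T, (1 : ℝ) := by
          refine setIntegral_mono_on h2 (by simp) measurableSet_Ioc fun v _ => min_le_left _ _
      _ = T := e
  rw [h5]
  linarith

end JBD_

theorem pJIM : tJIM := by
  refine ⟨8, by norm_num, fun κ ψ h1 h2 => ?_⟩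
  have hc : 0 < Real.cos ψ := Real.cos_pos_of_mem_Ioo ⟨by linarith [Real.pi_pos], h2⟩
  have hs : 0 < Real.sin ψ := Real.sin_pos_of_pos_of_lt_pi (by linarith [Real.pi_pos])
    (by linarith [Real.pi_pos])
  have hT : 0 ≤ -Real.log (Real.cos ψ) := by
    have := Real.log_nonpos hc.le (Real.cos_le_one ψ)
    linarith
  obtain ⟨hint, hle⟩ := intG3 hT
  have hcd : Complex.cosh (ψ * I) = Real.cos ψ := by
    rw [Complex.cosh_mul_I, Complex.ofReal_cos]
  have hsd : Complex.sinh (ψ * I) = Real.sin ψ * I := by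
    rw [Complex.sinh_mul_I, Complex.ofReal_sin]
  have key := norm_JJ_le (s := 1 / 2 + κ * I) (d := ψ * I) (B := Real.exp (ψ * |κ|)) hint
    (Eventually.of_forall fun v => by
      have := axis (v := v) (y := Real.sin ψ) h1 h2 (abs_of_pos hs) (z := 2 * gp v (ψ * I))
        (by rw [gp, hcd, hsd]; push_cast; ring) κ
      simpa [sub_neg_eq_add] using this)
    (Eventually.of_forall fun v => by
      have := axis (v := v) (y := -Real.sin ψ) h1 h2 (by rw [abs_neg, abs_of_pos hs])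
        (z := 2 * gm v (ψ * I)) (by rw [gm, hcd, hsd]; push_cast; ring) κ
      simpa [sub_neg_eq_add] using this)
  unfold Jk
  refine key.trans (mul_le_mul_of_nonneg_right ?_ (Real.exp_pos _).le)
  linarith

end FMZ
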