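import Pool.Agent.FMZ.Spec

/-!
# FMZ: from the goal to the limsup
-/

open Complex MeasureTheory Set Filter Topology

namespace FMZ

namespace Lim_

theorem cont_zh : Continuous zh := by
  unfold zh
  rw [continuous_iff_continuousAt]
  intro u
  have h1 : (1 / 2 + (u : ℂ) * I) ≠ 1 := by
    intro h
    have := congrArg Complex.re h
    norm_num at this
  have h2 : ContinuousAt riemannZeta (1 / 2 + (u : ℂ) * I) :=
    (differentiableAt_riemannZeta h1).continuousAt
  exact ContinuousAt.comp (f := fun u : ℝ => (1 / 2 + (u : ℂ) * I)) h2 (by fun_prop)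

theorem cont_M4 : Continuous M4 := by
  have h : Continuous (fun u : ℝ => ‖zh u‖ ^ 4) := (cont_zh.norm).pow 4
  exact intervalIntegral.continuous_primitive (fun a b => h.intervalIntegrable a b) 0

end Lim_

open Lim_ in
/-- no bound of the form C √T holds for large T -/
theorem unbdd (h : GOAL) (P : Polynomial ℝ) (C T₀ : ℝ) :
    ∃ T, T₀ ≤ T ∧ C * √T < |M4 T - T * P.eval (Real.log T)| := by
  by_contra hcon
  push Not at hcon
  set T₁ : ℝ := max T₀ 1 with hT₁
  have hcont : ContinuousOn (fun T : ℝ => |M4 T - T * P.eval (Real.log T)|) (Icc 1 T₁) := by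
    apply ContinuousOn.abs
    apply ContinuousOn.sub cont_M4.continuousOn
    apply continuousOn_id.mul
    apply P.continuous.comp_continuousOn
    apply Real.continuousOn_log.mono
    intro x hx
    have : (1 : ℝ) ≤ x := hx.1
    simp only [mem_compl_iff, mem_singleton_iff]
    positivity
  obtain ⟨D, hD⟩ := isCompact_Icc.bddAbove_image hcont
  refine h P (max C (max D 0)) ?_
  intro T hT
  have hs : 1 ≤ √T := by
    rw [Real.one_le_sqrt]; exact hT
  rcases le_total T T₁ with hle | hle
  · have h1 : |M4 T - T * P.eval (Real.log T)| ≤ D := hD (mem_image_of_mem _ ⟨hT, hle⟩)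
    calc |M4 T - T * P.eval (Real.log T)| ≤ D := h1
      _ ≤ max C (max D 0) := (le_max_left D 0).trans (le_max_right _ _)
      _ ≤ max C (max D 0) * √T := by
        have h0 : 0 ≤ max C (max D 0) := (le_max_right D 0).trans (le_max_right _ _)
        nlinarith
  · have h1 := hcon T ((le_max_left T₀ 1).trans hle)
    calc |M4 T - T * P.eval (Real.log T)| ≤ C * √T := h1
      _ ≤ max C (max D 0) * √T := by
        apply mul_le_mul_of_nonneg_right (le_max_left _ _) (Real.sqrt_nonneg _)

/-- the limsup is infinite -/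
theorem limsup_top (h : GOAL) (P : Polynomial ℝ) :
    Filter.limsup (fun T : ℝ =>
      ((|(∫ t in (0 : ℝ)..T, ‖riemannZeta (1 / 2 + t * I)‖ ^ 4) - T * P.eval (Real.log T)| *
        T ^ (-(1 / 2) : ℝ) : ℝ) : EReal)) atTop = ⊤ := by
  rw [eq_top_iff]
  refine le_of_forall_lt fun c hc => ?_
  obtain ⟨r, hr⟩ : ∃ r : ℝ, c ≤ (r : EReal) := by
    induction c with
    | bot => exact ⟨0, bot_le⟩
    | coe x => exact ⟨x, le_rfl⟩
    | top => exact absurd hc (lt_irrefl _)
  have key : ∃ᶠ T : ℝ in atTop, ((r + 1 : ℝ) : EReal) ≤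
      ((|(∫ t in (0 : ℝ)..T, ‖riemannZeta (1 / 2 + t * I)‖ ^ 4) - T * P.eval (Real.log T)| *
        T ^ (-(1 / 2) : ℝ) : ℝ) : EReal) := by
    rw [Filter.frequently_atTop]
    intro a
    obtain ⟨T, hT, hlt⟩ := unbdd h P (r + 1) (max a 1)
    refine ⟨T, (le_max_left _ _).trans hT, ?_⟩
    have hT1 : 1 ≤ T := (le_max_right _ _).trans hT
    have hT0 : 0 < T := by linarith
    rw [EReal.coe_le_coe_iff]
    have e : T ^ (-(1 / 2) : ℝ) = (√T)⁻¹ := by
      rw [Real.rpow_neg hT0.le, ← Real.sqrt_eq_rpow]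
    rw [e]
    have hs : 0 < √T := Real.sqrt_pos.mpr hT0
    rw [← div_eq_mul_inv, le_div_iff₀ hs]
    exact hlt.le
  have h2 := Filter.le_limsup_of_frequently_le key
  calc c ≤ (r : EReal) := hr
    _ < ((r + 1 : ℝ) : EReal) := by
      rw [EReal.coe_lt_coe_iff]; linarith
    _ ≤ _ := h2

end FMZ
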