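import Pool.Agent.FMZ.STargets

/-!
# FMZ, block S: Rellich inequality on the compact part of the fundamental domain
-/

open Complex MeasureTheory Set Filter Topology
open UpperHalfPlane hiding I
open scoped ENNReal InnerProductSpace

namespace FMZ

namespace SCELL_

/-! ### one dimensional inequalities -/

theorem cs {α : Type*} [MeasurableSpace α] (μ : Measure α) [IsFiniteMeasure μ] {g : α → ℝ}
    (hg : Integrable g μ) (hg2 : Integrable (fun x => g x ^ 2) μ) :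
    (∫ x, g x ∂μ) ^ 2 ≤ μ.real univ * ∫ x, g x ^ 2 ∂μ := by
  set m := μ.real univ with hm
  set A := ∫ x, g x ∂μ with hA
  rcases (measureReal_nonneg (μ := μ) (s := univ)).eq_or_lt with h0 | h0
  · have h1 : μ = 0 := by
      rw [← Measure.measure_univ_eq_zero]
      exact (measureReal_eq_zero_iff (measure_ne_top μ _)).1 h0.symm
    rw [hA, h1]
    simp
  · rw [← hm] at h0
    have h2 : 0 ≤ ∫ x, (g x - A / m) ^ 2 ∂μ := integral_nonneg fun x => sq_nonneg _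
    have h3 : ∫ x, (g x - A / m) ^ 2 ∂μ = (∫ x, g x ^ 2 ∂μ) - A ^ 2 / m := by
      have e1 : ∀ x, (g x - A / m) ^ 2 = g x ^ 2 + (-(2 * (A / m)) * g x + (A / m) ^ 2) := by
        intro x; ring
      simp only [e1]
      have i1 : Integrable (fun x => -(2 * (A / m)) * g x) μ := hg.const_mul _
      have i2 : Integrable (fun _ : α => (A / m) ^ 2) μ := integrable_const _
      have i3 : Integrable (fun x => -(2 * (A / m)) * g x + (A / m) ^ 2) μ := i1.add i2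
      rw [integral_add hg2 i3, integral_add i1 i2, integral_const_mul, integral_const,
        smul_eq_mul, ← hm, ← hA]
      field_simp
      ring
    rw [h3, sub_nonneg, div_le_iff₀ h0] at h2
    linarith

theorem p1 {α : Type*} [MeasurableSpace α] (μ : Measure α) [IsFiniteMeasure μ] {F : α → ℂ}
    (hF : Integrable F μ) (hF2 : Integrable (fun x => ‖F x‖ ^ 2) μ) {G : ℝ}
    (h : ∀ᵐ s ∂μ, ∀ᵐ t ∂μ, ‖F s - F t‖ ≤ G) (hm0 : 0 < μ.real univ) :
    ∫ x, ‖F x‖ ^ 2 ∂μ ≤ 2 * μ.real univ * G ^ 2 + 2 / μ.real univ * ‖∫ x, F x ∂μ‖ ^ 2 := by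
  set m := μ.real univ with hm
  set A := ∫ x, F x ∂μ with hA
  have key : ∀ᵐ s ∂μ, ‖F s‖ ^ 2 ≤ 2 * G ^ 2 + 2 * (‖A‖ / m) ^ 2 := by
    filter_upwards [h] with s hs
    have h1 : ∫ t, (F s - F t) ∂μ = (m : ℂ) * F s - A := by
      rw [integral_sub (integrable_const _) hF, integral_const, ← hm, ← hA]
      simp
    have h2 : ‖(m : ℂ) * F s - A‖ ≤ m * G := by
      rw [← h1]
      calc ‖∫ t, (F s - F t) ∂μ‖ ≤ ∫ t, G ∂μ :=
            norm_integral_le_of_norm_le (integrable_const _) hs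
        _ = m * G := by rw [integral_const, smul_eq_mul]
    have h3 : m * ‖F s‖ ≤ m * G + ‖A‖ := by
      calc m * ‖F s‖ = ‖(m : ℂ) * F s‖ := by
            rw [norm_mul, Complex.norm_real, Real.norm_of_nonneg hm0.le]
        _ = ‖((m : ℂ) * F s - A) + A‖ := by rw [sub_add_cancel]
        _ ≤ _ := (norm_add_le _ _).trans (by linarith)
    have h4 : ‖F s‖ ≤ G + ‖A‖ / m := by
      rw [← sub_nonneg]
      have : G + ‖A‖ / m - ‖F s‖ = (m * G + ‖A‖ - m * ‖F s‖) / m := by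
        field_simp
      rw [this]
      exact div_nonneg (by linarith) hm0.le
    have h5 := norm_nonneg (F s)
    nlinarith [sq_nonneg (G - ‖A‖ / m)]
  calc ∫ x, ‖F x‖ ^ 2 ∂μ ≤ ∫ _, (2 * G ^ 2 + 2 * (‖A‖ / m) ^ 2) ∂μ :=
        integral_mono_ae hF2 (integrable_const _) key
    _ = m * (2 * G ^ 2 + 2 * (‖A‖ / m) ^ 2) := by rw [integral_const, smul_eq_mul]
    _ = _ := by
        field_simp

/-! ### a cell -/

/-- ∫ over a rectangle -/
theorem cell (k kx ks : ℝ × ℝ → ℂ) {a b c d : ℝ} (hab : a < b) (hcd : c < d)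
    (hk : ContinuousOn k (Icc a b ×ˢ Icc c d)) (hkx : ContinuousOn kx (Icc a b ×ˢ Icc c d))
    (hks : ContinuousOn ks (Icc a b ×ˢ Icc c d))
    (hx : ∀ s ∈ Icc c d, ∀ x ∈ Icc a b, ∀ x' ∈ Icc a b,
      ‖k (x, s) - k (x', s)‖ ≤ ∫ ξ in Ioc a b, ‖kx (ξ, s)‖)
    (hs : ∀ x ∈ Icc a b, ∀ s ∈ Icc c d, ∀ s' ∈ Icc c d,
      ‖k (x, s) - k (x, s')‖ ≤ ∫ σ in Ioc c d, ‖ks (x, σ)‖) :
    ∫ p in Ioc a b ×ˢ Ioc c d, ‖k p‖ ^ 2 ≤
      2 * (b - a) ^ 2 * (∫ p in Ioc a b ×ˢ Ioc c d, ‖kx p‖ ^ 2) +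
      4 * (d - c) ^ 2 * (∫ p in Ioc a b ×ˢ Ioc c d, ‖ks p‖ ^ 2) +
      4 / ((b - a) * (d - c)) * ‖∫ p in Ioc a b ×ˢ Ioc c d, k p‖ ^ 2 := by
  have hba : 0 < b - a := by linarith
  have hdc : 0 < d - c := by linarith
  have hrest : (volume : Measure (ℝ × ℝ)).restrict (Ioc a b ×ˢ Ioc c d) =
      ((volume : Measure ℝ).restrict (Ioc a b)).prod ((volume : Measure ℝ).restrict (Ioc c d)) := by
    rw [Measure.prod_restrict, Measure.volume_eq_prod]
  rw [hrest]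
  set μ₁ := (volume : Measure ℝ).restrict (Ioc a b) with hμ₁
  set μ₂ := (volume : Measure ℝ).restrict (Ioc c d) with hμ₂
  have m1 : μ₁.real univ = b - a := by
    rw [hμ₁, measureReal_restrict_apply MeasurableSet.univ, univ_inter, Real.volume_real_Ioc_of_le hab.le]
  have m2 : μ₂.real univ = d - c := by
    rw [hμ₂, measureReal_restrict_apply MeasurableSet.univ, univ_inter, Real.volume_real_Ioc_of_le hcd.le]
  have intE : ∀ {E : Type} [NormedAddCommGroup E] (F : ℝ × ℝ → E),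
      ContinuousOn F (Icc a b ×ˢ Icc c d) → Integrable F (μ₁.prod μ₂) := by
    intro E _ F hF
    rw [← hrest]
    exact (hF.integrableOn_compact (isCompact_Icc.prod isCompact_Icc)).mono_set
      (prod_mono Ioc_subset_Icc_self Ioc_subset_Icc_self)
  have intS : ∀ {E : Type} [NormedAddCommGroup E] (F : ℝ × ℝ → E),
      ContinuousOn F (Icc a b ×ˢ Icc c d) → ∀ s ∈ Icc c d, Integrable (fun x => F (x, s)) μ₁ := by
    intro E _ F hF s hs
    have h1 : ContinuousOn (fun x => F (x, s)) (Icc a b) :=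
      hF.comp (by fun_prop) (fun x hx => ⟨hx, hs⟩)
    exact (h1.integrableOn_compact isCompact_Icc).mono_set Ioc_subset_Icc_self
  have sqc : ∀ F : ℝ × ℝ → ℂ, ContinuousOn F (Icc a b ×ˢ Icc c d) →
      ContinuousOn (fun p => ‖F p‖ ^ 2) (Icc a b ×ˢ Icc c d) := fun F hF => hF.norm.pow 2
  -- the integral in x
  set K : ℝ → ℂ := fun s => ∫ x, k (x, s) ∂μ₁ with hK
  have hKint : Integrable K μ₂ := (intE k hk).integral_prod_right
  obtain ⟨M, hM⟩ := (isCompact_Icc.prod isCompact_Icc).exists_bound_of_continuousOn hk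
  have hKb : ∀ s ∈ Ioc c d, ‖K s‖ ≤ M * (b - a) := by
    intro s hs
    have h1 : ‖K s‖ ≤ ∫ _, M ∂μ₁ := by
      apply norm_integral_le_of_norm_le (integrable_const _)
      rw [hμ₁, ae_restrict_iff' measurableSet_Ioc]
      exact Eventually.of_forall fun x hx => hM (x, s) ⟨Ioc_subset_Icc_self hx,
        Ioc_subset_Icc_self hs⟩
    rw [integral_const, m1, smul_eq_mul] at h1
    linarith
  have hK2 : Integrable (fun s => ‖K s‖ ^ 2) μ₂ := by
    refine (integrable_const ((M * (b - a)) ^ 2)).mono' (hKint.1.norm.pow 2) ?_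
    rw [hμ₂, ae_restrict_iff' measurableSet_Ioc]
    refine Eventually.of_forall fun s hs => ?_
    rw [norm_pow, norm_norm]
    exact pow_le_pow_left₀ (norm_nonneg _) (hKb s hs) 2
  -- step 1
  have st1 : ∀ᵐ s ∂μ₂, ∫ x, ‖k (x, s)‖ ^ 2 ∂μ₁ ≤
      2 * (b - a) ^ 2 * (∫ x, ‖kx (x, s)‖ ^ 2 ∂μ₁) + 2 / (b - a) * ‖K s‖ ^ 2 := by
    rw [hμ₂, ae_restrict_iff' measurableSet_Ioc]
    refine Eventually.of_forall fun s hs => ?_
    have hs' := Ioc_subset_Icc_self hs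
    have h1 := p1 μ₁ (intS k hk s hs') (intS _ (sqc k hk) s hs')
      (G := ∫ ξ in Ioc a b, ‖kx (ξ, s)‖) (by
        rw [hμ₁, ae_restrict_iff' measurableSet_Ioc]
        refine Eventually.of_forall fun x hx1 => ?_
        rw [ae_restrict_iff' measurableSet_Ioc]
        exact Eventually.of_forall fun x' hx2 => hx s hs' x (Ioc_subset_Icc_self hx1) x'
          (Ioc_subset_Icc_self hx2)) (by rw [m1]; exact hba)
    have h2 := cs μ₁ (intS _ hkx.norm s hs') (intS _ (sqc kx hkx) s hs')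
    rw [m1] at h1 h2
    calc ∫ x, ‖k (x, s)‖ ^ 2 ∂μ₁ ≤ 2 * (b - a) * (∫ ξ in Ioc a b, ‖kx (ξ, s)‖) ^ 2 +
          2 / (b - a) * ‖∫ x, k (x, s) ∂μ₁‖ ^ 2 := h1
      _ ≤ 2 * (b - a) * ((b - a) * ∫ x, ‖kx (x, s)‖ ^ 2 ∂μ₁) +
          2 / (b - a) * ‖∫ x, k (x, s) ∂μ₁‖ ^ 2 := by
          have := mul_le_mul_of_nonneg_left h2 (show 0 ≤ 2 * (b - a) by linarith)
          linarith
      _ = _ := by rw [hK]; ring
  have e1 : ∫ p, ‖k p‖ ^ 2 ∂(μ₁.prod μ₂) = ∫ s, ∫ x, ‖k (x, s)‖ ^ 2 ∂μ₁ ∂μ₂ :=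
    integral_prod_symm _ (intE _ (sqc k hk))
  have e2 : ∫ p, ‖kx p‖ ^ 2 ∂(μ₁.prod μ₂) = ∫ s, ∫ x, ‖kx (x, s)‖ ^ 2 ∂μ₁ ∂μ₂ :=
    integral_prod_symm _ (intE _ (sqc kx hkx))
  have i1 : Integrable (fun s => ∫ x, ‖k (x, s)‖ ^ 2 ∂μ₁) μ₂ :=
    (intE _ (sqc k hk)).integral_prod_right
  have i2 : Integrable (fun s => ∫ x, ‖kx (x, s)‖ ^ 2 ∂μ₁) μ₂ :=
    (intE _ (sqc kx hkx)).integral_prod_right
  have st2 : ∫ p, ‖k p‖ ^ 2 ∂(μ₁.prod μ₂) ≤ 2 * (b - a) ^ 2 * (∫ p, ‖kx p‖ ^ 2 ∂(μ₁.prod μ₂)) +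
      2 / (b - a) * ∫ s, ‖K s‖ ^ 2 ∂μ₂ := by
    rw [e1, e2, ← integral_const_mul, ← integral_const_mul, ← integral_add (i2.const_mul _)
      (hK2.const_mul _)]
    exact integral_mono_ae i1 ((i2.const_mul _).add (hK2.const_mul _)) st1
  -- step 2
  have st3 := p1 μ₂ hKint hK2 (G := ∫ p, ‖ks p‖ ∂(μ₁.prod μ₂)) (by
      rw [hμ₂, ae_restrict_iff' measurableSet_Ioc]
      refine Eventually.of_forall fun s hs1 => ?_
      rw [ae_restrict_iff' measurableSet_Ioc]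
      refine Eventually.of_forall fun s' hs2 => ?_
      have hs1' := Ioc_subset_Icc_self hs1
      have hs2' := Ioc_subset_Icc_self hs2
      have h1 : K s - K s' = ∫ x, (k (x, s) - k (x, s')) ∂μ₁ :=
        (integral_sub (intS k hk s hs1') (intS k hk s' hs2')).symm
      rw [← hμ₂, h1, integral_prod _ (intE _ hks.norm)]
      apply norm_integral_le_of_norm_le (intE _ hks.norm).integral_prod_left
      rw [hμ₁, ae_restrict_iff' measurableSet_Ioc]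
      exact Eventually.of_forall fun x hx1 => hs x (Ioc_subset_Icc_self hx1) s hs1' s' hs2')
    (by rw [m2]; exact hdc)
  have m12 : (μ₁.prod μ₂).real univ = (b - a) * (d - c) := by
    rw [← univ_prod_univ, measureReal_prod_prod, m1, m2]
  have st4 := cs (μ₁.prod μ₂) (intE _ hks.norm) (intE _ (sqc ks hks))
  rw [m12] at st4
  have e3 : ∫ s, K s ∂μ₂ = ∫ p, k p ∂(μ₁.prod μ₂) := (integral_prod_symm _ (intE k hk)).symm
  rw [e3, m2] at st3
  set X := ∫ p, ‖ks p‖ ^ 2 ∂(μ₁.prod μ₂) with hX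
  set Z := ‖∫ p, k p ∂(μ₁.prod μ₂)‖ ^ 2 with hZ
  have st5 : ∫ s, ‖K s‖ ^ 2 ∂μ₂ ≤ 2 * (d - c) * ((b - a) * (d - c) * X) + 2 / (d - c) * Z := by
    have := mul_le_mul_of_nonneg_left st4 (show 0 ≤ 2 * (d - c) by linarith)
    linarith
  have st6 := mul_le_mul_of_nonneg_left st5 (show 0 ≤ 2 / (b - a) by positivity)
  have e4 : 2 / (b - a) * (2 * (d - c) * ((b - a) * (d - c) * X) + 2 / (d - c) * Z) =
      4 * (d - c) ^ 2 * X + 4 / ((b - a) * (d - c)) * Z := by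
    field_simp
    ring
  rw [e4] at st6
  linarith

/-! ### sums over cells -/

theorem union_cells (a h : ℝ) (hh : 0 ≤ h) (N : ℕ) :
    (⋃ i : Fin N, Ioc (a + (i : ℕ) * h) (a + ((i : ℕ) + 1) * h)) = Ioc a (a + N * h) := by
  have hmono : Monotone (fun n : ℕ => a + (n : ℝ) * h) := by
    intro m n hmn
    have : (m : ℝ) ≤ n := by exact_mod_cast hmn
    simp only
    nlinarith
  have h1 := hmono.biUnion_Ico_Ioc_map_succ 0 N
  simp only [Nat.cast_zero, zero_mul, add_zero] at h1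
  rw [← h1]
  ext x
  simp only [mem_iUnion, exists_prop, mem_Ico]
  constructor
  · rintro ⟨i, hi⟩
    refine ⟨i, ⟨Nat.zero_le _, i.2⟩, ?_⟩
    simpa [Nat.succ_eq_succ] using hi
  · rintro ⟨i, ⟨_, hi⟩, hx⟩
    refine ⟨⟨i, hi⟩, ?_⟩
    simpa [Nat.succ_eq_succ] using hx

theorem disj_cells (a h : ℝ) (hh : 0 ≤ h) {i j : ℕ} (hij : i ≠ j) :
    Disjoint (Ioc (a + (i : ℕ) * h) (a + ((i : ℕ) + 1) * h))
      (Ioc (a + (j : ℕ) * h) (a + ((j : ℕ) + 1) * h)) := by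
  have hmono : Monotone (fun n : ℕ => a + (n : ℝ) * h) := by
    intro m n hmn
    have : (m : ℝ) ≤ n := by exact_mod_cast hmn
    simp only
    nlinarith
  have h1 := hmono.pairwise_disjoint_on_Ioc_succ hij
  simpa [Function.onFun, Nat.succ_eq_succ] using h1

/-- the cells -/
def Cl (a h c h' : ℝ) {N : ℕ} (q : Fin N × Fin N) : Set (ℝ × ℝ) :=
  Ioc (a + (q.1 : ℕ) * h) (a + ((q.1 : ℕ) + 1) * h) ×ˢ
    Ioc (c + (q.2 : ℕ) * h') (c + ((q.2 : ℕ) + 1) * h')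

theorem sum_cells {E : Type} [NormedAddCommGroup E] [NormedSpace ℝ E] (F : ℝ × ℝ → E)
    (a h c h' : ℝ) (hh : 0 ≤ h) (hh' : 0 ≤ h') (N : ℕ)
    (hF : IntegrableOn F (Ioc a (a + N * h) ×ˢ Ioc c (c + N * h'))) :
    ∫ p in Ioc a (a + N * h) ×ˢ Ioc c (c + N * h'), F p =
      ∑ q : Fin N × Fin N, ∫ p in Cl a h c h' q, F p := by
  have hU : (⋃ q : Fin N × Fin N, Cl a h c h' q) =
      Ioc a (a + N * h) ×ˢ Ioc c (c + N * h') := by
    rw [← union_cells a h hh N, ← union_cells c h' hh' N]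
    ext ⟨x, y⟩
    simp only [mem_iUnion, mem_prod, Cl, Prod.exists]
    constructor
    · rintro ⟨i, j, h1, h2⟩
      exact ⟨⟨i, h1⟩, ⟨j, h2⟩⟩
    · rintro ⟨⟨i, h1⟩, ⟨j, h2⟩⟩
      exact ⟨i, j, h1, h2⟩
  have hm : ∀ q : Fin N × Fin N, MeasurableSet (Cl a h c h' q) :=
    fun q => measurableSet_Ioc.prod measurableSet_Ioc
  rw [← hU, integral_iUnion_fintype hm]
  · rintro ⟨i, j⟩ ⟨i', j'⟩ hne
    simp only [Function.onFun, Cl]
    rw [Set.disjoint_prod]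
    by_cases h1 : i = i'
    · right
      apply disj_cells c h' hh'
      intro h2
      exact hne (by rw [h1, Fin.ext h2])
    · left
      apply disj_cells a h hh
      intro h2
      exact h1 (Fin.ext h2)
  · intro q
    refine hF.mono_set ?_
    rw [← hU]
    exact subset_iUnion _ q

/-! ### the coordinates (x, s) -/

noncomputable def aa (x : ℝ) : ℝ := √(1 - x ^ 2)

theorem aa_meas : Measurable aa := by
  unfold aa
  fun_prop

/-- the shear -/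
noncomputable def sh : ℝ × ℝ ≃ᵐ ℝ × ℝ where
  toFun := fun p => (p.1, aa p.1 + p.2)
  invFun := fun p => (p.1, p.2 - aa p.1)
  left_inv := fun p => by simp
  right_inv := fun p => by simp
  measurable_toFun := by
    have := aa_meas
    exact measurable_fst.prodMk ((this.comp measurable_fst).add measurable_snd)
  measurable_invFun := by
    have := aa_meas
    exact measurable_fst.prodMk (measurable_snd.sub (this.comp measurable_fst))

theorem sh_mp : MeasurePreserving (sh : ℝ × ℝ → ℝ × ℝ) volume volume := by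
  have h := MeasurePreserving.skew_product (μa := (volume : Measure ℝ)) (μc := (volume : Measure ℝ))
    (μd := (volume : Measure ℝ)) (MeasurePreserving.id (volume : Measure ℝ))
    (g := fun x s => aa x + s) (by
      have := aa_meas
      exact (this.comp measurable_fst).add measurable_snd)
    (Eventually.of_forall fun x => (measurePreserving_add_left volume (aa x)).map_eq)
  rw [Measure.volume_eq_prod]
  exact h

/-- transfer of set integrals to the coordinates (x, s) -/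
theorem transfer (h2 : sCO) {E : Type} [NormedAddCommGroup E] [NormedSpace ℝ E] (h : ℍ → E)
    {R : Set (ℝ × ℝ)} (hR : MeasurableSet R) (hpos : ∀ p ∈ R, 0 < aa p.1 + p.2) :
    ∫ z in {z : ℍ | (z.re, z.im - aa z.re) ∈ R}, h z =
      ∫ p in R, (1 / (aa p.1 + p.2) ^ 2) • h (pt p.1 (aa p.1 + p.2)) := by
  obtain ⟨c1, c2, c3, c4, c5⟩ := h2
  set S : Set (ℝ × ℝ) := sh.symm ⁻¹' R with hS
  have hSm : MeasurableSet S := sh.symm.measurable hR
  have hSpos : ∀ p ∈ S, 0 < p.2 := by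
    intro p hp
    have := hpos _ hp
    simp only [sh, MeasurableEquiv.symm_mk, MeasurableEquiv.coe_mk, Equiv.coe_fn_symm_mk] at this
    linarith
  have e0 : {z : ℍ | (z.re, z.im - aa z.re) ∈ R} = (fun z : ℍ => (z.re, z.im)) ⁻¹' S := rfl
  set H : ℝ × ℝ → E := fun p => h (pt p.1 p.2) with hH
  have e1 : ∀ z : ℍ, h z = H ((fun z : ℍ => (z.re, z.im)) z) := by
    intro z
    simp only [hH]
    rw [c1]
  have e1' : (∫ z in {z : ℍ | (z.re, z.im - aa z.re) ∈ R}, h z) =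
      ∫ z in (fun z : ℍ => (z.re, z.im)) ⁻¹' S, H ((fun z : ℍ => (z.re, z.im)) z) := by
    rw [e0]
    exact integral_congr_ae (Eventually.of_forall fun z => e1 z)
  rw [e1', c5.setIntegral_preimage_emb c4, setIntegral_withDensity_eq_setIntegral_toReal_smul₀
    (by fun_prop) (by simp) _ hSm]
  have e2 : (volume.restrict {p : ℝ × ℝ | 0 < p.2}).restrict S = volume.restrict S := by
    rw [Measure.restrict_restrict hSm]
    congr 1
    ext p
    simp only [mem_inter_iff, mem_ofPred_eq, and_iff_left_iff_imp]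
    exact hSpos p
  rw [e2]
  have e3 : (sh : ℝ × ℝ → ℝ × ℝ) ⁻¹' S = R := by
    rw [hS, ← preimage_comp]
    simp
  rw [← sh_mp.setIntegral_preimage_emb sh.measurableEmbedding, e3]
  refine setIntegral_congr_fun hR (fun p hp => ?_)
  have hp0 := hpos p hp
  simp only [sh, MeasurableEquiv.coe_mk, Equiv.coe_fn_mk]
  rw [ENNReal.toReal_ofReal (by positivity)]

theorem aa_sq {x : ℝ} (hx : |x| ≤ 1 / 2) : 3 / 4 ≤ aa x ^ 2 := by
  have h1 : x ^ 2 ≤ 1 / 4 := by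
    rw [← sq_abs]
    nlinarith [abs_nonneg x]
  unfold aa
  rw [Real.sq_sqrt (by linarith)]
  linarith

theorem aa_ge {x : ℝ} (hx : |x| ≤ 1 / 2) : 1 / 2 < aa x := by
  have h1 := aa_sq hx
  have h2 : 0 ≤ aa x := Real.sqrt_nonneg _
  nlinarith

theorem aa_le (x : ℝ) : aa x ≤ 1 := by
  unfold aa
  rw [Real.sqrt_le_one]
  nlinarith [sq_nonneg x]

theorem aa_cont : Continuous aa := by
  unfold aa
  fun_prop

theorem aa_deriv {x : ℝ} (hx : |x| ≤ 1 / 2) : HasDerivAt aa (-(x / aa x)) x := by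
  have h1 : HasDerivAt (fun y : ℝ => 1 - y ^ 2) (-(2 * x)) x := by
    simpa using (hasDerivAt_pow 2 x).const_sub 1
  have h3 : x ^ 2 ≤ 1 / 4 := by
    rw [← sq_abs]
    nlinarith [abs_nonneg x]
  have h2 := h1.sqrt (by nlinarith)
  have h4 : (-(2 * x)) / (2 * √(1 - x ^ 2)) = -(x / aa x) := by
    unfold aa
    rw [neg_div, mul_div_mul_left _ _ (two_ne_zero)]
  rw [h4] at h2
  exact h2

/-- the point of the plane -/
noncomputable def W (p : ℝ × ℝ) : ℂ := (p.1 : ℂ) + ((aa p.1 + p.2 : ℝ) : ℂ) * I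

theorem W_im (p : ℝ × ℝ) : (W p).im = aa p.1 + p.2 := by
  simp [W]

theorem W_cont : Continuous W := by
  unfold W
  have := aa_cont
  fun_prop

/-- FTC -/
theorem ftc (g g' : ℝ → ℂ) {a b : ℝ} (hg : ∀ x ∈ Icc a b, HasDerivAt g (g' x) x)
    (hg' : ContinuousOn g' (Icc a b)) {x x' : ℝ} (hx : x ∈ Icc a b) (hx' : x' ∈ Icc a b) :
    ‖g x - g x'‖ ≤ ∫ ξ in Ioc a b, ‖g' ξ‖ := by
  have hsub : uIcc x' x ⊆ Icc a b := uIcc_subset_Icc hx' hx
  have h1 : ∫ y in x'..x, g' y = g x - g x' :=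
    intervalIntegral.integral_eq_sub_of_hasDerivAt (fun y hy => hg y (hsub hy))
      (hg'.mono hsub).intervalIntegrable
  rw [← h1]
  refine intervalIntegral.norm_integral_le_integral_norm_uIoc.trans ?_
  refine setIntegral_mono_set ?_ ?_ ?_
  · exact (hg'.norm.integrableOn_compact isCompact_Icc).mono_set Ioc_subset_Icc_self
  · exact Eventually.of_forall fun _ => norm_nonneg _
  · refine LE.le.eventuallyLE ?_
    exact Ioc_subset_Ioc (le_min hx'.1 hx.1) (max_le hx'.2 hx.2)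

/-! ### the derivatives in the coordinates -/

section

variable {f : ℍ → ℂ}

theorem isO : IsOpen {w : ℂ | 0 < w.im} := isOpen_lt continuous_const Complex.continuous_im

theorem fdc (hf : Sm f) : ContinuousOn (fderiv ℝ (ex f)) {w : ℂ | 0 < w.im} :=
  ContDiffOn.continuousOn_fderiv_of_isOpen hf isO (by exact_mod_cast le_top)

theorem fdd (hf : Sm f) {w : ℂ} (hw : 0 < w.im) : HasFDerivAt (ex f) (fderiv ℝ (ex f) w) w :=
  ((hf.differentiableOn (by simp)).differentiableAt (isO.mem_nhds hw)).hasFDerivAt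

noncomputable def kk (f : ℍ → ℂ) (p : ℝ × ℝ) : ℂ := ex f (W p)
noncomputable def dX (f : ℍ → ℂ) (p : ℝ × ℝ) : ℂ := fderiv ℝ (ex f) (W p) 1
noncomputable def dY (f : ℍ → ℂ) (p : ℝ × ℝ) : ℂ := fderiv ℝ (ex f) (W p) I
noncomputable def kX (f : ℍ → ℂ) (p : ℝ × ℝ) : ℂ :=
  dX f p + ((-(p.1 / aa p.1) : ℝ) : ℂ) * dY f p

theorem Wpos {a b c d : ℝ} (ha : -(1 / 2) ≤ a) (hb : b ≤ 1 / 2) (hc : 0 ≤ c) {p : ℝ × ℝ}
    (hp : p ∈ Icc a b ×ˢ Icc c d) : |p.1| ≤ 1 / 2 ∧ 0 ≤ p.2 ∧ 0 < (W p).im := by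
  obtain ⟨⟨h1, h2⟩, h3, h4⟩ := hp
  have h5 : |p.1| ≤ 1 / 2 := abs_le.2 ⟨by linarith, by linarith⟩
  refine ⟨h5, by linarith, ?_⟩
  rw [W_im]
  have := aa_ge h5
  linarith

theorem kk_c (hf : Sm f) {a b c d : ℝ} (ha : -(1 / 2) ≤ a) (hb : b ≤ 1 / 2) (hc : 0 ≤ c) :
    ContinuousOn (kk f) (Icc a b ×ˢ Icc c d) :=
  hf.continuousOn.comp W_cont.continuousOn fun _ hp => (Wpos ha hb hc hp).2.2

theorem dX_c (hf : Sm f) {a b c d : ℝ} (ha : -(1 / 2) ≤ a) (hb : b ≤ 1 / 2) (hc : 0 ≤ c) :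
    ContinuousOn (dX f) (Icc a b ×ˢ Icc c d) := by
  have h1 : ContinuousOn (fun p => fderiv ℝ (ex f) (W p)) (Icc a b ×ˢ Icc c d) :=
    (fdc hf).comp W_cont.continuousOn fun _ hp => (Wpos ha hb hc hp).2.2
  exact h1.clm_apply continuousOn_const

theorem dY_c (hf : Sm f) {a b c d : ℝ} (ha : -(1 / 2) ≤ a) (hb : b ≤ 1 / 2) (hc : 0 ≤ c) :
    ContinuousOn (dY f) (Icc a b ×ˢ Icc c d) := by
  have h1 : ContinuousOn (fun p => fderiv ℝ (ex f) (W p)) (Icc a b ×ˢ Icc c d) :=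
    (fdc hf).comp W_cont.continuousOn fun _ hp => (Wpos ha hb hc hp).2.2
  exact h1.clm_apply continuousOn_const

theorem kX_c (hf : Sm f) {a b c d : ℝ} (ha : -(1 / 2) ≤ a) (hb : b ≤ 1 / 2) (hc : 0 ≤ c) :
    ContinuousOn (kX f) (Icc a b ×ˢ Icc c d) := by
  refine (dX_c hf ha hb hc).add (ContinuousOn.mul ?_ (dY_c hf ha hb hc))
  refine Complex.continuous_ofReal.comp_continuousOn ?_
  refine (ContinuousOn.div continuousOn_fst (aa_cont.comp continuous_fst).continuousOn ?_).neg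
  intro p hp
  have := aa_ge (Wpos ha hb hc hp).1
  simp only [Function.comp]
  linarith

theorem kk_dx (hf : Sm f) {x s : ℝ} (hx : |x| ≤ 1 / 2) (hs : 0 ≤ s) :
    HasDerivAt (fun x => kk f (x, s)) (kX f (x, s)) x := by
  have hpos : 0 < (W (x, s)).im := by
    rw [W_im]
    have := aa_ge hx
    simp only
    linarith
  have h1 : HasDerivAt (fun y : ℝ => W (y, s)) (1 + ((-(x / aa x) : ℝ) : ℂ) * I) x := by
    unfold W
    have h2 : HasDerivAt (fun y : ℝ => (y : ℂ)) 1 x := Complex.ofRealCLM.hasDerivAt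
    have h3 : HasDerivAt (fun y : ℝ => ((aa y + s : ℝ) : ℂ)) ((-(x / aa x) : ℝ) : ℂ) x :=
      ((aa_deriv hx).add_const s).ofReal_comp
    exact h2.add (h3.mul_const I)
  have h4 := (fdd hf hpos).comp_hasDerivAt x h1
  have h5 : fderiv ℝ (ex f) (W (x, s)) (1 + ((-(x / aa x) : ℝ) : ℂ) * I) = kX f (x, s) := by
    rw [map_add]
    have h6 : ((-(x / aa x) : ℝ) : ℂ) * I = (-(x / aa x) : ℝ) • I := by
      rw [Complex.real_smul]
    rw [h6, map_smul, Complex.real_smul]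
    rfl
  rw [h5] at h4
  exact h4

theorem kk_dy (hf : Sm f) {x s : ℝ} (hx : |x| ≤ 1 / 2) (hs : 0 ≤ s) :
    HasDerivAt (fun s => kk f (x, s)) (dY f (x, s)) s := by
  have hpos : 0 < (W (x, s)).im := by
    rw [W_im]
    have := aa_ge hx
    simp only
    linarith
  have h1 : HasDerivAt (fun t : ℝ => W (x, t)) I s := by
    unfold W
    have h3 : HasDerivAt (fun t : ℝ => ((aa x + t : ℝ) : ℂ)) ((1 : ℝ) : ℂ) s :=
      ((hasDerivAt_id s).const_add (aa x)).ofReal_comp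
    have h4 := (h3.mul_const I).const_add (x : ℂ)
    simpa using h4
  exact (fdd hf hpos).comp_hasDerivAt s h1

/-- a cell -/
theorem cellf (hf : Sm f) {a b c d : ℝ} (ha : -(1 / 2) ≤ a) (hb : b ≤ 1 / 2) (hc : 0 ≤ c)
    (hab : a < b) (hcd : c < d) :
    ∫ p in Ioc a b ×ˢ Ioc c d, ‖kk f p‖ ^ 2 ≤
      (4 * (b - a) ^ 2 + 4 * (d - c) ^ 2) *
        (∫ p in Ioc a b ×ˢ Ioc c d, (‖dX f p‖ ^ 2 + ‖dY f p‖ ^ 2)) +
      4 / ((b - a) * (d - c)) * ‖∫ p in Ioc a b ×ˢ Ioc c d, kk f p‖ ^ 2 := by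
  have h0 := cell (kk f) (kX f) (dY f) hab hcd (kk_c hf ha hb hc) (kX_c hf ha hb hc)
    (dY_c hf ha hb hc)
    (by
      intro s hs x hx x' hx'
      refine ftc (fun x => kk f (x, s)) (fun x => kX f (x, s)) ?_ ?_ hx hx'
      · intro y hy
        exact kk_dx hf (Wpos ha hb hc (p := (y, s)) (d := d) ⟨hy, hs⟩).1 (by linarith [hs.1])
      · exact (kX_c hf ha hb hc (d := d)).comp (by fun_prop) fun y hy => ⟨hy, hs⟩)
    (by
      intro x hx s hs s' hs'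
      refine ftc (fun s => kk f (x, s)) (fun s => dY f (x, s)) ?_ ?_ hs hs'
      · intro t ht
        exact kk_dy hf (Wpos ha hb hc (p := (x, t)) (d := d) ⟨hx, ht⟩).1 (by linarith [ht.1])
      · exact (dY_c hf ha hb hc (b := b)).comp (by fun_prop) fun y hy => ⟨hx, hy⟩)
  have intE : ∀ F : ℝ × ℝ → ℝ, ContinuousOn F (Icc a b ×ˢ Icc c d) →
      IntegrableOn F (Ioc a b ×ˢ Ioc c d) := by
    intro F hF
    exact (hF.integrableOn_compact (isCompact_Icc.prod isCompact_Icc)).mono_set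
      (prod_mono Ioc_subset_Icc_self Ioc_subset_Icc_self)
  have hms : MeasurableSet (Ioc a b ×ˢ Ioc c d) := measurableSet_Ioc.prod measurableSet_Ioc
  have cE := ((dX_c hf ha hb hc (d := d)).norm.pow 2).add ((dY_c hf ha hb hc (d := d)).norm.pow 2)
  have h1 : ∫ p in Ioc a b ×ˢ Ioc c d, ‖kX f p‖ ^ 2 ≤
      2 * ∫ p in Ioc a b ×ˢ Ioc c d, (‖dX f p‖ ^ 2 + ‖dY f p‖ ^ 2) := by
    rw [← integral_const_mul]
    refine setIntegral_mono_on (intE _ ((kX_c hf ha hb hc).norm.pow 2))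
      ((intE _ cE).const_mul 2) hms ?_
    intro p hp
    have hp' := Wpos ha hb hc (prod_mono Ioc_subset_Icc_self Ioc_subset_Icc_self hp)
    have h2 := aa_ge hp'.1
    have h3 : |p.1 / aa p.1| ≤ 1 := by
      have h2' : 0 < aa p.1 := by linarith
      rw [abs_div, abs_of_pos h2', div_le_one h2']
      linarith [hp'.1]
    have h4 : ‖kX f p‖ ≤ ‖dX f p‖ + ‖dY f p‖ := by
      unfold kX
      refine (norm_add_le _ _).trans ?_
      rw [norm_mul, Complex.norm_real, Real.norm_eq_abs, abs_neg]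
      have := mul_le_mul_of_nonneg_right h3 (norm_nonneg (dY f p))
      linarith
    have h5 := norm_nonneg (kX f p)
    nlinarith [sq_nonneg (‖dX f p‖ - ‖dY f p‖)]
  have h2 : ∫ p in Ioc a b ×ˢ Ioc c d, ‖dY f p‖ ^ 2 ≤
      ∫ p in Ioc a b ×ˢ Ioc c d, (‖dX f p‖ ^ 2 + ‖dY f p‖ ^ 2) := by
    refine setIntegral_mono_on (intE _ ((dY_c hf ha hb hc).norm.pow 2)) (intE _ cE) hms ?_
    intro p hp
    nlinarith [sq_nonneg (‖dX f p‖)]
  have h3 := mul_le_mul_of_nonneg_left h1 (show 0 ≤ 2 * (b - a) ^ 2 by positivity)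
  have h4 := mul_le_mul_of_nonneg_left h2 (show 0 ≤ 4 * (d - c) ^ 2 by positivity)
  linarith

end

/-! ### the domain -/

/-- the region of the upper half plane -/
def Bs (R : Set (ℝ × ℝ)) : Set ℍ := {z : ℍ | (z.re, z.im - aa z.re) ∈ R}

theorem Bs_meas {R : Set (ℝ × ℝ)} (hR : MeasurableSet R) (h2 : sCO) : MeasurableSet (Bs R) := by
  have h1 : Bs R = (fun z : ℍ => (z.re, z.im)) ⁻¹' (sh.symm ⁻¹' R) := rfl
  rw [h1]
  exact h2.2.2.2.1.measurable (sh.symm.measurable hR)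

theorem memDm (z : ℍ) : z ∈ Dm ↔ |z.re| < 1 / 2 ∧ 0 < z.im - aa z.re := by
  have h0 : z ∈ Dm ↔ 1 < Complex.normSq (z : ℂ) ∧ |z.re| < 1 / 2 := by
    unfold Dm ModularGroup.fdo
    rfl
  rw [h0, and_comm]
  refine and_congr_right fun hx => ?_
  have h1 : Complex.normSq (z : ℂ) = z.re ^ 2 + z.im ^ 2 := by
    rw [Complex.normSq_apply]
    simp only [coe_re, coe_im]
    ring
  have h2 : z.re ^ 2 ≤ 1 / 4 := by
    rw [← sq_abs]
    nlinarith [abs_nonneg z.re]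
  have h3 : aa z.re ^ 2 = 1 - z.re ^ 2 := by
    unfold aa
    rw [Real.sq_sqrt (by linarith)]
  have h4 : 0 ≤ aa z.re := Real.sqrt_nonneg _
  have h5 := z.im_pos
  rw [h1]
  constructor
  · intro h
    nlinarith
  · intro h
    nlinarith

theorem transferD (h2 : sCO) {E : Type} [NormedAddCommGroup E] [NormedSpace ℝ E]
    (h : ℍ → E) {R : Set (ℝ × ℝ)} (hR : MeasurableSet R)
    (hsub : R ⊆ Ioc (-(1 / 2)) (1 / 2) ×ˢ Ioi 0) :
    ∫ z in Bs R, h z ∂muD =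
      ∫ p in R, (1 / (aa p.1 + p.2) ^ 2) • h (pt p.1 (aa p.1 + p.2)) := by
  set R' : Set (ℝ × ℝ) := R ∩ {p | |p.1| < 1 / 2} with hR'
  have hR'm : MeasurableSet R' := by
    refine hR.inter (measurableSet_lt ?_ measurable_const)
    fun_prop
  have e1 : Bs R ∩ Dm = Bs R' := by
    ext z
    simp only [mem_inter_iff, memDm]
    constructor
    · rintro ⟨h1, h2, h3⟩
      exact ⟨h1, h2⟩
    · rintro ⟨h1, h2⟩
      exact ⟨h1, h2, (hsub h1).2⟩
  unfold muD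
  rw [Measure.restrict_restrict (Bs_meas hR h2), e1]
  have e2 := transfer h2 h hR'm (by
    intro p hp
    have h1 := hsub hp.1
    have h4 : |p.1| < 1 / 2 := hp.2
    have h5 := aa_ge h4.le
    have h6 : 0 < p.2 := h1.2
    linarith)
  have e3 : Bs R' = {z : ℍ | (z.re, z.im - aa z.re) ∈ R'} := rfl
  rw [e3, e2]
  apply setIntegral_congr_set
  have hnull : (volume : Measure (ℝ × ℝ)) (({1 / 2} : Set ℝ) ×ˢ univ) = 0 := by
    rw [Measure.volume_eq_prod, Measure.prod_prod]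
    simp
  rw [hR']
  have hc : ∀ᵐ p : ℝ × ℝ, p ∉ (({1 / 2} : Set ℝ) ×ˢ (univ : Set ℝ)) := measure_eq_zero_iff_ae_notMem.1 hnull
  filter_upwards [hc] with p hp
  apply propext
  constructor
  · rintro ⟨h1, _⟩
    exact h1
  · intro h1
    refine ⟨h1, ?_⟩
    have h4 := (hsub h1).1
    have h5 : p.1 ≠ 1 / 2 := by
      intro h
      exact hp ⟨h, mem_univ _⟩
    change |p.1| < 1 / 2
    rw [abs_lt]
    exact ⟨h4.1, lt_of_le_of_ne h4.2 h5⟩

/-- the whole rectangle -/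
def R0 (Y : ℝ) : Set (ℝ × ℝ) := Ioc (-(1 / 2)) (1 / 2) ×ˢ Ioc 0 Y

theorem R0_meas (Y : ℝ) : MeasurableSet (R0 Y) := measurableSet_Ioc.prod measurableSet_Ioc

theorem R0_sub (Y : ℝ) : R0 Y ⊆ Ioc (-(1 / 2)) (1 / 2) ×ˢ Ioi 0 :=
  prod_mono Subset.rfl fun _ h => h.1

theorem pt_coe (x y : ℝ) (hy : 0 < y) : ((pt x y : ℍ) : ℂ) = x + y * I := by
  unfold pt
  rw [ofComplex_apply_of_im_pos (by simpa using hy)]

theorem R0_pos {Y : ℝ} {p : ℝ × ℝ} (hp : p ∈ R0 Y) :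
    |p.1| ≤ 1 / 2 ∧ 0 < p.2 ∧ 3 / 4 ≤ (aa p.1 + p.2) ^ 2 ∧ 0 < aa p.1 + p.2 := by
  have h1 : |p.1| ≤ 1 / 2 := abs_le.2 ⟨hp.1.1.le, hp.1.2⟩
  have h2 : 0 < p.2 := hp.2.1
  have h3 := aa_ge h1
  have h4 := aa_sq h1
  exact ⟨h1, h2, by nlinarith, by linarith⟩

/-- the functionals -/
theorem func (h2 : sCO) (h3 : sVOL) {Y : ℝ} {R : Set (ℝ × ℝ)} (hR : MeasurableSet R)
    (hsub : R ⊆ R0 Y) : ∃ l : HD →L[ℂ] ℂ, ∀ u : HD, l u = ∫ z in Bs R, (z.im : ℂ) ^ 2 * u z ∂muD := by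
  have hfin : IsFiniteMeasure muD := ⟨by
    unfold muD
    rw [Measure.restrict_apply_univ]
    exact h3.1⟩
  have hBm := Bs_meas hR h2
  have hmi : Measurable (fun z : ℍ => (z.im : ℂ) ^ 2) := by
    have : Continuous (fun z : ℍ => z.im) := UpperHalfPlane.continuous_im
    exact ((Complex.continuous_ofReal.comp this).pow 2).measurable
  have hg : MemLp ((Bs R).indicator (fun z : ℍ => (z.im : ℂ) ^ 2)) 2 muD := by
    refine MemLp.of_bound ((hmi.indicator hBm).aestronglyMeasurable) ((1 + |Y|) ^ 2) ?_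
    refine Eventually.of_forall fun z => ?_
    by_cases hz : z ∈ Bs R
    · rw [indicator_of_mem hz, norm_pow, Complex.norm_real, Real.norm_of_nonneg z.im_pos.le]
      have h4 := (hsub hz).2.2
      simp only at h4
      have h5 := aa_le z.re
      have h6 := le_abs_self Y
      exact pow_le_pow_left₀ z.im_pos.le (by linarith) 2
    · rw [indicator_of_notMem hz, norm_zero]
      positivity
  refine ⟨innerSL ℂ (hg.toLp _), fun u => ?_⟩
  rw [innerSL_apply_apply, L2.inner_def, ← integral_indicator hBm]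
  refine integral_congr_ae ?_
  filter_upwards [hg.coeFn_toLp] with z hz
  rw [hz]
  by_cases h : z ∈ Bs R
  · rw [indicator_of_mem h, indicator_of_mem h]
    simp [RCLike.inner_apply, mul_comm]
  · rw [indicator_of_notMem h, indicator_of_notMem h, inner_zero_left]

theorem Cl_sub {Y : ℝ} (hY : 0 < Y) {N : ℕ} (hN : 0 < N) (q : Fin N × Fin N) :
    Cl (-(1 / 2)) (1 / N) 0 (Y / N) q ⊆ R0 Y ∧
      MeasurableSet (Cl (-(1 / 2)) (1 / N) 0 (Y / N) q) := by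
  have hN0 : (0 : ℝ) < N := by exact_mod_cast hN
  refine ⟨?_, measurableSet_Ioc.prod measurableSet_Ioc⟩
  have hq1 : ((q.1 : ℕ) : ℝ) + 1 ≤ N := by exact_mod_cast q.1.2
  have hq2 : ((q.2 : ℕ) : ℝ) + 1 ≤ N := by exact_mod_cast q.2.2
  refine prod_mono (Ioc_subset_Ioc ?_ ?_) (Ioc_subset_Ioc ?_ ?_)
  · have : (0 : ℝ) ≤ ((q.1 : ℕ) : ℝ) * (1 / N) := by positivity
    linarith
  · have h6 : (((q.1 : ℕ) : ℝ) + 1) * (1 / N) ≤ N * (1 / N) :=
      mul_le_mul_of_nonneg_right hq1 (by positivity)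
    have h7 : (N : ℝ) * (1 / N) = 1 := by field_simp
    linarith
  · positivity
  · have h6 : (((q.2 : ℕ) : ℝ) + 1) * (Y / N) ≤ N * (Y / N) :=
      mul_le_mul_of_nonneg_right hq2 (by positivity)
    have h7 : (N : ℝ) * (Y / N) = Y := by field_simp
    linarith

/-- the inequality for functions of the core -/
theorem core_est (h2 : sCO) (h3 : sVOL) (h5 : sCM) {f : ℍ → ℂ} (hf : Core f) {Y : ℝ} (hY : 0 < Y)
    {N : ℕ} (hN : 0 < N) :
    ∫ z in Bs (R0 Y), ‖f z‖ ^ 2 ∂muD ≤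
      16 / 3 * (1 + Y ^ 2) / N ^ 2 * (∫ z, (‖gx f z‖ ^ 2 + ‖gy f z‖ ^ 2) ∂muD) +
      16 * N ^ 2 / (3 * Y) * ∑ q : Fin N × Fin N,
        ‖∫ z in Bs (Cl (-(1 / 2)) (1 / N) 0 (Y / N) q), (z.im : ℂ) ^ 2 * f z ∂muD‖ ^ 2 := by
  have hfin : IsFiniteMeasure muD := ⟨by
    unfold muD
    rw [Measure.restrict_apply_univ]
    exact h3.1⟩
  have hN0 : (0 : ℝ) < N := by exact_mod_cast hN
  have hSm := hf.sm
  have eR : Ioc (-(1 / 2) : ℝ) (-(1 / 2) + N * (1 / N)) ×ˢ Ioc (0 : ℝ) (0 + N * (Y / N)) = R0 Y := by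
    have e1 : -(1 / 2 : ℝ) + N * (1 / N) = 1 / 2 := by
      field_simp
      norm_num
    have e2 : (0 : ℝ) + N * (Y / N) = Y := by
      field_simp
      ring
    rw [e1, e2]
    rfl
  have intE : ∀ {E : Type} [NormedAddCommGroup E] (F : ℝ × ℝ → E),
      ContinuousOn F (Icc (-(1 / 2)) (1 / 2) ×ˢ Icc 0 Y) → IntegrableOn F (R0 Y) := by
    intro E _ F hF
    exact (hF.integrableOn_compact (isCompact_Icc.prod isCompact_Icc)).mono_set
      (prod_mono Ioc_subset_Icc_self Ioc_subset_Icc_self)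
  have hle : (-(1 / 2) : ℝ) ≤ -(1 / 2) := le_rfl
  have ck := kk_c hSm hle (le_refl (1 / 2 : ℝ)) (le_refl (0 : ℝ)) (d := Y)
  have cx := dX_c hSm hle (le_refl (1 / 2 : ℝ)) (le_refl (0 : ℝ)) (d := Y)
  have cy := dY_c hSm hle (le_refl (1 / 2 : ℝ)) (le_refl (0 : ℝ)) (d := Y)
  have cE : ContinuousOn (fun p => ‖dX f p‖ ^ 2 + ‖dY f p‖ ^ 2)
    (Icc (-(1 / 2)) (1 / 2) ×ˢ Icc 0 Y) := (cx.norm.pow 2).add (cy.norm.pow 2)
  have ck2 : ContinuousOn (fun p => ‖kk f p‖ ^ 2) (Icc (-(1 / 2)) (1 / 2) ×ˢ Icc 0 Y) :=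
    ck.norm.pow 2
  -- the left side
  have s1 : ∫ z in Bs (R0 Y), ‖f z‖ ^ 2 ∂muD ≤ 4 / 3 * ∫ p in R0 Y, ‖kk f p‖ ^ 2 := by
    rw [transferD h2 _ (R0_meas Y) (R0_sub Y), ← integral_const_mul]
    refine integral_mono_of_nonneg ?_ ((intE _ ck2).const_mul _) ?_
    · refine Eventually.of_forall fun p => ?_
      change (0 : ℝ) ≤ (1 / (aa p.1 + p.2) ^ 2) * ‖f (pt p.1 (aa p.1 + p.2))‖ ^ 2
      positivity
    · refine (ae_restrict_iff' (R0_meas Y)).2 (Eventually.of_forall fun p hp => ?_)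
      have h6 := R0_pos hp
      have h7 : 1 / (aa p.1 + p.2) ^ 2 ≤ 4 / 3 := by
        rw [div_le_div_iff₀ (by linarith) (by norm_num)]
        linarith
      simp only [smul_eq_mul]
      exact mul_le_mul_of_nonneg_right h7 (by positivity)
  -- the energy
  have ptc : ∀ p ∈ R0 Y, ((pt p.1 (aa p.1 + p.2) : ℍ) : ℂ) = W p := by
    intro p hp
    rw [pt_coe _ _ (R0_pos hp).2.2.2]
    rfl
  have s2 : ∫ p in R0 Y, (‖dX f p‖ ^ 2 + ‖dY f p‖ ^ 2) ≤
      ∫ z, (‖gx f z‖ ^ 2 + ‖gy f z‖ ^ 2) ∂muD := by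
    have h6 : ∫ p in R0 Y, (‖dX f p‖ ^ 2 + ‖dY f p‖ ^ 2) =
        ∫ z in Bs (R0 Y), (‖gx f z‖ ^ 2 + ‖gy f z‖ ^ 2) ∂muD := by
      rw [transferD h2 _ (R0_meas Y) (R0_sub Y)]
      refine setIntegral_congr_fun (R0_meas Y) fun p hp => ?_
      have h7 := R0_pos hp
      simp only [gx, gy, smul_eq_mul]
      rw [ptc p hp, (h2.2.1 _ _ h7.2.2.2).2, norm_mul, norm_mul, Complex.norm_real,
        Real.norm_of_nonneg h7.2.2.2.le]
      have h8 := h7.2.2.2.ne'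
      simp only [dX, dY]
      field_simp
    rw [h6]
    refine setIntegral_le_integral ?_ (Eventually.of_forall fun z => by
      simp only [Pi.zero_apply]
      positivity)
    obtain ⟨C, hC⟩ := hf.bdd
    obtain ⟨c1, c2, c3, c4⟩ := h5 f hSm
    refine (integrable_const (C ^ 2 + C ^ 2)).mono' ((c2.norm.pow 2).add
      (c3.norm.pow 2)).aestronglyMeasurable ?_
    unfold muD
    refine (ae_restrict_iff' h3.2.1).2 (Eventually.of_forall fun z hz => ?_)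
    obtain ⟨-, h8, h9⟩ := hC z hz
    rw [Real.norm_of_nonneg (by positivity)]
    have h10 := norm_nonneg (gx f z)
    have h11 := norm_nonneg (gy f z)
    nlinarith
  -- the cells
  have s3 : ∫ p in R0 Y, ‖kk f p‖ ^ 2 = ∑ q : Fin N × Fin N,
      ∫ p in Cl (-(1 / 2)) (1 / N) 0 (Y / N) q, ‖kk f p‖ ^ 2 := by
    rw [← eR]
    exact sum_cells _ _ _ _ _ (by positivity) (by positivity) N (by rw [eR]; exact intE _ ck2)
  have s4 : ∫ p in R0 Y, (‖dX f p‖ ^ 2 + ‖dY f p‖ ^ 2) = ∑ q : Fin N × Fin N,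
      ∫ p in Cl (-(1 / 2)) (1 / N) 0 (Y / N) q, (‖dX f p‖ ^ 2 + ‖dY f p‖ ^ 2) := by
    rw [← eR]
    exact sum_cells _ _ _ _ _ (by positivity) (by positivity) N (by rw [eR]; exact intE _ cE)
  have hCl := fun q : Fin N × Fin N => Cl_sub hY hN q
  have s5 : ∀ q : Fin N × Fin N, ∫ p in Cl (-(1 / 2)) (1 / N) 0 (Y / N) q, ‖kk f p‖ ^ 2 ≤
      4 * (1 + Y ^ 2) / N ^ 2 *
        (∫ p in Cl (-(1 / 2)) (1 / N) 0 (Y / N) q, (‖dX f p‖ ^ 2 + ‖dY f p‖ ^ 2)) +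
      4 * N ^ 2 / Y * ‖∫ z in Bs (Cl (-(1 / 2)) (1 / N) 0 (Y / N) q),
        (z.im : ℂ) ^ 2 * f z ∂muD‖ ^ 2 := by
    intro q
    have hq1 : ((q.1 : ℕ) : ℝ) + 1 ≤ N := by exact_mod_cast q.1.2
    have hN1 : (0 : ℝ) < 1 / N := by positivity
    have hYN : (0 : ℝ) < Y / N := by positivity
    have h6 := cellf hSm (a := -(1 / 2) + (q.1 : ℕ) * (1 / N))
      (b := -(1 / 2) + ((q.1 : ℕ) + 1) * (1 / N)) (c := 0 + (q.2 : ℕ) * (Y / N))
      (d := 0 + ((q.2 : ℕ) + 1) * (Y / N))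
      (by
        have : (0 : ℝ) ≤ ((q.1 : ℕ) : ℝ) * (1 / N) := by positivity
        linarith)
      (by
        have h6 : (((q.1 : ℕ) : ℝ) + 1) * (1 / N) ≤ N * (1 / N) :=
          mul_le_mul_of_nonneg_right hq1 (by positivity)
        have h7 : (N : ℝ) * (1 / N) = 1 := by field_simp
        linarith)
      (by positivity) (by linarith) (by linarith)
    have e1 : -(1 / 2 : ℝ) + ((q.1 : ℕ) + 1) * (1 / N) - (-(1 / 2) + (q.1 : ℕ) * (1 / N)) = 1 / N := by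
      ring
    have e2 : (0 : ℝ) + ((q.2 : ℕ) + 1) * (Y / N) - (0 + (q.2 : ℕ) * (Y / N)) = Y / N := by
      ring
    rw [e1, e2] at h6
    have e3 : ∫ z in Bs (Cl (-(1 / 2)) (1 / N) 0 (Y / N) q), (z.im : ℂ) ^ 2 * f z ∂muD =
        ∫ p in Cl (-(1 / 2)) (1 / N) 0 (Y / N) q, kk f p := by
      rw [transferD h2 _ (hCl q).2 ((hCl q).1.trans (R0_sub Y))]
      refine setIntegral_congr_fun (hCl q).2 fun p hp => ?_
      have h7 := R0_pos ((hCl q).1 hp)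
      rw [(h2.2.1 _ _ h7.2.2.2).2, Complex.real_smul]
      have h8 : f (pt p.1 (aa p.1 + p.2)) = kk f p := rfl
      rw [h8]
      have h9 : ((aa p.1 + p.2 : ℝ) : ℂ) ≠ 0 := by
        exact_mod_cast h7.2.2.2.ne'
      push_cast at h9 ⊢
      field_simp
    rw [e3]
    have e4 : 4 * (1 / (N : ℝ)) ^ 2 + 4 * (Y / N) ^ 2 = 4 * (1 + Y ^ 2) / N ^ 2 := by
      field_simp
    have e5 : 4 / (1 / (N : ℝ) * (Y / N)) = 4 * N ^ 2 / Y := by
      field_simp
    rw [e4, e5] at h6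
    exact h6
  have s6 := Finset.sum_le_sum fun q (_ : q ∈ Finset.univ) => s5 q
  rw [← s3, Finset.sum_add_distrib, ← Finset.mul_sum, ← Finset.mul_sum, ← s4] at s6
  have s7 := mul_le_mul_of_nonneg_left s2 (show 0 ≤ 4 * (1 + Y ^ 2) / (N : ℝ) ^ 2 by positivity)
  have s8 := mul_le_mul_of_nonneg_left (s6.trans (add_le_add_left s7 _)) (show (0 : ℝ) ≤ 4 / 3 by norm_num)
  refine s1.trans (s8.trans (le_of_eq ?_))
  ring

theorem sqn {α : Type} [MeasurableSpace α] {μ : Measure α} (u : Lp ℂ 2 μ) :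
    ∫ z, ‖u z‖ ^ 2 ∂μ = ‖u‖ ^ 2 := by
  have h1 : ((‖u‖ ^ 2 : ℝ) : ℂ) = inner ℂ u u := by
    rw [inner_self_eq_norm_sq_to_K]
    norm_cast
  rw [L2.inner_def] at h1
  have h2 : ∫ a, inner ℂ (u a) (u a) ∂μ = ((∫ a, ‖u a‖ ^ 2 ∂μ : ℝ) : ℂ) := by
    rw [← integral_complex_ofReal]
    refine integral_congr_ae (Eventually.of_forall fun a => ?_)
    simp only
    rw [inner_self_eq_norm_sq_to_K]
    norm_cast
  rw [h2] at h1
  exact_mod_cast h1.symm

end SCELL_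

open SCELL_ in
theorem pCELL (h1 : sVSUB) (h2 : sCO) (h3 : sVOL) (h5 : sCM) : sCELL := by
  intro Y ε hY hε
  obtain ⟨N, hN⟩ := exists_nat_gt (16 / 3 * (1 + Y ^ 2) / ε + 1)
  have hp : 0 < 16 / 3 * (1 + Y ^ 2) / ε := by positivity
  have hN1 : (1 : ℝ) < N := by linarith
  have hN0 : 0 < N := by
    have : (0 : ℝ) < N := by linarith
    exact_mod_cast this
  have hNε : 16 / 3 * (1 + Y ^ 2) / (N : ℝ) ^ 2 ≤ ε := by
    rw [div_le_iff₀ (by positivity)]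
    have h6 : 16 / 3 * (1 + Y ^ 2) / ε < N := by linarith
    rw [div_lt_iff₀ hε] at h6
    nlinarith
  have hCl := fun q : Fin N × Fin N => Cl_sub (show 0 < Y by linarith) hN0 q
  have hL : ∀ q : Fin N × Fin N, ∃ l : HD →L[ℂ] ℂ, ∀ u : HD, l u =
      ∫ z in Bs (Cl (-(1 / 2)) (1 / N) 0 (Y / N) q), (z.im : ℂ) ^ 2 * u z ∂muD := fun q =>
    func h2 h3 (hCl q).2 (hCl q).1
  choose L hL using hL
  set c : ℝ := √(16 * N ^ 2 / (3 * Y)) with hc
  have hc2 : c ^ 2 = 16 * N ^ 2 / (3 * Y) := Real.sq_sqrt (by positivity)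
  have hc0 : 0 ≤ c := Real.sqrt_nonneg _
  refine ⟨N * N, fun i => (c : ℂ) • L (finProdFinEquiv.symm i), ?_⟩
  have hsum : ∀ u : HD, ∑ i : Fin (N * N), ‖((c : ℂ) • L (finProdFinEquiv.symm i)) u‖ ^ 2 =
      16 * N ^ 2 / (3 * Y) * ∑ q : Fin N × Fin N, ‖L q u‖ ^ 2 := by
    intro u
    rw [Finset.mul_sum, ← Equiv.sum_comp finProdFinEquiv.symm]
    refine Finset.sum_congr rfl fun i _ => ?_
    rw [smul_apply, norm_smul, Complex.norm_real, Real.norm_of_nonneg hc0,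
      mul_pow, hc2]
  have hfin : IsFiniteMeasure muD := ⟨by
    unfold muD
    rw [Measure.restrict_apply_univ]
    exact h3.1⟩
  have hYm : MeasurableSet {z : ℍ | z.im ≤ Y} :=
    measurableSet_le UpperHalfPlane.continuous_im.measurable measurable_const
  have hB0 := Bs_meas (R0_meas Y) h2
  have hAB : ∀ z ∈ Dm, z ∈ {z : ℍ | z.im ≤ Y} → z ∈ Bs (R0 Y) := by
    intro z hz hzY
    obtain ⟨h6, h7⟩ := (memDm z).1 hz
    rw [abs_lt] at h6
    have h8 : 0 ≤ aa z.re := Real.sqrt_nonneg _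
    have h9 : z.im ≤ Y := hzY
    exact ⟨⟨h6.1, h6.2.le⟩, h7, by simp only; linarith⟩
  -- the core
  have hcore : ∀ v ∈ VS, ∫ z in {z : ℍ | z.im ≤ Y}, ‖pr v z‖ ^ 2 ∂muD ≤
      ε * En v + ∑ i : Fin (N * N), ‖((c : ℂ) • L (finProdFinEquiv.symm i)) (pr v)‖ ^ 2 := by
    rintro v ⟨f, hf, hvf⟩
    obtain ⟨v', -, h6, h7, h8⟩ := h1.2.2.1 f hf
    have h9 : v' = v := Lp.ext (h6.trans hvf.symm)
    rw [h9] at h7 h8
    have h10 := core_est h2 h3 h5 hf (show 0 < Y by linarith) hN0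
    have h11 : ∫ z in {z : ℍ | z.im ≤ Y}, ‖pr v z‖ ^ 2 ∂muD ≤ ∫ z in Bs (R0 Y), ‖f z‖ ^ 2 ∂muD := by
      have e1 : ∫ z in Bs (R0 Y), ‖f z‖ ^ 2 ∂muD = ∫ z in Bs (R0 Y), ‖pr v z‖ ^ 2 ∂muD := by
        refine integral_congr_ae ?_
        filter_upwards [ae_restrict_of_ae h7] with z hz
        rw [hz]
      rw [e1]
      refine setIntegral_mono_set ?_ (Eventually.of_forall fun z => by positivity) ?_
      · exact ((Lp.memLp (pr v)).integrable_norm_pow (by norm_num)).integrableOn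
      · unfold muD
        refine (ae_restrict_iff' h3.2.1).2 (Eventually.of_forall fun z hz => ?_)
        exact hAB z hz
    rw [hsum]
    have e2 : ∀ q : Fin N × Fin N, L q (pr v) =
        ∫ z in Bs (Cl (-(1 / 2)) (1 / N) 0 (Y / N) q), (z.im : ℂ) ^ 2 * f z ∂muD := by
      intro q
      rw [hL]
      refine integral_congr_ae ?_
      filter_upwards [ae_restrict_of_ae h7] with z hz
      rw [hz]
    simp only [e2]
    rw [← h8] at h10
    have h12 : 0 ≤ En v := integral_nonneg fun z => by positivity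
    have h13 := mul_le_mul_of_nonneg_right hNε h12
    linarith
  intro v hv
  have e1 : ∫ z in {z : ℍ | z ∈ Dm ∧ z.im ≤ Y}, ‖pr v z‖ ^ 2 =
      ∫ z in {z : ℍ | z.im ≤ Y}, ‖pr v z‖ ^ 2 ∂muD := by
    unfold muD
    rw [Measure.restrict_restrict hYm]
    have : {z : ℍ | z ∈ Dm ∧ z.im ≤ Y} = {z : ℍ | z.im ≤ Y} ∩ Dm := by
      ext z
      simp only [mem_ofPred_eq, mem_inter_iff]
      tauto
    rw [this]
  rw [e1]
  have e3 : ∀ v : H3, ∫ z in {z : ℍ | z.im ≤ Y}, ‖pr v z‖ ^ 2 ∂muD =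
      ‖LpToLpRestrictCLM ℍ ℂ ℂ muD 2 {z : ℍ | z.im ≤ Y} (pr v)‖ ^ 2 := by
    intro v
    rw [← sqn]
    refine integral_congr_ae ?_
    filter_upwards [LpToLpRestrictCLM_coeFn ℂ {z : ℍ | z.im ≤ Y} (pr v)] with z hz
    rw [hz]
  have e4 : ∀ v : H3, En v = ‖v‖ ^ 2 - 6 * ‖pr v‖ ^ 2 := by
    intro v
    rw [h1.2.1 v]
    ring
  have hcl : IsClosed {v : H3 | ‖LpToLpRestrictCLM ℍ ℂ ℂ muD 2 {z : ℍ | z.im ≤ Y} (pr v)‖ ^ 2 ≤
      ε * (‖v‖ ^ 2 - 6 * ‖pr v‖ ^ 2) +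
        ∑ i : Fin (N * N), ‖((c : ℂ) • L (finProdFinEquiv.symm i)) (pr v)‖ ^ 2} := by
    refine isClosed_le (by fun_prop) (by fun_prop)
  have hsub : closure VS ⊆ {v : H3 | ‖LpToLpRestrictCLM ℍ ℂ ℂ muD 2 {z : ℍ | z.im ≤ Y} (pr v)‖ ^ 2 ≤
      ε * (‖v‖ ^ 2 - 6 * ‖pr v‖ ^ 2) +
        ∑ i : Fin (N * N), ‖((c : ℂ) • L (finProdFinEquiv.symm i)) (pr v)‖ ^ 2} := by
    refine closure_minimal ?_ hcl
    intro w hw
    have h6 := hcore w hw
    rw [e3, e4] at h6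
    exact h6
  have h7 := hsub hv
  rw [e3, e4]
  exact h7

end FMZ
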