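import Pool.Agent.FMZ.STargets

/-!
# FMZ-S-POI: weighted Poincaré inequality in the horn
-/

open Complex MeasureTheory Set Filter Topology
open UpperHalfPlane hiding I
open scoped ENNReal InnerProductSpace

namespace FMZ

namespace SPOI_

/-- the interval -/
abbrev J : Set ℝ := Ioo (-(1 / 2) : ℝ) (1 / 2)

lemma volJ : volume J = 1 := by
  rw [Real.volume_Ioo]; norm_num

instance : IsProbabilityMeasure (volume.restrict J) :=
  ⟨by rw [Measure.restrict_apply_univ]; exact volJ⟩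

lemma pt_mem (h : sCO) {x y : ℝ} (hx : x ∈ J) (hy : 1 < y) : pt x y ∈ Dh := by
  obtain ⟨-, h2, -⟩ := h
  obtain ⟨e1, e2⟩ := h2 x y (by linarith)
  refine ⟨?_, ?_⟩
  · rw [e1]; exact abs_lt.mpr ⟨by linarith [hx.1], hx.2⟩
  · rw [e2]; exact hy

lemma pre : (fun z : ℍ => (z.re, z.im)) ⁻¹' (J ×ˢ Ioi (1 : ℝ)) = Dh := by
  ext z
  simp only [mem_preimage, mem_prod, mem_Ioo, mem_Ioi, Dh, mem_ofPred_eq, abs_lt]

/-- integral over the horn in coordinates -/
lemma lint (h : sCO) {H : ℝ × ℝ → ℝ≥0∞} (hH : Measurable H) :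
    ∫⁻ z in Dh, H (z.re, z.im) =
      ∫⁻ y in Ioi (1 : ℝ), ∫⁻ x in J, ENNReal.ofReal (1 / y ^ 2) * H (x, y) := by
  obtain ⟨-, -, -, -, hmp⟩ := h
  have hS : MeasurableSet (J ×ˢ Ioi (1 : ℝ)) := measurableSet_Ioo.prod measurableSet_Ioi
  have hd : Measurable fun p : ℝ × ℝ => ENNReal.ofReal (1 / p.2 ^ 2) := by fun_prop
  have h1 := hmp.setLIntegral_comp_preimage hS hH
  rw [pre] at h1
  rw [h1, setLIntegral_withDensity_eq_setLIntegral_mul _ hd hH hS,
    Measure.restrict_restrict hS]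
  have h2 : J ×ˢ Ioi (1 : ℝ) ∩ {p : ℝ × ℝ | 0 < p.2} = J ×ˢ Ioi (1 : ℝ) := by
    apply inter_eq_left.mpr
    intro p hp
    have : (1 : ℝ) < p.2 := hp.2
    exact lt_trans zero_lt_one this
  rw [h2, Measure.volume_eq_prod, ← Measure.prod_restrict, lintegral_prod_symm' _ (hd.mul hH)]
  rfl

/-- almost everywhere statements in coordinates -/
lemma aec (h : sCO) (h' : sVOL) {P : ℍ → Prop} (hP : ∀ᵐ z ∂((volume : Measure ℍ).restrict Dh), P z) :
    ∀ᵐ y ∂((volume : Measure ℝ).restrict (Ioi (1 : ℝ))), ∀ᵐ x ∂((volume : Measure ℝ).restrict J),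
      P (pt x y) := by
  have hco := h
  obtain ⟨hpt, hri, -, hemb, hmp⟩ := h
  obtain ⟨-, -, hDh, -⟩ := h'
  rw [ae_restrict_iff' hDh] at hP
  have hd : Measurable fun p : ℝ × ℝ => ENNReal.ofReal (1 / p.2 ^ 2) := by fun_prop
  have hS : MeasurableSet {p : ℝ × ℝ | 0 < p.2} := measurableSet_lt measurable_const measurable_snd
  have h1 := (hemb.ae_map_iff (μ := (volume : Measure ℍ))
    (p := fun p : ℝ × ℝ => (pt p.1 p.2 ∈ Dh → P (pt p.1 p.2)))).2 (by
      filter_upwards [hP] with z hz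
      simp only [hpt]
      exact hz)
  rw [hmp.map_eq, ae_withDensity_iff hd, ae_restrict_iff' hS,
    Measure.volume_eq_prod] at h1
  have h2 := (Measure.measurePreserving_swap (μ := (volume : Measure ℝ))
    (ν := (volume : Measure ℝ))).quasiMeasurePreserving.ae h1
  have h3 := Measure.ae_ae_of_ae_prod h2
  rw [ae_restrict_iff' measurableSet_Ioi]
  filter_upwards [h3] with y hy hy1
  rw [ae_restrict_iff' measurableSet_Ioo]
  filter_upwards [hy] with x hx hxJ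
  have hy0 : 0 < y := lt_trans zero_lt_one hy1
  apply hx
  · exact hy0
  · simp only [Prod.snd_swap, ne_eq, ENNReal.ofReal_eq_zero, not_le]
    positivity
  · exact pt_mem hco hxJ hy1

/-- the quadratic functional -/
noncomputable def Qf (u : ℍ → ℂ) : ℝ≥0∞ :=
  ∫⁻ y in Ioi (1 : ℝ), ∫⁻ x in J, ∫⁻ x' in J, ‖u (pt x y) - u (pt x' y)‖ₑ ^ 2

lemma meas3 (h : sCO) {u : ℍ → ℂ} (hu : Measurable u) :
    Measurable fun p : (ℝ × ℝ) × ℝ => ‖u (pt p.1.2 p.1.1) - u (pt p.2 p.1.1)‖ₑ ^ 2 := by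
  obtain ⟨-, -, hm, -⟩ := h
  have h1 : Measurable fun p : (ℝ × ℝ) × ℝ => u (pt p.1.2 p.1.1) :=
    hu.comp (hm.comp (by fun_prop : Measurable fun p : (ℝ × ℝ) × ℝ => ((p.1.2, p.1.1) : ℝ × ℝ)))
  have h2 : Measurable fun p : (ℝ × ℝ) × ℝ => u (pt p.2 p.1.1) :=
    hu.comp (hm.comp (by fun_prop : Measurable fun p : (ℝ × ℝ) × ℝ => ((p.2, p.1.1) : ℝ × ℝ)))
  exact ((h1.sub h2).enorm).pow_const 2

lemma meas2 (h : sCO) {u : ℍ → ℂ} (hu : Measurable u) :
    Measurable fun p : ℝ × ℝ => ∫⁻ x' in J, ‖u (pt p.2 p.1) - u (pt x' p.1)‖ₑ ^ 2 :=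
  (meas3 h hu).lintegral_prod_right'

lemma meas1 (h : sCO) {u : ℍ → ℂ} (hu : Measurable u) :
    Measurable fun y : ℝ => ∫⁻ x in J, ∫⁻ x' in J, ‖u (pt x y) - u (pt x' y)‖ₑ ^ 2 :=
  (meas2 h hu).lintegral_prod_right'

lemma measa (h : sCO) {u : ℍ → ℂ} (hu : Measurable u) (y x : ℝ) :
    Measurable fun x' : ℝ => ‖u (pt x y) - u (pt x' y)‖ₑ ^ 2 := by
  obtain ⟨-, -, hm, -⟩ := h
  have h2 : Measurable fun x' : ℝ => u (pt x' y) :=
    hu.comp (hm.comp (by fun_prop : Measurable fun x' : ℝ => ((x', y) : ℝ × ℝ)))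
  exact ((measurable_const.sub h2).enorm).pow_const 2

lemma measb (h : sCO) {u : ℍ → ℂ} (hu : Measurable u) (y : ℝ) :
    Measurable fun x : ℝ => ∫⁻ x' in J, ‖u (pt x y) - u (pt x' y)‖ₑ ^ 2 := by
  obtain ⟨-, -, hm, -⟩ := h
  have h1 : Measurable fun p : ℝ × ℝ => u (pt p.1 y) :=
    hu.comp (hm.comp (by fun_prop : Measurable fun p : ℝ × ℝ => ((p.1, y) : ℝ × ℝ)))
  have h2 : Measurable fun p : ℝ × ℝ => u (pt p.2 y) :=
    hu.comp (hm.comp (by fun_prop : Measurable fun p : ℝ × ℝ => ((p.2, y) : ℝ × ℝ)))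
  have h3 : Measurable fun p : ℝ × ℝ => ‖u (pt p.1 y) - u (pt p.2 y)‖ₑ ^ 2 :=
    ((h1.sub h2).enorm).pow_const 2
  exact h3.lintegral_prod_right'

lemma fatou3 {α β γ : Type*} [MeasurableSpace α] [MeasurableSpace β] [MeasurableSpace γ]
    {μ : Measure α} {ν : Measure β} {ρ : Measure γ} (F : ℕ → α → β → γ → ℝ≥0∞)
    (G : α → β → γ → ℝ≥0∞) (m0 : ∀ n y x, Measurable (F n y x))
    (m1 : ∀ n y, Measurable fun x => ∫⁻ z, F n y x z ∂ρ)
    (m2 : ∀ n, Measurable fun y => ∫⁻ x, ∫⁻ z, F n y x z ∂ρ ∂ν)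
    (hle : ∀ᵐ y ∂μ, ∀ᵐ x ∂ν, ∀ᵐ z ∂ρ, G y x z ≤ liminf (fun n => F n y x z) atTop) :
    ∫⁻ y, ∫⁻ x, ∫⁻ z, G y x z ∂ρ ∂ν ∂μ ≤
      liminf (fun n => ∫⁻ y, ∫⁻ x, ∫⁻ z, F n y x z ∂ρ ∂ν ∂μ) atTop := by
  have h0 : ∀ᵐ y ∂μ, ∀ᵐ x ∂ν, ∫⁻ z, G y x z ∂ρ ≤ liminf (fun n => ∫⁻ z, F n y x z ∂ρ) atTop := by
    filter_upwards [hle] with y hy
    filter_upwards [hy] with x hx
    exact (lintegral_mono_ae hx).trans (lintegral_liminf_le (fun n => m0 n y x))
  have h1 : ∀ᵐ y ∂μ, ∫⁻ x, ∫⁻ z, G y x z ∂ρ ∂ν ≤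
      liminf (fun n => ∫⁻ x, ∫⁻ z, F n y x z ∂ρ ∂ν) atTop := by
    filter_upwards [h0] with y hy
    exact (lintegral_mono_ae hy).trans (lintegral_liminf_le (fun n => m1 n y))
  exact (lintegral_mono_ae h1).trans (lintegral_liminf_le m2)

/-- lower semicontinuity -/
lemma Q_fatou (h : sCO) (h' : sVOL) {f : ℕ → ℍ → ℂ} {u : ℍ → ℂ} (hf : ∀ n, Measurable (f n))
    (hc : ∀ᵐ z ∂((volume : Measure ℍ).restrict Dh), Tendsto (fun n => f n z) atTop (𝓝 (u z))) :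
    Qf u ≤ liminf (fun n => Qf (f n)) atTop := by
  have h1 := aec h h' hc
  unfold Qf
  apply fatou3 (fun n y x x' => ‖f n (pt x y) - f n (pt x' y)‖ₑ ^ 2)
    (fun y x x' => ‖u (pt x y) - u (pt x' y)‖ₑ ^ 2)
  · intro n y x
    exact measa h (hf n) y x
  · intro n y
    exact measb h (hf n) y
  · intro n
    exact meas1 h (hf n)
  · filter_upwards [h1] with y hy
    filter_upwards [hy] with x hx
    filter_upwards [hy] with x' hx'
    have h2 : Tendsto (fun n => ‖f n (pt x y) - f n (pt x' y)‖ₑ ^ 2) atTop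
        (𝓝 (‖u (pt x y) - u (pt x' y)‖ₑ ^ 2)) :=
      ENNReal.Tendsto.pow ((hx.sub hx').enorm)
    exact h2.liminf_eq.ge

/-- variance -/
lemma var {g : ℝ → ℂ} (hg : Measurable g) (hg2 : ∫⁻ x in J, ‖g x‖ₑ ^ 2 ≠ ∞)
    (h0 : ∫ x in J, g x = 0) :
    2 * ∫⁻ x in J, ‖g x‖ₑ ^ 2 = ∫⁻ x in J, ∫⁻ x' in J, ‖g x - g x'‖ₑ ^ 2 := by
  have hL : MemLp g 2 (volume.restrict J) := by
    refine ⟨hg.aestronglyMeasurable, ?_⟩
    rw [eLpNorm_lt_top_iff_lintegral_rpow_enorm_lt_top (by norm_num) (by norm_num)]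
    simp only [ENNReal.toReal_ofNat, ENNReal.rpow_ofNat]
    exact lt_top_iff_ne_top.mpr hg2
  have hi : Integrable g (volume.restrict J) := hL.integrable (by norm_num)
  have hsq : Integrable (fun x => ‖g x‖ ^ 2) (volume.restrict J) :=
    hL.integrable_norm_pow (by norm_num)
  set N : ℝ := ∫ x in J, ‖g x‖ ^ 2 with hN
  have hN0 : 0 ≤ N := integral_nonneg fun x => by positivity
  have hen : ∀ a : ℂ, ‖a‖ₑ ^ 2 = ENNReal.ofReal (‖a‖ ^ 2) := by
    intro a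
    rw [ENNReal.ofReal_pow (norm_nonneg _), ofReal_norm]
  have hNl : ∫⁻ x in J, ‖g x‖ₑ ^ 2 = ENNReal.ofReal N := by
    rw [hN, ofReal_integral_eq_lintegral_ofReal hsq (Eventually.of_forall fun x => by positivity)]
    simp only [hen]
  have hin : ∀ x, ∫⁻ x' in J, ‖g x - g x'‖ₑ ^ 2 = ‖g x‖ₑ ^ 2 + ENNReal.ofReal N := by
    intro x
    have h1 : ∀ x', ‖g x - g x'‖ ^ 2 = ‖g x‖ ^ 2 - 2 * ⟪g x, g x'⟫_ℝ + ‖g x'‖ ^ 2 :=
      fun x' => norm_sub_sq_real _ _
    have hii : Integrable (fun x' => ⟪g x, g x'⟫_ℝ) (volume.restrict J) := hi.const_inner _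
    have h2 : Integrable (fun x' => ‖g x - g x'‖ ^ 2) (volume.restrict J) := by
      simp only [h1]
      exact ((integrable_const _).sub (hii.const_mul 2)).add hsq
    have h3 : ∫ x' in J, ‖g x - g x'‖ ^ 2 = ‖g x‖ ^ 2 + N := by
      simp only [h1]
      have hB : Integrable (fun x' => 2 * ⟪g x, g x'⟫_ℝ) (volume.restrict J) := hii.const_mul 2
      have hA : Integrable (fun x' => ‖g x‖ ^ 2 - 2 * ⟪g x, g x'⟫_ℝ) (volume.restrict J) :=
        (integrable_const _).sub hB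
      rw [integral_add hA hsq, integral_sub (integrable_const _) hB, integral_const_mul,
        integral_inner hi, h0, inner_zero_right]
      simp [hN]
    simp only [hen]
    rw [← ofReal_integral_eq_lintegral_ofReal h2 (Eventually.of_forall fun x => by positivity), h3,
      ENNReal.ofReal_add (by positivity) hN0]
  simp only [hin]
  rw [lintegral_add_right _ measurable_const, lintegral_const, hNl]
  simp
  ring

lemma sq_lint {g : ℝ → ℝ≥0∞} (hg : Measurable g) :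
    (∫⁻ x in J, g x) ^ 2 ≤ ∫⁻ x in J, g x ^ 2 := by
  have h1 := ENNReal.lintegral_mul_le_Lp_mul_Lq (volume.restrict J) Real.HolderConjugate.two_two
    hg.aemeasurable (measurable_const (a := (1 : ℝ≥0∞))).aemeasurable
  simp only [Pi.mul_apply, mul_one, lintegral_const, Measure.restrict_apply_univ,
    volJ, ENNReal.rpow_ofNat, one_pow, ENNReal.one_rpow] at h1
  calc (∫⁻ x in J, g x) ^ 2 ≤ ((∫⁻ x in J, g x ^ 2) ^ (1 / 2 : ℝ)) ^ 2 := by gcongr
    _ = ∫⁻ x in J, g x ^ 2 := by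
        rw [← ENNReal.rpow_natCast, ← ENNReal.rpow_mul]
        norm_num

lemma ftc {φ g : ℝ → ℂ} (hg : Continuous g) (hφ : ∀ s, HasDerivAt φ (g s) s) {x x' : ℝ}
    (hx : x ∈ J) (hx' : x' ∈ J) : ‖φ x - φ x'‖ₑ ^ 2 ≤ ∫⁻ s in J, ‖g s‖ₑ ^ 2 := by
  have h1 : ∫ s in x'..x, g s = φ x - φ x' :=
    intervalIntegral.integral_eq_sub_of_hasDerivAt (fun s _ => hφ s) (hg.intervalIntegrable _ _)
  have h2 : ‖φ x - φ x'‖ₑ ≤ ∫⁻ s in J, ‖g s‖ₑ := by
    rw [← h1, intervalIntegral.intervalIntegral_eq_integral_uIoc]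
    calc ‖(if x' ≤ x then 1 else -1 : ℝ) • ∫ s in uIoc x' x, g s‖ₑ
        = ‖∫ s in uIoc x' x, g s‖ₑ := by
          rw [enorm_smul]
          split_ifs <;> simp
      _ ≤ ∫⁻ s in uIoc x' x, ‖g s‖ₑ := enorm_integral_le_lintegral_enorm _
      _ ≤ ∫⁻ s in J, ‖g s‖ₑ := by
          apply lintegral_mono_set
          intro s hs
          rw [mem_uIoc] at hs
          rcases hs with hs | hs
          · exact ⟨lt_trans hx'.1 hs.1, lt_of_le_of_lt hs.2 hx.2⟩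
          · exact ⟨lt_trans hx.1 hs.1, lt_of_le_of_lt hs.2 hx'.2⟩
  calc ‖φ x - φ x'‖ₑ ^ 2 ≤ (∫⁻ s in J, ‖g s‖ₑ) ^ 2 := by gcongr
    _ ≤ _ := sq_lint hg.measurable.enorm

lemma Q_core (h : sCO) (hcm : sCM) {f : ℍ → ℂ} (hf : Sm f) :
    Qf f ≤ ∫⁻ z in Dh, ‖gx f z‖ₑ ^ 2 := by
  obtain ⟨-, hgx, -, -⟩ := hcm f hf
  have hco := h
  obtain ⟨hpt, hri, hptm, -, -⟩ := h
  have hm : Measurable fun p : ℝ × ℝ => ‖gx f (pt p.1 p.2)‖ₑ ^ 2 :=
    ((hgx.measurable.comp hptm).enorm).pow_const 2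
  have h1 := lint hco hm
  simp only [hpt] at h1
  rw [h1]
  unfold Qf
  apply setLIntegral_mono' measurableSet_Ioi
  intro y hy
  have hy0 : 0 < y := lt_trans zero_lt_one hy
  have hU : IsOpen {w : ℂ | 0 < w.im} := isOpen_lt continuous_const Complex.continuous_im
  have hfd : ContinuousOn (fderiv ℝ (ex f)) {w : ℂ | 0 < w.im} :=
    ContDiffOn.continuousOn_fderiv_of_isOpen hf hU (by exact_mod_cast le_top)
  set g : ℝ → ℂ := fun s => fderiv ℝ (ex f) ((s : ℂ) + y * I) 1 with hg_def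
  have him : ∀ s : ℝ, ((s : ℂ) + y * I) ∈ {w : ℂ | 0 < w.im} := by
    intro s
    simp [hy0]
  have hg : Continuous g := by
    have : Continuous fun s : ℝ => fderiv ℝ (ex f) ((s : ℂ) + y * I) :=
      hfd.comp_continuous (by fun_prop) him
    exact this.clm_apply continuous_const
  have hφ : ∀ s : ℝ, HasDerivAt (fun s : ℝ => f (pt s y)) (g s) s := by
    intro s
    have hd : HasFDerivAt (ex f) (fderiv ℝ (ex f) ((s : ℂ) + y * I)) ((s : ℂ) + y * I) := by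
      apply DifferentiableAt.hasFDerivAt
      exact (hf.differentiableOn (by simp)).differentiableAt (hU.mem_nhds (him s))
    have hl : HasDerivAt (fun s : ℝ => (s : ℂ) + y * I) 1 s :=
      (Complex.ofRealCLM.hasDerivAt (x := s)).add_const _
    exact hd.comp_hasDerivAt s hl
  have hK : ∀ s : ℝ, ENNReal.ofReal (1 / y ^ 2) * ‖gx f (pt s y)‖ₑ ^ 2 = ‖g s‖ₑ ^ 2 := by
    intro s
    obtain ⟨e1, e2⟩ := hri s y hy0
    have hcoe : ((pt s y : ℍ) : ℂ) = (s : ℂ) + y * I := by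
      apply Complex.ext
      · rw [UpperHalfPlane.coe_re, e1]; simp
      · rw [UpperHalfPlane.coe_im, e2]; simp
    have h2 : gx f (pt s y) = (y : ℂ) * g s := by
      unfold gx
      rw [hcoe, e2]
    have h3 : ∀ a : ℂ, ‖a‖ₑ ^ 2 = ENNReal.ofReal (‖a‖ ^ 2) := by
      intro a
      rw [ENNReal.ofReal_pow (norm_nonneg _), ofReal_norm]
    rw [h3, h3, h2, ← ENNReal.ofReal_mul (by positivity), norm_mul, Complex.norm_real,
      Real.norm_of_nonneg hy0.le]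
    congr 1
    field_simp
  calc ∫⁻ x in J, ∫⁻ x' in J, ‖f (pt x y) - f (pt x' y)‖ₑ ^ 2
      ≤ ∫⁻ x in J, ∫⁻ x' in J, ∫⁻ s in J, ‖g s‖ₑ ^ 2 := by
        apply setLIntegral_mono' measurableSet_Ioo
        intro x hx
        apply setLIntegral_mono' measurableSet_Ioo
        intro x' hx'
        exact ftc hg hφ hx hx'
    _ = ∫⁻ s in J, ‖g s‖ₑ ^ 2 := by
        rw [lintegral_const, lintegral_const, Measure.restrict_apply_univ, volJ, mul_one, mul_one]
    _ = _ := by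
        apply lintegral_congr
        intro s
        exact (hK s).symm

end SPOI_

open SPOI_

theorem pPOI (h1 : sVSUB) (h2 : sZC) (h3 : sCO) (h4 : sVOL) (h5 : sCM) : sPOI := by
  intro v hv hz
  obtain ⟨-, hnorm, hcore, hlim⟩ := h1
  obtain ⟨f, hf, w, hw, hwv⟩ := hlim v hv
  have hvol := h4
  obtain ⟨hfin, hDm, hDh, hsub⟩ := h4
  have hen : ∀ a : ℂ, ‖a‖ₑ ^ 2 = ENNReal.ofReal (‖a‖ ^ 2) := by
    intro a
    rw [ENNReal.ofReal_pow (norm_nonneg _), ofReal_norm]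
  have : IsFiniteMeasure muD := ⟨by
    rw [muD, Measure.restrict_apply_univ]; exact hfin⟩
  have hpr : ∀ n, pr (w n) =ᵐ[muD] f n ∧
      En (w n) = ∫ z, (‖gx (f n) z‖ ^ 2 + ‖gy (f n) z‖ ^ 2) ∂muD := by
    intro n
    obtain ⟨v', -, hv', hp, hE⟩ := hcore (f n) (hf n)
    have : v' = w n := Lp.ext (hv'.trans (hw n).symm)
    subst this
    exact ⟨hp, hE⟩
  have hprc : Tendsto (fun n => pr (w n)) atTop (𝓝 (pr v)) :=
    (pr.continuous.tendsto v).comp hwv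
  have hEn : Tendsto (fun n => En (w n)) atTop (𝓝 (En v)) := by
    have e1 : ∀ u : H3, En u = ‖u‖ ^ 2 - 6 * ‖pr u‖ ^ 2 := by
      intro u
      rw [hnorm u]; ring
    simp only [e1]
    exact (hwv.norm.pow 2).sub ((hprc.norm.pow 2).const_mul 6)
  have hEv0 : 0 ≤ En v := integral_nonneg fun z => by positivity
  obtain ⟨ns, hns, hae⟩ := (tendstoInMeasure_of_tendsto_Lp hprc).exists_seq_tendsto_ae
  have hae2 : ∀ᵐ z ∂muD, Tendsto (fun i => f (ns i) z) atTop (𝓝 (pr v z)) := by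
    have hall : ∀ᵐ z ∂muD, ∀ n, pr (w n) z = f n z := ae_all_iff.mpr fun n => (hpr n).1
    filter_upwards [hae, hall] with z hz1 hz2
    refine hz1.congr fun i => ?_
    exact hz2 _
  have hae3 : ∀ᵐ z ∂((volume : Measure ℍ).restrict Dh),
      Tendsto (fun i => f (ns i) z) atTop (𝓝 (pr v z)) :=
    ae_restrict_of_ae_restrict_of_subset hsub hae2
  have hum : Measurable (fun z => pr v z) := (Lp.stronglyMeasurable (pr v)).measurable
  have hfm : ∀ n, Measurable (f n) := fun n => (h5 (f n) (hf n).sm).1.measurable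
  have hcoreE : ∀ n, Qf (f n) ≤ ENNReal.ofReal (En (w n)) := by
    intro n
    obtain ⟨-, hgx, hgy, -⟩ := h5 (f n) (hf n).sm
    obtain ⟨C, hC⟩ := (hf n).bdd
    have hint : Integrable (fun z => ‖gx (f n) z‖ ^ 2 + ‖gy (f n) z‖ ^ 2) muD := by
      apply Integrable.mono' (integrable_const (C ^ 2 + C ^ 2))
      · exact ((hgx.norm.pow 2).add (hgy.norm.pow 2)).aestronglyMeasurable
      · rw [muD, ae_restrict_iff' hDm]
        filter_upwards with z hz
        obtain ⟨-, c1, c2⟩ := hC z hz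
        rw [Real.norm_of_nonneg (by positivity)]
        gcongr
    calc Qf (f n) ≤ ∫⁻ z in Dh, ‖gx (f n) z‖ₑ ^ 2 := Q_core h3 h5 (hf n).sm
      _ ≤ ∫⁻ z in Dm, ‖gx (f n) z‖ₑ ^ 2 := lintegral_mono_set hsub
      _ ≤ ∫⁻ z, ENNReal.ofReal (‖gx (f n) z‖ ^ 2 + ‖gy (f n) z‖ ^ 2) ∂muD := by
          rw [muD]
          apply lintegral_mono
          intro z
          simp only [hen]
          apply ENNReal.ofReal_le_ofReal
          have := sq_nonneg ‖gy (f n) z‖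
          linarith
      _ = ENNReal.ofReal (En (w n)) := by
          rw [(hpr n).2, ofReal_integral_eq_lintegral_ofReal hint
            (Eventually.of_forall fun z => by positivity)]
  have hQ : Qf (fun z => pr v z) ≤ ENNReal.ofReal (En v) := by
    have e1 := Q_fatou h3 hvol (f := fun i => f (ns i)) (u := fun z => pr v z)
      (fun i => hfm _) hae3
    have e2 : Tendsto (fun i => ENNReal.ofReal (En (w (ns i)))) atTop
        (𝓝 (ENNReal.ofReal (En v))) :=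
      (ENNReal.continuous_ofReal.tendsto _).comp (hEn.comp hns.tendsto_atTop)
    refine e1.trans ?_
    rw [← e2.liminf_eq]
    exact liminf_le_liminf (Eventually.of_forall fun i => hcoreE _)
  -- the function in coordinates
  have hco := h3
  obtain ⟨hpt, hri, hptm, -, -⟩ := h3
  have hm : Measurable fun p : ℝ × ℝ => ‖pr v (pt p.1 p.2)‖ₑ ^ 2 :=
    ((hum.comp hptm).enorm).pow_const 2
  have hfin2 : ∫⁻ z in Dh, ‖pr v z‖ₑ ^ 2 < ∞ := by
    have e1 : eLpNorm (pr v) 2 muD < ∞ := (Lp.memLp (pr v)).2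
    rw [eLpNorm_lt_top_iff_lintegral_rpow_enorm_lt_top (by norm_num) (by norm_num)] at e1
    simp only [ENNReal.toReal_ofNat, ENNReal.rpow_ofNat] at e1
    refine lt_of_le_of_lt ?_ e1
    exact lintegral_mono_set (μ := (volume : Measure ℍ)) (f := fun z => ‖pr v z‖ₑ ^ 2) hsub
  have hl1 := lint hco hm
  simp only [hpt] at hl1
  have hfin3 : ∀ᵐ y ∂((volume : Measure ℝ).restrict (Ioi (1 : ℝ))),
      ∫⁻ x in J, ‖pr v (pt x y)‖ₑ ^ 2 ≠ ∞ := by
    rw [hl1] at hfin2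
    have hmm : Measurable fun y : ℝ => ∫⁻ x in J, ENNReal.ofReal (1 / y ^ 2) *
        ‖pr v (pt x y)‖ₑ ^ 2 := by
      have : Measurable fun p : ℝ × ℝ => ENNReal.ofReal (1 / p.2 ^ 2) *
          ‖pr v (pt p.1 p.2)‖ₑ ^ 2 := by
        have h0 : Measurable fun p : ℝ × ℝ => ENNReal.ofReal (1 / p.2 ^ 2) := by fun_prop
        exact h0.mul hm
      exact this.lintegral_prod_left'
    have h6 := ae_lt_top hmm hfin2.ne
    filter_upwards [h6, ae_restrict_mem measurableSet_Ioi] with y hy hy1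
    have hy0 : (0 : ℝ) < y := lt_trans zero_lt_one hy1
    rw [lintegral_const_mul' _ _ ENNReal.ofReal_ne_top] at hy
    intro htop
    rw [htop, ENNReal.mul_top] at hy
    · exact lt_irrefl _ hy
    · simp only [ne_eq, ENNReal.ofReal_eq_zero, not_le]
      positivity
  have hzero := (h2 (fun z => pr v z) (Lp.memLp (pr v)) hz).1
  have hkey : 2 * ∫⁻ y in Ioi (1 : ℝ), ∫⁻ x in J, ‖pr v (pt x y)‖ₑ ^ 2 =
      Qf (fun z => pr v z) := by
    unfold Qf
    rw [← lintegral_const_mul' _ _ (by norm_num)]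
    apply lintegral_congr_ae
    filter_upwards [hfin3, ae_restrict_of_ae hzero, ae_restrict_mem measurableSet_Ioi]
      with y a1 a2 a3
    apply var _ a1 (a2 a3)
    exact hum.comp (hptm.comp (by fun_prop : Measurable fun x : ℝ => ((x, y) : ℝ × ℝ)))
  have hm2 : Measurable fun p : ℝ × ℝ => ‖pr v (pt p.1 p.2)‖ₑ ^ 2 * ENNReal.ofReal (p.2 ^ 2) := by
    have h0 : Measurable fun p : ℝ × ℝ => ENNReal.ofReal (p.2 ^ 2) := by fun_prop
    exact hm.mul h0
  have hl2 := lint hco hm2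
  simp only [hpt] at hl2
  have hl3 : ∫⁻ z in Dh, ‖pr v z‖ₑ ^ 2 * ENNReal.ofReal (z.im ^ 2) =
      ∫⁻ y in Ioi (1 : ℝ), ∫⁻ x in J, ‖pr v (pt x y)‖ₑ ^ 2 := by
    rw [hl2]
    apply setLIntegral_congr_fun measurableSet_Ioi
    intro y hy
    have hy0 : (0 : ℝ) < y := lt_trans zero_lt_one hy
    apply lintegral_congr
    intro x
    rw [mul_comm, mul_assoc, ← ENNReal.ofReal_mul (by positivity)]
    have : y ^ 2 * (1 / y ^ 2) = 1 := by field_simp
    rw [this, ENNReal.ofReal_one, mul_one]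
  have hl4 : ∫⁻ z in Dh, ENNReal.ofReal (‖pr v z‖ ^ 2 * z.im ^ 2) ≤
      ENNReal.ofReal (1 / 2 * En v) := by
    have e1 : ∀ z : ℍ, ENNReal.ofReal (‖pr v z‖ ^ 2 * z.im ^ 2) =
        ‖pr v z‖ₑ ^ 2 * ENNReal.ofReal (z.im ^ 2) := by
      intro z
      rw [hen, ENNReal.ofReal_mul (by positivity)]
    simp only [e1]
    rw [hl3, ENNReal.ofReal_mul (by norm_num)]
    have e2 : ENNReal.ofReal (1 / 2) = 2⁻¹ := by
      rw [one_div, ENNReal.ofReal_inv_of_pos (by norm_num)]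
      norm_num
    rw [e2, ← ENNReal.div_eq_inv_mul, ENNReal.le_div_iff_mul_le (by norm_num) (by norm_num),
      mul_comm, hkey]
    exact hQ
  have hnn : 0 ≤ᵐ[(volume : Measure ℍ).restrict Dh] fun z : ℍ => ‖pr v z‖ ^ 2 * z.im ^ 2 :=
    Eventually.of_forall fun z => by positivity
  have hmeas : AEStronglyMeasurable (fun z : ℍ => ‖pr v z‖ ^ 2 * z.im ^ 2)
      ((volume : Measure ℍ).restrict Dh) := by
    have : Measurable fun z : ℍ => ‖pr v z‖ ^ 2 * z.im ^ 2 :=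
      (hum.norm.pow_const 2).mul ((UpperHalfPlane.continuous_im.measurable).pow_const 2)
    exact this.aestronglyMeasurable
  constructor
  · refine ⟨hmeas, ?_⟩
    rw [hasFiniteIntegral_iff_ofReal hnn]
    exact lt_of_le_of_lt hl4 ENNReal.ofReal_lt_top
  · rw [integral_eq_lintegral_of_nonneg_ae hnn hmeas]
    calc _ ≤ (ENNReal.ofReal (1 / 2 * En v)).toReal :=
          ENNReal.toReal_mono ENNReal.ofReal_ne_top hl4
      _ = 1 / 2 * En v := ENNReal.toReal_ofReal (by positivity)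

end FMZ
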