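import Pool.Agent.FMZ.TW

/-!
# FMZ-TRSP: symmetry of the radial operator on the real line
-/

open Complex MeasureTheory Set Filter Topology

namespace FMZ

namespace TRSP_

lemma smooth_aux {X : ℝ → ℝ} (h : ContDiff ℝ (⊤ : ℕ∞) X) :
    ContDiff ℝ (⊤ : ℕ∞) (fun x => (1 + x ^ 2) * deriv X x) := by
  have h1 : ContDiff ℝ (⊤ : ℕ∞) (deriv X) := (contDiff_infty_iff_deriv.1 h).2
  have h2 : ContDiff ℝ (⊤ : ℕ∞) (fun x : ℝ => 1 + x ^ 2) := by fun_prop
  exact h2.mul h1

lemma dx_tst {X : ℝ → ℝ} (h : Tst X) : Tst (DX X) := by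
  refine ⟨?_, ?_, ?_⟩
  · exact (contDiff_infty_iff_deriv.1 (smooth_aux h.smooth)).2.neg
  · have h1 : HasCompactSupport (deriv X) := h.cpt.deriv
    have h2 : HasCompactSupport (fun x : ℝ => (1 + x ^ 2) * deriv X x) := h1.mul_left
    exact h2.deriv.neg
  · intro t
    have hodd : ∀ x, deriv X (-x) = -deriv X x := by
      intro x
      have e : (fun y => X (-y)) = X := funext h.even
      have h3 : deriv (fun y => X (-y)) x = -deriv X (-x) := deriv_comp_neg X x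
      rw [e] at h3
      linarith
    have hodd2 : (fun y => (fun x => (1 + x ^ 2) * deriv X x) (-y)) =
        fun y => -((fun x => (1 + x ^ 2) * deriv X x) y) := by
      funext y
      simp only [hodd]
      ring
    have h4 : deriv (fun y => (fun x => (1 + x ^ 2) * deriv X x) (-y)) t =
        -deriv (fun x => (1 + x ^ 2) * deriv X x) (-t) :=
      deriv_comp_neg (fun x => (1 + x ^ 2) * deriv X x) t
    rw [hodd2, deriv.fun_neg] at h4
    simp only [DX]
    linarith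

lemma isOpen_S0 : IsOpen S0 := by
  have h : Continuous (fun d : ℂ => |d.im|) := continuous_im.abs
  exact isOpen_lt h continuous_const

lemma real_mem (x : ℝ) : (x : ℂ) ∈ S0 := by
  show |((x : ℂ)).im| < Real.pi / 2
  rw [ofReal_im, abs_zero]
  exact half_pos Real.pi_pos

lemma comp_deriv {f : ℂ → ℂ} (hf : DifferentiableOn ℂ f S0) (t : ℝ) :
    HasDerivAt (fun x : ℝ => f (Real.arsinh x : ℝ))
      (((√(1 + t ^ 2))⁻¹ : ℝ) * deriv f (Real.arsinh t : ℝ)) t := by
  have h1 : HasDerivAt f (deriv f (Real.arsinh t : ℝ)) (Real.arsinh t : ℝ) :=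
    (hf.differentiableAt (isOpen_S0.mem_nhds (real_mem _))).hasDerivAt
  have h2 : HasDerivAt (fun y : ℝ => f y) (deriv f (Real.arsinh t : ℝ)) (Real.arsinh t) :=
    h1.comp_ofReal
  have h3 := HasDerivAt.scomp t h2 (Real.hasDerivAt_arsinh t)
  have h4 : ((√(1 + t ^ 2))⁻¹ • deriv f (Real.arsinh t : ℝ)) =
      (((√(1 + t ^ 2))⁻¹ : ℝ) : ℂ) * deriv f (Real.arsinh t : ℝ) := by
    rw [Complex.real_smul]
  rw [← h4]
  exact h3

lemma sq_pos (t : ℝ) : 0 < √(1 + t ^ 2) := Real.sqrt_pos.2 (by positivity)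

/-- φ' and (1+t²)φ' -/
lemma psi_deriv {f : ℂ → ℂ} (hf : DifferentiableOn ℂ f S0) (t : ℝ) :
    HasDerivAt (fun x : ℝ => ((√(1 + x ^ 2) : ℝ) : ℂ) * deriv f (Real.arsinh x : ℝ))
      (-DD f (Real.arsinh t : ℝ)) t := by
  have h1 : HasDerivAt (fun x : ℝ => √(1 + x ^ 2)) (t / √(1 + t ^ 2)) t := by
    have h2 : HasDerivAt (fun x : ℝ => 1 + x ^ 2) (2 * t) t := by
      simpa using (hasDerivAt_pow 2 t).const_add 1
    have h3 := h2.sqrt (by positivity : (1 : ℝ) + t ^ 2 ≠ 0)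
    convert h3 using 1
    have := sq_pos t
    field_simp
  have h2 := comp_deriv (hf.deriv isOpen_S0) t
  have h3 := h1.ofReal_comp.mul h2
  refine h3.congr_deriv ?_
  have hs : ((√(1 + t ^ 2) : ℝ) : ℂ) ≠ 0 := by
    exact_mod_cast (sq_pos t).ne'
  have ht : Complex.tanh (Real.arsinh t : ℝ) = ((t / √(1 + t ^ 2) : ℝ) : ℂ) := by
    rw [← Complex.ofReal_tanh, Real.tanh_arsinh]
  rw [DD, ht]
  push_cast
  field_simp
  ring

lemma cont_comp {f : ℂ → ℂ} (hf : DifferentiableOn ℂ f S0) :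
    Continuous (fun x : ℝ => f (Real.arsinh x : ℝ)) :=
  continuous_iff_continuousAt.2 fun t => (comp_deriv hf t).continuousAt

lemma integrable_mul {u : ℝ → ℂ} {v : ℝ → ℂ} (hu : Continuous u) (hv : Continuous v)
    (hc : HasCompactSupport v) : Integrable (u * v) volume :=
  (hu.mul hv).integrable_of_hasCompactSupport hc.mul_left

lemma cpt_ofReal {X : ℝ → ℝ} (h : HasCompactSupport X) :
    HasCompactSupport (fun x : ℝ => ((X x : ℝ) : ℂ)) :=
  h.comp_left Complex.ofReal_zero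

lemma step {f : ℂ → ℂ} (hf : DifferentiableOn ℂ f S0) (hDf : DifferentiableOn ℂ (DD f) S0)
    {X : ℝ → ℝ} (h : Tst X) :
    ∫ t : ℝ, (DD f) (Real.arsinh t : ℝ) * X t = ∫ t : ℝ, f (Real.arsinh t : ℝ) * (DX X) t := by
  have hXd : ∀ t, HasDerivAt X (deriv X t) t := fun t =>
    ((h.smooth.differentiable (by simp)) t).hasDerivAt
  have hX' : ContDiff ℝ (⊤ : ℕ∞) (deriv X) := (contDiff_infty_iff_deriv.1 h.smooth).2
  set Y : ℝ → ℝ := fun x => (1 + x ^ 2) * deriv X x with hY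
  have hYs : ContDiff ℝ (⊤ : ℕ∞) Y := smooth_aux h.smooth
  have hYd : ∀ t, HasDerivAt Y (deriv Y t) t := fun t =>
    ((hYs.differentiable (by simp)) t).hasDerivAt
  have hY' : ContDiff ℝ (⊤ : ℕ∞) (deriv Y) := (contDiff_infty_iff_deriv.1 hYs).2
  have hcX' : HasCompactSupport (deriv X) := h.cpt.deriv
  have hcY : HasCompactSupport Y := hcX'.mul_left
  have hcY' : HasCompactSupport (deriv Y) := hcY.deriv
  have hcf := cont_comp hf
  have hcDf := cont_comp hDf
  have hpsi : Continuous (fun x : ℝ => ((√(1 + x ^ 2) : ℝ) : ℂ) * deriv f (Real.arsinh x : ℝ)) :=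
    continuous_iff_continuousAt.2 fun t => (psi_deriv hf t).continuousAt
  have hphi' : Continuous (fun t : ℝ => (((√(1 + t ^ 2))⁻¹ : ℝ) : ℂ) *
      deriv f (Real.arsinh t : ℝ)) := by
    have h1 : Continuous (fun t : ℝ => (√(1 + t ^ 2))⁻¹) := by
      have h2 : Continuous (fun t : ℝ => √(1 + t ^ 2)) := by fun_prop
      exact h2.inv₀ fun t => (sq_pos t).ne'
    exact (Complex.continuous_ofReal.comp h1).mul (cont_comp (hf.deriv isOpen_S0))
  have c1 : Continuous (fun x : ℝ => ((X x : ℝ) : ℂ)) :=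
    Complex.continuous_ofReal.comp h.smooth.continuous
  have c2 : Continuous (fun x : ℝ => ((deriv X x : ℝ) : ℂ)) :=
    Complex.continuous_ofReal.comp hX'.continuous
  have c3 : Continuous (fun x : ℝ => ((Y x : ℝ) : ℂ)) :=
    Complex.continuous_ofReal.comp hYs.continuous
  have c4 : Continuous (fun x : ℝ => ((deriv Y x : ℝ) : ℂ)) :=
    Complex.continuous_ofReal.comp hY'.continuous
  -- first integration by parts
  have e1 := integral_mul_deriv_eq_deriv_mul_of_integrable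
    (u := fun x : ℝ => ((√(1 + x ^ 2) : ℝ) : ℂ) * deriv f (Real.arsinh x : ℝ))
    (v := fun x : ℝ => ((X x : ℝ) : ℂ))
    (u' := fun t : ℝ => -DD f (Real.arsinh t : ℝ)) (v' := fun x : ℝ => ((deriv X x : ℝ) : ℂ))
    (fun x _ => psi_deriv hf x) (fun x _ => (hXd x).ofReal_comp)
    (integrable_mul hpsi c2 (cpt_ofReal hcX')) (integrable_mul hcDf.neg c1 (cpt_ofReal h.cpt))
    (integrable_mul hpsi c1 (cpt_ofReal h.cpt))
  -- second integration by parts
  have e2 := integral_mul_deriv_eq_deriv_mul_of_integrable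
    (u := fun x : ℝ => f (Real.arsinh x : ℝ))
    (v := fun x : ℝ => ((Y x : ℝ) : ℂ))
    (u' := fun t : ℝ => (((√(1 + t ^ 2))⁻¹ : ℝ) : ℂ) * deriv f (Real.arsinh t : ℝ))
    (v' := fun x : ℝ => ((deriv Y x : ℝ) : ℂ))
    (fun x _ => comp_deriv hf x) (fun x _ => (hYd x).ofReal_comp)
    (integrable_mul hcf c4 (cpt_ofReal hcY')) (integrable_mul hphi' c3 (cpt_ofReal hcY))
    (integrable_mul hcf c3 (cpt_ofReal hcY))
  have e3 : ∫ t : ℝ, (DD f) (Real.arsinh t : ℝ) * X t =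
      ∫ x : ℝ, ((√(1 + x ^ 2) : ℝ) : ℂ) * deriv f (Real.arsinh x : ℝ) * ((deriv X x : ℝ) : ℂ) := by
    rw [e1, ← integral_neg]
    congr 1
    funext t
    ring
  have e4 : ∫ t : ℝ, f (Real.arsinh t : ℝ) * (DX X) t =
      ∫ x : ℝ, (((√(1 + x ^ 2))⁻¹ : ℝ) : ℂ) * deriv f (Real.arsinh x : ℝ) * ((Y x : ℝ) : ℂ) := by
    have e5 : ∫ t : ℝ, f (Real.arsinh t : ℝ) * (DX X) t =
        -∫ x : ℝ, f (Real.arsinh x : ℝ) * ((deriv Y x : ℝ) : ℂ) := by
      rw [← integral_neg]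
      congr 1
      funext t
      simp only [DX, ← hY]
      push_cast
      ring
    rw [e5, e2, neg_neg]
  rw [e3, e4]
  congr 1
  funext t
  have hs : ((√(1 + t ^ 2) : ℝ) : ℂ) ≠ 0 := by
    exact_mod_cast (sq_pos t).ne'
  have hs2 : ((√(1 + t ^ 2) : ℝ) : ℂ) ^ 2 = 1 + (t : ℂ) ^ 2 := by
    have : (√(1 + t ^ 2)) ^ 2 = 1 + t ^ 2 := Real.sq_sqrt (by positivity)
    exact_mod_cast this
  simp only [hY]
  push_cast
  rw [← hs2]
  field_simp

end TRSP_

theorem pTRSP (h : tDDL) : TRSP := by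
  intro f M
  induction M with
  | zero =>
    intro X _ hX
    exact ⟨hX, rfl⟩
  | succ M ih =>
    intro X hf hX
    obtain ⟨h1, h2⟩ := ih (DX X) hf (TRSP_.dx_tst hX)
    rw [Function.iterate_succ_apply]
    refine ⟨h1, ?_⟩
    rw [Function.iterate_succ_apply', ← h2]
    have h3 := h.1 f hf M
    have h4 := h.1 f hf (M + 1)
    rw [Function.iterate_succ_apply'] at h4
    exact TRSP_.step h3 h4 hX

end FMZ
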