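import Pool.Agent.FMZ.TW

/-!
# FMZ-W6: the wave operator preserves analyticity; transposition
-/

open Complex MeasureTheory Set Filter Topology

namespace FMZ

namespace WAN_

lemma isOpen_S0 : IsOpen S0 := by
  unfold S0
  exact isOpen_lt (continuous_abs.comp Complex.continuous_im) continuous_const

lemma add_real_mem {D : ℂ} (hD : D ∈ S0) (x : ℝ) : D + x ∈ S0 := by
  unfold S0 at *
  simpa using hD

lemma real_mem (x : ℝ) : (x : ℂ) ∈ S0 := by
  unfold S0
  simp [Real.pi_pos]

/-- holomorphic parameter integrals over a compact interval -/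
lemma holo_param {a b : ℝ} (hab : a ≤ b) {U : Set ℂ} (hU : IsOpen U) {F : ℂ → ℝ → ℂ}
    (hF : ∀ x ∈ Icc a b, DifferentiableOn ℂ (fun z => F z x) U)
    (hc : ContinuousOn (fun p : ℂ × ℝ => F p.1 p.2) (U ×ˢ Icc a b)) :
    DifferentiableOn ℂ (fun z => ∫ x in a..b, F z x) U := by
  intro z₀ hz₀
  obtain ⟨r, hr, hrU⟩ := Metric.isOpen_iff.mp hU z₀ hz₀
  set ρ : ℝ := r / 4 with hρ
  have hρ0 : 0 < ρ := by positivity
  have hcb : Metric.closedBall z₀ (2 * ρ) ⊆ U := by
    refine (Metric.closedBall_subset_ball ?_).trans hrU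
    rw [hρ]; linarith
  have hK : IsCompact (Metric.closedBall z₀ (2 * ρ) ×ˢ Icc a b) :=
    (isCompact_closedBall _ _).prod isCompact_Icc
  obtain ⟨M, hM⟩ := hK.exists_bound_of_continuousOn
    (hc.mono (Set.prod_mono hcb Subset.rfl))
  have hint : ∀ z ∈ U, ContinuousOn (F z) (Icc a b) := by
    intro z hz
    have e : ContinuousOn (fun x : ℝ => ((z, x) : ℂ × ℝ)) (Icc a b) := by fun_prop
    exact hc.comp e (fun x hx => ⟨hz, hx⟩)
  have hsub : uIoc a b ⊆ Icc a b := by
    rw [Set.uIoc_of_le hab]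
    exact Ioc_subset_Icc_self
  have hmeas : ∀ z ∈ U, AEStronglyMeasurable (F z) (volume.restrict (uIoc a b)) := by
    intro z hz
    exact ((hint z hz).mono hsub).aestronglyMeasurable measurableSet_uIoc
  have hder : ∀ x ∈ Icc a b, ∀ z ∈ Metric.ball z₀ ρ,
      HasDerivAt (fun z => F z x) (deriv (fun z => F z x) z) z := by
    intro x hx z hz
    have hzU : z ∈ U := hcb (Metric.ball_subset_closedBall
      (Metric.ball_subset_ball (by linarith) hz))
    exact ((hF x hx).differentiableAt (hU.mem_nhds hzU)).hasDerivAt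
  have hbd : ∀ x ∈ Icc a b, ∀ z ∈ Metric.ball z₀ ρ, ‖deriv (fun z => F z x) z‖ ≤ M / ρ := by
    intro x hx z hz
    have hcl : Metric.closedBall z ρ ⊆ Metric.closedBall z₀ (2 * ρ) := by
      apply Metric.closedBall_subset_closedBall'
      have := Metric.mem_ball.mp hz
      linarith
    apply Complex.norm_deriv_le_of_forall_mem_sphere_norm_le hρ0
    · refine DifferentiableOn.diffContOnCl ?_
      rw [closure_ball z hρ0.ne']
      exact (hF x hx).mono (hcl.trans hcb)
    · intro w hw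
      exact hM (w, x) ⟨hcl (Metric.sphere_subset_closedBall hw), hx⟩
  have hF' : AEStronglyMeasurable (fun x => deriv (fun z => F z x) z₀)
      (volume.restrict (uIoc a b)) := by
    -- limit of difference quotients
    have hseq : Tendsto (fun n : ℕ => z₀ + ((ρ / (n + 1) / 2 : ℝ) : ℂ)) atTop (𝓝[≠] z₀) := by
      apply tendsto_nhdsWithin_iff.mpr
      constructor
      · have h1 : Tendsto (fun n : ℕ => ρ / ((n : ℝ) + 1) / 2) atTop (𝓝 0) := by
          have h2 : Tendsto (fun n : ℕ => ρ / ((n : ℝ) + 1)) atTop (𝓝 0) :=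
            tendsto_const_nhds.div_atTop (tendsto_atTop_add_const_right _ _ tendsto_natCast_atTop_atTop)
          simpa using h2.div_const 2
        have h3 := (Complex.continuous_ofReal.tendsto (0 : ℝ)).comp h1
        have h4 := h3.const_add z₀
        simpa [Function.comp_def] using h4
      · apply Filter.Eventually.of_forall
        intro n hn
        simp only [mem_singleton_iff, add_eq_left, ofReal_eq_zero] at hn
        have : 0 < ρ / ((n : ℝ) + 1) / 2 := by positivity
        exact this.ne' hn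
    have hmem : ∀ n : ℕ, z₀ + ((ρ / (n + 1) / 2 : ℝ) : ℂ) ∈ U := by
      intro n
      apply hcb
      rw [Metric.mem_closedBall, dist_eq_norm, add_sub_cancel_left, Complex.norm_real,
        Real.norm_eq_abs, abs_of_nonneg (by positivity)]
      have h1 : ρ / ((n : ℝ) + 1) ≤ ρ := div_le_self hρ0.le (by linarith [Nat.cast_nonneg (α := ℝ) n])
      linarith
    refine aestronglyMeasurable_of_tendsto_ae (u := atTop)
      (f := fun (n : ℕ) x => slope (fun z => F z x) z₀ (z₀ + ((ρ / (n + 1) / 2 : ℝ) : ℂ))) ?_ ?_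
    · intro n
      unfold slope
      simp only [vsub_eq_sub]
      exact ((hmeas _ (hmem n)).sub (hmeas _ hz₀)).const_smul
        ((z₀ + ((ρ / (n + 1) / 2 : ℝ) : ℂ) - z₀)⁻¹ : ℂ)
    · rw [ae_restrict_iff' measurableSet_uIoc]
      apply Filter.Eventually.of_forall
      intro x hx
      have h1 := hder x (hsub hx) z₀ (Metric.mem_ball_self hρ0)
      exact (hasDerivAt_iff_tendsto_slope.mp h1).comp hseq
  have hball : Metric.ball z₀ ρ ∈ 𝓝 z₀ := Metric.ball_mem_nhds _ hρ0
  have h := intervalIntegral.hasDerivAt_integral_of_dominated_loc_of_deriv_le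
    (μ := volume) (a := a) (b := b) (F := F) (F' := fun z x => deriv (fun z => F z x) z)
    (x₀ := z₀) (s := Metric.ball z₀ ρ) (bound := fun _ => M / ρ) hball
    (by filter_upwards [hU.mem_nhds hz₀] with z hz using hmeas z hz)
    (by
      apply ContinuousOn.intervalIntegrable
      rw [Set.uIcc_of_le hab]
      exact hint z₀ hz₀) hF'
    (by
      apply Filter.Eventually.of_forall
      intro x hx z hz
      exact hbd x (hsub hx) z hz)
    (by simp)
    (by
      apply Filter.Eventually.of_forall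
      intro x hx z hz
      exact hder x (hsub hx) z hz)
  exact h.2.differentiableAt.differentiableWithinAt

/-- the set on which `Le` is analytic -/
def V : Set ℂ := {w : ℂ | 1 + w / 2 ∈ slitPlane}

lemma isOpen_V : IsOpen V := by
  unfold V
  exact Complex.isOpen_slitPlane.preimage (by fun_prop)

lemma Le1_analytic (h1 : tLE) {w : ℂ} (hw : w ∈ V) : AnalyticAt ℂ Le1 w := by
  have ha : AnalyticAt ℂ (deriv Le) w := (h1.1 w hw).1.deriv
  apply ha.congr
  filter_upwards [isOpen_V.mem_nhds hw] with z hz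
  exact (h1.1 z hz).2.deriv

lemma cosh_ne (h2 : tGEO) {D : ℂ} (hD : D ∈ S0) : Complex.cosh D ≠ 0 := by
  intro h
  have := h2.1 D hD
  rw [h] at this
  simp at this

end WAN_

open WAN_ in
theorem pWAN (h1 : tLE) (h2 : tGEO) : tWAN := by
  intro G hG h hh
  have hV : ∀ D ∈ S0, ∀ x ∈ Icc (-h) h, wk D h x ∈ V := by
    intro D hD x hx
    refine (h2.2.1 D h x hD ?_).1
    rw [abs_le, abs_of_nonneg hh]
    exact hx
  have hGc : ContinuousOn G S0 := hG.continuousOn
  have hint : DifferentiableOn ℂ (fun D => ∫ x in (-h)..h, Kk D h x * G (D + x)) S0 := by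
    apply holo_param (by linarith) isOpen_S0
    · intro x hx
      have e1 : DifferentiableOn ℂ (fun D : ℂ => D + (x : ℂ)) S0 := by fun_prop
      have e2 : DifferentiableOn ℂ (fun D : ℂ => G (D + x)) S0 :=
        hG.comp e1 (fun D hD => add_real_mem hD x)
      have e3 : DifferentiableOn ℂ (fun D : ℂ => Complex.cosh D * Complex.cosh (D + x)) S0 := by
        fun_prop
      have hne : ∀ D ∈ S0, Complex.cosh D * Complex.cosh (D + x) ≠ 0 := fun D hD =>
        mul_ne_zero (cosh_ne h2 hD) (cosh_ne h2 (add_real_mem hD x))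
      have e4 : DifferentiableOn ℂ (fun D : ℂ => wk D h x) S0 := by
        unfold wk
        exact (differentiableOn_const _).div e3 hne
      have e5 : DifferentiableOn ℂ (fun D : ℂ => Le1 (wk D h x)) S0 := by
        intro D hD
        exact DifferentiableAt.comp_differentiableWithinAt (g := Le1) (f := fun D : ℂ => wk D h x) D
          (Le1_analytic h1 (hV D hD x hx)).differentiableAt (e4 D hD)
      unfold Kk
      exact (e5.mul ((differentiableOn_const _).div e3 hne)).mul e2
    · have c1 : ContinuousOn (fun p : ℂ × ℝ => p.1 + (p.2 : ℂ)) (S0 ×ˢ Icc (-h) h) := by fun_prop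
      have c2 : ContinuousOn (fun p : ℂ × ℝ => G (p.1 + p.2)) (S0 ×ˢ Icc (-h) h) :=
        hGc.comp c1 (fun p hp => add_real_mem hp.1 p.2)
      have c3 : ContinuousOn (fun p : ℂ × ℝ => Complex.cosh p.1 * Complex.cosh (p.1 + p.2))
          (S0 ×ˢ Icc (-h) h) := by
        apply Continuous.continuousOn
        fun_prop
      have hne : ∀ p ∈ S0 ×ˢ Icc (-h) h, Complex.cosh p.1 * Complex.cosh (p.1 + (p.2 : ℂ)) ≠ 0 :=
        fun p hp => mul_ne_zero (cosh_ne h2 hp.1) (cosh_ne h2 (add_real_mem hp.1 p.2))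
      have c4 : ContinuousOn (fun p : ℂ × ℝ => wk p.1 h p.2) (S0 ×ˢ Icc (-h) h) := by
        unfold wk
        refine ContinuousOn.div (Continuous.continuousOn ?_) c3 hne
        fun_prop
      have c5 : ContinuousOn (fun p : ℂ × ℝ => Le1 (wk p.1 h p.2)) (S0 ×ˢ Icc (-h) h) := by
        intro p hp
        exact ContinuousAt.comp_continuousWithinAt (g := Le1)
          (f := fun p : ℂ × ℝ => wk p.1 h p.2)
          (Le1_analytic h1 (hV p.1 hp.1 p.2 hp.2)).continuousAt (c4 p hp)
      unfold Kk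
      exact (c5.mul (continuousOn_const.div c3 hne)).mul c2
  have hp : DifferentiableOn ℂ (fun D : ℂ => G (D + h)) S0 :=
    hG.comp (by fun_prop) (fun D hD => add_real_mem hD h)
  have hm : DifferentiableOn ℂ (fun D : ℂ => G (D - h)) S0 :=
    hG.comp (by fun_prop) (fun D hD => by
      have := add_real_mem hD (-h)
      simpa [sub_eq_add_neg] using this)
  have e : Wo G h = fun D => 1 / 2 * (G (D + h) + G (D - h)) +
      1 / 2 * ∫ x in (-h)..h, Kk D h x * G (D + x) := by
    funext D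
    rfl
  rw [e]
  exact ((hp.add hm).const_mul _).add (hint.const_mul _)

namespace WAN_

lemma cosh_prod (D x : ℝ) : 2 * (Real.cosh D * Real.cosh (D + x)) =
    Real.cosh (2 * D + x) + Real.cosh x := by
  have e1 : Real.cosh (2 * D + x) = Real.cosh (D + (D + x)) := by
    congr 1
    ring
  have e2 : Real.cosh x = Real.cosh ((D + x) - D) := by
    congr 1
    ring
  rw [e1, e2, Real.cosh_add D (D + x), Real.cosh_sub (D + x) D]
  ring

/-- the real argument -/
noncomputable def wr (h D x : ℝ) : ℝ :=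
  (Real.cosh h - Real.cosh x) / (Real.cosh D * Real.cosh (D + x))

lemma wk_real (D h x : ℝ) : wk (D : ℂ) h x = ((wr h D x : ℝ) : ℂ) := by
  unfold wk wr
  push_cast
  rfl

lemma wr_pos (D h x : ℝ) : 0 < 1 + wr h D x / 2 := by
  unfold wr
  have hc : 0 < Real.cosh D * Real.cosh (D + x) := mul_pos (Real.cosh_pos _) (Real.cosh_pos _)
  have h1 := cosh_prod D x
  have h2 : 0 < Real.cosh (2 * D + x) := Real.cosh_pos _
  have h3 : 0 < Real.cosh h := Real.cosh_pos _
  have h4 : -2 < (Real.cosh h - Real.cosh x) / (Real.cosh D * Real.cosh (D + x)) := by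
    rw [lt_div_iff₀ hc]
    linarith
  linarith

lemma mem_V_real {r : ℝ} (hr : 0 < 1 + r / 2) : (r : ℂ) ∈ V := by
  unfold V
  have e : (1 + (r : ℂ) / 2) = ((1 + r / 2 : ℝ) : ℂ) := by
    push_cast
    rfl
  rw [mem_ofPred_eq, e]
  exact Complex.ofReal_mem_slitPlane.mpr hr

lemma Le1_real {r : ℝ} (hr : 0 < 1 + r / 2) : ∃ q : ℝ, Le1 (r : ℂ) = (q : ℂ) := by
  refine ⟨-(1 / (2 * Real.pi)) * ∫ φ in (0 : ℝ)..(Real.pi / 2),
    (Real.sin φ ^ 2) * (1 + r / 2 * (Real.sin φ ^ 2)) ^ (-(3 / 2) : ℝ), ?_⟩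
  unfold Le1
  rw [Complex.ofReal_mul, ← intervalIntegral.integral_ofReal]
  push_cast
  congr 1
  apply intervalIntegral.integral_congr
  intro φ _
  have h1 : 0 ≤ Real.sin φ ^ 2 := sq_nonneg _
  have h2 : Real.sin φ ^ 2 ≤ 1 := Real.sin_sq_le_one φ
  have h3 : 0 ≤ 1 + r / 2 * Real.sin φ ^ 2 := by nlinarith
  have e := Complex.ofReal_cpow h3 (-(3 / 2) : ℝ)
  simp only
  push_cast at e
  rw [e]

/-- the real kernel -/
noncomputable def kr (h D x : ℝ) : ℝ := (Kk (D : ℂ) h x).re

lemma Kk_real (h D x : ℝ) : Kk (D : ℂ) h x = (kr h D x : ℂ) := by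
  unfold kr Kk
  obtain ⟨q, hq⟩ := Le1_real (wr_pos D h x)
  rw [wk_real, hq]
  have e : ((q : ℂ) * ((Real.sinh h : ℂ) / (Complex.cosh (D : ℂ) * Complex.cosh ((D : ℂ) + x)))) =
      ((q * (Real.sinh h / (Real.cosh D * Real.cosh (D + x))) : ℝ) : ℂ) := by
    push_cast
    rfl
  rw [e, Complex.ofReal_re]

lemma kr_contDiff (h1 : tLE) (h : ℝ) :
    ContDiff ℝ ((⊤ : ℕ∞) : WithTop ℕ∞) (fun p : ℝ × ℝ => kr h p.1 p.2) := by
  have hne : ∀ p : ℝ × ℝ, Real.cosh p.1 * Real.cosh (p.1 + p.2) ≠ 0 := fun p =>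
    (mul_pos (Real.cosh_pos _) (Real.cosh_pos _)).ne'
  have hc : ContDiff ℝ ((⊤ : ℕ∞) : WithTop ℕ∞)
      (fun p : ℝ × ℝ => Real.cosh p.1 * Real.cosh (p.1 + p.2)) :=
    (Real.contDiff_cosh.comp contDiff_fst).mul (Real.contDiff_cosh.comp (contDiff_fst.add contDiff_snd))
  have hw : ContDiff ℝ ((⊤ : ℕ∞) : WithTop ℕ∞) (fun p : ℝ × ℝ => wr h p.1 p.2) := by
    unfold wr
    exact (contDiff_const.sub (Real.contDiff_cosh.comp contDiff_snd)).div hc hne
  have hs : ContDiff ℝ ((⊤ : ℕ∞) : WithTop ℕ∞)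
      (fun p : ℝ × ℝ => Real.sinh h / (Real.cosh p.1 * Real.cosh (p.1 + p.2))) :=
    contDiff_const.div hc hne
  have hL : ContDiff ℝ ((⊤ : ℕ∞) : WithTop ℕ∞)
      (fun p : ℝ × ℝ => Le1 ((wr h p.1 p.2 : ℝ) : ℂ)) := by
    rw [contDiff_iff_contDiffAt]
    intro p
    have ha : ContDiffAt ℂ ((⊤ : ℕ∞) : WithTop ℕ∞) Le1 ((wr h p.1 p.2 : ℝ) : ℂ) :=
      (Le1_analytic h1 (mem_V_real (wr_pos p.1 h p.2))).contDiffAt
    have hb : ContDiffAt ℝ ((⊤ : ℕ∞) : WithTop ℕ∞) (fun p : ℝ × ℝ => ((wr h p.1 p.2 : ℝ) : ℂ)) p :=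
      (Complex.ofRealCLM.contDiff.comp hw).contDiffAt
    exact ContDiffAt.comp (g := Le1) (f := fun p : ℝ × ℝ => ((wr h p.1 p.2 : ℝ) : ℂ)) p
      (ha.restrict_scalars ℝ) hb
  have hK : ContDiff ℝ ((⊤ : ℕ∞) : WithTop ℕ∞) (fun p : ℝ × ℝ => Le1 ((wr h p.1 p.2 : ℝ) : ℂ) *
      ((Real.sinh h / (Real.cosh p.1 * Real.cosh (p.1 + p.2)) : ℝ) : ℂ)) :=
    hL.mul (Complex.ofRealCLM.contDiff.comp hs)
  have hre : ContDiff ℝ ((⊤ : ℕ∞) : WithTop ℕ∞) (fun p : ℝ × ℝ =>
      (Le1 ((wr h p.1 p.2 : ℝ) : ℂ) *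
      ((Real.sinh h / (Real.cosh p.1 * Real.cosh (p.1 + p.2)) : ℝ) : ℂ)).re) :=
    Complex.reCLM.contDiff.comp hK
  convert hre using 2 with p
  unfold kr Kk
  rw [wk_real]
  push_cast
  rfl

lemma kr_neg (h D x : ℝ) : kr h (-D) (-x) = kr h D x := by
  unfold kr Kk wk
  have e1 : Complex.cosh (((-D : ℝ) : ℂ)) = Complex.cosh (D : ℂ) := by
    rw [Complex.ofReal_neg, Complex.cosh_neg]
  have e2 : Complex.cosh (((-D : ℝ) : ℂ) + ((-x : ℝ) : ℂ)) = Complex.cosh ((D : ℂ) + x) := by
    rw [Complex.ofReal_neg, Complex.ofReal_neg, ← neg_add, Complex.cosh_neg]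
  rw [e1, e2, Real.cosh_neg]

lemma kr_symm (h D x : ℝ) : kr h (D - x) x = kr h D (-x) := by
  unfold kr Kk wk
  have e1 : ((D - x : ℝ) : ℂ) + (x : ℂ) = (D : ℂ) := by
    push_cast
    ring
  have e2 : (D : ℂ) + ((-x : ℝ) : ℂ) = ((D - x : ℝ) : ℂ) := by
    push_cast
    ring
  rw [e1, e2, Real.cosh_neg, mul_comm (Complex.cosh (D : ℂ))]

/-- exchange of the order of integration -/
lemma swap {h A : ℝ} (hh : 0 ≤ h) {f : ℝ → ℝ → ℂ} (hf : Continuous (Function.uncurry f))
    (h0 : ∀ D x, A < |D| → |x| ≤ h → f D x = 0) :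
    ∫ D : ℝ, ∫ x in (-h)..h, f D x = ∫ x in (-h)..h, ∫ D : ℝ, f D x := by
  simp only [intervalIntegral.integral_of_le (show -h ≤ h by linarith)]
  apply MeasureTheory.integral_integral_swap
  have e : (volume : Measure ℝ).prod (volume.restrict (Ioc (-h) h)) =
      ((volume : Measure ℝ).prod (volume : Measure ℝ)).restrict (univ ×ˢ Ioc (-h) h) := by
    rw [← Measure.prod_restrict, Measure.restrict_univ]
  rw [e]
  have h1 : IntegrableOn (Function.uncurry f) (Icc (-A) A ×ˢ Icc (-h) h)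
      ((volume : Measure ℝ).prod (volume : Measure ℝ)) :=
    hf.continuousOn.integrableOn_compact (isCompact_Icc.prod isCompact_Icc)
  refine h1.of_forall_sdiff_eq_zero (MeasurableSet.univ.prod measurableSet_Ioc) ?_
  rintro ⟨D, x⟩ ⟨⟨_, hx⟩, hn⟩
  have hx' : x ∈ Icc (-h) h := Ioc_subset_Icc_self hx
  apply h0 D x _ (abs_le.mpr hx')
  by_contra hlt
  exact hn ⟨abs_le.mp (not_lt.mp hlt), hx'⟩

lemma cpt_bound {Y : ℝ → ℝ} (hY : HasCompactSupport Y) : ∃ A : ℝ, 0 ≤ A ∧ ∀ t, A < |t| → Y t = 0 := by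
  obtain ⟨A, hA⟩ := hY.isCompact.isBounded.exists_norm_le
  refine ⟨max A 0, le_max_right _ _, fun t ht => ?_⟩
  by_contra hne
  have h1 : t ∈ tsupport Y := subset_tsupport Y hne
  have h2 := hA t h1
  rw [Real.norm_eq_abs] at h2
  exact absurd (h2.trans (le_max_left A 0)) (not_le.mpr ht)

lemma WoR_eq (Y : ℝ → ℝ) (h D : ℝ) : WoR Y h D =
    1 / 2 * (Y (D + h) + Y (D - h)) + 1 / 2 * ∫ x in (-h)..h, kr h D x * Y (D + x) := rfl

lemma Wo_eq (G : ℂ → ℂ) (h D : ℝ) : Wo G h (D : ℂ) =
    1 / 2 * (G ((D + h : ℝ) : ℂ) + G ((D - h : ℝ) : ℂ)) +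
      1 / 2 * ∫ x in (-h)..h, (kr h D x : ℂ) * G ((D + x : ℝ) : ℂ) := by
  unfold Wo
  push_cast
  simp only [Kk_real]

attribute [local irreducible] kr

lemma tri {A B C : ℝ → ℂ} (hA : Integrable A volume) (hB : Integrable B volume)
    (hC : Integrable C volume) : ∫ D : ℝ, (1 / 2 * A D + 1 / 2 * B D + 1 / 2 * C D) =
      1 / 2 * (∫ D : ℝ, A D) + 1 / 2 * (∫ D : ℝ, B D) + 1 / 2 * ∫ D : ℝ, C D := by
  have h1 : Integrable (fun D => 1 / 2 * A D) volume := hA.const_mul _
  have h2 : Integrable (fun D => 1 / 2 * B D) volume := hB.const_mul _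
  have h3 : Integrable (fun D => 1 / 2 * C D) volume := hC.const_mul _
  have h4 : Integrable (fun D => 1 / 2 * A D + 1 / 2 * B D) volume := h1.add h2
  rw [integral_add h4 h3, integral_add h1 h2, integral_const_mul, integral_const_mul,
    integral_const_mul]

/-- smoothness of the integral part -/
lemma int_smooth (h1 : tLE) {Y : ℝ → ℝ} (hY : ContDiff ℝ ((⊤ : ℕ∞) : WithTop ℕ∞) Y) {h : ℝ}
    (hh : 0 ≤ h) :
    ContDiff ℝ ((⊤ : ℕ∞) : WithTop ℕ∞) (fun D : ℝ => ∫ x in (-h)..h, kr h D x * Y (D + x)) := by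
  have hb1 : 0 < h + 1 := by linarith
  have hb2 : h + 1 < h + 2 := by linarith
  let χ : ContDiffBump (0 : ℝ) := ⟨h + 1, h + 2, hb1, hb2⟩
  let f : ℝ → ℝ := (Ioc (-h) h).indicator (fun _ => 1)
  let g : ℝ → ℝ → ℝ := fun p z => kr h p (-z) * Y (p - z) * χ z
  have hk : IsCompact (Metric.closedBall (0 : ℝ) (h + 2)) := isCompact_closedBall _ _
  have hgs : ∀ p : ℝ, ∀ x : ℝ, p ∈ (univ : Set ℝ) → x ∉ Metric.closedBall (0 : ℝ) (h + 2) →
      g p x = 0 := by
    intro p x _ hx
    have h2 : χ x = 0 := by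
      apply χ.zero_of_le_dist
      rw [Metric.mem_closedBall, not_le] at hx
      exact hx.le
    simp only [g, h2, mul_zero]
  have hf : LocallyIntegrable f volume := by
    apply Integrable.locallyIntegrable
    exact (integrable_indicator_iff measurableSet_Ioc).mpr (by simp)
  have hg : ContDiffOn ℝ ((⊤ : ℕ∞) : WithTop ℕ∞) ↿g ((univ : Set ℝ) ×ˢ univ) := by
    apply ContDiff.contDiffOn
    have c0 : ContDiff ℝ ((⊤ : ℕ∞) : WithTop ℕ∞) (fun q : ℝ × ℝ => ((q.1, -q.2) : ℝ × ℝ)) :=
      contDiff_fst.prodMk contDiff_snd.neg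
    have c1 : ContDiff ℝ ((⊤ : ℕ∞) : WithTop ℕ∞) (fun q : ℝ × ℝ => kr h q.1 (-q.2)) :=
      ContDiff.comp (g := fun p : ℝ × ℝ => kr h p.1 p.2)
        (f := fun q : ℝ × ℝ => ((q.1, -q.2) : ℝ × ℝ)) (kr_contDiff h1 h) c0
    have c2 : ContDiff ℝ ((⊤ : ℕ∞) : WithTop ℕ∞) (fun q : ℝ × ℝ => Y (q.1 - q.2)) :=
      hY.comp (contDiff_fst.sub contDiff_snd)
    have c3 : ContDiff ℝ ((⊤ : ℕ∞) : WithTop ℕ∞) (fun q : ℝ × ℝ => χ q.2) :=
      χ.contDiff.comp contDiff_snd
    exact (c1.mul c2).mul c3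
  have H := contDiffOn_convolution_right_with_param_comp (μ := volume) (n := (⊤ : ℕ∞))
    (ContinuousLinearMap.mul ℝ ℝ) (v := fun _ : ℝ => (0 : ℝ)) contDiffOn_const isOpen_univ hk hgs hf
    hg
  rw [contDiffOn_univ] at H
  convert H using 2 with D
  rw [MeasureTheory.convolution, intervalIntegral.integral_of_le (by linarith),
    ← integral_indicator measurableSet_Ioc]
  congr 1
  funext t
  simp only [f, g, ContinuousLinearMap.mul_apply', zero_sub, neg_neg, sub_neg_eq_add]
  by_cases ht : t ∈ Ioc (-h) h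
  · have h2 : χ (-t) = 1 := by
      apply χ.one_of_mem_closedBall
      rw [Metric.mem_closedBall, dist_zero_right, Real.norm_eq_abs, abs_neg]
      have : |t| ≤ h := abs_le.mpr ⟨ht.1.le, ht.2⟩
      change |t| ≤ h + 1
      linarith
    rw [indicator_of_mem ht, indicator_of_mem ht, h2]
    ring
  · rw [indicator_of_notMem ht, indicator_of_notMem ht, zero_mul]

lemma WoR_tst (h1 : tLE) {Y : ℝ → ℝ} (hY : Tst Y) {h : ℝ} (hh : 0 ≤ h) : Tst (WoR Y h) := by
  refine ⟨?_, ?_, ?_⟩
  · have e : WoR Y h = fun D => 1 / 2 * (Y (D + h) + Y (D - h)) +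
        1 / 2 * ∫ x in (-h)..h, kr h D x * Y (D + x) := by
      funext D
      exact WoR_eq Y h D
    rw [e]
    have c1 : ContDiff ℝ ((⊤ : ℕ∞) : WithTop ℕ∞) (fun D : ℝ => Y (D + h)) :=
      hY.smooth.comp (contDiff_id.add contDiff_const)
    have c2 : ContDiff ℝ ((⊤ : ℕ∞) : WithTop ℕ∞) (fun D : ℝ => Y (D - h)) :=
      hY.smooth.comp (contDiff_id.sub contDiff_const)
    exact (contDiff_const.mul (c1.add c2)).add (contDiff_const.mul (int_smooth h1 hY.smooth hh))
  · obtain ⟨A, hA0, hA⟩ := cpt_bound hY.cpt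
    apply HasCompactSupport.intro (isCompact_Icc (a := -(A + h)) (b := A + h))
    intro D hD
    have hD' : A + h < |D| := by
      by_contra hlt
      exact hD (abs_le.mp (not_lt.mp hlt))
    have hz : ∀ x : ℝ, |x| ≤ h → Y (D + x) = 0 := by
      intro x hx
      apply hA
      have h2 : |D| ≤ |D + x| + |x| := by
        have := abs_add_le (D + x) (-x)
        rw [abs_neg] at this
        simpa using this
      linarith
    rw [WoR_eq, hz h (by rw [abs_of_nonneg hh]),
      show Y (D - h) = 0 from by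
        have := hz (-h) (by rw [abs_neg, abs_of_nonneg hh])
        simpa [sub_eq_add_neg] using this]
    have h3 : ∫ x in (-h)..h, kr h D x * Y (D + x) = ∫ x in (-h)..h, (0 : ℝ) := by
      apply intervalIntegral.integral_congr
      intro x hx
      rw [uIcc_of_le (by linarith)] at hx
      simp only [hz x (abs_le.mpr hx), mul_zero]
    rw [h3]
    simp
  · intro D
    rw [WoR_eq, WoR_eq]
    have e1 : Y (-D + h) = Y (D - h) := by
      rw [← hY.even (D - h)]
      congr 1
      ring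
    have e2 : Y (-D - h) = Y (D + h) := by
      rw [← hY.even (D + h)]
      congr 1
      ring
    have e3 : ∫ x in (-h)..h, kr h (-D) x * Y (-D + x) = ∫ x in (-h)..h, kr h D x * Y (D + x) := by
      have h2 := intervalIntegral.integral_comp_neg (a := -h) (b := h)
        (fun x => kr h (-D) x * Y (-D + x))
      rw [neg_neg] at h2
      rw [← h2]
      apply intervalIntegral.integral_congr
      intro x _
      simp only
      rw [kr_neg, ← hY.even (D + x)]
      congr 2
      ring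
    rw [e1, e2, e3]
    ring

end WAN_

open WAN_ in
theorem pWT (h1 : tLE) (_h2 : tGEO) : tWT := by
  intro G Y h hG hY hh
  refine ⟨WoR_tst h1 hY hh, ?_⟩
  obtain ⟨A, hA0, hA⟩ := cpt_bound hY.cpt
  -- the restriction of `G` to the real line
  set g : ℝ → ℂ := fun D => G (D : ℂ) with hg
  have hgc : Continuous g :=
    hG.continuousOn.comp_continuous Complex.continuous_ofReal (fun x => real_mem x)
  have hYc : Continuous Y := hY.smooth.continuous
  have hkc : Continuous (fun p : ℝ × ℝ => kr h p.1 p.2) := (kr_contDiff h1 h).continuous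
  have hint : ∀ f : ℝ → ℂ, Continuous f → (∀ D, A + h < |D| → f D = 0) → Integrable f volume := by
    intro f hf hf0
    apply hf.integrable_of_hasCompactSupport
    apply HasCompactSupport.intro (isCompact_Icc (a := -(A + h)) (b := A + h))
    intro D hD
    apply hf0
    by_contra hlt
    exact hD (abs_le.mp (not_lt.mp hlt))
  have hYs : ∀ (x D : ℝ), |x| ≤ h → A + h < |D| → Y (D + x) = 0 := by
    intro x D hx hD
    apply hA
    have h2 : |D| ≤ |D + x| + |x| := by
      have := abs_add_le (D + x) (-x)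
      rw [abs_neg] at this
      simpa using this
    linarith
  have hhh : |h| ≤ h := by rw [abs_of_nonneg hh]
  have hnh : |(-h)| ≤ h := by rw [abs_neg, abs_of_nonneg hh]
  -- continuity of the inner integrals
  have hI1 : Continuous (fun D : ℝ => ∫ x in (-h)..h, (kr h D x : ℂ) * g (D + x)) := by
    apply intervalIntegral.continuous_parametric_intervalIntegral_of_continuous'
    have : Continuous (fun p : ℝ × ℝ => ((kr h p.1 p.2 : ℝ) : ℂ) * g (p.1 + p.2)) :=
      (Complex.continuous_ofReal.comp hkc).mul (hgc.comp (continuous_fst.add continuous_snd))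
    exact this
  have hI2 : Continuous (fun D : ℝ => ∫ x in (-h)..h, (kr h D x : ℂ) * (Y (D + x) : ℂ)) := by
    apply intervalIntegral.continuous_parametric_intervalIntegral_of_continuous'
    have : Continuous (fun p : ℝ × ℝ => ((kr h p.1 p.2 : ℝ) : ℂ) * ((Y (p.1 + p.2) : ℝ) : ℂ)) :=
      (Complex.continuous_ofReal.comp hkc).mul
        (Complex.continuous_ofReal.comp (hYc.comp (continuous_fst.add continuous_snd)))
    exact this
  -- the two shifts
  have T1 : ∫ D : ℝ, g (D + h) * (Y D : ℂ) = ∫ D : ℝ, g D * (Y (D - h) : ℂ) := by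
    have := integral_add_right_eq_self (μ := (volume : Measure ℝ))
      (fun D : ℝ => g D * (Y (D - h) : ℂ)) h
    simpa using this
  have T2 : ∫ D : ℝ, g (D - h) * (Y D : ℂ) = ∫ D : ℝ, g D * (Y (D + h) : ℂ) := by
    have := integral_sub_right_eq_self (μ := (volume : Measure ℝ))
      (fun D : ℝ => g D * (Y (D + h) : ℂ)) h
    simpa using this
  -- the kernel part
  have T3 : ∫ D : ℝ, (∫ x in (-h)..h, (kr h D x : ℂ) * g (D + x)) * (Y D : ℂ) =
      ∫ D : ℝ, g D * ∫ x in (-h)..h, (kr h D x : ℂ) * (Y (D + x) : ℂ) := by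
    have a1 : ∫ D : ℝ, (∫ x in (-h)..h, (kr h D x : ℂ) * g (D + x)) * (Y D : ℂ) =
        ∫ D : ℝ, ∫ x in (-h)..h, (kr h D x : ℂ) * g (D + x) * (Y D : ℂ) := by
      congr 1
      funext D
      rw [intervalIntegral.integral_mul_const]
    have a2 := swap (A := A + h) hh (f := fun D x => (kr h D x : ℂ) * g (D + x) * (Y D : ℂ))
      (by
        have : Continuous (fun p : ℝ × ℝ => ((kr h p.1 p.2 : ℝ) : ℂ) * g (p.1 + p.2) *
            ((Y p.1 : ℝ) : ℂ)) :=
          ((Complex.continuous_ofReal.comp hkc).mul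
            (hgc.comp (continuous_fst.add continuous_snd))).mul
            (Complex.continuous_ofReal.comp (hYc.comp continuous_fst))
        exact this)
      (by
        intro D x hD _
        rw [hA D (by linarith)]
        simp)
    have a3 : ∀ x : ℝ, ∫ D : ℝ, (kr h D x : ℂ) * g (D + x) * (Y D : ℂ) =
        ∫ D : ℝ, (kr h D (-x) : ℂ) * g D * (Y (D - x) : ℂ) := by
      intro x
      have h3 := integral_sub_right_eq_self (μ := (volume : Measure ℝ))
        (fun D : ℝ => (kr h D x : ℂ) * g (D + x) * (Y D : ℂ)) x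
      rw [← h3]
      congr 1
      funext D
      simp only [kr_symm, sub_add_cancel]
    have a4 := swap (A := A + h) hh
      (f := fun D x => (kr h D (-x) : ℂ) * g D * (Y (D - x) : ℂ))
      (by
        have : Continuous (fun p : ℝ × ℝ => ((kr h p.1 (-p.2) : ℝ) : ℂ) * g p.1 *
            ((Y (p.1 - p.2) : ℝ) : ℂ)) :=
          ((Complex.continuous_ofReal.comp (hkc.comp (continuous_fst.prodMk continuous_snd.neg))).mul
            (hgc.comp continuous_fst)).mul
            (Complex.continuous_ofReal.comp (hYc.comp (continuous_fst.sub continuous_snd)))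
        exact this)
      (by
        intro D x hD hx
        have := hYs (-x) D (by rw [abs_neg]; exact hx) hD
        rw [sub_eq_add_neg, this]
        simp)
    rw [a1, a2]
    simp only [a3]
    rw [← a4]
    congr 1
    funext D
    have h4 := intervalIntegral.integral_comp_neg (a := -h) (b := h)
      (fun x => (kr h D x : ℂ) * g D * (Y (D + x) : ℂ))
    rw [neg_neg] at h4
    have h5 : ∫ x in (-h)..h, (kr h D (-x) : ℂ) * g D * (Y (D - x) : ℂ) =
        ∫ x in (-h)..h, (kr h D x : ℂ) * g D * (Y (D + x) : ℂ) := by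
      rw [← h4]
      rfl
    rw [h5, ← intervalIntegral.integral_const_mul]
    apply intervalIntegral.integral_congr
    intro x _
    simp only
    ring
  -- assembly
  have L : ∀ D : ℝ, Wo G h D * (Y D : ℂ) = 1 / 2 * (g (D + h) * (Y D : ℂ)) +
      1 / 2 * (g (D - h) * (Y D : ℂ)) +
      1 / 2 * ((∫ x in (-h)..h, (kr h D x : ℂ) * g (D + x)) * (Y D : ℂ)) := by
    intro D
    rw [Wo_eq]
    simp only [hg]
    ring
  have R : ∀ D : ℝ, G D * (WoR Y h D : ℂ) = 1 / 2 * (g D * (Y (D - h) : ℂ)) +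
      1 / 2 * (g D * (Y (D + h) : ℂ)) +
      1 / 2 * (g D * ∫ x in (-h)..h, (kr h D x : ℂ) * (Y (D + x) : ℂ)) := by
    intro D
    rw [WoR_eq]
    have h6 : ((∫ x in (-h)..h, kr h D x * Y (D + x) : ℝ) : ℂ) =
        ∫ x in (-h)..h, (kr h D x : ℂ) * (Y (D + x) : ℂ) := by
      rw [← intervalIntegral.integral_ofReal]
      apply intervalIntegral.integral_congr
      intro x _
      simp
    push_cast
    rw [h6]
    simp only [hg]
    ring
  have cY : Continuous (fun D : ℝ => (Y D : ℂ)) := Complex.continuous_ofReal.comp hYc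
  have i1 : Integrable (fun D : ℝ => g (D + h) * (Y D : ℂ)) volume := by
    apply hint
    · exact (hgc.comp (continuous_id.add continuous_const)).mul cY
    · intro D hD
      rw [hA D (by linarith)]
      simp
  have i2 : Integrable (fun D : ℝ => g (D - h) * (Y D : ℂ)) volume := by
    apply hint
    · exact (hgc.comp (continuous_id.sub continuous_const)).mul cY
    · intro D hD
      rw [hA D (by linarith)]
      simp
  have i3 : Integrable (fun D : ℝ => (∫ x in (-h)..h, (kr h D x : ℂ) * g (D + x)) * (Y D : ℂ))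
      volume := by
    apply hint
    · exact hI1.mul cY
    · intro D hD
      rw [hA D (by linarith)]
      simp
  have j1 : Integrable (fun D : ℝ => g D * (Y (D - h) : ℂ)) volume := by
    apply hint
    · exact hgc.mul (cY.comp (continuous_id.sub continuous_const))
    · intro D hD
      have := hYs (-h) D hnh hD
      rw [sub_eq_add_neg, this]
      simp
  have j2 : Integrable (fun D : ℝ => g D * (Y (D + h) : ℂ)) volume := by
    apply hint
    · exact hgc.mul (cY.comp (continuous_id.add continuous_const))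
    · intro D hD
      rw [hYs h D hhh hD]
      simp
  have j3 : Integrable (fun D : ℝ => g D * ∫ x in (-h)..h, (kr h D x : ℂ) * (Y (D + x) : ℂ))
      volume := by
    apply hint
    · exact hgc.mul hI2
    · intro D hD
      have h3 : ∫ x in (-h)..h, (kr h D x : ℂ) * (Y (D + x) : ℂ) = ∫ x in (-h)..h, (0 : ℂ) := by
        apply intervalIntegral.integral_congr
        intro x hx
        rw [uIcc_of_le (by linarith)] at hx
        simp only [hYs x D (abs_le.mpr hx) hD, Complex.ofReal_zero, mul_zero]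
      rw [h3]
      simp
  simp only [L, R]
  rw [tri i1 i2 i3, tri j1 j2 j3, T1, T2, T3]

end FMZ
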