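import Pool.Agent.FMZ.Spec

/-!
# FMZ: targets on the functions ph, J, Hf and on zeta
-/

open Complex MeasureTheory Set Filter Topology

namespace FMZ

/-- the cone: for |Im d| ≤ b, lower bounds of g₊, g₋ and of their arguments -/
def tCONE : Prop := ∀ (d : ℂ) (v b : ℝ), |d.im| ≤ b → b < Real.pi / 2 →
  0 < (gp v d).re + (gm v d).re ∧ gp v d ∈ slitPlane ∧ gm v d ∈ slitPlane ∧
  |(gp v d).arg| ≤ b ∧ |(gm v d).arg| ≤ b ∧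
  Real.cos b * (Real.exp d.re * (Real.cosh v + 1) + Real.exp (-d.re) * (Real.cosh v - 1)) ≤
    ‖2 * gp v d‖ ∧
  Real.cos b * (Real.exp (-d.re) * (Real.cosh v + 1) + Real.exp d.re * (Real.cosh v - 1)) ≤
    ‖2 * gm v d‖

/-- bound of the integrand, for |Im d| ≤ b -/
def tPHB : Prop := ∀ (s d : ℂ) (v b : ℝ), |d.im| ≤ b → b < Real.pi / 2 →
  ‖(2 * gp v d) ^ (-s)‖ ≤ ‖2 * gp v d‖ ^ (-s.re) * Real.exp (b * |s.im|) ∧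
  ‖(2 * gm v d) ^ (-s)‖ ≤ ‖2 * gm v d‖ ^ (-s.re) * Real.exp (b * |s.im|)

/-- analyticity of 𝔍 in all variables -/
def tJAN : Prop :=
  (∀ s w : ℂ, |w.re| < s.re → DifferentiableOn ℂ (fun d => JJ s w d) S0 ∧
    ∀ d ∈ S0, JJ s w (-d) = JJ s w d ∧ Integrable (fun v : ℝ => ph s v d * Complex.exp (w * v))) ∧
  (∀ s : ℂ, 0 < s.re → ∀ d ∈ S0, DD (fun d => JJ s 0 d) d = s * (1 - s) * JJ s 0 d) ∧
  (∀ (w d : ℂ), d ∈ S0 → DifferentiableOn ℂ (fun s => JJ s w d) {s : ℂ | |w.re| < s.re}) ∧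
  ∀ s : ℂ, 0 < s.re → JJ s 0 0 = Gamma (s / 2) ^ 2 / Gamma s

/-- continuity and boundedness in (s, d) on compact sets -/
def tJBD : Prop := ∀ (σ₀ σ₁ b A : ℝ), 0 < σ₀ → b < Real.pi / 2 → ∃ C, ∀ (s d : ℂ), σ₀ ≤ s.re →
  s.re ≤ σ₁ → |d.im| ≤ b → |d.re| ≤ A → ‖JJ s 0 d‖ ≤ C * Real.exp (b * |s.im|)

/-- convexity bound for zeta on the critical line -/
def tZLB : Prop := ∃ C : ℝ, 0 < C ∧ ∀ t : ℝ, ‖zh t‖ ≤ C * (1 + |t|) ^ (2 / 5 : ℝ)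

/-- lower bound for zeta on and to the right of the line Re s = 1 -/
def tZLOW : Prop := ∀ ε : ℝ, 0 < ε → ∃ c : ℝ, 0 < c ∧ ∀ σ t : ℝ, 1 ≤ σ → 1 ≤ |t| →
  c * |t| ^ (-ε) ≤ ‖riemannZeta (σ + t * I)‖

/-- bounds of Hf -/
def tHB : Prop := Measurable Hf ∧ (∃ C : ℝ, 0 < C ∧ ∀ t : ℝ, |t| ≤ 1 → ‖Hf t‖ ≤ C) ∧
  ∃ C : ℝ, 0 < C ∧ ∀ t : ℝ, 1 ≤ |t| → ‖Hf t‖ ≤
    C * ‖zh t‖ ^ 6 / (|t| * ‖riemannZeta (1 + 2 * t * I)‖ ^ 2) * Real.exp (-(Real.pi * |t| / 2))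

/-- superpositions of the spectral solutions -/
def tGEN : Prop := ∀ H : ℝ → ℂ, AEStronglyMeasurable H volume →
  (∀ b' < Real.pi / 2, Integrable (fun t => ‖H t‖ * Real.exp (b' * |t|))) →
  DifferentiableOn ℂ (fun d => ∫ t : ℝ, H t * Jk t d) S0 ∧
  (∀ d ∈ S0, Integrable (fun t => H t * Jk t d)) ∧
  ∀ (M : ℕ), ∀ d ∈ S0, (DD^[M] (fun d => ∫ t : ℝ, H t * Jk t d)) d =
    ∫ t : ℝ, (H t * ((1 / 4 + t ^ 2) ^ M : ℝ)) * Jk t d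

/-- conjugation symmetry of J0 etc. is not needed; size of J_k on the imaginary axis -/
def tJIM : Prop := ∃ C : ℝ, 0 < C ∧ ∀ (κ ψ : ℝ), Real.pi / 4 ≤ ψ → ψ < Real.pi / 2 →
  ‖Jk κ (ψ * I)‖ ≤ C * (1 - Real.log (Real.cos ψ)) * Real.exp (ψ * |κ|)

/-- the crude Laplace bound from the hypothesis -/
def tLAP : Prop := ∀ (P : Polynomial ℝ) (C : ℝ), Hyp P C → ∀ a ε : ℝ, 0 < ε → -1 < a → a ≤ 1 →
  ∃ C', ∀ s : ℝ, 0 < s → s ≤ 1 →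
    IntegrableOn (fun t : ℝ => ‖zh t‖ ^ 4 * t ^ a * Real.exp (-(s * t))) (Ioi 1) ∧
    ∫ t in Ioi (1 : ℝ), ‖zh t‖ ^ 4 * t ^ a * Real.exp (-(s * t)) ≤ C' * s ^ (-(1 + a + ε))

end FMZ
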