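import Pool.Agent.FMZ.TW
import Pool.Agent.FMZ.TJ

/-!
# FMZ-W10: the wave argument
-/

open Complex MeasureTheory Set Filter Topology

namespace FMZ
namespace WAVE_

/-- multiplication by √cosh -/
noncomputable def sqc (g : ℂ → ℂ) : ℂ → ℂ := fun d => (Complex.cosh d) ^ (1 / 2 : ℂ) * g d

theorem cosh_re' (d : ℂ) : (Complex.cosh d).re = Real.cosh d.re * Real.cos d.im := by
  conv_lhs => rw [← Complex.re_add_im d, Complex.cosh_add, Complex.cosh_mul_I, Complex.sinh_mul_I]
  rw [← Complex.ofReal_cosh, ← Complex.ofReal_sinh, ← Complex.ofReal_cos, ← Complex.ofReal_sin]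
  rw [← Complex.ofReal_mul, ← mul_assoc, ← Complex.ofReal_mul, Complex.add_re, Complex.ofReal_re,
    Complex.re_ofReal_mul, Complex.I_re, mul_zero, add_zero]

theorem isOpen_S0 : IsOpen S0 := by
  have : Continuous fun d : ℂ => |d.im| := by fun_prop
  exact isOpen_lt this continuous_const

theorem cosh_slit {d : ℂ} (hd : d ∈ S0) : Complex.cosh d ∈ slitPlane := by
  left
  rw [cosh_re']
  have h1 : 0 < Real.cosh d.re := Real.cosh_pos _
  have h2 : 0 < Real.cos d.im := by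
    have h3 : |d.im| < Real.pi / 2 := hd
    rw [abs_lt] at h3
    exact Real.cos_pos_of_mem_Ioo ⟨by linarith [h3.1], h3.2⟩
  positivity

theorem diff_sq {g : ℂ → ℂ} (hg : DifferentiableOn ℂ g S0) : DifferentiableOn ℂ (sqc g) S0 := by
  intro d hd
  have h1 : DifferentiableAt ℂ (fun d : ℂ => (Complex.cosh d) ^ (1 / 2 : ℂ)) d := by
    apply DifferentiableAt.cpow_const
    · exact Complex.differentiable_cosh d
    · exact cosh_slit hd
  exact (h1.differentiableWithinAt).mul (hg d hd)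

theorem norm_cosh_le (d : ℂ) : ‖Complex.cosh d‖ ≤ Real.exp |d.re| := by
  rw [Complex.cosh]
  have h1 : ‖Complex.exp d + Complex.exp (-d)‖ ≤ Real.exp d.re + Real.exp (-d.re) := by
    refine (norm_add_le _ _).trans ?_
    rw [Complex.norm_exp, Complex.norm_exp, Complex.neg_re]
  have h2 : Real.exp d.re ≤ Real.exp |d.re| := Real.exp_le_exp.2 (le_abs_self _)
  have h3 : Real.exp (-d.re) ≤ Real.exp |d.re| := Real.exp_le_exp.2 (neg_le_abs _)
  rw [norm_div]
  have h4 : ‖(2 : ℂ)‖ = 2 := by simp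
  rw [h4]
  linarith

theorem norm_sqrt_le (d : ℂ) : ‖(Complex.cosh d) ^ (1 / 2 : ℂ)‖ ≤ Real.exp (|d.re| / 2) := by
  have h1 : ‖(Complex.cosh d) ^ (1 / 2 : ℂ)‖ = ‖Complex.cosh d‖ ^ (1 / 2 : ℝ) := by
    have := Complex.norm_cpow_real (Complex.cosh d) (1 / 2 : ℝ)
    rw [← this]
    congr 2
    push_cast
    rfl
  rw [h1]
  have h2 := Real.rpow_le_rpow (norm_nonneg _) (norm_cosh_le d) (by norm_num : (0 : ℝ) ≤ 1 / 2)
  refine h2.trans ?_
  rw [← Real.exp_mul]
  apply le_of_eq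
  congr 1
  ring

theorem sq_even {g : ℂ → ℂ} (hg : ∀ d ∈ S0, g (-d) = g d) : ∀ d ∈ S0, sqc g (-d) = sqc g d := by
  intro d hd
  simp only [sqc, Complex.cosh_neg, hg d hd]

theorem add_mem {D : ℂ} (hD : D ∈ S0) (x : ℝ) : D + x ∈ S0 := by
  simpa [S0] using hD

theorem neg_mem {D : ℂ} (hD : D ∈ S0) : -D ∈ S0 := by
  simpa [S0] using hD

theorem real_mem (x : ℝ) : (x : ℂ) ∈ S0 := by
  simp [S0, Real.pi_pos]

theorem cont_shift {G : ℂ → ℂ} (hG : DifferentiableOn ℂ G S0) {D : ℂ} (hD : D ∈ S0) :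
    Continuous fun x : ℝ => G (D + x) := by
  have h1 : ContinuousOn G S0 := hG.continuousOn
  exact h1.comp_continuous (by fun_prop) (fun x => add_mem hD x)

theorem int_K (hK : tK2) {G : ℂ → ℂ} (hG : DifferentiableOn ℂ G S0) {D : ℂ} (hD : D ∈ S0)
    {h : ℝ} (hh : 0 ≤ h) :
    IntervalIntegrable (fun x : ℝ => Kk D h x * G (D + x)) volume (-h) h := by
  apply ContinuousOn.intervalIntegrable_of_Icc (by linarith)
  exact (hK.1 D hD h hh).mul (cont_shift hG hD).continuousOn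

theorem Wo_congr {G₁ G₂ : ℂ → ℂ} (h12 : ∀ d ∈ S0, G₁ d = G₂ d) {D : ℂ} (hD : D ∈ S0) (h : ℝ) :
    Wo G₁ h D = Wo G₂ h D := by
  unfold Wo
  have e1 : G₁ (D + h) = G₂ (D + h) := h12 _ (add_mem hD h)
  have e2 : G₁ (D - h) = G₂ (D - h) := by
    have := h12 _ (add_mem hD (-h))
    simpa [sub_eq_add_neg] using this
  have e3 : ∀ x : ℝ, G₁ (D + x) = G₂ (D + x) := fun x => h12 _ (add_mem hD x)
  simp only [e1, e2, e3]

theorem Wo_sub (hK : tK2) {G₁ G₂ : ℂ → ℂ} (h1 : DifferentiableOn ℂ G₁ S0)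
    (h2 : DifferentiableOn ℂ G₂ S0) {D : ℂ} (hD : D ∈ S0) {h : ℝ} (hh : 0 ≤ h) :
    Wo (fun d => G₁ d - G₂ d) h D = Wo G₁ h D - Wo G₂ h D := by
  unfold Wo
  have e : ∫ x in (-h)..h, Kk D h x * (G₁ (D + x) - G₂ (D + x)) =
      (∫ x in (-h)..h, Kk D h x * G₁ (D + x)) - ∫ x in (-h)..h, Kk D h x * G₂ (D + x) := by
    rw [← intervalIntegral.integral_sub (int_K hK h1 hD hh) (int_K hK h2 hD hh)]
    congr 1
    ext x
    ring
  simp only [e]
  ring

theorem Kk_neg (D : ℂ) (h x : ℝ) : Kk (-D) h x = Kk D h (-x) := by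
  have e : Complex.cosh (-D + x) = Complex.cosh (D + ((-x : ℝ) : ℂ)) := by
    rw [← Complex.cosh_neg]
    congr 1
    push_cast
    ring
  simp only [Kk, wk, Complex.cosh_neg, e, Real.cosh_neg]

theorem Wo_even {G : ℂ → ℂ} (hG : ∀ d ∈ S0, G (-d) = G d) {D : ℂ} (hD : D ∈ S0) (h : ℝ) :
    Wo G h (-D) = Wo G h D := by
  unfold Wo
  have e1 : G (-D + h) = G (D - h) := by
    have := hG (D - h) (by simpa [sub_eq_add_neg] using add_mem hD (-h))
    rw [← this]; congr 1; ring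
  have e2 : G (-D - h) = G (D + h) := by
    have := hG (D + h) (add_mem hD h)
    rw [← this]; congr 1; ring
  have e3 : ∫ x in (-h)..h, Kk (-D) h x * G (-D + x) = ∫ x in (-h)..h, Kk D h x * G (D + x) := by
    have e4 : ∀ x : ℝ, Kk (-D) h x * G (-D + x) =
        (fun y : ℝ => Kk D h y * G (D + y)) (-x) := by
      intro x
      simp only [Kk_neg]
      congr 1
      have := hG (D + ((-x : ℝ) : ℂ)) (add_mem hD (-x))
      rw [← this]; congr 1; push_cast; ring
    simp only [e4]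
    rw [intervalIntegral.integral_comp_neg (fun y : ℝ => Kk D h y * G (D + y))]
    simp
  rw [e1, e2, e3]
  ring

theorem Wo_bound (hK : tK2) {G : ℂ → ℂ} {D : ℂ} (hD : D ∈ S0)
    {h M C : ℝ} (hh : 0 ≤ h) (hM : ∀ x : ℝ, ‖G (D + x)‖ ≤ M)
    (hC : ∫ x in (-h)..h, ‖Kk D h x‖ ≤ C) :
    ‖Wo G h D‖ ≤ M + 1 / 2 * (C * M) := by
  unfold Wo
  have hM0 : 0 ≤ M := (norm_nonneg _).trans (hM 0)
  have e1 := hM h
  have e2 := hM (-h)
  have e2' : ‖G (D - h)‖ ≤ M := by simpa [sub_eq_add_neg] using e2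
  have hKi : IntervalIntegrable (fun x : ℝ => ‖Kk D h x‖) volume (-h) h := by
    apply ContinuousOn.intervalIntegrable_of_Icc (by linarith)
    exact (hK.1 D hD h hh).norm
  have e3 : ‖∫ x in (-h)..h, Kk D h x * G (D + x)‖ ≤ C * M := by
    refine (intervalIntegral.norm_integral_le_of_norm_le (g := fun x => ‖Kk D h x‖ * M)
      (by linarith) ?_ (hKi.mul_const M)).trans ?_
    · refine Filter.Eventually.of_forall fun x _ => ?_
      rw [norm_mul]
      exact mul_le_mul_of_nonneg_left (hM x) (norm_nonneg _)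
    · rw [intervalIntegral.integral_mul_const]
      exact mul_le_mul_of_nonneg_right hC hM0
  have e4 : ‖(1 / 2 : ℂ) * (G (D + h) + G (D - h))‖ ≤ M := by
    rw [norm_mul]
    have : ‖(1 / 2 : ℂ)‖ = 1 / 2 := by simp
    rw [this]
    have := norm_add_le (G (D + h)) (G (D - h))
    linarith
  have e5 : ‖(1 / 2 : ℂ) * ∫ x in (-h)..h, Kk D h x * G (D + x)‖ ≤ 1 / 2 * (C * M) := by
    rw [norm_mul]
    have : ‖(1 / 2 : ℂ)‖ = 1 / 2 := by simp
    rw [this]
    linarith
  exact (norm_add_le _ _).trans (add_le_add e4 e5)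

/-- change of variables t = sinh D -/
theorem cov (φ : ℝ → ℂ) : ∫ t : ℝ, φ t = ∫ D : ℝ, (Real.cosh D : ℂ) * φ (Real.sinh D) := by
  have h1 := MeasureTheory.integral_image_eq_integral_abs_deriv_smul (s := univ)
    MeasurableSet.univ (f := Real.sinh) (f' := Real.cosh)
    (fun x _ => (Real.hasDerivAt_sinh x).hasDerivWithinAt) (Real.sinh_injective.injOn) φ
  rw [image_univ, Real.sinh_surjective.range_eq] at h1
  simp only [Measure.restrict_univ] at h1
  rw [h1]
  congr 1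
  ext D
  rw [abs_of_pos (Real.cosh_pos D), Complex.real_smul]

/-- the transferred test function -/
noncomputable def tr (Y : ℝ → ℝ) : ℝ → ℝ := fun t => Y (Real.arsinh t) * (1 + t ^ 2) ^ (-(1 / 4) : ℝ)

theorem tst_tr {Y : ℝ → ℝ} (hY : Tst Y) : Tst (tr Y) := by
  refine ⟨?_, ?_, ?_⟩
  · apply ContDiff.mul
    · exact hY.smooth.comp Real.contDiff_arsinh
    · apply ContDiff.rpow_const_of_ne
      · fun_prop
      · intro x; positivity
  · apply HasCompactSupport.mul_right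
    have h1 : Topology.IsClosedEmbedding Real.arsinh := by
      have := Real.sinhHomeomorph.symm.isClosedEmbedding
      exact this
    exact hY.cpt.comp_isClosedEmbedding h1
  · intro t
    simp only [tr, Real.arsinh_neg, hY.even, neg_sq]

theorem int_tr (u : ℂ → ℂ) (Y : ℝ → ℝ) :
    ∫ t : ℝ, u (Real.arsinh t : ℝ) * tr Y t = ∫ D : ℝ, sqc u D * Y D := by
  rw [cov]
  congr 1
  ext D
  rw [Real.arsinh_sinh]
  have h0 : 0 < Real.cosh D := Real.cosh_pos D
  have h1 : tr Y (Real.sinh D) = Y D * (Real.cosh D) ^ (-(1 / 2) : ℝ) := by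
    simp only [tr, Real.arsinh_sinh]
    congr 1
    have : 1 + Real.sinh D ^ 2 = (Real.cosh D) ^ (2 : ℝ) := by
      rw [Real.rpow_two]
      linarith [Real.cosh_sq D]
    rw [this, ← Real.rpow_mul h0.le]
    norm_num
  have h2 : (Complex.cosh D) ^ (1 / 2 : ℂ) = ((Real.cosh D ^ (1 / 2 : ℝ) : ℝ) : ℂ) := by
    rw [Complex.ofReal_cpow h0.le, Complex.ofReal_cosh]
    push_cast
    rfl
  have h3 : Real.cosh D * (Real.cosh D) ^ (-(1 / 2) : ℝ) = Real.cosh D ^ (1 / 2 : ℝ) := by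
    nth_rewrite 1 [← Real.rpow_one (Real.cosh D)]
    rw [← Real.rpow_add h0]
    norm_num
  simp only [sqc]
  rw [h1, h2, ← h3]
  push_cast
  ring

theorem cosh_imag (b : ℝ) : Complex.cosh (b * I) = (Real.cos b : ℂ) := by
  rw [Complex.cosh_mul_I, Complex.ofReal_cos]

theorem sq_imag {gc : ℂ → ℂ} {b : ℝ} (hb : 0 ≤ Real.cos b) :
    ‖sqc gc (b * I)‖ = √(Real.cos b) * ‖gc (b * I)‖ := by
  simp only [sqc]
  rw [norm_mul, cosh_imag]
  congr 1
  have := Complex.norm_cpow_real (Real.cos b : ℂ) (1 / 2 : ℝ)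
  have h2 : ((1 / 2 : ℝ) : ℂ) = 1 / 2 := by push_cast; rfl
  rw [h2] at this
  rw [this, Complex.norm_real, Real.norm_of_nonneg hb, Real.sqrt_eq_rpow]

theorem sq_bound {g : ℂ → ℂ} {M : ℝ} {d : ℂ} (h : ‖g d‖ ≤ M * Real.exp (-(|d.re| / 2))) :
    ‖sqc g d‖ ≤ M := by
  simp only [sqc]
  rw [norm_mul]
  have h1 := norm_sqrt_le d
  have h3 := mul_le_mul h1 h (norm_nonneg _) (Real.exp_pos _).le
  refine h3.trans (le_of_eq ?_)
  rw [mul_left_comm, ← Real.exp_add]
  simp

/-- the final estimate of the main part on the imaginary axis -/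
theorem main_est (hK : tK2) {G : ℂ → ℂ} {b : ℝ}
    (hb : |b| < Real.pi / 2) {C B M A : ℝ} (hB : 0 ≤ B) (hM0 : 0 ≤ M) (hA : 0 ≤ A)
    (hC : ∀ h : ℝ, 0 ≤ h → ∫ x in (-h)..h, ‖Kk (b * I) h x‖ ≤ C)
    (hM : ∀ x : ℝ, ‖G (b * I + x)‖ ≤ M) (hBx : ∀ x : ℝ, A ≤ |x| → ‖G (b * I + x)‖ ≤ B)
    {ε : ℝ} (hε : 0 ≤ ε) {h : ℝ} (hh : A ≤ h) (hKs : ∀ x : ℝ, |x| ≤ A → ‖Kk (b * I) h x‖ ≤ ε) :
    ‖Wo G h (b * I)‖ ≤ B + 1 / 2 * (C * B + 2 * A * (ε * M)) := by
  have hD : (b * I : ℂ) ∈ S0 := by simpa [S0] using hb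
  have hh0 : 0 ≤ h := hA.trans hh
  have e1 : ‖G (b * I + h)‖ ≤ B := hBx h (by rwa [abs_of_nonneg hh0])
  have e2' : ‖G (b * I - h)‖ ≤ B := by
    have := hBx (-h) (by rwa [abs_neg, abs_of_nonneg hh0])
    simpa [sub_eq_add_neg] using this
  have hKi : IntervalIntegrable (fun x : ℝ => ‖Kk (b * I) h x‖) volume (-h) h := by
    apply ContinuousOn.intervalIntegrable_of_Icc (by linarith)
    exact (hK.1 _ hD h hh0).norm
  have hind : Integrable (Set.indicator (Icc (-A) A) (fun _ : ℝ => ε * M)) volume := by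
    rw [integrable_indicator_iff measurableSet_Icc]
    exact integrableOn_const (by simp)
  have hint2 : ∫ x in (-h)..h, Set.indicator (Icc (-A) A) (fun _ : ℝ => ε * M) x ≤
      2 * A * (ε * M) := by
    rw [intervalIntegral.integral_of_le (by linarith)]
    refine (MeasureTheory.setIntegral_le_integral hind ?_).trans ?_
    · exact Filter.Eventually.of_forall fun x => Set.indicator_nonneg (fun _ _ => by positivity) x
    · rw [MeasureTheory.integral_indicator measurableSet_Icc, MeasureTheory.setIntegral_const]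
      simp only [smul_eq_mul]
      apply le_of_eq
      rw [Real.volume_real_Icc_of_le (by linarith)]
      ring
  have e3 : ‖∫ x in (-h)..h, Kk (b * I) h x * G (b * I + x)‖ ≤ C * B + 2 * A * (ε * M) := by
    refine (intervalIntegral.norm_integral_le_of_norm_le
      (g := fun x => ‖Kk (b * I) h x‖ * B + Set.indicator (Icc (-A) A) (fun _ : ℝ => ε * M) x)
      (by linarith) ?_ ((hKi.mul_const B).add hind.intervalIntegrable)).trans ?_
    · refine Filter.Eventually.of_forall fun x _ => ?_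
      rw [norm_mul]
      by_cases hx : |x| ≤ A
      · have hx' : x ∈ Icc (-A) A := abs_le.1 hx
        rw [Set.indicator_of_mem hx']
        have := mul_le_mul (hKs x hx) (hM x) (norm_nonneg _) hε
        have h2 : 0 ≤ ‖Kk (b * I) h x‖ * B := by positivity
        linarith
      · have hx' : x ∉ Icc (-A) A := fun h => hx (abs_le.2 h)
        rw [Set.indicator_of_notMem hx', add_zero]
        exact mul_le_mul_of_nonneg_left (hBx x (by linarith)) (norm_nonneg _)
    · rw [intervalIntegral.integral_add (hKi.mul_const B) hind.intervalIntegrable,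
        intervalIntegral.integral_mul_const]
      exact add_le_add (mul_le_mul_of_nonneg_right (hC h hh0) hB) hint2
  unfold Wo
  have e4 : ‖(1 / 2 : ℂ) * (G (b * I + h) + G (b * I - h))‖ ≤ B := by
    rw [norm_mul]
    have : ‖(1 / 2 : ℂ)‖ = 1 / 2 := by simp
    rw [this]
    have := norm_add_le (G (b * I + h)) (G (b * I - h))
    linarith
  have e5 : ‖(1 / 2 : ℂ) * ∫ x in (-h)..h, Kk (b * I) h x * G (b * I + x)‖ ≤
      1 / 2 * (C * B + 2 * A * (ε * M)) := by
    rw [norm_mul]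
    have : ‖(1 / 2 : ℂ)‖ = 1 / 2 := by simp
    rw [this]
    linarith
  exact (norm_add_le _ _).trans (add_le_add e4 e5)

end WAVE_

open WAVE_ in
theorem pWAVE (h1 : ANAJ) (h2 : BNDJ) (h3 : tK1) (h4 : tK2) (h5 : tWAN) (h6 : tWT) (h7 : tDIR)
    (h8 : tVIT) (h9 : tDISP) (h10 : tQK) (h11 : tPROD) (h12 : tGEN) : WAVE := by
  obtain ⟨⟨C, hC0, hC⟩, hKs⟩ := h3
  refine ⟨1 + C / 2, by positivity, ?_⟩
  intro g gc H κ c B b hb0 hb hg hgev hgM hHm hHi hgc hspec hgB
  have hpi := Real.pi_pos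
  have hbabs : |b| < Real.pi / 2 := by rwa [abs_of_pos hb0]
  have hcosb : 0 < Real.cos b := Real.cos_pos_of_mem_Ioo ⟨by linarith, hb⟩
  -- the noncuspidal part
  set gn : ℂ → ℂ := fun d => ∫ t : ℝ, H t * Jk t d with hgn
  obtain ⟨hgn1, hgn2, hgn3⟩ := h9 H hHm hHi
  have hgnev : ∀ d ∈ S0, gn (-d) = gn d := by
    intro d hd
    simp only [hgn]
    congr 1
    ext t
    rw [(h1 t).2.1 d hd]
  have hgcd : DifferentiableOn ℂ gc S0 := (hg.sub hgn1).congr (fun d hd => hgc d hd)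
  have hgcev : ∀ d ∈ S0, gc (-d) = gc d := by
    intro d hd
    rw [hgc d hd, hgc (-d) (neg_mem hd), hgev d hd]
    exact congrArg (fun y => g d - y) (hgnev d hd)
  -- B ≥ 0
  obtain ⟨A₀, hA₀⟩ := hgB
  have hB0 : 0 ≤ B := by
    have := (norm_nonneg _).trans (hA₀ A₀ le_rfl).1
    exact nonneg_of_mul_nonneg_left this (Real.exp_pos _)
  set A : ℝ := max A₀ 0 with hAdef
  have hA0 : 0 ≤ A := le_max_right _ _
  -- the radius
  set R : ℝ := (b + Real.pi / 2) / 2 with hRdef
  have hR0 : 0 < R := by rw [hRdef]; linarith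
  have hbR : b < R := by rw [hRdef]; linarith
  have hRpi : R < Real.pi / 2 := by rw [hRdef]; linarith
  have hR2 : R < 2 := by linarith [Real.pi_lt_four]
  obtain ⟨M, hM⟩ := hgM R hRpi
  have hGM : ∀ d : ℂ, |d.im| ≤ R → ‖sqc g d‖ ≤ M := fun d hd => sq_bound (hM d hd)
  have hM0 : 0 ≤ M := (norm_nonneg _).trans (hGM 0 (by simpa using hR0.le))
  obtain ⟨CR, hCR0, hCR⟩ := h4.2 R hR0 hRpi
  obtain ⟨Cn, hCn⟩ := hgn2 R hR0 hRpi
  have hballS : ∀ z ∈ Metric.ball (0 : ℂ) R, z ∈ S0 ∧ ‖z‖ ≤ R ∧ |z.im| ≤ R ∧ |z.re| ≤ R := by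
    intro z hz
    rw [mem_ball_zero_iff] at hz
    have e1 := Complex.abs_im_le_norm z
    have e2 := Complex.abs_re_le_norm z
    exact ⟨lt_of_le_of_lt e1 (hz.trans hRpi), hz.le, e1.trans hz.le, e2.trans hz.le⟩
  have hGd := diff_sq hg
  have hGcd := diff_sq hgcd
  have hGnd := diff_sq hgn1
  -- decomposition
  have hdec : ∀ D ∈ S0, ∀ h : ℝ, 0 ≤ h → Wo (sqc gc) h D = Wo (sqc g) h D - Wo (sqc gn) h D := by
    intro D hD h hh
    rw [← Wo_sub h4 hGd hGnd hD hh]
    apply Wo_congr _ hD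
    intro d hd
    simp only [sqc, hgc d hd, hgn]
    ring
  -- spectral expansion in the new variable
  have hspec' : ∀ Y : ℝ → ℝ, Tst Y →
      Summable (fun j => ‖c j * ∫ D : ℝ, qk (κ j) D * Y D‖) ∧
      ∑' j, c j * ∫ D : ℝ, qk (κ j) D * Y D = ∫ D : ℝ, sqc gc D * Y D := by
    intro Y hY
    have := hspec (tr Y) (tst_tr hY)
    simp only [int_tr] at this
    exact this
  -- the times
  obtain ⟨hs, hs1, hs2⟩ := h7 κ
  have hs0 : ∀ n, 0 ≤ hs n := fun n => (Nat.cast_nonneg n).trans (hs1 n)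
  have hstop : Tendsto hs atTop atTop := tendsto_atTop_mono hs1 tendsto_natCast_atTop_atTop
  -- convergence
  have hconv : Tendsto (fun n => Wo (sqc gc) (hs n) (b * I)) atTop (𝓝 (sqc gc (b * I))) := by
    refine h8 R (M + 1 / 2 * (CR * M) + Cn) (fun n => Wo (sqc gc) (hs n)) (sqc gc) hR0 ?_ ?_ ?_ ?_ ?_
      (b * I) ?_
    · intro n
      exact (h5 _ hGcd (hs n) (hs0 n)).mono fun z hz => (hballS z hz).1
    · exact hGcd.mono fun z hz => (hballS z hz).1
    · intro n z hz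
      obtain ⟨hzS, hzR, hzi, hzr⟩ := hballS z hz
      refine ⟨?_, Wo_even (sq_even hgcev) hzS _⟩
      rw [hdec z hzS _ (hs0 n)]
      refine (norm_sub_le _ _).trans (add_le_add ?_ ?_)
      · apply Wo_bound h4 hzS (hs0 n)
        · intro x
          apply hGM
          simpa using hzi
        · exact hCR z hzR _ (hs0 n)
      · exact hCn z hzi _ (hs0 n) (by rw [Real.norm_eq_abs]; linarith)
    · exact fun z hz => sq_even hgcev z (hballS z hz).1
    · intro Y hY _
      have e1 : ∀ n, ∫ D : ℝ, Wo (sqc gc) (hs n) D * Y D =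
          ∑' j, Real.cos (κ j * hs n) * (c j * ∫ D : ℝ, qk (κ j) D * Y D) := by
        intro n
        obtain ⟨hT, hI⟩ := h6 (sqc gc) Y (hs n) hGcd hY (hs0 n)
        rw [hI, ← (hspec' _ hT).2]
        congr 1
        ext j
        have e2 := (h6 (qk (κ j)) Y (hs n) (h10 (κ j)).1 hY (hs0 n)).2
        rw [← e2]
        have e3 : ∀ D : ℝ, Wo (qk (κ j)) (hs n) D * Y D =
            Real.cos (κ j * hs n) * (qk (κ j) D * Y D) := by
          intro D
          rw [h11 (κ j) (qk (κ j)) (h10 (κ j)).1 (h10 (κ j)).2.2 D (real_mem D) _ (hs0 n)]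
          ring
        simp only [e3]
        rw [MeasureTheory.integral_const_mul]
        ring
      simp only [e1]
      rw [← (hspec' Y hY).2]
      refine tendsto_tsum_of_dominated_convergence (hspec' Y hY).1 ?_ ?_
      · intro j
        have := (hs2 j)
        have h2 : Tendsto (fun n => ((Real.cos (κ j * hs n) : ℝ) : ℂ)) atTop (𝓝 ((1 : ℝ) : ℂ)) :=
          (Complex.continuous_ofReal.tendsto 1).comp this
        have h3 := h2.mul_const (c j * ∫ D : ℝ, qk (κ j) D * Y D)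
        simpa using h3
      · refine Filter.Eventually.of_forall fun n j => ?_
        rw [norm_mul, Complex.norm_real]
        have := Real.abs_cos_le_one (κ j * hs n)
        rw [Real.norm_eq_abs]
        exact mul_le_of_le_one_left (norm_nonneg _) this
    · rw [mem_ball_zero_iff]
      simp [abs_of_pos hb0, hbR]
  -- the bound
  rw [← sq_imag hcosb.le]
  have hbI : (b * I : ℂ) ∈ S0 := by simpa [S0] using hbabs
  have hMx : ∀ x : ℝ, ‖sqc g (b * I + x)‖ ≤ M := by
    intro x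
    apply hGM
    simp [abs_of_pos hb0, hbR.le]
  have hBx : ∀ x : ℝ, A ≤ |x| → ‖sqc g (b * I + x)‖ ≤ B := by
    intro x hx
    apply sq_bound
    rcases le_total 0 x with hx0 | hx0
    · rw [abs_of_nonneg hx0] at hx
      have := (hA₀ x ((le_max_left _ _).trans hx)).1
      have e : (b * I + x : ℂ) = x + b * I := by ring
      rw [e]
      simpa [abs_of_nonneg hx0] using this
    · rw [abs_of_nonpos hx0] at hx
      have := (hA₀ (-x) ((le_max_left _ _).trans hx)).2
      have e : (b * I + x : ℂ) = -(((-x : ℝ) : ℂ) - b * I) := by push_cast; ring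
      rw [e, hgev]
      · simpa [abs_of_nonpos hx0] using this
      · simpa [S0, abs_neg] using hbabs
  refine le_of_forall_pos_le_add fun δ hδ => ?_
  have hev1 : ∀ᶠ n in atTop, ‖Wo (sqc gn) (hs n) (b * I)‖ ≤ δ / 2 := by
    have := (hgn3 (b * I) hbI).comp hstop
    have := this.norm
    rw [norm_zero] at this
    exact this.eventually_le_const (by positivity)
  have hev2 : ∀ᶠ n in atTop, ‖Wo (sqc g) (hs n) (b * I)‖ ≤ B + 1 / 2 * (C * B) + δ / 2 := by
    set ε : ℝ := δ / (2 * (A * M + 1)) with hεdef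
    have hε : 0 < ε := by rw [hεdef]; positivity
    obtain ⟨h₀, hh₀⟩ := hKs b hbabs A ε hε
    filter_upwards [hstop.eventually_ge_atTop h₀, hstop.eventually_ge_atTop A] with n hn1 hn2
    have := main_est h4 hbabs hB0 hM0 hA0 (fun h hh => hC b hbabs h hh) hMx hBx hε.le
      hn2 (hh₀ _ hn1)
    refine this.trans ?_
    have e : A * (ε * M) ≤ δ / 2 := by
      have : A * (ε * M) = (A * M) / (A * M + 1) * (δ / 2) := by
        rw [hεdef]
        have : A * M + 1 ≠ 0 := by positivity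
        field_simp
      rw [this]
      apply mul_le_of_le_one_left (by positivity)
      rw [div_le_one (by positivity)]
      linarith
    linarith
  have hlim := hconv.norm
  refine le_of_tendsto hlim ?_
  filter_upwards [hev1, hev2] with n hn1 hn2
  rw [hdec _ hbI _ (hs0 n)]
  have := norm_sub_le (Wo (sqc g) (hs n) (b * I)) (Wo (sqc gn) (hs n) (b * I))
  linarith

end FMZ
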