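import Pool.Agent.FMZ.TW

/-!
# FMZ-W7: simultaneous recurrence
-/

open Complex MeasureTheory Set Filter Topology

namespace FMZ

namespace WDIR_

lemma step (κ : ℕ → ℝ) (N : ℕ) : ∃ h : ℝ, (N : ℝ) ≤ h ∧
    ∀ j < N, |Real.cos (κ j * h) - 1| ≤ 1 / ((N : ℝ) + 1) := by
  set u : ℕ → (Fin N → ℂ) := fun m j => Complex.exp ((κ j * (m * N) : ℝ) * I) with hu
  have hub : ∀ m, u m ∈ Metric.closedBall (0 : Fin N → ℂ) 1 := by
    intro m
    rw [mem_closedBall_zero_iff, pi_norm_le_iff_of_nonneg zero_le_one]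
    intro j
    rw [hu]
    simp only
    rw [Complex.norm_exp_ofReal_mul_I]
  obtain ⟨a, -, φ, hφ, hlim⟩ := tendsto_subseq_of_bounded Metric.isBounded_closedBall hub
  have hcau := hlim.cauchySeq
  have hpos : (0 : ℝ) < 1 / ((N : ℝ) + 1) := by positivity
  obtain ⟨n₀, hn₀⟩ := Metric.cauchySeq_iff.1 hcau _ hpos
  have hd := hn₀ n₀ le_rfl (n₀ + 1) (Nat.le_succ _)
  have hlt : φ n₀ < φ (n₀ + 1) := hφ (Nat.lt_succ_self _)
  refine ⟨((φ (n₀ + 1) : ℝ) - φ n₀) * N, ?_, ?_⟩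
  · have h1 : (1 : ℝ) ≤ (φ (n₀ + 1) : ℝ) - φ n₀ := by
      have : ((φ n₀ + 1 : ℕ) : ℝ) ≤ (φ (n₀ + 1) : ℝ) := by exact_mod_cast hlt
      push_cast at this
      linarith
    nlinarith [Nat.cast_nonneg (α := ℝ) N]
  · intro j hj
    have h1 : ‖u (φ n₀) ⟨j, hj⟩ - u (φ (n₀ + 1)) ⟨j, hj⟩‖ ≤ 1 / ((N : ℝ) + 1) := by
      refine le_trans ?_ hd.le
      rw [dist_eq_norm]
      exact norm_le_pi_norm ((u ∘ φ) n₀ - (u ∘ φ) (n₀ + 1)) ⟨j, hj⟩
    have h2 : u (φ n₀) ⟨j, hj⟩ - u (φ (n₀ + 1)) ⟨j, hj⟩ =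
        u (φ n₀) ⟨j, hj⟩ * (1 - Complex.exp ((κ j * (((φ (n₀ + 1) : ℝ) - φ n₀) * N) : ℝ) * I)) := by
      simp only [hu]
      rw [mul_sub, mul_one, ← Complex.exp_add]
      congr 2
      push_cast
      ring
    rw [h2, norm_mul] at h1
    have h3 : ‖u (φ n₀) ⟨j, hj⟩‖ = 1 := by
      simp only [hu]
      rw [Complex.norm_exp_ofReal_mul_I]
    rw [h3, one_mul] at h1
    refine le_trans ?_ h1
    have h4 := Complex.abs_re_le_norm
      (1 - Complex.exp ((κ j * (((φ (n₀ + 1) : ℝ) - φ n₀) * N) : ℝ) * I))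
    rw [Complex.sub_re, Complex.one_re, Complex.exp_ofReal_mul_I_re] at h4
    rwa [abs_sub_comm]

end WDIR_

theorem pDIR : tDIR := by
  intro κ
  choose h hN hc using WDIR_.step κ
  refine ⟨h, hN, ?_⟩
  intro j
  have h1 : Tendsto (fun n : ℕ => 1 / ((n : ℝ) + 1)) atTop (𝓝 0) :=
    tendsto_one_div_add_atTop_nhds_zero_nat
  have h2 : ∀ᶠ n in atTop, dist (Real.cos (κ j * h n)) 1 ≤ 1 / ((n : ℝ) + 1) := by
    filter_upwards [eventually_gt_atTop j] with n hn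
    rw [Real.dist_eq]
    exact hc n j hn
  rw [tendsto_iff_dist_tendsto_zero]
  exact squeeze_zero' (Eventually.of_forall fun n => dist_nonneg) h2 h1

end FMZ
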