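import Pool.Agent.FMZ.TW
import Pool.Agent.FMZ.TJ

/-!
# FMZ-W9: the equation of q_κ and the dispersion of the continuous part
-/

open Complex MeasureTheory Set Filter Topology

namespace FMZ

namespace WDISP_

theorem isOpen_S0 : IsOpen S0 := by
  have : S0 = (fun d : ℂ => |d.im|) ⁻¹' (Iio (Real.pi / 2)) := rfl
  rw [this]
  exact isOpen_Iio.preimage (by fun_prop)

theorem cosh_re_pos {d : ℂ} (hd : d ∈ S0) : 0 < (Complex.cosh d).re := by
  have h : d = d.re + d.im * I := (Complex.re_add_im d).symm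
  rw [h, Complex.cosh_add, Complex.cosh_mul_I, Complex.sinh_mul_I]
  rw [show (Complex.cosh d.re * Complex.cos d.im + Complex.sinh d.re * (Complex.sin d.im * I) : ℂ)
    = ((Real.cosh d.re * Real.cos d.im : ℝ) : ℂ) + ((Real.sinh d.re * Real.sin d.im : ℝ) : ℂ) * I by
      push_cast; ring]
  rw [Complex.add_re, Complex.re_ofReal_mul, Complex.ofReal_re, Complex.I_re, mul_zero, add_zero]
  have h1 : |d.im| < Real.pi / 2 := hd
  rw [abs_lt] at h1
  exact mul_pos (Real.cosh_pos _) (Real.cos_pos_of_mem_Ioo ⟨h1.1, h1.2⟩)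

theorem cosh_slit {d : ℂ} (hd : d ∈ S0) : Complex.cosh d ∈ slitPlane :=
  Or.inl (cosh_re_pos hd)

theorem cosh_ne {d : ℂ} (hd : d ∈ S0) : Complex.cosh d ≠ 0 :=
  Complex.slitPlane_ne_zero (cosh_slit hd)

end WDISP_

open WDISP_

theorem pQK (h : ANAJ) : tQK := by
  intro κ
  obtain ⟨h1, h2, h3, -⟩ := h κ
  have hJ : ∀ d ∈ S0, HasDerivAt (Jk κ) (deriv (Jk κ) d) d := fun d hd =>
    (h1.differentiableAt (isOpen_S0.mem_nhds hd)).hasDerivAt
  have hJ2 : ∀ d ∈ S0, HasDerivAt (deriv (Jk κ)) (deriv (deriv (Jk κ)) d) d := fun d hd =>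
    ((h1.deriv isOpen_S0).differentiableAt (isOpen_S0.mem_nhds hd)).hasDerivAt
  have hc : ∀ (a : ℂ), ∀ d ∈ S0, HasDerivAt (fun d => (Complex.cosh d) ^ a)
      (a * (Complex.cosh d) ^ (a - 1) * Complex.sinh d) d := fun a d hd =>
    (Complex.hasDerivAt_cosh d).cpow_const (cosh_slit hd)
  have hq : ∀ d ∈ S0, HasDerivAt (qk κ)
      (1 / 2 * (Complex.cosh d) ^ (1 / 2 - 1 : ℂ) * Complex.sinh d * Jk κ d +
        (Complex.cosh d) ^ (1 / 2 : ℂ) * deriv (Jk κ) d) d := fun d hd =>
    (hc (1 / 2) d hd).mul (hJ d hd)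
  refine ⟨fun d hd => (hq d hd).differentiableAt.differentiableWithinAt, ?_, ?_⟩
  · intro d hd
    simp only [qk, Complex.cosh_neg]
    rw [h2 d hd]
  · intro d hd
    have e1 : deriv (qk κ) =ᶠ[𝓝 d] fun d =>
        1 / 2 * (Complex.cosh d) ^ (1 / 2 - 1 : ℂ) * Complex.sinh d * Jk κ d +
        (Complex.cosh d) ^ (1 / 2 : ℂ) * deriv (Jk κ) d := by
      filter_upwards [isOpen_S0.mem_nhds hd] with z hz
      exact (hq z hz).deriv
    rw [e1.deriv_eq]
    have h4 := ((((hc (1 / 2 - 1) d hd).const_mul (1 / 2 : ℂ)).mul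
      (Complex.hasDerivAt_sinh d)).mul (hJ d hd)).add ((hc (1 / 2) d hd).mul (hJ2 d hd))
    have h5 : deriv (fun d => 1 / 2 * (Complex.cosh d) ^ (1 / 2 - 1 : ℂ) * Complex.sinh d * Jk κ d +
        (Complex.cosh d) ^ (1 / 2 : ℂ) * deriv (Jk κ) d) d =
        (1 / 2 * ((1 / 2 - 1) * (Complex.cosh d) ^ (1 / 2 - 1 - 1 : ℂ) * Complex.sinh d) *
          Complex.sinh d + 1 / 2 * (Complex.cosh d) ^ (1 / 2 - 1 : ℂ) * Complex.cosh d) * Jk κ d +
        1 / 2 * (Complex.cosh d) ^ (1 / 2 - 1 : ℂ) * Complex.sinh d * deriv (Jk κ) d +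
        (1 / 2 * (Complex.cosh d) ^ (1 / 2 - 1 : ℂ) * Complex.sinh d * deriv (Jk κ) d +
          (Complex.cosh d) ^ (1 / 2 : ℂ) * deriv (deriv (Jk κ)) d) := h4.deriv
    rw [h5]
    have hC := cosh_ne hd
    have h6 := h3 d hd
    simp only [DD] at h6
    have hp : ∀ a : ℂ, (Complex.cosh d) ^ (a - 1) = (Complex.cosh d) ^ a / Complex.cosh d := by
      intro a
      rw [Complex.cpow_sub _ _ hC, Complex.cpow_one]
    rw [hp (1 / 2 - 1), hp (1 / 2)]
    have h7 : deriv (deriv (Jk κ)) d = -((1 / 4 + κ ^ 2 : ℝ) * Jk κ d) -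
        Complex.sinh d / Complex.cosh d * deriv (Jk κ) d := by
      rw [← h6, Complex.tanh_eq_sinh_div_cosh]; ring
    rw [h7]
    have hS : Complex.sinh d ^ 2 = Complex.cosh d ^ 2 - 1 := by
      have := Complex.cosh_sq_sub_sinh_sq d
      linear_combination -this
    simp only [qk]
    set q := (Complex.cosh d) ^ (1 / 2 : ℂ)
    set C := Complex.cosh d
    set S := Complex.sinh d
    set J := Jk κ d
    set J' := deriv (Jk κ) d
    push_cast
    field_simp
    linear_combination (-4 * q * J) * hS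

namespace WDISP_

theorem meas_gp : Measurable (fun p : (ℝ × ℂ) × ℝ => gp p.2 p.1.2) := by
  unfold gp
  fun_prop

theorem meas_gm : Measurable (fun p : (ℝ × ℂ) × ℝ => gm p.2 p.1.2) := by
  unfold gm
  fun_prop

theorem meas_Jk : StronglyMeasurable (fun p : ℝ × ℂ => Jk p.1 p.2) := by
  unfold Jk JJ
  refine MeasureTheory.StronglyMeasurable.integral_prod_right
    (f := fun (p : ℝ × ℂ) (v : ℝ) => ph (1 / 2 + p.1 * I) v p.2 * Complex.exp (0 * v)) ?_
  refine Measurable.stronglyMeasurable ?_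
  simp only [Function.uncurry_def, ph]
  have h1 := meas_gp
  have h2 := meas_gm
  fun_prop

theorem norm_cosh_le (d : ℂ) : ‖Complex.cosh d‖ ≤ Real.exp |d.re| := by
  rw [Complex.cosh, norm_div]
  have e1 : ‖Complex.exp d‖ ≤ Real.exp |d.re| := by
    rw [Complex.norm_exp]; exact Real.exp_le_exp.2 (le_abs_self _)
  have e2 : ‖Complex.exp (-d)‖ ≤ Real.exp |d.re| := by
    rw [Complex.norm_exp, Complex.neg_re]; exact Real.exp_le_exp.2 (neg_le_abs _)
  have e3 := norm_add_le (Complex.exp d) (Complex.exp (-d))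
  have e4 : ‖(2 : ℂ)‖ = 2 := by norm_num
  rw [e4]
  linarith

theorem norm_qk_le {b C : ℝ} (hC : ∀ (κ : ℝ) (d : ℂ), |d.im| ≤ b → ‖Jk κ d‖ ≤ C * Real.exp (b * |κ|))
    {A : ℝ} (κ : ℝ) (d : ℂ) (hd : |d.im| ≤ b) (hA : |d.re| ≤ A) :
    ‖qk κ d‖ ≤ Real.exp A ^ (1 / 2 : ℝ) * (C * Real.exp (b * |κ|)) := by
  unfold qk
  rw [norm_mul]
  refine mul_le_mul ?_ (hC κ d hd) (norm_nonneg _) (by positivity)
  have : ((1 / 2 : ℂ)) = ((1 / 2 : ℝ) : ℂ) := by push_cast; rfl
  rw [this, Complex.norm_cpow_real]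
  exact Real.rpow_le_rpow (norm_nonneg _) ((norm_cosh_le d).trans (Real.exp_le_exp.2 hA))
    (by norm_num)

theorem add_mem_S0 {D : ℂ} (hD : D ∈ S0) (x : ℝ) : D + x ∈ S0 := by
  simpa [S0] using hD

theorem sub_mem_S0 {D : ℂ} (hD : D ∈ S0) (x : ℝ) : D - x ∈ S0 := by
  simpa [S0] using hD

theorem meas_qk : StronglyMeasurable (fun p : ℝ × ℂ => qk p.1 p.2) := by
  unfold qk
  refine StronglyMeasurable.mul ?_ meas_Jk
  refine Measurable.stronglyMeasurable ?_
  fun_prop

theorem meas_qk' (d : ℂ) : StronglyMeasurable (fun t : ℝ => qk t d) := by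
  have hg : Measurable (fun t : ℝ => ((t, d) : ℝ × ℂ)) := by fun_prop
  have e := meas_qk.comp_measurable hg
  exact e

end WDISP_

/-- bound of `H t * qk t d` -/
theorem WDISP_.int_Hq (h4 : BNDJ) (H : ℝ → ℂ) (hH : AEStronglyMeasurable H volume)
    (hint : ∀ b' < Real.pi / 2, Integrable (fun t => ‖H t‖ * Real.exp (b' * |t|)))
    {D : ℂ} (hD : D ∈ S0) : Integrable (fun t => H t * qk t D) := by
  have h0 : |D.im| < Real.pi / 2 := hD
  set b := (|D.im| + Real.pi / 2) / 2 with hb
  have hp := Real.pi_pos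
  have hb0 : 0 < b := by have := abs_nonneg D.im; rw [hb]; linarith
  have hb1 : b < Real.pi / 2 := by rw [hb]; linarith
  have hb2 : |D.im| ≤ b := by rw [hb]; linarith
  obtain ⟨C, hC⟩ := h4 b hb0 hb1
  refine Integrable.mono' ((hint b hb1).const_mul (Real.exp |D.re| ^ (1 / 2 : ℝ) * C))
    (hH.mul (meas_qk' D).aestronglyMeasurable) (Eventually.of_forall fun t => ?_)
  rw [norm_mul]
  have := mul_le_mul_of_nonneg_left (norm_qk_le hC t D hb2 le_rfl) (norm_nonneg (H t))
  refine this.trans (le_of_eq ?_)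
  ring

theorem WDISP_.key (h2 : tQK) (h3 : tPROD) (h4 : BNDJ) (h5 : tK2) (H : ℝ → ℂ)
    (hH : AEStronglyMeasurable H volume)
    (hint : ∀ b' < Real.pi / 2, Integrable (fun t => ‖H t‖ * Real.exp (b' * |t|)))
    (D : ℂ) (hD : D ∈ S0) (h : ℝ) (hh : 0 ≤ h) :
    Wo (fun d => (Complex.cosh d) ^ (1 / 2 : ℂ) * ∫ t : ℝ, H t * Jk t d) h D =
      ∫ t : ℝ, (Real.cos (t * h) : ℂ) * (H t * qk t D) := by
  have hG : ∀ z : ℂ, (Complex.cosh z) ^ (1 / 2 : ℂ) * ∫ t : ℝ, H t * Jk t z =
      ∫ t : ℝ, H t * qk t z := by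
    intro z
    rw [← integral_const_mul]
    congr 1
    funext t
    simp only [qk]
    ring
  unfold Wo
  simp only [hG]
  have hi : ∀ z ∈ S0, Integrable (fun t => H t * qk t z) := fun z hz => int_Hq h4 H hH hint hz
  -- Fubini
  have h0 : |D.im| < Real.pi / 2 := hD
  set b := (|D.im| + Real.pi / 2) / 2 with hb
  have hp := Real.pi_pos
  have hb0 : 0 < b := by have := abs_nonneg D.im; rw [hb]; linarith
  have hb1 : b < Real.pi / 2 := by rw [hb]; linarith
  have hb2 : |D.im| ≤ b := by rw [hb]; linarith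
  obtain ⟨C, hC⟩ := h4 b hb0 hb1
  have hKc := h5.1 D hD h hh
  obtain ⟨M, hM⟩ := isCompact_Icc.exists_bound_of_continuousOn hKc
  have hle : (-h) ≤ h := by linarith
  have hF : Integrable (Function.uncurry fun (x t : ℝ) => Kk D h x * (H t * qk t (D + x)))
      ((volume.restrict (Ioc (-h) h)).prod volume) := by
    have hfin : IsFiniteMeasure (volume.restrict (Ioc (-h) h)) := inferInstance
    have hdom : Integrable (fun p : ℝ × ℝ => (M * (Real.exp (|D.re| + h) ^ (1 / 2 : ℝ) * C)) *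
        (‖H p.2‖ * Real.exp (b * |p.2|))) ((volume.restrict (Ioc (-h) h)).prod volume) :=
      ((hint b hb1).comp_snd (volume.restrict (Ioc (-h) h))).const_mul _
    refine Integrable.mono' hdom ?_ ?_
    · refine AEStronglyMeasurable.mul ?_ (AEStronglyMeasurable.mul ?_ ?_)
      · have : AEStronglyMeasurable (Kk D h) (volume.restrict (Ioc (-h) h)) :=
          (hKc.mono Ioc_subset_Icc_self).aestronglyMeasurable measurableSet_Ioc
        exact this.comp_fst
      · exact hH.comp_snd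
      · have hg : Measurable (fun p : ℝ × ℝ => ((p.2, D + (p.1 : ℂ)) : ℝ × ℂ)) := by fun_prop
        have e := meas_qk.comp_measurable hg
        exact e.aestronglyMeasurable
    · have e : (volume.restrict (Ioc (-h) h)).prod (volume : Measure ℝ) =
          (volume.prod volume).restrict (Ioc (-h) h ×ˢ univ) := by
        rw [← Measure.prod_restrict, Measure.restrict_univ]
      rw [e]
      refine ae_restrict_of_forall_mem (measurableSet_Ioc.prod MeasurableSet.univ) ?_
      rintro ⟨x, t⟩ ⟨hx, -⟩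
      simp only [Function.uncurry_apply_pair]
      have hx' : x ∈ Icc (-h) h := Ioc_subset_Icc_self hx
      have hxa : |x| ≤ h := abs_le.2 ⟨hx'.1, hx'.2⟩
      have b1 := hM x hx'
      have b2 : |(D + x).im| ≤ b := by simpa using hb2
      have b3 : |(D + x).re| ≤ |D.re| + h := by
        simp only [Complex.add_re, Complex.ofReal_re]
        exact (abs_add_le _ _).trans (by linarith)
      have b4 := norm_qk_le hC t (D + x) b2 b3
      rw [norm_mul, norm_mul]
      calc ‖Kk D h x‖ * (‖H t‖ * ‖qk t (D + x)‖)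
          ≤ M * (‖H t‖ * (Real.exp (|D.re| + h) ^ (1 / 2 : ℝ) * (C * Real.exp (b * |t|)))) := by
            refine mul_le_mul b1 (mul_le_mul_of_nonneg_left b4 (norm_nonneg _)) (by positivity)
              ((norm_nonneg _).trans b1)
        _ = _ := by ring
  have hsw : ∫ x in (-h)..h, Kk D h x * ∫ t : ℝ, H t * qk t (D + x) =
      ∫ t : ℝ, ∫ x in (-h)..h, Kk D h x * (H t * qk t (D + x)) := by
    simp only [intervalIntegral.integral_of_le hle]
    rw [← integral_integral_swap hF]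
    congr 1
    funext x
    rw [← integral_const_mul]
  rw [hsw]
  have hi3 : Integrable (fun t : ℝ => ∫ x in (-h)..h, Kk D h x * (H t * qk t (D + x))) := by
    simp only [intervalIntegral.integral_of_le hle]
    exact hF.integral_prod_right
  have hi4 : Integrable (fun t : ℝ => (1 / 2 : ℂ) * (H t * qk t (D + h) + H t * qk t (D - h))) :=
    ((hi _ (add_mem_S0 hD h)).add (hi _ (sub_mem_S0 hD h))).const_mul _
  rw [← integral_add (hi _ (add_mem_S0 hD h)) (hi _ (sub_mem_S0 hD h)), ← integral_const_mul,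
    ← integral_const_mul, ← integral_add hi4 (hi3.const_mul _)]
  congr 1
  funext t
  have h6 := h3 t (qk t) (h2 t).1 (h2 t).2.2 D hD h hh
  have e2 : ∫ x in (-h)..h, Kk D h x * (H t * qk t (D + x)) =
      H t * ∫ x in (-h)..h, Kk D h x * qk t (D + x) := by
    rw [← intervalIntegral.integral_const_mul]
    congr 1
    funext x
    ring
  rw [e2]
  unfold Wo at h6
  linear_combination (H t) * h6

theorem pDISP (h1 : tGEN) (h2 : tQK) (h3 : tPROD) (h4 : BNDJ) (h5 : tK2) : tDISP := by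
  intro H hH hint
  obtain ⟨g1, -, -⟩ := h1 H hH hint
  refine ⟨g1, ?_, ?_⟩
  · intro b hb0 hb1
    obtain ⟨C, hC⟩ := h4 b hb0 hb1
    refine ⟨∫ t : ℝ, (Real.exp 2 ^ (1 / 2 : ℝ) * C) * (‖H t‖ * Real.exp (b * |t|)), ?_⟩
    intro d hd h hh hre
    have hd' : d ∈ S0 := lt_of_le_of_lt hd hb1
    rw [key h2 h3 h4 h5 H hH hint d hd' h hh]
    refine norm_integral_le_of_norm_le ((hint b hb1).const_mul _) (Eventually.of_forall fun t => ?_)
    rw [norm_mul, norm_mul]
    have c1 : ‖((Real.cos (t * h) : ℝ) : ℂ)‖ ≤ 1 := by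
      rw [Complex.norm_real, Real.norm_eq_abs]
      exact Real.abs_cos_le_one _
    have c2 := norm_qk_le hC t d hd hre
    calc ‖((Real.cos (t * h) : ℝ) : ℂ)‖ * (‖H t‖ * ‖qk t d‖)
        ≤ 1 * (‖H t‖ * (Real.exp 2 ^ (1 / 2 : ℝ) * (C * Real.exp (b * |t|)))) := by
          refine mul_le_mul c1 (mul_le_mul_of_nonneg_left c2 (norm_nonneg _)) (by positivity)
            zero_le_one
      _ = _ := by ring
  · intro D hD
    have hf : Integrable (fun t => H t * qk t D) := int_Hq h4 H hH hint hD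
    have e1 : (fun h : ℝ => Wo (fun d => (Complex.cosh d) ^ (1 / 2 : ℂ) * ∫ t : ℝ, H t * Jk t d) h D)
        =ᶠ[atTop] fun h : ℝ => ∫ t : ℝ, (Real.cos (t * h) : ℂ) * (H t * qk t D) := by
      filter_upwards [eventually_ge_atTop 0] with h hh
      exact key h2 h3 h4 h5 H hH hint D hD h hh
    rw [tendsto_congr' e1]
    have RL := Real.tendsto_integral_exp_smul_cocompact (fun t : ℝ => H t * qk t D)
    have hp := Real.pi_pos
    have t1 : Tendsto (fun h : ℝ => h / (2 * Real.pi)) atTop (cocompact ℝ) :=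
      (tendsto_id.atTop_div_const (by positivity)).mono_right atTop_le_cocompact
    have t2 : Tendsto (fun h : ℝ => -(h / (2 * Real.pi))) atTop (cocompact ℝ) :=
      (tendsto_neg_atTop_atBot.comp (tendsto_id.atTop_div_const (by positivity))).mono_right
        atBot_le_cocompact
    have s1 := RL.comp t1
    have s2 := RL.comp t2
    have s3 := (s1.add s2).const_mul (1 / 2 : ℂ)
    rw [add_zero, mul_zero] at s3
    refine s3.congr fun h => ?_
    simp only [Function.comp_apply]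
    have i0 : ∀ w v : ℝ, Real.fourierChar (-(v * w)) • (H v * qk v D) =
        Complex.exp ((-(2 * Real.pi * (v * w)) : ℝ) * I) * (H v * qk v D) := by
      intro w v
      rw [Circle.smul_def, Real.fourierChar_apply, smul_eq_mul]
      congr 2
      push_cast
      ring
    simp only [i0]
    have i1 : ∀ w : ℝ, Integrable (fun v : ℝ =>
        Complex.exp ((-(2 * Real.pi * (v * w)) : ℝ) * I) * (H v * qk v D)) := by
      intro w
      refine Integrable.mono' hf.norm (AEStronglyMeasurable.mul ?_ hf.1)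
        (Eventually.of_forall fun v => ?_)
      · exact (by fun_prop : Continuous fun v : ℝ =>
          Complex.exp ((-(2 * Real.pi * (v * w)) : ℝ) * I)).aestronglyMeasurable
      · rw [norm_mul, Complex.norm_exp_ofReal_mul_I, one_mul]
    rw [← integral_add (i1 _) (i1 _), ← integral_const_mul]
    congr 1
    funext v
    have e3 : -(2 * Real.pi * (v * (h / (2 * Real.pi)))) = -(v * h) := by field_simp
    have e4 : -(2 * Real.pi * (v * -(h / (2 * Real.pi)))) = v * h := by field_simp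
    rw [e3, e4, Complex.ofReal_cos, Complex.cos]
    push_cast
    ring

end FMZ
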