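import Pool.Agent.FMZ.TW

/-!
# FMZ-W2: geometry of the argument (target `tGEO`)
-/

open Complex MeasureTheory Set Filter Topology

namespace FMZ

namespace WGEO_

theorem cosh_re' (D : ℂ) : (Complex.cosh D).re = Real.cosh D.re * Real.cos D.im := by
  conv_lhs => rw [← Complex.re_add_im D, Complex.cosh_add, Complex.cosh_mul_I, Complex.sinh_mul_I]
  rw [← Complex.ofReal_cosh, ← Complex.ofReal_sinh, ← Complex.ofReal_cos, ← Complex.ofReal_sin]
  simp only [Complex.add_re, Complex.mul_re, Complex.add_im, Complex.mul_im, Complex.ofReal_re,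
    Complex.ofReal_im, Complex.I_re, Complex.I_im]
  ring

theorem cosh_im' (D : ℂ) : (Complex.cosh D).im = Real.sinh D.re * Real.sin D.im := by
  conv_lhs => rw [← Complex.re_add_im D, Complex.cosh_add, Complex.cosh_mul_I, Complex.sinh_mul_I]
  rw [← Complex.ofReal_cosh, ← Complex.ofReal_sinh, ← Complex.ofReal_cos, ← Complex.ofReal_sin]
  simp only [Complex.add_re, Complex.mul_re, Complex.add_im, Complex.mul_im, Complex.ofReal_re,
    Complex.ofReal_im, Complex.I_re, Complex.I_im]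
  ring

theorem cos_pos' {b : ℝ} (hb : |b| < Real.pi / 2) : 0 < Real.cos b :=
  Real.cos_pos_of_mem_Ioo ⟨by linarith [(abs_lt.1 hb).1], (abs_lt.1 hb).2⟩

theorem cosh_re_pos {D : ℂ} (hD : |D.im| < Real.pi / 2) : 0 < (Complex.cosh D).re := by
  rw [cosh_re']
  exact mul_pos (Real.cosh_pos _) (cos_pos' hD)

/-- the argument of `cosh D` is at most `|Im D|` -/
theorem cosh_sector {D : ℂ} (hD : |D.im| < Real.pi / 2) :
    Real.cos D.im * ‖Complex.cosh D‖ ≤ (Complex.cosh D).re := by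
  have hc := cos_pos' hD
  have h1 : ‖Complex.cosh D‖ ≤ Real.cosh D.re := by
    rw [← sq_le_sq₀ (norm_nonneg _) (Real.cosh_pos _).le, Complex.sq_norm, Complex.normSq_apply,
      cosh_re', cosh_im']
    have e1 := Real.cosh_sq D.re
    have e2 := Real.sin_sq_add_cos_sq D.im
    have e3 : 0 ≤ Real.sin D.im ^ 2 := sq_nonneg _
    have e4 : Real.cosh D.re * Real.cos D.im * (Real.cosh D.re * Real.cos D.im) +
        Real.sinh D.re * Real.sin D.im * (Real.sinh D.re * Real.sin D.im) =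
        Real.cosh D.re ^ 2 * Real.cos D.im ^ 2 + Real.sinh D.re ^ 2 * Real.sin D.im ^ 2 := by ring
    rw [e4]
    have e5 : Real.cos D.im ^ 2 = 1 - Real.sin D.im ^ 2 := by linarith
    rw [e5, e1]
    nlinarith
  rw [cosh_re', mul_comm]
  exact mul_le_mul_of_nonneg_right h1 hc.le

/-- products of two numbers of a sector -/
theorem prod_sector (u v : ℂ) (c : ℝ) (hc : 0 ≤ c) (hu : c * ‖u‖ ≤ u.re) (hv : c * ‖v‖ ≤ v.re) :
    (2 * c ^ 2 - 1) * ‖u * v‖ ≤ (u * v).re := by
  have hu2 : ‖u‖ ^ 2 = u.re ^ 2 + u.im ^ 2 := by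
    rw [Complex.sq_norm, Complex.normSq_apply]; ring
  have hv2 : ‖v‖ ^ 2 = v.re ^ 2 + v.im ^ 2 := by
    rw [Complex.sq_norm, Complex.normSq_apply]; ring
  have hu0 := norm_nonneg u
  have hv0 := norm_nonneg v
  have hcu : 0 ≤ c * ‖u‖ := mul_nonneg hc hu0
  have hcv : 0 ≤ c * ‖v‖ := mul_nonneg hc hv0
  have h1 : c ^ 2 * (‖u‖ * ‖v‖) ≤ u.re * v.re := by
    have := mul_le_mul hu hv hcv (le_trans hcu hu)
    nlinarith
  have h2 : u.im ^ 2 ≤ (1 - c ^ 2) * ‖u‖ ^ 2 := by nlinarith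
  have h3 : v.im ^ 2 ≤ (1 - c ^ 2) * ‖v‖ ^ 2 := by nlinarith
  have h4 : (u.im * v.im) ^ 2 ≤ ((1 - c ^ 2) * (‖u‖ * ‖v‖)) ^ 2 := by
    have e := mul_le_mul h2 h3 (sq_nonneg _) (le_trans (sq_nonneg _) h2)
    calc (u.im * v.im) ^ 2 = u.im ^ 2 * v.im ^ 2 := by ring
      _ ≤ _ := e
      _ = _ := by ring
  rw [norm_mul, Complex.mul_re]
  rcases eq_or_lt_of_le (mul_nonneg hu0 hv0) with h0 | h0
  · have : u.im * v.im = 0 := by
      rw [← h0, mul_zero] at h4
      nlinarith [sq_nonneg (u.im * v.im)]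
    rw [← h0, mul_zero]
    rw [← h0, mul_zero] at h1
    linarith
  · have hpos : 0 ≤ 1 - c ^ 2 := by
      by_contra hneg
      push Not at hneg
      have hun : 0 < ‖u‖ := by
        rcases eq_or_lt_of_le hu0 with h | h
        · rw [← h, zero_mul] at h0; exact absurd h0 (lt_irrefl 0)
        · exact h
      have : (1 - c ^ 2) * ‖u‖ ^ 2 < 0 := mul_neg_of_neg_of_pos hneg (by positivity)
      nlinarith [sq_nonneg u.im]
    have h5 : |u.im * v.im| ≤ |(1 - c ^ 2) * (‖u‖ * ‖v‖)| := sq_le_sq.1 h4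
    rw [abs_of_nonneg (mul_nonneg hpos h0.le)] at h5
    have h6 := (abs_le.1 h5).2
    nlinarith

theorem add_sector (u : ℂ) (c t : ℝ) (hc : 0 ≤ c) (hc1 : c ^ 2 ≤ 1)
    (hu : (2 * c ^ 2 - 1) * ‖u‖ ≤ u.re) (ht : 0 ≤ t) : c * (‖u‖ + t) ≤ ‖u + (t : ℂ)‖ := by
  have hu2 : ‖u‖ ^ 2 = u.re ^ 2 + u.im ^ 2 := by
    rw [Complex.sq_norm, Complex.normSq_apply]; ring
  have hu0 := norm_nonneg u
  rw [← sq_le_sq₀ (mul_nonneg hc (add_nonneg hu0 ht)) (norm_nonneg _), Complex.sq_norm,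
    Complex.normSq_apply]
  simp only [Complex.add_re, Complex.ofReal_re, Complex.add_im, Complex.ofReal_im, add_zero]
  have h1 : t * ((2 * c ^ 2 - 1) * ‖u‖) ≤ t * u.re := mul_le_mul_of_nonneg_left hu ht
  have h2 : 0 ≤ (1 - c ^ 2) * (‖u‖ - t) ^ 2 := mul_nonneg (by linarith) (sq_nonneg _)
  nlinarith

theorem main_bound (u : ℂ) (hu0 : u ≠ 0) (c r y : ℝ) (hc : 0 ≤ c) (hc1 : c ^ 2 ≤ 1)
    (hu : (2 * c ^ 2 - 1) * ‖u‖ ≤ u.re) (hr : 0 ≤ r) (hy : 0 ≤ y) :
    c * (1 + ‖(r : ℂ) / u‖ * y / 2) ≤ ‖1 + (r : ℂ) / u / 2 * (y : ℂ)‖ := by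
  have hn : 0 < ‖u‖ := norm_pos_iff.2 hu0
  have h := add_sector u c (r * y / 2) hc hc1 hu (by positivity)
  have e1 : 1 + (r : ℂ) / u / 2 * (y : ℂ) = (u + ((r * y / 2 : ℝ) : ℂ)) / u := by
    push_cast
    field_simp
  rw [e1, norm_div, norm_div, le_div_iff₀ hn, Complex.norm_real, Real.norm_eq_abs, abs_of_nonneg hr]
  refine le_trans (le_of_eq ?_) h
  field_simp

theorem slit (u : ℂ) (hu0 : u ≠ 0) (c r : ℝ) (hc : 0 < c)
    (hu : (2 * c ^ 2 - 1) * ‖u‖ ≤ u.re) (hr : 0 ≤ r) : 1 + (r : ℂ) / u / 2 ∈ slitPlane := by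
  rw [Complex.mem_slitPlane_iff]
  by_cases him : u.im = 0
  · left
    have hu' : u = (u.re : ℂ) := by
      apply Complex.ext
      · simp
      · simp [him]
    have hre0 : u.re ≠ 0 := fun h => hu0 (by rw [hu', h]; simp)
    have hnorm : ‖u‖ = |u.re| := by
      conv_lhs => rw [hu']
      rw [Complex.norm_real, Real.norm_eq_abs]
    have hpos : 0 < u.re := by
      rcases lt_or_gt_of_ne hre0 with h | h
      · exfalso
        rw [hnorm, abs_of_neg h] at hu
        have : 0 < c ^ 2 := by positivity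
        nlinarith
      · exact h
    have e : 1 + (r : ℂ) / u / 2 = ((1 + r / u.re / 2 : ℝ) : ℂ) := by
      rw [hu']
      push_cast
      simp
    rw [e, Complex.ofReal_re]
    positivity
  · rcases eq_or_lt_of_le hr with h | h
    · left
      rw [← h]
      simp
    · right
      have hnsq : 0 < Complex.normSq u := Complex.normSq_pos.2 hu0
      have e : (1 + (r : ℂ) / u / 2).im = -(r * u.im / Complex.normSq u) / 2 := by
        have h2 : (1 + (r : ℂ) / u / 2) = 1 + ((1 / 2 : ℝ) : ℂ) * ((r : ℂ) / u) := by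
          push_cast; ring
        rw [h2, Complex.add_im, Complex.one_im, Complex.im_ofReal_mul, Complex.div_im]
        simp only [Complex.ofReal_im, Complex.ofReal_re, zero_mul, zero_div, zero_sub, zero_add]
        ring
      rw [e]
      have : r * u.im / Complex.normSq u ≠ 0 :=
        div_ne_zero (mul_ne_zero h.ne' him) hnsq.ne'
      intro h3
      apply this
      linarith

end WGEO_

open WGEO_ in
theorem pGEO : tGEO := by
  have hcosh : ∀ h x : ℝ, |x| ≤ |h| → 0 ≤ Real.cosh h - Real.cosh x := fun h x hx => by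
    have := Real.cosh_le_cosh.2 hx
    linarith
  refine ⟨fun D hD => cosh_re_pos hD, ?_, ?_⟩
  · intro D h x hD hx
    have hD2 : |(D + (x : ℂ)).im| < Real.pi / 2 := by simpa using hD
    have him : (D + (x : ℂ)).im = D.im := by simp
    have hc := cos_pos' hD
    have h1 := cosh_sector hD
    have h2 := cosh_sector hD2
    rw [him] at h2
    have h3 := prod_sector _ _ _ hc.le h1 h2
    have hne1 : Complex.cosh D ≠ 0 := fun h0 => by
      have := cosh_re_pos hD
      rw [h0] at this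
      simp at this
    have hne2 : Complex.cosh (D + x) ≠ 0 := fun h0 => by
      have := cosh_re_pos hD2
      rw [h0] at this
      simp at this
    have hne := mul_ne_zero hne1 hne2
    have hr := hcosh h x hx
    have hc1 : Real.cos D.im ^ 2 ≤ 1 := Real.cos_sq_le_one _
    refine ⟨slit _ hne _ _ hc h3 hr, ?_⟩
    intro y hy
    have h4 := main_bound _ hne _ _ y hc.le hc1 h3 hr hy.1
    unfold wk
    refine le_trans ?_ h4
    nlinarith
  · intro b h x hb hx y hy
    have hb1 : |((b : ℂ) * I).im| < Real.pi / 2 := by simpa using hb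
    have hb2 : |((b : ℂ) * I + (x : ℂ)).im| < Real.pi / 2 := by simpa using hb
    have hp1 := cosh_re_pos hb1
    have hp2 := cosh_re_pos hb2
    have e1 : (Complex.cosh ((b : ℂ) * I)).im = 0 := by
      rw [cosh_im']; simp
    have hre : 0 < (Complex.cosh ((b : ℂ) * I) * Complex.cosh ((b : ℂ) * I + (x : ℂ))).re := by
      rw [Complex.mul_re, e1, zero_mul, sub_zero]
      exact mul_pos hp1 hp2
    have hne : Complex.cosh ((b : ℂ) * I) * Complex.cosh ((b : ℂ) * I + (x : ℂ)) ≠ 0 := fun h0 => by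
      rw [h0] at hre
      simp at hre
    have h3 : (2 * (2 / 3 : ℝ) ^ 2 - 1) *
        ‖Complex.cosh ((b : ℂ) * I) * Complex.cosh ((b : ℂ) * I + (x : ℂ))‖ ≤
        (Complex.cosh ((b : ℂ) * I) * Complex.cosh ((b : ℂ) * I + (x : ℂ))).re := by
      have := norm_nonneg (Complex.cosh ((b : ℂ) * I) * Complex.cosh ((b : ℂ) * I + (x : ℂ)))
      nlinarith
    have h4 := main_bound _ hne (2 / 3) _ y (by norm_num) (by norm_num) h3 (hcosh h x hx) hy.1
    unfold wk
    refine le_trans ?_ h4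
    nlinarith

end FMZ
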