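import Pool.Agent.FMZ.TW

/-!
# FMZ-W4: uniform kernel bound on the imaginary axis
-/

open Complex MeasureTheory Set Filter Topology

namespace FMZ

namespace WK1_

noncomputable def Q (b x : ℝ) : ℝ := Real.cosh x ^ 2 - Real.sin b ^ 2

noncomputable def A (b x : ℝ) : ℝ := Real.cos b * √(Q b x)

noncomputable def FF (b h x : ℝ) : ℝ :=
  Real.sinh h / A b x * (1 + (Real.cosh h - Real.cosh x) / A b x) ^ (-(5 / 4) : ℝ)

lemma cos_pos {b : ℝ} (hb : |b| < Real.pi / 2) : 0 < Real.cos b :=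
  Real.cos_pos_of_mem_Ioo ⟨(abs_lt.1 hb).1, (abs_lt.1 hb).2⟩

lemma Q_eq (b x : ℝ) : Q b x = Real.cos b ^ 2 + Real.sinh x ^ 2 := by
  unfold Q
  have h1 := Real.cosh_sq x
  have h2 := Real.sin_sq_add_cos_sq b
  linarith

lemma Q_pos {b : ℝ} (hb : |b| < Real.pi / 2) (x : ℝ) : 0 < Q b x := by
  rw [Q_eq]
  have := cos_pos hb
  positivity

lemma A_pos {b : ℝ} (hb : |b| < Real.pi / 2) (x : ℝ) : 0 < A b x :=
  mul_pos (cos_pos hb) (Real.sqrt_pos.2 (Q_pos hb x))

lemma A_le {b : ℝ} (_hb : |b| < Real.pi / 2) (x : ℝ) : A b x ≤ Real.cosh x := by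
  unfold A
  have h1 : √(Q b x) ≤ Real.cosh x := by
    rw [Real.sqrt_le_left (Real.cosh_pos x).le]
    unfold Q
    nlinarith [sq_nonneg (Real.sin b)]
  calc Real.cos b * √(Q b x) ≤ 1 * Real.cosh x :=
        mul_le_mul (Real.cos_le_one b) h1 (Real.sqrt_nonneg _) zero_le_one
    _ = Real.cosh x := one_mul _

lemma A_neg (b x : ℝ) : A b (-x) = A b x := by
  unfold A Q
  rw [Real.cosh_neg]

lemma FF_neg (b h x : ℝ) : FF b h (-x) = FF b h x := by
  unfold FF
  rw [A_neg, Real.cosh_neg]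

lemma norm_cosh (b x : ℝ) : ‖Complex.cosh (b * I + x)‖ = √(Q b x) := by
  have h1 : Complex.cosh (b * I + x) =
      ((Real.cos b * Real.cosh x : ℝ) : ℂ) + ((Real.sin b * Real.sinh x : ℝ) : ℂ) * I := by
    rw [Complex.cosh_add, Complex.cosh_mul_I, Complex.sinh_mul_I]
    push_cast
    ring
  rw [h1, Complex.norm_add_mul_I]
  congr 1
  rw [Q_eq]
  have h2 := Real.cosh_sq x
  have h3 := Real.sin_sq_add_cos_sq b
  rw [mul_pow, mul_pow, h2]
  have h4 : Real.sin b ^ 2 = 1 - Real.cos b ^ 2 := by linarith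
  rw [h4]
  ring

lemma norm_den {b : ℝ} (hb : |b| < Real.pi / 2) (x : ℝ) :
    ‖Complex.cosh (b * I) * Complex.cosh (b * I + x)‖ = A b x := by
  rw [norm_mul, norm_cosh, Complex.cosh_mul_I, ← Complex.ofReal_cos, Complex.norm_real,
    Real.norm_of_nonneg (cos_pos hb).le, A]

lemma norm_wk {b : ℝ} (hb : |b| < Real.pi / 2) {h x : ℝ} (hx : |x| ≤ |h|) :
    ‖wk (b * I) h x‖ = (Real.cosh h - Real.cosh x) / A b x := by
  unfold wk
  rw [norm_div, norm_den hb, Complex.norm_real, Real.norm_of_nonneg]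
  rw [sub_nonneg]
  exact Real.cosh_le_cosh.2 hx

lemma Kk_le (h1 : tLE) (h2 : tGEO) : ∃ C : ℝ, 0 < C ∧ ∀ b h x : ℝ, |b| < Real.pi / 2 → |x| ≤ h →
    ‖Kk (b * I) h x‖ ≤ C * FF b h x := by
  obtain ⟨C, hC, hC'⟩ := h1.2.2.2 (1 / 3) (by norm_num)
  refine ⟨C, hC, ?_⟩
  intro b h x hb hx
  have hh : 0 ≤ h := le_trans (abs_nonneg x) hx
  have hx' : |x| ≤ |h| := by rwa [abs_of_nonneg hh]
  have h3 : 1 + wk (b * I) h x / 2 ∈ slitPlane := by
    refine (h2.2.1 (b * I) h x ?_ hx').1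
    simpa using hb
  have h4 := hC' (wk (b * I) h x) h3 (h2.2.2 b h x hb hx')
  rw [norm_wk hb hx'] at h4
  have h5 : ‖((Real.sinh h : ℝ) : ℂ) / (Complex.cosh (b * I) * Complex.cosh (b * I + x))‖ =
      Real.sinh h / A b x := by
    rw [norm_div, norm_den hb, Complex.norm_real, Real.norm_of_nonneg (Real.sinh_nonneg_iff.2 hh)]
  unfold Kk FF
  rw [norm_mul, h5]
  have h6 : 0 ≤ Real.sinh h / A b x := div_nonneg (Real.sinh_nonneg_iff.2 hh) (A_pos hb x).le
  calc ‖Le1 (wk (b * I) h x)‖ * (Real.sinh h / A b x)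
      ≤ (C * (1 + (Real.cosh h - Real.cosh x) / A b x) ^ (-(5 / 4) : ℝ)) * (Real.sinh h / A b x) :=
        mul_le_mul_of_nonneg_right h4 h6
    _ = _ := by ring

/-- `coth ((h + x) / 2) ≤ 1 + 2 / h` in product form -/
lemma sinh_sub_le {h x : ℝ} (hx : 0 ≤ x) (hxh : x ≤ h) (hh : 0 < h) :
    Real.sinh h - Real.sinh x ≤ (1 + 2 / h) * (Real.cosh h - Real.cosh x) := by
  set p := (h + x) / 2 with hp
  set q := (h - x) / 2 with hq
  have e1 : h = p + q := by rw [hp, hq]; ring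
  have e2 : x = p - q := by rw [hp, hq]; ring
  have f1 : Real.sinh h - Real.sinh x = 2 * Real.cosh p * Real.sinh q := by
    rw [e1, e2, Real.sinh_add, Real.sinh_sub]
    ring
  have f2 : Real.cosh h - Real.cosh x = 2 * Real.sinh p * Real.sinh q := by
    rw [e1, e2, Real.cosh_add, Real.cosh_sub]
    ring
  have hq0 : 0 ≤ q := by rw [hq]; linarith
  have hp0 : h / 2 ≤ p := by rw [hp]; linarith
  have hp1 : 0 ≤ p := by linarith
  have g1 : p ≤ Real.sinh p := Real.self_le_sinh_iff.2 hp1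
  have g2 : Real.cosh p - Real.sinh p ≤ 1 := by
    rw [Real.cosh_sub_sinh]
    exact Real.exp_le_one_iff.2 (by linarith)
  have g3 : 1 ≤ 2 / h * Real.sinh p := by
    rw [div_mul_eq_mul_div, le_div_iff₀ hh]
    linarith
  have g4 : Real.cosh p ≤ (1 + 2 / h) * Real.sinh p := by linarith
  rw [f1, f2]
  have g5 : 0 ≤ 2 * Real.sinh q := by
    have := Real.sinh_nonneg_iff.2 hq0
    linarith
  calc 2 * Real.cosh p * Real.sinh q = Real.cosh p * (2 * Real.sinh q) := by ring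
    _ ≤ ((1 + 2 / h) * Real.sinh p) * (2 * Real.sinh q) := mul_le_mul_of_nonneg_right g4 g5
    _ = _ := by ring

lemma rpow_le_exp {b h x : ℝ} (hb : |b| < Real.pi / 2) (hx : |x| ≤ h) :
    (1 + (Real.cosh h - Real.cosh x) / A b x) ^ (-(1 / 4) : ℝ) ≤ 2 * Real.exp ((|x| - h) / 4) := by
  set t := 2 * Real.exp ((|x| - h) / 4) with ht
  have ht0 : 0 < t := by positivity
  have hh : 0 ≤ h := le_trans (abs_nonneg x) hx
  have hn : 0 ≤ Real.cosh h - Real.cosh x := by
    rw [sub_nonneg]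
    exact Real.cosh_le_cosh.2 (by rwa [abs_of_nonneg hh])
  have h1 : t ^ (-(4 : ℝ)) ≤ 1 + (Real.cosh h - Real.cosh x) / A b x := by
    have e1 : t ^ (-(4 : ℝ)) = Real.exp (h - |x|) / 16 := by
      rw [Real.rpow_neg ht0.le, show (4 : ℝ) = ((4 : ℕ) : ℝ) by norm_num, Real.rpow_natCast, ht,
        mul_pow, ← Real.exp_nat_mul, mul_inv, ← Real.exp_neg]
      have : -(((4 : ℕ) : ℝ) * ((|x| - h) / 4)) = h - |x| := by
        push_cast
        ring
      rw [this]
      ring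
    rw [e1]
    have e2 : Real.cosh h / Real.cosh x ≤ 1 + (Real.cosh h - Real.cosh x) / A b x := by
      have e3 : Real.cosh h / Real.cosh x = 1 + (Real.cosh h - Real.cosh x) / Real.cosh x := by
        have := (Real.cosh_pos x).ne'
        field_simp
        ring
      rw [e3]
      have := div_le_div_of_nonneg_left hn (A_pos hb x) (A_le hb x)
      linarith
    refine le_trans ?_ e2
    rw [le_div_iff₀ (Real.cosh_pos x)]
    have e4 : Real.cosh x ≤ Real.exp |x| := by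
      rw [← Real.cosh_abs, Real.cosh_eq]
      have : Real.exp (-|x|) ≤ Real.exp |x| := Real.exp_le_exp.2 (by linarith [abs_nonneg x])
      linarith
    have e5 : Real.exp h / 2 ≤ Real.cosh h := by
      rw [Real.cosh_eq]
      have := Real.exp_pos (-h)
      linarith
    calc Real.exp (h - |x|) / 16 * Real.cosh x ≤ Real.exp (h - |x|) / 16 * Real.exp |x| :=
          mul_le_mul_of_nonneg_left e4 (by positivity)
      _ = Real.exp h / 16 := by
          rw [div_mul_eq_mul_div, ← Real.exp_add]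
          congr 2
          ring
      _ ≤ Real.exp h / 2 := by
          have := Real.exp_pos h
          linarith
      _ ≤ _ := e5
  have h2 := Real.rpow_le_rpow_of_nonpos (Real.rpow_pos_of_pos ht0 _) h1
    (show (-(1 / 4) : ℝ) ≤ 0 by norm_num)
  refine le_trans h2 ?_
  rw [← Real.rpow_mul ht0.le]
  norm_num

lemma rest_le {b h x : ℝ} (hb : |b| < Real.pi / 2) (hx : 0 ≤ x) (hxh : x ≤ h) (hh : 0 < h) :
    (Real.sinh h - Real.sinh x) / A b x *
      (1 + (Real.cosh h - Real.cosh x) / A b x) ^ (-(5 / 4) : ℝ) ≤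
      (1 + 2 / h) * (2 * Real.exp ((x - h) / 4)) := by
  have hA := A_pos hb x
  have hn : 0 ≤ Real.cosh h - Real.cosh x := by
    rw [sub_nonneg]
    exact Real.cosh_le_cosh.2 (by rw [abs_of_nonneg hh.le, abs_of_nonneg hx]; exact hxh)
  set n := Real.cosh h - Real.cosh x with hnd
  set y := n / A b x with hy
  have hy0 : 0 ≤ y := div_nonneg hn hA.le
  have h1 : (Real.sinh h - Real.sinh x) / A b x ≤ (1 + 2 / h) * y := by
    rw [hy, div_le_iff₀ hA]
    have := sinh_sub_le hx hxh hh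
    rw [mul_assoc, div_mul_cancel₀ _ hA.ne']
    exact this
  have h2 : (1 + y) ^ (-(5 / 4) : ℝ) = (1 + y) ^ (-(1 / 4) : ℝ) * (1 + y)⁻¹ := by
    rw [← Real.rpow_neg_one (1 + y), ← Real.rpow_add (by linarith)]
    norm_num
  have h3 := rpow_le_exp hb (h := h) (x := x) (by rwa [abs_of_nonneg hx])
  rw [abs_of_nonneg hx] at h3
  have h4 : 0 < (1 + y) ^ (-(1 / 4) : ℝ) := Real.rpow_pos_of_pos (by linarith) _
  have h5 : 0 < 1 + 2 / h := by positivity
  calc (Real.sinh h - Real.sinh x) / A b x * (1 + y) ^ (-(5 / 4) : ℝ)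
      ≤ ((1 + 2 / h) * y) * (1 + y) ^ (-(5 / 4) : ℝ) :=
        mul_le_mul_of_nonneg_right h1 (Real.rpow_nonneg (by linarith) _)
    _ = (1 + 2 / h) * (((1 + y) ^ (-(1 / 4) : ℝ)) * (y * (1 + y)⁻¹)) := by rw [h2]; ring
    _ ≤ (1 + 2 / h) * (((1 + y) ^ (-(1 / 4) : ℝ)) * 1) := by
        refine mul_le_mul_of_nonneg_left (mul_le_mul_of_nonneg_left ?_ h4.le) h5.le
        rw [← div_eq_mul_inv, div_le_one (by linarith)]
        linarith
    _ ≤ (1 + 2 / h) * (2 * Real.exp ((x - h) / 4)) := by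
        rw [mul_one]
        exact mul_le_mul_of_nonneg_left h3 h5.le

lemma hasDeriv_A {b : ℝ} (hb : |b| < Real.pi / 2) (x : ℝ) :
    HasDerivAt (A b) (Real.cos b * ((2 * Real.cosh x * Real.sinh x) / (2 * √(Q b x)))) x := by
  have h1 : HasDerivAt (Q b) (2 * Real.cosh x * Real.sinh x) x := by
    have := ((Real.hasDerivAt_cosh x).fun_pow 2).sub_const (Real.sin b ^ 2)
    have h2 := this.congr_deriv (g' := 2 * Real.cosh x * Real.sinh x) (by norm_num)
    exact h2
  exact (h1.sqrt (Q_pos hb x).ne').const_mul _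

lemma hasDeriv_G {b : ℝ} (hb : |b| < Real.pi / 2) {h x : ℝ} (hx : |x| ≤ |h|) :
    HasDerivAt (fun x => 4 * (1 + (Real.cosh h - Real.cosh x) / A b x) ^ (-(1 / 4) : ℝ))
      (((Real.sinh x) * A b x + (Real.cosh h - Real.cosh x) *
        (Real.cos b * ((2 * Real.cosh x * Real.sinh x) / (2 * √(Q b x))))) / (A b x) ^ 2 *
        (1 + (Real.cosh h - Real.cosh x) / A b x) ^ (-(5 / 4) : ℝ)) x := by
  have hA := A_pos hb x
  have hn : 0 ≤ Real.cosh h - Real.cosh x := by
    rw [sub_nonneg]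
    exact Real.cosh_le_cosh.2 hx
  have h1 := ((Real.hasDerivAt_cosh x).const_sub (Real.cosh h)).fun_div (hasDeriv_A hb x) hA.ne'
  have h2 := ((h1.const_add 1).rpow_const (p := (-(1 / 4) : ℝ)) (Or.inl (by
    have := div_nonneg hn hA.le
    linarith))).const_mul 4
  refine h2.congr_deriv ?_
  rw [show (-(1 / 4) : ℝ) - 1 = -(5 / 4) by norm_num]
  ring

lemma FF_le_deriv {b : ℝ} (hb : |b| < Real.pi / 2) {h x : ℝ} (hx : 0 ≤ x) (hxh : x ≤ h)
    (hh : 0 < h) :
    FF b h x ≤ ((Real.sinh x) * A b x + (Real.cosh h - Real.cosh x) *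
        (Real.cos b * ((2 * Real.cosh x * Real.sinh x) / (2 * √(Q b x))))) / (A b x) ^ 2 *
        (1 + (Real.cosh h - Real.cosh x) / A b x) ^ (-(5 / 4) : ℝ) +
      (1 + 2 / h) * (2 * Real.exp ((x - h) / 4)) := by
  have hA := A_pos hb x
  have hn : 0 ≤ Real.cosh h - Real.cosh x := by
    rw [sub_nonneg]
    exact Real.cosh_le_cosh.2 (by rw [abs_of_nonneg hh.le, abs_of_nonneg hx]; exact hxh)
  have h1 := rest_le hb hx hxh hh
  have hs : 0 ≤ Real.sinh x := Real.sinh_nonneg_iff.2 hx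
  have hP : 0 ≤ (1 + (Real.cosh h - Real.cosh x) / A b x) ^ (-(5 / 4) : ℝ) :=
    Real.rpow_nonneg (by have := div_nonneg hn hA.le; linarith) _
  have h2 : Real.sinh x / A b x ≤ ((Real.sinh x) * A b x + (Real.cosh h - Real.cosh x) *
        (Real.cos b * ((2 * Real.cosh x * Real.sinh x) / (2 * √(Q b x))))) / (A b x) ^ 2 := by
    have e1 : Real.sinh x / A b x = (Real.sinh x * A b x) / (A b x) ^ 2 := by
      field_simp
    rw [e1]
    refine div_le_div_of_nonneg_right ?_ (by positivity)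
    have e2 : 0 ≤ Real.cos b * ((2 * Real.cosh x * Real.sinh x) / (2 * √(Q b x))) := by
      have := cos_pos hb
      have := Real.cosh_pos x
      positivity
    have := mul_nonneg hn e2
    linarith
  have h3 := mul_le_mul_of_nonneg_right h2 hP
  have h4 : FF b h x = Real.sinh x / A b x *
      (1 + (Real.cosh h - Real.cosh x) / A b x) ^ (-(5 / 4) : ℝ) +
      (Real.sinh h - Real.sinh x) / A b x *
      (1 + (Real.cosh h - Real.cosh x) / A b x) ^ (-(5 / 4) : ℝ) := by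
    unfold FF
    ring
  rw [h4]
  linarith

lemma integral_le {b : ℝ} (hb : |b| < Real.pi / 2) {h : ℝ} (hh : 0 ≤ h) {C : ℝ} (hC : 0 < C)
    {φ : ℝ → ℝ} (hφ : ∀ x ∈ Ioo (0 : ℝ) h, φ x ≤ C * FF b h x) :
    ∫ x in (0 : ℝ)..h, φ x ≤ 16 * C := by
  rcases hh.eq_or_lt with h0 | h0
  · rw [← h0, intervalIntegral.integral_same]
    positivity
  by_cases hint : IntervalIntegrable φ volume 0 h
  swap
  · rw [intervalIntegral.integral_undef hint]
    positivity
  set g : ℝ → ℝ := fun x => C * ((4 * (1 + (Real.cosh h - Real.cosh x) / A b x) ^ (-(1 / 4) : ℝ)) +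
    (1 + 2 / h) * (8 * Real.exp ((x - h) / 4))) with hg
  set g' : ℝ → ℝ := fun x => C * (((Real.sinh x) * A b x + (Real.cosh h - Real.cosh x) *
        (Real.cos b * ((2 * Real.cosh x * Real.sinh x) / (2 * √(Q b x))))) / (A b x) ^ 2 *
        (1 + (Real.cosh h - Real.cosh x) / A b x) ^ (-(5 / 4) : ℝ) +
      (1 + 2 / h) * (2 * Real.exp ((x - h) / 4))) with hg'
  have hd : ∀ x ∈ Icc (0 : ℝ) h, HasDerivAt g (g' x) x := by
    intro x hx
    have e1 := hasDeriv_G hb (h := h) (x := x) (by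
      rw [abs_of_nonneg hx.1, abs_of_nonneg hh]; exact hx.2)
    have e2 : HasDerivAt (fun x : ℝ => (1 + 2 / h) * (8 * Real.exp ((x - h) / 4)))
        ((1 + 2 / h) * (2 * Real.exp ((x - h) / 4))) x := by
      have e3 : HasDerivAt (fun x : ℝ => (x - h) / 4) (1 / 4) x :=
        ((hasDerivAt_id x).sub_const h).div_const 4
      have e4 := ((e3.exp.const_mul 8).const_mul (1 + 2 / h))
      exact e4.congr_deriv (by ring)
    exact (e1.add e2).const_mul C
  have hcont : ContinuousOn g (Icc 0 h) := fun x hx => (hd x hx).continuousAt.continuousWithinAt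
  have key := intervalIntegral.integral_le_sub_of_hasDeriv_right_of_le hh hcont
    (fun x hx => (hd x ⟨hx.1.le, hx.2.le⟩).hasDerivWithinAt)
    ((intervalIntegrable_iff_integrableOn_Icc_of_le hh).1 hint)
    (fun x hx => (hφ x hx).trans (by
      rw [hg']
      exact mul_le_mul_of_nonneg_left (FF_le_deriv hb hx.1.le hx.2.le h0) hC.le))
  refine key.trans ?_
  have e1 : g h = C * (4 + (1 + 2 / h) * 8) := by
    simp [hg]
  have e2 : C * ((1 + 2 / h) * (8 * Real.exp (-(h / 4)))) ≤ g 0 := by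
    rw [hg]
    refine mul_le_mul_of_nonneg_left ?_ hC.le
    have : 0 ≤ (1 + (Real.cosh h - Real.cosh 0) / A b 0) ^ (-(1 / 4) : ℝ) := by
      refine Real.rpow_nonneg ?_ _
      have hn : 0 ≤ Real.cosh h - Real.cosh 0 := by
        rw [sub_nonneg]
        exact Real.cosh_le_cosh.2 (by rw [abs_zero]; exact abs_nonneg h)
      have := div_nonneg hn (A_pos hb 0).le
      linarith
    have e3 : (0 - h) / 4 = -(h / 4) := by ring
    rw [e3]
    linarith
  have e3 : 1 - h / 4 ≤ Real.exp (-(h / 4)) := by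
    have := Real.add_one_le_exp (-(h / 4))
    linarith
  have e4 : 0 ≤ Real.exp (-(h / 4)) := (Real.exp_pos _).le
  rw [e1]
  have e5 : (1 + 2 / h) * 8 * (1 - Real.exp (-(h / 4))) ≤ 12 := by
    have f1 : 8 * (1 - Real.exp (-(h / 4))) ≤ 8 := by linarith
    have f2 : 2 / h * 8 * (1 - Real.exp (-(h / 4))) ≤ 4 := by
      calc 2 / h * 8 * (1 - Real.exp (-(h / 4))) ≤ 2 / h * 8 * (h / 4) :=
            mul_le_mul_of_nonneg_left (by linarith) (by positivity)
        _ = 4 := by field_simp; norm_num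
    calc (1 + 2 / h) * 8 * (1 - Real.exp (-(h / 4))) = 8 * (1 - Real.exp (-(h / 4))) +
          2 / h * 8 * (1 - Real.exp (-(h / 4))) := by ring
      _ ≤ 8 + 4 := add_le_add f1 f2
      _ = 12 := by norm_num
  calc C * (4 + (1 + 2 / h) * 8) - g 0 ≤ C * (4 + (1 + 2 / h) * 8) -
        C * ((1 + 2 / h) * (8 * Real.exp (-(h / 4)))) := by linarith
    _ = C * (4 + (1 + 2 / h) * 8 * (1 - Real.exp (-(h / 4)))) := by ring
    _ ≤ C * (4 + 12) := mul_le_mul_of_nonneg_left (by linarith) hC.le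
    _ = 16 * C := by ring

lemma FF_small {b : ℝ} (hb : |b| < Real.pi / 2) {h x a : ℝ} (hxa : |x| ≤ a) (hah : a ≤ h)
    (hbig : 2 * Real.cosh a ≤ Real.cosh h) :
    FF b h x ≤ 2 * Real.cosh a * (Real.cosh h) ^ (-(1 / 4) : ℝ) * 2 ^ (5 / 4 : ℝ) := by
  have hA := A_pos hb x
  have ha : 0 ≤ a := (abs_nonneg x).trans hxa
  have hh : 0 ≤ h := ha.trans hah
  have hca : Real.cosh x ≤ Real.cosh a := Real.cosh_le_cosh.2 (by rwa [abs_of_nonneg ha])
  have hn : Real.cosh h / 2 ≤ Real.cosh h - Real.cosh x := by linarith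
  have hch := Real.cosh_pos h
  have hn0 : 0 < Real.cosh h - Real.cosh x := by linarith
  set n := Real.cosh h - Real.cosh x with hnd
  have hA1 : A b x ≤ Real.cosh a := (A_le hb x).trans hca
  have h1 : (1 + n / A b x) ^ (-(5 / 4) : ℝ) ≤ (n / A b x) ^ (-(5 / 4) : ℝ) :=
    Real.rpow_le_rpow_of_nonpos (div_pos hn0 hA) (by linarith) (by norm_num)
  have h2 : (n / A b x) ^ (-(5 / 4) : ℝ) = (A b x) * (A b x) ^ (1 / 4 : ℝ) * n ^ (-(5 / 4) : ℝ) := by
    rw [Real.div_rpow hn0.le hA.le, Real.rpow_neg hA.le, div_inv_eq_mul, mul_comm]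
    congr 1
    nth_rewrite 2 [← Real.rpow_one (A b x)]
    rw [← Real.rpow_add hA]
    norm_num
  have h3 : n ^ (-(5 / 4) : ℝ) ≤ (Real.cosh h / 2) ^ (-(5 / 4) : ℝ) :=
    Real.rpow_le_rpow_of_nonpos (by positivity) hn (by norm_num)
  have h4 : (Real.cosh h / 2) ^ (-(5 / 4) : ℝ) =
      (Real.cosh h)⁻¹ * (Real.cosh h) ^ (-(1 / 4) : ℝ) * 2 ^ (5 / 4 : ℝ) := by
    rw [Real.div_rpow hch.le (by norm_num), Real.rpow_neg (by norm_num : (0 : ℝ) ≤ 2),
      div_inv_eq_mul]
    congr 1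
    rw [← Real.rpow_neg_one, ← Real.rpow_add hch]
    norm_num
  have h5 : (A b x) ^ (1 / 4 : ℝ) ≤ 2 * Real.cosh a := by
    calc (A b x) ^ (1 / 4 : ℝ) ≤ (Real.cosh a) ^ (1 / 4 : ℝ) :=
          Real.rpow_le_rpow hA.le hA1 (by norm_num)
      _ ≤ (Real.cosh a) ^ (1 : ℝ) :=
          Real.rpow_le_rpow_of_exponent_le (Real.one_le_cosh a) (by norm_num)
      _ = Real.cosh a := Real.rpow_one _
      _ ≤ 2 * Real.cosh a := by linarith [Real.cosh_pos a]
  have hs : Real.sinh h ≤ Real.cosh h := (Real.sinh_lt_cosh h).le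
  have hs0 : 0 ≤ Real.sinh h := Real.sinh_nonneg_iff.2 hh
  unfold FF
  calc Real.sinh h / A b x * (1 + n / A b x) ^ (-(5 / 4) : ℝ)
      ≤ Real.sinh h / A b x * ((A b x) * (A b x) ^ (1 / 4 : ℝ) * n ^ (-(5 / 4) : ℝ)) := by
        rw [← h2]
        exact mul_le_mul_of_nonneg_left h1 (div_nonneg hs0 hA.le)
    _ = Real.sinh h * (A b x) ^ (1 / 4 : ℝ) * n ^ (-(5 / 4) : ℝ) := by
        field_simp
    _ ≤ Real.cosh h * (2 * Real.cosh a) * (Real.cosh h / 2) ^ (-(5 / 4) : ℝ) := by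
        refine mul_le_mul (mul_le_mul hs h5 (Real.rpow_nonneg hA.le _) hch.le) h3
          (Real.rpow_nonneg hn0.le _) ?_
        have := Real.cosh_pos a
        positivity
    _ = _ := by
        rw [h4]
        field_simp

lemma tendsto_cosh : Tendsto Real.cosh atTop atTop := by
  refine tendsto_atTop_mono (f := fun x => Real.exp x / 2) ?_ ?_
  · intro x
    rw [Real.cosh_eq]
    have := Real.exp_pos (-x)
    linarith
  · exact Real.tendsto_exp_atTop.atTop_div_const (by norm_num)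

end WK1_

open WK1_ in
theorem pK1 (h1 : tLE) (h2 : tGEO) : tK1 := by
  obtain ⟨C, hC, hK⟩ := Kk_le h1 h2
  refine ⟨⟨32 * C, by positivity, ?_⟩, ?_⟩
  · intro b hb h hh
    by_cases hint : IntervalIntegrable (fun x => ‖Kk (b * I) h x‖) volume (-h) h
    swap
    · rw [intervalIntegral.integral_undef hint]
      positivity
    have hi1 : IntervalIntegrable (fun x => ‖Kk (b * I) h x‖) volume (-h) 0 :=
      hint.mono_set (by
        rw [uIcc_of_le (by linarith), uIcc_of_le (by linarith)]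
        exact Icc_subset_Icc le_rfl hh)
    have hi2 : IntervalIntegrable (fun x => ‖Kk (b * I) h x‖) volume 0 h :=
      hint.mono_set (by
        rw [uIcc_of_le (by linarith), uIcc_of_le (by linarith)]
        exact Icc_subset_Icc (by linarith) le_rfl)
    rw [← intervalIntegral.integral_add_adjacent_intervals hi1 hi2]
    have e1 : ∫ x in (0 : ℝ)..h, ‖Kk (b * I) h x‖ ≤ 16 * C :=
      integral_le hb hh hC (fun x hx => hK b h x hb (by
        rw [abs_of_nonneg hx.1.le]; exact hx.2.le))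
    have e2 : ∫ x in (-h)..0, ‖Kk (b * I) h x‖ = ∫ x in (0 : ℝ)..h, ‖Kk (b * I) h (-x)‖ := by
      have := intervalIntegral.integral_comp_neg (a := 0) (b := h) (fun x => ‖Kk (b * I) h x‖)
      simp only [neg_zero] at this
      exact this.symm
    have e3 : ∫ x in (0 : ℝ)..h, ‖Kk (b * I) h (-x)‖ ≤ 16 * C := by
      refine integral_le hb hh hC (fun x hx => ?_)
      have := hK b h (-x) hb (by rw [abs_neg, abs_of_nonneg hx.1.le]; exact hx.2.le)
      rw [FF_neg] at this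
      exact this
    rw [e2]
    linarith
  · intro b hb a ε hε
    rcases lt_or_ge a 0 with ha | ha
    · refine ⟨0, fun h _ x hx => ?_⟩
      exact absurd (abs_nonneg x) (by linarith)
    have t1 : Tendsto (fun h => C * (2 * Real.cosh a * (Real.cosh h) ^ (-(1 / 4) : ℝ) *
        2 ^ (5 / 4 : ℝ))) atTop (𝓝 0) := by
      have e1 : Tendsto (fun h => (Real.cosh h) ^ (-(1 / 4) : ℝ)) atTop (𝓝 0) :=
        (tendsto_rpow_neg_atTop (by norm_num : (0 : ℝ) < 1 / 4)).comp tendsto_cosh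
      have e2 := ((e1.const_mul (2 * Real.cosh a)).mul_const (2 ^ (5 / 4 : ℝ))).const_mul C
      simpa using e2
    have t2 := (t1.eventually (ge_mem_nhds hε)).and ((eventually_ge_atTop a).and
      (tendsto_cosh.eventually_ge_atTop (2 * Real.cosh a)))
    obtain ⟨h₀, hh₀⟩ := eventually_atTop.1 t2
    refine ⟨h₀, fun h hh x hx => ?_⟩
    obtain ⟨k1, k2, k3⟩ := hh₀ h hh
    refine (hK b h x hb (hx.trans k2)).trans (le_trans ?_ k1)
    exact mul_le_mul_of_nonneg_left (FF_small hb hx k2 k3) hC.le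

end FMZ
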