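import Pool.Agent.FMZ.TW

/-!
# FMZ-W5: kernel bounds on discs
-/

open Complex MeasureTheory Set Filter Topology

namespace FMZ

namespace WK2_

lemma norm_cosh_sq (D : ℂ) :
    ‖Complex.cosh D‖ ^ 2 = Real.sinh D.re ^ 2 + Real.cos D.im ^ 2 := by
  have h1 : Complex.cosh D = ((Real.cosh D.re * Real.cos D.im : ℝ) : ℂ)
      + ((Real.sinh D.re * Real.sin D.im : ℝ) : ℂ) * I := by
    conv_lhs => rw [← Complex.re_add_im D]
    rw [Complex.cosh_add, Complex.cosh_mul_I, Complex.sinh_mul_I]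
    push_cast
    ring
  rw [h1, ← Complex.normSq_eq_norm_sq, Complex.normSq_add_mul_I, mul_pow, mul_pow,
    Real.cosh_sq, Real.sin_sq]
  ring

lemma cosh_lower {R : ℝ} (hR0 : 0 < R) (hR : R < Real.pi / 2) {D : ℂ} (hD : |D.im| ≤ R) :
    Real.cos R * Real.cosh D.re ≤ ‖Complex.cosh D‖ := by
  have h1 : 0 ≤ Real.cos R := Real.cos_nonneg_of_mem_Icc ⟨by linarith, hR.le⟩
  have h2 : Real.cos R ≤ Real.cos D.im := by
    rw [← Real.cos_abs D.im]
    exact Real.cos_le_cos_of_nonneg_of_le_pi (abs_nonneg _) (by linarith [Real.pi_pos]) hD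
  have h3 : Real.cos R ≤ 1 := Real.cos_le_one R
  refine le_of_sq_le_sq ?_ (norm_nonneg _)
  rw [norm_cosh_sq, mul_pow, Real.cosh_sq]
  have h4 : Real.cos R ^ 2 ≤ Real.cos D.im ^ 2 := pow_le_pow_left₀ h1 h2 2
  have h5 : Real.cos R ^ 2 ≤ 1 := by nlinarith
  nlinarith [sq_nonneg (Real.sinh D.re)]

lemma cosh_upper (D : ℂ) : ‖Complex.cosh D‖ ≤ Real.cosh D.re := by
  refine le_of_sq_le_sq ?_ (Real.cosh_pos _).le
  rw [norm_cosh_sq, Real.cosh_sq]
  nlinarith [Real.cos_sq_le_one D.im]

lemma rcosh_add {R a : ℝ} (ha : |a| ≤ R) (x : ℝ) :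
    Real.cosh (a + x) ≤ Real.exp R * Real.cosh x := by
  rw [Real.cosh_eq, Real.cosh_eq]
  have h1 : Real.exp (a + x) ≤ Real.exp R * Real.exp x := by
    rw [← Real.exp_add]
    exact Real.exp_le_exp.2 (by linarith [le_abs_self a])
  have h2 : Real.exp (-(a + x)) ≤ Real.exp R * Real.exp (-x) := by
    rw [← Real.exp_add]
    exact Real.exp_le_exp.2 (by linarith [neg_abs_le a])
  linarith

lemma rcosh_sub {R a : ℝ} (ha : |a| ≤ R) (x : ℝ) :
    Real.cosh x ≤ Real.exp R * Real.cosh (a + x) := by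
  have := rcosh_add (R := R) (a := -a) (by rwa [abs_neg]) (a + x)
  simpa using this

/-- the denominator -/
lemma den_bounds {R : ℝ} (hR0 : 0 < R) (hR : R < Real.pi / 2) {D : ℂ} (hD : ‖D‖ ≤ R) (x : ℝ) :
    Real.cos R ^ 2 / Real.exp R * Real.cosh x ≤ ‖Complex.cosh D * Complex.cosh (D + x)‖ ∧
    ‖Complex.cosh D * Complex.cosh (D + x)‖ ≤ Real.exp R * Real.exp R * Real.cosh x := by
  have h1 : 0 < Real.cos R := Real.cos_pos_of_mem_Ioo ⟨by linarith, hR⟩
  have hre : |D.re| ≤ R := (Complex.abs_re_le_norm D).trans hD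
  have him : |D.im| ≤ R := (Complex.abs_im_le_norm D).trans hD
  have him' : |(D + x).im| ≤ R := by simpa using him
  have e1 := cosh_lower hR0 hR him
  have e2 := cosh_lower hR0 hR him'
  have e3 := cosh_upper D
  have e4 := cosh_upper (D + x)
  have hre' : (D + x).re = D.re + x := by simp
  rw [hre'] at e2 e4
  have e5 := rcosh_add hre x
  have e6 := rcosh_sub hre x
  have e7 : Real.cosh D.re ≤ Real.exp R := by
    have := rcosh_add hre 0
    simpa using this
  have e8 : 1 ≤ Real.cosh D.re := Real.one_le_cosh _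
  have hE : 0 < Real.exp R := Real.exp_pos R
  have hx : 0 < Real.cosh x := Real.cosh_pos x
  rw [norm_mul]
  constructor
  · have k1 : Real.cos R ≤ ‖Complex.cosh D‖ := by nlinarith
    have k2 : Real.cos R / Real.exp R * Real.cosh x ≤ ‖Complex.cosh (D + x)‖ := by
      refine le_trans ?_ e2
      rw [div_mul_eq_mul_div, div_le_iff₀ hE]
      nlinarith
    calc Real.cos R ^ 2 / Real.exp R * Real.cosh x
        = Real.cos R * (Real.cos R / Real.exp R * Real.cosh x) := by ring
      _ ≤ ‖Complex.cosh D‖ * ‖Complex.cosh (D + x)‖ := by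
          apply mul_le_mul k1 k2 _ (norm_nonneg _)
          positivity
  · calc ‖Complex.cosh D‖ * ‖Complex.cosh (D + x)‖
        ≤ Real.exp R * (Real.exp R * Real.cosh x) := by
          apply mul_le_mul (e3.trans e7) (e4.trans e5) (norm_nonneg _) hE.le
      _ = _ := by ring

lemma Le1_cont (h1 : tLE) {w : ℂ} (hw : 1 + w / 2 ∈ slitPlane) : ContinuousAt Le1 w := by
  have ho : IsOpen {w : ℂ | 1 + w / 2 ∈ slitPlane} :=
    isOpen_slitPlane.preimage (by fun_prop)
  have h2 : deriv Le =ᶠ[𝓝 w] Le1 := by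
    filter_upwards [ho.mem_nhds hw] with z hz
    exact (h1.1 z hz).2.deriv
  have h3 : ContinuousAt (deriv Le) w := (h1.1 w hw).1.deriv.continuousAt
  exact h3.congr h2

lemma cosh_ne (h2 : tGEO) {D : ℂ} (hD : D ∈ S0) (x : ℝ) : Complex.cosh (D + x) ≠ 0 := by
  intro h
  have hD' : |D.im| < Real.pi / 2 := hD
  have := h2.1 (D + x) (by simpa using hD')
  rw [h] at this
  simp at this

lemma Kk_cont (h1 : tLE) (h2 : tGEO) {D : ℂ} (hD : D ∈ S0) {h : ℝ} (hh : 0 ≤ h) :
    ContinuousOn (Kk D h) (Icc (-h) h) := by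
  have hD0 : Complex.cosh D ≠ 0 := by
    have := cosh_ne h2 hD 0
    simpa using this
  have hc : ∀ x : ℝ, Complex.cosh D * Complex.cosh (D + x) ≠ 0 :=
    fun x => mul_ne_zero hD0 (cosh_ne h2 hD x)
  have hwk : Continuous (wk D h) := by
    unfold wk
    refine Continuous.div (by fun_prop) (by fun_prop) hc
  intro x hx
  refine ContinuousAt.continuousWithinAt ?_
  have hx' : |x| ≤ |h| := by
    rw [abs_of_nonneg hh]
    exact abs_le.2 ⟨hx.1, hx.2⟩
  have hs := (h2.2.1 D h x hD hx').1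
  refine ContinuousAt.mul ?_ ?_
  · exact ContinuousAt.comp (f := wk D h) (g := Le1) (Le1_cont h1 hs) hwk.continuousAt
  · refine ContinuousAt.div (by fun_prop) ?_ (hc x)
    fun_prop

lemma exp_int (h : ℝ) :
    ∫ x in (-h)..h, (Real.exp ((x - h) / 4) + Real.exp ((-x - h) / 4)) =
      8 * (1 - Real.exp (-(h / 2))) := by
  have hd : ∀ x ∈ uIcc (-h) h, HasDerivAt
      (fun x : ℝ => 4 * Real.exp ((x - h) / 4) - 4 * Real.exp ((-x - h) / 4))
      (Real.exp ((x - h) / 4) + Real.exp ((-x - h) / 4)) x := by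
    intro x _
    have e1 : HasDerivAt (fun x : ℝ => (x - h) / 4) (1 / 4) x := by
      simpa using ((hasDerivAt_id x).sub_const h).div_const 4
    have e2 : HasDerivAt (fun x : ℝ => (-x - h) / 4) (-1 / 4) x := by
      simpa using (((hasDerivAt_id x).neg).sub_const h).div_const 4
    have := (e1.exp.const_mul 4).sub (e2.exp.const_mul 4)
    refine this.congr_deriv ?_
    ring
  rw [intervalIntegral.integral_eq_sub_of_hasDerivAt hd
    (Continuous.intervalIntegrable (by fun_prop) _ _)]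
  have e1 : (h - h) / 4 = 0 := by ring
  have e2 : (-h - h) / 4 = -(h / 2) := by ring
  have e3 : (- -h - h) / 4 = 0 := by ring
  rw [e1, e2, e3, Real.exp_zero]
  ring

end WK2_

open WK2_ in
theorem pK2 (h1 : tLE) (h2 : tGEO) : tK2 := by
  refine ⟨fun D hD h hh => Kk_cont h1 h2 hD hh, ?_⟩
  intro R hR0 hR
  have hcR : 0 < Real.cos R := Real.cos_pos_of_mem_Ioo ⟨by linarith, hR⟩
  obtain ⟨C, hC, hCb⟩ := h1.2.2.2 (Real.cos R / 2) (by positivity)
  set c1 : ℝ := Real.cos R ^ 2 / Real.exp R with hc1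
  set c2 : ℝ := Real.exp R * Real.exp R with hc2
  have hc1p : 0 < c1 := by positivity
  have hE1 : 1 ≤ Real.exp R := Real.one_le_exp hR0.le
  have hc2p : 1 ≤ c2 := by nlinarith
  refine ⟨C * c2 ^ (5 / 4 : ℝ) / c1 * 2 * 8, by positivity, ?_⟩
  intro D hD h hh
  have hDS : D ∈ S0 := lt_of_le_of_lt ((Complex.abs_im_le_norm D).trans hD) hR
  have hpt : ∀ x ∈ Icc (-h) h, ‖Kk D h x‖ ≤ C * c2 ^ (5 / 4 : ℝ) / c1 * 2 *
      (Real.exp ((x - h) / 4) + Real.exp ((-x - h) / 4)) := by
    intro x hx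
    have hxh : |x| ≤ h := abs_le.2 ⟨hx.1, hx.2⟩
    have hx' : |x| ≤ |h| := by rwa [abs_of_nonneg hh]
    obtain ⟨hs, hb⟩ := h2.2.1 D h x hDS hx'
    have hcos : Real.cos R ≤ Real.cos D.im := by
      rw [← Real.cos_abs D.im]
      exact Real.cos_le_cos_of_nonneg_of_le_pi (abs_nonneg _) (by linarith [Real.pi_pos])
        ((Complex.abs_im_le_norm D).trans hD)
    have hL := hCb (wk D h x) hs (by
      intro y hy
      refine le_trans ?_ (hb y hy)
      apply mul_le_mul_of_nonneg_right (by linarith)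
      have := hy.1
      positivity)
    obtain ⟨hA1, hA2⟩ := den_bounds hR0 hR hD x
    set A : ℝ := ‖Complex.cosh D * Complex.cosh (D + x)‖ with hA
    have hX : 0 < Real.cosh x := Real.cosh_pos x
    have hH : 0 < Real.cosh h := Real.cosh_pos h
    have hXH : Real.cosh x ≤ Real.cosh h := Real.cosh_le_cosh.2 hx'
    have hAp : 0 < A := lt_of_lt_of_le (by positivity) hA1
    have hw : ‖wk D h x‖ = (Real.cosh h - Real.cosh x) / A := by
      unfold wk
      rw [norm_div, Complex.norm_real, Real.norm_eq_abs, abs_of_nonneg (by linarith)]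
    have hq : Real.cosh h / (c2 * Real.cosh x) ≤ 1 + ‖wk D h x‖ := by
      rw [hw]
      have : (Real.cosh h - Real.cosh x) / (c2 * Real.cosh x) ≤ (Real.cosh h - Real.cosh x) / A :=
        div_le_div_of_nonneg_left (by linarith) hAp hA2
      refine le_trans ?_ (add_le_add_right this 1)
      rw [div_le_iff₀ (by positivity)]
      have : (Real.cosh h - Real.cosh x) / (c2 * Real.cosh x) * (c2 * Real.cosh x)
        = Real.cosh h - Real.cosh x := by
        field_simp
      nlinarith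
    have hqp : 0 < Real.cosh h / (c2 * Real.cosh x) := by positivity
    have hpow : (1 + ‖wk D h x‖) ^ (-(5 / 4) : ℝ) ≤
        (Real.cosh h / (c2 * Real.cosh x)) ^ (-(5 / 4) : ℝ) :=
      Real.rpow_le_rpow_of_nonpos hqp hq (by norm_num)
    have hpow2 : (Real.cosh h / (c2 * Real.cosh x)) ^ (-(5 / 4) : ℝ) =
        c2 ^ (5 / 4 : ℝ) * (Real.cosh x / Real.cosh h) ^ (5 / 4 : ℝ) := by
      rw [← Real.mul_rpow (by positivity) (by positivity), Real.rpow_neg (by positivity),
        ← Real.inv_rpow (by positivity)]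
      congr 1
      field_simp
    set r : ℝ := Real.cosh x / Real.cosh h with hr
    have hrp : 0 < r := by positivity
    have hKn : ‖Kk D h x‖ ≤ C * c2 ^ (5 / 4 : ℝ) / c1 * r ^ (1 / 4 : ℝ) := by
      unfold Kk
      rw [norm_mul, norm_div, Complex.norm_real, Real.norm_eq_abs,
        abs_of_nonneg (Real.sinh_nonneg_iff.2 hh), ← hA]
      have hs1 : Real.sinh h / A ≤ 1 / c1 * r⁻¹ := by
        rw [hr, inv_div, div_le_iff₀ hAp]
        have : Real.sinh h ≤ Real.cosh h := (Real.sinh_lt_cosh h).le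
        refine this.trans ?_
        have h5 : 1 / c1 * (Real.cosh h / Real.cosh x) * (c1 * Real.cosh x) = Real.cosh h := by
          field_simp
        calc Real.cosh h = 1 / c1 * (Real.cosh h / Real.cosh x) * (c1 * Real.cosh x) := h5.symm
          _ ≤ 1 / c1 * (Real.cosh h / Real.cosh x) * A :=
            mul_le_mul_of_nonneg_left hA1 (by positivity)
      have hr4 : r ^ (5 / 4 : ℝ) * r⁻¹ = r ^ (1 / 4 : ℝ) := by
        rw [← Real.rpow_neg_one r, ← Real.rpow_add hrp]
        norm_num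
      calc ‖Le1 (wk D h x)‖ * (Real.sinh h / A)
          ≤ (C * (c2 ^ (5 / 4 : ℝ) * r ^ (5 / 4 : ℝ))) * (1 / c1 * r⁻¹) := by
            apply mul_le_mul _ hs1 (div_nonneg (Real.sinh_nonneg_iff.2 hh) hAp.le)
              (by positivity)
            refine hL.trans (mul_le_mul_of_nonneg_left ?_ hC.le)
            rw [← hpow2]
            exact hpow
        _ = C * c2 ^ (5 / 4 : ℝ) / c1 * (r ^ (5 / 4 : ℝ) * r⁻¹) := by ring
        _ = _ := by rw [hr4]
    refine hKn.trans ?_
    have hre : r ^ (1 / 4 : ℝ) ≤ 2 * (Real.exp ((x - h) / 4) + Real.exp ((-x - h) / 4)) := by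
      have k1 : r ≤ 2 * Real.exp (|x| - h) := by
        rw [hr, div_le_iff₀ hH]
        have k2 : Real.cosh x ≤ Real.exp |x| := by
          rw [← Real.cosh_abs, Real.cosh_eq]
          have : Real.exp (-|x|) ≤ Real.exp |x| := Real.exp_le_exp.2 (by linarith [abs_nonneg x])
          linarith
        have k3 : Real.exp h / 2 ≤ Real.cosh h := by
          rw [Real.cosh_eq]
          linarith [Real.exp_pos (-h)]
        calc Real.cosh x ≤ Real.exp |x| := k2
          _ = 2 * Real.exp (|x| - h) * (Real.exp h / 2) := by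
              rw [Real.exp_sub]; field_simp
          _ ≤ _ := mul_le_mul_of_nonneg_left k3 (by positivity)
      have k4 : r ^ (1 / 4 : ℝ) ≤ (2 * Real.exp (|x| - h)) ^ (1 / 4 : ℝ) :=
        Real.rpow_le_rpow hrp.le k1 (by norm_num)
      refine k4.trans ?_
      rw [Real.mul_rpow (by norm_num) (Real.exp_pos _).le, ← Real.exp_mul]
      have k5 : (2 : ℝ) ^ (1 / 4 : ℝ) ≤ 2 := by
        calc (2 : ℝ) ^ (1 / 4 : ℝ) ≤ (2 : ℝ) ^ (1 : ℝ) :=
              Real.rpow_le_rpow_of_exponent_le (by norm_num) (by norm_num)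
          _ = 2 := by norm_num
      have k6 : Real.exp ((|x| - h) * (1 / 4)) ≤
          Real.exp ((x - h) / 4) + Real.exp ((-x - h) / 4) := by
        rcases abs_cases x with ⟨hx1, -⟩ | ⟨hx1, -⟩
        · rw [hx1]
          have : (x - h) * (1 / 4) = (x - h) / 4 := by ring
          rw [this]
          linarith [Real.exp_pos ((-x - h) / 4)]
        · rw [hx1]
          have : (-x - h) * (1 / 4) = (-x - h) / 4 := by ring
          rw [this]
          linarith [Real.exp_pos ((x - h) / 4)]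
      exact mul_le_mul k5 k6 (Real.exp_pos _).le (by norm_num)
    calc C * c2 ^ (5 / 4 : ℝ) / c1 * r ^ (1 / 4 : ℝ)
        ≤ C * c2 ^ (5 / 4 : ℝ) / c1 *
          (2 * (Real.exp ((x - h) / 4) + Real.exp ((-x - h) / 4))) :=
          mul_le_mul_of_nonneg_left hre (by positivity)
      _ = _ := by ring
  have hle : -h ≤ h := by linarith
  have hint : IntervalIntegrable (fun x => ‖Kk D h x‖) volume (-h) h := by
    apply ContinuousOn.intervalIntegrable
    rw [uIcc_of_le hle]
    exact (Kk_cont h1 h2 hDS hh).norm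
  calc ∫ x in (-h)..h, ‖Kk D h x‖
      ≤ ∫ x in (-h)..h, C * c2 ^ (5 / 4 : ℝ) / c1 * 2 *
          (Real.exp ((x - h) / 4) + Real.exp ((-x - h) / 4)) := by
        refine intervalIntegral.integral_mono_on hle hint
          (Continuous.intervalIntegrable (by fun_prop) _ _) hpt
    _ = C * c2 ^ (5 / 4 : ℝ) / c1 * 2 * (8 * (1 - Real.exp (-(h / 2)))) := by
        rw [intervalIntegral.integral_const_mul, exp_int]
    _ ≤ C * c2 ^ (5 / 4 : ℝ) / c1 * 2 * 8 := by
        apply mul_le_mul_of_nonneg_left _ (by positivity)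
        have := Real.exp_pos (-(h / 2))
        linarith

end FMZ
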