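import Pool.Agent.FMZ.TW

/-!
# FMZ: W1, the Legendre function
-/

open Complex MeasureTheory Set Filter Topology

namespace FMZ

namespace WLE_

/-- the open set on which everything is analytic -/
def U : Set ℂ := {w : ℂ | 1 + w / 2 ∈ slitPlane}

lemma isOpen_U : IsOpen U := by
  have : U = (fun w : ℂ => 1 + w / 2) ⁻¹' slitPlane := rfl
  rw [this]
  exact isOpen_slitPlane.preimage (by fun_prop)

lemma seg {w : ℂ} (hw : w ∈ U) {x : ℝ} (hx : x ∈ Icc (0 : ℝ) 1) :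
    1 + w / 2 * (x : ℂ) ∈ slitPlane := by
  have h1 : (1 : ℂ) + w / 2 ∈ slitPlane := hw
  have := StarConvex.add_smul_mem starConvex_one_slitPlane (y := w / 2) h1 hx.1 hx.2
  convert this using 1
  rw [Complex.real_smul]; ring

lemma sin_mem (φ : ℝ) : Real.sin φ ^ 2 ∈ Icc (0 : ℝ) 1 :=
  ⟨sq_nonneg _, Real.sin_sq_le_one φ⟩

/-- the integrand -/
noncomputable def f (k : ℕ) (p w : ℂ) (φ : ℝ) : ℂ :=
  ((Real.sin φ ^ 2 : ℝ) : ℂ) ^ k * (1 + w / 2 * ((Real.sin φ ^ 2 : ℝ) : ℂ)) ^ p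

lemma cont_f (k : ℕ) (p : ℂ) : ContinuousOn (fun z : ℂ × ℝ => f k p z.1 z.2) (U ×ˢ univ) := by
  have h0 : Continuous (fun z : ℂ × ℝ => ((Real.sin z.2 ^ 2 : ℝ) : ℂ)) :=
    Complex.continuous_ofReal.comp ((Real.continuous_sin.comp continuous_snd).pow 2)
  have h1 : Continuous (fun z : ℂ × ℝ => 1 + z.1 / 2 * ((Real.sin z.2 ^ 2 : ℝ) : ℂ)) :=
    continuous_const.add ((continuous_fst.div_const 2).mul h0)
  exact (h0.pow k).continuousOn.mul (ContinuousOn.cpow h1.continuousOn continuousOn_const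
    (fun z hz => seg hz.1 (sin_mem z.2)))

lemma cont_f' (k : ℕ) (p w : ℂ) (hw : w ∈ U) : Continuous (f k p w) := by
  have h0 : Continuous (fun φ : ℝ => ((Real.sin φ ^ 2 : ℝ) : ℂ)) :=
    Complex.continuous_ofReal.comp (Real.continuous_sin.pow 2)
  have h1 : Continuous (fun φ : ℝ => 1 + w / 2 * ((Real.sin φ ^ 2 : ℝ) : ℂ)) :=
    continuous_const.add (continuous_const.mul h0)
  exact (h0.pow k).mul (Continuous.cpow h1 continuous_const (fun φ => seg hw (sin_mem φ)))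

lemma hasDerivAt_f (k : ℕ) (p w : ℂ) (hw : w ∈ U) (φ : ℝ) :
    HasDerivAt (fun w => f k p w φ) (p / 2 * f (k + 1) (p - 1) w φ) w := by
  unfold f
  have h1 : HasDerivAt (fun w : ℂ => 1 + w / 2 * ((Real.sin φ ^ 2 : ℝ) : ℂ))
      (1 / 2 * ((Real.sin φ ^ 2 : ℝ) : ℂ)) w := by
    have := (((hasDerivAt_id w).div_const 2).mul_const ((Real.sin φ ^ 2 : ℝ) : ℂ)).const_add 1
    exact this
  have h2 := (h1.cpow_const (c := p) (seg hw (sin_mem φ))).const_mul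
    (((Real.sin φ ^ 2 : ℝ) : ℂ) ^ k)
  refine h2.congr_deriv ?_
  ring

/-- the integral -/
noncomputable def F (k : ℕ) (p w : ℂ) : ℂ := ∫ φ in (0 : ℝ)..(Real.pi / 2), f k p w φ

lemma hasDerivAt_F (k : ℕ) (p w : ℂ) (hw : w ∈ U) :
    HasDerivAt (F k p) (p / 2 * F (k + 1) (p - 1) w) w := by
  obtain ⟨r, hr, hrU⟩ := Metric.nhds_basis_closedBall.mem_iff.1 (isOpen_U.mem_nhds hw)
  have hcomp : IsCompact (Metric.closedBall w r ×ˢ Icc (0 : ℝ) (Real.pi / 2)) :=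
    (isCompact_closedBall w r).prod isCompact_Icc
  obtain ⟨C, hC⟩ := hcomp.exists_bound_of_continuousOn
    ((cont_f (k + 1) (p - 1)).mono (prod_mono hrU (subset_univ _)))
  have hpi : (0 : ℝ) ≤ Real.pi / 2 := by positivity
  have key := (intervalIntegral.hasDerivAt_integral_of_dominated_loc_of_deriv_le (μ := volume)
    (a := 0) (b := Real.pi / 2) (F := fun w φ => f k p w φ)
    (F' := fun w φ => p / 2 * f (k + 1) (p - 1) w φ) (x₀ := w) (s := Metric.closedBall w r)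
    (bound := fun _ => ‖p / 2‖ * C)
    (Metric.closedBall_mem_nhds w hr) ?_ ?_ ?_ ?_ ?_ ?_).2
  · refine key.congr_deriv ?_
    unfold F
    exact intervalIntegral.integral_const_mul _ _
  · filter_upwards [Metric.closedBall_mem_nhds w hr] with x hx
    exact (cont_f' k p x (hrU hx)).aestronglyMeasurable
  · exact (cont_f' k p w hw).intervalIntegrable _ _
  · exact ((cont_f' (k + 1) (p - 1) w hw).const_smul (p / 2)).aestronglyMeasurable
  · refine Eventually.of_forall (fun t ht x hx => ?_)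
    rw [uIoc_of_le hpi] at ht
    rw [norm_mul]
    exact mul_le_mul_of_nonneg_left (hC (x, t) ⟨hx, ht.1.le, ht.2⟩) (norm_nonneg _)
  · exact intervalIntegrable_const
  · refine Eventually.of_forall (fun t _ x hx => ?_)
    exact hasDerivAt_f k p x (hrU hx) t

lemma Le_eq : Le = fun w => (2 / Real.pi : ℝ) * F 0 (-(1 / 2)) w := by
  funext w
  simp only [Le, F, f, pow_zero, one_mul]

lemma Le1_eq : Le1 = fun w => -(1 / (2 * Real.pi) : ℝ) * F 1 (-(3 / 2)) w := by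
  funext w
  simp only [Le1, F, f, pow_one]

lemma hasDerivAt_Le (w : ℂ) (hw : w ∈ U) : HasDerivAt Le (Le1 w) w := by
  rw [Le_eq, Le1_eq]
  have h := (hasDerivAt_F 0 (-(1 / 2)) w hw).const_mul ((2 / Real.pi : ℝ) : ℂ)
  have e : (-(1 / 2) - 1 : ℂ) = -(3 / 2) := by norm_num
  rw [e] at h
  refine h.congr_deriv ?_
  have hpi : (Real.pi : ℂ) ≠ 0 := by exact_mod_cast Real.pi_ne_zero
  push_cast
  field_simp

lemma hasDerivAt_Le1 (w : ℂ) (hw : w ∈ U) :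
    HasDerivAt Le1 ((3 / (8 * Real.pi) : ℝ) * F 2 (-(5 / 2)) w) w := by
  rw [Le1_eq]
  have h := (hasDerivAt_F 1 (-(3 / 2)) w hw).const_mul (-((1 / (2 * Real.pi) : ℝ) : ℂ))
  have e : (-(3 / 2) - 1 : ℂ) = -(5 / 2) := by norm_num
  rw [e] at h
  refine h.congr_deriv ?_
  have hpi : (Real.pi : ℂ) ≠ 0 := by exact_mod_cast Real.pi_ne_zero
  push_cast
  field_simp
  ring

lemma f_shift (k : ℕ) (p w : ℂ) (hw : w ∈ U) (φ : ℝ) :
    f k (p + 1) w φ = (1 + w / 2 * ((Real.sin φ ^ 2 : ℝ) : ℂ)) * f k p w φ := by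
  unfold f
  rw [cpow_add _ _ (slitPlane_ne_zero (seg hw (sin_mem φ))), cpow_one]
  ring

lemma ode (w : ℂ) (hw : w ∈ U) :
    (w ^ 2 + 2 * w) * ((3 / (8 * Real.pi) : ℝ) * F 2 (-(5 / 2)) w) + 2 * (1 + w) * Le1 w +
      1 / 4 * Le w = 0 := by
  rw [Le_eq, Le1_eq]
  simp only []
  -- the primitive
  set g : ℝ → ℂ := fun φ => (Real.sin φ : ℂ) * (Real.cos φ : ℂ) *
    (1 + w / 2 * ((Real.sin φ ^ 2 : ℝ) : ℂ)) ^ (-(3 / 2) : ℂ) with hg
  set g' : ℝ → ℂ := fun φ => (3 / 4 * (w ^ 2 + 2 * w)) * f 2 (-(5 / 2)) w φ +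
    (-(2 * (1 + w))) * f 1 (-(3 / 2)) w φ + f 0 (-(1 / 2)) w φ with hg'
  have hderiv : ∀ φ : ℝ, HasDerivAt g (g' φ) φ := by
    intro φ
    have hs : HasDerivAt (fun φ : ℝ => (Real.sin φ : ℂ)) (Real.cos φ : ℂ) φ :=
      (Real.hasDerivAt_sin φ).ofReal_comp
    have hc : HasDerivAt (fun φ : ℝ => (Real.cos φ : ℂ)) ((-Real.sin φ : ℝ) : ℂ) φ :=
      (Real.hasDerivAt_cos φ).ofReal_comp
    have hs2 : HasDerivAt (fun φ : ℝ => 1 + w / 2 * ((Real.sin φ ^ 2 : ℝ) : ℂ))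
        (w / 2 * (2 * Real.sin φ * Real.cos φ)) φ := by
      have h1 : HasDerivAt (fun φ : ℝ => Real.sin φ ^ 2) (2 * Real.sin φ * Real.cos φ) φ := by
        have := (Real.hasDerivAt_sin φ).pow 2
        refine this.congr_deriv ?_
        norm_num
      have h := (h1.ofReal_comp.const_mul (w / 2)).const_add 1
      refine h.congr_deriv ?_
      push_cast; ring
    have hp : HasDerivAt (fun φ : ℝ => (1 + w / 2 * ((Real.sin φ ^ 2 : ℝ) : ℂ)) ^ (-(3 / 2) : ℂ))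
        ((-(3 / 2)) * (1 + w / 2 * ((Real.sin φ ^ 2 : ℝ) : ℂ)) ^ (-(3 / 2) - 1 : ℂ) *
          (w / 2 * (2 * Real.sin φ * Real.cos φ))) φ := by
      have h1 : HasDerivAt (fun z : ℂ => z ^ (-(3 / 2) : ℂ))
          ((-(3 / 2)) * (1 + w / 2 * ((Real.sin φ ^ 2 : ℝ) : ℂ)) ^ (-(3 / 2) - 1 : ℂ))
          (1 + w / 2 * ((Real.sin φ ^ 2 : ℝ) : ℂ)) := by
        have := (hasDerivAt_id (1 + w / 2 * ((Real.sin φ ^ 2 : ℝ) : ℂ))).cpow_const
          (c := (-(3 / 2) : ℂ)) (seg hw (sin_mem φ))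
        refine this.congr_deriv ?_
        simp
      have h2 := HasDerivAt.scomp φ h1 hs2
      refine h2.congr_deriv ?_
      rw [smul_eq_mul]; ring
    have h := (hs.mul hc).mul hp
    have e1 : f 0 (-(1 / 2)) w φ = (1 + w / 2 * ((Real.sin φ ^ 2 : ℝ) : ℂ)) *
        ((1 + w / 2 * ((Real.sin φ ^ 2 : ℝ) : ℂ)) * (1 + w / 2 * ((Real.sin φ ^ 2 : ℝ) : ℂ)) ^
          (-(5 / 2) : ℂ)) := by
      have h1 := f_shift 0 (-(3 / 2)) w hw φ
      have h2 := f_shift 0 (-(5 / 2)) w hw φ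
      rw [show (-(3 / 2) + 1 : ℂ) = -(1 / 2) by norm_num] at h1
      rw [show (-(5 / 2) + 1 : ℂ) = -(3 / 2) by norm_num] at h2
      rw [h1, h2]
      simp [f]
    have e2 : (1 + w / 2 * ((Real.sin φ ^ 2 : ℝ) : ℂ)) ^ (-(3 / 2) : ℂ) =
        (1 + w / 2 * ((Real.sin φ ^ 2 : ℝ) : ℂ)) * (1 + w / 2 * ((Real.sin φ ^ 2 : ℝ) : ℂ)) ^
          (-(5 / 2) : ℂ) := by
      have h2 := f_shift 0 (-(5 / 2)) w hw φ
      rw [show (-(5 / 2) + 1 : ℂ) = -(3 / 2) by norm_num] at h2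
      simpa [f] using h2
    have e3 : (-(3 / 2) - 1 : ℂ) = -(5 / 2) := by norm_num
    have e4 : ((Real.cos φ : ℝ) : ℂ) ^ 2 = 1 - ((Real.sin φ : ℝ) : ℂ) ^ 2 := by
      have := Real.sin_sq_add_cos_sq φ
      have h5 : ((Real.sin φ : ℝ) : ℂ) ^ 2 + ((Real.cos φ : ℝ) : ℂ) ^ 2 = 1 := by
        exact_mod_cast this
      linear_combination h5
    refine h.congr_deriv ?_
    simp only [hg', Pi.mul_apply]
    rw [e1]
    unfold f
    rw [e3, e2]
    set A := (1 + w / 2 * ((Real.sin φ ^ 2 : ℝ) : ℂ)) ^ (-(5 / 2) : ℂ) with hA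
    push_cast
    set s : ℂ := Complex.sin (φ : ℂ) with hs'
    set c : ℂ := Complex.cos (φ : ℂ) with hc'
    have e5 : c ^ 2 = 1 - s ^ 2 := by
      have := e4
      push_cast at this
      exact this
    linear_combination (A - w * s ^ 2 * A) * e5
  have hint : ∫ φ in (0 : ℝ)..(Real.pi / 2), g' φ = 0 := by
    rw [intervalIntegral.integral_eq_sub_of_hasDerivAt (fun φ _ => hderiv φ)]
    · simp [hg]
    · apply Continuous.intervalIntegrable
      have h0 := cont_f' 0 (-(1 / 2)) w hw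
      have h1 := cont_f' 1 (-(3 / 2)) w hw
      have h2 := cont_f' 2 (-(5 / 2)) w hw
      fun_prop
  have hsplit : ∫ φ in (0 : ℝ)..(Real.pi / 2), g' φ =
      (3 / 4 * (w ^ 2 + 2 * w)) * F 2 (-(5 / 2)) w + (-(2 * (1 + w))) * F 1 (-(3 / 2)) w +
        F 0 (-(1 / 2)) w := by
    simp only [hg']
    have h0 := (cont_f' 0 (-(1 / 2)) w hw).intervalIntegrable (μ := volume) 0 (Real.pi / 2)
    have h1 := (cont_f' 1 (-(3 / 2)) w hw).intervalIntegrable (μ := volume) 0 (Real.pi / 2)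
    have h2 := (cont_f' 2 (-(5 / 2)) w hw).intervalIntegrable (μ := volume) 0 (Real.pi / 2)
    rw [intervalIntegral.integral_add ((h2.const_mul _).add (h1.const_mul _)) h0,
      intervalIntegral.integral_add (h2.const_mul _) (h1.const_mul _),
      intervalIntegral.integral_const_mul, intervalIntegral.integral_const_mul]
    rfl
  rw [hsplit] at hint
  have hpi : (Real.pi : ℂ) ≠ 0 := by exact_mod_cast Real.pi_ne_zero
  have : (w ^ 2 + 2 * w) * ((3 / (8 * Real.pi) : ℝ) * F 2 (-(5 / 2)) w) +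
      2 * (1 + w) * (-(1 / (2 * Real.pi) : ℝ) * F 1 (-(3 / 2)) w) +
      1 / 4 * ((2 / Real.pi : ℝ) * F 0 (-(1 / 2)) w) =
      1 / (2 * Real.pi) * ((3 / 4 * (w ^ 2 + 2 * w)) * F 2 (-(5 / 2)) w +
        (-(2 * (1 + w))) * F 1 (-(3 / 2)) w + F 0 (-(1 / 2)) w) := by
    push_cast
    field_simp
    ring
  rw [this, hint, mul_zero]

lemma bound (δ : ℝ) (hδ : 0 < δ) (w : ℂ)
    (h : ∀ x ∈ Icc (0 : ℝ) 1, δ * (1 + ‖w‖ * x) ≤ ‖1 + w / 2 * x‖) :
    ‖Le1 w‖ ≤ (1 / (2 * Real.pi) * (δ ^ (-(3 / 2) : ℝ) *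
      ∫ φ in (0 : ℝ)..(Real.pi / 2), (2 / Real.pi * φ) ^ (-(1 / 2) : ℝ))) *
      (1 + ‖w‖) ^ (-(5 / 4) : ℝ) := by
  rw [Le1_eq]
  simp only []
  rw [norm_mul, norm_neg, Complex.norm_real, Real.norm_eq_abs,
    abs_of_nonneg (by positivity : (0 : ℝ) ≤ 1 / (2 * Real.pi))]
  rw [mul_assoc (1 / (2 * Real.pi))]
  apply mul_le_mul_of_nonneg_left _ (by positivity)
  have hpi : (0 : ℝ) ≤ Real.pi / 2 := by positivity
  have hint : IntervalIntegrable (fun φ : ℝ => (2 / Real.pi * φ) ^ (-(1 / 2) : ℝ)) volume 0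
      (Real.pi / 2) := by
    have h1 : IntervalIntegrable (fun φ : ℝ => (2 / Real.pi) ^ (-(1 / 2) : ℝ) *
        φ ^ (-(1 / 2) : ℝ)) volume 0 (Real.pi / 2) :=
      (intervalIntegral.intervalIntegrable_rpow' (by norm_num)).const_mul _
    refine h1.congr_ae ?_
    rw [uIoc_of_le hpi]
    filter_upwards [ae_restrict_mem measurableSet_Ioc] with φ hφ
    rw [Real.mul_rpow (by positivity) hφ.1.le]
  have hmain : ‖F 1 (-(3 / 2)) w‖ ≤ ∫ φ in (0 : ℝ)..(Real.pi / 2),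
      (δ ^ (-(3 / 2) : ℝ) * (1 + ‖w‖) ^ (-(5 / 4) : ℝ)) * (2 / Real.pi * φ) ^ (-(1 / 2) : ℝ) := by
    unfold F
    apply intervalIntegral.norm_integral_le_of_norm_le hpi
    · refine Eventually.of_forall (fun φ hφ => ?_)
      unfold f
      have hsl : 2 / Real.pi * φ ≤ Real.sin φ := Real.mul_le_sin hφ.1.le hφ.2
      have hφ0 : 0 < 2 / Real.pi * φ := mul_pos (by positivity) hφ.1
      have hs0 : 0 < Real.sin φ := hφ0.trans_le hsl
      have hs1 : Real.sin φ ≤ 1 := Real.sin_le_one φ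
      set s := Real.sin φ with hs
      have hs2 : s ^ 2 ≤ 1 := by nlinarith
      rw [pow_one, norm_mul, Complex.norm_real, Real.norm_eq_abs,
        abs_of_nonneg (by positivity : (0 : ℝ) ≤ s ^ 2)]
      have e1 : (-(3 / 2) : ℂ) = ((-(3 / 2) : ℝ) : ℂ) := by push_cast; ring
      rw [e1, Complex.norm_cpow_real]
      have h1 := h (s ^ 2) ⟨by positivity, hs2⟩
      have hw0 : 0 ≤ ‖w‖ := norm_nonneg w
      have hq : (0 : ℝ) < (1 + ‖w‖) * s ^ 2 := by positivity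
      have hq1 : (1 : ℝ) ≤ 1 + ‖w‖ * s ^ 2 := by
        have : 0 ≤ ‖w‖ * s ^ 2 := by positivity
        linarith
      have hq2 : (1 + ‖w‖) * s ^ 2 ≤ 1 + ‖w‖ * s ^ 2 := by nlinarith
      calc s ^ 2 * ‖1 + w / 2 * ((s ^ 2 : ℝ) : ℂ)‖ ^ (-(3 / 2) : ℝ)
          ≤ s ^ 2 * (δ * (1 + ‖w‖ * s ^ 2)) ^ (-(3 / 2) : ℝ) := by
            apply mul_le_mul_of_nonneg_left _ (by positivity)
            apply Real.rpow_le_rpow_of_nonpos (by positivity) h1 (by norm_num)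
        _ = δ ^ (-(3 / 2) : ℝ) * (s ^ 2 * (1 + ‖w‖ * s ^ 2) ^ (-(3 / 2) : ℝ)) := by
            rw [Real.mul_rpow hδ.le (by positivity)]; ring
        _ ≤ δ ^ (-(3 / 2) : ℝ) * (s ^ 2 * ((1 + ‖w‖) * s ^ 2) ^ (-(5 / 4) : ℝ)) := by
            apply mul_le_mul_of_nonneg_left _ (by positivity)
            apply mul_le_mul_of_nonneg_left _ (by positivity)
            calc (1 + ‖w‖ * s ^ 2) ^ (-(3 / 2) : ℝ) ≤ (1 + ‖w‖ * s ^ 2) ^ (-(5 / 4) : ℝ) :=
                  Real.rpow_le_rpow_of_exponent_le hq1 (by norm_num)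
              _ ≤ _ := Real.rpow_le_rpow_of_nonpos hq hq2 (by norm_num)
        _ = (δ ^ (-(3 / 2) : ℝ) * (1 + ‖w‖) ^ (-(5 / 4) : ℝ)) * s ^ (-(1 / 2) : ℝ) := by
            rw [Real.mul_rpow (by positivity) (by positivity), ← Real.rpow_natCast s 2,
              ← Real.rpow_mul hs0.le]
            have : s ^ (-(1 / 2) : ℝ) = s ^ ((2 : ℕ) : ℝ) * s ^ (((2 : ℕ) : ℝ) * (-(5 / 4))) := by
              rw [← Real.rpow_add hs0]; norm_num
            rw [this]; ring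
        _ ≤ _ := by
            apply mul_le_mul_of_nonneg_left _ (by positivity)
            exact Real.rpow_le_rpow_of_nonpos hφ0 hsl (by norm_num)
    · exact hint.const_mul _
  refine hmain.trans (le_of_eq ?_)
  rw [intervalIntegral.integral_const_mul]
  ring

end WLE_

theorem pLE : tLE := by
  refine ⟨fun w hw => ⟨?_, WLE_.hasDerivAt_Le w hw⟩, ?_, fun w hw => ?_, fun δ hδ => ?_⟩
  · have hd : DifferentiableOn ℂ Le WLE_.U := fun z hz =>
      (WLE_.hasDerivAt_Le z hz).differentiableAt.differentiableWithinAt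
    exact hd.analyticAt (WLE_.isOpen_U.mem_nhds hw)
  · unfold Le
    simp
  · rw [(WLE_.hasDerivAt_Le1 w hw).deriv]
    exact WLE_.ode w hw
  · set I := ∫ φ in (0 : ℝ)..(Real.pi / 2), (2 / Real.pi * φ) ^ (-(1 / 2) : ℝ) with hI
    refine ⟨|1 / (2 * Real.pi) * (δ ^ (-(3 / 2) : ℝ) * I)| + 1, by positivity, ?_⟩
    intro w _ h
    refine (WLE_.bound δ hδ w h).trans ?_
    apply mul_le_mul_of_nonneg_right _ (by positivity)
    rw [← hI]
    linarith [le_abs_self (1 / (2 * Real.pi) * (δ ^ (-(3 / 2) : ℝ) * I))]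

end FMZ
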