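import Pool.Agent.FMZ.TW

/-!
# FMZ: the product formula for the wave operator (job FMZ-W3)
-/

set_option autoImplicit false

open Complex MeasureTheory Set Filter Topology

namespace FMZ.WPROD_

/-- the triangle -/
def Tri : Set (ℝ × ℝ) := {p | |p.2| ≤ |p.1|}

/-- a function of two real variables with continuous partial derivatives on the triangle -/
structure C1 (F Fh Fx : ℝ → ℝ → ℂ) : Prop where
  path : ∀ (H X : ℝ → ℝ) (H' X' τ : ℝ), |X τ| ≤ |H τ| → HasDerivAt H H' τ → HasDerivAt X X' τ →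
    HasDerivAt (fun τ => F (H τ) (X τ)) (Fh (H τ) (X τ) * H' + Fx (H τ) (X τ) * X') τ
  c0 : ContinuousOn (fun p : ℝ × ℝ => F p.1 p.2) Tri
  ch : ContinuousOn (fun p : ℝ × ℝ => Fh p.1 p.2) Tri
  cx : ContinuousOn (fun p : ℝ × ℝ => Fx p.1 p.2) Tri

theorem scal_mem {h y : ℝ} (hy : y ∈ Icc (-1 : ℝ) 1) : (h, h * y) ∈ Tri := by
  change |h * y| ≤ |h|
  rw [abs_mul]
  have : |y| ≤ 1 := abs_le.mpr hy
  exact mul_le_of_le_one_right (abs_nonneg h) this

theorem scal (F : ℝ → ℝ → ℂ) (h : ℝ) :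
    ∫ x in (-h)..h, F h x = ∫ y in (-1 : ℝ)..1, (h : ℂ) * F h (h * y) := by
  have h1 := intervalIntegral.smul_integral_comp_mul_left (a := -1) (b := 1) (fun x => F h x) h
  rw [mul_neg, mul_one] at h1
  rw [← h1, ← intervalIntegral.integral_smul]
  refine intervalIntegral.integral_congr (fun y _ => ?_)
  exact Complex.real_smul

/-- differentiation of an integral over the triangle -/
theorem C1.leib {F Fh Fx : ℝ → ℝ → ℂ} (hF : C1 F Fh Fx) (h : ℝ) :
    HasDerivAt (fun h : ℝ => ∫ x in (-h)..h, F h x)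
      (F h h + F h (-h) + ∫ x in (-h)..h, Fh h x) h := by
  have hcomp : ∀ (G : ℝ → ℝ → ℂ), ContinuousOn (fun p : ℝ × ℝ => G p.1 p.2) Tri →
      ContinuousOn (fun p : ℝ × ℝ => G p.1 (p.1 * p.2)) (univ ×ˢ Icc (-1 : ℝ) 1) := by
    intro G hG
    have h1 : ContinuousOn (fun p : ℝ × ℝ => ((p.1, p.1 * p.2) : ℝ × ℝ))
        (univ ×ˢ Icc (-1 : ℝ) 1) := by fun_prop
    exact hG.comp h1 (fun p hp => scal_mem hp.2)
  set G' : ℝ → ℝ → ℂ := fun h y => F h (h * y) + h * (Fh h (h * y) + Fx h (h * y) * y) with hG'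
  have hG'c : ContinuousOn (fun p : ℝ × ℝ => G' p.1 p.2) (univ ×ˢ Icc (-1 : ℝ) 1) := by
    have g1 := hcomp F hF.c0
    have g2 := hcomp Fh hF.ch
    have g3 := hcomp Fx hF.cx
    have g4 : ContinuousOn (fun p : ℝ × ℝ => (p.1 : ℂ)) (univ ×ˢ Icc (-1 : ℝ) 1) := by fun_prop
    have g5 : ContinuousOn (fun p : ℝ × ℝ => (p.2 : ℂ)) (univ ×ˢ Icc (-1 : ℝ) 1) := by fun_prop
    exact g1.add (g4.mul (g2.add (g3.mul g5)))
  have hder : ∀ (h : ℝ), ∀ y ∈ Icc (-1 : ℝ) 1,
      HasDerivAt (fun h : ℝ => (h : ℂ) * F h (h * y)) (G' h y) h := by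
    intro h y hy
    have h1 : HasDerivAt (fun h : ℝ => (h : ℂ)) 1 h := Complex.ofRealCLM.hasDerivAt
    have h2 := hF.path (fun h => h) (fun h => h * y) 1 y h (scal_mem hy) (hasDerivAt_id h)
      (by simpa using (hasDerivAt_id h).mul_const y)
    have h3 := h1.mul h2
    refine h3.congr_deriv ?_
    simp only [hG']
    push_cast
    ring
  -- domination
  have hcpt : IsCompact (Icc (h - 1) (h + 1) ×ˢ Icc (-1 : ℝ) 1) := isCompact_Icc.prod isCompact_Icc
  obtain ⟨M, hM⟩ := hcpt.exists_bound_of_continuousOn (hG'c.mono (prod_mono (subset_univ _)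
    subset_rfl))
  have hcs : ∀ (h : ℝ) (G : ℝ → ℝ → ℂ),
      ContinuousOn (fun p : ℝ × ℝ => G p.1 p.2) (univ ×ˢ Icc (-1 : ℝ) 1) →
      ContinuousOn (fun y => G h y) (Icc (-1 : ℝ) 1) := by
    intro h G hG
    have : ContinuousOn (fun y : ℝ => ((h, y) : ℝ × ℝ)) (Icc (-1 : ℝ) 1) := by fun_prop
    exact hG.comp this (fun y hy => ⟨mem_univ _, hy⟩)
  have hc0 : ∀ h : ℝ, ContinuousOn (fun y : ℝ => (h : ℂ) * F h (h * y)) (Icc (-1 : ℝ) 1) := by
    intro h
    exact continuousOn_const.mul (hcs h (fun h y => F h (h * y)) (hcomp F hF.c0))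
  have hIoc : Set.uIoc (-1 : ℝ) 1 ⊆ Icc (-1 : ℝ) 1 := by
    rw [uIoc_of_le (by norm_num)]
    exact Ioc_subset_Icc_self
  have key := intervalIntegral.hasDerivAt_integral_of_dominated_loc_of_deriv_le
    (μ := volume) (F := fun (h : ℝ) (y : ℝ) => (h : ℂ) * F h (h * y)) (F' := G') (x₀ := h)
    (s := Ioo (h - 1) (h + 1)) (bound := fun _ => M) (a := -1) (b := 1)
    (Ioo_mem_nhds (by linarith) (by linarith)) ?_ ?_ ?_ ?_ ?_ ?_
  · have e1 : (fun h : ℝ => ∫ x in (-h)..h, F h x) =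
        fun h : ℝ => ∫ y in (-1 : ℝ)..1, (h : ℂ) * F h (h * y) := funext fun h => scal F h
    rw [e1]
    refine key.2.congr_deriv ?_
    -- the derivative
    have i0 : IntervalIntegrable (fun y => F h (h * y) + Fx h (h * y) * h * y) volume (-1) 1 := by
      refine ContinuousOn.intervalIntegrable ?_
      rw [uIcc_of_le (by norm_num)]
      have g1 := hcs h (fun h y => F h (h * y)) (hcomp F hF.c0)
      have g2 := hcs h (fun h y => Fx h (h * y)) (hcomp Fx hF.cx)
      have g3 : ContinuousOn (fun y : ℝ => (y : ℂ)) (Icc (-1 : ℝ) 1) := by fun_prop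
      exact g1.add ((g2.mul continuousOn_const).mul g3)
    have i1 : IntervalIntegrable (fun y => (h : ℂ) * Fh h (h * y)) volume (-1) 1 := by
      refine ContinuousOn.intervalIntegrable ?_
      rw [uIcc_of_le (by norm_num)]
      exact continuousOn_const.mul (hcs h (fun h y => Fh h (h * y)) (hcomp Fh hF.ch))
    have i2 : ∫ y in (-1 : ℝ)..1, (F h (h * y) + Fx h (h * y) * h * y) =
        (1 : ℝ) * F h (h * 1) - ((-1 : ℝ) : ℂ) * F h (h * (-1)) := by
      refine intervalIntegral.integral_eq_sub_of_hasDerivAt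
        (f := fun y : ℝ => (y : ℂ) * F h (h * y)) ?_ i0
      intro y hy
      rw [uIcc_of_le (by norm_num)] at hy
      have h1 : HasDerivAt (fun y : ℝ => (y : ℂ)) 1 y := Complex.ofRealCLM.hasDerivAt
      have h2 := hF.path (fun _ => h) (fun y => h * y) 0 h y (scal_mem hy) (hasDerivAt_const _ _)
        (by simpa using (hasDerivAt_id y).const_mul h)
      refine (h1.mul h2).congr_deriv ?_
      push_cast
      ring
    have e2 : ∫ y in (-1 : ℝ)..1, G' h y = ∫ y in (-1 : ℝ)..1,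
        ((F h (h * y) + Fx h (h * y) * h * y) + (h : ℂ) * Fh h (h * y)) := by
      refine intervalIntegral.integral_congr (fun y _ => ?_)
      simp only [hG']
      ring
    rw [e2, intervalIntegral.integral_add i0 i1, i2, scal Fh h]
    push_cast
    simp only [mul_one, mul_neg]
    ring
  · exact Filter.Eventually.of_forall (fun h' => by
      refine ContinuousOn.aestronglyMeasurable ((hc0 h').mono hIoc) measurableSet_uIoc)
  · refine ContinuousOn.intervalIntegrable ?_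
    rw [uIcc_of_le (by norm_num)]
    exact hc0 h
  · exact ContinuousOn.aestronglyMeasurable ((hcs h G' hG'c).mono hIoc) measurableSet_uIoc
  · refine Filter.Eventually.of_forall (fun y hy h' hh' => ?_)
    exact hM (h', y) ⟨Ioo_subset_Icc_self hh', hIoc hy⟩
  · exact intervalIntegrable_const
  · refine Filter.Eventually.of_forall (fun y hy h' hh' => ?_)
    exact hder h' y (hIoc hy)

/-- the domain of the Legendre function -/
def U : Set ℂ := {w : ℂ | 1 + w / 2 ∈ slitPlane}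

theorem isOpen_U : IsOpen U := by
  have : Continuous fun w : ℂ => 1 + w / 2 := by fun_prop
  exact isOpen_slitPlane.preimage this

/-- the second derivative of the Legendre function -/
noncomputable def Le2 (w : ℂ) : ℂ := deriv Le1 w

theorem le1_an (h1 : tLE) (w : ℂ) (hw : w ∈ U) : AnalyticAt ℂ Le1 w := by
  have h2 := (h1.1 w hw).1.deriv
  refine h2.congr ?_
  filter_upwards [isOpen_U.mem_nhds hw] with z hz
  exact (h1.1 z hz).2.deriv

theorem le1_der (h1 : tLE) (w : ℂ) (hw : w ∈ U) : HasDerivAt Le1 (Le2 w) w :=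
  (le1_an h1 w hw).differentiableAt.hasDerivAt

theorem le_cont (h1 : tLE) : ContinuousOn Le U := fun w hw =>
  (h1.1 w hw).1.continuousAt.continuousWithinAt

theorem le1_cont (h1 : tLE) : ContinuousOn Le1 U := fun w hw =>
  (le1_an h1 w hw).continuousAt.continuousWithinAt

theorem le2_cont (h1 : tLE) : ContinuousOn Le2 U := fun w hw =>
  (le1_an h1 w hw).deriv.continuousAt.continuousWithinAt

section
variable (D : ℂ)

/-- partial derivatives of the argument -/
noncomputable def wh (h x : ℝ) : ℂ := (Real.sinh h : ℂ) / (Complex.cosh D * Complex.cosh (D + x))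

noncomputable def wx (h x : ℝ) : ℂ :=
  -(Real.sinh x : ℂ) / (Complex.cosh D * Complex.cosh (D + x)) -
    wk D h x * (Complex.sinh (D + x) / Complex.cosh (D + x))

noncomputable def whh (h x : ℝ) : ℂ := (Real.cosh h : ℂ) / (Complex.cosh D * Complex.cosh (D + x))

noncomputable def whx (h x : ℝ) : ℂ := -wh D h x * (Complex.sinh (D + x) / Complex.cosh (D + x))

noncomputable def wxx (h x : ℝ) : ℂ :=
  -(Real.cosh x : ℂ) / (Complex.cosh D * Complex.cosh (D + x)) +
    (Real.sinh x : ℂ) / (Complex.cosh D * Complex.cosh (D + x)) *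
      (Complex.sinh (D + x) / Complex.cosh (D + x)) -
    (wx D h x * (Complex.sinh (D + x) / Complex.cosh (D + x)) +
      wk D h x / Complex.cosh (D + x) ^ 2)

end

theorem cosh_der (D : ℂ) (X : ℝ → ℝ) (X' τ : ℝ) (hX : HasDerivAt X X' τ) :
    HasDerivAt (fun τ => Complex.cosh (D + X τ)) (Complex.sinh (D + X τ) * X') τ := by
  have h1 : HasDerivAt (fun τ => (D + (X τ : ℂ))) (X' : ℂ) τ := by
    simpa using (hX.ofReal_comp).const_add D
  exact (Complex.hasDerivAt_cosh _).comp τ h1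

theorem sinh_der (D : ℂ) (X : ℝ → ℝ) (X' τ : ℝ) (hX : HasDerivAt X X' τ) :
    HasDerivAt (fun τ => Complex.sinh (D + X τ)) (Complex.cosh (D + X τ) * X') τ := by
  have h1 : HasDerivAt (fun τ => (D + (X τ : ℂ))) (X' : ℂ) τ := by
    simpa using (hX.ofReal_comp).const_add D
  exact (Complex.hasDerivAt_sinh _).comp τ h1

theorem rcosh_der (X : ℝ → ℝ) (X' τ : ℝ) (hX : HasDerivAt X X' τ) :
    HasDerivAt (fun τ => ((Real.cosh (X τ) : ℝ) : ℂ)) ((Real.sinh (X τ) : ℂ) * X') τ := by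
  have h1 := hX.cosh.ofReal_comp
  push_cast at h1 ⊢
  exact h1

theorem rsinh_der (X : ℝ → ℝ) (X' τ : ℝ) (hX : HasDerivAt X X' τ) :
    HasDerivAt (fun τ => ((Real.sinh (X τ) : ℝ) : ℂ)) ((Real.cosh (X τ) : ℂ) * X') τ := by
  have h1 := hX.sinh.ofReal_comp
  push_cast at h1 ⊢
  exact h1

theorem cosh_ne {D : ℂ} (hD : D ∈ S0) (hg : ∀ D : ℂ, |D.im| < Real.pi / 2 →
    0 < (Complex.cosh D).re) (x : ℝ) : Complex.cosh (D + x) ≠ 0 := by
  intro h
  have h1 := hg (D + x) (by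
    have : (D + (x : ℂ)).im = D.im := by simp
    rw [this]
    exact hD)
  rw [h] at h1
  simp at h1

theorem wk_path {D : ℂ} (hc : Complex.cosh D ≠ 0) (hC : ∀ x : ℝ, Complex.cosh (D + x) ≠ 0)
    (H X : ℝ → ℝ) (H' X' τ : ℝ) (hH : HasDerivAt H H' τ) (hX : HasDerivAt X X' τ) :
    HasDerivAt (fun τ => wk D (H τ) (X τ)) (wh D (H τ) (X τ) * H' + wx D (H τ) (X τ) * X') τ := by
  have h1 : HasDerivAt (fun τ => ((Real.cosh (H τ) - Real.cosh (X τ) : ℝ) : ℂ))
      ((Real.sinh (H τ) : ℂ) * H' - (Real.sinh (X τ) : ℂ) * X') τ := by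
    have := (rcosh_der H H' τ hH).sub (rcosh_der X X' τ hX)
    push_cast at this ⊢
    exact this
  have h2 := (cosh_der D X X' τ hX).const_mul (Complex.cosh D)
  have h3 := h1.div h2 (mul_ne_zero hc (hC _))
  refine h3.congr_deriv ?_
  unfold wh wx wk
  have hc' := hC (X τ)
  field_simp
  push_cast
  ring

theorem wh_path {D : ℂ} (hc : Complex.cosh D ≠ 0) (hC : ∀ x : ℝ, Complex.cosh (D + x) ≠ 0)
    (H X : ℝ → ℝ) (H' X' τ : ℝ) (hH : HasDerivAt H H' τ) (hX : HasDerivAt X X' τ) :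
    HasDerivAt (fun τ => wh D (H τ) (X τ))
      (whh D (H τ) (X τ) * H' + whx D (H τ) (X τ) * X') τ := by
  have h1 := rsinh_der H H' τ hH
  have h2 := (cosh_der D X X' τ hX).const_mul (Complex.cosh D)
  have h3 := h1.div h2 (mul_ne_zero hc (hC _))
  refine h3.congr_deriv ?_
  unfold whh whx wh
  have hc' := hC (X τ)
  field_simp
  ring

theorem wx_path {D : ℂ} (hc : Complex.cosh D ≠ 0) (hC : ∀ x : ℝ, Complex.cosh (D + x) ≠ 0)
    (h x : ℝ) : HasDerivAt (fun x => wx D h x) (wxx D h x) x := by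
  have h1 := (rsinh_der (fun x => x) 1 x (hasDerivAt_id x)).neg
  have h2 := (cosh_der D (fun x => x) 1 x (hasDerivAt_id x)).const_mul (Complex.cosh D)
  have h3 := h1.div h2 (mul_ne_zero hc (hC _))
  have h4 := wk_path hc hC (fun _ => h) (fun x => x) 0 1 x (hasDerivAt_const _ _) (hasDerivAt_id x)
  have h5 := (sinh_der D (fun x => x) 1 x (hasDerivAt_id x)).div
    (cosh_der D (fun x => x) 1 x (hasDerivAt_id x)) (hC x)
  have h6 := h3.sub (h4.mul h5)
  refine h6.congr_deriv ?_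
  have hc' := hC x
  have hid := Complex.cosh_sq (D + x)
  unfold wxx
  simp only [Complex.ofReal_zero, mul_zero, zero_add, Complex.ofReal_one, mul_one, Pi.div_apply,
    Pi.neg_apply]
  have e1 : (Complex.cosh (D + x) * Complex.cosh (D + x) -
      Complex.sinh (D + x) * Complex.sinh (D + x)) / Complex.cosh (D + x) ^ 2 =
      1 / Complex.cosh (D + x) ^ 2 := by
    congr 1
    have := Complex.cosh_sq (D + x)
    linear_combination this
  rw [e1]
  field_simp
  ring

theorem wk_self {D : ℂ} (h : ℝ) : wk D h h = 0 ∧ wk D h (-h) = 0 := by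
  unfold wk
  rw [Real.cosh_neg]
  simp

theorem id1 {D : ℂ} (hc : Complex.cosh D ≠ 0) (hC : ∀ x : ℝ, Complex.cosh (D + x) ≠ 0) (h x : ℝ) :
    wh D h x ^ 2 - wx D h x ^ 2 = (wk D h x ^ 2 + 2 * wk D h x) / Complex.cosh (D + x) ^ 2 := by
  have e1 : ((Real.cosh x : ℝ) : ℂ) = Complex.cosh (D + x) * Complex.cosh D -
      Complex.sinh (D + x) * Complex.sinh D := by
    rw [← Complex.cosh_sub]
    push_cast
    congr 1
    ring
  have e2 : ((Real.sinh x : ℝ) : ℂ) = Complex.sinh (D + x) * Complex.cosh D -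
      Complex.cosh (D + x) * Complex.sinh D := by
    rw [← Complex.sinh_sub]
    push_cast
    congr 1
    ring
  have e3 : ((Real.sinh h : ℝ) : ℂ) ^ 2 = ((Real.cosh h : ℝ) : ℂ) ^ 2 - 1 := by
    have := Real.cosh_sq h
    have h2 : ((Real.cosh h ^ 2 : ℝ) : ℂ) = ((Real.sinh h ^ 2 + 1 : ℝ) : ℂ) := by rw [this]
    push_cast at h2 ⊢
    linear_combination -h2
  have e4 := Complex.cosh_sq (D + x)
  have e5 := Complex.cosh_sq D
  have hc' := hC x
  unfold wh wx wk
  rw [Complex.ofReal_sub, e1, e2]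
  field_simp
  rw [e3]
  set C := Complex.cosh (D + x)
  set S := Complex.sinh (D + x)
  set c := Complex.cosh D
  set s := Complex.sinh D
  set ch := ((Real.cosh h : ℝ) : ℂ)
  linear_combination (ch ^ 2 - s ^ 2 + 2 * s * S * ch - (C ^ 2 - S ^ 2 - 1) * s ^ 2) * e4 + C ^ 2 * e5

theorem id2 {D : ℂ} (hc : Complex.cosh D ≠ 0) (hC : ∀ x : ℝ, Complex.cosh (D + x) ≠ 0) (h x : ℝ) :
    whh D h x - wxx D h x = 2 * (1 + wk D h x) / Complex.cosh (D + x) ^ 2 := by
  have e1 : ((Real.cosh x : ℝ) : ℂ) = Complex.cosh (D + x) * Complex.cosh D -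
      Complex.sinh (D + x) * Complex.sinh D := by
    rw [← Complex.cosh_sub]
    push_cast
    congr 1
    ring
  have e2 : ((Real.sinh x : ℝ) : ℂ) = Complex.sinh (D + x) * Complex.cosh D -
      Complex.cosh (D + x) * Complex.sinh D := by
    rw [← Complex.sinh_sub]
    push_cast
    congr 1
    ring
  have e4 := Complex.cosh_sq (D + x)
  have e5 := Complex.cosh_sq D
  have hc' := hC x
  unfold whh wxx wx wk
  rw [Complex.ofReal_sub, e1, e2]
  field_simp
  set C := Complex.cosh (D + x)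
  set S := Complex.sinh (D + x)
  set c := Complex.cosh D
  set s := Complex.sinh D
  set ch := ((Real.cosh h : ℝ) : ℂ)
  linear_combination (ch + C * c + S * s) * e4

section
variable (D : ℂ) (q : ℂ → ℂ)

/-- `R q` and its derivatives -/
noncomputable def F0 (h x : ℝ) : ℂ := Le (wk D h x) * q (D + x)

noncomputable def F0h (h x : ℝ) : ℂ := Le1 (wk D h x) * wh D h x * q (D + x)

noncomputable def F0x (h x : ℝ) : ℂ :=
  Le1 (wk D h x) * wx D h x * q (D + x) + Le (wk D h x) * deriv q (D + x)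

noncomputable def F1h (h x : ℝ) : ℂ :=
  (Le2 (wk D h x) * wh D h x ^ 2 + Le1 (wk D h x) * whh D h x) * q (D + x)

noncomputable def F1x (h x : ℝ) : ℂ :=
  (Le2 (wk D h x) * wx D h x * wh D h x + Le1 (wk D h x) * whx D h x) * q (D + x) +
    Le1 (wk D h x) * wh D h x * deriv q (D + x)

end

theorem im_add (D : ℂ) (x : ℝ) : (D + (x : ℂ)).im = D.im := by simp

theorem mem_add {D : ℂ} (hD : D ∈ S0) (x : ℝ) : D + (x : ℂ) ∈ S0 := by
  change |(D + (x : ℂ)).im| < _
  rw [im_add]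
  exact hD

theorem isOpen_S0 : IsOpen S0 := by
  have : Continuous fun d : ℂ => |d.im| := by fun_prop
  exact isOpen_lt this continuous_const

theorem q_path {q : ℂ → ℂ} (hq : DifferentiableOn ℂ q S0) {D : ℂ} (hD : D ∈ S0)
    (X : ℝ → ℝ) (X' τ : ℝ) (hX : HasDerivAt X X' τ) :
    HasDerivAt (fun τ => q (D + X τ)) (deriv q (D + X τ) * X') τ := by
  have h1 : HasDerivAt (fun τ => (D + (X τ : ℂ))) (X' : ℂ) τ := by
    simpa using (hX.ofReal_comp).const_add D
  have h2 : HasDerivAt q (deriv q (D + X τ)) (D + X τ) :=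
    (hq.differentiableAt (isOpen_S0.mem_nhds (mem_add hD _))).hasDerivAt
  exact h2.comp τ h1

section
variable {D : ℂ}

theorem U_mem (h2 : tGEO) (hD : D ∈ S0) {h x : ℝ} (hx : |x| ≤ |h|) : wk D h x ∈ U :=
  (h2.2.1 D h x hD hx).1

theorem cc (h2 : tGEO) (hD : D ∈ S0) :
    Complex.cosh D ≠ 0 ∧ ∀ x : ℝ, Complex.cosh (D + x) ≠ 0 := by
  refine ⟨?_, cosh_ne hD h2.1⟩
  have := cosh_ne hD h2.1 0
  simpa using this

/-- continuity of the ingredients -/
theorem cont_base (h2 : tGEO) (hD : D ∈ S0) :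
    ContinuousOn (fun p : ℝ × ℝ => wk D p.1 p.2) Tri ∧
    ContinuousOn (fun p : ℝ × ℝ => wh D p.1 p.2) Tri ∧
    ContinuousOn (fun p : ℝ × ℝ => wx D p.1 p.2) Tri ∧
    ContinuousOn (fun p : ℝ × ℝ => whh D p.1 p.2) Tri ∧
    ContinuousOn (fun p : ℝ × ℝ => whx D p.1 p.2) Tri := by
  obtain ⟨hc, hC⟩ := cc h2 hD
  have g0 : Continuous (fun p : ℝ × ℝ => Complex.cosh D * Complex.cosh (D + (p.2 : ℂ))) := by
    fun_prop
  have g0' : ∀ p : ℝ × ℝ, Complex.cosh D * Complex.cosh (D + (p.2 : ℂ)) ≠ 0 :=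
    fun p => mul_ne_zero hc (hC _)
  have g1 : Continuous (fun p : ℝ × ℝ => wk D p.1 p.2) := by
    have : Continuous (fun p : ℝ × ℝ => ((Real.cosh p.1 - Real.cosh p.2 : ℝ) : ℂ)) := by fun_prop
    exact this.div g0 g0'
  have g2 : Continuous (fun p : ℝ × ℝ => wh D p.1 p.2) := by
    have : Continuous (fun p : ℝ × ℝ => ((Real.sinh p.1 : ℝ) : ℂ)) := by fun_prop
    exact this.div g0 g0'
  have g3 : Continuous (fun p : ℝ × ℝ => Complex.sinh (D + (p.2 : ℂ)) /
      Complex.cosh (D + (p.2 : ℂ))) := by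
    have a1 : Continuous (fun p : ℝ × ℝ => Complex.sinh (D + (p.2 : ℂ))) := by fun_prop
    have a2 : Continuous (fun p : ℝ × ℝ => Complex.cosh (D + (p.2 : ℂ))) := by fun_prop
    exact a1.div a2 (fun p => hC _)
  have g4 : Continuous (fun p : ℝ × ℝ => wx D p.1 p.2) := by
    have : Continuous (fun p : ℝ × ℝ => -((Real.sinh p.2 : ℝ) : ℂ)) := by fun_prop
    exact (this.div g0 g0').sub (g1.mul g3)
  have g5 : Continuous (fun p : ℝ × ℝ => whh D p.1 p.2) := by
    have : Continuous (fun p : ℝ × ℝ => ((Real.cosh p.1 : ℝ) : ℂ)) := by fun_prop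
    exact this.div g0 g0'
  have g6 : Continuous (fun p : ℝ × ℝ => whx D p.1 p.2) := g2.neg.mul g3
  exact ⟨g1.continuousOn, g2.continuousOn, g4.continuousOn, g5.continuousOn, g6.continuousOn⟩

theorem cont_le (h1 : tLE) (h2 : tGEO) (hD : D ∈ S0) :
    ContinuousOn (fun p : ℝ × ℝ => Le (wk D p.1 p.2)) Tri ∧
    ContinuousOn (fun p : ℝ × ℝ => Le1 (wk D p.1 p.2)) Tri ∧
    ContinuousOn (fun p : ℝ × ℝ => Le2 (wk D p.1 p.2)) Tri := by
  obtain ⟨g1, -⟩ := cont_base h2 hD
  have hm : MapsTo (fun p : ℝ × ℝ => wk D p.1 p.2) Tri U := fun p hp => U_mem h2 hD hp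
  exact ⟨(le_cont h1).comp g1 hm, (le1_cont h1).comp g1 hm, (le2_cont h1).comp g1 hm⟩

theorem cont_q {q : ℂ → ℂ} (hq : DifferentiableOn ℂ q S0) (hD : D ∈ S0) :
    ContinuousOn (fun p : ℝ × ℝ => q (D + (p.2 : ℂ))) Tri ∧
    ContinuousOn (fun p : ℝ × ℝ => deriv q (D + (p.2 : ℂ))) Tri ∧
    ContinuousOn (fun p : ℝ × ℝ => deriv (deriv q) (D + (p.2 : ℂ))) Tri := by
  have h1 : ContinuousOn (fun p : ℝ × ℝ => D + (p.2 : ℂ)) Tri := by fun_prop
  have hm : MapsTo (fun p : ℝ × ℝ => D + (p.2 : ℂ)) Tri S0 := fun p _ => mem_add hD _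
  have h2 := hq.deriv isOpen_S0
  have h3 := h2.deriv isOpen_S0
  exact ⟨hq.continuousOn.comp h1 hm, h2.continuousOn.comp h1 hm, h3.continuousOn.comp h1 hm⟩

theorem c1_F0 (h1 : tLE) (h2 : tGEO) (hD : D ∈ S0) {q : ℂ → ℂ} (hq : DifferentiableOn ℂ q S0) :
    C1 (F0 D q) (F0h D q) (F0x D q) := by
  obtain ⟨hc, hC⟩ := cc h2 hD
  obtain ⟨b1, b2, b3, b4, b5⟩ := cont_base h2 hD
  obtain ⟨l0, l1, l2⟩ := cont_le h1 h2 hD
  obtain ⟨q0, q1, q2⟩ := cont_q hq hD
  refine ⟨?_, l0.mul q0, (l1.mul b2).mul q0, ((l1.mul b3).mul q0).add (l0.mul q1)⟩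
  intro H X H' X' τ hx hH hX
  have g1 := wk_path hc hC H X H' X' τ hH hX
  have g2 := HasDerivAt.comp (h₂ := Le) (h := fun τ => wk D (H τ) (X τ)) τ
    (h1.1 _ (U_mem h2 hD hx)).2 g1
  rw [Function.comp_def] at g2
  have g3 := g2.mul (q_path hq hD X X' τ hX)
  refine g3.congr_deriv ?_
  unfold F0h F0x
  ring

theorem c1_F1 (h1 : tLE) (h2 : tGEO) (hD : D ∈ S0) {q : ℂ → ℂ} (hq : DifferentiableOn ℂ q S0) :
    C1 (F0h D q) (F1h D q) (F1x D q) := by
  obtain ⟨hc, hC⟩ := cc h2 hD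
  obtain ⟨b1, b2, b3, b4, b5⟩ := cont_base h2 hD
  obtain ⟨l0, l1, l2⟩ := cont_le h1 h2 hD
  obtain ⟨q0, q1, q2⟩ := cont_q hq hD
  refine ⟨?_, (l1.mul b2).mul q0, ((l2.mul (b2.pow 2)).add (l1.mul b4)).mul q0,
    ((((l2.mul b3).mul b2).add (l1.mul b5)).mul q0).add ((l1.mul b2).mul q1)⟩
  intro H X H' X' τ hx hH hX
  have g1 := wk_path hc hC H X H' X' τ hH hX
  have g2 := HasDerivAt.comp (h₂ := Le1) (h := fun τ => wk D (H τ) (X τ)) τ
    (le1_der h1 _ (U_mem h2 hD hx)) g1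
  rw [Function.comp_def] at g2
  have g3 := (g2.mul (wh_path hc hC H X H' X' τ hH hX)).mul (q_path hq hD X X' τ hX)
  refine g3.congr_deriv ?_
  unfold F1h F1x
  simp only [Pi.mul_apply]
  ring

/-- the equation of the Riemann function -/
theorem pde (h1 : tLE) (h2 : tGEO) (hD : D ∈ S0) {h x : ℝ} (hx : |x| ≤ |h|) :
    Le2 (wk D h x) * wh D h x ^ 2 + Le1 (wk D h x) * whh D h x =
      Le2 (wk D h x) * wx D h x ^ 2 + Le1 (wk D h x) * wxx D h x -
        1 / 4 / Complex.cosh (D + x) ^ 2 * Le (wk D h x) := by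
  obtain ⟨hc, hC⟩ := cc h2 hD
  have i1 := id1 hc hC h x
  have i2 := id2 hc hC h x
  have ode := h1.2.2.1 (wk D h x) (U_mem h2 hD hx)
  have hC2 : Complex.cosh (D + x) ^ 2 ≠ 0 := pow_ne_zero 2 (hC x)
  rw [eq_div_iff hC2] at i1 i2
  have e : Complex.cosh (D + x) ^ 2 * (Le2 (wk D h x) * wh D h x ^ 2 +
      Le1 (wk D h x) * whh D h x) = Complex.cosh (D + x) ^ 2 *
      (Le2 (wk D h x) * wx D h x ^ 2 + Le1 (wk D h x) * wxx D h x -
        1 / 4 / Complex.cosh (D + x) ^ 2 * Le (wk D h x)) := by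
    have e1 : Complex.cosh (D + x) ^ 2 * (1 / 4 / Complex.cosh (D + x) ^ 2 * Le (wk D h x)) =
        1 / 4 * Le (wk D h x) := by
      have hc'' := hC x
      field_simp
    rw [mul_sub, e1]
    unfold Le2
    linear_combination (deriv Le1 (wk D h x)) * i1 + Le1 (wk D h x) * i2 + ode
  exact mul_left_cancel₀ hC2 e

/-- integration by parts -/
theorem parts (h1 : tLE) (h2 : tGEO) (hD : D ∈ S0) {q : ℂ → ℂ} (hq : DifferentiableOn ℂ q S0)
    (κ : ℝ) (hode : ∀ d ∈ S0, deriv (deriv q) d =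
      -((κ ^ 2 : ℝ) - 1 / 4 / Complex.cosh d ^ 2) * q d) (h : ℝ) (hh : 0 ≤ h) :
    ∫ x in (-h)..h, F1h D q h x = -(κ ^ 2 : ℝ) * (∫ x in (-h)..h, F0 D q h x) +
      (Le1 0 * wx D h h * q (D + h) - deriv q (D + h)) -
      (Le1 0 * wx D h (-h) * q (D - h) - deriv q (D - h)) := by
  obtain ⟨hc, hC⟩ := cc h2 hD
  have hI : ∀ x ∈ uIcc (-h) h, |x| ≤ |h| := by
    intro x hx
    rw [uIcc_of_le (by linarith)] at hx
    rw [abs_of_nonneg hh]
    exact abs_le.mpr hx
  have hIc : ∀ (G : ℝ → ℝ → ℂ), ContinuousOn (fun p : ℝ × ℝ => G p.1 p.2) Tri →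
      ContinuousOn (fun x => G h x) (uIcc (-h) h) := by
    intro G hG
    have : ContinuousOn (fun x : ℝ => ((h, x) : ℝ × ℝ)) (uIcc (-h) h) := by fun_prop
    exact hG.comp this (fun x hx => hI x hx)
  have c0 := c1_F0 h1 h2 hD hq
  have c1 := c1_F1 h1 h2 hD hq
  have i1 : IntervalIntegrable (fun x => F1h D q h x) volume (-h) h :=
    (hIc _ c1.ch).intervalIntegrable
  have i0 : IntervalIntegrable (fun x => F0 D q h x) volume (-h) h :=
    (hIc _ c0.c0).intervalIntegrable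
  have hder : ∀ x ∈ uIcc (-h) h, HasDerivAt (fun x : ℝ => Le1 (wk D h x) * wx D h x * q (D + x) -
      Le (wk D h x) * deriv q (D + x)) (F1h D q h x + (κ ^ 2 : ℝ) * F0 D q h x) x := by
    intro x hx
    have hx' := hI x hx
    have g1 := wk_path hc hC (fun _ => h) (fun x => x) 0 1 x (hasDerivAt_const _ _)
      (hasDerivAt_id x)
    have g2 := HasDerivAt.comp (h₂ := Le) (h := fun τ => wk D h τ) x
      (h1.1 _ (U_mem h2 hD hx')).2 g1
    have g3 := HasDerivAt.comp (h₂ := Le1) (h := fun τ => wk D h τ) x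
      (le1_der h1 _ (U_mem h2 hD hx')) g1
    rw [Function.comp_def] at g2 g3
    have g4 := wx_path hc hC h x
    have g5 := q_path hq hD (fun x => x) 1 x (hasDerivAt_id x)
    have g6 := q_path (hq.deriv isOpen_S0) hD (fun x => x) 1 x (hasDerivAt_id x)
    have g7 := ((g3.mul g4).mul g5).sub (g2.mul g6)
    refine g7.congr_deriv ?_
    simp only [Pi.mul_apply, Complex.ofReal_zero, Complex.ofReal_one, mul_zero, mul_one, zero_add]
    rw [hode _ (mem_add hD x)]
    unfold F1h F0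
    have := pde h1 h2 hD hx'
    linear_combination (-q (D + x)) * this
  have key := intervalIntegral.integral_eq_sub_of_hasDerivAt hder
    (i1.add (i0.const_mul _))
  rw [intervalIntegral.integral_add i1 (i0.const_mul _),
    intervalIntegral.integral_const_mul] at key
  obtain ⟨w1, w2⟩ := wk_self (D := D) h
  rw [w1, w2, h1.2.1] at key
  push_cast at key ⊢
  simp only [one_mul, ← sub_eq_add_neg] at key ⊢
  linear_combination key

/-- the product formula -/
theorem prod (h1 : tLE) (h2 : tGEO) : tPROD := by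
  intro κ q hq hode D hD h hh
  obtain ⟨hc, hC⟩ := cc h2 hD
  have c0 := c1_F0 h1 h2 hD hq
  have c1 := c1_F1 h1 h2 hD hq
  set A : ℝ → ℂ := fun h => ∫ x in (-h)..h, F0 D q h x with hA
  set A1 : ℝ → ℂ := fun h => q (D + h) + q (D - h) + ∫ x in (-h)..h, F0h D q h x with hA1
  have hneg : ∀ h : ℝ, D + ((-h : ℝ) : ℂ) = D - h := by
    intro h
    push_cast
    ring
  have dA : ∀ h : ℝ, HasDerivAt A (A1 h) h := by
    intro h
    refine (c0.leib h).congr_deriv ?_
    obtain ⟨w1, w2⟩ := wk_self (D := D) h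
    simp only [F0, w1, w2, h1.2.1, one_mul, hA1, hneg]
  have dA1 : ∀ h : ℝ, 0 ≤ h → HasDerivAt A1 (-(κ ^ 2 : ℝ) * A h) h := by
    intro h hh
    have g1 := q_path hq hD (fun x => x) 1 h (hasDerivAt_id h)
    have g2 := q_path hq hD (fun x => -x) (-1) h (hasDerivAt_neg h)
    have g3 := (g1.add g2).add (c1.leib h)
    have e : A1 = ((fun τ : ℝ => q (D + (τ : ℂ))) + fun τ : ℝ => q (D + ((-τ : ℝ) : ℂ))) +
        fun h : ℝ => ∫ x in (-h)..h, F0h D q h x := by
      funext τ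
      simp only [hA1, Pi.add_apply, hneg]
    rw [e]
    refine g3.congr_deriv ?_
    rw [parts h1 h2 hD hq κ hode h hh]
    obtain ⟨w1, w2⟩ := wk_self (D := D) h
    have hCh := hC h
    have hCh' := hC (-h)
    rw [hneg] at hCh'
    simp only [F0h, w1, w2, hneg, hA]
    have e1 : wh D h h + wx D h h = 0 := by
      unfold wh wx
      rw [w1]
      ring
    have e2 : wh D h (-h) - wx D h (-h) = 0 := by
      unfold wh wx
      rw [w2, Real.sinh_neg]
      push_cast
      ring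
    push_cast
    linear_combination (Le1 0 * q (D + h)) * e1 + (Le1 0 * q (D - h)) * e2
  -- solve the equation
  have hA0 : A 0 = 0 := by simp [hA]
  have hA10 : A1 0 = 2 * q D := by
    simp only [hA1, Complex.ofReal_zero, add_zero, sub_zero, neg_zero,
      intervalIntegral.integral_same]
    ring
  have dcos : ∀ t : ℝ, HasDerivAt (fun t : ℝ => ((Real.cos (κ * t) : ℝ) : ℂ))
      (-(κ : ℂ) * (Real.sin (κ * t) : ℝ)) t := by
    intro t
    have g1 : HasDerivAt (fun t : ℝ => Real.cos (κ * t)) (-Real.sin (κ * t) * κ) t := by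
      have := (Real.hasDerivAt_cos (κ * t)).comp t ((hasDerivAt_id t).const_mul κ)
      simpa [Function.comp_def] using this
    refine g1.ofReal_comp.congr_deriv ?_
    push_cast
    ring
  have dsin : ∀ t : ℝ, HasDerivAt (fun t : ℝ => ((Real.sin (κ * t) : ℝ) : ℂ))
      ((κ : ℂ) * (Real.cos (κ * t) : ℝ)) t := by
    intro t
    have g1 : HasDerivAt (fun t : ℝ => Real.sin (κ * t)) (Real.cos (κ * t) * κ) t := by
      have := (Real.hasDerivAt_sin (κ * t)).comp t ((hasDerivAt_id t).const_mul κ)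
      simpa [Function.comp_def] using this
    refine g1.ofReal_comp.congr_deriv ?_
    push_cast
    ring
  have E1 : ∀ t ∈ Icc (0 : ℝ) h, A1 t * (Real.cos (κ * t) : ℝ) + κ * A t * (Real.sin (κ * t) : ℝ) =
      2 * q D := by
    have hconst := constant_of_derivWithin_zero (a := 0) (b := h)
      (f := fun t : ℝ => A1 t * (Real.cos (κ * t) : ℝ) + κ * A t * (Real.sin (κ * t) : ℝ)) ?_ ?_
    · intro t ht
      rw [hconst t ht, hA0, hA10]
      simp
    · intro t ht
      exact (((dA1 t ht.1).mul (dcos t)).add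
        (((dA t).const_mul (κ : ℂ)).mul (dsin t))).differentiableAt.differentiableWithinAt
    · intro t ht
      have g := (((dA1 t ht.1).mul (dcos t)).add (((dA t).const_mul (κ : ℂ)).mul (dsin t)))
      have hu : UniqueDiffWithinAt ℝ (Icc 0 h) t :=
        uniqueDiffOn_Icc (lt_of_le_of_lt ht.1 ht.2) t (Ico_subset_Icc_self ht)
      refine (g.hasDerivWithinAt.derivWithin hu).trans ?_
      push_cast
      ring
  have E2 : ∀ t ∈ Icc (0 : ℝ) h, A1 t * (Real.sin (κ * t) : ℝ) - κ * A t * (Real.cos (κ * t) : ℝ) =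
      0 := by
    have hconst := constant_of_derivWithin_zero (a := 0) (b := h)
      (f := fun t : ℝ => A1 t * (Real.sin (κ * t) : ℝ) - κ * A t * (Real.cos (κ * t) : ℝ)) ?_ ?_
    · intro t ht
      rw [hconst t ht, hA0, hA10]
      simp
    · intro t ht
      exact (((dA1 t ht.1).mul (dsin t)).sub
        (((dA t).const_mul (κ : ℂ)).mul (dcos t))).differentiableAt.differentiableWithinAt
    · intro t ht
      have g := (((dA1 t ht.1).mul (dsin t)).sub (((dA t).const_mul (κ : ℂ)).mul (dcos t)))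
      have hu : UniqueDiffWithinAt ℝ (Icc 0 h) t :=
        uniqueDiffOn_Icc (lt_of_le_of_lt ht.1 ht.2) t (Ico_subset_Icc_self ht)
      refine (g.hasDerivWithinAt.derivWithin hu).trans ?_
      push_cast
      ring
  have k1 := E1 h ⟨hh, le_rfl⟩
  have k2 := E2 h ⟨hh, le_rfl⟩
  have hcs : ((Real.cos (κ * h) : ℝ) : ℂ) ^ 2 + ((Real.sin (κ * h) : ℝ) : ℂ) ^ 2 = 1 := by
    have := Real.cos_sq_add_sin_sq (κ * h)
    exact_mod_cast congrArg (fun r : ℝ => (r : ℂ)) this
  have hfin : A1 h = 2 * (Real.cos (κ * h) : ℝ) * q D := by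
    linear_combination (Real.cos (κ * h) : ℂ) * k1 + (Real.sin (κ * h) : ℂ) * k2 - A1 h * hcs
  have hWo : Wo q h D = 1 / 2 * A1 h := by
    have e : ∫ x in (-h)..h, Kk D h x * q (D + x) = ∫ x in (-h)..h, F0h D q h x :=
      intervalIntegral.integral_congr (fun x _ => rfl)
    unfold Wo
    simp only [hA1]
    rw [e]
    ring
  rw [hWo, hfin]
  ring

end

end FMZ.WPROD_

namespace FMZ

/-- job FMZ-W3 -/
theorem pPROD (h1 : tLE) (h2 : tGEO) : tPROD := WPROD_.prod h1 h2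

end FMZ
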