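import Pool.Agent.FMZ.TW

/-!
# FMZ-W8: weak convergence on the real line implies convergence in the disc
-/

open Complex MeasureTheory Set Filter Topology

namespace FMZ

namespace WVIT_

/-- product of a function continuous on the ball with a test function -/
lemma prod_cont {R r : ℝ} (hr : R / 2 < r) {G : ℂ → ℂ}
    (hG : ContinuousOn G (Metric.ball 0 r)) {Y : ℝ → ℝ} (hY : Continuous Y)
    (hs : ∀ t, R / 2 ≤ |t| → Y t = 0) :
    Continuous (fun D : ℝ => G D * Y D) := by
  rw [continuous_iff_continuousAt]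
  intro t
  by_cases ht : |t| < r
  · have h1 : (t : ℂ) ∈ Metric.ball (0 : ℂ) r := by
      rw [Metric.mem_ball, dist_zero_right, Complex.norm_real, Real.norm_eq_abs]
      exact ht
    have h2 : ContinuousAt G (t : ℂ) := hG.continuousAt (Metric.isOpen_ball.mem_nhds h1)
    have h3 : ContinuousAt (fun D : ℝ => G D) t :=
      ContinuousAt.comp (f := fun D : ℝ => (D : ℂ)) h2 Complex.continuous_ofReal.continuousAt
    exact h3.mul (Complex.continuous_ofReal.continuousAt.comp hY.continuousAt)
  · have h1 : ∀ᶠ D : ℝ in 𝓝 t, R / 2 < |D| := by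
      have : Continuous (fun D : ℝ => |D|) := continuous_abs
      exact this.continuousAt.eventually (lt_mem_nhds (by linarith [not_lt.mp ht]))
    have h2 : (fun _ : ℝ => (0 : ℂ)) =ᶠ[𝓝 t] (fun D : ℝ => G D * Y D) := by
      filter_upwards [h1] with D hD
      rw [hs D hD.le]
      simp
    exact (continuousAt_const (y := (0 : ℂ))).congr h2

lemma prod_cpt {G : ℂ → ℂ} {Y : ℝ → ℝ} (hY : HasCompactSupport Y) :
    HasCompactSupport (fun D : ℝ => G D * Y D) := by
  refine HasCompactSupport.intro hY.isCompact (fun x hx => ?_)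
  rw [image_eq_zero_of_notMem_tsupport hx]
  simp

lemma prod_int {R r : ℝ} (hr : R / 2 < r) {G : ℂ → ℂ}
    (hG : ContinuousOn G (Metric.ball 0 r)) {Y : ℝ → ℝ} (hY : Continuous Y)
    (hc : HasCompactSupport Y) (hs : ∀ t, R / 2 ≤ |t| → Y t = 0) :
    Integrable (fun D : ℝ => G D * Y D) :=
  (prod_cont hr hG hY hs).integrable_of_hasCompactSupport (prod_cpt hc)

lemma tst_symm {g : ℝ → ℝ} (hg : ContDiff ℝ (⊤ : ℕ∞) g) (hc : HasCompactSupport g) :
    Tst (fun t => g t + g (-t)) := by
  refine ⟨hg.add (hg.comp contDiff_neg), ?_, fun t => by rw [neg_neg, add_comm]⟩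
  have h2 : HasCompactSupport (fun t => g (-t)) := hc.comp_homeomorph (Homeomorph.neg ℝ)
  exact hc.add h2

lemma uniq {R r : ℝ} (hr : R / 2 < r) {G : ℂ → ℂ}
    (hG : ContinuousOn G (Metric.ball 0 r)) (he : ∀ z ∈ Metric.ball (0 : ℂ) r, G (-z) = G z)
    (h : ∀ Y : ℝ → ℝ, Tst Y → (∀ t, R / 2 ≤ |t| → Y t = 0) → ∫ D : ℝ, G D * Y D = 0) :
    ∀ t : ℝ, |t| < R / 2 → G t = 0 := by
  have hcont : ContinuousOn (fun D : ℝ => G D) (Ioo (-(R / 2)) (R / 2)) := by
    refine hG.comp Complex.continuous_ofReal.continuousOn (fun t ht => ?_)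
    rw [Metric.mem_ball, dist_zero_right, Complex.norm_real, Real.norm_eq_abs]
    exact (abs_lt.mpr ht).trans hr
  have hae : ∀ᵐ x : ℝ, x ∈ Ioo (-(R / 2)) (R / 2) → G x = 0 := by
    refine isOpen_Ioo.ae_eq_zero_of_integral_contDiff_smul_eq_zero
      (hcont.locallyIntegrableOn measurableSet_Ioo) (fun g hg hc hsupp => ?_)
    have hg0 : ∀ t, R / 2 ≤ |t| → g t = 0 := by
      intro t ht
      by_contra hne
      have h1 : t ∈ Ioo (-(R / 2)) (R / 2) := hsupp (subset_tsupport g hne)
      exact absurd (abs_lt.mpr h1) (not_lt.mpr ht)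
    have hg0' : ∀ t, R / 2 ≤ |t| → g (-t) = 0 := fun t ht => hg0 (-t) (by rwa [abs_neg])
    have h1 := h _ (tst_symm hg hc) (fun t ht => by rw [hg0 t ht, hg0' t ht, add_zero])
    have hi1 : Integrable (fun D : ℝ => G D * g D) := prod_int hr hG hg.continuous hc hg0
    have hi2 : Integrable (fun D : ℝ => G D * g (-D)) :=
      prod_int hr hG (Y := fun t => g (-t)) (hg.continuous.comp continuous_neg)
        (hc.comp_homeomorph (Homeomorph.neg ℝ)) hg0'
    have h2 : ∫ D : ℝ, G D * g (-D) = ∫ D : ℝ, G D * g D := by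
      rw [← integral_neg_eq_self (fun D : ℝ => G D * g (-D))]
      refine integral_congr_ae (Eventually.of_forall fun t => ?_)
      show G ((-t : ℝ) : ℂ) * g (- -t) = G t * g t
      rw [neg_neg]
      by_cases ht : |t| < R / 2
      · have hm : (t : ℂ) ∈ Metric.ball (0 : ℂ) r := by
          rw [Metric.mem_ball, dist_zero_right, Complex.norm_real, Real.norm_eq_abs]
          exact ht.trans hr
        rw [Complex.ofReal_neg, he _ hm]
      · rw [hg0 t (not_lt.mp ht)]
        simp
    have h3 : ∫ D : ℝ, G D * ((g D + g (-D) : ℝ) : ℂ) =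
        (∫ D : ℝ, G D * g D) + ∫ D : ℝ, G D * g (-D) := by
      rw [← integral_add hi1 hi2]
      refine integral_congr_ae (Eventually.of_forall fun t => ?_)
      push_cast
      ring
    rw [h3, h2] at h1
    have h4 : ∫ D : ℝ, G D * g D = 0 := by
      have : (2 : ℂ) * ∫ D : ℝ, G D * g D = 0 := by rw [two_mul]; exact h1
      simpa using this
    rw [← h4]
    refine integral_congr_ae (Eventually.of_forall fun t => ?_)
    show g t • G t = G t * g t
    rw [Complex.real_smul, mul_comm]
  have hae2 : (fun D : ℝ => G D) =ᵐ[volume.restrict (Ioo (-(R / 2)) (R / 2))] fun _ => (0 : ℂ) :=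
    (ae_restrict_iff' measurableSet_Ioo).mpr hae
  have := Measure.eqOn_open_of_ae_eq hae2 isOpen_Ioo hcont continuousOn_const
  intro t ht
  exact this (abs_lt.mp ht)

end WVIT_

open WVIT_ in
theorem pVIT : tVIT := by
  intro R M f F hR hf hF hb hFe hw z₀ hz₀
  have hz₀' : ‖z₀‖ < R := by simpa using hz₀
  set r : ℝ := (max ‖z₀‖ (R / 2) + R) / 2 with hrdef
  have hmax : max ‖z₀‖ (R / 2) < R := max_lt hz₀' (by linarith)
  have hrR : r < R := by rw [hrdef]; linarith
  have hrmax : max ‖z₀‖ (R / 2) < r := by rw [hrdef]; linarith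
  have hrz : ‖z₀‖ < r := lt_of_le_of_lt (le_max_left _ _) hrmax
  have hr2 : R / 2 < r := lt_of_le_of_lt (le_max_right _ _) hrmax
  have hr0 : 0 < r := by linarith
  have hsub : Metric.ball (0 : ℂ) r ⊆ Metric.ball 0 R := Metric.ball_subset_ball hrR.le
  have hcsub : Metric.closedBall (0 : ℂ) r ⊆ Metric.ball 0 R := Metric.closedBall_subset_ball hrR
  -- the coefficients
  set cf : ℕ → ℕ → ℂ := fun n k => ((k.factorial : ℂ))⁻¹ * iteratedDeriv k (f n) 0 with hcf
  have hcfb : ∀ n k, ‖cf n k‖ ≤ M / r ^ k := by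
    intro n k
    have h1 : ‖iteratedDeriv k (f n) 0‖ ≤ k.factorial * M / r ^ k := by
      refine Complex.norm_iteratedDeriv_le_of_forall_mem_sphere_norm_le k hr0 ?_ ?_
      · refine DifferentiableOn.diffContOnCl ?_
        rw [closure_ball _ hr0.ne']
        exact (hf n).mono hcsub
      · intro z hz
        exact (hb n z (hcsub (Metric.sphere_subset_closedBall hz))).1
    have hk : (0 : ℝ) < k.factorial := by exact_mod_cast Nat.factorial_pos k
    rw [hcf]
    simp only
    rw [norm_mul, norm_inv, Complex.norm_natCast]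
    calc ((k.factorial : ℝ))⁻¹ * ‖iteratedDeriv k (f n) 0‖
        ≤ ((k.factorial : ℝ))⁻¹ * (k.factorial * M / r ^ k) := by gcongr
      _ = M / r ^ k := by field_simp
  have hser : ∀ n, ∀ z ∈ Metric.ball (0 : ℂ) r, f n z = ∑' k, cf n k * z ^ k := by
    intro n z hz
    have h1 := Complex.hasSum_taylorSeries_on_ball (hf n) (hsub hz)
    rw [← h1.tsum_eq]
    refine tsum_congr fun k => ?_
    simp only [hcf, sub_zero, smul_eq_mul]
    ring
  have hM0 : 0 ≤ M := le_trans (norm_nonneg _) (hb 0 0 (Metric.mem_ball_self hR)).1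
  have hsumm : ∀ ρ : ℝ, 0 ≤ ρ → ρ < r → Summable (fun k : ℕ => M / r ^ k * ρ ^ k) := by
    intro ρ h0 h1
    have : Summable (fun k : ℕ => M * (ρ / r) ^ k) :=
      (summable_geometric_of_lt_one (div_nonneg h0 hr0.le) ((div_lt_one hr0).mpr h1)).mul_left M
    refine this.congr fun k => ?_
    rw [div_pow]
    ring
  refine tendsto_of_subseq_tendsto fun ns hns => ?_
  have hK : IsCompact (Set.univ.pi (fun k : ℕ => Metric.closedBall (0 : ℂ) (M / r ^ k))) :=
    isCompact_univ_pi fun k => isCompact_closedBall _ _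
  obtain ⟨a, ha, φ, hφ, hlim⟩ := hK.tendsto_subseq (x := fun n => cf (ns n)) (fun n k _ => by
    rw [Metric.mem_closedBall, dist_zero_right]
    exact hcfb (ns n) k)
  refine ⟨φ, ?_⟩
  have hab : ∀ k, ‖a k‖ ≤ M / r ^ k := by
    intro k
    have := ha k (Set.mem_univ k)
    rwa [Metric.mem_closedBall, dist_zero_right] at this
  set G : ℂ → ℂ := fun z => ∑' k, a k * z ^ k with hG
  have hlimG : ∀ z ∈ Metric.ball (0 : ℂ) r,
      Tendsto (fun n => f (ns (φ n)) z) atTop (𝓝 (G z)) := by
    intro z hz
    have hz' : ‖z‖ < r := by simpa using hz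
    have h1 : (fun n => f (ns (φ n)) z) = fun n => ∑' k, cf (ns (φ n)) k * z ^ k := by
      funext n
      exact hser _ z hz
    rw [h1]
    refine tendsto_tsum_of_dominated_convergence (hsumm ‖z‖ (norm_nonneg _) hz') ?_ ?_
    · intro k
      exact ((tendsto_pi_nhds.mp hlim) k).mul_const _
    · refine Eventually.of_forall fun n k => ?_
      rw [norm_mul, norm_pow]
      exact mul_le_mul_of_nonneg_right (hcfb _ _) (by positivity)
  have hGd : DifferentiableOn ℂ G (Metric.ball 0 r) := by
    intro z hz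
    have hz' : ‖z‖ < r := by simpa using hz
    obtain ⟨ρ, h1, h2⟩ := exists_between hz'
    have hρ0 : 0 ≤ ρ := (norm_nonneg z).trans h1.le
    have h3 : DifferentiableOn ℂ G (Metric.ball 0 ρ) := by
      refine Complex.differentiableOn_tsum_of_summable_norm (hsumm ρ hρ0 h2) ?_
        Metric.isOpen_ball ?_
      · intro k
        exact ((differentiable_id.pow k).const_mul (a k)).differentiableOn
      · intro k w hw
        have hw' : ‖w‖ < ρ := by simpa using hw
        rw [norm_mul, norm_pow]
        exact mul_le_mul (hab k) (pow_le_pow_left₀ (norm_nonneg _) hw'.le k) (by positivity)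
          (by positivity)
    exact (h3.differentiableAt (Metric.isOpen_ball.mem_nhds (by simpa using h1))).differentiableWithinAt
  have hGe : ∀ z ∈ Metric.ball (0 : ℂ) r, G (-z) = G z := by
    intro z hz
    have hz' : -z ∈ Metric.ball (0 : ℂ) r := by simpa using hz
    refine tendsto_nhds_unique (hlimG (-z) hz') ?_
    refine (hlimG z hz).congr fun n => ?_
    exact ((hb _ z (hsub hz)).2).symm
  have hns' : Tendsto (fun n => ns (φ n)) atTop atTop := hns.comp hφ.tendsto_atTop
  have hint : ∀ Y : ℝ → ℝ, Tst Y → (∀ t, R / 2 ≤ |t| → Y t = 0) →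
      ∫ D : ℝ, (G D - F D) * Y D = 0 := by
    intro Y hY hs
    have hYc : Continuous Y := hY.smooth.continuous
    have hi1 : Integrable (fun D : ℝ => G D * Y D) :=
      prod_int hr2 hGd.continuousOn hYc hY.cpt hs
    have hi2 : Integrable (fun D : ℝ => F D * Y D) :=
      prod_int hr2 (hF.continuousOn.mono hsub) hYc hY.cpt hs
    have h1 : Tendsto (fun n => ∫ D : ℝ, f (ns (φ n)) D * Y D) atTop
        (𝓝 (∫ D : ℝ, G D * Y D)) := by
      refine tendsto_integral_of_dominated_convergence (fun D => M * |Y D|) ?_ ?_ ?_ ?_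
      · intro n
        exact (prod_int hr2 ((hf _).continuousOn.mono hsub) hYc hY.cpt hs).aestronglyMeasurable
      · have : Integrable Y := hYc.integrable_of_hasCompactSupport hY.cpt
        exact this.abs.const_mul M
      · intro n
        refine Eventually.of_forall fun D => ?_
        rw [norm_mul, Complex.norm_real, Real.norm_eq_abs]
        by_cases hD : |D| < R / 2
        · refine mul_le_mul_of_nonneg_right (hb _ _ ?_).1 (abs_nonneg _)
          rw [Metric.mem_ball, dist_zero_right, Complex.norm_real, Real.norm_eq_abs]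
          linarith
        · rw [hs D (not_lt.mp hD)]
          simp
      · refine Eventually.of_forall fun D => ?_
        by_cases hD : |D| < R / 2
        · refine (hlimG D ?_).mul_const _
          rw [Metric.mem_ball, dist_zero_right, Complex.norm_real, Real.norm_eq_abs]
          exact hD.trans hr2
        · rw [hs D (not_lt.mp hD)]
          simp
    have h2 : Tendsto (fun n => ∫ D : ℝ, f (ns (φ n)) D * Y D) atTop
        (𝓝 (∫ D : ℝ, F D * Y D)) := (hw Y hY hs).comp hns'
    have h3 := tendsto_nhds_unique h1 h2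
    have h4 : ∫ D : ℝ, (G D - F D) * Y D = (∫ D : ℝ, G D * Y D) - ∫ D : ℝ, F D * Y D := by
      rw [← integral_sub hi1 hi2]
      refine integral_congr_ae (Eventually.of_forall fun D => ?_)
      simp only
      ring
    rw [h4, h3, sub_self]
  have hzero : ∀ t : ℝ, |t| < R / 2 → G t - F t = 0 :=
    uniq (G := fun z => G z - F z) hr2
      (hGd.continuousOn.sub (hF.continuousOn.mono hsub))
      (fun z hz => by
        show G (-z) - F (-z) = G z - F z
        rw [hGe z hz, hFe z (hsub hz)]) hint
  have hEq : EqOn G F (Metric.ball 0 r) := by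
    refine AnalyticOnNhd.eqOn_of_preconnected_of_frequently_eq
      (hGd.analyticOnNhd Metric.isOpen_ball)
      ((hF.mono hsub).analyticOnNhd Metric.isOpen_ball)
      (convex_ball (0 : ℂ) r).isPreconnected (Metric.mem_ball_self hr0) ?_
    have h1 : Tendsto (fun n : ℕ => ((R / 2 * ((n : ℝ) + 2)⁻¹ : ℝ) : ℂ)) atTop (𝓝[≠] 0) := by
      rw [tendsto_nhdsWithin_iff]
      constructor
      · rw [show (0 : ℂ) = ((R / 2 * 0 : ℝ) : ℂ) by simp]
        refine (Complex.continuous_ofReal.tendsto _).comp ?_
        refine Tendsto.const_mul _ ?_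
        exact tendsto_inv_atTop_zero.comp (tendsto_atTop_add_const_right _ _
          tendsto_natCast_atTop_atTop)
      · refine Eventually.of_forall fun n => ?_
        rw [Set.mem_compl_iff, Set.mem_singleton_iff, Complex.ofReal_eq_zero]
        positivity
    refine h1.frequently (Frequently.of_forall fun n => ?_)
    have h2 : |R / 2 * ((n : ℝ) + 2)⁻¹| < R / 2 := by
      rw [abs_of_pos (by positivity)]
      have h3 : ((n : ℝ) + 2)⁻¹ < 1 := inv_lt_one_of_one_lt₀ (by
        have : (0 : ℝ) ≤ n := Nat.cast_nonneg n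
        linarith)
      calc R / 2 * ((n : ℝ) + 2)⁻¹ < R / 2 * 1 := by
            apply mul_lt_mul_of_pos_left h3; linarith
        _ = R / 2 := mul_one _
    exact sub_eq_zero.mp (hzero _ h2)
  have hz₀r : z₀ ∈ Metric.ball (0 : ℂ) r := by simpa using hrz
  rw [← hEq hz₀r]
  exact hlimG z₀ hz₀r

end FMZ
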