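import Pool.Agent.FMZ.TZ

/-!
# FMZ-Z4: comparison of j with the model kernel
-/

open Complex MeasureTheory Set Filter Topology

namespace FMZ
namespace ZERR_

/-- the dominating weight -/
noncomputable def wt (v : ℝ) : ℝ := if |v| ≤ 1 then |v| ^ (-(15 / 16) : ℝ) else (v ^ 2)⁻¹

lemma wt_nonneg (v : ℝ) : 0 ≤ wt v := by
  unfold wt
  split_ifs
  · positivity
  · positivity

lemma wt_neg (v : ℝ) : wt (-v) = wt v := by simp [wt]

lemma wt_intOn : IntegrableOn wt (Ioi 0) := by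
  have h1 : IntegrableOn wt (Ioc 0 1) := by
    have h : IntegrableOn (fun x : ℝ => x ^ (-(15 / 16) : ℝ)) (Ioc 0 1) :=
      (intervalIntegral.intervalIntegrable_rpow' (by norm_num)).1
    refine h.congr_fun ?_ measurableSet_Ioc
    intro x hx
    simp only [wt]
    rw [abs_of_pos hx.1, if_pos hx.2]
  have h2 : IntegrableOn wt (Ioi 1) := by
    have h : IntegrableOn (fun x : ℝ => x ^ (-2 : ℝ)) (Ioi 1) :=
      integrableOn_Ioi_rpow_of_lt (by norm_num) one_pos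
    refine h.congr_fun ?_ measurableSet_Ioi
    intro x hx
    simp only [wt]
    have hx0 : (0 : ℝ) < x := lt_trans one_pos hx
    rw [abs_of_pos hx0, if_neg (not_le.mpr hx)]
    rw [Real.rpow_neg hx0.le]
    norm_cast
  have := h1.union h2
  rwa [Ioc_union_Ioi_eq_Ioi zero_le_one] at this

lemma wt_int : Integrable wt := by
  have h1 := wt_intOn
  have h2 : IntegrableOn wt (Iic 0) := by
    have h0 : IntegrableOn wt (Ioi (-0)) := by rw [neg_zero]; exact h1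
    have h3 : IntegrableOn (fun x => wt (-x)) (Iio 0) := h0.comp_neg_Iio
    have h4 : IntegrableOn wt (Iio 0) := by
      simpa only [wt_neg] using h3
    exact Iff.mpr integrableOn_Iic_iff_integrableOn_Iio h4
  have := h2.union h1
  rwa [Iic_union_Ioi, integrableOn_univ] at this

/-! ### hyperbolic bounds -/

lemma sinh_sq_ge (y : ℝ) : y ^ 2 ≤ Real.sinh y ^ 2 := by
  have h1 : |y| ≤ |Real.sinh y| := by
    rw [Real.abs_sinh]
    have h0 : (0 : ℝ) ≤ |y| := abs_nonneg y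
    exact Real.self_le_sinh_iff.mpr h0
  exact sq_le_sq.mpr h1

lemma cosh_lb2 (x : ℝ) : 1 + x ^ 2 / 2 ≤ Real.cosh x := by
  have e : Real.cosh x = 1 + 2 * Real.sinh (x / 2) ^ 2 := by
    have h1 := Real.cosh_two_mul (x / 2)
    have h2 := Real.cosh_sq' (x / 2)
    rw [show 2 * (x / 2) = x by ring] at h1
    rw [h1, h2]; ring
  have := sinh_sq_ge (x / 2)
  rw [e]; nlinarith

lemma cosh_lb4 (v : ℝ) : 1 + v ^ 2 / 2 + v ^ 4 / 32 ≤ Real.cosh v := by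
  have h1 := Real.cosh_two_mul (v / 2)
  have h2 := Real.cosh_sq' (v / 2)
  rw [show 2 * (v / 2) = v by ring] at h1
  have h3 := cosh_lb2 (v / 2)
  have h4 : Real.cosh v = 2 * Real.cosh (v / 2) ^ 2 - 1 := by rw [h1, h2]; ring
  have h5 : (1 + (v / 2) ^ 2 / 2) ^ 2 ≤ Real.cosh (v / 2) ^ 2 :=
    pow_le_pow_left₀ (by positivity) h3 2
  rw [h4]; nlinarith

lemma cosh_ub (v : ℝ) (hv : |v| ≤ 1) : Real.cosh v - 1 - v ^ 2 / 2 ≤ v ^ 4 ∧
    0 ≤ Real.cosh v - 1 - v ^ 2 / 2 ∧ 0 ≤ Real.cosh v - 1 ∧ Real.cosh v - 1 ≤ v ^ 2 ∧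
    Real.cosh v ≤ 2 := by
  have hv2 : v ^ 2 ≤ 1 := by rw [← sq_abs]; exact pow_le_one₀ (abs_nonneg v) hv
  have h1 := Real.cosh_le_exp_half_sq v
  have h2 : |Real.exp (v ^ 2 / 2) - 1 - v ^ 2 / 2| ≤ (v ^ 2 / 2) ^ 2 := by
    apply Real.abs_exp_sub_one_sub_id_le
    rw [abs_of_nonneg (by positivity)]; linarith
  have h3 := (abs_le.mp h2).2
  have h4 := cosh_lb2 v
  have h5 : 0 ≤ v ^ 2 := sq_nonneg v
  refine ⟨by nlinarith, by linarith, by linarith, by nlinarith, by nlinarith⟩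

lemma sinh_ub (v : ℝ) (hv : |v| ≤ 1) : |Real.sinh v - v| ≤ |v| ^ 3 ∧ |Real.sinh v| ≤ 2 * |v| := by
  have hb : ∀ x : ℝ, |x| ≤ 1 → |Real.exp x - (1 + x + x ^ 2 / 2)| ≤ |x| ^ 3 * (2 / 9) := by
    intro x hx
    have h := Real.exp_bound hx (n := 3) (by norm_num)
    simp only [Finset.sum_range_succ, Finset.sum_range_zero] at h
    norm_num [Nat.factorial] at h
    convert h using 2
  have h1 := hb v hv
  have h2 := hb (-v) (by rwa [abs_neg])
  rw [abs_neg] at h2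
  have e : Real.sinh v - v = ((Real.exp v - (1 + v + v ^ 2 / 2)) -
      (Real.exp (-v) - (1 + -v + (-v) ^ 2 / 2))) / 2 := by
    rw [Real.sinh_eq]; ring
  have h3 : |Real.sinh v - v| ≤ |v| ^ 3 := by
    rw [e, abs_div, abs_two]
    have := abs_sub (Real.exp v - (1 + v + v ^ 2 / 2)) (Real.exp (-v) - (1 + -v + (-v) ^ 2 / 2))
    have h0 : 0 ≤ |v| ^ 3 := by positivity
    linarith
  refine ⟨h3, ?_⟩
  have h4 : |v| ^ 3 ≤ |v| := by
    calc |v| ^ 3 ≤ |v| ^ 1 := pow_le_pow_of_le_one (abs_nonneg v) hv (by norm_num)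
      _ = |v| := pow_one _
  calc |Real.sinh v| = |(Real.sinh v - v) + v| := by ring_nf
    _ ≤ |Real.sinh v - v| + |v| := abs_add_le _ _
    _ ≤ 2 * |v| := by linarith

/-! ### powers -/

lemma rpow_neg_mono {x y r : ℝ} (hx : 0 < x) (hxy : x ≤ y) (hr : r ≤ 0) : y ^ r ≤ x ^ r :=
  Real.rpow_le_rpow_of_nonpos hx hxy hr

lemma norm_cpow_r (z : ℂ) (r : ℝ) : ‖z ^ ((r : ℝ) : ℂ)‖ = ‖z‖ ^ r := Complex.norm_cpow_real z r

lemma norm_cpow_le {z : ℂ} {μ r : ℝ} (hμ : 0 < μ) (hz : μ ≤ ‖z‖) (hr : r ≤ 0) :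
    ‖z ^ ((r : ℝ) : ℂ)‖ ≤ μ ^ r := by
  rw [norm_cpow_r]; exact rpow_neg_mono hμ hz hr

lemma slit_of_re {z : ℂ} {μ : ℝ} (hμ : 0 < μ) (hz : μ ≤ z.re) : z ∈ slitPlane :=
  Or.inl (lt_of_lt_of_le hμ hz)

/-- difference of powers in a half plane -/
lemma cpow_diff {G K : ℂ} {μ r : ℝ} (hμ : 0 < μ) (hr : 0 < r) (hG : μ ≤ G.re) (hK : μ ≤ K.re) :
    ‖G ^ ((-r : ℝ) : ℂ) - K ^ ((-r : ℝ) : ℂ)‖ ≤ r * μ ^ (-r - 1) * ‖G - K‖ := by
  have hconv : Convex ℝ {z : ℂ | μ ≤ z.re} := convex_halfSpace_re_ge μ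
  refine Convex.norm_image_sub_le_of_norm_hasDerivWithin_le
    (f := fun z : ℂ => z ^ ((-r : ℝ) : ℂ)) (f' := fun z => ((-r : ℝ) : ℂ) * z ^ (((-r : ℝ) : ℂ) - 1))
    (s := {z : ℂ | μ ≤ z.re}) ?_ ?_ hconv hK hG
  · intro z hz
    have h := (hasDerivAt_id z).cpow_const (c := ((-r : ℝ) : ℂ)) (slit_of_re hμ hz)
    simp only [id, mul_one] at h
    exact h.hasDerivWithinAt
  · intro z hz
    rw [norm_mul]
    have e1 : ((-r : ℝ) : ℂ) - 1 = ((-r - 1 : ℝ) : ℂ) := by push_cast; ring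
    rw [e1]
    have h1 : ‖((-r : ℝ) : ℂ)‖ = r := by
      rw [Complex.norm_real, Real.norm_eq_abs, abs_neg, abs_of_pos hr]
    rw [h1]
    apply mul_le_mul_of_nonneg_left _ hr.le
    apply norm_cpow_le hμ (le_trans hz (Complex.re_le_norm z)) (by linarith)

/-! ### second derivatives of inverse square roots -/

/-- second derivative of G^(-1/2) -/
noncomputable def S2 (G G1 G2 : ℂ) : ℂ :=
  3 / 4 * G ^ (-(5 / 2) : ℂ) * G1 ^ 2 - 1 / 2 * G ^ (-(3 / 2) : ℂ) * G2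

lemma c52 : (-(5 / 2) : ℂ) = ((-(5 / 2) : ℝ) : ℂ) := by push_cast; ring
lemma c32 : (-(3 / 2) : ℂ) = ((-(3 / 2) : ℝ) : ℂ) := by push_cast; ring
lemma c12 : (-(1 / 2) : ℂ) = ((-(1 / 2) : ℝ) : ℂ) := by push_cast; ring

lemma pow_facts {k Q : ℝ} (hk : 0 < k) (hk1 : k ≤ 1) (hQ : 0 < Q) :
    (k * Q) ^ (-(7 / 2) : ℝ) * Q ^ 3 = k ^ (-(7 / 2) : ℝ) * Q ^ (-(1 / 2) : ℝ) ∧
    (k * Q) ^ (-(5 / 2) : ℝ) * Q ^ 2 ≤ k ^ (-(7 / 2) : ℝ) * Q ^ (-(1 / 2) : ℝ) ∧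
    (k * Q) ^ (-(3 / 2) : ℝ) * Q ≤ k ^ (-(7 / 2) : ℝ) * Q ^ (-(1 / 2) : ℝ) := by
  have e7 : Q ^ (-(7 / 2) : ℝ) * Q ^ 3 = Q ^ (-(1 / 2) : ℝ) := by
    rw [← Real.rpow_natCast, ← Real.rpow_add hQ]; norm_num
  have e5 : Q ^ (-(5 / 2) : ℝ) * Q ^ 2 = Q ^ (-(1 / 2) : ℝ) := by
    rw [← Real.rpow_natCast, ← Real.rpow_add hQ]; norm_num
  have e3 : Q ^ (-(3 / 2) : ℝ) * Q = Q ^ (-(1 / 2) : ℝ) := by
    conv_lhs => rw [show Q ^ (-(3 / 2) : ℝ) * Q = Q ^ (-(3 / 2) : ℝ) * Q ^ (1 : ℝ) by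
      rw [Real.rpow_one]]
    rw [← Real.rpow_add hQ]; norm_num
  have hq : 0 ≤ Q ^ (-(1 / 2) : ℝ) := Real.rpow_nonneg hQ.le _
  refine ⟨?_, ?_, ?_⟩
  · rw [Real.mul_rpow hk.le hQ.le, mul_assoc, e7]
  · rw [Real.mul_rpow hk.le hQ.le, mul_assoc, e5]
    exact mul_le_mul_of_nonneg_right
      (Real.rpow_le_rpow_of_exponent_ge hk hk1 (by norm_num)) hq
  · rw [Real.mul_rpow hk.le hQ.le, mul_assoc, e3]
    exact mul_le_mul_of_nonneg_right
      (Real.rpow_le_rpow_of_exponent_ge hk hk1 (by norm_num)) hq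

lemma S2_bound {G G1 G2 : ℂ} {k Q r : ℝ} (hk : 0 < k) (hk1 : k ≤ 1) (hQ : 0 < Q) (hr : 0 ≤ r)
    (hG : k * Q ≤ ‖G‖) (h1 : ‖G1‖ ^ 2 ≤ 4 * Q ^ 2 * r) (h2 : ‖G2‖ ≤ 2 * Q * r) :
    ‖S2 G G1 G2‖ ≤ 4 * k ^ (-(7 / 2) : ℝ) * Q ^ (-(1 / 2) : ℝ) * r := by
  obtain ⟨-, f5, f3⟩ := pow_facts hk hk1 hQ
  set W := k ^ (-(7 / 2) : ℝ) * Q ^ (-(1 / 2) : ℝ) with hW
  have hP : 0 < k * Q := mul_pos hk hQ
  have b5 : ‖G ^ (-(5 / 2) : ℂ)‖ ≤ (k * Q) ^ (-(5 / 2) : ℝ) := by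
    rw [c52]; exact norm_cpow_le hP hG (by norm_num)
  have b3 : ‖G ^ (-(3 / 2) : ℂ)‖ ≤ (k * Q) ^ (-(3 / 2) : ℝ) := by
    rw [c32]; exact norm_cpow_le hP hG (by norm_num)
  have p5 : 0 ≤ (k * Q) ^ (-(5 / 2) : ℝ) := Real.rpow_nonneg hP.le _
  have p3 : 0 ≤ (k * Q) ^ (-(3 / 2) : ℝ) := Real.rpow_nonneg hP.le _
  have t1 : ‖3 / 4 * G ^ (-(5 / 2) : ℂ) * G1 ^ 2‖ ≤ 3 * W * r := by
    rw [norm_mul, norm_mul, norm_pow]
    have : ‖(3 / 4 : ℂ)‖ = 3 / 4 := by norm_num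
    rw [this]
    calc 3 / 4 * ‖G ^ (-(5 / 2) : ℂ)‖ * ‖G1‖ ^ 2
        ≤ 3 / 4 * (k * Q) ^ (-(5 / 2) : ℝ) * (4 * Q ^ 2 * r) := by gcongr
      _ = 3 * ((k * Q) ^ (-(5 / 2) : ℝ) * Q ^ 2) * r := by ring
      _ ≤ 3 * W * r := by gcongr
  have t2 : ‖1 / 2 * G ^ (-(3 / 2) : ℂ) * G2‖ ≤ W * r := by
    rw [norm_mul, norm_mul]
    have : ‖(1 / 2 : ℂ)‖ = 1 / 2 := by norm_num
    rw [this]
    calc 1 / 2 * ‖G ^ (-(3 / 2) : ℂ)‖ * ‖G2‖
        ≤ 1 / 2 * (k * Q) ^ (-(3 / 2) : ℝ) * (2 * Q * r) := by gcongr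
      _ = ((k * Q) ^ (-(3 / 2) : ℝ) * Q) * r := by ring
      _ ≤ W * r := by gcongr
  unfold S2
  calc ‖3 / 4 * G ^ (-(5 / 2) : ℂ) * G1 ^ 2 - 1 / 2 * G ^ (-(3 / 2) : ℂ) * G2‖
      ≤ ‖3 / 4 * G ^ (-(5 / 2) : ℂ) * G1 ^ 2‖ + ‖1 / 2 * G ^ (-(3 / 2) : ℂ) * G2‖ := norm_sub_le _ _
    _ ≤ 3 * W * r + W * r := add_le_add t1 t2
    _ = 4 * k ^ (-(7 / 2) : ℝ) * Q ^ (-(1 / 2) : ℝ) * r := by rw [hW]; ring

lemma S2_diff {G K G1 K1 G2 K2 : ℂ} {k Q E v : ℝ} (hk : 0 < k) (hk1 : k ≤ 1) (hQ : 0 < Q)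
    (hE : 0 ≤ E) (hG : k * Q ≤ G.re) (hK : k * Q ≤ K.re) (h0 : ‖G - K‖ ≤ v ^ 2 * Q)
    (h1 : ‖G1 - K1‖ ≤ 2 * |v| * Q) (h2 : ‖G2 - K2‖ ≤ 2 * Q) (g1 : ‖G1‖ ≤ 4 * E * |v|)
    (k1 : ‖K1‖ ≤ E * |v|) (g2 : ‖G2‖ ≤ 4 * E) (hEQ : E * v ^ 2 ≤ Q) :
    ‖S2 G G1 G2 - S2 K K1 K2‖ ≤ 42 * k ^ (-(7 / 2) : ℝ) * Q ^ (-(1 / 2) : ℝ) := by
  obtain ⟨f7, f5, f3⟩ := pow_facts hk hk1 hQ
  set W := k ^ (-(7 / 2) : ℝ) * Q ^ (-(1 / 2) : ℝ) with hW
  have hP : 0 < k * Q := mul_pos hk hQ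
  have hW0 : 0 ≤ W := mul_nonneg (Real.rpow_nonneg hk.le _) (Real.rpow_nonneg hQ.le _)
  have hEv : 0 ≤ E * v ^ 2 := by positivity
  have hA : ‖G ^ (-(5 / 2) : ℂ) - K ^ (-(5 / 2) : ℂ)‖ ≤
      5 / 2 * (k * Q) ^ (-(7 / 2) : ℝ) * (v ^ 2 * Q) := by
    have h := cpow_diff hP (show (0 : ℝ) < 5 / 2 by norm_num) hG hK
    rw [show -(5 / 2 : ℝ) - 1 = -(7 / 2) by norm_num] at h
    rw [c52]
    refine h.trans ?_
    gcongr
  have hC : ‖G ^ (-(3 / 2) : ℂ) - K ^ (-(3 / 2) : ℂ)‖ ≤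
      3 / 2 * (k * Q) ^ (-(5 / 2) : ℝ) * (v ^ 2 * Q) := by
    have h := cpow_diff hP (show (0 : ℝ) < 3 / 2 by norm_num) hG hK
    rw [show -(3 / 2 : ℝ) - 1 = -(5 / 2) by norm_num] at h
    rw [c32]
    refine h.trans ?_
    gcongr
  have hB : ‖K ^ (-(5 / 2) : ℂ)‖ ≤ (k * Q) ^ (-(5 / 2) : ℝ) := by
    rw [c52]; exact norm_cpow_le hP (hK.trans (Complex.re_le_norm K)) (by norm_num)
  have hD : ‖K ^ (-(3 / 2) : ℂ)‖ ≤ (k * Q) ^ (-(3 / 2) : ℝ) := by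
    rw [c32]; exact norm_cpow_le hP (hK.trans (Complex.re_le_norm K)) (by norm_num)
  have p7 : 0 ≤ (k * Q) ^ (-(7 / 2) : ℝ) := Real.rpow_nonneg hP.le _
  have p5 : 0 ≤ (k * Q) ^ (-(5 / 2) : ℝ) := Real.rpow_nonneg hP.le _
  have p3 : 0 ≤ (k * Q) ^ (-(3 / 2) : ℝ) := Real.rpow_nonneg hP.le _
  have hEQ2 : (E * v ^ 2) ^ 2 ≤ Q ^ 2 := pow_le_pow_left₀ hEv hEQ 2
  have t1 : ‖(G ^ (-(5 / 2) : ℂ) - K ^ (-(5 / 2) : ℂ)) * G1 ^ 2‖ ≤ 40 * W := by
    rw [norm_mul, norm_pow]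
    calc ‖G ^ (-(5 / 2) : ℂ) - K ^ (-(5 / 2) : ℂ)‖ * ‖G1‖ ^ 2
        ≤ (5 / 2 * (k * Q) ^ (-(7 / 2) : ℝ) * (v ^ 2 * Q)) * (4 * E * |v|) ^ 2 := by gcongr
      _ = 40 * ((k * Q) ^ (-(7 / 2) : ℝ) * Q) * (E * v ^ 2) ^ 2 := by
          rw [mul_pow, sq_abs]; ring
      _ ≤ 40 * ((k * Q) ^ (-(7 / 2) : ℝ) * Q) * Q ^ 2 := by gcongr
      _ = 40 * ((k * Q) ^ (-(7 / 2) : ℝ) * Q ^ 3) := by ring
      _ = 40 * W := by rw [f7]
  have t2 : ‖K ^ (-(5 / 2) : ℂ) * ((G1 - K1) * (G1 + K1))‖ ≤ 10 * W := by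
    rw [norm_mul, norm_mul]
    have hs : ‖G1 + K1‖ ≤ 5 * E * |v| := by
      calc ‖G1 + K1‖ ≤ ‖G1‖ + ‖K1‖ := norm_add_le _ _
        _ ≤ 4 * E * |v| + E * |v| := add_le_add g1 k1
        _ = 5 * E * |v| := by ring
    calc ‖K ^ (-(5 / 2) : ℂ)‖ * (‖G1 - K1‖ * ‖G1 + K1‖)
        ≤ (k * Q) ^ (-(5 / 2) : ℝ) * ((2 * |v| * Q) * (5 * E * |v|)) := by gcongr
      _ = 10 * ((k * Q) ^ (-(5 / 2) : ℝ) * Q) * (E * |v| ^ 2) := by ring
      _ = 10 * ((k * Q) ^ (-(5 / 2) : ℝ) * Q) * (E * v ^ 2) := by rw [sq_abs]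
      _ ≤ 10 * ((k * Q) ^ (-(5 / 2) : ℝ) * Q) * Q := by gcongr
      _ = 10 * ((k * Q) ^ (-(5 / 2) : ℝ) * Q ^ 2) := by ring
      _ ≤ 10 * W := by gcongr
  have t3 : ‖(G ^ (-(3 / 2) : ℂ) - K ^ (-(3 / 2) : ℂ)) * G2‖ ≤ 6 * W := by
    rw [norm_mul]
    calc ‖G ^ (-(3 / 2) : ℂ) - K ^ (-(3 / 2) : ℂ)‖ * ‖G2‖
        ≤ (3 / 2 * (k * Q) ^ (-(5 / 2) : ℝ) * (v ^ 2 * Q)) * (4 * E) := by gcongr
      _ = 6 * ((k * Q) ^ (-(5 / 2) : ℝ) * Q) * (E * v ^ 2) := by ring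
      _ ≤ 6 * ((k * Q) ^ (-(5 / 2) : ℝ) * Q) * Q := by gcongr
      _ = 6 * ((k * Q) ^ (-(5 / 2) : ℝ) * Q ^ 2) := by ring
      _ ≤ 6 * W := by gcongr
  have t4 : ‖K ^ (-(3 / 2) : ℂ) * (G2 - K2)‖ ≤ 2 * W := by
    rw [norm_mul]
    calc ‖K ^ (-(3 / 2) : ℂ)‖ * ‖G2 - K2‖
        ≤ (k * Q) ^ (-(3 / 2) : ℝ) * (2 * Q) := by gcongr
      _ = 2 * ((k * Q) ^ (-(3 / 2) : ℝ) * Q) := by ring
      _ ≤ 2 * W := by gcongr
  have e : S2 G G1 G2 - S2 K K1 K2 =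
      3 / 4 * ((G ^ (-(5 / 2) : ℂ) - K ^ (-(5 / 2) : ℂ)) * G1 ^ 2) +
      3 / 4 * (K ^ (-(5 / 2) : ℂ) * ((G1 - K1) * (G1 + K1))) +
      -(1 / 2) * ((G ^ (-(3 / 2) : ℂ) - K ^ (-(3 / 2) : ℂ)) * G2) +
      -(1 / 2) * (K ^ (-(3 / 2) : ℂ) * (G2 - K2)) := by
    unfold S2; ring
  rw [e]
  refine (norm_add₄_le).trans ?_
  rw [norm_mul (3 / 4 : ℂ), norm_mul (3 / 4 : ℂ), norm_mul (-(1 / 2) : ℂ), norm_mul (-(1 / 2) : ℂ)]
  have n1 : ‖(3 / 4 : ℂ)‖ = 3 / 4 := by norm_num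
  have n2 : ‖(-(1 / 2) : ℂ)‖ = 1 / 2 := by norm_num
  rw [n1, n2]
  calc _ ≤ 3 / 4 * (40 * W) + 3 / 4 * (10 * W) + 1 / 2 * (6 * W) + 1 / 2 * (2 * W) := by gcongr
    _ ≤ 42 * W := by linarith
    _ = _ := by rw [hW]; ring

/-! ### geometry of g₊, g₋ and of the quadratic model -/

/-- the model of 2 g₋ -/
noncomputable def Kq (v : ℝ) (d : ℂ) : ℂ := 1 / 2 * Complex.exp d * v ^ 2 + 2 * Complex.exp (-d)

lemma two_gp (v : ℝ) (d : ℂ) : 2 * gp v d =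
    Complex.exp d * ((Real.cosh v + 1 : ℝ) : ℂ) + Complex.exp (-d) * ((Real.cosh v - 1 : ℝ) : ℂ) := by
  unfold gp
  rw [Complex.cosh, Complex.sinh]; push_cast; ring

lemma two_gm (v : ℝ) (d : ℂ) : 2 * gm v d =
    Complex.exp (-d) * ((Real.cosh v + 1 : ℝ) : ℂ) + Complex.exp d * ((Real.cosh v - 1 : ℝ) : ℂ) := by
  unfold gm
  rw [Complex.cosh, Complex.sinh]; push_cast; ring

lemma Kq_eq (v : ℝ) (d : ℂ) : Kq v d =
    Complex.exp (-d) * ((2 : ℝ) : ℂ) + Complex.exp d * ((v ^ 2 / 2 : ℝ) : ℂ) := by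
  unfold Kq; push_cast; ring

lemma comb_re (d : ℂ) (P N : ℝ) :
    (Complex.exp (-d) * (P : ℂ) + Complex.exp d * (N : ℂ)).re =
      Real.cos d.im * (Real.exp (-d.re) * P + Real.exp d.re * N) := by
  rw [Complex.add_re, Complex.re_mul_ofReal, Complex.re_mul_ofReal, Complex.exp_re, Complex.exp_re]
  simp only [Complex.neg_re, Complex.neg_im, Real.cos_neg]
  ring

lemma comb_lb {d : ℂ} {b P N : ℝ} (hb : b < Real.pi / 2) (hd : |d.im| ≤ b) (hP : 0 ≤ P)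
    (hN : 0 ≤ N) : Real.cos b * (Real.exp (-d.re) * P + Real.exp d.re * N) ≤
      (Complex.exp (-d) * (P : ℂ) + Complex.exp d * (N : ℂ)).re := by
  rw [comb_re]
  apply mul_le_mul_of_nonneg_right _ (by positivity)
  rw [← Real.cos_abs d.im]
  exact Real.cos_le_cos_of_nonneg_of_le_pi (abs_nonneg _) (by linarith [Real.pi_pos]) hd

lemma norm_exp_d (d : ℂ) : ‖Complex.exp d‖ = Real.exp d.re := Complex.norm_exp d

lemma comb_ub (d : ℂ) (P N : ℝ) :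
    ‖Complex.exp (-d) * (P : ℂ) + Complex.exp d * (N : ℂ)‖ ≤
      Real.exp (-d.re) * |P| + Real.exp d.re * |N| := by
  refine (norm_add_le _ _).trans ?_
  rw [norm_mul, norm_mul, norm_exp_d, norm_exp_d, Complex.neg_re, Complex.norm_real,
    Complex.norm_real, Real.norm_eq_abs, Real.norm_eq_abs]

lemma norm_two_cosh {d : ℂ} (hd : 0 ≤ d.re) : ‖2 * Complex.cosh d‖ ≤ 2 * Real.exp d.re := by
  have e : 2 * Complex.cosh d = Complex.exp (-d) * ((1 : ℝ) : ℂ) + Complex.exp d * ((1 : ℝ) : ℂ) := by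
    rw [Complex.cosh]; push_cast; ring
  rw [e]
  refine (comb_ub d 1 1).trans ?_
  have : Real.exp (-d.re) ≤ Real.exp d.re := Real.exp_le_exp.mpr (by linarith)
  rw [abs_one]; linarith

/-- Q1: |v| ≤ 1 -/
lemma Q1 {a v : ℝ} (hv : v ≠ 0) :
    (Real.exp a * v ^ 2 + Real.exp (-a)) ^ (-(1 / 2) : ℝ) ≤
      Real.exp (-(7 / 16 * a)) * |v| ^ (-(15 / 16) : ℝ) := by
  have hv0 : 0 < |v| := abs_pos.mpr hv
  have h := Real.geom_mean_le_arith_mean2_weighted (w₁ := 15 / 16) (w₂ := 1 / 16)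
    (p₁ := Real.exp a * v ^ 2) (p₂ := Real.exp (-a)) (by norm_num) (by norm_num) (by positivity)
    (by positivity) (by norm_num)
  have h2 : (Real.exp a * v ^ 2) ^ (15 / 16 : ℝ) * Real.exp (-a) ^ (1 / 16 : ℝ) ≤
      Real.exp a * v ^ 2 + Real.exp (-a) := by
    refine h.trans ?_
    have h3 : 0 ≤ Real.exp a * v ^ 2 := by positivity
    have h4 : 0 ≤ Real.exp (-a) := by positivity
    linarith
  have h5 : 0 < (Real.exp a * v ^ 2) ^ (15 / 16 : ℝ) * Real.exp (-a) ^ (1 / 16 : ℝ) := by positivity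
  refine (rpow_neg_mono h5 h2 (by norm_num)).trans (le_of_eq ?_)
  have hv2 : v ^ 2 = Real.exp (2 * Real.log |v|) := by
    rw [two_mul, Real.exp_add, Real.exp_log hv0, ← sq_abs]; ring
  rw [hv2, ← Real.exp_add, Real.rpow_def_of_pos (Real.exp_pos _), Real.log_exp,
    Real.rpow_def_of_pos (Real.exp_pos _), Real.log_exp, ← Real.exp_add,
    Real.rpow_def_of_pos (Real.exp_pos _), Real.log_exp, Real.rpow_def_of_pos hv0, ← Real.exp_add]
  congr 1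
  ring

/-- Q2: all v -/
lemma Q2 {a v : ℝ} (ha : 0 ≤ a) (hv : v ≠ 0) :
    (Real.exp a * Real.cosh v) ^ (-(1 / 2) : ℝ) ≤ 6 * (Real.exp (-(7 / 16 * a)) * wt v) := by
  have hv0 : 0 < |v| := abs_pos.mpr hv
  have he : Real.exp a ^ (-(1 / 2) : ℝ) ≤ Real.exp (-(7 / 16 * a)) := by
    rw [Real.rpow_def_of_pos (Real.exp_pos _), Real.log_exp]
    apply Real.exp_le_exp.mpr; linarith
  have hc : 0 < Real.cosh v := Real.cosh_pos v
  rw [Real.mul_rpow (Real.exp_pos a).le hc.le]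
  have hw := wt_nonneg v
  have hcw : Real.cosh v ^ (-(1 / 2) : ℝ) ≤ 6 * wt v := by
    by_cases h1 : |v| ≤ 1
    · have e1 : wt v = |v| ^ (-(15 / 16) : ℝ) := by simp only [wt, if_pos h1]
      have e2 : 1 ≤ |v| ^ (-(15 / 16) : ℝ) :=
        Real.one_le_rpow_of_pos_of_le_one_of_nonpos hv0 h1 (by norm_num)
      have e3 : Real.cosh v ^ (-(1 / 2) : ℝ) ≤ 1 :=
        Real.rpow_le_one_of_one_le_of_nonpos (Real.one_le_cosh v) (by norm_num)
      rw [e1]; linarith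
    · have e1 : wt v = (v ^ 2)⁻¹ := by simp only [wt, if_neg h1]
      have h4 := cosh_lb4 v
      have h5 : 0 < v ^ 4 / 32 := by positivity
      have h6 : v ^ 4 / 36 ≤ Real.cosh v := by nlinarith [sq_nonneg v]
      have h7 : 0 < v ^ 4 / 36 := by positivity
      rw [e1]
      refine (rpow_neg_mono h7 h6 (by norm_num)).trans (le_of_eq ?_)
      have e4 : v ^ 4 / 36 = (v ^ 2 / 6) ^ 2 := by ring
      rw [e4, ← Real.rpow_natCast, ← Real.rpow_mul (by positivity)]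
      norm_num
      rw [Real.rpow_neg_one]
      field_simp
  calc Real.exp a ^ (-(1 / 2) : ℝ) * Real.cosh v ^ (-(1 / 2) : ℝ)
      ≤ Real.exp (-(7 / 16 * a)) * (6 * wt v) := by
        apply mul_le_mul he hcw (Real.rpow_nonneg hc.le _) (Real.exp_pos _).le
    _ = _ := by ring

/-- second derivative of the model -/
noncomputable def k2 (v : ℝ) (d : ℂ) : ℂ := S2 (Kq v d) (Complex.exp d * v) (Complex.exp d)

lemma ph2_eq (v : ℝ) (d : ℂ) : ph2 v d =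
    S2 (2 * gp v d) (2 * Complex.cosh d * Real.sinh v) (2 * Complex.cosh d * Real.cosh v) +
    S2 (2 * gm v d) (2 * Complex.cosh d * Real.sinh v) (2 * Complex.cosh d * Real.cosh v) := rfl

lemma abs_sinh_le_cosh (v : ℝ) : |Real.sinh v| ≤ Real.cosh v := by
  apply abs_le_of_sq_le_sq _ (Real.cosh_pos v).le
  have := Real.cosh_sq' v
  linarith

section pw

variable {b v : ℝ} {d : ℂ}

lemma gp_lb (hb : b < Real.pi / 2) (hd : |d.im| ≤ b) :
    Real.cos b / 4 * (Real.exp d.re * Real.cosh v) ≤ (2 * gp v d).re := by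
  have hb0 : 0 ≤ b := (abs_nonneg _).trans hd
  have hc : 0 ≤ Real.cos b := Real.cos_nonneg_of_neg_pi_div_two_le_of_le (by linarith [Real.pi_pos]) hb.le
  have h1 := Real.one_le_cosh v
  have h := comb_lb (P := Real.cosh v - 1) (N := Real.cosh v + 1) hb hd (by linarith) (by linarith)
  rw [two_gp, add_comm]
  refine le_trans ?_ h
  have h2 : 0 ≤ Real.exp (-d.re) * (Real.cosh v - 1) := mul_nonneg (Real.exp_pos _).le (by linarith)
  have h3 : 0 ≤ Real.exp d.re * Real.cosh v := by positivity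
  have h4 : 0 ≤ Real.exp d.re := by positivity
  rw [div_mul_eq_mul_div, mul_div_assoc]
  apply mul_le_mul_of_nonneg_left _ hc
  nlinarith

lemma gm_lb_small (hb : b < Real.pi / 2) (hd : |d.im| ≤ b) :
    Real.cos b / 4 * (Real.exp d.re * v ^ 2 + Real.exp (-d.re)) ≤ (2 * gm v d).re := by
  have hb0 : 0 ≤ b := (abs_nonneg _).trans hd
  have hc : 0 ≤ Real.cos b := Real.cos_nonneg_of_neg_pi_div_two_le_of_le (by linarith [Real.pi_pos]) hb.le
  have h1 := cosh_lb2 v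
  have h1' : 0 ≤ v ^ 2 := sq_nonneg v
  have h := comb_lb (P := Real.cosh v + 1) (N := Real.cosh v - 1) hb hd (by linarith) (by linarith)
  rw [two_gm]
  refine le_trans ?_ h
  have h3 : 0 ≤ Real.exp (-d.re) := by positivity
  have h4 : 0 ≤ Real.exp d.re := by positivity
  rw [div_mul_eq_mul_div, mul_div_assoc]
  apply mul_le_mul_of_nonneg_left _ hc
  have e1 : Real.exp d.re * (v ^ 2 / 2) ≤ Real.exp d.re * (Real.cosh v - 1) :=
    mul_le_mul_of_nonneg_left (by linarith) h4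
  have e2 : Real.exp (-d.re) * 1 ≤ Real.exp (-d.re) * (Real.cosh v + 1) :=
    mul_le_mul_of_nonneg_left (by linarith) h3
  have e3 : 0 ≤ Real.exp d.re * v ^ 2 := by positivity
  linarith

lemma gm_lb_large (hb : b < Real.pi / 2) (hd : |d.im| ≤ b) (hv : 1 ≤ |v|) :
    Real.cos b / 4 * (Real.exp d.re * Real.cosh v) ≤ (2 * gm v d).re := by
  have hb0 : 0 ≤ b := (abs_nonneg _).trans hd
  have hc : 0 ≤ Real.cos b := Real.cos_nonneg_of_neg_pi_div_two_le_of_le (by linarith [Real.pi_pos]) hb.le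
  have h1 := cosh_lb2 v
  have h1' : 1 ≤ v ^ 2 := by rw [← sq_abs]; exact one_le_pow₀ hv
  have h := comb_lb (P := Real.cosh v + 1) (N := Real.cosh v - 1) hb hd (by linarith) (by linarith)
  rw [two_gm]
  refine le_trans ?_ h
  have h3 : 0 ≤ Real.exp (-d.re) * (Real.cosh v + 1) := mul_nonneg (Real.exp_pos _).le (by linarith)
  have h4 : 0 ≤ Real.exp d.re := by positivity
  rw [div_mul_eq_mul_div, mul_div_assoc]
  apply mul_le_mul_of_nonneg_left _ hc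
  have e1 : Real.exp d.re * (Real.cosh v / 4) ≤ Real.exp d.re * (Real.cosh v - 1) :=
    mul_le_mul_of_nonneg_left (by linarith) h4
  linarith

lemma Kq_lb (hb : b < Real.pi / 2) (hd : |d.im| ≤ b) :
    Real.cos b / 4 * (Real.exp d.re * v ^ 2 + Real.exp (-d.re)) ≤ (Kq v d).re := by
  have hb0 : 0 ≤ b := (abs_nonneg _).trans hd
  have hc : 0 ≤ Real.cos b := Real.cos_nonneg_of_neg_pi_div_two_le_of_le (by linarith [Real.pi_pos]) hb.le
  have h := comb_lb (P := 2) (N := v ^ 2 / 2) hb hd (by norm_num) (by positivity)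
  rw [Kq_eq]
  refine le_trans ?_ h
  have h3 : 0 ≤ Real.exp (-d.re) := by positivity
  have h4 : 0 ≤ Real.exp d.re * v ^ 2 := by positivity
  rw [div_mul_eq_mul_div, mul_div_assoc]
  apply mul_le_mul_of_nonneg_left _ hc
  linarith

lemma cosb_pos (hb : b < Real.pi / 2) (hd : |d.im| ≤ b) : 0 < Real.cos b / 4 ∧ Real.cos b / 4 ≤ 1 := by
  have hb0 : 0 ≤ b := (abs_nonneg _).trans hd
  have hc : 0 < Real.cos b := Real.cos_pos_of_mem_Ioo ⟨by linarith [Real.pi_pos], hb⟩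
  have := Real.cos_le_one b
  exact ⟨by linarith, by linarith⟩

lemma norm_G1 (ha : 0 ≤ d.re) :
    ‖2 * Complex.cosh d * Real.sinh v‖ ≤ 2 * Real.exp d.re * |Real.sinh v| := by
  rw [norm_mul, Complex.norm_real, Real.norm_eq_abs]
  exact mul_le_mul_of_nonneg_right (norm_two_cosh ha) (abs_nonneg _)

lemma norm_G2 (ha : 0 ≤ d.re) :
    ‖2 * Complex.cosh d * Real.cosh v‖ ≤ 2 * Real.exp d.re * Real.cosh v := by
  rw [norm_mul, Complex.norm_real, Real.norm_eq_abs, abs_of_pos (Real.cosh_pos v)]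
  exact mul_le_mul_of_nonneg_right (norm_two_cosh ha) (Real.cosh_pos v).le

lemma S2_large {G : ℂ} (hk : 0 < Real.cos b / 4) (hk1 : Real.cos b / 4 ≤ 1) (ha : 0 ≤ d.re)
    (hv : v ≠ 0)
    (hG : Real.cos b / 4 * (Real.exp d.re * Real.cosh v) ≤ G.re) :
    ‖S2 G (2 * Complex.cosh d * Real.sinh v) (2 * Complex.cosh d * Real.cosh v)‖ ≤
      24 * (Real.cos b / 4) ^ (-(7 / 2) : ℝ) * (Real.exp (-(7 / 16 * d.re)) * wt v) := by
  have hQ : 0 < Real.exp d.re * Real.cosh v := mul_pos (Real.exp_pos _) (Real.cosh_pos v)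
  have h := S2_bound (r := 1) (G1 := 2 * Complex.cosh d * Real.sinh v)
    (G2 := 2 * Complex.cosh d * Real.cosh v) hk hk1 hQ zero_le_one
    (hG.trans (Complex.re_le_norm G)) ?_ ?_
  · refine h.trans ?_
    have h2 := Q2 (a := d.re) ha hv
    have hp : 0 ≤ (Real.cos b / 4) ^ (-(7 / 2) : ℝ) := Real.rpow_nonneg hk.le _
    calc 4 * (Real.cos b / 4) ^ (-(7 / 2) : ℝ) * (Real.exp d.re * Real.cosh v) ^ (-(1 / 2) : ℝ) * 1
        ≤ 4 * (Real.cos b / 4) ^ (-(7 / 2) : ℝ) * (6 * (Real.exp (-(7 / 16 * d.re)) * wt v)) * 1 := by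
          gcongr
      _ = _ := by ring
  · have h1 := norm_G1 (v := v) ha
    have h2 : ‖2 * Complex.cosh d * Real.sinh v‖ ≤ 2 * (Real.exp d.re * Real.cosh v) := by
      refine h1.trans ?_
      have := mul_le_mul_of_nonneg_left (abs_sinh_le_cosh v) (Real.exp_pos d.re).le
      linarith
    calc ‖2 * Complex.cosh d * Real.sinh v‖ ^ 2 ≤ (2 * (Real.exp d.re * Real.cosh v)) ^ 2 :=
          pow_le_pow_left₀ (norm_nonneg _) h2 2
      _ = _ := by ring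
  · refine (norm_G2 (v := v) ha).trans (le_of_eq ?_)
    ring

lemma pw_gp (hb : b < Real.pi / 2) (hd : |d.im| ≤ b) (ha : 0 ≤ d.re) (hv : v ≠ 0) :
    ‖S2 (2 * gp v d) (2 * Complex.cosh d * Real.sinh v) (2 * Complex.cosh d * Real.cosh v)‖ ≤
      24 * (Real.cos b / 4) ^ (-(7 / 2) : ℝ) * (Real.exp (-(7 / 16 * d.re)) * wt v) :=
  S2_large (cosb_pos hb hd).1 (cosb_pos hb hd).2 ha hv (gp_lb hb hd)

lemma pw_gm (hb : b < Real.pi / 2) (hd : |d.im| ≤ b) (ha : 0 ≤ d.re) (hv : v ≠ 0) :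
    ‖S2 (2 * gm v d) (2 * Complex.cosh d * Real.sinh v) (2 * Complex.cosh d * Real.cosh v)
      - k2 v d‖ ≤
      42 * (Real.cos b / 4) ^ (-(7 / 2) : ℝ) * (Real.exp (-(7 / 16 * d.re)) * wt v) := by
  obtain ⟨hk, hk1⟩ := cosb_pos hb hd
  have hp : 0 ≤ (Real.cos b / 4) ^ (-(7 / 2) : ℝ) := Real.rpow_nonneg hk.le _
  have hE := Real.exp_pos d.re
  have hE' := Real.exp_pos (-d.re)
  by_cases h1 : |v| ≤ 1
  · have e1 : wt v = |v| ^ (-(15 / 16) : ℝ) := by simp only [wt, if_pos h1]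
    obtain ⟨c1, c2, c3, c4, c5⟩ := cosh_ub v h1
    obtain ⟨s1, s2⟩ := sinh_ub v h1
    have hQ : 0 < Real.exp d.re * v ^ 2 + Real.exp (-d.re) := by positivity
    have hv3 : |v| ^ 3 = |v| * v ^ 2 := by rw [← sq_abs v]; ring
    have h := S2_diff (G := 2 * gm v d) (K := Kq v d)
      (G1 := 2 * Complex.cosh d * Real.sinh v) (K1 := Complex.exp d * v)
      (G2 := 2 * Complex.cosh d * Real.cosh v) (K2 := Complex.exp d) (E := Real.exp d.re) (v := v)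
      hk hk1 hQ hE.le (gm_lb_small hb hd) (Kq_lb hb hd) ?_ ?_ ?_ ?_ ?_ ?_ ?_
    · unfold k2
      refine h.trans ?_
      rw [e1]
      have := Q1 (a := d.re) hv
      gcongr
    · have e : 2 * gm v d - Kq v d = Complex.exp (-d) * ((Real.cosh v - 1 : ℝ) : ℂ) +
          Complex.exp d * ((Real.cosh v - 1 - v ^ 2 / 2 : ℝ) : ℂ) := by
        rw [two_gm, Kq_eq]; push_cast; ring
      rw [e]
      refine (comb_ub _ _ _).trans ?_
      rw [abs_of_nonneg c3, abs_of_nonneg c2]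
      calc Real.exp (-d.re) * (Real.cosh v - 1) + Real.exp d.re * (Real.cosh v - 1 - v ^ 2 / 2)
          ≤ Real.exp (-d.re) * v ^ 2 + Real.exp d.re * v ^ 4 := by gcongr
        _ = _ := by ring
    · have e : 2 * Complex.cosh d * Real.sinh v - Complex.exp d * v =
          Complex.exp (-d) * ((Real.sinh v : ℝ) : ℂ) +
          Complex.exp d * ((Real.sinh v - v : ℝ) : ℂ) := by
        rw [Complex.cosh]; push_cast; ring
      rw [e]
      refine (comb_ub _ _ _).trans ?_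
      have h0 : 0 ≤ |v| * v ^ 2 := by positivity
      calc Real.exp (-d.re) * |Real.sinh v| + Real.exp d.re * |Real.sinh v - v|
          ≤ Real.exp (-d.re) * (2 * |v|) + Real.exp d.re * (|v| * v ^ 2) := by
            rw [← hv3]; gcongr
        _ ≤ Real.exp (-d.re) * (2 * |v|) + Real.exp d.re * (2 * (|v| * v ^ 2)) :=
            add_le_add le_rfl (mul_le_mul_of_nonneg_left (by linarith) hE.le)
        _ = _ := by ring
    · have e : 2 * Complex.cosh d * Real.cosh v - Complex.exp d =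
          Complex.exp (-d) * ((Real.cosh v : ℝ) : ℂ) +
          Complex.exp d * ((Real.cosh v - 1 : ℝ) : ℂ) := by
        rw [Complex.cosh]; push_cast; ring
      rw [e]
      refine (comb_ub _ _ _).trans ?_
      rw [abs_of_nonneg c3, abs_of_pos (Real.cosh_pos v)]
      calc Real.exp (-d.re) * Real.cosh v + Real.exp d.re * (Real.cosh v - 1)
          ≤ Real.exp (-d.re) * 2 + Real.exp d.re * v ^ 2 := by gcongr
        _ ≤ Real.exp (-d.re) * 2 + Real.exp d.re * v ^ 2 + Real.exp d.re * v ^ 2 := by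
            have : 0 ≤ Real.exp d.re * v ^ 2 := by positivity
            linarith
        _ = _ := by ring
    · refine (norm_G1 (v := v) ha).trans ?_
      calc 2 * Real.exp d.re * |Real.sinh v| ≤ 2 * Real.exp d.re * (2 * |v|) := by gcongr
        _ = _ := by ring
    · rw [norm_mul, norm_exp_d, Complex.norm_real, Real.norm_eq_abs]
    · refine (norm_G2 (v := v) ha).trans ?_
      calc 2 * Real.exp d.re * Real.cosh v ≤ 2 * Real.exp d.re * 2 := by gcongr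
        _ = _ := by ring
    · linarith
  · have e1 : wt v = (v ^ 2)⁻¹ := by simp only [wt, if_neg h1]
    have h1' : 1 ≤ |v| := (not_le.mp h1).le
    have hv2 : 1 ≤ v ^ 2 := by rw [← sq_abs]; exact one_le_pow₀ h1'
    have hA := S2_large (v := v) hk hk1 ha hv (gm_lb_large hb hd h1')
    have hQ : 0 < Real.exp d.re * v ^ 2 := by positivity
    have hKl : Real.cos b / 4 * (Real.exp d.re * v ^ 2) ≤ ‖Kq v d‖ := by
      refine le_trans ?_ ((Kq_lb (v := v) hb hd).trans (Complex.re_le_norm _))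
      gcongr
      linarith
    have hB := S2_bound (G := Kq v d) (G1 := Complex.exp d * v) (G2 := Complex.exp d)
      (r := (v ^ 2)⁻¹) hk hk1 hQ (by positivity) hKl ?_ ?_
    · have hQe : (Real.exp d.re * v ^ 2) ^ (-(1 / 2) : ℝ) ≤ Real.exp (-(7 / 16 * d.re)) := by
        refine (rpow_neg_mono hE (by nlinarith) (by norm_num)).trans ?_
        rw [Real.rpow_def_of_pos (Real.exp_pos _), Real.log_exp]
        apply Real.exp_le_exp.mpr; linarith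
      have hB' : ‖k2 v d‖ ≤ 4 * (Real.cos b / 4) ^ (-(7 / 2) : ℝ) *
          (Real.exp (-(7 / 16 * d.re)) * wt v) := by
        refine hB.trans ?_
        rw [e1]
        calc 4 * (Real.cos b / 4) ^ (-(7 / 2) : ℝ) * (Real.exp d.re * v ^ 2) ^ (-(1 / 2) : ℝ) *
              (v ^ 2)⁻¹ ≤ 4 * (Real.cos b / 4) ^ (-(7 / 2) : ℝ) * Real.exp (-(7 / 16 * d.re)) *
              (v ^ 2)⁻¹ := by gcongr
          _ = _ := by ring
      refine (norm_sub_le _ _).trans ?_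
      have h0 : 0 ≤ (Real.cos b / 4) ^ (-(7 / 2) : ℝ) * (Real.exp (-(7 / 16 * d.re)) * wt v) :=
        mul_nonneg hp (mul_nonneg (Real.exp_pos _).le (wt_nonneg v))
      linarith
    · rw [norm_mul, norm_exp_d, Complex.norm_real, Real.norm_eq_abs, mul_pow, sq_abs]
      have : 4 * (Real.exp d.re * v ^ 2) ^ 2 * (v ^ 2)⁻¹ = 4 * (Real.exp d.re ^ 2 * v ^ 2) := by
        field_simp
      rw [this]
      have : 0 ≤ Real.exp d.re ^ 2 * v ^ 2 := by positivity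
      linarith
    · rw [norm_exp_d]
      have : 2 * (Real.exp d.re * v ^ 2) * (v ^ 2)⁻¹ = 2 * Real.exp d.re := by
        field_simp
      rw [this]; linarith

lemma pw_ph2 (hb : b < Real.pi / 2) (hd : |d.im| ≤ b) (ha : 0 ≤ d.re) (hv : v ≠ 0) :
    ‖ph2 v d - k2 v d‖ ≤
      66 * (Real.cos b / 4) ^ (-(7 / 2) : ℝ) * (Real.exp (-(7 / 16 * d.re)) * wt v) := by
  rw [ph2_eq, add_sub_assoc]
  refine (norm_add_le _ _).trans ?_
  have h1 := pw_gp (v := v) hb hd ha hv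
  have h2 := pw_gm (v := v) hb hd ha hv
  linarith

lemma pw_ph (hb : b < Real.pi / 2) (hd : |d.im| ≤ b) (ha : 0 ≤ d.re) (hv : v ≠ 0) :
    ‖ph (1 / 2) v d‖ ≤
      12 * (Real.cos b / 4) ^ (-(7 / 2) : ℝ) * (Real.exp (-(7 / 16 * d.re)) * wt v) := by
  obtain ⟨hk, hk1⟩ := cosb_pos hb hd
  have hE := Real.exp_pos d.re
  have hE' := Real.exp_pos (-d.re)
  have hw := wt_nonneg v
  have hp : (Real.cos b / 4) ^ (-(1 / 2) : ℝ) ≤ (Real.cos b / 4) ^ (-(7 / 2) : ℝ) :=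
    Real.rpow_le_rpow_of_exponent_ge hk hk1 (by norm_num)
  have hp0 : 0 ≤ (Real.cos b / 4) ^ (-(7 / 2) : ℝ) := Real.rpow_nonneg hk.le _
  have key : ∀ {G : ℂ} {Q : ℝ}, 0 < Q → Real.cos b / 4 * Q ≤ G.re →
      Q ^ (-(1 / 2) : ℝ) ≤ 6 * (Real.exp (-(7 / 16 * d.re)) * wt v) →
      ‖G ^ (-(1 / 2) : ℂ)‖ ≤ 6 * (Real.cos b / 4) ^ (-(7 / 2) : ℝ) *
        (Real.exp (-(7 / 16 * d.re)) * wt v) := by
    intro G Q hQ hG hw
    rw [c12]
    refine (norm_cpow_le (mul_pos hk hQ) (hG.trans (Complex.re_le_norm G)) (by norm_num)).trans ?_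
    rw [Real.mul_rpow hk.le hQ.le]
    calc (Real.cos b / 4) ^ (-(1 / 2) : ℝ) * Q ^ (-(1 / 2) : ℝ)
        ≤ (Real.cos b / 4) ^ (-(7 / 2) : ℝ) * (6 * (Real.exp (-(7 / 16 * d.re)) * wt v)) := by
          gcongr
      _ = _ := by ring
  have hQ : 0 < Real.exp d.re * Real.cosh v := mul_pos hE (Real.cosh_pos v)
  have h1 : ‖(2 * gp v d) ^ (-(1 / 2) : ℂ)‖ ≤ 6 * (Real.cos b / 4) ^ (-(7 / 2) : ℝ) *
        (Real.exp (-(7 / 16 * d.re)) * wt v) := key hQ (gp_lb hb hd) (Q2 ha hv)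
  have h2 : ‖(2 * gm v d) ^ (-(1 / 2) : ℂ)‖ ≤ 6 * (Real.cos b / 4) ^ (-(7 / 2) : ℝ) *
        (Real.exp (-(7 / 16 * d.re)) * wt v) := by
    by_cases hv1 : |v| ≤ 1
    · have hQ' : 0 < Real.exp d.re * v ^ 2 + Real.exp (-d.re) := by positivity
      refine key hQ' (gm_lb_small hb hd) ?_
      have e1 : wt v = |v| ^ (-(15 / 16) : ℝ) := by simp only [wt, if_pos hv1]
      have h3 := Q1 (a := d.re) hv
      rw [e1]
      have h4 : 0 ≤ Real.exp (-(7 / 16 * d.re)) * |v| ^ (-(15 / 16) : ℝ) := by positivity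
      linarith
    · exact key hQ (gm_lb_large hb hd (not_le.mp hv1).le) (Q2 ha hv)
  unfold ph
  refine (norm_add_le _ _).trans ?_
  linarith

end pw

/-! ### the model kernel as a Fourier transform -/

lemma re_exp_neg_pos {d : ℂ} (hd : |d.im| < Real.pi / 2) : 0 < (2 * Complex.exp (-d)).re := by
  have e : (2 * Complex.exp (-d)).re = 2 * (Real.exp (-d.re) * Real.cos d.im) := by
    have : (2 : ℂ) = ((2 : ℝ) : ℂ) := by norm_num
    rw [this, Complex.re_ofReal_mul, Complex.exp_re, Complex.neg_re, Complex.neg_im, Real.cos_neg]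
  rw [e]
  have : 0 < Real.cos d.im := Real.cos_pos_of_mem_Ioo ⟨by linarith [(abs_lt.mp hd).1],
    (abs_lt.mp hd).2⟩
  positivity

/-- products in the right half plane -/
lemma mul_cpow_re {x y : ℂ} (s : ℂ) (hx : 0 < x.re) (hy : 0 < y.re) :
    (x * y) ^ s = x ^ s * y ^ s := by
  have hx0 : x ≠ 0 := fun h => by rw [h] at hx; simp at hx
  have hy0 : y ≠ 0 := fun h => by rw [h] at hy; simp at hy
  have h1 : |x.arg| < Real.pi / 2 := Complex.abs_arg_lt_pi_div_two_iff.mpr (Or.inl hx)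
  have h2 : |y.arg| < Real.pi / 2 := Complex.abs_arg_lt_pi_div_two_iff.mpr (Or.inl hy)
  have h : Complex.log (x * y) = Complex.log x + Complex.log y := by
    apply (Complex.log_mul_eq_add_log_iff hx0 hy0).mpr
    have h3 := abs_lt.mp h1
    have h4 := abs_lt.mp h2
    exact ⟨by linarith [h3.1, h4.1], by linarith [h3.2, h4.2]⟩
  rw [Complex.cpow_def_of_ne_zero (mul_ne_zero hx0 hy0), Complex.cpow_def_of_ne_zero hx0,
    Complex.cpow_def_of_ne_zero hy0, h, add_mul, Complex.exp_add]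

/-- θ = 2 e^(-d) -/
noncomputable def th (d : ℂ) : ℂ := 2 * Complex.exp (-d)

/-- σ = √2 e^(-d/2) -/
noncomputable def sg (d : ℂ) : ℂ := (√2 : ℝ) * Complex.exp (-d / 2)

lemma sg_sq (d : ℂ) : sg d ^ 2 = th d := by
  unfold sg th
  rw [mul_pow, ← Complex.exp_nat_mul, ← Complex.ofReal_pow, Real.sq_sqrt (by norm_num)]
  push_cast
  congr 2
  ring

lemma sg_re {d : ℂ} (hd : |d.im| < Real.pi / 2) : 0 < (sg d).re := by
  unfold sg
  rw [Complex.re_ofReal_mul, Complex.exp_re]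
  have e : (-d / 2).im = -(d.im / 2) := by
    have : (-d / 2) = ((-(1 / 2) : ℝ) : ℂ) * d := by push_cast; ring
    rw [this, Complex.im_ofReal_mul]; ring
  rw [e, Real.cos_neg]
  have : 0 < Real.cos (d.im / 2) := by
    apply Real.cos_pos_of_mem_Ioo
    have := abs_lt.mp hd
    constructor <;> linarith [Real.pi_pos, this.1, this.2]
  positivity

lemma Rq_slit {θ : ℂ} (h : 0 < θ.re) (v : ℝ) : (v : ℂ) ^ 2 + θ ^ 2 ∈ slitPlane := by
  have e1 : ((v : ℂ) ^ 2 + θ ^ 2).re = v ^ 2 + (θ.re ^ 2 - θ.im ^ 2) := by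
    simp [pow_two, Complex.mul_re]
  have e2 : ((v : ℂ) ^ 2 + θ ^ 2).im = 2 * θ.re * θ.im := by
    simp [pow_two, Complex.mul_im]; ring
  by_cases h0 : θ.im = 0
  · left
    rw [e1, h0]
    have h3 : 0 < θ.re ^ 2 := by positivity
    have h4 : 0 ≤ v ^ 2 := sq_nonneg v
    linarith
  · right
    rw [e2]
    exact mul_ne_zero (by positivity) h0

/-- derivative of v R^(-3/2) -/
noncomputable def Fd (θ : ℂ) (v : ℝ) : ℂ :=
  ((v : ℂ) ^ 2 + θ ^ 2) ^ (-(3 / 2) : ℂ) - 3 * v ^ 2 * ((v : ℂ) ^ 2 + θ ^ 2) ^ (-(5 / 2) : ℂ)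

lemma hasDeriv_F {θ : ℂ} (h : 0 < θ.re) (v : ℝ) :
    HasDerivAt (fun v : ℝ => (v : ℂ) * ((v : ℂ) ^ 2 + θ ^ 2) ^ (-(3 / 2) : ℂ)) (Fd θ v) v := by
  have h1 : HasDerivAt (fun x : ℂ => x) 1 (v : ℂ) := hasDerivAt_id _
  have h2 : HasDerivAt (fun x : ℂ => x ^ 2 + θ ^ 2) (2 * (v : ℂ)) (v : ℂ) := by
    have := (h1.pow 2).add_const (θ ^ 2)
    simpa using this
  have h3 := h2.cpow_const (c := (-(3 / 2) : ℂ)) (Rq_slit h v)
  have h4 := (h1.mul h3).comp_ofReal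
  refine h4.congr_deriv ?_
  unfold Fd
  have : (-(3 / 2) : ℂ) - 1 = -(5 / 2) := by norm_num
  rw [this]; ring

lemma k2_eq {d : ℂ} (hd : |d.im| < Real.pi / 2) (v : ℝ) :
    k2 v d = -(sg d * Fd (th d) v) := by
  have hθ : 0 < (th d).re := re_exp_neg_pos hd
  have hθ0 : th d ≠ 0 := fun h => by rw [h] at hθ; simp at hθ
  have hσ := sg_re hd
  have hc : 0 < Real.cos d.im := Real.cos_pos_of_mem_Ioo ⟨by linarith [(abs_lt.mp hd).1],
    (abs_lt.mp hd).2⟩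
  have hK : 0 < (Kq v d).re := by
    rw [Kq_eq, comb_re]
    have : 0 < Real.exp (-d.re) := Real.exp_pos _
    have h2 : 0 ≤ Real.exp d.re * (v ^ 2 / 2) := by positivity
    apply mul_pos hc; linarith
  have hexp : Complex.exp d = 2 / th d := by
    unfold th
    rw [Complex.exp_neg]
    have := Complex.exp_ne_zero d
    field_simp
  have hR : (v : ℂ) ^ 2 + th d ^ 2 = Kq v d * th d := by
    unfold Kq
    have e1 : Complex.exp d * th d = 2 := by rw [hexp]; field_simp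
    have e2 : 2 * Complex.exp (-d) = th d := rfl
    rw [e2]
    linear_combination (-(v : ℂ) ^ 2 / 2) * e1
  have hs : th d ^ (2⁻¹ : ℂ) = sg d := by rw [← sg_sq, Complex.sq_cpow_two_inv hσ]
  have t3 : sg d * th d ^ (-(3 / 2) : ℂ) = (th d)⁻¹ := by
    rw [← hs, ← Complex.cpow_add _ _ hθ0]
    have : (2⁻¹ : ℂ) + -(3 / 2) = -1 := by norm_num
    rw [this, Complex.cpow_neg_one]
  have t5 : sg d * th d ^ (-(5 / 2) : ℂ) = (th d ^ 2)⁻¹ := by
    rw [← hs, ← Complex.cpow_add _ _ hθ0]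
    have : (2⁻¹ : ℂ) + -(5 / 2) = -(2 : ℕ) := by norm_num
    rw [this, Complex.cpow_neg, Complex.cpow_natCast]
  unfold k2 S2 Fd
  rw [hR, mul_cpow_re _ hK hθ, mul_cpow_re _ hK hθ, hexp]
  have e : -(sg d * (Kq v d ^ (-(3 / 2) : ℂ) * th d ^ (-(3 / 2) : ℂ) -
      3 * v ^ 2 * (Kq v d ^ (-(5 / 2) : ℂ) * th d ^ (-(5 / 2) : ℂ)))) =
      -(Kq v d ^ (-(3 / 2) : ℂ) * (sg d * th d ^ (-(3 / 2) : ℂ))) +
      3 * v ^ 2 * Kq v d ^ (-(5 / 2) : ℂ) * (sg d * th d ^ (-(5 / 2) : ℂ)) := by ring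
  rw [e, t3, t5]
  field_simp
  ring

lemma cont_k2 {d : ℂ} (hd : |d.im| < Real.pi / 2) : Continuous (fun v : ℝ => k2 v d) := by
  have hθ : 0 < (th d).re := re_exp_neg_pos hd
  have e : (fun v : ℝ => k2 v d) = fun v : ℝ => -(sg d * Fd (th d) v) := by
    funext v; exact k2_eq hd v
  rw [e]
  unfold Fd
  have h2 : Continuous (fun v : ℝ => (v : ℂ) ^ 2 + th d ^ 2) := by fun_prop
  have h3 : ∀ c : ℂ, Continuous (fun v : ℝ => ((v : ℂ) ^ 2 + th d ^ 2) ^ c) := fun c =>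
    h2.cpow continuous_const (fun v => Rq_slit hθ v)
  have h4 := h3 (-(3 / 2))
  have h5 := h3 (-(5 / 2))
  fun_prop

lemma ae_ne0 : ∀ᵐ v : ℝ, v ≠ 0 := by
  have : ({0}ᶜ : Set ℝ) ∈ ae volume := compl_mem_ae_iff.mpr (by simp)
  exact this

lemma norm_e (u v : ℝ) : ‖Complex.exp (u * I * v)‖ = 1 := by
  have : (u * I * v : ℂ) = ((u * v : ℝ) : ℂ) * I := by push_cast; ring
  rw [this, Complex.norm_exp_ofReal_mul_I]

lemma int_diff {b : ℝ} {d : ℂ} (hb : b < Real.pi / 2) (hd : |d.im| ≤ b) (ha : 0 ≤ d.re)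
    (hph : Integrable (fun v => ph2 v d)) : Integrable (fun v => ph2 v d - k2 v d) := by
  have hd' : |d.im| < Real.pi / 2 := lt_of_le_of_lt hd hb
  refine Integrable.mono' ((wt_int.const_mul (Real.exp (-(7 / 16 * d.re)))).const_mul
    (66 * (Real.cos b / 4) ^ (-(7 / 2) : ℝ))) (hph.1.sub (cont_k2 hd').aestronglyMeasurable) ?_
  filter_upwards [ae_ne0] with v hv
  exact pw_ph2 hb hd ha hv

lemma int_k2 {b : ℝ} {d : ℂ} (hb : b < Real.pi / 2) (hd : |d.im| ≤ b) (ha : 0 ≤ d.re)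
    (hph : Integrable (fun v => ph2 v d)) : Integrable (fun v => k2 v d) := by
  have h := hph.sub (int_diff hb hd ha hph)
  refine h.congr (Filter.Eventually.of_forall fun v => ?_)
  simp only [Pi.sub_apply]; ring

lemma int_mul_e {f : ℝ → ℂ} (hf : Integrable f) (u : ℝ) :
    Integrable (fun v : ℝ => f v * Complex.exp (u * I * v)) := by
  refine hf.mul_bdd (c := 1) ?_ ?_
  · exact (by fun_prop : Continuous fun v : ℝ => Complex.exp (u * I * v)).aestronglyMeasurable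
  · exact Filter.Eventually.of_forall fun v => (norm_e u v).le

lemma kf_eq {b : ℝ} {d : ℂ} {u : ℝ} (hb : b < Real.pi / 2) (hd : |d.im| ≤ b) (ha : 0 ≤ d.re)
    (hu : 0 < u) (hph : Integrable (fun v => ph2 v d)) (hK : tKFT) :
    kf u d = -(1 / (u ^ 2 : ℝ)) * ∫ v : ℝ, k2 v d * Complex.exp (u * I * v) := by
  have hd' : |d.im| < Real.pi / 2 := lt_of_le_of_lt hd hb
  have hθ : 0 < (th d).re := re_exp_neg_pos hd'
  have hσ : sg d ≠ 0 := fun h => by have := sg_re hd'; rw [h] at this; simp at this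
  obtain ⟨hI, hF⟩ := hK (th d) u hθ hu
  have hk2 := int_k2 hb hd ha hph
  have hFd : Integrable (fun v : ℝ => Fd (th d) v) := by
    refine (hk2.const_mul (-(sg d)⁻¹)).congr (Filter.Eventually.of_forall fun v => ?_)
    simp only [k2_eq hd' v]
    field_simp
  have hde : ∀ v : ℝ, HasDerivAt (fun v : ℝ => Complex.exp (u * I * v))
      (u * I * Complex.exp (u * I * v)) v := by
    intro v
    have h1 : HasDerivAt (fun x : ℂ => u * I * x) (u * I) (v : ℂ) := by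
      simpa using (hasDerivAt_id (v : ℂ)).const_mul (u * I : ℂ)
    have h2 := h1.cexp.comp_ofReal
    refine h2.congr_deriv (by ring)
  have hibp := integral_mul_deriv_eq_deriv_mul_of_integrable
    (u := fun v : ℝ => (v : ℂ) * ((v : ℂ) ^ 2 + th d ^ 2) ^ (-(3 / 2) : ℂ))
    (u' := fun v : ℝ => Fd (th d) v)
    (v := fun v : ℝ => Complex.exp (u * I * v)) (v' := fun v : ℝ => u * I * Complex.exp (u * I * v))
    (fun v _ => hasDeriv_F hθ v) (fun v _ => hde v) ?_ ?_ ?_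
  · have e1 : ∫ v : ℝ, (v : ℂ) * ((v : ℂ) ^ 2 + th d ^ 2) ^ (-(3 / 2) : ℂ) *
        (u * I * Complex.exp (u * I * v)) = u * I * ∫ v : ℝ, (v : ℂ) *
        ((v : ℂ) ^ 2 + th d ^ 2) ^ (-(3 / 2) : ℂ) * Complex.exp (u * I * v) := by
      rw [← integral_const_mul]
      congr 1; funext v; ring
    rw [e1, hF] at hibp
    have e2 : ∫ v : ℝ, k2 v d * Complex.exp (u * I * v) =
        -(sg d) * ∫ v : ℝ, Fd (th d) v * Complex.exp (u * I * v) := by
      rw [← integral_const_mul]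
      congr 1; funext v; rw [k2_eq hd' v]; ring
    have e3 : ∫ v : ℝ, Fd (th d) v * Complex.exp (u * I * v) = 2 * u ^ 2 * K0 (u * th d) := by
      linear_combination hibp - (2 * u ^ 2 * K0 (u * th d)) * Complex.I_sq
    have e4 : kf u d = 2 * sg d * K0 (u * th d) := by
      unfold kf sg th
      rw [show (2 * u * Complex.exp (-d) : ℂ) = u * (2 * Complex.exp (-d)) by ring]
      ring
    rw [e2, e3, e4]
    have hu0 : (u : ℂ) ≠ 0 := by exact_mod_cast hu.ne'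
    push_cast
    field_simp
  · have := (int_mul_e hI u).const_mul (u * I)
    refine this.congr (Filter.Eventually.of_forall fun v => ?_)
    simp only [Pi.mul_apply]; ring
  · exact int_mul_e hFd u
  · exact int_mul_e hI u

end ZERR_

open ZERR_ in
theorem pERR (_h1 : tCONE) (_h2 : tPHB) (h3 : tJU) (h4 : tK0) (h5 : tKFT) : tERR := by
  intro b _hb0 hb
  obtain ⟨-, ⟨C0, hC0, hK0⟩, -⟩ := h4
  set k := Real.cos b / 4 with hk
  set W := k ^ (-(7 / 2) : ℝ) with hW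
  have hIw : 0 ≤ ∫ v, wt v := integral_nonneg wt_nonneg
  have hcb : 0 < Real.cos b := Real.cos_pos_of_mem_Ioo ⟨by linarith [Real.pi_pos], hb⟩
  have hk0 : 0 < k := by rw [hk]; linarith
  have hW0 : 0 < W := Real.rpow_pos_of_pos hk0 _
  refine ⟨66 * W * (∫ v, wt v) + 4 * C0, by positivity, ?_⟩
  intro d hd ha1
  have ha : 0 ≤ d.re := by linarith
  have hd' : |d.im| < Real.pi / 2 := lt_of_le_of_lt hd hb
  have hE : 0 < Real.exp (-(7 / 16 * d.re)) := Real.exp_pos _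
  refine ⟨?_, ?_⟩
  · intro u hu hu1
    have hj : ‖jf u d‖ ≤ 12 * W * (∫ v, wt v) * Real.exp (-(7 / 16 * d.re)) := by
      have h := norm_integral_le_of_norm_le
        ((wt_int.const_mul (Real.exp (-(7 / 16 * d.re)))).const_mul (12 * W))
        (f := fun v : ℝ => ph (1 / 2) v d * Complex.exp (u * I * v)) (by
          filter_upwards [ae_ne0] with v hv
          rw [norm_mul, norm_e, mul_one]
          exact pw_ph hb hd ha hv)
      rw [integral_const_mul, integral_const_mul] at h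
      unfold jf JJ
      refine h.trans (le_of_eq (by ring))
    have hz : (0 : ℝ) < (2 * u * Complex.exp (-d)).re := by
      have e : (2 * u * Complex.exp (-d) : ℂ) = (u : ℂ) * (2 * Complex.exp (-d)) := by ring
      rw [e, Complex.re_ofReal_mul]
      exact mul_pos hu (re_exp_neg_pos hd')
    have hkf : ‖kf u d‖ ≤ 4 * C0 * Real.exp (-(7 / 16 * d.re)) * u ^ (-(1 / 16) : ℝ) := by
      have h := (hK0 _ hz).2.1
      have hnz : ‖(2 * u * Complex.exp (-d) : ℂ)‖ = 2 * (u * Real.exp (-d.re)) := by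
        rw [norm_mul, norm_mul, norm_exp_d, Complex.neg_re, Complex.norm_real, Real.norm_eq_abs,
          abs_of_pos hu]
        norm_num; ring
      have he1 : Real.exp (-(2 * u * Complex.exp (-d)).re) ≤ 1 := by
        rw [Real.exp_le_one_iff]; linarith
      have hpw : ‖(2 * u * Complex.exp (-d) : ℂ)‖ ^ (-(1 / 16) : ℝ) ≤
          u ^ (-(1 / 16) : ℝ) * Real.exp (1 / 16 * d.re) := by
        rw [hnz, Real.mul_rpow (by norm_num) (by positivity), Real.mul_rpow hu.le (Real.exp_pos _).le]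
        have e1 : Real.exp (-d.re) ^ (-(1 / 16) : ℝ) = Real.exp (1 / 16 * d.re) := by
          rw [Real.rpow_def_of_pos (Real.exp_pos _), Real.log_exp]; congr 1; ring
        have e2 : (2 : ℝ) ^ (-(1 / 16) : ℝ) ≤ 1 :=
          Real.rpow_le_one_of_one_le_of_nonpos (by norm_num) (by norm_num)
        rw [e1]
        have e3 : 0 ≤ u ^ (-(1 / 16) : ℝ) * Real.exp (1 / 16 * d.re) := by positivity
        calc (2 : ℝ) ^ (-(1 / 16) : ℝ) * (u ^ (-(1 / 16) : ℝ) * Real.exp (1 / 16 * d.re))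
            ≤ 1 * (u ^ (-(1 / 16) : ℝ) * Real.exp (1 / 16 * d.re)) :=
              mul_le_mul_of_nonneg_right e2 e3
          _ = _ := one_mul _
      have hK : ‖K0 (2 * u * Complex.exp (-d))‖ ≤
          C0 * (u ^ (-(1 / 16) : ℝ) * Real.exp (1 / 16 * d.re)) := by
        refine h.trans ?_
        calc C0 * Real.exp (-(2 * u * Complex.exp (-d)).re) *
              ‖(2 * u * Complex.exp (-d) : ℂ)‖ ^ (-(1 / 16) : ℝ)
            ≤ C0 * 1 * (u ^ (-(1 / 16) : ℝ) * Real.exp (1 / 16 * d.re)) := by gcongr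
          _ = _ := by ring
      have hs : ‖(2 * √2 * Complex.exp (-d / 2) : ℂ)‖ ≤ 4 * Real.exp (-(1 / 2 * d.re)) := by
        rw [norm_mul, norm_mul, norm_exp_d, Complex.norm_real, Real.norm_eq_abs,
          abs_of_nonneg (Real.sqrt_nonneg 2)]
        have e1 : ‖(2 : ℂ)‖ = 2 := by norm_num
        have e2 : √2 ≤ 2 := by
          rw [Real.sqrt_le_left (by norm_num)]; norm_num
        have e3 : (-d / 2).re = -(1 / 2 * d.re) := by
          have : (-d / 2) = ((-(1 / 2) : ℝ) : ℂ) * d := by push_cast; ring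
          rw [this, Complex.re_ofReal_mul]; ring
        rw [e1, e3]
        have e4 : 0 < Real.exp (-(1 / 2 * d.re)) := Real.exp_pos _
        nlinarith
      unfold kf
      rw [norm_mul]
      calc ‖(2 * √2 * Complex.exp (-d / 2) : ℂ)‖ * ‖K0 (2 * u * Complex.exp (-d))‖
          ≤ (4 * Real.exp (-(1 / 2 * d.re))) *
            (C0 * (u ^ (-(1 / 16) : ℝ) * Real.exp (1 / 16 * d.re))) := by gcongr
        _ = 4 * C0 * (Real.exp (-(1 / 2 * d.re)) * Real.exp (1 / 16 * d.re)) *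
            u ^ (-(1 / 16) : ℝ) := by ring
        _ = _ := by rw [← Real.exp_add]; congr 3; ring
    have hu16 : 1 ≤ u ^ (-(1 / 16) : ℝ) :=
      Real.one_le_rpow_of_pos_of_le_one_of_nonpos hu hu1 (by norm_num)
    refine (norm_sub_le _ _).trans ?_
    have hX : 0 ≤ W * (∫ v, wt v) * Real.exp (-(7 / 16 * d.re)) := by positivity
    have h6 : 12 * W * (∫ v, wt v) * Real.exp (-(7 / 16 * d.re)) ≤
        66 * W * (∫ v, wt v) * Real.exp (-(7 / 16 * d.re)) * u ^ (-(1 / 16) : ℝ) := by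
      calc 12 * W * (∫ v, wt v) * Real.exp (-(7 / 16 * d.re))
          ≤ 66 * W * (∫ v, wt v) * Real.exp (-(7 / 16 * d.re)) * 1 := by linarith
        _ ≤ _ := by
          apply mul_le_mul_of_nonneg_left hu16
          linarith
    calc ‖jf u d‖ + ‖kf u d‖ ≤ 66 * W * (∫ v, wt v) * Real.exp (-(7 / 16 * d.re)) *
          u ^ (-(1 / 16) : ℝ) + 4 * C0 * Real.exp (-(7 / 16 * d.re)) * u ^ (-(1 / 16) : ℝ) :=
          add_le_add (hj.trans h6) hkf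
      _ = _ := by ring
  · intro u hu1
    have hu : 0 < u := by linarith
    obtain ⟨hph, hjf⟩ := h3.1 d hd'
    rw [hjf u hu.ne', kf_eq hb hd ha hu hph h5, ← mul_sub, ← integral_sub (int_mul_e hph u)
      (int_mul_e (int_k2 hb hd ha hph) u), norm_mul]
    have h := norm_integral_le_of_norm_le
        ((wt_int.const_mul (Real.exp (-(7 / 16 * d.re)))).const_mul (66 * W))
        (f := fun v : ℝ => ph2 v d * Complex.exp (u * I * v) - k2 v d * Complex.exp (u * I * v)) (by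
          filter_upwards [ae_ne0] with v hv
          rw [← sub_mul, norm_mul, norm_e, mul_one]
          exact pw_ph2 hb hd ha hv)
    rw [integral_const_mul, integral_const_mul] at h
    have hn : ‖(-(1 / (u ^ 2 : ℝ)) : ℂ)‖ = u ^ (-2 : ℝ) := by
      rw [norm_neg, norm_div, norm_one, Complex.norm_real, Real.norm_eq_abs,
        abs_of_nonneg (by positivity), Real.rpow_neg hu.le, one_div]
      norm_cast
    rw [hn]
    have hu2 : 0 ≤ u ^ (-2 : ℝ) := Real.rpow_nonneg hu.le _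
    calc u ^ (-2 : ℝ) * ‖∫ v : ℝ, ph2 v d * Complex.exp (u * I * v) -
          k2 v d * Complex.exp (u * I * v)‖
        ≤ u ^ (-2 : ℝ) * (66 * W * (Real.exp (-(7 / 16 * d.re)) * ∫ v, wt v)) := by gcongr
      _ = 66 * W * (∫ v, wt v) * Real.exp (-(7 / 16 * d.re)) * u ^ (-2 : ℝ) := by ring
      _ ≤ (66 * W * (∫ v, wt v) + 4 * C0) * Real.exp (-(7 / 16 * d.re)) * u ^ (-2 : ℝ) := by
        gcongr
        linarith

end FMZ
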