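import Pool.Agent.FMZ.TZ

/-!
# FMZ-Z6: the error term bound
-/

open Complex MeasureTheory Set Filter Topology

namespace FMZ

namespace ZEST_

/-- the dominating function -/
noncomputable def G (c x : ℝ) : ℝ :=
  2 * Real.exp 1 * (x ^ ((7 / 16 : ℝ) - 1) * Real.exp (-(1 * x))) +
    2 * (x ^ ((1 / 2 : ℝ) - 1) * Real.exp (-(2 * c * x)))

lemma G_int {c : ℝ} (hc : 0 < c) : IntegrableOn (G c) (Ioi 0) := by
  have h1 : IntegrableOn (fun x : ℝ => x ^ ((7 / 16 : ℝ) - 1) * Real.exp (-(1 * x))) (Ioi 0) := by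
    have := integrableOn_rpow_mul_exp_neg_mul_rpow (p := 1) (s := (7 / 16 : ℝ) - 1) (b := 1)
      (by norm_num) one_pos one_pos
    refine this.congr_fun (fun x _ => ?_) measurableSet_Ioi
    simp only [Real.rpow_one, neg_mul]
  have h2 : IntegrableOn (fun x : ℝ => x ^ ((1 / 2 : ℝ) - 1) * Real.exp (-(2 * c * x))) (Ioi 0) := by
    have := integrableOn_rpow_mul_exp_neg_mul_rpow (p := 1) (s := (1 / 2 : ℝ) - 1) (b := 2 * c)
      (by norm_num) one_pos (by positivity)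
    refine this.congr_fun (fun x _ => ?_) measurableSet_Ioi
    simp only [Real.rpow_one, neg_mul]
  exact (h1.const_mul _).add (h2.const_mul _)

lemma G_integral {c : ℝ} (hc : 0 < c) : ∫ x in Ioi (0 : ℝ), G c x =
    2 * Real.exp 1 * ((1 / 1) ^ (7 / 16 : ℝ) * Real.Gamma (7 / 16)) +
      2 * ((1 / (2 * c)) ^ (1 / 2 : ℝ) * Real.Gamma (1 / 2)) := by
  have h1 : IntegrableOn (fun x : ℝ => x ^ ((7 / 16 : ℝ) - 1) * Real.exp (-(1 * x))) (Ioi 0) := by
    have := integrableOn_rpow_mul_exp_neg_mul_rpow (p := 1) (s := (7 / 16 : ℝ) - 1) (b := 1)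
      (by norm_num) one_pos one_pos
    refine this.congr_fun (fun x _ => ?_) measurableSet_Ioi
    simp only [Real.rpow_one, neg_mul]
  have h2 : IntegrableOn (fun x : ℝ => x ^ ((1 / 2 : ℝ) - 1) * Real.exp (-(2 * c * x))) (Ioi 0) := by
    have := integrableOn_rpow_mul_exp_neg_mul_rpow (p := 1) (s := (1 / 2 : ℝ) - 1) (b := 2 * c)
      (by norm_num) one_pos (by positivity)
    refine this.congr_fun (fun x _ => ?_) measurableSet_Ioi
    simp only [Real.rpow_one, neg_mul]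
  simp only [G]
  rw [integral_add (h1.const_mul _) (h2.const_mul _), integral_const_mul, integral_const_mul,
    Real.integral_rpow_mul_exp_neg_mul_Ioi (by norm_num) one_pos,
    Real.integral_rpow_mul_exp_neg_mul_Ioi (by norm_num) (by positivity)]

lemma core {x c C k0 k1 : ℝ} (hx : 0 < x) (hc : 0 < c) (hC : 0 < C) (hk0 : 0 ≤ k0) (hk1 : 0 ≤ k1)
    (h1 : k0 ≤ C * Real.exp (-(x * c)) * x ^ (-(1 / 2) : ℝ))
    (h2 : k0 ≤ C * Real.exp (-(x * c)) * x ^ (-(1 / 16) : ℝ))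
    (h3 : k1 ≤ C * Real.exp (-(x * c)) * (x ^ (-(1 / 2) : ℝ) + x ^ (-1 : ℝ))) :
    √x * (k0 * k1) ≤ C ^ 2 * G c x := by
  have hs : √x = x ^ (1 / 2 : ℝ) := Real.sqrt_eq_rpow x
  rcases le_total x 1 with hx1 | hx1
  · have he : Real.exp (-(x * c)) ≤ 1 := Real.exp_le_one_iff.2 (by nlinarith)
    have h2' : k0 ≤ C * x ^ (-(1 / 16) : ℝ) := by
      refine h2.trans ?_
      have : 0 ≤ x ^ (-(1 / 16) : ℝ) := by positivity
      have := mul_le_mul_of_nonneg_right he this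
      nlinarith
    have h3' : k1 ≤ C * (x ^ (-(1 / 2) : ℝ) + x ^ (-1 : ℝ)) := by
      refine h3.trans ?_
      have : 0 ≤ x ^ (-(1 / 2) : ℝ) + x ^ (-1 : ℝ) := by positivity
      have := mul_le_mul_of_nonneg_right he this
      nlinarith
    have h4 : √x * (k0 * k1) ≤ x ^ (1 / 2 : ℝ) *
        ((C * x ^ (-(1 / 16) : ℝ)) * (C * (x ^ (-(1 / 2) : ℝ) + x ^ (-1 : ℝ)))) := by
      rw [hs]
      gcongr
    have e1 : x ^ (1 / 2 : ℝ) * (x ^ (-(1 / 16) : ℝ) * x ^ (-(1 / 2) : ℝ)) =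
        x ^ (-(1 / 16) : ℝ) := by
      rw [← Real.rpow_add hx, ← Real.rpow_add hx]
      norm_num
    have e2 : x ^ (1 / 2 : ℝ) * (x ^ (-(1 / 16) : ℝ) * x ^ (-1 : ℝ)) =
        x ^ ((7 / 16 : ℝ) - 1) := by
      rw [← Real.rpow_add hx, ← Real.rpow_add hx]
      norm_num
    have e3 : x ^ (1 / 2 : ℝ) *
        ((C * x ^ (-(1 / 16) : ℝ)) * (C * (x ^ (-(1 / 2) : ℝ) + x ^ (-1 : ℝ)))) =
        C ^ 2 * (x ^ (-(1 / 16) : ℝ) + x ^ ((7 / 16 : ℝ) - 1)) := by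
      calc _ = C ^ 2 * (x ^ (1 / 2 : ℝ) * (x ^ (-(1 / 16) : ℝ) * x ^ (-(1 / 2) : ℝ)) +
            x ^ (1 / 2 : ℝ) * (x ^ (-(1 / 16) : ℝ) * x ^ (-1 : ℝ))) := by ring
        _ = _ := by rw [e1, e2]
    have e4 : x ^ (-(1 / 16) : ℝ) ≤ x ^ ((7 / 16 : ℝ) - 1) :=
      Real.rpow_le_rpow_of_exponent_ge hx hx1 (by norm_num)
    have e5 : x ^ ((7 / 16 : ℝ) - 1) ≤
        Real.exp 1 * (x ^ ((7 / 16 : ℝ) - 1) * Real.exp (-(1 * x))) := by
      have h5 : 1 ≤ Real.exp 1 * Real.exp (-(1 * x)) := by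
        rw [← Real.exp_add]
        exact Real.one_le_exp (by linarith)
      have h6 : 0 ≤ x ^ ((7 / 16 : ℝ) - 1) := by positivity
      nlinarith
    have e6 : 0 ≤ 2 * (x ^ ((1 / 2 : ℝ) - 1) * Real.exp (-(2 * c * x))) := by positivity
    rw [e3] at h4
    refine h4.trans (mul_le_mul_of_nonneg_left ?_ (by positivity))
    rw [G]
    linarith
  · have h4 : √x * (k0 * k1) ≤ x ^ (1 / 2 : ℝ) *
        ((C * Real.exp (-(x * c)) * x ^ (-(1 / 2) : ℝ)) *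
          (C * Real.exp (-(x * c)) * (x ^ (-(1 / 2) : ℝ) + x ^ (-1 : ℝ)))) := by
      rw [hs]
      gcongr
    have e1 : x ^ (1 / 2 : ℝ) * x ^ (-(1 / 2) : ℝ) = 1 := by
      rw [← Real.rpow_add hx]
      norm_num
    have e2 : Real.exp (-(x * c)) * Real.exp (-(x * c)) = Real.exp (-(2 * c * x)) := by
      rw [← Real.exp_add]
      congr 1
      ring
    have e3 : x ^ (1 / 2 : ℝ) *
        ((C * Real.exp (-(x * c)) * x ^ (-(1 / 2) : ℝ)) *
          (C * Real.exp (-(x * c)) * (x ^ (-(1 / 2) : ℝ) + x ^ (-1 : ℝ)))) =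
        C ^ 2 * ((x ^ (-(1 / 2) : ℝ) + x ^ (-1 : ℝ)) * Real.exp (-(2 * c * x))) := by
      rw [← e2]
      calc _ = C ^ 2 * (x ^ (1 / 2 : ℝ) * x ^ (-(1 / 2) : ℝ)) *
            ((x ^ (-(1 / 2) : ℝ) + x ^ (-1 : ℝ)) * (Real.exp (-(x * c)) * Real.exp (-(x * c)))) := by
            ring
        _ = _ := by rw [e1]; ring
    have e4 : x ^ (-1 : ℝ) ≤ x ^ ((1 / 2 : ℝ) - 1) :=
      Real.rpow_le_rpow_of_exponent_le hx1 (by norm_num)
    have e5 : x ^ (-(1 / 2) : ℝ) = x ^ ((1 / 2 : ℝ) - 1) := by norm_num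
    have e6 : 0 ≤ 2 * Real.exp 1 * (x ^ ((7 / 16 : ℝ) - 1) * Real.exp (-(1 * x))) := by positivity
    rw [e3] at h4
    refine h4.trans (mul_le_mul_of_nonneg_left ?_ (by positivity))
    rw [G, e5]
    have e7 : 0 ≤ Real.exp (-(2 * c * x)) := (Real.exp_pos _).le
    nlinarith

lemma arg_re (u : ℝ) (d : ℂ) : (2 * (u : ℂ) * Complex.exp (-d)).re =
    2 * u * Real.exp (-d.re) * Real.cos d.im := by
  have h : (2 * (u : ℂ) * Complex.exp (-d)) = ((2 * u : ℝ) : ℂ) * Complex.exp (-d) := by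
    push_cast
    ring
  rw [h, Complex.re_ofReal_mul, Complex.exp_re, neg_re, neg_im, Real.cos_neg]
  ring

lemma arg_norm {u : ℝ} (hu : 0 < u) (d : ℂ) : ‖2 * (u : ℂ) * Complex.exp (-d)‖ =
    2 * Real.exp (-d.re) * u := by
  rw [norm_mul, norm_mul, Complex.norm_exp, Complex.norm_real, neg_re, Complex.norm_two,
    Real.norm_of_nonneg hu.le]
  ring

lemma cos_pos {d : ℂ} (hd : d ∈ S0) : 0 < Real.cos d.im := by
  have h : |d.im| < Real.pi / 2 := hd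
  exact Real.cos_pos_of_mem_Ioo ⟨by linarith [(abs_lt.1 h).1], (abs_lt.1 h).2⟩

lemma arg_pos {u : ℝ} (hu : 0 < u) {d : ℂ} (hd : d ∈ S0) :
    0 < (2 * (u : ℂ) * Complex.exp (-d)).re := by
  rw [arg_re]
  have := cos_pos hd
  positivity

lemma cos_lower {d : ℂ} (hd : d ∈ S0) :
    2 / Real.pi * (Real.pi / 2 - |d.im|) ≤ Real.cos d.im := by
  have h : |d.im| < Real.pi / 2 := hd
  have h1 := Real.one_sub_mul_le_cos (abs_nonneg d.im) h.le
  rw [Real.cos_abs] at h1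
  have hp := Real.pi_pos
  calc 2 / Real.pi * (Real.pi / 2 - |d.im|) = 1 - 2 / Real.pi * |d.im| := by
        field_simp
    _ ≤ _ := h1

lemma kf_deriv (h : tK0) {d : ℂ} (hd : d ∈ S0) {u : ℝ} (hu : 0 < u) :
    HasDerivAt (fun u => kf u d) (2 * √2 * Complex.exp (-d / 2) * (2 * Complex.exp (-d)) *
      K0d (2 * u * Complex.exp (-d))) u := by
  have h1 := h.1 _ (arg_pos hu hd)
  have h2 : HasDerivAt (fun u : ℝ => 2 * (u : ℂ) * Complex.exp (-d)) (2 * Complex.exp (-d)) u := by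
    have h3 : HasDerivAt (fun u : ℝ => (u : ℂ)) 1 u := Complex.ofRealCLM.hasDerivAt
    simpa using (h3.const_mul 2).mul_const (Complex.exp (-d))
  have h3 := HasDerivAt.comp u (h₂ := K0) h1 h2
  have h4 := h3.const_mul (2 * √2 * Complex.exp (-d / 2))
  refine (h4.congr_deriv ?_)
  ring

lemma kfd_norm {u : ℝ} (d : ℂ) : ‖kfd u d‖ = 32 * Real.exp (-d.re) ^ 2 *
    (‖K0 (2 * u * Complex.exp (-d))‖ * ‖K0d (2 * u * Complex.exp (-d))‖) := by
  have e1 : ‖Complex.exp (-d / 2)‖ ^ 2 = Real.exp (-d.re) := by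
    rw [Complex.norm_exp, ← Real.exp_nat_mul]
    congr 1
    have : (-d / 2).re = -d.re / 2 := by simp
    rw [this]
    push_cast
    ring
  have e2 : ‖Complex.exp (-d)‖ = Real.exp (-d.re) := by
    rw [Complex.norm_exp, neg_re]
  have e3 : ‖((√2 : ℝ) : ℂ)‖ ^ 2 = 2 := by
    rw [Complex.norm_real, Real.norm_of_nonneg (Real.sqrt_nonneg _), Real.sq_sqrt (by norm_num)]
  simp only [kfd, kf, norm_mul, Complex.norm_two, e2]
  calc _ = 16 * ‖((√2 : ℝ) : ℂ)‖ ^ 2 * ‖Complex.exp (-d / 2)‖ ^ 2 * Real.exp (-d.re) *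
        (‖K0 (2 * u * Complex.exp (-d))‖ * ‖K0d (2 * u * Complex.exp (-d))‖) := by ring
    _ = _ := by rw [e1, e3]; ring

lemma kfd_cont (h : tK0) {d : ℂ} (hd : d ∈ S0) :
    ContinuousOn (fun u : ℝ => √u * ‖kfd u d‖) (Ioi 0) := by
  have hU : IsOpen {z : ℂ | 0 < z.re} := isOpen_lt continuous_const continuous_re
  have hK : DifferentiableOn ℂ K0 {z : ℂ | 0 < z.re} := fun z hz =>
    (h.1 z hz).differentiableAt.differentiableWithinAt
  have hKd : ContinuousOn K0d {z : ℂ | 0 < z.re} := by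
    refine (hK.deriv hU).continuousOn.congr fun z hz => ?_
    exact (h.1 z hz).deriv.symm
  have hm : Continuous (fun u : ℝ => 2 * (u : ℂ) * Complex.exp (-d)) := by fun_prop
  have hmaps : MapsTo (fun u : ℝ => 2 * (u : ℂ) * Complex.exp (-d)) (Ioi 0) {z : ℂ | 0 < z.re} :=
    fun u hu => arg_pos hu hd
  have h1 : ContinuousOn (fun u : ℝ => K0 (2 * (u : ℂ) * Complex.exp (-d))) (Ioi 0) :=
    hK.continuousOn.comp hm.continuousOn hmaps
  have h2 : ContinuousOn (fun u : ℝ => K0d (2 * (u : ℂ) * Complex.exp (-d))) (Ioi 0) :=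
    hKd.comp hm.continuousOn hmaps
  have h3 : ContinuousOn (fun u : ℝ => √u * (32 * Real.exp (-d.re) ^ 2 *
    (‖K0 (2 * u * Complex.exp (-d))‖ * ‖K0d (2 * u * Complex.exp (-d))‖))) (Ioi 0) := by
    refine Real.continuous_sqrt.continuousOn.mul (continuousOn_const.mul (h1.norm.mul h2.norm))
  exact h3.congr fun u _ => by rw [kfd_norm]

lemma pointwise {C : ℝ} (hC : 0 < C)
    (h : ∀ z : ℂ, 0 < z.re → ‖K0 z‖ ≤ C * Real.exp (-z.re) * ‖z‖ ^ (-(1 / 2) : ℝ) ∧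
    ‖K0 z‖ ≤ C * Real.exp (-z.re) * ‖z‖ ^ (-(1 / 16) : ℝ) ∧
    ‖K0d z‖ ≤ C * Real.exp (-z.re) * (‖z‖ ^ (-(1 / 2) : ℝ) + ‖z‖ ^ (-1 : ℝ)))
    {d : ℂ} (hd : d ∈ S0) {u : ℝ} (hu : 0 < u) :
    √(2 * Real.exp (-d.re)) * (√u * ‖kfd u d‖) ≤
      32 * Real.exp (-d.re) ^ 2 * (C ^ 2 * G (Real.cos d.im) (2 * Real.exp (-d.re) * u)) := by
  have hc := cos_pos hd
  have hx : 0 < 2 * Real.exp (-d.re) * u := by positivity
  obtain ⟨h1, h2, h3⟩ := h _ (arg_pos hu hd)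
  rw [arg_norm hu, arg_re] at h1 h2 h3
  have e : 2 * u * Real.exp (-d.re) * Real.cos d.im =
      2 * Real.exp (-d.re) * u * Real.cos d.im := by ring
  rw [e] at h1 h2 h3
  have h4 := core hx hc hC (norm_nonneg _) (norm_nonneg _) h1 h2 h3
  rw [kfd_norm]
  have e2 : √(2 * Real.exp (-d.re)) * (√u * (32 * Real.exp (-d.re) ^ 2 *
      (‖K0 (2 * u * Complex.exp (-d))‖ * ‖K0d (2 * u * Complex.exp (-d))‖))) =
      32 * Real.exp (-d.re) ^ 2 * (√(2 * Real.exp (-d.re) * u) *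
      (‖K0 (2 * u * Complex.exp (-d))‖ * ‖K0d (2 * u * Complex.exp (-d))‖)) := by
    rw [Real.sqrt_mul (by positivity : (0 : ℝ) ≤ 2 * Real.exp (-d.re)) u]
    ring
  rw [e2]
  exact mul_le_mul_of_nonneg_left h4 (by positivity)

end ZEST_

open ZEST_ in
theorem pEST (h : tK0) : tEST := by
  refine ⟨?_, ?_⟩
  · intro d hd u hu
    have h1 := kf_deriv h hd hu
    have h2 := h1.pow 2
    refine h2.congr_deriv ?_
    rw [kfd]
    push_cast
    ring
  obtain ⟨C, hC, hK⟩ := h.2.1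
  refine ⟨32 * C ^ 2 * (2 * Real.exp 1 * Real.Gamma (7 / 16) + 2 * Real.Gamma (1 / 2)) *
    √(Real.pi / 2), ?_, ?_⟩
  · have h1 : 0 < Real.Gamma (7 / 16) := Real.Gamma_pos_of_pos (by norm_num)
    have h2 : 0 < Real.Gamma (1 / 2) := Real.Gamma_pos_of_pos (by norm_num)
    have h3 := Real.pi_pos
    positivity
  intro d hd
  have hc := cos_pos hd
  have hc1 : Real.cos d.im ≤ 1 := Real.cos_le_one _
  set E := Real.exp (-d.re) with hE
  have hE0 : 0 < E := Real.exp_pos _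
  have hs0 : 0 < √(2 * E) := Real.sqrt_pos.2 (by positivity)
  set c := Real.cos d.im with hcdef
  have hG1 : IntegrableOn (fun u : ℝ => G c (2 * E * u)) (Ioi 0) := by
    have h2 := (integrableOn_Ioi_comp_mul_left_iff (G c) 0 (a := 2 * E) (by positivity)).2
    rw [mul_zero] at h2
    exact h2 (G_int hc)
  have hG2 : ∫ u in Ioi (0 : ℝ), G c (2 * E * u) = (2 * E)⁻¹ * ∫ x in Ioi (0 : ℝ), G c x := by
    have h2 := integral_comp_mul_left_Ioi (G c) 0 (b := 2 * E) (by positivity)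
    rw [mul_zero, smul_eq_mul] at h2
    exact h2
  have hpt : ∀ u ∈ Ioi (0 : ℝ), √u * ‖kfd u d‖ ≤
      (32 * E ^ 2 * C ^ 2 / √(2 * E)) * G c (2 * E * u) := by
    intro u hu
    have h3 := pointwise hC hK hd hu
    rw [← hE, ← hcdef] at h3
    rw [div_mul_eq_mul_div, le_div_iff₀ hs0]
    calc √u * ‖kfd u d‖ * √(2 * E) = √(2 * E) * (√u * ‖kfd u d‖) := by ring
      _ ≤ _ := h3
      _ = _ := by ring
  have hnn : ∀ u ∈ Ioi (0 : ℝ), 0 ≤ √u * ‖kfd u d‖ := fun u _ =>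
    mul_nonneg (Real.sqrt_nonneg _) (norm_nonneg _)
  have hdom : IntegrableOn (fun u : ℝ => (32 * E ^ 2 * C ^ 2 / √(2 * E)) * G c (2 * E * u))
      (Ioi 0) := hG1.const_mul _
  have hint : IntegrableOn (fun u : ℝ => √u * ‖kfd u d‖) (Ioi 0) := by
    refine Integrable.mono' hdom ((kfd_cont h hd).aestronglyMeasurable measurableSet_Ioi) ?_
    refine (ae_restrict_iff' measurableSet_Ioi).2 (Eventually.of_forall fun u hu => ?_)
    rw [Real.norm_of_nonneg (hnn u hu)]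
    exact hpt u hu
  refine ⟨hint, ?_⟩
  have h5 : ∫ u in Ioi (0 : ℝ), √u * ‖kfd u d‖ ≤
      ∫ u in Ioi (0 : ℝ), (32 * E ^ 2 * C ^ 2 / √(2 * E)) * G c (2 * E * u) :=
    setIntegral_mono_on hint hdom measurableSet_Ioi hpt
  rw [integral_const_mul, hG2, G_integral hc] at h5
  refine h5.trans ?_
  have hg1 : 0 < Real.Gamma (7 / 16) := Real.Gamma_pos_of_pos (by norm_num)
  have hg2 : 0 < Real.Gamma (1 / 2) := Real.Gamma_pos_of_pos (by norm_num)
  have hsc : 0 < √c := Real.sqrt_pos.2 hc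
  -- the two gamma terms
  have h6 : 2 * Real.exp 1 * ((1 / 1) ^ (7 / 16 : ℝ) * Real.Gamma (7 / 16)) +
      2 * ((1 / (2 * c)) ^ (1 / 2 : ℝ) * Real.Gamma (1 / 2)) ≤
      (2 * Real.exp 1 * Real.Gamma (7 / 16) + 2 * Real.Gamma (1 / 2)) / √c := by
    have e1 : (1 / 1 : ℝ) ^ (7 / 16 : ℝ) = 1 := by norm_num
    have e2 : (1 / (2 * c)) ^ (1 / 2 : ℝ) ≤ 1 / √c := by
      rw [← Real.sqrt_eq_rpow, Real.sqrt_div zero_le_one, Real.sqrt_one]
      refine one_div_le_one_div_of_le hsc (Real.sqrt_le_sqrt (by linarith))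
    have e3 : (1 : ℝ) ≤ 1 / √c := by
      rw [le_div_iff₀ hsc, one_mul]
      exact Real.sqrt_le_one.2 hc1
    rw [e1, add_div]
    have e4 : 2 * Real.exp 1 * (1 * Real.Gamma (7 / 16)) ≤
        2 * Real.exp 1 * Real.Gamma (7 / 16) / √c := by
      rw [one_mul, ← mul_one_div (2 * Real.exp 1 * Real.Gamma (7 / 16))]
      exact le_mul_of_one_le_right (by positivity) e3
    have e5 : 2 * ((1 / (2 * c)) ^ (1 / 2 : ℝ) * Real.Gamma (1 / 2)) ≤
        2 * Real.Gamma (1 / 2) / √c := by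
      rw [← mul_one_div (2 * Real.Gamma (1 / 2))]
      calc 2 * ((1 / (2 * c)) ^ (1 / 2 : ℝ) * Real.Gamma (1 / 2)) =
            2 * Real.Gamma (1 / 2) * (1 / (2 * c)) ^ (1 / 2 : ℝ) := by ring
        _ ≤ _ := mul_le_mul_of_nonneg_left e2 (by positivity)
    linarith
  have h7 : 1 / √c ≤ √(Real.pi / 2) / √(Real.pi / 2 - |d.im|) := by
    have hd' : |d.im| < Real.pi / 2 := hd
    have hp := Real.pi_pos
    have h8 := cos_lower hd
    rw [← hcdef] at h8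
    rw [← Real.sqrt_div (by positivity), ← Real.sqrt_one, ← Real.sqrt_div zero_le_one]
    refine Real.sqrt_le_sqrt ?_
    rw [div_le_div_iff₀ hc (by linarith)]
    have h9 : Real.pi / 2 * (2 / Real.pi * (Real.pi / 2 - |d.im|)) ≤ Real.pi / 2 * c :=
      mul_le_mul_of_nonneg_left h8 (by positivity)
    have h10 : Real.pi / 2 * (2 / Real.pi * (Real.pi / 2 - |d.im|)) = Real.pi / 2 - |d.im| := by
      field_simp
    linarith
  have hexp : Real.exp (-(d.re / 2)) = √E := by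
    rw [hE, Real.sqrt_eq_rpow, ← Real.exp_mul]
    congr 1
    ring
  set S := 2 * Real.exp 1 * Real.Gamma (7 / 16) + 2 * Real.Gamma (1 / 2) with hSdef
  have hS0 : 0 < S := by positivity
  have hcoef : 32 * E ^ 2 * C ^ 2 / √(2 * E) * (2 * E)⁻¹ ≤ 32 * C ^ 2 * √E := by
    have q1 : √(2 * E) = √2 * √E := Real.sqrt_mul (by norm_num) E
    have q2 : √E * √E = E := Real.mul_self_sqrt hE0.le
    have q3 : 0 < √E := Real.sqrt_pos.2 hE0
    have q4 : 1 ≤ √2 := Real.one_le_sqrt.2 (by norm_num)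
    rw [q1, ← div_eq_mul_inv, div_div, div_le_iff₀ (by positivity)]
    have q5 : 32 * C ^ 2 * √E * (√2 * √E * (2 * E)) = 32 * C ^ 2 * (√E * √E) * (√2 * 2 * E) := by
      ring
    rw [q5, q2]
    have q6 : 0 < C ^ 2 * E ^ 2 := by positivity
    nlinarith
  calc 32 * E ^ 2 * C ^ 2 / √(2 * E) * ((2 * E)⁻¹ *
      (2 * Real.exp 1 * ((1 / 1) ^ (7 / 16 : ℝ) * Real.Gamma (7 / 16)) +
        2 * ((1 / (2 * c)) ^ (1 / 2 : ℝ) * Real.Gamma (1 / 2)))) =
      (32 * E ^ 2 * C ^ 2 / √(2 * E) * (2 * E)⁻¹) *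
      (2 * Real.exp 1 * ((1 / 1) ^ (7 / 16 : ℝ) * Real.Gamma (7 / 16)) +
        2 * ((1 / (2 * c)) ^ (1 / 2 : ℝ) * Real.Gamma (1 / 2))) := by ring
    _ ≤ (32 * C ^ 2 * √E) * (S / √c) := by
      refine mul_le_mul hcoef h6 ?_ (by positivity)
      positivity
    _ = (32 * C ^ 2 * √E * S) * (1 / √c) := by ring
    _ ≤ (32 * C ^ 2 * √E * S) * (√(Real.pi / 2) / √(Real.pi / 2 - |d.im|)) :=
      mul_le_mul_of_nonneg_left h7 (by positivity)
    _ = _ := by rw [hexp]; ring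

end FMZ
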