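import Pool.Agent.FMZ.TZ

/-!
# FMZ-Z9: assembly near iπ/2
-/

open Complex MeasureTheory Set Filter Topology

namespace FMZ

namespace ZIM_

lemma P1_bound (Cz A : ℝ) (d : ℂ) (_hCz : 0 ≤ Cz) (hz : ∀ t : ℝ, ‖zh t‖ ≤ Cz * (1 + |t|) ^ (2 / 5 : ℝ))
    (hj : ∀ u : ℝ, ‖jf u d‖ ≤ A / (1 + u ^ 2)) : ‖P1 d‖ ≤ Cz ^ 4 * A ^ 2 := by
  have hb : ∀ u : ℝ, ‖((‖zh u‖ ^ 4 : ℝ) : ℂ) * jf u d ^ 2‖ ≤ 2 * Cz ^ 4 * A ^ 2 * (1 + u ^ 2)⁻¹ := by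
    intro u
    have hu : 0 < 1 + u ^ 2 := by positivity
    have h1 : ‖zh u‖ ^ 4 ≤ Cz ^ 4 * (2 * (1 + u ^ 2)) := by
      have e1 : ‖zh u‖ ^ 4 ≤ (Cz * (1 + |u|) ^ (2 / 5 : ℝ)) ^ 4 :=
        pow_le_pow_left₀ (norm_nonneg _) (hz u) 4
      have h1u : (1 : ℝ) ≤ 1 + |u| := by linarith [abs_nonneg u]
      have e2 : ((1 + |u|) ^ (2 / 5 : ℝ)) ^ 4 ≤ (1 + |u|) ^ 2 := by
        rw [← Real.rpow_natCast, ← Real.rpow_natCast, ← Real.rpow_mul (by linarith)]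
        exact Real.rpow_le_rpow_of_exponent_le h1u (by norm_num)
      have e3 : (1 + |u|) ^ 2 ≤ 2 * (1 + u ^ 2) := by
        have := sq_abs u
        nlinarith [sq_nonneg (1 - |u|)]
      calc ‖zh u‖ ^ 4 ≤ (Cz * (1 + |u|) ^ (2 / 5 : ℝ)) ^ 4 := e1
        _ = Cz ^ 4 * ((1 + |u|) ^ (2 / 5 : ℝ)) ^ 4 := mul_pow _ _ _
        _ ≤ Cz ^ 4 * (2 * (1 + u ^ 2)) :=
            mul_le_mul_of_nonneg_left (e2.trans e3) (by positivity)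
    have h2 : ‖jf u d‖ ^ 2 ≤ (A / (1 + u ^ 2)) ^ 2 := pow_le_pow_left₀ (norm_nonneg _) (hj u) 2
    rw [norm_mul, norm_pow, Complex.norm_real, Real.norm_of_nonneg (by positivity)]
    calc ‖zh u‖ ^ 4 * ‖jf u d‖ ^ 2
        ≤ (Cz ^ 4 * (2 * (1 + u ^ 2))) * (A / (1 + u ^ 2)) ^ 2 :=
          mul_le_mul h1 h2 (by positivity) (by positivity)
      _ = 2 * Cz ^ 4 * A ^ 2 * (1 + u ^ 2)⁻¹ := by field_simp
  have hint : ‖∫ u : ℝ, ((‖zh u‖ ^ 4 : ℝ) : ℂ) * jf u d ^ 2‖ ≤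
      ∫ u : ℝ, 2 * Cz ^ 4 * A ^ 2 * (1 + u ^ 2)⁻¹ :=
    norm_integral_le_of_norm_le (integrable_inv_one_add_sq.const_mul _)
      (Filter.Eventually.of_forall hb)
  rw [integral_const_mul, integral_univ_inv_one_add_sq] at hint
  have hpi := Real.pi_pos
  rw [P1, norm_mul, Complex.norm_real, Real.norm_of_nonneg (by positivity)]
  calc 1 / (2 * Real.pi) * ‖∫ u : ℝ, ((‖zh u‖ ^ 4 : ℝ) : ℂ) * jf u d ^ 2‖
      ≤ 1 / (2 * Real.pi) * (2 * Cz ^ 4 * A ^ 2 * Real.pi) :=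
        mul_le_mul_of_nonneg_left hint (by positivity)
    _ = Cz ^ 4 * A ^ 2 := by field_simp

lemma alg (q L : ℝ) (l0 l1 l2 cc E0 E1 E2 : ℂ) (C0 C1 C2 : ℝ) (hq : 0 ≤ q) (hL : 0 ≤ L)
    (h0 : ‖E0‖ ≤ C0 * q) (h1 : ‖E1‖ ≤ C1 * q * (1 + L)) (h2 : ‖E2‖ ≤ C2 * q * (1 + L) ^ 2)
    (hC0 : 0 ≤ C0) (_hC1 : 0 ≤ C1) (hC2 : 0 ≤ C2) :
    ‖(q : ℂ) * (-2 * q * (l2 + (cc + L) * l1) + (l1 + (cc + L) * l0) * (E0 - 2 * q * L)
      + (l0 - (cc + L) / 2) * (E1 - q * L ^ 2) - 1 / 2 * (E2 - 1 / 3 * q * L ^ 3))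
      - 2 / 3 * q ^ 2 * L ^ 3‖ ≤
    (2 * (‖l2‖ + (‖cc‖ + 1) * ‖l1‖) + (‖l1‖ + (‖cc‖ + 1) * ‖l0‖) * (C0 + 2) +
      (‖l0‖ + (‖cc‖ + 1)) * C1 + (‖l0‖ + ‖cc‖) + C2) * (q ^ 2 * (1 + L) ^ 2) := by
  set X : ℝ := 1 + L with hX
  have hX1 : 1 ≤ X := by linarith
  have hX0 : 0 ≤ X := by linarith
  have hXX : X ≤ X ^ 2 := by nlinarith
  have hX2 : 1 ≤ X ^ 2 := by nlinarith
  have hcL : ‖cc + L‖ ≤ (‖cc‖ + 1) * X := by
    have e1 : ‖cc + L‖ ≤ ‖cc‖ + L := by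
      refine (norm_add_le _ _).trans ?_
      rw [Complex.norm_real, Real.norm_of_nonneg hL]
    nlinarith [norm_nonneg cc]
  have key : (q : ℂ) * (-2 * q * (l2 + (cc + L) * l1) + (l1 + (cc + L) * l0) * (E0 - 2 * q * L)
      + (l0 - (cc + L) / 2) * (E1 - q * L ^ 2) - 1 / 2 * (E2 - 1 / 3 * q * L ^ 3))
      - 2 / 3 * q ^ 2 * L ^ 3 =
    (q : ℂ) ^ 2 * (-2 * (l2 + (cc + L) * l1)) + q * ((l1 + (cc + L) * l0) * E0) +
      (q : ℂ) ^ 2 * ((-2 * L) * (l1 + (cc + L) * l0)) + q * ((l0 - (cc + L) / 2) * E1) +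
      (q : ℂ) ^ 2 * (-(L : ℂ) ^ 2 * (l0 - cc / 2)) + q * (-(1 / 2) * E2) := by ring
  rw [key]
  have hnq : ‖(q : ℂ)‖ = q := by rw [Complex.norm_real, Real.norm_of_nonneg hq]
  have hnL : ‖(L : ℂ)‖ = L := by rw [Complex.norm_real, Real.norm_of_nonneg hL]
  have n2 : ‖(2 : ℂ)‖ = 2 := by simp
  have hl10 : ‖l1 + (cc + L) * l0‖ ≤ (‖l1‖ + (‖cc‖ + 1) * ‖l0‖) * X := by
    have e1 : ‖(cc + L) * l0‖ ≤ ((‖cc‖ + 1) * X) * ‖l0‖ := by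
      rw [norm_mul]
      exact mul_le_mul_of_nonneg_right hcL (norm_nonneg _)
    have e2 : ‖l1‖ ≤ ‖l1‖ * X := le_mul_of_one_le_right (norm_nonneg _) hX1
    calc ‖l1 + (cc + L) * l0‖ ≤ ‖l1‖ + ‖(cc + L) * l0‖ := norm_add_le _ _
      _ ≤ ‖l1‖ * X + ((‖cc‖ + 1) * X) * ‖l0‖ := add_le_add e2 e1
      _ = (‖l1‖ + (‖cc‖ + 1) * ‖l0‖) * X := by ring
  have b1 : ‖(q : ℂ) ^ 2 * (-2 * (l2 + (cc + L) * l1))‖ ≤
      (2 * (‖l2‖ + (‖cc‖ + 1) * ‖l1‖)) * (q ^ 2 * X ^ 2) := by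
    have e1 : ‖l2 + (cc + L) * l1‖ ≤ (‖l2‖ + (‖cc‖ + 1) * ‖l1‖) * X := by
      have e1 : ‖(cc + L) * l1‖ ≤ ((‖cc‖ + 1) * X) * ‖l1‖ := by
        rw [norm_mul]
        exact mul_le_mul_of_nonneg_right hcL (norm_nonneg _)
      have e2 : ‖l2‖ ≤ ‖l2‖ * X := le_mul_of_one_le_right (norm_nonneg _) hX1
      calc ‖l2 + (cc + L) * l1‖ ≤ ‖l2‖ + ‖(cc + L) * l1‖ := norm_add_le _ _
        _ ≤ ‖l2‖ * X + ((‖cc‖ + 1) * X) * ‖l1‖ := add_le_add e2 e1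
        _ = (‖l2‖ + (‖cc‖ + 1) * ‖l1‖) * X := by ring
    rw [norm_mul, norm_pow, hnq, norm_mul, norm_neg, n2]
    calc q ^ 2 * (2 * ‖l2 + (cc + L) * l1‖)
        ≤ q ^ 2 * (2 * ((‖l2‖ + (‖cc‖ + 1) * ‖l1‖) * X ^ 2)) := by
          refine mul_le_mul_of_nonneg_left ?_ (by positivity)
          refine mul_le_mul_of_nonneg_left (e1.trans ?_) (by norm_num)
          exact mul_le_mul_of_nonneg_left hXX (by positivity)
      _ = _ := by ring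
  have b2 : ‖(q : ℂ) * ((l1 + (cc + L) * l0) * E0)‖ ≤
      ((‖l1‖ + (‖cc‖ + 1) * ‖l0‖) * C0) * (q ^ 2 * X ^ 2) := by
    rw [norm_mul, hnq, norm_mul]
    calc q * (‖l1 + (cc + L) * l0‖ * ‖E0‖)
        ≤ q * (((‖l1‖ + (‖cc‖ + 1) * ‖l0‖) * X) * (C0 * q)) := by
          refine mul_le_mul_of_nonneg_left ?_ hq
          exact mul_le_mul hl10 h0 (norm_nonneg _) (by positivity)
      _ = ((‖l1‖ + (‖cc‖ + 1) * ‖l0‖) * C0 * q ^ 2) * X := by ring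
      _ ≤ ((‖l1‖ + (‖cc‖ + 1) * ‖l0‖) * C0 * q ^ 2) * X ^ 2 :=
          mul_le_mul_of_nonneg_left hXX (by positivity)
      _ = _ := by ring
  have b3 : ‖(q : ℂ) ^ 2 * ((-2 * L) * (l1 + (cc + L) * l0))‖ ≤
      ((‖l1‖ + (‖cc‖ + 1) * ‖l0‖) * 2) * (q ^ 2 * X ^ 2) := by
    rw [norm_mul, norm_pow, hnq, norm_mul, norm_mul, norm_neg, n2, hnL]
    calc q ^ 2 * (2 * L * ‖l1 + (cc + L) * l0‖)
        ≤ q ^ 2 * (2 * X * ((‖l1‖ + (‖cc‖ + 1) * ‖l0‖) * X)) := by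
          refine mul_le_mul_of_nonneg_left ?_ (by positivity)
          refine mul_le_mul ?_ hl10 (norm_nonneg _) (by positivity)
          linarith
      _ = _ := by ring
  have b4 : ‖(q : ℂ) * ((l0 - (cc + L) / 2) * E1)‖ ≤
      ((‖l0‖ + (‖cc‖ + 1)) * C1) * (q ^ 2 * X ^ 2) := by
    have e1 : ‖l0 - (cc + L) / 2‖ ≤ (‖l0‖ + (‖cc‖ + 1)) * X := by
      have e2 : ‖l0‖ ≤ ‖l0‖ * X := le_mul_of_one_le_right (norm_nonneg _) hX1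
      have e3 : ‖(cc + L) / 2‖ ≤ (‖cc‖ + 1) * X := by
        rw [norm_div, n2]
        have := norm_nonneg (cc + L)
        linarith
      calc ‖l0 - (cc + L) / 2‖ ≤ ‖l0‖ + ‖(cc + L) / 2‖ := norm_sub_le _ _
        _ ≤ ‖l0‖ * X + (‖cc‖ + 1) * X := add_le_add e2 e3
        _ = _ := by ring
    rw [norm_mul, hnq, norm_mul]
    calc q * (‖l0 - (cc + L) / 2‖ * ‖E1‖)
        ≤ q * (((‖l0‖ + (‖cc‖ + 1)) * X) * (C1 * q * X)) := by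
          refine mul_le_mul_of_nonneg_left ?_ hq
          exact mul_le_mul e1 h1 (norm_nonneg _) (by positivity)
      _ = _ := by ring
  have b5 : ‖(q : ℂ) ^ 2 * (-(L : ℂ) ^ 2 * (l0 - cc / 2))‖ ≤
      (‖l0‖ + ‖cc‖) * (q ^ 2 * X ^ 2) := by
    have e1 : ‖l0 - cc / 2‖ ≤ ‖l0‖ + ‖cc‖ := by
      refine (norm_sub_le _ _).trans ?_
      rw [norm_div, n2]
      have := norm_nonneg cc
      linarith
    have e2 : L ^ 2 ≤ X ^ 2 := pow_le_pow_left₀ hL (by linarith) 2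
    rw [norm_mul, norm_pow, hnq, norm_mul, norm_neg, norm_pow, hnL]
    calc q ^ 2 * (L ^ 2 * ‖l0 - cc / 2‖) ≤ q ^ 2 * (X ^ 2 * (‖l0‖ + ‖cc‖)) := by
          refine mul_le_mul_of_nonneg_left ?_ (by positivity)
          exact mul_le_mul e2 e1 (norm_nonneg _) (by positivity)
      _ = _ := by ring
  have b6 : ‖(q : ℂ) * (-(1 / 2) * E2)‖ ≤ C2 * (q ^ 2 * X ^ 2) := by
    rw [norm_mul, hnq, norm_mul, norm_neg, norm_div, n2, norm_one]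
    calc q * (1 / 2 * ‖E2‖) ≤ q * (1 / 2 * (C2 * q * X ^ 2)) := by
          refine mul_le_mul_of_nonneg_left ?_ hq
          exact mul_le_mul_of_nonneg_left h2 (by norm_num)
      _ = 1 / 2 * (C2 * (q ^ 2 * X ^ 2)) := by ring
      _ ≤ C2 * (q ^ 2 * X ^ 2) := by
          have : 0 ≤ C2 * (q ^ 2 * X ^ 2) := by positivity
          linarith
  refine ((norm_add_le _ _).trans (add_le_add ((norm_add_le _ _).trans (add_le_add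
    ((norm_add_le _ _).trans (add_le_add ((norm_add_le _ _).trans (add_le_add
    ((norm_add_le _ _).trans (add_le_add b1 b2)) b3)) b4)) b5)) b6)).trans (le_of_eq ?_)
  ring

end ZIM_

/-- behaviour near iπ/2 -/
theorem pZIM (h1 : tJU) (h2 : tJKIM) (h3 : tZLB) : ZIM := by
  obtain ⟨-, -, -, ⟨CJ, hCJ⟩, -⟩ := h1
  obtain ⟨Cz, hCz0, hCz⟩ := h3
  obtain ⟨C0, hC0⟩ := h2 0
  obtain ⟨C1, hC1⟩ := h2 1
  obtain ⟨C2, hC2⟩ := h2 2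
  set K : ℝ := (2 * (‖lam 2‖ + (‖(c0 : ℂ)‖ + 1) * ‖lam 1‖) +
    (‖lam 1‖ + (‖(c0 : ℂ)‖ + 1) * ‖lam 0‖) * (|C0| + 2) +
      (‖lam 0‖ + (‖(c0 : ℂ)‖ + 1)) * |C1| + (‖lam 0‖ + ‖(c0 : ℂ)‖) + |C2|) with hK
  refine ⟨4 * (Cz ^ 4 * CJ ^ 2) + 16 * K, max (Real.pi / 4) (Real.arccos (Real.exp (-1))), ?_, ?_⟩
  · refine max_lt (by linarith [Real.pi_pos]) ?_
    exact Real.arccos_lt_pi_div_two.2 (Real.exp_pos _)
  intro ψ hψ0 hψ1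
  have hψ2 : Real.pi / 4 ≤ ψ := (le_max_left _ _).trans hψ0.le
  have hψ3 : Real.arccos (Real.exp (-1)) < ψ := lt_of_le_of_lt (le_max_right _ _) hψ0
  have hpi := Real.pi_pos
  have hc : 0 < Real.cos ψ := Real.cos_pos_of_mem_Ioo ⟨by linarith, hψ1⟩
  have hc1 : Real.cos ψ ≤ Real.exp (-1) := by
    have e1 : Real.cos ψ ≤ Real.cos (Real.arccos (Real.exp (-1))) :=
      Real.cos_le_cos_of_nonneg_of_le_pi (Real.arccos_nonneg _) (by linarith) hψ3.le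
    rwa [Real.cos_arccos (by linarith [Real.exp_pos (-1)])
      (Real.exp_le_one_iff.2 (by norm_num))] at e1
  have hcle1 : Real.cos ψ ≤ 1 := Real.cos_le_one ψ
  set c : ℝ := Real.cos ψ with hcdef
  set L : ℝ := -Real.log c with hL
  have hL1 : 1 ≤ L := by
    have e1 : Real.log c ≤ Real.log (Real.exp (-1)) := Real.log_le_log hc hc1
    rw [Real.log_exp] at e1
    linarith
  have hL0 : 0 ≤ L := by linarith
  have hlogL : 1 - Real.log c = 1 + L := by rw [hL]; ring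
  set q : ℝ := c ^ (-(1 / 2) : ℝ) with hq
  have hq0 : 0 ≤ q := by positivity
  have hq2 : q ^ 2 = 1 / c := by
    rw [hq, ← Real.rpow_natCast, ← Real.rpow_mul hc.le]
    have : (-(1 / 2) : ℝ) * ((2 : ℕ) : ℝ) = -1 := by norm_num
    rw [this, Real.rpow_neg_one, one_div]
  -- the values of qf and cpr
  have hcosh : Complex.cosh (ψ * I) = (c : ℂ) := by
    rw [Complex.cosh_mul_I, ← Complex.ofReal_cos]
  have hqf : qf (ψ * I) = (q : ℂ) := by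
    rw [qf, hcosh, hq, Complex.ofReal_cpow hc.le]
    push_cast
    rfl
  have hcpr : cpr (ψ * I) = (c0 : ℂ) + L := by
    rw [cpr, hcosh, ← Complex.ofReal_log hc.le, hL]
    push_cast
    try ring
  -- the three functions jk
  have k0 := hC0 ψ hψ2 hψ1
  have k1 := hC1 ψ hψ2 hψ1
  have k2 := hC2 ψ hψ2 hψ1
  simp only [← hcdef, ← hL, ← hq, hlogL] at k0 k1 k2
  set E0 : ℂ := jk 0 (ψ * I) + 2 * q * L with hE0
  set E1 : ℂ := jk 1 (ψ * I) + q * L ^ 2 with hE1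
  set E2 : ℂ := jk 2 (ψ * I) + 1 / 3 * q * L ^ 3 with hE2
  have m0 : ‖E0‖ ≤ |C0| * q := by
    have e1 : jk 0 (ψ * I) + ((2 / ((0 + 1).factorial : ℝ) * q * L ^ (0 + 1) : ℝ) : ℂ) = E0 := by
      rw [hE0]
      simp [Nat.factorial]
    rw [e1] at k0
    refine k0.trans ?_
    rw [pow_zero, mul_one]
    exact mul_le_mul_of_nonneg_right (le_abs_self _) hq0
  have m1 : ‖E1‖ ≤ |C1| * q * (1 + L) := by
    have e1 : jk 1 (ψ * I) + ((2 / ((1 + 1).factorial : ℝ) * q * L ^ (1 + 1) : ℝ) : ℂ) = E1 := by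
      rw [hE1]
      simp [Nat.factorial]
    rw [e1] at k1
    refine k1.trans ?_
    rw [pow_one]
    exact mul_le_mul_of_nonneg_right (mul_le_mul_of_nonneg_right (le_abs_self _) hq0)
      (by linarith)
  have m2 : ‖E2‖ ≤ |C2| * q * (1 + L) ^ 2 := by
    have e1 : jk 2 (ψ * I) + ((2 / ((2 + 1).factorial : ℝ) * q * L ^ (2 + 1) : ℝ) : ℂ) = E2 := by
      rw [hE2]
      have : ((2 + 1).factorial : ℝ) = 6 := by norm_num [Nat.factorial]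
      rw [this]
      push_cast
      ring
    rw [e1] at k2
    refine k2.trans ?_
    exact mul_le_mul_of_nonneg_right (mul_le_mul_of_nonneg_right (le_abs_self _) hq0)
      (by positivity)
  -- J0
  have hJ0 : ‖J0 (ψ * I) - 2 / 3 * (q : ℂ) ^ 2 * L ^ 3‖ ≤ K * (q ^ 2 * (1 + L) ^ 2) := by
    have := ZIM_.alg q L (lam 0) (lam 1) (lam 2) (c0 : ℂ) E0 E1 E2 |C0| |C1| |C2| hq0 hL0 m0 m1 m2
      (abs_nonneg _) (abs_nonneg _) (abs_nonneg _)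
    rw [← hK] at this
    refine le_trans (le_of_eq ?_) this
    congr 1
    rw [J0, hqf, hcpr]
    have t0 : jk 0 (ψ * I) = E0 - 2 * q * L := by rw [hE0]; ring
    have t1 : jk 1 (ψ * I) = E1 - q * L ^ 2 := by rw [hE1]; ring
    have t2 : jk 2 (ψ * I) = E2 - 1 / 3 * q * L ^ 3 := by rw [hE2]; ring
    rw [t0, t1, t2]
  -- P1
  have hP1 : ‖P1 (ψ * I)‖ ≤ Cz ^ 4 * (CJ * (1 + L)) ^ 2 := by
    refine ZIM_.P1_bound Cz (CJ * (1 + L)) (ψ * I) hCz0.le hCz ?_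
    intro u
    have := hCJ ψ u hψ2 hψ1
    rwa [← hcdef, hlogL] at this
  have hqc : (1 : ℝ) ≤ q ^ 2 := by
    rw [hq2, le_div_iff₀ hc]
    linarith
  have hfin : B0 (ψ * I) - ((8 / 3 : ℝ) : ℂ) * ((L ^ 3 / c : ℝ) : ℂ) =
      P1 (ψ * I) + 4 * (J0 (ψ * I) - 2 / 3 * (q : ℂ) ^ 2 * L ^ 3) := by
    have e1 : ((q : ℂ)) ^ 2 = ((1 / c : ℝ) : ℂ) := by
      rw [← hq2]
      push_cast
      rfl
    rw [B0, e1]
    push_cast
    ring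
  have hX4 : (1 + L) ^ 2 ≤ 4 * L ^ 2 := by nlinarith
  have hK0 : 0 ≤ K := by positivity
  have hgoal : ‖B0 (ψ * I) - ((8 / 3 : ℝ) : ℂ) * ((L ^ 3 / c : ℝ) : ℂ)‖ ≤
      (4 * (Cz ^ 4 * CJ ^ 2) + 16 * K) * L ^ 2 / c := by
    rw [hfin]
    calc ‖P1 (ψ * I) + 4 * (J0 (ψ * I) - 2 / 3 * (q : ℂ) ^ 2 * L ^ 3)‖
        ≤ ‖P1 (ψ * I)‖ + 4 * ‖J0 (ψ * I) - 2 / 3 * (q : ℂ) ^ 2 * L ^ 3‖ := by
          refine (norm_add_le _ _).trans (le_of_eq ?_)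
          rw [norm_mul]
          norm_num
      _ ≤ Cz ^ 4 * (CJ * (1 + L)) ^ 2 + 4 * (K * (q ^ 2 * (1 + L) ^ 2)) :=
          add_le_add hP1 (mul_le_mul_of_nonneg_left hJ0 (by norm_num))
      _ = (Cz ^ 4 * CJ ^ 2) * (1 + L) ^ 2 * 1 + 4 * K * q ^ 2 * (1 + L) ^ 2 := by ring
      _ ≤ (Cz ^ 4 * CJ ^ 2) * (4 * L ^ 2) * q ^ 2 + 4 * K * q ^ 2 * (4 * L ^ 2) := by
          refine add_le_add ?_ ?_
          · refine mul_le_mul ?_ hqc (by norm_num) (by positivity)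
            exact mul_le_mul_of_nonneg_left hX4 (by positivity)
          · exact mul_le_mul_of_nonneg_left hX4 (by positivity)
      _ = (4 * (Cz ^ 4 * CJ ^ 2) + 16 * K) * L ^ 2 / c := by
          rw [hq2]
          ring
  exact hgoal

end FMZ
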