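import Pool.Agent.FMZ.TZ

/-!
# FMZ-Z8: the functions 𝔧_k near iπ/2
-/

open Complex MeasureTheory Set Filter Topology

namespace FMZ

namespace ZJIM_

/-- `|(1+z)^(-1/2) - 1| ≤ |z|/2` for `Re z ≥ 0` -/
lemma sqrt_inv_sub {z : ℂ} (hz : 0 ≤ z.re) : ‖(1 + z) ^ (-(1 / 2) : ℂ) - 1‖ ≤ ‖z‖ / 2 := by
  have hmem : ∀ t ∈ Icc (0 : ℝ) 1, (1 + (t : ℂ) * z) ∈ slitPlane := by
    intro t ht
    refine Complex.mem_slitPlane_iff.2 (Or.inl ?_)
    rw [Complex.add_re, Complex.one_re, Complex.re_ofReal_mul]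
    have := mul_nonneg ht.1 hz
    linarith
  have hnorm : ∀ t ∈ Icc (0 : ℝ) 1, 1 ≤ ‖1 + (t : ℂ) * z‖ := by
    intro t ht
    refine le_trans ?_ (Complex.re_le_norm _)
    rw [Complex.add_re, Complex.one_re, Complex.re_ofReal_mul]
    have := mul_nonneg ht.1 hz
    linarith
  have h := norm_image_sub_le_of_norm_deriv_le_segment_01' (C := ‖z‖ / 2)
    (f := fun t : ℝ => (1 + (t : ℂ) * z) ^ (-(1 / 2) : ℂ))
    (f' := fun t : ℝ => (-(1 / 2) : ℂ) * (1 + (t : ℂ) * z) ^ ((-(1 / 2) : ℂ) - 1) * z) ?_ ?_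
  · simpa using h
  · intro t ht
    have h1 : HasDerivAt (fun t : ℝ => (1 + (t : ℂ) * z)) z t := by
      have h2 : HasDerivAt (fun t : ℝ => (t : ℂ)) 1 t := by
        simpa using (hasDerivAt_id t).ofReal_comp
      simpa using (h2.mul_const z).const_add (1 : ℂ)
    have h3 := (hasStrictDerivAt_cpow_const (c := (-(1 / 2) : ℂ)) (hmem t ht)).hasDerivAt
    exact (h3.comp_of_eq t h1 rfl).hasDerivWithinAt
  · intro t ht
    have ht' : t ∈ Icc (0 : ℝ) 1 := ⟨ht.1, ht.2.le⟩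
    have h4 : ((-(1 / 2) : ℂ) - 1) = ((-(3 / 2) : ℝ) : ℂ) := by push_cast; ring
    rw [norm_mul, norm_mul, h4, Complex.norm_cpow_real]
    have h5 : ‖(-(1 / 2) : ℂ)‖ = 1 / 2 := by rw [norm_neg]; simp
    have h6 : ‖1 + (t : ℂ) * z‖ ^ (-(3 / 2) : ℝ) ≤ 1 :=
      Real.rpow_le_one_of_one_le_of_nonpos (hnorm t ht') (by norm_num)
    rw [h5]
    have h7 := norm_nonneg z
    nlinarith [Real.rpow_nonneg (norm_nonneg (1 + (t : ℂ) * z)) (-(3 / 2) : ℝ)]

lemma real_mul_cpow {r : ℝ} (hr : 0 < r) {x : ℂ} (hx : x ≠ 0) (w : ℂ) :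
    ((r : ℂ) * x) ^ w = (r : ℂ) ^ w * x ^ w := by
  have hr' : (r : ℂ) ≠ 0 := Complex.ofReal_ne_zero.2 hr.ne'
  rw [Complex.cpow_def_of_ne_zero (mul_ne_zero hr' hx), Complex.cpow_def_of_ne_zero hr',
    Complex.cpow_def_of_ne_zero hx, ← Complex.exp_add, Complex.log_ofReal_mul hr hx,
    Complex.ofReal_log hr.le]
  congr 1
  ring

/-- the summands of `ph` on the imaginary axis; `σ = ± sin ψ` -/
lemma part_bound {c σ v : ℝ} (hc : 0 < c) (hc1 : c ≤ 1) (hσ : |σ| ≤ 1) (hv : 0 ≤ v) {G : ℂ}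
    (hG : G = c * Real.cosh v + σ * I) :
    ‖(2 * G) ^ (-(1 / 2) : ℂ) - ((c ^ (-(1 / 2) : ℝ) * Real.exp (-(v / 2)) : ℝ) : ℂ)‖ ≤
      3 / 2 * (c ^ (-(1 / 2) : ℝ) * Real.exp (-(v / 2))) * Real.exp (-Real.log c - v) := by
  set r : ℝ := c * Real.exp v with hr
  have hr0 : 0 < r := by positivity
  set z : ℂ := ((Real.exp (-v) * Real.exp (-v) : ℝ) : ℂ) + ((2 * σ / r : ℝ) : ℂ) * I with hz
  have hzre : z.re = Real.exp (-v) * Real.exp (-v) := by
    rw [hz]
    simp only [Complex.add_re, Complex.ofReal_re, Complex.mul_re, Complex.I_re, mul_zero,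
      Complex.ofReal_im, Complex.I_im, mul_one, sub_self, add_zero]
  have hzre0 : 0 ≤ z.re := by rw [hzre]; positivity
  have hev : Real.exp v * Real.exp (-v) = 1 := by rw [← Real.exp_add]; simp
  have h2G : 2 * G = (r : ℂ) * (1 + z) := by
    rw [hG, hz, hr, Real.cosh_eq]
    have hr1 : ((c * Real.exp v : ℝ) : ℂ) ≠ 0 := Complex.ofReal_ne_zero.2 hr0.ne'
    have e1 : ((c * Real.exp v : ℝ) : ℂ) * (1 + (((Real.exp (-v) * Real.exp (-v) : ℝ) : ℂ) +
        ((2 * σ / (c * Real.exp v) : ℝ) : ℂ) * I)) =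
        ((c * Real.exp v + c * (Real.exp v * Real.exp (-v)) * Real.exp (-v) : ℝ) : ℂ) +
          (((c * Real.exp v) * (2 * σ / (c * Real.exp v)) : ℝ) : ℂ) * I := by
      push_cast
      ring
    rw [e1, hev, mul_div_cancel₀ _ hr0.ne']
    push_cast
    ring
  have h1z : (1 + z) ≠ 0 := by
    intro h0
    have h3 := congrArg Complex.re h0
    rw [Complex.add_re, Complex.one_re, Complex.zero_re] at h3
    linarith
  have hrp : (r : ℂ) ^ (-(1 / 2) : ℂ) = ((c ^ (-(1 / 2) : ℝ) * Real.exp (-(v / 2)) : ℝ) : ℂ) := by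
    have h4 : (-(1 / 2) : ℂ) = ((-(1 / 2) : ℝ) : ℂ) := by push_cast; ring
    rw [h4, ← Complex.ofReal_cpow hr0.le, hr, Real.mul_rpow hc.le (Real.exp_pos v).le,
      ← Real.exp_mul]
    congr 3
    ring
  have hq0 : 0 < c ^ (-(1 / 2) : ℝ) * Real.exp (-(v / 2)) := by positivity
  rw [h2G, real_mul_cpow hr0 h1z, hrp]
  have e2 : ((c ^ (-(1 / 2) : ℝ) * Real.exp (-(v / 2)) : ℝ) : ℂ) * (1 + z) ^ (-(1 / 2) : ℂ) -
      ((c ^ (-(1 / 2) : ℝ) * Real.exp (-(v / 2)) : ℝ) : ℂ) =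
      ((c ^ (-(1 / 2) : ℝ) * Real.exp (-(v / 2)) : ℝ) : ℂ) *
        ((1 + z) ^ (-(1 / 2) : ℂ) - 1) := by ring
  rw [e2, norm_mul, Complex.norm_real, Real.norm_of_nonneg hq0.le]
  have hz3 : ‖z‖ ≤ 3 * Real.exp (-Real.log c - v) := by
    have h5 : Real.exp (-Real.log c - v) = Real.exp (-v) / c := by
      rw [show -Real.log c - v = -v - Real.log c by ring, Real.exp_sub, Real.exp_log hc]
    have h6 : ‖z‖ ≤ Real.exp (-v) * Real.exp (-v) + 2 * |σ| / r := by
      refine (norm_add_le _ _).trans (add_le_add ?_ ?_)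
      · rw [Complex.norm_real, Real.norm_of_nonneg (by positivity)]
      · rw [norm_mul, Complex.norm_I, mul_one, Complex.norm_real, Real.norm_eq_abs, abs_div,
          abs_mul, abs_two, abs_of_pos hr0]
    have h7 : Real.exp (-v) ≤ 1 := Real.exp_le_one_iff.2 (by linarith)
    have h8 : Real.exp (-v) * Real.exp (-v) ≤ Real.exp (-v) / c := by
      rw [le_div_iff₀ hc]
      have h9 := Real.exp_pos (-v)
      have h10 : Real.exp (-v) * c ≤ 1 := by nlinarith
      calc Real.exp (-v) * Real.exp (-v) * c = Real.exp (-v) * (Real.exp (-v) * c) := by ring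
        _ ≤ Real.exp (-v) * 1 := mul_le_mul_of_nonneg_left h10 h9.le
        _ = Real.exp (-v) := mul_one _
    have h11 : 2 * |σ| / r ≤ 2 * (Real.exp (-v) / c) := by
      rw [hr, Real.exp_neg, ← one_div, div_div, mul_comm (Real.exp v) c, mul_one_div]
      exact div_le_div_of_nonneg_right (by linarith) (by positivity)
    rw [h5]
    linarith
  have h12 := sqrt_inv_sub hzre0
  calc (c ^ (-(1 / 2) : ℝ) * Real.exp (-(v / 2))) * ‖(1 + z) ^ (-(1 / 2) : ℂ) - 1‖
      ≤ (c ^ (-(1 / 2) : ℝ) * Real.exp (-(v / 2))) * (3 * Real.exp (-Real.log c - v) / 2) := by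
        refine mul_le_mul_of_nonneg_left (h12.trans ?_) hq0.le
        linarith
    _ = _ := by ring

lemma norm_part_le {G : ℂ} (hG : 1 ≤ ‖2 * G‖) : ‖(2 * G) ^ (-(1 / 2) : ℂ)‖ ≤ 1 := by
  have h4 : (-(1 / 2) : ℂ) = ((-(1 / 2) : ℝ) : ℂ) := by push_cast; ring
  rw [h4, Complex.norm_cpow_real]
  exact Real.rpow_le_one_of_one_le_of_nonpos hG (by norm_num)

lemma pow_le_exp (k : ℕ) {a y : ℝ} (ha : 0 < a) (hy : 0 ≤ y) :
    y ^ k ≤ a ^ k * k.factorial * Real.exp (y / a) := by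
  have h := Real.pow_div_factorial_le_exp (y / a) (by positivity) k
  rw [div_pow, div_div, div_le_iff₀ (by positivity)] at h
  linarith

section

variable {ψ : ℝ}

lemma gp_im (v : ℝ) : gp v (ψ * I) = (Real.cos ψ : ℂ) * Real.cosh v + (Real.sin ψ : ℝ) * I := by
  rw [gp, Complex.cosh_mul_I, Complex.sinh_mul_I, ← Complex.ofReal_cos, ← Complex.ofReal_sin]

lemma gm_im (v : ℝ) : gm v (ψ * I) = (Real.cos ψ : ℂ) * Real.cosh v +
    ((-Real.sin ψ : ℝ) : ℂ) * I := by
  rw [gm, Complex.cosh_mul_I, Complex.sinh_mul_I, ← Complex.ofReal_cos, ← Complex.ofReal_sin]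
  push_cast
  ring

lemma one_le_norm {c σ v : ℝ} (hσ : 1 / 2 ≤ |σ|) {G : ℂ} (hG : G = c * Real.cosh v + σ * I) :
    1 ≤ ‖2 * G‖ := by
  have h1 : (2 * G).im = 2 * σ := by
    rw [hG]
    simp
  have h2 := Complex.abs_im_le_norm (2 * G)
  rw [h1, abs_mul, abs_two] at h2
  linarith

lemma slit {c σ v : ℝ} (hc : 0 < c) {G : ℂ} (hG : G = c * Real.cosh v + σ * I) :
    2 * G ∈ slitPlane := by
  refine Complex.mem_slitPlane_iff.2 (Or.inl ?_)
  have h1 : (2 * G).re = 2 * (c * Real.cosh v) := by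
    rw [hG]
    simp [Complex.cosh_ofReal_re]
  rw [h1]
  have := Real.cosh_pos v
  positivity

end

end ZJIM_

open ZJIM_ in
theorem pJKIM : tJKIM := by
  intro k
  refine ⟨(1 / (k.factorial : ℝ)) * (2 * (4 ^ k * k.factorial) * 4 + (4 +
    3 * (2 ^ k * k.factorial * Real.exp (1 / 2)) * 2)), fun ψ hψ1 hψ2 => ?_⟩
  have hpi := Real.pi_pos
  set c : ℝ := Real.cos ψ with hcdef
  have hc : 0 < c := Real.cos_pos_of_mem_Ioo ⟨by linarith, hψ2⟩
  have hc1 : c ≤ 1 := Real.cos_le_one ψ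
  set L : ℝ := -Real.log c with hL
  have hL0 : 0 ≤ L := by
    have := Real.log_nonpos hc.le hc1
    rw [hL]; linarith
  set q : ℝ := c ^ (-(1 / 2) : ℝ) with hq
  have hq1 : 1 ≤ q := Real.one_le_rpow_of_pos_of_le_one_of_nonpos hc hc1 (by norm_num)
  have hq0 : 0 < q := by linarith
  have hqL : Real.exp (L / 2) = q := by
    rw [hq, Real.rpow_def_of_pos hc, hL]
    congr 1
    ring
  have hs : 1 / 2 ≤ Real.sin ψ := by
    have h1 : Real.sin (Real.pi / 4) ≤ Real.sin ψ :=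
      Real.sin_le_sin_of_le_of_le_pi_div_two (by linarith) hψ2.le hψ1
    rw [Real.sin_pi_div_four] at h1
    have h2 : (1 : ℝ) ≤ √2 := Real.one_le_sqrt.2 (by norm_num)
    linarith
  have hs1 : Real.sin ψ ≤ 1 := Real.sin_le_one ψ
  set A : ℝ → ℂ := fun v => ph (1 / 2) v (ψ * I) with hA
  have hAdef : ∀ v, A v = (2 * gp v (ψ * I)) ^ (-(1 / 2) : ℂ) +
      (2 * gm v (ψ * I)) ^ (-(1 / 2) : ℂ) := fun v => rfl
  have hA2 : ∀ v, ‖A v‖ ≤ 2 := by
    intro v
    rw [hAdef]
    refine (norm_add_le _ _).trans ?_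
    have h1 := norm_part_le (one_le_norm (σ := Real.sin ψ) (by rw [abs_of_pos (by linarith)]; exact hs)
      (gp_im (ψ := ψ) v))
    have h2 := norm_part_le (one_le_norm (σ := -Real.sin ψ)
      (by rw [abs_neg, abs_of_pos (by linarith)]; exact hs) (gm_im (ψ := ψ) v))
    linarith
  have hAc : Continuous A := by
    have hgp : Continuous (fun v : ℝ => 2 * gp v (ψ * I)) := by
      unfold gp
      fun_prop
    have hgm : Continuous (fun v : ℝ => 2 * gm v (ψ * I)) := by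
      unfold gm
      fun_prop
    exact (hgp.cpow continuous_const fun v => slit hc (gp_im (ψ := ψ) v)).add
      (hgm.cpow continuous_const fun v => slit hc (gm_im (ψ := ψ) v))
  have hqf : qf (ψ * I) = ((q : ℝ) : ℂ) := by
    rw [qf, Complex.cosh_mul_I, ← Complex.ofReal_cos, hq,
      show (-(1 / 2) : ℂ) = ((-(1 / 2) : ℝ) : ℂ) by push_cast; ring, ← Complex.ofReal_cpow hc.le]
  have hAq : ∀ v, 0 ≤ v → ‖A v - 2 * qf (ψ * I) * Real.exp (-(v / 2))‖ ≤
      3 * (q * Real.exp (-(v / 2))) * Real.exp (L - v) := by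
    intro v hv
    have h1 := part_bound (σ := Real.sin ψ) hc hc1 (by rw [abs_of_pos (by linarith)]; exact hs1) hv
      (gp_im (ψ := ψ) v)
    have h2 := part_bound (σ := -Real.sin ψ) hc hc1
      (by rw [abs_neg, abs_of_pos (by linarith)]; exact hs1) hv (gm_im (ψ := ψ) v)
    have e : A v - 2 * qf (ψ * I) * Real.exp (-(v / 2)) =
        ((2 * gp v (ψ * I)) ^ (-(1 / 2) : ℂ) - ((q * Real.exp (-(v / 2)) : ℝ) : ℂ)) +
        ((2 * gm v (ψ * I)) ^ (-(1 / 2) : ℂ) - ((q * Real.exp (-(v / 2)) : ℝ) : ℂ)) := by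
      rw [hAdef, hqf]
      push_cast
      ring
    rw [e]
    refine (norm_add_le _ _).trans ?_
    linarith
  -- the first integral
  have hI1 : ‖∫ v in Ioi (0 : ℝ), A v * ((-v) ^ k * Real.exp (-(v / 2)) : ℝ)‖ ≤
      2 * (4 ^ k * k.factorial) * 4 := by
    have hint : IntegrableOn (fun v : ℝ => 2 * (4 ^ k * k.factorial) * Real.exp (-(1 / 4) * v))
        (Ioi 0) := (integrableOn_exp_mul_Ioi (by norm_num) 0).const_mul _
    have hb := norm_integral_le_of_norm_le (μ := volume.restrict (Ioi (0 : ℝ)))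
      (f := fun v => A v * ((-v) ^ k * Real.exp (-(v / 2)) : ℝ)) hint ?_
    · refine hb.trans (le_of_eq ?_)
      rw [integral_const_mul, integral_exp_mul_Ioi (by norm_num)]
      simp
    · refine (ae_restrict_mem measurableSet_Ioi).mono fun v hv => ?_
      have hv0 : (0 : ℝ) < v := hv
      rw [norm_mul, Complex.norm_real, Real.norm_eq_abs, abs_mul, abs_pow, abs_neg,
        abs_of_pos hv0, abs_of_pos (Real.exp_pos _)]
      have h1 := pow_le_exp k (a := 4) (by norm_num) hv0.le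
      have h2 : Real.exp (v / 4) * Real.exp (-(v / 2)) = Real.exp (-(1 / 4) * v) := by
        rw [← Real.exp_add]; congr 1; ring
      calc ‖A v‖ * (v ^ k * Real.exp (-(v / 2)))
          ≤ 2 * ((4 ^ k * k.factorial * Real.exp (v / 4)) * Real.exp (-(v / 2))) := by
            gcongr
            exact hA2 v
        _ = 2 * (4 ^ k * k.factorial) * (Real.exp (v / 4) * Real.exp (-(v / 2))) := by ring
        _ = _ := by rw [h2]
  -- the second integral
  set F : ℝ → ℂ := fun v => (A v - 2 * qf (ψ * I) * Real.exp (-(v / 2))) *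
        (v ^ k * Real.exp (v / 2) : ℝ) with hF
  have hFc : Continuous F := by
    rw [hF]
    fun_prop
  have hFb : ∀ v ∈ Ioi L, ‖F v‖ ≤ 3 * q * (1 + L) ^ k * (2 ^ k * k.factorial * Real.exp (1 / 2)) *
      Real.exp (L / 2) * Real.exp (-(1 / 2) * v) := by
    intro v hv
    have hvL : L < v := hv
    have hv0 : 0 ≤ v := hL0.trans hvL.le
    rw [hF]
    dsimp only
    rw [norm_mul, Complex.norm_real, Real.norm_of_nonneg (by positivity)]
    have h1 := hAq v hv0
    have h2 : v ^ k ≤ (1 + L) ^ k * (1 + (v - L)) ^ k := by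
      rw [← mul_pow]
      refine pow_le_pow_left₀ hv0 ?_ k
      nlinarith
    have h3 := pow_le_exp k (a := 2) (y := 1 + (v - L)) (by norm_num) (by linarith)
    have h4 : Real.exp (-(v / 2)) * Real.exp (v / 2) = 1 := by rw [← Real.exp_add]; simp
    have h5 : Real.exp ((1 + (v - L)) / 2) * Real.exp (L - v) =
        Real.exp (1 / 2) * (Real.exp (L / 2) * Real.exp (-(1 / 2) * v)) := by
      rw [← Real.exp_add, ← Real.exp_add, ← Real.exp_add]; congr 1; ring
    calc ‖A v - 2 * qf (ψ * I) * Real.exp (-(v / 2))‖ * (v ^ k * Real.exp (v / 2))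
        ≤ (3 * (q * Real.exp (-(v / 2))) * Real.exp (L - v)) *
          (((1 + L) ^ k * (2 ^ k * k.factorial * Real.exp ((1 + (v - L)) / 2))) *
            Real.exp (v / 2)) := by
          have h6 : v ^ k ≤ (1 + L) ^ k * (2 ^ k * k.factorial * Real.exp ((1 + (v - L)) / 2)) :=
            h2.trans (mul_le_mul_of_nonneg_left h3 (by positivity))
          refine mul_le_mul h1 (mul_le_mul_of_nonneg_right h6 (Real.exp_pos _).le) (by positivity)
            (by positivity)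
      _ = 3 * q * (1 + L) ^ k * (2 ^ k * k.factorial) *
          (Real.exp ((1 + (v - L)) / 2) * Real.exp (L - v)) *
            (Real.exp (-(v / 2)) * Real.exp (v / 2)) := by ring
      _ = _ := by rw [h4, h5]; ring
  have hgint : IntegrableOn (fun v : ℝ => 3 * q * (1 + L) ^ k *
      (2 ^ k * k.factorial * Real.exp (1 / 2)) *
      Real.exp (L / 2) * Real.exp (-(1 / 2) * v)) (Ioi L) :=
    (integrableOn_exp_mul_Ioi (by norm_num) L).const_mul _
  have hFL : IntegrableOn F (Ioi L) := by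
    refine Integrable.mono' hgint hFc.aestronglyMeasurable ?_
    exact (ae_restrict_mem measurableSet_Ioi).mono fun v hv => hFb v hv
  have hF0 : IntegrableOn F (Ioc 0 L) :=
    (hFc.continuousOn.integrableOn_compact isCompact_Icc).mono_set Ioc_subset_Icc_self
  have hsplit : ∫ v in Ioi (0 : ℝ), F v = (∫ v in Ioc 0 L, F v) + ∫ v in Ioi L, F v := by
    rw [← setIntegral_union (Ioc_disjoint_Ioi le_rfl) measurableSet_Ioi hF0 hFL,
      Ioc_union_Ioi_eq_Ioi hL0]
  have hI3 : ‖∫ v in Ioi L, F v‖ ≤ 3 * (2 ^ k * k.factorial * Real.exp (1 / 2)) * 2 *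
      (q * (1 + L) ^ k) := by
    have hb := norm_integral_le_of_norm_le (μ := volume.restrict (Ioi L)) (f := F) hgint
      ((ae_restrict_mem measurableSet_Ioi).mono fun v hv => hFb v hv)
    refine hb.trans (le_of_eq ?_)
    rw [integral_const_mul, integral_exp_mul_Ioi (by norm_num)]
    have h4 : Real.exp (L / 2) * Real.exp (-(1 / 2) * L) = 1 := by
      rw [← Real.exp_add]; ring_nf; exact Real.exp_zero
    calc 3 * q * (1 + L) ^ k * (2 ^ k * k.factorial * Real.exp (1 / 2)) * Real.exp (L / 2) *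
          (-Real.exp (-(1 / 2) * L) / -(1 / 2))
        = 3 * q * (1 + L) ^ k * (2 ^ k * k.factorial * Real.exp (1 / 2)) * 2 *
          (Real.exp (L / 2) * Real.exp (-(1 / 2) * L)) := by ring
      _ = _ := by rw [h4]; ring
  have hI2 : ‖(∫ v in Ioc 0 L, F v) + ((2 * q * (L ^ (k + 1) / (k + 1)) : ℝ) : ℂ)‖ ≤
      4 * (q * (1 + L) ^ k) := by
    have e1 : ∫ v in Ioc 0 L, F v = (∫ v in (0 : ℝ)..L, A v * (v ^ k * Real.exp (v / 2) : ℝ)) -
        ∫ v in (0 : ℝ)..L, ((2 * q * v ^ k : ℝ) : ℂ) := by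
      rw [← intervalIntegral.integral_of_le hL0, ← intervalIntegral.integral_sub]
      · refine intervalIntegral.integral_congr fun v _ => ?_
        rw [hF]
        dsimp only
        rw [hqf]
        have h4 : Real.exp (-(v / 2)) * Real.exp (v / 2) = 1 := by rw [← Real.exp_add]; simp
        have h5 : (Real.exp (-(v / 2)) : ℂ) * (Real.exp (v / 2) : ℂ) = 1 := by
          rw [← Complex.ofReal_mul, h4, Complex.ofReal_one]
        calc (A v - 2 * (q : ℂ) * (Real.exp (-(v / 2)) : ℂ)) * ((v ^ k * Real.exp (v / 2) : ℝ) : ℂ)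
            = A v * ((v ^ k * Real.exp (v / 2) : ℝ) : ℂ) -
              ((2 * q * v ^ k : ℝ) : ℂ) * ((Real.exp (-(v / 2)) : ℂ) * (Real.exp (v / 2) : ℂ)) := by
              push_cast; ring
          _ = _ := by rw [h5, mul_one]
      · exact Continuous.intervalIntegrable (by fun_prop) _ _
      · exact Continuous.intervalIntegrable (by fun_prop) _ _
    have e2 : ∫ v in (0 : ℝ)..L, ((2 * q * v ^ k : ℝ) : ℂ) =
        ((2 * q * (L ^ (k + 1) / (k + 1)) : ℝ) : ℂ) := by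
      rw [intervalIntegral.integral_ofReal, intervalIntegral.integral_const_mul, integral_pow]
      simp
    rw [e1, e2, sub_add_cancel]
    have hb := intervalIntegral.norm_integral_le_of_norm_le (μ := volume) hL0
      (f := fun v => A v * (v ^ k * Real.exp (v / 2) : ℝ))
      (g := fun v => 2 * L ^ k * Real.exp ((1 / 2) * v)) ?_ ?_
    · refine hb.trans ?_
      rw [intervalIntegral.integral_const_mul, intervalIntegral.integral_comp_mul_left
        (fun v => Real.exp v) (by norm_num : (1 / 2 : ℝ) ≠ 0), integral_exp]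
      have h1 : L ^ k ≤ (1 + L) ^ k := pow_le_pow_left₀ hL0 (by linarith) k
      have h2 : Real.exp (1 / 2 * L) = q := by rw [← hqL]; congr 1; ring
      have h3 : 0 ≤ L ^ k := pow_nonneg hL0 k
      have h4 : (0 : ℝ) ≤ q * (1 + L) ^ k := by positivity
      rw [h2, mul_zero, Real.exp_zero, smul_eq_mul]
      calc 2 * L ^ k * ((1 / 2)⁻¹ * (q - 1)) = 4 * (L ^ k * (q - 1)) := by ring
        _ ≤ 4 * (L ^ k * q) := by
            refine mul_le_mul_of_nonneg_left (mul_le_mul_of_nonneg_left (by linarith) h3)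
              (by norm_num)
        _ ≤ 4 * ((1 + L) ^ k * q) := by
            refine mul_le_mul_of_nonneg_left (mul_le_mul_of_nonneg_right h1 hq0.le) (by norm_num)
        _ = 4 * (q * (1 + L) ^ k) := by ring
    · refine Filter.Eventually.of_forall fun v hv => ?_
      have hv0 : 0 < v := hv.1
      rw [norm_mul, Complex.norm_real, Real.norm_of_nonneg (by positivity)]
      have h1 : v ^ k ≤ L ^ k := pow_le_pow_left₀ hv0.le hv.2 k
      have h2 : Real.exp (v / 2) = Real.exp (1 / 2 * v) := by congr 1; ring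
      rw [h2]
      calc ‖A v‖ * (v ^ k * Real.exp (1 / 2 * v)) ≤ 2 * (L ^ k * Real.exp (1 / 2 * v)) := by
            gcongr
            exact hA2 v
        _ = _ := by ring
    · exact Continuous.intervalIntegrable (by fun_prop) _ _
  -- assembly
  have hfac : ((k + 1).factorial : ℝ) = (k + 1) * (k.factorial : ℝ) := by
    rw [Nat.factorial_succ]; push_cast; ring
  have hkf : (0 : ℝ) < k.factorial := by exact_mod_cast Nat.factorial_pos k
  have hk1 : (0 : ℝ) < (k : ℝ) + 1 := by positivity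
  have e3 : jk k (ψ * I) + (2 / ((k + 1).factorial : ℝ) * q * L ^ (k + 1) : ℝ) =
      ((1 / (k.factorial : ℝ) : ℝ) : ℂ) *
        ((∫ v in Ioi (0 : ℝ), A v * ((-v) ^ k * Real.exp (-(v / 2)) : ℝ)) +
        (((∫ v in Ioc 0 L, F v) + ((2 * q * (L ^ (k + 1) / (k + 1)) : ℝ) : ℂ)) +
          ∫ v in Ioi L, F v)) := by
    have e4 : (2 / ((k + 1).factorial : ℝ) * q * L ^ (k + 1) : ℝ) =
        (1 / (k.factorial : ℝ)) * (2 * q * (L ^ (k + 1) / (k + 1))) := by
      rw [hfac]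
      field_simp
    rw [e4, jk]
    have e5 : (∫ v in Ioi (0 : ℝ), (ph (1 / 2) v (ψ * I) - 2 * qf (ψ * I) * Real.exp (-(v / 2))) *
        (v ^ k * Real.exp (v / 2) : ℝ)) = ∫ v in Ioi (0 : ℝ), F v := rfl
    rw [e5, hsplit]
    push_cast
    ring
  have hqk : 1 ≤ q * (1 + L) ^ k := by
    have h1 : (1 : ℝ) ≤ (1 + L) ^ k := one_le_pow₀ (by linarith)
    nlinarith
  have hlast : (1 - Real.log c) = 1 + L := by rw [hL]; ring
  rw [hlast, e3, norm_mul, Complex.norm_real, Real.norm_of_nonneg (by positivity)]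
  have h6 : ‖(∫ v in Ioi (0 : ℝ), A v * ((-v) ^ k * Real.exp (-(v / 2)) : ℝ)) +
        (((∫ v in Ioc 0 L, F v) + ((2 * q * (L ^ (k + 1) / (k + 1)) : ℝ) : ℂ)) +
          ∫ v in Ioi L, F v)‖ ≤ (2 * (4 ^ k * k.factorial) * 4 + (4 +
    3 * (2 ^ k * k.factorial * Real.exp (1 / 2)) * 2)) * (q * (1 + L) ^ k) := by
    refine (norm_add_le _ _).trans ?_
    have h7 := norm_add_le ((∫ v in Ioc 0 L, F v) + ((2 * q * (L ^ (k + 1) / (k + 1)) : ℝ) : ℂ))
      (∫ v in Ioi L, F v)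
    have h8 : (0 : ℝ) ≤ 2 * (4 ^ k * k.factorial) * 4 := by positivity
    nlinarith [mul_le_mul_of_nonneg_left hqk h8]
  calc 1 / (k.factorial : ℝ) * _ ≤ 1 / (k.factorial : ℝ) * _ :=
        mul_le_mul_of_nonneg_left h6 (by positivity)
    _ = _ := by ring

end FMZ
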