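import Pool.Agent.FMZ.TZ

/-!
# FMZ-Z7: analyticity and decay of the functions jk
-/

open Complex MeasureTheory Set Filter Topology

namespace FMZ

namespace ZJK_

/-- holomorphic dependence of an integral on a parameter -/
lemma hol_int {U : Set ℂ} (F : ℂ → ℝ → ℂ)
    (h1 : ∀ v ∈ Ioi (0 : ℝ), DifferentiableOn ℂ (fun d => F d v) U)
    (h2 : ∀ d ∈ U, ContinuousOn (F d) (Ioi 0))
    (h3 : ∀ d0 ∈ U, ∃ r > 0, Metric.ball d0 r ⊆ U ∧ ∃ M : ℝ → ℝ, IntegrableOn M (Ioi 0) ∧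
      ∀ d ∈ Metric.ball d0 r, ∀ v ∈ Ioi (0 : ℝ), ‖F d v‖ ≤ M v) :
    DifferentiableOn ℂ (fun d => ∫ v in Ioi (0 : ℝ), F d v) U := by
  intro d0 hd0
  obtain ⟨r, hr, hball, M, hM, hb⟩ := h3 d0 hd0
  have hmeas : ∀ d ∈ Metric.ball d0 r, AEStronglyMeasurable (F d) (volume.restrict (Ioi (0 : ℝ))) :=
    fun d hd => (h2 d (hball hd)).aestronglyMeasurable measurableSet_Ioi
  have hd0r : d0 ∈ Metric.ball d0 r := Metric.mem_ball_self hr
  have hder : ∀ v ∈ Ioi (0 : ℝ), ∀ d ∈ Metric.ball d0 r,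
      HasDerivAt (fun d => F d v) (deriv (fun d => F d v) d) d := by
    intro v hv d hd
    exact (((h1 v hv).mono hball).differentiableAt (Metric.isOpen_ball.mem_nhds hd)).hasDerivAt
  have hF'meas : AEStronglyMeasurable (fun v => deriv (fun d => F d v) d0)
      (volume.restrict (Ioi (0 : ℝ))) := by
    obtain ⟨N, hN⟩ := exists_nat_one_div_lt hr
    have hpt : ∀ n : ℕ, d0 + (1 / ((n + N : ℕ) + 1 : ℂ)) ∈ Metric.ball d0 r := by
      intro n
      rw [Metric.mem_ball, dist_eq_norm, add_sub_cancel_left]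
      have : ‖(1 / ((n + N : ℕ) + 1 : ℂ))‖ = 1 / ((n + N : ℕ) + 1 : ℝ) := by
        rw [norm_div, norm_one]
        congr 1
        have : (((n + N : ℕ) : ℂ) + 1) = (((n + N + 1 : ℕ)) : ℂ) := by push_cast; ring
        rw [this, Complex.norm_natCast]
        push_cast
        ring
      rw [this]
      refine lt_of_le_of_lt ?_ hN
      apply one_div_le_one_div_of_le
      · positivity
      · push_cast
        have : (0 : ℝ) ≤ n := Nat.cast_nonneg n
        linarith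
    refine aestronglyMeasurable_of_tendsto_ae (u := atTop)
      (f := fun n : ℕ => fun v => ((n + N : ℕ) + 1 : ℂ) *
        (F (d0 + (1 / ((n + N : ℕ) + 1 : ℂ))) v - F d0 v)) ?_ ?_
    · intro n
      exact ((hmeas _ (hpt n)).sub (hmeas _ hd0r)).const_mul _
    · refine (ae_restrict_iff' measurableSet_Ioi).2 (Eventually.of_forall fun v hv => ?_)
      have hd := hder v hv d0 hd0r
      have ht := hasDerivAt_iff_tendsto_slope_zero.1 hd
      have hlim : Tendsto (fun n : ℕ => (1 / ((n + N : ℕ) + 1 : ℂ))) atTop (𝓝[≠] 0) := by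
        rw [tendsto_nhdsWithin_iff]
        constructor
        · have h := (tendsto_one_div_add_atTop_nhds_zero_nat (𝕜 := ℂ)).comp
            (tendsto_add_atTop_nat N)
          exact h
        · refine Eventually.of_forall fun n => ?_
          simp only [mem_compl_iff, mem_singleton_iff]
          have : (((n + N : ℕ) : ℂ) + 1) ≠ 0 := by exact_mod_cast Nat.succ_ne_zero (n + N)
          exact one_div_ne_zero this
      have h := ht.comp hlim
      refine h.congr fun n => ?_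
      simp only [Function.comp_apply, smul_eq_mul, one_div, inv_inv]
  have key := hasDerivAt_integral_of_dominated_loc_of_deriv_le
    (μ := volume.restrict (Ioi (0 : ℝ))) (F := F) (x₀ := d0) (s := Metric.ball d0 (r / 2))
    (bound := fun v => M v / (r / 3))
    (F' := fun d v => deriv (fun d => F d v) d)
    (Metric.ball_mem_nhds _ (by positivity))
    (Filter.eventually_of_mem (Metric.ball_mem_nhds d0 hr) hmeas)
    (Integrable.mono' hM (hmeas d0 hd0r)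
      ((ae_restrict_iff' measurableSet_Ioi).2 (Eventually.of_forall fun v hv => hb d0 hd0r v hv)))
    hF'meas
    ((ae_restrict_iff' measurableSet_Ioi).2 (Eventually.of_forall fun v hv d hd => by
      refine Complex.norm_deriv_le_of_forall_mem_sphere_norm_le (by positivity) ?_ ?_
      · apply DifferentiableOn.diffContOnCl
        refine (h1 v hv).mono (Subset.trans ?_ hball)
        rw [closure_ball _ (by positivity : r / 3 ≠ 0)]
        intro z hz
        rw [Metric.mem_closedBall] at hz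
        rw [Metric.mem_ball] at hd ⊢
        linarith [dist_triangle z d d0]
      · intro z hz
        apply hb z _ v hv
        rw [Metric.mem_sphere] at hz
        rw [Metric.mem_ball] at hd ⊢
        linarith [dist_triangle z d d0]))
    (hM.div_const _)
    ((ae_restrict_iff' measurableSet_Ioi).2 (Eventually.of_forall fun v hv d hd => by
      exact hder v hv d (Metric.ball_subset_ball (by linarith) hd)))
  exact key.2.differentiableAt.differentiableWithinAt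

/-- real part of the power -1/2 in the half plane -/
lemma re_half {z : ℂ} (hz : |z.arg| ≤ Real.pi / 2) (hz0 : z ≠ 0) :
    ‖z ^ (-(1 / 2) : ℂ)‖ ≤ 2 * (z ^ (-(1 / 2) : ℂ)).re := by
  rw [Complex.cpow_def_of_ne_zero hz0]
  rw [Complex.norm_exp, Complex.exp_re]
  have him : (Complex.log z * (-(1 / 2) : ℂ)).im = -(z.arg / 2) := by
    have : (-(1 / 2) : ℂ) = ((-(1 / 2) : ℝ) : ℂ) := by push_cast; ring
    rw [this, Complex.im_mul_ofReal, Complex.log_im]
    ring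
  rw [him, Real.cos_neg]
  have hcos : 1 / 2 ≤ Real.cos (z.arg / 2) := by
    rw [← Real.cos_pi_div_three, ← Real.cos_abs (z.arg / 2)]
    apply Real.cos_le_cos_of_nonneg_of_le_pi (abs_nonneg _)
    · linarith [Real.pi_pos]
    · rw [abs_div, abs_of_pos (by norm_num : (0 : ℝ) < 2)]
      linarith [Real.pi_pos]
  have he := Real.exp_pos (Complex.log z * (-(1 / 2) : ℂ)).re
  nlinarith

lemma sq_half {z : ℂ} (_hz0 : z ≠ 0) : (z ^ (-(1 / 2) : ℂ)) ^ 2 = z⁻¹ := by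
  rw [← Complex.cpow_nat_mul]
  norm_num
  rw [Complex.cpow_neg_one]

/-- comparison of two powers in the half plane -/
lemma comp_half {p h G H : ℂ} (hp : p ^ 2 = G⁻¹) (hh : h ^ 2 = H⁻¹) (hG : G ≠ 0) (hH : H ≠ 0)
    (hpr : ‖p‖ ≤ 2 * p.re) (hhr : 0 ≤ h.re) : ‖p - h‖ ≤ 2 * (‖G - H‖ / ‖H‖) * ‖p‖ := by
  have hp0 : p ≠ 0 := by
    intro h0
    rw [h0] at hp
    have : G⁻¹ = 0 := by rw [← hp]; ring
    exact hG (inv_eq_zero.1 this)
  have hpn : 0 < ‖p‖ := norm_pos_iff.2 hp0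
  have hHn : 0 < ‖H‖ := norm_pos_iff.2 hH
  have hsum : ‖p‖ / 2 ≤ ‖p + h‖ := by
    refine le_trans ?_ (Complex.re_le_norm _)
    rw [Complex.add_re]
    linarith
  have hid : (p - h) * (p + h) = -((G - H) * H⁻¹ * p ^ 2) := by
    have : (p - h) * (p + h) = p ^ 2 - h ^ 2 := by ring
    rw [this, hp, hh]
    field_simp
    ring
  have hn : ‖p - h‖ * ‖p + h‖ = ‖G - H‖ / ‖H‖ * ‖p‖ ^ 2 := by
    rw [← norm_mul, hid, norm_neg, norm_mul, norm_mul, norm_inv, norm_pow]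
    ring
  have h5 : ‖p - h‖ * (‖p‖ / 2) ≤ ‖G - H‖ / ‖H‖ * ‖p‖ ^ 2 := by
    rw [← hn]
    exact mul_le_mul_of_nonneg_left hsum (norm_nonneg _)
  have h6 : ‖p - h‖ * ‖p‖ ≤ (2 * (‖G - H‖ / ‖H‖) * ‖p‖) * ‖p‖ := by nlinarith
  exact le_of_mul_le_mul_right h6 hpn

lemma cosh_re (d : ℂ) : (Complex.cosh d).re = Real.cosh d.re * Real.cos d.im := by
  have h : Complex.cosh d = ((Real.cosh d.re * Real.cos d.im : ℝ) : ℂ) +
      ((Real.sinh d.re * Real.sin d.im : ℝ) : ℂ) * I := by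
    conv_lhs => rw [← Complex.re_add_im d]
    rw [Complex.cosh_add, Complex.cosh_mul_I, Complex.sinh_mul_I, ← Complex.ofReal_cosh,
      ← Complex.ofReal_cos, ← Complex.ofReal_sinh, ← Complex.ofReal_sin]
    push_cast
    ring
  rw [h]
  simp only [Complex.add_re, Complex.ofReal_re, Complex.mul_re, Complex.I_re, mul_zero,
    Complex.ofReal_im, Complex.I_im, mul_one, sub_self, add_zero]

lemma norm_cosh_le (d : ℂ) : ‖Complex.cosh d‖ ≤ Real.cosh d.re := by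
  rw [Complex.cosh, Real.cosh_eq, norm_div]
  have h2 : ‖(2 : ℂ)‖ = 2 := by norm_num
  rw [h2]
  gcongr
  refine (norm_add_le _ _).trans ?_
  rw [Complex.norm_exp, Complex.norm_exp, Complex.neg_re]

lemma norm_sinh_le (d : ℂ) : ‖Complex.sinh d‖ ≤ Real.cosh d.re := by
  rw [Complex.sinh, Real.cosh_eq, norm_div]
  have h2 : ‖(2 : ℂ)‖ = 2 := by norm_num
  rw [h2]
  gcongr
  refine (norm_sub_le _ _).trans ?_
  rw [Complex.norm_exp, Complex.norm_exp, Complex.neg_re]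

/-- the common bound of the two integrands -/
noncomputable def PB (v : ℝ) (d : ℂ) : ℝ :=
  ‖2 * gp v d‖ ^ (-(1 / 2) : ℝ) + ‖2 * gm v d‖ ^ (-(1 / 2) : ℝ)

lemma two_mul_facts {g : ℂ} {b : ℝ} (hb : b < Real.pi / 2) (hs : g ∈ slitPlane)
    (ha : |g.arg| ≤ b) : 2 * g ∈ slitPlane ∧ |(2 * g).arg| ≤ Real.pi / 2 ∧ 2 * g ≠ 0 := by
  have h2 : (2 : ℂ) * g = ((2 : ℝ) : ℂ) * g := by norm_num
  have harg : (2 * g).arg = g.arg := by rw [h2, Complex.arg_real_mul _ (by norm_num)]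
  have hg0 : g ≠ 0 := Complex.slitPlane_ne_zero hs
  have h0 : (2 : ℂ) * g ≠ 0 := mul_ne_zero (by norm_num) hg0
  refine ⟨?_, ?_, h0⟩
  · rw [Complex.mem_slitPlane_iff_arg]
    refine ⟨?_, h0⟩
    rw [harg]
    intro h
    rw [h, abs_of_pos Real.pi_pos] at ha
    linarith [Real.pi_pos]
  · rw [harg]
    exact ha.trans hb.le

lemma cosh_re_pos {d : ℂ} {b : ℝ} (hd : |d.im| ≤ b) (hb : b < Real.pi / 2) :
    Real.cos b * Real.cosh d.re ≤ (Complex.cosh d).re ∧ 0 < (Complex.cosh d).re := by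
  have hb0 : 0 ≤ b := (abs_nonneg _).trans hd
  have hcosb : 0 < Real.cos b := Real.cos_pos_of_mem_Ioo ⟨by linarith [Real.pi_pos], hb⟩
  have hcos : Real.cos b ≤ Real.cos d.im := by
    rw [← Real.cos_abs d.im]
    exact Real.cos_le_cos_of_nonneg_of_le_pi (abs_nonneg _) (by linarith [Real.pi_pos]) hd
  have hc := Real.cosh_pos d.re
  rw [cosh_re]
  constructor
  · nlinarith
  · exact mul_pos hc (hcosb.trans_le hcos)

lemma abs_arg_le_of_re_pos {z : ℂ} (h : 0 < z.re) : |z.arg| ≤ Real.pi / 2 :=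
  (Complex.abs_arg_lt_pi_div_two_iff.2 (Or.inl h)).le

lemma q_facts {d : ℂ} {b : ℝ} (hd : |d.im| ≤ b) (hb : b < Real.pi / 2) (v : ℝ) :
    (qf d * (Real.exp (-(v / 2)) : ℝ)) ^ 2 = ((Real.exp v : ℝ) * Complex.cosh d)⁻¹ ∧
    0 ≤ (qf d * (Real.exp (-(v / 2)) : ℝ)).re := by
  obtain ⟨-, h0⟩ := cosh_re_pos hd hb
  have hne : Complex.cosh d ≠ 0 := by
    intro h
    rw [h] at h0
    simp at h0
  constructor
  · rw [mul_pow, qf, sq_half hne]
    have he : ((Real.exp (-(v / 2)) : ℝ) : ℂ) ^ 2 = ((Real.exp v : ℝ) : ℂ)⁻¹ := by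
      rw [← Complex.ofReal_pow, ← Complex.ofReal_inv, ← Real.exp_neg, ← Real.exp_nat_mul]
      congr 2
      push_cast
      ring
    rw [he, mul_inv, mul_comm]
  · rw [Complex.re_mul_ofReal]
    have := re_half (abs_arg_le_of_re_pos h0) hne
    have h3 : 0 ≤ (qf d).re := by
      have := norm_nonneg (Complex.cosh d ^ (-(1 / 2) : ℂ))
      unfold qf
      linarith
    exact mul_nonneg h3 (Real.exp_pos _).le

lemma diff_bound {d : ℂ} {b : ℝ} (hd : |d.im| ≤ b) (hb : b < Real.pi / 2) {v : ℝ}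
    {G : ℂ} (hG : ‖G - (Real.exp v : ℝ) * Complex.cosh d‖ ≤ 3 * Real.cosh d.re)
    (hG0 : G ≠ 0) (hGa : |G.arg| ≤ Real.pi / 2) :
    ‖G ^ (-(1 / 2) : ℂ) - qf d * (Real.exp (-(v / 2)) : ℝ)‖ ≤
      6 / Real.cos b * Real.exp (-v) * ‖G ^ (-(1 / 2) : ℂ)‖ := by
  have hb0 : 0 ≤ b := (abs_nonneg _).trans hd
  have hcosb : 0 < Real.cos b := Real.cos_pos_of_mem_Ioo ⟨by linarith [Real.pi_pos], hb⟩
  obtain ⟨h1, h2⟩ := q_facts hd hb v
  obtain ⟨h3, h4⟩ := cosh_re_pos hd hb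
  have hcn : Real.cos b * Real.cosh d.re ≤ ‖Complex.cosh d‖ := h3.trans (Complex.re_le_norm _)
  have hch := Real.cosh_pos d.re
  have hcn0 : 0 < ‖Complex.cosh d‖ := (mul_pos hcosb hch).trans_le hcn
  have hev := Real.exp_pos v
  have hHn : ‖((Real.exp v : ℝ) : ℂ) * Complex.cosh d‖ = Real.exp v * ‖Complex.cosh d‖ := by
    rw [norm_mul, Complex.norm_real, Real.norm_of_nonneg hev.le]
  have hH0 : ((Real.exp v : ℝ) : ℂ) * Complex.cosh d ≠ 0 := by
    rw [← norm_pos_iff, hHn]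
    exact mul_pos hev hcn0
  have key := comp_half (sq_half hG0) h1 hG0 hH0 (re_half hGa hG0) h2
  refine key.trans ?_
  have : ‖G - (Real.exp v : ℝ) * Complex.cosh d‖ / ‖((Real.exp v : ℝ) : ℂ) * Complex.cosh d‖ ≤
      3 / Real.cos b * Real.exp (-v) := by
    rw [hHn, div_le_iff₀ (mul_pos hev hcn0)]
    refine hG.trans ?_
    rw [Real.exp_neg]
    have : 3 / Real.cos b * (Real.exp v)⁻¹ * (Real.exp v * ‖Complex.cosh d‖) =
        3 / Real.cos b * ‖Complex.cosh d‖ := by field_simp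
    rw [this, div_mul_eq_mul_div, le_div_iff₀ hcosb]
    linarith
  have hn := norm_nonneg (G ^ (-(1 / 2) : ℂ))
  calc 2 * (‖G - (Real.exp v : ℝ) * Complex.cosh d‖ /
        ‖((Real.exp v : ℝ) : ℂ) * Complex.cosh d‖) * ‖G ^ (-(1 / 2) : ℂ)‖
      ≤ 2 * (3 / Real.cos b * Real.exp (-v)) * ‖G ^ (-(1 / 2) : ℂ)‖ := by gcongr
    _ = 6 / Real.cos b * Real.exp (-v) * ‖G ^ (-(1 / 2) : ℂ)‖ := by ring

lemma gp_sub (v : ℝ) (d : ℂ) : ‖2 * gp v d - (Real.exp v : ℝ) * Complex.cosh d‖ ≤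
    3 * Real.cosh d.re + (Real.exp (-v) - 1) * ‖Complex.cosh d‖ := by
  have h : 2 * gp v d - (Real.exp v : ℝ) * Complex.cosh d =
      (Real.exp (-v) : ℝ) * Complex.cosh d + 2 * Complex.sinh d := by
    unfold gp
    rw [Real.cosh_eq]
    push_cast
    ring
  rw [h]
  refine (norm_add_le _ _).trans ?_
  rw [norm_mul, norm_mul, Complex.norm_real, Real.norm_of_nonneg (Real.exp_pos _).le]
  have h2 : ‖(2 : ℂ)‖ = 2 := by norm_num
  rw [h2]
  have h3 := norm_cosh_le d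
  have h4 := norm_sinh_le d
  nlinarith

lemma gm_sub (v : ℝ) (d : ℂ) : ‖2 * gm v d - (Real.exp v : ℝ) * Complex.cosh d‖ ≤
    3 * Real.cosh d.re + (Real.exp (-v) - 1) * ‖Complex.cosh d‖ := by
  have h : 2 * gm v d - (Real.exp v : ℝ) * Complex.cosh d =
      (Real.exp (-v) : ℝ) * Complex.cosh d - 2 * Complex.sinh d := by
    unfold gm
    rw [Real.cosh_eq]
    push_cast
    ring
  rw [h]
  refine (norm_sub_le _ _).trans ?_
  rw [norm_mul, norm_mul, Complex.norm_real, Real.norm_of_nonneg (Real.exp_pos _).le]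
  have h2 : ‖(2 : ℂ)‖ = 2 := by norm_num
  rw [h2]
  have h3 := norm_cosh_le d
  have h4 := norm_sinh_le d
  nlinarith

lemma pow_bound (h2 : tPHB) {d : ℂ} {b : ℝ} (hd : |d.im| ≤ b) (hb : b < Real.pi / 2) (v : ℝ) :
    ‖(2 * gp v d) ^ (-(1 / 2) : ℂ)‖ ≤ ‖2 * gp v d‖ ^ (-(1 / 2) : ℝ) ∧
    ‖(2 * gm v d) ^ (-(1 / 2) : ℂ)‖ ≤ ‖2 * gm v d‖ ^ (-(1 / 2) : ℝ) := by
  have h := h2 (1 / 2) d v b hd hb
  have hre : (1 / 2 : ℂ).re = 1 / 2 := by norm_num
  have him : (1 / 2 : ℂ).im = 0 := by norm_num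
  rw [hre, him, abs_zero, mul_zero, Real.exp_zero, mul_one, mul_one] at h
  exact h

lemma ph_bound (h2 : tPHB) {d : ℂ} {b : ℝ} (hd : |d.im| ≤ b) (hb : b < Real.pi / 2) (v : ℝ) :
    ‖ph (1 / 2) v d‖ ≤ PB v d := by
  obtain ⟨h3, h4⟩ := pow_bound h2 hd hb v
  exact (norm_add_le _ _).trans (add_le_add h3 h4)

lemma ph_sub_bound (h1 : tCONE) (h2 : tPHB) {d : ℂ} {b : ℝ} (hd : |d.im| ≤ b)
    (hb : b < Real.pi / 2) {v : ℝ} (hv : 0 < v) :
    ‖ph (1 / 2) v d - 2 * qf d * Real.exp (-(v / 2))‖ ≤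
      6 / Real.cos b * Real.exp (-v) * PB v d := by
  have hb0 : 0 ≤ b := (abs_nonneg _).trans hd
  have hcosb : 0 < Real.cos b := Real.cos_pos_of_mem_Ioo ⟨by linarith [Real.pi_pos], hb⟩
  obtain ⟨-, hs1, hs2, ha1, ha2, -, -⟩ := h1 d v b hd hb
  obtain ⟨h3, h4⟩ := pow_bound h2 hd hb v
  obtain ⟨-, hA1, hN1⟩ := two_mul_facts hb hs1 ha1
  obtain ⟨-, hA2, hN2⟩ := two_mul_facts hb hs2 ha2
  have hc : (Real.exp (-v) - 1) * ‖Complex.cosh d‖ ≤ 0 := by
    have : Real.exp (-v) ≤ 1 := Real.exp_le_one_iff.2 (by linarith)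
    exact mul_nonpos_of_nonpos_of_nonneg (by linarith) (norm_nonneg _)
  have hB1 := diff_bound hd hb ((gp_sub v d).trans (by linarith)) hN1 hA1
  have hB2 := diff_bound hd hb ((gm_sub v d).trans (by linarith)) hN2 hA2
  have hid : ph (1 / 2) v d - 2 * qf d * Real.exp (-(v / 2)) =
      ((2 * gp v d) ^ (-(1 / 2) : ℂ) - qf d * (Real.exp (-(v / 2)) : ℝ)) +
      ((2 * gm v d) ^ (-(1 / 2) : ℂ) - qf d * (Real.exp (-(v / 2)) : ℝ)) := by
    unfold ph
    ring
  rw [hid]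
  refine (norm_add_le _ _).trans ((add_le_add hB1 hB2).trans ?_)
  unfold PB
  rw [mul_add]
  have hpos : 0 ≤ 6 / Real.cos b * Real.exp (-v) := by positivity
  exact add_le_add (mul_le_mul_of_nonneg_left h3 hpos) (mul_le_mul_of_nonneg_left h4 hpos)

lemma PB_nonneg (v : ℝ) (d : ℂ) : 0 ≤ PB v d := by
  unfold PB
  positivity

/-- bound on compact sets -/
lemma PB_loc (h1 : tCONE) {d : ℂ} {b A : ℝ} (hd : |d.im| ≤ b) (hb : b < Real.pi / 2)
    (hA : |d.re| ≤ A) (v : ℝ) : PB v d ≤ 2 * (Real.cos b * Real.exp (-A)) ^ (-(1 / 2) : ℝ) := by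
  have hb0 : 0 ≤ b := (abs_nonneg _).trans hd
  have hcosb : 0 < Real.cos b := Real.cos_pos_of_mem_Ioo ⟨by linarith [Real.pi_pos], hb⟩
  obtain ⟨-, -, -, -, -, hn1, hn2⟩ := h1 d v b hd hb
  have hcv := Real.one_le_cosh v
  obtain ⟨hA1, hA2⟩ := abs_le.1 hA
  have he1 : Real.exp (-A) ≤ Real.exp d.re := Real.exp_le_exp.2 (by linarith)
  have he2 : Real.exp (-A) ≤ Real.exp (-d.re) := Real.exp_le_exp.2 (by linarith)
  have hea := Real.exp_pos (-A)
  have hp1 := Real.exp_pos d.re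
  have hp2 := Real.exp_pos (-d.re)
  have hpos : 0 < Real.cos b * Real.exp (-A) := mul_pos hcosb hea
  have hl1 : Real.cos b * Real.exp (-A) ≤ ‖2 * gp v d‖ := by
    refine le_trans (mul_le_mul_of_nonneg_left ?_ hcosb.le) hn1
    nlinarith [mul_nonneg hp2.le (by linarith : 0 ≤ Real.cosh v - 1),
      mul_nonneg hp1.le (by linarith : 0 ≤ Real.cosh v - 1)]
  have hl2 : Real.cos b * Real.exp (-A) ≤ ‖2 * gm v d‖ := by
    refine le_trans (mul_le_mul_of_nonneg_left ?_ hcosb.le) hn2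
    nlinarith [mul_nonneg hp2.le (by linarith : 0 ≤ Real.cosh v - 1),
      mul_nonneg hp1.le (by linarith : 0 ≤ Real.cosh v - 1)]
  have hr1 := Real.rpow_le_rpow_of_nonpos hpos hl1 (by norm_num : (-(1 / 2) : ℝ) ≤ 0)
  have hr2 := Real.rpow_le_rpow_of_nonpos hpos hl2 (by norm_num : (-(1 / 2) : ℝ) ≤ 0)
  unfold PB
  linarith

/-- bound at infinity -/
lemma PB_inf (h1 : tCONE) {d : ℂ} {b : ℝ} (hd : |d.im| ≤ b) (hb : b < Real.pi / 2)
    (ha : 0 ≤ d.re) {v : ℝ} (hv : 0 < v) :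
    PB v d ≤ 2 * Real.cos b ^ (-(1 / 2) : ℝ) * Real.exp (-(d.re / 4)) *
      (1 + v ^ (-(3 / 4) : ℝ)) := by
  have hb0 : 0 ≤ b := (abs_nonneg _).trans hd
  have hcosb : 0 < Real.cos b := Real.cos_pos_of_mem_Ioo ⟨by linarith [Real.pi_pos], hb⟩
  obtain ⟨-, -, -, -, -, hn1, hn2⟩ := h1 d v b hd hb
  have hcv := Real.one_le_cosh v
  have hp1 := Real.exp_pos d.re
  have hp2 := Real.exp_pos (-d.re)
  have hpr := Real.rpow_pos_of_pos hcosb (-(1 / 2) : ℝ)
  -- the first part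
  have hl1 : Real.cos b * Real.exp d.re ≤ ‖2 * gp v d‖ := by
    refine le_trans (mul_le_mul_of_nonneg_left ?_ hcosb.le) hn1
    nlinarith [mul_nonneg hp2.le (by linarith : 0 ≤ Real.cosh v - 1),
      mul_nonneg hp1.le (by linarith : 0 ≤ Real.cosh v - 1)]
  have hr1 := Real.rpow_le_rpow_of_nonpos (mul_pos hcosb hp1) hl1
    (by norm_num : (-(1 / 2) : ℝ) ≤ 0)
  have he1 : (Real.cos b * Real.exp d.re) ^ (-(1 / 2) : ℝ) ≤
      Real.cos b ^ (-(1 / 2) : ℝ) * Real.exp (-(d.re / 4)) := by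
    rw [Real.mul_rpow hcosb.le hp1.le, ← Real.exp_mul]
    apply mul_le_mul_of_nonneg_left _ hpr.le
    apply Real.exp_le_exp.2
    linarith
  -- the second part
  have hcosh : 1 + v ^ 2 / 2 ≤ Real.cosh v := by
    have h3 : Real.cosh v = 1 + 2 * Real.sinh (v / 2) ^ 2 := by
      have h4 := Real.cosh_two_mul (v / 2)
      have h5 := Real.cosh_sq (v / 2)
      rw [show 2 * (v / 2) = v by ring] at h4
      linarith
    have h6 : v / 2 ≤ Real.sinh (v / 2) := Real.self_le_sinh_iff.2 (by linarith)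
    nlinarith
  have hAM : Real.exp (d.re / 2) * (v ^ (3 / 2 : ℝ) / 2) ≤
      Real.exp (-d.re) * (Real.cosh v + 1) + Real.exp d.re * (Real.cosh v - 1) := by
    have hX : 0 ≤ Real.exp (-d.re) * 2 := by positivity
    have hY : 0 ≤ Real.exp d.re * (v ^ 2 / 2) := by positivity
    have h7 := Real.geom_mean_le_arith_mean2_weighted (by norm_num : (0 : ℝ) ≤ 1 / 4)
      (by norm_num : (0 : ℝ) ≤ 3 / 4) hX hY (by norm_num)
    have h8 : (Real.exp (-d.re) * 2) ^ (1 / 4 : ℝ) * (Real.exp d.re * (v ^ 2 / 2)) ^ (3 / 4 : ℝ) =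
        Real.exp (d.re / 2) * (v ^ (3 / 2 : ℝ) * ((2 : ℝ) ^ (1 / 4 : ℝ) *
          ((1 / 2 : ℝ)) ^ (3 / 4 : ℝ))) := by
      rw [Real.mul_rpow hp2.le (by norm_num), Real.mul_rpow hp1.le (by positivity),
        show v ^ 2 / 2 = v ^ 2 * (1 / 2) by ring, Real.mul_rpow (by positivity) (by norm_num),
        ← Real.exp_mul, ← Real.exp_mul, ← Real.rpow_natCast, ← Real.rpow_mul hv.le]
      have : Real.exp (d.re / 2) = Real.exp (-d.re * (1 / 4)) * Real.exp (d.re * (3 / 4)) := by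
        rw [← Real.exp_add]; congr 1; ring
      rw [this]
      norm_num
      ring
    have h9 : 1 / 2 ≤ (2 : ℝ) ^ (1 / 4 : ℝ) * ((1 / 2 : ℝ)) ^ (3 / 4 : ℝ) := by
      have e1 : (1 : ℝ) ≤ (2 : ℝ) ^ (1 / 4 : ℝ) := Real.one_le_rpow (by norm_num) (by norm_num)
      have e2 : (1 / 2 : ℝ) ≤ (1 / 2 : ℝ) ^ (3 / 4 : ℝ) := by
        conv_lhs => rw [← Real.rpow_one (1 / 2 : ℝ)]
        exact Real.rpow_le_rpow_of_exponent_ge (by norm_num) (by norm_num) (by norm_num)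
      nlinarith
    rw [h8] at h7
    have h10 : 0 ≤ Real.exp (d.re / 2) * v ^ (3 / 2 : ℝ) := by positivity
    have h11 : Real.exp (d.re / 2) * (v ^ (3 / 2 : ℝ) / 2) ≤
        Real.exp (d.re / 2) * (v ^ (3 / 2 : ℝ) * ((2 : ℝ) ^ (1 / 4 : ℝ) *
          ((1 / 2 : ℝ)) ^ (3 / 4 : ℝ))) := by
      calc Real.exp (d.re / 2) * (v ^ (3 / 2 : ℝ) / 2)
          = (Real.exp (d.re / 2) * v ^ (3 / 2 : ℝ)) * (1 / 2) := by ring
        _ ≤ (Real.exp (d.re / 2) * v ^ (3 / 2 : ℝ)) * ((2 : ℝ) ^ (1 / 4 : ℝ) *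
          ((1 / 2 : ℝ)) ^ (3 / 4 : ℝ)) := mul_le_mul_of_nonneg_left h9 h10
        _ = _ := by ring
    have h12 : Real.exp (-d.re) * 2 ≤ Real.exp (-d.re) * (Real.cosh v + 1) :=
      mul_le_mul_of_nonneg_left (by linarith) hp2.le
    have h13 : Real.exp d.re * (v ^ 2 / 2) ≤ Real.exp d.re * (Real.cosh v - 1) :=
      mul_le_mul_of_nonneg_left (by linarith) hp1.le
    have h14 := h11.trans h7
    linarith
  have hl2 : Real.cos b * (Real.exp (d.re / 2) * (v ^ (3 / 2 : ℝ) / 2)) ≤ ‖2 * gm v d‖ :=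
    le_trans (mul_le_mul_of_nonneg_left hAM hcosb.le) hn2
  have hvp : 0 < v ^ (3 / 2 : ℝ) := Real.rpow_pos_of_pos hv _
  have hr2 := Real.rpow_le_rpow_of_nonpos (by positivity) hl2
    (by norm_num : (-(1 / 2) : ℝ) ≤ 0)
  have he2 : (Real.cos b * (Real.exp (d.re / 2) * (v ^ (3 / 2 : ℝ) / 2))) ^ (-(1 / 2) : ℝ) ≤
      Real.cos b ^ (-(1 / 2) : ℝ) * Real.exp (-(d.re / 4)) * (2 * v ^ (-(3 / 4) : ℝ)) := by
    rw [Real.mul_rpow hcosb.le (by positivity), Real.mul_rpow (Real.exp_pos _).le (by positivity),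
      ← Real.exp_mul, show v ^ (3 / 2 : ℝ) / 2 = v ^ (3 / 2 : ℝ) * (1 / 2) by ring,
      Real.mul_rpow hvp.le (by norm_num), ← Real.rpow_mul hv.le,
      show d.re / 2 * (-(1 / 2)) = -(d.re / 4) by ring,
      show (3 / 2 : ℝ) * (-(1 / 2)) = -(3 / 4) by norm_num, ← mul_assoc]
    apply mul_le_mul_of_nonneg_left _ (by positivity)
    have e3 : (1 / 2 : ℝ) ^ (-(1 / 2) : ℝ) ≤ 2 := by
      have : (1 / 2 : ℝ) ^ (-(1 / 2) : ℝ) ≤ (1 / 2 : ℝ) ^ (-1 : ℝ) :=
        Real.rpow_le_rpow_of_exponent_ge (by norm_num) (by norm_num) (by norm_num)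
      rw [Real.rpow_neg_one] at this
      linarith
    have e4 : 0 ≤ v ^ (-(3 / 4) : ℝ) := by positivity
    nlinarith
  unfold PB
  have h15 : 0 ≤ Real.cos b ^ (-(1 / 2) : ℝ) * Real.exp (-(d.re / 4)) := by positivity
  have h16 : 0 ≤ v ^ (-(3 / 4) : ℝ) := by positivity
  nlinarith

/-- first integrand -/
noncomputable def F1 (k : ℕ) (d : ℂ) (v : ℝ) : ℂ :=
  ph (1 / 2) v d * ((-v) ^ k * Real.exp (-(v / 2)) : ℝ)

/-- second integrand -/
noncomputable def F2 (k : ℕ) (d : ℂ) (v : ℝ) : ℂ :=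
  (ph (1 / 2) v d - 2 * qf d * Real.exp (-(v / 2))) * (v ^ k * Real.exp (v / 2) : ℝ)

lemma jk_eq (k : ℕ) (d : ℂ) : jk k d = (1 / (k.factorial : ℂ)) *
    ((∫ v in Ioi (0 : ℝ), F1 k d v) + ∫ v in Ioi (0 : ℝ), F2 k d v) := rfl

lemma F1_bound (h2 : tPHB) (k : ℕ) {d : ℂ} {b : ℝ} (hd : |d.im| ≤ b) (hb : b < Real.pi / 2)
    {v : ℝ} (hv : 0 < v) : ‖F1 k d v‖ ≤ PB v d * (v ^ k * Real.exp (-(v / 2))) := by
  unfold F1
  rw [norm_mul, Complex.norm_real, norm_mul, norm_pow, norm_neg, Real.norm_of_nonneg hv.le,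
    Real.norm_of_nonneg (Real.exp_pos _).le]
  exact mul_le_mul_of_nonneg_right (ph_bound h2 hd hb v) (by positivity)

lemma F2_bound (h1 : tCONE) (h2 : tPHB) (k : ℕ) {d : ℂ} {b : ℝ} (hd : |d.im| ≤ b)
    (hb : b < Real.pi / 2) {v : ℝ} (hv : 0 < v) :
    ‖F2 k d v‖ ≤ 6 / Real.cos b * (PB v d * (v ^ k * Real.exp (-(v / 2)))) := by
  unfold F2
  rw [norm_mul, Complex.norm_real, norm_mul, norm_pow, Real.norm_of_nonneg hv.le,
    Real.norm_of_nonneg (Real.exp_pos _).le]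
  refine (mul_le_mul_of_nonneg_right (ph_sub_bound h1 h2 hd hb hv) (by positivity)).trans ?_
  have : Real.exp (-(v / 2)) = Real.exp (-v) * Real.exp (v / 2) := by
    rw [← Real.exp_add]; congr 1; ring
  rw [this]
  apply le_of_eq
  ring

lemma im_facts {d0 : ℂ} (hd0 : d0 ∈ S0) : ∃ b < Real.pi / 2, ∃ r > 0, ∃ A : ℝ,
    ∀ d ∈ Metric.ball d0 r, |d.im| ≤ b ∧ |d.re| ≤ A := by
  have h0 : |d0.im| < Real.pi / 2 := hd0
  refine ⟨(|d0.im| + Real.pi / 2) / 2, by linarith, (Real.pi / 2 - |d0.im|) / 2, by linarith,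
    |d0.re| + (Real.pi / 2 - |d0.im|) / 2, fun d hd => ?_⟩
  rw [Metric.mem_ball, dist_eq_norm] at hd
  have h1 := Complex.abs_im_le_norm (d - d0)
  have h2 := Complex.abs_re_le_norm (d - d0)
  rw [Complex.sub_im] at h1
  rw [Complex.sub_re] at h2
  have h3 : |d.im| ≤ |d0.im| + |d.im - d0.im| := by
    have := abs_add_le d0.im (d.im - d0.im)
    rwa [add_sub_cancel] at this
  have h4 : |d.re| ≤ |d0.re| + |d.re - d0.re| := by
    have := abs_add_le d0.re (d.re - d0.re)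
    rwa [add_sub_cancel] at this
  constructor <;> linarith

lemma slit (h1 : tCONE) {d : ℂ} (hd : d ∈ S0) (v : ℝ) :
    2 * gp v d ∈ slitPlane ∧ 2 * gm v d ∈ slitPlane := by
  obtain ⟨b, hb, r, hr, A, h⟩ := im_facts hd
  obtain ⟨h3, -⟩ := h d (Metric.mem_ball_self hr)
  obtain ⟨-, hs1, hs2, ha1, ha2, -, -⟩ := h1 d v b h3 hb
  exact ⟨(two_mul_facts hb hs1 ha1).1, (two_mul_facts hb hs2 ha2).1⟩

lemma cosh_slit {d : ℂ} (hd : d ∈ S0) : Complex.cosh d ∈ slitPlane := by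
  obtain ⟨b, hb, r, hr, A, h⟩ := im_facts hd
  exact Complex.mem_slitPlane_iff.2 (Or.inl (cosh_re_pos (h d (Metric.mem_ball_self hr)).1 hb).2)

lemma ph_cont (h1 : tCONE) {d : ℂ} (hd : d ∈ S0) : Continuous (fun v : ℝ => ph (1 / 2) v d) := by
  unfold ph
  have c1 : Continuous (fun v : ℝ => 2 * gp v d) := by unfold gp; fun_prop
  have c2 : Continuous (fun v : ℝ => 2 * gm v d) := by unfold gm; fun_prop
  exact (c1.cpow continuous_const fun v => (slit h1 hd v).1).add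
    (c2.cpow continuous_const fun v => (slit h1 hd v).2)

lemma ph_diff (h1 : tCONE) (v : ℝ) : DifferentiableOn ℂ (fun d => ph (1 / 2) v d) S0 := by
  intro d hd
  apply DifferentiableAt.differentiableWithinAt
  unfold ph
  have c1 : DifferentiableAt ℂ (fun d => 2 * gp v d) d := by
    unfold gp
    exact (((Complex.differentiable_cosh d).mul_const _).add
      (Complex.differentiable_sinh d)).const_mul _
  have c2 : DifferentiableAt ℂ (fun d => 2 * gm v d) d := by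
    unfold gm
    exact (((Complex.differentiable_cosh d).mul_const _).sub
      (Complex.differentiable_sinh d)).const_mul _
  exact (c1.cpow (differentiableAt_const _) (slit h1 hd v).1).add
    (c2.cpow (differentiableAt_const _) (slit h1 hd v).2)

lemma qf_diff : DifferentiableOn ℂ qf S0 := by
  intro d hd
  apply DifferentiableAt.differentiableWithinAt
  unfold qf
  exact (Complex.differentiable_cosh d).cpow (differentiableAt_const _) (cosh_slit hd)

lemma F1_cont (h1 : tCONE) (k : ℕ) {d : ℂ} (hd : d ∈ S0) : Continuous (F1 k d) := by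
  unfold F1
  have := ph_cont h1 hd
  fun_prop

lemma F2_cont (h1 : tCONE) (k : ℕ) {d : ℂ} (hd : d ∈ S0) : Continuous (F2 k d) := by
  unfold F2
  have := ph_cont h1 hd
  fun_prop

lemma F1_diff (h1 : tCONE) (k : ℕ) (v : ℝ) : DifferentiableOn ℂ (fun d => F1 k d v) S0 := by
  unfold F1
  exact (ph_diff h1 v).mul_const _

lemma F2_diff (h1 : tCONE) (k : ℕ) (v : ℝ) : DifferentiableOn ℂ (fun d => F2 k d v) S0 := by
  unfold F2
  exact ((ph_diff h1 v).sub ((qf_diff.const_mul 2).mul_const _)).mul_const _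

lemma int_basic (k : ℕ) {s : ℝ} (hs : -1 < s) :
    IntegrableOn (fun v : ℝ => v ^ s * (v ^ k * Real.exp (-(v / 2)))) (Ioi 0) := by
  have h := integrableOn_rpow_mul_exp_neg_mul_rpow (p := 1) (s := s + k) (b := 1 / 2)
    (by have : (0 : ℝ) ≤ k := Nat.cast_nonneg k
        linarith) (by norm_num) (by norm_num)
  refine h.congr_fun (fun v hv => ?_) measurableSet_Ioi
  have hv0 : 0 < v := hv
  simp only
  rw [Real.rpow_add hv0, Real.rpow_natCast, Real.rpow_one, mul_assoc]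
  congr 3
  ring

lemma int_basic0 (k : ℕ) :
    IntegrableOn (fun v : ℝ => v ^ k * Real.exp (-(v / 2))) (Ioi 0) := by
  have h := int_basic k (by norm_num : (-1 : ℝ) < 0)
  simpa using h

/-- local domination of both integrands -/
lemma dom (h1 : tCONE) (h2 : tPHB) (k : ℕ) {d0 : ℂ} (hd0 : d0 ∈ S0) :
    ∃ r > 0, Metric.ball d0 r ⊆ S0 ∧ ∃ M : ℝ → ℝ, IntegrableOn M (Ioi 0) ∧
      ∀ d ∈ Metric.ball d0 r, ∀ v ∈ Ioi (0 : ℝ), ‖F1 k d v‖ ≤ M v ∧ ‖F2 k d v‖ ≤ M v := by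
  obtain ⟨b, hb, r, hr, A, h⟩ := im_facts hd0
  have hb0 : 0 ≤ b := (abs_nonneg _).trans (h d0 (Metric.mem_ball_self hr)).1
  have hcosb : 0 < Real.cos b := Real.cos_pos_of_mem_Ioo ⟨by linarith [Real.pi_pos], hb⟩
  set K : ℝ := 2 * (Real.cos b * Real.exp (-A)) ^ (-(1 / 2) : ℝ) with hK
  have hK0 : 0 ≤ K := by positivity
  refine ⟨r, hr, fun d hd => lt_of_le_of_lt (h d hd).1 hb,
    fun v => (1 + 6 / Real.cos b) * (K * (v ^ k * Real.exp (-(v / 2)))),
    ((int_basic0 k).const_mul K).const_mul _, fun d hd v hv => ?_⟩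
  have hv0 : 0 < v := hv
  obtain ⟨hd1, hd2⟩ := h d hd
  have hP := PB_loc h1 hd1 hb hd2 v
  have hq : 0 ≤ v ^ k * Real.exp (-(v / 2)) := by positivity
  have hPq : PB v d * (v ^ k * Real.exp (-(v / 2))) ≤ K * (v ^ k * Real.exp (-(v / 2))) :=
    mul_le_mul_of_nonneg_right hP hq
  have h6 : 0 ≤ 6 / Real.cos b := by positivity
  have hKq : 0 ≤ K * (v ^ k * Real.exp (-(v / 2))) := mul_nonneg hK0 hq
  constructor
  · refine (F1_bound h2 k hd1 hb hv0).trans (hPq.trans ?_)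
    nlinarith
  · refine (F2_bound h1 h2 k hd1 hb hv0).trans ?_
    have := mul_le_mul_of_nonneg_left hPq h6
    simp only
    nlinarith

lemma int1 (h1 : tCONE) (h2 : tPHB) (k : ℕ) {d : ℂ} (hd : d ∈ S0) :
    IntegrableOn (F1 k d) (Ioi 0) := by
  obtain ⟨r, hr, -, M, hM, hb⟩ := dom h1 h2 k hd
  exact Integrable.mono' hM (F1_cont h1 k hd).aestronglyMeasurable
    ((ae_restrict_iff' measurableSet_Ioi).2 (Eventually.of_forall fun v hv =>
      (hb d (Metric.mem_ball_self hr) v hv).1))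

lemma int2 (h1 : tCONE) (h2 : tPHB) (k : ℕ) {d : ℂ} (hd : d ∈ S0) :
    IntegrableOn (F2 k d) (Ioi 0) := by
  obtain ⟨r, hr, -, M, hM, hb⟩ := dom h1 h2 k hd
  exact Integrable.mono' hM (F2_cont h1 k hd).aestronglyMeasurable
    ((ae_restrict_iff' measurableSet_Ioi).2 (Eventually.of_forall fun v hv =>
      (hb d (Metric.mem_ball_self hr) v hv).2))

lemma ph_neg (v : ℝ) (d : ℂ) : ph (1 / 2) v (-d) = ph (1 / 2) v d := by
  have e1 : gp v (-d) = gm v d := by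
    unfold gp gm
    rw [Complex.cosh_neg, Complex.sinh_neg]
    ring
  have e2 : gm v (-d) = gp v d := by
    unfold gp gm
    rw [Complex.cosh_neg, Complex.sinh_neg]
    ring
  unfold ph
  rw [e1, e2, add_comm]

lemma qf_neg (d : ℂ) : qf (-d) = qf d := by
  unfold qf
  rw [Complex.cosh_neg]

end ZJK_

open ZJK_

theorem pJKAN (h1 : tCONE) (h2 : tPHB) : tJKAN := by
  intro k
  refine ⟨?_, ?_, fun d hd => ⟨int1 h1 h2 k hd, int2 h1 h2 k hd⟩⟩
  · have hA : DifferentiableOn ℂ (fun d => ∫ v in Ioi (0 : ℝ), F1 k d v) S0 := by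
      apply hol_int (F1 k) (fun v _ => F1_diff h1 k v) (fun d hd => (F1_cont h1 k hd).continuousOn)
      intro d0 hd0
      obtain ⟨r, hr, hsub, M, hM, hb⟩ := dom h1 h2 k hd0
      exact ⟨r, hr, hsub, M, hM, fun d hd v hv => (hb d hd v hv).1⟩
    have hB : DifferentiableOn ℂ (fun d => ∫ v in Ioi (0 : ℝ), F2 k d v) S0 := by
      apply hol_int (F2 k) (fun v _ => F2_diff h1 k v) (fun d hd => (F2_cont h1 k hd).continuousOn)
      intro d0 hd0
      obtain ⟨r, hr, hsub, M, hM, hb⟩ := dom h1 h2 k hd0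
      exact ⟨r, hr, hsub, M, hM, fun d hd v hv => (hb d hd v hv).2⟩
    exact (hA.add hB).const_mul _
  · intro d _
    unfold jk
    simp only [ph_neg, qf_neg]

theorem pJKINF (h1 : tCONE) (h2 : tPHB) : tJKINF := by
  intro k b hb0 hb
  have hcosb : 0 < Real.cos b := Real.cos_pos_of_mem_Ioo ⟨by linarith [Real.pi_pos], hb⟩
  set w : ℝ → ℝ := fun v => (1 + v ^ (-(3 / 4) : ℝ)) * (v ^ k * Real.exp (-(v / 2))) with hw
  have hwint : IntegrableOn w (Ioi 0) := by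
    have h3 := (int_basic0 k).add (int_basic k (by norm_num : (-1 : ℝ) < -(3 / 4)))
    refine h3.congr_fun (fun v _ => ?_) measurableSet_Ioi
    simp only [hw, Pi.add_apply]
    ring
  set c : ℝ := 2 * Real.cos b ^ (-(1 / 2) : ℝ) with hc
  have hc0 : 0 ≤ c := by positivity
  set W : ℝ := ∫ v in Ioi (0 : ℝ), w v with hW
  refine ⟨(1 / (k.factorial : ℝ)) * ((c * W) + 6 / Real.cos b * (c * W)), fun d hd ha => ?_⟩
  have hd0 : d ∈ S0 := lt_of_le_of_lt hd hb
  have hbd : ∀ v ∈ Ioi (0 : ℝ), PB v d * (v ^ k * Real.exp (-(v / 2))) ≤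
      c * Real.exp (-(d.re / 4)) * w v := by
    intro v hv
    have hv0 : 0 < v := hv
    have := mul_le_mul_of_nonneg_right (PB_inf h1 hd hb (by linarith) hv0)
      (by positivity : 0 ≤ v ^ k * Real.exp (-(v / 2)))
    refine this.trans (le_of_eq ?_)
    simp only [hw, hc]
    ring
  have hI1 : ‖∫ v in Ioi (0 : ℝ), F1 k d v‖ ≤ c * W * Real.exp (-(d.re / 4)) := by
    have h4 : ‖∫ v in Ioi (0 : ℝ), F1 k d v‖ ≤
        ∫ v in Ioi (0 : ℝ), c * Real.exp (-(d.re / 4)) * w v := by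
      refine norm_integral_le_of_norm_le (hwint.const_mul _)
        ((ae_restrict_iff' measurableSet_Ioi).2 (Eventually.of_forall fun v hv => ?_))
      exact (F1_bound h2 k hd hb hv).trans (hbd v hv)
    rw [integral_const_mul] at h4
    refine h4.trans (le_of_eq ?_)
    ring
  have hI2 : ‖∫ v in Ioi (0 : ℝ), F2 k d v‖ ≤
      6 / Real.cos b * (c * W) * Real.exp (-(d.re / 4)) := by
    have h4 : ‖∫ v in Ioi (0 : ℝ), F2 k d v‖ ≤
        ∫ v in Ioi (0 : ℝ), 6 / Real.cos b * (c * Real.exp (-(d.re / 4))) * w v := by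
      refine norm_integral_le_of_norm_le (hwint.const_mul _)
        ((ae_restrict_iff' measurableSet_Ioi).2 (Eventually.of_forall fun v hv => ?_))
      refine (F2_bound h1 h2 k hd hb hv).trans ?_
      have := mul_le_mul_of_nonneg_left (hbd v hv) (by positivity : 0 ≤ 6 / Real.cos b)
      refine this.trans (le_of_eq ?_)
      ring
    rw [integral_const_mul] at h4
    refine h4.trans (le_of_eq ?_)
    ring
  rw [jk_eq, norm_mul, norm_div, norm_one, Complex.norm_natCast]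
  have hf : (0 : ℝ) < k.factorial := by exact_mod_cast k.factorial_pos
  calc 1 / (k.factorial : ℝ) * ‖(∫ v in Ioi (0 : ℝ), F1 k d v) + ∫ v in Ioi (0 : ℝ), F2 k d v‖
      ≤ 1 / (k.factorial : ℝ) * (c * W * Real.exp (-(d.re / 4)) +
        6 / Real.cos b * (c * W) * Real.exp (-(d.re / 4))) := by
        apply mul_le_mul_of_nonneg_left _ (by positivity)
        exact (norm_add_le _ _).trans (add_le_add hI1 hI2)
    _ = _ := by ring

end FMZ
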