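import Pool.Agent.FMZ.TZ

/-!
# FMZ: Z1, two integrations by parts for `j(iu, d)`
-/

open Complex MeasureTheory Set Filter Topology

namespace FMZ

namespace ZJU_

/-! ### the exponential bound -/

lemma int_exp_abs : Integrable (fun x : ℝ => Real.exp (-|x| / 2)) := by
  rw [← integrableOn_univ, ← Iic_union_Ioi (a := (0 : ℝ))]
  apply IntegrableOn.union
  · refine (integrableOn_exp_mul_Iic (a := 1 / 2) (by norm_num) 0).congr_fun ?_ measurableSet_Iic
    intro x hx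
    simp only
    rw [abs_of_nonpos hx]; congr 1; ring
  · refine (integrableOn_exp_mul_Ioi (a := -1 / 2) (by norm_num) 0).congr_fun ?_ measurableSet_Ioi
    intro x hx
    simp only
    rw [abs_of_pos hx]; congr 1; ring

/-- the constant `∫ e^(-|x|/2) dx` -/
noncomputable def K : ℝ := ∫ x : ℝ, Real.exp (-|x| / 2)

lemma K_nonneg : 0 ≤ K := integral_nonneg (fun _ => (Real.exp_pos _).le)

lemma int_shift (l : ℝ) : Integrable (fun x : ℝ => Real.exp (-|x - l| / 2)) ∧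
    ∫ x : ℝ, Real.exp (-|x - l| / 2) = K :=
  ⟨int_exp_abs.comp_sub_right l, integral_sub_right_eq_self (fun x => Real.exp (-|x| / 2)) l⟩

lemma int_two (l : ℝ) : Integrable (fun x : ℝ => Real.exp (-|x - l| / 2) +
      Real.exp (-|x + l| / 2)) ∧
    ∫ x : ℝ, (Real.exp (-|x - l| / 2) + Real.exp (-|x + l| / 2)) = 2 * K := by
  obtain ⟨h1, h2⟩ := int_shift l
  obtain ⟨h3, h4⟩ := int_shift (-l)
  simp only [sub_neg_eq_add] at h3 h4
  refine ⟨h1.add h3, ?_⟩
  rw [integral_add h1 h3, h2, h4]; ring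

lemma exp_le_two (l v : ℝ) : Real.exp (-|(|v| - l)| / 2) ≤
    Real.exp (-|v - l| / 2) + Real.exp (-|v + l| / 2) := by
  rcases le_total 0 v with h | h
  · rw [abs_of_nonneg h]
    linarith [Real.exp_pos (-|v + l| / 2)]
  · have : |(|v| - l)| = |v + l| := by
      rw [abs_of_nonpos h, ← abs_neg]; congr 1; ring
    rw [this]
    linarith [Real.exp_pos (-|v - l| / 2)]

lemma cosh_ge (v : ℝ) : Real.exp |v| / 2 ≤ Real.cosh v := by
  rw [← Real.cosh_abs, Real.cosh_eq]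
  linarith [Real.exp_pos (-|v|)]

lemma cosh_le (v : ℝ) : Real.cosh v ≤ Real.exp |v| := by
  rw [← Real.cosh_abs, Real.cosh_eq]
  have : Real.exp (-|v|) ≤ Real.exp |v| := Real.exp_le_exp.2 (by linarith [abs_nonneg v])
  linarith

lemma abs_sinh_le (v : ℝ) : |Real.sinh v| ≤ Real.cosh v := by
  rw [← Real.cosh_abs v, Real.abs_sinh]
  exact (Real.sinh_lt_cosh _).le

/-! ### the functions -/

/-- the two functions `2 g_±` -/
noncomputable def G (ε : ℝ) (v : ℝ) (d : ℂ) : ℂ :=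
  2 * (Complex.cosh d * Real.cosh v + ε * Complex.sinh d)

lemma G_one (v : ℝ) (d : ℂ) : 2 * gp v d = G 1 v d := by
  simp [G, gp]

lemma G_neg_one (v : ℝ) (d : ℂ) : 2 * gm v d = G (-1) v d := by
  simp only [G, gm]; push_cast; ring

/-- first derivative of the power -/
noncomputable def P1' (ε : ℝ) (v : ℝ) (d : ℂ) : ℂ :=
  -(1 / 2) * G ε v d ^ (-(3 / 2) : ℂ) * (2 * Complex.cosh d * Real.sinh v)

/-- second derivative of the power -/
noncomputable def P2' (ε : ℝ) (v : ℝ) (d : ℂ) : ℂ :=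
  3 / 4 * G ε v d ^ (-(5 / 2) : ℂ) * (2 * Complex.cosh d * Real.sinh v) ^ 2
    - 1 / 2 * G ε v d ^ (-(3 / 2) : ℂ) * (2 * Complex.cosh d * Real.cosh v)

lemma ph_eq (v : ℝ) (d : ℂ) : ph (1 / 2) v d =
    G 1 v d ^ (-(1 / 2) : ℂ) + G (-1) v d ^ (-(1 / 2) : ℂ) := by
  unfold ph; rw [G_one, G_neg_one]

lemma ph2_eq (v : ℝ) (d : ℂ) : ph2 v d = P2' 1 v d + P2' (-1) v d := by
  unfold ph2 P2'; rw [G_one, G_neg_one]

lemma hasDerivAt_G (ε v : ℝ) (d : ℂ) :
    HasDerivAt (fun v : ℝ => G ε v d) (2 * Complex.cosh d * Real.sinh v) v := by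
  unfold G
  have h := (((Real.hasDerivAt_cosh v).ofReal_comp.const_mul (Complex.cosh d)).add_const
    (ε * Complex.sinh d)).const_mul 2
  refine h.congr_deriv ?_
  ring

lemma hasDerivAt_pow (ε v : ℝ) (d : ℂ) (p : ℂ) (h : G ε v d ∈ slitPlane) :
    HasDerivAt (fun v : ℝ => G ε v d ^ p)
      (p * G ε v d ^ (p - 1) * (2 * Complex.cosh d * Real.sinh v)) v := by
  have h1 : HasDerivAt (fun z : ℂ => z ^ p) (p * G ε v d ^ (p - 1)) (G ε v d) := by
    have := (hasDerivAt_id (G ε v d)).cpow_const (c := p) h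
    refine this.congr_deriv ?_
    simp
  have h2 := HasDerivAt.scomp v h1 (hasDerivAt_G ε v d)
  refine h2.congr_deriv ?_
  rw [smul_eq_mul]; ring

lemma hasDerivAt_P0 (ε v : ℝ) (d : ℂ) (h : G ε v d ∈ slitPlane) :
    HasDerivAt (fun v : ℝ => G ε v d ^ (-(1 / 2) : ℂ)) (P1' ε v d) v := by
  have := hasDerivAt_pow ε v d (-(1 / 2)) h
  refine this.congr_deriv ?_
  unfold P1'
  norm_num

lemma hasDerivAt_P1 (ε v : ℝ) (d : ℂ) (h : G ε v d ∈ slitPlane) :
    HasDerivAt (fun v : ℝ => P1' ε v d) (P2' ε v d) v := by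
  have h1 := (hasDerivAt_pow ε v d (-(3 / 2)) h).const_mul (-(1 / 2) : ℂ)
  have h2 : HasDerivAt (fun v : ℝ => 2 * Complex.cosh d * (Real.sinh v : ℂ))
      (2 * Complex.cosh d * (Real.cosh v : ℂ)) v :=
    (Real.hasDerivAt_sinh v).ofReal_comp.const_mul _
  have h3 := h1.mul h2
  unfold P1' P2'
  refine h3.congr_deriv ?_
  have e : (-(3 / 2) - 1 : ℂ) = -(5 / 2) := by norm_num
  rw [e]
  ring

/-- the cone condition used below -/
def Ok (d : ℂ) : Prop := ∀ v : ℝ, G 1 v d ∈ slitPlane ∧ G (-1) v d ∈ slitPlane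

lemma ok_of (h1 : tCONE) {d : ℂ} (hd : d ∈ S0) : Ok d := by
  intro v
  obtain ⟨-, h2, h3, -⟩ := h1 d v |d.im| le_rfl hd
  rw [← G_one, ← G_neg_one]
  have key : ∀ z : ℂ, z ∈ slitPlane → 2 * z ∈ slitPlane := by
    intro z hz
    rw [mem_slitPlane_iff] at hz ⊢
    simp only [Complex.mul_re, Complex.re_ofNat, Complex.im_ofNat, zero_mul, sub_zero,
      Complex.mul_im, add_zero]
    rcases hz with h | h
    · left; linarith
    · right; simpa using h
  exact ⟨key _ h2, key _ h3⟩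

/-- first derivative of `ph` -/
noncomputable def ph1 (v : ℝ) (d : ℂ) : ℂ := P1' 1 v d + P1' (-1) v d

lemma hasDerivAt_ph {d : ℂ} (h : Ok d) (v : ℝ) :
    HasDerivAt (fun v : ℝ => ph (1 / 2) v d) (ph1 v d) v := by
  have e : (fun v : ℝ => ph (1 / 2) v d) = fun v : ℝ =>
    G 1 v d ^ (-(1 / 2) : ℂ) + G (-1) v d ^ (-(1 / 2) : ℂ) := funext (fun v => ph_eq v d)
  rw [e]
  exact (hasDerivAt_P0 1 v d (h v).1).add (hasDerivAt_P0 (-1) v d (h v).2)

lemma hasDerivAt_ph1 {d : ℂ} (h : Ok d) (v : ℝ) :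
    HasDerivAt (fun v : ℝ => ph1 v d) (ph2 v d) v := by
  have e : (fun v : ℝ => ph1 v d) = fun v : ℝ => P1' 1 v d + P1' (-1) v d := rfl
  rw [e, ph2_eq]
  exact (hasDerivAt_P1 1 v d (h v).1).add (hasDerivAt_P1 (-1) v d (h v).2)

lemma cont_G (ε : ℝ) (d : ℂ) : Continuous (fun v : ℝ => G ε v d) := by
  rw [continuous_iff_continuousAt]
  exact fun v => (hasDerivAt_G ε v d).continuousAt

lemma cont_P2 (ε : ℝ) (d : ℂ) (h : ∀ v, G ε v d ∈ slitPlane) :
    Continuous (fun v : ℝ => P2' ε v d) := by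
  have h1 : Continuous (fun v : ℝ => G ε v d ^ (-(5 / 2) : ℂ)) :=
    (cont_G ε d).cpow continuous_const h
  have h2 : Continuous (fun v : ℝ => G ε v d ^ (-(3 / 2) : ℂ)) :=
    (cont_G ε d).cpow continuous_const h
  have h3 : Continuous (fun v : ℝ => 2 * Complex.cosh d * (Real.sinh v : ℂ)) :=
    continuous_const.mul (Complex.continuous_ofReal.comp Real.continuous_sinh)
  have h4 : Continuous (fun v : ℝ => 2 * Complex.cosh d * (Real.cosh v : ℂ)) :=
    continuous_const.mul (Complex.continuous_ofReal.comp Real.continuous_cosh)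
  exact ((continuous_const.mul h1).mul (h3.pow 2)).sub ((continuous_const.mul h2).mul h4)

lemma cont_ph {d : ℂ} (h : Ok d) : Continuous (fun v : ℝ => ph (1 / 2) v d) := by
  rw [continuous_iff_continuousAt]
  exact fun v => (hasDerivAt_ph h v).continuousAt

lemma cont_ph1 {d : ℂ} (h : Ok d) : Continuous (fun v : ℝ => ph1 v d) := by
  rw [continuous_iff_continuousAt]
  exact fun v => (hasDerivAt_ph1 h v).continuousAt

lemma cont_ph2 {d : ℂ} (h : Ok d) : Continuous (fun v : ℝ => ph2 v d) := by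
  have e : (fun v : ℝ => ph2 v d) = fun v : ℝ => P2' 1 v d + P2' (-1) v d :=
    funext (fun v => ph2_eq v d)
  rw [e]
  exact (cont_P2 1 d (fun v => (h v).1)).add (cont_P2 (-1) d (fun v => (h v).2))

/-! ### norms -/

lemma norm_pow_real (z : ℂ) (p : ℝ) (q : ℂ) (h : q = (p : ℂ)) : ‖z ^ q‖ = ‖z‖ ^ p := by
  rw [h, Complex.norm_cpow_real]

/-- bounds of the three functions in terms of a lower bound `m` of `‖G‖` and an upper bound `M`
of the derivatives -/
lemma norm_P0 (ε v : ℝ) (d : ℂ) (m : ℝ) (hm : 0 < m) (h : m ≤ ‖G ε v d‖) :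
    ‖G ε v d ^ (-(1 / 2) : ℂ)‖ ≤ m ^ (-(1 / 2) : ℝ) := by
  rw [norm_pow_real _ (-(1 / 2)) _ (by push_cast; ring)]
  exact Real.rpow_le_rpow_of_nonpos hm h (by norm_num)

lemma norm_P1 (ε v : ℝ) (d : ℂ) (m M : ℝ) (hm : 0 < m) (h : m ≤ ‖G ε v d‖)
    (hM : ‖2 * Complex.cosh d * (Real.sinh v : ℂ)‖ ≤ M) :
    ‖P1' ε v d‖ ≤ m ^ (-(3 / 2) : ℝ) * M := by
  unfold P1'
  have hM0 : 0 ≤ M := (norm_nonneg _).trans hM
  rw [norm_mul, norm_mul, norm_pow_real _ (-(3 / 2)) _ (by push_cast; ring)]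
  have h1 : ‖G ε v d‖ ^ (-(3 / 2) : ℝ) ≤ m ^ (-(3 / 2) : ℝ) :=
    Real.rpow_le_rpow_of_nonpos hm h (by norm_num)
  have h2 : ‖(-(1 / 2) : ℂ)‖ ≤ 1 := by norm_num
  calc ‖(-(1 / 2) : ℂ)‖ * ‖G ε v d‖ ^ (-(3 / 2) : ℝ) * ‖2 * Complex.cosh d * (Real.sinh v : ℂ)‖
      ≤ 1 * m ^ (-(3 / 2) : ℝ) * M := by gcongr
    _ = _ := by ring

lemma norm_P2 (ε v : ℝ) (d : ℂ) (m M : ℝ) (hm : 0 < m) (h : m ≤ ‖G ε v d‖)
    (hM : ‖2 * Complex.cosh d * (Real.sinh v : ℂ)‖ ≤ M)
    (hM' : ‖2 * Complex.cosh d * (Real.cosh v : ℂ)‖ ≤ M) :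
    ‖P2' ε v d‖ ≤ m ^ (-(5 / 2) : ℝ) * M ^ 2 + m ^ (-(3 / 2) : ℝ) * M := by
  unfold P2'
  have hM0 : 0 ≤ M := (norm_nonneg _).trans hM
  have h1 : ‖G ε v d‖ ^ (-(3 / 2) : ℝ) ≤ m ^ (-(3 / 2) : ℝ) :=
    Real.rpow_le_rpow_of_nonpos hm h (by norm_num)
  have h2 : ‖G ε v d‖ ^ (-(5 / 2) : ℝ) ≤ m ^ (-(5 / 2) : ℝ) :=
    Real.rpow_le_rpow_of_nonpos hm h (by norm_num)
  refine (norm_sub_le _ _).trans (add_le_add ?_ ?_)
  · rw [norm_mul, norm_mul, norm_pow_real _ (-(5 / 2)) _ (by push_cast; ring), norm_pow]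
    have h3 : ‖(3 / 4 : ℂ)‖ ≤ 1 := by norm_num
    calc ‖(3 / 4 : ℂ)‖ * ‖G ε v d‖ ^ (-(5 / 2) : ℝ) *
          ‖2 * Complex.cosh d * (Real.sinh v : ℂ)‖ ^ 2
        ≤ 1 * m ^ (-(5 / 2) : ℝ) * M ^ 2 := by gcongr
      _ = _ := by ring
  · rw [norm_mul, norm_mul, norm_pow_real _ (-(3 / 2)) _ (by push_cast; ring)]
    have h3 : ‖(1 / 2 : ℂ)‖ ≤ 1 := by norm_num
    calc ‖(1 / 2 : ℂ)‖ * ‖G ε v d‖ ^ (-(3 / 2) : ℝ) *
          ‖2 * Complex.cosh d * (Real.cosh v : ℂ)‖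
        ≤ 1 * m ^ (-(3 / 2) : ℝ) * M := by gcongr
      _ = _ := by ring

/-- the simple regime `‖G‖ ≥ c e^{|v|}`, derivatives `≤ C e^{|v|}` -/
lemma rpow_exp (c v : ℝ) (hc : 0 < c) (p : ℝ) :
    (c * Real.exp |v|) ^ p = c ^ p * Real.exp (p * |v|) := by
  rw [Real.mul_rpow hc.le (Real.exp_pos _).le, ← Real.exp_mul]
  congr 2; ring

lemma far_P0 (ε v : ℝ) (d : ℂ) (c : ℝ) (hc : 0 < c) (h : c * Real.exp |v| ≤ ‖G ε v d‖) :
    ‖G ε v d ^ (-(1 / 2) : ℂ)‖ ≤ c ^ (-(1 / 2) : ℝ) * Real.exp (-|v| / 2) := by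
  refine (norm_P0 ε v d _ (by positivity) h).trans (le_of_eq ?_)
  rw [rpow_exp c v hc]; congr 2; ring

lemma far_P1 (ε v : ℝ) (d : ℂ) (c C : ℝ) (hc : 0 < c) (h : c * Real.exp |v| ≤ ‖G ε v d‖)
    (hM : ‖2 * Complex.cosh d * (Real.sinh v : ℂ)‖ ≤ C * Real.exp |v|) :
    ‖P1' ε v d‖ ≤ c ^ (-(3 / 2) : ℝ) * C * Real.exp (-|v| / 2) := by
  refine (norm_P1 ε v d _ _ (by positivity) h hM).trans (le_of_eq ?_)
  rw [rpow_exp c v hc]
  have : Real.exp (-|v| / 2) = Real.exp (-(3 / 2) * |v|) * Real.exp |v| := by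
    rw [← Real.exp_add]; congr 1; ring
  rw [this]; ring

lemma far_P2 (ε v : ℝ) (d : ℂ) (c C : ℝ) (hc : 0 < c) (h : c * Real.exp |v| ≤ ‖G ε v d‖)
    (hM : ‖2 * Complex.cosh d * (Real.sinh v : ℂ)‖ ≤ C * Real.exp |v|)
    (hM' : ‖2 * Complex.cosh d * (Real.cosh v : ℂ)‖ ≤ C * Real.exp |v|) :
    ‖P2' ε v d‖ ≤ (c ^ (-(5 / 2) : ℝ) * C ^ 2 + c ^ (-(3 / 2) : ℝ) * C) *
      Real.exp (-|v| / 2) := by
  refine (norm_P2 ε v d _ _ (by positivity) h hM hM').trans (le_of_eq ?_)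
  rw [rpow_exp c v hc, rpow_exp c v hc]
  have h1 : Real.exp (-|v| / 2) = Real.exp (-(3 / 2) * |v|) * Real.exp |v| := by
    rw [← Real.exp_add]; congr 1; ring
  have h2 : Real.exp (-|v| / 2) = Real.exp (-(5 / 2) * |v|) * Real.exp |v| ^ 2 := by
    rw [pow_two, ← Real.exp_add, ← Real.exp_add]; congr 1; ring
  calc c ^ (-(5 / 2) : ℝ) * Real.exp (-(5 / 2) * |v|) * (C * Real.exp |v|) ^ 2 +
        c ^ (-(3 / 2) : ℝ) * Real.exp (-(3 / 2) * |v|) * (C * Real.exp |v|)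
      = c ^ (-(5 / 2) : ℝ) * C ^ 2 * (Real.exp (-(5 / 2) * |v|) * Real.exp |v| ^ 2) +
        c ^ (-(3 / 2) : ℝ) * C * (Real.exp (-(3 / 2) * |v|) * Real.exp |v|) := by ring
    _ = _ := by rw [← h1, ← h2]; ring

/-- data for the locally uniform bounds -/
lemma norm_cosh_le (d : ℂ) : ‖Complex.cosh d‖ ≤ Real.exp |d.re| := by
  rw [Complex.cosh]
  rw [norm_div, Complex.norm_two, div_le_iff₀ (by norm_num)]
  refine (norm_add_le _ _).trans ?_
  rw [Complex.norm_exp, Complex.norm_exp, Complex.neg_re]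
  have h1 : Real.exp d.re ≤ Real.exp |d.re| := Real.exp_le_exp.2 (le_abs_self _)
  have h2 : Real.exp (-d.re) ≤ Real.exp |d.re| := Real.exp_le_exp.2 (neg_le_abs _)
  linarith

lemma norm_G1 (d : ℂ) (v A : ℝ) (hA : |d.re| ≤ A) :
    ‖2 * Complex.cosh d * (Real.sinh v : ℂ)‖ ≤ 2 * Real.exp A * Real.exp |v| ∧
    ‖2 * Complex.cosh d * (Real.cosh v : ℂ)‖ ≤ 2 * Real.exp A * Real.exp |v| := by
  have h1 : ‖Complex.cosh d‖ ≤ Real.exp A := (norm_cosh_le d).trans (Real.exp_le_exp.2 hA)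
  have h2 : |Real.sinh v| ≤ Real.exp |v| := (abs_sinh_le v).trans (cosh_le v)
  have h3 : |Real.cosh v| ≤ Real.exp |v| := by
    rw [abs_of_pos (Real.cosh_pos v)]; exact cosh_le v
  constructor
  · rw [norm_mul, norm_mul, Complex.norm_two, Complex.norm_real, Real.norm_eq_abs]
    gcongr
  · rw [norm_mul, norm_mul, Complex.norm_two, Complex.norm_real, Real.norm_eq_abs]
    gcongr

lemma norm_G0 (h1 : tCONE) (d : ℂ) (v b A : ℝ) (hd : |d.im| ≤ b) (hb : b < Real.pi / 2)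
    (hA : |d.re| ≤ A) :
    Real.cos b * Real.exp (-A) * Real.exp |v| ≤ ‖G 1 v d‖ ∧
    Real.cos b * Real.exp (-A) * Real.exp |v| ≤ ‖G (-1) v d‖ := by
  obtain ⟨-, -, -, -, -, h2, h3⟩ := h1 d v b hd hb
  have hcos : 0 < Real.cos b := Real.cos_pos_of_mem_Ioo
    ⟨by linarith [abs_nonneg d.im, Real.pi_pos], hb⟩
  have hc := Real.one_le_cosh v
  have hc2 := cosh_ge v
  have e1 : Real.exp (-A) ≤ Real.exp d.re := Real.exp_le_exp.2 (by linarith [neg_le_abs d.re])
  have e2 : Real.exp (-A) ≤ Real.exp (-d.re) := Real.exp_le_exp.2 (by linarith [le_abs_self d.re])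
  rw [← G_one, ← G_neg_one]
  have e3 : Real.exp (-A) * Real.exp |v| ≤
      Real.exp d.re * (Real.cosh v + 1) + Real.exp (-d.re) * (Real.cosh v - 1) := by
    calc Real.exp (-A) * Real.exp |v| ≤ Real.exp (-A) * (2 * Real.cosh v) := by
          gcongr; linarith
      _ = Real.exp (-A) * (Real.cosh v + 1) + Real.exp (-A) * (Real.cosh v - 1) := by ring
      _ ≤ _ := by
          apply add_le_add
          · exact mul_le_mul_of_nonneg_right e1 (by linarith)
          · exact mul_le_mul_of_nonneg_right e2 (by linarith)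
  have e4 : Real.exp (-A) * Real.exp |v| ≤
      Real.exp (-d.re) * (Real.cosh v + 1) + Real.exp d.re * (Real.cosh v - 1) := by
    calc Real.exp (-A) * Real.exp |v| ≤ Real.exp (-A) * (2 * Real.cosh v) := by
          gcongr; linarith
      _ = Real.exp (-A) * (Real.cosh v + 1) + Real.exp (-A) * (Real.cosh v - 1) := by ring
      _ ≤ _ := by
          apply add_le_add
          · exact mul_le_mul_of_nonneg_right e2 (by linarith)
          · exact mul_le_mul_of_nonneg_right e1 (by linarith)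
  constructor
  · refine le_trans ?_ h2
    rw [mul_assoc]
    exact mul_le_mul_of_nonneg_left e3 hcos.le
  · refine le_trans ?_ h3
    rw [mul_assoc]
    exact mul_le_mul_of_nonneg_left e4 hcos.le

/-- locally uniform bounds -/
lemma loc (h1 : tCONE) (b A : ℝ) (hb : b < Real.pi / 2) : ∃ C : ℝ, 0 ≤ C ∧ ∀ d : ℂ,
    |d.im| ≤ b → |d.re| ≤ A → ∀ v : ℝ,
    ‖ph (1 / 2) v d‖ ≤ C * Real.exp (-|v| / 2) ∧ ‖ph1 v d‖ ≤ C * Real.exp (-|v| / 2) ∧
    ‖ph2 v d‖ ≤ C * Real.exp (-|v| / 2) := by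
  rcases lt_or_ge b 0 with hb0 | hb0
  · exact ⟨0, le_rfl, fun d hd => absurd ((abs_nonneg d.im).trans hd) (by linarith)⟩
  have hcos : 0 < Real.cos b := Real.cos_pos_of_mem_Ioo ⟨by linarith [Real.pi_pos], hb⟩
  set c := Real.cos b * Real.exp (-A) with hc
  have hc0 : 0 < c := by positivity
  set M := 2 * Real.exp A with hM
  have hM0 : 0 ≤ M := by positivity
  refine ⟨2 * (c ^ (-(1 / 2) : ℝ) + c ^ (-(3 / 2) : ℝ) * M +
    (c ^ (-(5 / 2) : ℝ) * M ^ 2 + c ^ (-(3 / 2) : ℝ) * M)), by positivity, ?_⟩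
  intro d hd hA v
  obtain ⟨g1, g2⟩ := norm_G0 h1 d v b A hd hb hA
  obtain ⟨g3, g4⟩ := norm_G1 d v A hA
  rw [← hc] at g1 g2
  rw [← hM] at g3 g4
  have hE := Real.exp_pos (-|v| / 2)
  set E := Real.exp (-|v| / 2) with hEdef
  have a1 := far_P0 1 v d c hc0 g1
  have a2 := far_P0 (-1) v d c hc0 g2
  have a3 := far_P1 1 v d c M hc0 g1 g3
  have a4 := far_P1 (-1) v d c M hc0 g2 g3
  have a5 := far_P2 1 v d c M hc0 g1 g3 g4
  have a6 := far_P2 (-1) v d c M hc0 g2 g3 g4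
  have p1 : 0 ≤ c ^ (-(1 / 2) : ℝ) * E := by positivity
  have p2 : 0 ≤ c ^ (-(3 / 2) : ℝ) * M * E := by positivity
  have p3 : 0 ≤ (c ^ (-(5 / 2) : ℝ) * M ^ 2 + c ^ (-(3 / 2) : ℝ) * M) * E := by positivity
  refine ⟨?_, ?_, ?_⟩
  · rw [ph_eq]
    refine (norm_add_le _ _).trans ?_
    linarith
  · unfold ph1
    refine (norm_add_le _ _).trans ?_
    linarith
  · rw [ph2_eq]
    refine (norm_add_le _ _).trans ?_
    linarith

lemma loc_int (h1 : tCONE) {d : ℂ} (hd : d ∈ S0) :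
    Integrable (fun v : ℝ => ph (1 / 2) v d) ∧ Integrable (fun v : ℝ => ph1 v d) ∧
    Integrable (fun v : ℝ => ph2 v d) := by
  obtain ⟨C, -, hC⟩ := loc h1 |d.im| |d.re| hd
  have hok := ok_of h1 hd
  have hdom : Integrable (fun v : ℝ => C * Real.exp (-|v| / 2)) := int_exp_abs.const_mul C
  refine ⟨hdom.mono' (cont_ph hok).aestronglyMeasurable
      (Eventually.of_forall fun v => (hC d le_rfl le_rfl v).1),
    hdom.mono' (cont_ph1 hok).aestronglyMeasurable
      (Eventually.of_forall fun v => (hC d le_rfl le_rfl v).2.1),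
    hdom.mono' (cont_ph2 hok).aestronglyMeasurable
      (Eventually.of_forall fun v => (hC d le_rfl le_rfl v).2.2)⟩

/-! ### integration by parts -/

lemma norm_e (u v : ℝ) : ‖Complex.exp (u * I * v)‖ = 1 := by
  have : (u * I * v : ℂ) = ((u * v : ℝ) : ℂ) * I := by push_cast; ring
  rw [this, Complex.norm_exp_ofReal_mul_I]

lemma cont_e (u : ℝ) : Continuous (fun v : ℝ => Complex.exp (u * I * v)) := by fun_prop

lemma int_mul_e {f : ℝ → ℂ} (hf : Integrable f) (u : ℝ) :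
    Integrable (fun v : ℝ => f v * Complex.exp (u * I * v)) := by
  refine hf.norm.mono' (hf.aestronglyMeasurable.mul (cont_e u).aestronglyMeasurable) ?_
  refine Eventually.of_forall fun v => ?_
  rw [norm_mul, norm_e, mul_one]

lemma by_parts {f f' : ℝ → ℂ} (hf : ∀ v, HasDerivAt f (f' v) v) (h0 : Integrable f)
    (h1 : Integrable f') (u : ℝ) (hu : u ≠ 0) :
    ∫ v : ℝ, f v * Complex.exp (u * I * v) =
      -(1 / (u * I)) * ∫ v : ℝ, f' v * Complex.exp (u * I * v) := by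
  have huI : (u * I : ℂ) ≠ 0 := mul_ne_zero (by exact_mod_cast hu) I_ne_zero
  have hder : ∀ v : ℝ, HasDerivAt (fun v : ℝ => Complex.exp (u * I * v) / (u * I))
      (Complex.exp (u * I * v)) v := by
    intro v
    have h2 : HasDerivAt (fun v : ℝ => (u * I * v : ℂ)) (u * I) v := by
      have := (Complex.ofRealCLM.hasDerivAt (x := v)).const_mul (u * I : ℂ)
      refine this.congr_deriv ?_
      simp
    have h3 := (h2.cexp).div_const (u * I)
    refine h3.congr_deriv ?_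
    rw [mul_div_assoc, div_self huI, mul_one]
  have hi1 : Integrable (f * fun v : ℝ => Complex.exp (u * I * v)) := int_mul_e h0 u
  have hi2 : Integrable (f' * fun v : ℝ => Complex.exp (u * I * v) / (u * I)) := by
    have := (int_mul_e h1 u).div_const (u * I : ℂ)
    refine this.congr (Eventually.of_forall fun v => ?_)
    simp only [Pi.mul_apply]; ring
  have hi3 : Integrable (f * fun v : ℝ => Complex.exp (u * I * v) / (u * I)) := by
    have := (int_mul_e h0 u).div_const (u * I : ℂ)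
    refine this.congr (Eventually.of_forall fun v => ?_)
    simp only [Pi.mul_apply]; ring
  have key := integral_mul_deriv_eq_deriv_mul_of_integrable
    (u := f) (v := fun v : ℝ => Complex.exp (u * I * v) / (u * I))
    (u' := f') (v' := fun v : ℝ => Complex.exp (u * I * v))
    (fun x _ => hf x) (fun x _ => hder x) hi1 hi2 hi3
  rw [key]
  rw [← integral_const_mul, ← integral_neg]
  congr 1
  funext v
  ring

lemma jf_eq (u : ℝ) (d : ℂ) : jf u d = ∫ v : ℝ, ph (1 / 2) v d * Complex.exp (u * I * v) := rfl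

lemma two_parts (h1 : tCONE) {d : ℂ} (hd : d ∈ S0) (u : ℝ) (hu : u ≠ 0) :
    jf u d = -(1 / (u ^ 2 : ℝ)) * ∫ v : ℝ, ph2 v d * Complex.exp (u * I * v) := by
  obtain ⟨i0, i1, i2⟩ := loc_int h1 hd
  have hok := ok_of h1 hd
  rw [jf_eq, by_parts (hasDerivAt_ph hok) i0 i1 u hu, by_parts (hasDerivAt_ph1 hok) i1 i2 u hu,
    ← mul_assoc]
  congr 1
  have hu' : (u : ℂ) ≠ 0 := by exact_mod_cast hu
  push_cast
  field_simp
  rw [I_sq]
  norm_num

lemma norm_int_le {f : ℝ → ℂ} (u : ℝ) :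
    ‖∫ v : ℝ, f v * Complex.exp (u * I * v)‖ ≤ ∫ v : ℝ, ‖f v‖ := by
  refine (norm_integral_le_integral_norm _).trans (le_of_eq ?_)
  congr 1
  funext v
  rw [norm_mul, norm_e, mul_one]

/-- from the two integral bounds to the bound of `jf` -/
lemma jf_bound (h1 : tCONE) {d : ℂ} (hd : d ∈ S0) (u C₁ C₂ : ℝ)
    (hC₁ : ∫ v : ℝ, ‖ph (1 / 2) v d‖ ≤ C₁) (hC₂ : ∫ v : ℝ, ‖ph2 v d‖ ≤ C₂) :
    ‖jf u d‖ ≤ (C₁ + C₂) / (1 + u ^ 2) := by
  have hu2 : 0 < 1 + u ^ 2 := by positivity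
  rw [le_div_iff₀ hu2]
  have e1 : ‖jf u d‖ ≤ C₁ := (norm_int_le u).trans hC₁
  have e2 : ‖jf u d‖ * u ^ 2 ≤ C₂ := by
    rcases eq_or_ne u 0 with hu | hu
    · rw [hu]
      have : 0 ≤ ∫ v : ℝ, ‖ph2 v d‖ := integral_nonneg fun v => norm_nonneg _
      simpa using this.trans hC₂
    · rw [two_parts h1 hd u hu, norm_mul, norm_neg, norm_div, norm_one, Complex.norm_real,
        Real.norm_eq_abs, abs_of_nonneg (sq_nonneg u)]
      have h3 := (norm_int_le (f := fun v => ph2 v d) u).trans hC₂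
      have hu2' : 0 < u ^ 2 := by positivity
      calc 1 / u ^ 2 * ‖∫ v : ℝ, ph2 v d * Complex.exp (u * I * v)‖ * u ^ 2
          = ‖∫ v : ℝ, ph2 v d * Complex.exp (u * I * v)‖ := by field_simp
        _ ≤ C₂ := h3
  linarith

/-! ### the imaginary axis -/

lemma G_im (ε v ψ : ℝ) : G ε v (ψ * I) =
    ((2 * Real.cos ψ * Real.cosh v : ℝ) : ℂ) + ((2 * ε * Real.sin ψ : ℝ) : ℂ) * I := by
  unfold G
  rw [Complex.cosh_mul_I, Complex.sinh_mul_I, ← Complex.ofReal_cos, ← Complex.ofReal_sin]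
  push_cast
  ring

lemma norm_G_im (ε v ψ : ℝ) (hε : ε ^ 2 = 1) (hψ : Real.pi / 4 ≤ ψ) (hψ' : ψ < Real.pi / 2) :
    1 ≤ ‖G ε v (ψ * I)‖ ∧ 2 * Real.cos ψ * Real.cosh v ≤ ‖G ε v (ψ * I)‖ := by
  have hcos : 0 < Real.cos ψ := Real.cos_pos_of_mem_Ioo ⟨by linarith [Real.pi_pos], hψ'⟩
  have hsin : √2 / 2 ≤ Real.sin ψ := by
    rw [← Real.sin_pi_div_four]
    exact Real.sin_le_sin_of_le_of_le_pi_div_two (by linarith [Real.pi_pos]) hψ'.le hψ
  have hsin2 : 1 / 2 ≤ Real.sin ψ ^ 2 := by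
    have h2 : (√2 / 2) ^ 2 = 1 / 2 := by
      rw [div_pow, Real.sq_sqrt (by norm_num)]; norm_num
    rw [← h2]
    exact pow_le_pow_left₀ (by positivity) hsin 2
  have hsq : ‖G ε v (ψ * I)‖ ^ 2 = (2 * Real.cos ψ * Real.cosh v) ^ 2 +
      4 * Real.sin ψ ^ 2 := by
    rw [G_im, Complex.sq_norm, Complex.normSq_add_mul_I]
    rw [mul_pow (2 * ε), mul_pow 2 ε, hε]; ring
  have hn := norm_nonneg (G ε v (ψ * I))
  have hc := Real.cosh_pos v
  constructor
  · nlinarith [sq_nonneg (2 * Real.cos ψ * Real.cosh v)]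
  · apply le_of_sq_le_sq _ hn
    rw [hsq]
    nlinarith

lemma norm_im_deriv (v ψ : ℝ) (hψ : 0 < Real.cos ψ) :
    ‖2 * Complex.cosh (ψ * I) * (Real.sinh v : ℂ)‖ ≤ 2 * Real.cos ψ * Real.cosh v ∧
    ‖2 * Complex.cosh (ψ * I) * (Real.cosh v : ℂ)‖ ≤ 2 * Real.cos ψ * Real.cosh v := by
  rw [Complex.cosh_mul_I, ← Complex.ofReal_cos]
  constructor
  · rw [norm_mul, norm_mul, Complex.norm_two, Complex.norm_real, Complex.norm_real,
      Real.norm_eq_abs, Real.norm_eq_abs, abs_of_pos hψ]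
    have := abs_sinh_le v
    gcongr
  · rw [norm_mul, norm_mul, Complex.norm_two, Complex.norm_real, Complex.norm_real,
      Real.norm_eq_abs, Real.norm_eq_abs, abs_of_pos hψ, abs_of_pos (Real.cosh_pos v)]

/-- pointwise bounds on the imaginary axis; `l = -log cos ψ` -/
lemma im_P0 (ε v ψ : ℝ) (hε : ε ^ 2 = 1) (hψ : Real.pi / 4 ≤ ψ) (hψ' : ψ < Real.pi / 2) :
    ‖G ε v (ψ * I) ^ (-(1 / 2) : ℂ)‖ ≤
      (Icc (Real.log (Real.cos ψ)) (-Real.log (Real.cos ψ))).indicator (fun _ => (1 : ℝ)) v +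
      Real.exp (-|(|v| - (-Real.log (Real.cos ψ)))| / 2) := by
  obtain ⟨g1, g2⟩ := norm_G_im ε v ψ hε hψ hψ'
  have hcos : 0 < Real.cos ψ := Real.cos_pos_of_mem_Ioo ⟨by linarith [Real.pi_pos], hψ'⟩
  set l := -Real.log (Real.cos ψ) with hl
  have hcl : Real.cos ψ = Real.exp (-l) := by rw [hl, neg_neg, Real.exp_log hcos]
  have hE := Real.exp_pos (-|(|v| - l)| / 2)
  by_cases hv : |v| ≤ l
  · have hmem : v ∈ Icc (Real.log (Real.cos ψ)) l := by
      rw [abs_le] at hv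
      refine ⟨?_, hv.2⟩
      have : Real.log (Real.cos ψ) = -l := by rw [hl, neg_neg]
      rw [this]; exact hv.1
    rw [indicator_of_mem hmem]
    have := norm_P0 ε v (ψ * I) 1 one_pos g1
    rw [Real.one_rpow] at this
    linarith
  · push Not at hv
    have h0 : 0 ≤ (Icc (Real.log (Real.cos ψ)) l).indicator (fun _ => (1 : ℝ)) v :=
      indicator_nonneg (fun _ _ => zero_le_one) v
    have h1 : Real.exp (|v| - l) ≤ ‖G ε v (ψ * I)‖ := by
      refine le_trans ?_ g2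
      rw [hcl, sub_eq_neg_add, Real.exp_add]
      have := cosh_ge v
      have := Real.exp_pos (-l)
      nlinarith
    have h2 := norm_P0 ε v (ψ * I) _ (Real.exp_pos _) h1
    rw [← Real.exp_mul] at h2
    have h3 : |(|v| - l)| = |v| - l := abs_of_pos (by linarith)
    rw [h3]
    have h4 : (|v| - l) * -(1 / 2) = -(|v| - l) / 2 := by ring
    rw [h4] at h2
    linarith

lemma im_P2 (ε v ψ : ℝ) (hε : ε ^ 2 = 1) (hψ : Real.pi / 4 ≤ ψ) (hψ' : ψ < Real.pi / 2) :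
    ‖P2' ε v (ψ * I)‖ ≤ 6 * Real.exp (-|(|v| - (-Real.log (Real.cos ψ)))| / 2) := by
  obtain ⟨g1, g2⟩ := norm_G_im ε v ψ hε hψ hψ'
  have hcos : 0 < Real.cos ψ := Real.cos_pos_of_mem_Ioo ⟨by linarith [Real.pi_pos], hψ'⟩
  obtain ⟨g3, g4⟩ := norm_im_deriv v ψ hcos
  set l := -Real.log (Real.cos ψ) with hl
  have hcl : Real.cos ψ = Real.exp (-l) := by rw [hl, neg_neg, Real.exp_log hcos]
  set y := 2 * Real.cos ψ * Real.cosh v with hy
  have hcosh := Real.cosh_pos v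
  have hy0 : 0 < y := by positivity
  have hylow : Real.exp (|v| - l) ≤ y := by
    rw [hy, hcl, sub_eq_neg_add, Real.exp_add]
    have := cosh_ge v
    have := Real.exp_pos (-l)
    nlinarith
  have hyup : y ≤ 2 * Real.exp (|v| - l) := by
    rw [hy, hcl, sub_eq_neg_add, Real.exp_add]
    have := cosh_le v
    have := Real.exp_pos (-l)
    nlinarith
  by_cases hv : |v| ≤ l
  · have h1 := norm_P2 ε v (ψ * I) 1 y one_pos g1 g3 g4
    rw [Real.one_rpow, Real.one_rpow, one_mul, one_mul] at h1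
    have h3 : |(|v| - l)| = l - |v| := by rw [abs_of_nonpos (by linarith)]; ring
    rw [h3]
    have h5 : Real.exp (|v| - l) ≤ 1 := by
      rw [← Real.exp_zero]; exact Real.exp_le_exp.2 (by linarith)
    have h6 : Real.exp (|v| - l) ≤ Real.exp (-(l - |v|) / 2) := Real.exp_le_exp.2 (by linarith)
    nlinarith
  · push Not at hv
    have h1 := norm_P2 ε v (ψ * I) y y hy0 g2 g3 g4
    have h2 : y ^ (-(5 / 2) : ℝ) * y ^ 2 + y ^ (-(3 / 2) : ℝ) * y = 2 * y ^ (-(1 / 2) : ℝ) := by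
      have e1 : y ^ (-(5 / 2) : ℝ) * y ^ 2 = y ^ (-(1 / 2) : ℝ) := by
        rw [← Real.rpow_natCast y 2, ← Real.rpow_add hy0]; norm_num
      have e2 : y ^ (-(3 / 2) : ℝ) * y = y ^ (-(1 / 2) : ℝ) := by
        nth_rw 2 [← Real.rpow_one y]
        rw [← Real.rpow_add hy0]; norm_num
      rw [e1, e2]; ring
    rw [h2] at h1
    have h7 : y ^ (-(1 / 2) : ℝ) ≤ Real.exp (|v| - l) ^ (-(1 / 2) : ℝ) :=
      Real.rpow_le_rpow_of_nonpos (Real.exp_pos _) hylow (by norm_num)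
    rw [← Real.exp_mul] at h7
    have h3 : |(|v| - l)| = |v| - l := abs_of_pos (by linarith)
    rw [h3]
    have h4 : (|v| - l) * -(1 / 2) = -(|v| - l) / 2 := by ring
    rw [h4] at h7
    have := Real.exp_pos (-(|v| - l) / 2)
    linarith

lemma mem_S0_im (ψ : ℝ) (hψ : Real.pi / 4 ≤ ψ) (hψ' : ψ < Real.pi / 2) :
    (ψ * I : ℂ) ∈ S0 := by
  show |(ψ * I : ℂ).im| < Real.pi / 2
  have : (ψ * I : ℂ).im = ψ := by simp
  rw [this, abs_of_nonneg (by linarith [Real.pi_pos])]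
  exact hψ'

lemma im_int (ψ : ℝ) (hψ : Real.pi / 4 ≤ ψ) (hψ' : ψ < Real.pi / 2) :
    ∫ v : ℝ, ‖ph (1 / 2) v (ψ * I)‖ ≤ 4 * (-Real.log (Real.cos ψ)) + 4 * K ∧
    ∫ v : ℝ, ‖ph2 v (ψ * I)‖ ≤ 24 * K := by
  have hcos : 0 < Real.cos ψ := Real.cos_pos_of_mem_Ioo ⟨by linarith [Real.pi_pos], hψ'⟩
  set l := -Real.log (Real.cos ψ) with hl
  have hl0 : 0 ≤ l := by
    rw [hl]
    have := Real.log_nonpos hcos.le (Real.cos_le_one ψ)
    linarith
  have hlog : Real.log (Real.cos ψ) = -l := by rw [hl, neg_neg]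
  obtain ⟨t1, t2⟩ := int_two l
  have hind : Integrable ((Icc (-l) l).indicator (fun _ => (1 : ℝ))) := by
    rw [integrable_indicator_iff measurableSet_Icc]
    exact integrableOn_const (by simp)
  have hindI : ∫ v : ℝ, (Icc (-l) l).indicator (fun _ => (1 : ℝ)) v = 2 * l := by
    rw [integral_indicator measurableSet_Icc]
    simp only [integral_const, MeasurableSet.univ, measureReal_restrict_apply, univ_inter,
      smul_eq_mul, mul_one]
    rw [Real.volume_real_Icc_of_le (by linarith)]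
    ring
  constructor
  · have hdom : Integrable (fun v : ℝ => 2 * (Icc (-l) l).indicator (fun _ => (1 : ℝ)) v +
        2 * (Real.exp (-|v - l| / 2) + Real.exp (-|v + l| / 2))) :=
      (hind.const_mul 2).add (t1.const_mul 2)
    calc ∫ v : ℝ, ‖ph (1 / 2) v (ψ * I)‖
        ≤ ∫ v : ℝ, (2 * (Icc (-l) l).indicator (fun _ => (1 : ℝ)) v +
        2 * (Real.exp (-|v - l| / 2) + Real.exp (-|v + l| / 2))) := by
          apply integral_mono_of_nonneg (Eventually.of_forall fun v => norm_nonneg _) hdom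
          refine Eventually.of_forall fun v => ?_
          simp only
          rw [ph_eq]
          refine (norm_add_le _ _).trans ?_
          have a1 := im_P0 1 v ψ (by norm_num) hψ hψ'
          have a2 := im_P0 (-1) v ψ (by norm_num) hψ hψ'
          have a3 := exp_le_two l v
          rw [← hl, hlog] at a1 a2
          linarith
      _ = 4 * l + 4 * K := by
          rw [integral_add (hind.const_mul 2) (t1.const_mul 2), integral_const_mul,
            integral_const_mul, hindI, t2]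
          ring
  · have hdom : Integrable (fun v : ℝ =>
        12 * (Real.exp (-|v - l| / 2) + Real.exp (-|v + l| / 2))) := t1.const_mul 12
    calc ∫ v : ℝ, ‖ph2 v (ψ * I)‖
        ≤ ∫ v : ℝ, 12 * (Real.exp (-|v - l| / 2) + Real.exp (-|v + l| / 2)) := by
          apply integral_mono_of_nonneg (Eventually.of_forall fun v => norm_nonneg _) hdom
          refine Eventually.of_forall fun v => ?_
          simp only
          rw [ph2_eq]
          refine (norm_add_le _ _).trans ?_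
          have a1 := im_P2 1 v ψ (by norm_num) hψ hψ'
          have a2 := im_P2 (-1) v ψ (by norm_num) hψ hψ'
          have a3 := exp_le_two l v
          rw [← hl] at a1 a2
          linarith
      _ = 24 * K := by
          rw [integral_const_mul, t2]
          ring

end ZJU_

open ZJU_ in
theorem pJU (h1 : tCONE) (_h2 : tPHB) : tJU := by
  refine ⟨fun d hd => ⟨(loc_int h1 hd).2.2, fun u hu => two_parts h1 hd u hu⟩, ?_, ?_, ?_, ?_⟩
  · intro d u
    rw [jf_eq, jf_eq, ← integral_neg_eq_self]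
    congr 1
    funext v
    have e1 : ph (1 / 2) (-v) d = ph (1 / 2) v d := by
      unfold ph gp gm
      rw [Real.cosh_neg]
    rw [e1]
    congr 2
    push_cast
    ring
  · intro b A hb
    obtain ⟨C, hC0, hC⟩ := loc h1 b A hb
    refine ⟨C * K + C * K, ?_⟩
    intro d u hd hA
    have hdS : d ∈ S0 := lt_of_le_of_lt hd hb
    have hdom : Integrable (fun v : ℝ => C * Real.exp (-|v| / 2)) := int_exp_abs.const_mul C
    have hI : ∫ v : ℝ, C * Real.exp (-|v| / 2) = C * K := by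
      rw [integral_const_mul]; rfl
    apply jf_bound h1 hdS
    · rw [← hI]
      exact integral_mono_of_nonneg (Eventually.of_forall fun v => norm_nonneg _) hdom
        (Eventually.of_forall fun v => (hC d hd hA v).1)
    · rw [← hI]
      exact integral_mono_of_nonneg (Eventually.of_forall fun v => norm_nonneg _) hdom
        (Eventually.of_forall fun v => (hC d hd hA v).2.2)
  · refine ⟨4 + 28 * K, ?_⟩
    intro ψ u hψ hψ'
    obtain ⟨i1, i2⟩ := im_int ψ hψ hψ'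
    refine (jf_bound h1 (mem_S0_im ψ hψ hψ') u _ _ i1 i2).trans ?_
    have hcos : 0 < Real.cos ψ := Real.cos_pos_of_mem_Ioo ⟨by linarith [Real.pi_pos], hψ'⟩
    have hl0 : 0 ≤ -Real.log (Real.cos ψ) := by
      have := Real.log_nonpos hcos.le (Real.cos_le_one ψ)
      linarith
    have hK := K_nonneg
    apply div_le_div_of_nonneg_right _ (by positivity)
    nlinarith
  · intro d hd
    obtain ⟨C, -, hC⟩ := loc h1 |d.im| |d.re| hd
    have hok := ok_of h1 hd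
    have e : (fun u : ℝ => jf u d) = fun u : ℝ =>
      ∫ v : ℝ, ph (1 / 2) v d * Complex.exp (u * I * v) := funext fun u => jf_eq u d
    rw [e]
    apply continuous_of_dominated (bound := fun v : ℝ => ‖ph (1 / 2) v d‖)
    · intro u
      exact ((cont_ph hok).mul (cont_e u)).aestronglyMeasurable
    · intro u
      refine Eventually.of_forall fun v => ?_
      rw [norm_mul, norm_e, mul_one]
    · exact (loc_int h1 hd).1.norm
    · refine Eventually.of_forall fun v => ?_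
      fun_prop

end FMZ
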