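import Pool.Agent.FMZ.TZ

/-!
# FMZ: facts on the Bessel function `K_0`
-/

open Complex MeasureTheory Set Filter Topology

namespace FMZ

namespace ZK0_

/-- the weight -/
noncomputable def A (ρ : ℝ) : ℝ := Real.exp (-ρ) * ρ ^ (-(1 / 2) : ℝ)

theorem A_int : IntegrableOn A (Ioi 0) := by
  have h := Real.GammaIntegral_convergent (s := 1 / 2) (by norm_num)
  refine h.congr_fun (fun x _ => ?_) measurableSet_Ioi
  unfold A
  norm_num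

theorem A_nonneg {ρ : ℝ} (h : 0 ≤ ρ) : 0 ≤ A ρ := by
  unfold A
  positivity

theorem A_meas : Measurable A := by
  unfold A
  fun_prop

theorem norm_cpow_half (w : ℂ) : ‖w ^ (-(1 / 2) : ℂ)‖ = ‖w‖ ^ (-(1 / 2) : ℝ) := by
  rw [show (-(1 / 2) : ℂ) = ((-(1 / 2) : ℝ) : ℂ) by push_cast; rfl, norm_cpow_real]

theorem norm_cpow_three (w : ℂ) : ‖w ^ (-(3 / 2) : ℂ)‖ = ‖w‖ ^ (-(3 / 2) : ℝ) := by
  rw [show (-(3 / 2) : ℂ) = ((-(3 / 2) : ℝ) : ℂ) by push_cast; rfl, norm_cpow_real]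

theorem re_eq (ρ : ℝ) (z : ℂ) : ((ρ : ℂ) + 2 * z).re = ρ + 2 * z.re := by
  simp

theorem im_eq (ρ : ℝ) (z : ℂ) : ((ρ : ℂ) + 2 * z).im = 2 * z.im := by
  simp

theorem le_norm_re {ρ : ℝ} {z : ℂ} : ρ + 2 * z.re ≤ ‖(ρ : ℂ) + 2 * z‖ := by
  rw [← re_eq]
  exact re_le_norm _

theorem le_norm_z {ρ : ℝ} {z : ℂ} (hρ : 0 ≤ ρ) (hz : 0 < z.re) : ‖z‖ ≤ ‖(ρ : ℂ) + 2 * z‖ := by
  rw [← Real.sqrt_sq (norm_nonneg z), ← Real.sqrt_sq (norm_nonneg ((ρ : ℂ) + 2 * z)),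
    Complex.sq_norm, Complex.sq_norm, normSq_apply, normSq_apply, re_eq, im_eq]
  refine Real.sqrt_le_sqrt ?_
  nlinarith [sq_nonneg z.im, mul_nonneg hρ hz.le]

theorem meas1 (z c : ℂ) : Measurable fun ρ : ℝ => ((A ρ : ℝ) : ℂ) * ((ρ : ℂ) + 2 * z) ^ c := by
  refine (Complex.measurable_ofReal.comp A_meas).mul ?_
  exact (Complex.measurable_ofReal.add_const _).pow_const c

theorem slit {ρ : ℝ} {z : ℂ} (hρ : 0 < ρ) (hz : 0 < z.re) : (ρ : ℂ) + 2 * z ∈ slitPlane := by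
  left
  rw [re_eq]
  linarith

theorem int_half {z : ℂ} (hz : 0 < z.re) :
    IntegrableOn (fun ρ : ℝ => ((A ρ : ℝ) : ℂ) * ((ρ : ℂ) + 2 * z) ^ (-(1 / 2) : ℂ)) (Ioi 0) ∧
    ‖∫ ρ in Ioi (0 : ℝ), ((A ρ : ℝ) : ℂ) * ((ρ : ℂ) + 2 * z) ^ (-(1 / 2) : ℂ)‖ ≤
      (∫ ρ in Ioi (0 : ℝ), A ρ) * ‖z‖ ^ (-(1 / 2) : ℝ) := by
  have hz0 : 0 < ‖z‖ := lt_of_lt_of_le hz (re_le_norm z)
  have hb : ∀ᵐ ρ ∂(volume.restrict (Ioi (0 : ℝ))),
      ‖((A ρ : ℝ) : ℂ) * ((ρ : ℂ) + 2 * z) ^ (-(1 / 2) : ℂ)‖ ≤ A ρ * ‖z‖ ^ (-(1 / 2) : ℝ) := by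
    refine (ae_restrict_iff' measurableSet_Ioi).mpr (ae_of_all _ fun ρ hρ => ?_)
    have hρ' : 0 < ρ := hρ
    rw [norm_mul, norm_real, Real.norm_eq_abs, abs_of_nonneg (A_nonneg hρ'.le), norm_cpow_half]
    refine mul_le_mul_of_nonneg_left ?_ (A_nonneg hρ'.le)
    exact Real.rpow_le_rpow_of_nonpos hz0 (le_norm_z hρ'.le hz) (by norm_num)
  have hi : Integrable (fun ρ => A ρ * ‖z‖ ^ (-(1 / 2) : ℝ)) (volume.restrict (Ioi (0 : ℝ))) :=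
    Integrable.mul_const A_int _
  refine ⟨hi.mono' (meas1 z _).aestronglyMeasurable hb, ?_⟩
  refine (norm_integral_le_of_norm_le hi hb).trans (le_of_eq ?_)
  exact integral_mul_const _ _

theorem int_half' {z : ℂ} (hz : 0 < z.re) :
    ‖∫ ρ in Ioi (0 : ℝ), ((A ρ : ℝ) : ℂ) * ((ρ : ℂ) + 2 * z) ^ (-(1 / 2) : ℂ)‖ ≤
      (∫ ρ in Ioi (0 : ℝ), Real.exp (-ρ) * ρ ^ ((1 / 16 : ℝ) - 1)) * ‖z‖ ^ (-(1 / 16) : ℝ) := by
  have hz0 : 0 < ‖z‖ := lt_of_lt_of_le hz (re_le_norm z)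
  have hb : ∀ᵐ ρ ∂(volume.restrict (Ioi (0 : ℝ))),
      ‖((A ρ : ℝ) : ℂ) * ((ρ : ℂ) + 2 * z) ^ (-(1 / 2) : ℂ)‖ ≤
        (Real.exp (-ρ) * ρ ^ ((1 / 16 : ℝ) - 1)) * ‖z‖ ^ (-(1 / 16) : ℝ) := by
    refine (ae_restrict_iff' measurableSet_Ioi).mpr (ae_of_all _ fun ρ hρ => ?_)
    have hρ' : 0 < ρ := hρ
    have hw : 0 < ‖(ρ : ℂ) + 2 * z‖ := lt_of_lt_of_le (by linarith) (le_norm_re (ρ := ρ) (z := z))
    rw [norm_mul, norm_real, Real.norm_eq_abs, abs_of_nonneg (A_nonneg hρ'.le), norm_cpow_half]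
    have h1 : ‖(ρ : ℂ) + 2 * z‖ ^ (-(1 / 2) : ℝ) =
        ‖(ρ : ℂ) + 2 * z‖ ^ (-(7 / 16) : ℝ) * ‖(ρ : ℂ) + 2 * z‖ ^ (-(1 / 16) : ℝ) := by
      rw [← Real.rpow_add hw]
      norm_num
    have h2 : ‖(ρ : ℂ) + 2 * z‖ ^ (-(7 / 16) : ℝ) ≤ ρ ^ (-(7 / 16) : ℝ) :=
      Real.rpow_le_rpow_of_nonpos hρ'
        (le_trans (by linarith) (le_norm_re (ρ := ρ) (z := z))) (by norm_num)
    have h3 : ‖(ρ : ℂ) + 2 * z‖ ^ (-(1 / 16) : ℝ) ≤ ‖z‖ ^ (-(1 / 16) : ℝ) :=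
      Real.rpow_le_rpow_of_nonpos hz0 (le_norm_z hρ'.le hz) (by norm_num)
    have h4 : ρ ^ ((1 / 16 : ℝ) - 1) = ρ ^ (-(1 / 2) : ℝ) * ρ ^ (-(7 / 16) : ℝ) := by
      rw [← Real.rpow_add hρ']
      norm_num
    rw [h1, h4, A]
    calc Real.exp (-ρ) * ρ ^ (-(1 / 2) : ℝ) *
          (‖(ρ : ℂ) + 2 * z‖ ^ (-(7 / 16) : ℝ) * ‖(ρ : ℂ) + 2 * z‖ ^ (-(1 / 16) : ℝ))
        ≤ Real.exp (-ρ) * ρ ^ (-(1 / 2) : ℝ) * (ρ ^ (-(7 / 16) : ℝ) * ‖z‖ ^ (-(1 / 16) : ℝ)) := by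
          gcongr
      _ = _ := by ring
  have hi : Integrable (fun ρ : ℝ => (Real.exp (-ρ) * ρ ^ ((1 / 16 : ℝ) - 1)) *
      ‖z‖ ^ (-(1 / 16) : ℝ)) (volume.restrict (Ioi (0 : ℝ))) :=
    Integrable.mul_const (Real.GammaIntegral_convergent (s := 1 / 16) (by norm_num)) _
  refine (norm_integral_le_of_norm_le hi hb).trans (le_of_eq ?_)
  exact integral_mul_const _ _

theorem bound_three {ρ : ℝ} {z : ℂ} {r : ℝ} (hρ : 0 < ρ) (hr : 0 < r)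
    (h : r ≤ ‖(ρ : ℂ) + 2 * z‖) :
    ‖((A ρ : ℝ) : ℂ) * ((ρ : ℂ) + 2 * z) ^ (-(3 / 2) : ℂ)‖ ≤ A ρ * r ^ (-(3 / 2) : ℝ) := by
  rw [norm_mul, norm_real, Real.norm_eq_abs, abs_of_nonneg (A_nonneg hρ.le), norm_cpow_three]
  refine mul_le_mul_of_nonneg_left ?_ (A_nonneg hρ.le)
  exact Real.rpow_le_rpow_of_nonpos hr h (by norm_num)

theorem A_le {ρ : ℝ} (hρ : 0 < ρ) : A ρ ≤ ρ ^ (-(1 / 2) : ℝ) := by
  unfold A
  have h1 : Real.exp (-ρ) ≤ 1 := Real.exp_le_one_iff.mpr (by linarith)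
  have h2 : 0 ≤ ρ ^ (-(1 / 2) : ℝ) := by positivity
  nlinarith

theorem int_three {z : ℂ} (hz : 0 < z.re) :
    IntegrableOn (fun ρ : ℝ => ((A ρ : ℝ) : ℂ) * ((ρ : ℂ) + 2 * z) ^ (-(3 / 2) : ℂ)) (Ioi 0) := by
  refine (A_int.mul_const (‖z‖ ^ (-(3 / 2) : ℝ))).mono' (meas1 z _).aestronglyMeasurable ?_
  have hz0 : 0 < ‖z‖ := lt_of_lt_of_le hz (re_le_norm z)
  refine (ae_restrict_iff' measurableSet_Ioi).mpr (ae_of_all _ fun ρ hρ => ?_)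
  have hρ' : 0 < ρ := hρ
  exact bound_three hρ' hz0 (le_norm_z hρ'.le hz)

theorem norm_three {z : ℂ} (hz : 0 < z.re) :
    ‖∫ ρ in Ioi (0 : ℝ), ((A ρ : ℝ) : ℂ) * ((ρ : ℂ) + 2 * z) ^ (-(3 / 2) : ℂ)‖ ≤
      3 * ‖z‖ ^ (-1 : ℝ) := by
  have hz0 : 0 < ‖z‖ := lt_of_lt_of_le hz (re_le_norm z)
  set r := ‖z‖ with hr
  have hint := int_three hz
  rw [← Ioc_union_Ioi_eq_Ioi hz0.le, setIntegral_union (Ioc_disjoint_Ioi le_rfl) measurableSet_Ioi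
    (hint.mono_set Ioc_subset_Ioi_self) (hint.mono_set (Ioi_subset_Ioi hz0.le))]
  have hI1 : IntervalIntegrable (fun ρ : ℝ => ρ ^ (-(1 / 2) : ℝ)) volume 0 r :=
    intervalIntegral.intervalIntegrable_rpow' (by norm_num)
  have hi1 : IntegrableOn (fun ρ : ℝ => ρ ^ (-(1 / 2) : ℝ) * r ^ (-(3 / 2) : ℝ)) (Ioc 0 r) :=
    Integrable.mul_const ((intervalIntegrable_iff_integrableOn_Ioc_of_le hz0.le).mp hI1) _
  have hv1 : ∫ ρ in Ioc (0 : ℝ) r, ρ ^ (-(1 / 2) : ℝ) * r ^ (-(3 / 2) : ℝ) =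
      2 * r ^ (-1 : ℝ) := by
    rw [integral_mul_const, ← intervalIntegral.integral_of_le hz0.le,
      integral_rpow (Or.inl (by norm_num)), Real.zero_rpow (by norm_num), sub_zero]
    have : r ^ (-1 : ℝ) = r ^ (-(1 / 2) + 1 : ℝ) * r ^ (-(3 / 2) : ℝ) := by
      rw [← Real.rpow_add hz0]
      norm_num
    rw [this]
    ring
  have hi2 : IntegrableOn (fun ρ : ℝ => ρ ^ (-2 : ℝ)) (Ioi r) :=
    integrableOn_Ioi_rpow_of_lt (by norm_num) hz0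
  have hv2 : ∫ ρ in Ioi r, ρ ^ (-2 : ℝ) = r ^ (-1 : ℝ) := by
    rw [integral_Ioi_rpow_of_lt (by norm_num) hz0]
    norm_num
  have e1 : ‖∫ ρ in Ioc (0 : ℝ) r, ((A ρ : ℝ) : ℂ) * ((ρ : ℂ) + 2 * z) ^ (-(3 / 2) : ℂ)‖ ≤
      2 * r ^ (-1 : ℝ) := by
    rw [← hv1]
    refine norm_integral_le_of_norm_le hi1 ?_
    refine (ae_restrict_iff' measurableSet_Ioc).mpr (ae_of_all _ fun ρ hρ => ?_)
    refine (bound_three hρ.1 hz0 (le_norm_z hρ.1.le hz)).trans ?_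
    exact mul_le_mul_of_nonneg_right (A_le hρ.1) (by positivity)
  have e2 : ‖∫ ρ in Ioi r, ((A ρ : ℝ) : ℂ) * ((ρ : ℂ) + 2 * z) ^ (-(3 / 2) : ℂ)‖ ≤
      r ^ (-1 : ℝ) := by
    rw [← hv2]
    refine norm_integral_le_of_norm_le hi2 ?_
    refine (ae_restrict_iff' measurableSet_Ioi).mpr (ae_of_all _ fun ρ hρ => ?_)
    have hρ' : 0 < ρ := lt_trans hz0 hρ
    refine (bound_three hρ' hρ'
      (le_trans (by linarith) (le_norm_re (ρ := ρ) (z := z)))).trans ?_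
    calc A ρ * ρ ^ (-(3 / 2) : ℝ) ≤ ρ ^ (-(1 / 2) : ℝ) * ρ ^ (-(3 / 2) : ℝ) :=
          mul_le_mul_of_nonneg_right (A_le hρ') (by positivity)
      _ = ρ ^ (-2 : ℝ) := by
          rw [← Real.rpow_add hρ']
          norm_num
  calc _ ≤ ‖∫ ρ in Ioc (0 : ℝ) r, ((A ρ : ℝ) : ℂ) * ((ρ : ℂ) + 2 * z) ^ (-(3 / 2) : ℂ)‖ +
        ‖∫ ρ in Ioi r, ((A ρ : ℝ) : ℂ) * ((ρ : ℂ) + 2 * z) ^ (-(3 / 2) : ℂ)‖ := norm_add_le _ _
    _ ≤ 2 * r ^ (-1 : ℝ) + r ^ (-1 : ℝ) := add_le_add e1 e2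
    _ = 3 * r ^ (-1 : ℝ) := by ring

theorem K0_eq (z : ℂ) : K0 z = Complex.exp (-z) *
    ∫ ρ in Ioi (0 : ℝ), ((A ρ : ℝ) : ℂ) * ((ρ : ℂ) + 2 * z) ^ (-(1 / 2) : ℂ) := rfl

theorem K0d_eq (z : ℂ) : K0d z = -K0 z - Complex.exp (-z) *
    ∫ ρ in Ioi (0 : ℝ), ((A ρ : ℝ) : ℂ) * ((ρ : ℂ) + 2 * z) ^ (-(3 / 2) : ℂ) := rfl

theorem deriv_int {z : ℂ} (hz : 0 < z.re) :
    HasDerivAt (fun z : ℂ => ∫ ρ in Ioi (0 : ℝ),
      ((A ρ : ℝ) : ℂ) * ((ρ : ℂ) + 2 * z) ^ (-(1 / 2) : ℂ))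
      (∫ ρ in Ioi (0 : ℝ), -(((A ρ : ℝ) : ℂ) * ((ρ : ℂ) + 2 * z) ^ (-(3 / 2) : ℂ))) z := by
  have hs : {w : ℂ | z.re / 2 < w.re} ∈ 𝓝 z :=
    (isOpen_lt continuous_const continuous_re).mem_nhds (by
      show z.re / 2 < z.re
      linarith)
  refine (hasDerivAt_integral_of_dominated_loc_of_deriv_le (μ := volume.restrict (Ioi (0 : ℝ)))
    (F := fun (z : ℂ) (ρ : ℝ) => ((A ρ : ℝ) : ℂ) * ((ρ : ℂ) + 2 * z) ^ (-(1 / 2) : ℂ))
    (F' := fun (z : ℂ) (ρ : ℝ) => -(((A ρ : ℝ) : ℂ) * ((ρ : ℂ) + 2 * z) ^ (-(3 / 2) : ℂ)))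
    (bound := fun ρ => A ρ * z.re ^ (-(3 / 2) : ℝ)) hs ?_ (int_half hz).1 ?_ ?_ ?_ ?_).2
  · exact Eventually.of_forall fun w => (meas1 w _).aestronglyMeasurable
  · exact (meas1 z _).neg.aestronglyMeasurable
  · refine (ae_restrict_iff' measurableSet_Ioi).mpr (ae_of_all _ fun ρ hρ w hw => ?_)
    have hρ' : 0 < ρ := hρ
    have hw' : z.re / 2 < w.re := hw
    rw [norm_neg]
    refine bound_three hρ' hz (le_trans ?_ (le_norm_re (ρ := ρ) (z := w)))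
    linarith
  · exact Integrable.mul_const A_int _
  · refine (ae_restrict_iff' measurableSet_Ioi).mpr (ae_of_all _ fun ρ hρ w hw => ?_)
    have hρ' : 0 < ρ := hρ
    have hw' : z.re / 2 < w.re := hw
    have h1 : HasDerivAt (fun w : ℂ => (ρ : ℂ) + 2 * w) 2 w := by
      simpa using ((hasDerivAt_id w).const_mul (2 : ℂ)).const_add (ρ : ℂ)
    have h2 := (h1.cpow_const (c := (-(1 / 2) : ℂ)) (slit hρ' (by linarith))).const_mul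
      ((A ρ : ℝ) : ℂ)
    refine h2.congr_deriv ?_
    rw [show (-(1 / 2) : ℂ) - 1 = -(3 / 2) by norm_num]
    ring

theorem deriv_K0 {z : ℂ} (hz : 0 < z.re) : HasDerivAt K0 (K0d z) z := by
  have h1 : HasDerivAt (fun z : ℂ => Complex.exp (-z)) (-Complex.exp (-z)) z := by
    simpa using (hasDerivAt_id z).neg.cexp
  have h2 := h1.mul (deriv_int hz)
  refine (h2.congr_deriv ?_)
  rw [K0d_eq, K0_eq, integral_neg]
  ring

/-- the substitution `ρ = x (cosh t - 1)` -/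
theorem image_eq {x : ℝ} (hx : 0 < x) :
    (fun t : ℝ => x * (Real.cosh t - 1)) '' Ioi 0 = Ioi 0 := by
  ext u
  constructor
  · rintro ⟨t, ht, rfl⟩
    have ht' : t ≠ 0 := ne_of_gt ht
    have := Real.one_lt_cosh.mpr ht'
    show 0 < x * (Real.cosh t - 1)
    exact mul_pos hx (by linarith)
  · intro hu
    have hu' : 0 < u := hu
    have hc : Continuous fun t : ℝ => x * (Real.cosh t - 1) :=
      continuous_const.mul (Real.continuous_cosh.sub continuous_const)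
    set s : ℝ := 1 + 2 * u / x with hs
    have hs0 : 0 ≤ s := by positivity
    have hval : u ≤ x * (Real.cosh s - 1) := by
      have h1 : s ^ 2 / 4 + 1 ≤ Real.cosh s := by
        have e1 := Real.quadratic_le_exp_of_nonneg hs0
        have e2 := Real.add_one_le_exp (-s)
        rw [Real.cosh_eq]
        linarith
      have h2 : u / x ≤ s ^ 2 / 4 := by
        have h3 : 0 ≤ u / x := by positivity
        have h4 : s = 1 + 2 * (u / x) := by rw [hs]; ring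
        rw [h4]
        nlinarith
      calc u = x * (u / x) := by field_simp
        _ ≤ x * (Real.cosh s - 1) := by gcongr; linarith
    have h0 : x * (Real.cosh 0 - 1) ≤ u := by
      rw [Real.cosh_zero]
      simp [hu'.le]
    obtain ⟨t, ht, htu⟩ := intermediate_value_Icc hs0 hc.continuousOn ⟨h0, hval⟩
    refine ⟨t, ?_, htu⟩
    rcases eq_or_lt_of_le ht.1 with h | h
    · exfalso
      rw [← h] at htu
      simp only [Real.cosh_zero, sub_self, mul_zero] at htu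
      linarith
    · exact h

theorem K0_real {x : ℝ} (hx : 0 < x) :
    K0 x = ∫ t in Ioi (0 : ℝ), Complex.exp (-(x * Real.cosh t : ℝ)) := by
  rw [K0_eq]
  have himg := image_eq hx
  have hd : ∀ t ∈ Ioi (0 : ℝ), HasDerivWithinAt (fun t : ℝ => x * (Real.cosh t - 1))
      (x * Real.sinh t) (Ioi 0) t := by
    intro t _
    have := ((Real.hasDerivAt_cosh t).sub_const 1).const_mul x
    exact this.hasDerivWithinAt
  have hinj : InjOn (fun t : ℝ => x * (Real.cosh t - 1)) (Ioi 0) := by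
    intro s hs t ht hst
    have h1 : Real.cosh s = Real.cosh t := by
      have := mul_left_cancel₀ hx.ne' hst
      linarith
    rcases lt_trichotomy s t with h | h | h
    · exact absurd h1 (Real.cosh_strictMonoOn (Ioi_subset_Ici_self hs)
        (Ioi_subset_Ici_self ht) h).ne
    · exact h
    · exact absurd h1 (Real.cosh_strictMonoOn (Ioi_subset_Ici_self ht)
        (Ioi_subset_Ici_self hs) h).ne'
  have hsub := integral_image_eq_integral_abs_deriv_smul measurableSet_Ioi hd hinj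
    (fun ρ : ℝ => ((A ρ : ℝ) : ℂ) * ((ρ : ℂ) + 2 * (x : ℂ)) ^ (-(1 / 2) : ℂ))
  rw [himg] at hsub
  rw [hsub, ← integral_const_mul]
  refine setIntegral_congr_fun measurableSet_Ioi fun t ht => ?_
  have ht' : 0 < t := ht
  have hsh : 0 < Real.sinh t := Real.sinh_pos_iff.mpr ht'
  have hch : 1 < Real.cosh t := Real.one_lt_cosh.mpr ht'.ne'
  set a : ℝ := x * (Real.cosh t - 1) with ha
  have ha0 : 0 < a := mul_pos hx (by linarith)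
  have hb0 : 0 < a + 2 * x := by linarith
  have e1 : ((a : ℂ) + 2 * (x : ℂ)) ^ (-(1 / 2) : ℂ) = (((a + 2 * x) ^ (-(1 / 2) : ℝ) : ℝ) : ℂ) := by
    rw [ofReal_cpow hb0.le]
    push_cast
    rfl
  have e2 : x * Real.sinh t * (a ^ (-(1 / 2) : ℝ) * (a + 2 * x) ^ (-(1 / 2) : ℝ)) = 1 := by
    rw [← Real.mul_rpow ha0.le hb0.le]
    have h3 : a * (a + 2 * x) = (x * Real.sinh t) ^ 2 := by
      have := Real.cosh_sq t
      rw [ha]
      linear_combination x ^ 2 * this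
    rw [h3, Real.rpow_neg (by positivity), ← Real.sqrt_eq_rpow, Real.sqrt_sq (by positivity)]
    exact mul_inv_cancel₀ (by positivity)
  rw [e1, abs_of_pos (by positivity), A, Complex.real_smul, ← ofReal_mul, ← ofReal_mul,
    ← ofReal_neg, ← ofReal_exp, ← ofReal_mul, ← ofReal_neg, ← ofReal_exp, ofReal_inj]
  calc Real.exp (-x) * (x * Real.sinh t *
        (Real.exp (-a) * a ^ (-(1 / 2) : ℝ) * (a + 2 * x) ^ (-(1 / 2) : ℝ)))
      = Real.exp (-x) * Real.exp (-a) *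
        (x * Real.sinh t * (a ^ (-(1 / 2) : ℝ) * (a + 2 * x) ^ (-(1 / 2) : ℝ))) := by ring
    _ = Real.exp (-(x * Real.cosh t)) := by
        rw [e2, mul_one, ← Real.exp_add, ha]
        congr 1
        ring

end ZK0_

open ZK0_ in
theorem pK0 : tK0 := by
  refine ⟨fun z hz => deriv_K0 hz, ?_, fun x hx => K0_real hx⟩
  set I1 : ℝ := ∫ ρ in Ioi (0 : ℝ), A ρ with hI1
  set I2 : ℝ := ∫ ρ in Ioi (0 : ℝ), Real.exp (-ρ) * ρ ^ ((1 / 16 : ℝ) - 1) with hI2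
  have h1 : 0 ≤ I1 := setIntegral_nonneg measurableSet_Ioi fun ρ hρ => A_nonneg (le_of_lt hρ)
  have h2 : 0 ≤ I2 := setIntegral_nonneg measurableSet_Ioi fun ρ hρ => by
    have : 0 < ρ := hρ
    positivity
  refine ⟨I1 + I2 + 3, by positivity, fun z hz => ?_⟩
  have hz0 : 0 < ‖z‖ := lt_of_lt_of_le hz (re_le_norm z)
  have he : ‖Complex.exp (-z)‖ = Real.exp (-z.re) := by
    rw [Complex.norm_exp, neg_re]
  have b1 : ‖K0 z‖ ≤ I1 * Real.exp (-z.re) * ‖z‖ ^ (-(1 / 2) : ℝ) := by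
    rw [K0_eq, norm_mul, he]
    calc _ ≤ Real.exp (-z.re) * (I1 * ‖z‖ ^ (-(1 / 2) : ℝ)) :=
          mul_le_mul_of_nonneg_left (int_half hz).2 (Real.exp_pos _).le
      _ = _ := by ring
  have b2 : ‖K0 z‖ ≤ I2 * Real.exp (-z.re) * ‖z‖ ^ (-(1 / 16) : ℝ) := by
    rw [K0_eq, norm_mul, he]
    calc _ ≤ Real.exp (-z.re) * (I2 * ‖z‖ ^ (-(1 / 16) : ℝ)) :=
          mul_le_mul_of_nonneg_left (int_half' hz) (Real.exp_pos _).le
      _ = _ := by ring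
  refine ⟨b1.trans ?_, b2.trans ?_, ?_⟩
  · gcongr
    linarith
  · gcongr
    linarith
  · rw [K0d_eq]
    have p1 : 0 ≤ ‖z‖ ^ (-(1 / 2) : ℝ) := by positivity
    have p2 : 0 ≤ ‖z‖ ^ (-1 : ℝ) := by positivity
    have p3 := Real.exp_pos (-z.re)
    calc _ ≤ ‖-K0 z‖ + ‖Complex.exp (-z) * ∫ ρ in Ioi (0 : ℝ), ((A ρ : ℝ) : ℂ) *
            ((ρ : ℂ) + 2 * z) ^ (-(3 / 2) : ℂ)‖ := norm_sub_le _ _
      _ ≤ I1 * Real.exp (-z.re) * ‖z‖ ^ (-(1 / 2) : ℝ) +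
            Real.exp (-z.re) * (3 * ‖z‖ ^ (-1 : ℝ)) := by
          rw [norm_neg, norm_mul, he]
          gcongr
          exact norm_three hz
      _ ≤ (I1 + I2 + 3) * Real.exp (-z.re) * ‖z‖ ^ (-(1 / 2) : ℝ) +
            (I1 + I2 + 3) * Real.exp (-z.re) * ‖z‖ ^ (-1 : ℝ) := by
          refine add_le_add ?_ ?_
          · gcongr
            linarith
          · calc Real.exp (-z.re) * (3 * ‖z‖ ^ (-1 : ℝ))
                = 3 * Real.exp (-z.re) * ‖z‖ ^ (-1 : ℝ) := by ring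
              _ ≤ _ := by
                gcongr
                linarith
      _ = _ := by ring

end FMZ
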