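import Pool.Agent.FMZ.TZ

/-!
# FMZ-Z3: the Fourier transform of v (v² + θ²)^(-3/2)
-/

open Complex MeasureTheory Set Filter Topology

namespace FMZ

namespace ZKFT_

/-! ### Bounds -/

lemma slit (θ : ℂ) (hθ : 0 < θ.re) (v : ℝ) : (v : ℂ) ^ 2 + θ ^ 2 ∈ slitPlane := by
  rw [mem_slitPlane_iff]
  by_cases h : θ.im = 0
  · left
    have : ((v : ℂ) ^ 2 + θ ^ 2).re = v ^ 2 + θ.re ^ 2 := by
      simp [pow_two, h]
    rw [this]; positivity
  · right
    have : ((v : ℂ) ^ 2 + θ ^ 2).im = 2 * (θ.re * θ.im) := by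
      simp [pow_two]; ring
    rw [this]
    exact mul_ne_zero two_ne_zero (mul_ne_zero hθ.ne' h)

lemma low1 {a M : ℝ} (ha : 0 < a) {θ w : ℂ} (hM : ‖θ‖ ≤ M) (v : ℝ)
    (hw : ‖(v : ℂ)‖ ≤ ‖w‖ + ‖θ‖) (hN : a ≤ ‖w‖) :
    a / (1 + M + a) * (1 + |v|) ≤ ‖w‖ := by
  have hM0 : 0 ≤ M := (norm_nonneg _).trans hM
  have h1 : |v| ≤ ‖w‖ + M := by
    rw [Complex.norm_real] at hw
    exact hw.trans (by linarith)
  rw [div_mul_eq_mul_div, div_le_iff₀ (by positivity)]
  nlinarith [mul_le_mul_of_nonneg_left h1 ha.le, mul_le_mul_of_nonneg_right hN (by linarith : 0 ≤ 1 + M)]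

lemma low {a M : ℝ} (ha : 0 < a) {θ : ℂ} (h : a ≤ θ.re) (hM : ‖θ‖ ≤ M) (v : ℝ) :
    (a / (1 + M + a)) ^ 2 * (1 + |v|) ^ 2 ≤ ‖(v : ℂ) ^ 2 + θ ^ 2‖ := by
  have hM0 : 0 ≤ M := (norm_nonneg _).trans hM
  have e : (v : ℂ) ^ 2 + θ ^ 2 = (v + I * θ) * (v - I * θ) := by
    ring_nf; rw [I_sq]; ring
  have h1 : a / (1 + M + a) * (1 + |v|) ≤ ‖(v : ℂ) + I * θ‖ := by
    refine low1 ha hM v ?_ ?_
    · calc ‖(v : ℂ)‖ = ‖((v : ℂ) + I * θ) - I * θ‖ := by congr 1; ring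
        _ ≤ ‖(v : ℂ) + I * θ‖ + ‖I * θ‖ := norm_sub_le _ _
        _ = _ := by rw [norm_mul, norm_I, one_mul]
    · refine h.trans ?_
      have := Complex.abs_im_le_norm ((v : ℂ) + I * θ)
      have h2 : ((v : ℂ) + I * θ).im = θ.re := by simp
      rw [h2] at this
      exact (le_abs_self _).trans this
  have h2 : a / (1 + M + a) * (1 + |v|) ≤ ‖(v : ℂ) - I * θ‖ := by
    refine low1 ha hM v ?_ ?_
    · calc ‖(v : ℂ)‖ = ‖((v : ℂ) - I * θ) + I * θ‖ := by congr 1; ring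
        _ ≤ ‖(v : ℂ) - I * θ‖ + ‖I * θ‖ := norm_add_le _ _
        _ = _ := by rw [norm_mul, norm_I, one_mul]
    · refine h.trans ?_
      have := Complex.abs_im_le_norm ((v : ℂ) - I * θ)
      have h2 : ((v : ℂ) - I * θ).im = -θ.re := by simp
      rw [h2, abs_neg] at this
      exact (le_abs_self _).trans this
  rw [e, norm_mul, ← mul_pow, pow_two]
  exact mul_le_mul h1 h2 (by positivity) (norm_nonneg _)

lemma cpow_bound {a M : ℝ} (ha : 0 < a) {θ : ℂ} (h : a ≤ θ.re) (hM : ‖θ‖ ≤ M) (v : ℝ) (k : ℝ)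
    (hk : 0 ≤ k) :
    ‖((v : ℂ) ^ 2 + θ ^ 2) ^ (-(k : ℂ))‖ ≤
      ((a / (1 + M + a)) ^ 2) ^ (-k) * (1 + |v|) ^ (-(2 * k)) := by
  have hM0 : 0 ≤ M := (norm_nonneg _).trans hM
  have h0 := low ha h hM v
  have e : (-(k : ℂ)) = ((-k : ℝ) : ℂ) := by push_cast; rfl
  rw [e, Complex.norm_cpow_real]
  have h1 : (1 + |v|) ^ (-(2 * k)) = ((1 + |v|) ^ 2) ^ (-k) := by
    rw [← Real.rpow_natCast, ← Real.rpow_mul (by positivity)]
    congr 1; push_cast; ring
  rw [h1, ← Real.mul_rpow (by positivity) (by positivity)]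
  exact Real.rpow_le_rpow_of_nonpos (by positivity) h0 (by linarith)

noncomputable def F (u : ℝ) (θ : ℂ) (v : ℝ) : ℂ :=
  v * ((v : ℂ) ^ 2 + θ ^ 2) ^ (-(3 / 2) : ℂ) * Complex.exp (u * I * v)

noncomputable def F' (u : ℝ) (θ : ℂ) (v : ℝ) : ℂ :=
  v * (-(3 / 2) * ((v : ℂ) ^ 2 + θ ^ 2) ^ (-(5 / 2) : ℂ) * (2 * θ)) * Complex.exp (u * I * v)

lemma norm_osc (u v : ℝ) : ‖Complex.exp (u * I * v)‖ = 1 := by
  have : (u : ℂ) * I * v = ((u * v : ℝ) : ℂ) * I := by push_cast; ring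
  rw [this, Complex.norm_exp_ofReal_mul_I]

lemma abs_mul_rpow (v : ℝ) (k : ℝ) (hk : 3 ≤ k) :
    |v| * (1 + |v|) ^ (-k) ≤ (1 + |v|) ^ (-(2 : ℝ)) := by
  have h1 : |v| ≤ (1 + |v|) ^ (1 : ℝ) := by rw [Real.rpow_one]; linarith
  calc |v| * (1 + |v|) ^ (-k) ≤ (1 + |v|) ^ (1 : ℝ) * (1 + |v|) ^ (-k) := by gcongr
    _ = (1 + |v|) ^ (1 - k) := by rw [← Real.rpow_add (by positivity)]; ring_nf
    _ ≤ (1 + |v|) ^ (-(2 : ℝ)) := by
      apply Real.rpow_le_rpow_of_exponent_le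
      · linarith [abs_nonneg v]
      · linarith

lemma cont_F (u : ℝ) (θ : ℂ) (hθ : 0 < θ.re) : Continuous (F u θ) := by
  unfold F
  refine (Continuous.mul continuous_ofReal ?_).mul (by fun_prop)
  exact Continuous.cpow (by fun_prop) continuous_const (fun v => slit θ hθ v)

lemma cont_F' (u : ℝ) (θ : ℂ) (hθ : 0 < θ.re) : Continuous (F' u θ) := by
  unfold F'
  refine (Continuous.mul continuous_ofReal ?_).mul (by fun_prop)
  refine (continuous_const.mul ?_).mul continuous_const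
  exact Continuous.cpow (by fun_prop) continuous_const (fun v => slit θ hθ v)

lemma norm_F_le {a M : ℝ} (ha : 0 < a) {θ : ℂ} (h : a ≤ θ.re) (hM : ‖θ‖ ≤ M) (u v : ℝ) :
    ‖F u θ v‖ ≤ ((a / (1 + M + a)) ^ 2) ^ (-(3 / 2) : ℝ) * (1 + ‖v‖) ^ (-(2 : ℝ)) := by
  have h0 := cpow_bound ha h hM v (3 / 2) (by norm_num)
  have h1 := abs_mul_rpow v (2 * (3 / 2)) (by norm_num)
  unfold F
  rw [norm_mul, norm_osc, mul_one, norm_mul, Complex.norm_real]
  have e : ((3 / 2 : ℝ) : ℂ) = 3 / 2 := by push_cast; rfl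
  rw [e] at h0
  rw [Real.norm_eq_abs]
  calc |v| * ‖((v : ℂ) ^ 2 + θ ^ 2) ^ (-(3 / 2) : ℂ)‖
      ≤ |v| * (((a / (1 + M + a)) ^ 2) ^ (-(3 / 2) : ℝ) * (1 + |v|) ^ (-(2 * (3 / 2)) : ℝ)) := by
        gcongr
    _ = ((a / (1 + M + a)) ^ 2) ^ (-(3 / 2) : ℝ) * (|v| * (1 + |v|) ^ (-(2 * (3 / 2)) : ℝ)) := by
        ring
    _ ≤ _ := mul_le_mul_of_nonneg_left h1 (by positivity)

lemma norm_F'_le {a M : ℝ} (ha : 0 < a) {θ : ℂ} (h : a ≤ θ.re) (hM : ‖θ‖ ≤ M) (u v : ℝ) :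
    ‖F' u θ v‖ ≤ 3 * M * ((a / (1 + M + a)) ^ 2) ^ (-(5 / 2) : ℝ) * (1 + ‖v‖) ^ (-(2 : ℝ)) := by
  have hM0 : 0 ≤ M := (norm_nonneg _).trans hM
  have h0 := cpow_bound ha h hM v (5 / 2) (by norm_num)
  have h1 := abs_mul_rpow v (2 * (5 / 2)) (by norm_num)
  unfold F'
  rw [norm_mul, norm_osc, mul_one, norm_mul, Complex.norm_real]
  have e : ((5 / 2 : ℝ) : ℂ) = 5 / 2 := by push_cast; rfl
  rw [e] at h0
  rw [Real.norm_eq_abs]
  have e2 : ‖-(3 / 2) * ((v : ℂ) ^ 2 + θ ^ 2) ^ (-(5 / 2) : ℂ) * (2 * θ)‖ =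
      3 * ‖θ‖ * ‖((v : ℂ) ^ 2 + θ ^ 2) ^ (-(5 / 2) : ℂ)‖ := by
    rw [norm_mul, norm_mul, norm_mul, norm_neg]
    norm_num
    ring
  rw [e2]
  calc |v| * (3 * ‖θ‖ * ‖((v : ℂ) ^ 2 + θ ^ 2) ^ (-(5 / 2) : ℂ)‖)
      ≤ |v| * (3 * M * (((a / (1 + M + a)) ^ 2) ^ (-(5 / 2) : ℝ) *
          (1 + |v|) ^ (-(2 * (5 / 2)) : ℝ))) := by
        gcongr
    _ = 3 * M * ((a / (1 + M + a)) ^ 2) ^ (-(5 / 2) : ℝ) *
          (|v| * (1 + |v|) ^ (-(2 * (5 / 2)) : ℝ)) := by
        ring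
    _ ≤ _ := mul_le_mul_of_nonneg_left h1 (by positivity)

lemma int_bound : Integrable (fun v : ℝ => (1 + ‖v‖) ^ (-(2 : ℝ))) :=
  integrable_one_add_norm (by simp)

lemma integrable_F (u : ℝ) (θ : ℂ) (hθ : 0 < θ.re) : Integrable (F u θ) := by
  refine Integrable.mono' (int_bound.const_mul _) (cont_F u θ hθ).aestronglyMeasurable
    (ae_of_all _ fun v => norm_F_le hθ le_rfl le_rfl u v)

lemma hasDeriv_F (u : ℝ) (θ : ℂ) (hθ : 0 < θ.re) (v : ℝ) :
    HasDerivAt (fun θ => F u θ v) (F' u θ v) θ := by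
  unfold F F'
  have h1 : HasDerivAt (fun θ : ℂ => (v : ℂ) ^ 2 + θ ^ 2) (2 * θ) θ := by
    have := (hasDerivAt_pow 2 θ).const_add ((v : ℂ) ^ 2)
    simpa using this
  have h2 := h1.cpow_const (c := (-(3 / 2) : ℂ)) (slit θ hθ v)
  have e : (-(3 / 2) : ℂ) - 1 = -(5 / 2) := by norm_num
  rw [e] at h2
  exact (h2.const_mul (v : ℂ)).mul_const (Complex.exp (u * I * v))

lemma diff_int (u : ℝ) : DifferentiableOn ℂ (fun θ => ∫ v, F u θ v) {θ : ℂ | 0 < θ.re} := by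
  intro θ hθ
  simp only [mem_ofPred_eq] at hθ
  have hs : {z : ℂ | θ.re / 2 < z.re} ∩ {z : ℂ | ‖z‖ < ‖θ‖ + 1} ∈ 𝓝 θ := by
    refine IsOpen.mem_nhds ?_ ?_
    · exact (isOpen_lt continuous_const continuous_re).inter
        (isOpen_lt continuous_norm continuous_const)
    · constructor
      · simp only [mem_ofPred_eq]; linarith
      · simp
  have h := hasDerivAt_integral_of_dominated_loc_of_deriv_le (μ := volume) (𝕜 := ℂ)
    (F := fun θ v => F u θ v) (F' := fun θ v => F' u θ v) (x₀ := θ) hs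
    (bound := fun v => 3 * (‖θ‖ + 1) *
      ((θ.re / 2 / (1 + (‖θ‖ + 1) + θ.re / 2)) ^ 2) ^ (-(5 / 2) : ℝ) * (1 + ‖v‖) ^ (-(2 : ℝ)))
    (by
      filter_upwards [(isOpen_lt continuous_const continuous_re).mem_nhds
        (show θ ∈ {z : ℂ | 0 < z.re} from hθ)] with z hz
      exact (cont_F u z hz).aestronglyMeasurable)
    (integrable_F u θ hθ) (cont_F' u θ hθ).aestronglyMeasurable
    (ae_of_all _ fun v z hz => norm_F'_le (by linarith) hz.1.le hz.2.le u v)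
    (int_bound.const_mul _)
    (ae_of_all _ fun v z hz => hasDeriv_F u z (by
      have := hz.1
      simp only [mem_ofPred_eq] at this
      linarith) v)
  exact h.2.differentiableAt.differentiableWithinAt

/-! ### Real θ -/

lemma gamma32 : Real.Gamma (3 / 2) = √Real.pi / 2 := by
  have : (3 / 2 : ℝ) = 1 / 2 + 1 := by norm_num
  rw [this, Real.Gamma_add_one (by norm_num), Real.Gamma_one_half_eq]; ring

lemma laplace {r : ℝ} (hr : 0 < r) :
    ∫ t in Ioi (0 : ℝ), t ^ (1 / 2 : ℝ) * Real.exp (-(r * t)) =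
      √Real.pi / 2 * r ^ (-(3 / 2) : ℝ) := by
  have h := Real.integral_rpow_mul_exp_neg_mul_Ioi (a := 3 / 2) (r := r) (by norm_num) hr
  rw [gamma32] at h
  have e : (3 / 2 - 1 : ℝ) = 1 / 2 := by norm_num
  rw [e] at h
  rw [h, one_div, Real.inv_rpow hr.le, ← Real.rpow_neg hr.le]
  ring

lemma laplace_int {r : ℝ} (hr : 0 < r) :
    IntegrableOn (fun t : ℝ => t ^ (1 / 2 : ℝ) * Real.exp (-(r * t))) (Ioi 0) := by
  by_contra hc
  have := laplace hr
  rw [integral_undef hc] at this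
  have : 0 < √Real.pi / 2 * r ^ (-(3 / 2) : ℝ) := by positivity
  linarith

/-- the Gaussian integral -/
lemma gauss {t : ℝ} (ht : 0 < t) (u : ℝ) :
    ∫ v : ℝ, (v : ℂ) * Complex.exp (-t * v ^ 2) * Complex.exp (u * I * v) =
      I * u / (2 * t) * (√Real.pi * t ^ (-(1 / 2) : ℝ) : ℝ) * Real.exp (-(u ^ 2 / (4 * t))) := by
  have ht' : (t : ℂ) ≠ 0 := by exact_mod_cast ht.ne'
  have h1 : ∀ x : ℝ, HasDerivAt (fun v : ℝ => -(1 / (2 * t)) * Complex.exp (-t * v ^ 2))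
      (x * Complex.exp (-t * x ^ 2)) x := by
    intro x
    have a1 : HasDerivAt (fun v : ℝ => -(t : ℂ) * (v : ℂ) ^ 2) (-t * (2 * x)) x := by
      have := ((hasDerivAt_id x).ofReal_comp.pow 2).const_mul (-(t : ℂ))
      simpa using this
    have := (a1.cexp).const_mul (-(1 / (2 * t)) : ℂ)
    refine this.congr_deriv ?_
    field_simp
  have h2 : ∀ x : ℝ, HasDerivAt (fun v : ℝ => Complex.exp (u * I * v))
      (u * I * Complex.exp (u * I * x)) x := by
    intro x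
    have a1 : HasDerivAt (fun v : ℝ => (u : ℂ) * I * (v : ℂ)) (u * I) x := by
      have := (hasDerivAt_id x).ofReal_comp.const_mul ((u : ℂ) * I)
      simpa using this
    have := a1.cexp
    refine this.congr_deriv ?_
    ring
  have cg : Continuous (fun v : ℝ => Complex.exp (-t * v ^ 2)) := by fun_prop
  have co : Continuous (fun v : ℝ => Complex.exp (u * I * v)) := by fun_prop
  have ng : ∀ v : ℝ, ‖Complex.exp (-t * v ^ 2)‖ = Real.exp (-t * v ^ 2) := by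
    intro v
    have : (-t * v ^ 2 : ℂ) = ((-t * v ^ 2 : ℝ) : ℂ) := by push_cast; ring
    rw [this, Complex.norm_exp_ofReal]
  have ig : Integrable (fun v : ℝ => Complex.exp (-t * v ^ 2)) := by
    refine (integrable_exp_neg_mul_sq ht).mono' cg.aestronglyMeasurable (ae_of_all _ fun v => ?_)
    rw [ng]
  have igv : Integrable (fun v : ℝ => (v : ℂ) * Complex.exp (-t * v ^ 2)) := by
    refine (integrable_mul_exp_neg_mul_sq ht).norm.mono'
      (by fun_prop) (ae_of_all _ fun v => ?_)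
    rw [norm_mul, ng, Complex.norm_real, norm_mul, Real.norm_eq_abs (Real.exp _), Real.abs_exp]
  have key := integral_mul_deriv_eq_deriv_mul_of_integrable
    (u := fun v : ℝ => Complex.exp (u * I * v))
    (v := fun v : ℝ => -(1 / (2 * t)) * Complex.exp (-t * v ^ 2))
    (u' := fun x : ℝ => u * I * Complex.exp (u * I * x))
    (v' := fun x : ℝ => x * Complex.exp (-t * x ^ 2))
    (fun x _ => h2 x) (fun x _ => h1 x)
    (by
      refine igv.norm.mono' (by fun_prop) (ae_of_all _ fun v => ?_)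
      simp only [Pi.mul_apply]
      rw [norm_mul, norm_osc, one_mul])
    (by
      refine (ig.norm.const_mul (‖(u : ℂ) * I‖ * ‖(-(1 / (2 * t)) : ℂ)‖)).mono' (by fun_prop)
        (ae_of_all _ fun v => ?_)
      simp only [Pi.mul_apply]
      rw [norm_mul, norm_mul _ (Complex.exp (u * I * v)), norm_osc, norm_mul _ (cexp _)]
      apply le_of_eq; ring)
    (by
      refine (ig.norm.const_mul (‖(-(1 / (2 * t)) : ℂ)‖)).mono' (by fun_prop)
        (ae_of_all _ fun v => ?_)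
      simp only [Pi.mul_apply]
      rw [norm_mul, norm_osc, norm_mul]
      apply le_of_eq; ring)
  have e1 : ∫ v : ℝ, (v : ℂ) * Complex.exp (-t * v ^ 2) * Complex.exp (u * I * v) =
      ∫ v : ℝ, Complex.exp (u * I * v) * (v * Complex.exp (-t * v ^ 2)) := by
    congr 1; ext v; ring
  rw [e1, key]
  have e2 : ∫ x : ℝ, u * I * Complex.exp (u * I * x) * (-(1 / (2 * t)) * Complex.exp (-t * x ^ 2)) =
      (-(I * u / (2 * t))) * ∫ x : ℝ, Complex.exp (I * u * x) * Complex.exp (-t * x ^ 2) := by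
    rw [← integral_const_mul]
    congr 1; ext v
    have : I * u * v = u * I * v := by ring
    rw [this]; ring
  rw [e2, fourierIntegral_gaussian (by simpa using ht) (u : ℂ)]
  have e3 : ((Real.pi : ℂ) / t) ^ (1 / 2 : ℂ) = ((√Real.pi * t ^ (-(1 / 2) : ℝ) : ℝ) : ℂ) := by
    have : ((Real.pi : ℂ) / t) ^ (1 / 2 : ℂ) = (((Real.pi / t) ^ (1 / 2 : ℝ) : ℝ) : ℂ) := by
      rw [Complex.ofReal_cpow (by positivity)]
      push_cast; rfl
    rw [this, Real.div_rpow Real.pi_pos.le ht.le, ← Real.sqrt_eq_rpow, Real.rpow_neg ht.le]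
    rfl
  have e4 : Complex.exp (-(u : ℂ) ^ 2 / (4 * t)) = ((Real.exp (-(u ^ 2 / (4 * t))) : ℝ) : ℂ) := by
    push_cast; congr 1; ring
  rw [e3, e4]
  ring

/-- the function of two variables -/
noncomputable def G (u a : ℝ) (v t : ℝ) : ℂ :=
  ((v * (t ^ (1 / 2 : ℝ) * Real.exp (-((v ^ 2 + a ^ 2) * t))) : ℝ) : ℂ) * Complex.exp (u * I * v)

lemma norm_G (u a v t : ℝ) (ht : 0 < t) :
    ‖G u a v t‖ = |v| * (t ^ (1 / 2 : ℝ) * Real.exp (-((v ^ 2 + a ^ 2) * t))) := by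
  unfold G
  rw [norm_mul, norm_osc, mul_one, Complex.norm_real, Real.norm_eq_abs, abs_mul,
    abs_of_nonneg (by positivity : 0 ≤ t ^ (1 / 2 : ℝ) * Real.exp (-((v ^ 2 + a ^ 2) * t)))]

lemma int_G (u a : ℝ) (ha : 0 < a) :
    Integrable (Function.uncurry (G u a)) (volume.prod (volume.restrict (Ioi 0))) := by
  have hm : AEStronglyMeasurable (Function.uncurry (G u a))
      (volume.prod (volume.restrict (Ioi 0))) := by
    have : Continuous (Function.uncurry (G u a)) := by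
      unfold G Function.uncurry
      refine Continuous.mul ?_ (by fun_prop)
      refine continuous_ofReal.comp ?_
      refine continuous_fst.mul (Continuous.mul ?_ (by fun_prop))
      exact (Real.continuous_rpow_const (by norm_num)).comp continuous_snd
    exact this.aestronglyMeasurable
  rw [integrable_prod_iff hm]
  constructor
  · refine ae_of_all _ fun v => ?_
    have h := (laplace_int (r := v ^ 2 + a ^ 2) (by positivity)).const_mul v
    have h2 := (h.ofReal (𝕜 := ℂ)).mul_const (Complex.exp (u * I * v))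
    exact h2
  · have e : ∀ v : ℝ, ∫ t in Ioi (0 : ℝ), ‖Function.uncurry (G u a) (v, t)‖ =
        √Real.pi / 2 * (|v| * (v ^ 2 + a ^ 2) ^ (-(3 / 2) : ℝ)) := by
      intro v
      have : ∫ t in Ioi (0 : ℝ), ‖Function.uncurry (G u a) (v, t)‖ =
          ∫ t in Ioi (0 : ℝ), |v| * (t ^ (1 / 2 : ℝ) * Real.exp (-((v ^ 2 + a ^ 2) * t))) :=
        setIntegral_congr_fun measurableSet_Ioi fun t ht => norm_G u a v t ht
      rw [this, integral_const_mul, laplace (by positivity)]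
      ring
    simp only [e]
    refine Integrable.const_mul ?_ _
    have h := (integrable_F u a (by simpa using ha)).norm
    refine h.congr (ae_of_all _ fun v => ?_)
    simp only [F]
    rw [norm_mul, norm_osc, mul_one, norm_mul, Complex.norm_real, Real.norm_eq_abs]
    congr 1
    have e1 : (v : ℂ) ^ 2 + (a : ℂ) ^ 2 = ((v ^ 2 + a ^ 2 : ℝ) : ℂ) := by push_cast; ring
    have e2 : (-(3 / 2) : ℂ) = ((-(3 / 2) : ℝ) : ℂ) := by push_cast; ring
    rw [e1, e2, ← Complex.ofReal_cpow (by positivity), Complex.norm_real, Real.norm_eq_abs,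
      abs_of_nonneg (by positivity)]

lemma real_case1 (u a : ℝ) (ha : 0 < a) :
    ∫ v, F u a v = (2 / √Real.pi : ℝ) * ∫ v : ℝ, ∫ t in Ioi (0 : ℝ), G u a v t := by
  rw [← integral_const_mul]
  congr 1; ext v
  have e1 : (v : ℂ) ^ 2 + (a : ℂ) ^ 2 = ((v ^ 2 + a ^ 2 : ℝ) : ℂ) := by push_cast; ring
  have e2 : (-(3 / 2) : ℂ) = ((-(3 / 2) : ℝ) : ℂ) := by push_cast; ring
  unfold G F
  rw [e1, e2, ← Complex.ofReal_cpow (by positivity), integral_mul_const, integral_complex_ofReal,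
    integral_const_mul, laplace (by positivity)]
  have hp : (√Real.pi : ℝ) ≠ 0 := by positivity
  have : (((2 / √Real.pi : ℝ) : ℂ)) * (((v * (√Real.pi / 2 * (v ^ 2 + a ^ 2) ^ (-(3 / 2) : ℝ)) : ℝ) : ℂ)) =
      (v : ℂ) * (((v ^ 2 + a ^ 2) ^ (-(3 / 2) : ℝ) : ℝ) : ℂ) := by
    rw [← Complex.ofReal_mul, ← Complex.ofReal_mul]
    congr 1
    field_simp
  rw [← mul_assoc, this]

lemma real_case2 (u a : ℝ) (ha : 0 < a) :
    ∫ v, F u a v = I * u * ∫ t in Ioi (0 : ℝ),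
      ((t⁻¹ * Real.exp (-(a ^ 2 * t + u ^ 2 / (4 * t))) : ℝ) : ℂ) := by
  rw [real_case1 u a ha, integral_integral_swap (int_G u a ha), ← integral_const_mul,
    ← integral_const_mul]
  refine setIntegral_congr_fun measurableSet_Ioi fun t ht => ?_
  simp only [mem_Ioi] at ht
  have e : ∀ v : ℝ, G u a v t = ((t ^ (1 / 2 : ℝ) * Real.exp (-(a ^ 2 * t)) : ℝ) : ℂ) *
      ((v : ℂ) * Complex.exp (-t * v ^ 2) * Complex.exp (u * I * v)) := by
    intro v
    unfold G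
    have : Real.exp (-((v ^ 2 + a ^ 2) * t)) = Real.exp (-t * v ^ 2) * Real.exp (-(a ^ 2 * t)) := by
      rw [← Real.exp_add]; congr 1; ring
    rw [this]
    push_cast
    ring
  simp only [e]
  rw [integral_const_mul, gauss ht u]
  have hp : (√Real.pi : ℝ) ≠ 0 := by positivity
  have h1 : t ^ (1 / 2 : ℝ) * t ^ (-(1 / 2) : ℝ) = 1 := by
    rw [← Real.rpow_add ht]; norm_num
  have h2 : Real.exp (-(a ^ 2 * t + u ^ 2 / (4 * t))) =
      Real.exp (-(a ^ 2 * t)) * Real.exp (-(u ^ 2 / (4 * t))) := by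
    rw [← Real.exp_add]; congr 1; ring
  have ht' : (t : ℂ) ≠ 0 := by exact_mod_cast ht.ne'
  have h3 : ((2 / √Real.pi : ℝ) : ℂ) * (((t ^ (1 / 2 : ℝ) * Real.exp (-(a ^ 2 * t)) : ℝ) : ℂ) *
      (I * u / (2 * t) * (√Real.pi * t ^ (-(1 / 2) : ℝ) : ℝ) * Real.exp (-(u ^ 2 / (4 * t))))) =
      I * u * (((2 / √Real.pi) * (t ^ (1 / 2 : ℝ) * Real.exp (-(a ^ 2 * t))) * (1 / (2 * t)) *
        (√Real.pi * t ^ (-(1 / 2) : ℝ)) * Real.exp (-(u ^ 2 / (4 * t))) : ℝ) : ℂ) := by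
    push_cast
    ring
  rw [h3]
  congr 2
  rw [h2]
  calc (2 / √Real.pi) * (t ^ (1 / 2 : ℝ) * Real.exp (-(a ^ 2 * t))) * (1 / (2 * t)) *
        (√Real.pi * t ^ (-(1 / 2) : ℝ)) * Real.exp (-(u ^ 2 / (4 * t)))
      = (t ^ (1 / 2 : ℝ) * t ^ (-(1 / 2) : ℝ)) * (√Real.pi / √Real.pi) * t⁻¹ *
        (Real.exp (-(a ^ 2 * t)) * Real.exp (-(u ^ 2 / (4 * t)))) := by
        field_simp
    _ = _ := by rw [h1, div_self hp]; ring

/-- change of variables t = (u / 2a) e^s -/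
lemma cov (u a : ℝ) (ha : 0 < a) (hu : 0 < u) :
    ∫ t in Ioi (0 : ℝ), t⁻¹ * Real.exp (-(a ^ 2 * t + u ^ 2 / (4 * t))) =
      2 * ∫ s in Ioi (0 : ℝ), Real.exp (-(u * a * Real.cosh s)) := by
  have himg : (fun s : ℝ => u / (2 * a) * Real.exp s) '' univ = Ioi 0 := by
    ext x
    simp only [image_univ, mem_range, mem_Ioi]
    constructor
    · rintro ⟨s, rfl⟩; positivity
    · intro hx
      refine ⟨Real.log (x / (u / (2 * a))), ?_⟩
      rw [Real.exp_log (by positivity)]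
      field_simp
  have h := integral_image_eq_integral_abs_deriv_smul (s := univ)
    (f := fun s : ℝ => u / (2 * a) * Real.exp s) (f' := fun s : ℝ => u / (2 * a) * Real.exp s)
    MeasurableSet.univ
    (fun x _ => ((Real.hasDerivAt_exp x).const_mul (u / (2 * a))).hasDerivWithinAt)
    (by
      intro x _ y _ hxy
      have h1 : u / (2 * a) ≠ 0 := by positivity
      exact Real.exp_injective (mul_left_cancel₀ h1 hxy))
    (fun t : ℝ => t⁻¹ * Real.exp (-(a ^ 2 * t + u ^ 2 / (4 * t))))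
  rw [himg] at h
  rw [h, setIntegral_univ]
  have e : ∀ s : ℝ, |u / (2 * a) * Real.exp s| • ((u / (2 * a) * Real.exp s)⁻¹ *
      Real.exp (-(a ^ 2 * (u / (2 * a) * Real.exp s) + u ^ 2 / (4 * (u / (2 * a) * Real.exp s))))) =
      (fun s => Real.exp (-(u * a * Real.cosh s))) |s| := by
    intro s
    have h0 : 0 < u / (2 * a) * Real.exp s := by positivity
    simp only [smul_eq_mul]
    rw [abs_of_pos h0, ← mul_assoc, mul_inv_cancel₀ h0.ne', one_mul, Real.cosh_abs]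
    congr 1
    rw [Real.cosh_eq, Real.exp_neg]
    have := Real.exp_pos s
    field_simp
    ring
  simp only [e]
  rw [integral_comp_abs (f := fun s => Real.exp (-(u * a * Real.cosh s)))]

lemma real_case (h : tK0) (u a : ℝ) (ha : 0 < a) (hu : 0 < u) :
    ∫ v, F u a v = 2 * I * u * K0 (u * a) := by
  rw [real_case2 u a ha, integral_complex_ofReal, cov u a ha hu]
  have h3 := h.2.2 (u * a) (by positivity)
  have e : ∀ t : ℝ, Complex.exp (-((u * a * Real.cosh t : ℝ) : ℂ)) =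
      ((Real.exp (-(u * a * Real.cosh t)) : ℝ) : ℂ) := by
    intro t; push_cast; rfl
  simp only [e] at h3
  rw [integral_complex_ofReal] at h3
  rw [← Complex.ofReal_mul u a, h3]
  push_cast
  ring

end ZKFT_

open ZKFT_

theorem pKFT (h : tK0) : tKFT := by
  intro θ u hθ hu
  constructor
  · have := integrable_F 0 θ hθ
    refine this.congr (ae_of_all _ fun v => ?_)
    simp [F]
  · have hopen : IsOpen {θ : ℂ | 0 < θ.re} := isOpen_lt continuous_const continuous_re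
    have hA : AnalyticOnNhd ℂ (fun θ => ∫ v, F u θ v) {θ : ℂ | 0 < θ.re} :=
      (diff_int u).analyticOnNhd hopen
    have hB : AnalyticOnNhd ℂ (fun θ : ℂ => 2 * I * u * K0 (u * θ)) {θ : ℂ | 0 < θ.re} := by
      refine DifferentiableOn.analyticOnNhd ?_ hopen
      intro z hz
      have hz' : 0 < ((u : ℂ) * z).re := by
        simp only [mem_ofPred_eq] at hz
        simp only [re_ofReal_mul]
        positivity
      have h1 := (h.1 _ hz').comp z ((hasDerivAt_id z).const_mul (u : ℂ))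
      exact (h1.const_mul (2 * I * u)).differentiableAt.differentiableWithinAt
    have hpre : IsPreconnected {θ : ℂ | 0 < θ.re} := (convex_halfSpace_re_gt 0).isPreconnected
    have hfreq : ∃ᶠ z in 𝓝[≠] (1 : ℂ), ∫ v, F u z v = 2 * I * u * K0 (u * z) := by
      have hev : ∀ᶠ x : ℝ in 𝓝[≠] (1 : ℝ), ∫ v, F u (x : ℂ) v = 2 * I * u * K0 (u * (x : ℂ)) := by
        have : ∀ᶠ x : ℝ in 𝓝[≠] (1 : ℝ), 0 < x :=
          (lt_mem_nhds one_pos).filter_mono nhdsWithin_le_nhds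
        filter_upwards [this] with x hx
        exact real_case h u x hx hu
      have ht : Tendsto (fun x : ℝ => (x : ℂ)) (𝓝[≠] (1 : ℝ)) (𝓝[≠] (1 : ℂ)) := by
        refine tendsto_nhdsWithin_of_tendsto_nhds_of_eventually_within _ ?_ ?_
        · have : Tendsto (fun x : ℝ => (x : ℂ)) (𝓝 1) (𝓝 ((1 : ℝ) : ℂ)) :=
            continuous_ofReal.tendsto 1
          simpa using this.mono_left nhdsWithin_le_nhds
        · filter_upwards [self_mem_nhdsWithin] with x hx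
          simp only [mem_compl_iff, mem_singleton_iff] at hx ⊢
          intro hc
          exact hx (by exact_mod_cast hc)
      exact ht.frequently hev.frequently
    have := hA.eqOn_of_preconnected_of_frequently_eq hB hpre
      (show (1 : ℂ) ∈ {θ : ℂ | 0 < θ.re} by simp) hfreq hθ
    exact this

end FMZ
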