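import Pool.Agent.FMZ.TJ
import Pool.Agent.Lib.SampleZeta

/-! # ZLB: the convexity bound on the critical line -/

open Complex MeasureTheory Set Filter Topology

namespace FMZ

namespace ZLB_

open Pool.Agent.Lib.ZetaConv Pool.Agent.Lib.ZetaLine Pool.Agent.Lib.ZetaRay
open Pool.Agent.Lib.ChiBound

/-- functional equation off the real axis -/
lemma functional_off {s : ℂ} (hi : s.im ≠ 0) :
    riemannZeta s = chi s * riemannZeta (1 - s) := by
  have h0 : s ≠ 0 := by rintro rfl; simp at hi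
  have h1 : (1 - s) ≠ 0 := by
    intro h
    have := congrArg Complex.im h
    simp at this
    exact hi this
  rw [riemannZeta_def_of_ne_zero h0, riemannZeta_def_of_ne_zero h1, completedRiemannZeta_one_sub,
    chi]
  have h2 : Gammaℝ s ≠ 0 := by
    rw [Ne, Gammaℝ_eq_zero_iff]
    rintro ⟨n, hn⟩
    have := congrArg Complex.im hn
    simp at this
    exact hi this
  have h3 := gammaR_one_sub_ne hi
  field_simp

/-- to the left of the critical line, up to `Re s = -1/2` -/
lemma left_bound {x t : ℝ} (hx0 : 0 ≤ x) (hx1 : x ≤ 1) (ht : 20 ≤ t) :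
    ‖riemannZeta ((1 / 2 - x : ℝ) + t * I)‖ ≤ 3 * t ^ x * ‖riemannZeta ((1 / 2 + x : ℝ) + t * I)‖ := by
  have h1 := functional_off (s := (1 / 2 - x : ℝ) + t * I) (by simp; linarith)
  have h2 : (1 - ((1 / 2 - x : ℝ) + t * I) : ℂ) =
      (starRingEnd ℂ) (((1 / 2 + x : ℝ) : ℂ) + t * I) := by
    apply Complex.ext <;> simp <;> ring
  rw [h1, norm_mul, h2, riemannZeta_conj, Complex.norm_conj]
  exact mul_le_mul_of_nonneg_right (chi_left hx0 hx1 ht) (norm_nonneg _)

lemma sq_exp {T : ℝ} (hT : 0 ≤ T) : T ^ 2 * Real.exp (-T) ≤ 2 := by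
  have h1 := Real.quadratic_le_exp_of_nonneg hT
  have h2 : T ^ 2 ≤ 2 * Real.exp T := by nlinarith
  rw [Real.exp_neg]
  have h3 := Real.exp_pos T
  calc T ^ 2 * (Real.exp T)⁻¹ ≤ 2 * Real.exp T * (Real.exp T)⁻¹ :=
        mul_le_mul_of_nonneg_right h2 (inv_pos.2 h3).le
    _ = 2 := by field_simp

lemma lineB : LineB (2 / 5) := by
  obtain ⟨Cc, Tc, hCc, hTc, hc⟩ := boundOn_crude
  obtain ⟨Cr, hCr, hr⟩ := norm_zeta_le_of_re (δ := 3 / 10) (by norm_num)
  refine ⟨(6 * Cr + 24 * Cc) * Real.exp ((13 / 10 - (-3 / 10)) ^ 2), 40 + 2 * Tc, ?_, ?_, ?_⟩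
  · have e1 : 1 ≤ Real.exp ((13 / 10 - (-3 / 10) : ℝ) ^ 2) := Real.one_le_exp (sq_nonneg _)
    nlinarith
  · linarith
  intro T hT
  have hT40 : 40 ≤ T := by linarith
  have hTTc : Tc ≤ T / 2 := by linarith
  have hT0 : 0 < T := by linarith
  set L := Real.log T with hL
  have hL0 : 0 ≤ L := Real.log_nonneg (by linarith)
  set Y := Real.sqrt T with hY
  have hY0 : 0 < Y := Real.sqrt_pos.mpr hT0
  have hYsq : Y ^ 2 = T := Real.sq_sqrt hT0.le
  have hYT : Y ≤ T / 2 := by nlinarith
  have hexpL : ∀ e : ℝ, Real.exp (L * e) = T ^ e := fun e => by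
    rw [hL, Real.rpow_def_of_pos hT0]
  have hTB1 : 1 ≤ T ^ (4 / 5 : ℝ) := Real.one_le_rpow (by linarith) (by norm_num)
  have hTB0 : 0 < T ^ (4 / 5 : ℝ) := by positivity
  have key := gauss_max (a := -3 / 10) (b := 13 / 10) (κ := 1 / 2) (T := T) (Y := Y) (L := L)
    (M := (6 * Cr + 24 * Cc) * T ^ (4 / 5 : ℝ)) (by norm_num) hY0 (by linarith) (by
      intro s hs1 hs2 hs3 hside
      rw [abs_le] at hs3
      have him1 : T / 2 ≤ s.im := by linarith [hs3.1]
      have him2 : s.im ≤ 2 * T := by linarith [hs3.2]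
      have him20 : 20 ≤ s.im := by linarith
      have hexp1 : Real.exp (1 / 2 * L * (s.re - -3 / 10)) ≤ T ^ (4 / 5 : ℝ) := by
        rw [← hexpL, Real.exp_le_exp]
        nlinarith
      have hexp2 : Real.exp (-(s.im - T) ^ 2) ≤ 1 := by
        rw [Real.exp_le_one_iff]; nlinarith [sq_nonneg (s.im - T)]
      have hz0 := norm_nonneg (riemannZeta s)
      have hs' : ∀ x : ℝ, s.re = 1 / 2 - x → s = ((1 / 2 - x : ℝ) : ℂ) + s.im * I := by
        intro x hx
        apply Complex.ext <;> simp [hx]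
      rcases hside with hc1 | hc2 | hc3
      · -- left side
        have e1 : ‖riemannZeta s‖ ≤ 3 * s.im ^ (4 / 5 : ℝ) * Cr := by
          have h1 := left_bound (x := 4 / 5) (t := s.im) (by norm_num) (by norm_num) him20
          rw [← hs' (4 / 5) (by rw [hc1]; norm_num)] at h1
          refine h1.trans (mul_le_mul_of_nonneg_left (hr _ (by simp; norm_num)) ?_)
          have : 0 ≤ s.im ^ (4 / 5 : ℝ) := Real.rpow_nonneg (by linarith) _
          linarith
        have e3 : s.im ^ (4 / 5 : ℝ) ≤ 2 * T ^ (4 / 5 : ℝ) := by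
          have h1 : s.im ^ (4 / 5 : ℝ) ≤ (2 * T) ^ (4 / 5 : ℝ) :=
            Real.rpow_le_rpow (by linarith) him2 (by norm_num)
          rw [Real.mul_rpow (by norm_num) hT0.le] at h1
          have h2 : (2 : ℝ) ^ (4 / 5 : ℝ) ≤ 2 := by
            nth_rewrite 2 [← Real.rpow_one (2 : ℝ)]
            exact Real.rpow_le_rpow_of_exponent_le (by norm_num) (by norm_num)
          nlinarith
        have e4 : Real.exp (1 / 2 * L * (s.re - -3 / 10)) = 1 := by rw [hc1]; simp
        rw [e4, mul_one]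
        calc ‖riemannZeta s‖ * Real.exp (-(s.im - T) ^ 2) ≤ ‖riemannZeta s‖ * 1 := by gcongr
          _ = ‖riemannZeta s‖ := mul_one _
          _ ≤ 3 * s.im ^ (4 / 5 : ℝ) * Cr := e1
          _ ≤ 3 * (2 * T ^ (4 / 5 : ℝ)) * Cr := by gcongr
          _ = (6 * Cr) * T ^ (4 / 5 : ℝ) := by ring
          _ ≤ (6 * Cr + 24 * Cc) * T ^ (4 / 5 : ℝ) := by gcongr; linarith
      · have e2 : ‖riemannZeta s‖ ≤ Cr := hr s (by rw [hc2]; norm_num)
        calc ‖riemannZeta s‖ * Real.exp (1 / 2 * L * (s.re - -3 / 10)) *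
              Real.exp (-(s.im - T) ^ 2)
            ≤ Cr * T ^ (4 / 5 : ℝ) * 1 := by gcongr
          _ ≤ (6 * Cr + 24 * Cc) * T ^ (4 / 5 : ℝ) := by rw [mul_one]; gcongr; linarith
      · have e2 : ‖riemannZeta s‖ ≤ 3 * Cc * s.im ^ 2 := by
          by_cases h4 : 1 / 4 ≤ s.re
          · have h5 := hc s h4 (by linarith)
            rw [Real.rpow_one] at h5
            refine h5.trans ?_
            have : s.im ≤ s.im ^ 2 := by nlinarith
            nlinarith
          · push Not at h4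
            have h1 := left_bound (x := 1 / 2 - s.re) (t := s.im) (by linarith) (by linarith) him20
            rw [← hs' (1 / 2 - s.re) (by ring)] at h1
            have h5 := hc (((1 / 2 + (1 / 2 - s.re) : ℝ) : ℂ) + s.im * I)
              (by
                have : ((((1 / 2 + (1 / 2 - s.re) : ℝ) : ℂ) + s.im * I)).re =
                  1 / 2 + (1 / 2 - s.re) := by simp
                rw [this]; linarith)
              (by
                have : ((((1 / 2 + (1 / 2 - s.re) : ℝ) : ℂ) + s.im * I)).im = s.im := by simp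
                rw [this]; linarith)
            have h6 : ((((1 / 2 + (1 / 2 - s.re) : ℝ) : ℂ) + s.im * I)).im = s.im := by simp
            rw [h6, Real.rpow_one] at h5
            have h7 : s.im ^ (1 / 2 - s.re) ≤ s.im := by
              nth_rewrite 2 [← Real.rpow_one s.im]
              exact Real.rpow_le_rpow_of_exponent_le (by linarith) (by linarith)
            have h8 : 0 ≤ s.im ^ (1 / 2 - s.re) := Real.rpow_nonneg (by linarith) _
            calc ‖riemannZeta s‖ ≤ 3 * s.im ^ (1 / 2 - s.re) *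
                  ‖riemannZeta (((1 / 2 + (1 / 2 - s.re) : ℝ) : ℂ) + s.im * I)‖ := h1
              _ ≤ 3 * s.im * (Cc * s.im) := by
                  apply mul_le_mul _ h5 (norm_nonneg _) (by linarith)
                  linarith
              _ = 3 * Cc * s.im ^ 2 := by ring
        have e3 : -(s.im - T) ^ 2 = -T := by
          rw [← sq_abs, hc3, hYsq]
        rw [e3]
        have e4 := sq_exp hT0.le
        calc ‖riemannZeta s‖ * Real.exp (1 / 2 * L * (s.re - -3 / 10)) * Real.exp (-T)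
            ≤ (3 * Cc * (2 * T) ^ 2) * T ^ (4 / 5 : ℝ) * Real.exp (-T) := by
              gcongr
              exact e2.trans (by gcongr)
          _ = 12 * Cc * T ^ (4 / 5 : ℝ) * (T ^ 2 * Real.exp (-T)) := by ring
          _ ≤ 12 * Cc * T ^ (4 / 5 : ℝ) * 2 := by gcongr
          _ = (24 * Cc) * T ^ (4 / 5 : ℝ) := by ring
          _ ≤ (6 * Cr + 24 * Cc) * T ^ (4 / 5 : ℝ) := by gcongr; linarith)
    (σ := 1 / 2) (by norm_num) (by norm_num)
  have e5 : 1 / 2 * L * (1 / 2 - -3 / 10) = L * (2 / 5) := by ring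
  rw [e5, hexpL] at key
  have hpow : T ^ (4 / 5 : ℝ) = T ^ (2 / 5 : ℝ) * T ^ (2 / 5 : ℝ) := by
    rw [← Real.rpow_add hT0]; norm_num
  have hκx0 : 0 < T ^ (2 / 5 : ℝ) := by positivity
  refine le_of_mul_le_mul_right ?_ hκx0
  refine key.trans (le_of_eq ?_)
  rw [hpow]
  norm_num
  ring

end ZLB_

theorem pZLB : tZLB := by
  obtain ⟨C, hC⟩ := Pool.Agent.Lib.SampleZeta.LineB.line (B := 2 / 5) (by norm_num) ZLB_.lineB
  refine ⟨|C| + 1, by positivity, fun t => ?_⟩
  refine (hC t).trans ?_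
  have h1 : 0 ≤ (1 + |t|) ^ (2 / 5 : ℝ) := by positivity
  have h2 : C ≤ |C| + 1 := by
    have := le_abs_self C
    linarith
  exact mul_le_mul_of_nonneg_right h2 h1

end FMZ
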