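import Pool.Agent.FMZ.TJ
import Pool.Agent.Lib.ZetaCrude

/-!
# FMZ-ZLOW: lower bound for zeta on and to the right of the line Re s = 1
-/

open Complex MeasureTheory Set Filter Topology

namespace FMZ

namespace ZLOW_

open Pool.Agent.Lib.ZetaCrude

lemma norm_g_le' (n : ℕ) (s : ℂ) (hs : 0 ≤ s.re) :
    ‖g n s‖ ≤ 2 * ‖s - 1‖ * (n + 1 : ℝ) ^ (-s.re) := by
  set a : ℝ := n + 1 with ha
  have ha0 : 0 < a := by positivity
  have hder : ∀ x ∈ Set.Icc a (a + 1), HasDerivWithinAt (fun x : ℝ => (x : ℂ) ^ (1 - s))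
      ((1 - s) * (x : ℂ) ^ (-s)) (Set.Icc a (a + 1)) x := by
    intro x hx
    have hx0 : 0 < x := lt_of_lt_of_le ha0 hx.1
    have h1 := (hasDerivAt_cpow_real hx0 (1 - s)).hasDerivWithinAt (s := Set.Icc a (a + 1))
    rw [show (1 - s - 1) = -s by ring] at h1
    exact h1
  have hbd : ∀ x ∈ Set.Icc a (a + 1), ‖(1 - s) * (x : ℂ) ^ (-s)‖ ≤ ‖s - 1‖ * a ^ (-s.re) := by
    intro x hx
    have hx0 : 0 < x := lt_of_lt_of_le ha0 hx.1
    rw [norm_mul, norm_sub_rev, norm_cpow_eq_rpow_re_of_pos hx0, neg_re]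
    apply mul_le_mul_of_nonneg_left _ (norm_nonneg _)
    exact Real.rpow_le_rpow_of_nonpos ha0 hx.1 (by linarith)
  have h6 := Convex.norm_image_sub_le_of_norm_hasDerivWithin_le hder hbd (convex_Icc a (a + 1))
    (Set.left_mem_Icc.mpr (by linarith)) (Set.right_mem_Icc.mpr (by linarith))
  have h7 : ‖(s - 1) * ((a : ℝ) : ℂ) ^ (-s)‖ = ‖s - 1‖ * a ^ (-s.re) := by
    rw [norm_mul, norm_cpow_eq_rpow_re_of_pos ha0, neg_re]
  have h8 : g n s = (s - 1) * ((a : ℝ) : ℂ) ^ (-s) +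
      (((a + 1 : ℝ) : ℂ) ^ (1 - s) - ((a : ℝ) : ℂ) ^ (1 - s)) := by
    simp only [g, ha]
    push_cast
    ring_nf
  rw [h8]
  refine (norm_add_le _ _).trans ?_
  rw [h7]
  have h9 : ‖((a + 1 : ℝ) : ℂ) ^ (1 - s) - ((a : ℝ) : ℂ) ^ (1 - s)‖ ≤ ‖s - 1‖ * a ^ (-s.re) := by
    simpa using h6
  linarith

lemma norm_g_le_pow (n : ℕ) (s : ℂ) (hs : 0 ≤ s.re) {η : ℝ} (hη0 : 0 < η) (hη1 : η ≤ 1) :
    ‖g n s‖ ≤ 2 * ‖s - 1‖ * (1 + ‖s‖) ^ η * (n + 1 : ℝ) ^ (-s.re - η) := by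
  have hn : (0 : ℝ) < n + 1 := by positivity
  have hS : (0 : ℝ) < 1 + ‖s‖ := by positivity
  by_cases h : (n + 1 : ℝ) ≤ 1 + ‖s‖
  · refine (norm_g_le' n s hs).trans ?_
    have h1 : (n + 1 : ℝ) ^ (-s.re) = (n + 1 : ℝ) ^ (-s.re - η) * (n + 1 : ℝ) ^ η := by
      rw [← Real.rpow_add hn]
      congr 1
      ring
    have h2 : (n + 1 : ℝ) ^ η ≤ (1 + ‖s‖) ^ η := Real.rpow_le_rpow hn.le h hη0.le
    rw [h1]
    have h3 : 0 ≤ (n + 1 : ℝ) ^ (-s.re - η) := by positivity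
    have h4 : 0 ≤ 2 * ‖s - 1‖ := by positivity
    calc 2 * ‖s - 1‖ * ((n + 1 : ℝ) ^ (-s.re - η) * (n + 1 : ℝ) ^ η)
        ≤ 2 * ‖s - 1‖ * ((n + 1 : ℝ) ^ (-s.re - η) * (1 + ‖s‖) ^ η) := by gcongr
      _ = _ := by ring
  · push Not at h
    refine (norm_g_le n s hs).trans ?_
    have h1 : ‖s‖ ≤ (1 + ‖s‖) ^ η * (n + 1 : ℝ) ^ (1 - η) := by
      calc ‖s‖ ≤ (1 + ‖s‖) := by linarith
        _ = (1 + ‖s‖) ^ η * (1 + ‖s‖) ^ (1 - η) := by
            rw [← Real.rpow_add hS]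
            simp
        _ ≤ _ := by
            gcongr
    have h2 : (n + 1 : ℝ) ^ (-s.re - η) = (n + 1 : ℝ) ^ (1 - η) * (n + 1 : ℝ) ^ (-s.re - 1) := by
      rw [← Real.rpow_add hn]
      congr 1
      ring
    rw [h2]
    have h3 : 0 ≤ (n + 1 : ℝ) ^ (-s.re - 1) := by positivity
    have h4 : 0 ≤ ‖s - 1‖ := by positivity
    have h5 : 0 ≤ (1 + ‖s‖) ^ η * (n + 1 : ℝ) ^ (1 - η) := by positivity
    calc ‖s - 1‖ * ‖s‖ * (n + 1 : ℝ) ^ (-s.re - 1)
        ≤ ‖s - 1‖ * ((1 + ‖s‖) ^ η * (n + 1 : ℝ) ^ (1 - η)) * (n + 1 : ℝ) ^ (-s.re - 1) := by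
          gcongr
      _ ≤ 2 * (‖s - 1‖ * ((1 + ‖s‖) ^ η * (n + 1 : ℝ) ^ (1 - η)) * (n + 1 : ℝ) ^ (-s.re - 1)) := by
          have : 0 ≤ ‖s - 1‖ * ((1 + ‖s‖) ^ η * (n + 1 : ℝ) ^ (1 - η)) *
            (n + 1 : ℝ) ^ (-s.re - 1) := by positivity
          linarith
      _ = _ := by ring

/-- upper bound near the line `Re s = 1` -/
lemma upper {η : ℝ} (hη0 : 0 < η) (hη1 : η ≤ 1) : ∃ C : ℝ, 1 ≤ C ∧ ∀ s : ℂ,
    1 - η / 2 ≤ s.re → 1 / 2 ≤ ‖s - 1‖ → ‖riemannZeta s‖ ≤ C * (1 + ‖s‖) ^ η := by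
  set S := ∑' n : ℕ, (n + 1 : ℝ) ^ (-(η / 2 : ℝ) - 1) with hS
  have hsumm := summable_rpow_aux (σ := η / 2) (by positivity)
  have hS0 : 0 ≤ S := tsum_nonneg fun n => by positivity
  refine ⟨2 + 2 * S, by linarith, ?_⟩
  intro s hs hs1
  have hsne : s ≠ 1 := by
    rintro rfl
    simp at hs1
    linarith
  have hre : 0 < s.re := by linarith
  have hbound : ∀ n : ℕ, ‖g n s‖ ≤ 2 * ‖s - 1‖ * (1 + ‖s‖) ^ η *
      (n + 1 : ℝ) ^ (-(η / 2 : ℝ) - 1) := by
    intro n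
    refine (norm_g_le_pow n s hre.le hη0 hη1).trans ?_
    apply mul_le_mul_of_nonneg_left _ (by positivity)
    apply Real.rpow_le_rpow_of_exponent_le
    · have : (0 : ℝ) ≤ n := Nat.cast_nonneg n
      linarith
    · linarith
  have hts : ‖∑' n, g n s‖ ≤ 2 * ‖s - 1‖ * (1 + ‖s‖) ^ η * S := by
    rw [hS, ← tsum_mul_left]
    exact tsum_of_norm_bounded (hsumm.mul_left _).hasSum hbound
  have hG : ‖G s‖ ≤ 1 + 2 * ‖s - 1‖ * (1 + ‖s‖) ^ η * S := by
    unfold G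
    refine (norm_add_le _ _).trans ?_
    simpa using hts
  rw [riemannZeta_eq_inv_sub_mul hsne, ← G_eq hre, norm_mul, norm_inv]
  have h1 : ‖s - 1‖⁻¹ * ‖G s‖ ≤ ‖s - 1‖⁻¹ * (1 + 2 * ‖s - 1‖ * (1 + ‖s‖) ^ η * S) := by
    gcongr
  refine h1.trans ?_
  have h2 : ‖s - 1‖⁻¹ ≤ 2 := by
    rw [inv_le_comm₀ (by linarith) (by norm_num)]
    linarith
  have h3 : ‖s - 1‖⁻¹ * (1 + 2 * ‖s - 1‖ * (1 + ‖s‖) ^ η * S) =
      ‖s - 1‖⁻¹ + 2 * (1 + ‖s‖) ^ η * S := by
    have : ‖s - 1‖ ≠ 0 := by linarith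
    field_simp
  rw [h3]
  have h4 : 1 ≤ (1 + ‖s‖) ^ η := Real.one_le_rpow (by linarith [norm_nonneg s]) hη0.le
  nlinarith

lemma rpow_five {η y : ℝ} (hη0 : 0 < η) (hη1 : η ≤ 1) (hy : 1 ≤ y) {A : ℝ} (hA0 : 0 ≤ A)
    (hA : A ≤ 6 * y) : A ^ η ≤ 6 * y ^ η := by
  calc A ^ η ≤ (6 * y) ^ η := Real.rpow_le_rpow hA0 hA hη0.le
    _ = 6 ^ η * y ^ η := Real.mul_rpow (by norm_num) (by linarith)
    _ ≤ 6 ^ (1 : ℝ) * y ^ η := by
        gcongr
        norm_num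
    _ = 6 * y ^ η := by rw [Real.rpow_one]

lemma norm_le_re_im (s : ℂ) : ‖s‖ ≤ |s.re| + |s.im| := Complex.norm_le_abs_re_add_abs_im s

/-- the bounds for zeta and its derivative -/
lemma upper2 {η : ℝ} (hη0 : 0 < η) (hη1 : η ≤ 1 / 2) : ∃ C : ℝ, 1 ≤ C ∧
    (∀ s : ℂ, 1 ≤ s.re → s.re ≤ 2 → 1 ≤ |s.im| → ‖riemannZeta s‖ ≤ C * |s.im| ^ η) ∧
    (∀ s : ℂ, 1 ≤ s.re → s.re ≤ 2 → 1 ≤ |s.im| → ‖deriv riemannZeta s‖ ≤ C * |s.im| ^ η) := by
  obtain ⟨C, hC, h⟩ := upper hη0 (by linarith)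
  have key : ∀ s z : ℂ, 1 ≤ s.re → s.re ≤ 2 → 1 ≤ |s.im| → ‖z - s‖ ≤ η / 2 →
      ‖riemannZeta z‖ ≤ C * (6 * |s.im| ^ η) := by
    intro s z h1 h2 h3 hz
    have hre : |z.re - s.re| ≤ η / 2 := by
      have := (Complex.abs_re_le_norm (z - s)).trans hz
      simpa using this
    have him : |z.im - s.im| ≤ η / 2 := by
      have := (Complex.abs_im_le_norm (z - s)).trans hz
      simpa using this
    have hre' := abs_le.mp hre
    have h4 : |s.im| ≤ |z.im| + η / 2 := by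
      have := abs_sub_abs_le_abs_sub s.im z.im
      rw [abs_sub_comm] at this
      linarith
    have h5 : 1 / 2 ≤ ‖z - 1‖ := by
      have := Complex.abs_im_le_norm (z - 1)
      simp only [sub_im, one_im, sub_zero] at this
      linarith
    refine (h z (by linarith) h5).trans ?_
    apply mul_le_mul_of_nonneg_left _ (by linarith)
    apply rpow_five hη0 (by linarith) h3 (by positivity)
    have h6 : ‖z‖ ≤ ‖z - s‖ + ‖s‖ := by
      have := norm_add_le (z - s) s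
      simpa using this
    have h7 := norm_le_re_im s
    rw [abs_of_nonneg (by linarith : (0 : ℝ) ≤ s.re)] at h7
    linarith
  have hη' : 0 < η / 2 := by linarith
  refine ⟨max (C * 6) (C * 6 / (η / 2)), le_max_of_le_left (by linarith), ?_, ?_⟩
  · intro s h1 h2 h3
    have := key s s h1 h2 h3 (by simp; linarith)
    refine this.trans ?_
    rw [← mul_assoc]
    exact mul_le_mul_of_nonneg_right (le_max_left _ _) (by positivity)
  · intro s h1 h2 h3
    have hd : DiffContOnCl ℂ riemannZeta (Metric.ball s (η / 2)) := by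
      apply DifferentiableOn.diffContOnCl
      intro z hz
      apply (differentiableAt_riemannZeta _).differentiableWithinAt
      rintro rfl
      rw [closure_ball _ hη'.ne'] at hz
      have h4 : ‖(1 : ℂ) - s‖ ≤ η / 2 := by simpa [dist_eq_norm] using hz
      have h5 := (Complex.abs_im_le_norm (1 - s)).trans h4
      simp at h5
      linarith
    have := Complex.norm_deriv_le_of_forall_mem_sphere_norm_le hη' hd (C := C * (6 * |s.im| ^ η))
      (fun z hz => key s z h1 h2 h3 (by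
        rw [← dist_eq_norm]
        exact (Metric.mem_sphere.mp hz).le))
    refine this.trans ?_
    have e : C * (6 * |s.im| ^ η) / (η / 2) = C * 6 / (η / 2) * |s.im| ^ η := by ring
    rw [e]
    exact mul_le_mul_of_nonneg_right (le_max_right _ _) (by positivity)

/-- the pole -/
lemma pole : ∃ K : ℝ, 1 ≤ K ∧ ∀ x : ℝ, 0 < x → x ≤ 1 → ‖riemannZeta (1 + x)‖ ≤ K / x := by
  have hc : ContinuousOn (fun x : ℝ => riemannZeta₁ (1 + x)) (Icc 0 1) := by
    apply Continuous.continuousOn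
    exact differentiable_riemannZeta₁.continuous.comp (by fun_prop)
  obtain ⟨K, hK⟩ := isCompact_Icc.exists_bound_of_continuousOn hc
  refine ⟨max K 1, le_max_right _ _, ?_⟩
  intro x hx hx1
  have hne : (1 + x : ℂ) ≠ 1 := by
    intro h
    have : (x : ℂ) = 0 := by linear_combination h
    exact hx.ne' (by exact_mod_cast this)
  rw [riemannZeta_eq_inv_sub_mul hne, norm_mul, norm_inv]
  have h1 : ‖(1 + x : ℂ) - 1‖ = x := by
    simp [abs_of_pos hx]
  rw [h1, div_eq_inv_mul]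
  apply mul_le_mul_of_nonneg_left _ (by positivity)
  exact (hK x ⟨hx.le, hx1⟩).trans (le_max_left _ _)

/-- 3-4-1 -/
lemma three_four_one {x : ℝ} (hx : 0 < x) (y : ℝ) :
    1 ≤ ‖riemannZeta (1 + x)‖ ^ 3 * ‖riemannZeta (1 + x + I * y)‖ ^ 4 *
      ‖riemannZeta (1 + x + 2 * I * y)‖ := by
  have h := DirichletCharacter.norm_LFunction_product_ge_one (1 : DirichletCharacter ℂ 1) hx y
  rw [DirichletCharacter.LFunctionTrivChar, DirichletCharacter.LFunction_modOne_eq,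
    DirichletCharacter.LFunction_modOne_eq] at h
  simpa [norm_mul, norm_pow] using h

lemma lip {C η : ℝ}
    (hd : ∀ s : ℂ, 1 ≤ s.re → s.re ≤ 2 → 1 ≤ |s.im| → ‖deriv riemannZeta s‖ ≤ C * |s.im| ^ η)
    {σ σ' y : ℝ} (h1 : 1 ≤ σ) (h2 : σ ≤ σ') (h3 : σ' ≤ 2) (hy : 1 ≤ |y|) :
    ‖riemannZeta (σ' + y * I) - riemannZeta (σ + y * I)‖ ≤ C * |y| ^ η * (σ' - σ) := by
  have hconv : Convex ℝ ((Icc (1 : ℝ) 2) ×ℂ ({y} : Set ℝ)) :=
    ((convex_Icc (1 : ℝ) 2).linear_preimage Complex.reLm).inter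
      ((convex_singleton y).linear_preimage Complex.imLm)
  have hder : ∀ z ∈ ((Icc (1 : ℝ) 2) ×ℂ ({y} : Set ℝ)), HasDerivWithinAt riemannZeta
      (deriv riemannZeta z) ((Icc (1 : ℝ) 2) ×ℂ ({y} : Set ℝ)) z := by
    intro z hz
    rw [mem_reProdIm] at hz
    have hz2 : z.im = y := by simpa using hz.2
    apply HasDerivAt.hasDerivWithinAt
    apply (differentiableAt_riemannZeta _).hasDerivAt
    rintro rfl
    rw [← hz2] at hy
    simp at hy
    linarith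
  have hbd : ∀ z ∈ ((Icc (1 : ℝ) 2) ×ℂ ({y} : Set ℝ)), ‖deriv riemannZeta z‖ ≤ C * |y| ^ η := by
    intro z hz
    rw [mem_reProdIm] at hz
    have hz2 : z.im = y := by simpa using hz.2
    have := hd z hz.1.1 hz.1.2 (by rw [hz2]; exact hy)
    rwa [hz2] at this
  have := hconv.norm_image_sub_le_of_norm_hasDerivWithin_le hder hbd
    (x := (σ + y * I : ℂ)) (y := (σ' + y * I : ℂ))
    (by rw [mem_reProdIm]; simp; exact ⟨h1, by linarith⟩)
    (by rw [mem_reProdIm]; simp; exact ⟨by linarith, h3⟩)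
  refine this.trans (le_of_eq ?_)
  congr 1
  have e : (σ' + y * I : ℂ) - (σ + y * I) = ((σ' - σ : ℝ) : ℂ) := by push_cast; ring
  rw [e, Complex.norm_real, Real.norm_eq_abs, abs_of_nonneg (by linarith)]

end ZLOW_

open ZLOW_ in
theorem pZLOW : tZLOW := by
  intro ε hε
  set η : ℝ := min (ε / 4) (1 / 2) with hη
  have hη0 : 0 < η := lt_min (by positivity) (by norm_num)
  have hη1 : η ≤ 1 / 2 := min_le_right _ _
  have hη4 : 4 * η ≤ ε := by
    have := min_le_left (ε / 4) (1 / 2)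
    linarith
  obtain ⟨C, hC, hU, hD⟩ := upper2 hη0 hη1
  obtain ⟨K, hK, hP⟩ := pole
  obtain ⟨C₂, hC₂, h₂⟩ := Pool.Agent.Lib.ZetaCrude.norm_zeta_le_of_two_le
  set c₁ : ℝ := 1 / (2 * K ^ 3 * C) with hc₁
  have hc₁0 : 0 < c₁ := by positivity
  set b : ℝ := c₁ ^ (1 / 4 : ℝ) with hb
  have hb0 : 0 < b := by positivity
  have hb4 : b ^ 4 = c₁ := by
    rw [hb, ← Real.rpow_natCast, ← Real.rpow_mul hc₁0.le]
    norm_num
  have hc₁1 : c₁ ≤ 1 := by
    rw [hc₁, div_le_one (by positivity)]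
    have : 1 ≤ K ^ 3 := one_le_pow₀ hK
    nlinarith
  have hb1 : b ≤ 1 := by
    rw [hb]
    exact Real.rpow_le_one hc₁0.le hc₁1 (by norm_num)
  set a : ℝ := b / (2 * C) with ha
  have ha0 : 0 < a := by positivity
  have ha1 : a ≤ 1 := by
    rw [ha, div_le_one (by positivity)]
    linarith
  have hCa : C * a = b / 2 := by
    rw [ha]
    field_simp
  -- the lower bound from 3-4-1
  have low : ∀ x y : ℝ, 0 < x → x ≤ 1 → 1 ≤ |y| → c₁ * x ^ 3 * |y| ^ (-η) ≤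
      ‖riemannZeta ((1 + x : ℝ) + y * I)‖ ^ 4 := by
    intro x y hx hx1 hy
    have h := three_four_one hx y
    have e1 : (1 + x + I * y : ℂ) = ((1 + x : ℝ) + y * I) := by push_cast; ring
    have e2 : (1 + x + 2 * I * y : ℂ) = ((1 + x : ℝ) + (2 * y : ℝ) * I) := by push_cast; ring
    rw [e1, e2] at h
    have h3 := hP x hx hx1
    have h4 := hU ((1 + x : ℝ) + (2 * y : ℝ) * I) (by simp; linarith) (by simp; linarith)
      (by
        have : (((1 + x : ℝ) + (2 * y : ℝ) * I : ℂ)).im = 2 * y := by simp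
        rw [this, abs_mul]
        simp
        linarith)
    have h5 : (((1 + x : ℝ) + (2 * y : ℝ) * I : ℂ)).im = 2 * y := by simp
    rw [h5, abs_mul, abs_two, Real.mul_rpow (by norm_num) (abs_nonneg _)] at h4
    have h6 : (2 : ℝ) ^ η ≤ 2 := by
      calc (2 : ℝ) ^ η ≤ 2 ^ (1 : ℝ) := Real.rpow_le_rpow_of_exponent_le (by norm_num) (by linarith)
        _ = 2 := Real.rpow_one 2
    have hy0 : 0 < |y| := by linarith
    have hyη : 0 < |y| ^ η := Real.rpow_pos_of_pos hy0 _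
    set Z := ‖riemannZeta ((1 + x : ℝ) + y * I)‖ with hZ
    have hZ0 : 0 ≤ Z := norm_nonneg _
    have h7 : 1 ≤ (K / x) ^ 3 * Z ^ 4 * (C * (2 * |y| ^ η)) := by
      refine h.trans ?_
      have h8 : ‖riemannZeta (1 + x)‖ ^ 3 ≤ (K / x) ^ 3 := by gcongr
      have h9 : ‖riemannZeta ((1 + x : ℝ) + (2 * y : ℝ) * I)‖ ≤ C * (2 * |y| ^ η) := by
        refine h4.trans ?_
        gcongr
      gcongr
    rw [Real.rpow_neg hy0.le]
    have h10 : (K / x) ^ 3 * Z ^ 4 * (C * (2 * |y| ^ η)) = Z ^ 4 / (c₁ * x ^ 3 * (|y| ^ η)⁻¹) := by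
      rw [hc₁]
      field_simp
    rw [h10, le_div_iff₀ (by positivity), one_mul] at h7
    exact h7
  have hC₂0 : 0 < C₂ := by linarith
  refine ⟨min (a ^ 3 * b / 2) (1 / C₂), lt_min (by positivity) (by positivity), ?_⟩
  intro σ y hσ hy
  have hy0 : 0 < |y| := by linarith
  set u : ℝ := |y| ^ (-η) with hu
  have hu0 : 0 < u := Real.rpow_pos_of_pos hy0 _
  have hu1 : u ≤ 1 := Real.rpow_le_one_of_one_le_of_nonpos hy (by linarith)
  have hu4 : |y| ^ (-ε) ≤ u ^ 4 := by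
    rw [hu, ← Real.rpow_natCast, ← Real.rpow_mul hy0.le]
    apply Real.rpow_le_rpow_of_exponent_le hy
    push_cast
    linarith
  have hε1 : |y| ^ (-ε) ≤ 1 := Real.rpow_le_one_of_one_le_of_nonpos hy (by linarith)
  have hε0 : 0 < |y| ^ (-ε) := Real.rpow_pos_of_pos hy0 _
  by_cases hσ2 : 2 ≤ σ
  · -- far to the right
    have h := three_four_one (x := σ - 1) (by linarith) y
    have e0 : (1 + (σ - 1 : ℝ) : ℂ) = (σ : ℂ) := by push_cast; ring
    have e1 : (1 + (σ - 1 : ℝ) + I * y : ℂ) = (σ + y * I) := by push_cast; ring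
    have e2 : (1 + (σ - 1 : ℝ) + 2 * I * y : ℂ) = (σ + (2 * y : ℝ) * I) := by push_cast; ring
    rw [e1, e2, e0] at h
    have h3 := h₂ (σ : ℂ) (by simpa using hσ2)
    have h4 := h₂ (σ + (2 * y : ℝ) * I) (by simpa using hσ2)
    set Z := ‖riemannZeta (σ + y * I)‖ with hZ
    have hZ0 : 0 ≤ Z := norm_nonneg _
    have h5 : 1 ≤ C₂ ^ 3 * Z ^ 4 * C₂ := by
      refine h.trans ?_
      gcongr
    have h6 : 1 ≤ (C₂ * Z) ^ 4 := by nlinarith
    have h7 : 1 ≤ C₂ * Z := by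
      by_contra hlt
      push Not at hlt
      have : (C₂ * Z) ^ 4 < 1 := pow_lt_one₀ (by positivity) hlt (by norm_num)
      linarith
    have h8 : 1 / C₂ ≤ Z := by
      rw [div_le_iff₀ hC₂0]
      linarith
    calc min (a ^ 3 * b / 2) (1 / C₂) * |y| ^ (-ε) ≤ 1 / C₂ * 1 := by
          gcongr
          exact min_le_right _ _
      _ ≤ Z := by rw [mul_one]; exact h8
  · push Not at hσ2
    set x₀ : ℝ := a ^ 4 * u ^ 5 with hx₀
    have hx₀0 : 0 < x₀ := by positivity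
    have hx₀1 : x₀ ≤ 1 := by
      have h1 : a ^ 4 ≤ 1 := pow_le_one₀ ha0.le ha1
      have h2 : u ^ 5 ≤ 1 := pow_le_one₀ hu0.le hu1
      exact mul_le_one₀ h1 (by positivity) h2
    -- lower bound to the right of `1 + x₀`
    have right : ∀ x : ℝ, x₀ ≤ x → x ≤ 1 → b * a ^ 3 * u ^ 4 ≤
        ‖riemannZeta ((1 + x : ℝ) + y * I)‖ := by
      intro x hx hx1
      have hx0 : 0 < x := by linarith
      have h := low x y hx0 hx1 hy
      have h1 : x₀ ^ 3 ≤ x ^ 3 := by gcongr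
      have h2 : (b * a ^ 3 * u ^ 4) ^ 4 ≤ ‖riemannZeta ((1 + x : ℝ) + y * I)‖ ^ 4 := by
        refine le_trans ?_ h
        rw [← hu]
        have h3 : c₁ * x₀ ^ 3 * u ≤ c₁ * x ^ 3 * u := by gcongr
        refine le_trans (le_of_eq ?_) h3
        rw [← hb4, hx₀]
        ring
      exact le_of_pow_le_pow_left₀ (by norm_num) (norm_nonneg _) h2
    have hmain : a ^ 3 * b / 2 * u ^ 4 ≤ ‖riemannZeta (σ + y * I)‖ := by
      by_cases hσx : 1 + x₀ ≤ σ
      · have h := right (σ - 1) (by linarith) (by linarith)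
        have e : (((1 + (σ - 1) : ℝ) : ℂ) + y * I) = (σ + y * I : ℂ) := by push_cast; ring
        rw [e] at h
        refine le_trans ?_ h
        have : 0 ≤ a ^ 3 * b * u ^ 4 := by positivity
        nlinarith
      · push Not at hσx
        have h := right x₀ le_rfl hx₀1
        have h1 := lip hD (σ := σ) (σ' := 1 + x₀) (y := y) hσ hσx.le (by linarith) hy
        have h2 : C * |y| ^ η * (1 + x₀ - σ) ≤ a ^ 3 * b / 2 * u ^ 4 := by
          have hyη : |y| ^ η = u⁻¹ := by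
            rw [hu, Real.rpow_neg hy0.le, inv_inv]
          rw [hyη]
          calc C * u⁻¹ * (1 + x₀ - σ) ≤ C * u⁻¹ * x₀ := by
                gcongr
                linarith
            _ = (C * a) * a ^ 3 * u ^ 4 := by
                rw [hx₀]
                field_simp
            _ = a ^ 3 * b / 2 * u ^ 4 := by rw [hCa]; ring
        have h3 : ‖riemannZeta ((1 + x₀ : ℝ) + y * I)‖ ≤
            ‖riemannZeta ((1 + x₀ : ℝ) + y * I) - riemannZeta (σ + y * I)‖ +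
              ‖riemannZeta (σ + y * I)‖ := by
          have := norm_add_le (riemannZeta ((1 + x₀ : ℝ) + y * I) - riemannZeta (σ + y * I))
            (riemannZeta (σ + y * I))
          simpa using this
        have h4 : b * a ^ 3 * u ^ 4 = 2 * (a ^ 3 * b / 2 * u ^ 4) := by ring
        linarith
    calc min (a ^ 3 * b / 2) (1 / C₂) * |y| ^ (-ε) ≤ a ^ 3 * b / 2 * u ^ 4 := by
          gcongr
          exact min_le_left _ _
      _ ≤ _ := hmain

end FMZ
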