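import Pool.Agent.FMZ.TZ

/-!
# FMZ-Z5: the main term is a polynomial
-/

open Complex MeasureTheory Set Filter Topology

namespace FMZ

namespace ZMAIN_

/-- holomorphic dependence on a parameter, from a locally uniform bound of the integrand -/
lemma holo_param {U : Set ℂ} (hU : IsOpen U) {F : ℝ → ℂ → ℂ} {S : Set ℝ} (hS : MeasurableSet S)
    (hF : ∀ u ∈ S, DifferentiableOn ℂ (F u) U)
    (hmeas : ∀ d ∈ U, AEStronglyMeasurable (fun u => F u d) (volume.restrict S))
    (hdom : ∀ d₀ ∈ U, ∃ ρ > 0, ∃ bound : ℝ → ℝ, IntegrableOn bound S ∧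
      Metric.ball d₀ ρ ⊆ U ∧ ∀ u ∈ S, ∀ d ∈ Metric.ball d₀ ρ, ‖F u d‖ ≤ bound u) :
    DifferentiableOn ℂ (fun d => ∫ u in S, F u d) U := by
  intro d₀ hd₀
  obtain ⟨ρ, hρ, bound, hbi, hsub, hb⟩ := hdom d₀ hd₀
  have hderiv : ∀ u ∈ S, ∀ d ∈ Metric.ball d₀ (ρ / 2), HasDerivAt (F u) (deriv (F u) d) d := by
    intro u hu d hd
    have hd' : d ∈ U := hsub (Metric.ball_subset_ball (by linarith) hd)
    exact ((hF u hu).differentiableAt (hU.mem_nhds hd')).hasDerivAt
  have hcau : ∀ u ∈ S, ∀ d ∈ Metric.ball d₀ (ρ / 2), ‖deriv (F u) d‖ ≤ bound u / (ρ / 4) := by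
    intro u hu d hd
    have hcb : Metric.closedBall d (ρ / 4) ⊆ Metric.ball d₀ ρ := by
      intro z hz
      rw [Metric.mem_closedBall] at hz
      rw [Metric.mem_ball] at hd ⊢
      calc dist z d₀ ≤ dist z d + dist d d₀ := dist_triangle _ _ _
        _ < ρ := by linarith
    refine Complex.norm_deriv_le_of_forall_mem_sphere_norm_le (by linarith) ?_ ?_
    · refine DifferentiableOn.diffContOnCl ?_
      rw [closure_ball _ (by linarith : ρ / 4 ≠ 0)]
      exact (hF u hu).mono (hcb.trans hsub)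
    · intro z hz
      exact hb u hu z (hcb (Metric.sphere_subset_closedBall hz))
  have hmd : AEStronglyMeasurable (fun u => deriv (F u) d₀) (volume.restrict S) := by
    have hev : ∀ᶠ n : ℕ in atTop, d₀ + ((n : ℂ) + 1)⁻¹ ∈ U := by
      have h1 : Tendsto (fun n : ℕ => d₀ + ((n : ℂ) + 1)⁻¹) atTop (𝓝 (d₀ + 0)) := by
        refine tendsto_const_nhds.add ?_
        have := tendsto_one_div_add_atTop_nhds_zero_nat (𝕜 := ℂ)
        simpa [one_div] using this
      rw [add_zero] at h1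
      exact h1.eventually (hU.mem_nhds hd₀)
    obtain ⟨N, hN⟩ := eventually_atTop.mp hev
    refine aestronglyMeasurable_of_tendsto_ae atTop
      (f := fun (n : ℕ) u => (((n + N : ℕ) : ℂ) + 1) *
        (F u (d₀ + (((n + N : ℕ) : ℂ) + 1)⁻¹) - F u d₀)) ?_ ?_
    · intro n
      exact ((hmeas _ (hN (n + N) (by omega))).sub (hmeas _ hd₀)).const_mul _
    · refine (ae_restrict_iff' hS).mpr (Eventually.of_forall fun u hu => ?_)
      have h1 := hderiv u hu d₀ (Metric.mem_ball_self (by linarith))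
      have h2 : Tendsto (fun n : ℕ => (((n + N : ℕ) : ℂ) + 1)⁻¹) atTop (𝓝[≠] 0) := by
        rw [tendsto_nhdsWithin_iff]
        constructor
        · have h3 := tendsto_one_div_add_atTop_nhds_zero_nat (𝕜 := ℂ)
          have h4 := h3.comp (tendsto_add_atTop_nat N)
          simpa [Function.comp_def, one_div] using h4
        · refine Eventually.of_forall fun n => ?_
          rw [Set.mem_compl_iff, Set.mem_singleton_iff, inv_eq_zero]
          exact_mod_cast Nat.succ_ne_zero (n + N)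
      have h3 := (hasDerivAt_iff_tendsto_slope_zero.mp h1).comp h2
      refine h3.congr fun n => ?_
      simp only [Function.comp_def, inv_inv, smul_eq_mul]
  have := (hasDerivAt_integral_of_dominated_loc_of_deriv_le (μ := volume.restrict S)
    (F := fun d u => F u d) (F' := fun d u => deriv (F u) d) (x₀ := d₀)
    (s := Metric.ball d₀ (ρ / 2)) (bound := fun u => bound u / (ρ / 4))
    (Metric.ball_mem_nhds d₀ (by linarith))
    (by
      filter_upwards [hU.mem_nhds hd₀] with d hd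
      exact hmeas d hd)
    (by
      refine Integrable.mono' hbi (hmeas d₀ hd₀) ?_
      exact (ae_restrict_iff' hS).mpr (Eventually.of_forall fun u hu =>
        hb u hu d₀ (Metric.mem_ball_self hρ)))
    hmd
    ((ae_restrict_iff' hS).mpr (Eventually.of_forall fun u hu d hd => hcau u hu d hd))
    (hbi.div_const _)
    ((ae_restrict_iff' hS).mpr (Eventually.of_forall fun u hu d hd => hderiv u hu d hd))).2
  exact this.differentiableAt.differentiableWithinAt

/-- powers of the logarithm -/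
lemma log_pow_le (k : ℕ) : ∃ C : ℝ, 0 ≤ C ∧ ∀ u : ℝ, 0 < u →
    |Real.log u| ^ k ≤ C * (u ^ (-(1 / 4) : ℝ) + u) := by
  rcases Nat.eq_zero_or_pos k with hk | hk
  · subst hk
    refine ⟨1, zero_le_one, fun u hu => ?_⟩
    rw [pow_zero, one_mul]
    rcases le_total 1 u with h | h
    · have := Real.rpow_nonneg hu.le (-(1 / 4) : ℝ)
      linarith
    · have := Real.one_le_rpow_of_pos_of_le_one_of_nonpos hu h (by norm_num : (-(1 / 4) : ℝ) ≤ 0)
      linarith
  · have hk' : (0 : ℝ) < k := by exact_mod_cast hk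
    have hk1 : (1 : ℝ) ≤ k := by exact_mod_cast hk
    refine ⟨(4 * k) ^ k, by positivity, fun u hu => ?_⟩
    rcases le_total 1 u with h | h
    · have h1 : |Real.log u| = Real.log u := abs_of_nonneg (Real.log_nonneg h)
      have h2 := Real.log_le_rpow_div hu.le (by positivity : (0 : ℝ) < 1 / k)
      have h3 : Real.log u ≤ k * u ^ (1 / k : ℝ) := by
        calc Real.log u ≤ u ^ (1 / k : ℝ) / (1 / k) := h2
          _ = k * u ^ (1 / k : ℝ) := by field_simp
      have h4 : (k * u ^ (1 / k : ℝ)) ^ k = k ^ k * u := by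
        rw [mul_pow, ← Real.rpow_natCast (u ^ (1 / k : ℝ)) k, ← Real.rpow_mul hu.le,
          one_div_mul_cancel hk'.ne', Real.rpow_one]
      rw [h1]
      calc Real.log u ^ k ≤ (k * u ^ (1 / k : ℝ)) ^ k :=
            pow_le_pow_left₀ (Real.log_nonneg h) h3 k
        _ = (k : ℝ) ^ k * u := h4
        _ ≤ (4 * k) ^ k * (u ^ (-(1 / 4) : ℝ) + u) := by
            have h5 : (k : ℝ) ^ k ≤ (4 * k) ^ k := pow_le_pow_left₀ hk'.le (by linarith) k
            have h6 := Real.rpow_nonneg hu.le (-(1 / 4) : ℝ)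
            exact mul_le_mul h5 (by linarith) hu.le (by positivity)
    · have hinv : 1 ≤ u⁻¹ := (one_le_inv₀ hu).mpr h
      have h1 : |Real.log u| = Real.log u⁻¹ := by
        rw [Real.log_inv, abs_of_nonpos (Real.log_nonpos hu.le h)]
      have h2 := Real.log_le_rpow_div (inv_pos.mpr hu).le (by positivity : (0 : ℝ) < 1 / (4 * k))
      have h3 : Real.log u⁻¹ ≤ 4 * k * (u⁻¹) ^ (1 / (4 * k) : ℝ) := by
        calc Real.log u⁻¹ ≤ (u⁻¹) ^ (1 / (4 * k) : ℝ) / (1 / (4 * k)) := h2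
          _ = 4 * k * (u⁻¹) ^ (1 / (4 * k) : ℝ) := by field_simp
      have h4 : (4 * k * (u⁻¹) ^ (1 / (4 * k) : ℝ)) ^ k = (4 * k) ^ k * u ^ (-(1 / 4) : ℝ) := by
        rw [mul_pow, ← Real.rpow_natCast ((u⁻¹) ^ (1 / (4 * k) : ℝ)) k,
          ← Real.rpow_mul (inv_pos.mpr hu).le,
          show (1 / (4 * k) * (k : ℝ) : ℝ) = 1 / 4 by field_simp, Real.inv_rpow hu.le,
          ← Real.rpow_neg hu.le]
      rw [h1]
      calc Real.log u⁻¹ ^ k ≤ (4 * k * (u⁻¹) ^ (1 / (4 * k) : ℝ)) ^ k :=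
            pow_le_pow_left₀ (Real.log_nonneg hinv) h3 k
        _ = (4 * k) ^ k * u ^ (-(1 / 4) : ℝ) := h4
        _ ≤ (4 * k) ^ k * (u ^ (-(1 / 4) : ℝ) + u) := by
            refine mul_le_mul_of_nonneg_left (by linarith) (by positivity)

lemma poly_log_le (P : Polynomial ℝ) : ∃ C : ℝ, 0 ≤ C ∧ ∀ u : ℝ, 0 < u →
    |P.eval (Real.log u)| ≤ C * (u ^ (-(1 / 4) : ℝ) + u) := by
  choose c hc0 hc using log_pow_le
  refine ⟨∑ i ∈ Finset.range (P.natDegree + 1), |P.coeff i| * c i,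
    Finset.sum_nonneg fun i _ => mul_nonneg (abs_nonneg _) (hc0 i), fun u hu => ?_⟩
  rw [Polynomial.eval_eq_sum_range, Finset.sum_mul]
  refine (Finset.abs_sum_le_sum_abs _ _).trans (Finset.sum_le_sum fun i _ => ?_)
  rw [abs_mul, abs_pow, mul_assoc]
  exact mul_le_mul_of_nonneg_left (hc i u hu) (abs_nonneg _)

lemma int_exp (c s : ℝ) (hc : 0 < c) (hs : -1 < s) :
    IntegrableOn (fun u : ℝ => u ^ s * Real.exp (-(c * u))) (Ioi 0) := by
  have := integrableOn_rpow_mul_exp_neg_mul_rpow (p := 1) (s := s) (b := c) hs one_pos hc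
  refine this.congr_fun (fun u _ => ?_) measurableSet_Ioi
  simp only
  rw [Real.rpow_one, neg_mul]

/-- the dominating function -/
lemma dom_int (B c : ℝ) (hc : 0 < c) :
    IntegrableOn (fun u : ℝ => B * (u ^ (-(1 / 4) : ℝ) + u) *
      (Real.exp (-(c * u)) * u ^ (-(1 / 8) : ℝ))) (Ioi 0) := by
  have h1 := int_exp c (-(3 / 8)) hc (by norm_num)
  have h2 := int_exp c (7 / 8) hc (by norm_num)
  have h3 : IntegrableOn (fun u : ℝ => B * (u ^ (-(3 / 8) : ℝ) * Real.exp (-(c * u)) +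
      u ^ (7 / 8 : ℝ) * Real.exp (-(c * u)))) (Ioi 0) := (h1.add h2).const_mul B
  refine h3.congr_fun (fun u hu => ?_) measurableSet_Ioi
  have hu' : (0 : ℝ) < u := hu
  simp only
  have h4 : u ^ (-(1 / 4) : ℝ) * u ^ (-(1 / 8) : ℝ) = u ^ (-(3 / 8) : ℝ) := by
    rw [← Real.rpow_add hu']; norm_num
  have h5 : u * u ^ (-(1 / 8) : ℝ) = u ^ (7 / 8 : ℝ) := by
    nth_rewrite 1 [← Real.rpow_one u]
    rw [← Real.rpow_add hu']; norm_num
  rw [← h4, ← h5]
  ring

lemma re_arg (u : ℝ) (d : ℂ) : (2 * u * Complex.exp (-d)).re =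
    2 * u * (Real.exp (-d.re) * Real.cos d.im) := by
  have h1 : (2 * (u : ℂ) * Complex.exp (-d)) = ((2 * u : ℝ) : ℂ) * Complex.exp (-d) := by
    push_cast; ring
  rw [h1, Complex.re_ofReal_mul, Complex.exp_re]
  simp

lemma norm_arg {u : ℝ} (hu : 0 < u) (d : ℂ) : ‖2 * (u : ℂ) * Complex.exp (-d)‖ =
    2 * u * Real.exp (-d.re) := by
  rw [norm_mul, norm_mul, Complex.norm_real, Real.norm_eq_abs, abs_of_pos hu, Complex.norm_exp]
  simp

lemma re_arg_pos {u : ℝ} (hu : 0 < u) {d : ℂ} (hd : d ∈ S0) :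
    0 < (2 * (u : ℂ) * Complex.exp (-d)).re := by
  rw [re_arg]
  have h1 : 0 < Real.cos d.im := Real.cos_pos_of_mem_Ioo (abs_lt.mp hd)
  positivity

lemma S0_open : IsOpen S0 := by
  have : Continuous (fun d : ℂ => |d.im|) := Complex.continuous_im.abs
  exact isOpen_lt this continuous_const

lemma S0_conv : Convex ℝ S0 := by
  have h1 : S0 = {d : ℂ | d.im < Real.pi / 2} ∩ {d : ℂ | -(Real.pi / 2) < d.im} := by
    ext d
    simp only [S0, Set.mem_ofPred_eq, mem_inter_iff, abs_lt]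
    tauto
  rw [h1]
  exact (convex_halfSpace_im_lt _).inter (convex_halfSpace_im_gt _)

lemma kf_diff (h : tK0) {u : ℝ} (hu : 0 < u) : DifferentiableOn ℂ (fun d => kf u d) S0 := by
  intro d hd
  have h1 : DifferentiableAt ℂ K0 (2 * (u : ℂ) * Complex.exp (-d)) :=
    (h.1 _ (re_arg_pos hu hd)).differentiableAt
  have h2 : DifferentiableAt ℂ (fun d : ℂ => 2 * (u : ℂ) * Complex.exp (-d)) d := by fun_prop
  have h3 : DifferentiableAt ℂ (fun d : ℂ => K0 (2 * (u : ℂ) * Complex.exp (-d))) d :=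
    DifferentiableAt.comp (g := K0) d h1 h2
  have h4 : DifferentiableAt ℂ (fun d : ℂ => 2 * (√2 : ℂ) * Complex.exp (-d / 2)) d := by
    fun_prop
  exact (h4.mul h3).differentiableWithinAt

lemma kf_cont (h : tK0) {d : ℂ} (hd : d ∈ S0) : ContinuousOn (fun u : ℝ => kf u d) (Ioi 0) := by
  intro u hu
  have h1 : ContinuousAt K0 (2 * (u : ℂ) * Complex.exp (-d)) :=
    (h.1 _ (re_arg_pos hu hd)).continuousAt
  have h2 : ContinuousAt (fun u : ℝ => 2 * (u : ℂ) * Complex.exp (-d)) u := by fun_prop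
  have h3 : ContinuousAt (fun u : ℝ => K0 (2 * (u : ℂ) * Complex.exp (-d))) u :=
    ContinuousAt.comp (f := fun u : ℝ => 2 * (u : ℂ) * Complex.exp (-d)) h1 h2
  exact (continuousAt_const.mul h3).continuousWithinAt

/-- locally uniform bound of the square of the kernel -/
lemma kf_bound (h : tK0) (b A : ℝ) (hb : b < Real.pi / 2) :
    ∃ B c : ℝ, 0 ≤ B ∧ 0 < c ∧ ∀ d : ℂ, |d.im| ≤ b → |d.re| ≤ A → ∀ u : ℝ, 0 < u →
      ‖kf u d ^ 2‖ ≤ B * (Real.exp (-(c * u)) * u ^ (-(1 / 8) : ℝ)) := by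
  obtain ⟨C, hC, hK⟩ := h.2.1
  by_cases hb0 : 0 ≤ b
  swap
  · exact ⟨0, 1, le_refl _, one_pos, fun d hd => absurd ((abs_nonneg _).trans hd) hb0⟩
  have hcos : 0 < Real.cos b := Real.cos_pos_of_mem_Ioo ⟨by linarith [Real.pi_pos], hb⟩
  refine ⟨8 * Real.exp A * (C ^ 2 * (2 * Real.exp (-A)) ^ (-(1 / 8) : ℝ)),
    4 * Real.exp (-A) * Real.cos b, by positivity, by positivity, ?_⟩
  intro d hd hA u hu
  have hdS : d ∈ S0 := lt_of_le_of_lt hd hb
  obtain ⟨-, hk, -⟩ := hK _ (re_arg_pos hu hdS)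
  rw [norm_arg hu, re_arg] at hk
  have hre1 : Real.exp (-A) ≤ Real.exp (-d.re) :=
    Real.exp_le_exp.mpr (by linarith [(abs_le.mp hA).2])
  have hre2 : Real.exp (-d.re) ≤ Real.exp A :=
    Real.exp_le_exp.mpr (by linarith [(abs_le.mp hA).1])
  have hcosle : Real.cos b ≤ Real.cos d.im := by
    rw [← Real.cos_abs d.im]
    exact Real.cos_le_cos_of_nonneg_of_le_pi (abs_nonneg _) (by linarith) hd
  -- squares
  have h1 : ‖kf u d ^ 2‖ = 8 * Real.exp (-d.re) * ‖K0 (2 * (u : ℂ) * Complex.exp (-d))‖ ^ 2 := by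
    unfold kf
    rw [norm_pow, norm_mul, norm_mul, norm_mul, Complex.norm_real, Complex.norm_exp,
      Real.norm_eq_abs, abs_of_nonneg (Real.sqrt_nonneg 2), mul_pow, mul_pow, mul_pow,
      Real.sq_sqrt (by norm_num : (0 : ℝ) ≤ 2), ← Real.exp_nat_mul]
    have h2 : ((2 : ℕ) : ℝ) * (-d / 2).re = -d.re := by
      simp
      ring
    rw [h2]
    norm_num
  have h3 : ‖K0 (2 * (u : ℂ) * Complex.exp (-d))‖ ^ 2 ≤
      C ^ 2 * (Real.exp (-(4 * Real.exp (-A) * Real.cos b * u)) *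
        ((2 * Real.exp (-A)) ^ (-(1 / 8) : ℝ) * u ^ (-(1 / 8) : ℝ))) := by
    have h4 : ‖K0 (2 * (u : ℂ) * Complex.exp (-d))‖ ^ 2 ≤
        (C * Real.exp (-(2 * u * (Real.exp (-d.re) * Real.cos d.im))) *
          (2 * u * Real.exp (-d.re)) ^ (-(1 / 16) : ℝ)) ^ 2 :=
      pow_le_pow_left₀ (norm_nonneg _) hk 2
    refine h4.trans ?_
    have h5 : ((2 * u * Real.exp (-d.re)) ^ (-(1 / 16) : ℝ)) ^ 2 =
        (2 * u * Real.exp (-d.re)) ^ (-(1 / 8) : ℝ) := by
      rw [← Real.rpow_natCast, ← Real.rpow_mul (by positivity)]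
      norm_num
    have h6 : (Real.exp (-(2 * u * (Real.exp (-d.re) * Real.cos d.im)))) ^ 2 =
        Real.exp (-(4 * u * (Real.exp (-d.re) * Real.cos d.im))) := by
      rw [← Real.exp_nat_mul]
      congr 1
      push_cast
      ring
    rw [mul_pow, mul_pow, h5, h6, mul_assoc]
    refine mul_le_mul_of_nonneg_left ?_ (by positivity)
    refine mul_le_mul ?_ ?_ (by positivity) (by positivity)
    · refine Real.exp_le_exp.mpr (neg_le_neg ?_)
      calc 4 * Real.exp (-A) * Real.cos b * u = 4 * u * (Real.exp (-A) * Real.cos b) := by ring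
        _ ≤ 4 * u * (Real.exp (-d.re) * Real.cos d.im) := by
            refine mul_le_mul_of_nonneg_left ?_ (by positivity)
            exact mul_le_mul hre1 hcosle hcos.le (by positivity)
    · rw [← Real.mul_rpow (by positivity) hu.le]
      refine Real.rpow_le_rpow_of_nonpos (by positivity) ?_ (by norm_num)
      calc 2 * Real.exp (-A) * u = 2 * u * Real.exp (-A) := by ring
        _ ≤ 2 * u * Real.exp (-d.re) := by gcongr
  rw [h1]
  calc 8 * Real.exp (-d.re) * ‖K0 (2 * (u : ℂ) * Complex.exp (-d))‖ ^ 2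
      ≤ 8 * Real.exp A * (C ^ 2 * (Real.exp (-(4 * Real.exp (-A) * Real.cos b * u)) *
        ((2 * Real.exp (-A)) ^ (-(1 / 8) : ℝ) * u ^ (-(1 / 8) : ℝ)))) := by
        refine mul_le_mul ?_ h3 (by positivity) (by positivity)
        linarith
    _ = _ := by ring

/-- integrability and bound of the full integrand -/
lemma full_bound (h : tK0) (R : Polynomial ℝ) (b A : ℝ) (hb : b < Real.pi / 2) :
    ∃ bound : ℝ → ℝ, IntegrableOn bound (Ioi 0) ∧ ∀ d : ℂ, |d.im| ≤ b → |d.re| ≤ A →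
      ∀ u : ℝ, 0 < u → ‖((R.eval (Real.log u) : ℝ) : ℂ) * kf u d ^ 2‖ ≤ bound u := by
  obtain ⟨B, c, hB, hc, hk⟩ := kf_bound h b A hb
  obtain ⟨C, hC, hR⟩ := poly_log_le R
  refine ⟨_, dom_int (C * B) c hc, fun d hd hA u hu => ?_⟩
  rw [norm_mul, Complex.norm_real, Real.norm_eq_abs]
  calc |Polynomial.eval (Real.log u) R| * ‖kf u d ^ 2‖
      ≤ (C * (u ^ (-(1 / 4) : ℝ) + u)) * (B * (Real.exp (-(c * u)) * u ^ (-(1 / 8) : ℝ))) :=
        mul_le_mul (hR u hu) (hk d hd hA u hu) (norm_nonneg _) (by positivity)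
    _ = _ := by ring

lemma meas_log (R : Polynomial ℝ) : Measurable (fun u : ℝ => ((R.eval (Real.log u) : ℝ) : ℂ)) :=
  Complex.measurable_ofReal.comp (R.continuous.measurable.comp Real.measurable_log)

lemma full_meas (h : tK0) (R : Polynomial ℝ) {d : ℂ} (hd : d ∈ S0) :
    AEStronglyMeasurable (fun u : ℝ => ((R.eval (Real.log u) : ℝ) : ℂ) * kf u d ^ 2)
      (volume.restrict (Ioi 0)) :=
  ((meas_log R).aestronglyMeasurable).mul
    (((kf_cont h hd).pow 2).aestronglyMeasurable measurableSet_Ioi)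

lemma full_int (h : tK0) (R : Polynomial ℝ) {d : ℂ} (hd : d ∈ S0) :
    IntegrableOn (fun u : ℝ => ((R.eval (Real.log u) : ℝ) : ℂ) * kf u d ^ 2) (Ioi 0) := by
  obtain ⟨bound, hbi, hb⟩ := full_bound h R |d.im| |d.re| hd
  refine Integrable.mono' hbi (full_meas h R hd) ?_
  exact (ae_restrict_iff' measurableSet_Ioi).mpr (Eventually.of_forall fun u hu =>
    hb d (le_refl _) (le_refl _) u hu)

lemma full_diff (h : tK0) (R : Polynomial ℝ) :
    DifferentiableOn ℂ (fun d => ∫ u in Ioi (0 : ℝ),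
      ((R.eval (Real.log u) : ℝ) : ℂ) * kf u d ^ 2) S0 := by
  refine holo_param S0_open (F := fun u d => ((R.eval (Real.log u) : ℝ) : ℂ) * kf u d ^ 2)
    measurableSet_Ioi (fun u hu => ((kf_diff h hu).pow 2).const_mul _)
    (fun d hd => full_meas h R hd) (fun d₀ hd₀ => ?_)
  have hd₀' : |d₀.im| < Real.pi / 2 := hd₀
  set ρ := (Real.pi / 2 - |d₀.im|) / 2 with hρ
  have hρ0 : 0 < ρ := by rw [hρ]; linarith
  obtain ⟨bound, hbi, hb⟩ := full_bound h R (|d₀.im| + ρ) (|d₀.re| + ρ) (by rw [hρ]; linarith)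
  have him : ∀ d ∈ Metric.ball d₀ ρ, |d.im| ≤ |d₀.im| + ρ := by
    intro d hd
    have h1 : |(d - d₀).im| ≤ ‖d - d₀‖ := Complex.abs_im_le_norm _
    have h2 : ‖d - d₀‖ < ρ := by rwa [Metric.mem_ball, dist_eq_norm] at hd
    have h3 : |d.im| ≤ |(d - d₀).im| + |d₀.im| := by
      calc |d.im| = |(d - d₀).im + d₀.im| := by rw [Complex.sub_im]; ring_nf
        _ ≤ _ := abs_add_le _ _
    linarith
  have hre : ∀ d ∈ Metric.ball d₀ ρ, |d.re| ≤ |d₀.re| + ρ := by
    intro d hd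
    have h1 : |(d - d₀).re| ≤ ‖d - d₀‖ := Complex.abs_re_le_norm _
    have h2 : ‖d - d₀‖ < ρ := by rwa [Metric.mem_ball, dist_eq_norm] at hd
    have h3 : |d.re| ≤ |(d - d₀).re| + |d₀.re| := by
      calc |d.re| = |(d - d₀).re + d₀.re| := by rw [Complex.sub_re]; ring_nf
        _ ≤ _ := abs_add_le _ _
    linarith
  refine ⟨ρ, hρ0, bound, hbi, fun d hd => ?_, fun u hu d hd => hb d (him d hd) (hre d hd) u hu⟩
  refine lt_of_le_of_lt (him d hd) ?_
  rw [hρ]
  linarith

/-- the Bessel integral with a polynomial in the logarithm -/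
lemma bessel_int (h : tK0) (P : Polynomial ℝ) :
    IntegrableOn (fun x : ℝ => ((P.eval (Real.log x - Real.log 2) : ℝ) : ℂ) * K0 x ^ 2)
      (Ioi 0) := by
  have h1 := full_int h (P.comp (Polynomial.X - Polynomial.C (Real.log 2)))
    (d := ((Real.log 2 : ℝ) : ℂ)) (by
      show |((Real.log 2 : ℝ) : ℂ).im| < Real.pi / 2
      rw [Complex.ofReal_im, abs_zero]
      positivity)
  refine IntegrableOn.congr_fun (h1.const_mul (1 / 4 : ℂ)) (fun u hu => ?_) measurableSet_Ioi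
  simp only [Polynomial.eval_comp, Polynomial.eval_sub, Polynomial.eval_X, Polynomial.eval_C]
  have h3 : kf u ((Real.log 2 : ℝ) : ℂ) ^ 2 = 4 * K0 u ^ 2 := by
    unfold kf
    have h4 : Complex.exp (-((Real.log 2 : ℝ) : ℂ)) = 1 / 2 := by
      rw [← Complex.ofReal_neg, ← Complex.ofReal_exp, Real.exp_neg, Real.exp_log two_pos]
      norm_num
    have h5 : Complex.exp (-((Real.log 2 : ℝ) : ℂ) / 2) ^ 2 = 1 / 2 := by
      rw [← Complex.exp_nat_mul, ← h4]
      congr 1
      push_cast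
      ring
    have h6 : ((√2 : ℝ) : ℂ) ^ 2 = 2 := by
      rw [← Complex.ofReal_pow, Real.sq_sqrt (by norm_num : (0 : ℝ) ≤ 2)]
      norm_num
    rw [mul_pow, mul_pow, mul_pow, h5, h6, h4, show 2 * (u : ℂ) * (1 / 2) = u by ring]
    ring
  rw [h3]
  ring

/-- the value on the real line -/
lemma real_value (h : tK0) (R : Polynomial ℝ) (d : ℝ) :
    ∫ u in Ioi (0 : ℝ), ((R.eval (Real.log u) : ℝ) : ℂ) * kf u (d : ℂ) ^ 2 =
      ∑ k ∈ Finset.range (R.natDegree + 1), (d : ℂ) ^ k * (4 * ∫ x in Ioi (0 : ℝ),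
        (((Polynomial.hasseDeriv k R).eval (Real.log x - Real.log 2) : ℝ) : ℂ) * K0 x ^ 2) := by
  have hc : (0 : ℝ) < 2 * Real.exp (-d) := by positivity
  set g : ℝ → ℂ := fun x : ℝ => ((R.eval (Real.log x - Real.log 2 + d) : ℝ) : ℂ) *
        (8 * ((Real.exp (-d) : ℝ) : ℂ) * K0 x ^ 2) with hg
  have h1 : ∫ u in Ioi (0 : ℝ), ((R.eval (Real.log u) : ℝ) : ℂ) * kf u (d : ℂ) ^ 2 =
      ∫ u in Ioi (0 : ℝ), g (2 * Real.exp (-d) * u) := by
    refine setIntegral_congr_fun measurableSet_Ioi fun u hu => ?_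
    have hu' : (0 : ℝ) < u := hu
    simp only [hg]
    have h2 : Real.log (2 * Real.exp (-d) * u) - Real.log 2 + d = Real.log u := by
      rw [Real.log_mul hc.ne' hu'.ne', Real.log_mul two_ne_zero (Real.exp_pos _).ne', Real.log_exp]
      ring
    rw [h2]
    congr 1
    unfold kf
    have h5 : Complex.exp (-(d : ℂ) / 2) ^ 2 = ((Real.exp (-d) : ℝ) : ℂ) := by
      rw [← Complex.exp_nat_mul, Complex.ofReal_exp]
      congr 1
      push_cast
      ring
    have h6 : ((√2 : ℝ) : ℂ) ^ 2 = 2 := by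
      rw [← Complex.ofReal_pow, Real.sq_sqrt (by norm_num : (0 : ℝ) ≤ 2)]
      norm_num
    have h7 : 2 * (u : ℂ) * Complex.exp (-(d : ℂ)) = ((2 * Real.exp (-d) * u : ℝ) : ℂ) := by
      push_cast
      ring
    rw [mul_pow, mul_pow, mul_pow, h5, h6, h7]
    ring
  rw [h1, integral_comp_mul_left_Ioi g _ hc, mul_zero]
  have h8 : ∀ x : ℝ, g x =
      ∑ k ∈ Finset.range (R.natDegree + 1), (8 * ((Real.exp (-d) : ℝ) : ℂ) * (d : ℂ) ^ k) *
        ((((Polynomial.hasseDeriv k R).eval (Real.log x - Real.log 2) : ℝ) : ℂ) * K0 x ^ 2) := by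
    intro x
    have h9 : R.eval (Real.log x - Real.log 2 + d) = ∑ k ∈ Finset.range (R.natDegree + 1),
        (Polynomial.hasseDeriv k R).eval (Real.log x - Real.log 2) * d ^ k := by
      rw [add_comm, ← Polynomial.taylor_eval, Polynomial.eval_eq_sum_range,
        Polynomial.natDegree_taylor]
      refine Finset.sum_congr rfl fun k _ => ?_
      rw [Polynomial.taylor_coeff]
    simp only [hg]
    rw [h9]
    push_cast
    rw [Finset.sum_mul]
    refine Finset.sum_congr rfl fun k _ => ?_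
    ring
  simp_rw [h8]
  rw [integral_finsetSum _ (fun k _ => (bessel_int h _).const_mul _), Finset.smul_sum]
  refine Finset.sum_congr rfl fun k _ => ?_
  rw [integral_const_mul, Complex.real_smul]
  have h10 : ((Real.exp (-d) : ℝ) : ℂ) ≠ 0 := by
    rw [Complex.ofReal_ne_zero]
    exact (Real.exp_pos _).ne'
  push_cast at h10 ⊢
  field_simp
  ring

end ZMAIN_

open ZMAIN_ in
theorem pMAIN (h : tK0) : tMAIN := by
  intro R
  set cc : ℕ → ℂ := fun k => ((1 / Real.pi : ℝ) : ℂ) * (4 * ∫ x in Ioi (0 : ℝ),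
        (((Polynomial.hasseDeriv k R).eval (Real.log x - Real.log 2) : ℝ) : ℂ) * K0 x ^ 2)
    with hcc
  refine ⟨∑ k ∈ Finset.range (R.natDegree + 1), Polynomial.C (cc k) * Polynomial.X ^ k,
    fun d hd => ⟨full_int h R hd, ?_⟩⟩
  have hEq : EqOn (fun d => ((1 / Real.pi : ℝ) : ℂ) * ∫ u in Ioi (0 : ℝ),
      ((R.eval (Real.log u) : ℝ) : ℂ) * kf u d ^ 2)
      (fun d => (∑ k ∈ Finset.range (R.natDegree + 1),
        Polynomial.C (cc k) * Polynomial.X ^ k).eval d) S0 := by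
    refine AnalyticOnNhd.eqOn_of_preconnected_of_frequently_eq (z₀ := 0)
      (((full_diff h R).const_mul _).analyticOnNhd S0_open)
      ((Polynomial.differentiable _).differentiableOn.analyticOnNhd S0_open)
      S0_conv.isPreconnected ?_ ?_
    · show |(0 : ℂ).im| < Real.pi / 2
      rw [Complex.zero_im, abs_zero]
      positivity
    · have h1 : Tendsto (fun n : ℕ => (((1 : ℝ) / ((n : ℝ) + 1) : ℝ) : ℂ)) atTop (𝓝[≠] 0) := by
        rw [tendsto_nhdsWithin_iff]
        constructor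
        · rw [show (0 : ℂ) = ((0 : ℝ) : ℂ) by simp]
          exact (Complex.continuous_ofReal.tendsto _).comp
            (tendsto_one_div_add_atTop_nhds_zero_nat (𝕜 := ℝ))
        · refine Eventually.of_forall fun n => ?_
          rw [Set.mem_compl_iff, Set.mem_singleton_iff, Complex.ofReal_eq_zero]
          positivity
      refine h1.frequently (Frequently.of_forall fun n => ?_)
      rw [real_value h R, Polynomial.eval_finsetSum, Finset.mul_sum]
      refine Finset.sum_congr rfl fun k _ => ?_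
      rw [Polynomial.eval_mul, Polynomial.eval_C, Polynomial.eval_pow, Polynomial.eval_X]
      simp only [hcc]
      ring
  exact hEq hd

end FMZ
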