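import Pool.Agent.FMZ.SALL
import Pool.Agent.FMZ.SPOI
import Pool.Agent.FMZ.SCELL
import Pool.Agent.FMZ.CONE
import Pool.Agent.FMZ.DDL
import Pool.Agent.FMZ.DEC
import Pool.Agent.FMZ.EAB
import Pool.Agent.FMZ.EASH
import Pool.Agent.FMZ.ECS
import Pool.Agent.FMZ.ECT
import Pool.Agent.FMZ.EFC
import Pool.Agent.FMZ.EINV
import Pool.Agent.FMZ.EISEN
import Pool.Agent.FMZ.EJ0
import Pool.Agent.FMZ.EKB
import Pool.Agent.FMZ.EKBM
import Pool.Agent.FMZ.ELAT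
import Pool.Agent.FMZ.EMSQ
import Pool.Agent.FMZ.EN
import Pool.Agent.FMZ.EPLAN
import Pool.Agent.FMZ.ERAM
import Pool.Agent.FMZ.ERAY
import Pool.Agent.FMZ.ERD
import Pool.Agent.FMZ.ESTAR
import Pool.Agent.FMZ.ESTAR1
import Pool.Agent.FMZ.EX
import Pool.Agent.FMZ.FIN
import Pool.Agent.FMZ.GEN
import Pool.Agent.FMZ.HB
import Pool.Agent.FMZ.HINT
import Pool.Agent.FMZ.INT
import Pool.Agent.FMZ.JAN
import Pool.Agent.FMZ.JBD
import Pool.Agent.FMZ.LAP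
import Pool.Agent.FMZ.Lim
import Pool.Agent.FMZ.TRSP
import Pool.Agent.FMZ.WAN
import Pool.Agent.FMZ.WAVE
import Pool.Agent.FMZ.WDIR
import Pool.Agent.FMZ.WDISP
import Pool.Agent.FMZ.WGEO
import Pool.Agent.FMZ.WK1
import Pool.Agent.FMZ.WK2
import Pool.Agent.FMZ.WLE
import Pool.Agent.FMZ.WPROD
import Pool.Agent.FMZ.WVIT
import Pool.Agent.FMZ.ZANA
import Pool.Agent.FMZ.ZERR
import Pool.Agent.FMZ.ZEST
import Pool.Agent.FMZ.ZIM
import Pool.Agent.FMZ.ZINF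
import Pool.Agent.FMZ.ZJIM
import Pool.Agent.FMZ.ZJK
import Pool.Agent.FMZ.ZJU
import Pool.Agent.FMZ.ZK0
import Pool.Agent.FMZ.ZKFT
import Pool.Agent.FMZ.ZLB
import Pool.Agent.FMZ.ZLOW
import Pool.Agent.FMZ.ZMAIN

/-!
# FMZ: the goal
-/

namespace FMZ

theorem goal : GOAL := by
  have hCONE : tCONE := pCONE
  have hPHB : tPHB := pPHB
  have hDDL : tDDL := pDDL
  have hJAN : tJAN := pJAN hCONE hPHB
  have hANAJ : ANAJ := pANAJ hJAN
  have hBNDJ : BNDJ := pBNDJ hCONE hPHB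
  have hJBD : tJBD := pJBD hCONE hPHB
  have hZLB : tZLB := pZLB
  have hZLOW : tZLOW := pZLOW
  have hHB : tHB := pHB
  have hHINT : HINT := pHINT hHB hZLB hZLOW
  have hGEN : tGEN := pGEN hANAJ hBNDJ hDDL hCONE hPHB
  have hANAP : ANAP := pANAP hGEN hHINT
  have hJU : tJU := pJU hCONE hPHB
  have hK0 : tK0 := pK0
  have hERR : tERR := pERR hCONE hPHB hJU hK0 (pKFT hK0)
  have hZINF : ZINF := pZINF hJU hK0 hERR (pMAIN hK0) (pEST hK0) (pJKINF hCONE hPHB) hZLB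
  have hZIM : ZIM := pZIM hJU pJKIM hZLB
  have hPIM : PIM := pPIM pLAP hHB hZLB hZLOW pJIM hHINT
  have hJKAN : tJKAN := pJKAN hCONE hPHB
  have hANAB : ANAB := pANAB hJAN hJU hZLB hJKAN
  have hLE : tLE := pLE
  have hGEO : tGEO := pGEO
  have hPROD : tPROD := pPROD hLE hGEO
  have hK1 : tK1 := pK1 hLE hGEO
  have hK2 : tK2 := pK2 hLE hGEO
  have hQK : tQK := pQK hANAJ
  have hWAVE : WAVE := pWAVE hANAJ hBNDJ hK1 hK2 (pWAN hLE hGEO) (pWT hLE hGEO) pDIR pVIT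
    (pDISP hGEN hQK hPROD hBNDJ hK2) hQK hPROD hGEN
  have hX : tX := pX
  have hABQ : tABQ := pABQ hX hZLOW
  have hCS : tCS := pCS
  have hMSQ : tMSQ := pMSQ hX
  have hKB : tKB := pKB
  have hN : tN := pN hKB
  have hLAT : tLAT := pLAT hKB hN
  have hINV : tINV := pINV hX hN hLAT
  have hSTAR1 : tSTAR1 := pSTAR1 hX hN hLAT hJAN hCONE hPHB
  have hSTAR : tSTAR := pSTAR hX hN hJAN hSTAR1
  have hSTARH : tSTARH := pSTARH hX hN hJAN hSTAR1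
  have hPLAN : tPLAN := pPLAN hN hSTARH hJU
  have hJ0R : tJ0R := pJ0R hN hSTARH hJKAN
  have hASH : tASH := pASH hX hKB (pKBM hKB) hN pRAM hABQ
  have hCT : tCT := pCT hX hABQ hCS hMSQ hASH
  have hFC : tFC := pFC hX hABQ hN hINV hASH hCT
  have hRAY : tRAY := pRAY hX hABQ hCS hMSQ hASH hN hSTAR hPLAN hJ0R hHINT hBNDJ hJBD
  have hRD : tRD := pRD hX hJAN hJBD hDDL
  have hEISEN : EISEN := pEISEN hX hRD hFC hRAY
  have hV : sVOL := pVOL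
  have hCO : sCO := pCO
  have hCM : sCM := pCM
  have hVS : sVSUB := pVSUB hCM hV
  have hT : sTBC := pTBC
  have hZC : sZC := pZC pHI hCO pETA hV pCE hT
  have hPOI : sPOI := pPOI hVS hZC hCO hV hCM
  have hCELL : sCELL := pCELL hVS hCO hV hCM
  have hSPEC : SPEC := specHolds
  exact pFIN hSPEC hEISEN hZINF hZIM hPIM hANAB hANAJ hHINT hANAP hWAVE (pDEC hDDL) (pINT hDDL)
    (pTRSP hDDL) hDDL

end FMZ
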