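import Pool.Agent.FMZ.TJ

/-!
# FMZ-LAP: the crude Laplace bound of the fourth moment
-/

open Complex MeasureTheory Set Filter Topology

namespace FMZ

namespace LAP_

lemma continuous_zh : Continuous zh := by
  have h : ∀ u : ℝ, (1 / 2 + (u : ℂ) * I) ≠ 1 := by
    intro u hu
    have := congrArg Complex.re hu
    simp at this
  rw [continuous_iff_continuousAt]
  intro u
  have h1 : ContinuousAt (fun u : ℝ => (1 / 2 + (u : ℂ) * I)) u := by fun_prop
  exact ContinuousAt.comp (f := fun u : ℝ => (1 / 2 + (u : ℂ) * I)) (g := riemannZeta)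
    (differentiableAt_riemannZeta (h u)).continuousAt h1

lemma M4_bound (P : Polynomial ℝ) (C : ℝ) (hP : Hyp P C) (ε : ℝ) (hε : 0 < ε) :
    ∃ K : ℝ, 0 ≤ K ∧ ∀ T, 1 ≤ T → M4 T ≤ K * T ^ (1 + ε) := by
  set δ : ℝ := ε / (P.natDegree + 1) with hδ
  have hδ0 : 0 < δ := by positivity
  refine ⟨∑ i ∈ Finset.range (P.natDegree + 1), |P.coeff i| / δ ^ i + |C|, by positivity, ?_⟩
  intro T hT
  have hT0 : 0 < T := by linarith
  have h1 := (abs_le.1 (hP T hT)).2
  have hlog : 0 ≤ Real.log T := Real.log_nonneg hT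
  have h2 : P.eval (Real.log T) ≤
      (∑ i ∈ Finset.range (P.natDegree + 1), |P.coeff i| / δ ^ i) * T ^ ε := by
    rw [Polynomial.eval_eq_sum_range, Finset.sum_mul]
    apply Finset.sum_le_sum
    intro i hi
    have hi' : i ≤ P.natDegree := Nat.lt_succ_iff.1 (Finset.mem_range.1 hi)
    have h3 : Real.log T ≤ T ^ δ / δ := Real.log_le_rpow_div hT0.le hδ0
    have h4 : Real.log T ^ i ≤ (T ^ δ / δ) ^ i := pow_le_pow_left₀ hlog h3 i
    have h5 : (T ^ δ / δ) ^ i = T ^ (δ * i) / δ ^ i := by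
      rw [div_pow, ← Real.rpow_natCast (T ^ δ), ← Real.rpow_mul hT0.le]
    have h6 : T ^ (δ * i) ≤ T ^ ε := by
      apply Real.rpow_le_rpow_of_exponent_le hT
      rw [hδ, div_mul_eq_mul_div, div_le_iff₀ (by positivity)]
      apply mul_le_mul_of_nonneg_left _ hε.le
      have : (i : ℝ) ≤ P.natDegree := by exact_mod_cast hi'
      linarith
    calc P.coeff i * Real.log T ^ i ≤ |P.coeff i| * Real.log T ^ i :=
          mul_le_mul_of_nonneg_right (le_abs_self _) (by positivity)
      _ ≤ |P.coeff i| * (T ^ ε / δ ^ i) := by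
          apply mul_le_mul_of_nonneg_left _ (abs_nonneg _)
          rw [h5] at h4
          exact h4.trans (div_le_div_of_nonneg_right h6 (by positivity))
      _ = |P.coeff i| / δ ^ i * T ^ ε := by ring
  have h7 : T ^ (1 + ε) = T * T ^ ε := by
    rw [Real.rpow_add hT0, Real.rpow_one]
  have h8 : C * √T ≤ |C| * T ^ (1 + ε) := by
    have h9 : √T ≤ T := by
      rw [Real.sqrt_le_left hT0.le]
      nlinarith
    have h10 : T ≤ T ^ (1 + ε) := by
      have := Real.rpow_le_rpow_of_exponent_le hT (show (1 : ℝ) ≤ 1 + ε by linarith)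
      rwa [Real.rpow_one] at this
    calc C * √T ≤ |C| * √T := mul_le_mul_of_nonneg_right (le_abs_self _) (Real.sqrt_nonneg _)
      _ ≤ |C| * T ^ (1 + ε) := mul_le_mul_of_nonneg_left (h9.trans h10) (abs_nonneg _)
  have h11 := mul_le_mul_of_nonneg_left h2 hT0.le
  have h12 : T * ((∑ i ∈ Finset.range (P.natDegree + 1), |P.coeff i| / δ ^ i) * T ^ ε) =
      (∑ i ∈ Finset.range (P.natDegree + 1), |P.coeff i| / δ ^ i) * T ^ (1 + ε) := by
    rw [h7]
    ring
  rw [h12] at h11
  rw [add_mul]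
  linarith

lemma gam {q r : ℝ} (hq : -1 < q) (hr : 0 < r) :
    IntegrableOn (fun x : ℝ => x ^ q * Real.exp (-(r * x))) (Ioi 0) ∧
      ∫ x in Ioi (0 : ℝ), x ^ q * Real.exp (-(r * x)) = (1 / r) ^ (q + 1) * Real.Gamma (q + 1) := by
  have h1 := Real.integral_rpow_mul_exp_neg_mul_Ioi (a := q + 1) (r := r) (by linarith) hr
  simp only [add_sub_cancel_right] at h1
  refine ⟨?_, h1⟩
  apply Integrable.of_integral_ne_zero
  rw [h1]
  have := Real.Gamma_pos_of_pos (show 0 < q + 1 by linarith)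
  positivity

/-- the weight and its derivative -/
lemma weight_deriv {a s t : ℝ} (ht : 0 < t) :
    HasDerivAt (fun t : ℝ => t ^ a * Real.exp (-(s * t)))
      ((a * t ^ (a - 1) - s * t ^ a) * Real.exp (-(s * t))) t := by
  have h1 := Real.hasDerivAt_rpow_const (p := a) (Or.inl ht.ne')
  have h2 : HasDerivAt (fun t : ℝ => Real.exp (-(s * t))) (Real.exp (-(s * t)) * (-(s * 1))) t :=
    ((hasDerivAt_id t).const_mul s).neg.exp
  have h3 := h1.mul h2
  refine h3.congr_deriv ?_
  ring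

lemma weight_int {a s : ℝ} (ha : -1 < a) (hs : 0 < s) :
    IntegrableOn (fun u : ℝ => (s * u ^ a + |a| * u ^ (a - 1)) * Real.exp (-(s * u))) (Ioi 1) := by
  have h1 := (gam ha hs).1.mono_set (Ioi_subset_Ioi zero_le_one)
  have h2 : IntegrableOn (fun u : ℝ => u ^ (a - 1) * Real.exp (-(s * u))) (Ioi 1) := by
    refine Integrable.mono' h1 ?_ ?_
    · apply ContinuousOn.aestronglyMeasurable _ measurableSet_Ioi
      apply ContinuousOn.mul
      · intro u hu
        apply ContinuousAt.continuousWithinAt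
        have : u ≠ 0 := by
          have : (1 : ℝ) < u := hu
          linarith
        exact Real.continuousAt_rpow_const u (a - 1) (Or.inl this)
      · fun_prop
    · rw [ae_restrict_iff' measurableSet_Ioi]
      refine Eventually.of_forall fun u hu => ?_
      have hu1 : (1 : ℝ) < u := hu
      have hu0 : 0 < u := by linarith
      rw [Real.norm_eq_abs, abs_of_nonneg (by positivity)]
      apply mul_le_mul_of_nonneg_right _ (Real.exp_pos _).le
      exact Real.rpow_le_rpow_of_exponent_le hu1.le (by linarith)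
  have h3 : IntegrableOn (fun u : ℝ => s * (u ^ a * Real.exp (-(s * u))) +
      |a| * (u ^ (a - 1) * Real.exp (-(s * u)))) (Ioi 1) :=
    Integrable.add (Integrable.const_mul h1 s) (Integrable.const_mul h2 |a|)
  refine h3.congr_fun (fun u _ => ?_) measurableSet_Ioi
  simp only
  ring

lemma weight_le {a s t : ℝ} (ha : -1 < a) (hs : 0 < s) (ht : 1 ≤ t) :
    t ^ a * Real.exp (-(s * t)) ≤
      ∫ u in Ioi t, (s * u ^ a + |a| * u ^ (a - 1)) * Real.exp (-(s * u)) := by
  have hg := (weight_int ha hs).mono_set (Ioi_subset_Ioi ht)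
  have hdom : ∀ u ∈ Ioi t, ‖(a * u ^ (a - 1) - s * u ^ a) * Real.exp (-(s * u))‖ ≤
      (s * u ^ a + |a| * u ^ (a - 1)) * Real.exp (-(s * u)) := by
    intro u hu
    have hu0 : 0 < u := by
      have : t < u := hu
      linarith
    rw [norm_mul, Real.norm_eq_abs, Real.norm_eq_abs, abs_of_pos (Real.exp_pos _)]
    apply mul_le_mul_of_nonneg_right _ (Real.exp_pos _).le
    refine (abs_sub _ _).trans ?_
    rw [abs_mul, abs_mul, abs_of_pos (Real.rpow_pos_of_pos hu0 _), abs_of_pos hs,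
      abs_of_pos (Real.rpow_pos_of_pos hu0 _)]
    linarith
  have hint : IntegrableOn (fun u : ℝ => (a * u ^ (a - 1) - s * u ^ a) * Real.exp (-(s * u)))
      (Ioi t) := by
    refine Integrable.mono' hg ?_ ?_
    · apply ContinuousOn.aestronglyMeasurable _ measurableSet_Ioi
      apply ContinuousOn.mul
      · intro u hu
        have hu0 : u ≠ 0 := by
          have : t < u := hu
          linarith
        apply ContinuousAt.continuousWithinAt
        exact (continuousAt_const.mul (Real.continuousAt_rpow_const u (a - 1) (Or.inl hu0))).sub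
          (continuousAt_const.mul (Real.continuousAt_rpow_const u a (Or.inl hu0)))
      · fun_prop
    · rw [ae_restrict_iff' measurableSet_Ioi]
      exact Eventually.of_forall hdom
  have hlim : Tendsto (fun t : ℝ => t ^ a * Real.exp (-(s * t))) atTop (𝓝 0) := by
    have := tendsto_rpow_mul_exp_neg_mul_atTop_nhds_zero a s hs
    simpa only [neg_mul] using this
  have hftc := integral_Ioi_of_hasDerivAt_of_tendsto'
    (f := fun t : ℝ => t ^ a * Real.exp (-(s * t)))
    (f' := fun u : ℝ => (a * u ^ (a - 1) - s * u ^ a) * Real.exp (-(s * u))) (a := t) (m := 0)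
    (fun u hu => weight_deriv (by
      have : t ≤ u := hu
      linarith)) hint hlim
  simp only [zero_sub] at hftc
  have h1 : t ^ a * Real.exp (-(s * t)) =
      ‖∫ u in Ioi t, (a * u ^ (a - 1) - s * u ^ a) * Real.exp (-(s * u))‖ := by
    rw [hftc, norm_neg, Real.norm_eq_abs, abs_of_nonneg (by positivity)]
  rw [h1]
  refine (norm_integral_le_integral_norm _).trans ?_
  exact setIntegral_mono_on hint.norm hg measurableSet_Ioi hdom

lemma M4_lower {f : ℝ → ℝ} (hf : Continuous f) (h0 : ∀ t, 0 ≤ f t) {u : ℝ} (hu : 1 ≤ u) :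
    ∫⁻ t in Ioo 1 u, ENNReal.ofReal (f t) ≤ ENNReal.ofReal (∫ t in (0 : ℝ)..u, f t) := by
  have hint : IntegrableOn f (Ioc 0 u) := (hf.intervalIntegrable 0 u).1
  have hsub : Ioo (1 : ℝ) u ⊆ Ioc 0 u := fun x hx => ⟨by linarith [hx.1], hx.2.le⟩
  rw [← ofReal_integral_eq_lintegral_ofReal (hint.mono_set hsub)
    (Eventually.of_forall fun t => h0 t), intervalIntegral.integral_of_le (by linarith)]
  apply ENNReal.ofReal_le_ofReal
  exact setIntegral_mono_set hint (Eventually.of_forall fun t => h0 t) hsub.eventuallyLE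

end LAP_

open LAP_

theorem pLAP : tLAP := by
  intro P C hP a ε hε ha _
  obtain ⟨K, hK0, hK⟩ := M4_bound P C hP ε hε
  refine ⟨K * (Real.Gamma (a + 1 + ε + 1) + |a| * Real.Gamma (a + ε + 1)), fun s hs _ => ?_⟩
  set f : ℝ → ℝ := fun t => ‖zh t‖ ^ 4 with hf
  have hfc : Continuous f := continuous_zh.norm.pow 4
  have hf0 : ∀ t, 0 ≤ f t := fun t => by positivity
  set g : ℝ → ℝ := fun u => (s * u ^ a + |a| * u ^ (a - 1)) * Real.exp (-(s * u)) with hg
  have hgm : Measurable g := by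
    rw [hg]
    fun_prop
  have hg0 : ∀ u, 0 < u → 0 ≤ g u := fun u hu => by positivity
  have hgint : IntegrableOn g (Ioi 1) := weight_int ha hs
  have hmeas : Measurable fun t : ℝ => f t * t ^ a * Real.exp (-(s * t)) := by
    have := hfc.measurable
    fun_prop
  -- the bound for the lower integral
  have key : ∫⁻ t in Ioi (1 : ℝ), ENNReal.ofReal (f t * t ^ a * Real.exp (-(s * t))) ≤
      ENNReal.ofReal (K * (Real.Gamma (a + 1 + ε + 1) + |a| * Real.Gamma (a + ε + 1)) *
        s ^ (-(1 + a + ε))) := by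
    calc ∫⁻ t in Ioi (1 : ℝ), ENNReal.ofReal (f t * t ^ a * Real.exp (-(s * t)))
        ≤ ∫⁻ t in Ioi (1 : ℝ), ∫⁻ u in Ioi (1 : ℝ),
            ENNReal.ofReal (f t) * (Ioi t).indicator (fun u => ENNReal.ofReal (g u)) u := by
          apply setLIntegral_mono' measurableSet_Ioi
          intro t ht
          have ht1 : (1 : ℝ) ≤ t := le_of_lt ht
          rw [lintegral_const_mul _ ((hgm.ennreal_ofReal).indicator measurableSet_Ioi),
            lintegral_indicator measurableSet_Ioi, Measure.restrict_restrict measurableSet_Ioi,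
            inter_eq_left.2 (Ioi_subset_Ioi ht1),
            ← ofReal_integral_eq_lintegral_ofReal (hgint.mono_set (Ioi_subset_Ioi ht1))
              (by
                rw [EventuallyLE, ae_restrict_iff' measurableSet_Ioi]
                exact Eventually.of_forall fun u hu => hg0 u (lt_trans (by linarith) hu)),
            ← ENNReal.ofReal_mul (hf0 t), mul_assoc]
          apply ENNReal.ofReal_le_ofReal
          exact mul_le_mul_of_nonneg_left (weight_le ha hs ht1) (hf0 t)
      _ = ∫⁻ u in Ioi (1 : ℝ), ∫⁻ t in Ioi (1 : ℝ),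
            ENNReal.ofReal (f t) * (Ioi t).indicator (fun u => ENNReal.ofReal (g u)) u := by
          apply lintegral_lintegral_swap
          apply Measurable.aemeasurable
          have hset : MeasurableSet {p : ℝ × ℝ | p.1 < p.2} :=
            measurableSet_lt measurable_fst measurable_snd
          have : (Function.uncurry fun t u : ℝ => ENNReal.ofReal (f t) *
              (Ioi t).indicator (fun u => ENNReal.ofReal (g u)) u) =
              fun p : ℝ × ℝ => ENNReal.ofReal (f p.1) *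
                {p : ℝ × ℝ | p.1 < p.2}.indicator (fun p => ENNReal.ofReal (g p.2)) p := by
            funext p
            simp only [Function.uncurry]
            congr 1
          rw [this]
          exact ((hfc.measurable.comp measurable_fst).ennreal_ofReal).mul
            (((hgm.comp measurable_snd).ennreal_ofReal).indicator hset)
      _ ≤ ∫⁻ u in Ioi (1 : ℝ), ENNReal.ofReal (g u * (K * u ^ (1 + ε))) := by
          apply setLIntegral_mono' measurableSet_Ioi
          intro u hu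
          have hu1 : (1 : ℝ) ≤ u := le_of_lt hu
          have hu0 : (0 : ℝ) < u := by linarith
          have h1 : ∀ t : ℝ, ENNReal.ofReal (f t) *
              (Ioi t).indicator (fun u => ENNReal.ofReal (g u)) u =
              ENNReal.ofReal (g u) * (Iio u).indicator (fun t => ENNReal.ofReal (f t)) t := by
            intro t
            by_cases h : t < u
            · rw [indicator_of_mem (show u ∈ Ioi t from h),
                indicator_of_mem (show t ∈ Iio u from h), mul_comm]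
            · rw [indicator_of_notMem (show u ∉ Ioi t from h),
                indicator_of_notMem (show t ∉ Iio u from h), mul_zero, mul_zero]
          simp_rw [h1]
          rw [lintegral_const_mul _
              ((hfc.measurable.ennreal_ofReal).indicator measurableSet_Iio),
            lintegral_indicator measurableSet_Iio, Measure.restrict_restrict measurableSet_Iio]
          have h2 : Iio u ∩ Ioi (1 : ℝ) = Ioo 1 u := by
            ext x
            simp [and_comm]
          rw [h2, ENNReal.ofReal_mul (hg0 u hu0)]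
          apply mul_le_mul_right
          refine (M4_lower hfc hf0 hu1).trans ?_
          apply ENNReal.ofReal_le_ofReal
          exact hK u hu1
      _ ≤ ∫⁻ u in Ioi (0 : ℝ), ENNReal.ofReal (K * (s * (u ^ (a + 1 + ε) * Real.exp (-(s * u))) +
            |a| * (u ^ (a + ε) * Real.exp (-(s * u))))) := by
          refine (lintegral_mono_set (Ioi_subset_Ioi zero_le_one)).trans ?_
          apply setLIntegral_mono' measurableSet_Ioi
          intro u hu
          have hu0 : (0 : ℝ) < u := hu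
          apply le_of_eq
          congr 1
          have e1 : u ^ (a + 1 + ε) = u ^ a * u ^ (1 + ε) := by
            rw [← Real.rpow_add hu0]
            congr 1
            ring
          have e2 : u ^ (a + ε) = u ^ (a - 1) * u ^ (1 + ε) := by
            rw [← Real.rpow_add hu0]
            congr 1
            ring
          rw [hg, e1, e2]
          ring
      _ = ENNReal.ofReal (K * (Real.Gamma (a + 1 + ε + 1) + |a| * Real.Gamma (a + ε + 1)) *
            s ^ (-(1 + a + ε))) := by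
          obtain ⟨i1, e1⟩ := gam (q := a + 1 + ε) (r := s) (by linarith) hs
          obtain ⟨i2, e2⟩ := gam (q := a + ε) (r := s) (by linarith) hs
          have j1 : Integrable (fun u : ℝ => s * (u ^ (a + 1 + ε) * Real.exp (-(s * u))))
              (volume.restrict (Ioi 0)) := Integrable.const_mul i1 s
          have j2 : Integrable (fun u : ℝ => |a| * (u ^ (a + ε) * Real.exp (-(s * u))))
              (volume.restrict (Ioi 0)) := Integrable.const_mul i2 |a|
          have j3 : Integrable (fun u : ℝ => K * (s * (u ^ (a + 1 + ε) * Real.exp (-(s * u))) +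
              |a| * (u ^ (a + ε) * Real.exp (-(s * u))))) (volume.restrict (Ioi 0)) :=
            Integrable.const_mul (j1.add j2) K
          rw [← ofReal_integral_eq_lintegral_ofReal j3 (by
              rw [EventuallyLE, ae_restrict_iff' measurableSet_Ioi]
              refine Eventually.of_forall fun u hu => ?_
              have hu0 : (0 : ℝ) < u := hu
              simp only [Pi.zero_apply]
              positivity)]
          congr 1
          rw [integral_const_mul, integral_add j1 j2,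
            integral_const_mul, integral_const_mul, e1, e2]
          have e3 : (1 / s) ^ (a + 1 + ε + 1) = s⁻¹ * s ^ (-(1 + a + ε)) := by
            rw [one_div, Real.inv_rpow hs.le, ← Real.rpow_neg hs.le,
              show -(a + 1 + ε + 1) = -1 + -(1 + a + ε) by ring, Real.rpow_add hs,
              Real.rpow_neg_one]
          have e4 : (1 / s) ^ (a + ε + 1) = s ^ (-(1 + a + ε)) := by
            rw [one_div, Real.inv_rpow hs.le, ← Real.rpow_neg hs.le]
            congr 1
            ring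
          rw [e3, e4]
          field_simp
  have hnn : ∀ t ∈ Ioi (1 : ℝ), 0 ≤ f t * t ^ a * Real.exp (-(s * t)) := by
    intro t ht
    have ht0 : (0 : ℝ) < t := lt_trans zero_lt_one ht
    have := hf0 t
    positivity
  have hae : 0 ≤ᵐ[volume.restrict (Ioi (1 : ℝ))] fun t => f t * t ^ a * Real.exp (-(s * t)) := by
    rw [EventuallyLE, ae_restrict_iff' measurableSet_Ioi]
    exact Eventually.of_forall hnn
  constructor
  · refine ⟨hmeas.aestronglyMeasurable, ?_⟩
    rw [hasFiniteIntegral_iff_ofReal hae]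
    exact lt_of_le_of_lt key ENNReal.ofReal_lt_top
  · rw [integral_eq_lintegral_of_nonneg_ae hae hmeas.aestronglyMeasurable]
    apply ENNReal.toReal_le_of_le_ofReal _ key
    have g1 := Real.Gamma_pos_of_pos (show 0 < a + 1 + ε + 1 by linarith)
    have g2 := Real.Gamma_pos_of_pos (show 0 < a + ε + 1 by linarith)
    positivity

namespace LAP_

lemma zh_neg (t : ℝ) : ‖zh (-t)‖ = ‖zh t‖ := by
  have h : (1 / 2 + ((-t : ℝ) : ℂ) * I) = (starRingEnd ℂ) (1 / 2 + (t : ℂ) * I) := by
    apply Complex.ext <;> simp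
  unfold zh
  rw [h, riemannZeta_conj, Complex.norm_conj]

/-- the bound of the density for `|t| ≥ 1` -/
lemma Hf_bound (h2 : tHB) (h3 : tZLB) (h4 : tZLOW) : ∃ C : ℝ, 0 < C ∧ ∀ t : ℝ, 1 ≤ |t| →
    ‖Hf t‖ ≤ C * (‖zh t‖ ^ 4 * |t| ^ (-(9 / 50) : ℝ)) * Real.exp (-(Real.pi * |t| / 2)) := by
  obtain ⟨-, -, C₁, hC₁, hH⟩ := h2
  obtain ⟨C₂, hC₂, hz⟩ := h3
  obtain ⟨c, hc, hl⟩ := h4 (1 / 100) (by norm_num)
  refine ⟨C₁ * (2 * C₂ ^ 2) * (2 / c ^ 2), by positivity, fun t ht => ?_⟩
  have ht0 : 0 < |t| := by linarith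
  refine (hH t ht).trans ?_
  apply mul_le_mul_of_nonneg_right _ (Real.exp_pos _).le
  have hz1 : ‖zh t‖ ≤ C₂ * (2 * |t|) ^ (2 / 5 : ℝ) := by
    refine (hz t).trans ?_
    apply mul_le_mul_of_nonneg_left _ hC₂.le
    exact Real.rpow_le_rpow (by positivity) (by linarith) (by norm_num)
  have hz2 : ‖zh t‖ ^ 2 ≤ 2 * C₂ ^ 2 * |t| ^ (4 / 5 : ℝ) := by
    have e1 : (C₂ * (2 * |t|) ^ (2 / 5 : ℝ)) ^ 2 = C₂ ^ 2 * (2 ^ (4 / 5 : ℝ) * |t| ^ (4 / 5 : ℝ)) := by
      rw [mul_pow, ← Real.rpow_natCast ((2 * |t|) ^ (2 / 5 : ℝ)), ← Real.rpow_mul (by positivity),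
        ← Real.mul_rpow (by norm_num) ht0.le]
      norm_num
    have e2 : (2 : ℝ) ^ (4 / 5 : ℝ) ≤ 2 := by
      have := Real.rpow_le_rpow_of_exponent_le (show (1 : ℝ) ≤ 2 by norm_num)
        (show (4 / 5 : ℝ) ≤ 1 by norm_num)
      rwa [Real.rpow_one] at this
    have e3 := pow_le_pow_left₀ (norm_nonneg _) hz1 2
    rw [e1] at e3
    refine e3.trans ?_
    have e4 : 0 ≤ C₂ ^ 2 * |t| ^ (4 / 5 : ℝ) := by positivity
    nlinarith
  have hl1 : c * (2 * |t|) ^ (-(1 / 100) : ℝ) ≤ ‖riemannZeta (1 + 2 * t * I)‖ := by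
    have h := hl 1 (2 * t) le_rfl (by
      rw [abs_mul, abs_two]
      linarith)
    rw [abs_mul, abs_two] at h
    have e : ((1 : ℝ) : ℂ) + ((2 * t : ℝ) : ℂ) * I = 1 + 2 * t * I := by push_cast; ring
    rw [e] at h
    exact h
  have hl2 : 0 < c * (2 * |t|) ^ (-(1 / 100) : ℝ) := by positivity
  have hl3 : (‖riemannZeta (1 + 2 * t * I)‖ ^ 2)⁻¹ ≤ 2 / c ^ 2 * |t| ^ (1 / 50 : ℝ) := by
    have e1 : (c * (2 * |t|) ^ (-(1 / 100) : ℝ)) ^ 2 =
        c ^ 2 * (2 ^ (-(1 / 50) : ℝ) * |t| ^ (-(1 / 50) : ℝ)) := by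
      rw [mul_pow, ← Real.rpow_natCast ((2 * |t|) ^ (-(1 / 100) : ℝ)),
        ← Real.rpow_mul (by positivity), ← Real.mul_rpow (by norm_num) ht0.le]
      norm_num
    have e2 : (1 / 2 : ℝ) ≤ 2 ^ (-(1 / 50) : ℝ) := by
      have := Real.rpow_le_rpow_of_exponent_le (show (1 : ℝ) ≤ 2 by norm_num)
        (show (-1 : ℝ) ≤ -(1 / 50) by norm_num)
      rw [Real.rpow_neg_one] at this
      linarith
    have e3 := pow_le_pow_left₀ hl2.le hl1 2
    rw [e1] at e3
    have e4 : c ^ 2 * (1 / 2 * |t| ^ (-(1 / 50) : ℝ)) ≤ ‖riemannZeta (1 + 2 * t * I)‖ ^ 2 := by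
      refine le_trans ?_ e3
      apply mul_le_mul_of_nonneg_left _ (by positivity)
      exact mul_le_mul_of_nonneg_right e2 (by positivity)
    have e5 : 0 < c ^ 2 * (1 / 2 * |t| ^ (-(1 / 50) : ℝ)) := by positivity
    calc (‖riemannZeta (1 + 2 * t * I)‖ ^ 2)⁻¹ ≤ (c ^ 2 * (1 / 2 * |t| ^ (-(1 / 50) : ℝ)))⁻¹ :=
          inv_anti₀ e5 e4
      _ = 2 / c ^ 2 * |t| ^ (1 / 50 : ℝ) := by
          rw [Real.rpow_neg ht0.le]
          field_simp
  have e6 : |t| ^ (4 / 5 : ℝ) * |t| ^ (1 / 50 : ℝ) * |t|⁻¹ = |t| ^ (-(9 / 50) : ℝ) := by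
    rw [← Real.rpow_neg_one, ← Real.rpow_add ht0, ← Real.rpow_add ht0]
    norm_num
  calc C₁ * ‖zh t‖ ^ 6 / (|t| * ‖riemannZeta (1 + 2 * t * I)‖ ^ 2)
      = C₁ * ‖zh t‖ ^ 4 * (‖zh t‖ ^ 2 * (‖riemannZeta (1 + 2 * t * I)‖ ^ 2)⁻¹) * |t|⁻¹ := by
        rw [div_eq_mul_inv, mul_inv]
        ring
    _ ≤ C₁ * ‖zh t‖ ^ 4 * ((2 * C₂ ^ 2 * |t| ^ (4 / 5 : ℝ)) * (2 / c ^ 2 * |t| ^ (1 / 50 : ℝ))) *
        |t|⁻¹ := by
        apply mul_le_mul_of_nonneg_right _ (by positivity)
        apply mul_le_mul_of_nonneg_left _ (by positivity)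
        exact mul_le_mul hz2 hl3 (by positivity) (by positivity)
    _ = C₁ * (2 * C₂ ^ 2) * (2 / c ^ 2) * (‖zh t‖ ^ 4 *
        (|t| ^ (4 / 5 : ℝ) * |t| ^ (1 / 50 : ℝ) * |t|⁻¹)) := by ring
    _ = _ := by rw [e6]

end LAP_

open LAP_

theorem pPIM (h1 : tLAP) (h2 : tHB) (h3 : tZLB) (h4 : tZLOW) (h5 : tJIM) (h6 : HINT) : PIM := by
  intro P C hP
  obtain ⟨C₁, hC₁, hH⟩ := Hf_bound h2 h3 h4
  obtain ⟨-, ⟨C₂, hC₂, hH1⟩, -⟩ := h2
  obtain ⟨C₃, hC₃, hJ⟩ := h5
  obtain ⟨C₄, hL⟩ := h1 P C hP (-(9 / 50)) (1 / 100) (by norm_num) (by norm_num) (by norm_num)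
  set E : ℝ := Real.exp (Real.pi / 2) with hE
  have hE0 : 0 < E := Real.exp_pos _
  have hpi := Real.pi_pos
  have hC₄ : 0 ≤ C₄ := by
    obtain ⟨-, h⟩ := hL 1 one_pos le_rfl
    rw [Real.one_rpow, mul_one] at h
    refine le_trans ?_ h
    apply setIntegral_nonneg measurableSet_Ioi
    intro t ht
    have : (0 : ℝ) < t := lt_trans zero_lt_one ht
    positivity
  refine ⟨C₃ * 11 * (2 * (C₂ * E) + 2 * (C₁ * C₄)), Real.pi / 4, by linarith, fun ψ hψ1 hψ2 => ?_⟩
  set s : ℝ := Real.pi / 2 - ψ with hs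
  have hs0 : 0 < s := by linarith
  have hs1 : s ≤ 1 := by
    have := Real.pi_lt_d2
    linarith
  obtain ⟨hLi, hLb⟩ := hL s hs0 hs1
  set x : ℝ := Real.cos ψ with hx
  have hx0 : 0 < x := Real.cos_pos_of_mem_Ioo ⟨by linarith, hψ2⟩
  have hx1 : x ≤ 1 := Real.cos_le_one ψ
  have hxs : x ≤ s := by
    rw [hx, ← Real.sin_pi_div_two_sub]
    exact Real.sin_le hs0.le
  -- the integral of the density
  set w : ℝ → ℝ := fun t => ‖Hf t‖ * Real.exp (ψ * |t|) with hw
  have hwint : Integrable w := h6.2 ψ hψ2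
  have hw0 : ∀ t, 0 ≤ w t := fun t => by positivity
  have hwout : ∀ t : ℝ, 1 ≤ |t| →
      w t ≤ C₁ * (‖zh |t|‖ ^ 4 * |t| ^ (-(9 / 50) : ℝ) * Real.exp (-(s * |t|))) := by
    intro t ht
    have e1 : ‖zh |t|‖ = ‖zh t‖ := by
      rcases abs_choice t with h | h
      · rw [h]
      · rw [h, zh_neg]
    have e2 : Real.exp (-(Real.pi * |t| / 2)) * Real.exp (ψ * |t|) = Real.exp (-(s * |t|)) := by
      rw [← Real.exp_add]
      congr 1
      rw [hs]
      ring
    rw [hw, e1, ← e2]
    have := mul_le_mul_of_nonneg_right (hH t ht) (Real.exp_pos (ψ * |t|)).le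
    refine this.trans (le_of_eq ?_)
    ring
  have hI1 : ∫ t in Ioi (1 : ℝ), w t ≤ C₁ * (C₄ * s ^ (-(83 / 100) : ℝ)) := by
    have e : (-(1 + -(9 / 50) + 1 / 100) : ℝ) = -(83 / 100) := by norm_num
    rw [e] at hLb
    refine le_trans ?_ (mul_le_mul_of_nonneg_left hLb hC₁.le)
    rw [← integral_const_mul]
    apply setIntegral_mono_on hwint.integrableOn (Integrable.const_mul hLi C₁) measurableSet_Ioi
    intro t ht
    have ht1 : (1 : ℝ) < t := ht
    have ht2 : |t| = t := abs_of_pos (by linarith)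
    have := hwout t (by rw [ht2]; exact ht1.le)
    rwa [ht2] at this
  have hI2 : ∫ t in Iio (-1 : ℝ), w t ≤ C₁ * (C₄ * s ^ (-(83 / 100) : ℝ)) := by
    have e0 : ∫ t in Iio (-1 : ℝ), w t = ∫ t in Ioi (1 : ℝ), w (-t) := by
      rw [← integral_Iic_eq_integral_Iio, ← integral_comp_neg_Ioi 1 w]
    have e : (-(1 + -(9 / 50) + 1 / 100) : ℝ) = -(83 / 100) := by norm_num
    rw [e] at hLb
    rw [e0]
    refine le_trans ?_ (mul_le_mul_of_nonneg_left hLb hC₁.le)
    rw [← integral_const_mul]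
    apply setIntegral_mono_on hwint.comp_neg.integrableOn (Integrable.const_mul hLi C₁)
      measurableSet_Ioi
    intro t ht
    have ht1 : (1 : ℝ) < t := ht
    have ht2 : |(-t)| = t := by rw [abs_neg, abs_of_pos (by linarith)]
    have := hwout (-t) (by rw [ht2]; exact ht1.le)
    rwa [ht2] at this
  have hI3 : ∫ t in Icc (-1 : ℝ) 1, w t ≤ 2 * (C₂ * E) := by
    have h7 : ∀ t ∈ Icc (-1 : ℝ) 1, w t ≤ C₂ * E := by
      intro t ht
      have ht1 : |t| ≤ 1 := abs_le.2 ht
      rw [hw]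
      apply mul_le_mul (hH1 t ht1) _ (Real.exp_pos _).le hC₂.le
      rw [hE]
      apply Real.exp_le_exp.2
      have := mul_le_mul (show ψ ≤ Real.pi / 2 by linarith) ht1 (abs_nonneg t)
        (by linarith)
      linarith
    have h8 : ∫ t in Icc (-1 : ℝ) 1, w t ≤ ∫ t in Icc (-1 : ℝ) 1, C₂ * E := by
      apply setIntegral_mono_on hwint.integrableOn _ measurableSet_Icc h7
      exact integrableOn_const (by simp)
    refine h8.trans (le_of_eq ?_)
    rw [setIntegral_const]
    simp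
    norm_num
  have hItot : ∫ t, w t ≤ 2 * (C₂ * E) + 2 * (C₁ * C₄) * s ^ (-(83 / 100) : ℝ) := by
    have hsplit : ∫ t, w t = (∫ t in Iio (-1 : ℝ), w t) +
        ((∫ t in Icc (-1 : ℝ) 1, w t) + ∫ t in Ioi (1 : ℝ), w t) := by
      rw [← setIntegral_union _ measurableSet_Ioi hwint.integrableOn hwint.integrableOn,
        Icc_union_Ioi_eq_Ici (by norm_num), ← setIntegral_union _ measurableSet_Ici
          hwint.integrableOn hwint.integrableOn, Iio_union_Ici, setIntegral_univ]
      · rw [Set.disjoint_left]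
        intro y hy1 hy2
        exact absurd (mem_Ici.1 hy2) (not_le.2 hy1)
      · rw [Set.disjoint_left]
        intro y hy1 hy2
        exact absurd hy1.2 (not_le.2 hy2)
    rw [hsplit]
    linarith
  -- the sum
  have hJ' : ∀ t : ℝ, ‖Hf t * Jk t (ψ * I)‖ ≤ C₃ * (1 - Real.log x) * w t := by
    intro t
    rw [norm_mul, hw]
    have := mul_le_mul_of_nonneg_left (hJ t ψ hψ1.le hψ2) (norm_nonneg (Hf t))
    refine this.trans (le_of_eq ?_)
    ring
  have hlog : 0 ≤ 1 - Real.log x := by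
    have := Real.log_nonpos hx0.le hx1
    linarith
  have hPc : ‖Pc (ψ * I)‖ ≤ C₃ * (1 - Real.log x) * ∫ t, w t := by
    unfold Pc
    rw [← integral_const_mul]
    exact norm_integral_le_of_norm_le (hwint.const_mul _) (Eventually.of_forall hJ')
  have hxp : ∀ p : ℝ, 0 < x ^ p := fun p => Real.rpow_pos_of_pos hx0 p
  have hlog2 : 1 - Real.log x ≤ 11 * x ^ (-(1 / 10) : ℝ) := by
    have h7 := Real.log_le_rpow_div (x := x⁻¹) (by positivity) (show (0 : ℝ) < 1 / 10 by norm_num)
    rw [Real.log_inv, Real.inv_rpow hx0.le, ← Real.rpow_neg hx0.le] at h7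
    have h8 : 1 ≤ x ^ (-(1 / 10) : ℝ) :=
      Real.one_le_rpow_of_pos_of_le_one_of_nonpos hx0 hx1 (by norm_num)
    have h9 : x ^ (-(1 / 10) : ℝ) / (1 / 10) = 10 * x ^ (-(1 / 10) : ℝ) := by ring
    rw [h9] at h7
    linarith
  have hsx : s ^ (-(83 / 100) : ℝ) ≤ x ^ (-(83 / 100) : ℝ) :=
    Real.rpow_le_rpow_of_nonpos hx0 hxs (by norm_num)
  have hone : 1 ≤ x ^ (-(83 / 100) : ℝ) :=
    Real.one_le_rpow_of_pos_of_le_one_of_nonpos hx0 hx1 (by norm_num)
  have hI4 : ∫ t, w t ≤ (2 * (C₂ * E) + 2 * (C₁ * C₄)) * x ^ (-(83 / 100) : ℝ) := by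
    refine hItot.trans ?_
    rw [add_mul]
    apply add_le_add
    · have : 0 ≤ 2 * (C₂ * E) := by positivity
      nlinarith
    · exact mul_le_mul_of_nonneg_left hsx (by positivity)
  have hI0 : 0 ≤ ∫ t, w t := integral_nonneg hw0
  calc ‖Pc (ψ * I)‖ ≤ C₃ * (1 - Real.log x) * ∫ t, w t := hPc
    _ ≤ C₃ * (11 * x ^ (-(1 / 10) : ℝ)) *
        ((2 * (C₂ * E) + 2 * (C₁ * C₄)) * x ^ (-(83 / 100) : ℝ)) := by
        apply mul_le_mul _ hI4 hI0 (by positivity)
        exact mul_le_mul_of_nonneg_left hlog2 hC₃.le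
    _ = C₃ * 11 * (2 * (C₂ * E) + 2 * (C₁ * C₄)) *
        (x ^ (-(1 / 10) : ℝ) * x ^ (-(83 / 100) : ℝ)) := by ring
    _ ≤ C₃ * 11 * (2 * (C₂ * E) + 2 * (C₁ * C₄)) * x⁻¹ := by
        apply mul_le_mul_of_nonneg_left _ (by positivity)
        rw [← Real.rpow_add hx0, ← Real.rpow_neg_one]
        exact Real.rpow_le_rpow_of_exponent_ge hx0 hx1 (by norm_num)
    _ = C₃ * 11 * (2 * (C₂ * E) + 2 * (C₁ * C₄)) / x := by rw [div_eq_mul_inv]

end FMZ
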