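import Pool.Agent.FMZ.STargets

/-!
# FMZ, S-ABS: expansion in eigenvectors
-/

open Complex MeasureTheory Set Filter Topology
open scoped ENNReal InnerProductSpace

namespace FMZ

namespace SABS_

variable {H : Type} [NormedAddCommGroup H] [InnerProductSpace ℂ H] [CompleteSpace H]

/-- an operator which is small off finitely many functionals is compact -/
theorem compact_of_small (T : H →L[ℂ] H)
    (h : ∀ ε : ℝ, 0 < ε → ∃ (n : ℕ) (l : Fin n → (H →L[ℂ] ℂ)), ∀ u : H,
      ‖T u‖ ≤ ε * ‖u‖ + ∑ i, ‖l i u‖) : IsCompactOperator T := by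
  have key : T ∈ closure {f : H →L[ℂ] H | IsCompactOperator f} := by
    rw [Metric.mem_closure_iff]
    intro ε hε
    obtain ⟨n, l, hl⟩ := h (ε / 2) (by positivity)
    set w : Fin n → H := fun i => (InnerProductSpace.toDual ℂ H).symm (l i) with hw
    have hlw : ∀ i u, l i u = ⟪w i, u⟫_ℂ := by
      intro i u
      rw [hw]
      simp
    set S : Submodule ℂ H := Submodule.span ℂ (Set.range w) with hS
    have : FiniteDimensional ℂ S := FiniteDimensional.span_of_finite ℂ (Set.finite_range w)
    have hp : ProperSpace S := FiniteDimensional.proper_rclike ℂ S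
    refine ⟨(T ∘L S.subtypeL) ∘L S.orthogonalProjectionOnto, ?_, ?_⟩
    · have h1 : IsCompactOperator (T ∘L S.subtypeL) :=
        isCompactOperator_of_locallyCompactSpace_rng _
      exact h1.comp_clm _
    · rw [dist_eq_norm]
      refine lt_of_le_of_lt (ContinuousLinearMap.opNorm_le_bound _ (by positivity : 0 ≤ ε / 2) ?_)
        (half_lt_self hε)
      intro u
      have h2 : (T - (T ∘L S.subtypeL) ∘L S.orthogonalProjectionOnto) u =
          T (u - S.starProjection u) := by
        simp [map_sub]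
      rw [h2]
      have h3 := hl (u - S.starProjection u)
      have h4 : ∀ i, l i (u - S.starProjection u) = 0 := by
        intro i
        rw [hlw]
        have h5 := S.sub_starProjection_mem_orthogonal u
        exact (Submodule.mem_orthogonal _ _).1 h5 (w i) (Submodule.subset_span ⟨i, rfl⟩)
      have h6 : ∑ i, ‖l i (u - S.starProjection u)‖ = 0 := by simp [h4]
      rw [h6, add_zero] at h3
      refine h3.trans ?_
      have h7 : ‖u - S.starProjection u‖ ≤ ‖u‖ := by
        rw [← Submodule.starProjection_orthogonal_val]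
        exact Submodule.norm_starProjection_apply_le _ _
      gcongr
  rwa [isClosed_setOfPred_isCompactOperator.closure_eq] at key

/-- the spectral decomposition of a compact symmetric injective operator -/
theorem expand (T : H →L[ℂ] H) (hT : IsCompactOperator T) (hs : (T : H →ₗ[ℂ] H).IsSymmetric)
    (F : H) : ∃ v : ℂ → H, (∀ μ, T (v μ) = μ • v μ) ∧ HasSum v F := by
  have h1 := ContinuousLinearMap.orthogonalComplement_iSup_eigenspaces_eq_bot hT hs
  have hO : OrthogonalFamily ℂ (fun μ => Module.End.eigenspace (T : Module.End ℂ H) μ)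
      fun μ => (Module.End.eigenspace (T : Module.End ℂ H) μ).subtypeₗᵢ :=
    hs.orthogonalFamily_eigenspaces
  have hcl : ∀ μ, IsClosed ((Module.End.eigenspace (T : Module.End ℂ H) μ : Submodule ℂ H) :
      Set H) := by
    intro μ
    have : ((Module.End.eigenspace (T : Module.End ℂ H) μ : Submodule ℂ H) : Set H) =
        {x | T x = μ • x} := by
      ext x
      simp
    rw [this]
    exact isClosed_eq T.continuous (continuous_const_smul μ)
  have hc : ∀ μ, CompleteSpace (Module.End.eigenspace (T : Module.End ℂ H) μ) := fun μ =>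
    (hcl μ).completeSpace_coe
  have hI : IsHilbertSum ℂ (fun μ => Module.End.eigenspace (T : Module.End ℂ H) μ)
      fun μ => (Module.End.eigenspace (T : Module.End ℂ H) μ).subtypeₗᵢ := by
    refine IsHilbertSum.mkInternal _ hO ?_
    rw [← Submodule.topologicalClosure_eq_top_iff] at h1
    exact h1.ge
  refine ⟨fun μ => (hI.linearIsometryEquiv F μ : H), ?_, ?_⟩
  · intro μ
    exact Module.End.mem_eigenspace_iff.1 (hI.linearIsometryEquiv F μ).2
  · have := hI.hasSum_linearIsometryEquiv_symm (hI.linearIsometryEquiv F)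
    rw [LinearIsometryEquiv.symm_apply_apply] at this
    exact this

end SABS_

open SABS_

theorem pABS : sABS := by
  intro H E _ _ _ _ _ _ p H0 hcl hinv hker hsm F hF
  have : CompleteSpace H0 := hcl.completeSpace_coe
  set ps := ContinuousLinearMap.adjoint p with hps
  set T : H →L[ℂ] H := p ∘L ps with hT
  have hTi : ∀ x ∈ H0, T x ∈ H0 := hinv
  set T0 : H0 →L[ℂ] H0 := T.restrict hTi with hT0
  have hT0a : ∀ x : H0, ((T0 x : H0) : H) = p (ps x) := fun x => rfl
  have hin : ∀ x y : H, ⟪p (ps x), y⟫_ℂ = ⟪ps x, ps y⟫_ℂ := by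
    intro x y
    rw [hps, ContinuousLinearMap.adjoint_inner_right]
  have hin' : ∀ x y : H, ⟪x, p (ps y)⟫_ℂ = ⟪ps x, ps y⟫_ℂ := by
    intro x y
    rw [hps, ContinuousLinearMap.adjoint_inner_left]
  have hsym : (T0 : H0 →ₗ[ℂ] H0).IsSymmetric := by
    intro x y
    show ⟪((T0 x : H0) : H), (y : H)⟫_ℂ = ⟪(x : H), ((T0 y : H0) : H)⟫_ℂ
    rw [hT0a, hT0a, hin, hin']
  have hcpt : IsCompactOperator T0 := by
    refine compact_of_small T0 fun ε hε => ?_
    obtain ⟨n, l, hl⟩ := hsm (ε / (‖ps‖ + 1)) (by positivity)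
    refine ⟨n, fun i => (l i) ∘L (H0.subtypeL ∘L T0), fun u => ?_⟩
    have h1 := hl (ps u) (by have := (T0 u).2; rwa [hT0a] at this)
    have h2 : ‖T0 u‖ = ‖p (ps u)‖ := by rw [← hT0a]; rfl
    rw [h2]
    have h3 : ‖ps u‖ ≤ (‖ps‖ + 1) * ‖u‖ := by
      refine (ps.le_opNorm _).trans ?_
      have : ‖(u : H)‖ = ‖u‖ := rfl
      rw [this]
      nlinarith [norm_nonneg u]
    have h4 : ε / (‖ps‖ + 1) * ‖ps u‖ ≤ ε * ‖u‖ := by
      have h5 : 0 < ‖ps‖ + 1 := by positivity
      calc ε / (‖ps‖ + 1) * ‖ps u‖ ≤ ε / (‖ps‖ + 1) * ((‖ps‖ + 1) * ‖u‖) := by gcongr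
        _ = ε * ‖u‖ := by field_simp
    refine h1.trans ?_
    gcongr
    exact le_of_eq rfl
  obtain ⟨v, hv, hsum⟩ := expand T0 hcpt hsym ⟨F, hF⟩
  have hsum' : HasSum (fun μ => ((v μ : H0) : H)) F := by
    have := hsum.mapL H0.subtypeL
    exact this
  have hpos : ∀ μ, v μ ≠ 0 → 0 < μ.re ∧ ((μ.re : ℝ) : ℂ) = μ := by
    intro μ hμ
    have h1 : (v μ : H) ≠ 0 := by simpa using hμ
    have h2 : p (ps (v μ)) = μ • (v μ : H) := by
      rw [← hT0a, hv]; rfl
    have h3 : ps (v μ : H) ≠ 0 := by
      intro h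
      exact h1 (hker _ (v μ).2 (by rw [h, map_zero]))
    have h4 : ⟪(v μ : H), p (ps (v μ))⟫_ℂ = μ * ((‖(v μ : H)‖ : ℂ)) ^ 2 := by
      rw [h2, inner_smul_right, inner_self_eq_norm_sq_to_K]; rfl
    rw [hin', inner_self_eq_norm_sq_to_K] at h4
    have h5 : μ = (((‖ps (v μ : H)‖ ^ 2 / ‖(v μ : H)‖ ^ 2 : ℝ)) : ℂ) := by
      have h6 : ((‖(v μ : H)‖ : ℝ) : ℂ) ≠ 0 := by exact_mod_cast norm_ne_zero_iff.2 h1
      push_cast
      rw [eq_div_iff (pow_ne_zero 2 h6)]
      exact h4.symm
    have h7 : 0 < ‖ps (v μ : H)‖ ^ 2 / ‖(v μ : H)‖ ^ 2 := by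
      have := norm_pos_iff.2 h1
      have := norm_pos_iff.2 h3
      positivity
    constructor
    · rw [h5, Complex.ofReal_re]; exact h7
    · rw [h5, Complex.ofReal_re]
  -- countable support
  have hct : (Function.support v).Countable := by
    have := hsum.summable
    exact this.countable_support
  have := hct.toEncodable
  set S : Set ℂ := Function.support v with hS
  set e : S → ℕ := Encodable.encode with he
  have hei : Function.Injective e := Encodable.encode_injective
  set φ : ℕ → H := Function.extend e (fun μ : S => ((v μ : H0) : H)) 0 with hφ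
  set τ : ℕ → ℝ := Function.extend e (fun μ : S => (μ : ℂ).re) 1 with hτ
  refine ⟨φ, τ, fun _ => 1, ?_, ?_⟩
  · intro j
    by_cases hj : ∃ μ : S, e μ = j
    · obtain ⟨μ, rfl⟩ := hj
      have h1 : φ (e μ) = (v μ : H) := by rw [hφ, hei.extend_apply]
      have h2 : τ (e μ) = (μ : ℂ).re := by rw [hτ, hei.extend_apply]
      have h3 := hpos μ (Function.mem_support.1 μ.2)
      refine ⟨by rw [h1]; exact (v μ).2, by rw [h2]; exact h3.1, ?_⟩
      rw [h1, h2, h3.2]
      rw [← hT0a, hv]; rfl
    · have h1 : φ j = 0 := by rw [hφ, Function.extend_apply' _ _ _ hj]; rfl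
      have h2 : τ j = 1 := by rw [hτ, Function.extend_apply' _ _ _ hj]; rfl
      rw [h1, h2]
      exact ⟨H0.zero_mem, one_pos, by simp⟩
  · intro L
    have h1 : HasSum φ F := by
      rw [hφ, hasSum_extend_zero hei]
      have h2 : Function.support (fun μ => ((v μ : H0) : H)) ⊆ S := by
        intro μ hμ
        rw [hS, Function.mem_support]
        intro h
        rw [Function.mem_support, h] at hμ
        exact hμ rfl
      exact (hasSum_subtype_iff_of_support_subset h2).2 hsum'
    have h2 : HasSum (fun j => (1 : ℂ) * L (φ j)) (L F) := by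
      simp only [one_mul]
      exact h1.mapL L
    exact ⟨h2.summable.norm, h2.tsum_eq⟩

end FMZ
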