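import Pool.Agent.FMZ.STargets

/-!
# FMZ, S-C2: counting lemma
-/

open Complex MeasureTheory Set Filter Topology
open UpperHalfPlane hiding I
open scoped ENNReal

namespace FMZ

namespace SC2_

open ModularGroup in
/-- elements with the same bottom row differ by a translation -/
lemma same_row (g h : SG) (h0 : g 1 0 = h 1 0) (h1 : g 1 1 = h 1 1) :
    ∃ n : ℤ, h = T ^ n * g := by
  have dg := g.det_coe
  have dh := h.det_coe
  rw [Matrix.det_fin_two] at dg dh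
  rw [← h0, ← h1] at dh
  refine ⟨g 0 0 * h 0 1 - h 0 0 * g 0 1, ?_⟩
  ext i j
  rw [Matrix.SpecialLinearGroup.coe_mul, coe_T_zpow]
  fin_cases i <;> fin_cases j
  · simp [Matrix.mul_apply, Fin.sum_univ_two]
    linear_combination (g 0 0) * dh - (h 0 0) * dg
  · simp [Matrix.mul_apply, Fin.sum_univ_two]
    linear_combination (g 0 1) * dh - (h 0 1) * dg
  · simp [Matrix.mul_apply, Fin.sum_univ_two]
    exact h0.symm
  · simp [Matrix.mul_apply, Fin.sum_univ_two]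
    exact h1.symm

/-- `|cz + d|² = (cx+d)² + c²y²` -/
lemma normSq_denom (g : SG) (z : ℍ) : Complex.normSq (denom g z) =
    ((g 1 0 : ℝ) * z.re + g 1 1) ^ 2 + ((g 1 0 : ℝ) * z.im) ^ 2 := by
  rw [ModularGroup.denom_apply, Complex.normSq_apply]
  simp
  ring

/-- bounds of the bottom row -/
lemma row_bound {ε : ℝ} {z : ℍ} {g : SG} (hε : 0 < ε) (hε1 : ε ≤ 1) (hz : z ∈ Dm)
    (hg : ε ≤ (g • z).im) : |(g 1 0 : ℝ)| ≤ 2 / ε ∧ |(g 1 1 : ℝ)| ≤ 2 / ε := by
  have hy := z.im_pos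
  have hy2 := ModularGroup.three_lt_four_mul_im_sq_of_mem_fdo hz
  have hyh : 1 / 2 < z.im := by nlinarith
  have hx : |z.re| < 1 / 2 := hz.2
  rw [ModularGroup.im_smul_eq_div_normSq, le_div_iff₀ (normSq_denom_pos _ z.im_ne_zero),
    normSq_denom] at hg
  set c : ℝ := ((g 1 0 : ℤ) : ℝ) with hc
  set d : ℝ := ((g 1 1 : ℤ) : ℝ) with hd
  have hinv : 1 ≤ 1 / ε := by
    rw [le_div_iff₀ hε]
    linarith
  by_cases hc0 : g 1 0 = 0
  · have hcr : c = 0 := by rw [hc, hc0, Int.cast_zero]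
    have hdet := g.det_coe
    rw [Matrix.det_fin_two] at hdet
    have hc0' : (g : Matrix (Fin 2) (Fin 2) ℤ) 1 0 = 0 := hc0
    rw [hc0', mul_zero, sub_zero] at hdet
    have hdu : IsUnit (g 1 1) := IsUnit.of_mul_eq_one _ (by rw [mul_comm]; exact hdet)
    have hd1 : |d| = 1 := by
      rcases Int.isUnit_iff.1 hdu with h | h
      · rw [hd, h]
        norm_num
      · rw [hd, h]
        norm_num
    rw [hcr, hd1, abs_zero]
    have : 2 / ε = 2 * (1 / ε) := by ring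
    constructor <;> linarith
  · have hc1 : 1 ≤ |c| := by
      have : (1 : ℤ) ≤ |g 1 0| := Int.one_le_abs hc0
      rw [hc]
      exact_mod_cast this
    -- c² y ≤ 1/ε
    have e1 : ε * (c ^ 2 * z.im ^ 2) ≤ z.im := by nlinarith [sq_nonneg (c * z.re + d)]
    have e2 : ε * (c ^ 2 * z.im) ≤ 1 := by
      have : (ε * (c ^ 2 * z.im)) * z.im ≤ 1 * z.im := by nlinarith
      exact le_of_mul_le_mul_right this hy
    have e3 : ε * c ^ 2 ≤ 2 := by nlinarith [mul_nonneg hε.le (sq_nonneg c)]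
    have hcc : |c| ≤ c ^ 2 := by
      rw [← sq_abs]
      nlinarith
    have e4 : |c| ≤ 2 / ε := by
      rw [le_div_iff₀ hε]
      nlinarith
    refine ⟨e4, ?_⟩
    -- y ≤ 1/ε
    have hc2 : 1 ≤ c ^ 2 := by
      rw [← sq_abs]
      nlinarith
    have e5 : ε * z.im ≤ 1 := by nlinarith [mul_pos hε hy]
    -- (cx + d)² ≤ 1/ε²
    have e6 : ε * (c * z.re + d) ^ 2 ≤ z.im := by nlinarith [sq_nonneg (c * z.im)]
    have e7 : (ε * |c * z.re + d|) ^ 2 ≤ 1 := by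
      rw [mul_pow, sq_abs]
      nlinarith
    have e8 : ε * |c * z.re + d| ≤ 1 := by
      have h0 : 0 ≤ ε * |c * z.re + d| := by positivity
      nlinarith
    have e9 : |d| ≤ |c * z.re + d| + |c| * |z.re| := by
      rw [← abs_mul]
      have : d = (c * z.re + d) - c * z.re := by ring
      calc |d| = |(c * z.re + d) - c * z.re| := by rw [← this]
        _ ≤ |c * z.re + d| + |c * z.re| := abs_sub _ _
    have e10 : |c| * |z.re| ≤ |c| * (1 / 2) := mul_le_mul_of_nonneg_left hx.le (abs_nonneg _)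
    rw [le_div_iff₀ hε]
    rw [le_div_iff₀ hε] at e4
    nlinarith

end SC2_

open SC2_ in
/-- S-C2 -/
theorem pC2 : sC2 := by
  refine ⟨75, ?_⟩
  intro ε z hε hε1 hz
  set N : ℕ := ⌊2 / ε⌋₊ with hN
  set A : Set SG := {g : SG | ε ≤ (g • z).im ∧ |(g • z).re| ≤ 1} with hA
  set F : Finset ((ℤ × ℤ) × ℤ) := ((Finset.Icc (-(N : ℤ)) N ×ˢ Finset.Icc (-(N : ℤ)) N) ×ˢ
    Finset.Icc (-1 : ℤ) 1) with hF
  set φ : SG → (ℤ × ℤ) × ℤ := fun g => ((g 1 0, g 1 1), ⌊(g • z).re⌋) with hφ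
  have hmem : ∀ n : ℤ, |(n : ℝ)| ≤ 2 / ε → n ∈ Finset.Icc (-(N : ℤ)) N := by
    intro n hn
    have h1 : n.natAbs ≤ N := by
      rw [hN]
      refine Nat.le_floor ?_
      rw [Nat.cast_natAbs, Int.cast_abs]
      exact hn
    rw [Finset.mem_Icc]
    omega
  have hmaps : ∀ g ∈ A, φ g ∈ (F : Set ((ℤ × ℤ) × ℤ)) := by
    intro g hg
    obtain ⟨h1, h2⟩ := row_bound hε hε1 hz hg.1
    obtain ⟨h3, h4⟩ := abs_le.1 hg.2
    rw [hF, Finset.mem_coe, Finset.mem_product, Finset.mem_product]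
    refine ⟨⟨hmem _ h1, hmem _ h2⟩, ?_⟩
    rw [Finset.mem_Icc]
    constructor
    · rw [Int.le_floor]
      push_cast
      exact h3
    · have h5 : (⌊(g • z).re⌋ : ℝ) ≤ (g • z).re := Int.floor_le _
      have h6 : (⌊(g • z).re⌋ : ℝ) ≤ 1 := h5.trans h4
      exact_mod_cast h6
  have hinj : Set.InjOn φ A := by
    intro g _ h _ hgh
    rw [hφ] at hgh
    simp only [Prod.mk.injEq] at hgh
    obtain ⟨⟨h1, h2⟩, h3⟩ := hgh
    obtain ⟨n, hn⟩ := same_row g h h1 h2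
    have h4 : (h • z).re = (g • z).re + n := by
      rw [hn, mul_smul, ModularGroup.re_T_zpow_smul]
    rw [h4, Int.floor_add_intCast] at h3
    have h5 : n = 0 := by omega
    rw [hn, h5, zpow_zero, one_mul]
  have hfin : (F : Set ((ℤ × ℤ) × ℤ)).Finite := F.finite_toSet
  have hAfin : A.Finite := Set.Finite.of_injOn hmaps hinj hfin
  refine ⟨hAfin, ?_⟩
  have h1 : A.ncard ≤ (F : Set ((ℤ × ℤ) × ℤ)).ncard :=
    Set.ncard_le_ncard_of_injOn φ hmaps hinj hfin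
  rw [Set.ncard_coe_finset, hF, Finset.card_product, Finset.card_product, Int.card_Icc,
    Int.card_Icc] at h1
  have h2 : ((N : ℤ) + 1 - -(N : ℤ)).toNat = 2 * N + 1 := by omega
  have h3 : ((1 : ℤ) + 1 - -1).toNat = 3 := by decide
  rw [h2, h3] at h1
  have h4 : (A.ncard : ℝ) ≤ (2 * N + 1) * (2 * N + 1) * 3 := by exact_mod_cast h1
  have h5 : (N : ℝ) ≤ 2 / ε := Nat.floor_le (by positivity)
  have hinv : 1 ≤ 1 / ε := by
    rw [le_div_iff₀ hε]
    linarith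
  have h6 : 2 * (N : ℝ) + 1 ≤ 5 * (1 / ε) := by
    have : 2 / ε = 2 * (1 / ε) := by ring
    linarith
  have h7 : (0 : ℝ) ≤ 2 * (N : ℝ) + 1 := by positivity
  calc (A.ncard : ℝ) ≤ (2 * N + 1) * (2 * N + 1) * 3 := h4
    _ ≤ (5 * (1 / ε)) * (5 * (1 / ε)) * 3 := by
        refine mul_le_mul_of_nonneg_right ?_ (by norm_num)
        exact mul_le_mul h6 h6 h7 (by positivity)
    _ = 75 / ε ^ 2 := by ring

end FMZ
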