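import Pool.Agent.FMZ.STargets

/-!
# FMZ, S-CE: the functions χ(y) η(x)
-/

open Complex MeasureTheory Set Filter Topology
open UpperHalfPlane hiding I
open scoped ENNReal

namespace FMZ

namespace SCE_

/-- the function on the complex plane -/
noncomputable def F (u v : ℝ → ℝ) (w : ℂ) : ℂ := ((u w.im * v w.re : ℝ) : ℂ)

lemma ex_ce (u v : ℝ → ℝ) (w : ℂ) (hw : 0 < w.im) : ex (ce u v) w = F u v w := by
  rw [ex, ce, F, ofComplex_apply_of_im_pos hw]
  rfl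

lemma F_contDiff {u v : ℝ → ℝ} (hu : ContDiff ℝ (⊤ : ℕ∞) u) (hv : ContDiff ℝ (⊤ : ℕ∞) v) :
    ContDiff ℝ (⊤ : ℕ∞) (F u v) :=
  Complex.ofRealCLM.contDiff.comp ((hu.comp Complex.imCLM.contDiff).mul
    (hv.comp Complex.reCLM.contDiff))

lemma isOpen_up : IsOpen {w : ℂ | 0 < w.im} := isOpen_lt continuous_const Complex.continuous_im

lemma ex_ev (u v : ℝ → ℝ) (w : ℂ) (hw : 0 < w.im) : ex (ce u v) =ᶠ[𝓝 w] F u v :=
  Filter.eventually_of_mem (isOpen_up.mem_nhds hw) fun z hz => ex_ce u v z hz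

lemma sm_ce {u v : ℝ → ℝ} (hu : ContDiff ℝ (⊤ : ℕ∞) u) (hv : ContDiff ℝ (⊤ : ℕ∞) v) :
    Sm (ce u v) :=
  (F_contDiff hu hv).contDiffOn.congr fun w hw => ex_ce u v w hw

lemma hasFDerivAt_F {u v : ℝ → ℝ} (hu : Differentiable ℝ u) (hv : Differentiable ℝ v) (w : ℂ) :
    HasFDerivAt (F u v) (Complex.ofRealCLM.comp
      (u w.im • (deriv v w.re • Complex.reCLM) + v w.re • (deriv u w.im • Complex.imCLM))) w := by
  have h1 : HasFDerivAt (fun w : ℂ => u w.im) (deriv u w.im • Complex.imCLM) w :=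
    (hu w.im).hasDerivAt.comp_hasFDerivAt w Complex.imCLM.hasFDerivAt
  have h2 : HasFDerivAt (fun w : ℂ => v w.re) (deriv v w.re • Complex.reCLM) w :=
    (hv w.re).hasDerivAt.comp_hasFDerivAt w Complex.reCLM.hasFDerivAt
  exact Complex.ofRealCLM.hasFDerivAt.comp w (h1.mul h2)

lemma fderiv_one {u v : ℝ → ℝ} (hu : Differentiable ℝ u) (hv : Differentiable ℝ v) (w : ℂ) :
    fderiv ℝ (F u v) w 1 = F u (deriv v) w := by
  rw [(hasFDerivAt_F hu hv w).fderiv]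
  simp [F]

lemma fderiv_I {u v : ℝ → ℝ} (hu : Differentiable ℝ u) (hv : Differentiable ℝ v) (w : ℂ) :
    fderiv ℝ (F u v) w I = F (deriv u) v w := by
  rw [(hasFDerivAt_F hu hv w).fderiv]
  simp [F]
  ring

lemma lap_ce {u v : ℝ → ℝ} (hu : ContDiff ℝ (⊤ : ℕ∞) u) (hv : ContDiff ℝ (⊤ : ℕ∞) v) (z : ℍ) :
    lap (ce u v) z = -ce (fun y => y ^ 2 * iteratedDeriv 2 u y) v z -
      ce (fun y => y ^ 2 * u y) (iteratedDeriv 2 v) z := by
  have hz := z.im_pos
  have hu1 : Differentiable ℝ u := hu.differentiable (by simp)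
  have hv1 : Differentiable ℝ v := hv.differentiable (by simp)
  have hu2 : Differentiable ℝ (deriv u) :=
    ((contDiff_infty_iff_deriv.1 hu).2).differentiable (by simp)
  have hv2 : Differentiable ℝ (deriv v) :=
    ((contDiff_infty_iff_deriv.1 hv).2).differentiable (by simp)
  have e1 : (fun w => fderiv ℝ (ex (ce u v)) w 1) =ᶠ[𝓝 (z : ℂ)] F u (deriv v) := by
    refine Filter.eventually_of_mem (isOpen_up.mem_nhds (x := (z : ℂ)) hz) fun w hw => ?_
    show fderiv ℝ (ex (ce u v)) w 1 = F u (deriv v) w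
    rw [(ex_ev u v w hw).fderiv_eq, fderiv_one hu1 hv1]
  have e2 : (fun w => fderiv ℝ (ex (ce u v)) w I) =ᶠ[𝓝 (z : ℂ)] F (deriv u) v := by
    refine Filter.eventually_of_mem (isOpen_up.mem_nhds (x := (z : ℂ)) hz) fun w hw => ?_
    show fderiv ℝ (ex (ce u v)) w I = F (deriv u) v w
    rw [(ex_ev u v w hw).fderiv_eq, fderiv_I hu1 hv1]
  rw [lap, e1.fderiv_eq, e2.fderiv_eq, fderiv_one hu1 hv2, fderiv_I hu2 hv1]
  have i2 : ∀ f : ℝ → ℝ, iteratedDeriv 2 f = deriv (deriv f) := by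
    intro f
    rw [iteratedDeriv_succ, iteratedDeriv_one]
  rw [i2, i2, ce, ce, F, F]
  have h1 : (z : ℂ).re = z.re := rfl
  have h2 : (z : ℂ).im = z.im := rfl
  rw [h1, h2]
  push_cast
  ring

/-- the rectangle -/
def K (a b : ℝ) : Set ℍ := {z : ℍ | (-1 ≤ z.re ∧ z.re ≤ 1) ∧ a ≤ z.im ∧ z.im ≤ b}

lemma isCompact_K {a b : ℝ} (ha : 0 < a) : IsCompact (K a b) := by
  rw [isOpenEmbedding_coe.isInducing.isCompact_iff]
  have h1 : (fun z : ℍ => (z : ℂ)) '' (K a b) = Icc (-1) 1 ×ℂ Icc a b := by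
    ext w
    constructor
    · rintro ⟨z, ⟨⟨h1, h2⟩, h3, h4⟩, rfl⟩
      exact ⟨⟨h1, h2⟩, ⟨h3, h4⟩⟩
    · rintro ⟨⟨h1, h2⟩, ⟨h3, h4⟩⟩
      have hw : 0 < w.im := lt_of_lt_of_le ha h3
      refine ⟨⟨w, hw⟩, ⟨⟨h1, h2⟩, h3, h4⟩, rfl⟩
  have h2 : IsCompact (Icc (-1 : ℝ) 1 ×ℂ Icc a b) := isCompact_Icc.reProdIm isCompact_Icc
  rw [← h1] at h2
  exact h2

lemma ce_zero {u v : ℝ → ℝ} {a b : ℝ} (hu : ∀ y, y < a ∨ b < y → u y = 0)
    (hv : ∀ x, 1 < |x| → v x = 0) (z : ℍ) (hz : z ∉ K a b) : ce u v z = 0 := by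
  rw [ce]
  by_cases h1 : z.im < a ∨ b < z.im
  · rw [hu _ h1, zero_mul, Complex.ofReal_zero]
  · by_cases h2 : 1 < |z.re|
    · rw [hv _ h2, mul_zero, Complex.ofReal_zero]
    · exfalso
      apply hz
      rw [not_or, not_lt, not_lt] at h1
      rw [not_lt, abs_le] at h2
      exact ⟨h2, h1⟩

lemma ce_cont {u v : ℝ → ℝ} (hu : Continuous u) (hv : Continuous v) : Continuous (ce u v) :=
  Complex.continuous_ofReal.comp ((hu.comp UpperHalfPlane.continuous_im).mul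
    (hv.comp UpperHalfPlane.continuous_re))

lemma ce_BC {u v : ℝ → ℝ} {a b : ℝ} (ha : 0 < a) (hu : ∀ y, y < a ∨ b < y → u y = 0)
    (hv : ∀ x, 1 < |x| → v x = 0) (hu' : Continuous u) (hv' : Continuous v) :
    BC (ce u v) := by
  have hc := ce_cont hu' hv'
  refine ⟨hc.measurable, ?_, K a b, isCompact_K ha, ce_zero hu hv⟩
  obtain ⟨C, hC⟩ := (isCompact_K ha (b := b)).exists_bound_of_continuousOn hc.continuousOn
  refine ⟨max C 0, fun z => ?_⟩
  by_cases hz : z ∈ K a b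
  · exact (hC z hz).trans (le_max_left _ _)
  · rw [ce_zero hu hv z hz, norm_zero]
    exact le_max_right _ _

lemma iter_zero {v : ℝ → ℝ} (hv : ∀ x, 1 ≤ |x| → v x = 0) (n : ℕ) (x : ℝ) (hx : 1 < |x|) :
    iteratedDeriv n v x = 0 := by
  have h1 : v =ᶠ[𝓝 x] fun _ => 0 := by
    have : IsOpen {y : ℝ | 1 < |y|} := isOpen_lt continuous_const continuous_abs
    exact Filter.eventually_of_mem (this.mem_nhds hx) fun y hy => hv y (le_of_lt hy)
  rw [h1.iteratedDeriv_eq]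
  simp

lemma sum_iter {η : ℝ → ℝ} (hη : Eta η) (x₀ : ℝ) :
    ∑' n : ℤ, iteratedDeriv 2 η (x₀ + n) = 0 := by
  set N0 : Finset ℤ := Finset.Icc (-⌊x₀⌋ - 3) (-⌊x₀⌋ + 3) with hN0
  have hout : ∀ n : ℤ, n ∉ N0 → 2 < |x₀ + n| := by
    intro n hn
    rw [hN0, Finset.mem_Icc, not_and_or, not_le, not_le] at hn
    have f1 := Int.floor_le x₀
    have f2 := Int.lt_floor_add_one x₀
    rcases hn with h | h
    · have h' : n ≤ -⌊x₀⌋ - 4 := by omega
      have h2 : (n : ℝ) ≤ -⌊x₀⌋ - 4 := by exact_mod_cast h'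
      rw [lt_abs]
      right
      linarith
    · have h' : -⌊x₀⌋ + 4 ≤ n := by omega
      have h2 : -(⌊x₀⌋ : ℝ) + 4 ≤ n := by exact_mod_cast h'
      rw [lt_abs]
      left
      linarith
  have hηd : Differentiable ℝ η := hη.smooth.differentiable (by simp)
  have hηd2 : Differentiable ℝ (deriv η) :=
    ((contDiff_infty_iff_deriv.1 hη.smooth).2).differentiable (by simp)
  -- the finite sum
  have hH : (fun x : ℝ => ∑ n ∈ N0, η (x + n)) =ᶠ[𝓝 x₀] fun _ => 1 := by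
    filter_upwards [Metric.ball_mem_nhds x₀ one_pos] with x hx
    rw [Metric.mem_ball, Real.dist_eq] at hx
    rw [← hη.sum x]
    refine (tsum_eq_sum ?_).symm
    intro n hn
    apply hη.supp
    have h1 := hout n hn
    have h2 : |x₀ + n| ≤ |x + n| + |x - x₀| := by
      have : x₀ + n = (x + n) - (x - x₀) := by ring
      rw [this]
      exact abs_sub _ _
    linarith
  have hd1 : ∀ x : ℝ, HasDerivAt (fun x : ℝ => ∑ n ∈ N0, η (x + n))
      (∑ n ∈ N0, deriv η (x + n)) x := by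
    intro x
    refine HasDerivAt.fun_sum fun n _ => ?_
    exact HasDerivAt.comp_add_const x (n : ℝ) (hηd (x + n)).hasDerivAt
  have hd2 : ∀ x : ℝ, HasDerivAt (fun x : ℝ => ∑ n ∈ N0, deriv η (x + n))
      (∑ n ∈ N0, deriv (deriv η) (x + n)) x := by
    intro x
    refine HasDerivAt.fun_sum fun n _ => ?_
    exact HasDerivAt.comp_add_const x (n : ℝ) (hηd2 (x + n)).hasDerivAt
  have e1 : iteratedDeriv 2 (fun x : ℝ => ∑ n ∈ N0, η (x + n)) x₀ = 0 := by
    rw [hH.iteratedDeriv_eq]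
    simp [iteratedDeriv_const]
  have e2 : iteratedDeriv 2 (fun x : ℝ => ∑ n ∈ N0, η (x + n)) x₀ =
      ∑ n ∈ N0, iteratedDeriv 2 η (x₀ + n) := by
    rw [iteratedDeriv_succ, iteratedDeriv_one]
    have : deriv (fun x : ℝ => ∑ n ∈ N0, η (x + n)) = fun x => ∑ n ∈ N0, deriv η (x + n) := by
      funext x
      exact (hd1 x).deriv
    rw [this, (hd2 x₀).deriv]
    refine Finset.sum_congr rfl fun n _ => ?_
    rw [iteratedDeriv_succ, iteratedDeriv_one]
  rw [tsum_eq_sum (s := N0), ← e2, e1]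
  intro n hn
  have h1 := hout n hn
  exact iter_zero hη.supp 2 _ (by linarith)

end SCE_

open SCE_ in
/-- S-CE -/
theorem pCE : sCE := by
  intro χ η hχ hη
  obtain ⟨a, b, ha, hab⟩ := hχ.supp
  have hη0 : ∀ x, 1 < |x| → η x = 0 := fun x hx => hη.supp x hx.le
  refine ⟨⟨sm_ce hχ.smooth hη.smooth, ?_⟩, lap_ce hχ.smooth hη.smooth, sum_iter hη, ?_⟩
  · exact HasCompactSupport.intro (isCompact_K ha) (fun z hz => ce_zero hab hη0 z hz)
  · refine ce_BC ha (b := b) ?_ (fun x hx => iter_zero hη.supp 2 x hx) ?_ ?_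
    · intro y hy
      rw [hab y hy, mul_zero]
    · exact (continuous_pow 2).mul hχ.smooth.continuous
    · exact hη.smooth.continuous_iteratedDeriv 2 (WithTop.coe_le_coe.2 le_top)

end FMZ
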