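import Pool.Agent.FMZ.STargets

/-!
# FMZ, block S: continuity of the derivatives, and TH to BC
-/

open Complex MeasureTheory Set Filter Topology
open UpperHalfPlane hiding I

namespace FMZ
namespace SCM_

/-- the open upper half of the plane -/
def U : Set ℂ := {w : ℂ | 0 < w.im}

theorem isOpen_U : IsOpen U := isOpen_lt continuous_const Complex.continuous_im

theorem coe_mem (z : ℍ) : (z : ℂ) ∈ U := z.im_pos

theorem ex_coe (f : ℍ → ℂ) (z : ℍ) : ex f (z : ℂ) = f z := by
  simp only [ex, ofComplex_apply]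

theorem comp_coe {E : Type*} [TopologicalSpace E] {g : ℂ → E} (hg : ContinuousOn g U) :
    Continuous fun z : ℍ => g (z : ℂ) :=
  hg.comp_continuous UpperHalfPlane.continuous_coe coe_mem

theorem cd {g : ℂ → ℂ} (hg : ContDiffOn ℝ (⊤ : ℕ∞) g U) (v : ℂ) :
    ContDiffOn ℝ (⊤ : ℕ∞) (fun w => fderiv ℝ g w v) U := by
  have h := hg.fderiv_of_isOpen (m := (⊤ : ℕ∞)) isOpen_U (by simp)
  exact h.clm_apply contDiffOn_const

theorem imc : Continuous fun z : ℍ => (z.im : ℂ) :=
  Complex.continuous_ofReal.comp UpperHalfPlane.continuous_im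

theorem ev0 {P : ℍ → ℂ} {z : ℍ} (hz : z ∉ tsupport P) : ex P =ᶠ[𝓝 (z : ℂ)] fun _ => 0 := by
  have h1 : P =ᶠ[𝓝 z] 0 := notMem_tsupport_iff_eventuallyEq.1 hz
  have h2 := UpperHalfPlane.isOpenEmbedding_coe.map_nhds_eq z
  have h3 : ∀ᶠ w in Filter.map (fun z : ℍ => (z : ℂ)) (𝓝 z), ex P w = 0 := by
    rw [Filter.eventually_map]
    filter_upwards [h1] with y hy
    rw [ex_coe, hy]
    rfl
  rw [h2] at h3
  exact h3

theorem fd0 {g : ℂ → ℂ} {z : ℂ} (h : g =ᶠ[𝓝 z] fun _ => 0) (v : ℂ) :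
    (fun w => fderiv ℝ g w v) =ᶠ[𝓝 z] fun _ => 0 := by
  filter_upwards [h.fderiv (𝕜 := ℝ)] with w hw
  rw [hw]
  simp

end SCM_

open SCM_

/-- smooth functions are continuous, with their first derivatives and the Laplacian -/
theorem pCM : sCM := by
  intro f hf
  have hf' : ContDiffOn ℝ (⊤ : ℕ∞) (ex f) U := hf
  refine ⟨?_, ?_, ?_, ?_⟩
  · have h := comp_coe hf'.continuousOn
    refine h.congr fun z => ex_coe f z
  · exact imc.mul (comp_coe (cd hf' 1).continuousOn)
  · exact imc.mul (comp_coe (cd hf' Complex.I).continuousOn)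
  · exact (imc.pow 2).neg.mul ((comp_coe (cd (cd hf' 1) 1).continuousOn).add
      (comp_coe (cd (cd hf' Complex.I) Complex.I).continuousOn))

/-- test functions and their Laplacians are bounded with compact support -/
theorem pTBC : sTBC := by
  intro P hP
  obtain ⟨h1, -, -, h4⟩ := pCM P hP.sm
  have hz : ∀ z, z ∉ tsupport P → lap P z = 0 := by
    intro z hz
    have e := ev0 hz
    have a1 := (fd0 (fd0 e 1) 1).eq_of_nhds
    have a2 := (fd0 (fd0 e Complex.I) Complex.I).eq_of_nhds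
    rw [lap, a1, a2]
    simp
  have hlc : HasCompactSupport (lap P) := by
    refine HasCompactSupport.intro hP.cpt hz
  refine ⟨⟨h1.measurable, ?_, tsupport P, hP.cpt, fun z hz => image_eq_zero_of_notMem_tsupport hz⟩,
    ⟨h4.measurable, ?_, tsupport P, hP.cpt, hz⟩, ?_, ?_⟩
  · exact h1.bounded_above_of_compact_support hP.cpt
  · exact h4.bounded_above_of_compact_support hlc
  · have : ex (fun z => (starRingEnd ℂ) (P z)) = fun w => Complex.conjCLE (ex P w) := by
      funext w
      simp [ex]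
    show ContDiffOn ℝ (⊤ : ℕ∞) _ _
    rw [this]
    exact Complex.conjCLE.contDiff.comp_contDiffOn hP.sm
  · exact hP.cpt.comp_left (g := starRingEnd ℂ) (map_zero _)

end FMZ
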