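import Pool.Agent.FMZ.STargets

/-!
# FMZ, S-CNT: almost every orbit meets the open fundamental domain, for exactly two elements
-/

open Complex MeasureTheory Set Filter Topology
open UpperHalfPlane hiding I
open scoped ENNReal

namespace FMZ

namespace SCNT_

instance countableSG : Countable SG :=
  Function.Injective.countable (f := fun (g : SG) (i j : Fin 2) =>
      (g : Matrix (Fin 2) (Fin 2) ℤ) i j) (by
    intro g h hgh
    ext i j
    exact congrFun (congrFun hgh i) j)

lemma smul_eq (g : SG) (z : ℍ) : g • z = (Matrix.SpecialLinearGroup.mapGL ℝ g) • z := rfl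

/-- the action of the modular group preserves the measure -/
lemma vol_preimage (g : SG) (s : Set ℍ) :
    (volume : Measure ℍ) ((fun z : ℍ => g • z) ⁻¹' s) = volume s :=
  measure_preimage_smul (volume : Measure ℍ) (Matrix.SpecialLinearGroup.mapGL ℝ g) s

/-- sets with null image in ℂ are null -/
lemma null_of_coe {s : Set ℍ} {t : Set ℂ} (h : ∀ z ∈ s, (z : ℂ) ∈ t)
    (ht : (volume : Measure ℂ) t = 0) : (volume : Measure ℍ) s = 0 := by
  rw [volume_eq_lintegral]
  refine setLIntegral_measure_zero _ _ (measure_mono_null ?_ ht)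
  rintro _ ⟨z, hz, rfl⟩
  exact h z hz

/-- vertical lines are null -/
lemma null_re (c : ℝ) : (volume : Measure ℂ) {z : ℂ | z.re = c} = 0 := by
  have h1 : {z : ℂ | z.re = c} = Complex.measurableEquivRealProd ⁻¹' ({c} ×ˢ univ) := by
    ext z
    simp [Complex.measurableEquivRealProd_apply]
  rw [h1, Complex.volume_preserving_equiv_real_prod.measure_preimage_equiv,
    Measure.volume_eq_prod, Measure.prod_prod]
  simp

/-- the boundary of the fundamental domain is null -/
lemma null_bdry : (volume : Measure ℍ) (ModularGroup.fd \ ModularGroup.fdo) = 0 := by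
  refine null_of_coe (t := {z : ℂ | z.re = 1 / 2} ∪ {z : ℂ | z.re = -(1 / 2)} ∪
    Metric.sphere 0 1) ?_ ?_
  · rintro z ⟨hz, hz'⟩
    by_contra hcon
    rw [mem_union, mem_union, not_or, not_or, mem_ofPred_eq, mem_ofPred_eq,
      mem_sphere_zero_iff_norm] at hcon
    obtain ⟨⟨h1, h2⟩, h3⟩ := hcon
    apply hz'
    obtain ⟨h4, h5⟩ := hz
    have h6 : (z : ℂ).re = z.re := rfl
    rw [h6] at h1 h2
    refine ⟨lt_of_le_of_ne h4 ?_, lt_of_le_of_ne h5 ?_⟩
    · intro h
      apply h3
      rw [Complex.normSq_eq_norm_sq] at h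
      nlinarith [norm_nonneg (z : ℂ)]
    · intro h
      rcases (abs_eq (by norm_num : (0 : ℝ) ≤ 1 / 2)).1 h with h | h
      · exact h1 h
      · exact h2 h
  · rw [measure_union_null_iff, measure_union_null_iff]
    exact ⟨⟨null_re _, null_re _⟩, Measure.addHaar_sphere _ _ _⟩

lemma neg_ne (g : SG) : g ≠ -g := by
  intro h
  have h1 := congrArg (fun m : SG => (m : Matrix (Fin 2) (Fin 2) ℤ)) h
  have h2 : (g : Matrix (Fin 2) (Fin 2) ℤ) = 0 := by
    ext i j
    have h3 : (g : Matrix (Fin 2) (Fin 2) ℤ) i j = -(g : Matrix (Fin 2) (Fin 2) ℤ) i j := by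
      conv_lhs => rw [h]
      rfl
    have h4 : (0 : Matrix (Fin 2) (Fin 2) ℤ) i j = 0 := rfl
    rw [h4]
    omega
  have h5 := g.det_coe
  rw [h2] at h5
  simp at h5

end SCNT_

open SCNT_ in
/-- S-CNT -/
theorem pCNT : sCNT := by
  have hbad : ∀ᵐ z : ℍ, ∀ g : SG, g • z ∉ ModularGroup.fd \ ModularGroup.fdo := by
    rw [ae_all_iff]
    intro g
    have h1 : (volume : Measure ℍ) ((fun z : ℍ => g • z) ⁻¹'
        (ModularGroup.fd \ ModularGroup.fdo)) = 0 := by
      rw [vol_preimage, null_bdry]
    rw [ae_iff]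
    have h2 : {a : ℍ | ¬g • a ∉ ModularGroup.fd \ ModularGroup.fdo} =
        (fun z : ℍ => g • z) ⁻¹' (ModularGroup.fd \ ModularGroup.fdo) := by
      ext a
      simp only [mem_ofPred_eq, not_not, mem_preimage]
    rw [h2]
    exact h1
  filter_upwards [hbad] with z hz
  obtain ⟨g0, hg0⟩ := ModularGroup.exists_smul_mem_fd z
  have hw : g0 • z ∈ ModularGroup.fdo := by
    by_contra h
    exact hz g0 ⟨hg0, h⟩
  have hiff : ∀ g : SG, g • z ∈ Dm ↔ g = g0 ∨ g = -g0 := by
    intro g
    constructor
    · intro hg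
      have h1 : (g * g0⁻¹) • (g0 • z) ∈ ModularGroup.fdo := by
        rw [smul_smul, inv_mul_cancel_right]
        exact hg
      rcases ModularGroup.eq_one_or_neg_one_of_mem_fdo_mem_fdo hw h1 with h | h
      · left
        exact mul_inv_eq_one.1 h
      · right
        rw [mul_inv_eq_iff_eq_mul] at h
        rw [h, neg_one_mul]
    · rintro (h | h)
      · rw [h]
        exact hw
      · rw [h, ModularGroup.SL_neg_smul]
        exact hw
  rw [tsum_eq_sum (s := {g0, -g0}), Finset.sum_pair (neg_ne g0)]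
  · rw [indicator_of_mem ((hiff g0).2 (Or.inl rfl)), indicator_of_mem ((hiff _).2 (Or.inr rfl))]
    exact one_add_one_eq_two
  · intro g hg
    rw [Finset.mem_insert, Finset.mem_singleton] at hg
    exact indicator_of_notMem (fun h => hg ((hiff g).1 h)) _

end FMZ
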