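import Pool.Agent.FMZ.STargets
import Pool.Agent.FMZ.TRSP

/-!
# FMZ, S-CONE: the functionals ℓ_X of a weak eigenfunction
-/

open Complex MeasureTheory Set Filter Topology
open UpperHalfPlane hiding I
open scoped ENNReal

namespace FMZ

namespace SCONE_

/-- integrability of the pairing -/
theorem int_mul (h5 : sPBD) (h7 : sVOL) {u : ℍ → ℂ} (hu : MemLp u 2 muD) {B : ℍ → ℂ}
    (hB : BC B) : Integrable (fun z => u z * Poi B z) muD := by
  obtain ⟨_, hm, _, ⟨C, hC⟩, _⟩ := h5 B hB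
  have hfin : IsFiniteMeasure muD := by
    refine ⟨?_⟩
    rw [muD, Measure.restrict_apply_univ]
    exact h7.1
  have hui : Integrable u muD := hu.integrable (by norm_num)
  refine hui.mul_bdd (c := C) hm.aestronglyMeasurable ?_
  have := ae_restrict_mem (μ := (volume : Measure ℍ)) h7.2.1
  filter_upwards [this] with z hz
  exact hC z hz

theorem lam_sub (h5 : sPBD) (h7 : sVOL) {u : ℍ → ℂ} (hu : MemLp u 2 muD) {A B : ℍ → ℂ}
    (hA : BC A) (hB : BC B) (c : ℂ) :
    Lam (fun z => A z - c * B z) u = Lam A u - c * Lam B u := by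
  have hP : ∀ z, Poi (fun z => A z - c * B z) z = Poi A z - c * Poi B z := by
    intro z
    have hAf := (h5 A hA).1 z
    have hBf := (h5 B hB).1 z
    have hAs : Summable (fun g : SG => A (g • z)) := summable_of_hasFiniteSupport hAf
    have hBs : Summable (fun g : SG => B (g • z)) := summable_of_hasFiniteSupport hBf
    rw [Poi, Poi, Poi, ← tsum_mul_left, ← (hAs.tsum_sub (hBs.mul_left c))]
  unfold Lam
  have h1 : ∀ z, u z * Poi (fun z => A z - c * B z) z = u z * Poi A z - c * (u z * Poi B z) := by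
    intro z
    rw [hP]; ring
  simp_rw [h1]
  rw [integral_sub (int_mul h5 h7 hu hA) ((int_mul h5 h7 hu hB).const_mul c),
    integral_const_mul]
  ring

/-- X / (1 + t²) -/
theorem tst_div {X : ℝ → ℝ} (hX : Tst X) : Tst (fun t => X t / (1 + t ^ 2)) := by
  refine ⟨?_, ?_, ?_⟩
  · refine hX.smooth.div (by fun_prop) ?_
    intro x
    positivity
  · have : (fun t : ℝ => X t / (1 + t ^ 2)) = fun t => X t * (1 + t ^ 2)⁻¹ := by
      funext t; rw [div_eq_mul_inv]
    rw [this]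
    exact hX.cpt.mul_right
  · intro t
    rw [hX.even, neg_sq]

theorem even_iter {Z : ℝ → ℝ} (h : ∀ x, Z (-x) = Z x) (x : ℝ) :
    iteratedDeriv 2 Z (-x) = iteratedDeriv 2 Z x := by
  have e : (fun y => Z (-y)) = Z := funext h
  have h3 := iteratedDeriv_comp_neg 2 Z x
  rw [e] at h3
  rw [h3]
  simp

theorem zero_iter {Z : ℝ → ℝ} (hs : ContDiff ℝ (⊤ : ℕ∞) Z) (h : ∀ x, 2 ≤ |x| → Z x = 0) (x : ℝ)
    (hx : 2 ≤ |x|) : iteratedDeriv 2 Z x = 0 := by
  have hc : Continuous (iteratedDeriv 2 Z) := hs.continuous_iteratedDeriv 2 (by norm_cast)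
  have h1 : ∀ y, y ∈ {y : ℝ | 2 < |y|} → iteratedDeriv 2 Z y = 0 := by
    intro y hy
    have ho : IsOpen {y : ℝ | 2 < |y|} := isOpen_lt continuous_const continuous_abs
    have he : Z =ᶠ[𝓝 y] fun _ => (0 : ℝ) := by
      filter_upwards [ho.mem_nhds hy] with w hw
      exact h w (le_of_lt hw)
    rw [he.iteratedDeriv_eq]
    simp
  have h2 : x ∈ closure {y : ℝ | 2 < |y|} := by
    rw [mem_closure_iff_seq_limit]
    refine ⟨fun n : ℕ => x * (1 + 1 / ((n : ℝ) + 1)), ?_, ?_⟩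
    · intro n
      show 2 < |x * (1 + 1 / ((n : ℝ) + 1))|
      have hp : 0 < 1 / ((n : ℝ) + 1) := by positivity
      rw [abs_mul, abs_of_pos (by linarith : 0 < 1 + 1 / ((n : ℝ) + 1))]
      nlinarith
    · have := tendsto_one_div_add_atTop_nhds_zero_nat (𝕜 := ℝ)
      have h3 := (tendsto_const_nhds (x := (1 : ℝ))).add this
      have h4 := h3.const_mul x
      simpa using h4
  have h5 : IsClosed {y : ℝ | iteratedDeriv 2 Z y = 0} := isClosed_eq hc continuous_const
  exact closure_minimal h1 h5 h2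

end SCONE_

open SCONE_

theorem pSCONE (h1 : sLX2) (h2 : sLX3) (h3 : sXW) (h4 : sETA) (h5 : sPBD) (h6 : sTBC)
    (h7 : sVOL) : sCONE := by
  intro u l hu hz hint hw X hX
  obtain ⟨Z, hZ⟩ := h4.2
  have hDX : Tst (DX X) := TRSP_.dx_tst hX
  have hXd := tst_div hX
  have hZs : ContDiff ℝ (⊤ : ℕ∞) (iteratedDeriv 2 Z) := by
    rw [iteratedDeriv_eq_iterate]
    simp only [Function.iterate_succ, Function.iterate_zero, Function.comp, id]
    exact (contDiff_infty_iff_deriv.1 (contDiff_infty_iff_deriv.1 hZ.smooth).2).2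
  have hZe := even_iter hZ.even
  have hZz := zero_iter hZ.smooth hZ.zero
  have l1 := h1 X Z u hX hZ hu hz hint
  have l2 := h1 (DX X) Z u hDX hZ hu hz hint
  obtain ⟨C, hC⟩ := h2 _ _ u hXd hZs hZe hZz hu hint
  have key : ∀ n : ℕ, 1 ≤ n → l * Lam (XW X Z n) u = Lam (XW (DX X) Z n) u -
      1 / (n : ℂ) ^ 2 * Lam (XW (fun t => X t / (1 + t ^ 2)) (iteratedDeriv 2 Z) n) u := by
    intro n hn
    obtain ⟨hP, hl⟩ := h3 X Z n hX hZ.smooth hZ.zero hn
    have e : lap (XW X Z n) = fun z => XW (DX X) Z n z -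
        1 / (n : ℂ) ^ 2 * XW (fun t => X t / (1 + t ^ 2)) (iteratedDeriv 2 Z) n z := funext hl
    have hA := (h6 _ (h3 (DX X) Z n hDX hZ.smooth hZ.zero hn).1).1
    have hB := (h6 _ (h3 _ _ n hXd hZs hZz hn).1).1
    rw [← hw _ hP, e, lam_sub h5 h7 hu hA hB]
  have hlim0 : Tendsto (fun n : ℕ => 1 / (n : ℂ) ^ 2 *
      Lam (XW (fun t => X t / (1 + t ^ 2)) (iteratedDeriv 2 Z) n) u) atTop (𝓝 0) := by
    have hsq : Tendsto (fun n : ℕ => C * (1 / (n : ℝ) ^ 2)) atTop (𝓝 0) := by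
      have h8 : Tendsto (fun n : ℕ => 1 / (n : ℝ) ^ 2) atTop (𝓝 0) := by
        have h9 := (tendsto_one_div_atTop_nhds_zero_nat (𝕜 := ℝ)).pow 2
        simpa [one_div, inv_pow] using h9
      simpa using h8.const_mul C
    refine squeeze_zero_norm' ?_ hsq
    filter_upwards [eventually_ge_atTop 1] with n hn
    rw [norm_mul, mul_comm]
    have h8 := hC n hn
    have h9 : ‖1 / (n : ℂ) ^ 2‖ = 1 / (n : ℝ) ^ 2 := by simp
    rw [h9]
    gcongr
  have hlim : Tendsto (fun n : ℕ => Lam (XW (DX X) Z n) u -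
      1 / (n : ℂ) ^ 2 * Lam (XW (fun t => X t / (1 + t ^ 2)) (iteratedDeriv 2 Z) n) u) atTop
      (𝓝 (lX (DX X) u - 0)) := l2.sub hlim0
  rw [sub_zero] at hlim
  have hlim' : Tendsto (fun n : ℕ => l * Lam (XW X Z n) u) atTop (𝓝 (l * lX X u)) :=
    l1.const_mul l
  refine tendsto_nhds_unique (hlim.congr' ?_) hlim'
  filter_upwards [eventually_ge_atTop 1] with n hn
  rw [key n hn]

end FMZ
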