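import Pool.Agent.FMZ.STargets

/-!
# FMZ, block S: partitions of unity and cutoff functions
-/

open Complex MeasureTheory Set Filter Topology
open scoped ContDiff

namespace FMZ
namespace SETA_

/-- the bump: centre 0, rIn = 1/2, rOut = 1 -/
noncomputable def bump : ContDiffBump (0 : ℝ) where
  rIn := 1 / 2
  rOut := 1
  rIn_pos := by norm_num
  rIn_lt_rOut := by norm_num

/-- sum over the translations -/
noncomputable def Sg (x : ℝ) : ℝ := ∑' n : ℤ, bump (x + n)

theorem bump_zero {x : ℝ} (hx : 1 ≤ |x|) : bump x = 0 := by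
  apply bump.zero_of_le_dist
  simpa [bump, Real.dist_eq] using hx

theorem supp_finite (x : ℝ) : (Function.support fun n : ℤ => bump (x + n)).Finite := by
  apply Set.Finite.subset (Set.finite_Icc (⌊-x - 1⌋) (⌈-x + 1⌉))
  intro n hn
  by_contra hcon
  apply hn
  apply bump_zero
  simp only [mem_Icc, not_and_or, not_le] at hcon
  rcases hcon with h | h
  · have h1 : (n : ℝ) + 1 ≤ ⌊-x - 1⌋ := by exact_mod_cast h
    have h2 : (⌊-x - 1⌋ : ℝ) ≤ -x - 1 := Int.floor_le _
    rw [abs_of_neg (by linarith)]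
    linarith
  · have h1 : (⌈-x + 1⌉ : ℝ) + 1 ≤ n := by exact_mod_cast h
    have h2 : -x + 1 ≤ (⌈-x + 1⌉ : ℝ) := Int.le_ceil _
    rw [abs_of_pos (by linarith)]
    linarith

theorem summ (x : ℝ) : Summable fun n : ℤ => bump (x + n) :=
  summable_of_hasFiniteSupport (supp_finite x)

theorem Sg_pos (x : ℝ) : 0 < Sg x := by
  apply (summ x).tsum_pos (fun n => bump.nonneg) (-round x)
  apply bump.pos_of_mem_ball
  simp only [Metric.mem_ball, bump, dist_zero_right, Real.norm_eq_abs]
  have := abs_sub_round x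
  push_cast
  have e : x + -(round x : ℝ) = x - round x := by ring
  rw [e]
  linarith

theorem Sg_shift (x : ℝ) (m : ℤ) : Sg (x + m) = Sg x := by
  unfold Sg
  rw [← (Equiv.addLeft m).tsum_eq (fun n : ℤ => bump (x + n))]
  congr 1
  ext n
  simp only [Equiv.coe_addLeft]
  push_cast
  congr 1
  ring

theorem Sg_smooth : ContDiff ℝ ∞ Sg := by
  rw [contDiff_iff_contDiffAt]
  intro x₀
  -- near x₀ finite sum
  set s : Finset ℤ := Finset.Icc (⌊-x₀ - 3⌋) (⌈-x₀ + 3⌉) with hs
  have hev : Sg =ᶠ[𝓝 x₀] fun x => ∑ n ∈ s, bump (x + n) := by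
    filter_upwards [Metric.ball_mem_nhds x₀ one_pos] with x hx
    unfold Sg
    apply tsum_eq_sum
    intro n hn
    apply bump_zero
    rw [Metric.mem_ball, Real.dist_eq, abs_lt] at hx
    simp only [hs, Finset.mem_Icc, not_and_or, not_le] at hn
    rcases hn with h | h
    · have h1 : (n : ℝ) + 1 ≤ ⌊-x₀ - 3⌋ := by exact_mod_cast h
      have h2 : (⌊-x₀ - 3⌋ : ℝ) ≤ -x₀ - 3 := Int.floor_le _
      rw [abs_of_neg (by linarith)]
      linarith
    · have h1 : (⌈-x₀ + 3⌉ : ℝ) + 1 ≤ n := by exact_mod_cast h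
      have h2 : -x₀ + 3 ≤ (⌈-x₀ + 3⌉ : ℝ) := Int.le_ceil _
      rw [abs_of_pos (by linarith)]
      linarith
  refine ContDiffAt.congr_of_eventuallyEq ?_ hev
  apply ContDiffAt.sum
  intro n _
  exact (bump.contDiff.comp (contDiff_id.add contDiff_const)).contDiffAt

/-- the partition of unity -/
noncomputable def eta (x : ℝ) : ℝ := bump x / Sg x

theorem eta_spec : Eta eta where
  smooth := by
    apply ContDiff.div (bump.contDiff) Sg_smooth
    intro x
    exact (Sg_pos x).ne'
  supp := by
    intro x hx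
    unfold eta
    rw [bump_zero hx, zero_div]
  sum := by
    intro x
    have : (fun n : ℤ => eta (x + n)) = fun n : ℤ => bump (x + n) / Sg x := by
      ext n
      unfold eta
      rw [Sg_shift]
    rw [this, tsum_div_const]
    exact div_self (Sg_pos x).ne'

/-- the cutoff bump -/
noncomputable def bump2 : ContDiffBump (0 : ℝ) where
  rIn := 1
  rOut := 2
  rIn_pos := by norm_num
  rIn_lt_rOut := by norm_num

theorem cut_spec : Cut bump2 where
  smooth := bump2.contDiff
  even := fun x => bump2.neg x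
  one := by
    intro x hx
    apply bump2.one_of_mem_closedBall
    simpa [bump2] using hx
  zero := by
    intro x hx
    apply bump2.zero_of_le_dist
    simpa [bump2, Real.dist_eq] using hx
  rng := fun x => ⟨bump2.nonneg, bump2.le_one⟩

end SETA_

theorem pETA : sETA := ⟨⟨SETA_.eta, SETA_.eta_spec⟩, ⟨SETA_.bump2, SETA_.cut_spec⟩⟩

end FMZ
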