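import Pool.Agent.FMZ.STargets

/-!
# FMZ, S-EUL: the Euler equation, weakly
-/

open Complex MeasureTheory Set Filter Topology
open UpperHalfPlane hiding I
open scoped ENNReal InnerProductSpace

namespace FMZ

namespace SEUL_

/-- smooth, zero for small `y`, constant for large `y` -/
structure St (u : ℝ → ℝ) (c : ℝ) : Prop where
  smooth : ContDiff ℝ (⊤ : ℕ∞) u
  supp : ∃ a b : ℝ, 0 < a ∧ (∀ y, y < a → u y = 0) ∧ ∀ y, b < y → u y = c

lemma chi_supp {χ : ℝ → ℝ} (h : Chi χ) :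
    ∃ a b : ℝ, 0 < a ∧ a ≤ b ∧ (∀ y, y < a → χ y = 0) ∧ ∀ y, b < y → χ y = 0 := by
  obtain ⟨a, b, ha, hab⟩ := h.supp
  exact ⟨a, max a b, ha, le_max_left _ _, fun y hy => hab y (Or.inl hy),
    fun y hy => hab y (Or.inr (lt_of_le_of_lt (le_max_right _ _) hy))⟩

lemma chi_mul {g χ : ℝ → ℝ} (hg : ContDiffOn ℝ (⊤ : ℕ∞) g (Ioi 0)) (h : Chi χ) :
    Chi (fun y => g y * χ y) := by
  obtain ⟨a, b, ha, hab, h1, h2⟩ := chi_supp h
  refine ⟨?_, a, b, ha, ?_⟩
  · rw [contDiff_iff_contDiffAt]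
    intro x
    by_cases hx : x < a
    · have : (fun y => g y * χ y) =ᶠ[𝓝 x] fun _ => (0 : ℝ) := by
        filter_upwards [Iio_mem_nhds hx] with y hy
        rw [h1 y hy, mul_zero]
      exact contDiffAt_const.congr_of_eventuallyEq this
    · have hx0 : 0 < x := lt_of_lt_of_le ha (not_lt.mp hx)
      exact (hg.contDiffAt (Ioi_mem_nhds hx0)).mul h.smooth.contDiffAt
  · rintro y (hy | hy)
    · simp [h1 y hy]
    · simp [h2 y hy]

lemma chi_add {χ₁ χ₂ : ℝ → ℝ} (h1 : Chi χ₁) (h2 : Chi χ₂) : Chi (fun y => χ₁ y + χ₂ y) := by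
  obtain ⟨a, b, ha, hab, h3, h4⟩ := chi_supp h1
  obtain ⟨a', b', ha', hab', h3', h4'⟩ := chi_supp h2
  refine ⟨h1.smooth.add h2.smooth, min a a', max b b', lt_min ha ha', ?_⟩
  rintro y (hy | hy)
  · rw [h3 y (lt_of_lt_of_le hy (min_le_left _ _)), h3' y (lt_of_lt_of_le hy (min_le_right _ _)),
      add_zero]
  · rw [h4 y (lt_of_le_of_lt (le_max_left _ _) hy), h4' y (lt_of_le_of_lt (le_max_right _ _) hy),
      add_zero]

lemma chi_smul {χ : ℝ → ℝ} (c : ℝ) (h : Chi χ) : Chi (fun y => c * χ y) :=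
  chi_mul (contDiffOn_const) h

lemma chi_bdd {χ : ℝ → ℝ} (h : Chi χ) : ∃ M : ℝ, 0 ≤ M ∧ ∀ y, |χ y| ≤ M := by
  obtain ⟨a, b, ha, hab, h1, h2⟩ := chi_supp h
  obtain ⟨M, hM⟩ := (isCompact_Icc (a := a) (b := b)).exists_bound_of_continuousOn
    h.smooth.continuous.continuousOn
  refine ⟨max M 0, le_max_right _ _, fun y => ?_⟩
  by_cases h3 : y < a
  · simp [h1 y h3]
  by_cases h4 : b < y
  · simp [h2 y h4]
  · exact (hM y ⟨not_lt.mp h3, not_lt.mp h4⟩).trans (le_max_left _ _)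

lemma chi_deriv {u : ℝ → ℝ} {c : ℝ} (h : St u c) : Chi (deriv u) := by
  obtain ⟨a, b, ha, h1, h2⟩ := h.supp
  refine ⟨(contDiff_infty_iff_deriv.mp h.smooth).2, a, b, ha, ?_⟩
  rintro y (hy | hy)
  · have : u =ᶠ[𝓝 y] fun _ => (0 : ℝ) := by
      filter_upwards [Iio_mem_nhds hy] with z hz using h1 z hz
    rw [this.deriv_eq, deriv_const]
  · have : u =ᶠ[𝓝 y] fun _ => c := by
      filter_upwards [Ioi_mem_nhds hy] with z hz using h2 z hz
    rw [this.deriv_eq, deriv_const]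

lemma chi_st {χ : ℝ → ℝ} (h : Chi χ) : St χ 0 := by
  obtain ⟨a, b, ha, hab, h1, h2⟩ := chi_supp h
  exact ⟨h.smooth, a, b, ha, h1, h2⟩

lemma st_chi {u : ℝ → ℝ} (h : St u 0) : Chi u := by
  obtain ⟨a, b, ha, h1, h2⟩ := h.supp
  refine ⟨h.smooth, a, b, ha, ?_⟩
  rintro y (hy | hy)
  · exact h1 y hy
  · exact h2 y hy

/-- the first operator -/
noncomputable def L1 (u : ℝ → ℝ) (y : ℝ) : ℝ := 4 * y⁻¹ * deriv u y - deriv (deriv u) y

/-- the second operator -/
noncomputable def L2 (u : ℝ → ℝ) (y : ℝ) : ℝ := 6 * y ^ 4 * deriv u y + y ^ 5 * deriv (deriv u) y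

lemma contDiffOn_inv_Ioi : ContDiffOn ℝ (⊤ : ℕ∞) (fun y : ℝ => y⁻¹) (Ioi 0) :=
  contDiffOn_id.inv fun _ hx => (ne_of_gt hx)

lemma chi_L1 {u : ℝ → ℝ} {c : ℝ} (h : St u c) : Chi (L1 u) := by
  have h1 := chi_deriv h
  have h2 := chi_deriv (chi_st h1)
  have h3 : Chi (fun y => 4 * y⁻¹ * deriv u y) :=
    chi_mul (contDiffOn_const.mul contDiffOn_inv_Ioi) h1
  have h4 := chi_add h3 (chi_smul (-1) h2)
  convert h4 using 2
  unfold L1
  ring

lemma chi_L2 {u : ℝ → ℝ} {c : ℝ} (h : St u c) : Chi (L2 u) := by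
  have h1 := chi_deriv h
  have h2 := chi_deriv (chi_st h1)
  have h3 : Chi (fun y => (6 * y ^ 4) * deriv u y) :=
    chi_mul (by fun_prop) h1
  have h4 : Chi (fun y => y ^ 5 * deriv (deriv u) y) :=
    chi_mul (by fun_prop) h2
  exact chi_add h3 h4

/-- the Euler operator -/
noncomputable def Eu (w : ℝ → ℝ) (y : ℝ) : ℝ := -(y ^ 2 * iteratedDeriv 2 w y) + 6 * w y

lemma iter2 (w : ℝ → ℝ) (y : ℝ) : iteratedDeriv 2 w y = deriv (deriv w) y := by
  rw [iteratedDeriv_succ, iteratedDeriv_one]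

lemma eu_zero {w : ℝ → ℝ} {a : ℝ} (h : ∀ y, y < a → w y = 0) {y : ℝ} (hy : y < a) :
    Eu w y = 0 := by
  have h1 : w =ᶠ[𝓝 y] fun _ => (0 : ℝ) := by
    filter_upwards [Iio_mem_nhds hy] with z hz using h z hz
  have h2 : deriv w =ᶠ[𝓝 y] fun _ => (0 : ℝ) := by
    have := h1.deriv
    simpa using this
  unfold Eu
  rw [iter2, h2.deriv_eq, h y hy, deriv_const]
  ring

lemma has1 {u : ℝ → ℝ} (hu : ContDiff ℝ (⊤ : ℕ∞) u) (y : ℝ) : HasDerivAt u (deriv u y) y :=
  ((contDiff_infty_iff_deriv.mp hu).1 y).hasDerivAt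

lemma eu_one {u : ℝ → ℝ} (h : Chi u) : Eu (fun y => (y ^ 2)⁻¹ * u y) = L1 u := by
  obtain ⟨a, b, ha, hab, h1, h2⟩ := chi_supp h
  have h' := chi_deriv (chi_st h)
  funext y
  by_cases hy : y < a
  · rw [eu_zero (a := a) (fun z hz => by rw [h1 z hz, mul_zero]) hy]
    obtain hL : L1 u y = 0 := by
      have e1 : u =ᶠ[𝓝 y] fun _ => (0 : ℝ) := by
        filter_upwards [Iio_mem_nhds hy] with z hz using h1 z hz
      have e2 : deriv u =ᶠ[𝓝 y] fun _ => (0 : ℝ) := by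
        have := e1.deriv
        simpa using this
      unfold L1
      rw [e2.deriv_eq, e2.eq_of_nhds, deriv_const]
      ring
    rw [hL]
  · have hy0 : 0 < y := lt_of_lt_of_le ha (not_lt.mp hy)
    have d1 : ∀ z : ℝ, 0 < z → HasDerivAt (fun y => (y ^ 2)⁻¹ * u y)
        (-(2 * (z ^ 3)⁻¹) * u z + (z ^ 2)⁻¹ * deriv u z) z := by
      intro z hz
      have e1 : HasDerivAt (fun y : ℝ => (y ^ 2)⁻¹) (-(2 * (z ^ 3)⁻¹)) z := by
        have := (hasDerivAt_pow 2 z).inv (by positivity)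
        refine this.congr_deriv ?_
        field_simp
        norm_num
        ring
      exact e1.mul (has1 h.smooth z)
    have d2 : HasDerivAt (fun z => -(2 * (z ^ 3)⁻¹) * u z + (z ^ 2)⁻¹ * deriv u z)
        ((6 * (y ^ 4)⁻¹) * u y + -(2 * (y ^ 3)⁻¹) * deriv u y +
          (-(2 * (y ^ 3)⁻¹) * deriv u y + (y ^ 2)⁻¹ * deriv (deriv u) y)) y := by
      have e1 : HasDerivAt (fun y : ℝ => (y ^ 2)⁻¹) (-(2 * (y ^ 3)⁻¹)) y := by
        have := (hasDerivAt_pow 2 y).inv (by positivity)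
        refine this.congr_deriv ?_
        field_simp
        norm_num
        ring
      have e2 : HasDerivAt (fun y : ℝ => -(2 * (y ^ 3)⁻¹)) (6 * (y ^ 4)⁻¹) y := by
        have := (((hasDerivAt_pow 3 y).inv (by positivity)).const_mul 2).neg
        refine this.congr_deriv ?_
        field_simp
        norm_num
        ring
      exact (e2.mul (has1 h.smooth y)).add (e1.mul (has1 h'.smooth y))
    have e3 : deriv (fun y => (y ^ 2)⁻¹ * u y) =ᶠ[𝓝 y]
        fun z => -(2 * (z ^ 3)⁻¹) * u z + (z ^ 2)⁻¹ * deriv u z := by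
      filter_upwards [Ioi_mem_nhds hy0] with z hz using (d1 z hz).deriv
    unfold Eu L1
    rw [iter2, e3.deriv_eq, d2.deriv]
    field_simp
    ring

lemma eu_two {u : ℝ → ℝ} (h : Chi u) (y : ℝ) : Eu (fun y => y ^ 3 * u y) y = -L2 u y := by
  have h' := chi_deriv (chi_st h)
  have d1 : ∀ z : ℝ, HasDerivAt (fun y => y ^ 3 * u y)
      (3 * z ^ 2 * u z + z ^ 3 * deriv u z) z := by
    intro z
    exact (by simpa using hasDerivAt_pow 3 z : HasDerivAt (fun y : ℝ => y ^ 3) (3 * z ^ 2) z).mul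
      (has1 h.smooth z)
  have d2 : HasDerivAt (fun z => 3 * z ^ 2 * u z + z ^ 3 * deriv u z)
      (6 * y * u y + 3 * y ^ 2 * deriv u y +
        (3 * y ^ 2 * deriv u y + y ^ 3 * deriv (deriv u) y)) y := by
    have e1 : HasDerivAt (fun y : ℝ => y ^ 3) (3 * y ^ 2) y := by
      simpa using hasDerivAt_pow 3 y
    have e2 : HasDerivAt (fun y : ℝ => 3 * y ^ 2) (6 * y) y := by
      have := (hasDerivAt_pow 2 y).const_mul 3
      refine this.congr_deriv ?_
      norm_num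
      ring
    exact (e2.mul (has1 h.smooth y)).add (e1.mul (has1 h'.smooth y))
  have e3 : deriv (fun y => y ^ 3 * u y) =
      fun z => 3 * z ^ 2 * u z + z ^ 3 * deriv u z := funext fun z => (d1 z).deriv
  unfold Eu L2
  rw [iter2, e3, d2.deriv]
  ring

/-- the hypotheses on the functional -/
structure Fn (A : (ℝ → ℝ) → ℂ) (C : ℝ) : Prop where
  add : ∀ χ₁ χ₂, Chi χ₁ → Chi χ₂ → A (fun y => χ₁ y + χ₂ y) = A χ₁ + A χ₂
  smul : ∀ (c : ℝ) (χ : ℝ → ℝ), Chi χ → A (fun y => c * χ y) = c * A χ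
  bdd : ∀ (χ : ℝ → ℝ) (M ε : ℝ), Chi χ → 0 < ε → ε ≤ 1 → (∀ y, y < ε → χ y = 0) →
    (∀ y, |χ y| ≤ M) → ‖A χ‖ ≤ C * M / ε ^ 2
  eq : ∀ χ, Chi χ → A (fun y => -(y ^ 2 * iteratedDeriv 2 χ y) + 6 * χ y) = 0

lemma A_L1_chi {A : (ℝ → ℝ) → ℂ} {C : ℝ} (hA : Fn A C) {u : ℝ → ℝ} (h : Chi u) :
    A (L1 u) = 0 := by
  have h1 : Chi (fun y => (y ^ 2)⁻¹ * u y) :=
    chi_mul ((contDiffOn_id.pow 2).inv fun x hx => (pow_ne_zero 2 (ne_of_gt hx))) h
  rw [← eu_one h]
  exact hA.eq _ h1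

lemma A_L2_chi {A : (ℝ → ℝ) → ℂ} {C : ℝ} (hA : Fn A C) {u : ℝ → ℝ} (h : Chi u) :
    A (L2 u) = 0 := by
  have h1 : Chi (fun y => y ^ 3 * u y) := chi_mul (by fun_prop) h
  have h2 := hA.eq _ h1
  have h3 : L2 u = fun y => (-1 : ℝ) * Eu (fun y => y ^ 3 * u y) y := by
    funext y
    rw [eu_two h]
    ring
  have h4 : Chi (Eu (fun y => y ^ 3 * u y)) := by
    have : Eu (fun y => y ^ 3 * u y) = fun y => (-1 : ℝ) * L2 u y := by
      funext y
      rw [eu_two h]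
      ring
    rw [this]
    exact chi_smul _ (chi_L2 (chi_st h))
  rw [h3, hA.smul _ _ h4]
  change _ * A (fun y => -(y ^ 2 * iteratedDeriv 2 (fun y => y ^ 3 * u y) y) +
    6 * (y ^ 3 * u y)) = 0
  rw [h2, mul_zero]

/-- the step function -/
noncomputable def th (y : ℝ) : ℝ := Real.smoothTransition (y - 1)

lemma th_smooth : ContDiff ℝ (⊤ : ℕ∞) th :=
  Real.smoothTransition.contDiff.comp (contDiff_id.sub contDiff_const)

lemma th_zero {y : ℝ} (hy : y ≤ 1) : th y = 0 :=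
  Real.smoothTransition.zero_of_nonpos (by linarith)

lemma th_one {y : ℝ} (hy : 2 ≤ y) : th y = 1 :=
  Real.smoothTransition.one_of_one_le (by linarith)

lemma st_th {s : ℝ} (hs : 0 < s) : St (fun y => th (s * y)) 1 := by
  refine ⟨th_smooth.comp (contDiff_const.mul contDiff_id), 1 / s, 2 / s, by positivity, ?_, ?_⟩
  · intro y hy
    rw [lt_div_iff₀ hs] at hy
    exact th_zero (by linarith)
  · intro y hy
    rw [div_lt_iff₀ hs] at hy
    exact th_one (by linarith)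

lemma st_th1 : St th 1 := by
  have := st_th one_pos
  simpa using this

lemma st_sub {u : ℝ → ℝ} {c : ℝ} (h : St u c) {s : ℝ} (hs : 0 < s) :
    Chi (fun y => u y + (-c) * th (s * y)) := by
  obtain ⟨a, b, ha, h1, h2⟩ := h.supp
  obtain ⟨a', b', ha', h1', h2'⟩ := (st_th hs).supp
  refine ⟨h.smooth.add (contDiff_const.mul (st_th hs).smooth), min a a', max b b',
    lt_min ha ha', ?_⟩
  rintro y (hy | hy)
  · rw [h1 y (lt_of_lt_of_le hy (min_le_left _ _)), h1' y (lt_of_lt_of_le hy (min_le_right _ _))]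
    ring
  · rw [h2 y (lt_of_le_of_lt (le_max_left _ _) hy), h2' y (lt_of_le_of_lt (le_max_right _ _) hy)]
    ring

lemma deriv_th (s : ℝ) : deriv (fun y => th (s * y)) = fun y => s * deriv th (s * y) := by
  funext y
  rw [deriv_comp_mul_left]
  simp

lemma deriv_th2 (s : ℝ) :
    deriv (deriv (fun y => th (s * y))) = fun y => s ^ 2 * deriv (deriv th) (s * y) := by
  rw [deriv_th]
  funext y
  have h1 : DifferentiableAt ℝ (fun y => deriv th (s * y)) y := by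
    have := (contDiff_infty_iff_deriv.mp (contDiff_infty_iff_deriv.mp th_smooth).2).1
    fun_prop
  rw [deriv_const_mul _ h1, deriv_comp_mul_left]
  simp only [smul_eq_mul]
  ring

lemma L1_th {s : ℝ} (hs : 0 < s) (y : ℝ) : L1 (fun y => th (s * y)) y = s ^ 2 * L1 th (s * y) := by
  unfold L1
  rw [deriv_th2, deriv_th]
  by_cases hy : y = 0
  · subst hy
    simp
  · field_simp

lemma L2_th {s : ℝ} (hs : 0 < s) (y : ℝ) :
    L2 (fun y => th (s * y)) y = (s ^ 3)⁻¹ * L2 th (s * y) := by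
  unfold L2
  rw [deriv_th2, deriv_th]
  field_simp

lemma L_zero {u : ℝ → ℝ} {a : ℝ} (h : ∀ y, y < a → u y = 0) {y : ℝ} (hy : y < a) :
    L1 u y = 0 ∧ L2 u y = 0 := by
  have e1 : u =ᶠ[𝓝 y] fun _ => (0 : ℝ) := by
    filter_upwards [Iio_mem_nhds hy] with z hz using h z hz
  have e2 : deriv u =ᶠ[𝓝 y] fun _ => (0 : ℝ) := by
    have := e1.deriv
    simpa using this
  unfold L1 L2
  rw [e2.deriv_eq, e2.eq_of_nhds, deriv_const]
  constructor <;> ring

lemma L_add {u : ℝ → ℝ} {c : ℝ} (h : St u c) {s : ℝ} (hs : 0 < s) :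
    L1 u = (fun y => L1 (fun y => u y + (-c) * th (s * y)) y + c * L1 (fun y => th (s * y)) y) ∧
    L2 u = (fun y => L2 (fun y => u y + (-c) * th (s * y)) y + c * L2 (fun y => th (s * y)) y) := by
  have hv := (st_th hs).smooth
  have hv' := (contDiff_infty_iff_deriv.mp hv).2
  have hu' := (contDiff_infty_iff_deriv.mp h.smooth).2
  have e1 : deriv (fun y => u y + (-c) * th (s * y)) =
      fun y => deriv u y + (-c) * deriv (fun y => th (s * y)) y := by
    funext y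
    exact ((has1 h.smooth y).add ((has1 hv y).const_mul (-c))).deriv
  have e2 : deriv (deriv (fun y => u y + (-c) * th (s * y))) =
      fun y => deriv (deriv u) y + (-c) * deriv (deriv (fun y => th (s * y))) y := by
    rw [e1]
    funext y
    exact ((has1 hu' y).add ((has1 hv' y).const_mul (-c))).deriv
  constructor
  · funext y
    unfold L1
    rw [e2, e1]
    ring
  · funext y
    unfold L2
    rw [e2, e1]
    ring

lemma A_L1 {A : (ℝ → ℝ) → ℂ} {C : ℝ} (hA : Fn A C) {u : ℝ → ℝ} {c : ℝ} (h : St u c) :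
    A (L1 u) = 0 := by
  obtain ⟨M, hM0, hM⟩ := chi_bdd (chi_L1 st_th1)
  have key : ∀ s : ℝ, 0 < s → s ≤ 1 → ‖A (L1 u)‖ ≤ |c| * (C * M) * s ^ 2 := by
    intro s hs hs1
    have h1 := (L_add h hs).1
    have h2 : Chi (L1 (fun y => th (s * y))) := chi_L1 (st_th hs)
    have h3 : Chi (fun y => u y + (-c) * th (s * y)) := st_sub h hs
    rw [h1, hA.add _ _ (chi_L1 (chi_st h3)) (chi_smul c h2), hA.smul _ _ h2, A_L1_chi hA h3,
      zero_add, norm_mul]
    have h4 := hA.bdd (L1 (fun y => th (s * y))) (s ^ 2 * M) 1 h2 one_pos le_rfl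
      (fun y hy => (L_zero (a := 1) (fun z hz => th_zero (by nlinarith)) hy).1)
      (fun y => by
        rw [L1_th hs, abs_mul, abs_of_pos (by positivity)]
        exact mul_le_mul_of_nonneg_left (hM _) (by positivity))
    have h5 : ‖(c : ℂ)‖ = |c| := by simp
    rw [h5]
    calc |c| * ‖A (L1 fun y => th (s * y))‖ ≤ |c| * (C * (s ^ 2 * M) / 1 ^ 2) :=
          mul_le_mul_of_nonneg_left h4 (abs_nonneg _)
      _ = |c| * (C * M) * s ^ 2 := by ring
  have hlim : Tendsto (fun s : ℝ => |c| * (C * M) * s ^ 2) (𝓝[>] 0) (𝓝 0) := by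
    have h1 : Tendsto (fun s : ℝ => |c| * (C * M) * s ^ 2) (𝓝 0) (𝓝 (|c| * (C * M) * 0 ^ 2)) := by
      exact (Continuous.tendsto (by fun_prop) 0)
    simpa using h1.mono_left nhdsWithin_le_nhds
  have h6 : ‖A (L1 u)‖ ≤ 0 := by
    refine ge_of_tendsto hlim ?_
    filter_upwards [Ioc_mem_nhdsGT (zero_lt_one' ℝ)] with s hs using key s hs.1 hs.2
  exact norm_le_zero_iff.mp h6

lemma A_L2 {A : (ℝ → ℝ) → ℂ} {C : ℝ} (hA : Fn A C) {u : ℝ → ℝ} {c : ℝ} (h : St u c) :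
    A (L2 u) = 0 := by
  obtain ⟨M, hM0, hM⟩ := chi_bdd (chi_L2 st_th1)
  have key : ∀ ε : ℝ, 0 < ε → ε ≤ 1 → ‖A (L2 u)‖ ≤ |c| * (C * M) * ε := by
    intro ε hε hε1
    have hs : 0 < ε⁻¹ := by positivity
    have h1 := (L_add h hs).2
    have h2 : Chi (L2 (fun y => th (ε⁻¹ * y))) := chi_L2 (st_th hs)
    have h3 : Chi (fun y => u y + (-c) * th (ε⁻¹ * y)) := st_sub h hs
    rw [h1, hA.add _ _ (chi_L2 (chi_st h3)) (chi_smul c h2), hA.smul _ _ h2, A_L2_chi hA h3,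
      zero_add, norm_mul]
    have h4 := hA.bdd (L2 (fun y => th (ε⁻¹ * y))) (ε ^ 3 * M) ε h2 hε hε1
      (fun y hy => (L_zero (a := ε) (fun z hz => th_zero (by
        rw [inv_mul_le_iff₀ hε]
        linarith)) hy).2)
      (fun y => by
        rw [L2_th hs, abs_mul, abs_of_pos (by positivity), inv_pow, inv_inv]
        exact mul_le_mul_of_nonneg_left (hM _) (by positivity))
    have h5 : ‖(c : ℂ)‖ = |c| := by simp
    rw [h5]
    calc |c| * ‖A (L2 fun y => th (ε⁻¹ * y))‖ ≤ |c| * (C * (ε ^ 3 * M) / ε ^ 2) :=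
          mul_le_mul_of_nonneg_left h4 (abs_nonneg _)
      _ = |c| * (C * M) * ε := by
          field_simp
  have hlim : Tendsto (fun s : ℝ => |c| * (C * M) * s) (𝓝[>] 0) (𝓝 0) := by
    have h1 : Tendsto (fun s : ℝ => |c| * (C * M) * s) (𝓝 0) (𝓝 (|c| * (C * M) * 0)) := by
      exact (Continuous.tendsto (by fun_prop) 0)
    simpa using h1.mono_left nhdsWithin_le_nhds
  have h6 : ‖A (L2 u)‖ ≤ 0 := by
    refine ge_of_tendsto hlim ?_
    filter_upwards [Ioc_mem_nhdsGT (zero_lt_one' ℝ)] with s hs using key s hs.1 hs.2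
  exact norm_le_zero_iff.mp h6

/-- primitives -/
noncomputable def Pr (f : ℝ → ℝ) (y : ℝ) : ℝ := ∫ s in (0 : ℝ)..y, f s

lemma pr_deriv {f : ℝ → ℝ} (h : Chi f) : deriv (Pr f) = f := by
  funext y
  exact (h.smooth.continuous.deriv_integral f 0 y)

lemma pr_st {f : ℝ → ℝ} (h : Chi f) : ∃ c, St (Pr f) c := by
  obtain ⟨a, b, ha, hab, h1, h2⟩ := chi_supp h
  have hc := h.smooth.continuous
  refine ⟨Pr f b, ?_, a, b, ha, ?_, ?_⟩
  · rw [contDiff_infty_iff_deriv, pr_deriv h]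
    refine ⟨fun y => ?_, h.smooth⟩
    exact (hc.integral_hasStrictDerivAt 0 y).hasDerivAt.differentiableAt
  · intro y hy
    unfold Pr
    rw [intervalIntegral.integral_congr (g := fun _ => (0 : ℝ))]
    · simp
    · intro z hz
      refine h1 z (lt_of_le_of_lt hz.2 ?_)
      exact max_lt ha hy
  · intro y hy
    unfold Pr
    rw [← intervalIntegral.integral_add_adjacent_intervals (a := 0) (b := b) (c := y)
      (hc.intervalIntegrable _ _) (hc.intervalIntegrable _ _)]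
    have : ∫ x in b..y, f x = 0 := by
      have e1 : ∫ x in b..y, f x = ∫ x in b..y, (0 : ℝ) := by
        rw [intervalIntegral.integral_of_le hy.le, intervalIntegral.integral_of_le hy.le]
        exact setIntegral_congr_fun measurableSet_Ioc fun z hz => h2 z hz.1
      rw [e1]
      simp
    rw [this, add_zero]

theorem main {A : (ℝ → ℝ) → ℂ} {C : ℝ} (hA : Fn A C) {χ : ℝ → ℝ} (h : Chi χ) : A χ = 0 := by
  have h1 : Chi (fun y => y * χ y) := chi_mul contDiffOn_id h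
  have h2 : Chi (fun y => (y ^ 4)⁻¹ * χ y) :=
    chi_mul ((contDiffOn_id.pow 4).inv fun x hx => (pow_ne_zero 4 (ne_of_gt hx))) h
  obtain ⟨c1, hc1⟩ := pr_st h1
  obtain ⟨c2, hc2⟩ := pr_st h2
  have key : χ = fun y => (1 / 5 : ℝ) * (L1 (Pr fun y => y * χ y) y +
      L2 (Pr fun y => (y ^ 4)⁻¹ * χ y) y) := by
    funext y
    obtain ⟨a, b, ha, hab, h3, h4⟩ := chi_supp h
    unfold L1 L2
    rw [pr_deriv h1, pr_deriv h2]
    by_cases hy : y < a
    · have e1 : χ =ᶠ[𝓝 y] fun _ => (0 : ℝ) := by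
        filter_upwards [Iio_mem_nhds hy] with z hz using h3 z hz
      have e2 : (fun y => y * χ y) =ᶠ[𝓝 y] fun _ => (0 : ℝ) := by
        filter_upwards [e1] with z hz
        rw [hz, mul_zero]
      have e3 : (fun y => (y ^ 4)⁻¹ * χ y) =ᶠ[𝓝 y] fun _ => (0 : ℝ) := by
        filter_upwards [e1] with z hz
        rw [hz, mul_zero]
      rw [e2.deriv_eq, e3.deriv_eq, deriv_const]
      simp only [h3 y hy]
      ring
    · have hy0 : 0 < y := lt_of_lt_of_le ha (not_lt.mp hy)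
      have d1 : deriv (fun y => y * χ y) y = χ y + y * deriv χ y := by
        have e1 : HasDerivAt (fun y => y * χ y) (1 * χ y + y * deriv χ y) y :=
          (hasDerivAt_id' y).mul (has1 h.smooth y)
        rw [e1.deriv, one_mul]
      have d2 : deriv (fun y => (y ^ 4)⁻¹ * χ y) y =
          -(4 * (y ^ 5)⁻¹) * χ y + (y ^ 4)⁻¹ * deriv χ y := by
        have e1 : HasDerivAt (fun y : ℝ => (y ^ 4)⁻¹) (-(4 * (y ^ 5)⁻¹)) y := by
          have := (hasDerivAt_pow 4 y).inv (by positivity)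
          refine this.congr_deriv ?_
          field_simp
          norm_num
          ring
        exact (e1.mul (has1 h.smooth y)).deriv
      rw [d1, d2]
      field_simp
      ring
  have h5 := chi_L1 hc1
  have h6 := chi_L2 hc2
  rw [key, hA.smul _ _ (chi_add h5 h6), hA.add _ _ h5 h6, A_L1 hA hc1, A_L2 hA hc2]
  simp

end SEUL_

theorem pEUL : sEUL := by
  intro A h1 h2 h3 h4 χ hχ
  obtain ⟨C, hC⟩ := h3
  exact SEUL_.main (C := C) ⟨h1, h2, hC, h4⟩ hχ

end FMZ
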