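import Pool.Agent.FMZ.STargets

/-!
# FMZ, block S: S-LF and S-FB (the cuspidal function)
-/

open Complex MeasureTheory Set Filter Topology
open UpperHalfPlane hiding I
open scoped ENNReal

namespace FMZ

namespace SFB_

lemma int_mul (f B : ℍ → ℂ) (hf : Continuous f) (hB : BC B) :
    Integrable (fun z : ℍ => f z * B z) := by
  obtain ⟨C, hC⟩ := hB.bdd
  obtain ⟨K, hK, hK0⟩ := hB.cpt
  obtain ⟨M, hM⟩ := hK.exists_bound_of_continuousOn hf.continuousOn
  have hKm : MeasurableSet K := hK.isClosed.measurableSet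
  have h1 : Integrable (K.indicator (fun _ : ℍ => |M| * |C|)) volume := by
    rw [integrable_indicator_iff hKm]
    exact integrableOn_const (hK.measure_lt_top).ne
  refine Integrable.mono' h1 (hf.aestronglyMeasurable.mul hB.meas.aestronglyMeasurable) ?_
  refine Eventually.of_forall fun z => ?_
  by_cases hz : z ∈ K
  · rw [indicator_of_mem hz, norm_mul]
    exact mul_le_mul ((hM z hz).trans (le_abs_self _)) ((hC z).trans (le_abs_self _))
      (norm_nonneg _) (abs_nonneg _)
  · rw [indicator_of_notMem hz, hK0 z hz, mul_zero, norm_zero]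

lemma poi_mul (f B : ℍ → ℂ) (hf : Inv f) (z : ℍ) :
    f z * Poi B z = Poi (fun w => f w * B w) z := by
  unfold Poi
  rw [← tsum_mul_left]
  refine tsum_congr fun g => ?_
  show f z * B (g • z) = f (g • z) * B (g • z)
  rw [hf g z]

end SFB_

open SFB_ in
theorem pLF (h1 : sUNF) (_h2 : sPBD) : sLF := by
  intro f hf hinv B hB
  unfold Lam
  simp_rw [poi_mul f B hinv]
  rw [(h1.2 (fun z => f z * B z) (hf.measurable.mul hB.meas) (int_mul f B hf hB)).2]
  ring

namespace SFB_

lemma per_int {F : ℝ → ℂ} {η : ℝ → ℝ} (hF : Continuous F) (hη : Eta η)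
    (hper : ∀ x, F (x + 1) = F x) : ∫ x : ℝ, F x * (η x : ℂ) = ∫ x in (0 : ℝ)..1, F x := by
  have hc : Continuous (fun x : ℝ => F x * (η x : ℂ)) :=
    hF.mul (Complex.continuous_ofReal.comp hη.smooth.continuous)
  have hs : Function.support (fun x : ℝ => F x * (η x : ℂ)) ⊆ Ioc (-1) 1 := by
    intro x hx
    by_contra h
    apply hx
    have : 1 ≤ |x| := by
      by_contra h'
      rw [not_le, abs_lt] at h'
      exact h ⟨h'.1, h'.2.le⟩
    show F x * (η x : ℂ) = 0
    rw [hη.supp x this]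
    simp
  rw [← intervalIntegral.integral_eq_integral_of_support_subset hs,
    ← intervalIntegral.integral_add_adjacent_intervals (hc.intervalIntegrable (-1) 0)
      (hc.intervalIntegrable 0 1)]
  have h1 : ∫ x in (-1 : ℝ)..0, F x * (η x : ℂ) =
      ∫ x in (0 : ℝ)..1, F (x - 1) * (η (x - 1) : ℂ) := by
    rw [intervalIntegral.integral_comp_sub_right (fun x : ℝ => F x * (η x : ℂ)) 1]
    norm_num
  have hc' : Continuous (fun x : ℝ => F (x - 1) * (η (x - 1) : ℂ)) :=
    hc.comp (continuous_sub_right 1)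
  rw [h1, ← intervalIntegral.integral_add (hc'.intervalIntegrable 0 1) (hc.intervalIntegrable 0 1)]
  refine intervalIntegral.integral_congr fun x hx => ?_
  rw [uIcc_of_le zero_le_one] at hx
  have h2 := hη.sum x
  have h3 : ∑' n : ℤ, η (x + n) = η (x - 1) + η x := by
    rw [tsum_eq_sum (s := {-1, 0}) (fun n hn => ?_)]
    · rw [Finset.sum_pair (by norm_num)]
      push_cast
      rw [add_zero, ← sub_eq_add_neg]
    · refine hη.supp _ ?_
      rw [Finset.mem_insert, Finset.mem_singleton, not_or] at hn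
      have h4 : n ≤ -2 ∨ 1 ≤ n := by omega
      rcases h4 with h4 | h4
      · have : (n : ℝ) ≤ -2 := by exact_mod_cast h4
        rw [abs_of_nonpos (by linarith [hx.2])]
        linarith [hx.2]
      · have : (1 : ℝ) ≤ n := by exact_mod_cast h4
        rw [abs_of_nonneg (by linarith [hx.1])]
        linarith [hx.1]
  have h5 : F (x - 1) = F x := by
    rw [← hper (x - 1), sub_add_cancel]
  rw [h3] at h2
  show F (x - 1) * (η (x - 1) : ℂ) + F x * (η x : ℂ) = F x
  rw [h5, ← mul_add, ← Complex.ofReal_add, h2, Complex.ofReal_one, mul_one]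

lemma full_cont {F : ℝ → ℝ → ℂ} (hF : ContinuousOn (fun p : ℝ × ℝ => F p.1 p.2) {p | 0 < p.2})
    {χ η : ℝ → ℝ} (hχ : Chi χ) (hη : Eta η) :
    Continuous (fun p : ℝ × ℝ => (1 / p.2 ^ 2 : ℝ) • (F p.1 p.2 * ((χ p.2 * η p.1 : ℝ) : ℂ))) := by
  obtain ⟨a, b, ha, hab⟩ := hχ.supp
  have hopen : IsOpen {p : ℝ × ℝ | 0 < p.2} := isOpen_lt continuous_const continuous_snd
  rw [continuous_iff_continuousAt]
  intro p
  by_cases hp : 0 < p.2
  · have h1 : ContinuousAt (fun p : ℝ × ℝ => F p.1 p.2) p := hF.continuousAt (hopen.mem_nhds hp)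
    have h2 : ContinuousAt (fun p : ℝ × ℝ => ((χ p.2 * η p.1 : ℝ) : ℂ)) p := by
      have h3 : Continuous χ := hχ.smooth.continuous
      have h4 : Continuous η := hη.smooth.continuous
      have : Continuous (fun p : ℝ × ℝ => ((χ p.2 * η p.1 : ℝ) : ℂ)) := by fun_prop
      exact this.continuousAt
    have h5 : ContinuousAt (fun p : ℝ × ℝ => (1 / p.2 ^ 2 : ℝ)) p := by
      refine ContinuousAt.div continuousAt_const (by fun_prop) ?_
      positivity
    exact h5.smul (h1.mul h2)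
  · have h1 : ∀ᶠ q : ℝ × ℝ in 𝓝 p, q.2 < a :=
      continuous_snd.continuousAt.eventually (gt_mem_nhds (by linarith [not_lt.mp hp]))
    have h2 : (fun _ : ℝ × ℝ => (0 : ℂ)) =ᶠ[𝓝 p] (fun p : ℝ × ℝ =>
        (1 / p.2 ^ 2 : ℝ) • (F p.1 p.2 * ((χ p.2 * η p.1 : ℝ) : ℂ))) := by
      filter_upwards [h1] with q hq
      rw [hab q.2 (Or.inl hq)]
      simp
    exact (continuousAt_const (y := (0 : ℂ))).congr h2

lemma full_cpt {F : ℝ → ℝ → ℂ} {χ η : ℝ → ℝ} (hχ : Chi χ) (hη : Eta η) :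
    HasCompactSupport (fun p : ℝ × ℝ =>
      (1 / p.2 ^ 2 : ℝ) • (F p.1 p.2 * ((χ p.2 * η p.1 : ℝ) : ℂ))) := by
  obtain ⟨a, b, ha, hab⟩ := hχ.supp
  refine HasCompactSupport.intro (K := Icc (-1) 1 ×ˢ Icc a b)
    (isCompact_Icc.prod isCompact_Icc) (fun p hp => ?_)
  rw [mem_prod, not_and_or] at hp
  rcases hp with hp | hp
  · have : 1 ≤ |p.1| := by
      by_contra h
      rw [not_le, abs_lt] at h
      exact hp ⟨h.1.le, h.2.le⟩
    rw [hη.supp p.1 this]
    simp
  · have : p.2 < a ∨ b < p.2 := by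
      by_contra h
      rw [not_or, not_lt, not_lt] at h
      exact hp ⟨h.1, h.2⟩
    rw [hab p.2 this]
    simp

lemma zero_int {F : ℝ → ℝ → ℂ} (hA : Aut F) (hC : Cusp F) {χ η : ℝ → ℝ} (hχ : Chi χ)
    (hη : Eta η) : ∫ p : ℝ × ℝ, (1 / p.2 ^ 2 : ℝ) • (F p.1 p.2 * ((χ p.2 * η p.1 : ℝ) : ℂ)) =
      0 := by
  obtain ⟨a, b, ha, hab⟩ := hχ.supp
  have hi : Integrable (fun p : ℝ × ℝ =>
      (1 / p.2 ^ 2 : ℝ) • (F p.1 p.2 * ((χ p.2 * η p.1 : ℝ) : ℂ))) :=
    (full_cont hA.cont hχ hη).integrable_of_hasCompactSupport (full_cpt hχ hη)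
  rw [Measure.volume_eq_prod] at hi ⊢
  rw [integral_prod_symm _ hi]
  have h0 : ∀ y : ℝ, ∫ x : ℝ, (1 / y ^ 2 : ℝ) • (F x y * ((χ y * η x : ℝ) : ℂ)) = 0 := by
    intro y
    by_cases hy : 0 < y
    · have h1 : ∀ x : ℝ, (1 / y ^ 2 : ℝ) • (F x y * ((χ y * η x : ℝ) : ℂ)) =
          ((1 / y ^ 2 * χ y : ℝ) : ℂ) * (F x y * (η x : ℂ)) := by
        intro x
        rw [Complex.real_smul]
        push_cast
        ring
      simp_rw [h1]
      rw [integral_const_mul]
      have hFc : Continuous (fun x : ℝ => F x y) := by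
        refine hA.cont.comp_continuous (f := fun x : ℝ => (x, y)) (by fun_prop) (fun x => hy)
      rw [per_int hFc hη (fun x => hA.per x y hy), hC y hy, mul_zero]
    · have hy' : y < a := by linarith [not_lt.mp hy]
      rw [hab y (Or.inl hy')]
      simp
  simp only [h0]
  exact integral_zero _ _

end SFB_

open SFB_ in
theorem pFB (h1 : sGEN) (h2 : sLF) (h3 : sCO) (h4 : sVOL) (h5 : sCE) (h6 : sTBC) : sFB := by
  intro F hA hC hS
  have hcont : Continuous (fun z : ℍ => F z.re z.im) :=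
    hA.cont.comp_continuous (f := fun z : ℍ => (z.re, z.im))
      (UpperHalfPlane.continuous_re.prodMk UpperHalfPlane.continuous_im) (fun z => z.im_pos)
  have hinv : Inv (fun z : ℍ => F z.re z.im) := by
    refine h1 _ (fun z => ?_) (fun z => ?_)
    · rw [UpperHalfPlane.vadd_re, UpperHalfPlane.vadd_im, add_comm]
      exact hA.per _ _ z.im_pos
    · have hre : (ModularGroup.S • z).re = -z.re / (z.re ^ 2 + z.im ^ 2) := by
        rw [UpperHalfPlane.modular_S_smul]
        show ((-(z : ℂ))⁻¹).re = _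
        rw [Complex.inv_re, Complex.normSq_apply]
        simp only [Complex.neg_re, Complex.neg_im, UpperHalfPlane.coe_re, UpperHalfPlane.coe_im]
        ring_nf
      have him : (ModularGroup.S • z).im = z.im / (z.re ^ 2 + z.im ^ 2) := by
        rw [UpperHalfPlane.modular_S_smul]
        show ((-(z : ℂ))⁻¹).im = _
        rw [Complex.inv_im, Complex.normSq_apply]
        simp only [Complex.neg_re, Complex.neg_im, UpperHalfPlane.coe_re, UpperHalfPlane.coe_im]
        ring_nf
      rw [hre, him]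
      exact hA.inv _ _ z.im_pos
  obtain ⟨C, hCb⟩ := hS
  have hDm : ∀ z ∈ Dm, |z.re| ≤ 1 / 2 ∧ √3 / 2 ≤ z.im := by
    intro z hz
    have hz' : 1 < Complex.normSq (z : ℂ) ∧ |z.re| < 1 / 2 := hz
    refine ⟨hz'.2.le, ?_⟩
    have e1 := hz'.1
    rw [Complex.normSq_apply, UpperHalfPlane.coe_re, UpperHalfPlane.coe_im] at e1
    have e2 : z.re * z.re < 1 / 4 := by
      have := hz'.2
      rw [abs_lt] at this
      nlinarith
    have e3 : 3 / 4 ≤ z.im ^ 2 := by nlinarith
    have e4 : √3 / 2 = √(3 / 4) := by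
      rw [Real.sqrt_div (by norm_num), show (4 : ℝ) = 2 ^ 2 by norm_num,
        Real.sqrt_sq (by norm_num)]
    rw [e4]
    exact Real.sqrt_le_iff.mpr ⟨z.im_pos.le, e3⟩
  have hbound : ∀ z ∈ Dm, ‖F z.re z.im‖ ≤ |C| / z.im := by
    intro z hz
    obtain ⟨e1, e2⟩ := hDm z hz
    refine (hCb _ _ e1 e2).trans ?_
    exact div_le_div_of_nonneg_right (le_abs_self C) z.im_pos.le
  have hfin : IsFiniteMeasure muD := ⟨by
    rw [muD, Measure.restrict_apply_univ]
    exact h4.1⟩
  refine ⟨hcont, hinv, ?_, ?_, ?_⟩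
  · refine MemLp.of_bound hcont.aestronglyMeasurable (|C| * 2) ?_
    unfold muD
    refine (ae_restrict_iff' h4.2.1).mpr (Eventually.of_forall fun z hz => ?_)
    obtain ⟨-, e2⟩ := hDm z hz
    refine (hbound z hz).trans ?_
    rw [div_le_iff₀ z.im_pos]
    have e3 : (1 : ℝ) ≤ √3 := Real.one_le_sqrt.mpr (by norm_num)
    have e4 : 1 ≤ 2 * z.im := by linarith
    have := abs_nonneg C
    nlinarith
  · intro χ η hχ hη
    have hBC : BC (ce χ η) := (h6 _ (h5 χ η hχ hη).1).1
    rw [h2 _ hcont hinv _ hBC]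
    obtain ⟨-, -, -, hemb, hmp⟩ := h3
    have e1 : ∫ z : ℍ, F z.re z.im * ce χ η z = _ := hmp.integral_comp hemb (fun p : ℝ × ℝ =>
        F p.1 p.2 * ((χ p.2 * η p.1 : ℝ) : ℂ))
    rw [e1, integral_withDensity_eq_integral_toReal_smul
      (by fun_prop) (Eventually.of_forall fun p => ENNReal.ofReal_lt_top)]
    have e2 : ∀ p : ℝ × ℝ, (ENNReal.ofReal (1 / p.2 ^ 2)).toReal = 1 / p.2 ^ 2 := fun p =>
      ENNReal.toReal_ofReal (by positivity)
    simp_rw [e2]
    rw [setIntegral_eq_integral_of_forall_compl_eq_zero]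
    · exact zero_int hA hC hχ hη
    · intro p hp
      obtain ⟨a, b, ha, hab⟩ := hχ.supp
      have hp' : p.2 < a := by
        have : ¬ 0 < p.2 := hp
        linarith [not_lt.mp this]
      rw [hab p.2 (Or.inl hp')]
      simp
  · have hDh : IsFiniteMeasure ((volume : Measure ℍ).restrict Dh) := ⟨by
      rw [Measure.restrict_apply_univ]
      exact lt_of_le_of_lt (measure_mono h4.2.2.2) h4.1⟩
    refine Integrable.of_bound (C := |C|) ?_ ?_
    · exact (hcont.mul (Complex.continuous_ofReal.comp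
        UpperHalfPlane.continuous_im)).aestronglyMeasurable
    · refine (ae_restrict_iff' h4.2.2.1).mpr (Eventually.of_forall fun z hz => ?_)
      rw [norm_mul, Complex.norm_real, Real.norm_eq_abs, abs_of_pos z.im_pos]
      have := hbound z (h4.2.2.2 hz)
      rwa [le_div_iff₀ z.im_pos] at this

end FMZ
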