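import Pool.Agent.FMZ.STargets

set_option autoImplicit false

/-!
# FMZ-S-RAYB and FMZ-S-FR: decay on the rays, the pairing of the cuspidal function
-/

open Complex MeasureTheory Set Filter Topology
open UpperHalfPlane hiding I
open scoped ENNReal InnerProductSpace

namespace FMZ

namespace SFR_

lemma per_int {F : ℝ → ℝ → ℂ} (hF : Aut F) {y : ℝ} (hy : 0 < y) (n : ℤ) (x : ℝ) :
    F (x - n) y = F x y := by
  have h : Function.Periodic (fun x => F x y) 1 := fun x => hF.per x y hy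
  have := h.sub_zsmul_eq (x := x) n
  simpa using this

/-- the coordinates of a point of the ray -/
noncomputable def rx (t τ : ℝ) : ℝ := Real.exp τ * t / √(1 + t ^ 2)

/-- the coordinates of a point of the ray -/
noncomputable def ry (t τ : ℝ) : ℝ := Real.exp τ / √(1 + t ^ 2)

lemma sq_pos (t : ℝ) : 0 < √(1 + t ^ 2) := Real.sqrt_pos.mpr (by positivity)

lemma ry_pos (t τ : ℝ) : 0 < ry t τ := div_pos (Real.exp_pos τ) (sq_pos t)

lemma rx_eq (t τ : ℝ) : rx t τ = t * ry t τ := by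
  unfold rx ry
  ring

lemma norm_sq (t τ : ℝ) : rx t τ ^ 2 + ry t τ ^ 2 = Real.exp τ ^ 2 := by
  have h := Real.sq_sqrt (show (0 : ℝ) ≤ 1 + t ^ 2 by positivity)
  have h' := (sq_pos t).ne'
  rw [rx_eq]
  unfold ry
  field_simp
  rw [h]
  ring

lemma refl {F : ℝ → ℝ → ℂ} (hF : Aut F) (t τ : ℝ) :
    F (rx (-t) (-τ)) (ry (-t) (-τ)) = F (rx t τ) (ry t τ) := by
  have h := hF.inv (rx t τ) (ry t τ) (ry_pos t τ)
  rw [norm_sq] at h
  rw [← h]
  have he := (Real.exp_pos τ).ne'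
  have e1 : rx (-t) (-τ) = -rx t τ / Real.exp τ ^ 2 := by
    unfold rx
    rw [Real.exp_neg, neg_sq]
    field_simp
  have e2 : ry (-t) (-τ) = ry t τ / Real.exp τ ^ 2 := by
    unfold ry
    rw [Real.exp_neg, neg_sq]
    field_simp
  rw [e1, e2]

lemma sq_le {t A : ℝ} (h : |t| ≤ A) : √(1 + t ^ 2) ≤ √(1 + A ^ 2) := by
  apply Real.sqrt_le_sqrt
  have : t ^ 2 ≤ A ^ 2 := by
    rw [← sq_abs]
    exact pow_le_pow_left₀ (abs_nonneg t) h 2
  linarith

lemma main_bound {F : ℝ → ℝ → ℂ} (hF : Aut F) (hS : Small F) (A : ℝ) :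
    ∃ C : ℝ, 0 ≤ C ∧ ∀ t τ : ℝ, |t| ≤ A → 0 ≤ τ →
      ‖F (rx t τ) (ry t τ)‖ ≤ C * Real.exp (-τ) := by
  obtain ⟨C₀, h0⟩ := hS
  have hsA := sq_pos A
  have hK : IsCompact (Icc (-A) A ×ˢ Icc (1 / √(1 + A ^ 2)) 1) := isCompact_Icc.prod isCompact_Icc
  have hKs : (Icc (-A) A ×ˢ Icc (1 / √(1 + A ^ 2)) 1) ⊆ {p : ℝ × ℝ | 0 < p.2} := by
    rintro ⟨x, y⟩ ⟨-, hy⟩
    have h1 : 1 / √(1 + A ^ 2) ≤ y := hy.1
    have h2 : 0 < 1 / √(1 + A ^ 2) := by positivity
    show 0 < y
    linarith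
  obtain ⟨C₁, h1⟩ := hK.exists_bound_of_continuousOn (hF.cont.mono hKs)
  refine ⟨(max C₀ 0 + max C₁ 0) * √(1 + A ^ 2), by positivity, fun t τ ht hτ => ?_⟩
  have hy := ry_pos t τ
  have hst := sq_pos t
  have hle := sq_le ht
  have hA0 : 0 ≤ A := (abs_nonneg t).trans ht
  have hm0 : 0 ≤ max C₀ 0 := le_max_right _ _
  have hm1 : 0 ≤ max C₁ 0 := le_max_right _ _
  have hexp : Real.exp τ = ry t τ * √(1 + t ^ 2) := by
    unfold ry
    field_simp
  have hexpn : Real.exp (-τ) = 1 / (ry t τ * √(1 + t ^ 2)) := by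
    rw [← hexp, Real.exp_neg, one_div]
  rcases le_total (√3 / 2) (ry t τ) with hc | hc
  · have e := per_int hF hy (round (rx t τ)) (rx t τ)
    rw [← e]
    have hb := h0 (rx t τ - round (rx t τ)) (ry t τ) (abs_sub_round _) hc
    refine hb.trans ?_
    calc C₀ / ry t τ ≤ max C₀ 0 / ry t τ := by
          gcongr
          exact le_max_left _ _
      _ = max C₀ 0 * √(1 + t ^ 2) * Real.exp (-τ) := by
          rw [hexpn]
          field_simp
      _ ≤ (max C₀ 0 + max C₁ 0) * √(1 + A ^ 2) * Real.exp (-τ) := by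
          gcongr
          linarith
  · have h3 : √3 / 2 ≤ 1 := by
      have : √3 ≤ 2 := by
        rw [Real.sqrt_le_left (by norm_num)]
        norm_num
      linarith
    have hy1 : ry t τ ≤ 1 := hc.trans h3
    have hmem : (rx t τ, ry t τ) ∈ Icc (-A) A ×ˢ Icc (1 / √(1 + A ^ 2)) 1 := by
      refine ⟨?_, ?_, hy1⟩
      · show rx t τ ∈ Icc (-A) A
        rw [rx_eq]
        have : |t * ry t τ| ≤ A := by
          rw [abs_mul, abs_of_pos hy]
          calc |t| * ry t τ ≤ A * 1 := by gcongr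
            _ = A := mul_one A
        exact abs_le.mp this
      · show 1 / √(1 + A ^ 2) ≤ ry t τ
        unfold ry
        have : 1 ≤ Real.exp τ := Real.one_le_exp hτ
        gcongr
    have hb := h1 _ hmem
    refine hb.trans ?_
    have hone : 1 ≤ √(1 + A ^ 2) * Real.exp (-τ) := by
      rw [hexpn, mul_one_div, one_le_div (by positivity)]
      calc ry t τ * √(1 + t ^ 2) ≤ 1 * √(1 + A ^ 2) := by gcongr
        _ = _ := one_mul _
    calc C₁ ≤ max C₁ 0 := le_max_left _ _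
      _ = max C₁ 0 * 1 := (mul_one _).symm
      _ ≤ max C₁ 0 * (√(1 + A ^ 2) * Real.exp (-τ)) := by gcongr
      _ ≤ (max C₀ 0 + max C₁ 0) * (√(1 + A ^ 2) * Real.exp (-τ)) := by
          gcongr
          linarith
      _ = _ := by ring

lemma int_exp : Integrable (fun τ : ℝ => Real.exp (-|τ|)) := by
  refine (integrable_inv_one_add_sq.const_mul 2).mono'
    (Continuous.aestronglyMeasurable (by fun_prop)) (ae_of_all _ fun τ => ?_)
  rw [Real.norm_of_nonneg (by positivity), Real.exp_neg]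
  have h := Real.quadratic_le_exp_of_nonneg (abs_nonneg τ)
  rw [sq_abs] at h
  have h2 : (1 + τ ^ 2) / 2 ≤ Real.exp |τ| := by linarith [abs_nonneg τ]
  calc (Real.exp |τ|)⁻¹ ≤ ((1 + τ ^ 2) / 2)⁻¹ := by gcongr
    _ = 2 * (1 + τ ^ 2)⁻¹ := by
      rw [inv_div, div_eq_mul_inv]

lemma sm_cont {P : ℍ → ℂ} (h : Sm P) : Continuous P := by
  have h1 : ContinuousOn (ex P) {w : ℂ | 0 < w.im} := h.continuousOn
  have h2 : Continuous (fun z : ℍ => ex P (z : ℂ)) :=
    h1.comp_continuous UpperHalfPlane.continuous_coe (fun z => z.im_pos)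
  refine h2.congr fun z => ?_
  unfold ex
  rw [ofComplex_apply]

lemma pt_coe {x y : ℝ} (hy : 0 < y) : ((pt x y : ℍ) : ℂ) = x + y * I := by
  unfold pt
  rw [ofComplex_apply_of_im_pos (by simpa using hy)]

lemma pt_re {x y : ℝ} (hy : 0 < y) : (pt x y).re = x := by
  have h := congrArg Complex.re (pt_coe (x := x) hy)
  simpa using h

lemma pt_im {x y : ℝ} (hy : 0 < y) : (pt x y).im = y := by
  have h := congrArg Complex.im (pt_coe (x := x) hy)
  simpa using h

lemma integrand (F : ℝ → ℝ → ℂ) (X Z : ℝ → ℝ) (n : ℕ) (t τ : ℝ) :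
    F (pt (rx t τ) (ry t τ)).re (pt (rx t τ) (ry t τ)).im * XW X Z n (pt (rx t τ) (ry t τ)) =
      F (rx t τ) (ry t τ) * ((X t * Z (τ / n) : ℝ) : ℂ) := by
  have hy := ry_pos t τ
  unfold XW
  rw [pt_re hy, pt_im hy, pt_coe hy]
  have e1 : rx t τ / ry t τ = t := by
    rw [rx_eq]
    field_simp
  have e2 : ‖((rx t τ : ℝ) : ℂ) + (ry t τ : ℝ) * I‖ = Real.exp τ := by
    rw [Complex.norm_add_mul_I, norm_sq, Real.sqrt_sq (Real.exp_pos τ).le]
  rw [e1, e2, Real.log_exp]

lemma joint_cont {F : ℝ → ℝ → ℂ} (hF : Aut F) : Continuous (fun p : ℝ × ℝ =>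
    F (rx p.1 p.2) (ry p.1 p.2)) := by
  have h1 : Continuous (fun p : ℝ × ℝ => (rx p.1 p.2, ry p.1 p.2)) := by
    unfold rx ry
    refine Continuous.prodMk ?_ ?_
    · exact Continuous.div (by fun_prop) (by fun_prop) fun p => (sq_pos p.1).ne'
    · exact Continuous.div (by fun_prop) (by fun_prop) fun p => (sq_pos p.1).ne'
  exact hF.cont.comp_continuous h1 (fun p => ry_pos p.1 p.2)

lemma limit (hR : sRAYB) {F : ℝ → ℝ → ℂ} (hF : Aut F) (hS : Small F) {X Z : ℝ → ℝ}
    (hX : Tst X) (hZ : Cut Z) :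
    Tendsto (fun n : ℕ => ∫ t : ℝ, ∫ τ : ℝ, F (rx t τ) (ry t τ) * ((X t * Z (τ / n) : ℝ) : ℂ))
      atTop (𝓝 (∫ t : ℝ, ray F t * X t)) := by
  have cX : Continuous X := hX.smooth.continuous
  have cZ : Continuous Z := hZ.smooth.continuous
  obtain ⟨A, hA⟩ : ∃ A : ℝ, ∀ t, A < |t| → X t = 0 := by
    obtain ⟨A, hA⟩ := hX.cpt.isCompact.isBounded.subset_closedBall 0
    refine ⟨A, fun t ht => ?_⟩
    by_contra hne
    have h1 : t ∈ tsupport X := subset_tsupport X hne
    have h2 := hA h1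
    rw [mem_closedBall_zero_iff, Real.norm_eq_abs] at h2
    linarith
  obtain ⟨C, hC⟩ := hR F hF hS A
  set J : ℝ := ∫ τ : ℝ, Real.exp (-|τ|) with hJ
  have hJ0 : 0 ≤ J := integral_nonneg fun τ => (Real.exp_pos _).le
  -- pointwise bound of the integrand
  have hbd : ∀ (n : ℕ) (t τ : ℝ), ‖F (rx t τ) (ry t τ) * ((X t * Z (τ / n) : ℝ) : ℂ)‖ ≤
      (max C 0 * |X t|) * Real.exp (-|τ|) := by
    intro n t τ
    rw [norm_mul, Complex.norm_real, Real.norm_eq_abs, abs_mul]
    by_cases ht : A < |t|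
    · rw [hA t ht]
      simp
    · have h1 : ‖F (rx t τ) (ry t τ)‖ ≤ C * Real.exp (-|τ|) := hC t τ (not_lt.mp ht)
      have h2 : |Z (τ / n)| ≤ 1 := by
        rw [abs_of_nonneg (hZ.rng _).1]
        exact (hZ.rng _).2
      have h3 : C * Real.exp (-|τ|) ≤ max C 0 * Real.exp (-|τ|) := by
        gcongr
        exact le_max_left _ _
      have hm0 : 0 ≤ max C 0 := le_max_right _ _
      calc ‖F (rx t τ) (ry t τ)‖ * (|X t| * |Z (τ / n)|)
          ≤ (max C 0 * Real.exp (-|τ|)) * (|X t| * 1) := by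
            gcongr
            exact h1.trans h3
        _ = _ := by ring
  have hcont : ∀ n : ℕ, Continuous (fun p : ℝ × ℝ =>
      F (rx p.1 p.2) (ry p.1 p.2) * ((X p.1 * Z (p.2 / n) : ℝ) : ℂ)) := by
    intro n
    refine (joint_cont hF).mul ?_
    refine Complex.continuous_ofReal.comp ?_
    exact (cX.comp continuous_fst).mul (cZ.comp (continuous_snd.div_const _))
  refine tendsto_integral_of_dominated_convergence (fun t => max C 0 * |X t| * J) ?_ ?_ ?_ ?_
  · intro n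
    exact ((hcont n).stronglyMeasurable.integral_prod_right').aestronglyMeasurable
  · have : Integrable (fun t => |X t|) :=
      (cX.integrable_of_hasCompactSupport hX.cpt).abs
    have h := this.const_mul (max C 0 * J)
    refine h.congr (ae_of_all _ fun t => ?_)
    dsimp only
    ring
  · intro n
    refine ae_of_all _ fun t => ?_
    calc ‖∫ τ : ℝ, F (rx t τ) (ry t τ) * ((X t * Z (τ / n) : ℝ) : ℂ)‖
        ≤ ∫ τ : ℝ, (max C 0 * |X t|) * Real.exp (-|τ|) :=
          norm_integral_le_of_norm_le (int_exp.const_mul _) (ae_of_all _ fun τ => hbd n t τ)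
      _ = max C 0 * |X t| * J := by rw [integral_const_mul]
  · refine ae_of_all _ fun t => ?_
    have e : ray F t * X t = ∫ τ : ℝ, F (rx t τ) (ry t τ) * ((X t : ℝ) : ℂ) := by
      rw [integral_mul_const]
      rfl
    rw [e]
    refine tendsto_integral_of_dominated_convergence
      (fun τ => (max C 0 * |X t|) * Real.exp (-|τ|)) ?_ (int_exp.const_mul _) ?_ ?_
    · intro n
      have : Continuous (fun τ : ℝ => F (rx t τ) (ry t τ) * ((X t * Z (τ / n) : ℝ) : ℂ)) :=
        (hcont n).comp (f := fun τ : ℝ => (t, τ)) (by fun_prop)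
      exact this.aestronglyMeasurable
    · intro n
      exact ae_of_all _ fun τ => hbd n t τ
    · refine ae_of_all _ fun τ => ?_
      refine tendsto_const_nhds.congr' ?_
      obtain ⟨N, hN⟩ := exists_nat_ge |τ|
      filter_upwards [eventually_ge_atTop (max N 1)] with n hn
      have hn1 : (1 : ℝ) ≤ n := by exact_mod_cast (le_max_right N 1).trans hn
      have hnN : (N : ℝ) ≤ n := by exact_mod_cast (le_max_left N 1).trans hn
      have : Z (τ / n) = 1 := by
        apply hZ.one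
        rw [abs_div, abs_of_nonneg (show (0 : ℝ) ≤ n by linarith), div_le_one (by linarith)]
        linarith
      rw [this, mul_one]

end SFR_

/-- S-RAYB: decay on the rays -/
theorem pRAYB : sRAYB := by
  intro F hF hS A
  obtain ⟨C, -, h⟩ := SFR_.main_bound hF hS A
  refine ⟨C, fun t τ ht => ?_⟩
  rcases le_total 0 τ with hτ | hτ
  · rw [abs_of_nonneg hτ]
    exact h t τ ht hτ
  · rw [abs_of_nonpos hτ]
    have h1 := h (-t) (-τ) (by rwa [abs_neg]) (by linarith)
    rw [SFR_.refl hF] at h1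
    exact h1

/-- S-FR: the pairing of the cuspidal function -/
theorem pFR (h1 : sLX2) (h2 : sFB) (h3 : sLF) (h4 : sPOL) (h5 : sRAYB) (h6 : sXW) (h7 : sETA)
    (h8 : sTBC) : sFR := by
  intro F hA hC hS X hX
  obtain ⟨-, Z, hZ⟩ := h7
  obtain ⟨f1, f2, f3, f4, f5⟩ := h2 F hA hC hS
  have L1 := h1 X Z _ hX hZ f3 f4 f5
  refine tendsto_nhds_unique L1 ((SFR_.limit h5 hA hS hX hZ).congr' ?_)
  filter_upwards [eventually_ge_atTop 1] with n hn
  obtain ⟨hTH, -⟩ := h6 X Z n hX hZ.smooth hZ.zero hn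
  rw [h3 _ f1 f2 _ (h8 _ hTH).1,
    h4 (fun z : ℍ => F z.re z.im * XW X Z n z) (f1.mul (SFR_.sm_cont hTH.sm)) (hTH.cpt.mul_left)]
  refine integral_congr_ae (ae_of_all _ fun t => ?_)
  refine integral_congr_ae (ae_of_all _ fun τ => ?_)
  exact (SFR_.integrand F X Z n t τ).symm

end FMZ
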