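import Pool.Agent.FMZ.STargets

/-!
# FMZ, block S: the Green identity on the modular surface
-/

open Complex MeasureTheory Set Filter Topology
open UpperHalfPlane hiding I
open scoped ENNReal InnerProductSpace

namespace FMZ

namespace SGR_

theorem BC_integrable {B : ℍ → ℂ} (h : BC B) : Integrable B := by
  obtain ⟨hm, ⟨C, hC⟩, ⟨K, hK, hB⟩⟩ := h
  have hsupp : Function.support B ⊆ K := by
    intro z hz
    by_contra hzK
    exact hz (hB z hzK)
  rw [← integrableOn_iff_integrable_of_support_subset hsupp]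
  exact Measure.integrableOn_of_bounded (M := C) hK.measure_lt_top.ne hm.aestronglyMeasurable
    (ae_of_all _ hC)

theorem BC_mul {f B : ℍ → ℂ} (hf : Continuous f) (h : BC B) : BC (fun z => f z * B z) := by
  obtain ⟨hm, ⟨C, hC⟩, ⟨K, hK, hB⟩⟩ := h
  obtain ⟨M, hM⟩ := hK.exists_bound_of_continuousOn hf.continuousOn
  refine ⟨hf.measurable.mul hm, ⟨|M| * |C|, fun z => ?_⟩, ⟨K, hK, fun z hz => ?_⟩⟩
  · by_cases hz : z ∈ K
    · rw [norm_mul]
      exact mul_le_mul ((hM z hz).trans (le_abs_self _)) ((hC z).trans (le_abs_self _))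
        (norm_nonneg _) (abs_nonneg _)
    · rw [hB z hz, mul_zero, norm_zero]
      positivity
  · show f z * B z = 0
    rw [hB z hz, mul_zero]

end SGR_

open SGR_ in
theorem pGR (h1 : sUNF) (h2 : sGRAD) (h3 : sGREEN) (h4 : sTBC) (h5 : sCM) : sGR := by
  intro f P hf hP
  obtain ⟨hb, hg⟩ := h2 f P hf.sm hf.inv hP
  have hfl : BC (fun z => f z * lap P z) := BC_mul (h5 f hf.sm).1 (h4 P hP).2.1
  have e1 := (h1.2 _ hb.meas (BC_integrable hb)).2
  have e2 := (h1.2 _ hfl.meas (BC_integrable hfl)).2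
  have e3 : ∀ z, Poi (fun z => f z * lap P z) z = f z * Poi (lap P) z := by
    intro z
    unfold Poi
    rw [← tsum_mul_left]
    refine tsum_congr fun g => ?_
    show f (g • z) * lap P (g • z) = f z * lap P (g • z)
    rw [hf.inv g z]
  simp_rw [hg]
  rw [e1, h3 f P hf.sm hP, ← e2]
  exact integral_congr_ae (ae_of_all _ e3)

end FMZ
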