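import Pool.Agent.FMZ.STargets

/-!
# FMZ, S-GRAD: conformal invariance of the product of gradients
-/

open Complex MeasureTheory Set Filter Topology
open UpperHalfPlane hiding I
open scoped ENNReal InnerProductSpace

namespace FMZ

namespace SGRAD_

lemma ex_coe (f : ℍ → ℂ) (z : ℍ) : ex f (z : ℂ) = f z := by
  unfold ex
  rw [ofComplex_apply]

/-- the denominator -/
noncomputable def den (g : SG) (w : ℂ) : ℂ := ((g 1 0 : ℤ) : ℂ) * w + ((g 1 1 : ℤ) : ℂ)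

/-- the Möbius transformation -/
noncomputable def mob (g : SG) (w : ℂ) : ℂ :=
  (((g 0 0 : ℤ) : ℂ) * w + ((g 0 1 : ℤ) : ℂ)) / den g w

lemma mob_coe (g : SG) (z : ℍ) : mob g (z : ℂ) = ((g • z : ℍ) : ℂ) := by
  rw [coe_specialLinearGroup_apply]
  simp [mob, den]

lemma den_ne (g : SG) (z : ℍ) : den g (z : ℂ) ≠ 0 := by
  intro h
  have him : (den g (z : ℂ)).im = (g 1 0 : ℤ) * z.im := by
    simp [den]
  have hre : (den g (z : ℂ)).re = (g 1 0 : ℤ) * z.re + (g 1 1 : ℤ) := by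
    simp [den]
  rw [h] at him hre
  simp only [Complex.zero_im, Complex.zero_re] at him hre
  have hc : g 1 0 = 0 := by
    rcases mul_eq_zero.1 him.symm with h1 | h1
    · exact_mod_cast h1
    · exact absurd h1 z.im_pos.ne'
  rw [hc] at hre
  have hd : g 1 1 = 0 := by
    have : ((g 1 1 : ℤ) : ℝ) = 0 := by
      simpa using hre.symm
    exact_mod_cast this
  have hdet := Matrix.det_fin_two (g : Matrix (Fin 2) (Fin 2) ℤ)
  rw [g.det_coe, hc, hd] at hdet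
  simp at hdet

lemma hasDerivAt_mob (g : SG) (z : ℍ) :
    HasDerivAt (mob g) (1 / den g (z : ℂ) ^ 2) (z : ℂ) := by
  have h1 : HasDerivAt (fun w : ℂ => ((g 0 0 : ℤ) : ℂ) * w + ((g 0 1 : ℤ) : ℂ))
      ((g 0 0 : ℤ) : ℂ) (z : ℂ) := by
    simpa using ((hasDerivAt_id (z : ℂ)).const_mul ((g 0 0 : ℤ) : ℂ)).add_const ((g 0 1 : ℤ) : ℂ)
  have h2 : HasDerivAt (den g) ((g 1 0 : ℤ) : ℂ) (z : ℂ) := by
    have h4 := ((hasDerivAt_id (z : ℂ)).const_mul ((g 1 0 : ℤ) : ℂ)).add_const ((g 1 1 : ℤ) : ℂ)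
    rw [mul_one] at h4
    exact h4
  have h3 := h1.div h2 (den_ne g z)
  refine h3.congr_deriv ?_
  have hdet := Matrix.det_fin_two (g : Matrix (Fin 2) (Fin 2) ℤ)
  rw [g.det_coe] at hdet
  have hdet' : (1 : ℂ) = ((g 0 0 : ℤ) : ℂ) * ((g 1 1 : ℤ) : ℂ) -
      ((g 0 1 : ℤ) : ℂ) * ((g 1 0 : ℤ) : ℂ) := by
    exact_mod_cast hdet
  congr 1
  rw [hdet']
  simp only [den]
  ring

lemma im_sq (g : SG) (z : ℍ) :
    Complex.normSq (1 / den g (z : ℂ) ^ 2) * z.im ^ 2 = (g • z).im ^ 2 := by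
  have h1 : (g • z).im = z.im / Complex.normSq (den g (z : ℂ)) := by
    have := ModularGroup.im_smul_eq_div_normSq g z
    rw [this]
    congr 2
  rw [h1, map_div₀, map_one, map_pow]
  have : Complex.normSq (den g (z : ℂ)) ≠ 0 := by
    rw [Ne, Complex.normSq_eq_zero]
    exact den_ne g z
  field_simp

lemma im_pos_mem (z : ℍ) : {w : ℂ | 0 < w.im} ∈ 𝓝 (z : ℂ) :=
  (isOpen_lt continuous_const Complex.continuous_im).mem_nhds z.im_pos

lemma ex_smul (P : ℍ → ℂ) (g : SG) {w : ℂ} (hw : 0 < w.im) :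
    ex (fun z => P (g • z)) w = ex P (mob g w) := by
  have h1 : w = ((⟨w, hw⟩ : ℍ) : ℂ) := rfl
  rw [h1, ex_coe, mob_coe, ex_coe]

lemma sm_diff {f : ℍ → ℂ} (hf : Sm f) (z : ℍ) : DifferentiableAt ℝ (ex f) (z : ℂ) :=
  (hf.contDiffAt (im_pos_mem z)).differentiableAt (by simp)

/-- multiplication by a complex number as a real linear map -/
noncomputable def mulL (j : ℂ) : ℂ →L[ℝ] ℂ :=
  (ContinuousLinearMap.toSpanSingleton ℂ j).restrictScalars ℝ

lemma mulL_apply (j e : ℂ) : mulL j e = e * j := by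
  simp [mulL]

lemma hasFDerivAt_smul {P : ℍ → ℂ} (hP : Sm P) (g : SG) (z : ℍ) :
    HasFDerivAt (ex (fun z => P (g • z)))
      ((fderiv ℝ (ex P) ((g • z : ℍ) : ℂ)).comp (mulL (1 / den g (z : ℂ) ^ 2))) (z : ℂ) := by
  have h1 : HasFDerivAt (mob g) (mulL (1 / den g (z : ℂ) ^ 2)) (z : ℂ) :=
    (hasDerivAt_mob g z).hasFDerivAt.restrictScalars ℝ
  have h2 : HasFDerivAt (ex P) (fderiv ℝ (ex P) ((g • z : ℍ) : ℂ)) (mob g (z : ℂ)) := by
    rw [mob_coe]
    exact (sm_diff hP (g • z)).hasFDerivAt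
  have h3 := h2.comp (z : ℂ) h1
  refine h3.congr_of_eventuallyEq ?_
  filter_upwards [im_pos_mem z] with w hw
  exact ex_smul P g hw

lemma alg (A B : ℂ →L[ℝ] ℂ) (j : ℂ) :
    A (1 * j) * B (1 * j) + A (I * j) * B (I * j) =
      (Complex.normSq j : ℂ) * (A 1 * B 1 + A I * B I) := by
  have e : ∀ (A : ℂ →L[ℝ] ℂ) (w : ℂ), A w = (w.re : ℂ) * A 1 + (w.im : ℂ) * A I := by
    intro A w
    conv_lhs => rw [← Complex.re_add_im w]
    have h1 : ((w.re : ℂ)) = w.re • (1 : ℂ) := by simp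
    have h2 : ((w.im : ℂ)) * I = w.im • I := by simp
    rw [map_add, h1, h2, map_smul, map_smul]
    simp
  rw [e A (1 * j), e B (1 * j), e A (I * j), e B (I * j), Complex.normSq_apply]
  simp only [one_mul, Complex.mul_re, Complex.I_re, zero_mul, Complex.I_im, zero_sub,
    Complex.mul_im, zero_add]
  push_cast
  ring

/-- the product of gradients -/
noncomputable def KK (f P : ℍ → ℂ) (w : ℍ) : ℂ := gx f w * gx P w + gy f w * gy P w

lemma key {f P : ℍ → ℂ} (hf : Sm f) (hfi : Inv f) (hP : Sm P) (g : SG) (z : ℍ) :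
    gx f z * gx (fun z => P (g • z)) z + gy f z * gy (fun z => P (g • z)) z =
      KK f P (g • z) := by
  have hf1 : (fun z => f (g • z)) = f := funext fun z => hfi g z
  have e1 := (hasFDerivAt_smul hP g z).fderiv
  have e2 := (hasFDerivAt_smul hf g z).fderiv
  rw [hf1] at e2
  unfold KK gx gy
  rw [e1, e2]
  simp only [ContinuousLinearMap.comp_apply, mulL_apply]
  have h3 := alg (fderiv ℝ (ex f) ((g • z : ℍ) : ℂ)) (fderiv ℝ (ex P) ((g • z : ℍ) : ℂ))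
    (1 / den g (z : ℂ) ^ 2)
  have h4 : ((Complex.normSq (1 / den g (z : ℂ) ^ 2) : ℝ) : ℂ) * (z.im : ℂ) ^ 2 =
      ((g • z).im : ℂ) ^ 2 := by
    exact_mod_cast im_sq g z
  calc _ = (z.im : ℂ) ^ 2 * (fderiv ℝ (ex f) ((g • z : ℍ) : ℂ) (1 * (1 / den g (z : ℂ) ^ 2)) *
        fderiv ℝ (ex P) ((g • z : ℍ) : ℂ) (1 * (1 / den g (z : ℂ) ^ 2)) +
        fderiv ℝ (ex f) ((g • z : ℍ) : ℂ) (I * (1 / den g (z : ℂ) ^ 2)) *
        fderiv ℝ (ex P) ((g • z : ℍ) : ℂ) (I * (1 / den g (z : ℂ) ^ 2))) := by ring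
    _ = ((g • z).im : ℂ) ^ 2 * (fderiv ℝ (ex f) ((g • z : ℍ) : ℂ) 1 *
        fderiv ℝ (ex P) ((g • z : ℍ) : ℂ) 1 + fderiv ℝ (ex f) ((g • z : ℍ) : ℂ) I *
        fderiv ℝ (ex P) ((g • z : ℍ) : ℂ) I) := by
        rw [h3, ← h4]
        ring
    _ = _ := by ring

lemma grad_zero {P : ℍ → ℂ} {z : ℍ} (hz : z ∉ tsupport P) : gx P z = 0 ∧ gy P z = 0 := by
  have h1 : P =ᶠ[𝓝 z] 0 := notMem_tsupport_iff_eventuallyEq.1 hz
  have h2 : ex P =ᶠ[𝓝 (z : ℂ)] fun _ => 0 := by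
    have h3 : UpperHalfPlane.coe '' {w | P w = 0} ∈ 𝓝 (z : ℂ) :=
      (isOpenEmbedding_coe.image_mem_nhds).2 h1
    filter_upwards [h3] with w hw
    obtain ⟨w', hw', rfl⟩ := hw
    rw [ex_coe]
    exact hw'
  have h4 : fderiv ℝ (ex P) (z : ℂ) = 0 := by
    rw [h2.fderiv_eq]
    simp
  unfold gx gy
  rw [h4]
  simp

lemma KK_zero (f : ℍ → ℂ) {P : ℍ → ℂ} {z : ℍ} (hz : z ∉ tsupport P) : KK f P z = 0 := by
  obtain ⟨h1, h2⟩ := grad_zero hz
  unfold KK
  rw [h1, h2]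
  ring

end SGRAD_

open SGRAD_

theorem pGRAD (hPD : sPD) (hCM : sCM) : sGRAD := by
  intro f P hf hfi hP
  obtain ⟨-, hf1, hf2, -⟩ := hCM f hf
  obtain ⟨-, hP1, hP2, -⟩ := hCM P hP.sm
  have hKc : Continuous (KK f P) := by
    unfold KK
    exact (hf1.mul hP1).add (hf2.mul hP2)
  have hcpt : IsCompact (tsupport P) := hP.cpt
  refine ⟨⟨hKc.measurable, ?_, ⟨tsupport P, hcpt, fun z hz => KK_zero f hz⟩⟩, fun z => ?_⟩
  · obtain ⟨C, hC⟩ := hcpt.exists_bound_of_continuousOn hKc.continuousOn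
    refine ⟨max C 0, fun z => ?_⟩
    by_cases hz : z ∈ tsupport P
    · exact (hC z hz).trans (le_max_left _ _)
    · change ‖KK f P z‖ ≤ _
      rw [KK_zero f hz, norm_zero]
      exact le_max_right _ _
  · obtain ⟨N, hN, hNz⟩ := exists_compact_mem_nhds z
    have hfin := hPD.1 N (tsupport P) hN hcpt
    set G : Finset SG := hfin.toFinset with hG
    have hGz : ∀ w ∈ N, ∀ g ∉ G, g • w ∉ tsupport P := by
      intro w hw g hg hcon
      exact hg (by rw [hG, Set.Finite.mem_toFinset]; exact ⟨w, hw, hcon⟩)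
    have hPoi : ∀ w ∈ N, Poi P w = ∑ g ∈ G, P (g • w) := by
      intro w hw
      unfold Poi
      exact tsum_eq_sum fun g hg => image_eq_zero_of_notMem_tsupport (hGz w hw g hg)
    have hev : ex (Poi P) =ᶠ[𝓝 (z : ℂ)] fun w => ∑ g ∈ G, ex (fun z => P (g • z)) w := by
      have h3 : UpperHalfPlane.coe '' N ∈ 𝓝 (z : ℂ) :=
        (isOpenEmbedding_coe.image_mem_nhds).2 hNz
      filter_upwards [h3] with w hw
      obtain ⟨w', hw', rfl⟩ := hw
      rw [ex_coe, hPoi w' hw']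
      exact Finset.sum_congr rfl fun g _ => (ex_coe (fun z => P (g • z)) w').symm
    have hfd : fderiv ℝ (ex (Poi P)) (z : ℂ) =
        ∑ g ∈ G, fderiv ℝ (ex (fun z => P (g • z))) (z : ℂ) := by
      rw [hev.fderiv_eq]
      have : HasFDerivAt (fun w => ∑ g ∈ G, ex (fun z => P (g • z)) w)
          (∑ g ∈ G, fderiv ℝ (ex (fun z => P (g • z))) (z : ℂ)) (z : ℂ) :=
        HasFDerivAt.fun_sum fun g _ => (hasFDerivAt_smul hP.sm g z).differentiableAt.hasFDerivAt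
      exact this.fderiv
    have hgx : gx (Poi P) z = ∑ g ∈ G, gx (fun z => P (g • z)) z := by
      unfold gx
      rw [hfd, sum_apply, Finset.mul_sum]
    have hgy : gy (Poi P) z = ∑ g ∈ G, gy (fun z => P (g • z)) z := by
      unfold gy
      rw [hfd, sum_apply, Finset.mul_sum]
    have hR : Poi (fun w => gx f w * gx P w + gy f w * gy P w) z = ∑ g ∈ G, KK f P (g • z) := by
      unfold Poi
      exact tsum_eq_sum fun g hg => KK_zero f (hGz z (mem_of_mem_nhds hNz) g hg)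
    rw [hgx, hgy, hR, Finset.mul_sum, Finset.mul_sum, ← Finset.sum_add_distrib]
    exact Finset.sum_congr rfl fun g _ => key hf hfi hP.sm g z

end FMZ
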