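import Pool.Agent.FMZ.STargets

/-!
# FMZ, S-GREEN: the Green identity on the upper half plane
-/

open Complex MeasureTheory Set Filter Topology
open UpperHalfPlane hiding I
open scoped ENNReal NNReal

namespace FMZ

namespace SGREEN_

/-- the open upper half plane in ℂ -/
def U : Set ℂ := {w : ℂ | 0 < w.im}

lemma isOpen_U : IsOpen U := isOpen_lt continuous_const Complex.continuous_im

lemma range_coe' : range (UpperHalfPlane.coe) = U := by
  ext w
  constructor
  · rintro ⟨z, rfl⟩
    exact z.im_pos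
  · intro hw
    exact ⟨⟨w, hw⟩, rfl⟩

lemma coe_of {w : ℂ} (hw : w ∈ U) : ((ofComplex w : ℍ) : ℂ) = w := by
  rw [ofComplex_apply_of_im_pos hw]

/-- the integral over ℍ as an integral over ℂ -/
lemma int_H (k : ℍ → ℂ) :
    ∫ z : ℍ, k z = ∫ w in U, ((1 / w.im ^ 2 : ℝ) : ℂ) * k (ofComplex w) := by
  have hm : Measurable (fun z : ℍ => ((1 / NNReal.mk z.im z.im_pos.le : ℝ≥0) ^ 2)) := by
    have h1 : Measurable (fun z : ℍ => NNReal.mk z.im z.im_pos.le) := by
      apply Measurable.subtype_mk
      exact Complex.measurable_im.comp UpperHalfPlane.measurable_coe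
    exact ((measurable_const.div h1).pow_const 2)
  have hp : MeasurePreserving UpperHalfPlane.coe (volume.comap UpperHalfPlane.coe)
      (volume.restrict (.range UpperHalfPlane.coe)) :=
    ⟨measurable_coe, by rw [measurableEmbedding_coe.map_comap]⟩
  rw [volume_def, integral_withDensity_eq_integral_smul hm, ← range_coe',
    ← hp.integral_comp measurableEmbedding_coe]
  apply integral_congr_ae
  refine Eventually.of_forall fun z => ?_
  have hz : ofComplex (z : ℂ) = z := ofComplex_apply z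
  simp only [hz, NNReal.smul_def, Complex.real_smul]
  congr 1
  push_cast
  simp

/-- extension by zero -/
noncomputable def ez (P : ℍ → ℂ) : ℂ → ℂ := U.indicator (ex P)

/-- the support in ℂ -/
def KK (P : ℍ → ℂ) : Set ℂ := UpperHalfPlane.coe '' (tsupport P)

lemma KK_cpt {P : ℍ → ℂ} (hP : TH P) : IsCompact (KK P) :=
  hP.cpt.isCompact.image UpperHalfPlane.continuous_coe

lemma KK_sub (P : ℍ → ℂ) : KK P ⊆ U := by
  rintro _ ⟨z, -, rfl⟩
  exact z.im_pos

lemma supp_ez (P : ℍ → ℂ) : Function.support (ez P) ⊆ KK P := by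
  intro w hw
  have hwU : w ∈ U := by
    by_contra h
    exact hw (indicator_of_notMem h _)
  have h1 : P (ofComplex w) ≠ 0 := by
    intro h
    apply hw
    rw [ez, indicator_of_mem hwU]
    exact h
  exact ⟨ofComplex w, subset_tsupport P h1, coe_of hwU⟩

lemma tsupp_ez {P : ℍ → ℂ} (hP : TH P) : tsupport (ez P) ⊆ KK P :=
  closure_minimal (supp_ez P) (KK_cpt hP).isClosed

lemma ez_eq (P : ℍ → ℂ) {w : ℂ} (hw : w ∈ U) : ez P =ᶠ[𝓝 w] ex P := by
  filter_upwards [isOpen_U.mem_nhds hw] with y hy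
  exact indicator_of_mem hy _

lemma ez_smooth {P : ℍ → ℂ} (hP : TH P) : ContDiff ℝ (⊤ : ℕ∞) (ez P) := by
  rw [contDiff_iff_contDiffAt]
  intro w
  by_cases hw : w ∈ tsupport (ez P)
  · have hwU : w ∈ U := KK_sub P (tsupp_ez hP hw)
    exact (hP.sm.contDiffAt (isOpen_U.mem_nhds hwU)).congr_of_eventuallyEq (ez_eq P hwU)
  · have h0 : ez P =ᶠ[𝓝 w] fun _ => 0 := by
      filter_upwards [(isClosed_tsupport (ez P)).isOpen_compl.mem_nhds hw] with y hy
      exact image_eq_zero_of_notMem_tsupport hy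
    exact contDiffAt_const.congr_of_eventuallyEq h0

/-- the directional derivative -/
noncomputable def qv (P : ℍ → ℂ) (v : ℂ) (w : ℂ) : ℂ := fderiv ℝ (ez P) w v

lemma qv_smooth {P : ℍ → ℂ} (hP : TH P) (v : ℂ) : ContDiff ℝ (⊤ : ℕ∞) (qv P v) := by
  have h := (ez_smooth hP).fderiv_right (m := (⊤ : ℕ∞)) (by simp)
  exact h.clm_apply contDiff_const

lemma qv_supp {P : ℍ → ℂ} (hP : TH P) (v : ℂ) : Function.support (qv P v) ⊆ KK P := by
  intro w hw
  apply tsupp_ez hP
  by_contra h
  apply hw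
  have := fderiv_of_notMem_tsupport (𝕜 := ℝ) h
  simp [qv, this]

lemma qv_tsupp {P : ℍ → ℂ} (hP : TH P) (v : ℂ) : tsupport (qv P v) ⊆ KK P :=
  closure_minimal (qv_supp hP v) (KK_cpt hP).isClosed

lemma dqv_supp {P : ℍ → ℂ} (hP : TH P) (v : ℂ) :
    Function.support (fun w => fderiv ℝ (qv P v) w v) ⊆ KK P := by
  intro w hw
  apply qv_tsupp hP v
  by_contra h
  apply hw
  have := fderiv_of_notMem_tsupport (𝕜 := ℝ) h
  simp [this]

lemma qv_eq (P : ℍ → ℂ) (v : ℂ) {w : ℂ} (hw : w ∈ U) : qv P v w = fderiv ℝ (ex P) w v := by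
  rw [qv, (ez_eq P hw).fderiv_eq]

lemma qv_eq' (P : ℍ → ℂ) (v : ℂ) {w : ℂ} (hw : w ∈ U) :
    fderiv ℝ (qv P v) w v = fderiv ℝ (fun w => fderiv ℝ (ex P) w v) w v := by
  have : qv P v =ᶠ[𝓝 w] fun w => fderiv ℝ (ex P) w v := by
    filter_upwards [isOpen_U.mem_nhds hw] with y hy
    exact qv_eq P v hy
  rw [this.fderiv_eq]

/-- products of a function continuous on the half plane with a function supported in a compact
part are integrable -/
lemma integrable_mul {P : ℍ → ℂ} (hP : TH P) {F g : ℂ → ℂ} (hF : ContinuousOn F U)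
    (hg : Continuous g) (hs : Function.support g ⊆ KK P) : Integrable (fun w => F w * g w) := by
  have h1 : IntegrableOn (fun w => F w * g w) (KK P) :=
    ((hF.mono (KK_sub P)).mul hg.continuousOn).integrableOn_compact (KK_cpt hP)
  refine (integrableOn_iff_integrable_of_support_subset ?_).1 h1
  intro w hw
  apply hs
  intro h
  apply hw
  simp [h]

/-- integration by parts -/
lemma parts {f P : ℍ → ℂ} (hf : Sm f) (hP : TH P) (v : ℂ) :
    ∫ w : ℂ, ex f w * fderiv ℝ (qv P v) w v = - ∫ w : ℂ, fderiv ℝ (ex f) w v * qv P v w := by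
  have hfd : ContDiffOn ℝ (⊤ : ℕ∞) (fun w => fderiv ℝ (ex f) w v) U := by
    have h : ContDiffOn ℝ (⊤ : ℕ∞) (fderiv ℝ (ex f)) U :=
      ContDiffOn.fderiv_of_isOpen hf isOpen_U (by simp)
    exact h.clm_apply contDiffOn_const
  have hq := qv_smooth hP v
  have hdq : Continuous (fun w => fderiv ℝ (qv P v) w v) := by
    have h := hq.fderiv_right (m := (⊤ : ℕ∞)) (by simp)
    exact (h.clm_apply contDiff_const).continuous
  apply integral_mul_fderiv_eq_neg_fderiv_mul_of_integrable
  · exact integrable_mul hP hfd.continuousOn hq.continuous (qv_supp hP v)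
  · exact integrable_mul hP hf.continuousOn hdq (dqv_supp hP v)
  · exact integrable_mul hP hf.continuousOn hq.continuous (qv_supp hP v)
  · intro w hw
    have hwU : w ∈ U := KK_sub P (qv_tsupp hP v hw)
    exact (hf.contDiffAt (isOpen_U.mem_nhds hwU)).differentiableAt (by simp)
  · intro w _
    exact hq.differentiable (by simp) w

end SGREEN_

open SGREEN_

theorem pGREEN : sGREEN := by
  intro f P hf hP
  have hfd : ∀ v : ℂ, ContDiffOn ℝ (⊤ : ℕ∞) (fun w => fderiv ℝ (ex f) w v) U := by
    intro v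
    have h : ContDiffOn ℝ (⊤ : ℕ∞) (fderiv ℝ (ex f)) U :=
      ContDiffOn.fderiv_of_isOpen hf isOpen_U (by simp)
    exact h.clm_apply contDiffOn_const
  have hdq : ∀ v : ℂ, Continuous (fun w => fderiv ℝ (qv P v) w v) := by
    intro v
    have h := (qv_smooth hP v).fderiv_right (m := (⊤ : ℕ∞)) (by simp)
    exact (h.clm_apply contDiff_const).continuous
  have i1 : ∀ v : ℂ, Integrable (fun w => fderiv ℝ (ex f) w v * qv P v w) := fun v =>
    integrable_mul hP (hfd v).continuousOn (qv_smooth hP v).continuous (qv_supp hP v)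
  have i2 : ∀ v : ℂ, Integrable (fun w => ex f w * fderiv ℝ (qv P v) w v) := fun v =>
    integrable_mul hP hf.continuousOn (hdq v) (dqv_supp hP v)
  have hL : ∫ z : ℍ, (gx f z * gx P z + gy f z * gy P z) =
      ∫ w : ℂ, (fderiv ℝ (ex f) w 1 * qv P 1 w + fderiv ℝ (ex f) w I * qv P I w) := by
    rw [int_H]
    have e1 : ∫ w in U, ((1 / w.im ^ 2 : ℝ) : ℂ) *
        (gx f (ofComplex w) * gx P (ofComplex w) + gy f (ofComplex w) * gy P (ofComplex w)) =
        ∫ w in U, (fderiv ℝ (ex f) w 1 * qv P 1 w + fderiv ℝ (ex f) w I * qv P I w) := by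
      apply setIntegral_congr_fun isOpen_U.measurableSet
      intro w hw
      have hw0 : (w.im : ℂ) ≠ 0 := by
        have : w.im ≠ 0 := ne_of_gt hw
        exact_mod_cast this
      have him : (ofComplex w : ℍ).im = w.im := by
        rw [← UpperHalfPlane.coe_im, coe_of hw]
      simp only [gx, gy, coe_of hw, him, qv_eq P _ hw]
      push_cast
      field_simp
    rw [e1]
    apply setIntegral_eq_integral_of_forall_compl_eq_zero
    intro w hw
    have h1 : ∀ v, qv P v w = 0 := by
      intro v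
      by_contra h
      exact hw (KK_sub P (qv_supp hP v h))
    simp [h1]
  have hR : ∫ z : ℍ, f z * lap P z =
      - ∫ w : ℂ, (ex f w * fderiv ℝ (qv P 1) w 1 + ex f w * fderiv ℝ (qv P I) w I) := by
    rw [int_H, ← integral_neg]
    have e1 : ∫ w in U, ((1 / w.im ^ 2 : ℝ) : ℂ) *
        (f (ofComplex w) * lap P (ofComplex w)) =
        ∫ w in U, -(ex f w * fderiv ℝ (qv P 1) w 1 + ex f w * fderiv ℝ (qv P I) w I) := by
      apply setIntegral_congr_fun isOpen_U.measurableSet
      intro w hw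
      have hw0 : (w.im : ℂ) ≠ 0 := by
        have : w.im ≠ 0 := ne_of_gt hw
        exact_mod_cast this
      have him : (ofComplex w : ℍ).im = w.im := by
        rw [← UpperHalfPlane.coe_im, coe_of hw]
      simp only [lap, coe_of hw, him, qv_eq' P _ hw, ex]
      push_cast
      field_simp
    rw [e1]
    apply setIntegral_eq_integral_of_forall_compl_eq_zero
    intro w hw
    have h1 : ∀ v, fderiv ℝ (qv P v) w v = 0 := by
      intro v
      by_contra h
      exact hw (KK_sub P (dqv_supp hP v h))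
    simp [h1]
  rw [hL, hR, integral_add (i1 1) (i1 I), integral_add (i2 1) (i2 I), parts hf hP 1,
    parts hf hP I]
  ring

end FMZ
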