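import Pool.Agent.FMZ.SPD

/-!
# FMZ-S-HI: functions supported in y > 1
-/

open Complex MeasureTheory Set Filter Topology
open UpperHalfPlane hiding I

namespace FMZ

namespace SHI_

open SPD_

/-- On the open fundamental domain, an element with `c ≠ 0` moves points to height at most 1. -/
lemma im_le_one {g : SG} {z : ℍ} (hz : z ∈ Dm) (hc : g 1 0 ≠ 0) : (g • z).im ≤ 1 := by
  have h1 := denom_sq g z
  have hy := z.im_pos
  have hgy := (g • z).im_pos
  rw [← Complex.normSq_eq_norm_sq, Complex.normSq_apply, lin_re, lin_im] at h1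
  set c : ℝ := ((g 1 0 : ℤ) : ℝ) with hcdef
  set d : ℝ := ((g 1 1 : ℤ) : ℝ) with hddef
  have hz1 : 1 < z.re * z.re + z.im * z.im := by
    have := hz.1
    rw [Complex.normSq_apply] at this
    exact this
  have hz2 : |z.re| < 1 / 2 := hz.2
  have hc1 : 1 ≤ |c| := by
    have : (1 : ℤ) ≤ |g 1 0| := Int.one_le_abs hc
    rw [hcdef]
    exact_mod_cast this
  have hc2 : 1 ≤ c ^ 2 := by
    rw [← sq_abs]
    nlinarith
  have hd2 : d = 0 ∨ 1 ≤ |d| := by
    by_cases h : g 1 1 = 0
    · left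
      rw [hddef, h]
      simp
    · right
      have : (1 : ℤ) ≤ |g 1 1| := Int.one_le_abs h
      rw [hddef]
      exact_mod_cast this
  have hq : z.im ≤ (c * z.re + d) * (c * z.re + d) + c * z.im * (c * z.im) := by
    have e : (c * z.re + d) * (c * z.re + d) + c * z.im * (c * z.im) =
        c ^ 2 * (z.re * z.re + z.im * z.im) + 2 * (c * d) * z.re + d ^ 2 := by ring
    by_cases hy1 : 1 ≤ z.im
    · have h2 : z.im ^ 2 ≤ c ^ 2 * z.im ^ 2 := by nlinarith [sq_nonneg z.im]
      nlinarith [sq_nonneg (c * z.re + d)]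
    · push Not at hy1
      rw [e]
      have h3 : |2 * (c * d) * z.re| ≤ |c| * |d| := by
        rw [abs_mul, abs_mul, abs_mul, abs_two]
        have : 0 ≤ |c| * |d| := by positivity
        nlinarith
      have h4 := (abs_le.mp h3).1
      have h5 : c ^ 2 ≤ c ^ 2 * (z.re * z.re + z.im * z.im) := by nlinarith
      have h6 : 1 ≤ c ^ 2 + d ^ 2 - |c| * |d| := by
        rw [← sq_abs c, ← sq_abs d]
        rcases hd2 with h | h
        · rw [h]
          simp only [abs_zero]
          nlinarith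
        · nlinarith [sq_nonneg (|c| - |d|)]
      linarith
  by_contra hcon
  push Not at hcon
  nlinarith

/-- the matrices `± T^m` -/
def phi : ℤ ⊕ ℤ → SG
  | Sum.inl m => ModularGroup.T ^ m
  | Sum.inr m => -(ModularGroup.T ^ m)

lemma phi_inj : Function.Injective phi := by
  have h00 : ∀ m : ℤ, (ModularGroup.T ^ m : SG) 0 0 = 1 := by
    intro m
    have := congrFun (congrFun (ModularGroup.coe_T_zpow m) 0) 0
    simpa using this
  have h01 : ∀ m : ℤ, (ModularGroup.T ^ m : SG) 0 1 = m := by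
    intro m
    have := congrFun (congrFun (ModularGroup.coe_T_zpow m) 0) 1
    simpa using this
  have n00 : ∀ m : ℤ, (-(ModularGroup.T ^ m) : SG) 0 0 = -1 := by
    intro m
    have := h00 m
    simp [this]
  have n01 : ∀ m : ℤ, (-(ModularGroup.T ^ m) : SG) 0 1 = -m := by
    intro m
    have := h01 m
    simp [this]
  rintro (m | m) (n | n) h
  · have := congrArg (fun g : SG => g 0 1) h
    simp only [phi, h01] at this
    rw [this]
  · exfalso
    have := congrArg (fun g : SG => g 0 0) h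
    simp only [phi, h00, n00] at this
    omega
  · exfalso
    have := congrArg (fun g : SG => g 0 0) h
    simp only [phi, h00, n00] at this
    omega
  · have := congrArg (fun g : SG => g 0 1) h
    simp only [phi, n01] at this
    rw [neg_injective this]

lemma mem_range_phi {g : SG} (hc : g 1 0 = 0) : g ∈ range phi := by
  have had := g.det_coe
  replace had : g 0 0 * g 1 1 = 1 := by
    rw [Matrix.det_fin_two, hc] at had
    lia
  rcases Int.eq_one_or_neg_one_of_mul_eq_one' had with (⟨ha, hd⟩ | ⟨ha, hd⟩)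
  · refine ⟨Sum.inl (g 0 1), ?_⟩
    show ModularGroup.T ^ (g 0 1) = g
    ext i j; fin_cases i <;> fin_cases j <;>
      simp [ha, hc, hd, ModularGroup.coe_T_zpow, show (1 : Fin (0 + 2)) = (1 : Fin 2) from rfl]
  · refine ⟨Sum.inr (-(g 0 1)), ?_⟩
    show -(ModularGroup.T ^ (-(g 0 1))) = g
    ext i j; fin_cases i <;> fin_cases j <;>
      simp [ha, hc, hd, ModularGroup.coe_T_zpow, show (1 : Fin (0 + 2)) = (1 : Fin 2) from rfl]

lemma summable_shift {B : ℍ → ℂ} (hB : BC B) (z : ℍ) :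
    Summable fun m : ℤ => B ((m : ℝ) +ᵥ z) := by
  obtain ⟨K, hK, hKB⟩ := hB.cpt
  obtain ⟨e, R, -, -, hR⟩ := compact_bounds K hK
  apply summable_of_hasFiniteSupport
  have hfin : (Icc (-⌈R + |z.re|⌉) ⌈R + |z.re|⌉ : Set ℤ).Finite := finite_Icc _ _
  refine hfin.subset ?_
  intro m hm
  have hmK : ((m : ℝ) +ᵥ z) ∈ K := by
    by_contra h
    exact hm (hKB _ h)
  have h1 := (hR _ hmK).2
  have h2 := (Complex.abs_re_le_norm (((m : ℝ) +ᵥ z : ℍ) : ℂ)).trans h1
  have h3 : (((m : ℝ) +ᵥ z : ℍ) : ℂ).re = m + z.re := by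
    rw [UpperHalfPlane.coe_vadd]
    simp
  rw [h3] at h2
  have h4 : |(m : ℝ)| ≤ R + |z.re| := by
    have := abs_sub_abs_le_abs_sub (m : ℝ) (-z.re)
    rw [abs_neg, sub_neg_eq_add] at this
    linarith
  have h5 : ((|m| : ℤ) : ℝ) ≤ (⌈R + |z.re|⌉ : ℤ) := by
    push_cast
    exact h4.trans (Int.le_ceil _)
  have h6 : |m| ≤ ⌈R + |z.re|⌉ := by exact_mod_cast h5
  exact abs_le.mp h6

end SHI_

open SHI_ in
theorem pHI : sHI := by
  intro B hB hB1 z hz
  have hsupp : Function.support (fun g : SG => B (g • z)) ⊆ range phi := by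
    intro g hg
    by_contra hcon
    have hc : g 1 0 ≠ 0 := fun h => hcon (mem_range_phi h)
    exact hg (hB1 _ (im_le_one hz hc))
  have h1 : Poi B z = ∑' p : ℤ ⊕ ℤ, B (phi p • z) := by
    unfold Poi
    exact (phi_inj.tsum_eq hsupp).symm
  have e1 : ∀ m : ℤ, B (phi (Sum.inl m) • z) = B ((m : ℝ) +ᵥ z) := by
    intro m
    show B ((ModularGroup.T ^ m) • z) = _
    rw [UpperHalfPlane.modular_T_zpow_smul]
  have e2 : ∀ m : ℤ, B (phi (Sum.inr m) • z) = B ((m : ℝ) +ᵥ z) := by
    intro m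
    show B ((-(ModularGroup.T ^ m)) • z) = _
    rw [ModularGroup.SL_neg_smul, UpperHalfPlane.modular_T_zpow_smul]
  have hs := summable_shift hB z
  have h2 : HasSum (fun p : ℤ ⊕ ℤ => B (phi p • z))
      ((∑' m : ℤ, B ((m : ℝ) +ᵥ z)) + ∑' m : ℤ, B ((m : ℝ) +ᵥ z)) := by
    apply HasSum.sum
    · have : ((fun p : ℤ ⊕ ℤ => B (phi p • z)) ∘ Sum.inl) = fun m : ℤ => B ((m : ℝ) +ᵥ z) :=
        funext e1
      rw [this]
      exact hs.hasSum
    · have : ((fun p : ℤ ⊕ ℤ => B (phi p • z)) ∘ Sum.inr) = fun m : ℤ => B ((m : ℝ) +ᵥ z) :=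
        funext e2
      rw [this]
      exact hs.hasSum
  rw [h1, h2.tsum_eq]
  ring

end FMZ
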