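import Pool.Agent.FMZ.STargets
import Pool.Agent.FMZ.TRSP

/-!
# FMZ, block S: the even solution of the radial equation
-/

open Complex MeasureTheory Set Filter Topology

namespace FMZ

namespace SJE_

/-- smoothness in the variable t = sinh d -/
lemma smooth_comp {f : ℂ → ℂ} (hf : DifferentiableOn ℂ f S0) :
    ContDiff ℝ (⊤ : ℕ∞) (fun t : ℝ => f (Real.arsinh t : ℝ)) := by
  rw [contDiff_iff_contDiffAt]
  intro t
  have h1 : ContDiffAt ℂ (⊤ : ℕ∞) f ((Real.arsinh t : ℝ) : ℂ) :=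
    ((hf.analyticOnNhd TRSP_.isOpen_S0) _ (TRSP_.real_mem _)).contDiffAt
  have h2 : ContDiffAt ℝ (⊤ : ℕ∞) (fun t : ℝ => ((Real.arsinh t : ℝ) : ℂ)) t :=
    (Complex.ofRealCLM.contDiff.comp Real.contDiff_arsinh).contDiffAt
  exact ContDiffAt.comp (g := f) (f := fun t : ℝ => ((Real.arsinh t : ℝ) : ℂ)) t
    (h1.restrict_scalars ℝ) h2

/-- the radial equation in the variable t = sinh d -/
lemma radial {f : ℂ → ℂ} (hf : DifferentiableOn ℂ f S0) {l : ℂ}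
    (hl : ∀ d ∈ S0, DD f d = l * f d) (t : ℝ) :
    -deriv (fun x : ℝ => (1 + x ^ 2 : ℝ) * deriv (fun t : ℝ => f (Real.arsinh t : ℝ)) x) t =
      l * f (Real.arsinh t : ℝ) := by
  have h1 : (fun x : ℝ => ((1 + x ^ 2 : ℝ) : ℂ) * deriv (fun t : ℝ => f (Real.arsinh t : ℝ)) x) =
      fun x : ℝ => ((√(1 + x ^ 2) : ℝ) : ℂ) * deriv f (Real.arsinh x : ℝ) := by
    funext x
    rw [(TRSP_.comp_deriv hf x).deriv]
    have hs : ((√(1 + x ^ 2) : ℝ) : ℂ) ≠ 0 := by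
      exact_mod_cast (TRSP_.sq_pos x).ne'
    have hs2 : ((1 + x ^ 2 : ℝ) : ℂ) = ((√(1 + x ^ 2) : ℝ) : ℂ) ^ 2 := by
      have : 1 + x ^ 2 = (√(1 + x ^ 2)) ^ 2 := (Real.sq_sqrt (by positivity)).symm
      rw [← Complex.ofReal_pow, ← this]
    rw [hs2]
    push_cast
    field_simp
  rw [h1, (TRSP_.psi_deriv hf t).deriv, neg_neg, hl _ (TRSP_.real_mem _)]

end SJE_

theorem pJE (h : ANAJ) : sJE := by
  intro κ
  obtain ⟨h1, h2, h3, h4⟩ := h κ
  refine ⟨SJE_.smooth_comp h1, ?_, ?_, ?_⟩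
  · intro t
    have := h2 _ (TRSP_.real_mem (Real.arsinh t))
    rw [Real.arsinh_neg, Complex.ofReal_neg]
    exact this
  · intro t
    exact SJE_.radial h1 h3 t
  · rw [Real.arsinh_zero, Complex.ofReal_zero]
    exact h4

end FMZ
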