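import Pool.Agent.FMZ.STargets
import Pool.Agent.FMZ.SJE
import Pool.Agent.FMZ.JAN

/-!
# FMZ, block S: an odd solution of the radial equation
-/

open Complex MeasureTheory Set Filter Topology

namespace FMZ

namespace SJO_

/-- the odd solution in the variable d -/
noncomputable def fo (s d : ℂ) : ℂ := (∫ v, JAN_.G s 0 d v) - ∫ v, JAN_.G s 0 (-d) v

lemma hasDerivAt_fo (h : tCONE) (h' : tPHB) {s : ℂ} (hs : 0 < s.re) {d : ℂ} (hd : d ∈ S0) :
    HasDerivAt (fo s) ((∫ v, JAN_.G1 s 0 d v) + ∫ v, JAN_.G1 s 0 (-d) v) d := by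
  have hsw : |(0 : ℂ).re| < s.re := by simpa using hs
  have h1 := ((JAN_.diff_d h h' hsw).1 d hd).2.2
  have h2 := ((JAN_.diff_d h h' hsw).1 (-d) (JAN_.neg_mem_S0 hd)).2.2
  have h3 : HasDerivAt (fun d => ∫ v, JAN_.G s 0 (-d) v) ((∫ v, JAN_.G1 s 0 (-d) v) * (-1)) d :=
    h2.comp d (hasDerivAt_neg d)
  have h4 := h1.sub h3
  rw [mul_neg_one, sub_neg_eq_add] at h4
  exact h4

lemma hasDerivAt_fo1 (h : tCONE) (h' : tPHB) {s : ℂ} (hs : 0 < s.re) {d : ℂ} (hd : d ∈ S0) :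
    HasDerivAt (deriv (fo s)) ((∫ v, JAN_.G2 s 0 d v) - ∫ v, JAN_.G2 s 0 (-d) v) d := by
  have hsw : |(0 : ℂ).re| < s.re := by simpa using hs
  have h1 := ((JAN_.diff_d h h' hsw).2 d hd).2.2
  have h2 := ((JAN_.diff_d h h' hsw).2 (-d) (JAN_.neg_mem_S0 hd)).2.2
  have h3 : HasDerivAt (fun d => ∫ v, JAN_.G1 s 0 (-d) v) ((∫ v, JAN_.G2 s 0 (-d) v) * (-1)) d :=
    h2.comp d (hasDerivAt_neg d)
  have h4 := h1.add h3
  rw [mul_neg_one, ← sub_eq_add_neg] at h4
  refine h4.congr_of_eventuallyEq ?_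
  filter_upwards [JAN_.isOpen_S0.mem_nhds hd] with z hz
  exact (hasDerivAt_fo h h' hs hz).deriv

lemma ode (h : tCONE) (h' : tPHB) {s : ℂ} (hs : 0 < s.re) {d : ℂ} (hd : d ∈ S0) :
    DD (fo s) d = s * (1 - s) * fo s d := by
  unfold DD
  rw [(hasDerivAt_fo1 h h' hs hd).deriv, (hasDerivAt_fo h h' hs hd).deriv]
  have h1 := JAN_.ode_half h h' hd hs
  have h2 := JAN_.ode_half h h' (JAN_.neg_mem_S0 hd) hs
  rw [Complex.tanh_neg] at h2
  unfold fo
  linear_combination -h1 + h2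

lemma deriv_zero (h : tCONE) (h' : tPHB) {s : ℂ} (hs : 0 < s.re) :
    deriv (fo s) 0 ≠ 0 := by
  have h0 : (0 : ℂ) ∈ S0 := by
    have := TRSP_.real_mem 0
    simpa using this
  rw [(hasDerivAt_fo h h' hs h0).deriv, neg_zero]
  have hs1 : 0 < (s + 1).re := by
    rw [Complex.add_re, Complex.one_re]
    linarith
  have h1 : JJ (s + 1) 0 0 = 2 * ∫ v : ℝ, ((2 * Real.cosh v : ℝ) : ℂ) ^ (-(s + 1)) := by
    unfold JJ
    rw [← integral_const_mul]
    congr 1
    funext v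
    unfold ph gp gm
    simp only [Complex.cosh_zero, Complex.sinh_zero, one_mul, add_zero, sub_zero, zero_mul,
      Complex.exp_zero, mul_one]
    push_cast
    ring
  have h2 : ∫ v, JAN_.G1 s 0 0 v = -2 * s * ∫ v : ℝ, ((2 * Real.cosh v : ℝ) : ℂ) ^ (-(s + 1)) := by
    rw [← integral_const_mul]
    congr 1
    funext v
    unfold JAN_.G1 gp JAN_.gd
    simp only [Complex.cosh_zero, Complex.sinh_zero, one_mul, add_zero, zero_mul,
      Complex.exp_zero, mul_one, zero_add]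
    rw [show -(s + 1) = -s - 1 by ring]
    push_cast
    ring
  have h3 : JJ (s + 1) 0 0 ≠ 0 := by
    rw [JAN_.value_zero hs1]
    have hs2 : 0 < ((s + 1) / 2).re := by
      rw [Complex.div_ofNat_re]
      linarith
    exact div_ne_zero (pow_ne_zero 2 (Complex.Gamma_ne_zero_of_re_pos hs2))
      (Complex.Gamma_ne_zero_of_re_pos hs1)
  have hs0 : s ≠ 0 := by
    intro h
    rw [h] at hs
    simp at hs
  have h4 : (∫ v, JAN_.G1 s 0 0 v) + ∫ v, JAN_.G1 s 0 0 v = -2 * s * JJ (s + 1) 0 0 := by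
    rw [h2, h1]
    ring
  rw [h4]
  exact mul_ne_zero (mul_ne_zero (by norm_num) hs0) h3

end SJO_

theorem pJO (h : tCONE) (h' : tPHB) : sJO := by
  intro κ
  set s : ℂ := 1 / 2 + κ * I with hs
  have hre : s.re = 1 / 2 := by simp [hs]
  have hs0 : 0 < s.re := by rw [hre]; norm_num
  have hd : DifferentiableOn ℂ (SJO_.fo s) S0 := fun d hd =>
    (SJO_.hasDerivAt_fo h h' hs0 hd).differentiableAt.differentiableWithinAt
  have hodd : ∀ d, SJO_.fo s (-d) = -SJO_.fo s d := by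
    intro d
    unfold SJO_.fo
    rw [neg_neg]
    ring
  refine ⟨fun t : ℝ => SJO_.fo s (Real.arsinh t : ℝ), SJE_.smooth_comp hd, ?_, ?_, ?_⟩
  · intro t
    simp only
    rw [Real.arsinh_neg, Complex.ofReal_neg, hodd]
  · intro t
    have h1 := SJE_.radial hd (fun d hd => SJO_.ode h h' hs0 hd) t
    rw [h1]
    congr 1
    rw [hs]
    push_cast
    linear_combination (-(κ : ℂ) ^ 2) * Complex.I_sq
  · rw [(TRSP_.comp_deriv hd 0).deriv, Real.arsinh_zero, Complex.ofReal_zero]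
    refine mul_ne_zero ?_ (SJO_.deriv_zero h h' hs0)
    simp

end FMZ
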