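import Pool.Agent.FMZ.STargets

/-!
# FMZ, block S: unfolding
-/

open Complex MeasureTheory Set Filter Topology
open UpperHalfPlane hiding I
open scoped ENNReal InnerProductSpace

namespace FMZ

namespace SUNF_

instance : Countable SG := by
  have h : Countable (Matrix (Fin 2) (Fin 2) ℤ) :=
    inferInstanceAs (Countable (Fin 2 → Fin 2 → ℤ))
  exact (Subtype.val_injective (p := fun A : Matrix (Fin 2) (Fin 2) ℤ => A.det = 1)).countable

theorem mp (g : SG) : MeasurePreserving (fun z : ℍ => g • z) volume volume :=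
  measurePreserving_smul (Matrix.SpecialLinearGroup.mapGL ℝ g) (volume : Measure ℍ)

theorem meas_smul (g : SG) : Measurable (fun z : ℍ => g • z) := (mp g).measurable

theorem meas_Dm : MeasurableSet Dm := by
  have h1 : Measurable fun z : ℍ => normSq (z : ℂ) :=
    Complex.continuous_normSq.measurable.comp measurable_coe
  have h2 : Measurable fun z : ℍ => |z.re| :=
    (Complex.continuous_re.measurable.comp measurable_coe).abs
  exact (measurableSet_lt measurable_const h1).inter (measurableSet_lt h2 measurable_const)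

/-- the indicator of the fundamental domain -/
noncomputable def J (z : ℍ) : ℝ≥0∞ := Dm.indicator (fun _ => (1 : ℝ≥0∞)) z

theorem meas_J : Measurable J := measurable_const.indicator meas_Dm

theorem J_ne_top (w : ℍ) : J w ≠ ∞ := by
  unfold J
  by_cases hz : w ∈ Dm
  · simp [indicator_of_mem hz]
  · simp [indicator_of_notMem hz]

theorem J_norm (w : ℍ) : ‖(((J w).toReal : ℝ) : ℂ)‖ ≤ 1 := by
  unfold J
  by_cases hz : w ∈ Dm
  · simp [indicator_of_mem hz]
  · simp [indicator_of_notMem hz]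

theorem lint_emb (g : SG) (k : ℍ → ℝ≥0∞) : ∫⁻ z, k (g • z) = ∫⁻ z, k z := by
  have he : MeasurableEmbedding (fun z : ℍ => g • z) :=
    (MeasurableEquiv.smul (Matrix.SpecialLinearGroup.mapGL ℝ g) : ℍ ≃ᵐ ℍ).measurableEmbedding
  exact (mp g).lintegral_comp_emb he k

theorem int_emb (g : SG) (k : ℍ → ℂ) : ∫ z, k (g • z) = ∫ z, k z := by
  have he : MeasurableEmbedding (fun z : ℍ => g • z) :=
    (MeasurableEquiv.smul (Matrix.SpecialLinearGroup.mapGL ℝ g) : ℍ ≃ᵐ ℍ).measurableEmbedding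
  exact (mp g).integral_comp he k

/-- the integral over the domain of a translate -/
theorem lint_one (g : SG) (h : ℍ → ℝ≥0∞) :
    ∫⁻ z, h (g • z) ∂muD = ∫⁻ z, J (g⁻¹ • z) * h z := by
  have h1 : ∫⁻ z, h (g • z) ∂muD = ∫⁻ z, J z * h (g • z) := by
    unfold muD
    rw [← lintegral_indicator meas_Dm]
    refine lintegral_congr fun z => ?_
    unfold J
    by_cases hz : z ∈ Dm
    · simp [indicator_of_mem hz]
    · simp [indicator_of_notMem hz]
  rw [h1, ← lint_emb g⁻¹ (fun z => J z * h (g • z))]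
  refine lintegral_congr fun z => ?_
  rw [smul_inv_smul]

theorem part1 (hc : sCNT) (h : ℍ → ℝ≥0∞) (hm : Measurable h) :
    ∫⁻ z, ∑' g : SG, h (g • z) ∂muD = 2 * ∫⁻ z, h z := by
  have hme : ∀ g : SG, AEMeasurable (fun z => h (g • z)) muD := fun g =>
    (hm.comp (meas_smul g)).aemeasurable
  have hme2 : ∀ g : SG, AEMeasurable (fun z => J (g • z) * h z) := fun g =>
    ((meas_J.comp (meas_smul g)).mul hm).aemeasurable
  rw [lintegral_tsum hme]
  simp_rw [lint_one]
  rw [← (Equiv.inv SG).tsum_eq]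
  simp only [Equiv.inv_apply, inv_inv]
  rw [← lintegral_tsum hme2, ← lintegral_const_mul _ hm]
  refine lintegral_congr_ae ?_
  filter_upwards [hc] with z hz
  rw [ENNReal.tsum_mul_right]
  congr 1

theorem integrable_of_hasSum {ι : Type} [Countable ι] {α : Type} [MeasurableSpace α]
    {μ : Measure α} {F : ι → α → ℂ} {g : α → ℂ}
    (hF : ∀ n, Integrable (F n) μ) (hs : Summable fun n => ∫ y, ‖F n y‖ ∂μ)
    (hg : ∀ᵐ y ∂μ, HasSum (fun n => F n y) (g y)) : Integrable g μ := by
  have hgm : AEStronglyMeasurable g μ := by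
    refine aestronglyMeasurable_of_tendsto_ae (atTop : Filter (Finset ι))
      (f := fun (N : Finset ι) y => ∑ n ∈ N, F n y) (fun N => ?_) ?_
    · exact (integrable_finsetSum _ fun n _ => hF n).1
    · filter_upwards [hg] with y hy using hy
  refine ⟨hgm, ?_⟩
  have h1 : ∫⁻ y, ‖g y‖ₑ ∂μ ≤ ∫⁻ y, ∑' n, ‖F n y‖ₑ ∂μ := by
    refine lintegral_mono_ae ?_
    filter_upwards [hg] with y hy
    rw [← hy.tsum_eq]
    exact enorm_tsum_le_tsum_enorm
  rw [lintegral_tsum fun n => (hF n).1.enorm] at h1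
  have h2 : ∀ n, ∫⁻ y, ‖F n y‖ₑ ∂μ = ENNReal.ofReal (∫ y, ‖F n y‖ ∂μ) := fun n =>
    (ofReal_integral_norm_eq_lintegral_enorm (hF n)).symm
  simp_rw [h2] at h1
  rw [← ENNReal.ofReal_tsum_of_nonneg (fun n => integral_nonneg fun _ => norm_nonneg _) hs] at h1
  exact lt_of_le_of_lt h1 ENNReal.ofReal_lt_top

theorem part2 (hc : sCNT) (h : ℍ → ℂ) (hm : Measurable h) (hi : Integrable h) :
    Integrable (Poi h) muD ∧ ∫ z, Poi h z ∂muD = 2 * ∫ z, h z := by
  have hfin : ∫⁻ z, ‖h z‖ₑ ≠ ∞ := hi.2.ne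
  have hmn : Measurable fun z => ‖h z‖ₑ := hm.enorm
  have hp1 := part1 hc _ hmn
  have htot : ∫⁻ z, ∑' g : SG, ‖h (g • z)‖ₑ ∂muD ≠ ∞ := by
    rw [hp1]
    exact ENNReal.mul_ne_top (by norm_num) hfin
  have hFi : ∀ g : SG, Integrable (fun z => h (g • z)) muD := fun g => by
    have h1 : Integrable (fun z => h (g • z)) := (mp g).integrable_comp_of_integrable hi
    exact h1.integrableOn
  have hsum : Summable fun g : SG => ∫ z, ‖h (g • z)‖ ∂muD := by
    have h1 : ∀ g : SG, ∫ z, ‖h (g • z)‖ ∂muD = (∫⁻ z, ‖h (g • z)‖ₑ ∂muD).toReal := fun g =>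
      integral_norm_eq_lintegral_enorm (hFi g).1
    simp_rw [h1]
    refine ENNReal.summable_toReal ?_
    have hme : ∀ g : SG, AEMeasurable (fun z => ‖h (g • z)‖ₑ) muD := fun g =>
      (hmn.comp (meas_smul g)).aemeasurable
    rw [← lintegral_tsum hme]
    exact htot
  have hae : ∀ᵐ z ∂muD, HasSum (fun g : SG => h (g • z)) (Poi h z) := by
    have h1 := ae_lt_top' (μ := muD) (f := fun z => ∑' g : SG, ‖h (g • z)‖ₑ)
      (AEMeasurable.tsum fun g => (hmn.comp (meas_smul g)).aemeasurable) htot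
    filter_upwards [h1] with z hz
    exact (tsum_enorm_ne_top_iff_summable_norm.1 hz.ne).of_norm.hasSum
  refine ⟨integrable_of_hasSum hFi hsum hae, ?_⟩
  have h2 := hasSum_integral_of_summable_integral_norm hFi hsum
  have h3 : ∫ z, Poi h z ∂muD = ∑' g : SG, ∫ z, h (g • z) ∂muD := h2.tsum_eq.symm
  -- the second side
  let Jr : ℍ → ℝ := fun z => (J z).toReal
  have hJ1 : ∀ z, ‖((Jr z : ℝ) : ℂ)‖ₑ = J z := fun z => by
    show ‖(((J z).toReal : ℝ) : ℂ)‖ₑ = J z
    unfold J
    by_cases hz : z ∈ Dm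
    · simp [indicator_of_mem hz]
    · simp [indicator_of_notMem hz]
  have hJm : Measurable fun z => ((Jr z : ℝ) : ℂ) :=
    Complex.measurable_ofReal.comp meas_J.ennreal_toReal
  have hone : ∀ g : SG, ∫ z, h (g • z) ∂muD = ∫ z, ((Jr (g⁻¹ • z) : ℝ) : ℂ) * h z := by
    intro g
    have e1 : ∫ z, h (g • z) ∂muD = ∫ z, ((Jr z : ℝ) : ℂ) * h (g • z) := by
      unfold muD
      rw [← integral_indicator meas_Dm]
      refine integral_congr_ae (ae_of_all _ fun z => ?_)
      show indicator Dm (fun z => h (g • z)) z = (((J z).toReal : ℝ) : ℂ) * h (g • z)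
      unfold J
      by_cases hz : z ∈ Dm
      · simp [indicator_of_mem hz]
      · simp [indicator_of_notMem hz]
    rw [e1, ← int_emb g⁻¹ (fun z => ((Jr z : ℝ) : ℂ) * h (g • z))]
    refine integral_congr_ae (ae_of_all _ fun z => ?_)
    simp only [smul_inv_smul]
  have hGi : ∀ g : SG, Integrable (fun z => ((Jr (g • z) : ℝ) : ℂ) * h z) := fun g => by
    refine hi.mono ((hJm.comp (meas_smul g)).mul hm).aestronglyMeasurable
      (ae_of_all _ fun z => ?_)
    rw [norm_mul]
    exact mul_le_of_le_one_left (norm_nonneg _) (J_norm _)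
  have hGs : Summable fun g : SG => ∫ z, ‖((Jr (g • z) : ℝ) : ℂ) * h z‖ := by
    have e1 : ∀ g : SG, ∫ z, ‖((Jr (g • z) : ℝ) : ℂ) * h z‖ =
        (∫⁻ z, J (g • z) * ‖h z‖ₑ).toReal := fun g => by
      rw [integral_norm_eq_lintegral_enorm (hGi g).1]
      congr 1
      refine lintegral_congr fun z => ?_
      rw [enorm_mul, hJ1]
    simp_rw [e1]
    refine ENNReal.summable_toReal ?_
    have hme2 : ∀ g : SG, AEMeasurable (fun z => J (g • z) * ‖h z‖ₑ) := fun g =>
      ((meas_J.comp (meas_smul g)).mul hmn).aemeasurable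
    rw [← lintegral_tsum hme2]
    have e2 : ∫⁻ z, ∑' g : SG, J (g • z) * ‖h z‖ₑ = 2 * ∫⁻ z, ‖h z‖ₑ := by
      rw [← lintegral_const_mul _ hmn]
      refine lintegral_congr_ae ?_
      filter_upwards [hc] with z hz
      rw [ENNReal.tsum_mul_right]
      congr 1
    rw [e2]
    exact ENNReal.mul_ne_top (by norm_num) hfin
  have h4 := (hasSum_integral_of_summable_integral_norm hGi hGs).tsum_eq
  rw [h3]
  simp_rw [hone]
  rw [← (Equiv.inv SG).tsum_eq]
  simp only [Equiv.inv_apply, inv_inv]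
  rw [h4, ← integral_const_mul]
  refine integral_congr_ae ?_
  filter_upwards [hc] with z hz
  rw [tsum_mul_right]
  congr 1
  have h5 : ∑' g : SG, Jr (g • z) = 2 := by
    have h6 := ENNReal.tsum_toReal_eq (f := fun g : SG => J (g • z)) (fun g => J_ne_top _)
    have h7 : ∑' g : SG, J (g • z) = 2 := hz
    rw [h7] at h6
    simpa using h6.symm
  rw [← Complex.ofReal_tsum, h5]
  norm_num

end SUNF_

open SUNF_ in
theorem pUNF (h : sCNT) : sUNF :=
  ⟨fun k hk => part1 h k hk, fun k hk hi => part2 h k hk hi⟩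

end FMZ
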