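import Pool.Agent.FMZ.STargets
import Pool.Agent.FMZ.SUNF

/-!
# FMZ, block S: test functions separate the functions on the fundamental domain, and the space
of functions with zero constant term
-/

open Complex MeasureTheory Set Filter Topology
open UpperHalfPlane hiding I
open scoped ENNReal InnerProductSpace NNReal

namespace FMZ

namespace SKER_

/-- the density of the invariant measure -/
noncomputable def rho (z : ℍ) : ℝ≥0 := (1 / NNReal.mk z.im z.im_pos.le) ^ 2

theorem rho_meas : Measurable rho := by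
  have h : Measurable fun z : ℍ => NNReal.mk z.im z.im_pos.le :=
    (UpperHalfPlane.continuous_im.subtype_mk _).measurable
  unfold rho
  exact (measurable_const.div h).pow_const 2

theorem rho_pos (z : ℍ) : rho z ≠ 0 := by
  unfold rho
  have h : NNReal.mk z.im z.im_pos.le ≠ 0 := by
    intro h0
    have := congrArg NNReal.toReal h0
    exact z.im_pos.ne' this
  exact pow_ne_zero _ (one_div_ne_zero h)

/-- Lebesgue measure on ℍ -/
noncomputable def nu : Measure ℍ := (volume : Measure ℂ).comap UpperHalfPlane.coe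

theorem vol_eq : (volume : Measure ℍ) = nu.withDensity fun z => (rho z : ℝ≥0∞) := rfl

theorem muD_eq : muD = (nu.restrict Dm).withDensity fun z => (rho z : ℝ≥0∞) := by
  unfold muD
  rw [vol_eq, restrict_withDensity SUNF_.meas_Dm]

/-- the image of the fundamental domain -/
def U : Set ℂ := UpperHalfPlane.coe '' Dm

theorem Dm_open : IsOpen Dm := by
  have h1 : Continuous fun z : ℍ => normSq (z : ℂ) :=
    Complex.continuous_normSq.comp continuous_coe
  have h2 : Continuous fun z : ℍ => |z.re| :=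
    (Complex.continuous_re.comp continuous_coe).abs
  exact (isOpen_lt continuous_const h1).inter (isOpen_lt h2 continuous_const)

theorem U_open : IsOpen U := isOpenEmbedding_coe.isOpenMap _ Dm_open

theorem coe_mem_U {z : ℍ} : (z : ℂ) ∈ U ↔ z ∈ Dm := by
  constructor
  · rintro ⟨w, hw, h⟩
    rwa [← isOpenEmbedding_coe.injective h]
  · intro h
    exact ⟨z, h, rfl⟩

theorem preimage_U : UpperHalfPlane.coe ⁻¹' U = Dm := by
  ext z
  exact coe_mem_U

theorem U_range : U ⊆ range UpperHalfPlane.coe := image_subset_range _ _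

theorem map_nu : Measure.map UpperHalfPlane.coe nu =
    (volume : Measure ℂ).restrict (range UpperHalfPlane.coe) :=
  measurableEmbedding_coe.map_comap _

theorem setInt (g : ℂ → ℂ) : ∫ w in U, g w = ∫ z in Dm, g (z : ℂ) ∂nu := by
  have h := measurableEmbedding_coe.setIntegral_map (μ := nu) g U
  rw [preimage_U, map_nu, Measure.restrict_restrict_of_subset U_range] at h
  exact h

theorem intOn {g : ℂ → ℂ} (h : IntegrableOn (fun z : ℍ => g (z : ℂ)) Dm nu) :
    IntegrableOn g U := by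
  have h1 := (measurableEmbedding_coe.integrableOn_map_iff (f := g) (μ := nu) (s := U)).mpr
    (by rw [preimage_U]; exact h)
  rwa [map_nu, IntegrableOn, Measure.restrict_restrict_of_subset U_range] at h1

/-- the test function on ℍ -/
noncomputable def Pf (φ : ℂ → ℝ) (z : ℍ) : ℂ := ((φ (z : ℂ) : ℝ) : ℂ)

theorem Pf_TH {φ : ℂ → ℝ} (h1 : ContDiff ℝ (⊤ : ℕ∞) φ) (h2 : HasCompactSupport φ)
    (h3 : tsupport φ ⊆ U) : TH (Pf φ) := by
  constructor
  · have h4 : ContDiffOn ℝ (⊤ : ℕ∞) (fun w : ℂ => ((φ w : ℝ) : ℂ)) {w : ℂ | 0 < w.im} :=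
      (ofRealCLM.contDiff.comp h1).contDiffOn
    refine h4.congr fun w hw => ?_
    show ((φ (ofComplex w : ℂ) : ℝ) : ℂ) = _
    rw [ofComplex_apply_of_im_pos hw]
  · have hK : IsCompact (UpperHalfPlane.coe ⁻¹' (tsupport φ)) :=
      isOpenEmbedding_coe.isInducing.isCompact_preimage' h2 (h3.trans U_range)
    refine HasCompactSupport.intro hK fun z hz => ?_
    have : φ (z : ℂ) = 0 := image_eq_zero_of_notMem_tsupport hz
    show ((φ (z : ℂ) : ℝ) : ℂ) = 0
    rw [this, ofReal_zero]

theorem one_ne_neg : (1 : SG) ≠ -1 := by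
  intro h
  have := congrFun (congrFun (congrArg (fun A : SG => (A : Matrix (Fin 2) (Fin 2) ℤ)) h) 0) 0
  simp at this

theorem Poi_Pf {φ : ℂ → ℝ} (h3 : tsupport φ ⊆ U) {z : ℍ} (hz : z ∈ Dm) :
    Poi (Pf φ) z = 2 * Pf φ z := by
  unfold Poi
  have hzero : ∀ g : SG, g ∉ ({1, -1} : Finset SG) → Pf φ (g • z) = 0 := by
    intro g hg
    have hgz : g • z ∉ Dm := by
      intro h
      rcases ModularGroup.eq_one_or_neg_one_of_mem_fdo_mem_fdo hz h with h1 | h1
      · exact hg (by rw [h1]; simp)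
      · exact hg (by rw [h1]; simp)
    have h4 : ((g • z : ℍ) : ℂ) ∉ tsupport φ := fun h5 => hgz (coe_mem_U.mp (h3 h5))
    show ((φ ((g • z : ℍ) : ℂ) : ℝ) : ℂ) = 0
    rw [image_eq_zero_of_notMem_tsupport h4, ofReal_zero]
  rw [tsum_eq_sum hzero, Finset.sum_pair one_ne_neg, one_smul, ModularGroup.SL_neg_smul, one_smul]
  ring

theorem core {v : ℍ → ℂ} (hv : Integrable v muD)
    (hφ : ∀ φ : ℂ → ℝ, ContDiff ℝ (⊤ : ℕ∞) φ → HasCompactSupport φ → tsupport φ ⊆ U →
      ∫ z, φ (z : ℂ) • v z ∂muD = 0) : ∀ᵐ z ∂muD, v z = 0 := by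
  set G : ℂ → ℂ := fun w => (rho (ofComplex w)) • v (ofComplex w) with hG
  have hGz : ∀ z : ℍ, G (z : ℂ) = rho z • v z := fun z => by
    show rho (ofComplex (z : ℂ)) • v (ofComplex (z : ℂ)) = _
    rw [ofComplex_apply]
  have hGi : IntegrableOn G U := by
    refine intOn ?_
    simp_rw [hGz]
    rw [muD_eq] at hv
    exact (integrable_withDensity_iff_integrable_smul rho_meas).mp hv
  have key := U_open.ae_eq_zero_of_integral_contDiff_smul_eq_zero hGi.locallyIntegrableOn
    (fun φ hφ1 hφ2 hφ3 => by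
      have e1 : ∫ w, φ w • G w = ∫ w in U, φ w • G w := by
        symm
        refine setIntegral_eq_integral_of_forall_compl_eq_zero fun w hw => ?_
        have : φ w = 0 := image_eq_zero_of_notMem_tsupport fun h5 => hw (hφ3 h5)
        rw [this, zero_smul]
      rw [e1, setInt]
      have e2 : ∫ z in Dm, φ (z : ℂ) • G (z : ℂ) ∂nu = ∫ z, φ (z : ℂ) • v z ∂muD := by
        rw [muD_eq, integral_withDensity_eq_integral_smul rho_meas]
        refine integral_congr_ae (ae_of_all _ fun z => ?_)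
        simp only [hGz]
        rw [smul_comm]
      rw [e2]
      exact hφ φ hφ1 hφ2 hφ3)
  have hac : muD ≪ nu.restrict Dm := by
    rw [muD_eq]
    exact withDensity_absolutelyContinuous _ _
  have h1 : ∀ᵐ w ∂(Measure.map UpperHalfPlane.coe nu), w ∈ U → G w = 0 := by
    rw [map_nu]
    exact ae_restrict_of_ae key
  rw [measurableEmbedding_coe.ae_map_iff] at h1
  have h2 : ∀ᵐ z ∂(nu.restrict Dm), v z = 0 := by
    rw [ae_restrict_iff' SUNF_.meas_Dm]
    filter_upwards [h1] with z hz hzD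
    have h2 := hz (coe_mem_U.mpr hzD)
    rw [hGz] at h2
    rcases smul_eq_zero.mp h2 with h3 | h3
    · exact absurd h3 (rho_pos z)
    · exact h3
  exact hac.ae_le h2

end SKER_

open SKER_ in
theorem pKER (h : sVOL) (_h' : sTBC) : sKER := by
  intro u hu
  have hfin : IsFiniteMeasure muD := ⟨by
    unfold muD
    rw [Measure.restrict_apply_univ]
    exact h.1⟩
  have hui : Integrable u muD := (Lp.memLp u).integrable (by norm_num)
  refine (Lp.eq_zero_iff_ae_eq_zero).mpr (core hui fun φ hφ1 hφ2 hφ3 => ?_)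
  have e3 : Lam (Pf φ) u = ∫ z, φ (z : ℂ) • u z ∂muD := by
    unfold Lam
    rw [← integral_const_mul]
    refine integral_congr_ae ?_
    refine (ae_restrict_iff' SUNF_.meas_Dm).mpr (ae_of_all _ fun z hz => ?_)
    show 1 / 2 * (u z * Poi (Pf φ) z) = φ (z : ℂ) • u z
    rw [Poi_Pf hφ3 hz, Pf, Complex.real_smul]
    ring
  rw [← e3]
  exact hu _ (Pf_TH hφ1 hφ2 hφ3)

namespace SKER_

theorem functional (h1 : sPBD) (h4 : sVOL) {B : ℍ → ℂ} (hB : BC B) :
    ∃ L : HD →L[ℂ] ℂ, ∀ u : HD, L u = Lam B u := by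
  have hfin : IsFiniteMeasure muD := ⟨by
    unfold muD
    rw [Measure.restrict_apply_univ]
    exact h4.1⟩
  obtain ⟨-, hm, -, ⟨C, hC⟩, -⟩ := h1 B hB
  have hmem : MemLp (fun z => (starRingEnd ℂ) (Poi B z)) 2 muD := by
    refine MemLp.of_bound ?_ C ?_
    · exact (Complex.continuous_conj.measurable.comp hm).aestronglyMeasurable
    · refine (ae_restrict_iff' SUNF_.meas_Dm).mpr (ae_of_all _ fun z hz => ?_)
      rw [RCLike.norm_conj]
      exact hC z hz
  refine ⟨(1 / 2 : ℂ) • innerSL ℂ hmem.toLp, fun u => ?_⟩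
  rw [_root_.smul_apply, innerSL_apply_apply, L2.inner_def, smul_eq_mul]
  unfold Lam
  congr 1
  refine integral_congr_ae ?_
  filter_upwards [hmem.coeFn_toLp] with z hz
  rw [hz, RCLike.inner_apply, starRingEnd_self_apply]

end SKER_

open SKER_ in
theorem pH0 (h1 : sPBD) (h2 : sCE) (h3 : sTBC) (h4 : sVOL) : sH0 := by
  have hL : ∀ p : {p : (ℝ → ℝ) × (ℝ → ℝ) // Chi p.1 ∧ Eta p.2},
      ∃ L : HD →L[ℂ] ℂ, ∀ u : HD, L u = Lam (ce p.1.1 p.1.2) u := fun p =>
    functional h1 h4 (h3 _ (h2 _ _ p.2.1 p.2.2).1).1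
  choose L hL using hL
  refine ⟨⨅ p, LinearMap.ker (L p : HD →ₗ[ℂ] ℂ), ?_, fun u => ?_⟩
  · rw [Submodule.coe_iInf]
    exact isClosed_iInter fun p => (L p).isClosed_ker
  · rw [Submodule.mem_iInf]
    constructor
    · intro h χ η hχ hη
      have := h ⟨(χ, η), hχ, hη⟩
      rw [LinearMap.mem_ker] at this
      rw [← hL ⟨(χ, η), hχ, hη⟩ u]
      exact this
    · intro h p
      rw [LinearMap.mem_ker]
      exact (hL p u).trans (h _ _ p.2.1 p.2.2)

end FMZ
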