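import Pool.Agent.FMZ.STargets

/-!
# FMZ, block S: S-LAM (spectral gap) and S-REL (compactness)
-/

open Complex MeasureTheory Set Filter Topology
open UpperHalfPlane hiding I
open scoped ENNReal InnerProductSpace

namespace FMZ

namespace SLAM_

theorem norm_sq (u : HD) : ‖u‖ ^ 2 = ∫ z, ‖u z‖ ^ 2 ∂muD := by
  have h1 := inner_self_eq_norm_sq_to_K (𝕜 := ℂ) u
  rw [L2.inner_def] at h1
  have h2 : (fun z => (inner ℂ (u z) (u z) : ℂ)) = fun z => ((‖u z‖ ^ 2 : ℝ) : ℂ) := by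
    funext z
    rw [inner_self_eq_norm_sq_to_K]
    norm_cast
  rw [h2, integral_complex_ofReal] at h1
  have h3 : ((∫ z, ‖u z‖ ^ 2 ∂muD : ℝ) : ℂ) = ((‖u‖ ^ 2 : ℝ) : ℂ) := by
    rw [h1]
    norm_cast
  exact_mod_cast h3.symm

theorem integrable_sq (u : HD) : Integrable (fun z => ‖u z‖ ^ 2) muD :=
  (Lp.memLp u).integrable_norm_pow (p := 2) (by norm_num)

/-- split at height Y -/
theorem split (hV : sVOL) (u : HD) (Y : ℝ) : ‖u‖ ^ 2 =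
    (∫ z in {z : ℍ | z ∈ Dm ∧ z.im ≤ Y}, ‖u z‖ ^ 2) +
    ∫ z in {z : ℍ | z ∈ Dm ∧ Y < z.im}, ‖u z‖ ^ 2 := by
  have him : Measurable fun z : ℍ => z.im := Complex.measurable_im.comp measurable_coe
  have hA : MeasurableSet {z : ℍ | z ∈ Dm ∧ z.im ≤ Y} :=
    hV.2.1.inter (measurableSet_le him measurable_const)
  have hB : MeasurableSet {z : ℍ | z ∈ Dm ∧ Y < z.im} :=
    hV.2.1.inter (measurableSet_lt measurable_const him)
  have hi : IntegrableOn (fun z => ‖u z‖ ^ 2) Dm := integrable_sq u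
  rw [norm_sq u]
  have hU : Dm = {z : ℍ | z ∈ Dm ∧ z.im ≤ Y} ∪ {z : ℍ | z ∈ Dm ∧ Y < z.im} := by
    ext z
    simp only [Set.mem_union, Set.mem_ofPred_eq]
    constructor
    · intro h
      rcases le_or_gt z.im Y with h1 | h1
      · exact Or.inl ⟨h, h1⟩
      · exact Or.inr ⟨h, h1⟩
    · rintro (h | h) <;> exact h.1
  have h1 : (∫ z, ‖u z‖ ^ 2 ∂muD) = ∫ z in Dm, ‖u z‖ ^ 2 := rfl
  rw [h1]
  conv_lhs => rw [hU]
  refine setIntegral_union ?_ hB (hi.mono_set ?_) (hi.mono_set ?_)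
  · rw [Set.disjoint_left]
    rintro z ⟨-, h2⟩ ⟨-, h3⟩
    exact absurd h2 (not_le.2 h3)
  · exact fun z hz => hz.1
  · exact fun z hz => hz.1

theorem Dh_sub {Y : ℝ} (hY : 1 ≤ Y) : {z : ℍ | z ∈ Dm ∧ Y < z.im} ⊆ Dh := by
  rintro z ⟨h1, h2⟩
  refine ⟨?_, lt_of_le_of_lt hY h2⟩
  exact h1.2

/-- the part above height Y -/
theorem tail (hPOI : sPOI) (hV : sVOL) {v : H3} (hv : v ∈ closure VS) (hz : Zc (pr v)) {Y : ℝ}
    (hY : 1 ≤ Y) : ∫ z in {z : ℍ | z ∈ Dm ∧ Y < z.im}, ‖pr v z‖ ^ 2 ≤ (Y ^ 2)⁻¹ * (1 / 2 * En v) := by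
  obtain ⟨h1, h2⟩ := hPOI v hv hz
  have him : Measurable fun z : ℍ => z.im := Complex.measurable_im.comp measurable_coe
  have hB : MeasurableSet {z : ℍ | z ∈ Dm ∧ Y < z.im} :=
    hV.2.1.inter (measurableSet_lt measurable_const him)
  have hi : IntegrableOn (fun z => ‖pr v z‖ ^ 2) Dm := integrable_sq (pr v)
  have hY0 : 0 < Y := by linarith
  calc ∫ z in {z : ℍ | z ∈ Dm ∧ Y < z.im}, ‖pr v z‖ ^ 2
      ≤ ∫ z in {z : ℍ | z ∈ Dm ∧ Y < z.im}, (Y ^ 2)⁻¹ * (‖pr v z‖ ^ 2 * z.im ^ 2) := by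
        refine setIntegral_mono_on (hi.mono_set fun z hz => hz.1)
          ((h1.mono_set (Dh_sub hY)).const_mul _) hB ?_
        rintro z ⟨-, hz2⟩
        have h3 : 1 ≤ (Y ^ 2)⁻¹ * z.im ^ 2 := by
          rw [inv_mul_eq_div, le_div_iff₀ (by positivity), one_mul]
          exact pow_le_pow_left₀ hY0.le hz2.le 2
        calc ‖pr v z‖ ^ 2 = ‖pr v z‖ ^ 2 * 1 := (mul_one _).symm
          _ ≤ ‖pr v z‖ ^ 2 * ((Y ^ 2)⁻¹ * z.im ^ 2) := by gcongr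
          _ = _ := by ring
    _ = (Y ^ 2)⁻¹ * ∫ z in {z : ℍ | z ∈ Dm ∧ Y < z.im}, ‖pr v z‖ ^ 2 * z.im ^ 2 := by
        rw [integral_const_mul]
    _ ≤ (Y ^ 2)⁻¹ * ∫ z in Dh, ‖pr v z‖ ^ 2 * z.im ^ 2 := by
        refine mul_le_mul_of_nonneg_left ?_ (by positivity)
        refine setIntegral_mono_set h1 (Eventually.of_forall fun z => by positivity) ?_
        exact (Dh_sub hY).eventuallyLE
    _ ≤ _ := mul_le_mul_of_nonneg_left h2 (by positivity)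

theorem En_nonneg (v : H3) : 0 ≤ En v := integral_nonneg fun z => by positivity

end SLAM_

open SLAM_

theorem pLAM (h1 : sPOI) (h2 : sLOW) (h3 : sVOL) : sLAM := by
  intro v hv hz
  have hs := split h3 (pr v) 1
  have ht := tail h1 h3 hv hz le_rfl
  have hl := h2 v hv
  obtain ⟨hp1, hp2⟩ := h1 v hv hz
  have hm : ∫ z in {z : ℍ | z ∈ Dh ∧ z.im ≤ 2}, ‖pr v z‖ ^ 2 * z.im ^ 2 ≤
      ∫ z in Dh, ‖pr v z‖ ^ 2 * z.im ^ 2 := by
    refine setIntegral_mono_set hp1 (Eventually.of_forall fun z => by positivity) ?_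
    have : {z : ℍ | z ∈ Dh ∧ z.im ≤ 2} ⊆ Dh := fun z hz => hz.1
    exact this.eventuallyLE
  rw [hs]
  simp only [one_pow, inv_one, one_mul] at ht
  linarith

theorem pREL (h1 : sPOI) (h2 : sCELL) (h3 : sVSUB) (h4 : sVOL) : sREL := by
  intro ε hε
  -- the height
  obtain ⟨Y, hY1, hY2⟩ : ∃ Y : ℝ, 1 < Y ∧ (Y ^ 2)⁻¹ ≤ ε ^ 2 := by
    refine ⟨1 + ε⁻¹, by linarith [inv_pos.2 hε], ?_⟩
    rw [inv_le_comm₀ (by positivity) (by positivity), ← inv_pow]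
    refine pow_le_pow_left₀ (by positivity) ?_ 2
    linarith
  obtain ⟨n, l, hl⟩ := h2 Y (ε ^ 2 / 2) hY1 (by positivity)
  refine ⟨n, l, fun v hv hz => ?_⟩
  have hs := split h4 (pr v) Y
  have ht := tail h1 h4 hv hz hY1.le
  have hc := hl v hv
  have hE : En v ≤ ‖v‖ ^ 2 := by
    have := h3.2.1 v
    have h5 : 0 ≤ ‖pr v‖ ^ 2 := by positivity
    linarith
  have hE0 := En_nonneg v
  have hsum : ∑ i, ‖l i (pr v)‖ ^ 2 ≤ (∑ i, ‖l i (pr v)‖) ^ 2 :=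
    Finset.sum_sq_le_sq_sum_of_nonneg fun i _ => norm_nonneg _
  have hnn : 0 ≤ ∑ i, ‖l i (pr v)‖ := Finset.sum_nonneg fun i _ => norm_nonneg _
  have h6 : (Y ^ 2)⁻¹ * (1 / 2 * En v) ≤ ε ^ 2 * (1 / 2 * En v) :=
    mul_le_mul_of_nonneg_right hY2 (by positivity)
  have h7 : ‖pr v‖ ^ 2 ≤ (ε * ‖v‖) ^ 2 + (∑ i, ‖l i (pr v)‖) ^ 2 := by
    rw [hs]
    have h8 : ε ^ 2 * En v ≤ ε ^ 2 * ‖v‖ ^ 2 := mul_le_mul_of_nonneg_left hE (by positivity)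
    nlinarith
  have h9 : ‖pr v‖ ^ 2 ≤ (ε * ‖v‖ + ∑ i, ‖l i (pr v)‖) ^ 2 := by
    have : 0 ≤ ε * ‖v‖ * ∑ i, ‖l i (pr v)‖ := by positivity
    nlinarith
  exact abs_le_of_sq_le_sq' h9 (by positivity) |>.2

end FMZ
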