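import Pool.Agent.FMZ.STargets

/-!
# FMZ, block S: S-LOW, the lower part of the fundamental domain
-/

open Complex MeasureTheory Set Filter Topology
open UpperHalfPlane hiding I
open scoped ENNReal

namespace FMZ

namespace SLOW_

/-! ### continuity of weighted squares -/

section

variable {α : Type*} [MeasurableSpace α] {μ : Measure α}

/-- multiplication by a bounded real function -/
noncomputable def mulLp (w : α → ℝ) (hw : Measurable w) (M : ℝ) (hM : ∀ z, |w z| ≤ M)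
    (u : Lp ℂ 2 μ) : Lp ℂ 2 μ :=
  MemLp.toLp (fun z => (w z : ℂ) * u z) (by
    refine MemLp.of_le_mul (c := M) (Lp.memLp u) ?_ ?_
    · exact (Complex.measurable_ofReal.comp hw).aestronglyMeasurable.mul
        (Lp.aestronglyMeasurable u)
    · refine Eventually.of_forall fun z => ?_
      rw [norm_mul, Complex.norm_real, Real.norm_eq_abs]
      exact mul_le_mul_of_nonneg_right (hM z) (norm_nonneg _))

lemma mulLp_ae (w : α → ℝ) (hw : Measurable w) (M : ℝ) (hM : ∀ z, |w z| ≤ M)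
    (u : Lp ℂ 2 μ) : mulLp w hw M hM u =ᵐ[μ] fun z => (w z : ℂ) * u z :=
  MemLp.coeFn_toLp _

lemma continuous_mulLp (w : α → ℝ) (hw : Measurable w) (M : ℝ) (hM : ∀ z, |w z| ≤ M) :
    Continuous (mulLp (μ := μ) w hw M hM) := by
  have hM0 : 0 ≤ |M| := abs_nonneg M
  have hlip : LipschitzWith (Real.toNNReal |M|) (mulLp (μ := μ) w hw M hM) := by
    apply LipschitzWith.of_dist_le_mul
    intro u u'
    rw [dist_eq_norm, dist_eq_norm, Real.coe_toNNReal _ hM0]
    apply Lp.norm_le_mul_norm_of_ae_le_mul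
    filter_upwards [mulLp_ae w hw M hM u, mulLp_ae w hw M hM u',
      Lp.coeFn_sub (mulLp w hw M hM u) (mulLp w hw M hM u'), Lp.coeFn_sub u u'] with z h1 h2 h3 h4
    rw [h3, h4, Pi.sub_apply, Pi.sub_apply, h1, h2, ← mul_sub, norm_mul, Complex.norm_real,
      Real.norm_eq_abs]
    exact mul_le_mul_of_nonneg_right ((hM z).trans (le_abs_self M)) (norm_nonneg _)
  exact hlip.continuous

lemma norm_sq_Lp (u : Lp ℂ 2 μ) : ‖u‖ ^ 2 = ∫ z, ‖u z‖ ^ 2 ∂μ := by
  have h := L2.inner_def (𝕜 := ℂ) u u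
  have h1 : (‖u‖ ^ 2 : ℝ) = RCLike.re (inner ℂ u u) := by
    rw [inner_self_eq_norm_sq_to_K]
    norm_cast
  rw [h1, h, ← integral_re]
  · congr 1
    funext z
    rw [inner_self_eq_norm_sq_to_K]
    norm_cast
  · exact L2.integrable_inner u u

/-- `u ↦ ∫ w² |u|²` is continuous for a bounded weight -/
lemma continuous_weight (w : α → ℝ) (hw : Measurable w) (M : ℝ) (hM : ∀ z, |w z| ≤ M) :
    Continuous (fun u : Lp ℂ 2 μ => ∫ z, w z ^ 2 * ‖u z‖ ^ 2 ∂μ) := by
  have h : (fun u : Lp ℂ 2 μ => ∫ z, w z ^ 2 * ‖u z‖ ^ 2 ∂μ) =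
      fun u : Lp ℂ 2 μ => ‖mulLp w hw M hM u‖ ^ 2 := by
    funext u
    rw [norm_sq_Lp]
    apply integral_congr_ae
    filter_upwards [mulLp_ae w hw M hM u] with z hz
    rw [hz, norm_mul, Complex.norm_real, Real.norm_eq_abs, mul_pow, sq_abs]
  rw [h]
  exact ((continuous_mulLp w hw M hM).norm).pow 2

end

/-! ### coordinates -/

/-- lower integrals in coordinates -/
lemma lint_coord (h2 : sCO) (g : ℝ × ℝ → ℝ≥0∞) (hg : Measurable g) :
    ∫⁻ z : ℍ, g (z.re, z.im) =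
      ∫⁻ p : ℝ × ℝ, {p : ℝ × ℝ | 0 < p.2}.indicator
        (fun p => ENNReal.ofReal (1 / p.2 ^ 2) * g p) p := by
  obtain ⟨-, -, -, -, hmp⟩ := h2
  have hm : MeasurableSet {p : ℝ × ℝ | 0 < p.2} := measurableSet_lt measurable_const measurable_snd
  have hw : Measurable fun p : ℝ × ℝ => ENNReal.ofReal (1 / p.2 ^ 2) := by fun_prop
  rw [hmp.lintegral_comp hg, lintegral_withDensity_eq_lintegral_mul _ hw hg,
    ← lintegral_indicator hm]
  rfl

/-- the domains in coordinates -/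
def E : Set (ℝ × ℝ) := {p | 0 < p.2 ∧ |p.1| < 1 / 2 ∧ 1 < p.1 ^ 2 + p.2 ^ 2}

def E1 : Set (ℝ × ℝ) := {p | p ∈ E ∧ p.2 ≤ 1}

def E2 : Set (ℝ × ℝ) := {p | |p.1| < 1 / 2 ∧ 1 < p.2 ∧ p.2 ≤ 2}

lemma meas_abs : MeasurableSet {p : ℝ × ℝ | |p.1| < 1 / 2} := by
  have h : Measurable fun p : ℝ × ℝ => |p.1| := continuous_abs.measurable.comp measurable_fst
  exact measurableSet_lt h measurable_const

lemma meas_E : MeasurableSet E := by
  have h : Measurable fun p : ℝ × ℝ => p.1 ^ 2 + p.2 ^ 2 := by fun_prop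
  exact MeasurableSet.inter (measurableSet_lt measurable_const measurable_snd)
    (MeasurableSet.inter meas_abs (measurableSet_lt measurable_const h))

lemma meas_E1 : MeasurableSet E1 :=
  meas_E.inter (measurableSet_le measurable_snd measurable_const)

lemma meas_E2 : MeasurableSet E2 :=
  MeasurableSet.inter meas_abs (MeasurableSet.inter
    (measurableSet_lt measurable_const measurable_snd)
    (measurableSet_le measurable_snd measurable_const))

lemma sq_gt {p : ℝ × ℝ} (hp : p ∈ E) : 3 / 4 < p.2 ^ 2 ∧ 13 / 16 < p.2 := by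
  obtain ⟨h0, h1, h2⟩ := hp
  have h3 : p.1 ^ 2 < 1 / 4 := by
    have := abs_lt.1 h1
    nlinarith
  constructor
  · linarith
  · nlinarith

lemma mem_Dm (z : ℍ) : z ∈ Dm ↔ (z.re, z.im) ∈ E := by
  have hn : normSq (z : ℂ) = z.re ^ 2 + z.im ^ 2 := by
    rw [normSq_apply, coe_re, coe_im]; ring
  show (1 < normSq (z : ℂ) ∧ |z.re| < (1 : ℝ) / 2) ↔ _
  rw [hn]
  constructor
  · rintro ⟨h1, h2⟩
    exact ⟨z.im_pos, h2, h1⟩
  · rintro ⟨-, h1, h2⟩
    exact ⟨h2, h1⟩

/-- the integral of `φ(z) χ(z)` over a subset of the half plane, in coordinates -/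
lemma lint_set (h2 : sCO) (S : Set ℍ) (T : Set (ℝ × ℝ)) (hS : MeasurableSet S)
    (hT : MeasurableSet T) (hpos : ∀ p ∈ T, 0 < p.2)
    (hST : ∀ z : ℍ, z ∈ S ↔ (z.re, z.im) ∈ T) (φ : ℍ → ℝ≥0∞)
    (g : ℝ × ℝ → ℝ≥0∞) (hg : Measurable g) (hφ : ∀ z ∈ S, φ z = g (z.re, z.im)) :
    ∫⁻ z in S, φ z =
      ∫⁻ p : ℝ × ℝ, T.indicator (fun p => ENNReal.ofReal (1 / p.2 ^ 2) * g p) p := by
  have e1 : ∫⁻ z in S, φ z = ∫⁻ z : ℍ, T.indicator g (z.re, z.im) := by
    rw [← lintegral_indicator hS]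
    apply lintegral_congr
    intro z
    by_cases hz : z ∈ S
    · rw [indicator_of_mem hz, indicator_of_mem ((hST z).1 hz), hφ z hz]
    · rw [indicator_of_notMem hz, indicator_of_notMem (fun h => hz ((hST z).2 h))]
  rw [e1, lint_coord h2 _ (hg.indicator hT)]
  apply lintegral_congr
  intro p
  by_cases hp : p ∈ T
  · rw [indicator_of_mem (show p ∈ {p : ℝ × ℝ | 0 < p.2} from hpos p hp), indicator_of_mem hp,
      indicator_of_mem hp]
  · rw [indicator_of_notMem hp]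
    by_cases hp' : p ∈ {p : ℝ × ℝ | 0 < p.2}
    · rw [indicator_of_mem hp', indicator_of_notMem hp, mul_zero]
    · rw [indicator_of_notMem hp']

/-! ### the vertical estimate -/

/-- the function in coordinates -/
noncomputable def Fc' (f : ℍ → ℂ) (p : ℝ × ℝ) : ℝ≥0∞ := ENNReal.ofReal (‖f (pt p.1 p.2)‖ ^ 2)

/-- the vertical derivative in coordinates -/
noncomputable def Gc' (f : ℍ → ℂ) (p : ℝ × ℝ) : ℝ≥0∞ :=
  ENNReal.ofReal (‖gy f (pt p.1 p.2)‖ ^ 2 / p.2 ^ 2)

lemma meas_Fc (h2 : sCO) (h5 : sCM) {f : ℍ → ℂ} (hf : Sm f) : Measurable (Fc' f) := by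
  have h := (h5 f hf).1.measurable.comp h2.2.2.1
  unfold Fc'
  exact ((h.norm).pow_const 2).ennreal_ofReal

lemma meas_Gc (h2 : sCO) (h5 : sCM) {f : ℍ → ℂ} (hf : Sm f) : Measurable (Gc' f) := by
  have h := (h5 f hf).2.2.1.measurable.comp h2.2.2.1
  unfold Gc'
  have h3 : Measurable fun p : ℝ × ℝ => p.2 ^ 2 := measurable_snd.pow_const 2
  exact (((h.norm).pow_const 2).div h3).ennreal_ofReal

/-- Cauchy–Schwarz on an interval of length one -/
lemma cs_one (h : ℝ → ℂ) (y : ℝ) (hc : ContinuousOn h (Icc y (y + 1))) :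
    ‖∫ s in y..(y + 1), h s‖ ^ 2 ≤ ∫ s in y..(y + 1), ‖h s‖ ^ 2 := by
  have hy : y ≤ y + 1 := by linarith
  have hc' : ContinuousOn h (uIcc y (y + 1)) := by rwa [uIcc_of_le hy]
  set c := ∫ s in y..(y + 1), ‖h s‖ with hcdef
  have i1 : IntervalIntegrable (fun s => ‖h s‖) volume y (y + 1) := hc'.norm.intervalIntegrable
  have i2 : IntervalIntegrable (fun s => ‖h s‖ ^ 2) volume y (y + 1) :=
    (hc'.norm.pow 2).intervalIntegrable
  have h1 : ‖∫ s in y..(y + 1), h s‖ ≤ c := intervalIntegral.norm_integral_le_integral_norm hy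
  have h0 : 0 ≤ c := intervalIntegral.integral_nonneg hy fun s _ => norm_nonneg _
  have h2 : 0 ≤ ∫ s in y..(y + 1), (‖h s‖ - c) ^ 2 :=
    intervalIntegral.integral_nonneg hy fun s _ => sq_nonneg _
  have h3 : ∫ s in y..(y + 1), (‖h s‖ - c) ^ 2 = (∫ s in y..(y + 1), ‖h s‖ ^ 2) - c ^ 2 := by
    have e : ∀ s, (‖h s‖ - c) ^ 2 = ‖h s‖ ^ 2 - 2 * c * ‖h s‖ + c ^ 2 := fun s => by ring
    simp only [e]
    rw [intervalIntegral.integral_add (i2.sub (i1.const_mul _)) intervalIntegrable_const,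
      intervalIntegral.integral_sub i2 (i1.const_mul _), intervalIntegral.integral_const_mul,
      intervalIntegral.integral_const, ← hcdef]
    simp only [add_sub_cancel_left, smul_eq_mul, one_mul]
    ring
  have h4 : ‖∫ s in y..(y + 1), h s‖ ^ 2 ≤ c ^ 2 := pow_le_pow_left₀ (norm_nonneg _) h1 2
  linarith

lemma coe_pt (x y : ℝ) (hy : 0 < y) : ((pt x y : ℍ) : ℂ) = x + y * I := by
  unfold pt
  rw [ofComplex_apply_of_im_pos (by simpa using hy)]

/-- the fundamental theorem along the vertical segment -/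
lemma ftc (f : ℍ → ℂ) (hf : Sm f) (h2 : sCO) (x y : ℝ) (hy : 0 < y) :
    ‖f (pt x y)‖ ^ 2 ≤ 2 * ‖f (pt x (y + 1))‖ ^ 2 +
      2 * ∫ s in y..(y + 1), ‖gy f (pt x s)‖ ^ 2 / s ^ 2 := by
  have hyy : y ≤ y + 1 := by linarith
  have hopen : IsOpen {w : ℂ | 0 < w.im} := isOpen_lt continuous_const Complex.continuous_im
  -- derivative along the line
  have hder : ∀ s : ℝ, 0 < s → HasDerivAt (fun s : ℝ => f (pt x s))
      (fderiv ℝ (ex f) (x + s * I) I) s := by
    intro s hs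
    have hmem : (x + s * I : ℂ) ∈ {w : ℂ | 0 < w.im} := by simpa using hs
    have hd : DifferentiableAt ℝ (ex f) (x + s * I) :=
      (hf.contDiffAt (hopen.mem_nhds hmem)).differentiableAt (by simp)
    have hline : HasDerivAt (fun s : ℝ => (x + s * I : ℂ)) I s := by
      have := ((Complex.ofRealCLM.hasDerivAt (x := s)).mul_const I).const_add (x : ℂ)
      refine this.congr_deriv ?_
      simp
    exact hd.hasFDerivAt.comp_hasDerivAt s hline
  have hgy : ∀ s : ℝ, 0 < s → gy f (pt x s) = s * fderiv ℝ (ex f) (x + s * I) I := by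
    intro s hs
    unfold gy
    rw [coe_pt x s hs, (h2.2.1 x s hs).2]
  have hcont : ContinuousOn (fun s : ℝ => fderiv ℝ (ex f) (x + s * I) I) (Icc y (y + 1)) := by
    have h1 : ContinuousOn (fderiv ℝ (ex f)) {w : ℂ | 0 < w.im} :=
      hf.continuousOn_fderiv_of_isOpen hopen (by simp)
    have h3 : ContinuousOn (fun s : ℝ => fderiv ℝ (ex f) (x + s * I)) (Icc y (y + 1)) := by
      apply h1.comp (by fun_prop)
      intro s hs
      have : 0 < s := lt_of_lt_of_le hy hs.1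
      simpa using this
    exact h3.clm_apply continuousOn_const
  have hFTC : ∫ s in y..(y + 1), fderiv ℝ (ex f) (x + s * I) I =
      f (pt x (y + 1)) - f (pt x y) := by
    apply intervalIntegral.integral_eq_sub_of_hasDerivAt (f := fun s : ℝ => f (pt x s))
    · intro s hs
      rw [uIcc_of_le hyy] at hs
      exact hder s (lt_of_lt_of_le hy hs.1)
    · apply ContinuousOn.intervalIntegrable
      rwa [uIcc_of_le hyy]
  have hcs := cs_one _ y hcont
  rw [hFTC] at hcs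
  have heq : ∫ s in y..(y + 1), ‖gy f (pt x s)‖ ^ 2 / s ^ 2 =
      ∫ s in y..(y + 1), ‖fderiv ℝ (ex f) (x + s * I) I‖ ^ 2 := by
    apply intervalIntegral.integral_congr
    intro s hs
    rw [uIcc_of_le hyy] at hs
    have hs0 : 0 < s := lt_of_lt_of_le hy hs.1
    simp only
    rw [hgy s hs0, norm_mul, Complex.norm_real, Real.norm_eq_abs, mul_pow, sq_abs]
    field_simp
  rw [heq]
  have htri : ‖f (pt x y)‖ ≤ ‖f (pt x (y + 1))‖ + ‖f (pt x (y + 1)) - f (pt x y)‖ := by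
    have := norm_sub_le (f (pt x (y + 1))) (f (pt x (y + 1)) - f (pt x y))
    rwa [sub_sub_cancel] at this
  have hn1 := norm_nonneg (f (pt x y))
  have hn2 := norm_nonneg (f (pt x (y + 1)))
  have hn3 := norm_nonneg (f (pt x (y + 1)) - f (pt x y))
  nlinarith [sq_nonneg (‖f (pt x (y + 1))‖ - ‖f (pt x (y + 1)) - f (pt x y)‖)]

lemma cont_seg (f : ℍ → ℂ) (hf : Sm f) (h5 : sCM) (x y : ℝ) (hy : 0 < y) :
    ContinuousOn (fun s : ℝ => ‖gy f (pt x s)‖ ^ 2 / s ^ 2) (Icc y (y + 1)) := by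
  have hpt : ContinuousOn (fun s : ℝ => pt x s) (Icc y (y + 1)) := by
    rw [UpperHalfPlane.isEmbedding_coe.continuousOn_iff]
    have h1 : ContinuousOn (fun s : ℝ => (x + s * I : ℂ)) (Icc y (y + 1)) := by fun_prop
    refine h1.congr fun s hs => ?_
    exact coe_pt x s (lt_of_lt_of_le hy hs.1)
  have h2 : ContinuousOn (fun s : ℝ => gy f (pt x s)) (Icc y (y + 1)) :=
    (h5 f hf).2.2.1.comp_continuousOn hpt
  apply ContinuousOn.div (h2.norm.pow 2) (by fun_prop)
  intro s hs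
  have : 0 < s := lt_of_lt_of_le hy hs.1
  positivity

/-- the pointwise estimate -/
lemma pointwise (f : ℍ → ℂ) (hf : Sm f) (h2 : sCO) (h5 : sCM) (p : ℝ × ℝ) (hp : p ∈ E1) :
    ENNReal.ofReal (1 / p.2 ^ 2) * Fc' f p ≤ ENNReal.ofReal (8 / 3) * Fc' f (p + (0, 1)) +
      ENNReal.ofReal (8 / 3) * ∫⁻ s in Ioc p.2 (p.2 + 1), Gc' f (p.1, s) := by
  obtain ⟨x, y⟩ := p
  have hy : 0 < y := hp.1.1
  have hy2 := (sq_gt hp.1).1
  simp only at hy2
  have hcont := cont_seg f hf h5 x y hy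
  have hyy : y ≤ y + 1 := by linarith
  have hint : IntegrableOn (fun s : ℝ => ‖gy f (pt x s)‖ ^ 2 / s ^ 2) (Ioc y (y + 1)) :=
    (hcont.integrableOn_Icc).mono_set Ioc_subset_Icc_self
  have e1 : ∫⁻ s in Ioc y (y + 1), Gc' f (x, s) =
      ENNReal.ofReal (∫ s in y..(y + 1), ‖gy f (pt x s)‖ ^ 2 / s ^ 2) := by
    rw [intervalIntegral.integral_of_le hyy, ofReal_integral_eq_lintegral_ofReal hint]
    · rfl
    · exact Eventually.of_forall fun s => by positivity
  have e2 : ((x, y) + (0, 1) : ℝ × ℝ) = (x, y + 1) := by simp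
  simp only
  rw [e1, e2]
  unfold Fc'
  simp only
  have hftc := ftc f hf h2 x y hy
  have h0 : 0 ≤ ∫ s in y..(y + 1), ‖gy f (pt x s)‖ ^ 2 / s ^ 2 :=
    intervalIntegral.integral_nonneg hyy fun s _ => by positivity
  have h1y : 1 / y ^ 2 ≤ 4 / 3 := by
    rw [div_le_div_iff₀ (by positivity) (by norm_num)]
    linarith
  rw [← ENNReal.ofReal_mul (by positivity), ← ENNReal.ofReal_mul (by norm_num),
    ← ENNReal.ofReal_mul (by norm_num), ← ENNReal.ofReal_add (by positivity) (by positivity)]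
  apply ENNReal.ofReal_le_ofReal
  calc 1 / y ^ 2 * ‖f (pt x y)‖ ^ 2 ≤ 4 / 3 * ‖f (pt x y)‖ ^ 2 :=
        mul_le_mul_of_nonneg_right h1y (by positivity)
    _ ≤ _ := by linarith

lemma step3 (F : ℝ × ℝ → ℝ≥0∞) :
    ∫⁻ p : ℝ × ℝ, E1.indicator (fun p => F (p + (0, 1))) p ≤
      ∫⁻ p : ℝ × ℝ, E2.indicator F p := by
  rw [← lintegral_add_right_eq_self (fun p => E2.indicator F p) ((0, 1) : ℝ × ℝ)]
  apply lintegral_mono
  intro p
  by_cases hp : p ∈ E1
  · have h : p + (0, 1) ∈ E2 := by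
      obtain ⟨⟨h0, h1, h2⟩, h3⟩ := hp
      refine ⟨by simpa using h1, ?_, ?_⟩
      · simpa using h0
      · show p.2 + 1 ≤ 2
        linarith
    simp only
    rw [indicator_of_mem hp, indicator_of_mem h]
  · simp only
    rw [indicator_of_notMem hp]
    exact bot_le

/-- the domain of integration in three variables -/
def D3 : Set ((ℝ × ℝ) × ℝ) := {q | q.1 ∈ E1 ∧ q.1.2 < q.2 ∧ q.2 ≤ q.1.2 + 1}

lemma meas_D3 : MeasurableSet D3 := by
  have h1 : Measurable fun q : (ℝ × ℝ) × ℝ => q.1.2 := measurable_snd.comp measurable_fst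
  have h2 : Measurable fun q : (ℝ × ℝ) × ℝ => q.1.2 + 1 := h1.add_const 1
  exact MeasurableSet.inter (measurable_fst meas_E1) (MeasurableSet.inter
    (measurableSet_lt h1 measurable_snd) (measurableSet_le measurable_snd h2))

lemma step4 (G : ℝ × ℝ → ℝ≥0∞) (hG : Measurable G) :
    ∫⁻ p : ℝ × ℝ, E1.indicator (fun p => ∫⁻ s in Ioc p.2 (p.2 + 1), G (p.1, s)) p ≤
      ENNReal.ofReal (3 / 16) * ∫⁻ p : ℝ × ℝ, E.indicator G p := by
  set K : (ℝ × ℝ) × ℝ → ℝ≥0∞ := D3.indicator fun q => G (q.1.1, q.2) with hK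
  have hKm : Measurable K := by
    apply Measurable.indicator _ meas_D3
    apply hG.comp
    exact Measurable.prodMk (measurable_fst.comp measurable_fst) measurable_snd
  have e1 : ∀ p : ℝ × ℝ, E1.indicator (fun p => ∫⁻ s in Ioc p.2 (p.2 + 1), G (p.1, s)) p =
      ∫⁻ s, K (p, s) := by
    intro p
    by_cases hp : p ∈ E1
    · rw [indicator_of_mem hp, ← lintegral_indicator measurableSet_Ioc]
      apply lintegral_congr
      intro s
      by_cases hs : s ∈ Ioc p.2 (p.2 + 1)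
      · have hq : (p, s) ∈ D3 := ⟨hp, hs.1, hs.2⟩
        rw [indicator_of_mem hs, hK, indicator_of_mem hq]
      · have hq : (p, s) ∉ D3 := fun h => hs ⟨h.2.1, h.2.2⟩
        rw [indicator_of_notMem hs, hK, indicator_of_notMem hq]
    · rw [indicator_of_notMem hp]
      have h0 : ∀ s, K (p, s) = 0 := by
        intro s
        have hq : (p, s) ∉ D3 := fun h => hp h.1
        rw [hK]
        exact indicator_of_notMem hq _
      rw [lintegral_congr h0, lintegral_zero]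
  rw [lintegral_congr e1, Measure.volume_eq_prod, lintegral_prod _
    (hKm.lintegral_prod_right').aemeasurable]
  have e2 : ∀ x : ℝ, ∫⁻ y : ℝ, ∫⁻ s : ℝ, K ((x, y), s) ≤
      ENNReal.ofReal (3 / 16) * ∫⁻ s : ℝ, E.indicator G (x, s) := by
    intro x
    have hEm : Measurable fun s => E.indicator G (x, s) :=
      (hG.indicator meas_E).comp measurable_prodMk_left
    rw [lintegral_lintegral_swap, ← lintegral_const_mul _ hEm]
    · apply lintegral_mono
      intro s
      simp only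
      calc ∫⁻ y : ℝ, K ((x, y), s)
          ≤ ∫⁻ y : ℝ, (Ioc (13 / 16 : ℝ) 1).indicator (fun _ => E.indicator G (x, s)) y := by
            apply lintegral_mono
            intro y
            simp only
            by_cases hq : ((x, y), s) ∈ D3
            · have hxy := hq.1
              have hy1 := (sq_gt hxy.1).2
              simp only at hy1
              have hyI : y ∈ Ioc (13 / 16 : ℝ) 1 := ⟨hy1, hxy.2⟩
              have hxs : (x, s) ∈ E := by
                obtain ⟨⟨h0, h1, h2⟩, h3⟩ := hxy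
                have h4 : y < s := hq.2.1
                simp only at h0 h1 h2
                refine ⟨?_, h1, ?_⟩
                · show 0 < s
                  linarith
                · show 1 < x ^ 2 + s ^ 2
                  nlinarith
              rw [hK, indicator_of_mem hq, indicator_of_mem hyI, indicator_of_mem hxs]
            · rw [hK, indicator_of_notMem hq]
              exact bot_le
        _ = ENNReal.ofReal (3 / 16) * E.indicator G (x, s) := by
            rw [lintegral_indicator measurableSet_Ioc, lintegral_const,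
              Measure.restrict_apply MeasurableSet.univ, univ_inter, Real.volume_Ioc, mul_comm]
            norm_num
    · apply Measurable.aemeasurable
      exact hKm.comp (Measurable.prodMk (Measurable.prodMk measurable_const measurable_fst)
        measurable_snd)
  calc ∫⁻ x : ℝ, ∫⁻ y : ℝ, ∫⁻ s : ℝ, K ((x, y), s)
      ≤ ∫⁻ x : ℝ, ENNReal.ofReal (3 / 16) * ∫⁻ s : ℝ, E.indicator G (x, s) :=
        lintegral_mono e2
    _ = ENNReal.ofReal (3 / 16) * ∫⁻ x : ℝ, ∫⁻ s : ℝ, E.indicator G (x, s) := by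
        rw [lintegral_const_mul]
        exact (hG.indicator meas_E).lintegral_prod_right'
    _ = ENNReal.ofReal (3 / 16) * ∫⁻ p : ℝ × ℝ, E.indicator G p ∂(volume.prod volume) := by
        rw [lintegral_prod _ (hG.indicator meas_E).aemeasurable]

/-! ### the estimate on the core -/

def S1 : Set ℍ := {z : ℍ | z ∈ Dm ∧ z.im ≤ 1}

def S2 : Set ℍ := {z : ℍ | z ∈ Dh ∧ z.im ≤ 2}

lemma meas_S1 (h3 : sVOL) : MeasurableSet S1 :=
  h3.2.1.inter (measurableSet_le UpperHalfPlane.continuous_im.measurable measurable_const)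

lemma meas_S2 (h3 : sVOL) : MeasurableSet S2 :=
  h3.2.2.1.inter (measurableSet_le UpperHalfPlane.continuous_im.measurable measurable_const)

lemma lint_low (h2 : sCO) (h3 : sVOL) (h5 : sCM) (f : ℍ → ℂ) (hf : Sm f) :
    ∫⁻ z in S1, ENNReal.ofReal (‖f z‖ ^ 2) ≤
      ENNReal.ofReal (8 / 3) * (∫⁻ z in S2, ENNReal.ofReal (‖f z‖ ^ 2 * z.im ^ 2)) +
      ENNReal.ofReal (1 / 2) * ∫⁻ z in Dm, ENNReal.ofReal (‖gy f z‖ ^ 2) := by
  have hpt := h2.1
  have hmf : Measurable fun p : ℝ × ℝ => f (pt p.1 p.2) := (h5 f hf).1.measurable.comp h2.2.2.1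
  have hmg : Measurable fun p : ℝ × ℝ => gy f (pt p.1 p.2) :=
    (h5 f hf).2.2.1.measurable.comp h2.2.2.1
  have hF := meas_Fc h2 h5 hf
  have hG := meas_Gc h2 h5 hf
  -- the left side
  have e1 : ∫⁻ z in S1, ENNReal.ofReal (‖f z‖ ^ 2) =
      ∫⁻ p : ℝ × ℝ, E1.indicator (fun p => ENNReal.ofReal (1 / p.2 ^ 2) * Fc' f p) p := by
    apply lint_set h2 S1 E1 (meas_S1 h3) meas_E1 (fun p hp => hp.1.1) _ _ _ hF
    · intro z _
      unfold Fc'
      rw [hpt z]
    · intro z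
      show (z ∈ Dm ∧ z.im ≤ 1) ↔ ((z.re, z.im) ∈ E ∧ z.im ≤ 1)
      rw [mem_Dm]
  have e2 : ∫⁻ z in S2, ENNReal.ofReal (‖f z‖ ^ 2 * z.im ^ 2) =
      ∫⁻ p : ℝ × ℝ, E2.indicator (Fc' f) p := by
    rw [lint_set h2 S2 E2 (meas_S2 h3) meas_E2 (fun p hp => by linarith [hp.2.1]) _
      (fun z => ENNReal.ofReal (‖f z‖ ^ 2 * z.im ^ 2))
      (fun p => ENNReal.ofReal (‖f (pt p.1 p.2)‖ ^ 2 * p.2 ^ 2))]
    · apply lintegral_congr
      intro p
      by_cases hp : p ∈ E2
      · rw [indicator_of_mem hp, indicator_of_mem hp]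
        have hp2 : 0 < p.2 := by linarith [hp.2.1]
        unfold Fc'
        rw [← ENNReal.ofReal_mul (by positivity)]
        congr 1
        field_simp
      · rw [indicator_of_notMem hp, indicator_of_notMem hp]
    · exact ((hmf.norm.pow_const 2).mul (measurable_snd.pow_const 2)).ennreal_ofReal
    · intro z _
      simp only
      rw [hpt z]
    · intro z
      show ((|z.re| < 1 / 2 ∧ 1 < z.im) ∧ z.im ≤ 2) ↔ (|z.re| < 1 / 2 ∧ 1 < z.im ∧ z.im ≤ 2)
      tauto
  have e3 : ∫⁻ z in Dm, ENNReal.ofReal (‖gy f z‖ ^ 2) =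
      ∫⁻ p : ℝ × ℝ, E.indicator (Gc' f) p := by
    rw [lint_set h2 Dm E h3.2.1 meas_E (fun p hp => hp.1) mem_Dm
      (fun z => ENNReal.ofReal (‖gy f z‖ ^ 2))
      (fun p => ENNReal.ofReal (‖gy f (pt p.1 p.2)‖ ^ 2))]
    · apply lintegral_congr
      intro p
      by_cases hp : p ∈ E
      · rw [indicator_of_mem hp, indicator_of_mem hp]
        have hp2 : 0 < p.2 := hp.1
        unfold Gc'
        rw [← ENNReal.ofReal_mul (by positivity)]
        congr 1
        field_simp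
      · rw [indicator_of_notMem hp, indicator_of_notMem hp]
    · exact (hmg.norm.pow_const 2).ennreal_ofReal
    · intro z _
      simp only
      rw [hpt z]
  rw [e1, e2, e3]
  have hshift : Measurable fun p : ℝ × ℝ => Fc' f (p + (0, 1)) :=
    hF.comp (measurable_id.add_const _)
  calc ∫⁻ p : ℝ × ℝ, E1.indicator (fun p => ENNReal.ofReal (1 / p.2 ^ 2) * Fc' f p) p
      ≤ ∫⁻ p : ℝ × ℝ, (ENNReal.ofReal (8 / 3) * E1.indicator (fun p => Fc' f (p + (0, 1))) p +
        ENNReal.ofReal (8 / 3) *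
          E1.indicator (fun p => ∫⁻ s in Ioc p.2 (p.2 + 1), Gc' f (p.1, s)) p) := by
        apply lintegral_mono
        intro p
        by_cases hp : p ∈ E1
        · simp only
          rw [indicator_of_mem hp, indicator_of_mem hp, indicator_of_mem hp]
          exact pointwise f hf h2 h5 p hp
        · simp only
          rw [indicator_of_notMem hp]
          exact bot_le
    _ = ENNReal.ofReal (8 / 3) * (∫⁻ p : ℝ × ℝ, E1.indicator (fun p => Fc' f (p + (0, 1))) p) +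
        ENNReal.ofReal (8 / 3) * ∫⁻ p : ℝ × ℝ,
          E1.indicator (fun p => ∫⁻ s in Ioc p.2 (p.2 + 1), Gc' f (p.1, s)) p := by
        have hm8 : Measurable fun p : ℝ × ℝ => ENNReal.ofReal (8 / 3) *
            E1.indicator (fun p => Fc' f (p + (0, 1))) p :=
          measurable_const.mul (hshift.indicator meas_E1)
        rw [lintegral_add_left hm8, lintegral_const_mul _ (hshift.indicator meas_E1),
          lintegral_const_mul' _ _ ENNReal.ofReal_ne_top]
    _ ≤ ENNReal.ofReal (8 / 3) * (∫⁻ p : ℝ × ℝ, E2.indicator (Fc' f) p) +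
        ENNReal.ofReal (8 / 3) * (ENNReal.ofReal (3 / 16) * ∫⁻ p : ℝ × ℝ,
          E.indicator (Gc' f) p) := by
        exact add_le_add (mul_le_mul_right (step3 (Fc' f)) _)
          (mul_le_mul_right (step4 (Gc' f) hG) _)
    _ = _ := by
        rw [← mul_assoc, ← ENNReal.ofReal_mul (by norm_num)]
        norm_num

lemma int_bdd (h3 : sVOL) {g : ℍ → ℝ} (hg : Continuous g) (C : ℝ) (hC : ∀ z ∈ Dm, ‖g z‖ ≤ C)
    {S : Set ℍ} (hS : MeasurableSet S) (hSD : S ⊆ Dm) : IntegrableOn g S := by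
  have hfin : (volume : Measure ℍ) S < ∞ := (measure_mono hSD).trans_lt h3.1
  have h := Measure.integrableOn_of_bounded (s := S) (M := C) hfin.ne
    hg.aestronglyMeasurable (f := g) (μ := (volume : Measure ℍ)) ?_
  · exact h
  · filter_upwards [ae_restrict_mem hS] with z hz
    exact hC z (hSD hz)

lemma sq_bd (a C : ℝ) (h0 : 0 ≤ a) (h1 : a ≤ C) : ‖a ^ 2‖ ≤ C ^ 2 := by
  rw [Real.norm_eq_abs, abs_of_nonneg (sq_nonneg a)]
  exact pow_le_pow_left₀ h0 h1 2

lemma core_real (h2 : sCO) (h3 : sVOL) (h5 : sCM) (f : ℍ → ℂ) (hf : Core f) :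
    ∫ z in S1, ‖f z‖ ^ 2 ≤ 3 * (∫ z in S2, ‖f z‖ ^ 2 * z.im ^ 2) +
      1 / 2 * ∫ z, (‖gx f z‖ ^ 2 + ‖gy f z‖ ^ 2) ∂muD := by
  obtain ⟨C, hC⟩ := hf.bdd
  obtain ⟨c1, c2, c3, -⟩ := h5 f hf.sm
  have hS1D : S1 ⊆ Dm := fun z hz => hz.1
  have hS2D : S2 ⊆ Dm := fun z hz => h3.2.2.2 hz.1
  have i1 : IntegrableOn (fun z => ‖f z‖ ^ 2) S1 := by
    apply int_bdd h3 (c1.norm.pow 2) (C ^ 2) _ (meas_S1 h3) hS1D
    intro z hz
    exact sq_bd _ _ (norm_nonneg _) (hC z hz).1
  have i2 : IntegrableOn (fun z : ℍ => ‖f z‖ ^ 2 * z.im ^ 2) S2 := by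
    have hS2' : IntegrableOn (fun z : ℍ => ‖f z‖ ^ 2 * (min z.im 2) ^ 2) S2 := by
      apply int_bdd h3 ((c1.norm.pow 2).mul ((UpperHalfPlane.continuous_im.min
        continuous_const).pow 2)) (C ^ 2 * 2 ^ 2) _ (meas_S2 h3) hS2D
      intro z hz
      have h0 : 0 ≤ min z.im 2 := le_min z.im_pos.le (by norm_num)
      show ‖‖f z‖ ^ 2 * (min z.im 2) ^ 2‖ ≤ C ^ 2 * 2 ^ 2
      rw [norm_mul]
      exact mul_le_mul (sq_bd _ _ (norm_nonneg _) (hC z hz).1)
        (sq_bd _ _ h0 (min_le_right _ _)) (norm_nonneg _) (by positivity)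
    refine hS2'.congr_fun (fun z hz => ?_) (meas_S2 h3)
    simp only
    rw [min_eq_left hz.2]
  have i3 : IntegrableOn (fun z => ‖gy f z‖ ^ 2) Dm := by
    apply int_bdd h3 (c3.norm.pow 2) (C ^ 2) _ h3.2.1 subset_rfl
    intro z hz
    exact sq_bd _ _ (norm_nonneg _) (hC z hz).2.2
  have i4 : IntegrableOn (fun z => ‖gx f z‖ ^ 2) Dm := by
    apply int_bdd h3 (c2.norm.pow 2) (C ^ 2) _ h3.2.1 subset_rfl
    intro z hz
    exact sq_bd _ _ (norm_nonneg _) (hC z hz).2.1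
  have key := lint_low h2 h3 h5 f hf.sm
  have n2 : 0 ≤ ∫ z in S2, ‖f z‖ ^ 2 * z.im ^ 2 := integral_nonneg fun z => by positivity
  have n3 : 0 ≤ ∫ z in Dm, ‖gy f z‖ ^ 2 := integral_nonneg fun z => by positivity
  rw [← ofReal_integral_eq_lintegral_ofReal i1 (Eventually.of_forall fun z => by positivity),
    ← ofReal_integral_eq_lintegral_ofReal i2 (Eventually.of_forall fun z => by positivity),
    ← ofReal_integral_eq_lintegral_ofReal i3 (Eventually.of_forall fun z => by positivity),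
    ← ENNReal.ofReal_mul (by norm_num), ← ENNReal.ofReal_mul (by norm_num),
    ← ENNReal.ofReal_add (by positivity) (by positivity),
    ENNReal.ofReal_le_ofReal_iff (by positivity)] at key
  have h6 : ∫ z in Dm, ‖gy f z‖ ^ 2 ≤ ∫ z, (‖gx f z‖ ^ 2 + ‖gy f z‖ ^ 2) ∂muD := by
    apply integral_mono i3 (i4.add i3)
    intro z
    simp only [Pi.add_apply]
    linarith [sq_nonneg ‖gx f z‖]
  linarith

/-! ### passage to the closure -/

noncomputable def w1 : ℍ → ℝ := {z : ℍ | z.im ≤ 1}.indicator fun _ => 1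

noncomputable def w2 : ℍ → ℝ := S2.indicator fun z => z.im

lemma int_w1 (u : ℍ → ℂ) :
    ∫ z in S1, ‖u z‖ ^ 2 = ∫ z, w1 z ^ 2 * ‖u z‖ ^ 2 ∂muD := by
  have hA : MeasurableSet {z : ℍ | z.im ≤ 1} :=
    measurableSet_le UpperHalfPlane.continuous_im.measurable measurable_const
  have e : S1 = {z : ℍ | z.im ≤ 1} ∩ Dm := by
    ext z; exact and_comm
  rw [e, ← Measure.restrict_restrict hA, ← integral_indicator hA]
  congr 1
  funext z
  by_cases hz : z ∈ {z : ℍ | z.im ≤ 1}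
  · rw [indicator_of_mem hz, w1, indicator_of_mem hz]; ring
  · rw [indicator_of_notMem hz, w1, indicator_of_notMem hz]; ring

lemma int_w2 (h3 : sVOL) (u : ℍ → ℂ) :
    ∫ z in S2, ‖u z‖ ^ 2 * z.im ^ 2 = ∫ z, w2 z ^ 2 * ‖u z‖ ^ 2 ∂muD := by
  have hA := meas_S2 h3
  have e : S2 = S2 ∩ Dm := by
    ext z
    exact ⟨fun hz => ⟨hz, h3.2.2.2 hz.1⟩, fun hz => hz.1⟩
  conv_lhs => rw [e]
  rw [← Measure.restrict_restrict hA, ← integral_indicator hA]
  congr 1
  funext z
  by_cases hz : z ∈ S2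
  · rw [indicator_of_mem hz, w2, indicator_of_mem hz]; ring
  · rw [indicator_of_notMem hz, w2, indicator_of_notMem hz]; ring

end SLOW_

open SLOW_ in
theorem pLOW (h1 : sVSUB) (h2 : sCO) (h3 : sVOL) (h5 : sCM) : sLOW := by
  have hm1 : Measurable w1 := measurable_const.indicator
    (measurableSet_le UpperHalfPlane.continuous_im.measurable measurable_const)
  have hm2 : Measurable w2 :=
    UpperHalfPlane.continuous_im.measurable.indicator (meas_S2 h3)
  have hb1 : ∀ z, |w1 z| ≤ 1 := by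
    intro z
    by_cases hz : z ∈ {z : ℍ | z.im ≤ 1}
    · rw [w1, indicator_of_mem hz]; simp
    · rw [w1, indicator_of_notMem hz]; simp
  have hb2 : ∀ z, |w2 z| ≤ 2 := by
    intro z
    by_cases hz : z ∈ S2
    · rw [w2, indicator_of_mem hz, abs_of_pos z.im_pos]; exact hz.2
    · rw [w2, indicator_of_notMem hz]; simp
  have hc1 : Continuous fun v : H3 => ∫ z, w1 z ^ 2 * ‖pr v z‖ ^ 2 ∂muD :=
    (continuous_weight (μ := muD) w1 hm1 1 hb1).comp pr.continuous
  have hc2 : Continuous fun v : H3 => ∫ z, w2 z ^ 2 * ‖pr v z‖ ^ 2 ∂muD :=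
    (continuous_weight (μ := muD) w2 hm2 2 hb2).comp pr.continuous
  have hc3 : Continuous fun v : H3 => En v := by
    have e : (fun v : H3 => En v) = fun v : H3 => ‖v‖ ^ 2 - 6 * ‖pr v‖ ^ 2 := by
      funext v
      rw [h1.2.1 v]; ring
    rw [e]
    exact (continuous_norm.pow 2).sub (continuous_const.mul ((pr.continuous.norm).pow 2))
  have hclosed : IsClosed {v : H3 | ∫ z, w1 z ^ 2 * ‖pr v z‖ ^ 2 ∂muD ≤
      3 * (∫ z, w2 z ^ 2 * ‖pr v z‖ ^ 2 ∂muD) + 1 / 2 * En v} :=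
    isClosed_le hc1 ((continuous_const.mul hc2).add (continuous_const.mul hc3))
  have hsub : VS ⊆ {v : H3 | ∫ z, w1 z ^ 2 * ‖pr v z‖ ^ 2 ∂muD ≤
      3 * (∫ z, w2 z ^ 2 * ‖pr v z‖ ^ 2 ∂muD) + 1 / 2 * En v} := by
    rintro v ⟨f, hf, hv⟩
    obtain ⟨v', -, hv', hpr, hEn⟩ := h1.2.2.1 f hf
    have hvv : v = v' := Lp.ext (hv.trans hv'.symm)
    subst hvv
    show ∫ z, w1 z ^ 2 * ‖pr v z‖ ^ 2 ∂muD ≤
      3 * (∫ z, w2 z ^ 2 * ‖pr v z‖ ^ 2 ∂muD) + 1 / 2 * En v
    have a1 : ∫ z, w1 z ^ 2 * ‖pr v z‖ ^ 2 ∂muD = ∫ z, w1 z ^ 2 * ‖f z‖ ^ 2 ∂muD := by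
      apply integral_congr_ae
      filter_upwards [hpr] with z hz
      rw [hz]
    have a2 : ∫ z, w2 z ^ 2 * ‖pr v z‖ ^ 2 ∂muD = ∫ z, w2 z ^ 2 * ‖f z‖ ^ 2 ∂muD := by
      apply integral_congr_ae
      filter_upwards [hpr] with z hz
      rw [hz]
    rw [a1, a2, hEn, ← int_w1 f, ← int_w2 h3 f]
    exact core_real h2 h3 h5 f hf
  intro v hv
  have h := closure_minimal hsub hclosed hv
  have b1 := int_w1 (fun z => pr v z)
  have b2 := int_w2 h3 (fun z => pr v z)
  show ∫ z in S1, ‖pr v z‖ ^ 2 ≤ 3 * (∫ z in S2, ‖pr v z‖ ^ 2 * z.im ^ 2) + 1 / 2 * En v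
  rw [b1, b2]
  exact h

end FMZ
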