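import Pool.Agent.FMZ.STargets

/-!
# FMZ, block S: the limit of the pairings with X(x/y) Z(log|z|/n) (S-LX2)
-/

open Complex MeasureTheory Set Filter Topology
open UpperHalfPlane hiding I
open scoped ENNReal

namespace FMZ

namespace SLX2_

lemma tst_bd {X : ℝ → ℝ} (hX : Tst X) : ∃ A M : ℝ, 0 < A ∧ 0 ≤ M ∧ (∀ t, |X t| ≤ M) ∧
    ∀ t, A < |t| → X t = 0 := by
  obtain ⟨M, hM⟩ := hX.cpt.exists_bound_of_continuous hX.smooth.continuous
  obtain ⟨R, hR⟩ := hX.cpt.isCompact.isBounded.subset_closedBall 0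
  refine ⟨max R 1, M, by positivity, le_trans (norm_nonneg _) (hM 0), fun t => hM t, ?_⟩
  intro t ht
  by_contra hne
  have h1 : t ∈ tsupport X := subset_tsupport _ hne
  have h2 := hR h1
  rw [Metric.mem_closedBall, dist_zero_right, Real.norm_eq_abs] at h2
  exact absurd (lt_of_le_of_lt (le_max_left R 1) ht) (not_lt.2 h2)

lemma w_bd {W : ℝ → ℝ} (hW : Continuous W) (h0 : ∀ x, 2 ≤ |x| → W x = 0) :
    ∃ M : ℝ, 0 ≤ M ∧ ∀ x, |W x| ≤ M := by
  have hc : HasCompactSupport W := by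
    refine HasCompactSupport.intro (isCompact_Icc (a := (-2 : ℝ)) (b := 2)) ?_
    intro x hx
    refine h0 x ?_
    by_contra h
    push Not at h
    exact hx ⟨(abs_lt.1 h).1.le, (abs_lt.1 h).2.le⟩
  obtain ⟨M, hM⟩ := hc.exists_bound_of_continuous hW
  exact ⟨M, le_trans (norm_nonneg _) (hM 0), fun t => hM t⟩

/-- the translations that matter -/
noncomputable def win (x r : ℝ) : Finset ℤ := Finset.Icc ⌈-r - x⌉ ⌊r - x⌋

lemma mem_win {x r : ℝ} {m : ℤ} : m ∈ win x r ↔ |x + m| ≤ r := by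
  unfold win
  rw [Finset.mem_Icc, Int.ceil_le, Int.le_floor, abs_le]
  constructor
  · rintro ⟨h1, h2⟩
    constructor <;> linarith
  · rintro ⟨h1, h2⟩
    constructor <;> linarith

lemma card_win {x r : ℝ} (hr : 0 ≤ r) : ((win x r).card : ℝ) ≤ 2 * r + 1 := by
  unfold win
  rw [Int.card_Icc]
  have h1 : ((⌊r - x⌋ + 1 - ⌈-r - x⌉).toNat : ℝ) = ((max (⌊r - x⌋ + 1 - ⌈-r - x⌉) 0 : ℤ) : ℝ) := by
    have := Int.toNat_eq_max (⌊r - x⌋ + 1 - ⌈-r - x⌉)
    exact_mod_cast congrArg (fun t : ℤ => (t : ℝ)) this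
  rw [h1]
  push_cast
  refine max_le ?_ (by linarith)
  have h2 := Int.floor_le (r - x)
  have h3 := Int.le_ceil (-r - x)
  linarith

lemma tsum_win {x r : ℝ} {f : ℤ → ℂ} (h0 : ∀ m : ℤ, r < |x + m| → f m = 0) :
    ∑' m, f m = ∑ m ∈ win x r, f m := by
  refine tsum_eq_sum ?_
  intro m hm
  rw [mem_win] at hm
  exact h0 m (not_le.1 hm)

lemma norm_tsum_win {x r M : ℝ} (hr : 0 ≤ r) (hM : 0 ≤ M) {f : ℤ → ℂ} (hf : ∀ m, ‖f m‖ ≤ M)
    (h0 : ∀ m : ℤ, r < |x + m| → f m = 0) : ‖∑' m, f m‖ ≤ M * (2 * r + 1) := by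
  rw [tsum_win h0]
  refine (norm_sum_le _ _).trans ?_
  refine (Finset.sum_le_sum fun m _ => hf m).trans ?_
  rw [Finset.sum_const, nsmul_eq_mul, mul_comm]
  exact mul_le_mul_of_nonneg_left (card_win hr) hM

lemma XW_zero {X W : ℝ → ℝ} {A : ℝ} (hA : ∀ t, A < |t| → X t = 0) (n : ℕ) {z : ℍ}
    (hz : A * z.im < |z.re|) : XW X W n z = 0 := by
  unfold XW
  have h1 : A < |z.re / z.im| := by
    rw [abs_div, abs_of_pos z.im_pos, lt_div_iff₀ z.im_pos]
    exact hz
  rw [hA _ h1]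
  simp

lemma XW_bd {X W : ℝ → ℝ} {M M' : ℝ} (hX : ∀ t, |X t| ≤ M) (hW : ∀ t, |W t| ≤ M') (n : ℕ)
    (z : ℍ) : ‖XW X W n z‖ ≤ M * M' := by
  unfold XW
  rw [Complex.norm_real, Real.norm_eq_abs, abs_mul]
  exact mul_le_mul (hX _) (hW _) (abs_nonneg _) (le_trans (abs_nonneg _) (hX 0))

lemma XW_vadd (X W : ℝ → ℝ) (n : ℕ) (m : ℤ) (z : ℍ) : XW X W n ((m : ℝ) +ᵥ z) =
    ((X ((z.re + m) / z.im) * W (Real.log ‖(m : ℂ) + (z : ℂ)‖ / n) : ℝ) : ℂ) := by
  unfold XW
  rw [vadd_re, vadd_im, coe_vadd, add_comm (m : ℝ) z.re]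
  norm_num

lemma measurable_XW_vadd {X W : ℝ → ℝ} (hX : Continuous X) (hW : Continuous W) (n : ℕ) (m : ℤ) :
    Measurable fun z : ℍ => XW X W n ((m : ℝ) +ᵥ z) := by
  have h1 : (fun z : ℍ => XW X W n ((m : ℝ) +ᵥ z)) = fun z : ℍ =>
      ((X ((z.re + m) / z.im) * W (Real.log ‖(m : ℂ) + (z : ℂ)‖ / n) : ℝ) : ℂ) := by
    funext z
    exact XW_vadd X W n m z
  rw [h1]
  have hre : Measurable fun z : ℍ => z.re := UpperHalfPlane.continuous_re.measurable
  have him : Measurable fun z : ℍ => z.im := UpperHalfPlane.continuous_im.measurable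
  have hc : Measurable fun z : ℍ => (m : ℂ) + (z : ℂ) := measurable_const.add measurable_coe
  exact Complex.measurable_ofReal.comp
    ((hX.measurable.comp ((hre.add_const _).div him)).mul
      (hW.measurable.comp ((Real.measurable_log.comp hc.norm).div_const _)))

/-- the norm of a point of the cone with im ≤ 1 -/
lemma norm_cone {A : ℝ} {z : ℍ} (h1 : z.im ≤ 1) (h2 : |z.re| ≤ A * z.im) :
    ‖(z : ℂ)‖ ≤ 1 + |A| := by
  have h3 : ‖(z : ℂ)‖ ≤ |(z : ℂ).re| + |(z : ℂ).im| := Complex.norm_le_abs_re_add_abs_im _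
  rw [UpperHalfPlane.coe_re, UpperHalfPlane.coe_im, abs_of_pos z.im_pos] at h3
  have h4 : A * z.im ≤ |A| := by
    calc A * z.im ≤ |A| * z.im := mul_le_mul_of_nonneg_right (le_abs_self A) z.im_pos.le
      _ ≤ |A| * 1 := mul_le_mul_of_nonneg_left h1 (abs_nonneg _)
      _ = |A| := mul_one _
  linarith

lemma muD_finite (hV : sVOL) : IsFiniteMeasure muD :=
  ⟨by rw [muD, Measure.restrict_apply_univ]; exact hV.1⟩

lemma int_u (hV : sVOL) {u : ℍ → ℂ} (hu : MemLp u 2 muD) : Integrable u muD := by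
  have := muD_finite hV
  exact hu.integrable (by norm_num)

lemma aesm_Dh (hV : sVOL) {u : ℍ → ℂ} (hu : MemLp u 2 muD) :
    AEStronglyMeasurable u ((volume : Measure ℍ).restrict Dh) := by
  have h1 := hu.1
  exact h1.mono_measure (Measure.restrict_mono hV.2.2.2 le_rfl)

end SLX2_

open SLX2_ in
theorem pLX2 (h1 : sLXD) (h2 : sZC) (hV : sVOL) : sLX2 := by
  intro X Z u hX hZ hu hzc hint
  obtain ⟨A, M, hA, hM, hXM, hX0⟩ := tst_bd hX
  have hZ2 : ∀ x, 2 ≤ |x| → Z x = 0 := hZ.zero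
  have hZ1 : ∀ x, |Z x| ≤ 1 := by
    intro x
    rw [abs_of_nonneg (hZ.rng x).1]
    exact (hZ.rng x).2
  have hXc := hX.smooth.continuous
  have hZc := hZ.smooth.continuous
  -- eventually constant part
  have hev : ∀ᶠ n : ℕ in atTop, (fun z : ℍ => if 1 < ‖(z : ℂ)‖ ∧ z.im ≤ 1 then XW X Z n z else 0)
      = Xlow X := by
    obtain ⟨N, hN⟩ := exists_nat_gt (Real.log (1 + |A|))
    filter_upwards [eventually_ge_atTop (max N 1)] with n hn
    funext z
    unfold Xlow
    rw [indicator_apply]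
    by_cases hz : 1 < ‖(z : ℂ)‖ ∧ z.im ≤ 1
    · rw [if_pos hz, if_pos (by exact hz)]
      by_cases hz2 : |z.re| ≤ A * z.im
      · unfold XW
        have h3 : Z (Real.log ‖(z : ℂ)‖ / n) = 1 := by
          refine hZ.one _ ?_
          have hn1 : (1 : ℝ) ≤ n := by exact_mod_cast le_trans (le_max_right N 1) hn
          have hnN : (N : ℝ) ≤ n := by exact_mod_cast le_trans (le_max_left N 1) hn
          have hl0 : 0 ≤ Real.log ‖(z : ℂ)‖ := Real.log_nonneg hz.1.le
          have hl1 : Real.log ‖(z : ℂ)‖ ≤ Real.log (1 + |A|) :=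
            Real.log_le_log (by linarith [hz.1]) (norm_cone hz.2 hz2)
          rw [abs_of_nonneg (div_nonneg hl0 (by linarith)), div_le_one (by linarith)]
          linarith
        rw [h3, mul_one]
      · push Not at hz2
        rw [XW_zero hX0 n hz2]
        have h3 : A < |z.re / z.im| := by
          rw [abs_div, abs_of_pos z.im_pos, lt_div_iff₀ z.im_pos]
          exact hz2
        rw [hX0 _ h3]
        simp
    · rw [if_neg hz, if_neg (by exact hz)]
  -- dominated convergence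
  set μ : Measure ℍ := (volume : Measure ℍ).restrict Dh with hμ
  have humeas : AEStronglyMeasurable u μ := aesm_Dh hV hu
  have hsupp : ∀ (n : ℕ) (z : ℍ) (m : ℤ), A * z.im < |z.re + m| →
      XW X Z n ((m : ℝ) +ᵥ z) = 0 := by
    intro n z m hm
    refine XW_zero hX0 n ?_
    rw [vadd_re, vadd_im, add_comm]
    exact hm
  have hbound : ∀ (n : ℕ) (z : ℍ), z ∈ Dh →
      ‖∑' m : ℤ, XW X Z n ((m : ℝ) +ᵥ z)‖ ≤ M * (2 * A + 1) * z.im := by
    intro n z hz
    have hy : 1 < z.im := hz.2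
    have h3 : ‖∑' m : ℤ, XW X Z n ((m : ℝ) +ᵥ z)‖ ≤ M * 1 * (2 * (A * z.im) + 1) :=
      norm_tsum_win (x := z.re) (by positivity) (by linarith)
        (fun m => XW_bd hXM hZ1 n _) (fun m hm => hsupp n z m hm)
    refine h3.trans ?_
    rw [mul_one, mul_assoc]
    refine mul_le_mul_of_nonneg_left ?_ hM
    nlinarith
  have hlim : Tendsto (fun n : ℕ => ∫ z, u z * ∑' m : ℤ, XW X Z n ((m : ℝ) +ᵥ z) ∂μ) atTop
      (𝓝 (∫ z, u z * ∑' m : ℤ, ((X ((z.re + m) / z.im) : ℝ) : ℂ) ∂μ)) := by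
    refine tendsto_integral_of_dominated_convergence
      (fun z => (M * (2 * A + 1)) * ‖u z * (z.im : ℂ)‖) ?_ ?_ ?_ ?_
    · intro n
      refine humeas.mul ?_
      exact (Measurable.tsum fun m => measurable_XW_vadd hXc hZc n m).aestronglyMeasurable
    · exact hint.norm.const_mul _
    · intro n
      rw [hμ]
      filter_upwards [ae_restrict_mem hV.2.2.1] with z hz
      rw [norm_mul, norm_mul, Complex.norm_real, Real.norm_eq_abs, abs_of_pos z.im_pos]
      calc ‖u z‖ * ‖∑' m : ℤ, XW X Z n ((m : ℝ) +ᵥ z)‖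
          ≤ ‖u z‖ * (M * (2 * A + 1) * z.im) :=
            mul_le_mul_of_nonneg_left (hbound n z hz) (norm_nonneg _)
        _ = M * (2 * A + 1) * (‖u z‖ * z.im) := by ring
    · filter_upwards with z
      refine Tendsto.const_mul _ ?_
      have h3 : ∀ n : ℕ, ∑' m : ℤ, XW X Z n ((m : ℝ) +ᵥ z)
          = ∑ m ∈ win z.re (A * z.im), XW X Z n ((m : ℝ) +ᵥ z) := fun n =>
        tsum_win (fun m hm => hsupp n z m hm)
      have h4 : ∑' m : ℤ, ((X ((z.re + m) / z.im) : ℝ) : ℂ)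
          = ∑ m ∈ win z.re (A * z.im), ((X ((z.re + m) / z.im) : ℝ) : ℂ) := by
        refine tsum_win (fun m hm => ?_)
        have h5 : A < |(z.re + m) / z.im| := by
          rw [abs_div, abs_of_pos z.im_pos, lt_div_iff₀ z.im_pos]
          exact hm
        rw [hX0 _ h5]
        simp
      simp_rw [h3]
      rw [h4]
      refine tendsto_finsetSum _ fun m _ => ?_
      simp_rw [XW_vadd]
      refine (Complex.continuous_ofReal.tendsto _).comp ?_
      have h6 : Tendsto (fun n : ℕ => Z (Real.log ‖(m : ℂ) + (z : ℂ)‖ / n)) atTop (𝓝 1) := by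
        have h7 : Tendsto (fun n : ℕ => Real.log ‖(m : ℂ) + (z : ℂ)‖ / n) atTop (𝓝 0) :=
          tendsto_const_div_atTop_nhds_zero_nat _
        have h8 := (hZc.tendsto 0).comp h7
        rw [hZ.one 0 (by simp)] at h8
        exact h8
      have h9 := h6.const_mul (X ((z.re + m) / z.im))
      rw [mul_one] at h9
      exact h9
  -- identify the limit
  have hzero : ∫ z, u z * (z.im : ℂ) ∂μ = 0 := by
    have := (h2 u hu hzc).2 (fun y => (y : ℂ)) Complex.measurable_ofReal hint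
    exact this
  have hXsum_int : Integrable (fun z : ℍ => u z * ∑' m : ℤ, ((X ((z.re + m) / z.im) : ℝ) : ℂ)) μ := by
    refine Integrable.mono' (hint.norm.const_mul (M * (2 * A + 1))) ?_ ?_
    · refine humeas.mul ?_
      refine (Measurable.tsum fun m => ?_).aestronglyMeasurable
      have hre : Measurable fun z : ℍ => z.re := UpperHalfPlane.continuous_re.measurable
      have him : Measurable fun z : ℍ => z.im := UpperHalfPlane.continuous_im.measurable
      exact Complex.measurable_ofReal.comp (hXc.measurable.comp ((hre.add_const _).div him))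
    · rw [hμ]
      filter_upwards [ae_restrict_mem hV.2.2.1] with z hz
      have hy : 1 < z.im := hz.2
      have h3 : ‖∑' m : ℤ, ((X ((z.re + m) / z.im) : ℝ) : ℂ)‖ ≤ M * (2 * (A * z.im) + 1) := by
        refine norm_tsum_win (x := z.re) (by positivity) hM ?_ ?_
        · intro m
          rw [Complex.norm_real]
          exact hXM _
        · intro m hm
          have h5 : A < |(z.re + m) / z.im| := by
            rw [abs_div, abs_of_pos z.im_pos, lt_div_iff₀ z.im_pos]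
            exact hm
          rw [hX0 _ h5]
          simp
      rw [norm_mul, norm_mul, Complex.norm_real, Real.norm_eq_abs, abs_of_pos z.im_pos]
      calc ‖u z‖ * ‖∑' m : ℤ, ((X ((z.re + m) / z.im) : ℝ) : ℂ)‖
          ≤ ‖u z‖ * (M * (2 * A + 1) * z.im) := by
            refine mul_le_mul_of_nonneg_left (h3.trans ?_) (norm_nonneg _)
            rw [mul_assoc]
            refine mul_le_mul_of_nonneg_left ?_ hM
            nlinarith
        _ = M * (2 * A + 1) * (‖u z‖ * z.im) := by ring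
  have hid : ∫ z, u z * ∑' m : ℤ, ((X ((z.re + m) / z.im) : ℝ) : ℂ) ∂μ
      = ∫ z, u z * BX X z ∂μ := by
    have h3 : ∀ z : ℍ, u z * (BX X z : ℂ) = u z * ∑' m : ℤ, ((X ((z.re + m) / z.im) : ℝ) : ℂ)
        - ((∫ t : ℝ, X t : ℝ) : ℂ) * (u z * (z.im : ℂ)) := by
      intro z
      unfold BX
      push_cast
      ring
    simp_rw [h3]
    rw [integral_sub hXsum_int (hint.const_mul _), integral_const_mul, hzero, mul_zero, sub_zero]
  rw [hid] at hlim
  -- conclude
  have hfin : Tendsto (fun n : ℕ => 2 * Lam (Xlow X) u +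
      2 * ∫ z, u z * ∑' m : ℤ, XW X Z n ((m : ℝ) +ᵥ z) ∂μ) atTop (𝓝 (lX X u)) := by
    unfold lX
    exact (hlim.const_mul 2).const_add _
  refine hfin.congr' ?_
  filter_upwards [hev, eventually_ge_atTop 1] with n hn hn1
  rw [h1 X Z u hX hZ.smooth hZ.even hZ2 hu n hn1, hn]

end FMZ
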