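import Pool.Agent.FMZ.SLX2

/-!
# FMZ, block S: boundedness of the pairings with X(x/y) W(log|z|/n) (S-LX3)
-/

open Complex MeasureTheory Set Filter Topology
open UpperHalfPlane hiding I
open scoped ENNReal

namespace FMZ

namespace SLX3_

/-- a compact rectangle of the upper half plane -/
def box (A δ : ℝ) : Set ℍ := {z | |z.re| ≤ A ∧ δ ≤ z.im ∧ z.im ≤ 1}

lemma isCompact_box {A δ : ℝ} (hδ : 0 < δ) : IsCompact (box A δ) := by
  have h1 : IsCompact (Set.Icc (-A) A ×ℂ Set.Icc δ 1) := isCompact_Icc.reProdIm isCompact_Icc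
  rw [UpperHalfPlane.isEmbedding_coe.isCompact_iff]
  have h2 : UpperHalfPlane.coe '' (box A δ) = Set.Icc (-A) A ×ℂ Set.Icc δ 1 := by
    ext w
    rw [Complex.mem_reProdIm]
    constructor
    · rintro ⟨z, hz, rfl⟩
      refine ⟨?_, ?_⟩
      · exact abs_le.1 hz.1
      · exact ⟨hz.2.1, hz.2.2⟩
    · rintro ⟨hr, hi⟩
      refine ⟨⟨w, lt_of_lt_of_le hδ hi.1⟩, ?_, rfl⟩
      exact ⟨abs_le.2 hr, hi.1, hi.2⟩
  rw [h2]
  exact h1

/-- its indicator function -/
noncomputable def ind (A δ : ℝ) : ℍ → ℂ := indicator (box A δ) fun _ => 1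

lemma bc_ind {A δ : ℝ} (hδ : 0 < δ) : BC (ind A δ) := by
  refine ⟨?_, ⟨1, ?_⟩, ⟨box A δ, isCompact_box hδ, ?_⟩⟩
  · exact measurable_const.indicator (isCompact_box hδ).isClosed.measurableSet
  · intro z
    unfold ind
    by_cases h : z ∈ box A δ
    · rw [indicator_of_mem h]
      simp
    · rw [indicator_of_notMem h]
      simp
  · intro z hz
    unfold ind
    rw [indicator_of_notMem hz]

lemma poi_le (hP : sPBD) {A δ : ℝ} (hδ : 0 < δ) {B : ℍ → ℂ} {c : ℝ}
    (hB : ∀ z, ‖B z‖ ≤ c) (hB0 : ∀ z, z ∉ box A δ → B z = 0) (z : ℍ) :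
    ‖Poi B z‖ ≤ c * ‖Poi (ind A δ) z‖ := by
  have hf := (hP _ (bc_ind (A := A) hδ)).1 z
  have h1 : ∀ g : SG, g ∉ hf.toFinset → g • z ∉ box A δ := by
    intro g hg hmem
    refine hg ?_
    rw [Set.Finite.mem_toFinset]
    show ind A δ (g • z) ≠ 0
    unfold ind
    rw [indicator_of_mem hmem]
    exact one_ne_zero
  have h2 : ∀ g : SG, g ∈ hf.toFinset → ind A δ (g • z) = 1 := by
    intro g hg
    rw [Set.Finite.mem_toFinset] at hg
    have hg' : ind A δ (g • z) ≠ 0 := hg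
    unfold ind at hg' ⊢
    by_cases h : g • z ∈ box A δ
    · rw [indicator_of_mem h]
    · rw [indicator_of_notMem h] at hg'
      exact absurd rfl hg'
  have h3 : Poi B z = ∑ g ∈ hf.toFinset, B (g • z) :=
    tsum_eq_sum fun g hg => hB0 _ (h1 g hg)
  have h4 : Poi (ind A δ) z = ∑ g ∈ hf.toFinset, ind A δ (g • z) := by
    refine tsum_eq_sum fun g hg => ?_
    unfold ind
    rw [indicator_of_notMem (h1 g hg)]
  rw [h3, h4, Finset.sum_congr rfl h2, Finset.sum_const, nsmul_eq_mul, mul_one,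
    Complex.norm_natCast]
  refine (norm_sum_le _ _).trans ?_
  refine (Finset.sum_le_sum fun g _ => hB _).trans ?_
  rw [Finset.sum_const, nsmul_eq_mul, mul_comm]

end SLX3_

open SLX2_ SLX3_ in
theorem pLX3 (h1 : sLXD) (hP : sPBD) (hV : sVOL) : sLX3 := by
  intro X W u hX hW hWe hW0 hu hint
  obtain ⟨A, M, hA, hM, hXM, hX0⟩ := tst_bd hX
  obtain ⟨M', hM', hWM⟩ := w_bd hW.continuous hW0
  have hδ : 0 < 1 / (1 + A) := by positivity
  obtain ⟨C₀, hC₀⟩ := (hP _ (bc_ind (A := A) hδ)).2.2.2.1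
  set μ : Measure ℍ := (volume : Measure ℍ).restrict Dh with hμ
  refine ⟨2 * (1 / 2 * ∫ z, ‖u z‖ * (M * M' * C₀) ∂muD) +
    2 * ∫ z, M * M' * (2 * A + 1) * ‖u z * (z.im : ℂ)‖ ∂μ, fun n hn => ?_⟩
  rw [h1 X W u hX hW hWe hW0 hu n hn]
  refine (norm_add_le _ _).trans (add_le_add ?_ ?_)
  · rw [norm_mul, Complex.norm_ofNat]
    refine mul_le_mul_of_nonneg_left ?_ (by norm_num)
    unfold Lam
    rw [norm_mul]
    have h2 : ‖(1 / 2 : ℂ)‖ = 1 / 2 := by norm_num
    rw [h2]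
    refine mul_le_mul_of_nonneg_left ?_ (by norm_num)
    refine norm_integral_le_of_norm_le ((int_u hV hu).norm.mul_const _) ?_
    unfold muD
    filter_upwards [ae_restrict_mem hV.2.1] with z hz
    rw [norm_mul]
    refine mul_le_mul_of_nonneg_left ?_ (norm_nonneg _)
    refine (poi_le hP (A := A) hδ (c := M * M') ?_ ?_ z).trans
      (mul_le_mul_of_nonneg_left (hC₀ z hz) (by positivity))
    · intro w
      split_ifs
      · exact XW_bd hXM hWM n w
      · rw [norm_zero]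
        positivity
    · intro w hw
      rw [ite_eq_right_iff]
      rintro ⟨hw1, hw2⟩
      refine XW_zero hX0 n ?_
      by_contra hcon
      push Not at hcon
      refine hw ⟨?_, ?_, hw2⟩
      · exact hcon.trans (mul_le_of_le_one_right hA.le hw2)
      · have h3 : ‖(w : ℂ)‖ ≤ |(w : ℂ).re| + |(w : ℂ).im| := Complex.norm_le_abs_re_add_abs_im _
        rw [UpperHalfPlane.coe_re, UpperHalfPlane.coe_im, abs_of_pos w.im_pos] at h3
        rw [div_le_iff₀ (by positivity)]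
        nlinarith
  · rw [norm_mul, Complex.norm_ofNat]
    refine mul_le_mul_of_nonneg_left ?_ (by norm_num)
    refine norm_integral_le_of_norm_le (hint.norm.const_mul _) ?_
    filter_upwards [ae_restrict_mem hV.2.2.1] with z hz
    have hy : 1 < z.im := hz.2
    have h3 : ‖∑' m : ℤ, XW X W n ((m : ℝ) +ᵥ z)‖ ≤ M * M' * (2 * (A * z.im) + 1) := by
      refine norm_tsum_win (x := z.re) (by positivity) (by positivity)
        (fun m => XW_bd hXM hWM n _) (fun m hm => ?_)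
      refine XW_zero hX0 n ?_
      rw [vadd_re, vadd_im, add_comm]
      exact hm
    rw [norm_mul, norm_mul, Complex.norm_real, Real.norm_eq_abs, abs_of_pos z.im_pos]
    have h4 : 2 * (A * z.im) + 1 ≤ (2 * A + 1) * z.im := by nlinarith
    have h5 : M * M' * (2 * (A * z.im) + 1) ≤ M * M' * ((2 * A + 1) * z.im) :=
      mul_le_mul_of_nonneg_left h4 (by positivity)
    calc ‖u z‖ * ‖∑' m : ℤ, XW X W n ((m : ℝ) +ᵥ z)‖
        ≤ ‖u z‖ * (M * M' * ((2 * A + 1) * z.im)) :=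
          mul_le_mul_of_nonneg_left (h3.trans h5) (norm_nonneg _)
      _ = M * M' * (2 * A + 1) * (‖u z‖ * z.im) := by ring

end FMZ
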