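import Pool.Agent.FMZ.STargets
import Pool.Agent.FMZ.SCNT

/-!
# FMZ, S-LXD: decomposition of the pairing with X(x/y) W(log|z|/n)
-/

open Complex MeasureTheory Set Filter Topology
open UpperHalfPlane hiding I
open scoped ENNReal InnerProductSpace

namespace FMZ

namespace SLXD_

lemma coe_S (z : ℍ) : ((ModularGroup.S • z : ℍ) : ℂ) = (-(z : ℂ))⁻¹ := by
  rw [UpperHalfPlane.modular_S_smul]

lemma norm_S (z : ℍ) : ‖((ModularGroup.S • z : ℍ) : ℂ)‖ = ‖(z : ℂ)‖⁻¹ := by
  rw [coe_S, norm_inv, norm_neg]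

lemma norm_pos (z : ℍ) : 0 < ‖(z : ℂ)‖ := norm_pos_iff.mpr (UpperHalfPlane.ne_zero z)

lemma ratio_S (z : ℍ) : (ModularGroup.S • z : ℍ).re / (ModularGroup.S • z : ℍ).im =
    -(z.re / z.im) := by
  have h1 : (ModularGroup.S • z : ℍ).re = -z.re / normSq (z : ℂ) := by
    rw [← UpperHalfPlane.coe_re, coe_S, Complex.inv_re, Complex.neg_re, Complex.normSq_neg,
      UpperHalfPlane.coe_re]
  have h2 : (ModularGroup.S • z : ℍ).im = z.im / normSq (z : ℂ) := by
    rw [← UpperHalfPlane.coe_im, coe_S, Complex.inv_im, Complex.neg_im, Complex.normSq_neg,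
      UpperHalfPlane.coe_im, neg_neg]
  have h3 : 0 < normSq (z : ℂ) := Complex.normSq_pos.mpr (UpperHalfPlane.ne_zero z)
  have h4 : 0 < z.im := z.im_pos
  rw [h1, h2]
  field_simp

lemma XW_S {X W : ℝ → ℝ} (hX : Tst X) (hW : ∀ x, W (-x) = W x) (n : ℕ) (z : ℍ) :
    XW X W n (ModularGroup.S • z) = XW X W n z := by
  unfold XW
  rw [ratio_S, norm_S, hX.even, Real.log_inv, neg_div, hW]

lemma BC_ite {B : ℍ → ℂ} (hB : BC B) {p : ℍ → Prop} [DecidablePred p]
    (hp : MeasurableSet {z | p z}) : BC (fun z => if p z then B z else 0) := by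
  obtain ⟨C, hC⟩ := hB.bdd
  obtain ⟨K, hK, hK0⟩ := hB.cpt
  refine ⟨Measurable.ite hp hB.meas measurable_const, ⟨C, fun z => ?_⟩, ⟨K, hK, fun z hz => ?_⟩⟩
  · by_cases h : p z
    · simp only [if_pos h]; exact hC z
    · simp only [if_neg h, norm_zero]; exact (norm_nonneg _).trans (hC z)
  · by_cases h : p z
    · simp only [if_pos h]; exact hK0 z hz
    · simp only [if_neg h]

lemma meas_norm : Measurable (fun z : ℍ => ‖(z : ℂ)‖) := measurable_coe.norm

lemma meas_im : Measurable (fun z : ℍ => z.im) :=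
  Complex.continuous_im.measurable.comp measurable_coe

lemma null_circle : (volume : Measure ℍ) {z : ℍ | ‖(z : ℂ)‖ = 1} = 0 := by
  refine SCNT_.null_of_coe (t := Metric.sphere 0 1) ?_ (Measure.addHaar_sphere _ _ _)
  intro z hz
  rw [mem_sphere_zero_iff_norm]; exact hz

lemma ae_circle : ∀ᵐ z : ℍ, ∀ g : SG, ‖((g • z : ℍ) : ℂ)‖ ≠ 1 := by
  rw [ae_all_iff]
  intro g
  rw [ae_iff]
  have h2 : {a : ℍ | ¬‖((g • a : ℍ) : ℂ)‖ ≠ 1} =
      (fun z : ℍ => g • z) ⁻¹' {z : ℍ | ‖(z : ℂ)‖ = 1} := by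
    ext a
    simp
  rw [h2, SCNT_.vol_preimage, null_circle]

/-- the sum over the group, almost everywhere -/
lemma Poi_split (hPB : sPBD) {P : ℍ → ℂ} (hP : BC P)
    (hS : ∀ z, P (ModularGroup.S • z) = P z) :
    ∀ᵐ z ∂muD, Poi P z = 2 * Poi (fun w => if 1 < ‖(w : ℂ)‖ ∧ w.im ≤ 1 then P w else 0) z +
      2 * Poi (fun w => if 1 < w.im then P w else 0) z := by
  have hA : MeasurableSet {z : ℍ | 1 < ‖(z : ℂ)‖} := measurableSet_lt measurable_const meas_norm
  have hB : MeasurableSet {z : ℍ | 1 < ‖(z : ℂ)‖ ∧ z.im ≤ 1} :=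
    hA.inter (measurableSet_le meas_im measurable_const)
  have hC : MeasurableSet {z : ℍ | 1 < z.im} := measurableSet_lt measurable_const meas_im
  have b1 := BC_ite hP (p := fun z : ℍ => 1 < ‖(z : ℂ)‖) hA
  have b2 := BC_ite hP (p := fun z : ℍ => 1 < ‖(z : ℂ)‖ ∧ z.im ≤ 1) hB
  have b3 := BC_ite hP (p := fun z : ℍ => 1 < z.im) hC
  have hae := ae_restrict_of_ae (s := Dm) ae_circle
  unfold muD
  filter_upwards [hae] with z hz
  have e1 : Poi (fun w => (fun w : ℍ => if 1 < ‖(w : ℂ)‖ then P w else 0) (ModularGroup.S • w)) z =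
      Poi (fun w : ℍ => if 1 < ‖(w : ℂ)‖ then P w else 0) z :=
    congrFun ((hPB _ b1).2.2.2.2 ModularGroup.S) z
  have s1 := (hPB _ b1).1 z
  have s2 := (hPB _ b2).1 z
  have s3 := (hPB _ b3).1 z
  have b4 : {g : SG | (fun w : ℍ => (fun w : ℍ => if 1 < ‖(w : ℂ)‖ then P w else 0)
      (ModularGroup.S • w)) (g • z) ≠ 0}.Finite := by
    have h1 := (hPB _ hP).1 z
    refine h1.subset fun g hg => ?_
    simp only [mem_ofPred_eq] at hg ⊢
    intro h0
    apply hg
    rw [hS, h0, ite_self]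
  have e2 : Poi P z = Poi (fun w : ℍ => if 1 < ‖(w : ℂ)‖ then P w else 0) z +
      Poi (fun w => (fun w : ℍ => if 1 < ‖(w : ℂ)‖ then P w else 0) (ModularGroup.S • w)) z := by
    unfold Poi
    rw [← Summable.tsum_add (summable_of_hasFiniteSupport s1) (summable_of_hasFiniteSupport b4)]
    refine tsum_congr fun g => ?_
    have hg := hz g
    simp only [norm_S, hS]
    have hp := norm_pos (g • z)
    rcases lt_or_gt_of_ne hg with h | h
    · rw [if_neg (not_lt.mpr h.le), if_pos ((one_lt_inv₀ hp).mpr h), zero_add]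
    · rw [if_pos h, if_neg (not_lt.mpr (inv_le_one_of_one_le₀ h.le)), add_zero]
  have e3 : Poi (fun w : ℍ => if 1 < ‖(w : ℂ)‖ then P w else 0) z =
      Poi (fun w => if 1 < ‖(w : ℂ)‖ ∧ w.im ≤ 1 then P w else 0) z +
      Poi (fun w => if 1 < w.im then P w else 0) z := by
    unfold Poi
    rw [← Summable.tsum_add (summable_of_hasFiniteSupport s2) (summable_of_hasFiniteSupport s3)]
    refine tsum_congr fun g => ?_
    have him : (g • z).im ≤ ‖((g • z : ℍ) : ℂ)‖ := by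
      rw [← UpperHalfPlane.coe_im]; exact (le_abs_self _).trans (Complex.abs_im_le_norm _)
    beta_reduce
    by_cases h1 : (g • z).im ≤ 1
    · rw [if_neg (not_lt.mpr h1)]
      by_cases h2 : 1 < ‖((g • z : ℍ) : ℂ)‖
      · rw [if_pos h2, if_pos ⟨h2, h1⟩, add_zero]
      · rw [if_neg h2, if_neg (fun h => h2 h.1), add_zero]
    · have h2 : 1 < ‖((g • z : ℍ) : ℂ)‖ := lt_of_lt_of_le (not_le.mp h1) him
      rw [if_pos h2, if_neg (fun h => h1 h.2), if_pos (not_le.mp h1), zero_add]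
  rw [e2, e1, e3]; ring

end SLXD_

open SLXD_ in
/-- S-LXD -/
theorem pLXD (hHI : sHI) (hPB : sPBD) (_hU : sUNF) (hXW : sXW) (hV : sVOL) (hT : sTBC) : sLXD := by
  intro X W u hX hW hWe hW0 hu n hn
  have hTH : TH (XW X W n) := (hXW X W n hX hW hW0 hn).1
  have hP : BC (XW X W n) := (hT _ hTH).1
  have hA : MeasurableSet {z : ℍ | 1 < ‖(z : ℂ)‖} := measurableSet_lt measurable_const meas_norm
  have hB : MeasurableSet {z : ℍ | 1 < ‖(z : ℂ)‖ ∧ z.im ≤ 1} :=
    hA.inter (measurableSet_le meas_im measurable_const)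
  have hC : MeasurableSet {z : ℍ | 1 < z.im} := measurableSet_lt measurable_const meas_im
  have b2 := BC_ite hP (p := fun z : ℍ => 1 < ‖(z : ℂ)‖ ∧ z.im ≤ 1) hB
  have b3 := BC_ite hP (p := fun z : ℍ => 1 < z.im) hC
  have : IsFiniteMeasure muD := ⟨by
    unfold muD; rw [Measure.restrict_apply_univ]; exact hV.1⟩
  have hu1 : Integrable u muD := hu.integrable (by norm_num)
  have hint : ∀ B : ℍ → ℂ, BC B → Integrable (fun z => u z * Poi B z) muD := by
    intro B hB
    obtain ⟨-, hm, -, ⟨C, hC⟩, -⟩ := hPB B hB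
    refine hu1.mul_bdd (c := C) hm.aestronglyMeasurable ?_
    unfold muD
    filter_upwards [ae_restrict_mem hV.2.1] with z hz
    exact hC z hz
  have hR : ∫ z, u z * Poi (fun w => if 1 < w.im then XW X W n w else 0) z ∂muD =
      2 * ∫ z in Dh, u z * ∑' m : ℤ, XW X W n ((m : ℝ) +ᵥ z) := by
    have hDh : Dh = Dm ∩ {z : ℍ | 1 < z.im} := by
      ext z
      constructor
      · intro hz
        exact ⟨hV.2.2.2 hz, hz.2⟩
      · intro hz
        exact ⟨hz.1.2, hz.2⟩
    rw [hDh, ← integral_const_mul, ← setIntegral_indicator hC]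
    unfold muD
    refine setIntegral_congr_fun hV.2.1 fun z hz => ?_
    rw [hHI _ b3 (fun z hz => by rw [if_neg (not_lt.mpr hz)]) z hz]
    by_cases h1 : 1 < z.im
    · rw [indicator_of_mem (show z ∈ {z : ℍ | 1 < z.im} from h1)]
      have : ∀ m : ℤ, (if 1 < ((m : ℝ) +ᵥ z : ℍ).im then XW X W n ((m : ℝ) +ᵥ z) else 0) =
          XW X W n ((m : ℝ) +ᵥ z) := by
        intro m
        rw [UpperHalfPlane.vadd_im, if_pos h1]
      simp only [this]
      ring
    · rw [indicator_of_notMem (show z ∉ {z : ℍ | 1 < z.im} from h1)]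
      have : ∀ m : ℤ, (if 1 < ((m : ℝ) +ᵥ z : ℍ).im then XW X W n ((m : ℝ) +ᵥ z) else 0) =
          0 := by
        intro m
        rw [UpperHalfPlane.vadd_im, if_neg h1]
      simp only [this, tsum_zero, mul_zero]
  have hS : ∫ z, u z * Poi (XW X W n) z ∂muD =
      2 * (∫ z, u z * Poi (fun w => if 1 < ‖(w : ℂ)‖ ∧ w.im ≤ 1 then XW X W n w else 0) z ∂muD) +
      2 * ∫ z, u z * Poi (fun w => if 1 < w.im then XW X W n w else 0) z ∂muD := by
    rw [← integral_const_mul, ← integral_const_mul, ← integral_add ((hint _ b2).const_mul 2)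
      ((hint _ b3).const_mul 2)]
    refine integral_congr_ae ?_
    filter_upwards [Poi_split hPB hP (XW_S hX hWe n)] with z hz
    rw [hz]; ring
  unfold Lam
  rw [hS, hR]; ring

end FMZ
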