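import Pool.Agent.FMZ.STargets

/-!
# FMZ: functionals on even test functions (job FMZ-S-ODE)
-/

set_option autoImplicit false

open MeasureTheory Set Filter Topology

namespace FMZ.SODE_

/-- a real solution with its derivative -/
structure Sol (l : ℝ) (u u' : ℝ → ℝ) : Prop where
  smooth : ContDiff ℝ (⊤ : ℕ∞) u
  d1 : ∀ t, HasDerivAt u (u' t) t
  d2 : ∀ t, HasDerivAt (fun x => (1 + x ^ 2) * u' x) (-(l * u t)) t

theorem wronskian {l : ℝ} {u u' v v' : ℝ → ℝ} (hu : Sol l u u') (hv : Sol l v v') (t : ℝ) :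
    (1 + t ^ 2) * (u t * v' t - u' t * v t) = u 0 * v' 0 - u' 0 * v 0 := by
  have h : ∀ x, HasDerivAt (fun t => u t * ((1 + t ^ 2) * v' t) - v t * ((1 + t ^ 2) * u' t)) 0 x := by
    intro x
    have h1 := ((hu.d1 x).mul (hv.d2 x)).sub ((hv.d1 x).mul (hu.d2 x))
    refine h1.congr_deriv ?_
    ring
  have h2 := is_const_of_deriv_eq_zero (fun x => (h x).differentiableAt) (fun x => (h x).deriv) t 0
  have h3 : u t * ((1 + t ^ 2) * v' t) - v t * ((1 + t ^ 2) * u' t) =
      u 0 * ((1 + (0 : ℝ) ^ 2) * v' 0) - v 0 * ((1 + (0 : ℝ) ^ 2) * u' 0) := h2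
  linear_combination h3

/-- real parts of complex solutions -/
theorem sol_re {l : ℝ} {f : ℝ → ℂ} (hf : ContDiff ℝ (⊤ : ℕ∞) f)
    (hode : ∀ t : ℝ, -deriv (fun x : ℝ => (1 + x ^ 2 : ℝ) * deriv f x) t = (l : ℝ) * f t) (c : ℂ) :
    Sol l (fun t => (c * f t).re) (fun t => (c * deriv f t).re) := by
  have hd : Differentiable ℝ f := hf.differentiable (by simp)
  have hd2 : Differentiable ℝ (deriv f) := by
    have : ContDiff ℝ (⊤ : ℕ∞) (deriv f) := ((contDiff_infty_iff_deriv (𝕜 := ℝ)).mp hf).2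
    exact this.differentiable (by simp)
  refine ⟨?_, ?_, ?_⟩
  · exact Complex.reCLM.contDiff.comp (contDiff_const.mul hf)
  · intro t
    have h1 : HasDerivAt (fun t => c * f t) (c * deriv f t) t := (hd t).hasDerivAt.const_mul c
    exact Complex.reCLM.hasFDerivAt.comp_hasDerivAt t h1
  · intro t
    have h1 : HasDerivAt (fun x : ℝ => ((1 + x ^ 2 : ℝ) : ℂ) * deriv f x)
        (deriv (fun x : ℝ => ((1 + x ^ 2 : ℝ) : ℂ) * deriv f x) t) t := by
      have h2 : Differentiable ℝ (fun x : ℝ => ((1 + x ^ 2 : ℝ) : ℂ)) := by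
        have : Differentiable ℝ (fun x : ℝ => (1 + x ^ 2 : ℝ)) := by fun_prop
        exact Complex.ofRealCLM.differentiable.comp this
      exact ((h2 t).mul (hd2 t)).hasDerivAt
    have h3 := h1.const_mul c
    have h4 : HasDerivAt (fun x : ℝ => (c * (((1 + x ^ 2 : ℝ) : ℂ) * deriv f x)).re)
        ((c * deriv (fun x : ℝ => ((1 + x ^ 2 : ℝ) : ℂ) * deriv f x) t).re) t :=
      Complex.reCLM.hasFDerivAt.comp_hasDerivAt t h3
    have e1 : (fun x : ℝ => (c * (((1 + x ^ 2 : ℝ) : ℂ) * deriv f x)).re) =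
        fun x : ℝ => (1 + x ^ 2) * (c * deriv f x).re := by
      funext x
      have : c * (((1 + x ^ 2 : ℝ) : ℂ) * deriv f x) = ((1 + x ^ 2 : ℝ) : ℂ) * (c * deriv f x) := by
        ring
      rw [this, Complex.re_ofReal_mul]
    have e2 : (c * deriv (fun x : ℝ => ((1 + x ^ 2 : ℝ) : ℂ) * deriv f x) t).re =
        -(l * (c * f t).re) := by
      have h5 : deriv (fun x : ℝ => ((1 + x ^ 2 : ℝ) : ℂ) * deriv f x) t = -((l : ℂ) * f t) := by
        rw [← hode t, neg_neg]
      rw [h5]
      have : c * (-((l : ℂ) * f t)) = (l : ℂ) * (-(c * f t)) := by ring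
      rw [this, Complex.re_ofReal_mul, Complex.neg_re]
      ring
    rw [e1, e2] at h4
    exact h4

/-- a primitive of a smooth function is smooth -/
theorem smooth_prim {F : ℝ → ℝ} (hF : ContDiff ℝ (⊤ : ℕ∞) F) (R : ℝ) :
    ContDiff ℝ (⊤ : ℕ∞) (fun t => ∫ x in t..R, F x) ∧
      ∀ t, HasDerivAt (fun t => ∫ x in t..R, F x) (-F t) t := by
  have hc : Continuous F := hF.continuous
  have h1 : ∀ t, HasDerivAt (fun t => ∫ x in t..R, F x) (-F t) t := by
    intro t
    exact intervalIntegral.integral_hasDerivAt_left (hc.intervalIntegrable _ _)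
      (hc.stronglyMeasurableAtFilter _ _) hc.continuousAt
  refine ⟨?_, h1⟩
  rw [contDiff_infty_iff_deriv]
  refine ⟨fun t => (h1 t).differentiableAt, ?_⟩
  have : deriv (fun t => ∫ x in t..R, F x) = fun t => -F t := funext fun t => (h1 t).deriv
  rw [this]
  exact hF.neg

section
variable {l : ℝ} {f f' g g' : ℝ → ℝ}

/-- the main construction -/
theorem solve (hf : Sol l f f') (hg : Sol l g g') (hf0 : f 0 = 1) (hf0' : f' 0 = 0)
    (hg0' : g' 0 = 1) (hfe : ∀ t, f (-t) = f t) (hgo : ∀ t, g (-t) = -g t)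
    (X : ℝ → ℝ) (hX : Tst X) (hX0 : ∫ t, f t * X t = 0) :
    ∃ Y, Tst Y ∧ DX Y = fun t => l * Y t - X t := by
  have hg0 : g 0 = 0 := by
    have := hgo 0
    rw [neg_zero] at this
    linarith
  -- the support
  obtain ⟨R, hR0, hR⟩ : ∃ R : ℝ, 0 < R ∧ ∀ t, R ≤ |t| → X t = 0 := by
    obtain ⟨R, hR⟩ := hX.cpt.isBounded.subset_closedBall 0
    refine ⟨max R 0 + 1, by positivity, fun t ht => ?_⟩
    by_contra hne
    have h1 : t ∈ tsupport X := subset_tsupport X hne
    have h2 := hR h1
    rw [Metric.mem_closedBall, dist_zero_right, Real.norm_eq_abs] at h2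
    have h3 : R ≤ max R 0 := le_max_left _ _
    linarith
  have hcf : Continuous f := hf.smooth.continuous
  have hcg : Continuous g := hg.smooth.continuous
  have hcX : Continuous X := hX.smooth.continuous
  have sF : ContDiff ℝ (⊤ : ℕ∞) (fun t => f t * X t) := hf.smooth.mul hX.smooth
  have sG : ContDiff ℝ (⊤ : ℕ∞) (fun t => g t * X t) := hg.smooth.mul hX.smooth
  obtain ⟨sP, dP⟩ := smooth_prim sG R
  obtain ⟨sQ, dQ⟩ := smooth_prim sF R
  set P : ℝ → ℝ := fun t => ∫ x in t..R, g x * X x with hP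
  set Q : ℝ → ℝ := fun t => ∫ x in t..R, f x * X x with hQ
  -- symmetric integrals
  have odd0 : ∀ s : ℝ, ∫ x in (-s)..s, g x * X x = 0 := by
    intro s
    have h1 : ∫ x in (-s)..s, g (-x) * X (-x) = ∫ x in (-s)..s, g x * X x := by
      rw [intervalIntegral.integral_comp_neg (fun x => g x * X x), neg_neg]
    have h2 : ∫ x in (-s)..s, g (-x) * X (-x) = -∫ x in (-s)..s, g x * X x := by
      rw [← intervalIntegral.integral_neg]
      refine intervalIntegral.integral_congr (fun x _ => ?_)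
      simp only [hgo, hX.even]
      ring
    linarith
  have evn : ∀ s : ℝ, ∫ x in (-s)..0, f x * X x = ∫ x in (0 : ℝ)..s, f x * X x := by
    intro s
    have h1 : ∫ x in (0 : ℝ)..s, f (-x) * X (-x) = ∫ x in (-s)..(-0), f x * X x :=
      intervalIntegral.integral_comp_neg (fun x => f x * X x)
    rw [neg_zero] at h1
    rw [← h1]
    refine intervalIntegral.integral_congr (fun x _ => ?_)
    simp only [hfe, hX.even]
  have iF : ∀ a b : ℝ, IntervalIntegrable (fun x => f x * X x) volume a b := fun a b =>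
    (hcf.mul hcX).intervalIntegrable _ _
  have iG : ∀ a b : ℝ, IntervalIntegrable (fun x => g x * X x) volume a b := fun a b =>
    (hcg.mul hcX).intervalIntegrable _ _
  have full : ∫ x in (-R)..R, f x * X x = 0 := by
    refine Eq.trans ?_ hX0
    rw [intervalIntegral.integral_of_le (by linarith)]
    refine setIntegral_eq_integral_of_forall_compl_eq_zero (fun x hx => ?_)
    have : R ≤ |x| := by
      by_contra hcon
      push Not at hcon
      rw [abs_lt] at hcon
      exact hx ⟨hcon.1, hcon.2.le⟩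
    rw [hR x this, mul_zero]
  have half : ∫ x in (0 : ℝ)..R, f x * X x = 0 := by
    have h1 := intervalIntegral.integral_add_adjacent_intervals (iF (-R) 0) (iF 0 R)
    rw [full, evn R] at h1
    linarith
  -- symmetry of P and Q
  have Pev : ∀ t, P (-t) = P t := by
    intro t
    have h1 := intervalIntegral.integral_add_adjacent_intervals (iG (-t) t) (iG t R)
    rw [odd0 t, zero_add] at h1
    exact h1.symm
  have Qodd : ∀ t, Q (-t) = -Q t := by
    intro t
    have h1 := intervalIntegral.integral_add_adjacent_intervals (iF (-t) 0) (iF 0 R)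
    have h2 := intervalIntegral.integral_add_adjacent_intervals (iF 0 t) (iF t R)
    rw [evn t, half] at h1
    rw [half] at h2
    simp only [hQ]
    linarith
  have Pz : ∀ t, R ≤ t → P t = 0 := by
    intro t ht
    simp only [hP]
    rw [intervalIntegral.integral_symm, neg_eq_zero]
    refine (intervalIntegral.integral_congr (g := fun _ => (0 : ℝ)) (fun x hx => ?_)).trans
      (by simp)
    rw [uIcc_of_le ht] at hx
    have : X x = 0 := hR x (hx.1.trans (le_abs_self x))
    simp only [this, mul_zero]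
  have Qz : ∀ t, R ≤ t → Q t = 0 := by
    intro t ht
    simp only [hQ]
    rw [intervalIntegral.integral_symm, neg_eq_zero]
    refine (intervalIntegral.integral_congr (g := fun _ => (0 : ℝ)) (fun x hx => ?_)).trans
      (by simp)
    rw [uIcc_of_le ht] at hx
    have : X x = 0 := hR x (hx.1.trans (le_abs_self x))
    simp only [this, mul_zero]
  set Y : ℝ → ℝ := fun t => f t * P t - g t * Q t with hY
  have Yev : ∀ t, Y (-t) = Y t := by
    intro t
    simp only [hY, hfe, hgo, Pev, Qodd]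
    ring
  have Yz : ∀ t, R ≤ |t| → Y t = 0 := by
    intro t ht
    have h1 : Y |t| = 0 := by
      simp only [hY, Pz _ ht, Qz _ ht, mul_zero, sub_zero]
    rcases abs_choice t with h | h
    · rw [h] at h1
      exact h1
    · rw [h, Yev] at h1
      exact h1
  have dY : ∀ t, HasDerivAt Y (f' t * P t - g' t * Q t) t := by
    intro t
    have h1 := ((hf.d1 t).mul (dP t)).sub ((hg.d1 t).mul (dQ t))
    refine h1.congr_deriv ?_
    simp only [hP, hQ]
    ring
  have dY2 : ∀ t, HasDerivAt (fun x => (1 + x ^ 2) * (f' x * P x - g' x * Q x))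
      (-(l * Y t - X t)) t := by
    intro t
    have h1 := ((hf.d2 t).mul (dP t)).sub ((hg.d2 t).mul (dQ t))
    have e : (fun x => (1 + x ^ 2) * (f' x * P x - g' x * Q x)) =
        ((fun x => (1 + x ^ 2) * f' x) * fun t => ∫ x in t..R, g x * X x) -
          ((fun x => (1 + x ^ 2) * g' x) * fun t => ∫ x in t..R, f x * X x) := by
      funext x
      simp only [Pi.sub_apply, Pi.mul_apply, hP, hQ]
      ring
    rw [e]
    refine h1.congr_deriv ?_
    have hw := wronskian hf hg t
    rw [hf0, hg0', hf0', hg0] at hw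
    simp only [hY, hP, hQ]
    linear_combination (X t) * hw
  refine ⟨Y, ⟨?_, ?_, Yev⟩, ?_⟩
  · exact (hf.smooth.mul sP).sub (hg.smooth.mul sQ)
  · refine HasCompactSupport.of_support_subset_isCompact (isCompact_closedBall (0 : ℝ) R) ?_
    intro t ht
    rw [Metric.mem_closedBall, dist_zero_right, Real.norm_eq_abs]
    by_contra hcon
    push Not at hcon
    exact ht (Yz t hcon.le)
  · funext t
    unfold DX
    have e : (fun x => (1 + x ^ 2) * deriv Y x) =
        fun x => (1 + x ^ 2) * (f' x * P x - g' x * Q x) := by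
      funext x
      rw [(dY x).deriv]
    rw [e, (dY2 t).deriv]
    ring

end

theorem Tst.add {X Y : ℝ → ℝ} (hX : Tst X) (hY : Tst Y) : Tst (fun t => X t + Y t) :=
  ⟨hX.smooth.add hY.smooth, hX.cpt.add hY.cpt, fun t => by simp only [hX.even, hY.even]⟩

theorem Tst.smul {X : ℝ → ℝ} (hX : Tst X) (c : ℝ) : Tst (fun t => c * X t) :=
  ⟨contDiff_const.mul hX.smooth, hX.cpt.mul_left (f := fun _ => c),
    fun t => by simp only [hX.even]⟩

theorem main (h1 : sJE) (h2 : sJO) : sODE := by
  intro κ A hadd hsm heig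
  obtain ⟨sf, ef, of, nf⟩ := h1 κ
  obtain ⟨g, sg, og, odg, ng⟩ := h2 κ
  set f : ℝ → ℂ := fun t : ℝ => Jk κ (Real.arsinh t : ℝ) with hfdef
  set l : ℝ := 1 / 4 + κ ^ 2 with hl
  have nf' : f 0 ≠ 0 := nf
  have ef' : ∀ t, f (-t) = f t := ef
  have F0 := sol_re (l := l) sf of (f 0)⁻¹
  have H0 := sol_re (l := l) sf of (-Complex.I * (f 0)⁻¹)
  have G0 := sol_re (l := l) sg odg (deriv g 0)⁻¹
  -- parity of the derivative
  have df0 : deriv f 0 = 0 := by
    have hd : HasDerivAt f (deriv f 0) 0 := (sf.differentiable (by simp) 0).hasDerivAt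
    have h3 : HasDerivAt (fun t => f (-t)) (-deriv f 0) 0 := by
      have hd' : HasDerivAt f (deriv f 0) (-0) := by rw [neg_zero]; exact hd
      have := hd'.scomp (0 : ℝ) (hasDerivAt_neg (0 : ℝ))
      simpa [Function.comp_def] using this
    have h4 : (fun t => f (-t)) = f := funext ef'
    rw [h4] at h3
    have h5 := h3.unique hd
    have : (2 : ℂ) * deriv f 0 = 0 := by linear_combination -h5
    simpa using this
  set f0 : ℝ → ℝ := fun t => ((f 0)⁻¹ * f t).re with hf0
  set f0' : ℝ → ℝ := fun t => ((f 0)⁻¹ * deriv f t).re with hf0'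
  set g0 : ℝ → ℝ := fun t => ((deriv g 0)⁻¹ * g t).re with hg0
  set g0' : ℝ → ℝ := fun t => ((deriv g 0)⁻¹ * deriv g t).re with hg0'
  set k0 : ℝ → ℝ := fun t => ((-Complex.I * (f 0)⁻¹) * f t).re with hk0
  have v1 : f0 0 = 1 := by
    have : (f 0)⁻¹ * f 0 = 1 := inv_mul_cancel₀ nf'
    change ((f 0)⁻¹ * f 0).re = 1
    rw [this, Complex.one_re]
  have v2 : f0' 0 = 0 := by simp [hf0', df0]
  have v3 : g0' 0 = 1 := by
    have : (deriv g 0)⁻¹ * deriv g 0 = 1 := inv_mul_cancel₀ ng
    change ((deriv g 0)⁻¹ * deriv g 0).re = 1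
    rw [this, Complex.one_re]
  have e1 : ∀ t, f0 (-t) = f0 t := fun t => by simp only [hf0, ef']
  have e2 : ∀ t, g0 (-t) = -g0 t := fun t => by simp only [hg0, og, mul_neg, Complex.neg_re]
  have g00 : g0 0 = 0 := by
    have := e2 0
    rw [neg_zero] at this
    linarith
  have k00 : k0 0 = 0 := by
    simp only [hk0]
    have : (-Complex.I * (f 0)⁻¹) * f 0 = -Complex.I := by
      field_simp
    rw [this]
    simp
  have k00' : ((-Complex.I * (f 0)⁻¹) * deriv f 0).re = 0 := by
    rw [df0]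
    simp
  -- f is a multiple of f0
  have kz : ∀ t, k0 t = 0 := by
    intro t
    have w1 := wronskian F0 H0 t
    have w2 := wronskian G0 H0 t
    have w3 := wronskian F0 G0 t
    rw [k00, k00'] at w1 w2
    rw [v1, v2, v3, g00] at w3
    linear_combination (-k0 t) * w3 + g0 t * w1 - f0 t * w2
  have fmul : ∀ t, f t = f 0 * (f0 t : ℂ) := by
    intro t
    have h3 : ((f 0)⁻¹ * f t).im = 0 := by
      have h4 := kz t
      simp only [hk0] at h4
      have : -Complex.I * (f 0)⁻¹ * f t = -Complex.I * ((f 0)⁻¹ * f t) := by ring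
      rw [this] at h4
      simpa using h4
    have h5 : (f 0)⁻¹ * f t = (f0 t : ℂ) := by
      apply Complex.ext
      · simp [hf0]
      · rw [h3]
        simp
    rw [← h5]
    field_simp
  -- a test function with nonzero integral
  obtain ⟨X0, hX0, hI0⟩ : ∃ X0, Tst X0 ∧ ∫ t, f0 t * X0 t ≠ 0 := by
    have hc : Continuous f0 := F0.smooth.continuous
    have h3 : ∀ᶠ t in 𝓝 (0 : ℝ), 0 < f0 t := by
      have : (0 : ℝ) < f0 0 := by rw [v1]; norm_num
      exact hc.continuousAt.eventually (lt_mem_nhds this)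
    obtain ⟨r, hr, hball⟩ := Metric.eventually_nhds_iff.mp h3
    let b : ContDiffBump (0 : ℝ) := ⟨r / 2, r, by positivity, by linarith⟩
    refine ⟨b, ⟨b.contDiff, b.hasCompactSupport, fun t => b.neg t⟩, ?_⟩
    have hnn : ∀ t, 0 ≤ f0 t * b t := by
      intro t
      by_cases ht : dist t 0 < r
      · exact mul_nonneg (hball ht).le b.nonneg
      · have : b t = 0 := b.zero_of_le_dist (not_lt.mp ht)
        rw [this, mul_zero]
    have hne : f0 0 * b 0 ≠ 0 := by
      rw [v1, one_mul]
      have : b (0 : ℝ) = 1 := b.one_of_mem_closedBall (by simp [b.rIn_pos.le])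
      rw [this]
      norm_num
    exact (Continuous.integral_pos_of_hasCompactSupport_nonneg_nonzero (hc.mul b.continuous)
      (b.hasCompactSupport.mul_left) hnn hne).ne'
  set c0 := ∫ t, f0 t * X0 t with hc0
  have hint : ∀ X, Tst X → Integrable (fun t => f0 t * X t) := fun X hX =>
    (F0.smooth.continuous.mul hX.smooth.continuous).integrable_of_hasCompactSupport
      hX.cpt.mul_left
  refine ⟨A X0 / (c0 * f 0), ?_⟩
  intro X hX
  set c := ∫ t, f0 t * X t with hc
  have hZ : Tst (fun t => X t + -(c / c0) * X0 t) := Tst.add hX (Tst.smul hX0 _)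
  have hZ0 : ∫ t, f0 t * (X t + -(c / c0) * X0 t) = 0 := by
    have : (fun t => f0 t * (X t + -(c / c0) * X0 t)) =
        fun t => f0 t * X t + -(c / c0) * (f0 t * X0 t) := by
      funext t
      ring
    rw [this, integral_add (hint X hX) ((hint X0 hX0).const_mul _), integral_const_mul]
    rw [← hc, ← hc0]
    field_simp
    ring
  obtain ⟨Y, hY, hDY⟩ := solve F0 G0 v1 v2 v3 e1 e2 _ hZ hZ0
  have hAZ : A (fun t => X t + -(c / c0) * X0 t) = 0 := by
    have h3 := heig Y hY
    rw [hDY] at h3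
    have h4 : (fun t => l * Y t - (X t + -(c / c0) * X0 t)) =
        fun t => l * Y t + (-1) * (X t + -(c / c0) * X0 t) := by
      funext t
      ring
    rw [h4, hadd _ _ (Tst.smul hY l) (Tst.smul hZ (-1)), hsm l Y hY, hsm (-1) _ hZ] at h3
    push_cast at h3 ⊢
    linear_combination -h3
  rw [hadd X _ hX (Tst.smul hX0 _), hsm _ X0 hX0] at hAZ
  have hfin : ∫ t : ℝ, f t * X t = f 0 * (c : ℂ) := by
    have : (fun t : ℝ => f t * (X t : ℂ)) = fun t => f 0 * ((f0 t * X t : ℝ) : ℂ) := by
      funext t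
      rw [fmul t]
      push_cast
      ring
    rw [this, integral_const_mul]
    congr 1
    exact integral_ofReal (𝕜 := ℂ) (f := fun t => f0 t * X t)
  change A X = A X0 / (c0 * f 0) * ∫ t : ℝ, f t * X t
  rw [hfin]
  have hc0' : (c0 : ℂ) ≠ 0 := by exact_mod_cast hI0
  have h6 : A X = ((c / c0 : ℝ) : ℂ) * A X0 := by
    push_cast at hAZ ⊢
    linear_combination hAZ
  rw [h6]
  push_cast
  field_simp

end FMZ.SODE_

namespace FMZ

/-- job FMZ-S-ODE -/
theorem pODE (h1 : sJE) (h2 : sJO) : sODE := SODE_.main h1 h2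

end FMZ
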