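import Pool.Agent.FMZ.STargets

/-!
# FMZ, block S: sums over the group
-/

open Complex MeasureTheory Set Filter Topology
open UpperHalfPlane hiding I
open scoped ENNReal InnerProductSpace

namespace FMZ

namespace SPBD_

theorem continuous_smul (g : SG) : Continuous (fun z : ℍ => g • z) :=
  continuous_const_smul (Matrix.SpecialLinearGroup.mapGL ℝ g)

theorem measurable_smul (g : SG) : Measurable (fun z : ℍ => g • z) :=
  (continuous_smul g).measurable

theorem countable_SG : Countable SG := by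
  refine Function.Injective.countable (f := fun (g : SG) (i j : Fin 2) => g i j) ?_
  intro g h hgh
  ext i j
  exact congrFun (congrFun hgh i) j

theorem fin_z (h : sPD) {B : ℍ → ℂ} (hB : BC B) (z : ℍ) : {g : SG | B (g • z) ≠ 0}.Finite := by
  obtain ⟨K, hK, hK0⟩ := hB.cpt
  refine (h.1 {z} K isCompact_singleton hK).subset fun g hg => ?_
  refine ⟨z, rfl, ?_⟩
  by_contra hc
  exact hg (hK0 _ hc)

theorem hasSum_Poi (h : sPD) {B : ℍ → ℂ} (hB : BC B) (z : ℍ) :
    HasSum (fun g : SG => B (g • z)) (Poi B z) := by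
  unfold Poi
  exact (summable_of_hasFiniteSupport (fin_z h hB z)).hasSum

theorem measurable_Poi (h : sPD) {B : ℍ → ℂ} (hB : BC B) : Measurable (Poi B) := by
  have := countable_SG
  have : Countable (Finset SG) := Finset.countable
  refine measurable_of_tendsto_metrizable' (atTop : Filter (Finset SG))
    (f := fun (s : Finset SG) (z : ℍ) => ∑ g ∈ s, B (g • z)) ?_ ?_
  · intro s
    exact Finset.measurable_sum s fun g _ => hB.meas.comp (measurable_smul g)
  · rw [tendsto_pi_nhds]
    intro z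
    exact hasSum_Poi h hB z

theorem inv_Poi (B : ℍ → ℂ) : Inv (Poi B) := by
  intro g z
  unfold Poi
  rw [← (Equiv.mulRight g).tsum_eq (fun k : SG => B (k • z))]
  refine tsum_congr fun k => ?_
  rw [Equiv.coe_mulRight, mul_smul]

theorem Poi_comp (B : ℍ → ℂ) (g : SG) : Poi (fun w => B (g • w)) = Poi B := by
  funext z
  unfold Poi
  rw [← (Equiv.mulLeft g).tsum_eq (fun k : SG => B (k • z))]
  refine tsum_congr fun k => ?_
  rw [Equiv.coe_mulLeft, mul_smul]

theorem bdd_Poi (h : sPD) {B : ℍ → ℂ} (hB : BC B) : ∃ C : ℝ, ∀ z ∈ Dm, ‖Poi B z‖ ≤ C := by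
  obtain ⟨K, hK, hK0⟩ := hB.cpt
  obtain ⟨C, hC⟩ := hB.bdd
  have hG := h.2 K hK
  refine ⟨hG.toFinset.card * C, fun z hz => ?_⟩
  have h1 : Poi B z = ∑ g ∈ hG.toFinset, B (g • z) := by
    unfold Poi
    refine tsum_eq_sum fun g hg => ?_
    refine hK0 _ fun hc => hg ?_
    rw [Set.Finite.mem_toFinset]
    exact ⟨z, hz, hc⟩
  rw [h1]
  refine (norm_sum_le _ _).trans ?_
  refine (Finset.sum_le_sum fun g _ => hC (g • z)).trans ?_
  rw [Finset.sum_const, nsmul_eq_mul]

end SPBD_

open SPBD_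

theorem pPBD (h : sPD) : sPBD := fun _ hB =>
  ⟨fin_z h hB, measurable_Poi h hB, inv_Poi _, bdd_Poi h hB, Poi_comp _⟩

end FMZ
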