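import Pool.Agent.FMZ.STargets

/-!
# FMZ-S-PD: proper discontinuity of the modular group
-/

open Complex MeasureTheory Set Filter Topology
open UpperHalfPlane hiding I

namespace FMZ

namespace SPD_

lemma compact_bounds (K : Set ℍ) (hK : IsCompact K) :
    ∃ e R : ℝ, 0 < e ∧ 0 ≤ R ∧ ∀ z ∈ K, e ≤ z.im ∧ ‖(z : ℂ)‖ ≤ R := by
  rcases K.eq_empty_or_nonempty with rfl | hne
  · exact ⟨1, 1, one_pos, zero_le_one, fun z hz => absurd hz (by simp)⟩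
  obtain ⟨z0, hz0, hmin⟩ := hK.exists_isMinOn hne (UpperHalfPlane.continuous_im.continuousOn)
  obtain ⟨z1, hz1, hmax⟩ := hK.exists_isMaxOn hne (UpperHalfPlane.continuous_coe.norm.continuousOn)
  exact ⟨z0.im, ‖(z1 : ℂ)‖, z0.im_pos, norm_nonneg _, fun z hz => ⟨hmin hz, hmax hz⟩⟩

lemma finM (M : ℤ) : {g : SG | ∀ i j, |g i j| ≤ M}.Finite := by
  have hinj : Function.Injective
      (fun g : SG => (((g 0 0, g 0 1), (g 1 0, g 1 1)) : (ℤ × ℤ) × (ℤ × ℤ))) := by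
    intro g h hgh
    simp only [Prod.mk.injEq] at hgh
    obtain ⟨⟨h1, h2⟩, h3, h4⟩ := hgh
    ext i j
    fin_cases i <;> fin_cases j
    · exact h1
    · exact h2
    · exact h3
    · exact h4
  have hfin : ((Icc (-M) M ×ˢ Icc (-M) M) ×ˢ (Icc (-M) M ×ˢ Icc (-M) M)).Finite :=
    (((finite_Icc _ _).prod (finite_Icc _ _)).prod ((finite_Icc _ _).prod (finite_Icc _ _)))
  refine (hfin.preimage hinj.injOn).subset ?_
  intro g hg
  have hg' : ∀ i j, |g i j| ≤ M := hg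
  simp only [mem_preimage, mem_prod, mem_Icc]
  exact ⟨⟨abs_le.1 (hg' 0 0), abs_le.1 (hg' 0 1)⟩, abs_le.1 (hg' 1 0), abs_le.1 (hg' 1 1)⟩

lemma finR (M : ℝ) : {g : SG | ∀ i j, |((g i j : ℤ) : ℝ)| ≤ M}.Finite := by
  refine (finM ⌈M⌉).subset ?_
  intro g hg i j
  have h1 : |((g i j : ℤ) : ℝ)| ≤ M := hg i j
  have h2 : ((|g i j| : ℤ) : ℝ) ≤ (⌈M⌉ : ℝ) := by
    push_cast
    exact h1.trans (Int.le_ceil M)
  exact_mod_cast h2

lemma im_eq (g : SG) (z : ℍ) : (g • z).im =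
    z.im / Complex.normSq (((g 1 0 : ℤ) : ℂ) * z + ((g 1 1 : ℤ) : ℂ)) := by
  rw [ModularGroup.im_smul_eq_div_normSq, ModularGroup.denom_apply]

lemma coe_eq (g : SG) (z : ℍ) : ((g • z : ℍ) : ℂ) =
    (((g 0 0 : ℤ) : ℂ) * z + ((g 0 1 : ℤ) : ℂ)) / (((g 1 0 : ℤ) : ℂ) * z + ((g 1 1 : ℤ) : ℂ)) := by
  rw [UpperHalfPlane.specialLinearGroup_apply]
  simp

lemma lin_im (c d : ℤ) (z : ℍ) : (((c : ℤ) : ℂ) * z + ((d : ℤ) : ℂ)).im = c * z.im := by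
  simp

lemma lin_re (c d : ℤ) (z : ℍ) : (((c : ℤ) : ℂ) * z + ((d : ℤ) : ℂ)).re = c * z.re + d := by
  simp

lemma denom_sq (g : SG) (z : ℍ) :
    ‖((g 1 0 : ℤ) : ℂ) * z + ((g 1 1 : ℤ) : ℂ)‖ ^ 2 * (g • z).im = z.im := by
  have h1 := im_eq g z
  have h2 := (g • z).im_pos
  rw [Complex.normSq_eq_norm_sq] at h1
  have h3 : ‖((g 1 0 : ℤ) : ℂ) * z + ((g 1 1 : ℤ) : ℂ)‖ ^ 2 ≠ 0 := by
    intro h0
    rw [h0, div_zero] at h1
    exact h2.ne' h1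
  rw [h1, ← mul_div_assoc, mul_comm, mul_div_assoc, div_self h3, mul_one]

lemma coef {c d : ℤ} {z : ℍ} {B e R : ℝ} (he : 0 < e) (hz : e ≤ z.im) (hR : ‖(z : ℂ)‖ ≤ R)
    (hB : ‖((c : ℤ) : ℂ) * z + ((d : ℤ) : ℂ)‖ ≤ B) :
    |(c : ℝ)| ≤ B / e ∧ |(d : ℝ)| ≤ B + B / e * R := by
  have h0 : 0 ≤ B := (norm_nonneg _).trans hB
  have h1 : |(c : ℝ)| ≤ B / e := by
    rw [le_div_iff₀ he]
    have h2 := Complex.abs_im_le_norm (((c : ℤ) : ℂ) * z + ((d : ℤ) : ℂ))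
    rw [lin_im, abs_mul, abs_of_pos z.im_pos] at h2
    have h3 : |(c : ℝ)| * e ≤ |(c : ℝ)| * z.im := mul_le_mul_of_nonneg_left hz (abs_nonneg _)
    linarith
  refine ⟨h1, ?_⟩
  have h2 : ((d : ℤ) : ℂ) = (((c : ℤ) : ℂ) * z + ((d : ℤ) : ℂ)) - ((c : ℤ) : ℂ) * z := by ring
  have h3 : |(d : ℝ)| = ‖((d : ℤ) : ℂ)‖ := by
    rw [Complex.norm_intCast]
  rw [h3, h2]
  refine (norm_sub_le _ _).trans ?_
  rw [norm_mul, Complex.norm_intCast]
  have h4 : |(c : ℝ)| * ‖(z : ℂ)‖ ≤ B / e * R :=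
    mul_le_mul h1 hR (norm_nonneg _) (by positivity)
  linarith

lemma fin4 {e1 R1 e2 R2 : ℝ} (he1 : 0 < e1) (he2 : 0 < e2) :
    {g : SG | ∃ z : ℍ, e1 ≤ z.im ∧ ‖(z : ℂ)‖ ≤ R1 ∧ e2 ≤ (g • z).im ∧
      ‖((g • z : ℍ) : ℂ)‖ ≤ R2}.Finite := by
  set B := √(R1 / e2) with hB
  have hB0 : 0 ≤ B := Real.sqrt_nonneg _
  refine (finR (B / e1 + (B + B / e1 * |R1|) + |R2| * B / e1 +
    (|R2| * B + |R2| * B / e1 * |R1|))).subset ?_
  rintro g ⟨z, h1, h2, h3, h4⟩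
  have hR1 : R1 ≤ |R1| := le_abs_self _
  have hR2 : R2 ≤ |R2| := le_abs_self _
  have hw : ‖((g 1 0 : ℤ) : ℂ) * z + ((g 1 1 : ℤ) : ℂ)‖ ≤ B := by
    rw [hB]
    refine Real.le_sqrt_of_sq_le ?_
    rw [le_div_iff₀ he2]
    have h5 := denom_sq g z
    have h6 : z.im ≤ ‖(z : ℂ)‖ := (le_abs_self _).trans (Complex.abs_im_le_norm (z : ℂ))
    have h7 : ‖((g 1 0 : ℤ) : ℂ) * z + ((g 1 1 : ℤ) : ℂ)‖ ^ 2 * e2 ≤
        ‖((g 1 0 : ℤ) : ℂ) * z + ((g 1 1 : ℤ) : ℂ)‖ ^ 2 * (g • z).im :=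
      mul_le_mul_of_nonneg_left h3 (by positivity)
    linarith
  have hw0 : ((g 1 0 : ℤ) : ℂ) * z + ((g 1 1 : ℤ) : ℂ) ≠ 0 := by
    intro h0
    have h5 := denom_sq g z
    rw [h0, norm_zero] at h5
    have := z.im_pos
    simp at h5
    linarith
  have hn : ‖((g 0 0 : ℤ) : ℂ) * z + ((g 0 1 : ℤ) : ℂ)‖ ≤ |R2| * B := by
    have h5 : ((g 0 0 : ℤ) : ℂ) * z + ((g 0 1 : ℤ) : ℂ) =
        ((g • z : ℍ) : ℂ) * (((g 1 0 : ℤ) : ℂ) * z + ((g 1 1 : ℤ) : ℂ)) := by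
      rw [coe_eq, div_mul_cancel₀ _ hw0]
    rw [h5, norm_mul]
    exact mul_le_mul (h4.trans hR2) hw (norm_nonneg _) (abs_nonneg _)
  obtain ⟨c1, c2⟩ := coef he1 h1 (h2.trans hR1) hw
  obtain ⟨c3, c4⟩ := coef he1 h1 (h2.trans hR1) hn
  have p1 : 0 ≤ B / e1 := by positivity
  have p2 : 0 ≤ B + B / e1 * |R1| := by positivity
  have p3 : 0 ≤ |R2| * B / e1 := by positivity
  have p4 : 0 ≤ |R2| * B + |R2| * B / e1 * |R1| := by positivity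
  intro i j
  fin_cases i <;> fin_cases j
  · show |((g 0 0 : ℤ) : ℝ)| ≤ _
    linarith
  · show |((g 0 1 : ℤ) : ℝ)| ≤ _
    linarith
  · show |((g 1 0 : ℤ) : ℝ)| ≤ _
    linarith
  · show |((g 1 1 : ℤ) : ℝ)| ≤ _
    linarith

lemma part1 (K L : Set ℍ) (hK : IsCompact K) (hL : IsCompact L) :
    {g : SG | ∃ z ∈ K, g • z ∈ L}.Finite := by
  obtain ⟨e1, R1, he1, _, h1⟩ := compact_bounds K hK
  obtain ⟨e2, R2, he2, _, h2⟩ := compact_bounds L hL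
  refine (fin4 (R1 := R1) (R2 := R2) he1 he2).subset ?_
  rintro g ⟨z, hz, hgz⟩
  exact ⟨z, (h1 z hz).1, (h1 z hz).2, (h2 _ hgz).1, (h2 _ hgz).2⟩

lemma part2 (K : Set ℍ) (hK : IsCompact K) : {g : SG | ∃ z ∈ Dm, g • z ∈ K}.Finite := by
  obtain ⟨e, R, he, hR0, hR⟩ := compact_bounds K hK
  refine ((fin4 (e1 := 1 / 2) (R1 := 1 / 2 + 1 / e) (e2 := e) (R2 := R) (by norm_num) he).union
    (finR (R + 2))).subset ?_
  rintro g ⟨z, hz, hgz⟩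
  have hz1 : z ∈ ModularGroup.fdo := hz
  have hre : |z.re| < 1 / 2 := hz1.2
  have him : 1 / 2 ≤ z.im := by
    have := ModularGroup.three_lt_four_mul_im_sq_of_mem_fdo hz1
    have := z.im_pos
    nlinarith
  obtain ⟨k1, k2⟩ := hR _ hgz
  by_cases hc : g 1 0 = 0
  · right
    have hdet : g 0 0 * g 1 1 = 1 := by
      have h := Matrix.SpecialLinearGroup.det_coe g
      rw [Matrix.det_fin_two] at h
      change g 0 0 * g 1 1 - g 0 1 * g 1 0 = 1 at h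
      rw [hc, mul_zero, sub_zero] at h
      exact h
    have hd : g 1 1 = 1 ∨ g 1 1 = -1 := by
      rcases Int.mul_eq_one_iff_eq_one_or_neg_one.1 hdet with h | h
      · exact Or.inl h.2
      · exact Or.inr h.2
    have ha : |((g 0 0 : ℤ) : ℝ)| = 1 := by
      rcases hd with h | h
      · rw [h, mul_one] at hdet
        rw [hdet]
        simp
      · rw [h] at hdet
        have : g 0 0 = -1 := by linarith
        rw [this]
        simp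
    have hd1 : |((g 1 1 : ℤ) : ℝ)| = 1 := by
      rcases hd with h | h <;> rw [h] <;> simp
    have hb : |((g 0 1 : ℤ) : ℝ)| ≤ R + 2 := by
      have h5 : ((g 0 1 : ℤ) : ℝ) =
          ((((g • z : ℍ) : ℂ)) * ((g 1 1 : ℤ) : ℂ)).re - ((g 0 0 : ℤ) : ℝ) * z.re := by
        have hd0 : ((g 1 1 : ℤ) : ℂ) ≠ 0 := by
          intro h0
          have h1 : ((g 1 1 : ℤ) : ℝ) = 0 := by exact_mod_cast h0
          rw [h1] at hd1
          simp at hd1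
        rw [coe_eq, hc]
        simp only [Int.cast_zero, zero_mul, zero_add]
        rw [div_mul_cancel₀ _ hd0, lin_re]
        ring
      rw [h5]
      refine (abs_sub _ _).trans ?_
      have h6 : |((((g • z : ℍ) : ℂ)) * ((g 1 1 : ℤ) : ℂ)).re| ≤ R := by
        refine (Complex.abs_re_le_norm _).trans ?_
        rw [norm_mul, Complex.norm_intCast, hd1, mul_one]
        exact k2
      have h7 : |((g 0 0 : ℤ) : ℝ) * z.re| ≤ 1 / 2 := by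
        rw [abs_mul, ha, one_mul]
        exact hre.le
      linarith
    intro i j
    fin_cases i <;> fin_cases j
    · show |((g 0 0 : ℤ) : ℝ)| ≤ _
      linarith
    · exact hb
    · show |((g 1 0 : ℤ) : ℝ)| ≤ _
      rw [hc]
      simp
      linarith
    · show |((g 1 1 : ℤ) : ℝ)| ≤ _
      linarith
  · left
    have h5 := denom_sq g z
    have h6 := Complex.abs_im_le_norm (((g 1 0 : ℤ) : ℂ) * z + ((g 1 1 : ℤ) : ℂ))
    rw [lin_im] at h6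
    have h7 : (1 : ℝ) ≤ |((g 1 0 : ℤ) : ℝ)| := by
      have := Int.one_le_abs hc
      exact_mod_cast this
    have hz0 := z.im_pos
    have h8 : z.im ≤ ‖((g 1 0 : ℤ) : ℂ) * z + ((g 1 1 : ℤ) : ℂ)‖ := by
      rw [abs_mul, abs_of_pos hz0] at h6
      nlinarith
    have h9 : z.im ^ 2 * e ≤ z.im := by
      calc z.im ^ 2 * e ≤ ‖((g 1 0 : ℤ) : ℂ) * z + ((g 1 1 : ℤ) : ℂ)‖ ^ 2 * (g • z).im := by
            refine mul_le_mul ?_ k1 he.le (by positivity)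
            exact pow_le_pow_left₀ hz0.le h8 2
        _ = z.im := h5
    have h10 : z.im ≤ 1 / e := by
      rw [le_div_iff₀ he]
      nlinarith
    refine ⟨z, him, ?_, k1, k2⟩
    have h11 : ‖(z : ℂ)‖ ≤ |z.re| + |z.im| := Complex.norm_le_abs_re_add_abs_im (z : ℂ)
    rw [abs_of_pos hz0] at h11
    linarith

end SPD_

theorem pPD : sPD := ⟨SPD_.part1, SPD_.part2⟩

end FMZ
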