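import Pool.Agent.FMZ.STargets

/-!
# FMZ, block S: polar coordinates
-/

open Complex MeasureTheory Set Filter Topology
open UpperHalfPlane hiding I
open scoped ENNReal InnerProductSpace

namespace FMZ

namespace SPOL_

/-- box containing the support -/
lemma box {h : ℍ → ℂ} (hc : Continuous h) (hs : HasCompactSupport h) :
    ∃ a b R M : ℝ, 0 < a ∧ 0 ≤ R ∧ 0 ≤ M ∧ (∀ z, ‖h z‖ ≤ M) ∧
      ∀ z, h z ≠ 0 → a ≤ z.im ∧ z.im ≤ b ∧ |z.re| ≤ R := by
  obtain ⟨M, hM⟩ := hc.bounded_above_of_compact_support hs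
  have hMn : 0 ≤ M := (norm_nonneg _).trans (hM UpperHalfPlane.I)
  by_cases hne : (tsupport h).Nonempty
  · obtain ⟨z0, hz0, h0⟩ := hs.exists_isMinOn hne (UpperHalfPlane.continuous_im.continuousOn)
    obtain ⟨z1, hz1, h1⟩ := hs.exists_isMaxOn hne (UpperHalfPlane.continuous_im.continuousOn)
    obtain ⟨z2, hz2, h2⟩ := hs.exists_isMaxOn hne
      (f := fun z : ℍ => |z.re|) (UpperHalfPlane.continuous_re.abs.continuousOn)
    refine ⟨z0.im, z1.im, |z2.re|, M, z0.im_pos, abs_nonneg _, hMn, hM, fun z hz => ?_⟩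
    have hz' : z ∈ tsupport h := subset_tsupport _ hz
    exact ⟨h0 hz', h1 hz', h2 hz'⟩
  · refine ⟨1, 1, 0, M, one_pos, le_rfl, hMn, hM, fun z hz => ?_⟩
    exact absurd ⟨z, subset_tsupport _ hz⟩ hne

/-- integrability -/
lemma integrable_box {f : ℝ × ℝ → ℂ} (hf : Measurable f) {M A : ℝ} (hM : ∀ p, ‖f p‖ ≤ M)
    (hA : ∀ p, f p ≠ 0 → |p.1| ≤ A ∧ |p.2| ≤ A) : Integrable f := by
  have h1 : IntegrableOn f (Icc (-A) A ×ˢ Icc (-A) A) := by
    refine Measure.integrableOn_of_bounded (M := M) ?_ hf.aestronglyMeasurable ?_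
    · exact (isCompact_Icc.prod isCompact_Icc).measure_lt_top.ne
    · exact Filter.Eventually.of_forall hM
  refine h1.integrable_of_forall_notMem_eq_zero ?_
  intro p hp
  by_contra hne
  obtain ⟨h2, h3⟩ := hA p hne
  exact hp ⟨⟨(abs_le.1 h2).1, (abs_le.1 h2).2⟩, ⟨(abs_le.1 h3).1, (abs_le.1 h3).2⟩⟩

end SPOL_

open SPOL_ in
theorem pPOL (hCO : sCO) : sPOL := by
  intro h hc hs
  obtain ⟨hpt, hpt', hptm, hme, hmp⟩ := hCO
  obtain ⟨a, b, R, M, ha, hR, hM0, hM, hbox⟩ := box hc hs
  have hms : MeasurableSet {p : ℝ × ℝ | 0 < p.2} := measurableSet_lt measurable_const measurable_snd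
  have hhm : Measurable h := hc.measurable
  -- the function on the plane
  set G : ℝ × ℝ → ℂ := fun p => h (pt p.1 p.2) with hG
  have hGm : Measurable G := hhm.comp hptm
  set G' : ℝ × ℝ → ℂ := indicator {p : ℝ × ℝ | 0 < p.2} (fun p => ((1 / p.2 ^ 2 : ℝ) : ℂ) * G p)
    with hG'
  have hG'm : Measurable G' := by
    refine Measurable.indicator ?_ hms
    fun_prop
  have hGb : ∀ p : ℝ × ℝ, 0 < p.2 → G p ≠ 0 → a ≤ p.2 ∧ p.2 ≤ b ∧ |p.1| ≤ R := by
    intro p hp hne
    have h1 := hbox _ hne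
    rw [(hpt' p.1 p.2 hp).1, (hpt' p.1 p.2 hp).2] at h1
    exact h1
  have step1 : ∫ z : ℍ, h z = ∫ p, G' p := by
    have h1 : ∫ z : ℍ, h z = ∫ z : ℍ, G (z.re, z.im) := by
      congr 1
      ext z
      simp only [hG]
      rw [hpt]
    rw [h1, hmp.integral_comp hme G, integral_withDensity_eq_integral_toReal_smul₀]
    · rw [hG', integral_indicator hms]
      refine setIntegral_congr_fun hms fun p hp => ?_
      have hp' : (0 : ℝ) < p.2 := hp
      rw [ENNReal.toReal_ofReal (by positivity), Complex.real_smul]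
    · exact (Measurable.ennreal_ofReal (by fun_prop)).aemeasurable
    · exact Filter.Eventually.of_forall fun p => ENNReal.ofReal_lt_top
  have hint1 : Integrable G' := by
    refine integrable_box hG'm (M := 1 / a ^ 2 * M) (A := max R b) (fun p => ?_) fun p hne => ?_
    · by_cases hp : 0 < p.2
      · rw [hG', indicator_of_mem (show p ∈ {p : ℝ × ℝ | 0 < p.2} from hp)]
        by_cases h0 : G p = 0
        · rw [h0, mul_zero, norm_zero]; positivity
        · obtain ⟨h1, h2, h3⟩ := hGb p hp h0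
          rw [norm_mul, Complex.norm_real, Real.norm_of_nonneg (by positivity)]
          have h4 : 1 / p.2 ^ 2 ≤ 1 / a ^ 2 :=
            one_div_le_one_div_of_le (by positivity) (by gcongr)
          exact mul_le_mul h4 (hM _) (norm_nonneg _) (by positivity)
      · rw [hG', indicator_of_notMem (show p ∉ {p : ℝ × ℝ | 0 < p.2} from hp), norm_zero]
        positivity
    · by_cases hp : 0 < p.2
      · rw [hG', indicator_of_mem (show p ∈ {p : ℝ × ℝ | 0 < p.2} from hp)] at hne
        obtain ⟨h1, h2, h3⟩ := hGb p hp (right_ne_zero_of_mul hne)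
        refine ⟨h3.trans (le_max_left _ _), ?_⟩
        rw [abs_of_pos hp]
        exact h2.trans (le_max_right _ _)
      · rw [hG', indicator_of_notMem (show p ∉ {p : ℝ × ℝ | 0 < p.2} from hp)] at hne
        exact absurd rfl hne
  -- the second function
  set P : ℝ × ℝ → ℂ := indicator {p : ℝ × ℝ | 0 < p.2}
    (fun p => ((p.2⁻¹ : ℝ) : ℂ) * G (p.2 * p.1, p.2)) with hP
  have hPm : Measurable P := by
    refine Measurable.indicator ?_ hms
    have h1 : Measurable fun p : ℝ × ℝ => G (p.2 * p.1, p.2) :=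
      hGm.comp ((measurable_snd.mul measurable_fst).prodMk measurable_snd)
    have h2 : Measurable fun p : ℝ × ℝ => ((p.2⁻¹ : ℝ) : ℂ) :=
      Complex.measurable_ofReal.comp measurable_snd.inv
    exact h2.mul h1
  have hint2 : Integrable P := by
    refine integrable_box hPm (M := a⁻¹ * M) (A := max (R / a) b) (fun p => ?_) fun p hne => ?_
    · by_cases hp : 0 < p.2
      · rw [hP, indicator_of_mem (show p ∈ {p : ℝ × ℝ | 0 < p.2} from hp)]
        by_cases h0 : G (p.2 * p.1, p.2) = 0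
        · rw [h0, mul_zero, norm_zero]; positivity
        · obtain ⟨h1, h2, h3⟩ := hGb (p.2 * p.1, p.2) hp h0
          rw [norm_mul, Complex.norm_real, Real.norm_of_nonneg (by positivity)]
          have h4 : p.2⁻¹ ≤ a⁻¹ := inv_anti₀ ha h1
          exact mul_le_mul h4 (hM _) (norm_nonneg _) (by positivity)
      · rw [hP, indicator_of_notMem (show p ∉ {p : ℝ × ℝ | 0 < p.2} from hp), norm_zero]
        positivity
    · by_cases hp : 0 < p.2
      · rw [hP, indicator_of_mem (show p ∈ {p : ℝ × ℝ | 0 < p.2} from hp)] at hne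
        obtain ⟨h1, h2, h3⟩ := hGb (p.2 * p.1, p.2) hp (right_ne_zero_of_mul hne)
        simp only at h1 h2 h3
        constructor
        · refine le_trans ?_ (le_max_left _ _)
          rw [le_div_iff₀ ha]
          rw [abs_mul, abs_of_pos hp] at h3
          calc |p.1| * a ≤ |p.1| * p.2 := by gcongr
            _ = p.2 * |p.1| := mul_comm _ _
            _ ≤ R := h3
        · rw [abs_of_pos hp]
          exact h2.trans (le_max_right _ _)
      · rw [hP, indicator_of_notMem (show p ∉ {p : ℝ × ℝ | 0 < p.2} from hp)] at hne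
        exact absurd rfl hne
  have step2 : ∀ y : ℝ, ∫ x : ℝ, G' (x, y) = ∫ t : ℝ, P (t, y) := by
    intro y
    by_cases hy : 0 < y
    · have h1 : ∀ x : ℝ, G' (x, y) = ((1 / y ^ 2 : ℝ) : ℂ) * G (x, y) := fun x =>
        indicator_of_mem (show (x, y) ∈ {p : ℝ × ℝ | 0 < p.2} from hy) _
      have h2 : ∀ t : ℝ, P (t, y) = ((y⁻¹ : ℝ) : ℂ) * G (y * t, y) := fun t =>
        indicator_of_mem (show (t, y) ∈ {p : ℝ × ℝ | 0 < p.2} from hy) _
      simp_rw [h1, h2]
      rw [integral_const_mul, integral_const_mul,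
        Measure.integral_comp_mul_left (fun x => G (x, y)) y, abs_of_pos (inv_pos.2 hy),
        Complex.real_smul, ← mul_assoc]
      congr 1
      push_cast
      ring
    · have h1 : ∀ x : ℝ, G' (x, y) = 0 := fun x =>
        indicator_of_notMem (show (x, y) ∉ {p : ℝ × ℝ | 0 < p.2} from hy) _
      have h2 : ∀ t : ℝ, P (t, y) = 0 := fun t =>
        indicator_of_notMem (show (t, y) ∉ {p : ℝ × ℝ | 0 < p.2} from hy) _
      simp_rw [h1, h2]
  have step3 : ∀ t : ℝ, ∫ y : ℝ, P (t, y) =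
      ∫ τ : ℝ, h (pt (Real.exp τ * t / √(1 + t ^ 2)) (Real.exp τ / √(1 + t ^ 2))) := by
    intro t
    have hc0 : 0 < √(1 + t ^ 2) := Real.sqrt_pos.2 (by positivity)
    set c : ℝ := (√(1 + t ^ 2))⁻¹ with hcdef
    have hcp : 0 < c := inv_pos.2 hc0
    have himg : (fun τ : ℝ => c * Real.exp τ) '' univ = Ioi 0 := by
      ext y
      simp only [mem_image, mem_univ, true_and, mem_Ioi]
      constructor
      · rintro ⟨τ, rfl⟩
        positivity
      · intro hy
        refine ⟨Real.log (y / c), ?_⟩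
        rw [Real.exp_log (by positivity)]
        field_simp
    have hinj : InjOn (fun τ : ℝ => c * Real.exp τ) univ := by
      intro u _ v _ huv
      exact Real.exp_injective (mul_left_cancel₀ hcp.ne' huv)
    have hder : ∀ τ ∈ (univ : Set ℝ), HasDerivWithinAt (fun τ : ℝ => c * Real.exp τ)
        (c * Real.exp τ) univ τ := fun τ _ =>
      ((Real.hasDerivAt_exp τ).const_mul c).hasDerivWithinAt
    have h1 : ∫ y : ℝ, P (t, y) = ∫ y in Ioi (0 : ℝ), ((y⁻¹ : ℝ) : ℂ) * G (y * t, y) := by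
      rw [← integral_indicator measurableSet_Ioi]
      congr 1
    rw [h1, ← himg, integral_image_eq_integral_abs_deriv_smul MeasurableSet.univ hder hinj,
      Measure.restrict_univ]
    congr 1
    ext τ
    have h2 : 0 < c * Real.exp τ := by positivity
    rw [abs_of_pos h2, Complex.real_smul, ← mul_assoc, ← Complex.ofReal_mul,
      mul_inv_cancel₀ h2.ne', Complex.ofReal_one, one_mul]
    simp only [hG]
    congr 2
    · rw [hcdef]; ring
    · rw [hcdef]; ring
  calc ∫ z : ℍ, h z = ∫ p, G' p := step1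
    _ = ∫ y : ℝ, ∫ x : ℝ, G' (x, y) := integral_prod_symm G' hint1
    _ = ∫ y : ℝ, ∫ t : ℝ, P (t, y) := by simp_rw [step2]
    _ = ∫ p, P p := (integral_prod_symm P hint2).symm
    _ = ∫ t : ℝ, ∫ y : ℝ, P (t, y) := integral_prod P hint2
    _ = _ := by simp_rw [step3]

end FMZ
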