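import Pool.Agent.FMZ.STargets

/-!
# FMZ, block S: S-PSM, smoothness of the sums over the group
-/

set_option autoImplicit false

open Complex MeasureTheory Set Filter Topology
open UpperHalfPlane hiding I
open scoped ENNReal InnerProductSpace

namespace FMZ

namespace SPSM_

/-- the action of `g` on the complex plane -/
noncomputable def mob (g : SG) (w : ℂ) : ℂ := ((g • ofComplex w : ℍ) : ℂ)

lemma ex_mob (P : ℍ → ℂ) (g : SG) (w : ℂ) : ex P (mob g w) = P (g • ofComplex w) := by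
  simp [ex, mob]

lemma smul_eq (g : SG) (z : ℍ) :
    g • z = (Matrix.SpecialLinearGroup.mapGL ℝ g : GL (Fin 2) ℝ) • z := rfl

lemma det_one (g : SG) :
    (Matrix.SpecialLinearGroup.mapGL ℝ g : GL (Fin 2) ℝ).val.det = 1 := by
  rw [Matrix.SpecialLinearGroup.mapGL_coe_matrix]
  exact (Matrix.SpecialLinearGroup.map (algebraMap ℤ ℝ) g).det_coe

lemma mob_hasDerivAt (g : SG) (z : ℍ) :
    HasDerivAt (mob g)
      (1 / denom (Matrix.SpecialLinearGroup.mapGL ℝ g : GL (Fin 2) ℝ) z ^ 2) (z : ℂ) := by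
  have h := (hasStrictDerivAt_smul (g := (Matrix.SpecialLinearGroup.mapGL ℝ g : GL (Fin 2) ℝ))
    (by rw [det_one]; exact one_pos) z).hasDerivAt
  rw [det_one, ofReal_one] at h
  exact h

lemma mob_contDiffAt (g : SG) (z : ℍ) : ContDiffAt ℝ (⊤ : ℕ∞) (mob g) (z : ℂ) := by
  have h : AnalyticAt ℂ (mob g) (z : ℂ) :=
    analyticAt_smul (g := (Matrix.SpecialLinearGroup.mapGL ℝ g : GL (Fin 2) ℝ))
      (by rw [det_one]; exact one_pos) z
  exact (h.contDiffAt (n := (⊤ : ℕ∞))).restrict_scalars ℝ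

lemma norm_deriv (g : SG) (z : ℍ) :
    z.im * ‖1 / denom (Matrix.SpecialLinearGroup.mapGL ℝ g : GL (Fin 2) ℝ) z ^ 2‖ =
      (g • z).im := by
  rw [smul_eq, im_smul_eq_div_normSq]
  have h : |(Matrix.SpecialLinearGroup.mapGL ℝ g : GL (Fin 2) ℝ).det.val| = 1 := by
    have := det_one g
    rw [show (Matrix.SpecialLinearGroup.mapGL ℝ g : GL (Fin 2) ℝ).det.val = 1 from this, abs_one]
  rw [h, one_mul, norm_div, norm_one, norm_pow, normSq_eq_norm_sq, mul_one_div]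

/-- The chain rule. -/
lemma comp_mob (P : ℍ → ℂ) (hP : Sm P) (g : SG) (z : ℍ) :
    ContDiffAt ℝ (⊤ : ℕ∞) (fun w => ex P (mob g w)) (z : ℂ) ∧
    ∀ v : ℂ, ‖v‖ ≤ 1 → z.im * ‖fderiv ℝ (fun w => ex P (mob g w)) (z : ℂ) v‖ ≤
      (g • z).im * ‖fderiv ℝ (ex P) ((g • z : ℍ) : ℂ)‖ := by
  have hmz : mob g (z : ℂ) = ((g • z : ℍ) : ℂ) := by simp [mob]
  have hopen : {w : ℂ | 0 < w.im} ∈ 𝓝 ((g • z : ℍ) : ℂ) :=
    isOpen_upperHalfPlaneSet.mem_nhds (g • z).im_pos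
  have hP' : ContDiffAt ℝ (⊤ : ℕ∞) (ex P) ((g • z : ℍ) : ℂ) := hP.contDiffAt hopen
  have hc : ContDiffAt ℝ (⊤ : ℕ∞) (fun w => ex P (mob g w)) (z : ℂ) := by
    have h1 : ContDiffAt ℝ (⊤ : ℕ∞) (ex P) (mob g (z : ℂ)) := by
      rw [hmz]
      exact hP'
    exact h1.comp (z : ℂ) (mob_contDiffAt g z)
  refine ⟨hc, fun v hv => ?_⟩
  have hd : DifferentiableAt ℝ (ex P) (mob g (z : ℂ)) := by
    rw [hmz]
    exact hP'.differentiableAt (by simp)
  have hm : HasFDerivAt (mob g) ((ContinuousLinearMap.toSpanSingleton ℂ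
      (1 / denom (Matrix.SpecialLinearGroup.mapGL ℝ g : GL (Fin 2) ℝ) z ^ 2)).restrictScalars ℝ)
      (z : ℂ) := (mob_hasDerivAt g z).hasFDerivAt.restrictScalars ℝ
  have hcomp := (hd.hasFDerivAt.comp (z : ℂ) hm).fderiv
  have hcomp' : fderiv ℝ (fun w => ex P (mob g w)) (z : ℂ) v =
      fderiv ℝ (ex P) ((g • z : ℍ) : ℂ)
        (v * (1 / denom (Matrix.SpecialLinearGroup.mapGL ℝ g : GL (Fin 2) ℝ) z ^ 2)) := by
    have h2 : fderiv ℝ (fun w => ex P (mob g w)) (z : ℂ) = _ := hcomp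
    rw [h2, hmz]
    simp
  rw [hcomp']
  calc z.im * ‖fderiv ℝ (ex P) ((g • z : ℍ) : ℂ)
        (v * (1 / denom (Matrix.SpecialLinearGroup.mapGL ℝ g : GL (Fin 2) ℝ) z ^ 2))‖
      ≤ z.im * (‖fderiv ℝ (ex P) ((g • z : ℍ) : ℂ)‖ *
        (1 * ‖1 / denom (Matrix.SpecialLinearGroup.mapGL ℝ g : GL (Fin 2) ℝ) z ^ 2‖)) := by
        refine mul_le_mul_of_nonneg_left ?_ z.im_pos.le
        refine (ContinuousLinearMap.le_opNorm _ _).trans ?_
        refine mul_le_mul_of_nonneg_left ?_ (norm_nonneg _)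
        rw [norm_mul]
        exact mul_le_mul_of_nonneg_right hv (norm_nonneg _)
    _ = (z.im * ‖1 / denom (Matrix.SpecialLinearGroup.mapGL ℝ g : GL (Fin 2) ℝ) z ^ 2‖) *
        ‖fderiv ℝ (ex P) ((g • z : ℍ) : ℂ)‖ := by ring
    _ = (g • z).im * ‖fderiv ℝ (ex P) ((g • z : ℍ) : ℂ)‖ := by rw [norm_deriv]

lemma loc (P : ℍ → ℂ) (U : Set ℍ) (hU : IsOpen U)
    (hfin : {g : SG | ∃ z ∈ U, g • z ∈ tsupport P}.Finite) (z : ℍ) (hz : z ∈ U) :
    ex (Poi P) =ᶠ[𝓝 (z : ℂ)] fun w => ∑ g ∈ hfin.toFinset, ex P (mob g w) := by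
  rw [← isOpenEmbedding_coe.map_nhds_eq, Filter.EventuallyEq, Filter.eventually_map]
  filter_upwards [hU.mem_nhds hz] with w hw
  have h1 : ex (Poi P) (w : ℂ) = Poi P w := by simp [ex]
  rw [h1]
  simp only [ex_mob, ofComplex_apply]
  refine tsum_eq_sum fun g hg => ?_
  by_contra hne
  refine hg (hfin.mem_toFinset.mpr ⟨w, hw, subset_tsupport _ ?_⟩)
  exact hne

end SPSM_

open SPSM_

/-- S-PSM -/
theorem pPSM (h : sPD) (h'' : sPBD) (hT : sTBC) : sPSM := by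
  intro P hP
  have hK : IsCompact (tsupport P) := hP.cpt
  obtain ⟨-, -, hinv, ⟨C₀, hC₀⟩, -⟩ := h'' P (hT P hP).1
  refine ⟨?_, hinv, ?_⟩
  · -- smoothness
    intro w hw
    obtain ⟨N, hN, hNz⟩ := exists_compact_mem_nhds (⟨w, hw⟩ : ℍ)
    have hfin : {g : SG | ∃ z ∈ interior N, g • z ∈ tsupport P}.Finite :=
      (h.1 N (tsupport P) hN hK).subset fun g ⟨z, hz, hg⟩ => ⟨z, interior_subset hz, hg⟩
    have hloc := loc P (interior N) isOpen_interior hfin ⟨w, hw⟩ (mem_interior_iff_mem_nhds.mpr hNz)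
    have hsum : ContDiffAt ℝ (⊤ : ℕ∞) (fun w => ∑ g ∈ hfin.toFinset, ex P (mob g w)) w :=
      ContDiffAt.sum fun g _ => (comp_mob P hP.sm g ⟨w, hw⟩).1
    exact (hsum.congr_of_eventuallyEq hloc).contDiffWithinAt
  · -- boundedness
    have hfin : {g : SG | ∃ z ∈ Dm, g • z ∈ tsupport P}.Finite := h.2 _ hK
    have hcont : Continuous fun z : ℍ => z.im * ‖fderiv ℝ (ex P) (z : ℂ)‖ := by
      refine continuous_im.mul (Continuous.norm ?_)
      have h1 : ContinuousOn (fderiv ℝ (ex P)) {w : ℂ | 0 < w.im} :=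
        hP.sm.continuousOn_fderiv_of_isOpen isOpen_upperHalfPlaneSet (by simp)
      exact h1.comp_continuous continuous_coe fun z => z.im_pos
    obtain ⟨C₁, hC₁⟩ := hK.exists_bound_of_continuousOn hcont.continuousOn
    have hbd : ∀ w : ℍ, w.im * ‖fderiv ℝ (ex P) (w : ℂ)‖ ≤ max C₁ 0 := by
      intro w
      by_cases hw : w ∈ tsupport P
      · exact ((le_abs_self _).trans (hC₁ w hw)).trans (le_max_left _ _)
      · have h0 : ex P =ᶠ[𝓝 (w : ℂ)] fun _ => (0 : ℂ) := by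
          rw [← isOpenEmbedding_coe.map_nhds_eq, Filter.EventuallyEq, Filter.eventually_map]
          have h2 := (notMem_tsupport_iff_eventuallyEq.mp hw)
          filter_upwards [h2] with z hz
          simpa [ex] using hz
        rw [h0.fderiv_eq]
        simp
    have hg : ∀ z ∈ Dm, ∀ v : ℂ, ‖v‖ ≤ 1 → ‖(z.im : ℂ) * fderiv ℝ (ex (Poi P)) z v‖ ≤
        hfin.toFinset.card * max C₁ 0 := by
      intro z hz v hv
      have hloc := loc P Dm ModularGroup.isOpen_fdo hfin z hz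
      rw [hloc.fderiv_eq, fderiv_fun_sum fun g _ =>
        (comp_mob P hP.sm g z).1.differentiableAt (by simp)]
      rw [_root_.sum_apply, Finset.mul_sum]
      refine (norm_sum_le _ _).trans ?_
      rw [← nsmul_eq_mul, ← Finset.sum_const]
      refine Finset.sum_le_sum fun g _ => ?_
      rw [norm_mul, norm_real, Real.norm_eq_abs, abs_of_pos z.im_pos]
      exact ((comp_mob P hP.sm g z).2 v hv).trans (hbd _)
    refine ⟨max C₀ (hfin.toFinset.card * max C₁ 0), fun z hz => ⟨?_, ?_, ?_⟩⟩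
    · exact (hC₀ z hz).trans (le_max_left _ _)
    · exact (hg z hz 1 (by simp)).trans (le_max_right _ _)
    · exact (hg z hz I (by simp)).trans (le_max_right _ _)

end FMZ
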