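import Pool.Agent.FMZ.STargets

/-!
# FMZ-S-REG: sums over the group of functions with vanishing sums over the translations;
FMZ-S-GEN: invariance under the generators is enough
-/

open Complex MeasureTheory Set Filter Topology
open UpperHalfPlane hiding I

namespace FMZ

namespace SREG_

lemma T_inj : Function.Injective (fun m : ℤ => ModularGroup.T ^ m) := by
  intro m n h
  have h1 : ((ModularGroup.T ^ m : SG) : Matrix (Fin 2) (Fin 2) ℤ) 0 1 =
      ((ModularGroup.T ^ n : SG) : Matrix (Fin 2) (Fin 2) ℤ) 0 1 := by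
    have h2 : (ModularGroup.T ^ m : SG) = ModularGroup.T ^ n := h
    rw [h2]
  rw [ModularGroup.coe_T_zpow, ModularGroup.coe_T_zpow] at h1
  simpa using h1

/-- the powers of T -/
noncomputable def eT : ℤ ≃ Subgroup.zpowers ModularGroup.T :=
  Equiv.ofBijective (fun m : ℤ => ⟨ModularGroup.T ^ m, ⟨m, rfl⟩⟩) ⟨by
    intro m n h
    exact T_inj (Subtype.ext_iff.1 h), by
    rintro ⟨g, m, hm⟩
    exact ⟨m, Subtype.ext hm⟩⟩

/-- the group as a product of the cosets and the powers of T -/
noncomputable def eC : (SG ⧸ Subgroup.zpowers ModularGroup.T) × Subgroup.zpowers ModularGroup.T ≃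
    SG :=
  Equiv.ofBijective (fun p => Quotient.out p.1 * (p.2 : SG)) ⟨by
    rintro ⟨q, t⟩ ⟨q', t'⟩ h
    have h' : Quotient.out q * (t : SG) = Quotient.out q' * (t' : SG) := h
    have hq : ∀ (q : SG ⧸ Subgroup.zpowers ModularGroup.T) (t : Subgroup.zpowers ModularGroup.T),
        ((Quotient.out q * (t : SG) : SG) : SG ⧸ Subgroup.zpowers ModularGroup.T) = q := by
      intro q t
      rw [QuotientGroup.mk_mul_of_mem _ t.2, QuotientGroup.out_eq']
    have h1 : q = q' := by
      rw [← hq q t, ← hq q' t', h']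
    subst h1
    have h2 : (t : SG) = t' := mul_left_cancel h'
    rw [Subtype.ext h2], by
    intro g
    refine ⟨((g : SG ⧸ Subgroup.zpowers ModularGroup.T),
      ⟨(Quotient.out (g : SG ⧸ Subgroup.zpowers ModularGroup.T))⁻¹ * g, ?_⟩), ?_⟩
    · rw [← QuotientGroup.eq, QuotientGroup.out_eq']
    · simp⟩

lemma inner_sum {Q : ℍ → ℂ} (hQ : ∀ z, ∑' m : ℤ, Q ((m : ℝ) +ᵥ z) = 0) (w : ℍ) :
    ∑' t : Subgroup.zpowers ModularGroup.T, Q ((t : SG)⁻¹ • w) = 0 := by
  rw [← Equiv.tsum_eq eT, ← Equiv.tsum_eq (Equiv.neg ℤ)]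
  rw [← hQ w]
  refine tsum_congr fun m => ?_
  have h1 : ((eT ((Equiv.neg ℤ) m) : SG)) = ModularGroup.T ^ (-m) := rfl
  rw [h1, zpow_neg, inv_inv, UpperHalfPlane.modular_T_zpow_smul]

end SREG_

open SREG_ in
theorem pREG (h : sPBD) : sREG := by
  intro Q hQ hsum z
  have hfin := (h Q hQ).1 z
  have e1 : Poi Q z = ∑' g : SG, Q (g⁻¹ • z) := by
    rw [Poi]
    exact (Equiv.tsum_eq (Equiv.inv SG) (fun g : SG => Q (g • z))).symm
  set F : SG → ℂ := fun g => Q (g⁻¹ • z) with hF
  have hFfin : (Function.support F).Finite := by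
    refine (hfin.preimage (f := fun g : SG => g⁻¹) inv_injective.injOn).subset ?_
    intro g hg
    exact hg
  have e2 : ∑' g : SG, F g = ∑' p, F (eC p) := (Equiv.tsum_eq eC F).symm
  have hs : Summable (fun p => F (eC p)) := by
    refine summable_of_hasFiniteSupport ?_
    refine (hFfin.preimage (f := eC) eC.injective.injOn).subset ?_
    intro p hp
    exact hp
  rw [e1]
  change ∑' g : SG, F g = 0
  rw [e2, hs.tsum_prod]
  have h0 : ∀ q, ∑' t : Subgroup.zpowers ModularGroup.T, F (eC (q, t)) = 0 := by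
    intro q
    have e3 : ∀ t : Subgroup.zpowers ModularGroup.T, F (eC (q, t)) =
        Q ((t : SG)⁻¹ • ((Quotient.out q)⁻¹ • z)) := by
      intro t
      have e4 : eC (q, t) = Quotient.out q * t := rfl
      rw [hF]
      simp only [e4, mul_inv_rev, mul_smul]
    rw [tsum_congr e3]
    exact inner_sum hsum _
  rw [tsum_congr h0, tsum_zero]

theorem pSGEN : sGEN := by
  intro f hT hS g
  have hmem : g ∈ Subgroup.closure ({ModularGroup.S, ModularGroup.T} : Set SG) := by
    rw [SpecialLinearGroup.SL2Z_generators]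
    exact Subgroup.mem_top g
  induction hmem using Subgroup.closure_induction with
  | mem x hx =>
    intro z
    rcases hx with rfl | hx
    · exact hS z
    · rw [mem_singleton_iff] at hx
      rw [hx, UpperHalfPlane.modular_T_smul]
      exact hT z
  | one =>
    intro z
    rw [one_smul]
  | mul x y _ _ hx hy =>
    intro z
    rw [mul_smul, hx, hy]
  | inv x _ hx =>
    intro z
    have := hx (x⁻¹ • z)
    rw [smul_inv_smul] at this
    exact this.symm

end FMZ
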