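import Pool.Agent.FMZ.STargets

set_option autoImplicit false

/-!
# FMZ, block S: Riemann sums and the functional `lX`
-/

open Complex MeasureTheory Set Filter Topology
open UpperHalfPlane hiding I
open scoped ENNReal InnerProductSpace

namespace FMZ

namespace SRIE_

/-- the general comparison of the sum and the integral -/
lemma sum_sub_integral (k : ℝ → ℝ) (hk : ContDiff ℝ 1 k) (hc : HasCompactSupport k) :
    (Summable fun m : ℤ => k m) ∧ |(∑' m : ℤ, k m) - ∫ s, k s| ≤ ∫ s, |deriv k s| := by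
  have hkc : Continuous k := hk.continuous
  have hk1 : Continuous (deriv k) := hk.continuous_deriv le_rfl
  have hki : Integrable k := hkc.integrable_of_hasCompactSupport hc
  have hkd : Integrable (fun s => |deriv k s|) :=
    (hk1.integrable_of_hasCompactSupport hc.deriv).abs
  have h1 : HasSum (fun n : ℤ => ∫ s in (n : ℝ)..(n : ℝ) + 1, k s) (∫ s, k s) := by
    simpa using hki.hasSum_intervalIntegral 0
  have h2 : HasSum (fun n : ℤ => ∫ s in (n : ℝ)..(n : ℝ) + 1, |deriv k s|) (∫ s, |deriv k s|) := by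
    simpa using hkd.hasSum_intervalIntegral 0
  have hdiff : ∀ x, DifferentiableAt ℝ k x := fun x => hk.differentiable one_ne_zero x
  have h3 : ∀ n : ℤ, ‖k n - ∫ s in (n : ℝ)..(n : ℝ) + 1, k s‖ ≤
      ∫ s in (n : ℝ)..(n : ℝ) + 1, |deriv k s| := by
    intro n
    have hle : (n : ℝ) ≤ (n : ℝ) + 1 := by linarith
    have e1 : k n - ∫ s in (n : ℝ)..(n : ℝ) + 1, k s =
        ∫ s in (n : ℝ)..(n : ℝ) + 1, (k n - k s) := by
      rw [intervalIntegral.integral_sub (by simp) (hkc.intervalIntegrable _ _)]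
      simp
    rw [e1]
    have hbd : ∀ s ∈ Set.uIoc (n : ℝ) ((n : ℝ) + 1), ‖k n - k s‖ ≤
        ∫ s in (n : ℝ)..(n : ℝ) + 1, |deriv k s| := by
      intro s hs
      rw [Set.uIoc_of_le hle] at hs
      have e2 : k s - k n = ∫ t in (n : ℝ)..s, deriv k t :=
        (intervalIntegral.integral_deriv_eq_sub (fun x _ => hdiff x)
          (hk1.intervalIntegrable _ _)).symm
      rw [norm_sub_rev, e2]
      refine (intervalIntegral.norm_integral_le_integral_norm hs.1.le).trans ?_
      simp only [Real.norm_eq_abs]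
      exact intervalIntegral.integral_mono_interval le_rfl hs.1.le hs.2
        (ae_of_all _ fun t => abs_nonneg _) hkd.intervalIntegrable
    have := intervalIntegral.norm_integral_le_of_norm_le_const hbd
    simpa using this
  have h4 : Summable fun n : ℤ => k n - ∫ s in (n : ℝ)..(n : ℝ) + 1, k s :=
    Summable.of_norm_bounded h2.summable h3
  have h5 : Summable fun n : ℤ => k n := by
    have := h4.add h1.summable
    simpa using this
  refine ⟨h5, ?_⟩
  rw [← h1.tsum_eq, ← h5.tsum_sub h1.summable, ← Real.norm_eq_abs, ← h2.tsum_eq]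
  exact tsum_of_norm_bounded h2.summable.hasSum h3

/-- summability and comparison for `X` -/
lemma riemann (X : ℝ → ℝ) (hX : Tst X) (x y : ℝ) (hy : 0 < y) :
    (Summable fun m : ℤ => X ((x + m) / y)) ∧
    |(∑' m : ℤ, X ((x + m) / y)) - y * ∫ t : ℝ, X t| ≤ ∫ t : ℝ, |deriv X t| := by
  set k : ℝ → ℝ := fun s => X ((x + s) / y) with hkdef
  have hk : ContDiff ℝ 1 k := by
    have h1 : ContDiff ℝ 1 X := hX.smooth.of_le (by exact_mod_cast le_top)
    exact h1.comp (by fun_prop)
  have hc : HasCompactSupport k := by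
    have h1 := hX.cpt
    have h2 : Topology.IsClosedEmbedding (fun s : ℝ => (x + s) / y) := by
      have := ((Homeomorph.addLeft x).trans (Homeomorph.mulRight₀ y⁻¹ (inv_ne_zero hy.ne')))
      have h3 := this.isClosedEmbedding
      refine (Homeomorph.isClosedEmbedding
        ((Homeomorph.addLeft x).trans (Homeomorph.mulRight₀ y⁻¹ (inv_ne_zero hy.ne'))))
    exact h1.comp_isClosedEmbedding h2
  obtain ⟨h1, h2⟩ := sum_sub_integral k hk hc
  refine ⟨h1, ?_⟩
  have hi : ∀ g : ℝ → ℝ, ∫ s, g ((x + s) / y) = y * ∫ t, g t := by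
    intro g
    have e1 : ∫ s, g ((x + s) / y) = ∫ s, g (s / y) :=
      integral_add_left_eq_self (μ := volume) (fun s => g (s / y)) x
    rw [e1, Measure.integral_comp_div g y, abs_of_pos hy, smul_eq_mul]
  have hd : ∀ s, deriv k s = deriv X ((x + s) / y) * y⁻¹ := by
    intro s
    have h3 : HasDerivAt (fun s : ℝ => (x + s) / y) (1 / y) s :=
      ((hasDerivAt_id s).const_add x).div_const y
    have h4 : HasDerivAt X (deriv X ((x + s) / y)) ((x + s) / y) :=
      (hX.smooth.differentiable (by simp) _).hasDerivAt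
    have := (h4.comp s h3).deriv
    rw [one_div] at this
    exact this
  have e2 : ∫ s, |deriv k s| = ∫ t, |deriv X t| := by
    simp only [hd, abs_mul, abs_inv, abs_of_pos hy]
    rw [integral_mul_const, hi (fun t => |deriv X t|)]
    field_simp
  rw [hi X, e2] at h2
  exact h2

end SRIE_

/-- S-RIE -/
theorem pRIE : sRIE := fun X hX x y hy => (SRIE_.riemann X hX x y hy).2

namespace SRIE_

/-- pairing with a bounded function -/
lemma pairing (hfin : IsFiniteMeasure muD) (G : ℍ → ℂ) (hG : Measurable G) (C : ℝ)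
    (hC : ∀ᵐ z ∂muD, ‖G z‖ ≤ C) :
    ∃ L : HD →L[ℂ] ℂ, ∀ u : HD, L u = ∫ z, u z * G z ∂muD := by
  have hm : MemLp (fun z => (starRingEnd ℂ) (G z)) 2 muD := by
    refine MemLp.of_bound (continuous_star.measurable.comp hG).aestronglyMeasurable C ?_
    filter_upwards [hC] with z hz
    simpa using hz
  refine ⟨innerSL ℂ hm.toLp, fun u => ?_⟩
  rw [innerSL_apply_apply, L2.inner_def]
  refine integral_congr_ae ?_
  filter_upwards [hm.coeFn_toLp] with z hz
  rw [hz]
  simp [mul_comm]

/-- a test function has bounded support -/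
lemma supp (X : ℝ → ℝ) (hX : Tst X) : ∃ A : ℝ, 0 < A ∧ ∀ t, A < |t| → X t = 0 := by
  obtain ⟨A, hA⟩ := hX.cpt.isCompact.isBounded.subset_closedBall (0 : ℝ)
  refine ⟨max A 1, by positivity, fun t ht => ?_⟩
  by_contra hne
  have h1 : t ∈ tsupport X := subset_tsupport X hne
  have h2 := hA h1
  rw [mem_closedBall_zero_iff, Real.norm_eq_abs] at h2
  exact absurd ht (not_lt.mpr (h2.trans (le_max_left _ _)))

/-- compact boxes -/
lemma compact_box (A e Y : ℝ) (he : 0 < e) :
    IsCompact {z : ℍ | |z.re| ≤ A ∧ e ≤ z.im ∧ z.im ≤ Y} := by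
  have h1 : IsCompact {w : ℂ | w.re ∈ Icc (-A) A ∧ w.im ∈ Icc e Y} := by
    have : {w : ℂ | w.re ∈ Icc (-A) A ∧ w.im ∈ Icc e Y} = Icc (-A) A ×ℂ Icc e Y := by
      ext w; rfl
    rw [this]
    exact isCompact_Icc.reProdIm isCompact_Icc
  have h2 : {z : ℍ | |z.re| ≤ A ∧ e ≤ z.im ∧ z.im ≤ Y} =
      UpperHalfPlane.coe ⁻¹' {w : ℂ | w.re ∈ Icc (-A) A ∧ w.im ∈ Icc e Y} := by
    ext z
    simp only [mem_setOf_eq, mem_preimage, mem_Icc, abs_le, UpperHalfPlane.coe_re,
      UpperHalfPlane.coe_im]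
  rw [h2]
  refine UpperHalfPlane.isEmbedding_coe.isInducing.isCompact_preimage' h1 ?_
  rintro w ⟨_, hw⟩
  exact ⟨⟨w, lt_of_lt_of_le he hw.1⟩, rfl⟩

lemma X1_BC (X : ℝ → ℝ) (hX : Tst X) : BC (Xlow X) := by
  obtain ⟨A, hA0, hA⟩ := supp X hX
  have hXc : Continuous X := hX.smooth.continuous
  obtain ⟨M, hM⟩ := hX.cpt.exists_bound_of_continuous hXc
  have hms : MeasurableSet {z : ℍ | 1 < ‖(z : ℂ)‖ ∧ z.im ≤ 1} := by
    apply MeasurableSet.inter
    · exact (isOpen_lt continuous_const
        (continuous_norm.comp UpperHalfPlane.continuous_coe)).measurableSet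
    · exact (isClosed_le UpperHalfPlane.continuous_im continuous_const).measurableSet
  refine ⟨?_, ⟨max M 0, ?_⟩, ⟨{z : ℍ | |z.re| ≤ A ∧ (√(1 + A ^ 2))⁻¹ ≤ z.im ∧ z.im ≤ 1},
    compact_box _ _ _ (by positivity), ?_⟩⟩
  · refine Measurable.indicator ?_ hms
    apply Continuous.measurable
    refine Complex.continuous_ofReal.comp (hXc.comp ?_)
    exact UpperHalfPlane.continuous_re.div UpperHalfPlane.continuous_im fun z => z.im_pos.ne'
  · intro z
    unfold Xlow
    refine (norm_indicator_le_norm_self _ _).trans ?_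
    rw [Complex.norm_real]
    exact (hM _).trans (le_max_left _ _)
  · intro z hz
    by_contra hne
    apply hz
    have h1 : z ∈ {z : ℍ | 1 < ‖(z : ℂ)‖ ∧ z.im ≤ 1} := by
      by_contra h
      exact hne (indicator_of_notMem h _)
    have h2 : X (z.re / z.im) ≠ 0 := by
      intro h
      apply hne
      unfold Xlow
      rw [indicator_of_mem h1]
      simp [h]
    have h3 : |z.re / z.im| ≤ A := by
      by_contra h
      exact h2 (hA _ (not_le.mp h))
    rw [abs_div, abs_of_pos z.im_pos, div_le_iff₀ z.im_pos] at h3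
    have h4 : ‖(z : ℂ)‖ ^ 2 = z.re ^ 2 + z.im ^ 2 := by
      rw [← Complex.normSq_eq_norm_sq, Complex.normSq_apply]
      simp [sq]
    have h5 : 1 < z.re ^ 2 + z.im ^ 2 := by
      rw [← h4]
      nlinarith [h1.1]
    have h6 : z.re ^ 2 ≤ (A * z.im) ^ 2 := by
      rw [← sq_abs z.re]
      exact pow_le_pow_left₀ (abs_nonneg _) h3 2
    refine ⟨?_, ?_, h1.2⟩
    · nlinarith [h1.2, z.im_pos]
    · rw [inv_le_comm₀ (by positivity) z.im_pos]
      have h7 : (z.im⁻¹) ^ 2 ≤ 1 + A ^ 2 := by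
        rw [inv_pow, inv_le_comm₀ (by positivity) (by positivity)]
        rw [inv_le_iff_one_le_mul₀ (by positivity)]
        nlinarith
      exact Real.le_sqrt_of_sq_le h7

lemma BX_measurable (X : ℝ → ℝ) (hX : Tst X) : Measurable (BX X) := by
  have hXc : Continuous X := hX.smooth.continuous
  have h1 : ∀ m : ℤ, Measurable fun z : ℍ => X ((z.re + m) / z.im) := fun m => by
    apply Continuous.measurable
    exact hXc.comp ((UpperHalfPlane.continuous_re.add continuous_const).div
      UpperHalfPlane.continuous_im fun z => z.im_pos.ne')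
  have h2 : Measurable fun z : ℍ => ∑' m : ℤ, X ((z.re + m) / z.im) := by
    refine measurable_of_tendsto_metrizable (f := fun (N : ℕ) (z : ℍ) =>
      ∑ i ∈ Finset.range N, X ((z.re + (Equiv.intEquivNat.symm i : ℤ)) / z.im)) ?_ ?_
    · intro N
      exact Finset.measurable_fun_sum _ fun i _ => h1 _
    · rw [tendsto_pi_nhds]
      intro z
      have hs := (riemann X hX z.re z.im z.im_pos).1.hasSum
      rw [← Equiv.intEquivNat.symm.hasSum_iff] at hs
      exact hs.tendsto_sum_nat
  unfold BX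
  exact h2.sub (UpperHalfPlane.continuous_im.measurable.mul_const _)

end SRIE_

/-- S-LX1 -/
theorem pLX1 (h1 : sRIE) (h2 : sPBD) (h3 : sVOL) : sLX1 := by
  intro X hX
  obtain ⟨hvol, hDm, hDh, hsub⟩ := h3
  have hfin : IsFiniteMeasure muD := ⟨by
    unfold muD
    rw [Measure.restrict_apply_univ]
    exact hvol⟩
  obtain ⟨_, hPm, _, ⟨C, hC⟩, _⟩ := h2 (Xlow X) (SRIE_.X1_BC X hX)
  obtain ⟨L₁, hL₁⟩ := SRIE_.pairing hfin (Poi (Xlow X)) hPm C
    ((ae_restrict_iff' hDm).mpr (ae_of_all _ hC))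
  have hBm := SRIE_.BX_measurable X hX
  have hGm : Measurable (Dh.indicator fun z => ((BX X z : ℝ) : ℂ)) :=
    (Complex.measurable_ofReal.comp hBm).indicator hDh
  obtain ⟨L₂, hL₂⟩ := SRIE_.pairing hfin (Dh.indicator fun z => ((BX X z : ℝ) : ℂ)) hGm
    (∫ t : ℝ, |deriv X t|) (ae_of_all _ fun z => by
      refine (norm_indicator_le_norm_self _ _).trans ?_
      rw [Complex.norm_real, Real.norm_eq_abs]
      exact h1 X hX z.re z.im z.im_pos)
  refine ⟨L₁ + (2 : ℂ) • L₂, fun u => ?_⟩
  rw [ContinuousLinearMap.add_apply, ContinuousLinearMap.smul_apply, hL₁, hL₂]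
  unfold lX Lam
  rw [smul_eq_mul, ← mul_assoc, mul_one_div_cancel two_ne_zero, one_mul]
  congr 2
  have e1 : ∀ z, u z * Dh.indicator (fun z => ((BX X z : ℝ) : ℂ)) z =
      Dh.indicator (fun z => u z * ((BX X z : ℝ) : ℂ)) z := by
    intro z
    by_cases hz : z ∈ Dh
    · simp [hz]
    · simp [hz]
  simp only [e1]
  rw [integral_indicator hDh]
  unfold muD
  rw [Measure.restrict_restrict hDh, inter_eq_left.mpr hsub]

end FMZ
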