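import Pool.Agent.FMZ.STargets

/-!
# FMZ, block S: finite volume and coordinates
-/

open Complex MeasureTheory Set Filter Topology
open UpperHalfPlane hiding I
open scoped ENNReal InnerProductSpace

namespace FMZ

namespace SVOL_

theorem im_xy (x y : ℝ) : ((x : ℂ) + y * I).im = y := by simp

theorem re_xy (x y : ℝ) : ((x : ℂ) + y * I).re = x := by simp

theorem pt_re_im (z : ℍ) : pt z.re z.im = z := by
  unfold pt
  have h : ((z.re : ℝ) : ℂ) + ((z.im : ℝ) : ℂ) * I = (z : ℂ) := by
    rw [← UpperHalfPlane.coe_re, ← UpperHalfPlane.coe_im]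
    exact Complex.re_add_im _
  rw [h, ofComplex_apply]

theorem coe_pt {x y : ℝ} (hy : 0 < y) : ((pt x y : ℍ) : ℂ) = x + y * I := by
  unfold pt
  rw [ofComplex_apply_of_im_pos (z := (x : ℂ) + y * I) (by rw [im_xy]; exact hy)]

theorem pt_coord {x y : ℝ} (hy : 0 < y) : (pt x y).re = x ∧ (pt x y).im = y := by
  have h := coe_pt (x := x) hy
  constructor
  · rw [← UpperHalfPlane.coe_re, h, re_xy]
  · rw [← UpperHalfPlane.coe_im, h, im_xy]

theorem measurable_pt : Measurable (fun p : ℝ × ℝ => pt p.1 p.2) := by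
  rw [← measurableEmbedding_coe.measurable_comp_iff]
  have h : (UpperHalfPlane.coe ∘ fun p : ℝ × ℝ => pt p.1 p.2) =
      fun p : ℝ × ℝ => if 0 < p.2 then (p.1 : ℂ) + p.2 * I else
        ((Classical.choice inferInstance : ℍ) : ℂ) := by
    funext p
    simp only [Function.comp_apply]
    split_ifs with hp
    · exact coe_pt hp
    · unfold pt
      rw [ofComplex_apply_of_im_nonpos (by rw [im_xy]; exact not_lt.1 hp)]
  rw [h]
  refine Measurable.ite (measurableSet_lt measurable_const measurable_snd) ?_ measurable_const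
  have h1 : Measurable fun p : ℝ × ℝ => ((p.1 : ℝ) : ℂ) := Complex.measurable_ofReal.comp measurable_fst
  have h2 : Measurable fun p : ℝ × ℝ => ((p.2 : ℝ) : ℂ) := Complex.measurable_ofReal.comp measurable_snd
  exact h1.add (h2.mul measurable_const)

/-- the coordinates -/
def co (z : ℍ) : ℝ × ℝ := (z.re, z.im)

theorem co_eq : co = Complex.measurableEquivRealProd ∘ UpperHalfPlane.coe := by
  funext z
  rfl

theorem measurableEmbedding_co : MeasurableEmbedding co := by
  rw [co_eq]
  exact Complex.measurableEquivRealProd.measurableEmbedding.comp measurableEmbedding_coe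

theorem measurableSet_pos : MeasurableSet {p : ℝ × ℝ | 0 < p.2} :=
  measurableSet_lt measurable_const measurable_snd

theorem mp0 : MeasurePreserving co ((volume : Measure ℂ).comap UpperHalfPlane.coe)
    ((volume : Measure (ℝ × ℝ)).restrict {p | 0 < p.2}) := by
  rw [co_eq]
  have h1 : MeasurePreserving UpperHalfPlane.coe ((volume : Measure ℂ).comap UpperHalfPlane.coe)
      (volume.restrict (Set.range UpperHalfPlane.coe)) :=
    ⟨measurable_coe, by rw [measurableEmbedding_coe.map_comap]⟩
  have h2 := Complex.volume_preserving_equiv_real_prod.restrict_preimage measurableSet_pos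
  have h3 : Complex.measurableEquivRealProd ⁻¹' {p : ℝ × ℝ | 0 < p.2} =
      Set.range UpperHalfPlane.coe := by
    ext z
    simp only [Set.mem_preimage, Set.mem_ofPred_eq, Set.mem_range]
    constructor
    · intro hz
      exact ⟨⟨z, hz⟩, rfl⟩
    · rintro ⟨w, rfl⟩
      exact w.im_pos
  rw [h3] at h2
  exact h2.comp h1

theorem measurable_dens : Measurable fun p : ℝ × ℝ => ENNReal.ofReal (1 / p.2 ^ 2) := by
  fun_prop

theorem mp : MeasurePreserving co volume
    (((volume : Measure (ℝ × ℝ)).restrict {p | 0 < p.2}).withDensity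
      fun p => ENNReal.ofReal (1 / p.2 ^ 2)) := by
  refine ⟨measurableEmbedding_co.measurable, ?_⟩
  refine Measure.ext fun s hs => ?_
  rw [Measure.map_apply measurableEmbedding_co.measurable hs, withDensity_apply _ hs,
    ← mp0.setLIntegral_comp_preimage hs measurable_dens, volume_def,
    withDensity_apply _ (measurableEmbedding_co.measurable hs)]
  refine lintegral_congr fun z => ?_
  have hz := z.im_pos
  have e1 : (((1 / NNReal.mk z.im z.im_pos.le : NNReal) ^ 2 : NNReal) : ℝ≥0∞) =
      ENNReal.ofReal (1 / z.im ^ 2) := by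
    rw [ENNReal.ofReal]
    congr 1
    ext
    rw [Real.coe_toNNReal _ (by positivity)]
    push_cast
    rw [div_pow, one_pow]
  exact e1

theorem measurableSet_Dm : MeasurableSet Dm := by
  have h : Dm = {z : ℍ | 1 < Complex.normSq (z : ℂ)} ∩ {z : ℍ | |z.re| < 1 / 2} := by
    rfl
  rw [h]
  have c1 : Continuous fun z : ℍ => Complex.normSq (z : ℂ) :=
    Complex.continuous_normSq.comp UpperHalfPlane.continuous_coe
  have c2 : Continuous fun z : ℍ => |z.re| := UpperHalfPlane.continuous_re.abs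
  exact ((isOpen_lt continuous_const c1).inter (isOpen_lt c2 continuous_const)).measurableSet

theorem measurableSet_Dh : MeasurableSet Dh := by
  have h : Dh = {z : ℍ | |z.re| < 1 / 2} ∩ {z : ℍ | 1 < z.im} := by
    rfl
  rw [h]
  have c1 : Continuous fun z : ℍ => z.im := UpperHalfPlane.continuous_im
  have c2 : Continuous fun z : ℍ => |z.re| := UpperHalfPlane.continuous_re.abs
  exact ((isOpen_lt c2 continuous_const).inter (isOpen_lt continuous_const c1)).measurableSet

theorem normSq_coe (z : ℍ) : Complex.normSq (z : ℂ) = z.re ^ 2 + z.im ^ 2 := by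
  rw [Complex.normSq_apply, UpperHalfPlane.coe_re, UpperHalfPlane.coe_im]
  ring

theorem Dh_subset : Dh ⊆ Dm := by
  intro z hz
  refine ⟨?_, hz.1⟩
  rw [normSq_coe]
  have := hz.2
  nlinarith [sq_nonneg z.re]

theorem im_gt_of_mem_Dm {z : ℍ} (hz : z ∈ Dm) : 1 / 2 < z.im := by
  have h1 : 1 < Complex.normSq (z : ℂ) := hz.1
  have h2 : |z.re| < 1 / 2 := hz.2
  rw [normSq_coe] at h1
  have h3 : z.re ^ 2 < 1 / 4 := by
    rw [← sq_abs]
    nlinarith [abs_nonneg z.re]
  have h4 := z.im_pos
  nlinarith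

theorem vol_lt : (volume : Measure ℍ) Dm < ∞ := by
  have h1 : Dm ⊆ co ⁻¹' (Ioo (-(1 / 2) : ℝ) (1 / 2) ×ˢ Ioi (1 / 2 : ℝ)) := by
    intro z hz
    exact ⟨abs_lt.1 hz.2, im_gt_of_mem_Dm hz⟩
  refine (measure_mono h1).trans_lt ?_
  have hms : MeasurableSet (Ioo (-(1 / 2) : ℝ) (1 / 2) ×ˢ Ioi (1 / 2 : ℝ)) :=
    measurableSet_Ioo.prod measurableSet_Ioi
  rw [mp.measure_preimage hms.nullMeasurableSet, withDensity_apply _ hms,
    Measure.restrict_restrict hms]
  refine (lintegral_mono_set Set.inter_subset_left).trans_lt ?_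
  have h2 : ((volume : Measure (ℝ × ℝ)).restrict (Ioo (-(1 / 2) : ℝ) (1 / 2) ×ˢ Ioi (1 / 2 : ℝ))) =
      ((volume : Measure ℝ).restrict (Ioo (-(1 / 2) : ℝ) (1 / 2))).prod
        ((volume : Measure ℝ).restrict (Ioi (1 / 2 : ℝ))) :=
    (Measure.prod_restrict _ _).symm
  rw [h2, lintegral_prod _ measurable_dens.aemeasurable]
  simp only [lintegral_const]
  refine ENNReal.mul_lt_top ?_ ?_
  · have h3 : IntegrableOn (fun y : ℝ => y ^ (-2 : ℝ)) (Ioi (1 / 2 : ℝ)) :=
      integrableOn_Ioi_rpow_of_lt (by norm_num) (by norm_num)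
    have h4 := h3.lintegral_lt_top
    refine lt_of_le_of_lt (le_of_eq ?_) h4
    refine setLIntegral_congr_fun measurableSet_Ioi fun y hy => ?_
    have hy0 : (0 : ℝ) < y := lt_trans (by norm_num) hy
    congr 1
    rw [Real.rpow_neg hy0.le, Real.rpow_two, one_div]
  · rw [Measure.restrict_apply MeasurableSet.univ, Set.univ_inter, Real.volume_Ioo]
    exact ENNReal.ofReal_lt_top

end SVOL_

open SVOL_

theorem pVOL : sVOL := ⟨vol_lt, measurableSet_Dm, measurableSet_Dh, Dh_subset⟩

theorem pCO : sCO :=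
  ⟨pt_re_im, fun _ _ hy => pt_coord hy, measurable_pt, measurableEmbedding_co, mp⟩

end FMZ
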