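import Pool.Agent.FMZ.STargets

/-!
# FMZ, block S: S-VSUB (the space of jets)
-/

open Complex MeasureTheory Set Filter Topology
open UpperHalfPlane hiding I
open scoped ENNReal

namespace FMZ

namespace SVSUB_

lemma sm_diff {f : ℍ → ℂ} (hf : Sm f) (z : ℍ) : DifferentiableAt ℝ (ex f) (z : ℂ) := by
  have hopen : IsOpen {w : ℂ | 0 < w.im} := isOpen_lt continuous_const Complex.continuous_im
  have h1 : (z : ℂ) ∈ {w : ℂ | 0 < w.im} := z.im_pos
  exact ((hf.contDiffAt (hopen.mem_nhds h1)).differentiableAt (by simp))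

lemma gx_add {f g : ℍ → ℂ} (hf : Sm f) (hg : Sm g) (z : ℍ) :
    gx (fun w => f w + g w) z = gx f z + gx g z := by
  unfold gx
  have h1 : ex (fun w => f w + g w) = ex f + ex g := rfl
  rw [h1, fderiv_add (sm_diff hf z) (sm_diff hg z), add_apply, mul_add]

lemma gy_add {f g : ℍ → ℂ} (hf : Sm f) (hg : Sm g) (z : ℍ) :
    gy (fun w => f w + g w) z = gy f z + gy g z := by
  unfold gy
  have h1 : ex (fun w => f w + g w) = ex f + ex g := rfl
  rw [h1, fderiv_add (sm_diff hf z) (sm_diff hg z), add_apply, mul_add]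

lemma gx_smul {f : ℍ → ℂ} (hf : Sm f) (c : ℂ) (z : ℍ) :
    gx (fun w => c * f w) z = c * gx f z := by
  unfold gx
  have h1 : ex (fun w => c * f w) = fun w => c * ex f w := rfl
  rw [h1, fderiv_const_mul (sm_diff hf z), smul_apply, smul_eq_mul]
  ring

lemma gy_smul {f : ℍ → ℂ} (hf : Sm f) (c : ℂ) (z : ℍ) :
    gy (fun w => c * f w) z = c * gy f z := by
  unfold gy
  have h1 : ex (fun w => c * f w) = fun w => c * ex f w := rfl
  rw [h1, fderiv_const_mul (sm_diff hf z), smul_apply, smul_eq_mul]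
  ring

lemma core_add {f g : ℍ → ℂ} (hf : Core f) (hg : Core g) : Core (fun w => f w + g w) := by
  refine ⟨?_, ?_, ?_⟩
  · have h1 : ex (fun w => f w + g w) = fun w => ex f w + ex g w := rfl
    unfold Sm
    rw [h1]
    exact ContDiffOn.add hf.sm hg.sm
  · intro γ z
    simp only
    rw [hf.inv γ z, hg.inv γ z]
  · obtain ⟨C, hC⟩ := hf.bdd
    obtain ⟨C', hC'⟩ := hg.bdd
    refine ⟨C + C', fun z hz => ?_⟩
    obtain ⟨a, b, c⟩ := hC z hz
    obtain ⟨a', b', c'⟩ := hC' z hz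
    rw [gx_add hf.sm hg.sm, gy_add hf.sm hg.sm]
    exact ⟨(norm_add_le _ _).trans (add_le_add a a'), (norm_add_le _ _).trans (add_le_add b b'),
      (norm_add_le _ _).trans (add_le_add c c')⟩

lemma core_smul {f : ℍ → ℂ} (hf : Core f) (c : ℂ) : Core (fun w => c * f w) := by
  refine ⟨?_, ?_, ?_⟩
  · have h1 : ex (fun w => c * f w) = fun w => c * ex f w := rfl
    unfold Sm
    rw [h1]
    exact contDiffOn_const.mul hf.sm
  · intro γ z
    simp only
    rw [hf.inv γ z]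
  · obtain ⟨C, hC⟩ := hf.bdd
    refine ⟨‖c‖ * C, fun z hz => ?_⟩
    obtain ⟨a, b, e⟩ := hC z hz
    rw [gx_smul hf.sm, gy_smul hf.sm, norm_mul, norm_mul, norm_mul]
    exact ⟨mul_le_mul_of_nonneg_left a (norm_nonneg _),
      mul_le_mul_of_nonneg_left b (norm_nonneg _), mul_le_mul_of_nonneg_left e (norm_nonneg _)⟩

lemma core_zero : Core (fun _ => (0 : ℂ)) := by
  have h1 : ex (fun _ => (0 : ℂ)) = fun _ => 0 := rfl
  refine ⟨?_, fun _ _ => rfl, ⟨0, fun z _ => ?_⟩⟩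
  · unfold Sm
    rw [h1]
    exact contDiffOn_const
  · unfold gx gy
    rw [h1]
    simp

lemma jet_add {f g : ℍ → ℂ} (hf : Sm f) (hg : Sm g) (z : ℍ) :
    jet (fun w => f w + g w) z = jet f z + jet g z := by
  unfold jet
  rw [gx_add hf hg, gy_add hf hg]
  ext i
  fin_cases i
  · simp [mul_add]
  · simp
  · simp

lemma jet_smul {f : ℍ → ℂ} (hf : Sm f) (c : ℂ) (z : ℍ) :
    jet (fun w => c * f w) z = c • jet f z := by
  unfold jet
  rw [gx_smul hf, gy_smul hf]
  ext i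
  fin_cases i
  · simp only [Fin.zero_eta, Fin.isValue, PiLp.smul_apply, smul_eq_mul]
    show (√6 : ℂ) * (c * f z) = c * ((√6 : ℂ) * f z)
    ring
  · rfl
  · rfl

lemma jet_zero (z : ℍ) : jet (fun _ => (0 : ℂ)) z = 0 := by
  have := jet_smul core_zero.sm 0 z
  simpa using this

/-- the jets of the core form a subspace -/
noncomputable def VSs : Submodule ℂ H3 where
  carrier := VS
  add_mem' := by
    rintro v w ⟨f, hf, hv⟩ ⟨g, hg, hw⟩
    refine ⟨fun z => f z + g z, core_add hf hg, ?_⟩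
    filter_upwards [Lp.coeFn_add v w, hv, hw] with z e1 e2 e3
    rw [e1, Pi.add_apply, e2, e3, jet_add hf.sm hg.sm]
  zero_mem' := by
    refine ⟨fun _ => 0, core_zero, ?_⟩
    filter_upwards [Lp.coeFn_zero (EuclideanSpace ℂ (Fin 3)) 2 muD] with z e1
    rw [e1, jet_zero]
    rfl
  smul_mem' := by
    rintro c v ⟨f, hf, hv⟩
    refine ⟨fun z => c * f z, core_smul hf c, ?_⟩
    filter_upwards [Lp.coeFn_smul c v, hv] with z e1 e2
    rw [e1, Pi.smul_apply, e2, jet_smul hf.sm]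

lemma finmeas (h' : sVOL) : IsFiniteMeasure muD := ⟨by
  rw [muD, Measure.restrict_apply_univ]
  exact h'.1⟩

lemma jet_cont (h : sCM) {f : ℍ → ℂ} (hf : Sm f) : Continuous (jet f) := by
  obtain ⟨c0, c1, c2, -⟩ := h f hf
  unfold jet
  refine (PiLp.continuous_toLp 2 (fun _ : Fin 3 => ℂ)).comp (continuous_pi fun i => ?_)
  fin_cases i
  · exact continuous_const.mul c0
  · exact c1
  · exact c2

lemma jet_memLp (h : sCM) (h' : sVOL) {f : ℍ → ℂ} (hf : Core f) : MemLp (jet f) 2 muD := by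
  have := finmeas h'
  obtain ⟨C, hC⟩ := hf.bdd
  refine MemLp.of_bound (jet_cont h hf.sm).aestronglyMeasurable (√(8 * C ^ 2)) ?_
  unfold muD
  refine (ae_restrict_iff' h'.2.1).mpr (Eventually.of_forall fun z hz => ?_)
  obtain ⟨a, b, c⟩ := hC z hz
  refine Real.le_sqrt_of_sq_le ?_
  rw [EuclideanSpace.norm_sq_eq, Fin.sum_univ_three]
  have e0 : (jet f z).ofLp 0 = (√6 : ℂ) * f z := rfl
  have e1 : (jet f z).ofLp 1 = gx f z := rfl
  have e2 : (jet f z).ofLp 2 = gy f z := rfl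
  rw [e0, e1, e2, norm_mul, mul_pow, Complex.norm_real, Real.norm_eq_abs, sq_abs,
    Real.sq_sqrt (by norm_num : (0 : ℝ) ≤ 6)]
  have := pow_le_pow_left₀ (norm_nonneg _) a 2
  have := pow_le_pow_left₀ (norm_nonneg _) b 2
  have := pow_le_pow_left₀ (norm_nonneg _) c 2
  linarith

lemma pr_ae (v : H3) : pr v =ᵐ[muD] fun z => (√6 : ℂ)⁻¹ * v z 0 := by
  unfold pr
  filter_upwards [ContinuousLinearMap.coeFn_compLpL (p := 2) (μ := muD)
    (((√6 : ℂ)⁻¹) • (EuclideanSpace.proj (0 : Fin 3) : EuclideanSpace ℂ (Fin 3) →L[ℂ] ℂ)) v]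
    with z e1
  rw [e1]
  rfl

lemma norm_sq_int {E : Type} [NormedAddCommGroup E] [InnerProductSpace ℂ E] (v : Lp E 2 muD) :
    ‖v‖ ^ 2 = ∫ z, ‖v z‖ ^ 2 ∂muD := by
  have h1 : ((‖v‖ ^ 2 : ℝ) : ℂ) = ((∫ z, ‖v z‖ ^ 2 ∂muD : ℝ) : ℂ) := by
    rw [← integral_complex_ofReal]
    have h2 := inner_self_eq_norm_sq_to_K (𝕜 := ℂ) v
    rw [L2.inner_def] at h2
    push_cast
    refine h2.symm.trans ?_
    refine integral_congr_ae (Eventually.of_forall fun z => ?_)
    simp only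
    rw [inner_self_eq_norm_sq_to_K]
    rfl
  exact_mod_cast h1

lemma comp_int (v : H3) (i : Fin 3) : Integrable (fun z => ‖v z i‖ ^ 2) muD := by
  have h1 : MemLp (fun z => v z i) 2 muD := ContinuousLinearMap.comp_memLp
    (EuclideanSpace.proj i : EuclideanSpace ℂ (Fin 3) →L[ℂ] ℂ) v
  exact (memLp_two_iff_integrable_sq_norm h1.1).mp h1

end SVSUB_

open SVSUB_ in
theorem pVSUB (h : sCM) (h' : sVOL) : sVSUB := by
  refine ⟨?_, ?_, ?_, ?_⟩
  · unfold Vsub
    rw [Submodule.topologicalClosure_coe]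
    have h1 : Submodule.span ℂ VS = VSs := Submodule.span_eq VSs
    rw [h1]
    rfl
  · intro v
    have e1 : ‖pr v‖ ^ 2 = ∫ z, 6⁻¹ * ‖v z 0‖ ^ 2 ∂muD := by
      rw [norm_sq_int (pr v)]
      refine integral_congr_ae ?_
      filter_upwards [pr_ae v] with z hz
      rw [hz, norm_mul, mul_pow, norm_inv, Complex.norm_real, Real.norm_eq_abs, inv_pow, sq_abs,
        Real.sq_sqrt (by norm_num : (0 : ℝ) ≤ 6)]
    rw [e1, integral_const_mul, norm_sq_int v]
    unfold En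
    have k : Integrable (fun z => ‖v z 1‖ ^ 2 + ‖v z 2‖ ^ 2) muD :=
      (comp_int v 1).add (comp_int v 2)
    rw [← mul_assoc, mul_inv_cancel₀ (by norm_num : (6 : ℝ) ≠ 0), one_mul,
      ← integral_add (comp_int v 0) k]
    refine integral_congr_ae (Eventually.of_forall fun z => ?_)
    simp only
    rw [EuclideanSpace.norm_sq_eq, Fin.sum_univ_three, add_assoc]
  · intro f hf
    have hm := jet_memLp h h' hf
    refine ⟨hm.toLp, ⟨f, hf, hm.coeFn_toLp⟩, hm.coeFn_toLp, ?_, ?_⟩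
    · filter_upwards [pr_ae hm.toLp, hm.coeFn_toLp] with z e1 e2
      rw [e1, e2]
      show (√6 : ℂ)⁻¹ * ((√6 : ℂ) * f z) = f z
      have : (√6 : ℂ) ≠ 0 := by
        rw [Complex.ofReal_ne_zero]
        positivity
      rw [← mul_assoc, inv_mul_cancel₀ this, one_mul]
    · unfold En
      refine integral_congr_ae ?_
      filter_upwards [hm.coeFn_toLp] with z e2
      rw [e2]
      rfl
  · intro v hv
    obtain ⟨x, hx, hlim⟩ := mem_closure_iff_seq_limit.mp hv
    choose f hf hfx using hx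
    exact ⟨f, hf, x, hfx, hlim⟩

end FMZ
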