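import Pool.Agent.FMZ.SFIN

/-!
# FMZ, block S: S-WEAK (the equation of T)
-/

open Complex MeasureTheory Set Filter Topology
open UpperHalfPlane hiding I
open scoped ENNReal InnerProductSpace

namespace FMZ

namespace SWEAK_

theorem Poi_conj (P : ℍ → ℂ) (z : ℍ) :
    Poi (fun w => (starRingEnd ℂ) (P w)) z = (starRingEnd ℂ) (Poi P z) := by
  unfold Poi
  exact (Complex.conj_tsum _).symm

theorem ex_conj (f : ℍ → ℂ) : ex (fun z => (starRingEnd ℂ) (f z)) = Complex.conjCLE ∘ ex f := by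
  funext w
  rfl

theorem fderiv_conj (f : ℍ → ℂ) (z e : ℂ) :
    fderiv ℝ (ex (fun z => (starRingEnd ℂ) (f z))) z e = (starRingEnd ℂ) (fderiv ℝ (ex f) z e) := by
  rw [ex_conj, ContinuousLinearEquiv.comp_fderiv]
  rfl

theorem gx_conj (f : ℍ → ℂ) (z : ℍ) :
    gx (fun z => (starRingEnd ℂ) (f z)) z = (starRingEnd ℂ) (gx f z) := by
  unfold gx
  rw [fderiv_conj, map_mul, Complex.conj_ofReal]

theorem gy_conj (f : ℍ → ℂ) (z : ℍ) :
    gy (fun z => (starRingEnd ℂ) (f z)) z = (starRingEnd ℂ) (gy f z) := by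
  unfold gy
  rw [fderiv_conj, map_mul, Complex.conj_ofReal]

theorem pr_apply (v : H3) : (pr v : ℍ → ℂ) =ᵐ[muD] fun z => (√6 : ℂ)⁻¹ * v z 0 := by
  unfold pr
  filter_upwards [ContinuousLinearMap.coeFn_compLpL (p := 2) (μ := muD)
    (((√6 : ℂ)⁻¹) • (EuclideanSpace.proj (0 : Fin 3) : EuclideanSpace ℂ (Fin 3) →L[ℂ] ℂ)) v]
    with z hz
  rw [hz]
  simp

end SWEAK_

open SFIN_ SWEAK_

theorem pWEAK (h1 : sTR) (h2 : sVSUB) (h3 : sPSM) (h4 : sTBC) (h5 : sPBD) (h6 : sVOL) :
    sWEAK := by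
  intro u P hP
  obtain ⟨hBP, hBL, hTc⟩ := h4 P hP
  obtain ⟨s, hs, hsj, hsp, -⟩ := h2.2.2.1 _ (h3 _ hTc)
  have hcl : ∀ x : H3, x ∈ closure VS → x ∈ Vsub := fun x hx => by
    have : x ∈ (Vsub : Set H3) := by rw [h2.1]; exact hx
    exact this
  set s' : Vsub := ⟨s, hcl s (subset_closure hs)⟩ with hs'
  set v : Vsub := ContinuousLinearMap.adjoint prV u with hv
  have hvm : (v : H3) ∈ closure VS := by rw [← h2.1]; exact v.2
  have hw : pr (v : H3) = Tq u := rfl
  have hpi : (Poi (fun w => (starRingEnd ℂ) (P w))) = fun z => (starRingEnd ℂ) (Poi P z) :=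
    funext (Poi_conj P)
  -- first evaluation of the inner product
  have e1 : (inner ℂ (s : H3) (v : H3) : ℂ) = ∫ z, u z * Poi P z ∂muD := by
    have a1 : (inner ℂ (s : H3) (v : H3) : ℂ) = inner ℂ s' v := rfl
    have a2 : (inner ℂ s' v : ℂ) = inner ℂ (prV s') u := by
      rw [hv, ContinuousLinearMap.adjoint_inner_right]
    have a3 : prV s' = pr s := rfl
    rw [a1, a2, a3, L2.inner_def]
    refine integral_congr_ae ?_
    filter_upwards [hsp] with z hz
    rw [hz, hpi]
    simp [RCLike.inner_apply]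
  -- second evaluation
  have e2 : (inner ℂ (s : H3) (v : H3) : ℂ) = ∫ z, (6 * (Tq u z * Poi P z) +
      ((v : H3) z 1 * gx (Poi P) z + (v : H3) z 2 * gy (Poi P) z)) ∂muD := by
    rw [L2.inner_def]
    refine integral_congr_ae ?_
    filter_upwards [hsj, pr_apply (v : H3)] with z hz hz2
    rw [hz, ← hw, hz2, hpi]
    have h6' : (√6 : ℂ) * (√6 : ℂ) = 6 := by
      rw [← Complex.ofReal_mul, Real.mul_self_sqrt (by norm_num)]
      norm_num
    have h60 : (√6 : ℂ) ≠ 0 := by
      intro h0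
      rw [h0] at h6'
      norm_num at h6'
    simp only [PiLp.inner_apply, jet, Fin.sum_univ_three, RCLike.inner_apply]
    simp only [gx_conj, gy_conj]
    have : (6 : ℂ) * ((√6 : ℂ)⁻¹ * (v : H3) z 0 * Poi P z) = (v : H3) z 0 * ((√6 : ℂ) * Poi P z) := by
      rw [← h6']
      field_simp
    rw [this]
    simp
    ring
  have i1 : Integrable (fun z => Tq u z * Poi P z) muD := integrable_pair h6 h5 hBP (Lp.memLp _)
  have i2 : Integrable (fun z => 6 * (Tq u z * Poi P z) +
      ((v : H3) z 1 * gx (Poi P) z + (v : H3) z 2 * gy (Poi P) z)) muD := by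
    have := L2.integrable_inner (𝕜 := ℂ) (s : H3) (v : H3)
    refine this.congr ?_
    filter_upwards [hsj, pr_apply (v : H3)] with z hz hz2
    rw [hz, ← hw, hz2, hpi]
    have h6' : (√6 : ℂ) * (√6 : ℂ) = 6 := by
      rw [← Complex.ofReal_mul, Real.mul_self_sqrt (by norm_num)]
      norm_num
    have h60 : (√6 : ℂ) ≠ 0 := by
      intro h0
      rw [h0] at h6'
      norm_num at h6'
    simp only [PiLp.inner_apply, jet, Fin.sum_univ_three, RCLike.inner_apply]
    simp only [gx_conj, gy_conj]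
    have : (6 : ℂ) * ((√6 : ℂ)⁻¹ * (v : H3) z 0 * Poi P z) = (v : H3) z 0 * ((√6 : ℂ) * Poi P z) := by
      rw [← h6']
      field_simp
    rw [this]
    simp
    ring
  have i3 : Integrable (fun z => (v : H3) z 1 * gx (Poi P) z + (v : H3) z 2 * gy (Poi P) z) muD := by
    have := i2.sub (i1.const_mul 6)
    refine this.congr (Eventually.of_forall fun z => ?_)
    simp only [Pi.sub_apply]
    ring
  have htr := h1 (v : H3) hvm P hP
  rw [integral_add (i1.const_mul 6) i3, integral_const_mul, htr, hw] at e2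
  unfold Lam
  rw [e1] at e2
  rw [e2]
  ring

end FMZ
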