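import Pool.Agent.FMZ.STargets

/-! # FMZ, block S: the functions X(x/y) W(log|z|/n) -/

set_option linter.unusedVariables false

open Complex MeasureTheory Set Filter Topology
open UpperHalfPlane hiding I
open scoped ENNReal InnerProductSpace

namespace FMZ

namespace SXW_

/-- second derivative along a line -/
theorem second {g : ℂ → ℂ} (hg : ContDiffOn ℝ (⊤ : ℕ∞) g {w : ℂ | 0 < w.im}) {w v : ℂ}
    (hw : 0 < w.im) {φ φ1 : ℝ → ℝ} {c : ℝ}
    (h0 : ∀ᶠ s : ℝ in 𝓝 0, g (w + (s : ℂ) * v) = (φ s : ℂ))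
    (h1 : ∀ᶠ s : ℝ in 𝓝 0, HasDerivAt φ (φ1 s) s) (h2 : HasDerivAt φ1 c 0) :
    fderiv ℝ (fun w => fderiv ℝ g w v) w v = (c : ℂ) := by
  have hopen : IsOpen {w : ℂ | 0 < w.im} := isOpen_lt continuous_const Complex.continuous_im
  have hline : ∀ s : ℝ, HasDerivAt (fun s : ℝ => w + (s : ℂ) * v) v s := by
    intro s
    have h := ((Complex.ofRealCLM.hasDerivAt (x := s)).mul_const v).const_add w
    simpa using h
  have hcont : Continuous (fun s : ℝ => w + (s : ℂ) * v) := by fun_prop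
  have hmem : ∀ᶠ s : ℝ in 𝓝 0, w + (s : ℂ) * v ∈ {w : ℂ | 0 < w.im} := by
    apply hcont.continuousAt.eventually_mem
    apply hopen.mem_nhds
    simpa using hw
  have hd1 : ∀ u ∈ {w : ℂ | 0 < w.im}, DifferentiableAt ℝ g u := by
    intro u hu
    exact (hg.contDiffAt (hopen.mem_nhds hu)).differentiableAt (by simp)
  have hder : ∀ᶠ s : ℝ in 𝓝 0, fderiv ℝ g (w + (s : ℂ) * v) v = (φ1 s : ℂ) := by
    filter_upwards [hmem, h1, h0.eventually_nhds] with s hs h1s h0s
    have e1 : HasDerivAt (fun s : ℝ => g (w + (s : ℂ) * v)) (fderiv ℝ g (w + (s : ℂ) * v) v) s :=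
      (hd1 _ hs).hasFDerivAt.comp_hasDerivAt s (hline s)
    have e2 : HasDerivAt (fun s : ℝ => ((φ s : ℝ) : ℂ)) ((φ1 s : ℝ) : ℂ) s := h1s.ofReal_comp
    have e3 : HasDerivAt (fun s : ℝ => g (w + (s : ℂ) * v)) ((φ1 s : ℝ) : ℂ) s :=
      e2.congr_of_eventuallyEq h0s
    exact e1.unique e3
  have hd2 : DifferentiableAt ℝ (fun w => fderiv ℝ g w v) w := by
    have h3 : ContDiffOn ℝ (⊤ : ℕ∞) (fderiv ℝ g) {w : ℂ | 0 < w.im} :=
      hg.fderiv_of_isOpen hopen (by simp)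
    have h4 : DifferentiableAt ℝ (fderiv ℝ g) w :=
      (h3.contDiffAt (hopen.mem_nhds hw)).differentiableAt (by simp)
    exact h4.clm_apply (differentiableAt_const v)
  have e4 : HasDerivAt (fun s : ℝ => fderiv ℝ g (w + (s : ℂ) * v) v)
      (fderiv ℝ (fun w => fderiv ℝ g w v) w v) 0 := by
    have h5 : HasFDerivAt (fun w => fderiv ℝ g w v) (fderiv ℝ (fun w => fderiv ℝ g w v) w)
        (w + ((0 : ℝ) : ℂ) * v) := by
      simpa using hd2.hasFDerivAt
    exact h5.comp_hasDerivAt 0 (hline 0)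
  have e5 : HasDerivAt (fun s : ℝ => fderiv ℝ g (w + (s : ℂ) * v) v) (c : ℂ) 0 :=
    h2.ofReal_comp.congr_of_eventuallyEq hder
  exact e4.unique e5

/-- the real function of a complex variable -/
noncomputable def G (X W : ℝ → ℝ) (n : ℕ) (w : ℂ) : ℝ :=
  X (w.re / w.im) * W (Real.log (w.re ^ 2 + w.im ^ 2) / 2 / n)

theorem ex_eq (X W : ℝ → ℝ) (n : ℕ) {w : ℂ} (hw : 0 < w.im) :
    ex (XW X W n) w = (G X W n w : ℂ) := by
  unfold ex XW G
  have h1 : ((ofComplex w : ℍ) : ℂ) = w := by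
    rw [ofComplex_apply_of_im_pos hw]
  have h2 : (ofComplex w : ℍ).re = w.re := by
    rw [← UpperHalfPlane.coe_re, h1]
  have h3 : (ofComplex w : ℍ).im = w.im := by
    rw [← UpperHalfPlane.coe_im, h1]
  have h4 : Real.log ‖w‖ = Real.log (w.re ^ 2 + w.im ^ 2) / 2 := by
    rw [Complex.norm_eq_sqrt_sq_add_sq, Real.log_sqrt (by positivity)]
  rw [h1, h2, h3, h4]

theorem pos_N {w : ℂ} (hw : 0 < w.im) : 0 < w.re ^ 2 + w.im ^ 2 := by positivity

theorem smooth {X W : ℝ → ℝ} (n : ℕ) (hX : ContDiff ℝ (⊤ : ℕ∞) X)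
    (hW : ContDiff ℝ (⊤ : ℕ∞) W) : Sm (XW X W n) := by
  have h0 : ContDiffOn ℝ (⊤ : ℕ∞) (G X W n) {w : ℂ | 0 < w.im} := by
    unfold G
    have hre : ContDiff ℝ (⊤ : ℕ∞) (fun w : ℂ => w.re) := Complex.reCLM.contDiff
    have him : ContDiff ℝ (⊤ : ℕ∞) (fun w : ℂ => w.im) := Complex.imCLM.contDiff
    apply ContDiffOn.mul
    · apply hX.comp_contDiffOn
      exact hre.contDiffOn.div him.contDiffOn (fun w hw => ne_of_gt hw)
    · apply hW.comp_contDiffOn
      apply ContDiffOn.div_const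
      apply ContDiffOn.div_const
      apply ContDiffOn.log
      · exact ((hre.pow 2).add (him.pow 2)).contDiffOn
      · intro w hw
        exact ne_of_gt (pos_N hw)
  have h1 : ContDiffOn ℝ (⊤ : ℕ∞) (fun w : ℂ => ((G X W n w : ℝ) : ℂ)) {w : ℂ | 0 < w.im} :=
    Complex.ofRealCLM.contDiff.comp_contDiffOn h0
  unfold Sm
  exact h1.congr fun w hw => ex_eq X W n hw

/-! ### derivatives along a line -/

section line

variable {X W : ℝ → ℝ} {x y p q : ℝ} {n : ℕ}

theorem hasDeriv_t {s : ℝ} (hs : 0 < y + s * q) : HasDerivAt (fun s : ℝ => (x + s * p) / (y + s * q))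
    ((p * y - q * x) / (y + s * q) ^ 2) s := by
  have h1 : HasDerivAt (fun s : ℝ => x + s * p) p s := by
    simpa using ((hasDerivAt_id s).mul_const p).const_add x
  have h2 : HasDerivAt (fun s : ℝ => y + s * q) q s := by
    simpa using ((hasDerivAt_id s).mul_const q).const_add y
  have h3 := h1.fun_div h2 (ne_of_gt hs)
  refine h3.congr_deriv ?_
  congr 1
  ring

theorem hasDeriv_r {s : ℝ} (hs : 0 < y + s * q) :
    HasDerivAt (fun s : ℝ => Real.log ((x + s * p) ^ 2 + (y + s * q) ^ 2) / 2 / n)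
    (((x + s * p) * p + (y + s * q) * q) / ((x + s * p) ^ 2 + (y + s * q) ^ 2) / n) s := by
  have h1 : HasDerivAt (fun s : ℝ => x + s * p) p s := by
    simpa using ((hasDerivAt_id s).mul_const p).const_add x
  have h2 : HasDerivAt (fun s : ℝ => y + s * q) q s := by
    simpa using ((hasDerivAt_id s).mul_const q).const_add y
  have h3 : HasDerivAt (fun s : ℝ => (x + s * p) ^ 2 + (y + s * q) ^ 2)
      (2 * (x + s * p) * p + 2 * (y + s * q) * q) s := by
    have := (h1.fun_pow 2).fun_add (h2.fun_pow 2)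
    simpa using this
  have hN : (x + s * p) ^ 2 + (y + s * q) ^ 2 ≠ 0 := by positivity
  have h4 := ((h3.log hN).div_const 2).div_const (n : ℝ)
  refine h4.congr_deriv ?_
  field_simp

/-- first derivative -/
noncomputable def phi1 (X W : ℝ → ℝ) (x y p q : ℝ) (n : ℕ) (s : ℝ) : ℝ :=
  deriv X ((x + s * p) / (y + s * q)) * ((p * y - q * x) / (y + s * q) ^ 2) *
    W (Real.log ((x + s * p) ^ 2 + (y + s * q) ^ 2) / 2 / n) +
  X ((x + s * p) / (y + s * q)) *
    (deriv W (Real.log ((x + s * p) ^ 2 + (y + s * q) ^ 2) / 2 / n) *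
    (((x + s * p) * p + (y + s * q) * q) / ((x + s * p) ^ 2 + (y + s * q) ^ 2) / n))

theorem hasDeriv_phi (hX : ContDiff ℝ (⊤ : ℕ∞) X) (hW : ContDiff ℝ (⊤ : ℕ∞) W) {s : ℝ}
    (hs : 0 < y + s * q) :
    HasDerivAt (fun s : ℝ => X ((x + s * p) / (y + s * q)) *
      W (Real.log ((x + s * p) ^ 2 + (y + s * q) ^ 2) / 2 / n)) (phi1 X W x y p q n s) s := by
  have hX1 : HasDerivAt X (deriv X ((x + s * p) / (y + s * q))) ((x + s * p) / (y + s * q)) :=
    (hX.differentiable (by simp)).differentiableAt.hasDerivAt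
  have hW1 : HasDerivAt W (deriv W (Real.log ((x + s * p) ^ 2 + (y + s * q) ^ 2) / 2 / n))
      (Real.log ((x + s * p) ^ 2 + (y + s * q) ^ 2) / 2 / n) :=
    (hW.differentiable (by simp)).differentiableAt.hasDerivAt
  have h1 := (hX1.comp s (hasDeriv_t (x := x) (p := p) hs)).mul
    (hW1.comp s (hasDeriv_r (x := x) (p := p) (n := n) hs))
  exact h1

theorem hasDeriv_phi1 (hX : ContDiff ℝ (⊤ : ℕ∞) X) (hW : ContDiff ℝ (⊤ : ℕ∞) W) (hy : 0 < y) :
    HasDerivAt (phi1 X W x y p q n)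
      (deriv (deriv X) (x / y) * ((p * y - q * x) / y ^ 2) ^ 2 *
          W (Real.log (x ^ 2 + y ^ 2) / 2 / n) +
        deriv X (x / y) * (-2 * q * (p * y - q * x) / y ^ 3) *
          W (Real.log (x ^ 2 + y ^ 2) / 2 / n) +
        2 * deriv X (x / y) * ((p * y - q * x) / y ^ 2) *
          (deriv W (Real.log (x ^ 2 + y ^ 2) / 2 / n) * ((x * p + y * q) / (x ^ 2 + y ^ 2) / n)) +
        X (x / y) * (deriv (deriv W) (Real.log (x ^ 2 + y ^ 2) / 2 / n) *
          ((x * p + y * q) / (x ^ 2 + y ^ 2) / n) ^ 2) +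
        X (x / y) * (deriv W (Real.log (x ^ 2 + y ^ 2) / 2 / n) *
          (((p ^ 2 + q ^ 2) * (x ^ 2 + y ^ 2) - 2 * (x * p + y * q) ^ 2) /
            (x ^ 2 + y ^ 2) ^ 2 / n))) 0 := by
  have hs : 0 < y + (0 : ℝ) * q := by simpa using hy
  have e1 : x + (0 : ℝ) * p = x := by ring
  have e2 : y + (0 : ℝ) * q = y := by ring
  have hX1 : HasDerivAt X (deriv X (x / y)) (x / y) :=
    (hX.differentiable (by simp)).differentiableAt.hasDerivAt
  have hW1 : HasDerivAt W (deriv W (Real.log (x ^ 2 + y ^ 2) / 2 / n))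
      (Real.log (x ^ 2 + y ^ 2) / 2 / n) :=
    (hW.differentiable (by simp)).differentiableAt.hasDerivAt
  have hX' : ContDiff ℝ (⊤ : ℕ∞) (deriv X) := by
    have := hX.iterate_deriv 1
    simpa using this
  have hW' : ContDiff ℝ (⊤ : ℕ∞) (deriv W) := by
    have := hW.iterate_deriv 1
    simpa using this
  have hX2 : HasDerivAt (deriv X) (deriv (deriv X) (x / y)) (x / y) :=
    (hX'.differentiable (by simp)).differentiableAt.hasDerivAt
  have hW2 : HasDerivAt (deriv W) (deriv (deriv W) (Real.log (x ^ 2 + y ^ 2) / 2 / n))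
      (Real.log (x ^ 2 + y ^ 2) / 2 / n) :=
    (hW'.differentiable (by simp)).differentiableAt.hasDerivAt
  have ht := hasDeriv_t (x := x) (p := p) hs
  have hr := hasDeriv_r (x := x) (p := p) (n := n) hs
  rw [e1, e2] at hr
  rw [e2] at ht
  have l1 : HasDerivAt (fun s : ℝ => x + s * p) p 0 := by
    simpa using ((hasDerivAt_id (0 : ℝ)).mul_const p).const_add x
  have l2 : HasDerivAt (fun s : ℝ => y + s * q) q 0 := by
    simpa using ((hasDerivAt_id (0 : ℝ)).mul_const q).const_add y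
  have hXt : HasDerivAt (fun s : ℝ => X ((x + s * p) / (y + s * q)))
      (deriv X (x / y) * ((p * y - q * x) / y ^ 2)) 0 := by
    refine HasDerivAt.comp (0 : ℝ) (h₂ := X) ?_ ht
    rw [e1, e2]; exact hX1
  have hX't : HasDerivAt (fun s : ℝ => deriv X ((x + s * p) / (y + s * q)))
      (deriv (deriv X) (x / y) * ((p * y - q * x) / y ^ 2)) 0 := by
    refine HasDerivAt.comp (0 : ℝ) (h₂ := deriv X) ?_ ht
    rw [e1, e2]; exact hX2
  have hWr : HasDerivAt (fun s : ℝ => W (Real.log ((x + s * p) ^ 2 + (y + s * q) ^ 2) / 2 / n))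
      (deriv W (Real.log (x ^ 2 + y ^ 2) / 2 / n) * ((x * p + y * q) / (x ^ 2 + y ^ 2) / n)) 0 := by
    refine HasDerivAt.comp (0 : ℝ) (h₂ := W) ?_ hr
    rw [e1, e2]; exact hW1
  have hW'r : HasDerivAt
      (fun s : ℝ => deriv W (Real.log ((x + s * p) ^ 2 + (y + s * q) ^ 2) / 2 / n))
      (deriv (deriv W) (Real.log (x ^ 2 + y ^ 2) / 2 / n) *
        ((x * p + y * q) / (x ^ 2 + y ^ 2) / n)) 0 := by
    refine HasDerivAt.comp (0 : ℝ) (h₂ := deriv W) ?_ hr
    rw [e1, e2]; exact hW2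
  have ht' : HasDerivAt (fun s : ℝ => (p * y - q * x) / (y + s * q) ^ 2)
      (-2 * q * (p * y - q * x) / y ^ 3) 0 := by
    have h1 := (hasDerivAt_const (0 : ℝ) (p * y - q * x)).fun_div (l2.fun_pow 2)
      (by rw [e2]; positivity)
    refine h1.congr_deriv ?_
    rw [e2]
    field_simp
    ring
  have hN : HasDerivAt (fun s : ℝ => (x + s * p) ^ 2 + (y + s * q) ^ 2)
      (2 * x * p + 2 * y * q) 0 := by
    have := (l1.fun_pow 2).fun_add (l2.fun_pow 2)
    simpa using this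
  have hr' : HasDerivAt (fun s : ℝ => ((x + s * p) * p + (y + s * q) * q) /
      ((x + s * p) ^ 2 + (y + s * q) ^ 2) / n)
      (((p ^ 2 + q ^ 2) * (x ^ 2 + y ^ 2) - 2 * (x * p + y * q) ^ 2) /
            (x ^ 2 + y ^ 2) ^ 2 / n) 0 := by
    have h1 := (((l1.mul_const p).fun_add (l2.mul_const q)).fun_div hN
      (by rw [e1, e2]; positivity)).div_const (n : ℝ)
    refine h1.congr_deriv ?_
    rw [e1, e2]
    congr 1
    congr 1
    ring
  have h := ((hX't.fun_mul ht').fun_mul hWr).fun_add (hXt.fun_mul (hW'r.fun_mul hr'))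
  have h2 : HasDerivAt (phi1 X W x y p q n) _ 0 := h
  refine h2.congr_deriv ?_
  simp only [e1, e2]
  ring

end line

theorem XW_eq (X W : ℝ → ℝ) (n : ℕ) (z : ℍ) : XW X W n z = (G X W n (z : ℂ) : ℂ) := by
  have h := ex_eq X W n (w := (z : ℂ)) z.im_pos
  unfold ex at h
  rwa [ofComplex_apply] at h

theorem DX_eq {X : ℝ → ℝ} (hX : ContDiff ℝ (⊤ : ℕ∞) X) (t : ℝ) :
    DX X t = -(2 * t * deriv X t + (1 + t ^ 2) * deriv (deriv X) t) := by
  unfold DX
  have hX' : ContDiff ℝ (⊤ : ℕ∞) (deriv X) := by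
    have := hX.iterate_deriv 1
    simpa using this
  have h1 : HasDerivAt (fun x : ℝ => 1 + x ^ 2) (2 * t) t := by
    have := ((hasDerivAt_id t).fun_pow 2).const_add 1
    simpa using this
  have h2 : HasDerivAt (deriv X) (deriv (deriv X) t) t :=
    (hX'.differentiable (by simp)).differentiableAt.hasDerivAt
  rw [(h1.fun_mul h2).deriv]

theorem second_XW {X W : ℝ → ℝ} {n : ℕ} (hX : ContDiff ℝ (⊤ : ℕ∞) X)
    (hW : ContDiff ℝ (⊤ : ℕ∞) W) (z : ℍ) (v : ℂ) :
    fderiv ℝ (fun w => fderiv ℝ (ex (XW X W n)) w v) (z : ℂ) v =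
      ((deriv (deriv X) (z.re / z.im) * ((v.re * z.im - v.im * z.re) / z.im ^ 2) ^ 2 *
          W (Real.log (z.re ^ 2 + z.im ^ 2) / 2 / n) +
        deriv X (z.re / z.im) * (-2 * v.im * (v.re * z.im - v.im * z.re) / z.im ^ 3) *
          W (Real.log (z.re ^ 2 + z.im ^ 2) / 2 / n) +
        2 * deriv X (z.re / z.im) * ((v.re * z.im - v.im * z.re) / z.im ^ 2) *
          (deriv W (Real.log (z.re ^ 2 + z.im ^ 2) / 2 / n) *
            ((z.re * v.re + z.im * v.im) / (z.re ^ 2 + z.im ^ 2) / n)) +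
        X (z.re / z.im) * (deriv (deriv W) (Real.log (z.re ^ 2 + z.im ^ 2) / 2 / n) *
          ((z.re * v.re + z.im * v.im) / (z.re ^ 2 + z.im ^ 2) / n) ^ 2) +
        X (z.re / z.im) * (deriv W (Real.log (z.re ^ 2 + z.im ^ 2) / 2 / n) *
          (((v.re ^ 2 + v.im ^ 2) * (z.re ^ 2 + z.im ^ 2) -
            2 * (z.re * v.re + z.im * v.im) ^ 2) /
            (z.re ^ 2 + z.im ^ 2) ^ 2 / n)) : ℝ) : ℂ) := by
  have hev : ∀ᶠ s : ℝ in 𝓝 0, 0 < z.im + s * v.im := by
    have hc : Continuous (fun s : ℝ => z.im + s * v.im) := by fun_prop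
    apply hc.continuousAt.eventually (p := fun t => 0 < t)
    apply lt_mem_nhds
    simpa using z.im_pos
  refine second (φ := fun s : ℝ => X ((z.re + s * v.re) / (z.im + s * v.im)) *
      W (Real.log ((z.re + s * v.re) ^ 2 + (z.im + s * v.im) ^ 2) / 2 / n))
    (φ1 := phi1 X W z.re z.im v.re v.im n) (smooth n hX hW) z.im_pos ?_ ?_
    (hasDeriv_phi1 hX hW z.im_pos)
  · filter_upwards [hev] with s hs
    have him : ((z : ℂ) + (s : ℂ) * v).im = z.im + s * v.im := by simp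
    have hre : ((z : ℂ) + (s : ℂ) * v).re = z.re + s * v.re := by simp
    rw [ex_eq X W n (by rw [him]; exact hs)]
    unfold G
    rw [him, hre]
  · filter_upwards [hev] with s hs
    exact hasDeriv_phi hX hW hs

theorem lap_eq {X W : ℝ → ℝ} {n : ℕ} (hX : ContDiff ℝ (⊤ : ℕ∞) X)
    (hW : ContDiff ℝ (⊤ : ℕ∞) W) (hn : 1 ≤ n) (z : ℍ) :
    lap (XW X W n) z = XW (DX X) W n z -
    1 / (n : ℂ) ^ 2 * XW (fun t => X t / (1 + t ^ 2)) (iteratedDeriv 2 W) n z := by
  unfold lap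
  rw [second_XW hX hW, second_XW hX hW, XW_eq, XW_eq]
  have hy := z.im_pos
  have hn' : (n : ℝ) ≠ 0 := by
    have : 0 < n := hn
    positivity
  have hN : z.re ^ 2 + z.im ^ 2 ≠ 0 := by positivity
  have h2 : iteratedDeriv 2 W = deriv (deriv W) := by
    rw [iteratedDeriv_succ, iteratedDeriv_one]
  unfold G
  rw [h2, DX_eq hX]
  simp only [UpperHalfPlane.coe_re, UpperHalfPlane.coe_im, Complex.one_re, Complex.one_im,
    Complex.I_re, Complex.I_im]
  have hq : 1 + (z.re / z.im) ^ 2 ≠ 0 := by positivity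
  generalize deriv (deriv X) (z.re / z.im) = X2
  generalize deriv X (z.re / z.im) = X1
  generalize X (z.re / z.im) = X0
  generalize deriv (deriv W) (Real.log (z.re ^ 2 + z.im ^ 2) / 2 / n) = W2
  generalize deriv W (Real.log (z.re ^ 2 + z.im ^ 2) / 2 / n) = W1
  generalize W (Real.log (z.re ^ 2 + z.im ^ 2) / 2 / n) = W0
  have e : ((n : ℕ) : ℂ) = (((n : ℝ)) : ℂ) := by simp
  rw [e, ← Complex.ofReal_pow, ← Complex.ofReal_neg, ← Complex.ofReal_add, ← Complex.ofReal_mul,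
    ← Complex.ofReal_one, ← Complex.ofReal_pow, ← Complex.ofReal_div, ← Complex.ofReal_mul,
    ← Complex.ofReal_sub]
  congr 1
  field_simp
  ring

/-- the compact set -/
theorem isCompact_K (A : ℝ) (n : ℕ) : IsCompact {z : ℍ | |z.re| ≤ A * z.im ∧
    Real.exp (-(2 * n)) ≤ ‖(z : ℂ)‖ ∧ ‖(z : ℂ)‖ ≤ Real.exp (2 * n)} := by
  rw [isEmbedding_coe.isCompact_iff (f := ((↑) : ℍ → ℂ))]
  have himg : ((↑) : ℍ → ℂ) '' {z : ℍ | |z.re| ≤ A * z.im ∧
    Real.exp (-(2 * n)) ≤ ‖(z : ℂ)‖ ∧ ‖(z : ℂ)‖ ≤ Real.exp (2 * n)} =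
    {w : ℂ | 0 ≤ w.im ∧ |w.re| ≤ A * w.im ∧
      Real.exp (-(2 * n)) ≤ ‖w‖ ∧ ‖w‖ ≤ Real.exp (2 * n)} := by
    ext w
    constructor
    · rintro ⟨z, ⟨h1, h2, h3⟩, rfl⟩
      exact ⟨z.im_pos.le, h1, h2, h3⟩
    · rintro ⟨h0, h1, h2, h3⟩
      have him : 0 < w.im := by
        rcases h0.lt_or_eq with h | h
        · exact h
        · exfalso
          rw [← h, mul_zero] at h1
          have hre : w.re = 0 := abs_eq_zero.mp (le_antisymm h1 (abs_nonneg _))
          have hw : w = 0 := Complex.ext hre h.symm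
          rw [hw, norm_zero] at h2
          exact absurd h2 (not_le.mpr (Real.exp_pos _))
      exact ⟨⟨w, him⟩, ⟨h1, h2, h3⟩, rfl⟩
  rw [himg]
  apply Metric.isCompact_of_isClosed_isBounded
  · refine IsClosed.and ?_ (IsClosed.and ?_ (IsClosed.and ?_ ?_))
    · exact isClosed_le continuous_const Complex.continuous_im
    · exact isClosed_le (Complex.continuous_re.abs) (continuous_const.mul Complex.continuous_im)
    · exact isClosed_le continuous_const continuous_norm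
    · exact isClosed_le continuous_norm continuous_const
  · refine (Metric.isBounded_closedBall (x := (0 : ℂ)) (r := Real.exp (2 * n))).subset ?_
    rintro w ⟨-, -, -, h⟩
    simpa using h

theorem cpt {X W : ℝ → ℝ} {n : ℕ} (hX : HasCompactSupport X)
    (hW : ∀ x, 2 ≤ |x| → W x = 0) (hn : 1 ≤ n) : HasCompactSupport (XW X W n) := by
  obtain ⟨A, hA⟩ := hX.isCompact.isBounded.exists_norm_le
  refine HasCompactSupport.intro (isCompact_K A n) ?_
  intro z hz
  by_contra h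
  apply hz
  unfold XW at h
  have h' : X (z.re / z.im) * W (Real.log ‖(z : ℂ)‖ / n) ≠ 0 := by
    intro h0
    exact h (by rw [h0]; simp)
  have hX0 : X (z.re / z.im) ≠ 0 := left_ne_zero_of_mul h'
  have hW0 : W (Real.log ‖(z : ℂ)‖ / n) ≠ 0 := right_ne_zero_of_mul h'
  have hn' : (0 : ℝ) < n := by
    have : 0 < n := hn
    exact_mod_cast this
  have h1 : |z.re / z.im| ≤ A := hA _ (subset_tsupport _ hX0)
  have h2 : |Real.log ‖(z : ℂ)‖ / n| < 2 := by
    by_contra h3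
    exact hW0 (hW _ (not_lt.mp h3))
  have hz0 : 0 < ‖(z : ℂ)‖ := by
    rw [norm_pos_iff]
    exact z.ne_zero
  rw [abs_lt, lt_div_iff₀ hn', div_lt_iff₀ hn'] at h2
  refine ⟨?_, ?_, ?_⟩
  · rw [abs_div, abs_of_pos z.im_pos, div_le_iff₀ z.im_pos] at h1
    exact h1
  · rw [← Real.le_log_iff_exp_le hz0]
    linarith [h2.1]
  · rw [← Real.log_le_iff_le_exp hz0]
    exact h2.2.le

end SXW_

theorem pXW : sXW := by
  intro X W n hX hW hW0 hn
  exact ⟨⟨SXW_.smooth n hX.1 hW, SXW_.cpt hX.2 hW0 hn⟩, SXW_.lap_eq hX.1 hW hn⟩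

end FMZ
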