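import Pool.Agent.FMZ.STargets

/-!
# FMZ, block S: zero constant term in the horn
-/

open Complex MeasureTheory Set Filter Topology
open UpperHalfPlane hiding I
open scoped ENNReal ContDiff

namespace FMZ

namespace SZC_

/-- the base interval -/
def Ix : Set ℝ := Ioo (-(1 / 2) : ℝ) (1 / 2)

/-- the horn in real coordinates -/
def Dr : Set (ℝ × ℝ) := Ix ×ˢ Ioi 1

lemma measurable_Ix : MeasurableSet Ix := measurableSet_Ioo

lemma measurable_Dr : MeasurableSet Dr := measurable_Ix.prod measurableSet_Ioi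

lemma Dh_eq : Dh = (fun z : ℍ => (z.re, z.im)) ⁻¹' Dr := by
  ext z
  unfold Dh Dr Ix
  simp only [mem_ofPred_eq, mem_preimage, mem_prod, mem_Ioo, mem_Ioi, abs_lt]

/-- the density -/
noncomputable def rho (p : ℝ × ℝ) : ℝ≥0∞ := ENNReal.ofReal (1 / p.2 ^ 2)

lemma measurable_rho : Measurable rho := by
  unfold rho
  fun_prop

lemma rho_lt (p : ℝ × ℝ) : rho p < (⊤ : ℝ≥0∞) := ENNReal.ofReal_lt_top

lemma rho_toReal (p : ℝ × ℝ) : (rho p).toReal = 1 / p.2 ^ 2 := by
  unfold rho
  exact ENNReal.toReal_ofReal (by positivity)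

lemma restrict_eq : (((volume : Measure (ℝ × ℝ)).restrict {p | 0 < p.2}).withDensity
      fun p => ENNReal.ofReal (1 / p.2 ^ 2)).restrict Dr =
    ((volume : Measure (ℝ × ℝ)).restrict Dr).withDensity rho := by
  rw [restrict_withDensity measurable_Dr, Measure.restrict_restrict measurable_Dr]
  have e : Dr ∩ {p : ℝ × ℝ | 0 < p.2} = Dr := by
    apply inter_eq_left.mpr
    rintro ⟨x, y⟩ ⟨_, hy⟩
    have hy' : (1 : ℝ) < y := hy
    exact lt_trans one_pos hy'
  rw [e]
  rfl

/-- integration over the horn in real coordinates -/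
lemma coords (h2 : sCO) (f : ℍ → ℂ) :
    (IntegrableOn f Dh ↔
      IntegrableOn (fun p : ℝ × ℝ => (1 / p.2 ^ 2) • f (pt p.1 p.2)) Dr) ∧
    ∫ z in Dh, f z = ∫ p in Dr, (1 / p.2 ^ 2) • f (pt p.1 p.2) := by
  obtain ⟨c1, _, _, c4, c5⟩ := h2
  have e1 : (fun z : ℍ => (fun p : ℝ × ℝ => f (pt p.1 p.2)) (z.re, z.im)) = f := by
    funext z
    simp only [c1]
  have i1 := MeasurePreserving.setIntegral_preimage_emb c5 c4
    (fun p : ℝ × ℝ => f (pt p.1 p.2)) Dr
  have i2 := MeasurePreserving.integrableOn_comp_preimage c5 c4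
    (f := fun p : ℝ × ℝ => f (pt p.1 p.2)) (s := Dr)
  have e2 : (fun p : ℝ × ℝ => f (pt p.1 p.2)) ∘ (fun z : ℍ => (z.re, z.im)) = f := e1
  rw [e2, ← Dh_eq] at i2
  rw [← Dh_eq] at i1
  have e3 : ∫ z in Dh, (fun p : ℝ × ℝ => f (pt p.1 p.2)) (z.re, z.im) = ∫ z in Dh, f z := by
    rw [e1]
  rw [e3] at i1
  have hr : ∀ p : ℝ × ℝ, (rho p).toReal • f (pt p.1 p.2) = (1 / p.2 ^ 2) • f (pt p.1 p.2) :=
    fun p => by rw [rho_toReal]
  constructor
  · rw [i2]
    unfold IntegrableOn
    rw [restrict_eq, integrable_withDensity_iff_integrable_smul' measurable_rho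
      (Eventually.of_forall rho_lt)]
    simp only [hr]
  · rw [i1, restrict_eq, integral_withDensity_eq_integral_toReal_smul measurable_rho
      (Eventually.of_forall rho_lt)]
    simp only [hr]

lemma vol_Dr : (volume : Measure (ℝ × ℝ)).restrict Dr =
    ((volume : Measure ℝ).restrict Ix).prod ((volume : Measure ℝ).restrict (Ioi 1)) := by
  rw [Measure.prod_restrict]
  rfl

/-- Fubini in the horn -/
lemma fub (h2 : sCO) {f : ℍ → ℂ} (hf : IntegrableOn f Dh) :
    IntegrableOn (fun y : ℝ => ((1 / y ^ 2 : ℝ) : ℂ) * ∫ x in Ix, f (pt x y)) (Ioi 1) ∧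
    ∫ z in Dh, f z = ∫ y in Ioi (1 : ℝ), ((1 / y ^ 2 : ℝ) : ℂ) * ∫ x in Ix, f (pt x y) := by
  obtain ⟨i1, i2⟩ := coords h2 f
  have h := i1.mp hf
  unfold IntegrableOn at h
  rw [vol_Dr] at h
  have e : ∀ y : ℝ, ∫ x in Ix, (1 / y ^ 2) • f (pt x y) =
      ((1 / y ^ 2 : ℝ) : ℂ) * ∫ x in Ix, f (pt x y) := by
    intro y
    rw [← integral_const_mul]
    congr 1
  constructor
  · have := h.integral_prod_right
    simp only [e] at this
    exact this
  · rw [i2, vol_Dr, integral_prod_symm _ h]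
    simp only [e]

end SZC_

open SZC_ in
theorem pZC (h1 : sHI) (h2 : sCO) (h3 : sETA) (h4 : sVOL) (h5 : sCE) (h6 : sTBC) : sZC := by
  intro u hu hZ
  obtain ⟨⟨η, hη⟩, _⟩ := h3
  obtain ⟨v1, v2, v3, v4⟩ := h4
  have hfin : IsFiniteMeasure muD := by
    unfold muD
    exact isFiniteMeasure_restrict.mpr v1.ne
  have hui : Integrable u muD := hu.integrable (by norm_num)
  have huD : IntegrableOn u Dh := by
    have : IntegrableOn u Dm := hui
    exact this.mono_set v4
  -- the pairing with smooth functions of the height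
  have key : ∀ g : ℝ → ℝ, ContDiff ℝ ∞ g → HasCompactSupport g → tsupport g ⊆ Ioi 1 →
      ∫ z in Dh, u z * ((g z.im : ℝ) : ℂ) = 0 := by
    intro g hg hgc hgs
    have hg0 : ∀ y, y ≤ 1 → g y = 0 := by
      intro y hy
      by_contra hne
      exact absurd (hgs (subset_tsupport g hne)) (not_lt.mpr hy)
    have hchi : Chi g := by
      refine ⟨hg, ?_⟩
      obtain ⟨b, hb⟩ := hgc.isCompact.isBounded.exists_norm_le
      refine ⟨1, b, one_pos, ?_⟩
      rintro y (hy | hy)
      · exact hg0 y hy.le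
      · by_contra hne
        have := hb y (subset_tsupport g hne)
        rw [Real.norm_eq_abs] at this
        exact absurd ((le_abs_self y).trans this) (not_le.mpr hy)
    have hB : BC (ce g η) := (h6 _ (h5 g η hchi hη).1).1
    have hz0 : ∀ z : ℍ, z.im ≤ 1 → ce g η z = 0 := by
      intro z hz
      unfold ce
      rw [hg0 _ hz]
      simp
    have hP : ∀ z ∈ Dm, Poi (ce g η) z = 2 * ((g z.im : ℝ) : ℂ) := by
      intro z hz
      rw [h1 _ hB hz0 z hz]
      congr 1
      have e1 : ∀ m : ℤ, ce g η ((m : ℝ) +ᵥ z) = ((g z.im * η (z.re + m) : ℝ) : ℂ) := by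
        intro m
        unfold ce
        rw [UpperHalfPlane.vadd_im, UpperHalfPlane.vadd_re, add_comm (m : ℝ)]
      simp only [e1]
      rw [← Complex.ofReal_tsum, tsum_mul_left, hη.sum, mul_one]
    have h7 := hZ g η hchi hη
    unfold Lam at h7
    have e2 : ∫ z, u z * Poi (ce g η) z ∂muD = ∫ z, 2 * (u z * ((g z.im : ℝ) : ℂ)) ∂muD := by
      unfold muD
      apply setIntegral_congr_fun v2
      intro z hz
      simp only [hP z hz]
      ring
    rw [e2, integral_const_mul] at h7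
    have h8 : ∫ z, u z * ((g z.im : ℝ) : ℂ) ∂muD = 0 := by
      have : (1 / 2 : ℂ) * (2 * ∫ z, u z * ((g z.im : ℝ) : ℂ) ∂muD) =
        ∫ z, u z * ((g z.im : ℝ) : ℂ) ∂muD := by ring
      rw [← this]
      exact h7
    rw [← h8]
    unfold muD
    symm
    apply setIntegral_eq_of_subset_of_forall_sdiff_eq_zero v2 v4
    intro z hz
    have hle : z.im ≤ 1 := by
      by_contra hlt
      apply hz.2
      exact ⟨hz.1.2, not_le.mp hlt⟩
    rw [hg0 _ hle]
    simp
  -- the constant term
  set A : ℝ → ℂ := fun y => ((1 / y ^ 2 : ℝ) : ℂ) * ∫ x in Ix, u (pt x y) with hA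
  obtain ⟨hAi, _⟩ := fub h2 huD
  have hloc : LocallyIntegrableOn A (Ioi 1) := hAi.locallyIntegrableOn
  have hptim : ∀ x y : ℝ, 0 < y → (pt x y).im = y := fun x y hy => (h2.2.1 x y hy).2
  have hAz : ∀ᵐ y : ℝ, y ∈ Ioi (1 : ℝ) → A y = 0 := by
    apply isOpen_Ioi.ae_eq_zero_of_integral_contDiff_smul_eq_zero hloc
    intro g hg hgc hgs
    have hk := key g hg hgc hgs
    have hgint : IntegrableOn (fun z : ℍ => u z * ((g z.im : ℝ) : ℂ)) Dh := by
      obtain ⟨C, hC⟩ := hgc.exists_bound_of_continuous hg.continuous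
      apply Integrable.mul_bdd (c := C) huD
      · have : Continuous (fun z : ℍ => ((g z.im : ℝ) : ℂ)) :=
          Complex.continuous_ofReal.comp (hg.continuous.comp UpperHalfPlane.continuous_im)
        exact this.aestronglyMeasurable
      · apply Eventually.of_forall
        intro z
        rw [Complex.norm_real]
        exact hC _
    obtain ⟨_, h9⟩ := fub h2 hgint
    rw [hk] at h9
    have e3 : ∫ y : ℝ, g y • A y = ∫ y in Ioi (1 : ℝ), g y • A y := by
      symm
      apply setIntegral_eq_integral_of_forall_compl_eq_zero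
      intro y hy
      have : g y = 0 := by
        by_contra hne
        exact hy (hgs (subset_tsupport g hne))
      rw [this, zero_smul]
    rw [e3, h9]
    apply setIntegral_congr_fun measurableSet_Ioi
    intro y hy
    have hy0 : 0 < y := lt_trans one_pos hy
    simp only [hA]
    have e4 : ∫ x in Ix, u (pt x y) * ((g (pt x y).im : ℝ) : ℂ) =
        (∫ x in Ix, u (pt x y)) * ((g y : ℝ) : ℂ) := by
      rw [← integral_mul_const]
      congr 1
      funext x
      rw [hptim x y hy0]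
    rw [e4, Complex.real_smul]
    ring
  have hZ2 : ∀ᵐ y : ℝ, 1 < y → ∫ x in Ioo (-(1 / 2) : ℝ) (1 / 2), u (pt x y) = 0 := by
    filter_upwards [hAz] with y hy h1y
    have h10 := hy h1y
    have hy0 : (0 : ℝ) < y := lt_trans one_pos h1y
    rcases mul_eq_zero.mp h10 with h11 | h11
    · exfalso
      have : (1 / y ^ 2 : ℝ) ≠ 0 := by positivity
      exact this (by exact_mod_cast h11)
    · exact h11
  refine ⟨hZ2, ?_⟩
  intro b _ hb
  rw [(fub h2 hb).2]
  rw [setIntegral_congr_ae (g := fun _ : ℝ => (0 : ℂ)) measurableSet_Ioi]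
  · simp
  · filter_upwards [hZ2] with y hy h1y
    have hy0 : 0 < y := lt_trans one_pos h1y
    have e4 : ∫ x in Ix, u (pt x y) * b (pt x y).im = (∫ x in Ix, u (pt x y)) * b y := by
      rw [← integral_mul_const]
      congr 1
      funext x
      rw [hptim x y hy0]
    have e5 : ∫ x in Ix, u (pt x y) = 0 := hy h1y
    rw [e4, e5]
    simp

end FMZ
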