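import Pool.Agent.FMZ.SFIN
import Pool.Agent.FMZ.SABS
import Pool.Agent.FMZ.SC2
import Pool.Agent.FMZ.SCE
import Pool.Agent.FMZ.SCELL
import Pool.Agent.FMZ.SCM
import Pool.Agent.FMZ.SCNT
import Pool.Agent.FMZ.SCONE
import Pool.Agent.FMZ.SETA
import Pool.Agent.FMZ.SEUL
import Pool.Agent.FMZ.SFB
import Pool.Agent.FMZ.SFR
import Pool.Agent.FMZ.SGR
import Pool.Agent.FMZ.SGRAD
import Pool.Agent.FMZ.SGREEN
import Pool.Agent.FMZ.SHI
import Pool.Agent.FMZ.SINVT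
import Pool.Agent.FMZ.SJE
import Pool.Agent.FMZ.SJO
import Pool.Agent.FMZ.SKER
import Pool.Agent.FMZ.SLAM
import Pool.Agent.FMZ.SLOW
import Pool.Agent.FMZ.SLX2
import Pool.Agent.FMZ.SLX3
import Pool.Agent.FMZ.SLXD
import Pool.Agent.FMZ.SODE
import Pool.Agent.FMZ.SPBD
import Pool.Agent.FMZ.SPD
import Pool.Agent.FMZ.SPOI
import Pool.Agent.FMZ.SPOL
import Pool.Agent.FMZ.SPSM
import Pool.Agent.FMZ.SREG
import Pool.Agent.FMZ.SRIE
import Pool.Agent.FMZ.STR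
import Pool.Agent.FMZ.SUNF
import Pool.Agent.FMZ.SVOL
import Pool.Agent.FMZ.SVSUB
import Pool.Agent.FMZ.SWEAK
import Pool.Agent.FMZ.SXW
import Pool.Agent.FMZ.SZC
import Pool.Agent.FMZ.CONE
import Pool.Agent.FMZ.JAN

/-!
# FMZ, block S: the spectral expansion
-/

namespace FMZ

/-- Block S. -/
theorem specHolds : SPEC := by
  have hV : sVOL := pVOL
  have hCO : sCO := pCO
  have hPD : sPD := pPD
  have hP : sPBD := pPBD hPD
  have hCM : sCM := pCM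
  have hT : sTBC := pTBC
  have hU : sUNF := pUNF pCNT
  have hE : sETA := pETA
  have hCE : sCE := pCE
  have hXW : sXW := pXW
  have hHI : sHI := pHI
  have hREG : sREG := pREG hP
  have hVS : sVSUB := pVSUB hCM hV
  have hPSM : sPSM := pPSM hPD hP hT
  have hGR : sGR := pGR hU (pGRAD hPD hCM) pGREEN hT hCM
  have hTR : sTR := pTR hGR hVS hPSM hP hT hV hCM
  have hW : sWEAK := pWEAK hTR hVS hPSM hT hP hV
  have hZC : sZC := pZC hHI hCO hE hV hCE hT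
  have hLOW : sLOW := pLOW hVS hCO hV hCM
  have hPOI : sPOI := pPOI hVS hZC hCO hV hCM
  have hCELL : sCELL := pCELL hVS hCO hV hCM
  have hINV : sINVT := pINVT pEUL hW hREG hCE pC2 hP hT hV
  have hLXD : sLXD := pLXD hHI hP hU hXW hV hT
  have hLX2 : sLX2 := pLX2 hLXD hZC hV
  have hLX3 : sLX3 := pLX3 hLXD hP hV
  have hLF : sLF := pLF hU hP
  have hFB : sFB := pFB pSGEN hLF hCO hV hCE hT
  have hFR : sFR := pFR hLX2 hFB hLF (pPOL hCO) pRAYB hXW hE hT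
  have hJE : sJE := pJE (pANAJ (pJAN pCONE pPHB))
  have hJO : sJO := pJO pCONE pPHB
  exact pSPEC pABS (pH0 hP hCE hT hV) hVS hINV (pKER hV hT) (pREL hPOI hCELL hVS hV)
    (pLAM hPOI hLOW hV) hPOI hW (pSCONE hLX2 hLX3 hXW hE hP hT hV) (pODE hJE hJO)
    (pLX1 pRIE hP hV) hLX2 hFB hFR hV hP hT hXW hE

end FMZ
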