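import Pool.Agent.FMZ.Spec

/-!
# FMZ, block S: definitions

Functions on the modular surface as functions on the upper half plane ℍ of Mathlib, with the
invariant measure of Mathlib.
-/

open Complex MeasureTheory Set Filter Topology
open UpperHalfPlane hiding I
open scoped ENNReal

namespace FMZ

/-- the modular group -/
abbrev SG : Type := Matrix.SpecialLinearGroup (Fin 2) ℤ

/-- the open fundamental domain -/
def Dm : Set ℍ := ModularGroup.fdo

/-- the measure on the fundamental domain -/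
noncomputable def muD : Measure ℍ := (volume : Measure ℍ).restrict Dm

/-- the horn {|x| < 1/2, y > 1} of the fundamental domain -/
def Dh : Set ℍ := {z | |z.re| < 1 / 2 ∧ 1 < z.im}

/-- invariance -/
def Inv (f : ℍ → ℂ) : Prop := ∀ (g : SG) (z : ℍ), f (g • z) = f z

/-- the sum over the group -/
noncomputable def Poi (P : ℍ → ℂ) (z : ℍ) : ℂ := ∑' g : SG, P (g • z)

/-- extension to the complex plane -/
noncomputable def ex (f : ℍ → ℂ) : ℂ → ℂ := fun w => f (ofComplex w)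

/-- the point x + iy -/
noncomputable def pt (x y : ℝ) : ℍ := ofComplex (x + y * I)

/-- smooth functions -/
def Sm (f : ℍ → ℂ) : Prop := ContDiffOn ℝ (⊤ : ℕ∞) (ex f) {w : ℂ | 0 < w.im}

/-- y f_x -/
noncomputable def gx (f : ℍ → ℂ) (z : ℍ) : ℂ := (z.im : ℂ) * fderiv ℝ (ex f) z 1

/-- y f_y -/
noncomputable def gy (f : ℍ → ℂ) (z : ℍ) : ℂ := (z.im : ℂ) * fderiv ℝ (ex f) z I

/-- the Laplacian -y^2 (f_xx + f_yy) -/
noncomputable def lap (f : ℍ → ℂ) (z : ℍ) : ℂ :=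
  -(z.im : ℂ) ^ 2 * (fderiv ℝ (fun w => fderiv ℝ (ex f) w 1) z 1 +
    fderiv ℝ (fun w => fderiv ℝ (ex f) w I) z I)

/-- smooth functions with compact support -/
structure TH (P : ℍ → ℂ) : Prop where
  sm : Sm P
  cpt : HasCompactSupport P

/-- bounded measurable functions with compact support -/
structure BC (B : ℍ → ℂ) : Prop where
  meas : Measurable B
  bdd : ∃ C : ℝ, ∀ z, ‖B z‖ ≤ C
  cpt : ∃ K : Set ℍ, IsCompact K ∧ ∀ z, z ∉ K → B z = 0

/-- the pairing of a function on the fundamental domain with a function on ℍ -/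
noncomputable def Lam (B u : ℍ → ℂ) : ℂ := (1 / 2 : ℂ) * ∫ z, u z * Poi B z ∂muD

/-- the core: smooth invariant functions, bounded with their gradients on the fundamental
domain -/
structure Core (f : ℍ → ℂ) : Prop where
  sm : Sm f
  inv : Inv f
  bdd : ∃ C : ℝ, ∀ z ∈ Dm, ‖f z‖ ≤ C ∧ ‖gx f z‖ ≤ C ∧ ‖gy f z‖ ≤ C

/-- the Hilbert space -/
abbrev HD : Type := Lp ℂ 2 muD

/-- the space of jets -/
abbrev H3 : Type := Lp (EuclideanSpace ℂ (Fin 3)) 2 muD

/-- the jet (√6 f, y f_x, y f_y) -/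
noncomputable def jet (f : ℍ → ℂ) (z : ℍ) : EuclideanSpace ℂ (Fin 3) :=
  !₂[(√6 : ℂ) * f z, gx f z, gy f z]

/-- the jets of the core -/
def VS : Set H3 := {v | ∃ f, Core f ∧ v =ᵐ[muD] jet f}

/-- the projection (√6 f, y f_x, y f_y) ↦ f -/
noncomputable def pr : H3 →L[ℂ] HD :=
  ContinuousLinearMap.compLpL 2 muD (((√6 : ℂ)⁻¹) • (EuclideanSpace.proj (0 : Fin 3) :
    EuclideanSpace ℂ (Fin 3) →L[ℂ] ℂ))

/-- the closed space of jets -/
noncomputable def Vsub : Submodule ℂ H3 := (Submodule.span ℂ VS).topologicalClosure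

noncomputable instance : CompleteSpace Vsub := by
  unfold Vsub
  infer_instance

/-- the projection on the closed space of jets -/
noncomputable def prV : Vsub →L[ℂ] HD := pr.comp Vsub.subtypeL

/-- the operator (Δ + 6)^(-1) -/
noncomputable def Tq : HD →L[ℂ] HD := prV.comp (ContinuousLinearMap.adjoint prV)

/-- the energy -/
noncomputable def En (v : H3) : ℝ := ∫ z, (‖v z 1‖ ^ 2 + ‖v z 2‖ ^ 2) ∂muD

/-- partitions of unity in x -/
structure Eta (η : ℝ → ℝ) : Prop where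
  smooth : ContDiff ℝ (⊤ : ℕ∞) η
  supp : ∀ x, 1 ≤ |x| → η x = 0
  sum : ∀ x, ∑' n : ℤ, η (x + n) = 1

/-- test functions in y -/
structure Chi (χ : ℝ → ℝ) : Prop where
  smooth : ContDiff ℝ (⊤ : ℕ∞) χ
  supp : ∃ a b : ℝ, 0 < a ∧ ∀ y, y < a ∨ b < y → χ y = 0

/-- χ(y) η(x) -/
noncomputable def ce (χ η : ℝ → ℝ) (z : ℍ) : ℂ := ((χ z.im * η z.re : ℝ) : ℂ)

/-- zero constant term, weakly -/
def Zc (u : ℍ → ℂ) : Prop := ∀ χ η : ℝ → ℝ, Chi χ → Eta η → Lam (ce χ η) u = 0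

/-- even cutoff functions -/
structure Cut (Z : ℝ → ℝ) : Prop where
  smooth : ContDiff ℝ (⊤ : ℕ∞) Z
  even : ∀ x, Z (-x) = Z x
  one : ∀ x, |x| ≤ 1 → Z x = 1
  zero : ∀ x, 2 ≤ |x| → Z x = 0
  rng : ∀ x, 0 ≤ Z x ∧ Z x ≤ 1

/-- X(x/y) W(log|z| / n) -/
noncomputable def XW (X W : ℝ → ℝ) (n : ℕ) (z : ℍ) : ℂ :=
  ((X (z.re / z.im) * W (Real.log ‖(z : ℂ)‖ / n) : ℝ) : ℂ)

/-- X(x/y) on the part |z| > 1, y ≤ 1 -/
noncomputable def Xlow (X : ℝ → ℝ) : ℍ → ℂ :=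
  indicator {z : ℍ | 1 < ‖(z : ℂ)‖ ∧ z.im ≤ 1} fun z => (X (z.re / z.im) : ℂ)

/-- the sum over the translations minus its mean -/
noncomputable def BX (X : ℝ → ℝ) (z : ℍ) : ℝ :=
  (∑' m : ℤ, X ((z.re + m) / z.im)) - z.im * ∫ t : ℝ, X t

/-- the functional ℓ_X -/
noncomputable def lX (X : ℝ → ℝ) (u : ℍ → ℂ) : ℂ :=
  2 * Lam (Xlow X) u + 2 * ∫ z in Dh, u z * BX X z

end FMZ
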