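import Pool.Agent.FMZ.STargets

/-!
# FMZ, block S: assembly (S-FIN)
-/

open Complex MeasureTheory Set Filter Topology
open UpperHalfPlane hiding I
open scoped ENNReal InnerProductSpace

namespace FMZ

namespace SFIN_

theorem Lam_congr {B u v : ℍ → ℂ} (h : u =ᵐ[muD] v) : Lam B u = Lam B v := by
  unfold Lam
  congr 1
  refine integral_congr_ae ?_
  filter_upwards [h] with z hz
  rw [hz]

theorem ae_Dh (hV : sVOL) {u v : ℍ → ℂ} (h : u =ᵐ[muD] v) :
    u =ᵐ[(volume : Measure ℍ).restrict Dh] v := by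
  have h1 : (volume : Measure ℍ).restrict Dh ≤ muD := Measure.restrict_mono hV.2.2.2 le_rfl
  exact h.filter_mono (ae_mono h1)

theorem lX_congr (hV : sVOL) {X : ℝ → ℝ} {u v : ℍ → ℂ} (h : u =ᵐ[muD] v) : lX X u = lX X v := by
  unfold lX
  rw [Lam_congr h]
  congr 2
  refine integral_congr_ae ?_
  filter_upwards [ae_Dh hV h] with z hz
  rw [hz]

theorem Zc_congr {u v : ℍ → ℂ} (h : u =ᵐ[muD] v) (hu : Zc u) : Zc v := by
  intro χ η h1 h2
  rw [← Lam_congr h]
  exact hu χ η h1 h2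

theorem finMuD (hV : sVOL) : IsFiniteMeasure muD := by
  refine ⟨?_⟩
  unfold muD
  rw [Measure.restrict_apply_univ]
  exact hV.1

theorem integrable_pair (hV : sVOL) (hP : sPBD) {B u : ℍ → ℂ} (hB : BC B) (hu : MemLp u 2 muD) :
    Integrable (fun z => u z * Poi B z) muD := by
  haveI := finMuD hV
  obtain ⟨-, hm, -, ⟨C, hC⟩, -⟩ := hP B hB
  have h1 : Integrable u muD := hu.integrable (by norm_num)
  refine h1.mul_bdd (c := C) hm.aestronglyMeasurable ?_
  unfold muD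
  rw [ae_restrict_iff' hV.2.1]
  exact Eventually.of_forall fun z hz => hC z hz

theorem Poi_add (hP : sPBD) {B C : ℍ → ℂ} (hB : BC B) (hC : BC C) (z : ℍ) :
    Poi (fun w => B w + C w) z = Poi B z + Poi C z := by
  unfold Poi
  refine Summable.tsum_add ?_ ?_
  · exact summable_of_finite_support ((hP B hB).1 z)
  · exact summable_of_finite_support ((hP C hC).1 z)

theorem Lam_add (hV : sVOL) (hP : sPBD) {B C u : ℍ → ℂ} (hB : BC B) (hC : BC C)
    (hu : MemLp u 2 muD) : Lam (fun w => B w + C w) u = Lam B u + Lam C u := by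
  unfold Lam
  rw [← mul_add, ← integral_add (integrable_pair hV hP hB hu) (integrable_pair hV hP hC hu)]
  congr 1
  refine integral_congr_ae (Eventually.of_forall fun z => ?_)
  simp only [Poi_add hP hB hC z]
  ring

theorem Lam_smul (c : ℂ) (B u : ℍ → ℂ) : Lam (fun w => c * B w) u = c * Lam B u := by
  unfold Lam
  have : (fun z => u z * Poi (fun w => c * B w) z) = fun z => c * (u z * Poi B z) := by
    funext z
    unfold Poi
    rw [tsum_mul_left]
    ring
  rw [this, integral_const_mul]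
  ring

theorem Lam_smul_class (c : ℂ) (B : ℍ → ℂ) (u : HD) : Lam B (c • u : HD) = c * Lam B u := by
  have h : ((c • u : HD) : ℍ → ℂ) =ᵐ[muD] fun z => c * u z := by
    filter_upwards [Lp.coeFn_smul c u] with z hz
    rw [hz]
    rfl
  rw [Lam_congr h]
  unfold Lam
  have : (fun z => c * u z * Poi B z) = fun z => c * (u z * Poi B z) := by
    funext z; ring
  rw [this, integral_const_mul]
  ring

theorem Lam_zero_class (B : ℍ → ℂ) : Lam B (0 : HD) = 0 := by
  have := Lam_smul_class 0 B 0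
  simpa using this

theorem lX_add (hV : sVOL) (hP : sPBD) (hT : sTBC) (hXW : sXW) (hE : sETA) (h2 : sLX2)
    {u : ℍ → ℂ} (hu : MemLp u 2 muD) (hz : Zc u)
    (hi : IntegrableOn (fun z : ℍ => u z * (z.im : ℂ)) Dh) {X Y : ℝ → ℝ} (hX : Tst X) (hY : Tst Y) :
    lX (fun t => X t + Y t) u = lX X u + lX Y u := by
  obtain ⟨-, Z, hZ⟩ := hE
  have hXY : Tst (fun t => X t + Y t) :=
    ⟨hX.smooth.add hY.smooth, hX.cpt.add hY.cpt, fun t => by simp only [hX.even, hY.even]⟩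
  have l1 := h2 _ Z u hXY hZ hu hz hi
  have l2 := (h2 X Z u hX hZ hu hz hi).add (h2 Y Z u hY hZ hu hz hi)
  refine tendsto_nhds_unique_of_eventuallyEq l1 l2 ?_
  filter_upwards [eventually_ge_atTop 1] with n hn
  have b1 := (hT _ (hXW X Z n hX hZ.smooth hZ.zero hn).1).1
  have b2 := (hT _ (hXW Y Z n hY hZ.smooth hZ.zero hn).1).1
  rw [← Lam_add hV hP b1 b2 hu]
  congr 1
  funext z
  simp only [XW]
  push_cast
  ring

theorem lX_smul (hE : sETA) (h2 : sLX2)
    {u : ℍ → ℂ} (hu : MemLp u 2 muD) (hz : Zc u)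
    (hi : IntegrableOn (fun z : ℍ => u z * (z.im : ℂ)) Dh) {X : ℝ → ℝ} (hX : Tst X) (c : ℝ) :
    lX (fun t => c * X t) u = c * lX X u := by
  obtain ⟨-, Z, hZ⟩ := hE
  have hXY : Tst (fun t => c * X t) :=
    ⟨contDiff_const.mul hX.smooth, hX.cpt.mul_left, fun t => by simp only [hX.even]⟩
  have l1 := h2 _ Z u hXY hZ hu hz hi
  have l2 := (h2 X Z u hX hZ hu hz hi).const_mul (c : ℂ)
  refine tendsto_nhds_unique_of_eventuallyEq l1 l2 ?_
  refine Eventually.of_forall fun n => ?_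
  simp only
  rw [← Lam_smul]
  congr 1
  funext z
  simp only [XW]
  push_cast
  ring

/-- `|u| y` is integrable in the horn if `|u|^2 y^2` is. -/
theorem integrable_im (hV : sVOL) {u : ℍ → ℂ} (hu : MemLp u 2 muD)
    (h : IntegrableOn (fun z : ℍ => ‖u z‖ ^ 2 * z.im ^ 2) Dh) :
    IntegrableOn (fun z : ℍ => u z * (z.im : ℂ)) Dh := by
  have hfin : (volume : Measure ℍ) Dh < ∞ := lt_of_le_of_lt (measure_mono hV.2.2.2) hV.1
  haveI : IsFiniteMeasure ((volume : Measure ℍ).restrict Dh) :=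
    ⟨by rw [Measure.restrict_apply_univ]; exact hfin⟩
  have hle : (volume : Measure ℍ).restrict Dh ≤ muD := Measure.restrict_mono hV.2.2.2 le_rfl
  have hm : AEStronglyMeasurable u ((volume : Measure ℍ).restrict Dh) :=
    hu.aestronglyMeasurable.mono_measure hle
  have hmi : Measurable fun z : ℍ => (z.im : ℂ) :=
    Complex.measurable_ofReal.comp (Complex.measurable_im.comp measurable_coe)
  have h1 : Integrable (fun z : ℍ => 1 + ‖u z‖ ^ 2 * z.im ^ 2) ((volume : Measure ℍ).restrict Dh) :=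
    (integrable_const 1).add h
  refine h1.mono (hm.mul hmi.aestronglyMeasurable) (Eventually.of_forall fun z => ?_)
  rw [norm_mul, Complex.norm_real, Real.norm_eq_abs, Real.norm_eq_abs]
  have h2 : |z.im| = z.im := abs_of_pos z.im_pos
  rw [h2]
  have h3 : 0 ≤ ‖u z‖ * z.im := mul_nonneg (norm_nonneg _) z.im_pos.le
  rw [abs_of_nonneg (by positivity)]
  nlinarith [sq_nonneg (‖u z‖ * z.im - 1)]

end SFIN_

open SFIN_

theorem pSPEC (hABS : sABS) (hH0 : sH0) (hVS : sVSUB) (hINV : sINVT) (hKER : sKER) (hREL : sREL)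
    (hLAM : sLAM) (hPOI : sPOI) (hWEAK : sWEAK) (hCONE : sCONE) (hODE : sODE) (hLX1 : sLX1)
    (hLX2 : sLX2) (hFB : sFB) (hFR : sFR) (hV : sVOL) (hP : sPBD) (hT : sTBC) (hXW : sXW)
    (hE : sETA) : SPEC := by
  intro F hA hC hS
  obtain ⟨-, -, hfm, hfz, -⟩ := hFB F hA hC hS
  set f : ℍ → ℂ := fun z => F z.re z.im with hf
  obtain ⟨H0, hcl, hmem⟩ := hH0
  set fc : HD := hfm.toLp f with hfc
  have hae : (fc : ℍ → ℂ) =ᵐ[muD] f := hfm.coeFn_toLp
  have hfc0 : fc ∈ H0 := (hmem fc).2 (Zc_congr hae.symm hfz)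
  have hmemV : ∀ v : Vsub, (v : H3) ∈ closure VS := fun v => by
    rw [← hVS.1]; exact v.2
  obtain ⟨φ, τ, a, hφ, hL⟩ := hABS HD Vsub prV H0 hcl
    (fun u hu => (hmem _).2 (hINV u ((hmem u).1 hu)))
    (fun u hu h0 => by
      refine hKER u fun P hP' => ?_
      have h1 := hWEAK u P hP'
      have h2 : Tq u = 0 := h0
      rw [h2, Lam_zero_class, Lam_zero_class] at h1
      rw [← h1]; ring)
    (fun ε hε => by
      obtain ⟨n, l, hl⟩ := hREL ε hε
      refine ⟨n, l, fun v hv => ?_⟩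
      exact hl (v : H3) (hmemV v) ((hmem _).1 hv))
    fc hfc0
  -- every eigenvector has a functional of the right shape
  have key : ∀ j, ∃ (κ : ℝ) (ρ : ℂ), ∀ X, Tst X →
      lX X (φ j) = ρ * ∫ t : ℝ, Jk κ (Real.arsinh t : ℝ) * X t := by
    intro j
    by_cases h0 : φ j = 0
    · refine ⟨0, 0, fun X hX => ?_⟩
      obtain ⟨L, hL'⟩ := hLX1 X hX
      rw [← hL', h0, map_zero, zero_mul]
    obtain ⟨hj0, hτ, hj⟩ := hφ j
    have hτc : (τ j : ℂ) ≠ 0 := by exact_mod_cast hτ.ne'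
    set w : Vsub := ContinuousLinearMap.adjoint prV (φ j) with hw
    set v : Vsub := ((τ j : ℂ))⁻¹ • w with hv
    have hpv : prV v = φ j := by
      rw [hv, map_smul, hj, smul_smul, inv_mul_cancel₀ hτc, one_smul]
    have hnw : ‖w‖ ^ 2 = τ j * ‖φ j‖ ^ 2 := by
      have h1 : inner ℂ w w = inner ℂ (φ j) (prV w) := by
        rw [hw, ContinuousLinearMap.adjoint_inner_left]
      have h2 : (inner ℂ w w : ℂ) = ((‖w‖ ^ 2 : ℝ) : ℂ) := by
        have := inner_self_eq_norm_sq_to_K (𝕜 := ℂ) w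
        rw [this]; norm_cast
      have h3 : (inner ℂ (φ j) (prV w) : ℂ) = ((τ j * ‖φ j‖ ^ 2 : ℝ) : ℂ) := by
        rw [hj, inner_smul_right, inner_self_eq_norm_sq_to_K]
        push_cast
        rfl
      have h4 : ((‖w‖ ^ 2 : ℝ) : ℂ) = ((τ j * ‖φ j‖ ^ 2 : ℝ) : ℂ) := by
        rw [← h2, h1, h3]
      exact_mod_cast h4
    have hnv : ‖(v : H3)‖ ^ 2 = ‖φ j‖ ^ 2 / τ j := by
      have h1 : ‖(v : H3)‖ = ‖v‖ := rfl
      rw [h1, hv, norm_smul, mul_pow, hnw, norm_inv, Complex.norm_real, Real.norm_eq_abs,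
        abs_of_pos hτ]
      field_simp
    have hpr : pr (v : H3) = φ j := hpv
    have hEn : En (v : H3) = (1 / τ j - 6) * ‖φ j‖ ^ 2 := by
      have h1 := hVS.2.1 (v : H3)
      rw [hnv, hpr] at h1
      have : En (v : H3) = ‖φ j‖ ^ 2 / τ j - 6 * ‖φ j‖ ^ 2 := by linarith
      rw [this]; ring
    have hzφ : Zc (φ j) := (hmem _).1 hj0
    have hzv : Zc (pr (v : H3)) := by rw [hpr]; exact hzφ
    have hlam := hLAM (v : H3) (hmemV v) hzv
    rw [hpr, hEn] at hlam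
    have hpos : 0 < ‖φ j‖ ^ 2 := by
      have : 0 < ‖φ j‖ := norm_pos_iff.2 h0
      positivity
    have hlam2 : 2 / 5 ≤ 1 / τ j - 6 := by
      by_contra hcon
      push Not at hcon
      nlinarith
    have hmφ : MemLp (φ j) 2 muD := Lp.memLp (φ j)
    have hpoi := hPOI (v : H3) (hmemV v) hzv
    have hiφ : IntegrableOn (fun z : ℍ => (φ j) z * (z.im : ℂ)) Dh := by
      refine integrable_im hV hmφ ?_
      have := hpoi.1
      rw [hpr] at this
      exact this
    have heig : ∀ P : ℍ → ℂ, TH P → Lam (lap P) (φ j) = ((1 / τ j - 6 : ℝ) : ℂ) * Lam P (φ j) := by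
      intro P hP'
      have h1 := hWEAK (φ j) P hP'
      have h2 : Tq (φ j) = (τ j : ℂ) • φ j := hj
      rw [h2, Lam_smul_class, Lam_smul_class] at h1
      have h3 : (τ j : ℂ) * Lam (lap P) (φ j) = Lam P (φ j) - 6 * ((τ j : ℂ) * Lam P (φ j)) := by
        linear_combination h1
      have h4 : Lam (lap P) (φ j) = (τ j : ℂ)⁻¹ * (Lam P (φ j) - 6 * ((τ j : ℂ) * Lam P (φ j))) := by
        rw [← h3, ← mul_assoc, inv_mul_cancel₀ hτc, one_mul]
      rw [h4]
      push_cast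
      rw [show (1 / (τ j : ℂ) - 6) * Lam P (φ j) = (τ j : ℂ)⁻¹ * (Lam P (φ j) -
        6 * ((τ j : ℂ) * Lam P (φ j))) from ?_]
      rw [mul_sub, ← mul_assoc (τ j : ℂ)⁻¹ 6, mul_comm (τ j : ℂ)⁻¹ 6, mul_assoc 6,
        ← mul_assoc (τ j : ℂ)⁻¹, inv_mul_cancel₀ hτc, one_mul, one_div, sub_mul]
    set κ : ℝ := √((1 / τ j - 6) - 1 / 4) with hκ
    have hκ2 : 1 / 4 + κ ^ 2 = 1 / τ j - 6 := by
      rw [hκ, Real.sq_sqrt (by linarith)]
      ring
    obtain ⟨ρ, hρ⟩ := hODE κ (fun X => lX X (φ j))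
      (fun X Y hX hY => lX_add hV hP hT hXW hE hLX2 hmφ hzφ hiφ hX hY)
      (fun c X hX => lX_smul hE hLX2 hmφ hzφ hiφ hX c)
      (fun X hX => by
        rw [hκ2]
        exact hCONE (φ j) _ hmφ hzφ hiφ heig X hX)
    exact ⟨κ, ρ, hρ⟩
  choose κ ρ hκρ using key
  refine ⟨κ, fun j => a j * ρ j, fun X hX => ?_⟩
  obtain ⟨L, hLX⟩ := hLX1 X hX
  obtain ⟨hsum, htot⟩ := hL L
  have hterm : ∀ j, a j * ρ j * ∫ t : ℝ, Jk (κ j) (Real.arsinh t : ℝ) * X t = a j * L (φ j) := by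
    intro j
    rw [hLX, hκρ j X hX, mul_assoc]
  constructor
  · simp only [hterm]
    exact hsum
  · simp only [hterm]
    rw [htot, hLX, lX_congr hV hae]
    exact hFR F hA hC hS X hX

end FMZ
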