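import Pool.Agent.FMZ.STargets

/-!
# FMZ, S-INVT: T preserves the functions without constant term
-/

open Complex MeasureTheory Set Filter Topology
open UpperHalfPlane hiding I
open scoped ENNReal

namespace FMZ

namespace SINVT_

lemma finite_muD (h : sVOL) : IsFiniteMeasure muD := by
  refine ⟨?_⟩
  unfold muD
  rw [Measure.restrict_apply MeasurableSet.univ, univ_inter]
  exact h.1

lemma summ (h : sPBD) {B : ℍ → ℂ} (hB : BC B) (z : ℍ) : Summable (fun g : SG => B (g • z)) :=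
  summable_of_hasFiniteSupport ((h B hB).1 z)

lemma Poi_add (h : sPBD) {B₁ B₂ : ℍ → ℂ} (h₁ : BC B₁) (h₂ : BC B₂) (z : ℍ) :
    Poi (fun z => B₁ z + B₂ z) z = Poi B₁ z + Poi B₂ z := by
  unfold Poi
  exact (summ h h₁ z).tsum_add (summ h h₂ z)

lemma Poi_mul (c : ℂ) (B : ℍ → ℂ) (z : ℍ) : Poi (fun z => c * B z) z = c * Poi B z := by
  unfold Poi
  exact tsum_mul_left

lemma int_u (h : sVOL) (u : HD) : Integrable (fun z => u z) muD := by
  have := finite_muD h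
  exact (Lp.memLp u).integrable (by norm_num)

lemma int_mul (h : sPBD) (hV : sVOL) {B : ℍ → ℂ} (hB : BC B) (u : HD) :
    Integrable (fun z => u z * Poi B z) muD := by
  obtain ⟨C, hC⟩ := (h B hB).2.2.2.1
  refine (int_u hV u).mul_bdd (c := C) ((h B hB).2.1.aestronglyMeasurable) ?_
  unfold muD
  rw [ae_restrict_iff' hV.2.1]
  exact Eventually.of_forall fun z hz => hC z hz

lemma Lam_add (h : sPBD) (hV : sVOL) {B₁ B₂ : ℍ → ℂ} (h₁ : BC B₁) (h₂ : BC B₂) (u : HD) :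
    Lam (fun z => B₁ z + B₂ z) u = Lam B₁ u + Lam B₂ u := by
  unfold Lam
  have e1 : (fun z => u z * Poi (fun z => B₁ z + B₂ z) z) =
      fun z => u z * Poi B₁ z + u z * Poi B₂ z := by
    funext z
    rw [Poi_add h h₁ h₂, mul_add]
  rw [e1, integral_add (int_mul h hV h₁ u) (int_mul h hV h₂ u), mul_add]

lemma Lam_mul (c : ℂ) (B : ℍ → ℂ) (u : HD) :
    Lam (fun z => c * B z) u = c * Lam B u := by
  unfold Lam
  have e1 : (fun z => u z * Poi (fun z => c * B z) z) = fun z => c * (u z * Poi B z) := by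
    funext z
    rw [Poi_mul]
    ring
  rw [e1, integral_const_mul]
  ring

lemma BC_mul (c : ℂ) {B : ℍ → ℂ} (h : BC B) : BC (fun z => c * B z) := by
  obtain ⟨C, hC⟩ := h.bdd
  obtain ⟨K, hK, hK'⟩ := h.cpt
  refine ⟨h.meas.const_mul c, ⟨‖c‖ * C, fun z => ?_⟩, ⟨K, hK, fun z hz => ?_⟩⟩
  · rw [norm_mul]
    exact mul_le_mul_of_nonneg_left (hC z) (norm_nonneg c)
  · rw [hK' z hz, mul_zero]

lemma BC_add {B₁ B₂ : ℍ → ℂ} (h₁ : BC B₁) (h₂ : BC B₂) : BC (fun z => B₁ z + B₂ z) := by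
  obtain ⟨C₁, hC₁⟩ := h₁.bdd
  obtain ⟨K₁, hK₁, hK₁'⟩ := h₁.cpt
  obtain ⟨C₂, hC₂⟩ := h₂.bdd
  obtain ⟨K₂, hK₂, hK₂'⟩ := h₂.cpt
  refine ⟨h₁.meas.add h₂.meas, ⟨C₁ + C₂, fun z => ?_⟩, ⟨K₁ ∪ K₂, hK₁.union hK₂, fun z hz => ?_⟩⟩
  · exact (norm_add_le _ _).trans (add_le_add (hC₁ z) (hC₂ z))
  · rw [hK₁' z (fun h => hz (Or.inl h)), hK₂' z (fun h => hz (Or.inr h)), add_zero]

lemma eta_bdd {η : ℝ → ℝ} (h : Eta η) : ∃ E : ℝ, 0 ≤ E ∧ ∀ x, |η x| ≤ E := by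
  have hc : HasCompactSupport η := by
    refine HasCompactSupport.intro (isCompact_Icc (a := (-1 : ℝ)) (b := 1)) ?_
    intro x hx
    refine h.supp x ?_
    by_contra hcon
    push Not at hcon
    exact hx ⟨(abs_lt.1 hcon).1.le, (abs_lt.1 hcon).2.le⟩
  obtain ⟨E, hE⟩ := hc.exists_bound_of_continuous h.smooth.continuous
  exact ⟨E, (norm_nonneg (η 0)).trans (hE 0), hE⟩

/-- bound of the sum over the group -/
lemma Poi_bound {C₂ : ℝ} (hC2 : ∀ (ε : ℝ) (z : ℍ), 0 < ε → ε ≤ 1 → z ∈ Dm →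
    {g : SG | ε ≤ (g • z).im ∧ |(g • z).re| ≤ 1}.Finite ∧
    ({g : SG | ε ≤ (g • z).im ∧ |(g • z).re| ≤ 1}.ncard : ℝ) ≤ C₂ / ε ^ 2)
    {χ η : ℝ → ℝ} {M ε E : ℝ} (hη : Eta η) (hE0 : 0 ≤ E) (hE : ∀ x, |η x| ≤ E) (hε : 0 < ε)
    (hε1 : ε ≤ 1) (hχ0 : ∀ y, y < ε → χ y = 0) (hM : ∀ y, |χ y| ≤ M) (z : ℍ) (hz : z ∈ Dm) :
    ‖Poi (ce χ η) z‖ ≤ C₂ / ε ^ 2 * (M * E) := by
  obtain ⟨hfin, hcard⟩ := hC2 ε z hε hε1 hz
  have hM0 : 0 ≤ M := (abs_nonneg (χ 0)).trans (hM 0)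
  have hsub : ∀ g : SG, g ∉ hfin.toFinset → ce χ η (g • z) = 0 := by
    intro g hg
    rw [Set.Finite.mem_toFinset] at hg
    have hg' : ¬ (ε ≤ (g • z).im ∧ |(g • z).re| ≤ 1) := hg
    unfold ce
    by_cases h1 : ε ≤ (g • z).im
    · have h2 : 1 < |(g • z).re| := by
        by_contra hcon
        push Not at hcon
        exact hg' ⟨h1, hcon⟩
      rw [hη.supp _ h2.le, mul_zero, Complex.ofReal_zero]
    · push Not at h1
      rw [hχ0 _ h1, zero_mul, Complex.ofReal_zero]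
  unfold Poi
  rw [tsum_eq_sum (s := hfin.toFinset) (fun g hg => hsub g hg)]
  refine (norm_sum_le _ _).trans ?_
  have hterm : ∀ g ∈ hfin.toFinset, ‖ce χ η (g • z)‖ ≤ M * E := by
    intro g _
    unfold ce
    rw [Complex.norm_real, norm_mul]
    exact mul_le_mul (hM _) (hE _) (norm_nonneg _) hM0
  refine (Finset.sum_le_card_nsmul _ _ _ hterm).trans ?_
  rw [nsmul_eq_mul, ← Set.ncard_eq_toFinset_card _ hfin]
  exact mul_le_mul_of_nonneg_right hcard (mul_nonneg hM0 hE0)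

lemma Lam_bound (hV : sVOL) {B : ℍ → ℂ} (u : HD) {S : ℝ}
    (hb : ∀ z ∈ Dm, ‖Poi B z‖ ≤ S) : ‖Lam B u‖ ≤ 1 / 2 * (∫ z, ‖u z‖ ∂muD) * S := by
  unfold Lam
  rw [norm_mul]
  have e1 : ‖(1 / 2 : ℂ)‖ = 1 / 2 := by norm_num
  rw [e1, mul_assoc]
  refine mul_le_mul_of_nonneg_left ?_ (by norm_num)
  rw [← integral_mul_const]
  refine norm_integral_le_of_norm_le ((int_u hV u).norm.mul_const S) ?_
  unfold muD
  rw [ae_restrict_iff' hV.2.1]
  refine Eventually.of_forall fun z hz => ?_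
  rw [norm_mul]
  exact mul_le_mul_of_nonneg_left (hb z hz) (norm_nonneg _)

end SINVT_

open SINVT_ in
theorem pINVT (h1 : sEUL) (h2 : sWEAK) (h3 : sREG) (h4 : sCE) (h5 : sC2) (h6 : sPBD) (h7 : sTBC)
    (h8 : sVOL) : sINVT := by
  intro u hu χ₀ η hχ₀ hη
  set w : HD := Tq u with hw
  obtain ⟨C₂, hC2⟩ := h5
  obtain ⟨E, hE0, hE⟩ := eta_bdd hη
  refine h1 (fun χ => Lam (ce χ η) w) ?_ ?_ ?_ ?_ χ₀ hχ₀
  · intro χ₁ χ₂ hχ₁ hχ₂
    have e1 : ce (fun y => χ₁ y + χ₂ y) η = fun z => ce χ₁ η z + ce χ₂ η z := by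
      funext z
      unfold ce
      push_cast
      ring
    show Lam (ce (fun y => χ₁ y + χ₂ y) η) w = _
    rw [e1]
    exact Lam_add h6 h8 (h7 _ (h4 χ₁ η hχ₁ hη).1).1 (h7 _ (h4 χ₂ η hχ₂ hη).1).1 w
  · intro c χ hχ
    have e1 : ce (fun y => c * χ y) η = fun z => (c : ℂ) * ce χ η z := by
      funext z
      unfold ce
      push_cast
      ring
    show Lam (ce (fun y => c * χ y) η) w = _
    rw [e1]
    exact Lam_mul _ _ w
  · refine ⟨1 / 2 * (∫ z, ‖w z‖ ∂muD) * (|C₂| * E), ?_⟩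
    intro χ M ε hχ hε hε1 hχ0 hM
    have hM0 : 0 ≤ M := (abs_nonneg (χ 0)).trans (hM 0)
    have hb : ∀ z ∈ Dm, ‖Poi (ce χ η) z‖ ≤ |C₂| / ε ^ 2 * (M * E) := by
      intro z hz
      refine (Poi_bound hC2 hη hE0 hE hε hε1 hχ0 hM z hz).trans ?_
      refine mul_le_mul_of_nonneg_right ?_ (mul_nonneg hM0 hE0)
      exact div_le_div_of_nonneg_right (le_abs_self C₂) (by positivity)
    have := Lam_bound h8 w (S := |C₂| / ε ^ 2 * (M * E)) hb
    refine this.trans (le_of_eq ?_)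
    ring
  · intro χ hχ
    obtain ⟨hTH, hlap, hsum, hBC⟩ := h4 χ η hχ hη
    set P := ce χ η with hP
    set Q := ce (fun y => y ^ 2 * χ y) (iteratedDeriv 2 η) with hQ
    have hBP : BC P := (h7 _ hTH).1
    have hBL : BC (lap P) := (h7 _ hTH).2.1
    have e1 : ce (fun y => -(y ^ 2 * iteratedDeriv 2 χ y) + 6 * χ y) η =
        fun z => (fun z => lap P z + Q z) z + (fun z => (6 : ℂ) * P z) z := by
      funext z
      simp only
      rw [hlap z]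
      rw [hP, hQ]
      unfold ce
      push_cast
      ring
    show Lam (ce (fun y => -(y ^ 2 * iteratedDeriv 2 χ y) + 6 * χ y) η) w = 0
    rw [e1, Lam_add h6 h8 (BC_add hBL hBC) (BC_mul 6 hBP) w, Lam_add h6 h8 hBL hBC w,
      Lam_mul]
    have hQ0 : Lam Q w = 0 := by
      have h9 : ∀ z, Poi Q z = 0 := by
        refine h3 Q hBC ?_
        intro z
        have h10 : (fun m : ℤ => Q ((m : ℝ) +ᵥ z)) =
            fun m : ℤ => ((z.im ^ 2 * χ z.im : ℝ) : ℂ) *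
              ((iteratedDeriv 2 η (z.re + m) : ℝ) : ℂ) := by
          funext m
          rw [hQ]
          unfold ce
          rw [UpperHalfPlane.vadd_im, UpperHalfPlane.vadd_re, add_comm (m : ℝ) z.re]
          push_cast
          ring
        rw [h10, tsum_mul_left, ← Complex.ofReal_tsum, hsum z.re, Complex.ofReal_zero, mul_zero]
      unfold Lam
      simp only [h9, mul_zero, integral_zero]
    have h12 := h2 u P hTH
    have h13 : Lam P u = 0 := hu χ η hχ hη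
    rw [hQ0, add_zero, h12, h13]

end FMZ
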