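import Pool.Agent.FMZ.STargets

/-!
# FMZ, block S: Green identity for the closed form
-/

open Complex MeasureTheory Set Filter Topology
open UpperHalfPlane hiding I
open scoped ENNReal InnerProductSpace

namespace FMZ

namespace STR_

theorem finite_muD (h : sVOL) : IsFiniteMeasure muD := by
  refine ⟨?_⟩
  unfold muD
  rw [Measure.restrict_apply_univ]
  exact h.1

theorem ae_mem (h : sVOL) : ∀ᵐ z ∂muD, z ∈ Dm := ae_restrict_mem h.2.1

theorem memLp_of_bdd (h : sVOL) {φ : ℍ → ℂ} (hm : AEStronglyMeasurable φ muD) {C : ℝ}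
    (hC : ∀ z ∈ Dm, ‖φ z‖ ≤ C) (p : ℝ≥0∞) : MemLp φ p muD := by
  have := finite_muD h
  exact MemLp.of_bound hm C ((ae_mem h).mono fun z hz => hC z hz)

/-- the pairing with an L2 function is a bounded functional -/
theorem pairing {φ : ℍ → ℂ} (hφ : MemLp φ 2 muD) : ∃ L : HD →L[ℂ] ℂ, ∀ u : HD,
    L u = ∫ z, u z * φ z ∂muD ∧ Integrable (fun z => u z * φ z) muD := by
  have hs : MemLp (fun z => (starRingEnd ℂ) (φ z)) 2 muD := hφ.star
  refine ⟨innerSL ℂ (hs.toLp _ : HD), fun u => ?_⟩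
  have h1 : (fun z => ⟪(hs.toLp _ : HD) z, u z⟫_ℂ) =ᵐ[muD] fun z => u z * φ z := by
    filter_upwards [hs.coeFn_toLp] with z hz
    rw [hz, RCLike.inner_apply, RCLike.conj_conj]
  constructor
  · rw [innerSL_apply_apply, L2.inner_def]
    exact integral_congr_ae h1
  · exact (L2.integrable_inner (𝕜 := ℂ) (hs.toLp _ : HD) u).congr h1

/-- the coordinates of a jet -/
noncomputable def prc (i : Fin 3) : H3 →L[ℂ] HD :=
  ContinuousLinearMap.compLpL 2 muD (EuclideanSpace.proj i : EuclideanSpace ℂ (Fin 3) →L[ℂ] ℂ)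

theorem prc_ae (i : Fin 3) (v : H3) : (prc i v : ℍ → ℂ) =ᵐ[muD] fun z => v z i := by
  unfold prc
  exact ContinuousLinearMap.coeFn_compLpL _ _

theorem pairing_c {φ : ℍ → ℂ} (hφ : MemLp φ 2 muD) (i : Fin 3) : ∃ L : H3 →L[ℂ] ℂ, ∀ v : H3,
    L v = ∫ z, v z i * φ z ∂muD ∧ Integrable (fun z => v z i * φ z) muD := by
  obtain ⟨L, hL⟩ := pairing hφ
  refine ⟨L.comp (prc i), fun v => ?_⟩
  have h1 : (fun z => (prc i v : ℍ → ℂ) z * φ z) =ᵐ[muD] fun z => v z i * φ z := by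
    filter_upwards [prc_ae i v] with z hz
    rw [hz]
  constructor
  · rw [ContinuousLinearMap.comp_apply, (hL _).1]
    exact integral_congr_ae h1
  · exact (hL _).2.congr h1

end STR_

open STR_

theorem pTR (h1 : sGR) (h2 : sVSUB) (h3 : sPSM) (h4 : sPBD) (h5 : sTBC) (h6 : sVOL)
    (h7 : sCM) : sTR := by
  intro v hv P hP
  have hcore := h3 P hP
  have hcm := h7 _ hcore.sm
  obtain ⟨C, hC⟩ := hcore.bdd
  have ha : MemLp (gx (Poi P)) 2 muD :=
    memLp_of_bdd h6 hcm.2.1.aestronglyMeasurable (fun z hz => (hC z hz).2.1) 2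
  have hb : MemLp (gy (Poi P)) 2 muD :=
    memLp_of_bdd h6 hcm.2.2.1.aestronglyMeasurable (fun z hz => (hC z hz).2.2) 2
  have hBC := h4 _ (h5 P hP).2.1
  obtain ⟨C', hC'⟩ := hBC.2.2.2.1
  have hc : MemLp (Poi (lap P)) 2 muD :=
    memLp_of_bdd h6 hBC.2.1.aestronglyMeasurable hC' 2
  obtain ⟨La, hLa⟩ := pairing_c ha 1
  obtain ⟨Lb, hLb⟩ := pairing_c hb 2
  obtain ⟨Lc, hLc⟩ := pairing hc
  have hL : ∀ v : H3, ∫ z, (v z 1 * gx (Poi P) z + v z 2 * gy (Poi P) z) ∂muD = La v + Lb v := by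
    intro v
    rw [integral_add (hLa v).2 (hLb v).2, (hLa v).1, (hLb v).1]
  rw [hL, ← (hLc _).1]
  have hcl : IsClosed {v : H3 | La v + Lb v = Lc (pr v)} :=
    isClosed_eq (La.continuous.add Lb.continuous) (Lc.continuous.comp pr.continuous)
  have hsub : VS ⊆ {v : H3 | La v + Lb v = Lc (pr v)} := by
    rintro w ⟨f, hf, hw⟩
    obtain ⟨w', -, hw', hpr, -⟩ := h2.2.2.1 f hf
    have hww : w = w' := Lp.ext (hw.trans hw'.symm)
    change La w + Lb w = Lc (pr w)
    rw [← hL, (hLc _).1]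
    have e1 : ∫ z, (w z 1 * gx (Poi P) z + w z 2 * gy (Poi P) z) ∂muD =
        ∫ z, (gx f z * gx (Poi P) z + gy f z * gy (Poi P) z) ∂muD := by
      refine integral_congr_ae ?_
      filter_upwards [hw] with z hz
      rw [hz]
      rfl
    have e2 : ∫ z, pr w z * Poi (lap P) z ∂muD = ∫ z, f z * Poi (lap P) z ∂muD := by
      refine integral_congr_ae ?_
      rw [hww]
      filter_upwards [hpr] with z hz
      rw [hz]
    rw [e1, e2]
    exact h1 f P hf hP
  exact closure_minimal hsub hcl hv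

end FMZ
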