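import Pool.Agent.FMZ.SDefs

/-!
# FMZ, block S: targets
-/

open Complex MeasureTheory Set Filter Topology
open UpperHalfPlane hiding I
open scoped ENNReal InnerProductSpace

namespace FMZ

/-! ## the group -/

/-- S-PD: proper discontinuity -/
def sPD : Prop :=
  (∀ K L : Set ℍ, IsCompact K → IsCompact L → {g : SG | ∃ z ∈ K, g • z ∈ L}.Finite) ∧
  ∀ K : Set ℍ, IsCompact K → {g : SG | ∃ z ∈ Dm, g • z ∈ K}.Finite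

/-- S-CNT: almost every orbit meets the open fundamental domain, for exactly two g -/
def sCNT : Prop := ∀ᵐ z : ℍ, ∑' g : SG, Dm.indicator (fun _ => (1 : ℝ≥0∞)) (g • z) = 2

/-- S-UNF: unfolding -/
def sUNF : Prop :=
  (∀ h : ℍ → ℝ≥0∞, Measurable h → ∫⁻ z, ∑' g : SG, h (g • z) ∂muD = 2 * ∫⁻ z, h z) ∧
  ∀ h : ℍ → ℂ, Measurable h → Integrable h →
    Integrable (Poi h) muD ∧ ∫ z, Poi h z ∂muD = 2 * ∫ z, h z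

/-- S-VOL: finite volume -/
def sVOL : Prop := (volume : Measure ℍ) Dm < ∞ ∧ MeasurableSet Dm ∧ MeasurableSet Dh ∧ Dh ⊆ Dm

/-- S-CO: coordinates -/
def sCO : Prop :=
  (∀ z : ℍ, pt z.re z.im = z) ∧ (∀ x y : ℝ, 0 < y → (pt x y).re = x ∧ (pt x y).im = y) ∧
  Measurable (fun p : ℝ × ℝ => pt p.1 p.2) ∧
  MeasurableEmbedding (fun z : ℍ => (z.re, z.im)) ∧
  MeasurePreserving (fun z : ℍ => (z.re, z.im)) volume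
    (((volume : Measure (ℝ × ℝ)).restrict {p | 0 < p.2}).withDensity
      fun p => ENNReal.ofReal (1 / p.2 ^ 2))

/-- S-PBD: the sums over the group are bounded on the fundamental domain -/
def sPBD : Prop := ∀ B : ℍ → ℂ, BC B → (∀ z, {g : SG | B (g • z) ≠ 0}.Finite) ∧
  Measurable (Poi B) ∧ Inv (Poi B) ∧ (∃ C : ℝ, ∀ z ∈ Dm, ‖Poi B z‖ ≤ C) ∧
  ∀ g : SG, Poi (fun w => B (g • w)) = Poi B

/-- S-C2: counting -/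
def sC2 : Prop := ∃ C : ℝ, ∀ (ε : ℝ) (z : ℍ), 0 < ε → ε ≤ 1 → z ∈ Dm →
  {g : SG | ε ≤ (g • z).im ∧ |(g • z).re| ≤ 1}.Finite ∧
  ({g : SG | ε ≤ (g • z).im ∧ |(g • z).re| ≤ 1}.ncard : ℝ) ≤ C / ε ^ 2

/-- S-HI: functions supported in y > 1 -/
def sHI : Prop := ∀ B : ℍ → ℂ, BC B → (∀ z, z.im ≤ 1 → B z = 0) →
  ∀ z ∈ Dm, Poi B z = 2 * ∑' m : ℤ, B ((m : ℝ) +ᵥ z)

/-- S-REG: functions with vanishing sum over the translations -/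
def sREG : Prop := ∀ Q : ℍ → ℂ, BC Q → (∀ z, ∑' m : ℤ, Q ((m : ℝ) +ᵥ z) = 0) →
  ∀ z, Poi Q z = 0

/-- S-GEN: invariance under the generators is enough -/
def sGEN : Prop := ∀ f : ℍ → ℂ, (∀ z : ℍ, f ((1 : ℝ) +ᵥ z) = f z) →
  (∀ z : ℍ, f (ModularGroup.S • z) = f z) → Inv f

/-! ## smooth functions -/

/-- S-PSM -/
def sPSM : Prop := ∀ P : ℍ → ℂ, TH P → Core (Poi P)

/-- S-TBC -/
def sTBC : Prop := ∀ P : ℍ → ℂ, TH P → BC P ∧ BC (lap P) ∧ TH (fun z => (starRingEnd ℂ) (P z))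

/-- S-CM: continuity -/
def sCM : Prop := ∀ f : ℍ → ℂ, Sm f → Continuous f ∧ Continuous (gx f) ∧ Continuous (gy f) ∧
  Continuous (lap f)

/-- S-GRAD: conformal invariance of the product of gradients -/
def sGRAD : Prop := ∀ f P : ℍ → ℂ, Sm f → Inv f → TH P →
  BC (fun w => gx f w * gx P w + gy f w * gy P w) ∧
  ∀ z, gx f z * gx (Poi P) z + gy f z * gy (Poi P) z =
    Poi (fun w => gx f w * gx P w + gy f w * gy P w) z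

/-- S-GREEN -/
def sGREEN : Prop := ∀ f P : ℍ → ℂ, Sm f → TH P →
  ∫ z : ℍ, (gx f z * gx P z + gy f z * gy P z) = ∫ z : ℍ, f z * lap P z

/-- S-GR: the Green identity on the modular surface -/
def sGR : Prop := ∀ f P : ℍ → ℂ, Core f → TH P →
  ∫ z, (gx f z * gx (Poi P) z + gy f z * gy (Poi P) z) ∂muD = ∫ z, f z * Poi (lap P) z ∂muD

/-- S-CE: the functions χ(y) η(x) -/
def sCE : Prop := ∀ χ η : ℝ → ℝ, Chi χ → Eta η → TH (ce χ η) ∧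
  (∀ z, lap (ce χ η) z = -ce (fun y => y ^ 2 * iteratedDeriv 2 χ y) η z -
    ce (fun y => y ^ 2 * χ y) (iteratedDeriv 2 η) z) ∧
  (∀ x, ∑' n : ℤ, iteratedDeriv 2 η (x + n) = 0) ∧
  BC (ce (fun y => y ^ 2 * χ y) (iteratedDeriv 2 η))

/-- S-XW: the functions X(x/y) W(log|z|/n) -/
def sXW : Prop := ∀ (X W : ℝ → ℝ) (n : ℕ), Tst X → ContDiff ℝ (⊤ : ℕ∞) W →
  (∀ x, 2 ≤ |x| → W x = 0) → 1 ≤ n → TH (XW X W n) ∧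
  ∀ z, lap (XW X W n) z = XW (DX X) W n z -
    1 / (n : ℂ) ^ 2 * XW (fun t => X t / (1 + t ^ 2)) (iteratedDeriv 2 W) n z

/-- S-ETA: partitions of unity and cutoff functions exist -/
def sETA : Prop := (∃ η, Eta η) ∧ ∃ Z, Cut Z

/-! ## the closed form -/

/-- S-VSUB -/
def sVSUB : Prop := (Vsub : Set H3) = closure VS ∧ (∀ v : H3, ‖v‖ ^ 2 = 6 * ‖pr v‖ ^ 2 + En v) ∧
  (∀ f, Core f → ∃ v ∈ VS, v =ᵐ[muD] jet f ∧ pr v =ᵐ[muD] f ∧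
    En v = ∫ z, (‖gx f z‖ ^ 2 + ‖gy f z‖ ^ 2) ∂muD) ∧
  ∀ v ∈ closure VS, ∃ f : ℕ → ℍ → ℂ, (∀ n, Core (f n)) ∧ ∃ w : ℕ → H3,
    (∀ n, w n =ᵐ[muD] jet (f n)) ∧ Tendsto w atTop (𝓝 v)

/-- S-ZC: zero constant term in the horn -/
def sZC : Prop := ∀ u : ℍ → ℂ, MemLp u 2 muD → Zc u →
  (∀ᵐ y : ℝ, 1 < y → ∫ x in Ioo (-(1 / 2) : ℝ) (1 / 2), u (pt x y) = 0) ∧
  ∀ b : ℝ → ℂ, Measurable b → IntegrableOn (fun z : ℍ => u z * b z.im) Dh →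
    ∫ z in Dh, u z * b z.im = 0

/-- S-POI: weighted Poincaré inequality in the horn -/
def sPOI : Prop := ∀ v ∈ closure VS, Zc (pr v) →
  IntegrableOn (fun z : ℍ => ‖pr v z‖ ^ 2 * z.im ^ 2) Dh ∧
  ∫ z in Dh, ‖pr v z‖ ^ 2 * z.im ^ 2 ≤ 1 / 2 * En v

/-- S-LOW: the lower part of the fundamental domain -/
def sLOW : Prop := ∀ v ∈ closure VS, ∫ z in {z : ℍ | z ∈ Dm ∧ z.im ≤ 1}, ‖pr v z‖ ^ 2 ≤
  3 * (∫ z in {z : ℍ | z ∈ Dh ∧ z.im ≤ 2}, ‖pr v z‖ ^ 2 * z.im ^ 2) + 1 / 2 * En v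

/-- S-LAM: spectral gap on the space of functions without constant term -/
def sLAM : Prop := ∀ v ∈ closure VS, Zc (pr v) → ‖pr v‖ ^ 2 ≤ 5 / 2 * En v

/-- S-CELL: the compact part -/
def sCELL : Prop := ∀ Y ε : ℝ, 1 < Y → 0 < ε → ∃ (n : ℕ) (l : Fin n → (HD →L[ℂ] ℂ)),
  ∀ v ∈ closure VS, ∫ z in {z : ℍ | z ∈ Dm ∧ z.im ≤ Y}, ‖pr v z‖ ^ 2 ≤
    ε * En v + ∑ i, ‖l i (pr v)‖ ^ 2

/-- S-REL: compactness -/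
def sREL : Prop := ∀ ε : ℝ, 0 < ε → ∃ (n : ℕ) (l : Fin n → (HD →L[ℂ] ℂ)),
  ∀ v ∈ closure VS, Zc (pr v) → ‖pr v‖ ≤ ε * ‖v‖ + ∑ i, ‖l i (pr v)‖

/-- S-TR: the Green identity for the closed form -/
def sTR : Prop := ∀ v ∈ closure VS, ∀ P : ℍ → ℂ, TH P →
  ∫ z, (v z 1 * gx (Poi P) z + v z 2 * gy (Poi P) z) ∂muD = ∫ z, pr v z * Poi (lap P) z ∂muD

/-- S-WEAK: the equation (Δ + 6) T u = u -/
def sWEAK : Prop := ∀ (u : HD) (P : ℍ → ℂ), TH P →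
  Lam (lap P) (Tq u) + 6 * Lam P (Tq u) = Lam P u

/-- S-KER -/
def sKER : Prop := ∀ u : HD, (∀ P : ℍ → ℂ, TH P → Lam P u = 0) → u = 0

/-- S-H0 -/
def sH0 : Prop := ∃ H0 : Submodule ℂ HD, IsClosed (H0 : Set HD) ∧ ∀ u : HD, u ∈ H0 ↔ Zc u

/-- S-EUL: the Euler equation -y² a'' + 6 a = 0, weakly -/
def sEUL : Prop := ∀ A : (ℝ → ℝ) → ℂ,
  (∀ χ₁ χ₂, Chi χ₁ → Chi χ₂ → A (fun y => χ₁ y + χ₂ y) = A χ₁ + A χ₂) →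
  (∀ (c : ℝ) (χ : ℝ → ℝ), Chi χ → A (fun y => c * χ y) = c * A χ) →
  (∃ C : ℝ, ∀ (χ : ℝ → ℝ) (M ε : ℝ), Chi χ → 0 < ε → ε ≤ 1 → (∀ y, y < ε → χ y = 0) →
    (∀ y, |χ y| ≤ M) → ‖A χ‖ ≤ C * M / ε ^ 2) →
  (∀ χ, Chi χ → A (fun y => -(y ^ 2 * iteratedDeriv 2 χ y) + 6 * χ y) = 0) →
  ∀ χ, Chi χ → A χ = 0

/-- S-INVT: T preserves the functions without constant term -/
def sINVT : Prop := ∀ u : HD, Zc u → Zc (Tq u)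

/-- S-ABS: expansion in eigenvectors -/
def sABS : Prop := ∀ (H E : Type) [NormedAddCommGroup H] [InnerProductSpace ℂ H] [CompleteSpace H]
  [NormedAddCommGroup E] [InnerProductSpace ℂ E] [CompleteSpace E] (p : E →L[ℂ] H)
  (H0 : Submodule ℂ H), IsClosed (H0 : Set H) →
  (∀ u ∈ H0, p (ContinuousLinearMap.adjoint p u) ∈ H0) →
  (∀ u ∈ H0, p (ContinuousLinearMap.adjoint p u) = 0 → u = 0) →
  (∀ ε : ℝ, 0 < ε → ∃ (n : ℕ) (l : Fin n → (H →L[ℂ] ℂ)), ∀ v : E, p v ∈ H0 →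
    ‖p v‖ ≤ ε * ‖v‖ + ∑ i, ‖l i (p v)‖) →
  ∀ F ∈ H0, ∃ (φ : ℕ → H) (τ : ℕ → ℝ) (a : ℕ → ℂ),
    (∀ j, φ j ∈ H0 ∧ 0 < τ j ∧ p (ContinuousLinearMap.adjoint p (φ j)) = (τ j : ℂ) • φ j) ∧
    ∀ L : H →L[ℂ] ℂ, Summable (fun j => ‖a j * L (φ j)‖) ∧ ∑' j, a j * L (φ j) = L F

/-! ## the cone -/

/-- S-RIE: Riemann sums -/
def sRIE : Prop := ∀ X : ℝ → ℝ, Tst X → ∀ x y : ℝ, 0 < y →
  |(∑' m : ℤ, X ((x + m) / y)) - y * ∫ t : ℝ, X t| ≤ ∫ t : ℝ, |deriv X t|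

/-- S-LX1: the functional is bounded -/
def sLX1 : Prop := ∀ X : ℝ → ℝ, Tst X → ∃ L : HD →L[ℂ] ℂ, ∀ u : HD, L u = lX X u

/-- S-LXD: decomposition of the pairing with X(x/y) W(log|z|/n) -/
def sLXD : Prop := ∀ (X W : ℝ → ℝ) (u : ℍ → ℂ), Tst X → ContDiff ℝ (⊤ : ℕ∞) W →
  (∀ x, W (-x) = W x) → (∀ x, 2 ≤ |x| → W x = 0) → MemLp u 2 muD → ∀ n : ℕ, 1 ≤ n →
  Lam (XW X W n) u = 2 * Lam (fun z => if 1 < ‖(z : ℂ)‖ ∧ z.im ≤ 1 then XW X W n z else 0) u +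
    2 * ∫ z in Dh, u z * ∑' m : ℤ, XW X W n ((m : ℝ) +ᵥ z)

/-- S-LX2: limit -/
def sLX2 : Prop := ∀ (X Z : ℝ → ℝ) (u : ℍ → ℂ), Tst X → Cut Z → MemLp u 2 muD → Zc u →
  IntegrableOn (fun z : ℍ => u z * (z.im : ℂ)) Dh →
  Tendsto (fun n : ℕ => Lam (XW X Z n) u) atTop (𝓝 (lX X u))

/-- S-LX3: boundedness -/
def sLX3 : Prop := ∀ (X W : ℝ → ℝ) (u : ℍ → ℂ), Tst X → ContDiff ℝ (⊤ : ℕ∞) W →
  (∀ x, W (-x) = W x) → (∀ x, 2 ≤ |x| → W x = 0) → MemLp u 2 muD →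
  IntegrableOn (fun z : ℍ => u z * (z.im : ℂ)) Dh →
  ∃ C : ℝ, ∀ n : ℕ, 1 ≤ n → ‖Lam (XW X W n) u‖ ≤ C

/-- S-CONE: the functionals ℓ_X of a weak eigenfunction -/
def sCONE : Prop := ∀ (u : ℍ → ℂ) (l : ℂ), MemLp u 2 muD → Zc u →
  IntegrableOn (fun z : ℍ => u z * (z.im : ℂ)) Dh →
  (∀ P : ℍ → ℂ, TH P → Lam (lap P) u = l * Lam P u) →
  ∀ X : ℝ → ℝ, Tst X → lX (DX X) u = l * lX X u

/-! ## the cuspidal function -/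

/-- S-LF: the pairing of an invariant function -/
def sLF : Prop := ∀ f : ℍ → ℂ, Continuous f → Inv f → ∀ B : ℍ → ℂ, BC B →
  Lam B f = ∫ z : ℍ, f z * B z

/-- S-FB -/
def sFB : Prop := ∀ F : ℝ → ℝ → ℂ, Aut F → Cusp F → Small F →
  Continuous (fun z : ℍ => F z.re z.im) ∧ Inv (fun z : ℍ => F z.re z.im) ∧
  MemLp (fun z : ℍ => F z.re z.im) 2 muD ∧ Zc (fun z : ℍ => F z.re z.im) ∧
  IntegrableOn (fun z : ℍ => F z.re z.im * (z.im : ℂ)) Dh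

/-- S-POL: polar coordinates -/
def sPOL : Prop := ∀ h : ℍ → ℂ, Continuous h → HasCompactSupport h → ∫ z : ℍ, h z =
  ∫ t : ℝ, ∫ τ : ℝ, h (pt (Real.exp τ * t / √(1 + t ^ 2)) (Real.exp τ / √(1 + t ^ 2)))

/-- S-RAYB: decay on the rays -/
def sRAYB : Prop := ∀ F : ℝ → ℝ → ℂ, Aut F → Small F → ∀ A : ℝ, ∃ C : ℝ, ∀ t τ : ℝ, |t| ≤ A →
  ‖F (Real.exp τ * t / √(1 + t ^ 2)) (Real.exp τ / √(1 + t ^ 2))‖ ≤ C * Real.exp (-|τ|)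

/-- S-FR -/
def sFR : Prop := ∀ F : ℝ → ℝ → ℂ, Aut F → Cusp F → Small F → ∀ X : ℝ → ℝ, Tst X →
  lX X (fun z : ℍ => F z.re z.im) = ∫ t : ℝ, ray F t * X t

/-! ## the radial equation -/

/-- S-JE: the even solution -/
def sJE : Prop := ∀ κ : ℝ, ContDiff ℝ (⊤ : ℕ∞) (fun t : ℝ => Jk κ (Real.arsinh t : ℝ)) ∧
  (∀ t : ℝ, Jk κ (Real.arsinh (-t) : ℝ) = Jk κ (Real.arsinh t : ℝ)) ∧
  (∀ t : ℝ, -deriv (fun x : ℝ => (1 + x ^ 2 : ℝ) * deriv (fun t : ℝ => Jk κ (Real.arsinh t : ℝ)) x) t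
    = (1 / 4 + κ ^ 2 : ℝ) * Jk κ (Real.arsinh t : ℝ)) ∧ Jk κ (Real.arsinh 0 : ℝ) ≠ 0

/-- S-JO: an odd solution -/
def sJO : Prop := ∀ κ : ℝ, ∃ g : ℝ → ℂ, ContDiff ℝ (⊤ : ℕ∞) g ∧ (∀ t : ℝ, g (-t) = -g t) ∧
  (∀ t : ℝ, -deriv (fun x : ℝ => (1 + x ^ 2 : ℝ) * deriv g x) t = (1 / 4 + κ ^ 2 : ℝ) * g t) ∧
  deriv g 0 ≠ 0

/-- S-ODE: functionals on even test functions -/
def sODE : Prop := ∀ (κ : ℝ) (A : (ℝ → ℝ) → ℂ),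
  (∀ X Y, Tst X → Tst Y → A (fun t => X t + Y t) = A X + A Y) →
  (∀ (c : ℝ) (X : ℝ → ℝ), Tst X → A (fun t => c * X t) = c * A X) →
  (∀ X, Tst X → A (DX X) = (1 / 4 + κ ^ 2 : ℝ) * A X) →
  ∃ ρ : ℂ, ∀ X, Tst X → A X = ρ * ∫ t : ℝ, Jk κ (Real.arsinh t : ℝ) * X t

end FMZ
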