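import Pool.Agent.FMZ.TZ

/-!
# FMZ-Z11: behaviour of `B0` at infinity under the hypothesis
-/

open Complex MeasureTheory Set Filter Topology

namespace FMZ

namespace ZINF_

lemma zh_cont : Continuous zh := by
  unfold zh
  refine continuous_iff_continuousAt.2 fun u => ?_
  have h1 : (1 / 2 + (u : ℂ) * I) ≠ 1 := by
    intro h
    have := congrArg Complex.re h
    norm_num at this
  have h2 : ContinuousAt riemannZeta (1 / 2 + (u : ℂ) * I) :=
    (differentiableAt_riemannZeta h1).continuousAt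
  have h3 : ContinuousAt (fun u : ℝ => (1 / 2 + (u : ℂ) * I)) u := by fun_prop
  exact ContinuousAt.comp (f := fun u : ℝ => (1 / 2 + (u : ℂ) * I)) h2 h3

lemma zh_neg (u : ℝ) : ‖zh (-u)‖ = ‖zh u‖ := by
  unfold zh
  have h : (1 / 2 + ((-u : ℝ) : ℂ) * I) = (starRingEnd ℂ) (1 / 2 + (u : ℂ) * I) := by
    simp [Complex.ext_iff]
  rw [h, riemannZeta_conj, Complex.norm_conj]

lemma zh4_cont : Continuous (fun u => ‖zh u‖ ^ 4) := (zh_cont.norm).pow 4

lemma M4_deriv (u : ℝ) : HasDerivAt M4 (‖zh u‖ ^ 4) u := by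
  unfold M4
  exact intervalIntegral.integral_hasDerivAt_right (zh4_cont.intervalIntegrable _ _)
    (zh4_cont.stronglyMeasurableAtFilter _ _) zh4_cont.continuousAt

lemma poly_exp (P : Polynomial ℝ) : ∃ K : ℝ, 0 ≤ K ∧ ∀ x : ℝ, |P.eval x| ≤ K * Real.exp (|x| / 2) := by
  induction P using Polynomial.induction_on' with
  | add p q hp hq =>
    obtain ⟨K1, h1, h1'⟩ := hp
    obtain ⟨K2, h2, h2'⟩ := hq
    refine ⟨K1 + K2, by positivity, fun x => ?_⟩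
    rw [Polynomial.eval_add, add_mul]
    exact (abs_add_le _ _).trans (add_le_add (h1' x) (h2' x))
  | monomial n a =>
    refine ⟨|a| * (n.factorial * 2 ^ n), by positivity, fun x => ?_⟩
    rw [Polynomial.eval_monomial, abs_mul, abs_pow]
    have h := Real.pow_div_factorial_le_exp (|x| / 2) (by positivity) n
    rw [div_le_iff₀ (by positivity), div_pow, div_le_iff₀ (by positivity)] at h
    calc |a| * |x| ^ n ≤ |a| * (Real.exp (|x| / 2) * n.factorial * 2 ^ n) :=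
          mul_le_mul_of_nonneg_left h (abs_nonneg _)
      _ = _ := by ring

lemma log_poly (P : Polynomial ℝ) : ∃ K : ℝ, 0 ≤ K ∧ ∀ u : ℝ, 0 < u →
    |P.eval (Real.log u)| ≤ K * ((1 + u) / √u) := by
  obtain ⟨K, hK, h⟩ := poly_exp P
  refine ⟨K, hK, fun u hu => (h _).trans (mul_le_mul_of_nonneg_left ?_ hK)⟩
  have hs : 0 < √u := Real.sqrt_pos.2 hu
  have h1 : Real.exp (Real.log u / 2) = √u := by
    rw [Real.sqrt_eq_rpow, Real.rpow_def_of_pos hu]; ring_nf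
  rw [le_div_iff₀ hs]
  rcases le_total 0 (Real.log u) with h0 | h0
  · rw [abs_of_nonneg h0, h1, Real.mul_self_sqrt hu.le]; linarith
  · rw [abs_of_nonpos h0, show -Real.log u / 2 = -(Real.log u / 2) by ring, Real.exp_neg, h1,
      inv_mul_cancel₀ hs.ne']
    linarith

lemma ulog_poly (P : Polynomial ℝ) : ∃ K : ℝ, 0 ≤ K ∧ ∀ u : ℝ, 0 < u →
    |u * P.eval (Real.log u)| ≤ K * (√u * (1 + u)) := by
  obtain ⟨K, hK, h⟩ := log_poly P
  refine ⟨K, hK, fun u hu => ?_⟩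
  rw [abs_mul, abs_of_pos hu]
  have hs : 0 < √u := Real.sqrt_pos.2 hu
  calc u * |P.eval (Real.log u)| ≤ u * (K * ((1 + u) / √u)) :=
        mul_le_mul_of_nonneg_left (h u hu) hu.le
    _ = K * ((√u * √u) * (1 + u) / √u) := by rw [Real.mul_self_sqrt hu.le]; ring
    _ = _ := by field_simp

/-- the error term `E(u) = M4(u) - u P(log u)` is `O(√u)` for all `u > 0` -/
lemma E_bound (P : Polynomial ℝ) (C : ℝ) (h : Hyp P C) : ∃ K : ℝ, 0 ≤ K ∧ ∀ u : ℝ, 0 < u →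
    |M4 u - u * P.eval (Real.log u)| ≤ K * √u := by
  obtain ⟨K1, hK1, h1⟩ := ulog_poly P
  obtain ⟨S, hS⟩ := (isCompact_Icc (a := (0 : ℝ)) (b := 1)).exists_bound_of_continuousOn
    (f := fun u => ‖zh u‖ ^ 4) zh4_cont.continuousOn
  refine ⟨|C| + |S| + 2 * K1, by positivity, fun u hu => ?_⟩
  have hs : 0 < √u := Real.sqrt_pos.2 hu
  rcases le_total 1 u with h2 | h2
  · refine (h u h2).trans ?_
    have : C * √u ≤ |C| * √u := mul_le_mul_of_nonneg_right (le_abs_self _) hs.le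
    have h3 : 0 ≤ |S| * √u := by positivity
    have h4 : 0 ≤ 2 * K1 * √u := by positivity
    nlinarith
  · have h3 : |M4 u| ≤ |S| * u := by
      unfold M4
      have h4 := intervalIntegral.norm_integral_le_of_norm_le_const (a := 0) (b := u) (C := |S|)
        (f := fun u => ‖zh u‖ ^ 4) (fun x hx => by
          rw [uIoc_of_le hu.le] at hx
          exact (hS x ⟨hx.1.le, hx.2.trans h2⟩).trans (le_abs_self _))
      rw [Real.norm_eq_abs, sub_zero, abs_of_pos hu] at h4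
      exact h4
    have h5 : u ≤ √u := by
      have h6 : √u ≤ 1 := Real.sqrt_le_one.2 h2
      nlinarith [Real.mul_self_sqrt hu.le]
    have h6 := h1 u hu
    have h7 : K1 * (√u * (1 + u)) ≤ K1 * (√u * 2) := by
      apply mul_le_mul_of_nonneg_left _ hK1
      apply mul_le_mul_of_nonneg_left _ hs.le
      linarith
    have h8 : |S| * u ≤ |S| * √u := mul_le_mul_of_nonneg_left h5 (abs_nonneg _)
    calc |M4 u - u * P.eval (Real.log u)| ≤ |M4 u| + |u * P.eval (Real.log u)| := abs_sub _ _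
      _ ≤ |S| * √u + K1 * (√u * 2) := add_le_add (h3.trans h8) (h6.trans h7)
      _ ≤ (|C| + |S| + 2 * K1) * √u := by
        have : 0 ≤ |C| * √u := by positivity
        nlinarith

lemma M4_bound (P : Polynomial ℝ) (C : ℝ) (h : Hyp P C) : ∃ K : ℝ, 0 ≤ K ∧ ∀ u : ℝ, 0 < u →
    |M4 u| ≤ K * (√u * (1 + u)) := by
  obtain ⟨K1, hK1, h1⟩ := ulog_poly P
  obtain ⟨K2, hK2, h2⟩ := E_bound P C h
  refine ⟨K1 + K2, by positivity, fun u hu => ?_⟩
  have hs : 0 < √u := Real.sqrt_pos.2 hu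
  have h3 : |M4 u| ≤ |M4 u - u * P.eval (Real.log u)| + |u * P.eval (Real.log u)| := by
    have := abs_add_le (M4 u - u * P.eval (Real.log u)) (u * P.eval (Real.log u))
    rwa [sub_add_cancel] at this
  have h4 := h1 u hu
  have h5 := h2 u hu
  have h6 : K2 * √u ≤ K2 * (√u * (1 + u)) := by
    apply mul_le_mul_of_nonneg_left _ hK2
    nlinarith
  linarith

lemma zh4_int (P : Polynomial ℝ) (C : ℝ) (h : Hyp P C) :
    IntegrableOn (fun u : ℝ => ‖zh u‖ ^ 4 * u ^ (-2 : ℝ)) (Ioi 1) := by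
  obtain ⟨K, hK, h1⟩ := M4_bound P C h
  have hcont : ContinuousOn (fun u : ℝ => ‖zh u‖ ^ 4 * u ^ (-2 : ℝ)) (Ioi 0) :=
    zh4_cont.continuousOn.mul (fun u hu =>
      (Real.continuousAt_rpow_const u (-2) (Or.inl (ne_of_gt hu))).continuousWithinAt)
  refine integrableOn_Ioi_of_intervalIntegral_norm_bounded (2 * K + 8 * K + |M4 1|) 1
    (l := atTop) (b := fun T : ℝ => T) (fun T => ?_) tendsto_id ?_
  · refine (hcont.mono ?_).integrableOn_Icc.mono_set Ioc_subset_Icc_self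
    intro x hx
    exact lt_of_lt_of_le one_pos hx.1
  filter_upwards [eventually_ge_atTop (1 : ℝ)] with T hT
  have hpos : ∀ x ∈ uIcc (1 : ℝ) T, 0 < x := fun x hx => by
    rw [uIcc_of_le hT] at hx
    exact lt_of_lt_of_le one_pos hx.1
  have e1 : ∫ x in (1 : ℝ)..T, ‖‖zh x‖ ^ 4 * x ^ (-2 : ℝ)‖ =
      ∫ x in (1 : ℝ)..T, x ^ (-2 : ℝ) * ‖zh x‖ ^ 4 := by
    refine intervalIntegral.integral_congr fun x hx => ?_
    have := hpos x hx
    rw [Real.norm_of_nonneg (by positivity), mul_comm]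
  have hd : ∀ x ∈ uIcc (1 : ℝ) T, HasDerivAt (fun x : ℝ => x ^ (-2 : ℝ)) (-2 * x ^ (-3 : ℝ)) x := by
    intro x hx
    have := Real.hasDerivAt_rpow_const (x := x) (p := -2) (Or.inl (hpos x hx).ne')
    convert this using 2
    norm_num
  have hc3 : ContinuousOn (fun x : ℝ => -2 * x ^ (-3 : ℝ)) (uIcc 1 T) :=
    continuousOn_const.mul (fun u hu =>
      (Real.continuousAt_rpow_const u (-3) (Or.inl (hpos u hu).ne')).continuousWithinAt)
  have e2 := intervalIntegral.integral_mul_deriv_eq_deriv_mul (a := 1) (b := T)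
    (u := fun x : ℝ => x ^ (-2 : ℝ)) (v := M4) (u' := fun x => -2 * x ^ (-3 : ℝ))
    (v' := fun x => ‖zh x‖ ^ 4) hd (fun x _ => M4_deriv x)
    hc3.intervalIntegrable (zh4_cont.intervalIntegrable _ _)
  rw [e1, e2]
  have hT0 : 0 < T := by linarith
  have hM : ∀ x : ℝ, 1 ≤ x → |M4 x| ≤ 2 * K * x ^ (3 / 2 : ℝ) := by
    intro x hx
    have hx0 : 0 < x := by linarith
    refine (h1 x hx0).trans ?_
    have h2 : x ^ (3 / 2 : ℝ) = √x * x := by
      rw [show (3 / 2 : ℝ) = 1 / 2 + 1 by norm_num, Real.rpow_add hx0, Real.rpow_one,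
        Real.sqrt_eq_rpow]
    rw [h2]
    have h3 : 0 ≤ √x := Real.sqrt_nonneg _
    have h4 : √x * (1 + x) ≤ 2 * (√x * x) := by nlinarith
    calc K * (√x * (1 + x)) ≤ K * (2 * (√x * x)) := mul_le_mul_of_nonneg_left h4 hK
      _ = _ := by ring
  have b1 : T ^ (-2 : ℝ) * M4 T ≤ 2 * K := by
    have h2 : T ^ (-2 : ℝ) * M4 T ≤ T ^ (-2 : ℝ) * (2 * K * T ^ (3 / 2 : ℝ)) :=
      mul_le_mul_of_nonneg_left ((le_abs_self _).trans (hM T hT)) (Real.rpow_nonneg hT0.le _)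
    refine h2.trans ?_
    have h3 : T ^ (-2 : ℝ) * (2 * K * T ^ (3 / 2 : ℝ)) = 2 * K * T ^ (-(1 / 2) : ℝ) := by
      rw [show (-(1 / 2) : ℝ) = -2 + 3 / 2 by norm_num, Real.rpow_add hT0]; ring
    rw [h3]
    have h4 : T ^ (-(1 / 2) : ℝ) ≤ 1 := Real.rpow_le_one_of_one_le_of_nonpos hT (by norm_num)
    nlinarith
  have b2 : -((1 : ℝ) ^ (-2 : ℝ) * M4 1) ≤ |M4 1| := by
    rw [Real.one_rpow, one_mul]; exact neg_le_abs _
  have b3 : -(∫ x in (1 : ℝ)..T, -2 * x ^ (-3 : ℝ) * M4 x) ≤ 8 * K := by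
    have h2 : ‖∫ x in (1 : ℝ)..T, -2 * x ^ (-3 : ℝ) * M4 x‖ ≤
        ∫ x in (1 : ℝ)..T, 4 * K * x ^ (-(3 / 2) : ℝ) := by
      refine intervalIntegral.norm_integral_le_of_norm_le hT ?_ ?_
      · refine Eventually.of_forall fun x hx => ?_
        have hx0 : 0 < x := by linarith [hx.1]
        rw [norm_mul, norm_mul, Real.norm_eq_abs, Real.norm_eq_abs, Real.norm_eq_abs,
          abs_of_nonneg (Real.rpow_nonneg hx0.le _)]
        have h3 := hM x hx.1.le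
        calc |(-2 : ℝ)| * x ^ (-3 : ℝ) * |M4 x| ≤ |(-2 : ℝ)| * x ^ (-3 : ℝ) * (2 * K * x ^ (3 / 2 : ℝ)) := by
              apply mul_le_mul_of_nonneg_left h3
              have := Real.rpow_nonneg hx0.le (-3); positivity
          _ = 4 * K * (x ^ (-3 : ℝ) * x ^ (3 / 2 : ℝ)) := by
              rw [abs_neg, abs_of_pos (by norm_num : (0 : ℝ) < 2)]; ring
          _ = 4 * K * x ^ (-(3 / 2) : ℝ) := by
              rw [← Real.rpow_add hx0]; norm_num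
      · exact (continuousOn_const.mul (fun u hu =>
          (Real.continuousAt_rpow_const u (-(3 / 2)) (Or.inl (hpos u hu).ne')).continuousWithinAt)).intervalIntegrable
    have h3 : ∫ x in (1 : ℝ)..T, 4 * K * x ^ (-(3 / 2) : ℝ) ≤ 8 * K := by
      rw [intervalIntegral.integral_const_mul, integral_rpow (Or.inr ⟨by norm_num, fun h0 =>
        absurd (hpos 0 h0) (lt_irrefl _)⟩)]
      have h4 : 0 ≤ T ^ (-(3 / 2) + 1 : ℝ) := Real.rpow_nonneg hT0.le _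
      have h5 : (T ^ (-(3 / 2) + 1 : ℝ) - 1 ^ (-(3 / 2) + 1 : ℝ)) / (-(3 / 2) + 1 : ℝ) ≤ 2 := by
        rw [Real.one_rpow, div_le_iff_of_neg (by norm_num)]
        linarith
      nlinarith
    have h4 := neg_le_of_abs_le (h2.trans h3)
    linarith
  linarith

/-! ### the kernel -/

lemma exp_quad (c : ℝ) (hc : 0 < c) : ∃ K : ℝ, 0 < K ∧ ∀ u : ℝ, 0 ≤ u →
    (1 + u) ^ 2 ≤ K * Real.exp (c * u) := by
  refine ⟨2 + 4 / c ^ 2, by positivity, fun u hu => ?_⟩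
  have h1 := Real.quadratic_le_exp_of_nonneg (x := c * u) (by positivity)
  have h2 : (1 + u) ^ 2 ≤ (2 + 4 / c ^ 2) * (1 + c * u + (c * u) ^ 2 / 2) := by
    have h3 : (2 + 4 / c ^ 2) * (1 + c * u + (c * u) ^ 2 / 2) =
        2 + 2 * u ^ 2 + (4 / c ^ 2 + (2 + 4 / c ^ 2) * (c * u) + c ^ 2 * u ^ 2) := by
      field_simp; ring
    rw [h3]
    have h4 : 0 ≤ 4 / c ^ 2 + (2 + 4 / c ^ 2) * (c * u) + c ^ 2 * u ^ 2 := by positivity
    nlinarith [sq_nonneg (1 - u)]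
  exact h2.trans (mul_le_mul_of_nonneg_left h1 (by positivity))

lemma cos_pos {d : ℂ} (hd : d ∈ S0) : 0 < Real.cos d.im :=
  Real.cos_pos_of_mem_Ioo (abs_lt.1 hd)

/-- the argument of the Bessel functions -/
lemma arg_re (u : ℝ) (d : ℂ) : (2 * u * Complex.exp (-d)).re =
    2 * Real.exp (-d.re) * Real.cos d.im * u := by
  rw [show (2 * (u : ℂ) * Complex.exp (-d)) = ((2 * u : ℝ) : ℂ) * Complex.exp (-d) by push_cast; ring,
    Complex.re_ofReal_mul, Complex.exp_re]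
  simp only [neg_re, neg_im, Real.cos_neg]
  ring

lemma arg_norm (u : ℝ) (hu : 0 < u) (d : ℂ) : ‖2 * (u : ℂ) * Complex.exp (-d)‖ =
    2 * Real.exp (-d.re) * u := by
  rw [norm_mul, Complex.norm_exp, norm_mul, Complex.norm_real, Real.norm_of_nonneg hu.le]
  simp only [neg_re, Complex.norm_ofNat]
  ring

lemma kf_bound (h : tK0) : ∃ C : ℝ, 0 < C ∧ ∀ d ∈ S0, ∀ u : ℝ, 0 < u →
    ‖kf u d‖ ≤ C * Real.exp (-(7 / 16 * d.re)) * u ^ (-(1 / 16) : ℝ) *
      Real.exp (-(2 * Real.exp (-d.re) * Real.cos d.im * u)) := by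
  obtain ⟨-, ⟨C, hC, hK⟩, -⟩ := h
  refine ⟨2 * √2 * C, by positivity, fun d hd u hu => ?_⟩
  have hcos := cos_pos hd
  have hre : 0 < (2 * (u : ℂ) * Complex.exp (-d)).re := by
    rw [arg_re]; positivity
  have h1 := (hK _ hre).2.1
  rw [arg_norm u hu, arg_re] at h1
  unfold kf
  rw [norm_mul, norm_mul, norm_mul, Complex.norm_exp, Complex.norm_ofNat, Complex.norm_real,
    Real.norm_of_nonneg (Real.sqrt_nonneg _)]
  have h2 : (-d / 2).re = -(d.re / 2) := by simp [neg_div]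
  rw [h2]
  have h3 : (2 * Real.exp (-d.re) * u) ^ (-(1 / 16) : ℝ) ≤
      Real.exp (d.re / 16) * u ^ (-(1 / 16) : ℝ) := by
    rw [Real.mul_rpow (by positivity) hu.le, Real.mul_rpow (by norm_num) (Real.exp_pos _).le,
      ← Real.exp_mul]
    have h4 : (2 : ℝ) ^ (-(1 / 16) : ℝ) ≤ 1 :=
      Real.rpow_le_one_of_one_le_of_nonpos (by norm_num) (by norm_num)
    have h5 : -d.re * (-(1 / 16)) = d.re / 16 := by ring
    rw [h5]
    have h6 : 0 ≤ u ^ (-(1 / 16) : ℝ) := Real.rpow_nonneg hu.le _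
    have h7 : (2 : ℝ) ^ (-(1 / 16) : ℝ) * Real.exp (d.re / 16) ≤ 1 * Real.exp (d.re / 16) :=
      mul_le_mul_of_nonneg_right h4 (Real.exp_pos _).le
    rw [one_mul] at h7
    exact mul_le_mul_of_nonneg_right h7 h6
  have h8 : 0 ≤ C * Real.exp (-(2 * Real.exp (-d.re) * Real.cos d.im * u)) := by positivity
  have h9 := h1.trans (mul_le_mul_of_nonneg_left h3 h8)
  have h10 : 0 ≤ 2 * √2 * Real.exp (-(d.re / 2)) := by positivity
  refine (mul_le_mul_of_nonneg_left h9 h10).trans (le_of_eq ?_)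
  have h11 : Real.exp (-(7 / 16 * d.re)) = Real.exp (-(d.re / 2)) * Real.exp (d.re / 16) := by
    rw [← Real.exp_add]; ring_nf
  rw [h11]
  ring

lemma kf_bound' (h : tK0) (d : ℂ) (hd : d ∈ S0) : ∃ C c : ℝ, 0 < C ∧ 0 < c ∧ ∀ u : ℝ, 0 < u →
    ‖kf u d‖ ≤ C * u ^ (-(1 / 16) : ℝ) * Real.exp (-(c * u)) := by
  obtain ⟨C, hC, h1⟩ := kf_bound h
  have hcos := cos_pos hd
  exact ⟨C * Real.exp (-(7 / 16 * d.re)), 2 * Real.exp (-d.re) * Real.cos d.im, by positivity,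
    by positivity, fun u hu => h1 d hd u hu⟩

lemma kf2_bound (h : tK0) (d : ℂ) (hd : d ∈ S0) : ∃ C c : ℝ, 0 < C ∧ 0 < c ∧ ∀ u : ℝ, 0 < u →
    ‖kf u d ^ 2‖ ≤ C * u ^ (-(1 / 8) : ℝ) * Real.exp (-(c * u)) := by
  obtain ⟨C, c, hC, hc, h1⟩ := kf_bound' h d hd
  refine ⟨C ^ 2, 2 * c, by positivity, by positivity, fun u hu => ?_⟩
  rw [norm_pow]
  have h2 := pow_le_pow_left₀ (norm_nonneg _) (h1 u hu) 2
  refine h2.trans (le_of_eq ?_)
  have h3 : u ^ (-(1 / 8) : ℝ) = u ^ (-(1 / 16) : ℝ) * u ^ (-(1 / 16) : ℝ) := by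
    rw [← Real.rpow_add hu]; norm_num
  have h4 : Real.exp (-(2 * c * u)) = Real.exp (-(c * u)) * Real.exp (-(c * u)) := by
    rw [← Real.exp_add]; ring_nf
  rw [h3, h4]; ring

lemma kfd_bound (h : tK0) (d : ℂ) (hd : d ∈ S0) : ∃ C c : ℝ, 0 < C ∧ 0 < c ∧ ∀ u : ℝ, 0 < u →
    ‖kfd u d‖ ≤ C * Real.exp (-(c * u)) * (u ^ (-(9 / 16) : ℝ) + u ^ (-(17 / 16) : ℝ)) := by
  obtain ⟨C1, c, hC1, hc, h1⟩ := kf_bound' h d hd
  obtain ⟨-, ⟨C2, hC2, hK⟩, -⟩ := h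
  have hcos := cos_pos hd
  set ρ := 2 * Real.exp (-d.re) with hρ
  have hρ0 : 0 < ρ := by positivity
  set W := ‖2 * (√2 : ℂ) * Complex.exp (-d / 2) * (2 * Complex.exp (-d))‖ with hW
  refine ⟨2 * C1 * W * C2 * (ρ ^ (-(1 / 2) : ℝ) + ρ ^ (-1 : ℝ)) + 1, c, by positivity, hc,
    fun u hu => ?_⟩
  have hre : 0 < (2 * (u : ℂ) * Complex.exp (-d)).re := by
    rw [arg_re]; positivity
  have h2 := (hK _ hre).2.2
  rw [arg_norm u hu, arg_re, ← hρ] at h2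
  have h3 : ‖K0d (2 * u * Complex.exp (-d))‖ ≤
      C2 * (ρ ^ (-(1 / 2) : ℝ) + ρ ^ (-1 : ℝ)) * (u ^ (-(1 / 2) : ℝ) + u ^ (-1 : ℝ)) := by
    refine h2.trans ?_
    rw [mul_assoc C2, mul_assoc C2]
    refine mul_le_mul_of_nonneg_left ?_ hC2.le
    rw [Real.mul_rpow hρ0.le hu.le, Real.mul_rpow hρ0.le hu.le]
    have e1 : Real.exp (-(ρ * Real.cos d.im * u)) ≤ 1 := by
      rw [Real.exp_le_one_iff]
      have : 0 ≤ ρ * Real.cos d.im * u := by positivity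
      linarith
    have p1 : 0 ≤ ρ ^ (-(1 / 2) : ℝ) := Real.rpow_nonneg hρ0.le _
    have p2 : 0 ≤ ρ ^ (-1 : ℝ) := Real.rpow_nonneg hρ0.le _
    have p3 : 0 ≤ u ^ (-(1 / 2) : ℝ) := Real.rpow_nonneg hu.le _
    have p4 : 0 ≤ u ^ (-1 : ℝ) := Real.rpow_nonneg hu.le _
    have p5 : 0 ≤ ρ ^ (-(1 / 2) : ℝ) * u ^ (-(1 / 2) : ℝ) + ρ ^ (-1 : ℝ) * u ^ (-1 : ℝ) := by
      positivity
    calc Real.exp (-(ρ * Real.cos d.im * u)) *
          (ρ ^ (-(1 / 2) : ℝ) * u ^ (-(1 / 2) : ℝ) + ρ ^ (-1 : ℝ) * u ^ (-1 : ℝ)) ≤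
        1 * (ρ ^ (-(1 / 2) : ℝ) * u ^ (-(1 / 2) : ℝ) + ρ ^ (-1 : ℝ) * u ^ (-1 : ℝ)) :=
          mul_le_mul_of_nonneg_right e1 p5
      _ ≤ _ := by nlinarith [mul_nonneg p1 p4, mul_nonneg p2 p3]
  have h4 : kfd u d = 2 * kf u d * ((2 * √2 * Complex.exp (-d / 2) * (2 * Complex.exp (-d))) *
      K0d (2 * u * Complex.exp (-d))) := by
    unfold kfd; ring
  rw [h4, norm_mul, norm_mul, norm_mul, Complex.norm_ofNat, ← hW]
  have h5 := h1 u hu
  have p0 : 0 ≤ u ^ (-(1 / 16) : ℝ) := Real.rpow_nonneg hu.le _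
  have q1 : 0 ≤ C1 * u ^ (-(1 / 16) : ℝ) * Real.exp (-(c * u)) := by positivity
  have hW0 : 0 ≤ W := norm_nonneg _
  have h6 : 2 * ‖kf u d‖ * (W * ‖K0d (2 * u * Complex.exp (-d))‖) ≤
      2 * (C1 * u ^ (-(1 / 16) : ℝ) * Real.exp (-(c * u))) *
        (W * (C2 * (ρ ^ (-(1 / 2) : ℝ) + ρ ^ (-1 : ℝ)) * (u ^ (-(1 / 2) : ℝ) + u ^ (-1 : ℝ)))) := by
    refine mul_le_mul (mul_le_mul_of_nonneg_left h5 (by norm_num))
      (mul_le_mul_of_nonneg_left h3 hW0) (by positivity) (by positivity)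
  refine h6.trans ?_
  have e2 : u ^ (-(9 / 16) : ℝ) = u ^ (-(1 / 16) : ℝ) * u ^ (-(1 / 2) : ℝ) := by
    rw [← Real.rpow_add hu]; norm_num
  have e3 : u ^ (-(17 / 16) : ℝ) = u ^ (-(1 / 16) : ℝ) * u ^ (-1 : ℝ) := by
    rw [← Real.rpow_add hu]; norm_num
  rw [e2, e3]
  have p3 : 0 ≤ u ^ (-(1 / 2) : ℝ) := Real.rpow_nonneg hu.le _
  have p4 : 0 ≤ u ^ (-1 : ℝ) := Real.rpow_nonneg hu.le _
  have p6 : 0 ≤ Real.exp (-(c * u)) * (u ^ (-(1 / 16) : ℝ) * u ^ (-(1 / 2) : ℝ) +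
      u ^ (-(1 / 16) : ℝ) * u ^ (-1 : ℝ)) := by positivity
  calc _ = (2 * C1 * W * C2 * (ρ ^ (-(1 / 2) : ℝ) + ρ ^ (-1 : ℝ))) *
        (Real.exp (-(c * u)) * (u ^ (-(1 / 16) : ℝ) * u ^ (-(1 / 2) : ℝ) +
          u ^ (-(1 / 16) : ℝ) * u ^ (-1 : ℝ))) := by ring
    _ ≤ (2 * C1 * W * C2 * (ρ ^ (-(1 / 2) : ℝ) + ρ ^ (-1 : ℝ)) + 1) *
        (Real.exp (-(c * u)) * (u ^ (-(1 / 16) : ℝ) * u ^ (-(1 / 2) : ℝ) +
          u ^ (-(1 / 16) : ℝ) * u ^ (-1 : ℝ))) :=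
        mul_le_mul_of_nonneg_right (by linarith) p6
    _ = _ := by ring

lemma int_exp (c s : ℝ) (hc : 0 < c) (hs : -1 < s) :
    IntegrableOn (fun u : ℝ => u ^ s * Real.exp (-(c * u))) (Ioi 0) := by
  have := integrableOn_rpow_mul_exp_neg_mul_rpow (p := 1) (s := s) (b := c) hs one_pos hc
  simpa only [Real.rpow_one, neg_mul] using this

/-- integrability of products with polynomially bounded functions -/
lemma dom (f : ℝ → ℂ) (K s c : ℝ) (hK : 0 ≤ K) (hs : -1 < s) (hc : 0 < c)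
    (hm : AEStronglyMeasurable f (volume.restrict (Ioi 0)))
    (h : ∀ u : ℝ, 0 < u → ‖f u‖ ≤ K * (1 + u) ^ 2 * u ^ s * Real.exp (-(c * u))) :
    IntegrableOn f (Ioi 0) := by
  obtain ⟨K', hK', h1⟩ := exp_quad (c / 2) (by positivity)
  have h2 : IntegrableOn (fun u : ℝ => K * K' * (u ^ s * Real.exp (-((c / 2) * u)))) (Ioi 0) :=
    (int_exp (c / 2) s (by positivity) hs).const_mul _
  refine Integrable.mono' h2 hm ?_
  refine (ae_restrict_iff' measurableSet_Ioi).2 (Eventually.of_forall fun u hu => ?_)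
  have hu0 : (0 : ℝ) < u := hu
  refine (h u hu).trans ?_
  have h3 := h1 u hu0.le
  have p : 0 ≤ u ^ s := Real.rpow_nonneg hu0.le _
  calc K * (1 + u) ^ 2 * u ^ s * Real.exp (-(c * u))
      = (1 + u) ^ 2 * (K * (u ^ s * Real.exp (-(c * u)))) := by ring
    _ ≤ (K' * Real.exp ((c / 2) * u)) * (K * (u ^ s * Real.exp (-(c * u)))) :=
        mul_le_mul_of_nonneg_right h3 (by positivity)
    _ = K * K' * (u ^ s * (Real.exp ((c / 2) * u) * Real.exp (-(c * u)))) := by ring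
    _ = _ := by rw [← Real.exp_add]; ring_nf

lemma kf2_meas (h : tEST) (d : ℂ) (hd : d ∈ S0) :
    ContinuousOn (fun u : ℝ => kf u d ^ 2) (Ioi 0) :=
  fun u hu => (h.1 d hd u hu).continuousAt.continuousWithinAt

lemma kfd_meas (h : tEST) (d : ℂ) (hd : d ∈ S0) :
    AEStronglyMeasurable (fun u : ℝ => kfd u d) (volume.restrict (Ioi 0)) := by
  have h1 : AEStronglyMeasurable (deriv (fun u : ℝ => kf u d ^ 2)) (volume.restrict (Ioi 0)) :=
    aestronglyMeasurable_deriv _ _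
  refine h1.congr ((ae_restrict_iff' measurableSet_Ioi).2 (Eventually.of_forall fun u hu => ?_))
  exact (h.1 d hd u hu).deriv

lemma sqrt_rpow (u s : ℝ) (hu : 0 < u) : √u * u ^ s = u ^ (1 / 2 + s) := by
  rw [Real.sqrt_eq_rpow, ← Real.rpow_add hu]

lemma gkfd_int (h2 : tK0) (h5 : tEST) (d : ℂ) (hd : d ∈ S0) (g : ℝ → ℝ)
    (hg : ContinuousOn g (Ioi 0)) (K : ℝ) (hK : 0 ≤ K)
    (hgb : ∀ u : ℝ, 0 < u → |g u| ≤ K * (√u * (1 + u))) :
    IntegrableOn (fun u : ℝ => (g u : ℂ) * kfd u d) (Ioi 0) := by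
  obtain ⟨C, c, hC, hc, h1⟩ := kfd_bound h2 d hd
  have hm : AEStronglyMeasurable (fun u : ℝ => (g u : ℂ) * kfd u d) (volume.restrict (Ioi 0)) :=
    ((Complex.continuous_ofReal.comp_continuousOn hg).aestronglyMeasurable measurableSet_Ioi).mul
      (kfd_meas h5 d hd)
  obtain ⟨K', hK', h3⟩ := exp_quad (c / 2) (by positivity)
  have i1 := (int_exp (c / 2) (-(1 / 16)) (by positivity) (by norm_num)).const_mul (K * C * K')
  have i2 := (int_exp (c / 2) (-(9 / 16)) (by positivity) (by norm_num)).const_mul (K * C * K')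
  refine Integrable.mono' (i1.add i2) hm ?_
  refine (ae_restrict_iff' measurableSet_Ioi).2 (Eventually.of_forall fun u hu => ?_)
  have hu0 : (0 : ℝ) < u := hu
  have q1 := h1 u hu0
  have q2 := hgb u hu0
  have q3 := h3 u hu0.le
  rw [norm_mul, Complex.norm_real, Real.norm_eq_abs]
  have hs := Real.sqrt_nonneg u
  have hexp : Real.exp (c / 2 * u) * Real.exp (-(c * u)) = Real.exp (-(c / 2 * u)) := by
    rw [← Real.exp_add]; ring_nf
  have e1 : √u * u ^ (-(9 / 16) : ℝ) = u ^ (-(1 / 16) : ℝ) := by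
    rw [sqrt_rpow u _ hu0]; norm_num
  have e2 : √u * u ^ (-(17 / 16) : ℝ) = u ^ (-(9 / 16) : ℝ) := by
    rw [sqrt_rpow u _ hu0]; norm_num
  have p1 : 0 ≤ u ^ (-(1 / 16) : ℝ) := Real.rpow_nonneg hu0.le _
  have p2 : 0 ≤ u ^ (-(9 / 16) : ℝ) := Real.rpow_nonneg hu0.le _
  have p3 : 0 ≤ u ^ (-(17 / 16) : ℝ) := Real.rpow_nonneg hu0.le _
  have q4 : (1 + u) ≤ K' * Real.exp (c / 2 * u) := by nlinarith
  calc |g u| * ‖kfd u d‖ ≤ (K * (√u * (1 + u))) *
        (C * Real.exp (-(c * u)) * (u ^ (-(9 / 16) : ℝ) + u ^ (-(17 / 16) : ℝ))) :=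
        mul_le_mul q2 q1 (norm_nonneg _) (by positivity)
    _ = (1 + u) * (K * C * Real.exp (-(c * u)) *
          (√u * u ^ (-(9 / 16) : ℝ) + √u * u ^ (-(17 / 16) : ℝ))) := by ring
    _ = (1 + u) * (K * C * Real.exp (-(c * u)) *
          (u ^ (-(1 / 16) : ℝ) + u ^ (-(9 / 16) : ℝ))) := by rw [e1, e2]
    _ ≤ (K' * Real.exp (c / 2 * u)) * (K * C * Real.exp (-(c * u)) *
          (u ^ (-(1 / 16) : ℝ) + u ^ (-(9 / 16) : ℝ))) :=
        mul_le_mul_of_nonneg_right q4 (by positivity)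
    _ = K * C * K' * (Real.exp (c / 2 * u) * Real.exp (-(c * u))) *
          (u ^ (-(1 / 16) : ℝ) + u ^ (-(9 / 16) : ℝ)) := by ring
    _ = _ := by rw [hexp]; simp only [Pi.add_apply]; ring

/-- integration by parts -/
lemma ibp (h2 : tK0) (h5 : tEST) (d : ℂ) (hd : d ∈ S0) (g g' : ℝ → ℝ)
    (hg : ∀ u : ℝ, 0 < u → HasDerivAt g (g' u) u) (K : ℝ) (hK : 0 ≤ K)
    (hgb : ∀ u : ℝ, 0 < u → |g u| ≤ K * (√u * (1 + u)))
    (hint : IntegrableOn (fun u : ℝ => (g' u : ℂ) * kf u d ^ 2) (Ioi 0)) :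
    ∫ u in Ioi (0 : ℝ), (g' u : ℂ) * kf u d ^ 2 = -∫ u in Ioi (0 : ℝ), (g u : ℂ) * kfd u d := by
  have hgc : ContinuousOn g (Ioi 0) := fun u hu => (hg u hu).continuousAt.continuousWithinAt
  have i1 := gkfd_int h2 h5 d hd g hgc K hK hgb
  obtain ⟨C, c, hC, hc, h1⟩ := kf2_bound h2 d hd
  obtain ⟨K', hK', h3⟩ := exp_quad (c / 2) (by positivity)
  have hb : ∀ u : ℝ, 0 < u → ‖(g u : ℂ) * kf u d ^ 2‖ ≤
      K * C * K' * (u ^ (3 / 8 : ℝ) * Real.exp (-(c / 2 * u))) := by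
    intro u hu0
    have q1 := h1 u hu0
    have q2 := hgb u hu0
    have q3 := h3 u hu0.le
    have q4 : (1 + u) ≤ K' * Real.exp (c / 2 * u) := by nlinarith
    have hs := Real.sqrt_nonneg u
    have hexp : Real.exp (c / 2 * u) * Real.exp (-(c * u)) = Real.exp (-(c / 2 * u)) := by
      rw [← Real.exp_add]; ring_nf
    have e1 : √u * u ^ (-(1 / 8) : ℝ) = u ^ (3 / 8 : ℝ) := by
      rw [sqrt_rpow u _ hu0]; norm_num
    have p1 : 0 ≤ u ^ (-(1 / 8) : ℝ) := Real.rpow_nonneg hu0.le _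
    have p2 : 0 ≤ u ^ (3 / 8 : ℝ) := Real.rpow_nonneg hu0.le _
    rw [norm_mul, Complex.norm_real, Real.norm_eq_abs]
    calc |g u| * ‖kf u d ^ 2‖ ≤ (K * (√u * (1 + u))) *
          (C * u ^ (-(1 / 8) : ℝ) * Real.exp (-(c * u))) :=
          mul_le_mul q2 q1 (norm_nonneg _) (by positivity)
      _ = (1 + u) * (K * C * Real.exp (-(c * u)) * (√u * u ^ (-(1 / 8) : ℝ))) := by ring
      _ = (1 + u) * (K * C * Real.exp (-(c * u)) * u ^ (3 / 8 : ℝ)) := by rw [e1]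
      _ ≤ (K' * Real.exp (c / 2 * u)) * (K * C * Real.exp (-(c * u)) * u ^ (3 / 8 : ℝ)) :=
          mul_le_mul_of_nonneg_right q4 (by positivity)
      _ = K * C * K' * (u ^ (3 / 8 : ℝ) * (Real.exp (c / 2 * u) * Real.exp (-(c * u)))) := by ring
      _ = _ := by rw [hexp]
  have t1 : Tendsto (fun u : ℝ => (g u : ℂ) * kf u d ^ 2) (𝓝[>] 0) (𝓝 0) := by
    refine squeeze_zero_norm' (a := fun u : ℝ => K * C * K' * (u ^ (3 / 8 : ℝ) * 1)) ?_ ?_
    · filter_upwards [self_mem_nhdsWithin] with u hu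
      have hu0 : (0 : ℝ) < u := hu
      refine (hb u hu).trans ?_
      have p2 : 0 ≤ u ^ (3 / 8 : ℝ) := Real.rpow_nonneg hu0.le _
      have e : Real.exp (-(c / 2 * u)) ≤ 1 := by
        rw [Real.exp_le_one_iff]; have : 0 ≤ c / 2 * u := by positivity
        linarith
      exact mul_le_mul_of_nonneg_left (mul_le_mul_of_nonneg_left e p2) (by positivity)
    · have h4 : Tendsto (fun u : ℝ => u ^ (3 / 8 : ℝ)) (𝓝[>] 0) (𝓝 0) := by
        have := (Real.continuousAt_rpow_const 0 (3 / 8) (Or.inr (by norm_num))).tendsto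
        rw [Real.zero_rpow (by norm_num)] at this
        exact this.mono_left nhdsWithin_le_nhds
      have := (h4.mul_const 1).const_mul (K * C * K')
      simpa using this
  have t2 : Tendsto (fun u : ℝ => (g u : ℂ) * kf u d ^ 2) atTop (𝓝 0) := by
    refine squeeze_zero_norm'
      (a := fun u : ℝ => K * C * K' * (u ^ (3 / 8 : ℝ) * Real.exp (-(c / 2 * u)))) ?_ ?_
    · filter_upwards [eventually_gt_atTop (0 : ℝ)] with u hu using hb u hu
    · have := (tendsto_rpow_mul_exp_neg_mul_atTop_nhds_zero (3 / 8) (c / 2) (by positivity)).const_mul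
        (K * C * K')
      simpa only [mul_zero, neg_mul] using this
  have key := integral_Ioi_mul_deriv_eq_deriv_mul (a := (0 : ℝ)) (a' := (0 : ℂ)) (b' := 0)
    (u := fun u : ℝ => (g u : ℂ)) (v := fun u : ℝ => kf u d ^ 2) (u' := fun u : ℝ => (g' u : ℂ))
    (v' := fun u : ℝ => kfd u d) (fun x hx => (hg x hx).ofReal_comp) (fun x hx => h5.1 d hd x hx)
    i1 hint t1 t2
  rw [key]; ring

/-! ### the main term -/

lemma zh4_le (h7 : tZLB) : ∃ C : ℝ, 0 < C ∧ ∀ u : ℝ, 0 < u → ‖zh u‖ ^ 4 ≤ C * (1 + u) ^ 2 := by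
  obtain ⟨C, hC, h⟩ := h7
  refine ⟨C ^ 4, by positivity, fun u hu => ?_⟩
  have h1 := pow_le_pow_left₀ (norm_nonneg _) (h u) 4
  rw [abs_of_pos hu, mul_pow] at h1
  refine h1.trans (mul_le_mul_of_nonneg_left ?_ (by positivity))
  have h2 : ((1 + u) ^ (2 / 5 : ℝ)) ^ 4 = (1 + u) ^ (8 / 5 : ℝ) := by
    rw [← Real.rpow_natCast, ← Real.rpow_mul (by positivity)]; norm_num
  rw [h2, ← Real.rpow_natCast (1 + u) 2]
  exact Real.rpow_le_rpow_of_exponent_le (by linarith) (by norm_num)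

lemma zkf_int (h2 : tK0) (h5 : tEST) (h7 : tZLB) (d : ℂ) (hd : d ∈ S0) :
    IntegrableOn (fun u : ℝ => ((‖zh u‖ ^ 4 : ℝ) : ℂ) * kf u d ^ 2) (Ioi 0) := by
  obtain ⟨C, hC, h⟩ := zh4_le h7
  obtain ⟨C', c, hC', hc, h1⟩ := kf2_bound h2 d hd
  refine dom _ (C * C') (-(1 / 8)) c (by positivity) (by norm_num) hc ?_ fun u hu => ?_
  · exact ((Complex.continuous_ofReal.comp zh4_cont).aestronglyMeasurable).mul
      ((kf2_meas h5 d hd).aestronglyMeasurable measurableSet_Ioi)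
  · rw [norm_mul, Complex.norm_real, Real.norm_of_nonneg (by positivity)]
    calc ‖zh u‖ ^ 4 * ‖kf u d ^ 2‖ ≤ (C * (1 + u) ^ 2) * (C' * u ^ (-(1 / 8) : ℝ) * Real.exp (-(c * u))) :=
          mul_le_mul (h u hu) (h1 u hu) (norm_nonneg _) (by positivity)
      _ = _ := by ring

lemma main_part (P : Polynomial ℝ) (C : ℝ) (h : Hyp P C) (h2 : tK0) (h4 : tMAIN) (h5 : tEST)
    (h7 : tZLB) : ∃ (Q : Polynomial ℂ) (C1 : ℝ), 0 ≤ C1 ∧ ∀ d ∈ S0,
    ‖(1 / Real.pi : ℝ) * (∫ u in Ioi (0 : ℝ), ((‖zh u‖ ^ 4 : ℝ) : ℂ) * kf u d ^ 2) - Q.eval d‖ ≤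
      C1 * (Real.exp (-(d.re / 2)) / √(Real.pi / 2 - |d.im|)) := by
  obtain ⟨Q, hQ⟩ := h4 (P + Polynomial.derivative P)
  obtain ⟨KE, hKE, hE⟩ := E_bound P C h
  obtain ⟨KM, hKM, hM⟩ := M4_bound P C h
  obtain ⟨KP, hKP, hP⟩ := ulog_poly P
  obtain ⟨CE, hCE, hEST⟩ := h5.2
  refine ⟨Q, (1 / Real.pi) * (KE * CE), by positivity, fun d hd => ?_⟩
  have hdP : ∀ u : ℝ, 0 < u → HasDerivAt (fun u => u * P.eval (Real.log u))
      ((P + Polynomial.derivative P).eval (Real.log u)) u := by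
    intro u hu
    have h1 : HasDerivAt (fun u => P.eval (Real.log u))
        ((Polynomial.derivative P).eval (Real.log u) * u⁻¹) u :=
      (P.hasDerivAt (Real.log u)).comp u (Real.hasDerivAt_log hu.ne')
    have h2 := (hasDerivAt_id u).mul h1
    have h3 : 1 * P.eval (Real.log u) + id u * ((Polynomial.derivative P).eval (Real.log u) * u⁻¹) =
        (P + Polynomial.derivative P).eval (Real.log u) := by
      rw [Polynomial.eval_add, id]
      field_simp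
    rw [← h3]
    exact h2
  have e1 := ibp h2 h5 d hd M4 (fun u => ‖zh u‖ ^ 4) (fun u _ => M4_deriv u) KM hKM hM
    (zkf_int h2 h5 h7 d hd)
  have e2 := ibp h2 h5 d hd (fun u => u * P.eval (Real.log u))
    (fun u => (P + Polynomial.derivative P).eval (Real.log u)) hdP KP hKP hP (hQ d hd).1
  have cM : ContinuousOn M4 (Ioi 0) := fun u _ => (M4_deriv u).continuousAt.continuousWithinAt
  have cP : ContinuousOn (fun u => u * P.eval (Real.log u)) (Ioi 0) :=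
    fun u hu => (hdP u hu).continuousAt.continuousWithinAt
  have i1 := gkfd_int h2 h5 d hd M4 cM KM hKM hM
  have i2 := gkfd_int h2 h5 d hd (fun u => u * P.eval (Real.log u)) cP KP hKP hP
  have e3 : (1 / Real.pi : ℝ) * (∫ u in Ioi (0 : ℝ), ((‖zh u‖ ^ 4 : ℝ) : ℂ) * kf u d ^ 2) -
      Q.eval d = -((1 / Real.pi : ℝ) * ∫ u in Ioi (0 : ℝ),
        ((M4 u - u * P.eval (Real.log u) : ℝ) : ℂ) * kfd u d) := by
    rw [← (hQ d hd).2, e1, e2]
    have e4 : ∫ u in Ioi (0 : ℝ), ((M4 u - u * P.eval (Real.log u) : ℝ) : ℂ) * kfd u d =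
        (∫ u in Ioi (0 : ℝ), (M4 u : ℂ) * kfd u d) -
          ∫ u in Ioi (0 : ℝ), ((u * P.eval (Real.log u) : ℝ) : ℂ) * kfd u d := by
      rw [← integral_sub i1 i2]
      refine integral_congr_ae (Eventually.of_forall fun u => ?_)
      simp only
      rw [Complex.ofReal_sub, sub_mul]
    rw [e4]; ring
  rw [e3, norm_neg, norm_mul, Complex.norm_real, Real.norm_of_nonneg (by positivity), mul_assoc]
  refine mul_le_mul_of_nonneg_left ?_ (by positivity)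
  have hI := hEST d hd
  have e5 : ‖∫ u in Ioi (0 : ℝ), ((M4 u - u * P.eval (Real.log u) : ℝ) : ℂ) * kfd u d‖ ≤
      ∫ u in Ioi (0 : ℝ), KE * (√u * ‖kfd u d‖) := by
    refine norm_integral_le_of_norm_le (hI.1.const_mul _) ?_
    refine (ae_restrict_iff' measurableSet_Ioi).2 (Eventually.of_forall fun u hu => ?_)
    rw [norm_mul, Complex.norm_real, Real.norm_eq_abs, ← mul_assoc]
    exact mul_le_mul_of_nonneg_right (hE u hu) (norm_nonneg _)
  refine e5.trans ?_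
  rw [integral_const_mul, mul_assoc]
  refine mul_le_mul_of_nonneg_left (hI.2.trans (le_of_eq ?_)) hKE
  ring

/-! ### the error term -/

lemma weight_int (P : Polynomial ℝ) (C : ℝ) (h : Hyp P C) :
    IntegrableOn (fun u : ℝ => ‖zh u‖ ^ 4 * (if u ≤ 1 then u ^ (-(1 / 8) : ℝ) else u ^ (-2 : ℝ)))
      (Ioi 0) := by
  rw [← Ioc_union_Ioi_eq_Ioi (zero_le_one' ℝ)]
  refine IntegrableOn.union ?_ ?_
  · have h1 : IntervalIntegrable (fun u : ℝ => u ^ (-(1 / 8) : ℝ)) volume 0 1 :=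
      intervalIntegral.intervalIntegrable_rpow' (by norm_num)
    have h2 := h1.continuousOn_mul (g := fun u => ‖zh u‖ ^ 4) zh4_cont.continuousOn
    have h3 := (intervalIntegrable_iff_integrableOn_Ioc_of_le (zero_le_one' ℝ)).1 h2
    refine h3.congr_fun (fun u hu => ?_) measurableSet_Ioc
    simp only [if_pos hu.2]
  · refine (zh4_int P C h).congr_fun (fun u hu => ?_) measurableSet_Ioi
    have hu1 : (1 : ℝ) < u := hu
    simp only [if_neg (not_le.2 hu1)]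

lemma err_part (P : Polynomial ℝ) (C : ℝ) (h : Hyp P C) (h1 : tJU) (h2 : tK0) (h3 : tERR)
    (h5 : tEST) (b : ℝ) (hb : 0 < b) (hb' : b < Real.pi / 2) :
    ∃ D : ℝ, 0 ≤ D ∧ ∀ d : ℂ, |d.im| ≤ b → 1 ≤ d.re →
      IntegrableOn (fun u : ℝ => ((‖zh u‖ ^ 4 : ℝ) : ℂ) * (jf u d ^ 2 - kf u d ^ 2)) (Ioi 0) ∧
      ‖∫ u in Ioi (0 : ℝ), ((‖zh u‖ ^ 4 : ℝ) : ℂ) * (jf u d ^ 2 - kf u d ^ 2)‖ ≤
        D * Real.exp (-(7 / 8 * d.re)) := by
  obtain ⟨C0, hC0, hk⟩ := kf_bound h2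
  obtain ⟨Ce, hCe, he⟩ := h3 b hb hb'
  set w : ℝ → ℝ := fun u => if u ≤ 1 then u ^ (-(1 / 8) : ℝ) else u ^ (-2 : ℝ) with hw
  have hwi := weight_int P C h
  set Iw := ∫ u in Ioi (0 : ℝ), ‖zh u‖ ^ 4 * w u with hIw
  have hw0 : ∀ u : ℝ, 0 < u → 0 ≤ w u := by
    intro u hu
    simp only [hw]
    split_ifs <;> exact Real.rpow_nonneg hu.le _
  have hIw0 : 0 ≤ Iw := setIntegral_nonneg measurableSet_Ioi fun u hu =>
    mul_nonneg (by positivity) (hw0 u hu)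
  refine ⟨Ce * (Ce + 2 * C0) * Iw, by positivity, fun d hd hd1 => ?_⟩
  have hdS : d ∈ S0 := lt_of_le_of_lt hd hb'
  have hcos := cos_pos hdS
  set X := Real.exp (-(7 / 16 * d.re)) with hX
  have hX0 : 0 < X := Real.exp_pos _
  have hXX : X * X = Real.exp (-(7 / 8 * d.re)) := by
    rw [hX, ← Real.exp_add]; ring_nf
  have hkf : ∀ u : ℝ, 0 < u → ‖kf u d‖ ≤ C0 * X * u ^ (-(1 / 16) : ℝ) := by
    intro u hu
    refine (hk d hdS u hu).trans ?_
    have e : Real.exp (-(2 * Real.exp (-d.re) * Real.cos d.im * u)) ≤ 1 := by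
      rw [Real.exp_le_one_iff]
      have : 0 ≤ 2 * Real.exp (-d.re) * Real.cos d.im * u := by positivity
      linarith
    have p : 0 ≤ C0 * X * u ^ (-(1 / 16) : ℝ) := by
      have := Real.rpow_nonneg hu.le (-(1 / 16)); positivity
    exact mul_le_of_le_one_right p e
  have hdiff : ∀ u : ℝ, 0 < u → ‖jf u d ^ 2 - kf u d ^ 2‖ ≤
      Ce * (Ce + 2 * C0) * (X * X) * w u := by
    intro u hu
    have e1 : jf u d ^ 2 - kf u d ^ 2 = (jf u d - kf u d) * ((jf u d - kf u d) + 2 * kf u d) := by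
      ring
    rw [e1, norm_mul]
    have p16 : 0 ≤ u ^ (-(1 / 16) : ℝ) := Real.rpow_nonneg hu.le _
    have n1 : ‖(jf u d - kf u d) + 2 * kf u d‖ ≤ ‖jf u d - kf u d‖ + 2 * ‖kf u d‖ := by
      refine (norm_add_le _ _).trans ?_
      rw [norm_mul, Complex.norm_ofNat]
    have n2 := hkf u hu
    rcases le_or_gt u 1 with hu1 | hu1
    · have n3 := (he d hd hd1).1 u hu hu1
      have e2 : w u = u ^ (-(1 / 8) : ℝ) := by simp only [hw, if_pos hu1]
      have e3 : u ^ (-(1 / 8) : ℝ) = u ^ (-(1 / 16) : ℝ) * u ^ (-(1 / 16) : ℝ) := by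
        rw [← Real.rpow_add hu]; norm_num
      rw [← hX] at n3
      calc ‖jf u d - kf u d‖ * ‖(jf u d - kf u d) + 2 * kf u d‖
          ≤ (Ce * X * u ^ (-(1 / 16) : ℝ)) *
            (Ce * X * u ^ (-(1 / 16) : ℝ) + 2 * (C0 * X * u ^ (-(1 / 16) : ℝ))) :=
            mul_le_mul n3 (n1.trans (add_le_add n3 (mul_le_mul_of_nonneg_left n2 (by norm_num))))
              (norm_nonneg _) (by positivity)
        _ = _ := by rw [e2, e3]; ring
    · have n3 := (he d hd hd1).2 u hu1.le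
      have e2 : w u = u ^ (-2 : ℝ) := by simp only [hw, if_neg (not_le.2 hu1)]
      have p2 : 0 ≤ u ^ (-2 : ℝ) := Real.rpow_nonneg hu.le _
      have l1 : u ^ (-(1 / 16) : ℝ) ≤ 1 :=
        Real.rpow_le_one_of_one_le_of_nonpos hu1.le (by norm_num)
      have l2 : u ^ (-2 : ℝ) ≤ 1 := Real.rpow_le_one_of_one_le_of_nonpos hu1.le (by norm_num)
      rw [← hX] at n3
      have n4 : ‖jf u d - kf u d‖ ≤ Ce * X := n3.trans (mul_le_of_le_one_right (by positivity) l2)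
      have n5 : ‖kf u d‖ ≤ C0 * X := n2.trans (mul_le_of_le_one_right (by positivity) l1)
      calc ‖jf u d - kf u d‖ * ‖(jf u d - kf u d) + 2 * kf u d‖
          ≤ (Ce * X * u ^ (-2 : ℝ)) * (Ce * X + 2 * (C0 * X)) :=
            mul_le_mul n3 (n1.trans (add_le_add n4 (mul_le_mul_of_nonneg_left n5 (by norm_num))))
              (norm_nonneg _) (by positivity)
        _ = _ := by rw [e2]; ring
  have hdom : ∀ u : ℝ, 0 < u → ‖((‖zh u‖ ^ 4 : ℝ) : ℂ) * (jf u d ^ 2 - kf u d ^ 2)‖ ≤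
      Ce * (Ce + 2 * C0) * (X * X) * (‖zh u‖ ^ 4 * w u) := by
    intro u hu
    rw [norm_mul, Complex.norm_real, Real.norm_of_nonneg (by positivity)]
    calc ‖zh u‖ ^ 4 * ‖jf u d ^ 2 - kf u d ^ 2‖ ≤ ‖zh u‖ ^ 4 * (Ce * (Ce + 2 * C0) * (X * X) * w u) :=
          mul_le_mul_of_nonneg_left (hdiff u hu) (by positivity)
      _ = _ := by ring
  have hdom' : ∀ᵐ u : ℝ ∂(volume.restrict (Ioi 0)),
      ‖((‖zh u‖ ^ 4 : ℝ) : ℂ) * (jf u d ^ 2 - kf u d ^ 2)‖ ≤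
      Ce * (Ce + 2 * C0) * (X * X) * (‖zh u‖ ^ 4 * w u) :=
    (ae_restrict_iff' measurableSet_Ioi).2 (Eventually.of_forall fun u hu => hdom u hu)
  have hmeas : AEStronglyMeasurable (fun u : ℝ => ((‖zh u‖ ^ 4 : ℝ) : ℂ) *
      (jf u d ^ 2 - kf u d ^ 2)) (volume.restrict (Ioi 0)) :=
    ((Complex.continuous_ofReal.comp zh4_cont).aestronglyMeasurable).mul
      ((((h1.2.2.2.2 d hdS).pow 2).aestronglyMeasurable).sub
        ((kf2_meas h5 d hdS).aestronglyMeasurable measurableSet_Ioi))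
  refine ⟨Integrable.mono' (hwi.const_mul _) hmeas hdom', ?_⟩
  refine (norm_integral_le_of_norm_le (hwi.const_mul _) hdom').trans (le_of_eq ?_)
  rw [integral_const_mul, ← hIw, hXX]; ring

lemma P1_eq (h1 : tJU) (d : ℂ)
    (hi : IntegrableOn (fun u : ℝ => ((‖zh u‖ ^ 4 : ℝ) : ℂ) * jf u d ^ 2) (Ioi 0)) :
    P1 d = (1 / Real.pi : ℝ) * ∫ u in Ioi (0 : ℝ), ((‖zh u‖ ^ 4 : ℝ) : ℂ) * jf u d ^ 2 := by
  set F : ℝ → ℂ := fun u => ((‖zh u‖ ^ 4 : ℝ) : ℂ) * jf u d ^ 2 with hF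
  have hev : ∀ u : ℝ, F (-u) = F u := by
    intro u
    simp only [hF, zh_neg, h1.2.1 d u]
  have hi2 : IntegrableOn F (Iic 0) := by
    rw [← Measure.map_neg_eq_self (volume : Measure ℝ)]
    let m : MeasurableEmbedding fun x : ℝ => -x := (Homeomorph.neg ℝ).measurableEmbedding
    rw [m.integrableOn_map_iff]
    simp_rw [Function.comp_def, hev, neg_preimage, neg_Iic, neg_zero]
    exact Iff.mpr integrableOn_Ici_iff_integrableOn_Ioi hi
  have e1 : ∫ u in Iic (0 : ℝ), F u = ∫ u in Ioi (0 : ℝ), F u := by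
    have := integral_comp_neg_Iic (0 : ℝ) F
    simp only [hev, neg_zero] at this
    exact this
  have e2 := intervalIntegral.integral_Iic_add_Ioi hi2 hi
  unfold P1
  rw [← e2, e1]
  push_cast
  ring

lemma cosh_lower {d : ℂ} (hd : 1 ≤ d.re) : Real.exp d.re / 4 ≤ ‖Complex.cosh d‖ ∧
    ‖Complex.cosh d‖ ≤ Real.exp d.re := by
  have h1 : ‖Complex.cosh d‖ = ‖Complex.exp d + Complex.exp (-d)‖ / 2 := by
    rw [Complex.cosh, norm_div, Complex.norm_ofNat]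
  have h2 : ‖Complex.exp d‖ = Real.exp d.re := Complex.norm_exp d
  have h3 : ‖Complex.exp (-d)‖ = Real.exp (-d.re) := by rw [Complex.norm_exp, neg_re]
  have h4 : Real.exp (-d.re) ≤ 1 := by rw [Real.exp_le_one_iff]; linarith
  have h5 : 2 ≤ Real.exp d.re := by
    have := Real.add_one_le_exp d.re; linarith
  have h6 := norm_sub_norm_le (Complex.exp d) (-Complex.exp (-d))
  rw [norm_neg, sub_neg_eq_add] at h6
  have h7 := norm_add_le (Complex.exp d) (Complex.exp (-d))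
  rw [h1]
  rw [h2, h3] at h6 h7
  constructor <;> linarith

lemma qf_bound {d : ℂ} (hd : 1 ≤ d.re) : ‖qf d‖ ≤ 2 * Real.exp (-(d.re / 2)) := by
  have h1 := (cosh_lower hd).1
  have h0 : 0 < Real.exp d.re / 4 := by positivity
  have h2 : Complex.cosh d ≠ 0 := by
    rw [← norm_pos_iff]; exact lt_of_lt_of_le h0 h1
  unfold qf
  rw [Complex.norm_cpow_of_ne_zero h2]
  have e1 : (-(1 / 2) : ℂ).re = -(1 / 2) := by norm_num
  have e2 : (-(1 / 2) : ℂ).im = 0 := by norm_num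
  rw [e1, e2, mul_zero, Real.exp_zero, div_one]
  have h3 := Real.rpow_le_rpow_of_nonpos h0 h1 (by norm_num : (-(1 / 2) : ℝ) ≤ 0)
  refine h3.trans (le_of_eq ?_)
  rw [Real.div_rpow (Real.exp_pos _).le (by norm_num), ← Real.exp_mul]
  have e3 : (4 : ℝ) ^ (-(1 / 2) : ℝ) = 1 / 2 := by
    rw [Real.rpow_neg (by norm_num), ← Real.sqrt_eq_rpow, show (4 : ℝ) = 2 ^ 2 by norm_num,
      Real.sqrt_sq (by norm_num)]
    norm_num
  rw [e3, show d.re * -(1 / 2) = -(d.re / 2) by ring]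
  ring

lemma cpr_bound {d : ℂ} (hd : 1 ≤ d.re) : ‖cpr d‖ ≤ (|c0| + 6) * (1 + d.re) := by
  obtain ⟨h1, h2⟩ := cosh_lower hd
  have h0 : 0 < Real.exp d.re / 4 := by positivity
  have h3 : 0 < ‖Complex.cosh d‖ := lt_of_lt_of_le h0 h1
  have h4 : ‖Complex.log (Complex.cosh d)‖ ≤ (d.re + 2) + Real.pi := by
    refine (Complex.norm_le_abs_re_add_abs_im _).trans (add_le_add ?_ ?_)
    · rw [Complex.log_re]
      have h5 : Real.log ‖Complex.cosh d‖ ≤ d.re := by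
        rw [← Real.log_exp d.re]; exact Real.log_le_log h3 h2
      have h6 : d.re - 2 ≤ Real.log ‖Complex.cosh d‖ := by
        have h7 := Real.log_le_log h0 h1
        rw [Real.log_div (Real.exp_pos _).ne' (by norm_num), Real.log_exp] at h7
        have h8 : Real.log 4 ≤ 2 := by
          rw [show (4 : ℝ) = 2 ^ 2 by norm_num, Real.log_pow]
          have := Real.log_two_lt_d9
          push_cast; linarith
        linarith
      rw [abs_le]; constructor <;> linarith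
    · rw [Complex.log_im]; exact Complex.abs_arg_le_pi _
  unfold cpr
  refine (norm_sub_le _ _).trans ?_
  rw [Complex.norm_real, Real.norm_eq_abs]
  have h9 := Real.pi_lt_four
  have h10 : 0 ≤ |c0| * d.re := mul_nonneg (abs_nonneg _) (by linarith)
  nlinarith

lemma J0_bound (h6 : tJKINF) (b : ℝ) (hb : 0 < b) (hb' : b < Real.pi / 2) :
    ∃ D : ℝ, 0 ≤ D ∧ ∀ d : ℂ, |d.im| ≤ b → 1 ≤ d.re →
      ‖J0 d‖ ≤ D * ((1 + d.re) * Real.exp (-(3 / 4 * d.re))) := by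
  obtain ⟨D0, H0⟩ := h6 0 b hb hb'
  obtain ⟨D1, H1⟩ := h6 1 b hb hb'
  obtain ⟨D2, H2⟩ := h6 2 b hb hb'
  set L := ‖lam 0‖ + ‖lam 1‖ + ‖lam 2‖ + 1 with hL
  have hL0 : 0 < L := by positivity
  refine ⟨2 * (L * (|c0| + 7) * (4 + |D0| + |D1| + |D2|)), by positivity, fun d hd hd1 => ?_⟩
  have hq := qf_bound hd1
  have hc := cpr_bound hd1
  set S := (|c0| + 7) * (1 + d.re) with hS
  have hS0 : (|c0| + 6) * (1 + d.re) + 1 ≤ S := by rw [hS]; nlinarith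
  have hc0 : 0 ≤ ‖cpr d‖ := norm_nonneg _
  have hcS : ‖cpr d‖ + 1 ≤ S := by linarith
  set e := Real.exp (-(d.re / 4)) with he
  have he0 : 0 < e := Real.exp_pos _
  have hee : Real.exp (-(d.re / 2)) = e * e := by rw [he, ← Real.exp_add]; ring_nf
  have he1 : e ≤ 1 := by rw [he, Real.exp_le_one_iff]; linarith
  have j0 : ‖jk 0 d‖ ≤ |D0| * e := (H0 d hd hd1).trans
    (mul_le_mul_of_nonneg_right (le_abs_self _) he0.le)
  have j1 : ‖jk 1 d‖ ≤ |D1| * e := (H1 d hd hd1).trans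
    (mul_le_mul_of_nonneg_right (le_abs_self _) he0.le)
  have j2 : ‖jk 2 d‖ ≤ |D2| * e := (H2 d hd hd1).trans
    (mul_le_mul_of_nonneg_right (le_abs_self _) he0.le)
  have n0 : 0 ≤ ‖lam 0‖ := norm_nonneg _
  have n1 : 0 ≤ ‖lam 1‖ := norm_nonneg _
  have n2 : 0 ≤ ‖lam 2‖ := norm_nonneg _
  have lS : ∀ x y : ℂ, ‖x‖ ≤ L → ‖y‖ ≤ L → ‖x + cpr d * y‖ ≤ L * S := by
    intro x y hx hy
    refine (norm_add_le _ _).trans ?_
    rw [norm_mul]
    have e1 : ‖cpr d‖ * ‖y‖ ≤ ‖cpr d‖ * L := mul_le_mul_of_nonneg_left hy hc0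
    have e2 : (‖cpr d‖ + 1) * L ≤ S * L := mul_le_mul_of_nonneg_right hcS hL0.le
    linarith
  have a1 := lS (lam 2) (lam 1) (by linarith) (by linarith)
  have a2 := lS (lam 1) (lam 0) (by linarith) (by linarith)
  have a3 : ‖lam 0 - cpr d / 2‖ ≤ L * S := by
    have := lS (lam 0) (-(1 / 2)) (by linarith) (by
      rw [norm_neg]; norm_num; linarith)
    have e1 : lam 0 + cpr d * (-(1 / 2)) = lam 0 - cpr d / 2 := by ring
    rwa [e1] at this
  have hS1 : 1 ≤ S := by linarith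
  have hL1 : 1 ≤ L := by linarith
  have hLS : 1 ≤ L * S := one_le_mul_of_one_le_of_one_le hL1 hS1
  have q2 : ‖qf d‖ ≤ 2 * e := by
    rw [hee] at hq
    have : e * e ≤ 1 * e := mul_le_mul_of_nonneg_right he1 he0.le
    linarith
  have t1 : ‖-2 * qf d * (lam 2 + cpr d * lam 1)‖ ≤ 4 * e * (L * S) := by
    rw [norm_mul, norm_mul, norm_neg, Complex.norm_ofNat]
    have := mul_le_mul q2 a1 (norm_nonneg _) (by positivity)
    linarith
  have t2 : ‖(lam 1 + cpr d * lam 0) * jk 0 d‖ ≤ (L * S) * (|D0| * e) := by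
    rw [norm_mul]; exact mul_le_mul a2 j0 (norm_nonneg _) (by positivity)
  have t3 : ‖(lam 0 - cpr d / 2) * jk 1 d‖ ≤ (L * S) * (|D1| * e) := by
    rw [norm_mul]; exact mul_le_mul a3 j1 (norm_nonneg _) (by positivity)
  have t4 : ‖(1 / 2 : ℂ) * jk 2 d‖ ≤ (L * S) * (|D2| * e) := by
    rw [norm_mul]
    have e1 : ‖(1 / 2 : ℂ)‖ = 1 / 2 := by norm_num
    rw [e1]
    have p : 0 ≤ |D2| * e := by positivity
    have p2 : 1 * (|D2| * e) ≤ (L * S) * (|D2| * e) := mul_le_mul_of_nonneg_right hLS p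
    have p3 : 1 / 2 * ‖jk 2 d‖ ≤ 1 / 2 * (|D2| * e) := mul_le_mul_of_nonneg_left j2 (by norm_num)
    linarith
  have e34 : Real.exp (-(3 / 4 * d.re)) = Real.exp (-(d.re / 2)) * e := by
    rw [he, ← Real.exp_add]; ring_nf
  unfold J0
  rw [norm_mul]
  have t5 : ‖-2 * qf d * (lam 2 + cpr d * lam 1) + (lam 1 + cpr d * lam 0) * jk 0 d
      + (lam 0 - cpr d / 2) * jk 1 d - 1 / 2 * jk 2 d‖ ≤ (L * S) * (4 + |D0| + |D1| + |D2|) * e := by
    refine (norm_sub_le _ _).trans ?_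
    have u1 := norm_add_le (-2 * qf d * (lam 2 + cpr d * lam 1) + (lam 1 + cpr d * lam 0) * jk 0 d)
      ((lam 0 - cpr d / 2) * jk 1 d)
    have u2 := norm_add_le (-2 * qf d * (lam 2 + cpr d * lam 1)) ((lam 1 + cpr d * lam 0) * jk 0 d)
    have u3 : (L * S) * (4 + |D0| + |D1| + |D2|) * e = 4 * e * (L * S) + (L * S) * (|D0| * e) +
        (L * S) * (|D1| * e) + (L * S) * (|D2| * e) := by ring
    rw [u3]
    linarith
  refine (mul_le_mul hq t5 (norm_nonneg _) (by positivity)).trans (le_of_eq ?_)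
  rw [e34, hS]; ring

end ZINF_

open ZINF_ in
theorem pZINF (h1 : tJU) (h2 : tK0) (h3 : tERR) (h4 : tMAIN) (h5 : tEST) (h6 : tJKINF)
    (h7 : tZLB) : ZINF := by
  intro P C h
  obtain ⟨Q, C1, hC1, hmain⟩ := main_part P C h h2 h4 h5 h7
  refine ⟨Q, C1 + √(Real.pi / 2), fun b hb hb' => ?_⟩
  obtain ⟨D1, hD1, herr⟩ := err_part P C h h1 h2 h3 h5 b hb hb'
  obtain ⟨D2, hD2, hJ⟩ := J0_bound h6 b hb hb'
  obtain ⟨K, hK, hexp⟩ := exp_quad (1 / 4) (by norm_num)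
  refine ⟨max 1 ((D1 + 4 * D2) * K), fun d hd hd1 => ?_⟩
  have ha1 : 1 ≤ d.re := (le_max_left _ _).trans hd1
  have ha2 : (D1 + 4 * D2) * K ≤ d.re := (le_max_right _ _).trans hd1
  have hdS : d ∈ S0 := lt_of_le_of_lt hd hb'
  obtain ⟨hi, he⟩ := herr d hd ha1
  have hJd := hJ d hd ha1
  have hm := hmain d hdS
  have hzk := zkf_int h2 h5 h7 d hdS
  have hji : IntegrableOn (fun u : ℝ => ((‖zh u‖ ^ 4 : ℝ) : ℂ) * jf u d ^ 2) (Ioi 0) := by
    have := hi.add hzk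
    refine this.congr_fun (fun u _ => ?_) measurableSet_Ioi
    simp only [Pi.add_apply]; ring
  have hP := P1_eq h1 d hji
  have hsplit : ∫ u in Ioi (0 : ℝ), ((‖zh u‖ ^ 4 : ℝ) : ℂ) * jf u d ^ 2 =
      (∫ u in Ioi (0 : ℝ), ((‖zh u‖ ^ 4 : ℝ) : ℂ) * (jf u d ^ 2 - kf u d ^ 2)) +
        ∫ u in Ioi (0 : ℝ), ((‖zh u‖ ^ 4 : ℝ) : ℂ) * kf u d ^ 2 := by
    rw [← integral_add hi hzk]
    refine integral_congr_ae (Eventually.of_forall fun u => ?_)
    simp only; ring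
  have e1 : B0 d - Q.eval d =
      ((1 / Real.pi : ℝ) * (∫ u in Ioi (0 : ℝ), ((‖zh u‖ ^ 4 : ℝ) : ℂ) * kf u d ^ 2) - Q.eval d) +
      (1 / Real.pi : ℝ) * (∫ u in Ioi (0 : ℝ), ((‖zh u‖ ^ 4 : ℝ) : ℂ) * (jf u d ^ 2 - kf u d ^ 2)) +
      4 * J0 d := by
    unfold B0
    rw [hP, hsplit]; ring
  have hs : 0 < Real.pi / 2 - b := by linarith
  have hs' : Real.pi / 2 - b ≤ Real.pi / 2 - |d.im| := by linarith
  have n1 : C1 * (Real.exp (-(d.re / 2)) / √(Real.pi / 2 - |d.im|)) ≤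
      C1 * (Real.exp (-(d.re / 2)) / √(Real.pi / 2 - b)) := by
    refine mul_le_mul_of_nonneg_left ?_ hC1
    exact div_le_div_of_nonneg_left (Real.exp_pos _).le (Real.sqrt_pos.2 hs) (Real.sqrt_le_sqrt hs')
  have n2 : ‖((1 / Real.pi : ℝ) : ℂ) * (∫ u in Ioi (0 : ℝ), ((‖zh u‖ ^ 4 : ℝ) : ℂ) *
      (jf u d ^ 2 - kf u d ^ 2))‖ ≤ D1 * Real.exp (-(7 / 8 * d.re)) := by
    rw [norm_mul, Complex.norm_real, Real.norm_of_nonneg (by positivity)]
    have : 1 / Real.pi ≤ 1 := by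
      rw [div_le_one Real.pi_pos]; linarith [Real.pi_gt_three]
    calc 1 / Real.pi * _ ≤ 1 * ‖∫ u in Ioi (0 : ℝ), ((‖zh u‖ ^ 4 : ℝ) : ℂ) *
          (jf u d ^ 2 - kf u d ^ 2)‖ := mul_le_mul_of_nonneg_right this (norm_nonneg _)
      _ ≤ _ := by rw [one_mul]; exact he
  have n3 : ‖4 * J0 d‖ ≤ 4 * (D2 * ((1 + d.re) * Real.exp (-(3 / 4 * d.re)))) := by
    rw [norm_mul, Complex.norm_ofNat]
    exact mul_le_mul_of_nonneg_left hJd (by norm_num)
  have n4 : D1 * Real.exp (-(7 / 8 * d.re)) ≤ D1 * ((1 + d.re) * Real.exp (-(3 / 4 * d.re))) := by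
    refine mul_le_mul_of_nonneg_left ?_ hD1
    have l1 : Real.exp (-(7 / 8 * d.re)) ≤ Real.exp (-(3 / 4 * d.re)) :=
      Real.exp_le_exp.2 (by linarith)
    have l2 : 0 < Real.exp (-(3 / 4 * d.re)) := Real.exp_pos _
    nlinarith
  have n5 : (D1 + 4 * D2) * ((1 + d.re) * Real.exp (-(3 / 4 * d.re))) ≤ Real.exp (-(d.re / 2)) := by
    have l1 := hexp d.re (by linarith)
    have l2 : (D1 + 4 * D2) * (1 + d.re) ≤ Real.exp (1 / 4 * d.re) := by
      have l3 : (D1 + 4 * D2) * (1 + d.re) * K ≤ Real.exp (1 / 4 * d.re) * K := by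
        calc (D1 + 4 * D2) * (1 + d.re) * K = ((D1 + 4 * D2) * K) * (1 + d.re) := by ring
          _ ≤ (1 + d.re) * (1 + d.re) := mul_le_mul_of_nonneg_right (by linarith) (by linarith)
          _ = (1 + d.re) ^ 2 := by ring
          _ ≤ K * Real.exp (1 / 4 * d.re) := l1
          _ = _ := by ring
      exact le_of_mul_le_mul_right l3 hK
    calc (D1 + 4 * D2) * ((1 + d.re) * Real.exp (-(3 / 4 * d.re)))
        = ((D1 + 4 * D2) * (1 + d.re)) * Real.exp (-(3 / 4 * d.re)) := by ring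
      _ ≤ Real.exp (1 / 4 * d.re) * Real.exp (-(3 / 4 * d.re)) :=
          mul_le_mul_of_nonneg_right l2 (Real.exp_pos _).le
      _ = _ := by rw [← Real.exp_add]; ring_nf
  have n6 : Real.exp (-(d.re / 2)) ≤ √(Real.pi / 2) * (Real.exp (-(d.re / 2)) / √(Real.pi / 2 - b)) := by
    rw [mul_div_assoc', le_div_iff₀ (Real.sqrt_pos.2 hs), mul_comm]
    exact mul_le_mul_of_nonneg_right (Real.sqrt_le_sqrt (by linarith)) (Real.exp_pos _).le
  rw [e1]
  refine (norm_add_le _ _).trans ?_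
  have n7 := norm_add_le (((1 / Real.pi : ℝ) : ℂ) * (∫ u in Ioi (0 : ℝ), ((‖zh u‖ ^ 4 : ℝ) : ℂ) *
    kf u d ^ 2) - Q.eval d) (((1 / Real.pi : ℝ) : ℂ) * (∫ u in Ioi (0 : ℝ), ((‖zh u‖ ^ 4 : ℝ) : ℂ) *
      (jf u d ^ 2 - kf u d ^ 2)))
  have n8 : (C1 + √(Real.pi / 2)) * Real.exp (-(d.re / 2)) / √(Real.pi / 2 - b) =
      C1 * (Real.exp (-(d.re / 2)) / √(Real.pi / 2 - b)) +
        √(Real.pi / 2) * (Real.exp (-(d.re / 2)) / √(Real.pi / 2 - b)) := by ring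
  rw [n8]
  linarith

end FMZ
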